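import Pool.Agent.MP_e5b4ec_an.Mid.AAb

open Finset

namespace Pool.Agent.MP_e5b4ec_an.Mid.AA

noncomputable def cT (k : ℕ) (x : ℝ) : ℝ :=
  ∑ j ∈ range k, (-1) ^ j * x ^ (2 * j) / ((2 * j).factorial : ℝ)

noncomputable def sT (k : ℕ) (x : ℝ) : ℝ :=
  ∑ j ∈ range k, (-1) ^ j * x ^ (2 * j + 1) / ((2 * j + 1).factorial : ℝ)

theorem exp_sum (x : ℝ) (k : ℕ) :
    ∑ m ∈ range (2 * k), ((x : ℂ) * Complex.I) ^ m / (m.factorial : ℂ) =
      (cT k x : ℂ) + (sT k x : ℂ) * Complex.I := by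
  induction k with
  | zero => simp [cT, sT]
  | succ k ih =>
    rw [show 2 * (k + 1) = 2 * k + 1 + 1 by ring, sum_range_succ, sum_range_succ, ih, cT, sT, cT, sT,
      sum_range_succ, sum_range_succ, mul_pow, mul_pow, pow_succ Complex.I, pow_mul Complex.I,
      Complex.I_sq]
    push_cast
    ring

theorem exp_T {x : ℝ} (hx : |x| ≤ 8) :
    |Real.cos x - cT 23 x| ≤ 147 / 2 ^ 60 ∧ |Real.sin x - sT 23 x| ≤ 147 / 2 ^ 60 := by
  have hn : ‖(x : ℂ) * Complex.I‖ = |x| := by simp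
  have h := Complex.exp_bound' (x := x * Complex.I) (n := 2 * 23) (by rw [hn]; norm_num; linarith)
  have b : ‖(x : ℂ) * Complex.I‖ ^ (2 * 23) / ((2 * 23 : ℕ).factorial : ℝ) * 2 ≤ 147 / 2 ^ 60 := by
    rw [hn]
    have := pow_le_pow_left₀ (abs_nonneg x) hx 46
    norm_num [Nat.factorial] at this ⊢
    linarith
  rw [exp_sum] at h
  have h1 := (Complex.abs_re_le_norm _).trans (h.trans b)
  have h2 := (Complex.abs_im_le_norm _).trans (h.trans b)
  simp only [Complex.sub_re, Complex.exp_ofReal_mul_I_re, Complex.add_re, Complex.ofReal_re,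
    Complex.mul_re, Complex.I_re, mul_zero, Complex.ofReal_im, Complex.I_im, mul_one, sub_self,
    add_zero, Complex.sub_im, Complex.exp_ofReal_mul_I_im, Complex.add_im, Complex.mul_im,
    zero_add] at h1 h2
  exact ⟨h1, h2⟩

theorem hn_r (u c0 c1 c2 c3 c4 c5 c6 c7 c8 c9 c10 c11 : ℕ) :
    (hn u c0 c1 c2 c3 c4 c5 c6 c7 c8 c9 c10 c11 : ℝ) = c0 + u * (c1 + u * (c2 + u * (c3 + u * (c4 +
      u * (c5 + u * (c6 + u * (c7 + u * (c8 + u * (c9 + u * (c10 + u * c11)))))))))) := by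
  unfold hn
  simp only [addE, mulE, Nat.cast_add, Nat.cast_mul]

theorem sl_r (a k : ℕ) : ((Nat.shiftLeft a k : ℕ) : ℝ) = a * 2 ^ k := by
  rw [slE, Nat.cast_mul, Nat.cast_pow, Nat.cast_ofNat]

set_option exponentiation.threshold 3000 in
theorem cos_poly (n : ℕ) : (cosP (Nat.mul (sq n) (sq n)) : ℝ) -
    (Nat.mul (sq n) (cosN (Nat.mul (sq n) (sq n))) : ℕ) = cT 23 (n / 2 ^ 60) * 2 ^ 60 * cDc := by
  rw [mulE (sq n) (cosN _), Nat.cast_mul]
  unfold cosP cosN cDc cT sq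
  rw [hn_r, hn_r]
  simp only [mulE, sl_r, Nat.cast_mul, sum_range_succ, sum_range_zero]
  simp only [Nat.factorial, Nat.succ_eq_add_one, Nat.reduceMul, Nat.reduceAdd, Nat.cast_ofNat,
    Nat.cast_one, Nat.cast_zero]
  ring

set_option exponentiation.threshold 3000 in
theorem sin_poly (n : ℕ) : ((Nat.mul n (sinP (Nat.mul (sq n) (sq n))) : ℕ) : ℝ) -
    (Nat.mul (Nat.mul n (sq n)) (sinN (Nat.mul (sq n) (sq n))) : ℕ) =
      sT 23 (n / 2 ^ 60) * 2 ^ 60 * cDs := by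
  rw [mulE n (sinP _), mulE _ (sinN _), Nat.cast_mul, Nat.cast_mul]
  unfold sinP sinN cDs sT sq
  rw [hn_r, hn_r]
  simp only [mulE, sl_r, Nat.cast_mul, sum_range_succ, sum_range_zero]
  simp only [Nat.factorial, Nat.succ_eq_add_one, Nat.reduceMul, Nat.reduceAdd, Nat.cast_ofNat,
    Nat.cast_one, Nat.cast_zero]
  ring

theorem cDc_eq : cDc' = Nat.shiftLeft cDc 128 := by decide +kernel

theorem cDs_eq : cDs' = Nat.shiftLeft cDs 128 := by decide +kernel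

theorem cDc_pos : 0 < cDc := by decide +kernel

theorem cDs_pos : 0 < cDs := by decide +kernel

attribute [local irreducible] cosP cosN sinP sinN cDc cDs cDc' cDs'

theorem quot_spec {P N D Q : ℕ} {T f : ℝ} (hD : 0 < D)
    (hQ : Q = Nat.div (Nat.sub (Nat.add P (Nat.shiftLeft D 128)) N) D)
    (h : (P : ℝ) - N = T * 2 ^ 60 * D) (hT : |f - T| ≤ 147 / 2 ^ 60) (hf : |f| ≤ 1) :
    |f * 2 ^ 60 - ((Q : ℝ) - 2 ^ 128)| ≤ 150 := by
  have D0 : (0 : ℝ) < D := by exact_mod_cast hD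
  rw [abs_le] at hT hf
  have h1 : ((P + D * 2 ^ 128 : ℕ) : ℝ) - N = (T * 2 ^ 60 + 2 ^ 128) * D := by
    push_cast
    linarith
  have h2 : N ≤ P + D * 2 ^ 128 := by
    have : 0 ≤ (T * 2 ^ 60 + 2 ^ 128) * D := mul_nonneg (by linarith [hT.2, hf.1]) D0.le
    have : (N : ℝ) ≤ (P + D * 2 ^ 128 : ℕ) := by linarith
    exact_mod_cast this
  have h3 := nfloor (P + D * 2 ^ 128 - N) hD
  rw [Nat.cast_sub h2, h1, mul_div_cancel_right₀ _ D0.ne'] at h3
  rw [hQ, slE]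
  change |f * 2 ^ 60 - ((((P + D * 2 ^ 128 - N) / D : ℕ) : ℝ) - 2 ^ 128)| ≤ 150
  rw [abs_le]
  constructor <;> linarith [h3.1, h3.2, hT.1, hT.2]

theorem dH_z (a : ℕ) : (dH a : ℤ) = |(a : ℤ) - 2 ^ 128| := by
  simp only [dH, cH_eq, addE, subE]
  rcases le_total a (2 ^ 128) with h | h
  · rw [abs_of_nonpos (by omega)]; omega
  · rw [abs_of_nonneg (by omega)]; omega

theorem trig_spec {a : ℕ} {c : ℤ} (ha : (a : ℤ) = c + 2 ^ 128) (hc : |c| ≤ 2 ^ 63) :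
    |Real.cos (c / 2 ^ 60) * 2 ^ 60 - ((cosH a : ℝ) - 2 ^ 128)| ≤ 150 ∧
      |Real.sin (c / 2 ^ 60) * 2 ^ 60 - ((sinH a : ℝ) - 2 ^ 128)| ≤ 150 := by
  have h0 : (dH a : ℤ) = |c| := by rw [dH_z, ha, add_sub_cancel_right]
  have h1 : (dH a : ℝ) = |(c : ℝ)| := by exact_mod_cast h0
  have h2 : |(c : ℝ)| ≤ 2 ^ 63 := by exact_mod_cast hc
  obtain ⟨t1, t2⟩ := exp_T (x := dH a / 2 ^ 60) (by
    rw [h1, abs_div, abs_abs, abs_of_pos (by norm_num : (0 : ℝ) < 2 ^ 60)]; linarith)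
  have q1 := quot_spec (Q := cosH a) cDc_pos (by rw [cosH, cos1, cos2, cDc_eq])
    (cos_poly (dH a)) t1 (Real.abs_cos_le_one _)
  have q2 := quot_spec (Q := sin1 (dH a) (sq (dH a))) cDs_pos (by rw [sin1, sin2, cDs_eq])
    (sin_poly (dH a)) t2 (Real.abs_sin_le_one _)
  unfold sinH
  generalize cosH a = s' at *
  generalize sin1 (dH a) (sq (dH a)) = s at *
  rw [h1] at q1 q2
  cases hb : Nat.ble cH a
  · have : ¬ cH ≤ a := fun h => by rw [Nat.ble_eq_true_of_le h] at hb; cases hb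
    rw [cH_eq] at this
    have c0 : (c : ℝ) ≤ 0 := by exact_mod_cast (show c ≤ 0 by omega)
    rw [abs_of_nonpos c0, neg_div] at q1 q2
    rw [Real.cos_neg] at q1
    rw [Real.sin_neg, abs_le] at q2
    have s1 := Real.neg_one_le_sin (c / 2 ^ 60)
    have s2 : s ≤ 2 ^ 129 := by
      have : (s : ℝ) ≤ 2 ^ 129 := by linarith [q2.1]
      exact_mod_cast this
    refine ⟨q1, ?_⟩
    rw [cond_false, show c2H = 2 ^ 129 by decide +kernel, subE, Nat.cast_sub s2, abs_le]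
    push_cast
    constructor <;> linarith [q2.1, q2.2]
  · have := Nat.le_of_ble_eq_true hb
    rw [cH_eq] at this
    have c0 : 0 ≤ (c : ℝ) := by exact_mod_cast (show 0 ≤ c by omega)
    rw [abs_of_nonneg c0] at q1 q2
    rw [cond_true]
    exact ⟨q1, q2⟩

theorem taylor3 {f g t : ℝ} (hf : |f| ≤ 1) (hg : |g| ≤ 1) (ht : |t| ≤ 1) :
    |f * Real.cos t + g * Real.sin t - f - g * t + f * t ^ 2 / 2| ≤ |t| ^ 3 / 3 := by
  have h1 := Real.cos_bound ht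
  have h2 := Real.sin_bound ht
  have t0 := abs_nonneg t
  have h3 : |t| ^ 4 ≤ |t| ^ 3 := pow_le_pow_of_le_one t0 ht (by norm_num)
  have h4 : |t| ^ 5 ≤ |t| ^ 3 := pow_le_pow_of_le_one t0 ht (by norm_num)
  have h5 : |Real.sin t - t| ≤ |t| ^ 3 / 100 + |t| ^ 3 / 6 := by
    have := abs_sub (Real.sin t - (t - t ^ 3 / 6)) (t ^ 3 / 6)
    rw [abs_div (t ^ 3), abs_pow, show Real.sin t - (t - t ^ 3 / 6) - t ^ 3 / 6 = Real.sin t - t by
      ring, abs_of_pos (by norm_num : (0 : ℝ) < 6)] at this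
    linarith
  have h6 : |f * (Real.cos t - (1 - t ^ 2 / 2))| ≤ |Real.cos t - (1 - t ^ 2 / 2)| := by
    rw [abs_mul]; exact mul_le_of_le_one_left (abs_nonneg _) hf
  have h7 : |g * (Real.sin t - t)| ≤ |Real.sin t - t| := by
    rw [abs_mul]; exact mul_le_of_le_one_left (abs_nonneg _) hg
  have h8 := abs_add_le (f * (Real.cos t - (1 - t ^ 2 / 2))) (g * (Real.sin t - t))
  have h9 : 0 ≤ |t| ^ 3 := by positivity
  rw [show f * Real.cos t + g * Real.sin t - f - g * t + f * t ^ 2 / 2 =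
    f * (Real.cos t - (1 - t ^ 2 / 2)) + g * (Real.sin t - t) by ring]
  linarith

end Pool.Agent.MP_e5b4ec_an.Mid.AA
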