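import Pool.Agent.MP_e5b4ec_an.Mid.AAm
import Pool.Agent.MP_e5b4ec_an.Mid.AAt

open Real

namespace Pool.Agent.MP_e5b4ec_an.Mid

namespace AA

theorem cI_eq : cI = cst 0 (2 ^ 60) := by decide +kernel
theorem c63_eq : c63 = 2 ^ 63 := by decide +kernel
theorem c122_eq : c122 = 2 ^ 122 := by decide +kernel
theorem c124_eq : c124 = 2 ^ 124 := by decide +kernel
theorem cE_eq : cE = 451 * 2 ^ 60 := by decide +kernel
theorem c3O_eq : c3O = 3 * 2 ^ 60 := by decide +kernel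
theorem c2H_eq : c2H = 2 ^ 129 := by decide +kernel

attribute [local irreducible] cU cHU cL cK0 cK1 cK2 cG cU1 cHU1 cHU2 cB1 cV cW cB2 cR cI

variable {e : ℕ → ℝ} {x y : ℝ} {A B : ℕ}

theorem enc_I (he : Eps e) (h : |x| ≤ 1) : Enc e x cI := by
  rw [cI_eq]
  refine enc_cst he ?_
  rw [Int.cast_zero, sub_zero, abs_mul]
  push_cast
  rw [abs_of_pos (by norm_num : (0 : ℝ) < 2 ^ 60)]
  linarith

theorem tr_core {y f g T q h0 h1 d t F G c w : ℝ} (hq : q ≤ 2 ^ 60) (hT : |T| ≤ q) (ht : |t| ≤ 1)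
    (hy : |y - f - g * (T / 2 ^ 60) + f * (T / 2 ^ 60) ^ 2 / 2| ≤ |T / 2 ^ 60| ^ 3 / 3)
    (hF : |f * 2 ^ 60 - F| ≤ 150) (hG : |g * 2 ^ 60 - G| ≤ 150)
    (hS : |T ^ 2 - h0 / 2 - h1 / 2 * t| ≤ d / 2)
    (hc : |F * (2 ^ 122 - h0) / 2 ^ 62 - c| ≤ 1) (hw : |F * h1 / 2 ^ 62 - w| ≤ 1) :
    |y * 2 ^ 120 - G * T - c + w * t| ≤
      |F| * d / 2 ^ 62 + q * (q * q) / (3 * 2 ^ 60) + 450 * 2 ^ 60 := by
  have a0 : |T / 2 ^ 60| ^ 3 ≤ q * (q * q) / 2 ^ 180 := by
    have := pow_le_pow_left₀ (abs_nonneg T) hT 3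
    rw [abs_div, abs_of_pos (by norm_num : (0 : ℝ) < 2 ^ 60), div_pow]
    linarith
  have hT' := hT.trans hq
  have a1 := abs_le.1 (abs_mul_le' hG hT')
  have a2 := abs_le.1 (abs_mul_le' hF (abs_mul_le' hT' hT'))
  have a3 := abs_le.1 (abs_mul_le' (le_refl |F|) hS)
  have a4 := abs_le.1 (abs_mul_le' hw ht)
  generalize |T / 2 ^ 60| ^ 3 = z at *
  rw [abs_le] at hy hF hc ⊢
  constructor <;> linarith [a1.1, a1.2, a2.1, a2.2, a3.1, a3.2, a4.1, a4.2, hy.1, hy.2, hF.1, hF.2,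
    hc.1, hc.2]

theorem shift62 {F' h : ℕ} {F : ℤ} (hF : (F' : ℤ) = F + 2 ^ 128) (h1 : |F| ≤ 2 ^ 61)
    (h2 : h ≤ 2 ^ 122) : ∃ c : ℤ, ((Nat.shiftRight (Nat.mul F' h) 62 : ℕ) : ℤ) = c + h * 2 ^ 66 ∧
      |c| ≤ 2 ^ 121 ∧ |(F : ℝ) * h / 2 ^ 62 - c| ≤ 1 := by
  have a1 : |F * h| ≤ 2 ^ 61 * 2 ^ 122 := abs_mul_lez h1 (by rw [Nat.abs_cast]; exact_mod_cast h2)
  have a2 : ((F' * h : ℕ) : ℤ) = F * h + 2 ^ 128 * h := by rw [Nat.cast_mul, hF]; ring
  have a3 := ifloor (F * h) (d := 2 ^ 62) (by norm_num)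
  refine ⟨F * h / 2 ^ 62, ?_, ?_, ?_⟩
  · rw [sr_eq, mulE]
    omega
  · rw [abs_le] at a1 ⊢
    omega
  · rw [Int.cast_mul, Int.cast_natCast, Int.cast_pow, Int.cast_ofNat] at a3
    rw [abs_le]
    constructor <;> linarith [a3.1, a3.2]

theorem Enc.tr (he : Eps e) (h : Enc e x A) {F' G' : ℕ} (hy : |y| ≤ 1)
    (H : ∀ c : ℤ, ((Nat.land A cB1 : ℕ) : ℤ) = c + 2 ^ 128 → |c| ≤ 2 ^ 63 → ∃ f g : ℝ,
      |f| ≤ 1 ∧ |g| ≤ 1 ∧ y = f * Real.cos (x - c / 2 ^ 60) + g * Real.sin (x - c / 2 ^ 60) ∧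
      |f * 2 ^ 60 - ((F' : ℝ) - 2 ^ 128)| ≤ 150 ∧ |g * 2 ^ 60 - ((G' : ℝ) - 2 ^ 128)| ≤ 150) :
    Enc e y (tr A (ab A) F' G') := by
  rw [AA.tr]
  refine ble_ind (fun _ => enc_I he hy) fun hb => ?_
  refine ble_ind (fun h1 => ?_) fun _ => enc_I he hy
  refine ble_ind (fun h2 => ?_) fun _ => enc_I he hy
  obtain ⟨l, d⟩ := h.dec he hb
  rw [c63_eq] at h1
  rw [cO_eq] at h2
  obtain ⟨f, g, f1, g1, rfl, f2, g2⟩ := H (l 0) d.c (d.l0.trans (by exact_mod_cast h1))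
  have hs := d.sq' he rfl rfl
  have hr := d.rad' he
  have hrr := d.rr
  have hli := d.li
  have her := d.err
  have hcw := d.cw
  have htq := d.tq
  rw [tr1, tr2]
  have hv : Nat.sub (rad (ab A)) (a1 (ab A)) + a1 (ab A) = rad (ab A) := by rw [subE]; omega
  generalize Nat.sub (rad (ab A)) (a1 (ab A)) = v at *
  generalize a1 (ab A) = t at *
  generalize rad (ab A) = q at *
  have q1 : q * q ≤ 2 ^ 60 * 2 ^ 60 := Nat.mul_le_mul h2 h2
  have q2 : sq t + sq v ≤ 2 ^ 120 := by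
    have : q * q = t * t + v * v + 2 * (t * v) := by rw [← hv]; ring
    simp only [sq, mulE]
    omega
  have q3 : sqe t v ≤ 2 ^ 123 := by
    have : (t + 1) * (v + 1) ≤ (2 ^ 60 + 1) * (2 ^ 60 + 1) := Nat.mul_le_mul (by omega) (by omega)
    have : v * v ≤ 2 ^ 60 * 2 ^ 60 := Nat.mul_le_mul (by omega) (by omega)
    simp only [sqe, sq, mulE, addE, slE]
    omega
  have q4 : q * (q * q) ≤ 2 ^ 60 * (2 ^ 60 * 2 ^ 60) := Nat.mul_le_mul h2 q1
  obtain ⟨F, hF⟩ : ∃ F : ℤ, (F' : ℤ) = F + 2 ^ 128 := ⟨F' - 2 ^ 128, by ring⟩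
  obtain ⟨G, hG⟩ : ∃ G : ℤ, (G' : ℤ) = G + 2 ^ 128 := ⟨G' - 2 ^ 128, by ring⟩
  have F1 : (F' : ℝ) - 2 ^ 128 = F := by
    have : (F' : ℝ) = F + 2 ^ 128 := by exact_mod_cast hF
    linarith
  have G1 : (G' : ℝ) - 2 ^ 128 = G := by
    have : (G' : ℝ) = G + 2 ^ 128 := by exact_mod_cast hG
    linarith
  rw [F1] at f2
  rw [G1] at g2
  have bd : ∀ {f : ℝ} {F : ℤ}, |f| ≤ 1 → |f * 2 ^ 60 - F| ≤ 150 → |F| ≤ 2 ^ 61 := fun {f F} a b => by
    have : |(F : ℝ)| ≤ 2 ^ 61 := by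
      rw [abs_le] at a b ⊢
      constructor <;> linarith [a.1, a.2, b.1, b.2]
    exact_mod_cast this
  have F2 := bd f1 f2
  have G2 := bd g1 g2
  have F3 : (dH F' : ℤ) = |F| := by rw [dH_z, hF, add_sub_cancel_right]
  have G3 : (dH G' : ℤ) = |G| := by rw [dH_z, hG, add_sub_cancel_right]
  have hf : ((Nat.sub c122 (Nat.add (sq t) (sq v)) : ℕ) : ℝ) = 2 ^ 122 - (sq t + sq v) := by
    rw [subE, addE, c122_eq, Nat.cast_sub (by omega)]
    push_cast
    ring
  obtain ⟨c, c1, c2, c3⟩ := shift62 (h := Nat.sub c122 (Nat.add (sq t) (sq v))) hF F2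
    (by rw [subE, c122_eq]; omega)
  obtain ⟨w, w1, w2, w3⟩ := shift62 (h := sq t) hF F2 (by omega)
  rw [hf] at c3
  generalize Nat.sub c122 (Nat.add (sq t) (sq v)) = ff at *
  have b1 := (nfloor (dH F' * sqe t v) (d := 2 ^ 62) (by norm_num)).2
  have b2 := (nfloor (q * (q * q)) (d := 3 * 2 ^ 60) (by norm_num)).2
  have b3 : dH F' * sqe t v ≤ 2 ^ 61 * 2 ^ 123 := Nat.mul_le_mul (by omega) q3
  have b4 : dH G' * er A ≤ 2 ^ 61 * 2 ^ 60 := Nat.mul_le_mul (by omega) (by omega)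
  have hR : Nat.add (Nat.add (Nat.mul (dH G') (er A))
      (Nat.shiftRight (Nat.mul (dH F') (sqe t v)) (nat_lit 62)))
      (Nat.add (Nat.div (Nat.mul q (sq q)) c3O) cE) =
      dH G' * er A + dH F' * sqe t v / 2 ^ 62 + (q * (q * q) / (3 * 2 ^ 60) + 451 * 2 ^ 60) := by
    rw [addE, addE, addE, sr_eq, mulE, mulE, mulE, sq, mulE, c3O_eq, cE_eq]
    rfl
  have q5 : (q : ℝ) ≤ 2 ^ 60 := by exact_mod_cast h2
  have ex : x - l 0 / 2 ^ 60 = (x * 2 ^ 60 - l 0) / 2 ^ 60 := by ring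
  have core := abs_le.1 (tr_core q5 hr (he.le 12) (ex ▸ taylor3 f1 g1 (t := x - l 0 / 2 ^ 60) (by
    rw [ex, abs_div, abs_of_pos (by norm_num : (0 : ℝ) < 2 ^ 60), div_le_one (by norm_num)]
    exact hr.trans q5)) f2 g2 hs c3 w3)
  rw [hR, c124_eq, ex]
  refine fin_spec he (cmb G l 0 l (c - G * l 0) (-w)) ?_ (cmb_bd ?_ fun i i1 i2 => ?_) (by omega) ?_
  · simp only [addE, Nat.cast_add, sl12, sl12', c1, w1]
    simp only [mulE, Nat.cast_add, Nat.cast_mul, sl_z, hcw, cK2_z, cU1_z, Sz_cmb, hG]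
    ring
  · rw [show G * l 0 + 0 * l 0 + (c - G * l 0) = c by ring]
    exact c2.trans (by norm_num)
  · have := abs_mul_lez G2 (hli i i1 i2)
    rw [zero_mul, abs_zero, abs_neg]
    omega
  · have G4 : |(G : ℝ)| ≤ dH G' := by exact_mod_cast G3.ge
    have F4 : (dH F' : ℝ) = |(F : ℝ)| := by exact_mod_cast F3
    have c4 := abs_le.1 (abs_mul_le' G4 her)
    rw [dot_cmb he, Nat.cast_add, Nat.cast_add, Nat.cast_add]
    generalize ((dH F' * sqe t v / 2 ^ 62 : ℕ) : ℝ) = z1 at *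
    generalize ((q * (q * q) / (3 * 2 ^ 60) : ℕ) : ℝ) = z2 at *
    push_cast at b1 b2 ⊢
    rw [F4] at b1
    rw [abs_le]
    constructor <;> linarith [core.1, core.2, c4.1, c4.2]

theorem Enc.sin (he : Eps e) (h : Enc e x A) : Enc e (Real.sin x) (sin A) := by
  rw [AA.sin, frc_eq]
  refine h.tr he (abs_sin_le_one x) fun c h1 h2 => ?_
  obtain ⟨a, b⟩ := trig_spec h1 h2
  refine ⟨_, _, abs_sin_le_one _, abs_cos_le_one _, ?_, b, a⟩
  rw [← sin_add, add_sub_cancel]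

theorem Enc.cos (he : Eps e) (h : Enc e x A) : Enc e (Real.cos x) (cos A) := by
  rw [AA.cos, frc_eq]
  refine h.tr he (abs_cos_le_one x) fun c h1 h2 => ?_
  obtain ⟨a, b⟩ := trig_spec h1 h2
  refine ⟨_, -Real.sin (c / 2 ^ 60), abs_cos_le_one _, by rw [abs_neg]; exact abs_sin_le_one _, ?_,
    a, ?_⟩
  · rw [neg_mul, ← sub_eq_add_neg, ← cos_add, add_sub_cancel]
  · generalize sinH (Nat.land A cB1) = s at *
    have s1 := Real.sin_le_one (c / 2 ^ 60)
    rw [abs_le] at b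
    have s2 : s ≤ 2 ^ 129 := by
      have : (s : ℝ) ≤ 2 ^ 129 := by linarith [b.1]
      exact_mod_cast this
    rw [c2H_eq, subE, Nat.cast_sub s2, abs_le]
    push_cast
    constructor <;> linarith [b.1, b.2]

theorem enc_q (he : Eps e) (n : ℤ) (d : ℕ) : Enc e ((n : ℝ) / d) (cq n d) := by
  rw [cq]
  refine enc_cst he ?_
  change |_ - ((n * (cO : ℕ) / (d : ℤ) : ℤ) : ℝ)| ≤ _
  rcases Nat.eq_zero_or_pos d with rfl | hd
  · simp
  · have := ifloor (n * (cO : ℕ)) (d := d) (by exact_mod_cast hd)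
    generalize (n * (cO : ℕ) / (d : ℤ) : ℤ) = z at *
    rw [cO_eq, Int.cast_mul, Int.cast_natCast, Int.cast_natCast, Nat.cast_pow, Nat.cast_ofNat,
      mul_div_right_comm] at this
    rw [Nat.cast_one, abs_le]
    constructor <;> linarith [this.1, this.2]

theorem enc_pi (he : Eps e) : Enc e π cPi := by
  rw [cPi]
  refine enc_cst he ?_
  have h1 := pi_gt_d20
  have h2 := pi_lt_d20
  rw [abs_le]
  constructor <;> norm_num at h1 h2 ⊢ <;> linarith

/-- the first `j` registers of `R` enclose the values `E`, the others are unused -/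
structure Inv (e E : ℕ → ℝ) (R j : ℕ) : Prop where
  lt : R < 2 ^ (2880 * j)
  enc : ∀ i < j, Enc e (E i) (get R i)

theorem get_eq (R i : ℕ) : get R i = (R / 2 ^ (2880 * i) % 2 ^ 2880) ^^^ cL := by
  rw [get, Nat.xor_eq, Nat.land_eq, sr_eq, mulE, mul_comm i,
    show cR = 2 ^ 2880 - 1 by decide +kernel, Nat.and_two_pow_sub_one_eq_mod]

variable {E K : ℕ → ℝ} {R S j : ℕ}

theorem Inv.get (h : Inv e E R j) (i : ℕ) : Enc e (E i) (get R i) := by
  by_cases hi : i < j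
  · exact h.enc i hi
  · rw [get_eq, Nat.div_eq_of_lt (h.lt.trans_le (Nat.pow_le_pow_right (by norm_num) (by omega))),
      Nat.zero_mod, Nat.zero_xor]
    exact enc_bad

theorem Inv.congr {E' : ℕ → ℝ} (h : Inv e E R j) (hE : ∀ i < j, E' i = E i) : Inv e E' R j :=
  ⟨h.lt, fun i hi => by rw [hE i hi]; exact h.enc i hi⟩

theorem inv_zero : Inv e E 0 0 := ⟨by simp, fun i hi => by omega⟩

theorem Inv.app (h : Inv e E R j) (h' : Enc e (E j) A) : Inv e E (app R j A) (j + 1) := by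
  obtain ⟨z, z1, z2, z3⟩ : ∃ z, z < 2 ^ 2880 ∧ Enc e (E j) (z ^^^ cL) ∧
      AA.app R j A = R + z * 2 ^ (2880 * j) := by
    refine ⟨cond (Nat.ble cL A) (nat_lit 0) (Nat.xor A cL), ?_, ?_, ?_⟩
    · have hL : cL < 2 ^ 2880 := by decide +kernel
      exact ble_ind (P := fun z => z < 2 ^ 2880) (fun _ => Nat.pos_of_ne_zero (pow_ne_zero _ two_ne_zero))
        fun h => Nat.xor_lt_two_pow (h.trans hL) hL
    · refine ble_ind (P := fun z => Enc e (E j) (z ^^^ cL)) (fun _ => ?_) fun _ => ?_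
      · exact (Nat.zero_xor cL).symm ▸ enc_bad
      · rwa [Nat.xor_eq, Nat.xor_xor_cancel_right]
    · rw [AA.app, addE, slE, mulE, mul_comm j]
  have p : ∀ i, 0 < 2 ^ i := fun i => Nat.pos_of_ne_zero (pow_ne_zero _ two_ne_zero)
  have hl := h.lt
  rw [z3]
  refine ⟨?_, fun i hi => ?_⟩
  · have h2 : (z + 1) * 2 ^ (2880 * j) ≤ 2 ^ 2880 * 2 ^ (2880 * j) := Nat.mul_le_mul_right _ z1
    rw [mul_add, mul_one, add_comm (2880 * j), pow_add]
    rw [add_mul, one_mul] at h2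
    generalize 2 ^ 2880 * 2 ^ (2880 * j) = u at *
    omega
  · rcases Nat.lt_succ_iff_lt_or_eq.1 hi with h1 | rfl
    · obtain ⟨k, rfl⟩ := Nat.exists_eq_add_of_lt h1
      have := h.enc i h1
      rw [get_eq] at this ⊢
      rwa [show 2880 * (i + k + 1) = 2880 * k + 2880 + 2880 * i by ring, pow_add, pow_add,
        ← mul_assoc, ← mul_assoc, Nat.add_mul_div_right _ _ (p _), Nat.add_mul_mod_self_right]
    · rwa [get_eq, Nat.add_mul_div_right _ _ (p _), Nat.div_eq_of_lt hl, zero_add,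
        Nat.mod_eq_of_lt z1]

theorem enc_ev (he : Eps e) {KR : ℕ} (hK : ∀ i, Enc e (K i) (get KR i))
    (hR : ∀ i, Enc e (E i) (get R i)) (t : Ex) : Enc e (t.ev K E) (ev KR R t) := by
  induction t with
  | v i => exact hR i
  | k i => exact hK i
  | q n d => exact enc_q he n d
  | pi => exact enc_pi he
  | add a b ha hb => exact ha.add hb
  | sub a b ha hb => exact ha.sub hb
  | mul a b ha hb => exact ha.mul he hb
  | inv a ha => exact ha.inv he
  | sin a ha => exact ha.sin he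
  | cos a ha => exact ha.cos he

theorem runK_cons (k : ℤ) (l : List ℤ) (j R : ℕ) :
    runK (k :: l) j R = runK l (j + 1) (app R j (cst k 0)) := by
  have : runK (k :: l) j R = frc (app R j (cst k 0)) 0 (runK l (Nat.add j (nat_lit 1))) := by
    delta runK
    rfl
  rw [this, frc_eq, addE]

theorem run_cons (KR : ℕ) (t : Ex) (l : List Ex) (j R : ℕ) :
    run KR (t :: l) j R = run KR l (j + 1) (app R j (ev KR R t)) := by
  have : run KR (t :: l) j R = frc (app R j (ev KR R t)) 0 (run KR l (Nat.add j (nat_lit 1))) := by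
    delta run
    rfl
  rw [this, frc_eq, addE]

theorem base0_cons (t : Ex) (l : List Ex) (j R : ℕ) :
    base0 (t :: l) j R = base0 l (j + 1) (app R j (sym j)) := by
  have : base0 (t :: l) j R = frc (app R j (sym j)) 0 (base0 l (Nat.add j (nat_lit 1))) := by
    delta base0
    rfl
  rw [this, frc_eq, addE]

theorem reb_cons (KR S : ℕ) (t : Ex) (l : List Ex) (j R : ℕ) :
    reb KR S (t :: l) j R = reb KR S l (j + 1) (app R j (resym j (ev KR S t))) := by
  have : reb KR S (t :: l) j R =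
      frc (app R j (resym j (ev KR S t))) 0 (reb KR S l (Nat.add j (nat_lit 1))) := by
    delta reb
    rfl
  rw [this, frc_eq, addE]

theorem inv_runK (he : Eps e) (l : List ℤ) : ∀ {j R : ℕ}, Inv e E R j →
    (∀ i, E (j + i) = Kof l i) → Inv e E (runK l j R) (j + l.length) := by
  induction l with
  | nil => exact fun h _ => h
  | cons k l ih =>
    intro j R h hE
    rw [runK_cons, List.length_cons, ← add_assoc, add_right_comm]
    refine ih (h.app (enc_cst he ?_)) fun i => ?_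
    · have := hE 0
      rw [add_zero] at this
      simp [this, Kof]
    · rw [add_right_comm, add_assoc, hE]
      simp [Kof]

theorem enc_K (he : Eps e) (l : List ℤ) (i : ℕ) : Enc e (Kof l i) (get (runK l 0 0) i) :=
  (inv_runK he l inv_zero fun i => by rw [zero_add]).get i

theorem enc_run (he : Eps e) {KR : ℕ} (hK : ∀ i, Enc e (K i) (get KR i)) (l : List Ex) :
    ∀ {j R : ℕ}, Inv e E R j → Dfs K E j l → ∀ i, Enc e (E i) (get (run KR l j R) i) := by
  induction l with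
  | nil => exact fun h _ => h.get
  | cons t l ih =>
    intro j R h hd
    rw [run_cons]
    exact ih (h.app (by rw [hd.1]; exact enc_ev he hK h.get t)) hd.2

theorem inv_base0 (l : List Ex) : ∀ {j R : ℕ}, Inv e E R j →
    (∀ i < l.length, Enc e (E (j + i)) (sym (j + i))) → Inv e E (base0 l j R) (j + l.length) := by
  induction l with
  | nil => exact fun h _ => h
  | cons t l ih =>
    intro j R h hE
    rw [base0_cons, List.length_cons, ← add_assoc, add_right_comm]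
    refine ih (h.app (hE 0 (by simp))) fun i hi => ?_
    rw [add_right_comm, add_assoc]
    exact hE (i + 1) (by simpa using hi)

theorem inv_reb {KR : ℕ} (l : List Ex) : ∀ {j R : ℕ}, Inv e E R j →
    (∀ i < l.length, Enc e (E (j + i)) (resym (j + i) (ev KR S (l.getD i Ex.pi)))) →
      Inv e E (reb KR S l j R) (j + l.length) := by
  induction l with
  | nil => exact fun h _ => h
  | cons t l ih =>
    intro j R h hE
    rw [reb_cons, List.length_cons, ← add_assoc, add_right_comm]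
    refine ih (h.app (hE 0 (by simp))) fun i hi => ?_
    rw [add_right_comm, add_assoc]
    exact hE (i + 1) (by simpa using hi)

theorem exists_eps {u p : ℝ} (h : |u| ≤ p) : ∃ t : ℝ, |t| ≤ 1 ∧ u = p * t := by
  rcases ((abs_nonneg u).trans h).eq_or_lt with rfl | hp
  · exact ⟨0, by simp, by simpa using h⟩
  · exact ⟨u / p, by rwa [abs_div, abs_of_pos hp, div_le_one hp], by field_simp⟩

theorem enc_reg0 (he : Eps e) {m0 : ℤ} {dl : ℕ} (h : x * 2 ^ 60 = m0 + dl * e 1) :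
    Enc e x (reg0 m0 dl) := by
  have e1 : ((Nat.shiftLeft 1 2432 : ℕ) : ℤ) = 2 ^ 128 * bz 12 := by decide +kernel
  have e2 : ((Nat.shiftLeft (Nat.add dl cH) 192 : ℕ) : ℤ) = (dl + 2 ^ 128) * bz 1 := by
    rw [sl_z, addE, Nat.cast_add, cH_z, bz_def]
  delta reg0
  by_cases hs : 2 ^ 128 ≤ Nat.add m0.natAbs dl
  · refine Or.inl (big_bad ?_ hs)
    rw [mk3_z, ← cHU2_z, Nat.cast_zero, zero_mul, add_zero]
    exact le_add_of_nonneg_left (add_nonneg (Nat.cast_nonneg _) (Nat.cast_nonneg _))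
  · rw [addE] at hs
    refine enc_mk3 he (c := m0) (a := dl) (b := 0) le_rfl (by norm_num) ?_ ?_ ?_ ?_ (Nat.zero_le _) ?_
    · rw [addE, addE, Nat.cast_add, Nat.cast_add, e1, e2, zero_add, Int.add_def,
        Int.ofNat_eq_natCast, cH_z, Int.toNat_of_nonneg (by omega)]
    · rw [addE, Int.abs_eq_natAbs]; omega
    · rw [addE, Nat.abs_cast]; omega
    · exact Nat.cast_nonneg _
    · rw [h]; simp

theorem enc_sym (he : Eps e) (j1 : 1 ≤ j) (j2 : j ≤ 10) (h : x = e (j + 1)) : Enc e x (sym j) := by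
  have e1 : ((Nat.add (Nat.add cH cS) (Nat.shiftLeft 1 2432) : ℕ) : ℤ) =
    0 + 2 ^ 128 + (0 + 2 ^ 128) * bz 1 + (0 + 2 ^ 128) * bz 12 := by decide +kernel
  delta sym
  rw [addE j]
  refine enc_mk3 he (by omega) (by omega) e1 (Nat.cast_nonneg _) (Nat.cast_nonneg _)
    (Nat.cast_nonneg _) le_rfl ?_
  rw [h, cO_eq]
  push_cast
  ring

theorem enc_resym (he : Eps e) (h : Enc e x A) : ∃ t : ℝ, |t| ≤ 1 ∧ ∀ e' j, Eps e' → e' 1 = e 1 →
    1 ≤ j → j ≤ 10 → e' (j + 1) = t → Enc e' x (resym j A) := by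
  by_cases hA : A < cL
  · obtain ⟨l, d⟩ := h.dec he hA
    obtain ⟨t, t1, t2⟩ := exists_eps d.w
    refine ⟨t, t1, fun e' j he' h1 j1 j2 h2 => ?_⟩
    delta resym
    refine ble_ind (fun _ => enc_bad) fun _ => ?_
    have a0 := d.l0
    have a1 := d.li 1 le_rfl (by norm_num)
    have a2 := d.li 12 (by norm_num) (by norm_num)
    have a3 := d.tt
    rw [addE j, subE, subE]
    refine enc_mk3 he' (by omega) (by omega) d.b2 (by omega) (by omega) (by omega) (by omega) ?_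
    rw [he'.h12, h1, ← he.h12, h2]
    linarith
  · refine ⟨0, by simp, fun e' j _ _ _ _ _ => ?_⟩
    delta resym
    exact ble_ind (fun _ => enc_bad) fun h => absurd h hA

theorem le1_spec (he : Eps e) (h : Enc e x A) (H : le1 A = true) : |x| ≤ 1 := by
  rw [le1] at H
  cases hb : Nat.ble cL A <;> rw [hb] at H
  · obtain ⟨l, d⟩ := h.dec he (not_le.1 fun h => by rw [Nat.ble_eq_true_of_le h] at hb; cases hb)
    rw [cond_false] at H
    have h1 := Nat.le_of_ble_eq_true H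
    rw [d.tt, cO_eq] at h1
    have h2 : (ac (ab A) : ℝ) + rad (ab A) ≤ 2 ^ 60 := by exact_mod_cast h1
    have h3 : |(l 0 : ℝ)| ≤ ac (ab A) := by exact_mod_cast d.l0
    have h4 := abs_le.1 (d.rad' he)
    rw [abs_le] at h3 ⊢
    constructor <;> linarith [h3.1, h3.2, h4.1, h4.2]
  · rw [cond_true] at H; cases H

theorem pos_spec (he : Eps e) (h : Enc e x A) (H : pos A = true) : 0 < x := by
  rw [pos] at H
  cases hb : Nat.ble cL A <;> rw [hb] at H
  · obtain ⟨l, d⟩ := h.dec he (not_le.1 fun h => by rw [Nat.ble_eq_true_of_le h] at hb; cases hb)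
    rw [cond_false] at H
    have h1 := Nat.le_of_ble_eq_true H
    have h2 := d.c
    rw [addE, addE, cH_eq] at h1
    have h3 : (rad (ab A) : ℤ) < l 0 := by omega
    have h4 : (rad (ab A) : ℝ) < l 0 := by exact_mod_cast h3
    linarith [(abs_le.1 (d.rad' he)).1]
  · rw [cond_true] at H; cases H

theorem cond_and {a b : Bool} (h : cond a b false = true) : a = true ∧ b = true := by
  cases a
  · cases h
  · exact ⟨rfl, h⟩

theorem allE_spec {KR : ℕ} {p : ℕ → Bool} (l : List Ex) (h : allE KR R p l = true) :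
    ∀ t ∈ l, p (ev KR R t) = true := by
  induction l with
  | nil => simp
  | cons t l ih =>
    have : cond (p (ev KR R t)) (allE KR R p l) false = true := h
    exact List.forall_mem_cons.2 ⟨(cond_and this).1, ih (cond_and this).2⟩

theorem allB_spec {KR m : ℕ} (l : List (List Ex × List Ex)) (h : allB KR R m l = true) :
    ∀ b ∈ l, allE KR (run KR b.1 m R) pos b.2 = true := by
  induction l with
  | nil => simp
  | cons t l ih =>
    have : cond (allE KR (run KR t.1 m R) pos t.2) (allB KR R m l) false = true := h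
    exact List.forall_mem_cons.2 ⟨(cond_and this).1, ih (cond_and this).2⟩

theorem pos_of_forall (l : List Ex) (h : ∀ t ∈ l, 0 < t.ev K E) : Pos K E l := by
  induction l with
  | nil => trivial
  | cons t l ih => exact ⟨h t (by simp), ih fun u hu => h u (by simp [hu])⟩

/-- new values of the symbols -/
noncomputable def mkE (a : ℝ) (t : ℕ → ℝ) (i : ℕ) : ℝ :=
  if i = 0 then 1 else if i = 1 then a else if i = 12 then 2 * a ^ 2 - 1 else t (i - 2)

theorem eps_mkE {a : ℝ} {t : ℕ → ℝ} (ha : |a| ≤ 1) (ht : ∀ i, |t i| ≤ 1) : Eps (mkE a t) := by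
  refine ⟨rfl, fun i => ?_, by simp [mkE]⟩
  unfold mkE
  split_ifs
  · simp
  · exact ha
  · have := abs_le.1 ha
    rw [abs_le]
    constructor <;> nlinarith [this.1, this.2]
  · exact ht _

theorem mkE_one (a : ℝ) (t : ℕ → ℝ) : mkE a t 1 = a := by simp [mkE]

theorem mkE_add (a : ℝ) (t : ℕ → ℝ) {i : ℕ} (hi : i < 10) : mkE a t (1 + i + 1) = t i := by
  rw [mkE, if_neg (by omega), if_neg (by omega), if_neg (by omega)]
  congr 1
  omega

variable {m0 : ℤ} {dl n : ℕ} {Kl : List ℤ} {dsA fs : List Ex} {a : ℝ}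

/-- the first `n + 1` registers are enclosed for some values of the symbols -/
def St (a : ℝ) (E : ℕ → ℝ) (R n : ℕ) : Prop := ∃ e, Eps e ∧ e 1 = a ∧ Inv e E R (n + 1)

theorem inv_one (he : Eps e) (h : E 0 * 2 ^ 60 = m0 + dl * e 1) :
    Inv e E (app 0 0 (reg0 m0 dl)) 1 := inv_zero.app (enc_reg0 he h)

theorem st_base0 (hn : n ≤ 10) (hl : fs.length = n) (ha : |a| ≤ 1) (h0 : E 0 * 2 ^ 60 = m0 + dl * a)
    (hz : ∀ i, 1 ≤ i → i ≤ n → |E i| ≤ 1) : St a E (base0 fs 1 (app 0 0 (reg0 m0 dl))) n := by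
  subst hl
  have he : Eps (mkE a fun i => if i < fs.length then E (1 + i) else 0) := eps_mkE ha fun i => by
    split_ifs
    · exact hz _ (by omega) (by omega)
    · simp
  refine ⟨_, he, mkE_one _ _, ?_⟩
  rw [add_comm fs.length]
  refine inv_base0 fs (inv_one he (by rwa [mkE_one])) fun i hi => ?_
  refine enc_sym he (by omega) (by omega) ?_
  rw [mkE_add _ _ (by omega), if_pos (by omega)]

theorem St.step (h : St a E R n) (hn : n ≤ 10) (hl : fs.length = n)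
    (h0 : E 0 * 2 ^ 60 = m0 + dl * a) (hd : Dfs (Kof Kl) E (n + 1) dsA)
    (hfix : ∀ i, i < n → E (i + 1) = (fs.getD i Ex.pi).ev (Kof Kl) E) :
    St a E (reb (runK Kl 0 0) (run (runK Kl 0 0) dsA (n + 1) R) fs 1 (app 0 0 (reg0 m0 dl))) n := by
  obtain ⟨e, he, h1, h⟩ := h
  have h2 := fun i => enc_resym he (enc_ev he (enc_K he Kl) (enc_run he (enc_K he Kl) dsA h hd)
    (fs.getD i Ex.pi))
  choose t t1 t2 using h2
  have he' := eps_mkE (h1 ▸ he.le 1 : |a| ≤ 1) t1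
  refine ⟨_, he', mkE_one _ _, ?_⟩
  have := inv_reb (KR := runK Kl 0 0) (S := run (runK Kl 0 0) dsA (n + 1) R) fs
    (inv_one (E := E) he' (by rwa [mkE_one])) fun i hi => by
      rw [add_comm 1 i, hfix i (by omega), add_comm i 1]
      exact t2 i _ _ he' (by rw [mkE_one, h1]) (by omega) (by omega) (mkE_add _ _ (by omega))
  rwa [hl, add_comm 1 n] at this

theorem contr_succ (KR R0 m t R : ℕ) : contr KR R0 m dsA fs (t + 1) R =
    contr KR R0 m dsA fs t (reb KR (run KR dsA m R) fs 1 R0) := rfl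

theorem St.contr (hn : n ≤ 10) (hl : fs.length = n)
    (h0 : E 0 * 2 ^ 60 = m0 + dl * a) (hd : Dfs (Kof Kl) E (n + 1) dsA)
    (hfix : ∀ i, i < n → E (i + 1) = (fs.getD i Ex.pi).ev (Kof Kl) E) (t : ℕ) : ∀ {R : ℕ},
    St a E R n → St a E (contr (runK Kl 0 0) (app 0 0 (reg0 m0 dl)) (n + 1) dsA fs t R) n := by
  induction t with
  | zero => exact fun h => h
  | succ t ih =>
    intro R h
    rw [contr_succ]
    exact ih (h.step hn hl h0 hd hfix)

theorem go_spec {it : ℕ} {bs : List (List Ex × List Ex)} (h : go m0 dl Kl n it dsA fs bs = true) :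
    n ≤ 10 ∧ fs.length = n ∧
      allE (runK Kl 0 0) (run (runK Kl 0 0) dsA (n + 1) (base0 fs 1 (app 0 0 (reg0 m0 dl)))) le1 fs
        = true ∧
      allB (runK Kl 0 0) (contr (runK Kl 0 0) (app 0 0 (reg0 m0 dl)) (n + 1) dsA fs (Nat.sub it 1)
        (reb (runK Kl 0 0) (run (runK Kl 0 0) dsA (n + 1) (base0 fs 1 (app 0 0 (reg0 m0 dl)))) fs 1
          (app 0 0 (reg0 m0 dl)))) (n + 1) bs = true := by
  rw [go] at h
  obtain ⟨h1, h⟩ := cond_and h
  obtain ⟨h2, h⟩ := cond_and h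
  rw [frc_eq, frc_eq, go1, frc_eq, addE] at h
  obtain ⟨h3, h⟩ := cond_and h
  rw [frc_eq] at h
  exact ⟨Nat.le_of_ble_eq_true h1, Nat.eq_of_beq_eq_true h2, h3, h⟩

theorem ev_congr {E' : ℕ → ℝ} {n : ℕ} (hE : ∀ i, i < n → E' i = E i) (t : Ex) (h : t.lt n = true) :
    t.ev K E' = t.ev K E := by
  induction t with
  | v i => exact hE i (Nat.blt_eq.mp h)
  | k i => rfl
  | q n d => rfl
  | pi => rfl
  | add a b ha hb | sub a b ha hb | mul a b ha hb =>
    simp only [Ex.lt, Bool.and_eq_true] at h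
    simp only [Ex.ev, ha h.1, hb h.2]
  | inv a ha | sin a ha | cos a ha => simp only [Ex.ev, ha h]

end AA

open AA in
theorem go_map {m0 : Int} {dl : Nat} {Kl : List Int} {n it : Nat} {dsA fs : List Ex}
    {bs : List (List Ex × List Ex)} (h : go m0 dl Kl n it dsA fs bs = true) {E : ℕ → ℝ}
    (hM : |E 0 * 2 ^ 60 - (m0 : ℝ)| ≤ (dl : ℝ)) (hz : ∀ i, 1 ≤ i → i ≤ n → |E i| ≤ 1)
    (hd : Dfs (Kof Kl) E (n + 1) dsA) : ∀ f ∈ fs, |f.ev (Kof Kl) E| ≤ 1 := by
  obtain ⟨hn, hl, h1, -⟩ := go_spec h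
  obtain ⟨a, ha, h0⟩ := exists_eps hM
  obtain ⟨e, he, -, hI⟩ := st_base0 (m0 := m0) (dl := dl) hn hl ha (by linarith) hz
  exact fun f hf => le1_spec he (enc_ev he (enc_K he Kl) (enc_run he (enc_K he Kl) dsA hI hd) f)
    (allE_spec fs h1 f hf)

open AA in
theorem go_pos {m0 : Int} {dl : Nat} {Kl : List Int} {n it : Nat} {dsA fs : List Ex}
    {bs : List (List Ex × List Ex)} (h : go m0 dl Kl n it dsA fs bs = true) {E : ℕ → ℝ}
    (hM : |E 0 * 2 ^ 60 - (m0 : ℝ)| ≤ (dl : ℝ)) (hz : ∀ i, 1 ≤ i → i ≤ n → |E i| ≤ 1)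
    (hd : Dfs (Kof Kl) E (n + 1) dsA)
    (hfix : ∀ i, i < n → E (i + 1) = (fs.getD i Ex.pi).ev (Kof Kl) E)
    {b : List Ex × List Ex} (hb : b ∈ bs) {E' : ℕ → ℝ} (hE : ∀ i, i ≤ n → E' i = E i)
    (hd' : Dfs (Kof Kl) E' (n + 1) b.1) : Pos (Kof Kl) E' b.2 := by
  obtain ⟨hn, hl, -, h1⟩ := go_spec h
  obtain ⟨a, ha, h0⟩ := exists_eps hM
  have h0' : E 0 * 2 ^ 60 = m0 + dl * a := by linarith
  obtain ⟨e, he, -, hI⟩ := St.contr hn hl h0' hd hfix (Nat.sub it 1)
    ((st_base0 hn hl ha h0' hz).step hn hl h0' hd hfix)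
  exact pos_of_forall _ fun t ht => pos_spec he (enc_ev he (enc_K he Kl)
    (enc_run he (enc_K he Kl) b.1 (hI.congr fun i hi => hE i (by omega)) hd') t)
    (allE_spec _ (allB_spec bs h1 b hb) t ht)

theorem exists_dfs (K E0 : ℕ → ℝ) (n : ℕ) (ds : List Ex) (h : ltAll n ds = true) :
    ∃ E : ℕ → ℝ, (∀ i, i < n → E i = E0 i) ∧ Dfs K E n ds := by
  induction ds generalizing n E0 with
  | nil => exact ⟨E0, fun _ _ => rfl, trivial⟩
  | cons t ds ih =>
    simp only [ltAll, Bool.and_eq_true] at h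
    obtain ⟨E, h1, h2⟩ := ih (fun i => if i = n then t.ev K E0 else E0 i) (n + 1) h.2
    have h3 : ∀ i, i < n → E i = E0 i := fun i hi => by rw [h1 i (by omega), if_neg hi.ne]
    exact ⟨E, h3, by rw [h1 n (by omega), if_pos rfl, AA.ev_congr h3 t h.1], h2⟩

end Pool.Agent.MP_e5b4ec_an.Mid
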