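import Pool.Agent.MP_e5b4ec_an.Mid.AAd

open Finset

namespace Pool.Agent.MP_e5b4ec_an.Mid.AA

theorem frc_eq {β : Type} (x : ℕ) (d : β) (k : ℕ → β) : frc x d k = k x := rfl

theorem addE (a b : ℕ) : Nat.add a b = a + b := Nat.add_eq.trans (Eq.refl _)

theorem mulE (a b : ℕ) : Nat.mul a b = a * b := Nat.mul_eq.trans (Eq.refl _)

theorem subE (a b : ℕ) : Nat.sub a b = a - b := Nat.sub_eq.trans (Eq.refl _)

theorem slE (a k : ℕ) : Nat.shiftLeft a k = a * 2 ^ k := Nat.shiftLeft_eq a k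

/-- number with the digits `d` in base `2 ^ 192` -/
def pk (n : ℕ) (d : ℕ → ℕ) : ℕ := ∑ i ∈ range n, d i * 2 ^ (192 * i)

theorem pk_succ (n : ℕ) (d : ℕ → ℕ) : pk (n + 1) d = pk n d + d n * 2 ^ (192 * n) :=
  sum_range_succ _ _

theorem pk_lt {n : ℕ} {d : ℕ → ℕ} (h : ∀ i < n, d i < 2 ^ 192) : pk n d < 2 ^ (192 * n) := by
  induction n with
  | zero => simp [pk]
  | succ n ih =>
    have h1 := ih fun i hi => h i (by omega)
    have h2 : (d n + 1) * 2 ^ (192 * n) ≤ 2 ^ 192 * 2 ^ (192 * n) :=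
      Nat.mul_le_mul_right _ (h n (by omega))
    rw [pk_succ, show 192 * (n + 1) = 192 + 192 * n by ring, pow_add]
    rw [add_mul, one_mul] at h2
    omega

theorem pk_op {op : ℕ → ℕ → ℕ} (hm : ∀ a b n, op a b % 2 ^ n = op (a % 2 ^ n) (b % 2 ^ n))
    (hd : ∀ a b n, op a b / 2 ^ n = op (a / 2 ^ n) (b / 2 ^ n)) (h0 : op 0 0 = 0)
    {n : ℕ} {d e : ℕ → ℕ} (h : ∀ i < n, d i < 2 ^ 192) (h' : ∀ i < n, e i < 2 ^ 192) :
    op (pk n d) (pk n e) = pk n fun i => op (d i) (e i) := by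
  induction n with
  | zero => simpa [pk] using h0
  | succ n ih =>
    have h1 := pk_lt fun i (hi : i < n) => h i (by omega)
    have h2 := pk_lt fun i (hi : i < n) => h' i (by omega)
    have p : 0 < 2 ^ (192 * n) := by positivity
    rw [← Nat.mod_add_div' (op (pk (n + 1) d) (pk (n + 1) e)) (2 ^ (192 * n)), hm, hd, pk_succ,
      pk_succ, pk_succ, Nat.add_mul_mod_self_right, Nat.add_mul_mod_self_right,
      Nat.add_mul_div_right _ _ p, Nat.add_mul_div_right _ _ p, Nat.mod_eq_of_lt h1,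
      Nat.mod_eq_of_lt h2, Nat.div_eq_of_lt h1, Nat.div_eq_of_lt h2, zero_add, zero_add,
      ih (fun i hi => h i (by omega)) (fun i hi => h' i (by omega))]

theorem pk_and {n : ℕ} {d e : ℕ → ℕ} (h : ∀ i < n, d i < 2 ^ 192) (h' : ∀ i < n, e i < 2 ^ 192) :
    pk n d &&& pk n e = pk n fun i => d i &&& e i :=
  pk_op (op := fun a b => a &&& b) (fun _ _ _ => Nat.and_mod_two_pow)
    (fun _ _ _ => Nat.and_div_two_pow) rfl h h'

theorem pk_xor {n : ℕ} {d e : ℕ → ℕ} (h : ∀ i < n, d i < 2 ^ 192) (h' : ∀ i < n, e i < 2 ^ 192) :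
    pk n d ^^^ pk n e = pk n fun i => d i ^^^ e i :=
  pk_op (op := fun a b => a ^^^ b) (fun _ _ _ => Nat.xor_mod_two_pow)
    (fun _ _ _ => Nat.xor_div_two_pow) rfl h h'

theorem pk_congr {n : ℕ} {d e : ℕ → ℕ} (h : ∀ i < n, d i = e i) : pk n d = pk n e :=
  sum_congr rfl fun i hi => by rw [h i (mem_range.1 hi)]

theorem pk_add (n : ℕ) (d e : ℕ → ℕ) : pk n d + pk n e = pk n fun i => d i + e i := by
  simp only [pk, add_mul, sum_add_distrib]

theorem pk_mul (n c : ℕ) (d : ℕ → ℕ) : (pk n fun i => d i * c) = pk n d * c := by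
  simp only [pk, sum_mul]
  exact sum_congr rfl fun i _ => by ring

theorem pk_dg {n : ℕ} {d : ℕ → ℕ} (h : ∀ i < n, d i < 2 ^ 192) {j : ℕ} (hj : j < n) :
    pk n d / 2 ^ (192 * j) % 2 ^ 192 = d j := by
  induction n with
  | zero => omega
  | succ n ih =>
    have p : 0 < 2 ^ (192 * j) := by positivity
    rw [pk_succ]
    rcases Nat.lt_succ_iff_lt_or_eq.1 hj with h1 | rfl
    · obtain ⟨k, rfl⟩ := Nat.exists_eq_add_of_lt h1
      rw [show d (j + k + 1) * 2 ^ (192 * (j + k + 1)) =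
        d (j + k + 1) * 2 ^ (192 * k) * 2 ^ 192 * 2 ^ (192 * j) by ring,
        Nat.add_mul_div_right _ _ p, Nat.add_mul_mod_self_right]
      exact ih (fun i hi => h i (by omega)) h1
    · rw [Nat.add_mul_div_right _ _ p, Nat.div_eq_of_lt (pk_lt fun i hi => h i (by omega)),
        zero_add, Nat.mod_eq_of_lt (h j hj)]

theorem pk_mod (n : ℕ) (d : ℕ → ℕ) : pk n d ≡ ∑ i ∈ range n, d i [MOD 2 ^ 192 - 1] := by
  refine Nat.ModEq.sum fun i _ => ?_
  have h : 2 ^ 192 ≡ 1 [MOD 2 ^ 192 - 1] := by decide +kernel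
  have := (h.pow i).mul_left (d i)
  rwa [one_pow, mul_one, ← pow_mul] at this

/-- the digit `v` at the places `p` -/
def msk (p : ℕ → Bool) (v : ℕ) : ℕ := pk 15 fun i => if p i then v else 0

theorem msk_lt {p : ℕ → Bool} {v : ℕ} (h : v < 2 ^ 192) :
    ∀ i < 15, (if p i then v else 0) < 2 ^ 192 := fun i _ => by
  split_ifs
  · exact h
  · positivity

theorem and_msk {d : ℕ → ℕ} (h : ∀ i < 15, d i < 2 ^ 192) (p : ℕ → Bool) :
    pk 15 d &&& msk p (2 ^ 192 - 1) = pk 15 fun i => if p i then d i else 0 := by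
  rw [msk, pk_and h (msk_lt (by norm_num))]
  refine pk_congr fun i hi => ?_
  split_ifs
  · rw [Nat.and_two_pow_sub_one_eq_mod, Nat.mod_eq_of_lt (h i hi)]
  · simp

theorem cV_eq : cV = msk (fun i => decide (i < 13)) (2 ^ 192 - 1) := by decide +kernel
theorem cW_eq : cW = msk (fun i => decide (1 ≤ i ∧ i < 13)) (2 ^ 192 - 1) := by decide +kernel
theorem cT1_eq : cT1 = msk (fun i => decide (i < 14)) (2 ^ 192 - 1) := by decide +kernel
theorem cB2_eq : cB2 = msk (fun i => decide (i < 2 ∨ i = 12)) (2 ^ 192 - 1) := by decide +kernel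
theorem cHU_eq : cHU = msk (fun i => decide (i < 13)) (2 ^ 128) := by decide +kernel
theorem cM_eq : cM = msk (fun i => decide (i < 13)) (2 ^ 129 - 1) := by decide +kernel
theorem cC1_eq : cC1 = msk (fun i => decide (i < 13)) (2 ^ 128 - 1) := by decide +kernel
theorem cHi_eq : cHi = msk (fun i => decide (i < 13)) (2 ^ 192 - 2 ^ 60) := by decide +kernel
theorem cB1_eq : cB1 = 2 ^ 192 - 1 := by decide +kernel
theorem cH_eq : cH = 2 ^ 128 := by decide +kernel
theorem cO_eq : cO = 2 ^ 60 := by decide +kernel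

theorem d_and_H {d : ℕ} (h : d < 2 ^ 129) : d &&& 2 ^ 128 = d / 2 ^ 128 * 2 ^ 128 := by
  rw [Nat.and_two_pow, Nat.testBit_eq_decide_div_mod_eq]
  by_cases h1 : d / 2 ^ 128 % 2 = 1
  · rw [decide_eq_true h1, Bool.toNat_true]; omega
  · rw [decide_eq_false h1, Bool.toNat_false]; omega

theorem d_and_hi {d : ℕ} (h : d < 2 ^ 192) : d &&& (2 ^ 192 - 2 ^ 60) = d / 2 ^ 60 * 2 ^ 60 := by
  rw [← Nat.mod_add_div' (d &&& (2 ^ 192 - 2 ^ 60)) (2 ^ 60), Nat.and_mod_two_pow,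
    Nat.and_div_two_pow, show (2 ^ 192 - 2 ^ 60) % 2 ^ 60 = 0 by norm_num,
    show (2 ^ 192 - 2 ^ 60) / 2 ^ 60 = 2 ^ 132 - 1 by norm_num, Nat.and_two_pow_sub_one_eq_mod,
    Nat.and_zero, zero_add, Nat.mod_eq_of_lt (by omega)]

theorem d_xor_M {d k : ℕ} (h : d < 2 ^ k) : d ^^^ (2 ^ k - 1) = 2 ^ k - (d + 1) := by
  refine Nat.eq_of_testBit_eq fun i => ?_
  rw [Nat.testBit_xor, Nat.testBit_two_pow_sub_succ h, Nat.testBit_two_pow_sub_one]
  by_cases hi : i < k
  · simp [hi]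
  · have : d.testBit i = false :=
      Nat.testBit_lt_two_pow (h.trans_le (Nat.pow_le_pow_right (by norm_num) (by omega)))
    simp [hi, this]

theorem d_xor_abs {d : ℕ} (h : d < 2 ^ 129) : d ^^^ (2 ^ 128 - 1 + d / 2 ^ 128) =
    if d < 2 ^ 128 then 2 ^ 128 - (d + 1) else d - 2 ^ 128 := by
  split_ifs with h1
  · rw [Nat.div_eq_of_lt h1, add_zero, d_xor_M h1]
  · have h2 : d / 2 ^ 128 = 1 := by omega
    rw [h2, show 2 ^ 128 - 1 + 1 = 2 ^ 128 by norm_num,
      ← Nat.mod_add_div' (d ^^^ 2 ^ 128) (2 ^ 128), Nat.xor_mod_two_pow, Nat.xor_div_two_pow, h2,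
      Nat.mod_self, Nat.div_self (by norm_num), Nat.xor_self, Nat.xor_zero]
    omega

theorem ab_pk {d : ℕ → ℕ} (h : ∀ i < 15, d i < 2 ^ 129) : ab (pk 15 d) = pk 15 fun i =>
    if i < 13 then (if d i < 2 ^ 128 then 2 ^ 128 - (d i + 1) else d i - 2 ^ 128) else d i := by
  have h' : ∀ i < 15, d i < 2 ^ 192 := fun i hi => (h i hi).trans (by norm_num)
  have e1 : pk 15 d &&& cHU = (pk 15 fun i => if i < 13 then d i / 2 ^ 128 else 0) * 2 ^ 128 := by
    rw [cHU_eq, msk, pk_and h' (msk_lt (by norm_num)), ← pk_mul]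
    refine pk_congr fun i hi => ?_
    by_cases h1 : i < 13
    · simp only [h1, decide_true, if_true, d_and_H (h i hi)]
    · simp [h1]
  simp only [ab, Nat.xor_eq, addE, Nat.shiftRight_eq, Nat.land_eq, Nat.shiftRight_eq_div_pow]
  rw [e1, Nat.mul_div_cancel _ (by norm_num), cC1_eq, msk, pk_add, pk_xor h']
  · refine pk_congr fun i hi => ?_
    by_cases h1 : i < 13
    · simp only [h1, decide_true, if_true, d_xor_abs (h i hi)]
    · simp [h1]
  · intro i hi
    have := h i hi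
    split_ifs <;> omega

/-- weight of the slot `i` -/
def bz (i : ℕ) : ℤ := 2 ^ (192 * i)

def Sz (l : ℕ → ℤ) : ℤ := ∑ i ∈ range 13, l i * bz i

noncomputable def dot (l : ℕ → ℤ) (e : ℕ → ℝ) : ℝ := ∑ i ∈ range 13, (l i : ℝ) * e i

theorem bz_zero : bz 0 = 1 := rfl

theorem bz_pos (i : ℕ) : 0 < bz i := by unfold bz; positivity

theorem cU_eq : (cU : ℤ) = Sz fun _ => 1 := by decide +kernel

theorem cHU_z : (cHU : ℤ) = 2 ^ 128 * cU := by decide +kernel

theorem cL_z : (cL : ℤ) = 2 ^ 128 * bz 14 := by decide +kernel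

theorem cU_lt : (cU : ℤ) ≤ bz 13 := by decide +kernel

theorem bz_lt : bz 13 ≤ bz 14 := by decide +kernel

theorem pk_z (d : ℕ → ℕ) :
    ((pk 15 d : ℕ) : ℤ) = Sz (fun i => d i) + d 13 * bz 13 + d 14 * bz 14 := by
  rw [pk_succ, pk_succ]
  simp only [pk, Sz, bz, Nat.cast_add, Nat.cast_mul, Nat.cast_pow, Nat.cast_ofNat, Nat.cast_sum]

theorem bz_12 : bz 12 = 2 ^ 2304 := rfl

theorem bz_13 : bz 13 = 2 ^ 2496 := rfl

theorem bz_14 : bz 14 = 2 ^ 2688 := rfl

theorem bz_def (i : ℕ) : bz i = 2 ^ (192 * i) := rfl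

attribute [irreducible] bz

attribute [local irreducible] cU cHU cL

theorem Sz_congr {l m : ℕ → ℤ} (h : ∀ i < 13, l i = m i) : Sz l = Sz m :=
  sum_congr rfl fun i hi => by rw [h i (mem_range.1 hi)]

theorem Sz_add (l : ℕ → ℤ) (c : ℤ) : Sz (fun i => l i + c) = Sz l + c * cU := by
  simp only [cU_eq, Sz, add_mul, sum_add_distrib, mul_sum, one_mul]

theorem Sz_ge {l : ℕ → ℤ} {s : ℤ} (h : ∀ i < 13, |l i| ≤ s) : 0 ≤ Sz l + s * cU := by
  rw [← Sz_add]
  exact sum_nonneg fun i hi => mul_nonneg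
    (by linarith [(abs_le.1 (h i (mem_range.1 hi))).1]) (bz_pos i).le

/-- values of the symbols -/
structure Eps (e : ℕ → ℝ) : Prop where
  h0 : e 0 = 1
  le : ∀ i, |e i| ≤ 1
  h12 : e 12 = 2 * e 1 ^ 2 - 1

structure V (e : ℕ → ℝ) (x : ℝ) (A : ℕ) (l : ℕ → ℤ) (r s : ℕ) : Prop where
  eq : (A : ℤ) = Sz l + 2 ^ 128 * cU + r * bz 13 + s * bz 14
  bd : ∀ i < 13, |l i| ≤ s
  rs : r ≤ s
  er : |x * 2 ^ 60 - dot l e| ≤ (r : ℝ)

/-- the form `A` encloses `x` -/
def Enc (e : ℕ → ℝ) (x : ℝ) (A : ℕ) : Prop := cL ≤ A ∨ ∃ l r s, V e x A l r s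

variable {e : ℕ → ℝ} {x y : ℝ} {A B : ℕ}

theorem enc_bad : Enc e x cL := Or.inl le_rfl

theorem V.ge {l : ℕ → ℤ} {r s : ℕ} (h : V e x A l r s) : cHU ≤ A := by
  have h1 := Sz_ge h.bd
  have h2 : (s : ℤ) * cU ≤ s * bz 14 := mul_le_mul_of_nonneg_left (cU_lt.trans bz_lt) (by positivity)
  have h3 : 0 ≤ (r : ℤ) * bz 13 := mul_nonneg (by positivity) (bz_pos _).le
  have : (cHU : ℤ) ≤ A := by rw [h.eq, cHU_z]; linarith
  exact_mod_cast this

theorem Enc.ge (h : Enc e x A) : cHU ≤ A := by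
  rcases h with h | ⟨l, r, s, h⟩
  · exact le_trans (by decide +kernel) h
  · exact h.ge

theorem V.lt {l : ℕ → ℤ} {r s : ℕ} (h : V e x A l r s) (hA : A < cL) : s < 2 ^ 128 := by
  by_contra hs
  have hs' : (2 : ℤ) ^ 128 ≤ s := by exact_mod_cast not_lt.1 hs
  have h1 := Sz_ge h.bd
  have h2 : (s - 2 ^ 128 : ℤ) * cU ≤ (s - 2 ^ 128) * bz 14 :=
    mul_le_mul_of_nonneg_left (cU_lt.trans bz_lt) (by linarith)
  have h3 : 0 ≤ (r : ℤ) * bz 13 := mul_nonneg (by positivity) (bz_pos _).le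
  have : (cL : ℤ) ≤ A := by rw [h.eq, cL_z]; linarith
  exact absurd hA (not_lt.2 (by exact_mod_cast this))

/-- the digits of a valid form -/
def dg (l : ℕ → ℤ) (r s : ℕ) (i : ℕ) : ℕ :=
  if i < 13 then (l i + 2 ^ 128).toNat else if i = 13 then r else s

theorem V.pk {l : ℕ → ℤ} {r s : ℕ} (h : V e x A l r s) (hA : A < cL) :
    A = pk 15 (dg l r s) ∧ (∀ i < 15, dg l r s i < 2 ^ 129) ∧
      ∀ i < 13, (dg l r s i : ℤ) = l i + 2 ^ 128 ∧ 0 < dg l r s i := by
  have hs := h.lt hA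
  have h1 : ∀ i < 13, (dg l r s i : ℤ) = l i + 2 ^ 128 ∧ 0 < dg l r s i := fun i hi => by
    have := abs_le.1 (h.bd i hi)
    simp only [dg, hi, if_true]
    omega
  refine ⟨?_, fun i _ => ?_, h1⟩
  · have : (A : ℤ) = (AA.pk 15 (dg l r s) : ℕ) := by
      rw [pk_z, Sz_congr fun i hi => (h1 i hi).1, Sz_add, h.eq]
      simp [dg]
    exact_mod_cast this
  · by_cases hi : i < 13
    · have := abs_le.1 (h.bd i hi)
      have := (h1 i hi).1
      omega
    · have := h.rs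
      simp only [dg, hi, if_false]
      split_ifs <;> omega

theorem dot_add (l m : ℕ → ℤ) : dot (fun i => l i + m i) e = dot l e + dot m e := by
  simp only [dot, Int.cast_add, add_mul, sum_add_distrib]

theorem Enc.add (h : Enc e x A) (h' : Enc e y B) : Enc e (x + y) (add A B) := by
  have a := h.ge
  have b := h'.ge
  simp only [AA.add, subE, addE]
  rcases h with h | ⟨l, r, s, h⟩
  · exact Or.inl (by omega)
  rcases h' with h' | ⟨l', r', s', h'⟩
  · exact Or.inl (by omega)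
  refine Or.inr ⟨fun i => l i + l' i, r + r', s + s', ?_, fun i hi => ?_, add_le_add h.rs h'.rs, ?_⟩
  · rw [Nat.cast_sub (by omega), Nat.cast_add, h.eq, h'.eq, cHU_z]
    simp only [Sz, add_mul, sum_add_distrib, Nat.cast_add]
    ring
  · exact (abs_add_le _ _).trans (by push_cast; linarith [h.bd i hi, h'.bd i hi])
  · have h1 := abs_le.1 h.er
    have h2 := abs_le.1 h'.er
    rw [dot_add, abs_le]
    push_cast
    constructor <;> linarith [h1.1, h1.2, h2.1, h2.2]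

set_option exponentiation.threshold 3000 in
theorem Enc.neg (h : Enc e x A) : Enc e (-x) ((A ^^^ cM) + cU) := by
  by_cases hA : A < cL
  · obtain h | ⟨l, r, s, h⟩ := h
    · omega
    obtain ⟨h1, h2, h3⟩ := h.pk hA
    refine Or.inr ⟨fun i => -l i, r, s, ?_, fun i hi => by simpa using h.bd i hi, h.rs, ?_⟩
    · rw [h1, cM_eq, msk, pk_xor (fun i hi => (h2 i hi).trans (by norm_num)) (msk_lt (by norm_num)),
        Nat.cast_add, pk_z, Sz_congr (m := fun i => -l i + (2 ^ 128 - 1)) fun i hi => ?_, Sz_add]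
      · simp [dg]
        ring
      · have := h2 i (by omega)
        have := (h3 i hi).1
        simp only [hi, decide_true, if_true]
        rw [d_xor_M (h2 i (by omega))]
        omega
    · have : dot (fun i => -l i) e = -dot l e := by
        simp only [dot, Int.cast_neg, neg_mul, sum_neg_distrib]
      rw [this, ← abs_neg]
      convert h.er using 2
      ring
  · refine Or.inl (le_trans ?_ (Nat.le_add_right _ _))
    have h1 : (A ^^^ cM) / 2 ^ 2816 = A / 2 ^ 2816 := by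
      rw [Nat.xor_div_two_pow, show cM / 2 ^ 2816 = 0 by decide +kernel, Nat.xor_zero]
    have h2 : cL = 2 ^ 2816 := by decide +kernel
    rw [h2] at hA ⊢
    have h3 : 0 < A / 2 ^ 2816 := Nat.div_pos (not_lt.1 hA) (by positivity)
    rw [← h1] at h3
    exact (Nat.div_pos_iff.1 h3).2

theorem Enc.sub (h : Enc e x A) (h' : Enc e y B) : Enc e (x - y) (sub A B) := by
  have := h.add h'.neg
  have h1 : cU ≤ cHU := by decide +kernel
  rw [← sub_eq_add_neg] at this
  convert this using 1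
  simp only [AA.sub, AA.add, cC1, subE, addE, Nat.xor_eq]
  omega

theorem ifloor (v : ℤ) {d : ℤ} (hd : 0 < d) :
    ((v / d : ℤ) : ℝ) ≤ v / d ∧ (v : ℝ) / d ≤ (v / d : ℤ) + 1 := by
  have h0 : (0 : ℝ) < d := by exact_mod_cast hd
  have h1 : ((d * (v / d) + v % d : ℤ) : ℝ) = v := by rw [Int.mul_ediv_add_emod]
  have h2 : (0 : ℝ) ≤ (v % d : ℤ) := by exact_mod_cast Int.emod_nonneg v hd.ne'
  have h3 : ((v % d : ℤ) : ℝ) ≤ d := by exact_mod_cast (Int.emod_lt_of_pos v hd).le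
  push_cast at h1
  rw [le_div_iff₀ h0, div_le_iff₀ h0]
  constructor <;> linarith

theorem nfloor (v : ℕ) {d : ℕ} (hd : 0 < d) :
    ((v / d : ℕ) : ℝ) ≤ v / d ∧ (v : ℝ) / d ≤ (v / d : ℕ) + 1 := by
  have := ifloor v (d := d) (by exact_mod_cast hd)
  rwa [← Int.natCast_div, Int.cast_natCast, Int.cast_natCast, Int.cast_natCast] at this

theorem sl_z (a k : ℕ) : ((Nat.shiftLeft a k : ℕ) : ℤ) = a * 2 ^ k := by
  rw [Nat.shiftLeft_eq', Nat.shiftLeft_eq]
  push_cast
  rfl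

theorem sr_eq (a k : ℕ) : Nat.shiftRight a k = a / 2 ^ k := Nat.shiftRight_eq_div_pow a k

theorem top_z (r s : ℕ) : ((Nat.shiftLeft (Nat.add r (Nat.shiftLeft s 192)) 2496 : ℕ) : ℤ) =
    r * bz 13 + s * bz 14 := by
  rw [sl_z, addE, Nat.cast_add, sl_z, add_mul, mul_assoc, ← pow_add, bz_13, bz_14]

theorem big_bad {N s : ℕ} (h : (s : ℤ) * bz 14 ≤ N) (hs : 2 ^ 128 ≤ s) : cL ≤ N := by
  have h1 : (2 : ℤ) ^ 128 ≤ s := by exact_mod_cast hs
  have : (cL : ℤ) ≤ N := by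
    rw [cL_z]
    exact (mul_le_mul_of_nonneg_right h1 (bz_pos _).le).trans h
  exact_mod_cast this

theorem fin_spec (he : Eps e) {p m R Z : ℕ} (v : ℕ → ℤ)
    (hp : (p : ℤ) - m = Sz v + 2 ^ 188 * cU) (hv : ∀ i < 13, |v i| ≤ Z) (hR : R ≤ Z)
    (hy : |y * 2 ^ 120 - dot v e| ≤ (R : ℝ)) : Enc e y (fin p m R Z) := by
  have e0 : ((fin p m R Z : ℕ) : ℤ) = (((p - m) &&& cHi) / 2 ^ 60 : ℕ) +
      (((R / 2 ^ 60 + 14 : ℕ) : ℤ) * bz 13 + ((Z / 2 ^ 60 + 14 : ℕ) : ℤ) * bz 14) := by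
    rw [← top_z, ← Nat.cast_add, ← sr_eq, ← sr_eq, ← sr_eq]
    rfl
  by_cases hZ : Z < 2 ^ 188
  · have h1 : ∀ i < 13, (((v i + 2 ^ 188).toNat : ℕ) : ℤ) = v i + 2 ^ 188 := fun i hi => by
      have := abs_le.1 (hv i hi)
      omega
    have h2 : p - m = pk 15 fun i => if i < 13 then (v i + 2 ^ 188).toNat else 0 := by
      have : (p : ℤ) - m = (pk 15 fun i => if i < 13 then (v i + 2 ^ 188).toNat else 0 : ℕ) := by
        rw [pk_z, Sz_congr (m := fun i => v i + 2 ^ 188) fun i hi => by rw [if_pos hi, h1 i hi],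
          Sz_add, hp]
        simp
      omega
    have h3 : ∀ i < 15, (if i < 13 then (v i + 2 ^ 188).toNat else 0) < 2 ^ 192 := fun i _ => by
      split_ifs with hi
      · have := abs_le.1 (hv i hi)
        omega
      · norm_num
    have h4 : (p - m) &&& cHi =
        (pk 15 fun i => if i < 13 then (v i + 2 ^ 188).toNat / 2 ^ 60 else 0) * 2 ^ 60 := by
      rw [h2, cHi_eq, msk, pk_and h3 (msk_lt (by norm_num)), ← pk_mul]
      refine pk_congr fun i hi => ?_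
      have := h3 i hi
      by_cases h1 : i < 13
      · simp only [h1, decide_true, if_true] at this ⊢
        exact d_and_hi this
      · simp [h1]
    refine Or.inr ⟨fun i => v i / 2 ^ 60, R / 2 ^ 60 + 14, Z / 2 ^ 60 + 14, ?_, fun i hi => ?_,
      by omega, ?_⟩
    · rw [e0, h4, Nat.mul_div_cancel _ (by norm_num), pk_z,
        Sz_congr (m := fun i => v i / 2 ^ 60 + 2 ^ 128) fun i hi => ?_, Sz_add]
      · simp only [show ¬ (13 < 13) by norm_num, show ¬ (14 < 13) by norm_num, if_false]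
        ring
      · have := h1 i hi
        rw [if_pos hi]
        omega
    · have := abs_le.1 (hv i hi)
      rw [abs_le]
      omega
    · have h5 : |dot v e / 2 ^ 60 - dot (fun i => v i / 2 ^ 60) e| ≤ 13 := by
        rw [dot, dot, sum_div, ← sum_sub_distrib]
        refine (abs_sum_le_sum_abs _ _).trans ((sum_le_card_nsmul _ _ 1 fun i _ => ?_).trans
          (by simp))
        have := ifloor (v i) (d := 2 ^ 60) (by norm_num)
        rw [show (v i : ℝ) * e i / 2 ^ 60 - ((v i / 2 ^ 60 : ℤ) : ℝ) * e i =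
          ((v i : ℝ) / 2 ^ 60 - ((v i / 2 ^ 60 : ℤ) : ℝ)) * e i by ring, abs_mul]
        refine mul_le_one₀ ?_ (abs_nonneg _) (he.le i)
        rw [Int.cast_pow, Int.cast_ofNat] at this
        rw [abs_le]
        constructor <;> linarith [this.1, this.2]
      have h6 := (nfloor R (d := 2 ^ 60) (by norm_num)).2
      rw [Nat.cast_pow, Nat.cast_ofNat] at h6
      rw [Nat.cast_add, Nat.cast_ofNat]
      rw [abs_le] at h5 hy ⊢
      constructor <;> linarith [h5.1, h5.2, hy.1, hy.2]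
  · refine Or.inl (big_bad (s := Z / 2 ^ 60 + 14) ?_ (by omega))
    rw [e0]
    have := mul_nonneg (Nat.cast_nonneg (α := ℤ) (R / 2 ^ 60 + 14)) (bz_pos 13).le
    have := Nat.cast_nonneg (α := ℤ) (((p - m) &&& cHi) / 2 ^ 60)
    linarith

/-- what the operations read from a valid form -/
structure Dec (e : ℕ → ℝ) (x : ℝ) (A : ℕ) (l : ℕ → ℤ) : Prop where
  c : ((Nat.land A cB1 : ℕ) : ℤ) = l 0 + 2 ^ 128
  cv : ((Nat.land A cV : ℕ) : ℤ) = Sz l + 2 ^ 128 * cU
  cw : ((Nat.land A cW : ℕ) : ℤ) = Sz l - l 0 + 2 ^ 128 * (cU - 1)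
  b2 : ((Nat.land A cB2 : ℕ) : ℤ) =
    l 0 + 2 ^ 128 + (l 1 + 2 ^ 128) * bz 1 + (l 12 + 2 ^ 128) * bz 12
  tt : tot (ab A) = ac (ab A) + rad (ab A)
  l0 : |l 0| ≤ ac (ab A)
  li : ∀ i, 1 ≤ i → i < 13 → |l i| ≤ rad (ab A)
  rr : er A ≤ rad (ab A)
  t1 : (a1 (ab A) : ℤ) ≤ |l 1|
  t2 : |l 1| ≤ a1 (ab A) + 1
  sg : A.testBit 320 = decide (0 ≤ l 1)
  err : |x * 2 ^ 60 - dot l e| ≤ (er A : ℝ)
  u : |x * 2 ^ 60 - l 0 - l 1 * e 1| ≤ (rad (ab A) : ℝ) - |(l 1 : ℝ)|
  w : |x * 2 ^ 60 - l 0 - l 1 * e 1 - l 12 * e 12| ≤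
    ((rad (ab A) - a1 (ab A) - Nat.land (Nat.shiftRight (ab A) 2304) cB1 : ℕ) : ℝ)

theorem land_dg {d : ℕ → ℕ} (h : ∀ i < 15, d i < 2 ^ 192) {j : ℕ} (hj : j < 15) :
    Nat.land (Nat.shiftRight (pk 15 d) (192 * j)) cB1 = d j := by
  rw [Nat.land_eq, sr_eq, cB1_eq, Nat.and_two_pow_sub_one_eq_mod, pk_dg h hj]

set_option exponentiation.threshold 400 in
theorem Enc.dec (he : Eps e) (h : Enc e x A) (hA : A < cL) : ∃ l, Dec e x A l := by
  obtain h | ⟨l, r, s, h⟩ := h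
  · omega
  obtain ⟨h1, h2, h3⟩ := h.pk hA
  have hs := h.lt hA
  have h2' : ∀ i < 15, dg l r s i < 2 ^ 192 := fun i hi => (h2 i hi).trans (by norm_num)
  have hX := ab_pk h2
  rw [← h1] at hX
  generalize ha : (fun i => if i < 13 then (if dg l r s i < 2 ^ 128 then 2 ^ 128 - (dg l r s i + 1)
    else dg l r s i - 2 ^ 128) else dg l r s i) = a at hX
  have a13 : a 13 = r := by rw [← ha]; simp [dg]
  have ai : ∀ i < 13, (a i : ℤ) ≤ |l i| ∧ |l i| ≤ a i + 1 := fun i hi => by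
    have := h3 i hi
    have := h2 i (by omega)
    rw [← ha]
    simp only [hi, if_true]
    split_ifs
    · rw [abs_of_neg (by omega)]; omega
    · rw [abs_of_nonneg (by omega)]; omega
  have al : ∀ i < 15, a i < 2 ^ 129 := fun i hi => by
    have := h2 i hi
    rw [← ha]
    dsimp only
    split_ifs <;> omega
  have al' : ∀ i < 15, a i < 2 ^ 192 := fun i hi => (al i hi).trans (by norm_num)
  have e0 : Nat.land A cB1 = dg l r s 0 := by rw [h1]; exact land_dg h2' (j := 0) (by norm_num)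
  have e1 : er A = r := by
    rw [h1]; exact (land_dg h2' (j := 13) (by norm_num)).trans (by simp [dg])
  have e2 : ac (ab A) = a 0 + 1 := by
    rw [hX]; exact congrArg (· + 1) (land_dg al' (j := 0) (by norm_num))
  have e3 : a1 (ab A) = a 1 := by rw [hX]; exact land_dg al' (j := 1) (by norm_num)
  have e4 : Nat.land (Nat.shiftRight (ab A) 2304) cB1 = a 12 := by
    rw [hX]; exact land_dg al' (j := 12) (by norm_num)
  have e5 : tot (ab A) = a 0 + a 1 + a 2 + a 3 + a 4 + a 5 + a 6 + a 7 + a 8 + a 9 + a 10 + a 11 +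
      a 12 + r + 13 := by
    have := pk_mod 15 fun i => if decide (i < 14) then a i else 0
    rw [← and_msk al', ← hX, ← cT1_eq, ← cB1_eq, Nat.ModEq] at this
    change (ab A &&& cT1) % cB1 + 13 = _
    rw [this, cB1_eq]
    simp only [sum_range_succ, sum_range_zero, Nat.reduceLT, decide_true, decide_false, if_true,
      a13, Bool.false_eq_true, if_false, lt_self_iff_false]
    have := al 0 (by norm_num); have := al 1 (by norm_num); have := al 2 (by norm_num)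
    have := al 3 (by norm_num); have := al 4 (by norm_num); have := al 5 (by norm_num)
    have := al 6 (by norm_num); have := al 7 (by norm_num); have := al 8 (by norm_num)
    have := al 9 (by norm_num); have := al 10 (by norm_num); have := al 11 (by norm_num)
    have := al 12 (by norm_num); have := h.rs
    rw [Nat.mod_eq_of_lt (by omega)]
    omega
  have e6 : rad (ab A) = a 1 + a 2 + a 3 + a 4 + a 5 + a 6 + a 7 + a 8 + a 9 + a 10 + a 11 +
      a 12 + r + 12 := by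
    rw [rad, e5, e2, subE]; omega
  have b : ∀ i < 13, |(l i : ℝ) * e i| ≤ a i + 1 := fun i hi => by
    have : ((|l i| : ℤ) : ℝ) ≤ ((a i + 1 : ℤ) : ℝ) := Int.cast_le.2 (ai i hi).2
    push_cast at this
    rw [abs_mul]
    exact (mul_le_of_le_one_right (abs_nonneg _) (he.le i)).trans this
  have b1 : |(l 1 : ℝ)| ≤ a 1 + 1 := by exact_mod_cast (ai 1 (by norm_num)).2
  have hw : |x * 2 ^ 60 - l 0 - l 1 * e 1 - l 12 * e 12| ≤
      (a 2 + a 3 + a 4 + a 5 + a 6 + a 7 + a 8 + a 9 + a 10 + a 11 + r + 10 : ℝ) := by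
    have q := abs_le.1 h.er
    simp only [dot, sum_range_succ, sum_range_zero, he.h0] at q
    have b2 := abs_le.1 (b 2 (by norm_num)); have b3 := abs_le.1 (b 3 (by norm_num))
    have b4 := abs_le.1 (b 4 (by norm_num)); have b5 := abs_le.1 (b 5 (by norm_num))
    have b6 := abs_le.1 (b 6 (by norm_num)); have b7 := abs_le.1 (b 7 (by norm_num))
    have b8 := abs_le.1 (b 8 (by norm_num)); have b9 := abs_le.1 (b 9 (by norm_num))
    have b10 := abs_le.1 (b 10 (by norm_num)); have b11 := abs_le.1 (b 11 (by norm_num))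
    rw [abs_le]
    constructor
    · linarith [q.1, b2.1, b3.1, b4.1, b5.1, b6.1, b7.1, b8.1, b9.1, b10.1, b11.1]
    · linarith [q.2, b2.2, b3.2, b4.2, b5.2, b6.2, b7.2, b8.2, b9.2, b10.2, b11.2]
  refine ⟨l, ?_, ?_, ?_, ?_, by omega, ?_, fun i i1 i2 => ?_, by omega, ?_, ?_, ?_,
    by rw [e1]; exact h.er, ?_, ?_⟩
  · rw [e0, (h3 0 (by norm_num)).1]
  · rw [Nat.land_eq, h1, cV_eq, and_msk h2', pk_z,
      Sz_congr (m := fun i => l i + 2 ^ 128) fun i hi => by simp [hi, (h3 i hi).1], Sz_add]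
    simp
  · rw [Nat.land_eq, h1, cW_eq, and_msk h2', pk_z,
      Sz_congr (m := fun i => (if i = 0 then -2 ^ 128 else l i) + 2 ^ 128) fun i hi => by
        rcases Nat.eq_zero_or_pos i with rfl | h0
        · simp
        · simp [hi, (h3 i hi).1, h0.ne', show 1 ≤ i from h0], Sz_add]
    simp [Sz, sum_range_succ, bz_zero]
    ring
  · rw [Nat.land_eq, h1, cB2_eq, and_msk h2', pk_z]
    simp [Sz, sum_range_succ, bz_zero, (h3 0 (by norm_num)).1, (h3 1 (by norm_num)).1,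
      (h3 12 (by norm_num)).1]
  · rw [e2]; exact_mod_cast (ai 0 (by norm_num)).2
  · have := (ai i i2).2
    rw [e6]
    interval_cases i <;> omega
  · rw [e3]; exact (ai 1 (by norm_num)).1
  · rw [e3]; exact (ai 1 (by norm_num)).2
  · have q := pk_dg h2' (j := 1) (by norm_num)
    have q1 := h3 1 (by norm_num)
    have q2 := h2 1 (by norm_num)
    rw [← h1] at q
    rw [Nat.testBit_eq_decide_div_mod_eq, decide_eq_decide]
    omega
  · have b12 := abs_le.1 (b 12 (by norm_num))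
    rw [e6]
    push_cast
    rw [abs_le] at hw ⊢
    constructor <;> linarith [hw.1, hw.2, b12.1, b12.2]
  · rw [e6, e3, e4, show a 1 + a 2 + a 3 + a 4 + a 5 + a 6 + a 7 + a 8 + a 9 + a 10 + a 11 +
      a 12 + r + 12 - a 1 - a 12 = a 2 + a 3 + a 4 + a 5 + a 6 + a 7 + a 8 + a 9 + a 10 + a 11 +
      r + 12 by omega]
    push_cast
    linarith

end Pool.Agent.MP_e5b4ec_an.Mid.AA
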