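import Pool.Agent.MP_e5b4ec_an.Mid.Ex

/-! Affine arithmetic with scale `2 ^ 60`. One affine form is one natural number with slots of 192
bits: slot 0 is the centre, slots 1 to 11 are the coefficients of the symbols 0 to 10, slot 12 is the
coefficient of `2 * e ^ 2 - 1` for the symbol 0 (all with the offset `2 ^ 128`), slot 13 is the error
radius, the rest is a bound for all slots. A number that is at least `cL` stands for failure. -/

namespace Pool.Agent.MP_e5b4ec_an.Mid

namespace AA

/-- evaluate `x`, then continue -/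
def frc {β : Type} (x : Nat) (d : β) (k : Nat → β) : β :=
  Nat.casesOn (motive := fun _ => β) (Nat.add x (nat_lit 1)) d k

def cH : Nat := nat_lit 340282366920938463463374607431768211456
def cO : Nat := nat_lit 1152921504606846976
def cB1 : Nat := nat_lit 6277101735386680763835789423207666416102355444464034512895
def cV : Nat := Nat.sub (Nat.shiftLeft 1 2496) 1
def cU : Nat := Nat.div cV cB1
def cU1 : Nat := Nat.sub cU 1
def cHU : Nat := Nat.shiftLeft cU 128
def cHU1 : Nat := Nat.shiftLeft cU1 128
def cHU2 : Nat := Nat.sub (Nat.sub cHU1 (Nat.shiftLeft 1 320)) (Nat.shiftLeft 1 2432)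
def cC1 : Nat := Nat.sub cHU cU
def cM : Nat := Nat.add cHU cC1
def cT1 : Nat := Nat.sub (Nat.shiftLeft 1 2688) 1
def cW : Nat := Nat.sub cV cB1
def cB2 : Nat := Nat.add (Nat.sub (Nat.shiftLeft 1 384) 1) (Nat.shiftLeft cB1 2304)
def cG : Nat := Nat.add (Nat.shiftLeft 1 2304) 1
def cHi : Nat := Nat.mul (Nat.sub (Nat.shiftLeft 1 192) cO) cU
def cL : Nat := Nat.shiftLeft 1 2816
def cS : Nat := Nat.shiftLeft 1 320
def cK0 : Nat := Nat.shiftLeft cU 188
def cK2 : Nat := Nat.add (Nat.shiftLeft cU1 256) cK0
def cK1 : Nat := Nat.add (Nat.shiftLeft cU 256) cK2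
def cR : Nat := Nat.sub (Nat.shiftLeft 1 2880) 1

def add (A B : Nat) : Nat := Nat.sub (Nat.add A B) cHU

def sub (A B : Nat) : Nat := Nat.sub (Nat.add A (Nat.xor B cM)) cC1

/-- absolute values of the slots (minus one for negative entries) -/
def ab (A : Nat) : Nat :=
  Nat.xor A (Nat.add cC1 (Nat.shiftRight (Nat.land A cHU) (nat_lit 128)))

def tot (X : Nat) : Nat := Nat.add (Nat.mod (Nat.land X cT1) cB1) (nat_lit 13)

def ac (X : Nat) : Nat := Nat.add (Nat.land X cB1) (nat_lit 1)

def a1 (X : Nat) : Nat := Nat.land (Nat.shiftRight X (nat_lit 192)) cB1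

def er (A : Nat) : Nat := Nat.land (Nat.shiftRight A (nat_lit 2496)) cB1

def rad (X : Nat) : Nat := Nat.sub (tot X) (ac X)

/-- round from the scale `2 ^ 120` to the scale `2 ^ 60` -/
def fin (p m R Z : Nat) : Nat :=
  Nat.add (Nat.shiftRight (Nat.land (Nat.sub p m) cHi) (nat_lit 60))
    (Nat.shiftLeft (Nat.add (Nat.add (Nat.shiftRight R (nat_lit 60)) (nat_lit 14))
      (Nat.shiftLeft (Nat.add (Nat.shiftRight Z (nat_lit 60)) (nat_lit 14)) (nat_lit 192)))
      (nat_lit 2496))

def mul4 (s : Bool) (p m g R Z : Nat) : Nat :=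
  cond s (fin (Nat.add p g) m R Z) (fin p (Nat.add m g) R Z)

def mul3 (A B a b W V tA tB cA cB g : Nat) : Nat :=
  mul4 (Nat.beq (Nat.land (Nat.xor A B) cS) (nat_lit 0))
    (Nat.add (Nat.add (Nat.mul a V) (Nat.mul b (Nat.add W cH))) cK1)
    (Nat.shiftLeft (Nat.add (Nat.add V W) (Nat.mul (Nat.add a b) cU)) (nat_lit 128)) (Nat.mul g cG)
    (Nat.add (Nat.add (Nat.mul cA (er B)) (Nat.mul cB (er A)))
      (Nat.sub (Nat.mul (Nat.sub tA cA) (Nat.sub tB cB)) (Nat.add g g)))
    (Nat.mul tA tB)

def mul2 (A B X Y : Nat) : Nat :=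
  mul3 A B (Nat.land A cB1) (Nat.land B cB1) (Nat.land A cW) (Nat.land B cV) (tot X) (tot Y)
    (ac X) (ac Y) (Nat.shiftRight (Nat.mul (a1 X) (a1 Y)) (nat_lit 1))

def mul (A B : Nat) : Nat := cond (Nat.ble cL (Nat.add A B)) cL (mul2 A B (ab A) (ab B))

def c179 : Nat := Nat.shiftLeft 1 179
def c180 : Nat := Nat.shiftLeft 1 180

def sq (n : Nat) : Nat := Nat.mul n n

/-- twice the error of the decomposition of a square -/
def sqe (t v : Nat) : Nat :=
  Nat.add (Nat.shiftLeft (Nat.mul (Nat.add t (nat_lit 1)) (Nat.add v (nat_lit 1))) (nat_lit 2)) (sq v)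

def inv4 (A q k c y e : Nat) : Nat :=
  fin (Nat.add (Nat.add (Nat.add (Nat.mul k cHU1) cK0) c) (Nat.shiftLeft y (nat_lit 2304)))
    (Nat.mul k (Nat.land A cW)) (Nat.add (Nat.mul k (er A)) e)
    (Nat.add (Nat.add (Nat.add c y) (Nat.mul k q)) e)

def inv3 (A p q t v p3 k : Nat) : Nat :=
  inv4 A q k (Nat.add (Nat.div c180 p) (Nat.div (Nat.mul c179 (Nat.add (sq t) (sq v))) p3))
    (Nat.div (Nat.mul c179 (sq t)) p3)
    (Nat.add (Nat.add (Nat.div (Nat.mul c179 (sqe t v)) p3)
      (Nat.div (Nat.mul c180 (Nat.mul q (sq q))) (Nat.mul p3 (Nat.sub p q)))) (Nat.add q (nat_lit 5)))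

def inv2 (A p q t : Nat) : Nat :=
  cond (Nat.ble p q) cL (inv3 A p q t (Nat.sub q t) (Nat.mul p (sq p)) (Nat.div c180 (sq p)))

def inv1 (A X : Nat) : Nat := inv2 A (Nat.sub (Nat.land A cB1) cH) (rad X) (a1 X)

def inv (A : Nat) : Nat :=
  cond (Nat.ble cL A) cL (inv1 A (ab A))

def hn (u c0 c1 c2 c3 c4 c5 c6 c7 c8 c9 c10 c11 : Nat) : Nat :=
  Nat.add c0 (Nat.mul u (Nat.add c1 (Nat.mul u (Nat.add c2 (Nat.mul u (Nat.add c3 (Nat.mul u
    (Nat.add c4 (Nat.mul u (Nat.add c5 (Nat.mul u (Nat.add c6 (Nat.mul u (Nat.add c7 (Nat.mul u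
    (Nat.add c8 (Nat.mul u (Nat.add c9 (Nat.mul u (Nat.add c10 (Nat.mul u c11)))))))))))))))))))))

def cDc : Nat := Nat.shiftLeft (nat_lit 2658271574788448768043625811014615890319638528000000000) 2580
def cDs : Nat := Nat.shiftLeft (nat_lit 119622220865480194561963161495657715064383733760000000000) 2640
def cDc' : Nat := Nat.shiftLeft cDc 128
def cDs' : Nat := Nat.shiftLeft cDs 128

def cosP (u : Nat) : Nat :=
  hn u
      (Nat.shiftLeft (nat_lit 2658271574788448768043625811014615890319638528000000000) (nat_lit 2640))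
      (Nat.shiftLeft (nat_lit 110761315616185365335151075458942328763318272000000000) (nat_lit 2400))
      (Nat.shiftLeft (nat_lit 65929354533443669842351830630322814740070400000000) (nat_lit 2160))
      (Nat.shiftLeft (nat_lit 5549608967461588370568335911643334574080000000) (nat_lit 1920))
      (Nat.shiftLeft (nat_lit 127051487350311089069787910065094656000000) (nat_lit 1680))
      (Nat.shiftLeft (nat_lit 1092634050140274243806225576755200000) (nat_lit 1440))
      (Nat.shiftLeft (nat_lit 4284436171263387931356364800000) (nat_lit 1200))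
      (Nat.shiftLeft (nat_lit 8718836327357321797632000) (nat_lit 960))
      (Nat.shiftLeft (nat_lit 10102470716719180800) (nat_lit 720))
      (Nat.shiftLeft (nat_lit 7146019520640) (nat_lit 480))
      (Nat.shiftLeft (nat_lit 3258024) (nat_lit 240))
      (nat_lit 1)

def cosN (u : Nat) : Nat :=
  hn u
      (Nat.shiftLeft (nat_lit 1329135787394224384021812905507307945159819264000000000) (nat_lit 2520))
      (Nat.shiftLeft (nat_lit 3692043853872845511171702515298077625443942400000000) (nat_lit 2280))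
      (Nat.shiftLeft (nat_lit 732548383704929664915020340336920163778560000000) (nat_lit 2040))
      (Nat.shiftLeft (nat_lit 30492356964074661376749098415622717440000000) (nat_lit 1800))
      (Nat.shiftLeft (nat_lit 415200939053304212646365719166976000000) (nat_lit 1560))
      (Nat.shiftLeft (nat_lit 2365008766537390138108713369600000) (nat_lit 1320))
      (Nat.shiftLeft (nat_lit 6591440263482135279009792000) (nat_lit 1080))
      (Nat.shiftLeft (nat_lit 10021650950985427353600) (nat_lit 840))
      (Nat.shiftLeft (nat_lit 9003984596006400) (nat_lit 600))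
      (Nat.shiftLeft (nat_lit 5082517440) (nat_lit 360))
      (Nat.shiftLeft (nat_lit 1892) (nat_lit 120))
      (nat_lit 0)

def sinP (u : Nat) : Nat :=
  hn u
      (Nat.shiftLeft (nat_lit 119622220865480194561963161495657715064383733760000000000) (nat_lit 2640))
      (Nat.shiftLeft (nat_lit 996851840545668288016359679130480958869864448000000000) (nat_lit 2400))
      (Nat.shiftLeft (nat_lit 329646772667218349211759153151614073700352000000000) (nat_lit 2160))
      (Nat.shiftLeft (nat_lit 19210184887367036667351932001842311987200000000) (nat_lit 1920))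
      (Nat.shiftLeft (nat_lit 336312760633176412243556232525250560000000) (nat_lit 1680))
      (Nat.shiftLeft (nat_lit 2341358678872016236727626235904000000) (nat_lit 1440))
      (Nat.shiftLeft (nat_lit 7711985108274098276441456640000) (nat_lit 1200))
      (Nat.shiftLeft (nat_lit 13529228783830326927360000) (nat_lit 960))
      (Nat.shiftLeft (nat_lit 13776096431889792000) (nat_lit 720))
      (Nat.shiftLeft (nat_lit 8691104822400) (nat_lit 480))
      (Nat.shiftLeft (nat_lit 3575880) (nat_lit 240))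
      (nat_lit 1)

def sinN (u : Nat) : Nat :=
  hn u
      (Nat.shiftLeft (nat_lit 19937036810913365760327193582609619177397288960000000000) (nat_lit 2520))
      (Nat.shiftLeft (nat_lit 23734567632039721143246659026916213306425344000000000) (nat_lit 2280))
      (Nat.shiftLeft (nat_lit 2996788842429257720106901392287400670003200000000) (nat_lit 2040))
      (Nat.shiftLeft (nat_lit 91477070892223984130247295246868152320000000) (nat_lit 1800))
      (Nat.shiftLeft (nat_lit 983370645126246819425603019079680000000) (nat_lit 1560))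
      (Nat.shiftLeft (nat_lit 4627191064964458965864873984000000) (nat_lit 1320))
      (Nat.shiftLeft (nat_lit 10985733772470225465016320000) (nat_lit 1080))
      (Nat.shiftLeft (nat_lit 14547557832075620352000) (nat_lit 840))
      (Nat.shiftLeft (nat_lit 11576551623436800) (nat_lit 600))
      (Nat.shiftLeft (nat_lit 5864443200) (nat_lit 360))
      (Nat.shiftLeft (nat_lit 1980) (nat_lit 120))
      (nat_lit 0)

def cos2 (w u : Nat) : Nat := Nat.div (Nat.sub (Nat.add (cosP u) cDc') (Nat.mul w (cosN u))) cDc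

def sin2 (n w u : Nat) : Nat :=
  Nat.div (Nat.sub (Nat.add (Nat.mul n (sinP u)) cDs') (Nat.mul (Nat.mul n w) (sinN u))) cDs

/-- distance to the offset -/
def dH (a : Nat) : Nat := Nat.add (Nat.sub a cH) (Nat.sub cH a)

def c2H : Nat := Nat.shiftLeft 1 129

def cos1 (w : Nat) : Nat := cos2 w (Nat.mul w w)

def sin1 (n w : Nat) : Nat := sin2 n w (Nat.mul w w)

/-- cosine with offset of the centre with offset -/
def cosH (a : Nat) : Nat := cos1 (sq (dH a))

/-- sine with offset of the centre with offset -/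
def sinH (a : Nat) : Nat :=
  cond (Nat.ble cH a) (sin1 (dH a) (sq (dH a))) (Nat.sub c2H (sin1 (dH a) (sq (dH a))))

def c122 : Nat := Nat.shiftLeft 1 122
def c124 : Nat := Nat.shiftLeft 1 124
def cE : Nat := Nat.shiftLeft 451 60
def c3O : Nat := Nat.shiftLeft 3 60
def c63 : Nat := Nat.shiftLeft 1 63

def tr2 (A W q h d f F G : Nat) : Nat :=
  fin (Nat.add (Nat.add (Nat.add (Nat.mul G W) cK2) (Nat.shiftRight (Nat.mul F f) (nat_lit 62)))
      (Nat.shiftLeft h (nat_lit 2370)))
    (Nat.add (Nat.add (Nat.shiftLeft (Nat.add W (Nat.mul G cU1)) (nat_lit 128))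
      (Nat.shiftLeft f (nat_lit 66)))
      (Nat.shiftLeft (Nat.shiftRight (Nat.mul F h) (nat_lit 62)) (nat_lit 2304)))
    (Nat.add (Nat.add (Nat.mul (dH G) (er A)) (Nat.shiftRight (Nat.mul (dH F) d) (nat_lit 62)))
      (Nat.add (Nat.div (Nat.mul q (sq q)) c3O) cE))
    c124

def tr1 (A q t v F G : Nat) : Nat :=
  tr2 A (Nat.land A cW) q (sq t) (sqe t v) (Nat.sub c122 (Nat.add (sq t) (sq v))) F G

/-- the interval from minus one to one -/
def cI : Nat := Nat.add cHU (Nat.shiftLeft (Nat.add cO (Nat.shiftLeft cO 192)) 2496)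

def tr (A X F G : Nat) : Nat :=
  cond (Nat.ble cL A) cI (cond (Nat.ble (ac X) c63)
    (cond (Nat.ble (rad X) cO) (tr1 A (rad X) (a1 X) (Nat.sub (rad X) (a1 X)) F G) cI) cI)

def sin (A : Nat) : Nat :=
  frc (Nat.land A cB1) cI (fun a => tr A (ab A) (sinH a) (cosH a))

def cos (A : Nat) : Nat :=
  frc (Nat.land A cB1) cI (fun a => tr A (ab A) (cosH a) (Nat.sub c2H (sinH a)))

def cst (c : Int) (r : Nat) : Nat :=
  Nat.add (Nat.add (Int.toNat (Int.add c (Int.ofNat cH))) cHU1)
    (Nat.shiftLeft (Nat.add r (Nat.shiftLeft (Nat.add c.natAbs r) 192)) 2496)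

def cq (n : Int) (d : Nat) : Nat := cst (Int.ediv (Int.mul n (Int.ofNat cO)) (Int.ofNat d)) 1

def cPi : Nat := cst 3622009729038561421 1

/-- register `i` of the register file `R` -/
def get (R i : Nat) : Nat :=
  Nat.xor (Nat.land (Nat.shiftRight R (Nat.mul i (nat_lit 2880))) cR) cL

/-- write register `j`, which must be the first unused one -/
def app (R j A : Nat) : Nat :=
  Nat.add R (Nat.shiftLeft (cond (Nat.ble cL A) (nat_lit 0) (Nat.xor A cL)) (Nat.mul j (nat_lit 2880)))

noncomputable def ev (K R : Nat) (e : Ex) : Nat :=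
  Ex.rec (motive := fun _ => Nat) (fun i => get R i) (fun i => get K i) (fun n d => cq n d) cPi
    (fun _ _ a b => add a b) (fun _ _ a b => sub a b) (fun _ _ a b => mul a b)
    (fun _ a => inv a) (fun _ a => sin a) (fun _ a => cos a) e

noncomputable def runK (l : List Int) : Nat → Nat → Nat :=
  List.rec (motive := fun _ => Nat → Nat → Nat) (fun _ R => R)
    (fun k _ ih j R => frc (app R j (cst k 0)) 0 (ih (Nat.add j (nat_lit 1)))) l

noncomputable def run (K : Nat) (l : List Ex) : Nat → Nat → Nat :=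
  List.rec (motive := fun _ => Nat → Nat → Nat) (fun _ R => R)
    (fun e _ ih j R => frc (app R j (ev K R e)) 0 (ih (Nat.add j (nat_lit 1)))) l

def mk3 (lo p j s : Nat) : Nat :=
  Nat.add (Nat.add (Nat.add lo cHU2) (Nat.shiftLeft p (Nat.mul j 192))) (Nat.shiftLeft s 2688)

def reg0 (m0 : Int) (dl : Nat) : Nat :=
  mk3 (Nat.add (Nat.add (Int.toNat (Int.add m0 (Int.ofNat cH))) (Nat.shiftLeft (Nat.add dl cH) 192))
    (Nat.shiftLeft 1 2432)) 0 2 (Nat.add m0.natAbs dl)

/-- the form for register `j` at the start -/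
def sym (j : Nat) : Nat := mk3 (Nat.add (Nat.add cH cS) (Nat.shiftLeft 1 2432)) cO (Nat.add j 1) cO

/-- the form for register `j` after a contraction -/
def resym (j A : Nat) : Nat :=
  cond (Nat.ble cL A) cL
    (mk3 (Nat.land A cB2) (Nat.sub (Nat.sub (rad (ab A)) (a1 (ab A)))
      (Nat.land (Nat.shiftRight (ab A) 2304) cB1)) (Nat.add j 1) (tot (ab A)))

noncomputable def base0 (l : List Ex) : Nat → Nat → Nat :=
  List.rec (motive := fun _ => Nat → Nat → Nat) (fun _ R => R)
    (fun _ _ ih j R => frc (app R j (sym j)) 0 (ih (Nat.add j (nat_lit 1)))) l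

noncomputable def reb (K S : Nat) (l : List Ex) : Nat → Nat → Nat :=
  List.rec (motive := fun _ => Nat → Nat → Nat) (fun _ R => R)
    (fun e _ ih j R => frc (app R j (resym j (ev K S e))) 0 (ih (Nat.add j (nat_lit 1)))) l

def le1 (A : Nat) : Bool := cond (Nat.ble cL A) false (Nat.ble (tot (ab A)) cO)

def pos (A : Nat) : Bool :=
  cond (Nat.ble cL A) false (Nat.ble (Nat.add (Nat.add (rad (ab A)) cH) 1) (Nat.land A cB1))

noncomputable def allE (K R : Nat) (p : Nat → Bool) (l : List Ex) : Bool :=
  List.rec (motive := fun _ => Bool) true (fun e _ ih => cond (p (ev K R e)) ih false) l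

/-- further rounds of the contraction -/
noncomputable def contr (K R0 m : Nat) (dsA fs : List Ex) (t : Nat) : Nat → Nat :=
  Nat.rec (motive := fun _ => Nat → Nat) (fun R => R)
    (fun _ ih R => frc (run K dsA m R) 0 (fun S => frc (reb K S fs 1 R0) 0 ih)) t

noncomputable def allB (K R m : Nat) (l : List (List Ex × List Ex)) : Bool :=
  List.rec (motive := fun _ => Bool) true
    (fun b _ ih => cond (frc (run K b.1 m R) false (fun S => allE K S pos b.2)) ih false) l

noncomputable def go1 (K R0 m it : Nat) (dsA fs : List Ex) (bs : List (List Ex × List Ex)) : Bool :=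
  frc (run K dsA m (base0 fs 1 R0)) false (fun S => cond (allE K S le1 fs)
    (frc (contr K R0 m dsA fs (Nat.sub it 1) (reb K S fs 1 R0)) false (fun R => allB K R m bs)) false)

end AA

noncomputable def go (m0 : Int) (dl : Nat) (Kl : List Int) (n it : Nat) (dsA fs : List Ex)
    (bs : List (List Ex × List Ex)) : Bool :=
  cond (Nat.ble n 10) (cond (Nat.beq fs.length n)
    (AA.frc (AA.runK Kl 0 0) false (fun K => AA.frc (AA.app 0 0 (AA.reg0 m0 dl)) false (fun R0 =>
      AA.go1 K R0 (Nat.add n 1) it dsA fs bs))) false) false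

namespace AA

/-! compiled copies of the recursive definitions, for experiments -/

def evC (K R : Nat) : Ex → Nat
  | .v i => get R i
  | .k i => get K i
  | .q n d => cq n d
  | .pi => cPi
  | .add a b => add (evC K R a) (evC K R b)
  | .sub a b => sub (evC K R a) (evC K R b)
  | .mul a b => mul (evC K R a) (evC K R b)
  | .inv a => inv (evC K R a)
  | .sin a => sin (evC K R a)
  | .cos a => cos (evC K R a)

def loopC {α : Type} (f : Nat → Nat → α → Nat) : List α → Nat → Nat → Nat
  | [], _, R => R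
  | e :: es, j, R => loopC f es (j + 1) (app R j (f j R e))

def contrC (K R0 m : Nat) (dsA fs : List Ex) : Nat → Nat → Nat
  | 0, R => R
  | t + 1, R =>
    let S := loopC (fun _ R e => evC K R e) dsA m R
    contrC K R0 m dsA fs t (loopC (fun j _ e => resym j (evC K S e)) fs 1 R0)

def dbg (A : Nat) (f : Nat → Int) : Int := if cL ≤ A then -(2 ^ 200) else f A

/-- centre, radius and error radius of a form -/
def shw (A : Nat) : List Int :=
  [dbg A fun A => (Nat.land A cB1 : Int) - cH, dbg A fun A => rad (ab A), dbg A fun A => er A]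

end AA

/-- margins of the first round, radii after the contraction, margins of the conditions; the value
`-2 ^ 200` marks a failed evaluation -/
def goDbg (m0 : Int) (dl : Nat) (Kl : List Int) (n it : Nat) (dsA fs : List Ex)
    (bs : List (List Ex × List Ex)) : List Int :=
  let K := AA.loopC (fun _ _ k => AA.cst k 0) Kl 0 0
  let R0 := AA.app 0 0 (AA.reg0 m0 dl)
  let S := AA.loopC (fun _ R e => AA.evC K R e) dsA (n + 1) (AA.loopC (fun j _ _ => AA.sym j) fs 1 R0)
  let R := AA.contrC K R0 (n + 1) dsA fs (it - 1)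
    (AA.loopC (fun j _ e => AA.resym j (AA.evC K S e)) fs 1 R0)
  fs.map (fun f => AA.dbg (AA.evC K S f) fun A => (AA.cO : Int) - AA.tot (AA.ab A)) ++
    (List.range n).map (fun i => AA.dbg (AA.get R (i + 1)) fun A =>
      ((A >>> (192 * (i + 2))) % 2 ^ 192 : Nat) - (AA.cH : Int)) ++
    bs.flatMap (fun b =>
      let T := AA.loopC (fun _ R e => AA.evC K R e) b.1 (n + 1) R
      b.2.map fun e => AA.dbg (AA.evC K T e) fun A =>
        (Nat.land A AA.cB1 : Int) - AA.cH - AA.rad (AA.ab A))

end Pool.Agent.MP_e5b4ec_an.Mid
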