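import Pool.Agent.MP_e5b4ec_an.Mid.AAb

open Finset

namespace Pool.Agent.MP_e5b4ec_an.Mid.AA

theorem cK0_z : (cK0 : ℤ) = 2 ^ 188 * cU := by decide +kernel
theorem cK2_z : (cK2 : ℤ) = 2 ^ 256 * (cU - 1) + 2 ^ 188 * cU := by decide +kernel
theorem cK1_z : (cK1 : ℤ) = 2 ^ 256 * (2 * cU - 1) + 2 ^ 188 * cU := by decide +kernel
theorem cG_z : (cG : ℤ) = bz 12 + 1 := by decide +kernel
theorem cH_z : (cH : ℤ) = 2 ^ 128 := by decide +kernel
theorem cU1_z : (cU1 : ℤ) = cU - 1 := by decide +kernel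
theorem cHU1_z : (cHU1 : ℤ) = 2 ^ 128 * (cU - 1) := by decide +kernel
theorem cHU2_z : (cHU2 : ℤ) = 2 ^ 128 * (cU - 1 - bz 1 - bz 12) := by decide +kernel
theorem c179_eq : c179 = 2 ^ 179 := by decide +kernel
theorem c180_eq : c180 = 2 ^ 180 := by decide +kernel

attribute [local irreducible] cU cHU cL cK0 cK1 cK2 cG cU1 cHU1 cHU2 cB1 cV cW cB2

theorem sl12 (a : ℕ) : ((Nat.shiftLeft a 2304 : ℕ) : ℤ) = a * bz 12 := by rw [sl_z, bz_12]

theorem sl12' (a : ℕ) : ((Nat.shiftLeft a 2370 : ℕ) : ℤ) = a * 2 ^ 66 * bz 12 := by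
  rw [sl_z, bz_12, mul_assoc, ← pow_add]

def cmb (a : ℤ) (f : ℕ → ℤ) (b : ℤ) (g : ℕ → ℤ) (c d : ℤ) (i : ℕ) : ℤ :=
  a * f i + b * g i + (if i = 0 then c else if i = 12 then d else 0)

theorem Sz_cmb (a : ℤ) (f : ℕ → ℤ) (b : ℤ) (g : ℕ → ℤ) (c d : ℤ) :
    Sz (cmb a f b g c d) = a * Sz f + b * Sz g + c + d * bz 12 := by
  simp [Sz, cmb, sum_range_succ, bz_zero]
  ring

theorem dot_cmb {e : ℕ → ℝ} (he : Eps e) (a : ℤ) (f : ℕ → ℤ) (b : ℤ) (g : ℕ → ℤ) (c d : ℤ) :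
    dot (cmb a f b g c d) e = a * dot f e + b * dot g e + c + d * e 12 := by
  simp [dot, cmb, sum_range_succ, he.h0]
  ring

theorem cmb_bd {a : ℤ} {f : ℕ → ℤ} {b : ℤ} {g : ℕ → ℤ} {c d Z : ℤ}
    (h0 : |a * f 0 + b * g 0 + c| ≤ Z)
    (h : ∀ i, 1 ≤ i → i < 13 → |a * f i| + |b * g i| + |d| ≤ Z) :
    ∀ i < 13, |cmb a f b g c d i| ≤ Z := fun i hi => by
  unfold cmb
  split_ifs with h1 h2
  · rwa [h1]
  · exact (abs_add_three _ _ _).trans (h i (by omega) hi)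
  · rw [add_zero]
    exact (abs_add_le _ _).trans (by linarith [h i (by omega) hi, abs_nonneg d])

theorem sub_ge (a b : ℕ) : (a : ℝ) - b ≤ (a - b : ℕ) := by
  have : a ≤ a - b + b := by omega
  have : (a : ℝ) ≤ (a - b : ℕ) + b := by exact_mod_cast this
  linarith

theorem abs_mul_le' {a b c d : ℝ} (h : |a| ≤ c) (h' : |b| ≤ d) : |a * b| ≤ c * d := by
  rw [abs_mul]
  exact mul_le_mul h h' (abs_nonneg _) ((abs_nonneg _).trans h)

theorem abs_mul_lez {a b c d : ℤ} (h : |a| ≤ c) (h' : |b| ≤ d) : |a * b| ≤ c * d := by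
  rw [abs_mul]
  exact mul_le_mul h h' (abs_nonneg _) ((abs_nonneg _).trans h)

theorem mul_core {a b t u w p q g c : ℝ} (ht : |t| ≤ 1) (hu : |u| ≤ p - |a|) (hw : |w| ≤ q - |b|)
    (hc : |a * b - 2 * c| ≤ |a| * |b| - 2 * g) :
    |(a * t + u) * (b * t + w) - 2 * c * t ^ 2| ≤ p * q - 2 * g := by
  have h1 := abs_le.1 (abs_mul_le' hc (abs_mul_le' ht ht))
  have h2 := abs_le.1 (abs_mul_le' (abs_mul_le' (le_refl |a|) ht) hw)
  have h3 := abs_le.1 (abs_mul_le' (abs_mul_le' (le_refl |b|) ht) hu)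
  have h4 := abs_le.1 (abs_mul_le' hu hw)
  rw [abs_le]
  constructor <;> linarith [h1.1, h1.2, h2.1, h2.2, h3.1, h3.2, h4.1, h4.2]

theorem cond_ind {P : ℕ → Prop} {b : Bool} {X Y : ℕ} (h1 : b = true → P X) (h2 : b = false → P Y) :
    P (cond b X Y) := by
  cases b
  · exact h2 rfl
  · exact h1 rfl

theorem ble_ind {P : ℕ → Prop} {a b X Y : ℕ} (h1 : a ≤ b → P X) (h2 : b < a → P Y) :
    P (cond (Nat.ble a b) X Y) :=
  cond_ind (fun h => h1 (Nat.le_of_ble_eq_true h)) fun h => h2 (not_le.1 fun h' => by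
    rw [Nat.ble_eq_true_of_le h'] at h; cases h)

variable {e : ℕ → ℝ} {x y : ℝ} {A B : ℕ}

theorem mul_fin (he : Eps e) {l m : ℕ → ℤ} (h : Dec e x A l) (h' : Dec e y B m) {g P N R Z : ℕ} {c : ℤ}
    (hg : 2 * g ≤ a1 (ab A) * a1 (ab B)) (hc : c = g ∧ 0 ≤ l 1 * m 1 ∨ c = -g ∧ l 1 * m 1 ≤ 0)
    (hp : (P : ℤ) - N = l 0 * Sz m + m 0 * Sz l - l 0 * m 0 + c * (bz 12 + 1) + 2 ^ 188 * cU)
    (hR : R = ac (ab A) * er B + ac (ab B) * er A + (rad (ab A) * rad (ab B) - (g + g)))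
    (hZ : Z = tot (ab A) * tot (ab B)) : Enc e (x * y) (fin P N R Z) := by
  subst hR hZ
  have g1 : 2 * (g : ℤ) ≤ |l 1| * |m 1| :=
    le_trans (by exact_mod_cast hg) (mul_le_mul h.t1 h'.t1 (by positivity) (abs_nonneg _))
  have g2 : |l 1| * |m 1| ≤ (rad (ab A) : ℤ) * rad (ab B) :=
    mul_le_mul (h.li 1 le_rfl (by norm_num)) (h'.li 1 le_rfl (by norm_num)) (abs_nonneg _)
      (by positivity)
  have g3 : |c| = g := by rcases hc with ⟨rfl, _⟩ | ⟨rfl, _⟩ <;> simp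
  have g4 : |l 1 * m 1 - 2 * c| ≤ |l 1| * |m 1| - 2 * g := by
    rw [← abs_mul] at g1 ⊢
    rcases hc with ⟨rfl, h1⟩ | ⟨rfl, h1⟩
    · rw [abs_of_nonneg h1] at g1 ⊢
      rw [abs_of_nonneg (by linarith)]
    · rw [abs_of_nonpos h1] at g1 ⊢
      rw [abs_of_nonpos (by linarith)]
      linarith
  have n1 : (0 : ℤ) ≤ ac (ab A) * ac (ab B) := by positivity
  have n2 : (0 : ℤ) ≤ ac (ab A) * rad (ab B) := by positivity
  have n3 : (0 : ℤ) ≤ ac (ab B) * rad (ab A) := by positivity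
  have n4 : (0 : ℤ) ≤ g := by positivity
  refine fin_spec he (cmb (l 0) m (m 0) l (c - l 0 * m 0) c) ?_ (cmb_bd ?_ fun i i1 i2 => ?_) ?_ ?_
  · rw [hp, Sz_cmb]; ring
  · have := abs_mul_lez h.l0 h'.l0
    rw [show l 0 * m 0 + m 0 * l 0 + (c - l 0 * m 0) = l 0 * m 0 + c by ring, h.tt, h'.tt]
    push_cast
    linarith [abs_add_le (l 0 * m 0) c]
  · have := abs_mul_lez h.l0 (h'.li i i1 i2)
    have := abs_mul_lez h'.l0 (h.li i i1 i2)
    rw [h.tt, h'.tt]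
    push_cast
    linarith
  · have := Nat.mul_le_mul_left (ac (ab A)) h'.rr
    have := Nat.mul_le_mul_left (ac (ab B)) h.rr
    have : (ac (ab A) + rad (ab A)) * (ac (ab B) + rad (ab B)) = ac (ab A) * ac (ab B) +
      ac (ab A) * rad (ab B) + ac (ab B) * rad (ab A) + rad (ab A) * rad (ab B) := by ring
    rw [h.tt, h'.tt]
    omega
  · have c1 := abs_le.1 (mul_core (g := g) (c := c) (he.le 1) h.u h'.u (by exact_mod_cast g4))
    have c2 := abs_le.1 (abs_mul_le' (a := l 0) (c := ac (ab A)) (by exact_mod_cast h.l0) h'.err)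
    have c3 := abs_le.1 (abs_mul_le' (a := m 0) (c := ac (ab B)) (by exact_mod_cast h'.l0) h.err)
    have c4 := sub_ge (rad (ab A) * rad (ab B)) (g + g)
    rw [dot_cmb he, he.h12, Nat.cast_add, Nat.cast_add, abs_le]
    generalize ((rad (ab A) * rad (ab B) - (g + g) : ℕ) : ℝ) = z at *
    push_cast at c4 ⊢
    constructor <;> linarith [c1.1, c1.2, c2.1, c2.2, c3.1, c3.2]

set_option exponentiation.threshold 400 in
theorem Enc.mul (he : Eps e) (h : Enc e x A) (h' : Enc e y B) : Enc e (x * y) (mul A B) := by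
  rw [AA.mul]
  refine ble_ind (fun _ => enc_bad) fun hb => ?_
  rw [addE] at hb
  obtain ⟨l, d⟩ := h.dec he (by omega)
  obtain ⟨m, d'⟩ := h'.dec he (by omega)
  have hg : 2 * Nat.shiftRight (Nat.mul (a1 (ab A)) (a1 (ab B))) (nat_lit 1) ≤ a1 (ab A) * a1 (ab B) := by
    rw [sr_eq, mulE]
    exact Nat.mul_div_le _ _
  have hs : Nat.land (Nat.xor A B) cS =
      (decide (0 ≤ l 1) ^^ decide (0 ≤ m 1)).toNat * 2 ^ 320 := by
    rw [Nat.land_eq, Nat.xor_eq, show cS = 2 ^ 320 by decide +kernel, Nat.and_two_pow,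
      Nat.testBit_xor, d.sg, d'.sg]
  rw [mul2]
  generalize Nat.shiftRight (Nat.mul (a1 (ab A)) (a1 (ab B))) (nat_lit 1) = g at *
  rw [mul3, mul4]
  refine cond_ind (fun hq => ?_) fun hq => ?_
  swap
  · refine mul_fin he d d' hg (c := -g) (Or.inr ⟨rfl, ?_⟩) ?_
      (by simp only [addE, mulE, subE, rad]) (mulE _ _)
    · have := Nat.ne_of_beq_eq_false hq
      rw [hs] at this
      by_cases h1 : 0 ≤ l 1 <;> by_cases h2 : 0 ≤ m 1 <;> simp [h1, h2] at this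
      · exact mul_nonpos_of_nonneg_of_nonpos h1 (not_le.1 h2).le
      · exact mul_nonpos_of_nonpos_of_nonneg (not_le.1 h1).le h2
    · simp only [addE, mulE, Nat.cast_add, Nat.cast_mul, sl_z, d.c, d'.c, d.cw, d'.cv,
        cK1_z, cG_z, cH_z]
      ring
  · refine mul_fin he d d' hg (c := g) (Or.inl ⟨rfl, ?_⟩) ?_
      (by simp only [addE, mulE, subE, rad]) (mulE _ _)
    · have := Nat.eq_of_beq_eq_true hq
      rw [hs] at this
      by_cases h1 : 0 ≤ l 1 <;> by_cases h2 : 0 ≤ m 1 <;> simp [h1, h2] at this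
      · exact mul_nonneg h1 h2
      · exact mul_nonneg_of_nonpos_of_nonpos (not_le.1 h1).le (not_le.1 h2).le
    · simp only [addE, mulE, Nat.cast_add, Nat.cast_mul, sl_z, d.c, d'.c, d.cw, d'.cv,
        cK1_z, cG_z, cH_z]
      ring

theorem sq_core {a t u s v : ℝ} (ht : |t| ≤ 1) (hu : |u| ≤ v) (h0 : 0 ≤ s) (h1 : s ≤ |a|)
    (h2 : |a| ≤ s + 1) :
    |(a * t + u) ^ 2 - (s * s + v * v) / 2 - s * s / 2 * (2 * t ^ 2 - 1)| ≤
      ((s + 1) * (v + 1) * 4 + v * v) / 2 := by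
  have a1 : s * s ≤ a * a := by
    rw [← abs_mul_abs_self a]; exact mul_self_le_mul_self h0 h1
  have a2 : a * a ≤ (s + 1) * (s + 1) := by
    rw [← abs_mul_abs_self a]; exact mul_self_le_mul_self (abs_nonneg _) h2
  have a3 : |a * a - s * s| ≤ 2 * s + 1 := abs_le.2 ⟨by linarith, by linarith⟩
  have b1 := abs_le.1 (abs_mul_le' a3 (abs_mul_le' ht ht))
  have b2 := abs_le.1 (abs_mul_le' (abs_mul_le' h2 ht) hu)
  have b3 := abs_le.1 (abs_mul_le' hu hu)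
  have b4 := mul_self_nonneg u
  rw [abs_le]
  constructor <;> linarith [b1.1, b1.2, b2.1, b2.2, b3.2]

theorem Dec.rad' (he : Eps e) {l : ℕ → ℤ} (h : Dec e x A l) :
    |x * 2 ^ 60 - l 0| ≤ (rad (ab A) : ℝ) := by
  have h1 := abs_le.1 h.u
  have h2 := abs_le.1 (abs_mul_le' (le_refl |(l 1 : ℝ)|) (he.le 1))
  rw [abs_le]
  constructor <;> linarith [h1.1, h1.2, h2.1, h2.2]

theorem Dec.tq {l : ℕ → ℤ} (h : Dec e x A l) : a1 (ab A) ≤ rad (ab A) := by
  exact_mod_cast h.t1.trans (h.li 1 le_rfl (by norm_num))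

theorem Dec.sq' (he : Eps e) {l : ℕ → ℤ} (h : Dec e x A l) {t v : ℕ} (ht : t = a1 (ab A))
    (hv : v = Nat.sub (rad (ab A)) t) :
    |(x * 2 ^ 60 - l 0) ^ 2 - ((sq t : ℝ) + sq v) / 2 - (sq t : ℝ) / 2 * e 12| ≤ (sqe t v : ℝ) / 2 := by
  have h1 : (t : ℝ) ≤ |(l 1 : ℝ)| := by rw [ht]; exact_mod_cast h.t1
  have h2 : |(l 1 : ℝ)| ≤ t + 1 := by rw [ht]; exact_mod_cast h.t2
  have h3 := sub_ge (rad (ab A)) t
  have := sq_core (v := v) (he.le 1) (h.u.trans (by rw [hv, subE]; linarith))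
    (Nat.cast_nonneg t) h1 h2
  simp only [sqe, sq, addE, mulE, slE]
  push_cast
  rw [he.h12]
  convert this using 3
  ring

theorem inv_core {X p q S h0 h1 d t k c1 c2 y z1 z2 : ℝ} (hq : q < p) (hX : |X - p| ≤ q)
    (ht : |t| ≤ 1) (hS : |(X - p) ^ 2 - h0 / 2 - h1 / 2 * t| ≤ d / 2)
    (hk : k ≤ S / (p * p) ∧ S / (p * p) ≤ k + 1) (hc1 : c1 ≤ S / p ∧ S / p ≤ c1 + 1)
    (hc2 : c2 ≤ S / 2 * h0 / (p * (p * p)) ∧ S / 2 * h0 / (p * (p * p)) ≤ c2 + 1)
    (hy : y ≤ S / 2 * h1 / (p * (p * p)) ∧ S / 2 * h1 / (p * (p * p)) ≤ y + 1)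
    (hz1 : S / 2 * d / (p * (p * p)) ≤ z1 + 1)
    (hz2 : S * (q * (q * q)) / (p * (p * p) * (p - q)) ≤ z2 + 1) (S0 : 0 < S) :
    |S / X + k * (X - p) - (c1 + c2) - y * t| ≤ z1 + z2 + (q + 5) := by
  have q0 : 0 ≤ q := (abs_nonneg _).trans hX
  have p0 : 0 < p := q0.trans_lt hq
  have X1 : p - q ≤ X := by linarith [(abs_le.1 hX).1]
  have X0 : 0 < X := by linarith
  have id : S / X = S / p - S / (p * p) * (X - p) + S / (p * (p * p)) * (X - p) ^ 2 -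
      S / (p * (p * p) * X) * ((X - p) * ((X - p) * (X - p))) := by
    field_simp
    ring
  have a1 := abs_le.1 (abs_mul_le' (a := S / (p * p) - k) (c := 1)
    (abs_le.2 ⟨by linarith [hk.1], by linarith [hk.2]⟩) hX)
  have a2 := abs_le.1 (abs_mul_le' (a := S / 2 * h1 / (p * (p * p)) - y) (c := 1)
    (abs_le.2 ⟨by linarith [hy.1], by linarith [hy.2]⟩) ht)
  have a3 := abs_le.1 (abs_mul_le' (a := S / (p * (p * p))) (c := S / (p * (p * p)))
    (abs_of_pos (by positivity)).le hS)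
  have a4 := abs_le.1 (abs_mul_le' (a := S / (p * (p * p) * X)) (c := S / (p * (p * p) * (p - q)))
    (by
      have : 0 < p - q := by linarith
      rw [abs_of_pos (by positivity)]
      gcongr) (abs_mul_le' hX (abs_mul_le' hX hX)))
  have e1 : S / 2 * h0 / (p * (p * p)) = S / (p * (p * p)) * (h0 / 2) := by ring
  have e2 : S / 2 * h1 / (p * (p * p)) = S / (p * (p * p)) * (h1 / 2) := by ring
  have e3 : S / 2 * d / (p * (p * p)) = S / (p * (p * p)) * (d / 2) := by ring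
  have e4 : S * (q * (q * q)) / (p * (p * p) * (p - q)) =
    S / (p * (p * p) * (p - q)) * (q * (q * q)) := by ring
  rw [e1] at hc2
  rw [e2] at a2
  rw [e3] at hz1
  rw [e4] at hz2
  rw [id]
  generalize S / (p * (p * p) * (p - q)) = w1 at *
  generalize S / (p * (p * p) * X) = w2 at *
  generalize S / (p * (p * p)) = w3 at *
  generalize S / (p * p) = w4 at *
  generalize S / p = w5 at *
  rw [abs_le]
  constructor <;> linarith [a1.1, a1.2, a2.1, a2.2, a3.1, a3.2, a4.1, a4.2, hc1.1, hc1.2, hc2.1, hc2.2]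

theorem ndiv (v : ℕ) {d : ℕ} (hd : 0 < d) :
    ((Nat.div v d : ℕ) : ℝ) ≤ v / d ∧ (v : ℝ) / d ≤ (Nat.div v d : ℕ) + 1 := nfloor v hd

theorem Enc.inv (he : Eps e) (h : Enc e x A) : Enc e x⁻¹ (inv A) := by
  rw [AA.inv]
  refine ble_ind (fun _ => enc_bad) fun hb => ?_
  obtain ⟨l, d⟩ := h.dec he hb
  rw [inv1, inv2]
  refine ble_ind (fun _ => enc_bad) fun hp' => ?_
  have hl : ((Nat.sub (Nat.land A cB1) cH : ℕ) : ℤ) = l 0 := by
    have := d.c
    have := cH_z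
    rw [subE] at hp' ⊢
    omega
  have hs := d.sq' he rfl rfl
  have hr := d.rad' he
  have hrr := d.rr
  have hli := d.li
  have her := d.err
  have hcw := d.cw
  rw [inv3, inv4]
  generalize Nat.sub (rad (ab A)) (a1 (ab A)) = v at *
  generalize a1 (ab A) = t at *
  generalize rad (ab A) = q at *
  generalize Nat.sub (Nat.land A cB1) cH = p at *
  have p0 : 0 < p := by omega
  have p2 : 0 < sq p := Nat.mul_pos p0 p0
  have p3 : 0 < Nat.mul p (sq p) := Nat.mul_pos p0 p2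
  have b1 := ndiv c180 p2
  have b2 := ndiv c180 p0
  have b3 := ndiv (Nat.mul c179 (Nat.add (sq t) (sq v))) p3
  have b4 := ndiv (Nat.mul c179 (sq t)) p3
  have b5 := (ndiv (Nat.mul c179 (sqe t v)) p3).2
  have b6 := (ndiv (Nat.mul c180 (Nat.mul q (sq q))) (d := Nat.mul (Nat.mul p (sq p)) (Nat.sub p q))
    (Nat.mul_pos p3 (Nat.sub_pos_of_lt hp'))).2
  generalize Nat.div c180 (sq p) = k at *
  generalize Nat.div c180 p = c1 at *
  generalize Nat.div (Nat.mul c179 (Nat.add (sq t) (sq v))) (Nat.mul p (sq p)) = c2 at *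
  generalize Nat.div (Nat.mul c179 (sq t)) (Nat.mul p (sq p)) = y at *
  generalize Nat.div (Nat.mul c179 (sqe t v)) (Nat.mul p (sq p)) = z1 at *
  generalize Nat.div (Nat.mul c180 (Nat.mul q (sq q))) (Nat.mul (Nat.mul p (sq p)) (Nat.sub p q)) = z2
    at *
  generalize sq t = h1 at *
  generalize sq v = h2 at *
  generalize sqe t v = dd at *
  have hl' : (l 0 : ℝ) = p := by rw [← hl]; simp
  rw [hl'] at hr hs
  have s1 : ((c180 : ℕ) : ℝ) = 2 ^ 180 := by rw [c180_eq]; norm_num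
  have s2 : ((c179 : ℕ) : ℝ) = 2 ^ 180 / 2 := by rw [c179_eq]; norm_num
  simp only [sq, addE, mulE, subE, Nat.cast_add, Nat.cast_mul, s1, s2,
    Nat.cast_sub hp'.le] at b1 b2 b3 b4 b5 b6
  have core := abs_le.1 (inv_core (by exact_mod_cast hp') hr (he.le 12) hs b1 b2 b3 b4 b5 b6
    (by positivity))
  refine fin_spec he (cmb (-k) l 0 l (c1 + c2 + k * l 0) y) ?_ (cmb_bd ?_ fun i i1 i2 => ?_) ?_ ?_
  · simp only [addE, mulE, Nat.cast_add, Nat.cast_mul, sl12, hcw, cK0_z, cHU1_z, Sz_cmb]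
    ring
  · rw [show -(k : ℤ) * l 0 + 0 * l 0 + (c1 + c2 + k * l 0) = c1 + c2 by ring,
      abs_of_nonneg (by positivity)]
    simp only [addE, mulE]
    omega
  · have := abs_mul_lez (a := -(k : ℤ)) (c := k) (by simp) (hli i i1 i2)
    rw [zero_mul, abs_zero, Nat.abs_cast]
    simp only [addE, mulE, Nat.cast_add, Nat.cast_mul]
    omega
  · have := Nat.mul_le_mul_left k hrr
    simp only [addE, mulE]
    omega
  · have c2 := abs_le.1 (abs_mul_le' (a := k) (c := k) (by simp) her)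
    rw [dot_cmb he, show x⁻¹ * 2 ^ 120 = 2 ^ 180 / (x * 2 ^ 60) by
      rw [div_mul_eq_div_div_swap, div_eq_mul_inv _ x]; ring]
    simp only [addE, mulE]
    push_cast
    rw [hl', abs_le]
    constructor <;> linarith [core.1, core.2, c2.1, c2.2]

theorem enc_cst (he : Eps e) {c : ℤ} {r : ℕ} (h : |x * 2 ^ 60 - c| ≤ (r : ℝ)) : Enc e x (cst c r) := by
  have e0 : ((cst c r : ℕ) : ℤ) = (c + cH).toNat + 2 ^ 128 * (cU - 1) +
      (r * bz 13 + (c.natAbs + r : ℕ) * bz 14) := by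
    delta cst
    rw [addE, Nat.cast_add, top_z, addE, addE, Nat.cast_add, cHU1_z, Int.add_def,
      Int.ofNat_eq_natCast]
  by_cases hs : 2 ^ 128 ≤ c.natAbs + r
  · refine Or.inl (big_bad ?_ hs)
    have := mul_nonneg (Nat.cast_nonneg (α := ℤ) r) (bz_pos 13).le
    have := Nat.cast_nonneg (α := ℤ) (c + cH).toNat
    have := Nat.cast_nonneg (α := ℤ) cHU1
    rw [e0, ← cHU1_z]
    linarith
  · refine Or.inr ⟨cmb 0 0 0 0 c 0, r, c.natAbs + r, ?_, cmb_bd ?_ fun i _ _ => ?_, by omega, ?_⟩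
    · rw [e0, Sz_cmb, show (((c + cH).toNat : ℕ) : ℤ) = c + 2 ^ 128 by have := cH_z; omega]
      ring
    · simp
    · simp only [zero_mul, abs_zero, add_zero]
      exact Nat.cast_nonneg _
    · rw [dot_cmb he]
      simpa using h

theorem mk3_z (lo p j s : ℕ) : ((mk3 lo p j s : ℕ) : ℤ) =
    lo + 2 ^ 128 * (cU - 1 - bz 1 - bz 12) + p * bz j + s * bz 14 := by
  have e1 : ((Nat.shiftLeft s 2688 : ℕ) : ℤ) = s * bz 14 := by rw [sl_z, bz_14]
  have e2 : ((Nat.shiftLeft p (Nat.mul j 192) : ℕ) : ℤ) = p * bz j := by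
    rw [sl_z, bz_def, mulE, mul_comm j]
  delta mk3
  rw [addE, addE, addE, Nat.cast_add, Nat.cast_add, Nat.cast_add, e1, e2, cHU2_z]

theorem enc_mk3 (he : Eps e) {lo p j s : ℕ} {c a b : ℤ} (j1 : 2 ≤ j) (j2 : j < 12)
    (hlo : (lo : ℤ) = c + 2 ^ 128 + (a + 2 ^ 128) * bz 1 + (b + 2 ^ 128) * bz 12)
    (hc : |c| ≤ s) (ha : |a| ≤ s) (hb : |b| ≤ s) (hp : p ≤ s)
    (hx : x * 2 ^ 60 = c + a * e 1 + b * e 12 + p * e j) : Enc e x (mk3 lo p j s) := by
  refine Or.inr ⟨fun i => if i = 0 then c else if i = 1 then a else if i = 12 then b else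
    if i = j then p else 0, 0, s, ?_, fun i _ => ?_, Nat.zero_le _, ?_⟩
  · rw [mk3_z, hlo]
    interval_cases j <;> simp [Sz, sum_range_succ, bz_zero] <;> ring
  · split_ifs
    · exact hc
    · exact ha
    · exact hb
    · simpa using hp
    · simp
  · rw [hx]
    interval_cases j <;> simp [dot, sum_range_succ, he.h0] <;> ring

end Pool.Agent.MP_e5b4ec_an.Mid.AA
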