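import Pool.Agent.MP_e5b4ec_an.Mid.Stm
import Pool.Agent.Mg.Fe5b4ec.Ga63cc7

open Real

namespace Pool.Agent.MP_e5b4ec_an.Mid

/-- the break points increase -/
def Ord (p : ℕ → ℝ) : Prop := ∀ i, i < 12 → p i < p (i + 1)

/-- unnormalised primitive of the step density: `0` left of `p 0`, constant right of `p 12` -/
noncomputable def H0 (M s : ℝ) (p : ℕ → ℝ) (y : ℝ) : ℝ :=
  ∑ i ∈ Finset.range 12, dd M s i * (max (p i) (min y (p (i + 1))) - p i)

/-- the extremal lift: odd, `Hs (y + 2π) = Hs y + 2π`, equal to `π / cum 12 * H0` on `[0, π]` -/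
noncomputable def Hs (M s : ℝ) (p : ℕ → ℝ) (y : ℝ) : ℝ :=
  y + perExt (fun x => π / cum M s p 12 * (H0 M s p x - H0 M s p (-x))) y

/-- the constraint functional is nonpositive on a box of the plane `t + v + 2 x = 2 π` -/
def Box (M : ℝ) (D : ℝ → ℝ) (t0 t1 v0 v1 x0 x1 : ℝ) : Prop :=
  ∀ t v x, t0 ≤ t → t ≤ t1 → v0 ≤ v → v ≤ v1 → x0 ≤ x → x ≤ x1 → t + v + 2 * x = 2 * π →
    D t + M * D v + (M + 1) * D x ≤ 0

/-- admissible differences -/
structure Adm (M : ℝ) (p : ℕ → ℝ) (D : ℝ → ℝ) : Prop where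
  cont : Continuous D
  odd : ∀ y, D (-y) = -D y
  per : ∀ y, D (y + 2 * π) = D y
  bA : Box M D (-p 1) (p 1) (2 * π - p 7) (2 * π - p 6) (p 2) (p 3)
  bB : Box M D (-p 1) (p 1) (p 8) (p 9) (p 7) (p 8)
  bC : Box M D (p 2) (p 3) (p 10) (p 11) (p 5) (p 6)
  bD : Box M D (p 1) (p 2) (p 9) (p 10) (p 6) (p 7)
  bE : Box M D (p 3) (p 4) (p 11) (2 * π - p 11) (p 4) (p 5)

/-- the dual inequality -/
def Dual (M : ℝ) (p : ℕ → ℝ) : Prop :=
  ∀ D : ℝ → ℝ, Adm M p D → ∫ θ in (0 : ℝ)..π, D θ * sin θ ≤ 0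

/-- primitives of `D`, `D * sin`, `D * id` -/
noncomputable def KK (D : ℝ → ℝ) (y : ℝ) : ℝ := ∫ θ in (0 : ℝ)..y, D θ
noncomputable def SS (D : ℝ → ℝ) (y : ℝ) : ℝ := ∫ θ in (0 : ℝ)..y, D θ * sin θ
noncomputable def TT (D : ℝ → ℝ) (y : ℝ) : ℝ := ∫ θ in (0 : ℝ)..y, D θ * θ

end Pool.Agent.MP_e5b4ec_an.Mid

namespace Pool.Agent.MP_e5b4ec_an.Mid

/-- a cell: far end `b`, density `l + s * sin y + e * y` -/
structure Cell where
  b : ℝ
  l : ℝ
  s : ℝ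
  e : ℝ

/-- oriented integral of `D` against the density -/
noncomputable def pv (D : ℝ → ℝ) : ℝ → List Cell → ℝ
  | _, [] => 0
  | a, c :: r => c.l * (KK D c.b - KK D a) + c.s * (SS D c.b - SS D a)
      + c.e * (TT D c.b - TT D a) + pv D c.b r

/-- oriented mass -/
noncomputable def pm : ℝ → List Cell → ℝ
  | _, [] => 0
  | a, c :: r => c.l * (c.b - a) + c.s * (cos a - cos c.b) + c.e * (c.b ^ 2 - a ^ 2) / 2 + pm c.b r

/-- oriented first moment -/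
noncomputable def pq : ℝ → List Cell → ℝ
  | _, [] => 0
  | a, c :: r => c.l * (c.b ^ 2 - a ^ 2) / 2
      + c.s * ((sin c.b - c.b * cos c.b) - (sin a - a * cos a))
      + c.e * (c.b ^ 3 - a ^ 3) / 3 + pq c.b r

def lastc : ℝ → List Cell → ℝ
  | a, [] => a
  | _, c :: r => lastc c.b r

/-- `cos` is monotone on `[a, b]` -/
def Mono (a b : ℝ) : Prop := (0 ≤ a ∧ b ≤ π) ∨ (-π ≤ a ∧ b ≤ 0) ∨ (π ≤ a ∧ b ≤ 2 * π)

/-- the density decreases upwards from `a`, starts below `top`, ends nonnegative -/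
def okU : ℝ → ℝ → List Cell → Prop
  | _, top, [] => 0 ≤ top
  | a, top, c :: r => a ≤ c.b ∧ Mono a c.b ∧ c.l + c.s * sin a + c.e * a ≤ top ∧
      c.s * cos a + c.e ≤ 0 ∧ c.s * cos c.b + c.e ≤ 0 ∧
      okU c.b (c.l + c.s * sin c.b + c.e * c.b) r

/-- the density decreases downwards from `a`, starts below `top`, ends nonnegative -/
def okD : ℝ → ℝ → List Cell → Prop
  | _, top, [] => 0 ≤ top
  | a, top, c :: r => c.b ≤ a ∧ Mono c.b a ∧ c.l + c.s * sin a + c.e * a ≤ top ∧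
      0 ≤ c.s * cos a + c.e ∧ 0 ≤ c.s * cos c.b + c.e ∧
      okD c.b (c.l + c.s * sin c.b + c.e * c.b) r

/-- integral of `D` along a segment from `p` to `q` with linear weight from `z0` to `z1` -/
noncomputable def rv (D : ℝ → ℝ) (p q z0 z1 : ℝ) : ℝ :=
  ((z0 * q - z1 * p) * (KK D q - KK D p) + (z1 - z0) * (TT D q - TT D p)) / (q - p) ^ 2

end Pool.Agent.MP_e5b4ec_an.Mid
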