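import Mathlib

open Real

namespace Pool.Agent.MP_e5b4ec_an.Mid

/-- real expressions in registers `v i` and certificate constants `k i` -/
inductive Ex where
  | v (i : Nat)
  | k (i : Nat)
  | q (n : Int) (d : Nat)
  | pi
  | add (a b : Ex)
  | sub (a b : Ex)
  | mul (a b : Ex)
  | inv (a : Ex)
  | sin (a : Ex)
  | cos (a : Ex)
  deriving DecidableEq

noncomputable def Ex.ev (K E : ℕ → ℝ) : Ex → ℝ
  | .v i => E i
  | .k i => K i
  | .q n d => (n : ℝ) / (d : ℝ)
  | .pi => π
  | .add a b => a.ev K E + b.ev K E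
  | .sub a b => a.ev K E - b.ev K E
  | .mul a b => a.ev K E * b.ev K E
  | .inv a => (a.ev K E)⁻¹
  | .sin a => Real.sin (a.ev K E)
  | .cos a => Real.cos (a.ev K E)

/-- all registers used are below `n` -/
def Ex.lt (n : Nat) : Ex → Bool
  | .v i => Nat.blt i n
  | .k _ => true
  | .q _ _ => true
  | .pi => true
  | .add a b => a.lt n && b.lt n
  | .sub a b => a.lt n && b.lt n
  | .mul a b => a.lt n && b.lt n
  | .inv a => a.lt n
  | .sin a => a.lt n
  | .cos a => a.lt n

def ltAll : Nat → List Ex → Bool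
  | _, [] => true
  | n, e :: es => e.lt n && ltAll (n + 1) es

/-- registers `n, n+1, ...` hold the values of the listed expressions -/
def Dfs (K E : ℕ → ℝ) : ℕ → List Ex → Prop
  | _, [] => True
  | n, e :: es => E n = e.ev K E ∧ Dfs K E (n + 1) es

/-- all listed expressions are positive -/
def Pos (K E : ℕ → ℝ) : List Ex → Prop
  | [] => True
  | e :: es => 0 < e.ev K E ∧ Pos K E es

/-- certificate constants are integers over `2 ^ 60` -/
noncomputable def Kof (l : List Int) (i : ℕ) : ℝ := ((l.getD i 0 : ℤ) : ℝ) / 2 ^ 60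

end Pool.Agent.MP_e5b4ec_an.Mid
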