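import Pool.Agent.MP_e5b4ec_an.Mid.Base

open Real

namespace Pool.Agent.MP_e5b4ec_an.Mid

/-- the averages along every chord of the slice of the box add up to at most `e` -/
def Ch_WW (F1 F2 F3 : ℝ → ℝ) (c l1 l2 l3 e : ℝ) : Prop :=
  ∀ x y z x' y' z' : ℝ, 0 ≤ x → x ≤ l1 → 0 ≤ y → y ≤ l2 → 0 ≤ z → z ≤ l3 → x + y + z = c →
    0 ≤ x' → x' ≤ l1 → 0 ≤ y' → y' ≤ l2 → 0 ≤ z' → z' ≤ l3 → x' + y' + z' = c →
    ∃ A B C : ℝ, A + B + C ≤ e ∧ A * (x' - x) = F1 x' - F1 x ∧ B * (y' - y) = F2 y' - F2 y ∧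
      C * (z' - z) = F3 z' - F3 z

section
variable {F1 F2 F3 : ℝ → ℝ} {c l1 l2 l3 e a b s S lam : ℝ}

theorem s12_WW (h : Ch_WW F1 F2 F3 c l1 l2 l3 e) : Ch_WW F2 F1 F3 c l2 l1 l3 e := by
  intro x y z x' y' z' a1 a2 a3 a4 a5 a6 a7 b1 b2 b3 b4 b5 b6 b7
  obtain ⟨A, B, C, h0, h1, h2, h3⟩ :=
    h y x z y' x' z' a3 a4 a1 a2 a5 a6 (by linarith) b3 b4 b1 b2 b5 b6 (by linarith)
  exact ⟨B, A, C, by linarith, h2, h1, h3⟩

theorem s23_WW (h : Ch_WW F1 F2 F3 c l1 l2 l3 e) : Ch_WW F1 F3 F2 c l1 l3 l2 e := by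
  intro x y z x' y' z' a1 a2 a3 a4 a5 a6 a7 b1 b2 b3 b4 b5 b6 b7
  obtain ⟨A, B, C, h0, h1, h2, h3⟩ :=
    h x z y x' z' y' a1 a2 a5 a6 a3 a4 (by linarith) b1 b2 b5 b6 b3 b4 (by linarith)
  exact ⟨A, C, B, by linarith, h1, h3, h2⟩

theorem shift_WW (h : Ch_WW F1 F2 F3 c l1 l2 l3 0) (k1 k2 k3 lam : ℝ) :
    Ch_WW (fun t => F1 t - k1 * t - lam * t ^ 2 / 2) (fun t => F2 t - k2 * t - lam * t ^ 2 / 2)
      (fun t => F3 t - k3 * t - lam * t ^ 2 / 2) c l1 l2 l3 (-(k1 + k2 + k3 + lam * c)) := by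
  intro x y z x' y' z' a1 a2 a3 a4 a5 a6 a7 b1 b2 b3 b4 b5 b6 b7
  obtain ⟨A, B, C, h0, h1, h2, h3⟩ := h x y z x' y' z' a1 a2 a3 a4 a5 a6 a7 b1 b2 b3 b4 b5 b6 b7
  refine ⟨A - k1 - lam * (x + x') / 2, B - k2 - lam * (y + y') / 2, C - k3 - lam * (z + z') / 2,
    ?_, by linear_combination h1, by linear_combination h2, by linear_combination h3⟩
  have e : lam * (x + x') / 2 + lam * (y + y') / 2 + lam * (z + z') / 2 = lam * c := by
    linear_combination lam / 2 * a7 + lam / 2 * b7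
  linarith

theorem two_WW {B C p q u v : ℝ} (h : B + C < 0) (hp : 0 < p) (hq : 0 < q) (h1 : B * p = -u)
    (h2 : C * q = v) : v * p < u * q := by
  have e : v * p - u * q = (B + C) * (p * q) := by linear_combination -q * h1 - p * h2
  have := mul_neg_of_neg_of_pos h (mul_pos hp hq)
  linarith

theorem mul3_WW {p q r p' q' r' : ℝ} (hp : 0 ≤ p) (hq : 0 ≤ q) (hr : 0 ≤ r) (h1 : p ≤ p')
    (h2 : q ≤ q') (h3 : r ≤ r') : p * q * r ≤ p' * q' * r' :=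
  mul_le_mul (mul_le_mul h1 h2 hq (hp.trans h1)) h3 hr (mul_nonneg (hp.trans h1) (hq.trans h2))

theorem zero_WW {A p : ℝ} (hp : p ≠ 0) (h : A * p = 0) : A = 0 :=
  (mul_eq_zero.1 h).resolve_right hp

theorem tri_WW (h : Ch_WW F1 F2 F3 c l1 l2 l3 e) (he : e < 0) (z1 : F1 0 = 0) (z2 : F2 0 = 0)
    (z3 : F3 0 = 0) (e1 : F1 a = 0) (e2 : F2 b = 0) (e3 : F3 s = 0) (p1 : a ≤ l1) (p2 : b ≤ l2)
    (p3 : s ≤ l3) (q1 : a < c) (q2 : b < c) (q3 : s < c) (r1 : c < a + b) (r2 : c < a + s)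
    (r3 : c < b + s) :
    F1 (c - s) * ((a + b - c) * (b + s - c) * (a + s - c) - (c - a) * (c - b) * (c - s)) < 0 ∧
    F2 (c - a) * ((a + b - c) * (b + s - c) * (a + s - c) - (c - a) * (c - b) * (c - s)) < 0 := by
  obtain ⟨A1, B1, C1, h1, a1, b1, c1⟩ := h a (c - a) 0 0 b (c - b) (by linarith) p1 (by linarith)
    (by linarith) le_rfl (by linarith) (by ring) le_rfl (by linarith) (by linarith) p2
    (by linarith) (by linarith) (by ring)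
  obtain ⟨A2, B2, C2, h2, a2, b2, c2⟩ := h 0 b (c - b) (c - s) 0 s le_rfl (by linarith)
    (by linarith) p2 (by linarith) (by linarith) (by ring) (by linarith) (by linarith) le_rfl
    (by linarith) (by linarith) p3 (by ring)
  obtain ⟨A3, B3, C3, h3, a3, b3, c3⟩ := h (c - s) 0 s a (c - a) 0 (by linarith) (by linarith)
    le_rfl (by linarith) (by linarith) p3 (by ring) (by linarith) p1 (by linarith)
    (by linarith) le_rfl (by linarith) (by ring)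
  have n1 : A1 = 0 := zero_WW (p := 0 - a) (by linarith) (by rw [a1, z1, e1, sub_zero])
  have n2 : B2 = 0 := zero_WW (p := 0 - b) (by linarith) (by rw [b2, z2, e2, sub_zero])
  have n3 : C3 = 0 := zero_WW (p := 0 - s) (by linarith) (by rw [c3, z3, e3, sub_zero])
  have hD : 0 < a + b - c := by linarith
  have hP : 0 < b + s - c := by linarith
  have hQ : 0 < a + s - c := by linarith
  have ha : 0 < c - a := by linarith
  have hb : 0 < c - b := by linarith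
  have hs : 0 < c - s := by linarith
  have i1 := two_WW (B := B1) (C := C1) (u := F2 (c - a)) (v := F3 (c - b)) (by linarith) hD hb
    (by linear_combination b1 + e2) (by linear_combination c1 - z3)
  have i2 := two_WW (B := C2) (C := A2) (u := F3 (c - b)) (v := F1 (c - s)) (by linarith) hP hs
    (by linear_combination c2 + e3) (by linear_combination a2 - z1)
  have i3 := two_WW (B := A3) (C := B3) (u := F1 (c - s)) (v := F2 (c - a)) (by linarith) hQ ha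
    (by linear_combination a3 + e1) (by linear_combination b3 - z2)
  generalize a + b - c = D at *
  generalize b + s - c = P at *
  generalize a + s - c = Q at *
  generalize c - a = α at *
  generalize c - b = β at *
  generalize c - s = σ at *
  constructor
  · linarith [mul_lt_mul_of_pos_right i2 (mul_pos hD hQ), mul_lt_mul_of_pos_right i1 (mul_pos hs hQ),
      mul_lt_mul_of_pos_right i3 (mul_pos hb hs)]
  · linarith [mul_lt_mul_of_pos_right i3 (mul_pos hP hD), mul_lt_mul_of_pos_right i2 (mul_pos hD ha),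
      mul_lt_mul_of_pos_right i1 (mul_pos hs ha)]

theorem big_WW (h : Ch_WW F1 F2 F3 c l1 l2 l3 e) (he : e < 0) (z1 : F1 0 = 0) (z2 : F2 0 = 0)
    (z3 : F3 0 = 0) (e1 : F1 a = 0) (e2 : F2 b = 0) (e3 : F3 s = 0) (p1 : a ≤ l1) (p2 : b ≤ l2)
    (p3 : s ≤ l3) (q1 : a < c) (q2 : b < c) (q3 : s < c) (r : 2 * c ≤ a + b + s) :
    F1 (c - s) < 0 ∧ F2 (c - a) < 0 := by
  obtain ⟨h1, h2⟩ := tri_WW h he z1 z2 z3 e1 e2 e3 p1 p2 p3 q1 q2 q3 (by linarith) (by linarith)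
    (by linarith)
  have k : (c - s) * (c - a) * (c - b) ≤ (a + b - c) * (b + s - c) * (a + s - c) := by
    exact mul3_WW (by linarith) (by linarith) (by linarith) (by linarith) (by linarith)
      (by linarith)
  exact ⟨neg_of_mul_neg_left h1 (by linarith), neg_of_mul_neg_left h2 (by linarith)⟩

theorem low_WW (h : Ch_WW F1 F2 F3 c l1 l2 l3 e) (he : e < 0) (z1 : F1 0 = 0) (z2 : F2 0 = 0)
    (z3 : F3 0 = 0) (e1 : F1 a = 0) (e2 : F2 b = 0) (e3 : F3 s = 0) (e4 : F3 S = 0) (p1 : a ≤ l1)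
    (p2 : b ≤ l2) (p3 : S ≤ l3) (q1 : a < c) (q2 : b < c) (q3 : S < c) (r : 2 * c ≤ a + b + S)
    (hs : 0 < s) (t : a + s ≤ c) : False := by
  have n1 := (big_WW h he z1 z2 z3 e1 e2 e4 p1 p2 p3 q1 q2 q3 r).1
  have n2 := (big_WW (s12_WW h) he z2 z1 z3 e2 e1 e4 p2 p1 p3 q2 q1 q3 (by linarith)).2
  obtain ⟨A1, B1, C1, h1, a1, b1, c1⟩ := h (c - S) 0 S a (c - a - s) s (by linarith) (by linarith)
    le_rfl (by linarith) (by linarith) p3 (by ring) (by linarith) p1 (by linarith) (by linarith)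
    hs.le (by linarith) (by ring)
  obtain ⟨A2, B2, C2, h2, a2, b2, c2⟩ := h (c - b) b 0 a (c - a - s) s (by linarith) (by linarith)
    (by linarith) p2 le_rfl (by linarith) (by ring) (by linarith) p1 (by linarith) (by linarith)
    hs.le (by linarith) (by ring)
  have m1 : C1 = 0 := zero_WW (p := s - S) (by linarith) (by rw [c1, e3, e4, sub_zero])
  have m2 : C2 = 0 := zero_WW (p := s - 0) (by linarith) (by rw [c2, e3, z3, sub_zero])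
  have m3 : 0 < A1 := pos_of_mul_pos_left (b := a - (c - S)) (by linarith) (by linarith)
  have m4 : 0 < A2 := pos_of_mul_pos_left (b := a - (c - b)) (by linarith) (by linarith)
  have m5 : B1 * (c - a - s - 0) ≤ 0 := mul_nonpos_of_nonpos_of_nonneg (by linarith) (by linarith)
  have m6 : 0 < B2 * (c - a - s - b) := mul_pos_of_neg_of_neg (by linarith) (by linarith)
  linarith

theorem core_WW (h : Ch_WW F1 F2 F3 c l1 l2 l3 e) (he : e < 0) (z1 : F1 0 = 0) (z2 : F2 0 = 0)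
    (z3 : F3 0 = 0) (e1 : F1 a = 0) (e2 : F2 b = 0) (e3 : F3 s = 0) (e4 : F3 S = 0) (p1 : a ≤ l1)
    (p2 : b ≤ l2) (p3 : S ≤ l3) (q1 : a < c) (q2 : b < c) (q3 : S < c) (r : 2 * c ≤ a + b + S)
    (hs : 0 < s) (r' : a + b + s ≤ 2 * c) : False := by
  by_cases t1 : a + s ≤ c
  · exact low_WW h he z1 z2 z3 e1 e2 e3 e4 p1 p2 p3 q1 q2 q3 r hs t1
  by_cases t2 : b + s ≤ c
  · exact low_WW (s12_WW h) he z2 z1 z3 e2 e1 e3 e4 p2 p1 p3 q2 q1 q3 (by linarith) hs t2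
  have n2 := (big_WW h he z1 z2 z3 e1 e2 e4 p1 p2 p3 q1 q2 q3 r).2
  have n3 := (tri_WW h he z1 z2 z3 e1 e2 e3 p1 p2 (by linarith) q1 q2 (by linarith) (by linarith)
    (by linarith) (by linarith)).2
  have k : (a + b - c) * (b + s - c) * (a + s - c) ≤ (c - s) * (c - a) * (c - b) := by
    exact mul3_WW (by linarith) (by linarith) (by linarith) (by linarith) (by linarith)
      (by linarith)
  exact absurd n3 (not_lt.2 (mul_nonneg_of_nonpos_of_nonpos n2.le (by linarith)))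

/-- the value of a triple -/
noncomputable def G_WW (F1 F2 F3 : ℝ → ℝ) (a b s : ℝ) : ℝ := F1 a / a + F2 b / b + F3 s / s

theorem layer_WW (h : Ch_WW F1 F2 F3 c l1 l2 l3 0) (z1 : F1 0 = 0) (z2 : F2 0 = 0)
    (z3 : F3 0 = 0) (q1 : l1 ≤ c) (q2 : l2 ≤ c) (q3 : l3 ≤ c) (ha : a ∈ Set.Ioo 0 l1)
    (hb : b ∈ Set.Ioo 0 l2) (hs : s ∈ Set.Ioo 0 l3) (hS : S ∈ Set.Ioo 0 l3)
    (r' : a + b + s ≤ 2 * c) (r : 2 * c ≤ a + b + S)
    (g1 : lam * ((a + b + s) / 2 - c) < G_WW F1 F2 F3 a b s)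
    (g2 : lam * ((a + b + S) / 2 - c) < G_WW F1 F2 F3 a b S) : False := by
  obtain ⟨μ, m1, m2⟩ : ∃ μ, F3 S / S - μ * S / 2 = F3 s / s - μ * s / 2 ∧
      μ * ((a + b + s) / 2 - c) < G_WW F1 F2 F3 a b s := by
    rcases eq_or_ne s S with rfl | hne
    · exact ⟨lam, rfl, g1⟩
    obtain ⟨μ, m⟩ : ∃ μ, μ * (S - s) = 2 * (F3 S / S - F3 s / s) :=
      ⟨_, div_mul_cancel₀ _ (sub_ne_zero.2 hne.symm)⟩
    refine ⟨μ, by linarith, ?_⟩
    unfold G_WW at *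
    rcases le_total lam μ with t | t
    · nlinarith [mul_nonneg (sub_nonneg.2 t) (sub_nonneg.2 r')]
    · nlinarith [mul_nonneg (sub_nonneg.2 t) (sub_nonneg.2 r)]
  have ha0 := ha.1.ne'
  have hb0 := hb.1.ne'
  have hs0 := hs.1.ne'
  have hS0 := hS.1.ne'
  refine core_WW (a := a) (b := b) (s := s) (S := S)
    (shift_WW h (F1 a / a - μ * a / 2) (F2 b / b - μ * b / 2) (F3 s / s - μ * s / 2) μ) ?_
    (by simp [z1]) (by simp [z2]) (by simp [z3]) ?_ ?_ ?_ ?_ ha.2.le hb.2.le hS.2.le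
    (ha.2.trans_le q1) (hb.2.trans_le q2) (hS.2.trans_le q3) r hs.1 r'
  · unfold G_WW at m2
    linarith
  · field_simp
    ring
  · field_simp
    ring
  · field_simp
    ring
  · rw [← m1]
    field_simp
    ring

theorem path_WW (h : Ch_WW F1 F2 F3 c l1 l2 l3 0) (z1 : F1 0 = 0) (z2 : F2 0 = 0)
    (z3 : F3 0 = 0) (q1 : l1 ≤ c) (q2 : l2 ≤ c) (q3 : l3 ≤ c) {A B : ℝ} (ha : a ∈ Set.Ioo 0 l1)
    (hb : b ∈ Set.Ioo 0 l2) (hs : s ∈ Set.Ioo 0 l3) (hA : A ∈ Set.Ioo 0 l1)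
    (hB : B ∈ Set.Ioo 0 l2) (hS : S ∈ Set.Ioo 0 l3)
    (r' : a + b + s ≤ 2 * c) (r : 2 * c ≤ A + B + S)
    (g1 : lam * ((a + b + s) / 2 - c) < G_WW F1 F2 F3 a b s)
    (g2 : lam * ((A + B + S) / 2 - c) < G_WW F1 F2 F3 A B S) : False := by
  have L2 : ∀ a ∈ Set.Ioo 0 l1, ∀ s ∈ Set.Ioo 0 l3, a + b + s ≤ 2 * c → 2 * c ≤ a + B + s →
      lam * ((a + b + s) / 2 - c) < G_WW F1 F2 F3 a b s →
      lam * ((a + B + s) / 2 - c) < G_WW F1 F2 F3 a B s → False := fun a ha s hs r' r g1 g2 =>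
    layer_WW (lam := lam) (s23_WW h) z1 z3 z2 q1 q3 q2 ha hs hb hB (by linarith) (by linarith)
      (by unfold G_WW at *; linarith) (by unfold G_WW at *; linarith)
  have L1 : ∀ b ∈ Set.Ioo 0 l2, ∀ s ∈ Set.Ioo 0 l3, a + b + s ≤ 2 * c → 2 * c ≤ A + b + s →
      lam * ((a + b + s) / 2 - c) < G_WW F1 F2 F3 a b s →
      lam * ((A + b + s) / 2 - c) < G_WW F1 F2 F3 A b s → False := fun b hb s hs r' r g1 g2 =>
    layer_WW (lam := lam) (s23_WW (s12_WW h)) z2 z3 z1 q2 q3 q1 hb hs ha hA (by linarith)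
      (by linarith) (by unfold G_WW at *; linarith) (by unfold G_WW at *; linarith)
  have M : ∀ a ∈ Set.Ioo 0 l1, a + b + s ≤ 2 * c → 2 * c ≤ a + B + S →
      lam * ((a + b + s) / 2 - c) < G_WW F1 F2 F3 a b s →
      lam * ((a + B + S) / 2 - c) < G_WW F1 F2 F3 a B S → False := by
    intro a ha r' r g1 g2
    rcases le_total (F2 b / b - lam * b / 2) (F2 B / B - lam * B / 2) with t | t
    · have g : lam * ((a + B + s) / 2 - c) < G_WW F1 F2 F3 a B s := by unfold G_WW at *; linarith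
      rcases le_total (a + B + s) (2 * c) with u | u
      · exact layer_WW h z1 z2 z3 q1 q2 q3 ha hB hs hS u r g g2
      · exact L2 a ha s hs r' u g1 g
    · have g : lam * ((a + b + S) / 2 - c) < G_WW F1 F2 F3 a b S := by unfold G_WW at *; linarith
      rcases le_total (a + b + S) (2 * c) with u | u
      · exact L2 a ha S hS u r g g2
      · exact layer_WW h z1 z2 z3 q1 q2 q3 ha hb hs hS r' u g1 g
  rcases le_total (F1 a / a - lam * a / 2) (F1 A / A - lam * A / 2) with t | t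
  · have g : lam * ((A + b + s) / 2 - c) < G_WW F1 F2 F3 A b s := by unfold G_WW at *; linarith
    rcases le_total (A + b + s) (2 * c) with u | u
    · exact M A hA u r g g2
    · exact L1 b hb s hs r' u g1 g
  · have g : lam * ((a + B + S) / 2 - c) < G_WW F1 F2 F3 a B S := by unfold G_WW at *; linarith
    rcases le_total (a + B + S) (2 * c) with u | u
    · exact L1 B hB S hS u r g g2
    · exact M a ha r' u g1 g

theorem sep_WW {α β : Type} (P : α → Prop) (Q : β → Prop) (u : α → ℝ) (v : β → ℝ)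
    (hP : ∃ x, P x) (hQ : ∃ y, Q y) (h : ∀ x y, P x → Q y → u x ≤ v y) :
    ∃ k, (∀ x, P x → u x ≤ k) ∧ ∀ y, Q y → k ≤ v y := by
  obtain ⟨k, h1, h2⟩ := exists_between_of_forall_le (s := u '' {x | P x}) (t := v '' {y | Q y})
    (Set.Nonempty.image _ hP) (Set.Nonempty.image _ hQ) (by
      rintro _ ⟨x, hx, rfl⟩ _ ⟨y, hy, rfl⟩
      exact h x y hx hy)
  exact ⟨k, fun x hx => h1 ⟨x, hx, rfl⟩, fun y hy => h2 ⟨y, hy, rfl⟩⟩

theorem lam_WW (h : Ch_WW F1 F2 F3 c l1 l2 l3 0) (z1 : F1 0 = 0) (z2 : F2 0 = 0)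
    (z3 : F3 0 = 0) (p1 : 0 < l1) (p2 : 0 < l2) (p3 : 0 < l3) (q1 : l1 ≤ c) (q2 : l2 ≤ c)
    (q3 : l3 ≤ c) (hs : 2 * c < l1 + l2 + l3) :
    ∃ lam, ∀ a ∈ Set.Ioo 0 l1, ∀ b ∈ Set.Ioo 0 l2, ∀ s ∈ Set.Ioo 0 l3,
      G_WW F1 F2 F3 a b s ≤ lam * ((a + b + s) / 2 - c) := by
  obtain ⟨lam, h1, h2⟩ := sep_WW
    (fun T : ℝ × ℝ × ℝ => (T.1 ∈ Set.Ioo 0 l1 ∧ T.2.1 ∈ Set.Ioo 0 l2 ∧ T.2.2 ∈ Set.Ioo 0 l3) ∧
      0 < (T.1 + T.2.1 + T.2.2) / 2 - c)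
    (fun T : ℝ × ℝ × ℝ => (T.1 ∈ Set.Ioo 0 l1 ∧ T.2.1 ∈ Set.Ioo 0 l2 ∧ T.2.2 ∈ Set.Ioo 0 l3) ∧
      (T.1 + T.2.1 + T.2.2) / 2 - c < 0)
    (fun T => G_WW F1 F2 F3 T.1 T.2.1 T.2.2 / ((T.1 + T.2.1 + T.2.2) / 2 - c))
    (fun T => G_WW F1 F2 F3 T.1 T.2.1 T.2.2 / ((T.1 + T.2.1 + T.2.2) / 2 - c))
    ⟨(l1 - (l1 + l2 + l3 - 2 * c) / 4, l2 - (l1 + l2 + l3 - 2 * c) / 4,
      l3 - (l1 + l2 + l3 - 2 * c) / 4), ⟨⟨by linarith, by linarith⟩, ⟨by linarith, by linarith⟩,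
      ⟨by linarith, by linarith⟩⟩, by linarith⟩
    ⟨(l1 / 2, l2 / 2, l3 / 2), ⟨⟨by linarith, by linarith⟩, ⟨by linarith, by linarith⟩,
      ⟨by linarith, by linarith⟩⟩, by linarith⟩
    (by
      rintro ⟨A, B, S⟩ ⟨a, b, s⟩ ⟨⟨hA, hB, hS⟩, r⟩ ⟨⟨ha, hb, hs⟩, r'⟩
      by_contra hc
      obtain ⟨lam, t1, t2⟩ := exists_between (not_le.1 hc)
      exact path_WW h z1 z2 z3 q1 q2 q3 ha hb hs hA hB hS (by linarith) (by linarith)
        ((div_lt_iff_of_neg r').1 t1) ((lt_div_iff₀ r).1 t2))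
  refine ⟨lam, fun a ha b hb s hs => ?_⟩
  rcases lt_trichotomy ((a + b + s) / 2 - c) 0 with t | t | t
  · exact (le_div_iff_of_neg t).1 (h2 (a, b, s) ⟨⟨ha, hb, hs⟩, t⟩)
  · by_contra hc
    exact path_WW h z1 z2 z3 q1 q2 q3 ha hb hs ha hb hs (by linarith) (by linarith)
      (not_le.1 hc) (not_le.1 hc)
  · exact (div_le_iff₀ t).1 (h1 (a, b, s) ⟨⟨ha, hb, hs⟩, t⟩)

end

theorem av_WW {f : ℝ → ℝ} (h : Continuous f) (x x' : ℝ) :
    (∫ u in (0 : ℝ)..1, f ((x' - x) * u + x)) * (x' - x) =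
      (∫ s in (0 : ℝ)..x', f s) - ∫ s in (0 : ℝ)..x, f s := by
  rw [mul_comm, intervalIntegral.mul_integral_comp_mul_add,
    intervalIntegral.integral_interval_sub_left (h.intervalIntegrable _ _)
      (h.intervalIntegrable _ _), mul_zero, zero_add, mul_one, sub_add_cancel]

theorem seg_WW {x x' l u : ℝ} (h0 : 0 ≤ x) (h1 : x ≤ l) (h2 : 0 ≤ x') (h3 : x' ≤ l)
    (hu : u ∈ Set.Icc (0 : ℝ) 1) : 0 ≤ (x' - x) * u + x ∧ (x' - x) * u + x ≤ l := by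
  have a := sub_nonneg.2 hu.2
  constructor
  · nlinarith [mul_nonneg h2 hu.1, mul_nonneg h0 a]
  · nlinarith [mul_nonneg (sub_nonneg.2 h3) hu.1, mul_nonneg (sub_nonneg.2 h1) a]

theorem cl_WW {f : ℝ → ℝ} (h : Continuous f) {l k lam : ℝ} (hl : 0 < l)
    (hk : ∀ t ∈ Set.Ioo 0 l, (∫ s in (0 : ℝ)..t, f s) / t - lam * t / 2 ≤ k) (t : ℝ) (h0 : 0 ≤ t)
    (h1 : t ≤ l) : ∫ s in (0 : ℝ)..t, f s ≤ k * t + lam * t ^ 2 / 2 := by
  refine le_on_closure (f := fun t => ∫ s in (0 : ℝ)..t, f s) (s := Set.Ioo 0 l)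
    (g := fun t => k * t + lam * t ^ 2 / 2) (fun t ht => ?_)
    (intervalIntegral.continuous_primitive (fun a b => h.intervalIntegrable a b) 0).continuousOn
    (by fun_prop) (by rw [closure_Ioo hl.ne]; exact ⟨h0, h1⟩)
  have := (div_le_iff₀ ht.1).1 (sub_le_iff_le_add.1 (hk t ht))
  linarith

theorem ww3 {f1 f2 f3 : ℝ → ℝ} (h1 : Continuous f1) (h2 : Continuous f2) (h3 : Continuous f3)
    {c l1 l2 l3 : ℝ} (p1 : 0 < l1) (p2 : 0 < l2) (p3 : 0 < l3)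
    (q1 : l1 ≤ c) (q2 : l2 ≤ c) (q3 : l3 ≤ c) (hs : 2 * c < l1 + l2 + l3)
    (H : ∀ x y z, 0 ≤ x → x ≤ l1 → 0 ≤ y → y ≤ l2 → 0 ≤ z → z ≤ l3 → x + y + z = c →
      f1 x + f2 y + f3 z ≤ 0) :
    ∃ lam k1 k2 k3 : ℝ, k1 + k2 + k3 + c * lam ≤ 0 ∧
      (∀ t, 0 ≤ t → t ≤ l1 → ∫ s in (0 : ℝ)..t, f1 s ≤ k1 * t + lam * t ^ 2 / 2) ∧
      (∀ t, 0 ≤ t → t ≤ l2 → ∫ s in (0 : ℝ)..t, f2 s ≤ k2 * t + lam * t ^ 2 / 2) ∧
      (∀ t, 0 ≤ t → t ≤ l3 → ∫ s in (0 : ℝ)..t, f3 s ≤ k3 * t + lam * t ^ 2 / 2) := by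
  have h : Ch_WW (fun t => ∫ s in (0 : ℝ)..t, f1 s) (fun t => ∫ s in (0 : ℝ)..t, f2 s)
      (fun t => ∫ s in (0 : ℝ)..t, f3 s) c l1 l2 l3 0 := by
    intro x y z x' y' z' a1 a2 a3 a4 a5 a6 a7 b1 b2 b3 b4 b5 b6 b7
    refine ⟨_, _, _, ?_, av_WW h1 x x', av_WW h2 y y', av_WW h3 z z'⟩
    have c1 : Continuous fun u => f1 ((x' - x) * u + x) := by fun_prop
    have c2 : Continuous fun u => f2 ((y' - y) * u + y) := by fun_prop
    have c3 : Continuous fun u => f3 ((z' - z) * u + z) := by fun_prop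
    rw [← intervalIntegral.integral_add (c1.intervalIntegrable _ _) (c2.intervalIntegrable _ _),
      ← intervalIntegral.integral_add ((c1.fun_add c2).intervalIntegrable _ _)
        (c3.intervalIntegrable _ _), ← neg_nonneg, ← intervalIntegral.integral_neg]
    refine intervalIntegral.integral_nonneg zero_le_one fun u hu => neg_nonneg.2 ?_
    exact H _ _ _ (seg_WW a1 a2 b1 b2 hu).1 (seg_WW a1 a2 b1 b2 hu).2 (seg_WW a3 a4 b3 b4 hu).1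
      (seg_WW a3 a4 b3 b4 hu).2 (seg_WW a5 a6 b5 b6 hu).1 (seg_WW a5 a6 b5 b6 hu).2
      (by linear_combination u * b7 + (1 - u) * a7)
  obtain ⟨lam, hl⟩ := lam_WW h intervalIntegral.integral_same intervalIntegral.integral_same
    intervalIntegral.integral_same p1 p2 p3 q1 q2 q3 hs
  unfold G_WW at hl
  have n1 : ∃ t, t ∈ Set.Ioo 0 l1 := Set.nonempty_Ioo.2 p1
  have n2 : ∃ t, t ∈ Set.Ioo 0 l2 := Set.nonempty_Ioo.2 p2
  have n3 : ∃ t, t ∈ Set.Ioo 0 l3 := Set.nonempty_Ioo.2 p3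
  obtain ⟨k1, u1, v1⟩ := sep_WW (· ∈ Set.Ioo 0 l1)
    (fun T : ℝ × ℝ => T.1 ∈ Set.Ioo 0 l2 ∧ T.2 ∈ Set.Ioo 0 l3)
    (fun t => (∫ s in (0 : ℝ)..t, f1 s) / t - lam * t / 2)
    (fun T => -(c * lam) - ((∫ s in (0 : ℝ)..T.1, f2 s) / T.1 - lam * T.1 / 2) -
      ((∫ s in (0 : ℝ)..T.2, f3 s) / T.2 - lam * T.2 / 2)) n1
    ⟨(n2.choose, n3.choose), n2.choose_spec, n3.choose_spec⟩
    fun a T ha hT => by linarith [hl a ha _ hT.1 _ hT.2]
  obtain ⟨k2, u2, v2⟩ := sep_WW (· ∈ Set.Ioo 0 l2) (· ∈ Set.Ioo 0 l3)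
    (fun t => (∫ s in (0 : ℝ)..t, f2 s) / t - lam * t / 2)
    (fun t => -(c * lam) - k1 - ((∫ s in (0 : ℝ)..t, f3 s) / t - lam * t / 2)) n2 n3
    fun b s hb hs => by linarith [v1 (b, s) ⟨hb, hs⟩]
  exact ⟨lam, k1, k2, -(c * lam) - k1 - k2, by linarith, cl_WW h1 p1 u1, cl_WW h2 p2 u2,
    cl_WW h3 p3 fun t ht => by linarith [v2 t ht]⟩

end Pool.Agent.MP_e5b4ec_an.Mid
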