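import Pool.Agent.MP_e5b4ec_an.Mid.Part
import Pool.Agent.MP_e5b4ec_an.Mid.WW
import Pool.Agent.MP_e5b4ec_an.Mid.Ex

/-! Small lemmas for the generated dual certificates. -/

open Real

namespace Pool.Agent.MP_e5b4ec_an.Mid

section regs

variable {K E E' : ℕ → ℝ}

theorem Dfs_app {a b : List Ex} {n : ℕ} (h : Dfs K E n (a ++ b)) (m : ℕ) (hm : n + a.length = m) :
    Dfs K E n a ∧ Dfs K E m b := by
  induction a generalizing n with
  | nil => subst hm; exact ⟨trivial, h⟩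
  | cons e es ih =>
    obtain ⟨h1, h2⟩ := h
    obtain ⟨h3, h4⟩ := ih h2 (by rw [← hm, List.length_cons]; omega)
    exact ⟨⟨h1, h3⟩, h4⟩

theorem Pos_app {a b : List Ex} (h : Pos K E (a ++ b)) : Pos K E a ∧ Pos K E b := by
  induction a with
  | nil => exact ⟨trivial, h⟩
  | cons e es ih => exact ⟨⟨h.1, (ih h.2).1⟩, (ih h.2).2⟩

theorem ev_agree {n : ℕ} (h : ∀ i, i < n → E' i = E i) (e : Ex) (he : e.lt n = true) :
    e.ev K E' = e.ev K E := by
  induction e with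
  | v i => exact h i (Nat.blt_eq.mp he)
  | k i => rfl
  | q a b => rfl
  | pi => rfl
  | add a b ia ib =>
    simp only [Ex.lt, Bool.and_eq_true] at he; simp only [Ex.ev, ia he.1, ib he.2]
  | sub a b ia ib =>
    simp only [Ex.lt, Bool.and_eq_true] at he; simp only [Ex.ev, ia he.1, ib he.2]
  | mul a b ia ib =>
    simp only [Ex.lt, Bool.and_eq_true] at he; simp only [Ex.ev, ia he.1, ib he.2]
  | inv a ia => simp only [Ex.lt] at he; simp only [Ex.ev, ia he]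
  | sin a ia => simp only [Ex.lt] at he; simp only [Ex.ev, ia he]
  | cos a ia => simp only [Ex.lt] at he; simp only [Ex.ev, ia he]

theorem lt_mono_DL {n m : ℕ} (h : n ≤ m) (e : Ex) (he : e.lt n = true) : e.lt m = true := by
  induction e with
  | v i => exact Nat.blt_eq.mpr (lt_of_lt_of_le (Nat.blt_eq.mp he) h)
  | k i => rfl
  | q a b => rfl
  | pi => rfl
  | add a b ia ib =>
    simp only [Ex.lt, Bool.and_eq_true] at he ⊢; exact ⟨ia he.1, ib he.2⟩
  | sub a b ia ib =>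
    simp only [Ex.lt, Bool.and_eq_true] at he ⊢; exact ⟨ia he.1, ib he.2⟩
  | mul a b ia ib =>
    simp only [Ex.lt, Bool.and_eq_true] at he ⊢; exact ⟨ia he.1, ib he.2⟩
  | inv a ia => exact ia he
  | sin a ia => exact ia he
  | cos a ia => exact ia he

theorem Dfs_agree {m : ℕ} (h : ∀ i, i < m → E' i = E i) (ds : List Ex) (n : ℕ)
    (hl : ltAll n ds = true) (hm : n + ds.length ≤ m) (hd : Dfs K E n ds) : Dfs K E' n ds := by
  induction ds generalizing n with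
  | nil => trivial
  | cons e es ih =>
    simp only [ltAll, Bool.and_eq_true] at hl
    rw [List.length_cons] at hm
    refine ⟨?_, ih (n + 1) hl.2 (by omega) hd.2⟩
    rw [h n (by omega), ev_agree h e (lt_mono_DL (by omega) e hl.1)]
    exact hd.1

theorem Pos_agree {m : ℕ} (h : ∀ i, i < m → E' i = E i) (cs : List Ex)
    (hl : cs.all (Ex.lt m) = true) (hd : Pos K E cs) : Pos K E' cs := by
  induction cs with
  | nil => trivial
  | cons e es ih =>
    simp only [List.all_cons, Bool.and_eq_true] at hl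
    exact ⟨by rw [ev_agree h e hl.1]; exact hd.1, ih hl.2 hd.2⟩

theorem Dfs_ext (K E0 : ℕ → ℝ) (n : ℕ) (ds : List Ex) (h : ltAll n ds = true) :
    ∃ E : ℕ → ℝ, (∀ i, i < n → E i = E0 i) ∧ Dfs K E n ds := by
  induction ds generalizing n E0 with
  | nil => exact ⟨E0, fun _ _ => rfl, trivial⟩
  | cons e es ih =>
    simp only [ltAll, Bool.and_eq_true] at h
    obtain ⟨E, h1, h2⟩ := ih (Function.update E0 n (e.ev K E0)) (n + 1) h.2
    have h3 : ∀ i, i < n → E i = E0 i := fun i hi => by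
      rw [h1 i (by omega), Function.update_of_ne (by omega)]
    refine ⟨E, h3, ?_, h2⟩
    rw [h1 n (by omega), Function.update_self, ev_agree h3 e h.1]

/-- the registers `n, ..., n + k` increase -/
def Inc (E : ℕ → ℝ) : ℕ → ℕ → Prop
  | _, 0 => True
  | n, k + 1 => 0 < E (n + 1) - E n ∧ Inc E (n + 1) k

theorem Inc.step {n k : ℕ} (h : Inc E n k) (i : ℕ) (h1 : n ≤ i) (h2 : i < n + k) :
    E i < E (i + 1) := by
  induction k generalizing n with
  | zero => omega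
  | succ k ih =>
    rcases h1.eq_or_lt with rfl | h3
    · exact sub_pos.mp h.1
    · exact ih h.2 h3 (by omega)

theorem Inc.le {n k : ℕ} (h : Inc E n k) (i j : ℕ)
    (c : (Nat.ble n i && Nat.ble i j && Nat.ble j (n + k)) = true) : E i ≤ E j := by
  simp only [Bool.and_eq_true, Nat.ble_eq] at c
  obtain ⟨⟨c1, c2⟩, c3⟩ := c
  induction j, c2 using Nat.le_induction with
  | base => exact le_rfl
  | succ j hj ih => exact (ih (by omega)).trans (h.step j (by omega) (by omega)).le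

theorem Inc.lt {n k : ℕ} (h : Inc E n k) (i j : ℕ)
    (c : (Nat.ble n i && Nat.ble (i + 1) j && Nat.ble j (n + k)) = true) : E i < E j := by
  have c' := c
  simp only [Bool.and_eq_true, Nat.ble_eq] at c'
  refine (h.step i c'.1.1 (by omega)).trans_le (h.le (i + 1) j ?_)
  simp only [Bool.and_eq_true, Nat.ble_eq]
  omega

end regs

section cells

variable {a b top l s e Sa Ca Sb Cb : ℝ} {r : List Cell}

theorem mono1 {z w : ℝ} (h0 : z = 0) (h1 : w = π) (c1 : z ≤ a) (c2 : b ≤ w) : Mono a b :=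
  Or.inl ⟨h0 ▸ c1, h1 ▸ c2⟩

theorem mono2 {z w : ℝ} (h0 : z = -π) (h1 : w = 0) (c1 : z ≤ a) (c2 : b ≤ w) : Mono a b :=
  Or.inr (Or.inl ⟨h0 ▸ c1, h1 ▸ c2⟩)

theorem mono3 {z w : ℝ} (h0 : z = π) (h1 : w = 2 * π) (c1 : z ≤ a) (c2 : b ≤ w) : Mono a b :=
  Or.inr (Or.inr ⟨h0 ▸ c1, h1 ▸ c2⟩)

theorem okU_R (sa : Sa = sin a) (ca : Ca = cos a) (sb : Sb = sin b) (cb : Cb = cos b)
    (h1 : a ≤ b) (hm : Mono a b) (hj : l + s * Sa + e * a ≤ top)
    (h2 : 0 < ((0 : ℤ) : ℝ) / ((1 : ℕ) : ℝ) - (s * Ca + e))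
    (h3 : 0 < ((0 : ℤ) : ℝ) / ((1 : ℕ) : ℝ) - (s * Cb + e))
    (h4 : okU b (l + s * Sb + e * b) r) : okU a top (⟨b, l, s, e⟩ :: r) := by
  subst sa ca sb cb
  exact ⟨h1, hm, hj, by linarith, by linarith, h4⟩

theorem okD_R (sa : Sa = sin a) (ca : Ca = cos a) (sb : Sb = sin b) (cb : Cb = cos b)
    (h1 : b ≤ a) (hm : Mono b a) (hj : l + s * Sa + e * a ≤ top)
    (h2 : 0 < s * Ca + e) (h3 : 0 < s * Cb + e)
    (h4 : okD b (l + s * Sb + e * b) r) : okD a top (⟨b, l, s, e⟩ :: r) := by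
  subst sa ca sb cb
  exact ⟨h1, hm, hj, h2.le, h3.le, h4⟩

theorem okU_L (h1 : a ≤ b) (hm : Mono a b) (hj : l + e * a ≤ top)
    (h2 : 0 < ((0 : ℤ) : ℝ) / ((1 : ℕ) : ℝ) - e)
    (h4 : okU b (l + e * b) r) : okU a top (⟨b, l, 0, e⟩ :: r) :=
  ⟨h1, hm, by simpa using hj, by simp only [zero_mul, zero_add]; linarith,
    by simp only [zero_mul, zero_add]; linarith, by simpa using h4⟩

theorem okD_L (h1 : b ≤ a) (hm : Mono b a) (hj : l + e * a ≤ top) (h2 : 0 < e)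
    (h4 : okD b (l + e * b) r) : okD a top (⟨b, l, 0, e⟩ :: r) :=
  ⟨h1, hm, by simpa using hj, by simpa using h2.le, by simpa using h2.le, by simpa using h4⟩

theorem okU_C (h1 : a ≤ b) (hm : Mono a b) (hj : l ≤ top) (h4 : okU b l r) :
    okU a top (⟨b, l, 0, 0⟩ :: r) :=
  ⟨h1, hm, by simpa using hj, by simp, by simp, by simpa using h4⟩

theorem okD_C (h1 : b ≤ a) (hm : Mono b a) (hj : l ≤ top) (h4 : okD b l r) :
    okD a top (⟨b, l, 0, 0⟩ :: r) :=
  ⟨h1, hm, by simpa using hj, by simp, by simp, by simpa using h4⟩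

theorem le_of_jump {x y J : ℝ} (h : 0 < J) (e : x - y = J) : y ≤ x := by linarith

theorem le_of_tie {x y : ℝ} (e : x - y = 0) : y ≤ x := by linarith

theorem nn_of_eq {x J : ℝ} (h : 0 < J) (e : x = J) : 0 ≤ x := by linarith

theorem nn_of_zero {x : ℝ} (e : x = 0) : 0 ≤ x := e.ge

theorem inv_reg {x i : ℝ} (h : 0 < x) (e : i = x⁻¹) : i * x = 1 := by
  rw [e]; exact inv_mul_cancel₀ h.ne'

theorem lin3 {x y z u v w c : ℝ} (h1 : x = u) (h2 : y = v) (h3 : z = w) (h : u + v + 2 * w = c) :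
    x + y + 2 * z = c := by rw [h1, h2, h3, h]

theorem munu {p : ℕ → ℝ} {i : ℕ} (h1 : a = p i) (h2 : b = p (i + 1)) (sa : Sa = sin a)
    (ca : Ca = cos a) (sb : Sb = sin b) (cb : Cb = cos b) :
    mu p i = Ca - Cb ∧ nu p i = (Sb - b * Cb) - (Sa - a * Ca) := by
  subst sa ca sb cb h1 h2
  exact ⟨rfl, rfl⟩

theorem Box.cg {M : ℝ} {D : ℝ → ℝ} {x1 x2 x3 x4 x5 x6 y1 y2 y3 y4 y5 y6 : ℝ}
    (h : Box M D x1 x2 x3 x4 x5 x6) (e1 : y1 = x1) (e2 : y2 = x2) (e3 : y3 = x3) (e4 : y4 = x4)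
    (e5 : y5 = x5) (e6 : y6 = x6) : Box M D y1 y2 y3 y4 y5 y6 := by
  subst e1 e2 e3 e4 e5 e6
  exact h

end cells

section rays

/-- one side of a segment: density `L + e * y` on `[lo, hi]` -/
structure RS (lo hi zl zh i L e : ℝ) : Prop where
  lt : lo < hi
  inv : i * (hi - lo) = 1
  he : e = (zh - zl) * (i * i)
  vl : L + e * lo = zl * i

variable {lo hi zl zh i L e : ℝ}

theorem RS.two (h : lo < hi) (h1 : i = (hi - lo)⁻¹) (h2 : e = (zh - zl) * (i * i))
    (h3 : L = zl * i - e * lo) : RS lo hi zl zh i L e :=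
  ⟨h, by rw [h1]; exact inv_mul_cancel₀ (sub_pos.mpr h).ne', h2, by rw [h3]; ring⟩

theorem RS.lo0 (h : lo < hi) (h1 : i = (hi - lo)⁻¹) (h2 : e = zh * (i * i))
    (h3 : L = ((0 : ℤ) : ℝ) / ((1 : ℕ) : ℝ) - e * lo) : RS lo hi 0 zh i L e :=
  RS.two h h1 (by rw [h2]; ring) (by rw [h3]; ring)

theorem RS.hi0 (h : lo < hi) (h1 : i = (hi - lo)⁻¹)
    (h2 : e = ((0 : ℤ) : ℝ) / ((1 : ℕ) : ℝ) - zl * (i * i))
    (h3 : L = zl * i - e * lo) : RS lo hi zl 0 i L e :=
  RS.two h h1 (by rw [h2]; ring) h3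

theorem RS.vh (h : RS lo hi zl zh i L e) : L + e * hi = zh * i := by
  have := h.he
  linear_combination h.vl + (hi - lo) * h.he + (zh - zl) * i * h.inv

theorem RS.m (h : RS lo hi zl zh i L e) :
    L * (hi - lo) + e * (hi ^ 2 - lo ^ 2) / 2 = (zl + zh) / 2 := by
  linear_combination (hi - lo) / 2 * h.vl + (hi - lo) / 2 * h.vh + (zl + zh) / 2 * h.inv

theorem RS.q (h : RS lo hi zl zh i L e) :
    L * (hi ^ 2 - lo ^ 2) / 2 + e * (hi ^ 3 - lo ^ 3) / 3
      = ((2 * zl + zh) * lo + (zl + 2 * zh) * hi) / 6 := by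
  linear_combination (hi - lo) * (2 * lo + hi) / 6 * h.vl + (hi - lo) * (lo + 2 * hi) / 6 * h.vh
    + ((2 * zl + zh) * lo + (zl + 2 * zh) * hi) / 6 * h.inv

theorem RS.up (h : RS lo hi zl zh i L e) (D : ℝ → ℝ) :
    rv D lo hi zl zh = L * (KK D hi - KK D lo) + e * (TT D hi - TT D lo) := by
  have h0 : hi - lo ≠ 0 := (sub_pos.mpr h.lt).ne'
  have h1 : L * (hi - lo) ^ 2 = zl * hi - zh * lo := by
    linear_combination (hi - lo) * hi * h.vl - (hi - lo) * lo * h.vh + (zl * hi - zh * lo) * h.inv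
  have h2 : e * (hi - lo) ^ 2 = zh - zl := by
    linear_combination (hi - lo) * h.vh - (hi - lo) * h.vl + (zh - zl) * h.inv
  unfold rv
  rw [div_eq_iff (pow_ne_zero 2 h0), ← h1, ← h2]
  ring

theorem RS.dn (h : RS lo hi zl zh i L e) (D : ℝ → ℝ) :
    rv D hi lo zh zl = L * (KK D hi - KK D lo) + e * (TT D hi - TT D lo) := by
  rw [← h.up D]
  unfold rv
  rw [show (lo - hi) ^ 2 = (hi - lo) ^ 2 by ring]
  congr 1
  ring

end rays

section folds

variable {D : ℝ → ℝ} {M : ℝ} {p : ℕ → ℝ} {w y : ℝ}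

theorem fold0 (h : Adm M p D) (e : w = ((0 : ℤ) : ℝ) / ((1 : ℕ) : ℝ) - y) :
    KK D w = KK D y ∧ TT D w = -TT D y := by
  have := folds h.cont h.odd h.per y
  rw [show w = -y by rw [e]; ring]
  exact ⟨this.1, this.2.2.1⟩

theorem fold2 (h : Adm M p D) (e : w = π + π - y) :
    KK D w = KK D y ∧ TT D w = 2 * TT D π - 2 * π * KK D π + 2 * π * KK D y - TT D y := by
  have := folds h.cont h.odd h.per y
  rw [show w = 2 * π - y by rw [e]; ring]
  exact ⟨this.2.2.2.1, this.2.2.2.2.2⟩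

theorem prim0 (D : ℝ → ℝ) : KK D 0 = 0 ∧ SS D 0 = 0 ∧ TT D 0 = 0 := by
  simp [KK, SS, TT]

theorem Adm.zero (h : Adm M p D) : D 0 = 0 := by
  have := h.odd 0
  rw [neg_zero] at this
  linarith

end folds

section close

variable {M sV sX : ℝ} {p : ℕ → ℝ}

theorem clC (ht : Trig M p) (hV : M * sV = 1) (hX : (M + 1) * sX = 1) :
    sV * mu p 10 = sX * mu p 5 := by
  linear_combination (-sV * sX) * ht.mC + sX * mu p 5 * hV - sV * mu p 10 * hX

theorem clD (ht : Trig M p) (hV : M * sV = 1) : sV * mu p 9 = mu p 1 := by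
  linear_combination (-sV) * ht.mD + mu p 1 * hV

theorem clB (ht : Trig M p) (hV : M * sV = 1) (hX : (M + 1) * sX = 1) :
    sV * mu p 8 = sX * mu p 7 := by
  linear_combination (-sV * sX) * ht.mB + sX * mu p 7 * hV - sV * mu p 8 * hX

theorem clE (ht : Trig M p) (hX : (M + 1) * sX = 1) : mu p 3 = sX * mu p 4 := by
  linear_combination (-sX) * ht.mE - mu p 3 * hX

theorem clA (hM : 1 < M) (ht : Trig M p) (hX : (M + 1) * sX = 1) {U : ℝ}
    (h : mu p 1 = sX * (mu p 6 + M * U)) : U = sX * (mu p 2 - sX * mu p 5) := by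
  have h0 : M ≠ 0 := by linarith
  have h1 : M + 1 ≠ 0 := by linarith
  have e1 : sX = (M + 1)⁻¹ := eq_inv_of_mul_eq_one_right hX
  have := ht.mA
  rw [h, e1] at this
  rw [e1]
  field_simp at this ⊢
  apply mul_left_cancel₀ h0
  linear_combination (-1) * this

theorem clqE (ht : Trig M p) (hV : M * sV = 1) (hX : (M + 1) * sX = 1) :
    nu p 3 + sV * (nu p 11 - π * mu p 11) + 2 * (sX * nu p 4) = π * mu p 3 := by
  have e1 : sX = (M + 1)⁻¹ := eq_inv_of_mul_eq_one_right hX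
  have e2 : sV = M⁻¹ := eq_inv_of_mul_eq_one_right hV
  rw [e1, e2]
  linear_combination ht.qE

theorem clqA (ht : Trig M p) (hV : M * sV = 1) (hX : (M + 1) * sX = 1)
    {qC qD U qv qt : ℝ}
    (hC : qC + sV * nu p 10 + 2 * (sX * nu p 5) = 2 * π * (sX * mu p 5))
    (hD : nu p 1 + sV * nu p 9 + 2 * qD = 2 * π * mu p 1)
    (h6 : qD = sX * (nu p 6 + M * (2 * π * U - qv)))
    (hA : qt + qv + 2 * (sX * (nu p 2 - qC)) = 2 * π * U) :
    nu p 0 - qt + sV * nu p 8 + 2 * (sX * nu p 7) = 2 * π * (sX * mu p 7) := by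
  have c1 := clC ht hV hX
  have c2 := clB ht hV hX
  have e1 : sX = (M + 1)⁻¹ := eq_inv_of_mul_eq_one_right hX
  have e2 : sV = M⁻¹ := eq_inv_of_mul_eq_one_right hV
  have q := ht.qA
  simp only [div_eq_mul_inv, ← e1, ← e2] at q
  have w : 2 * π * U - qv = sV * ((M + 1) * qD - nu p 6) := by
    rw [h6]
    linear_combination (-(sV * (nu p 6 + M * (2 * π * U - qv)))) * hX - (2 * π * U - qv) * hV
  linear_combination (-1) * q - hA - w - 2 * sX * hC - sV * (M + 1) / 2 * hD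
    + 2 * π * c2 + 4 * π * sX * c1

end close

end Pool.Agent.MP_e5b4ec_an.Mid
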