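import Pool.Agent.MP_e5b4ec_an.Mid.HsL

open Real

namespace Pool.Agent.MP_e5b4ec_an.Mid

variable {M s : ℝ} {p : ℕ → ℝ}

theorem cum_succ_Fin (k : ℕ) :
    cum M s p (k + 1) = cum M s p k + dd M s k * (p (k + 1) - p k) := by
  unfold cum
  rw [Finset.sum_range_succ]

/-- folding the period onto `[0, π]` -/
theorem int_fold_Fin {H : ℝ → ℝ} (hc : Continuous H) (hp : ∀ x, H (x + 2 * π) = H x + 2 * π) :
    ∫ θ in (0 : ℝ)..(2 * π), H θ * sin θ
      = (∫ θ in (0 : ℝ)..π, (H θ - H (-θ)) * sin θ) - 4 * π := by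
  have i1 : ∀ a b : ℝ, IntervalIntegrable (fun θ => H θ * sin θ) MeasureTheory.volume a b :=
    fun a b => (by fun_prop : Continuous fun θ => H θ * sin θ).intervalIntegrable _ _
  have i2 : IntervalIntegrable (fun θ => H (-θ) * sin θ) MeasureTheory.volume 0 π :=
    (by fun_prop : Continuous fun θ => H (-θ) * sin θ).intervalIntegrable _ _
  have i3 : IntervalIntegrable (fun θ => 2 * π * sin θ) MeasureTheory.volume 0 π :=
    (by fun_prop : Continuous fun θ => 2 * π * sin θ).intervalIntegrable _ _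
  have e1 := intervalIntegral.integral_add_adjacent_intervals (i1 0 π) (i1 π (2 * π))
  have e2 := intervalIntegral.integral_comp_sub_left (a := 0) (b := π)
    (fun θ => H θ * sin θ) (2 * π)
  rw [show 2 * π - π = π by ring, sub_zero] at e2
  have e3 : ∀ θ : ℝ, H (2 * π - θ) * sin (2 * π - θ) = -(H (-θ) * sin θ) - 2 * π * sin θ := by
    intro θ
    rw [Real.sin_two_pi_sub, show 2 * π - θ = -θ + 2 * π by ring, hp]
    ring
  simp only [e3] at e2
  have i2' : IntervalIntegrable (fun θ => -(H (-θ) * sin θ)) MeasureTheory.volume 0 π := i2.neg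
  rw [intervalIntegral.integral_sub i2' i3, intervalIntegral.integral_neg,
    intervalIntegral.integral_const_mul, integral_sin] at e2
  have e4 : ∀ θ : ℝ, (H θ - H (-θ)) * sin θ = H θ * sin θ - H (-θ) * sin θ := by
    intro θ; ring
  simp only [e4]
  rw [intervalIntegral.integral_sub (i1 0 π) i2, ← e1, ← e2, Real.cos_zero, Real.cos_pi]
  ring

theorem int_aff_Fin (a b u w : ℝ) :
    ∫ θ in u..w, (a + b * θ) * sin θ
      = (-(a + b * w) * cos w + b * sin w) - (-(a + b * u) * cos u + b * sin u) := by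
  have h : ∀ x ∈ Set.uIcc u w,
      HasDerivAt (fun x => -(a + b * x) * cos x + b * sin x) ((a + b * x) * sin x) x := by
    intro x _
    have h1 : HasDerivAt (fun x : ℝ => -(a + b * x)) (-b) x := by
      have := (((hasDerivAt_id' x).const_mul b).const_add a).fun_neg
      simpa using this
    have := (h1.fun_mul (Real.hasDerivAt_cos x)).fun_add ((Real.hasDerivAt_sin x).const_mul b)
    have e : -b * cos x + -(a + b * x) * -sin x + b * cos x = (a + b * x) * sin x := by ring
    rw [e] at this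
    exact this
  exact intervalIntegral.integral_eq_sub_of_hasDerivAt h
    ((by fun_prop : Continuous fun x : ℝ => (a + b * x) * sin x).intervalIntegrable _ _)

theorem int_Hs_Fin (hM : 1 < M) (hs : 0 < s) (ho : Ord p) (hl : Lin M s p) :
    ∫ θ in (0 : ℝ)..π, Hs M s p θ * sin θ
      = π + π / cum M s p 12 * ∑ i ∈ Finset.range 12, dd M s i * (sin (p (i + 1)) - sin (p i)) := by
  have hc := Hs_cont hM hs ho hl
  have hC := cum_pos hM hs ho
  have key : ∀ n, n ≤ 12 → ∫ θ in (p 0)..(p n), Hs M s p θ * sin θ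
      = -(π / cum M s p 12 * cum M s p n) * cos (p n)
        + π / cum M s p 12 * ∑ i ∈ Finset.range n, dd M s i * (sin (p (i + 1)) - sin (p i)) := by
    intro n
    induction n with
    | zero => intro _; simp [cum]
    | succ n ih =>
      intro hn
      have i1 : ∀ a b : ℝ,
          IntervalIntegrable (fun θ => Hs M s p θ * sin θ) MeasureTheory.volume a b :=
        fun a b => (by fun_prop : Continuous fun θ => Hs M s p θ * sin θ).intervalIntegrable _ _
      rw [← intervalIntegral.integral_add_adjacent_intervals (i1 (p 0) (p n)) (i1 (p n) (p (n + 1))),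
        ih (by omega), Finset.sum_range_succ, cum_succ_Fin n]
      have e : ∫ θ in (p n)..(p (n + 1)), Hs M s p θ * sin θ
          = ∫ θ in (p n)..(p (n + 1)),
            (π / cum M s p 12 * (cum M s p n - dd M s n * p n)
              + π / cum M s p 12 * dd M s n * θ) * sin θ := by
        refine intervalIntegral.integral_congr fun θ hθ => ?_
        rw [Set.uIcc_of_le (ho n (by omega)).le] at hθ
        show Hs M s p θ * sin θ = _
        rw [Hs_piece hM hs ho hl (by omega : n < 12) hθ.1 hθ.2]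
        ring
      rw [e, int_aff_Fin]
      ring
  have := key 12 le_rfl
  rw [hl.e0, hl.e12, Real.cos_pi] at this
  rw [this]
  field_simp

theorem val_eq_Fin (hM : 1 < M) (hs : 0 < s) (ho : Ord p) (hl : Lin M s p) :
    val M s p = 2 / π * (∫ θ in (0 : ℝ)..π, Hs M s p θ * sin θ) - 2 := by
  have hC := cum_pos hM hs ho
  have := Real.pi_pos
  rw [int_Hs_Fin hM hs ho hl]
  unfold val
  field_simp
  ring

/-- the constraint satisfied by the odd part of any lift -/
theorem lift_ineq_Fin {H : ℝ → ℝ} (hH : IsLift M H) {t v x : ℝ} (h0 : 0 < x + t) (h1 : t ≤ v)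
    (h : t + v + 2 * x = 2 * π) :
    (H t - H (-t)) / 2 + M * ((H v - H (-v)) / 2) + (M + 1) * ((H x - H (-x)) / 2)
      ≤ 2 * π * M := by
  have a1 := hH.qs2 x (x + t) h0 (by linarith)
  have a2 := hH.qs1 (-x) (x + t) h0 (by linarith)
  have a3 := hH.per (v - 2 * π)
  rw [show x - (x + t) = -t by ring, show x + (x + t) = -v + 2 * π by linarith, hH.per] at a1
  rw [show -x + (x + t) = t by ring, show -x - (x + t) = v - 2 * π by linarith] at a2
  rw [show v - 2 * π + 2 * π = v by ring] at a3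
  have a4 : H (v - 2 * π) = H v - 2 * π := by linarith
  rw [a4] at a2
  nlinarith

theorem Hs_mid_Fin (hM : 1 < M) (hs : 0 < s) (ho : Ord p) (hl : Lin M s p) {t : ℝ}
    (h1 : -p 1 ≤ t) (h2 : t ≤ p 1) : Hs M s p t = π / cum M s p 12 * t := by
  have e : ∀ y, 0 ≤ y → y ≤ p 1 → Hs M s p y = π / cum M s p 12 * y := by
    intro y a1 a2
    rw [Hs_piece hM hs ho hl (i := 0) (by norm_num) (by rw [hl.e0]; exact a1) a2, hl.e0]
    simp [cum, dd]
  rcases le_total 0 t with h | h
  · exact e t h h2
  · have := e (-t) (by linarith) (by linarith)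
    rw [Hs_odd hM hs ho hl] at this
    linarith

theorem Hs_top_Fin (hM : 1 < M) (hs : 0 < s) (ho : Ord p) (hl : Lin M s p) {v : ℝ}
    (h1 : p 11 ≤ v) (h2 : v ≤ 2 * π - p 11) :
    Hs M s p v = π / cum M s p 12 * (cum M s p 11 + dd M s 11 * (v - p 11)) := by
  have hC := cum_pos hM hs ho
  have hk : π / cum M s p 12 * cum M s p 12 = π := by field_simp
  have e12 := hl.e12
  rcases le_total v π with h | h
  · exact Hs_piece hM hs ho hl (i := 11) (by norm_num) h1 (by rw [e12]; exact h)
  · have a1 := Hs_piece hM hs ho hl (i := 11) (y := 2 * π - v) (by norm_num) (by linarith)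
      (by rw [e12]; linarith)
    rw [Hs_refl_Fin hM hs ho hl] at a1
    have s12 := cum_succ_Fin (M := M) (s := s) (p := p) 11
    norm_num at s12
    rw [e12] at s12
    linear_combination (-1 : ℝ) * a1 - 2 * hk + 2 * (π / cum M s p 12) * s12

theorem adm_Fin (hM : 1 < M) (hs : 0 < s) (ho : Ord p) (hl : Lin M s p) {H : ℝ → ℝ}
    (hH : IsLift M H) : Adm M p (fun y => (H y - H (-y)) / 2 - Hs M s p y) := by
  have hc := Hs_cont hM hs ho hl
  have hC := cum_pos hM hs ho
  have hk : π / cum M s p 12 * cum M s p 12 = π := by field_simp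
  have hcH := hH.cont
  have hM0 : M ≠ 0 := by linarith
  have hM1 : M + 1 ≠ 0 := by linarith
  have o0 := ho 0 (by norm_num)
  have o1 := ho 1 (by norm_num)
  have o2 := ho 2 (by norm_num)
  have o3 := ho 3 (by norm_num)
  have o4 := ho 4 (by norm_num)
  have o5 := ho 5 (by norm_num)
  have o6 := ho 6 (by norm_num)
  have o7 := ho 7 (by norm_num)
  have o8 := ho 8 (by norm_num)
  have o9 := ho 9 (by norm_num)
  have o10 := ho 10 (by norm_num)
  have o11 := ho 11 (by norm_num)
  have s2 := cum_succ_Fin (M := M) (s := s) (p := p) 1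
  have s3 := cum_succ_Fin (M := M) (s := s) (p := p) 2
  have s5 := cum_succ_Fin (M := M) (s := s) (p := p) 4
  have s6 := cum_succ_Fin (M := M) (s := s) (p := p) 5
  have s7 := cum_succ_Fin (M := M) (s := s) (p := p) 6
  have s9 := cum_succ_Fin (M := M) (s := s) (p := p) 8
  have s10 := cum_succ_Fin (M := M) (s := s) (p := p) 9
  have s11 := cum_succ_Fin (M := M) (s := s) (p := p) 10
  have s1 : cum M s p 1 = p 1 := by
    have := cum_succ_Fin (M := M) (s := s) (p := p) 0
    rw [this, hl.e0]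
    simp [cum, dd]
  norm_num at o0 o1 o2 o3 o4 o5 o6 o7 o8 o9 o10 o11 s2 s3 s5 s6 s7 s9 s10 s11
  have e0 := hl.e0
  have e12 := hl.e12
  have e5 := hl.e5
  have e6 := hl.e6
  have e7 := hl.e7
  have c1 := hl.c1
  have c2 := hl.c2
  have d2 : (M + 1) * dd M s 2 = 2 := by simp only [dd]; field_simp
  have d6 : M * dd M s 6 = 1 := by simp only [dd]; field_simp
  have d7 : (M + 1) * dd M s 7 = 2 := by simp only [dd]; field_simp
  have d8 : M * dd M s 8 = 1 := by simp only [dd]; field_simp
  have d9 : M * dd M s 9 = dd M s 1 := by simp only [dd]; field_simp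
  have d6' : (M + 1) * dd M s 6 = 2 * dd M s 1 := by simp only [dd]; field_simp
  have d10 : M * dd M s 10 = dd M s 2 := by simp only [dd]; field_simp
  have d5 : (M + 1) * dd M s 5 = 2 * dd M s 2 := by simp only [dd]; field_simp; norm_num
  have d11 : M * dd M s 11 = dd M s 3 := by simp only [dd]; field_simp
  have d4 : (M + 1) * dd M s 4 = 2 * dd M s 3 := by simp only [dd]; field_simp
  have kB : (M + 1) * cum M s p 7 + cum M s p 1 + M * cum M s p 9 = 2 * M * cum M s p 12 := by
    linear_combination c1 + (M + 1) * s7 - s2 - M * s10 + (p 7 - p 6) * d6'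
      - (p 10 - p 9) * d9 + dd M s 1 * (e7 - e6)
  have kE : (M + 1) * cum M s p 5 + cum M s p 3 + M * cum M s p 11 = 2 * M * cum M s p 12 := by
    linear_combination c1 - (M + 1) * s6 + s3 + M * s11 - (p 6 - p 5) * d5
      + (p 11 - p 10) * d10 + dd M s 2 * (e5 - e6)
  have box : ∀ t v x : ℝ, 0 < x + t → t ≤ v → t + v + 2 * x = 2 * π →
      Hs M s p t + M * Hs M s p v + (M + 1) * Hs M s p x = 2 * π * M →
      ((H t - H (-t)) / 2 - Hs M s p t) + M * ((H v - H (-v)) / 2 - Hs M s p v)
        + (M + 1) * ((H x - H (-x)) / 2 - Hs M s p x) ≤ 0 := by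
    intro t v x a1 a2 a3 a4
    have := lift_ineq_Fin hH a1 a2 a3
    linarith
  refine ⟨by fun_prop, fun y => ?_, fun y => ?_, ?_, ?_, ?_, ?_, ?_⟩
  · rw [neg_neg, Hs_odd hM hs ho hl]
    ring
  · have a1 := hH.per (-(y + 2 * π))
    rw [show -(y + 2 * π) + 2 * π = -y by ring] at a1
    rw [hH.per, Hs_per]
    linarith
  · intro t v x t0 t1 v0 v1 x0 x1 h
    refine box t v x (by linarith) (by linarith) h ?_
    have a1 := Hs_piece hM hs ho hl (i := 6) (y := 2 * π - v) (by norm_num) (by linarith)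
      (by norm_num; linarith)
    rw [Hs_refl_Fin hM hs ho hl] at a1
    have a2 : Hs M s p v = 2 * π - π / cum M s p 12
        * (cum M s p 6 + dd M s 6 * (2 * π - v - p 6)) := by linarith
    rw [Hs_mid_Fin hM hs ho hl t0 t1, a2,
      Hs_piece hM hs ho hl (i := 2) (by norm_num) x0 x1]
    linear_combination (π / cum M s p 12) * (c2 + h + x * d2 - (2 * π - v) * d6)
  · intro t v x t0 t1 v0 v1 x0 x1 h
    refine box t v x (by linarith) (by linarith) h ?_
    rw [Hs_mid_Fin hM hs ho hl t0 t1, Hs_piece hM hs ho hl (i := 8) (by norm_num) v0 v1,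
      Hs_piece hM hs ho hl (i := 7) (by norm_num) x0 x1]
    linear_combination (π / cum M s p 12) * (kB - s1 - M * s9 + h - e7 + (x - p 7) * d7
      + (v - p 9) * d8) + 2 * M * hk
  · intro t v x t0 t1 v0 v1 x0 x1 h
    refine box t v x (by linarith) (by linarith) h ?_
    rw [Hs_piece hM hs ho hl (i := 2) (by norm_num) t0 t1,
      Hs_piece hM hs ho hl (i := 10) (by norm_num) v0 v1,
      Hs_piece hM hs ho hl (i := 5) (by norm_num) x0 x1]
    linear_combination (π / cum M s p 12) * (c1 - (M + 1) * s6 + dd M s 2 * (h - e6)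
      + (x - p 6) * d5 + (v - p 10) * d10) + 2 * M * hk
  · intro t v x t0 t1 v0 v1 x0 x1 h
    refine box t v x (by linarith) (by linarith) h ?_
    rw [Hs_piece hM hs ho hl (i := 1) (by norm_num) t0 t1,
      Hs_piece hM hs ho hl (i := 9) (by norm_num) v0 v1,
      Hs_piece hM hs ho hl (i := 6) (by norm_num) x0 x1]
    linear_combination (π / cum M s p 12) * (c1 - s2 - M * s10 + dd M s 1 * (h - e6)
      + (x - p 6) * d6' + (v - p 10) * d9) + 2 * M * hk
  · intro t v x t0 t1 v0 v1 x0 x1 h
    refine box t v x (by linarith) (by linarith) h ?_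
    rw [Hs_piece hM hs ho hl (i := 3) (by norm_num) t0 t1, Hs_top_Fin hM hs ho hl v0 v1,
      Hs_piece hM hs ho hl (i := 4) (by norm_num) x0 x1]
    linear_combination (π / cum M s p 12) * (kE - (M + 1) * s5 + dd M s 3 * (h - e5)
      + (x - p 5) * d4 + (v - p 11) * d11) + 2 * M * hk

theorem upper_Fin (hM : 1 < M) (hs : 0 < s) (ho : Ord p) (hl : Lin M s p) (hd : Dual M p)
    {v : ℝ → ℝ} (hv : IsQS M v) : ‖Z v‖ ≤ val M s p := by
  obtain ⟨H, hH, hZ⟩ := exists_lift hv
  have hc := Hs_cont hM hs ho hl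
  have hcH := hH.cont
  have hpi := Real.pi_pos
  have h1 := hd _ (adm_Fin hM hs ho hl hH)
  have e : ∀ θ : ℝ, ((H θ - H (-θ)) / 2 - Hs M s p θ) * sin θ
      = 1 / 2 * ((H θ - H (-θ)) * sin θ) - Hs M s p θ * sin θ := by
    intro θ; ring
  simp only [e] at h1
  rw [intervalIntegral.integral_sub
    ((by fun_prop : Continuous fun θ : ℝ => 1 / 2 * ((H θ - H (-θ)) * sin θ)).intervalIntegrable
      _ _)
    ((by fun_prop : Continuous fun θ : ℝ => Hs M s p θ * sin θ).intervalIntegrable _ _),
    intervalIntegral.integral_const_mul] at h1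
  rw [hZ, int_fold_Fin hcH hH.per, val_eq_Fin hM hs ho hl]
  generalize (∫ θ in (0 : ℝ)..π, (H θ - H (-θ)) * sin θ) = A at h1 ⊢
  generalize (∫ θ in (0 : ℝ)..π, Hs M s p θ * sin θ) = B at h1 ⊢
  have e1 : 2 + 1 / π * (A - 4 * π) = 1 / π * A - 2 := by field_simp; ring
  have e2 : 2 / π * B - 2 = 1 / π * (2 * B) - 2 := by ring
  rw [e1, e2]
  have := mul_le_mul_of_nonneg_left (show A ≤ 2 * B by linarith)
    (show (0 : ℝ) ≤ 1 / π by positivity)
  linarith

theorem isQS_Fin (hM : 1 < M) (hs : 0 < s) (ho : Ord p) (hl : Lin M s p)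
    (hH : IsLift M (Hs M s p)) : IsQS M (fun y => Hs M s p y - y) := by
  have hc := hH.cont
  have hper : Function.Periodic (fun y => Hs M s p y - y) (2 * π) := by
    intro y
    simp only
    rw [Hs_per]
    ring
  refine ⟨by fun_prop, hper, ?_, ?_, fun x t ht0 ht => ⟨?_, ?_⟩⟩
  · intro x y hxy
    have := hH.mono hxy
    simp only
    linarith
  · have h1 := hper.intervalIntegral_add_eq 0 (-π)
    rw [zero_add, show -π + 2 * π = π by ring] at h1
    rw [h1]
    have h2 := intervalIntegral.integral_comp_neg (a := -π) (b := π) (fun y => Hs M s p y - y)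
    have e : ∀ y : ℝ, Hs M s p (-y) - -y = -(Hs M s p y - y) := by
      intro y
      rw [Hs_odd hM hs ho hl]
      ring
    simp only [e] at h2
    rw [intervalIntegral.integral_neg, neg_neg] at h2
    linarith
  · have := hH.qs1 x t ht0 ht
    simp only
    convert this using 1 <;> ring
  · have := hH.qs2 x t ht0 ht
    simp only
    convert this using 1 <;> ring

theorem lower_Fin (hM : 1 < M) (hs : 0 < s) (ho : Ord p) (hl : Lin M s p) :
    val M s p ≤ ‖Z (fun y => Hs M s p y - y)‖ := by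
  have hc := Hs_cont hM hs ho hl
  have hpi := Real.pi_pos
  have h1 := sin_le_norm_Z (v := fun y => Hs M s p y - y) (by fun_prop)
  refine le_trans (le_of_eq ?_) h1
  have e : ∀ θ : ℝ, (Hs M s p θ - θ) * sin θ = Hs M s p θ * sin θ - θ * sin θ := by
    intro θ; ring
  have e' : ∀ θ : ℝ, (Hs M s p θ - Hs M s p (-θ)) * sin θ = 2 * (Hs M s p θ * sin θ) := by
    intro θ
    rw [Hs_odd hM hs ho hl]
    ring
  simp only [e]
  rw [intervalIntegral.integral_sub
    ((by fun_prop : Continuous fun θ : ℝ => Hs M s p θ * sin θ).intervalIntegrable _ _)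
    ((by fun_prop : Continuous fun θ : ℝ => θ * sin θ).intervalIntegrable _ _),
    int_id_sin, int_fold_Fin hc Hs_per]
  simp only [e']
  rw [intervalIntegral.integral_const_mul, val_eq_Fin hM hs ho hl]
  field_simp
  ring

theorem final {M s : ℝ} {p : ℕ → ℝ} (hM : 1 < M) (hs : 0 < s) (ho : Ord p) (hl : Lin M s p)
    (hH : IsLift M (Hs M s p)) (hd : Dual M p) : c M = val M s p := by
  rw [c_eq]
  refine IsGreatest.csSup_eq ⟨⟨_, isQS_Fin hM hs ho hl hH, ?_⟩, ?_⟩
  · exact le_antisymm (lower_Fin hM hs ho hl)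
      (upper_Fin hM hs ho hl hd (isQS_Fin hM hs ho hl hH))
  · rintro a ⟨v, hv, rfl⟩
    exact upper_Fin hM hs ho hl hd hv

end Pool.Agent.MP_e5b4ec_an.Mid
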