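import Pool.Agent.MP_e5b4ec_an.Mid.Base

open Real

namespace Pool.Agent.MP_e5b4ec_an.Mid

variable {M s : ℝ} {p : ℕ → ℝ}

theorem dd_pos (hM : 1 < M) (hs : 0 < s) (i : ℕ) : 0 < dd M s i := by
  have hM0 : 0 < M := by linarith
  unfold dd
  split <;> positivity

theorem cum_pos (hM : 1 < M) (hs : 0 < s) (ho : Ord p) : 0 < cum M s p 12 := by
  unfold cum
  refine Finset.sum_pos (fun i hi => mul_pos (dd_pos hM hs i) ?_) ⟨0, by simp⟩
  have := ho i (Finset.mem_range.mp hi)
  linarith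

theorem ord_le_Fin (ho : Ord p) {i j : ℕ} (hij : i ≤ j) (hj : j ≤ 12) : p i ≤ p j := by
  induction j, hij using Nat.le_induction with
  | base => exact le_rfl
  | succ n _ ih => exact (ih (by omega)).trans (ho n (by omega)).le

theorem H0_cont_Fin : Continuous (H0 M s p) := by
  unfold H0
  fun_prop

theorem H0_piece_Fin (ho : Ord p) {i : ℕ} (hi : i < 12) {y : ℝ} (h1 : p i ≤ y)
    (h2 : y ≤ p (i + 1)) : H0 M s p y = cum M s p i + dd M s i * (y - p i) := by
  have key : ∀ n, i + 1 ≤ n → n ≤ 12 →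
      ∑ j ∈ Finset.range n, dd M s j * (max (p j) (min y (p (j + 1))) - p j)
        = cum M s p i + dd M s i * (y - p i) := by
    intro n hn
    induction n, hn using Nat.le_induction with
    | base =>
      intro _
      rw [Finset.sum_range_succ, min_eq_left h2, max_eq_right h1]
      congr 1
      unfold cum
      refine Finset.sum_congr rfl fun j hj => ?_
      have hj' := Finset.mem_range.mp hj
      have a1 : p (j + 1) ≤ y := (ord_le_Fin ho (by omega) hi.le).trans h1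
      rw [min_eq_right a1, max_eq_right (ho j (by omega)).le]
    | succ n hn ih =>
      intro h12
      rw [Finset.sum_range_succ, ih (by omega)]
      have a1 : y ≤ p n := h2.trans (ord_le_Fin ho hn (by omega))
      rw [max_eq_left ((min_le_left _ _).trans a1)]
      ring
  exact key 12 (by omega) le_rfl

theorem H0_neg_Fin (ho : Ord p) (hl : Lin M s p) {y : ℝ} (hy : y ≤ 0) : H0 M s p y = 0 := by
  unfold H0
  refine Finset.sum_eq_zero fun j hj => ?_
  have hj' := Finset.mem_range.mp hj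
  have a1 : y ≤ p j := by
    have := ord_le_Fin ho (Nat.zero_le j) hj'.le
    rw [hl.e0] at this
    linarith
  rw [max_eq_left ((min_le_left _ _).trans a1)]
  ring

theorem H0_pi_Fin (ho : Ord p) (hl : Lin M s p) : H0 M s p π = cum M s p 12 := by
  have h := H0_piece_Fin (M := M) (s := s) ho (i := 11) (by norm_num) (y := π)
    (by rw [← hl.e12]; exact (ho 11 (by norm_num)).le) (by rw [← hl.e12])
  rw [h, ← hl.e12]
  unfold cum
  rw [Finset.sum_range_succ _ 11]

theorem phi_pi_Fin (hM : 1 < M) (hs : 0 < s) (ho : Ord p) (hl : Lin M s p) :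
    (fun x => π / cum M s p 12 * (H0 M s p x - H0 M s p (-x))) π = π := by
  have hc := cum_pos hM hs ho
  simp only
  rw [H0_pi_Fin ho hl, H0_neg_Fin ho hl (by linarith [Real.pi_pos])]
  field_simp
  ring

theorem phi_odd_Fin (x : ℝ) :
    (fun x => π / cum M s p 12 * (H0 M s p x - H0 M s p (-x))) (-x)
      = -(fun x => π / cum M s p 12 * (H0 M s p x - H0 M s p (-x))) x := by
  simp only
  rw [neg_neg]
  ring

theorem phi_negpi_Fin (hM : 1 < M) (hs : 0 < s) (ho : Ord p) (hl : Lin M s p) :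
    (fun x => π / cum M s p 12 * (H0 M s p x - H0 M s p (-x))) (-π) = -π := by
  rw [phi_odd_Fin, phi_pi_Fin hM hs ho hl]

theorem Hs_cont (hM : 1 < M) (hs : 0 < s) (ho : Ord p) (hl : Lin M s p) :
    Continuous (Hs M s p) := by
  unfold Hs
  refine continuous_id.add (perExt_cont ?_ (phi_pi_Fin hM hs ho hl) (phi_negpi_Fin hM hs ho hl))
  exact continuous_const.mul (H0_cont_Fin.sub (H0_cont_Fin.comp continuous_neg))

theorem Hs_odd (hM : 1 < M) (hs : 0 < s) (ho : Ord p) (hl : Lin M s p) (y : ℝ) :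
    Hs M s p (-y) = -Hs M s p y := by
  unfold Hs
  rw [perExt_odd (phi_pi_Fin hM hs ho hl) phi_odd_Fin]
  ring

theorem Hs_per (y : ℝ) : Hs M s p (y + 2 * π) = Hs M s p y + 2 * π := by
  unfold Hs
  rw [perExt_per]
  ring

theorem Hs_eq_Fin (hM : 1 < M) (hs : 0 < s) (ho : Ord p) (hl : Lin M s p) {y : ℝ}
    (h1 : 0 ≤ y) (h2 : y ≤ π) : Hs M s p y = π / cum M s p 12 * H0 M s p y := by
  unfold Hs
  rw [perExt_eq (phi_pi_Fin hM hs ho hl) (phi_negpi_Fin hM hs ho hl)
    (by linarith [Real.pi_pos]) h2, H0_neg_Fin ho hl (y := -y) (by linarith)]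
  ring

theorem Hs_piece (hM : 1 < M) (hs : 0 < s) (ho : Ord p) (hl : Lin M s p) {i : ℕ} (hi : i < 12)
    {y : ℝ} (h1 : p i ≤ y) (h2 : y ≤ p (i + 1)) :
    Hs M s p y = π / cum M s p 12 * (cum M s p i + dd M s i * (y - p i)) := by
  have a1 : 0 ≤ y := by
    have := ord_le_Fin ho (Nat.zero_le i) hi.le
    rw [hl.e0] at this
    linarith
  have a2 : y ≤ π := by
    have := ord_le_Fin ho (show i + 1 ≤ 12 by omega) le_rfl
    rw [hl.e12] at this
    linarith
  rw [Hs_eq_Fin hM hs ho hl a1 a2, H0_piece_Fin ho hi h1 h2]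

theorem exists_piece_Fin (hl : Lin M s p) {x : ℝ} (h1 : 0 ≤ x) (h2 : x < π) :
    ∃ i, i < 12 ∧ p i ≤ x ∧ x < p (i + 1) := by
  by_contra hcon
  push Not at hcon
  have key : ∀ n, n ≤ 12 → p n ≤ x := by
    intro n
    induction n with
    | zero => intro _; rw [hl.e0]; exact h1
    | succ n ih => intro hn; exact hcon n (by omega) (ih (by omega))
  have := key 12 le_rfl
  rw [hl.e12] at this
  linarith

theorem H0_lt_Fin (hM : 1 < M) (hs : 0 < s) (hl : Lin M s p) {x y : ℝ}
    (h1 : 0 ≤ x) (h2 : x < y) (h3 : y ≤ π) : H0 M s p x < H0 M s p y := by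
  obtain ⟨i, hi, a1, a2⟩ := exists_piece_Fin hl h1 (h2.trans_le h3)
  unfold H0
  refine Finset.sum_lt_sum (fun j _ => ?_) ⟨i, Finset.mem_range.mpr hi, ?_⟩
  · refine mul_le_mul_of_nonneg_left ?_ (dd_pos hM hs j).le
    exact sub_le_sub_right (max_le_max le_rfl (min_le_min h2.le le_rfl)) _
  · refine mul_lt_mul_of_pos_left ?_ (dd_pos hM hs i)
    rw [min_eq_left a2.le, max_eq_right a1]
    exact sub_lt_sub_right (lt_max_of_lt_right (lt_min h2 a2)) _

theorem Hs_per_int_Fin (n : ℤ) (x : ℝ) :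
    Hs M s p (x - n * (2 * π)) = Hs M s p x - n * (2 * π) := by
  unfold Hs
  rw [(perExt_per _).sub_int_mul_eq n]
  ring

theorem Hs_zero_Fin (hM : 1 < M) (hs : 0 < s) (ho : Ord p) (hl : Lin M s p) :
    Hs M s p 0 = 0 := by
  have := Hs_odd hM hs ho hl 0
  rw [neg_zero] at this
  linarith

theorem Hs_refl_Fin (hM : 1 < M) (hs : 0 < s) (ho : Ord p) (hl : Lin M s p) (y : ℝ) :
    Hs M s p (2 * π - y) = 2 * π - Hs M s p y := by
  rw [show 2 * π - y = -y + 2 * π by ring, Hs_per, Hs_odd hM hs ho hl]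
  ring

theorem Hs_mono (hM : 1 < M) (hs : 0 < s) (ho : Ord p) (hl : Lin M s p) :
    StrictMono (Hs M s p) := by
  have hpi := Real.pi_pos
  have hc : 0 < π / cum M s p 12 := div_pos hpi (cum_pos hM hs ho)
  have m1 : ∀ x y, 0 ≤ x → x < y → y ≤ π → Hs M s p x < Hs M s p y := by
    intro x y h1 h2 h3
    rw [Hs_eq_Fin hM hs ho hl h1 (by linarith), Hs_eq_Fin hM hs ho hl (by linarith) h3]
    exact mul_lt_mul_of_pos_left (H0_lt_Fin hM hs hl h1 h2 h3) hc
  have m2 : ∀ x y, π ≤ x → x < y → y ≤ 2 * π → Hs M s p x < Hs M s p y := by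
    intro x y h1 h2 h3
    have := m1 (2 * π - y) (2 * π - x) (by linarith) (by linarith) (by linarith)
    rw [Hs_refl_Fin hM hs ho hl, Hs_refl_Fin hM hs ho hl] at this
    linarith
  refine strictMono_of_per Hs_per_int_Fin (Hs_zero_Fin hM hs ho hl) ?_
  intro x hx y hy hxy
  rcases le_or_gt y π with h | h
  · exact m1 x y hx.1 hxy h
  · rcases le_or_gt π x with h' | h'
    · exact m2 x y h' hxy hy.2
    · exact (m1 x π hx.1 h' le_rfl).trans (m2 π y le_rfl h hy.2)

end Pool.Agent.MP_e5b4ec_an.Mid
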