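import Pool.Agent.MP_e5b4ec_an.Mid.Stm

namespace Pool.Agent.MP_e5b4ec_an.Mid

/-- approximate values, polynomial in `x = M - 7 / 5`, of `s` (index `0`) and of the break points
`p 1, p 2, p 3, p 4, p 8, p 9, p 10, p 11` -/
noncomputable def ctr : ℕ → ℝ → ℝ
  | 0, x => 0.7383 - 0.413 * x + 0.377 * x ^ 2 - 0.38 * x ^ 3
  | 1, x => 0.5015 - 0.138 * x + 0.027 * x ^ 2
  | 2, x => 0.6269 - 0.133 * x + 0.035 * x ^ 2
  | 3, x => 0.8466 - 0.118 * x + 0.063 * x ^ 2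
  | 4, x => 1.0399 - 0.084 * x - 0.006 * x ^ 2
  | 8, x => 2.055 - 0.086 * x + 0.073 * x ^ 2
  | 9, x => 2.2415 - 0.225 * x + 0.128 * x ^ 2
  | 10, x => 2.368 - 0.179 * x + 0.131 * x ^ 2
  | _, x => 2.5585 - 0.126 * x + 0.18 * x ^ 2

/-- `s` and the eight free break points are within `1 / 1000` of the approximate values -/
def Tube (M s : ℝ) (p : ℕ → ℝ) : Prop :=
  |s - ctr 0 (M - 7 / 5)| ≤ 1 / 1000 ∧
    ∀ i ∈ ({1, 2, 3, 4, 8, 9, 10, 11} : Finset ℕ), |p i - ctr i (M - 7 / 5)| ≤ 1 / 1000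

end Pool.Agent.MP_e5b4ec_an.Mid
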