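import Pool.Agent.MP_e5b4ec_an.Mid.OneD
import Pool.Agent.MP_e5b4ec_an.Mid.Tube

/-! Meaning of the expression lists of the Newton map. -/

open Real

namespace Pool.Agent.MP_e5b4ec_an.Mid

variable {K E : ℕ → ℝ} {M s : ℝ} {p : ℕ → ℝ}

theorem semB_One (h : Dfs K E 10 dsB) :
    E 10 = ctr 1 (E 0 - 7 / 5) + E 4 / 1000 ∧ E 11 = ctr 2 (E 0 - 7 / 5) + E 6 / 1000 ∧
    E 12 = ctr 3 (E 0 - 7 / 5) + E 8 / 1000 ∧ E 13 = ctr 4 (E 0 - 7 / 5) + E 2 / 1000 ∧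
    E 17 = ctr 8 (E 0 - 7 / 5) + E 1 / 1000 ∧ E 18 = ctr 9 (E 0 - 7 / 5) + E 7 / 1000 ∧
    E 19 = ctr 10 (E 0 - 7 / 5) + E 5 / 1000 ∧ E 20 = ctr 11 (E 0 - 7 / 5) + E 9 / 1000 ∧
    E 21 = ctr 0 (E 0 - 7 / 5) + E 3 / 1000 ∧ E 12 + E 20 + 2 * E 14 = 2 * π ∧
    E 11 + E 19 + 2 * E 15 = 2 * π ∧ E 10 + E 18 + 2 * E 16 = 2 * π := by
  simp only [dsB, Dfs, Ex.ev, Nat.reduceAdd] at h
  push_cast at h
  obtain ⟨h10, h11, h12, h13, h14, h15, h16, h17, h18, h19, h20, h21, -⟩ := h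
  simp only [ctr]
  refine ⟨?_, ?_, ?_, ?_, ?_, ?_, ?_, ?_, ?_, ?_, ?_, ?_⟩
  · rw [h10]; ring
  · rw [h11]; ring
  · rw [h12]; ring
  · rw [h13]; ring
  · rw [h17]; ring
  · rw [h18]; ring
  · rw [h19]; ring
  · rw [h20]; ring
  · rw [h21]; ring
  · rw [h14, h20]; ring
  · rw [h15, h19]; ring
  · rw [h16, h18]; ring

theorem semF_One (hM : 1 < M) (h0 : E 0 = M) (hp : ∀ i, 1 ≤ i → i ≤ 11 → E (9 + i) = p i)
    (h21 : E 21 = s) (e0 : p 0 = 0) (e12 : p 12 = π) (hd : Dfs K E 22 dsF0)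
    (hd1 : Dfs K E 53 dsF1) :
    M * E 53 = M * mu p 7 - (M + 1) * mu p 8 ∧
    (M + 1) * E 54 = 2 * (mu p 4 - (M + 1) * mu p 3) ∧
    M * E 55 = (M + 1) * (cum M s p 2 - dd M s 2 * p 2) - M * (cum M s p 6 - dd M s 6 * p 6) ∧
    M * E 56 = M * mu p 1 - mu p 9 ∧
    M * E 57 = M * mu p 5 - (M + 1) * mu p 10 ∧
    (M + 1) ^ 3 * E 58 =
      M * ((M + 1) * mu p 2 - mu p 5) - (M + 1) ^ 2 * ((M + 1) * mu p 1 - mu p 6) ∧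
    E 59 - (33 / 20 * E 25 * E 57 - 3 * E 24 * E 56 + 2 * E 23 * E 53 + 13 / 5 * E 24 * E 58) =
      ((M + 1) * (2 * π * mu p 1 - nu p 1 - nu p 9 / M) / 2 - nu p 6) / M
      - 2 * (nu p 2 - (2 * π * mu p 10 / M - nu p 10 / M - 2 * nu p 5 / (M + 1))) / (M + 1)
      + (2 * π * mu p 8 / M - nu p 8 / M - 2 * nu p 7 / (M + 1)) - nu p 0 ∧
    E 60 = (M + 1) * cum M s p 6 + cum M s p 2 + M * cum M s p 10 - 2 * M * cum M s p 12 ∧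
    E 61 + E 54 =
      nu p 3 + 2 * nu p 4 / (M + 1) + nu p 11 / M - π * (mu p 3 + mu p 11 / M) := by
  have p1 : E 10 = p 1 := hp 1 (by norm_num) (by norm_num)
  have p2 : E 11 = p 2 := hp 2 (by norm_num) (by norm_num)
  have p3 : E 12 = p 3 := hp 3 (by norm_num) (by norm_num)
  have p4 : E 13 = p 4 := hp 4 (by norm_num) (by norm_num)
  have p5 : E 14 = p 5 := hp 5 (by norm_num) (by norm_num)
  have p6 : E 15 = p 6 := hp 6 (by norm_num) (by norm_num)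
  have p7 : E 16 = p 7 := hp 7 (by norm_num) (by norm_num)
  have p8 : E 17 = p 8 := hp 8 (by norm_num) (by norm_num)
  have p9 : E 18 = p 9 := hp 9 (by norm_num) (by norm_num)
  have p10 : E 19 = p 10 := hp 10 (by norm_num) (by norm_num)
  have p11 : E 20 = p 11 := hp 11 (by norm_num) (by norm_num)
  have hM0 : M ≠ 0 := by linarith
  have hM1 : M + 1 ≠ 0 := by linarith
  simp only [dsF0, dsF1, Dfs, Ex.ev, Nat.reduceAdd, h0, h21, p1, p2, p3, p4, p5, p6, p7, p8, p9, p10, p11] at hd hd1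
  push_cast at hd hd1
  obtain ⟨h22, h23, h24, h25, h26, h27, h28, h29, h30, h31, h32, h33, h34, h35, h36, h37, h38, h39, h40, h41, h42, h43, h44, h45, h46, h47, h48, h49, h50, h51, h52, -⟩ := hd
  obtain ⟨h53, h54, h55, h56, h57, h58, h59, h60, h61, -⟩ := hd1
  simp only [h53, h54, h55, h56, h57, h58, h59, h60, h61, h52, h51, h50, h49, h48, h47, h46, h45, h44, h43, h42, h41, h40, h39, h38, h37, h36, h35, h34, h33, h32, h31, h30, h29, h28, h27, h26, h25, h24, h23, h22, mu, nu, cum, dd,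
    Finset.sum_range_succ, Finset.range_zero, Finset.sum_empty, Nat.reduceAdd, e0, e12, cos_zero,
    sin_zero, cos_pi, sin_pi]
  refine ⟨?_, ?_, ?_, ?_, ?_, ?_, ?_, ?_, ?_⟩ <;> field_simp <;> ring

theorem semI_One (hM : 1 < M) (h0 : E 0 = M) (hp : ∀ i, 1 ≤ i → i ≤ 11 → E (9 + i) = p i)
    (h21 : E 21 = s) (e0 : p 0 = 0) (e12 : p 12 = π) (e5 : p 3 + p 11 + 2 * p 5 = 2 * π)
    (e6 : p 2 + p 10 + 2 * p 6 = 2 * π) (e7 : p 1 + p 9 + 2 * p 7 = 2 * π)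
    (hd : Dfs K E 22 dsF0) (hd1 : Dfs K E 53 dsF1) :
    (E 53 = 0 ∧ E 54 = 0 ∧ E 55 = 0 ∧ E 56 = 0 ∧ E 57 = 0 ∧ E 58 = 0 ∧ E 59 = 0 ∧ E 60 = 0 ∧
      E 61 = 0) ↔ Lin M s p ∧ Trig M p := by
  obtain ⟨a0, a1, a2, a3, a4, a5, a6, a7, a8⟩ := semF_One hM h0 hp h21 e0 e12 hd hd1
  have hM0 : M ≠ 0 := by linarith
  have hM1 : M + 1 ≠ 0 := by linarith
  constructor
  · rintro ⟨b0, b1, b2, b3, b4, b5, b6, b7, b8⟩
    simp only [b0, b1, b2, b3, b4, b5, b6, b7, b8, mul_zero, add_zero, sub_zero] at *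
    exact ⟨⟨e0, e12, e5, e6, e7, by linarith, by linarith⟩, by linarith, by linarith, by linarith,
      by linarith, by linarith, by linarith, by linarith⟩
  · rintro ⟨hl, ht⟩
    have b0 : E 53 = 0 := (mul_eq_zero.1 (a0.trans (sub_eq_zero.2 ht.mB))).resolve_left hM0
    have b1 : E 54 = 0 := (mul_eq_zero.1 (a1.trans
      (by rw [sub_eq_zero.2 ht.mE, mul_zero]))).resolve_left hM1
    have b2 : E 55 = 0 := (mul_eq_zero.1 (a2.trans (sub_eq_zero.2 hl.c2))).resolve_left hM0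
    have b3 : E 56 = 0 := (mul_eq_zero.1 (a3.trans (sub_eq_zero.2 ht.mD))).resolve_left hM0
    have b4 : E 57 = 0 := (mul_eq_zero.1 (a4.trans (sub_eq_zero.2 ht.mC))).resolve_left hM0
    have b5 : E 58 = 0 := (mul_eq_zero.1 (a5.trans (sub_eq_zero.2 ht.mA))).resolve_left
      (pow_ne_zero 3 hM1)
    rw [sub_eq_zero.2 ht.qA, b0, b3, b4, b5] at a6
    rw [sub_eq_zero.2 hl.c1] at a7
    rw [sub_eq_zero.2 ht.qE, b1] at a8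
    exact ⟨b0, b1, b2, b3, b4, b5, by linarith, a7, by linarith⟩

theorem semT_One (hd : Dfs K E 62 dsF2)
    (h : E 53 = 0 ∧ E 54 = 0 ∧ E 55 = 0 ∧ E 56 = 0 ∧ E 57 = 0 ∧ E 58 = 0 ∧ E 59 = 0 ∧ E 60 = 0 ∧
      E 61 = 0) :
    E 71 = 0 ∧ E 72 = 0 ∧ E 73 = 0 ∧ E 74 = 0 ∧ E 75 = 0 ∧ E 76 = 0 ∧ E 77 = 0 ∧ E 78 = 0 ∧
      E 79 = 0 := by
  obtain ⟨b0, b1, b2, b3, b4, b5, b6, b7, b8⟩ := h
  simp only [dsF2, Dfs, Ex.ev, Nat.reduceAdd, b0, b1, b2, b3, b4, b5, b6, b7, b8, mul_zero,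
    add_zero] at hd
  obtain ⟨g0, g1, g2, g3, g4, g5, g6, g7, g8, hd⟩ := hd
  simpa only [g0, g1, g2, g3, g4, g5, g6, g7, g8, mul_zero, add_zero, and_true] using hd

theorem semU_One (hd : Dfs K E 62 dsF2)
    (hk : K 22 ≠ 0 ∧ K 29 ≠ 0 ∧ K 32 ≠ 0 ∧ K 39 ≠ 0 ∧ K 45 ≠ 0 ∧ K 50 ≠ 0 ∧ K 54 ≠ 0 ∧ K 57 ≠ 0 ∧
      K 59 ≠ 0)
    (h : E 71 = 0 ∧ E 72 = 0 ∧ E 73 = 0 ∧ E 74 = 0 ∧ E 75 = 0 ∧ E 76 = 0 ∧ E 77 = 0 ∧ E 78 = 0 ∧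
      E 79 = 0) :
    E 53 = 0 ∧ E 54 = 0 ∧ E 55 = 0 ∧ E 56 = 0 ∧ E 57 = 0 ∧ E 58 = 0 ∧ E 59 = 0 ∧ E 60 = 0 ∧
      E 61 = 0 := by
  obtain ⟨b0, b1, b2, b3, b4, b5, b6, b7, b8⟩ := h
  obtain ⟨k0, k1, k2, k3, k4, k5, k6, k7, k8⟩ := hk
  simp only [dsF2, Dfs, Ex.ev, Nat.reduceAdd, b0, b1, b2, b3, b4, b5, b6, b7, b8] at hd
  obtain ⟨g0, g1, g2, g3, g4, g5, g6, g7, g8, u0, u1, u2, u3, u4, u5, u6, u7, u8, -⟩ := hd
  have z8 : E 70 = 0 := by simpa [k8] using u8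
  have z7 : E 69 = 0 := by simpa [k7, z8] using u7
  have z6 : E 68 = 0 := by simpa [k6, z7, z8] using u6
  have z5 : E 67 = 0 := by simpa [k5, z6, z7, z8] using u5
  have z4 : E 66 = 0 := by simpa [k4, z5, z6, z7, z8] using u4
  have z3 : E 65 = 0 := by simpa [k3, z4, z5, z6, z7, z8] using u3
  have z2 : E 64 = 0 := by simpa [k2, z3, z4, z5, z6, z7, z8] using u2
  have z1 : E 63 = 0 := by simpa [k1, z7, z8] using u1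
  have z0 : E 62 = 0 := by simpa [k0, z3, z4, z5, z6, z7, z8] using u0
  have r0 : E 53 = 0 := g0.symm.trans z0
  have r1 : E 54 = 0 := g1.symm.trans z1
  have r3 : E 56 = 0 := g3.symm.trans z3
  have r4 : E 57 = 0 := g4.symm.trans z4
  have r2 : E 55 = 0 := by simpa [r1, z2] using g2.symm
  have r5 : E 58 = 0 := by simpa [r3, r4, z5] using g5.symm
  have r6 : E 59 = 0 := by simpa [r0, r3, r4, r5, z6] using g6.symm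
  have r7 : E 60 = 0 := by simpa [r0, r1, r2, r3, r4, r5, r6, z7] using g7.symm
  have r8 : E 61 = 0 := by simpa [r0, r1, r2, r3, r4, r5, r6, r7, z8] using g8.symm
  exact ⟨r0, r1, r2, r3, r4, r5, r6, r7, r8⟩

theorem semO_One (h : Pos K E csO) : 1 < E 0 ∧ 0 < E 21 ∧
    (0 < E 10 ∧ E 10 < E 11 ∧ E 11 < E 12 ∧ E 12 < E 13 ∧ E 13 < E 14 ∧ E 14 < E 15 ∧
      E 15 < E 16 ∧ E 16 < E 17 ∧ E 17 < E 18 ∧ E 18 < E 19 ∧ E 19 < E 20 ∧ E 20 < π) ∧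
    (K 22 ≠ 0 ∧ K 29 ≠ 0 ∧ K 32 ≠ 0 ∧ K 39 ≠ 0 ∧ K 45 ≠ 0 ∧ K 50 ≠ 0 ∧ K 54 ≠ 0 ∧ K 57 ≠ 0 ∧
      K 59 ≠ 0) := by
  simp only [csO, Pos, Ex.ev, sub_pos] at h
  push_cast at h
  simp only [div_one] at h
  obtain ⟨a, b, c0, c1, c2, c3, c4, c5, c6, c7, c8, c9, c10, c11, k0, k1, k2, k3, k4, k5, k6, k7,
    k8, -⟩ := h
  exact ⟨a, b, ⟨c0, c1, c2, c3, c4, c5, c6, c7, c8, c9, c10, c11⟩, k0.ne', k1.ne, k2.ne, k3.ne,
    k4.ne', k5.ne, k6.ne, k7.ne', k8.ne'⟩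

end Pool.Agent.MP_e5b4ec_an.Mid
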