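import Pool.Agent.MP_e5b4ec_an.Mid.Tube
import Pool.Agent.MP_e5b4ec_an.Mid.Base
import Pool.Agent.MP_e5b4ec_an.Mid.Ex

/-! The statements for one value of `M` and for a dual certificate. -/

open Real

namespace Pool.Agent.MP_e5b4ec_an.Mid

/-- what is proved for one value of `M` -/
def Good (M : ℝ) : Prop :=
  (∃ (p : ℕ → ℝ) (s : ℝ), Lin M s p ∧ Trig M p ∧ Tube M s p) ∧
    ∀ (p : ℕ → ℝ) (s : ℝ), Lin M s p → Trig M p → Tube M s p → c M = val M s p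

/-- specification of a dual certificate given by several blocks -/
def DualSpec (bs : List (List Ex × List Ex)) : Prop :=
  (∀ b ∈ bs, ltAll 22 b.1 = true) ∧
  ∀ (K : ℕ → ℝ) (M s : ℝ) (p : ℕ → ℝ), 1 < M → Ord p → Lin M s p → Trig M p →
    (∀ b ∈ bs, ∃ E : ℕ → ℝ, E 0 = M ∧ (∀ i, 1 ≤ i → i ≤ 11 → E (9 + i) = p i) ∧
      Dfs K E 22 b.1 ∧ Pos K E b.2) → Dual M p

end Pool.Agent.MP_e5b4ec_an.Mid
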