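import Pool.Agent.MP_e5b4ec_an.Mid.HsL
import Pool.Agent.MP_e5b4ec_an.Mid.Ex

open Real

namespace Pool.Agent.MP_e5b4ec_an.Mid

/-- the step type of the `k`-th piece of the window -/
def ty_Prim (k : ℕ) : ℕ := if k % 22 ≤ 10 then 10 - k % 22 else k % 22 - 10

/-- odd and periodic continuation of a table -/
noncomputable def W_Prim (c : ℕ → ℝ) (k : ℕ) : ℝ :=
  if k ≤ 10 then -c (11 - k) else if k ≤ 21 then c (k - 10) else
    if k ≤ 32 then 2 * c 12 - c (33 - k) else
      if k ≤ 43 then 2 * c 12 + c (k - 32) else 4 * c 12 - c 11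

theorem shift_Prim (c : ℕ → ℝ) {k : ℕ} (hk : k ≤ 22) :
    W_Prim c (k + 22) = W_Prim c k + 2 * c 12 := by
  interval_cases k <;> simp [W_Prim] <;> ring

/-- an odd piecewise affine lift -/
structure HH_Prim (H : ℝ → ℝ) (p c d : ℕ → ℝ) : Prop where
  cont : Continuous H
  odd : ∀ y, H (-y) = -H y
  per : ∀ y, H (y + 2 * π) = H y + 2 * c 12
  p0 : p 0 = 0
  p12 : p 12 = π
  c0 : c 0 = 0
  ord : Ord p
  rc : ∀ i, c (i + 1) = c i + d i * (p (i + 1) - p i)
  pc : ∀ i, i < 12 → ∀ y, p i ≤ y → y ≤ p (i + 1) → H y = c i + d i * (y - p i)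

variable {H : ℝ → ℝ} {p c d : ℕ → ℝ} {M : ℝ}

theorem lt0_Prim (h : HH_Prim H p c d) {k : ℕ} (hk : k < 22) :
    W_Prim p k < W_Prim p (k + 1) := by
  have a0 := h.ord 0 (by norm_num)
  have a11 := h.ord 11 (by norm_num)
  rw [h.p0] at a0
  rcases lt_trichotomy k 10 with g | rfl | g
  · rw [W_Prim, W_Prim, if_pos (by omega), if_pos (by omega), neg_lt_neg_iff,
      show 11 - k = 11 - (k + 1) + 1 by omega]
    exact h.ord _ (by omega)
  · show -p 1 < p 1
    linarith
  rcases (show k ≤ 21 by omega).eq_or_lt with rfl | g'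
  · show p 11 < 2 * p 12 - p 11
    linarith
  · rw [W_Prim, W_Prim, if_neg (by omega), if_pos (by omega), if_neg (by omega), if_pos (by omega),
      show k + 1 - 10 = k - 10 + 1 by omega]
    exact h.ord _ (by omega)

theorem lt_Prim (h : HH_Prim H p c d) {k : ℕ} (hk : k < 44) :
    W_Prim p k < W_Prim p (k + 1) := by
  rcases lt_or_ge k 22 with g | g
  · exact lt0_Prim h g
  · obtain ⟨j, rfl⟩ := Nat.exists_eq_add_of_le' g
    rw [show j + 22 + 1 = j + 1 + 22 by omega, shift_Prim p (by omega), shift_Prim p (by omega)]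
    linarith [lt0_Prim h (show j < 22 by omega)]

theorem le_Prim (h : HH_Prim H p c d) {i j : ℕ} (hij : i ≤ j) (hj : j ≤ 44) :
    W_Prim p i ≤ W_Prim p j := by
  induction j, hij using Nat.le_induction with
  | base => exact le_rfl
  | succ j _ ih => exact (ih (by omega)).trans (lt_Prim h hj).le

theorem pc0_Prim (h : HH_Prim H p c d) {k : ℕ} (hk : k < 22) {y : ℝ} (h1 : W_Prim p k ≤ y)
    (h2 : y ≤ W_Prim p (k + 1)) :
    H y = W_Prim c k + d (ty_Prim k) * (y - W_Prim p k) := by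
  have neg : ∀ i, i < 12 → ∀ y, -p (i + 1) ≤ y → y ≤ -p i →
      H y = -c (i + 1) + d i * (y - -p (i + 1)) := fun i hi y a b => by
    have e := h.pc i hi (-y) (by linarith) (by linarith)
    rw [h.odd] at e
    rw [h.rc i]
    linarith
  rcases lt_trichotomy k 10 with g | rfl | g
  · obtain ⟨i, hi⟩ : ∃ i, k + i = 10 := ⟨10 - k, by omega⟩
    rw [W_Prim, if_pos (by omega), show 11 - k = i + 1 by omega] at h1
    rw [W_Prim, if_pos (by omega), show 11 - (k + 1) = i by omega] at h2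
    rw [W_Prim, W_Prim, if_pos (by omega), if_pos (by omega), show 11 - k = i + 1 by omega,
      show ty_Prim k = i by unfold ty_Prim; split_ifs <;> omega]
    exact neg i (by omega) y h1 h2
  · rcases le_total y 0 with g | g
    · exact neg 0 (by norm_num) y h1 (by rw [h.p0]; linarith)
    · have e := h.pc 0 (by norm_num) y (by rw [h.p0]; exact g) h2
      have e' := h.rc 0
      rw [h.p0, h.c0] at e e'
      show H y = -c (0 + 1) + d 0 * (y - -p (0 + 1))
      rw [e, e']
      ring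
  rcases (show k ≤ 21 by omega).eq_or_lt with rfl | g'
  · rcases le_total y (p 12) with g | g
    · exact h.pc 11 (by norm_num) y h1 g
    · have h3 : y ≤ 2 * p 12 - p 11 := h2
      have e := neg 11 (by norm_num) (y - 2 * π) (by rw [← h.p12]; norm_num; linarith)
        (by rw [← h.p12]; linarith)
      have e' := h.per (y - 2 * π)
      have e'' : c 12 = c 11 + d 11 * (p 12 - p 11) := h.rc 11
      rw [sub_add_cancel, e, ← h.p12] at e'
      show H y = c 11 + d 11 * (y - p 11)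
      norm_num at e'
      rw [e', e'']
      ring
  · obtain ⟨i, rfl⟩ : ∃ i, k = i + 10 := ⟨k - 10, by omega⟩
    rw [W_Prim, if_neg (by omega), if_pos (by omega), Nat.add_sub_cancel] at h1
    rw [W_Prim, if_neg (by omega), if_pos (by omega), show i + 10 + 1 - 10 = i + 1 by omega] at h2
    rw [W_Prim, W_Prim, if_neg (by omega), if_pos (by omega), if_neg (by omega), if_pos (by omega),
      Nat.add_sub_cancel, show ty_Prim (i + 10) = i by unfold ty_Prim; split_ifs <;> omega]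
    exact h.pc i (by omega) y h1 h2

theorem pc_Prim (h : HH_Prim H p c d) {k : ℕ} (hk : k < 44) {y : ℝ} (h1 : W_Prim p k ≤ y)
    (h2 : y ≤ W_Prim p (k + 1)) :
    H y = W_Prim c k + d (ty_Prim k) * (y - W_Prim p k) := by
  rcases lt_or_ge k 22 with g | g
  · exact pc0_Prim h g h1 h2
  · obtain ⟨j, rfl⟩ := Nat.exists_eq_add_of_le' g
    rw [show j + 22 + 1 = j + 1 + 22 by omega, shift_Prim p (by omega), h.p12] at h2
    rw [shift_Prim p (by omega), h.p12] at h1
    have e := pc0_Prim h (show j < 22 by omega) (y := y - 2 * π) (by linarith) (by linarith)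
    have e' := h.per (y - 2 * π)
    rw [sub_add_cancel, e] at e'
    rw [e', shift_Prim p (by omega), shift_Prim c (by omega), h.p12,
      show ty_Prim (j + 22) = ty_Prim j by unfold ty_Prim; rw [Nat.add_mod_right]]
    ring

theorem rc_Prim (h : HH_Prim H p c d) {k : ℕ} (hk : k < 43) :
    W_Prim c (k + 1) = W_Prim c k + d (ty_Prim k) * (W_Prim p (k + 1) - W_Prim p k) := by
  rw [← pc_Prim h (by omega) (lt_Prim h (by omega)).le le_rfl,
    pc_Prim h (show k + 1 < 44 by omega) le_rfl (lt_Prim h (by omega)).le, sub_self, mul_zero,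
    add_zero]

theorem perZ_Prim (h : HH_Prim H p c d) (n : ℤ) (y : ℝ) :
    H (y - n * (2 * π)) = H y - n * (2 * c 12) := by
  induction n using Int.induction_on with
  | zero => simp
  | succ n ih =>
    have e := h.per (y - ((n : ℤ) + 1 : ℤ) * (2 * π))
    rw [show y - (((n : ℤ) + 1 : ℤ) : ℝ) * (2 * π) + 2 * π = y - ((n : ℤ) : ℝ) * (2 * π) by
      push_cast; ring, ih] at e
    push_cast at e ⊢
    linarith
  | pred n ih =>
    have e := h.per (y - ((-(n : ℤ) : ℤ) : ℝ) * (2 * π))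
    rw [ih] at e
    rw [show y - ((-(n : ℤ) - 1 : ℤ) : ℝ) * (2 * π) = y - ((-(n : ℤ) : ℤ) : ℝ) * (2 * π) + 2 * π by
      push_cast; ring, e]
    push_cast
    ring

theorem findL_Prim (B : ℕ → ℝ) {y : ℝ} (h0 : B 0 < y) :
    ∀ n, y ≤ B n → ∃ k, k < n ∧ B k < y ∧ y ≤ B (k + 1)
  | 0, h => absurd h (not_le.2 h0)
  | n + 1, h => by
    rcases lt_or_ge (B n) y with g | g
    · exact ⟨n, by omega, g, h⟩
    · obtain ⟨k, h1, h2⟩ := findL_Prim B h0 n g
      exact ⟨k, by omega, h2⟩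

theorem findR_Prim (B : ℕ → ℝ) {y : ℝ} (h0 : B 0 ≤ y) :
    ∀ n, y < B n → ∃ k, k < n ∧ B k ≤ y ∧ y < B (k + 1)
  | 0, h => absurd h (not_lt.2 h0)
  | n + 1, h => by
    rcases le_or_gt (B n) y with g | g
    · exact ⟨n, by omega, g, h⟩
    · obtain ⟨k, h1, h2⟩ := findR_Prim B h0 n g
      exact ⟨k, by omega, h2⟩

/-- the inequality on a closed rectangle -/
def Rect_Prim (M : ℝ) (H : ℝ → ℝ) (p : ℕ → ℝ) (k l : ℕ) : Prop :=
  ∀ w u, W_Prim p k ≤ w → w ≤ W_Prim p (k + 1) → W_Prim p l ≤ u → u ≤ W_Prim p (l + 1) →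
    (M + 1) * H ((w + u) / 2) ≤ H w + M * H u

theorem fence_Prim (h : HH_Prim H p c d)
    (hR : ∀ k, k < 22 → ∀ l, l < 44 → k ≤ l → l ≤ k + 22 →
      d (ty_Prim k) ≤ M * d (ty_Prim l) ∨ Rect_Prim M H p k l)
    (x t : ℝ) (h0 : 0 ≤ t) (h1 : t ≤ π) : (M + 1) * H x ≤ H (x - t) + M * H (x + t) := by
  have hc := h.cont
  have key : Set.Icc 0 π ⊆ {t | (M + 1) * H x ≤ H (x - t) + M * H (x + t)} := by
    refine IsClosed.Icc_subset_of_forall_exists_gt
      ((isClosed_le (by fun_prop) (by fun_prop)).inter isClosed_Icc)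
      (show (M + 1) * H x ≤ H (x - 0) + M * H (x + 0) by rw [sub_zero, add_zero]; linarith) ?_
    rintro t ⟨ht, t0, t1⟩ y hy
    have ht' : (M + 1) * H x ≤ H (x - t) + M * H (x + t) := ht
    have hy' : t < y := hy
    obtain ⟨n, n1, n2⟩ := exists_red (W_Prim p 0) (x - t)
    have s0 : W_Prim p 22 = W_Prim p 0 + 2 * π := by
      rw [← h.p12]
      exact shift_Prim p (k := 0) (by omega)
    have s1 : W_Prim p 44 = W_Prim p 22 + 2 * π := by
      rw [← h.p12]
      exact shift_Prim p (k := 22) le_rfl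
    obtain ⟨k, k0, k1, k2⟩ := findL_Prim (W_Prim p) n1 22 (by rw [s0]; exact n2)
    obtain ⟨l, l0, l1, l2⟩ := findR_Prim (W_Prim p) (y := x + t - n * (2 * π)) (by linarith) 44
      (by rw [s1, s0]; linarith)
    have kl : k ≤ l := by
      by_contra g
      linarith [le_Prim h (show l + 1 ≤ k by omega) (by omega)]
    have lk : l ≤ k + 22 := by
      by_contra g
      have e := shift_Prim p (show k + 1 ≤ 22 by omega)
      rw [h.p12] at e
      linarith [le_Prim h (show k + 1 + 22 ≤ l by omega) (by omega)]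
    obtain ⟨δ, δ0, δ1, δ2, δ3⟩ : ∃ δ : ℝ, 0 < δ ∧ δ ≤ y - t ∧
        δ ≤ x - t - n * (2 * π) - W_Prim p k ∧ δ ≤ W_Prim p (l + 1) - (x + t - n * (2 * π)) :=
      ⟨min (y - t) (min (x - t - n * (2 * π) - W_Prim p k)
        (W_Prim p (l + 1) - (x + t - n * (2 * π)))),
        lt_min (by linarith) (lt_min (by linarith) (by linarith)), min_le_left _ _,
        (min_le_right _ _).trans (min_le_left _ _), (min_le_right _ _).trans (min_le_right _ _)⟩
    refine ⟨t + δ, ?_, by linarith, by linarith⟩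
    show (M + 1) * H x ≤ H (x - (t + δ)) + M * H (x + (t + δ))
    have z1 := perZ_Prim h n (x - (t + δ))
    have z2 := perZ_Prim h n (x + (t + δ))
    rcases hR k k0 l l0 kl lk with g | g
    · have z3 := perZ_Prim h n (x - t)
      have z4 := perZ_Prim h n (x + t)
      rw [pc_Prim h (k := k) (by omega) (by linarith) (by linarith)] at z1 z3
      rw [pc_Prim h l0 (by linarith) (by linarith)] at z2 z4
      have z5 := mul_le_mul_of_nonneg_right g δ0.le
      have z6 : H (x - (t + δ)) = H (x - t) - d (ty_Prim k) * δ := by linarith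
      have z7 : H (x + (t + δ)) = H (x + t) + d (ty_Prim l) * δ := by linarith
      rw [z6, z7]
      linarith
    · have z3 := g (x - (t + δ) - n * (2 * π)) (x + (t + δ) - n * (2 * π)) (by linarith)
        (by linarith) (by linarith) (by linarith)
      rw [show (x - (t + δ) - n * (2 * π) + (x + (t + δ) - n * (2 * π))) / 2 = x - n * (2 * π) by
        ring, z1, z2, perZ_Prim h] at z3
      linarith
  exact key ⟨h0, h1⟩

/-- affine lower bound of the right side minus the left side, at the double abscissa `y` -/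
noncomputable def fR_Prim (M : ℝ) (p c d : ℕ → ℝ) (k l m : ℕ) (sd : Bool) (y : ℝ) : ℝ :=
  (if sd then W_Prim c k + M * (W_Prim c l + d (ty_Prim l) * (y - W_Prim p k - W_Prim p l))
    else W_Prim c k + d (ty_Prim k) * (y - W_Prim p k - W_Prim p (l + 1)) +
      M * (W_Prim c l + d (ty_Prim l) * (W_Prim p (l + 1) - W_Prim p l))) -
    (M + 1) * (W_Prim c m + d (ty_Prim m) * (y / 2 - W_Prim p m))

theorem aff_Prim {f0 f f1 y0 y y1 β : ℝ} (a0 : 0 ≤ f0) (a1 : 0 ≤ f1) (b0 : y0 ≤ y) (b1 : y ≤ y1)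
    (e0 : f = f0 + β * (y - y0)) (e1 : f = f1 + -β * (y1 - y)) : 0 ≤ f := by
  rcases le_total 0 β with g | g
  · rw [e0]
    exact add_nonneg a0 (mul_nonneg g (sub_nonneg.2 b0))
  · rw [e1]
    exact add_nonneg a1 (mul_nonneg (neg_nonneg.2 g) (sub_nonneg.2 b1))

theorem seg_Prim (h : HH_Prim H p c d) {k l m : ℕ} (hk : k < 44) (hl : l < 44) (hm : m < 44)
    (hb : M * d (ty_Prim l) ≤ d (ty_Prim k)) {sd : Bool} {y0 y1 w u : ℝ}
    (m0 : W_Prim p m + W_Prim p m ≤ y0) (m1 : y1 ≤ W_Prim p (m + 1) + W_Prim p (m + 1))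
    (f0 : 0 ≤ fR_Prim M p c d k l m sd y0) (f1 : 0 ≤ fR_Prim M p c d k l m sd y1)
    (w0 : W_Prim p k ≤ w) (w1 : w ≤ W_Prim p (k + 1)) (u0 : W_Prim p l ≤ u)
    (u1 : u ≤ W_Prim p (l + 1)) (a0 : y0 ≤ w + u) (a1 : w + u ≤ y1) :
    (M + 1) * H ((w + u) / 2) ≤ H w + M * H u := by
  rw [pc_Prim h hk w0 w1, pc_Prim h hl u0 u1, pc_Prim h hm (by linarith) (by linarith)]
  cases sd
  · have e : 0 ≤ fR_Prim M p c d k l m false (w + u) :=
      aff_Prim (β := d (ty_Prim k) - (M + 1) * d (ty_Prim m) / 2) f0 f1 a0 a1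
        (by simp only [fR_Prim, Bool.false_eq_true, if_false]; ring)
        (by simp only [fR_Prim, Bool.false_eq_true, if_false]; ring)
    simp only [fR_Prim, Bool.false_eq_true, if_false] at e
    nlinarith [mul_nonneg (sub_nonneg.2 hb) (sub_nonneg.2 u1)]
  · have e : 0 ≤ fR_Prim M p c d k l m true (w + u) :=
      aff_Prim (β := M * d (ty_Prim l) - (M + 1) * d (ty_Prim m) / 2) f0 f1 a0 a1
        (by simp only [fR_Prim, if_true]; ring) (by simp only [fR_Prim, if_true]; ring)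
    simp only [fR_Prim, if_true] at e
    nlinarith [mul_nonneg (sub_nonneg.2 hb) (sub_nonneg.2 w0)]

end Pool.Agent.MP_e5b4ec_an.Mid
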