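import Pool.Agent.MP_e5b4ec_an.Mid.HsL
import Pool.Agent.MP_e5b4ec_an.Mid.Ex
import Pool.Agent.MP_e5b4ec_an.Mid.PrimA

open Real

namespace Pool.Agent.MP_e5b4ec_an.Mid

def dsP : List Ex := [
  .inv (.v 0),
  .mul (.q 1 2) (.add (.v 0) (.q 1 1)),
  .inv (.v 23),
  .mul (.q 1 2) (.add (.q 1 1) (.v 22)),
  .mul (.v 21) (.v 24),
  .mul (.v 24) (.v 24),
  .mul (.v 25) (.v 22),
  .mul (.v 24) (.v 22),
  .mul (.v 21) (.v 22),
  .mul (.v 0) (.v 26),
  .mul (.v 0) (.v 27),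
  .mul (.v 23) (.v 25),
  .mul (.v 23) (.v 21),
  .mul (.v 25) (.v 25),
  .mul (.v 21) (.v 25),
  .mul (.q 2 1) .pi,
  .v 10,
  .add (.v 38) (.mul (.v 25) (.sub (.v 11) (.v 10))),
  .add (.v 39) (.mul (.v 24) (.sub (.v 12) (.v 11))),
  .add (.v 40) (.mul (.v 21) (.sub (.v 13) (.v 12))),
  .add (.v 41) (.mul (.v 26) (.sub (.v 14) (.v 13))),
  .add (.v 42) (.mul (.v 27) (.sub (.v 15) (.v 14))),
  .add (.v 43) (.mul (.v 22) (.sub (.v 16) (.v 15))),
  .add (.v 44) (.mul (.v 24) (.sub (.v 17) (.v 16))),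
  .add (.v 45) (.mul (.v 22) (.sub (.v 18) (.v 17))),
  .add (.v 46) (.mul (.v 28) (.sub (.v 19) (.v 18))),
  .add (.v 47) (.mul (.v 29) (.sub (.v 20) (.v 19))),
  .add (.v 48) (.mul (.v 30) (.sub .pi (.v 20))),
  .mul (.v 0) (.v 38),
  .mul (.v 0) (.v 39),
  .mul (.v 0) (.v 40),
  .mul (.v 0) (.v 41),
  .mul (.v 0) (.v 42),
  .mul (.v 0) (.v 43),
  .mul (.v 0) (.v 44),
  .mul (.v 0) (.v 45),
  .mul (.v 0) (.v 46),
  .mul (.v 0) (.v 47),
  .mul (.v 0) (.v 48),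
  .mul (.v 0) (.v 49),
  .sub (.q 0 1) (.add (.v 50) (.v 38)),
  .add (.v 50) (.v 38),
  .add (.v 51) (.v 39),
  .add (.v 52) (.v 40),
  .add (.v 53) (.v 41),
  .add (.v 54) (.v 42),
  .add (.v 55) (.v 43),
  .add (.v 56) (.v 44),
  .add (.v 57) (.v 45),
  .add (.v 58) (.v 46),
  .add (.v 59) (.v 47),
  .add (.v 60) (.v 48),
  .sub (.mul (.q 2 1) (.add (.v 61) (.v 49))) (.v 73),
  .sub (.q 0 1) (.v 17),
  .sub (.q 0 1) (.v 16),
  .sub (.q 0 1) (.v 15),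
  .sub (.q 0 1) (.v 14),
  .sub (.q 0 1) (.v 13),
  .sub (.q 0 1) (.v 12),
  .sub (.q 0 1) (.v 11),
  .sub (.q 0 1) (.v 10),
  .sub (.v 37) (.v 20),
  .sub (.v 37) (.v 19),
  .sub (.v 37) (.v 18),
  .sub (.v 37) (.v 17),
  .sub (.v 37) (.v 16),
  .sub (.v 37) (.v 15),
  .sub (.v 37) (.v 14),
  .sub (.v 37) (.v 13),
  .sub (.q 0 1) (.v 45),
  .sub (.q 0 1) (.v 44),
  .sub (.q 0 1) (.v 43),
  .sub (.q 0 1) (.v 42),
  .sub (.q 0 1) (.v 41),
  .sub (.q 0 1) (.v 40),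
  .sub (.q 0 1) (.v 39),
  .sub (.q 0 1) (.v 38),
  .mul (.q 2 1) (.v 61),
  .sub (.v 99) (.v 60),
  .sub (.v 99) (.v 59),
  .sub (.v 99) (.v 58),
  .sub (.v 99) (.v 57),
  .sub (.v 99) (.v 56),
  .sub (.v 99) (.v 55),
  .sub (.v 99) (.v 54),
  .sub (.v 99) (.v 53)]

def csP : List Ex := [
  .sub (.mul (.v 0) (.q 1 1)) (.q 1 1),
  .sub (.mul (.v 0) (.v 25)) (.q 1 1),
  .sub (.mul (.v 0) (.v 24)) (.q 1 1),
  .sub (.mul (.v 0) (.v 21)) (.q 1 1),
  .sub (.v 21) (.v 26),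
  .sub (.v 31) (.v 24),
  .sub (.v 21) (.v 27),
  .sub (.v 32) (.v 25),
  .sub (.v 21) (.v 22),
  .sub (.v 21) (.v 28),
  .sub (.v 21) (.v 29),
  .sub (.v 21) (.v 30),
  .sub (.q 1 1) (.v 25),
  .sub (.v 25) (.v 24),
  .sub (.v 24) (.v 21),
  .sub (.add (.v 75) (.v 20)) (.add (.v 82) (.v 82)),
  .sub (.add (.add (.v 91) (.mul (.v 24) (.sub (.add (.v 82) (.v 82)) (.add (.v 75) (.v 83))))) (.v
    100)) (.v 62),
  .sub (.add (.add (.v 91) (.mul (.v 24) (.sub (.add (.v 10) (.v 10)) (.add (.v 75) (.v 83))))) (.v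
    100)) (.v 63),
  .sub (.add (.add (.v 91) (.mul (.v 24) (.sub (.add (.v 11) (.v 11)) (.add (.v 75) (.v 83))))) (.v
    100)) (.v 64),
  .sub (.add (.add (.v 91) (.mul (.v 24) (.sub (.add (.v 12) (.v 12)) (.add (.v 75) (.v 83))))) (.v
    100)) (.v 65),
  .sub (.add (.v 13) (.v 13)) (.add (.v 76) (.v 83)),
  .sub (.add (.v 92) (.v 100)) (.add (.v 65) (.mul (.v 34) (.sub (.add (.v 76) (.v 83)) (.add (.v
    12) (.v 12))))),
  .sub (.add (.v 15) (.v 15)) (.add (.v 81) (.v 83)),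
  .sub (.add (.v 80) (.v 20)) (.add (.v 11) (.v 11)),
  .sub (.add (.v 96) (.v 60)) (.add (.v 64) (.mul (.q 1 1) (.sub (.add (.v 80) (.v 20)) (.add (.v
    11) (.v 11))))),
  .sub (.add (.v 96) (.add (.v 60) (.mul (.v 21) (.sub (.add (.v 12) (.v 12)) (.add (.v 80) (.v
    20)))))) (.v 65),
  .sub (.add (.v 81) (.v 13)) (.add (.v 82) (.v 82)),
  .add (.sub (.add (.v 10) (.v 10)) (.add (.v 82) (.v 14))) (.mul (.q 8 1) (.sub (.v 31) (.v 25))),
  .sub (.add (.add (.v 97) (.mul (.v 25) (.sub (.add (.v 82) (.v 82)) (.add (.v 81) (.v 14))))) (.v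
    54)) (.v 62),
  .sub (.add (.v 98) (.v 54)) (.add (.v 62) (.mul (.v 23) (.sub (.add (.v 82) (.v 14)) (.add (.v 82)
    (.v 82))))),
  .sub (.add (.v 81) (.v 19)) (.add (.v 12) (.v 12)),
  .sub (.add (.v 14) (.v 14)) (.add (.v 82) (.v 20)),
  .sub (.add (.add (.v 97) (.mul (.v 25) (.sub (.add (.v 12) (.v 12)) (.add (.v 81) (.v 20))))) (.v
    60)) (.v 65),
  .sub (.add (.add (.v 97) (.mul (.v 25) (.sub (.add (.v 13) (.v 13)) (.add (.v 81) (.v 20))))) (.v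
    60)) (.v 66),
  .sub (.add (.add (.v 97) (.mul (.v 25) (.sub (.add (.v 14) (.v 14)) (.add (.v 81) (.v 20))))) (.v
    60)) (.v 67),
  .sub (.add (.v 15) (.v 15)) (.add (.v 82) (.v 83)),
  .sub (.add (.v 81) (.v 20)) (.add (.v 12) (.v 12)),
  .sub (.add (.v 97) (.v 60)) (.add (.v 65) (.mul (.v 34) (.sub (.add (.v 81) (.v 20)) (.add (.v 12)
    (.v 12))))),
  .sub (.add (.v 97) (.add (.v 60) (.mul (.v 21) (.sub (.add (.v 13) (.v 13)) (.add (.v 81) (.v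
    20)))))) (.v 66),
  .sub (.add (.v 97) (.add (.v 60) (.mul (.v 21) (.sub (.add (.v 14) (.v 14)) (.add (.v 81) (.v
    20)))))) (.v 67),
  .sub (.add (.v 81) (.v 83)) (.add (.v 14) (.v 14)),
  .sub (.add (.add (.v 97) (.mul (.v 25) (.sub (.add (.v 15) (.v 15)) (.add (.v 81) (.v 83))))) (.v
    100)) (.v 68),
  .sub (.add (.v 16) (.v 16)) (.add (.v 82) (.v 84)),
  .sub (.add (.v 81) (.v 89)) (.add (.v 17) (.v 17)),
  .sub (.add (.add (.v 97) (.mul (.v 25) (.sub (.add (.v 17) (.v 17)) (.add (.v 81) (.v 90))))) (.v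
    107)) (.v 70),
  .sub (.add (.add (.v 97) (.mul (.v 25) (.sub (.add (.v 18) (.v 18)) (.add (.v 81) (.v 90))))) (.v
    107)) (.v 71),
  .sub (.add (.add (.v 97) (.mul (.v 25) (.sub (.add (.v 19) (.v 19)) (.add (.v 81) (.v 90))))) (.v
    107)) (.v 72),
  .sub (.add (.v 20) (.v 20)) (.add (.v 82) (.v 90)),
  .sub (.add (.v 98) (.v 107)) (.add (.v 72) (.mul (.v 22) (.sub (.add (.v 82) (.v 90)) (.add (.v
    19) (.v 19))))),
  .sub (.add (.add (.v 98) (.mul (.q 1 1) (.sub (.add (.v 82) (.v 82)) (.add (.v 82) (.v 14))))) (.v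
    54)) (.v 62),
  .sub (.add (.add (.v 98) (.mul (.q 1 1) (.sub (.add (.v 10) (.v 10)) (.add (.v 82) (.v 14))))) (.v
    54)) (.v 63),
  .sub (.add (.add (.v 98) (.mul (.q 1 1) (.sub (.add (.v 11) (.v 11)) (.add (.v 82) (.v 14))))) (.v
    54)) (.v 64),
  .sub (.add (.add (.v 98) (.mul (.q 1 1) (.sub (.add (.v 12) (.v 12)) (.add (.v 82) (.v 14))))) (.v
    54)) (.v 65),
  .sub (.add (.v 13) (.v 13)) (.add (.v 10) (.v 14)),
  .sub (.add (.v 38) (.v 54)) (.add (.v 65) (.mul (.v 34) (.sub (.add (.v 10) (.v 14)) (.add (.v 12)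
    (.v 12))))),
  .sub (.add (.add (.v 98) (.mul (.q 1 1) (.sub (.add (.v 82) (.v 82)) (.add (.v 82) (.v 15))))) (.v
    55)) (.v 62),
  .sub (.add (.add (.v 98) (.mul (.q 1 1) (.sub (.add (.v 10) (.v 10)) (.add (.v 82) (.v 15))))) (.v
    55)) (.v 63),
  .sub (.add (.add (.v 98) (.mul (.q 1 1) (.sub (.add (.v 13) (.v 13)) (.add (.v 82) (.v 15))))) (.v
    55)) (.v 66),
  .sub (.add (.v 14) (.v 14)) (.add (.v 10) (.v 15)),
  .sub (.add (.v 38) (.v 55)) (.add (.v 66) (.mul (.v 21) (.sub (.add (.v 10) (.v 15)) (.add (.v 13)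
    (.v 13))))),
  .sub (.add (.v 82) (.v 18)) (.add (.v 12) (.v 12)),
  .sub (.add (.add (.v 98) (.mul (.q 1 1) (.sub (.add (.v 12) (.v 12)) (.add (.v 82) (.v 19))))) (.v
    59)) (.v 65),
  .sub (.add (.add (.v 98) (.mul (.q 1 1) (.sub (.add (.v 13) (.v 13)) (.add (.v 82) (.v 19))))) (.v
    59)) (.v 66),
  .sub (.add (.add (.v 98) (.mul (.q 1 1) (.sub (.add (.v 14) (.v 14)) (.add (.v 82) (.v 19))))) (.v
    59)) (.v 67),
  .sub (.add (.v 15) (.v 15)) (.add (.v 10) (.v 19)),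
  .sub (.add (.v 38) (.v 59)) (.add (.v 67) (.mul (.v 24) (.sub (.add (.v 10) (.v 19)) (.add (.v 14)
    (.v 14))))),
  .sub (.add (.v 15) (.v 15)) (.add (.v 10) (.v 20)),
  .sub (.add (.v 82) (.v 19)) (.add (.v 12) (.v 12)),
  .sub (.add (.v 98) (.v 59)) (.add (.v 65) (.mul (.v 34) (.sub (.add (.v 82) (.v 19)) (.add (.v 12)
    (.v 12))))),
  .sub (.add (.v 98) (.add (.v 59) (.mul (.v 24) (.sub (.add (.v 13) (.v 13)) (.add (.v 82) (.v
    19)))))) (.v 66),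
  .sub (.add (.v 98) (.add (.v 59) (.mul (.v 24) (.sub (.add (.v 14) (.v 14)) (.add (.v 82) (.v
    19)))))) (.v 67),
  .sub (.add (.v 98) (.add (.v 59) (.mul (.v 24) (.sub (.add (.v 15) (.v 15)) (.add (.v 82) (.v
    19)))))) (.v 68),
  .sub (.add (.v 82) (.v 20)) (.add (.v 12) (.v 12)),
  .sub (.add (.v 98) (.v 60)) (.add (.v 65) (.mul (.v 34) (.sub (.add (.v 82) (.v 20)) (.add (.v 12)
    (.v 12))))),
  .sub (.add (.v 98) (.add (.v 60) (.mul (.v 21) (.sub (.add (.v 13) (.v 13)) (.add (.v 82) (.v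
    20)))))) (.v 66),
  .sub (.add (.v 98) (.add (.v 60) (.mul (.v 21) (.sub (.add (.v 14) (.v 14)) (.add (.v 82) (.v
    20)))))) (.v 67),
  .sub (.add (.v 98) (.v 100)) (.add (.v 67) (.mul (.v 24) (.sub (.add (.v 82) (.v 83)) (.add (.v
    14) (.v 14))))),
  .sub (.add (.v 82) (.v 83)) (.add (.v 14) (.v 14)),
  .sub (.add (.add (.v 98) (.mul (.q 1 1) (.sub (.add (.v 15) (.v 15)) (.add (.v 82) (.v 83))))) (.v
    100)) (.v 68),
  .sub (.add (.add (.v 98) (.mul (.q 1 1) (.sub (.add (.v 16) (.v 16)) (.add (.v 82) (.v 83))))) (.v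
    100)) (.v 69),
  .sub (.add (.add (.v 98) (.mul (.q 1 1) (.sub (.add (.v 17) (.v 17)) (.add (.v 82) (.v 83))))) (.v
    100)) (.v 70),
  .sub (.add (.v 18) (.v 18)) (.add (.v 10) (.v 83)),
  .sub (.add (.v 38) (.v 100)) (.add (.v 70) (.mul (.v 25) (.sub (.add (.v 10) (.v 83)) (.add (.v
    17) (.v 17))))),
  .sub (.add (.v 19) (.v 19)) (.add (.v 10) (.v 84)),
  .sub (.add (.v 98) (.add (.v 100) (.mul (.v 24) (.sub (.add (.v 15) (.v 15)) (.add (.v 82) (.v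
    83)))))) (.v 68),
  .sub (.add (.v 82) (.v 84)) (.add (.v 15) (.v 15)),
  .sub (.add (.add (.v 98) (.mul (.q 1 1) (.sub (.add (.v 16) (.v 16)) (.add (.v 82) (.v 84))))) (.v
    101)) (.v 69),
  .sub (.add (.add (.v 98) (.mul (.q 1 1) (.sub (.add (.v 17) (.v 17)) (.add (.v 82) (.v 84))))) (.v
    101)) (.v 70),
  .sub (.add (.add (.v 98) (.mul (.q 1 1) (.sub (.add (.v 18) (.v 18)) (.add (.v 82) (.v 84))))) (.v
    101)) (.v 71),
  .sub (.add (.add (.v 98) (.mul (.q 1 1) (.sub (.add (.v 19) (.v 19)) (.add (.v 82) (.v 84))))) (.v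
    101)) (.v 72),
  .sub (.add (.v 19) (.v 19)) (.add (.v 10) (.v 85)),
  .sub (.add (.add (.v 98) (.mul (.q 1 1) (.sub (.add (.v 18) (.v 18)) (.add (.v 82) (.v 85))))) (.v
    102)) (.v 71),
  .sub (.add (.add (.v 98) (.mul (.q 1 1) (.sub (.add (.v 19) (.v 19)) (.add (.v 82) (.v 85))))) (.v
    102)) (.v 72),
  .sub (.add (.v 82) (.v 88)) (.add (.v 16) (.v 16)),
  .sub (.add (.v 83) (.v 83)) (.add (.v 10) (.v 89)),
  .sub (.add (.v 98) (.add (.v 105) (.mul (.v 32) (.sub (.add (.v 16) (.v 16)) (.add (.v 82) (.v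
    88)))))) (.v 69),
  .sub (.add (.v 98) (.add (.v 105) (.mul (.v 32) (.sub (.add (.v 17) (.v 17)) (.add (.v 82) (.v
    88)))))) (.v 70),
  .sub (.add (.v 98) (.add (.v 105) (.mul (.v 32) (.sub (.add (.v 18) (.v 18)) (.add (.v 82) (.v
    88)))))) (.v 71),
  .sub (.add (.v 98) (.add (.v 105) (.mul (.v 32) (.sub (.add (.v 19) (.v 19)) (.add (.v 82) (.v
    88)))))) (.v 72),
  .sub (.add (.v 98) (.add (.v 105) (.mul (.v 32) (.sub (.add (.v 20) (.v 20)) (.add (.v 82) (.v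
    88)))))) (.v 73),
  .sub (.add (.v 98) (.add (.v 105) (.mul (.v 32) (.sub (.add (.v 83) (.v 83)) (.add (.v 82) (.v
    88)))))) (.v 74),
  .sub (.add (.v 83) (.v 83)) (.add (.v 10) (.v 90)),
  .sub (.add (.v 82) (.v 89)) (.add (.v 17) (.v 17)),
  .sub (.add (.v 98) (.v 106)) (.add (.v 70) (.mul (.v 25) (.sub (.add (.v 82) (.v 89)) (.add (.v
    17) (.v 17))))),
  .sub (.add (.v 98) (.add (.v 106) (.mul (.v 31) (.sub (.add (.v 18) (.v 18)) (.add (.v 82) (.v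
    89)))))) (.v 71),
  .sub (.add (.v 98) (.add (.v 106) (.mul (.v 31) (.sub (.add (.v 19) (.v 19)) (.add (.v 82) (.v
    89)))))) (.v 72),
  .sub (.add (.v 98) (.add (.v 106) (.mul (.v 31) (.sub (.add (.v 20) (.v 20)) (.add (.v 82) (.v
    89)))))) (.v 73),
  .sub (.add (.v 98) (.add (.v 106) (.mul (.v 31) (.sub (.add (.v 83) (.v 83)) (.add (.v 82) (.v
    89)))))) (.v 74),
  .sub (.add (.v 10) (.v 13)) (.add (.v 11) (.v 11)),
  .sub (.add (.add (.v 38) (.mul (.v 25) (.sub (.add (.v 11) (.v 11)) (.add (.v 10) (.v 14))))) (.v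
    54)) (.v 64),
  .sub (.add (.add (.v 38) (.mul (.v 25) (.sub (.add (.v 12) (.v 12)) (.add (.v 10) (.v 14))))) (.v
    54)) (.v 65),
  .sub (.add (.add (.v 38) (.mul (.v 25) (.sub (.add (.v 13) (.v 13)) (.add (.v 10) (.v 14))))) (.v
    54)) (.v 66),
  .sub (.add (.add (.v 38) (.mul (.v 25) (.sub (.add (.v 14) (.v 14)) (.add (.v 10) (.v 14))))) (.v
    54)) (.v 67),
  .sub (.add (.v 10) (.v 19)) (.add (.v 13) (.v 13)),
  .sub (.add (.add (.v 38) (.mul (.v 25) (.sub (.add (.v 13) (.v 13)) (.add (.v 10) (.v 20))))) (.v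
    60)) (.v 66),
  .sub (.add (.add (.v 38) (.mul (.v 25) (.sub (.add (.v 14) (.v 14)) (.add (.v 10) (.v 20))))) (.v
    60)) (.v 67),
  .sub (.add (.add (.v 38) (.mul (.v 25) (.sub (.add (.v 15) (.v 15)) (.add (.v 10) (.v 20))))) (.v
    60)) (.v 68),
  .sub (.add (.v 16) (.v 16)) (.add (.v 11) (.v 20)),
  .sub (.add (.v 39) (.v 60)) (.add (.v 68) (.mul (.v 25) (.sub (.add (.v 11) (.v 20)) (.add (.v 15)
    (.v 15))))),
  .sub (.add (.v 10) (.v 20)) (.add (.v 14) (.v 14)),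
  .sub (.add (.add (.v 38) (.mul (.v 25) (.sub (.add (.v 14) (.v 14)) (.add (.v 10) (.v 83))))) (.v
    100)) (.v 67),
  .sub (.add (.add (.v 38) (.mul (.v 25) (.sub (.add (.v 15) (.v 15)) (.add (.v 10) (.v 83))))) (.v
    100)) (.v 68),
  .sub (.add (.add (.v 38) (.mul (.v 25) (.sub (.add (.v 16) (.v 16)) (.add (.v 10) (.v 83))))) (.v
    100)) (.v 69),
  .sub (.add (.add (.v 38) (.mul (.v 25) (.sub (.add (.v 17) (.v 17)) (.add (.v 10) (.v 83))))) (.v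
    100)) (.v 70),
  .sub (.add (.v 18) (.v 18)) (.add (.v 11) (.v 83)),
  .sub (.add (.v 39) (.v 100)) (.add (.v 70) (.mul (.v 25) (.sub (.add (.v 11) (.v 83)) (.add (.v
    17) (.v 17))))),
  .sub (.add (.v 10) (.v 83)) (.add (.v 17) (.v 17)),
  .sub (.add (.v 19) (.v 19)) (.add (.v 11) (.v 84)),
  .sub (.add (.add (.v 38) (.mul (.v 25) (.sub (.add (.v 17) (.v 17)) (.add (.v 10) (.v 84))))) (.v
    101)) (.v 70),
  .sub (.add (.add (.v 38) (.mul (.v 25) (.sub (.add (.v 18) (.v 18)) (.add (.v 10) (.v 84))))) (.v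
    101)) (.v 71),
  .sub (.add (.add (.v 38) (.mul (.v 25) (.sub (.add (.v 19) (.v 19)) (.add (.v 10) (.v 84))))) (.v
    101)) (.v 72),
  .sub (.add (.v 10) (.v 89)) (.add (.v 20) (.v 20)),
  .sub (.add (.v 83) (.v 83)) (.add (.v 11) (.v 90)),
  .sub (.add (.add (.v 38) (.mul (.v 25) (.sub (.add (.v 20) (.v 20)) (.add (.v 10) (.v 90))))) (.v
    107)) (.v 73),
  .sub (.add (.v 39) (.v 107)) (.add (.v 73) (.mul (.v 36) (.sub (.add (.v 11) (.v 90)) (.add (.v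
    20) (.v 20))))),
  .sub (.add (.v 11) (.v 20)) (.add (.v 14) (.v 14)),
  .sub (.add (.v 19) (.v 19)) (.add (.v 12) (.v 83)),
  .sub (.add (.add (.v 39) (.mul (.v 24) (.sub (.add (.v 14) (.v 14)) (.add (.v 11) (.v 83))))) (.v
    100)) (.v 67),
  .sub (.add (.add (.v 39) (.mul (.v 24) (.sub (.add (.v 15) (.v 15)) (.add (.v 11) (.v 83))))) (.v
    100)) (.v 68),
  .sub (.add (.add (.v 39) (.mul (.v 24) (.sub (.add (.v 16) (.v 16)) (.add (.v 11) (.v 83))))) (.v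
    100)) (.v 69),
  .sub (.add (.add (.v 39) (.mul (.v 24) (.sub (.add (.v 17) (.v 17)) (.add (.v 11) (.v 83))))) (.v
    100)) (.v 70),
  .sub (.add (.add (.v 39) (.mul (.v 24) (.sub (.add (.v 18) (.v 18)) (.add (.v 11) (.v 83))))) (.v
    100)) (.v 71),
  .sub (.add (.add (.v 39) (.mul (.v 24) (.sub (.add (.v 19) (.v 19)) (.add (.v 11) (.v 83))))) (.v
    100)) (.v 72),
  .sub (.add (.v 16) (.v 20)) (.add (.v 17) (.v 17)),
  .sub (.add (.v 44) (.v 60)) (.add (.v 70) (.mul (.v 25) (.sub (.add (.v 16) (.v 20)) (.add (.v 17)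
    (.v 17))))),
  .sub (.add (.v 44) (.add (.v 60) (.mul (.v 21) (.sub (.add (.v 18) (.v 18)) (.add (.v 16) (.v
    20)))))) (.v 71),
  .sub (.add (.v 44) (.add (.v 60) (.mul (.v 21) (.sub (.add (.v 19) (.v 19)) (.add (.v 16) (.v
    20)))))) (.v 72),
  .sub (.add (.v 44) (.add (.v 60) (.mul (.v 21) (.sub (.add (.v 20) (.v 20)) (.add (.v 16) (.v
    20)))))) (.v 73),
  .sub (.add (.v 44) (.add (.v 60) (.mul (.v 21) (.sub (.add (.v 83) (.v 83)) (.add (.v 16) (.v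
    20)))))) (.v 74)]

theorem dsP_lt : ltAll 22 dsP = true := by
  decide +kernel

/-- slopes -/
def Dt_Prim : ℕ → Ex
  | 0 => .q 1 1
  | 1 => .v 25
  | 2 => .v 24
  | 3 => .v 21
  | 4 => .v 26
  | 5 => .v 27
  | 6 => .v 22
  | 7 => .v 24
  | 8 => .v 22
  | 9 => .v 28
  | 10 => .v 29
  | _ => .v 30

/-- slopes times `M` -/
def MDt_Prim : ℕ → Ex
  | 4 => .v 31
  | 5 => .v 32
  | 6 => .q 1 1
  | 8 => .q 1 1
  | 9 => .v 25
  | 10 => .v 24
  | 11 => .v 21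
  | j => .mul (.v 0) (Dt_Prim j)

/-- slopes times one half of `M + 1` -/
def ADt_Prim : ℕ → Ex
  | 0 => .v 23
  | 1 => .v 33
  | 2 => .q 1 1
  | 3 => .v 34
  | 4 => .v 21
  | 5 => .v 24
  | 6 => .v 25
  | 7 => .q 1 1
  | 8 => .v 25
  | 9 => .v 35
  | 10 => .v 22
  | _ => .v 36

def Bx_Prim (k : ℕ) : Ex :=
  if k ≤ 10 then .v (72 + k) else if k ≤ 21 then .v (k - 1) else .v (61 + k)

def Cx_Prim (k : ℕ) : Ex := if k ≤ 10 then .v (88 + k) else .v (27 + k)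

def MCx_Prim (k : ℕ) : Ex := if k ≤ 21 then .v (39 + k) else .v (78 + k)

def NCx_Prim (k : ℕ) : Ex := .v (52 + k)

def pX_Prim (i j a b : ℕ) : Ex :=
  .sub (.add (Bx_Prim i) (Bx_Prim j)) (.add (Bx_Prim a) (Bx_Prim b))

def fX_Prim (k l m : ℕ) (sd : Bool) (i j : ℕ) : Ex :=
  .sub
    (if sd then .add (Cx_Prim k) (if i = k ∧ j = l then MCx_Prim l else
        if i = k ∧ j = l + 1 then MCx_Prim (l + 1) else
          .add (MCx_Prim l) (.mul (MDt_Prim (ty_Prim l)) (pX_Prim i j k l)))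
      else .add (if i = k ∧ j = l + 1 then Cx_Prim k else
        if i = k + 1 ∧ j = l + 1 then Cx_Prim (k + 1) else
          .add (Cx_Prim k) (.mul (Dt_Prim (ty_Prim k)) (pX_Prim i j k (l + 1)))) (MCx_Prim (l + 1)))
    (if i = m ∧ j = m then NCx_Prim m else if i = m + 1 ∧ j = m + 1 then NCx_Prim (m + 1) else
      .add (NCx_Prim m) (.mul (ADt_Prim (ty_Prim m)) (pX_Prim i j m m)))

def lam_Prim (k l : ℕ) : Ex := .mul (.q 8 1) (.sub (MDt_Prim (ty_Prim l)) (Dt_Prim (ty_Prim k)))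

/-- the conditions that hold with equality -/
def Z_Prim : List (ℕ × ℕ × ℕ × Bool × ℕ × ℕ) := [
  (8, 21, 13, true, 14, 14), (8, 21, 14, true, 14, 14), (8, 21, 14, true, 15, 15), (8, 21, 15,
  false, 15, 15), (8, 21, 15, false, 16, 16), (9, 21, 15, true, 9, 22), (9, 21, 15, false, 9, 22),
  (9, 22, 15, true, 9, 22), (9, 22, 15, true, 16, 16), (9, 22, 16, false, 16, 16), (9, 22, 16,
  false, 10, 23), (10, 15, 11, false, 12, 12), (10, 15, 12, false, 12, 12), (10, 15, 12, false, 13,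
  13), (10, 15, 13, false, 13, 13), (10, 22, 16, true, 10, 23), (10, 22, 16, false, 10, 23), (10,
  23, 16, true, 10, 23), (10, 23, 16, true, 17, 17), (10, 23, 17, false, 17, 17), (10, 23, 17,
  false, 18, 18), (10, 23, 18, false, 18, 18)]

/-- covers of the bad rectangles -/
def cert_Prim : List (ℕ × ℕ × ℕ × ℕ × List (ℕ × Bool × ℕ × ℕ)) := [
  (3, 21, 10, 10, [(10, false, 11, 11), (11, false, 12, 12), (12, false, 13, 13), (13, false, 4,
    22)]),
  (8, 21, 8, 21, [(12, true, 13, 13), (13, true, 14, 14), (14, true, 15, 15), (15, false, 16, 16)]),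
  (9, 14, 10, 10, [(10, false, 10, 15)]),
  (9, 20, 13, 13, [(13, false, 14, 14), (14, false, 15, 15)]),
  (9, 21, 9, 21, [(13, true, 14, 14), (14, true, 15, 15), (15, true, 9, 22), (15, false, 16, 16)]),
  (9, 22, 9, 22, [(15, true, 16, 16), (16, false, 10, 23)]),
  (9, 28, 18, 18, [(18, false, 19, 19), (19, false, 20, 20), (20, false, 10, 29)]),
  (10, 14, 10, 10, [(10, false, 11, 11), (11, false, 12, 12), (12, false, 13, 13), (13, false, 11,
    15)]),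
  (10, 15, 10, 10, [(10, false, 11, 11), (11, false, 12, 12), (12, false, 13, 13), (13, false, 14,
    14), (14, false, 11, 16)]),
  (10, 19, 13, 13, [(13, false, 14, 14), (14, false, 15, 15), (15, false, 11, 20)]),
  (10, 20, 10, 20, [(13, true, 14, 14), (14, true, 15, 15), (15, true, 16, 16)]),
  (10, 21, 10, 21, [(13, true, 14, 14), (14, true, 15, 15), (15, true, 10, 22), (15, false, 16, 16),
    (16, false, 17, 17), (17, false, 18, 18), (18, false, 11, 22)]),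
  (10, 22, 10, 22, [(15, true, 16, 16), (16, true, 10, 23), (16, false, 17, 17), (17, false, 18,
    18), (18, false, 19, 19), (19, false, 20, 20)]),
  (10, 23, 10, 23, [(16, true, 17, 17), (17, false, 18, 18), (18, false, 19, 19), (19, false, 20,
    20)]),
  (10, 27, 17, 17, [(17, true, 18, 18), (18, true, 19, 19), (19, true, 20, 20), (20, true, 21, 21),
    (21, true, 22, 22)]),
  (10, 28, 10, 28, [(18, true, 19, 19), (19, true, 20, 20), (20, true, 21, 21), (21, true, 22, 22)]),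
  (11, 14, 12, 12, [(12, false, 13, 13), (13, false, 14, 14), (14, false, 15, 15)]),
  (11, 20, 14, 14, [(14, false, 15, 15), (15, false, 16, 16), (16, false, 12, 21)]),
  (11, 21, 15, 15, [(15, false, 16, 16), (16, false, 17, 17), (17, false, 18, 18), (18, false, 12,
    22)]),
  (11, 22, 18, 18, [(18, false, 19, 19), (19, false, 20, 20)]),
  (11, 28, 21, 21, [(21, false, 12, 29)]),
  (12, 21, 15, 15, [(15, false, 16, 16), (16, false, 17, 17), (17, false, 18, 18), (18, false, 19,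
    19), (19, false, 20, 20)]),
  (17, 21, 17, 21, [(18, true, 19, 19), (19, true, 20, 20), (20, true, 21, 21), (21, true, 22, 22)])]

def okE_Prim (k l : ℕ) (e : Ex) : Bool :=
  decide (e ∈ csP) || decide (Ex.add e (lam_Prim k l) ∈ csP)

def okP_Prim (k l i j a b : ℕ) : Bool :=
  decide (a ≤ i ∧ b ≤ j) || okE_Prim k l (pX_Prim i j a b)

def okF_Prim (k l m : ℕ) (sd : Bool) (i j : ℕ) : Bool :=
  decide ((k, l, m, sd, i, j) ∈ Z_Prim) || okE_Prim k l (fX_Prim k l m sd i j)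

def chk_Prim (k l : ℕ) : ℕ → ℕ → List (ℕ × Bool × ℕ × ℕ) → Bool
  | _, _, [] => false
  | i, j, g :: r => decide (10 ≤ g.1 ∧ g.1 ≤ 21 ∧ 3 ≤ g.2.2.1 ∧ g.2.2.1 ≤ 29 ∧ 3 ≤ g.2.2.2 ∧
      g.2.2.2 ≤ 29) && okP_Prim k l i j g.1 g.1 &&
      okP_Prim k l (g.1 + 1) (g.1 + 1) g.2.2.1 g.2.2.2 &&
      okF_Prim k l g.1 g.2.1 i j && okF_Prim k l g.1 g.2.1 g.2.2.1 g.2.2.2 &&
      (chk_Prim k l g.2.2.1 g.2.2.2 r || okP_Prim k l g.2.2.1 g.2.2.2 (k + 1) (l + 1))

def val_Prim (e : ℕ × ℕ × ℕ × ℕ × List (ℕ × Bool × ℕ × ℕ)) : Bool :=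
  decide (3 ≤ e.1 ∧ e.1 ≤ 17 ∧ 14 ≤ e.2.1 ∧ e.2.1 ≤ 28 ∧ 3 ≤ e.2.2.1 ∧ e.2.2.1 ≤ 29 ∧
    3 ≤ e.2.2.2.1 ∧ e.2.2.2.1 ≤ 29) && okP_Prim e.1 e.2.1 e.1 e.2.1 e.2.2.1 e.2.2.2.1 &&
    chk_Prim e.1 e.2.1 e.2.2.1 e.2.2.2.1 e.2.2.2.2

def rw_Prim : ℕ → ℕ
  | 0 => 0
  | 1 => 1
  | 2 => 2
  | 7 => 2
  | _ => 3

def ru_Prim : ℕ → ℕ
  | 4 => 2
  | 5 => 1
  | 9 => 1
  | 10 => 2
  | 11 => 3
  | _ => 0

def okL_Prim (a b : Ex) : Bool := decide (a = b) || decide (Ex.sub b a ∈ csP)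

theorem cert_ok_Prim : cert_Prim.all val_Prim = true := by
  decide +kernel

theorem cover0_Prim : ∀ k, k < 22 → ∀ l, l < 44 → (decide (l < k ∨ k + 22 < l ∨
    ru_Prim (ty_Prim l) ≤ rw_Prim (ty_Prim k)) ||
      cert_Prim.any fun e => decide (e.1 = k ∧ e.2.1 = l)) = true := by
  decide +kernel

theorem cover_Prim (k : ℕ) (k0 : k < 22) (l : ℕ) (l0 : l < 44) (kl : k ≤ l) (lk : l ≤ k + 22) :
    ru_Prim (ty_Prim l) ≤ rw_Prim (ty_Prim k) ∨ ∃ e ∈ cert_Prim, e.1 = k ∧ e.2.1 = l := by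
  rcases Bool.or_eq_true_iff.1 (cover0_Prim k k0 l l0) with g | g
  · have := of_decide_eq_true g
    exact Or.inl (by omega)
  · obtain ⟨e, he, g'⟩ := List.any_eq_true.1 g
    exact Or.inr ⟨e, he, of_decide_eq_true g'⟩

theorem slope_Prim : (∀ j, j < 12 → rw_Prim j ≤ 3 ∧
    okL_Prim (Dt_Prim j) (Dt_Prim (rw_Prim j)) = true ∧
    okL_Prim (Dt_Prim (ru_Prim j)) (MDt_Prim j) = true) ∧
    ∀ r, r < 3 → okL_Prim (Dt_Prim (r + 1)) (Dt_Prim r) = true := by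
  decide +kernel

theorem tylt_Prim (k : ℕ) : ty_Prim k < 12 := by
  unfold ty_Prim
  split_ifs <;> omega

/-- the values of the registers -/
structure Sem_Prim (M : ℝ) (p c d K E : ℕ → ℝ) : Prop where
  B : ∀ k, 3 ≤ k → k ≤ 29 → (Bx_Prim k).ev K E = W_Prim p k
  C : ∀ k, 3 ≤ k → k ≤ 18 → (Cx_Prim k).ev K E = W_Prim c k
  MC : ∀ k, 14 ≤ k → k ≤ 29 → (MCx_Prim k).ev K E = M * W_Prim c k
  NC : ∀ k, 10 ≤ k → k ≤ 22 → (NCx_Prim k).ev K E = (M + 1) * W_Prim c k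
  D : ∀ j, j < 12 → (Dt_Prim j).ev K E = d j
  MD : ∀ j, j < 12 → (MDt_Prim j).ev K E = M * d j
  AD : ∀ j, j < 12 → (ADt_Prim j).ev K E = (M + 1) / 2 * d j
  Z : ∀ z ∈ Z_Prim, fR_Prim M p c d z.1 z.2.1 z.2.2.1 z.2.2.2.1
    (W_Prim p z.2.2.2.2.1 + W_Prim p z.2.2.2.2.2) = 0
  pos : ∀ e ∈ csP, 0 < e.ev K E

section
variable {H : ℝ → ℝ} {p c d K E : ℕ → ℝ} {M : ℝ}

theorem pos_Prim : ∀ {l : List Ex}, Pos K E l → ∀ e ∈ l, 0 < e.ev K E
  | [], _, _, he => absurd he List.not_mem_nil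
  | _ :: _, h, e, he => by
    rcases List.mem_cons.1 he with rfl | he
    · exact h.1
    · exact pos_Prim h.2 e he

theorem pX_ev_Prim (S : Sem_Prim M p c d K E) {i j a b : ℕ} (i0 : 3 ≤ i) (i1 : i ≤ 29)
    (j0 : 3 ≤ j) (j1 : j ≤ 29) (a0 : 3 ≤ a) (a1 : a ≤ 29) (b0 : 3 ≤ b) (b1 : b ≤ 29) :
    (pX_Prim i j a b).ev K E = W_Prim p i + W_Prim p j - (W_Prim p a + W_Prim p b) := by
  simp only [pX_Prim, Ex.ev, S.B i i0 i1, S.B j j0 j1, S.B a a0 a1, S.B b b0 b1]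

theorem fX_ev_Prim (h : HH_Prim H p c d) (S : Sem_Prim M p c d K E) {k l m i j : ℕ} (sd : Bool)
    (k0 : 3 ≤ k) (k1 : k ≤ 17) (l0 : 14 ≤ l) (l1 : l ≤ 28) (m0 : 10 ≤ m) (m1 : m ≤ 21)
    (i0 : 3 ≤ i) (i1 : i ≤ 29) (j0 : 3 ≤ j) (j1 : j ≤ 29) :
    (fX_Prim k l m sd i j).ev K E = fR_Prim M p c d k l m sd (W_Prim p i + W_Prim p j) := by
  have ck := rc_Prim h (show k < 43 by omega)
  have cl := rc_Prim h (show l < 43 by omega)
  have cm := rc_Prim h (show m < 43 by omega)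
  have e1 := S.C k k0 (by omega)
  have e2 := S.C (k + 1) (by omega) (by omega)
  have e3 := S.MC l l0 (by omega)
  have e4 := S.MC (l + 1) (by omega) (by omega)
  have e5 := S.NC m m0 (by omega)
  have e6 := S.NC (m + 1) (by omega) (by omega)
  have e7 := pX_ev_Prim S i0 i1 j0 j1 k0 (by omega) (show 3 ≤ l by omega) (by omega)
  have e8 := pX_ev_Prim S i0 i1 j0 j1 k0 (by omega) (show 3 ≤ l + 1 by omega) (by omega)
  have e9 := pX_ev_Prim S i0 i1 j0 j1 (show 3 ≤ m by omega) (by omega) (show 3 ≤ m by omega)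
    (by omega)
  unfold fX_Prim fR_Prim
  rw [Ex.ev]
  congr 1
  · cases sd
    · rw [if_neg Bool.false_ne_true, if_neg Bool.false_ne_true, Ex.ev, e4, cl]
      congr 1
      split_ifs with g g'
      · rw [e1, g.1, g.2]
        ring
      · rw [e2, g'.1, g'.2, ck]
        ring
      · rw [Ex.ev, Ex.ev, e1, e8, S.D _ (tylt_Prim k)]
        ring
    · rw [if_pos rfl, if_pos rfl, Ex.ev, e1]
      congr 1
      split_ifs with g g'
      · rw [e3, g.1, g.2]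
        ring
      · rw [e4, g'.1, g'.2, cl]
        ring
      · rw [Ex.ev, Ex.ev, e3, e7, S.MD _ (tylt_Prim l)]
        ring
  · split_ifs with g g'
    · rw [e5, g.1, g.2]
      ring
    · rw [e6, g'.1, g'.2, cm]
      ring
    · rw [Ex.ev, Ex.ev, e5, e9, S.AD _ (tylt_Prim m)]
      ring

theorem okE_sound_Prim (S : Sem_Prim M p c d K E) {k l : ℕ}
    (hb : M * d (ty_Prim l) ≤ d (ty_Prim k)) {e : Ex} (he : okE_Prim k l e = true) :
    0 ≤ e.ev K E := by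
  rcases Bool.or_eq_true_iff.1 he with g | g
  · exact (S.pos _ (of_decide_eq_true g)).le
  · have e1 := S.pos _ (of_decide_eq_true g)
    simp only [lam_Prim, Ex.ev, S.D _ (tylt_Prim k), S.MD _ (tylt_Prim l)] at e1
    push_cast at e1
    linarith

theorem okP_sound_Prim (h : HH_Prim H p c d) (S : Sem_Prim M p c d K E) {k l i j a b : ℕ}
    (hb : M * d (ty_Prim l) ≤ d (ty_Prim k)) (i0 : 3 ≤ i) (i1 : i ≤ 29)
    (j0 : 3 ≤ j) (j1 : j ≤ 29) (a0 : 3 ≤ a) (a1 : a ≤ 29) (b0 : 3 ≤ b) (b1 : b ≤ 29)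
    (he : okP_Prim k l i j a b = true) : W_Prim p a + W_Prim p b ≤ W_Prim p i + W_Prim p j := by
  rcases Bool.or_eq_true_iff.1 he with g | g
  · have g' := of_decide_eq_true g
    exact add_le_add (le_Prim h g'.1 (by omega)) (le_Prim h g'.2 (by omega))
  · have e := okE_sound_Prim S hb g
    rwa [pX_ev_Prim S i0 i1 j0 j1 a0 a1 b0 b1, sub_nonneg] at e

theorem okF_sound_Prim (h : HH_Prim H p c d) (S : Sem_Prim M p c d K E) {k l m i j : ℕ} {sd : Bool}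
    (hb : M * d (ty_Prim l) ≤ d (ty_Prim k))
    (k0 : 3 ≤ k) (k1 : k ≤ 17) (l0 : 14 ≤ l) (l1 : l ≤ 28) (m0 : 10 ≤ m) (m1 : m ≤ 21)
    (i0 : 3 ≤ i) (i1 : i ≤ 29) (j0 : 3 ≤ j) (j1 : j ≤ 29) (he : okF_Prim k l m sd i j = true) :
    0 ≤ fR_Prim M p c d k l m sd (W_Prim p i + W_Prim p j) := by
  rcases Bool.or_eq_true_iff.1 he with g | g
  · exact (S.Z _ (of_decide_eq_true g)).ge
  · rw [← fX_ev_Prim h S sd k0 k1 l0 l1 m0 m1 i0 i1 j0 j1]
    exact okE_sound_Prim S hb g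

theorem chk_sound_Prim (h : HH_Prim H p c d) (S : Sem_Prim M p c d K E) {k l : ℕ}
    (hb : M * d (ty_Prim l) ≤ d (ty_Prim k)) (k0 : 3 ≤ k) (k1 : k ≤ 17) (l0 : 14 ≤ l)
    (l1 : l ≤ 28) {w u : ℝ} (w0 : W_Prim p k ≤ w) (w1 : w ≤ W_Prim p (k + 1))
    (u0 : W_Prim p l ≤ u) (u1 : u ≤ W_Prim p (l + 1)) :
    ∀ (L : List (ℕ × Bool × ℕ × ℕ)) (i j : ℕ), 3 ≤ i → i ≤ 29 → 3 ≤ j → j ≤ 29 →
      chk_Prim k l i j L = true → W_Prim p i + W_Prim p j ≤ w + u →
      (M + 1) * H ((w + u) / 2) ≤ H w + M * H u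
  | [], _, _, _, _, _, _, he, _ => absurd he Bool.false_ne_true
  | (m, sd, a, b) :: r, i, j, i0, i1, j0, j1, he, hy => by
    simp only [chk_Prim, Bool.and_eq_true, Bool.or_eq_true, decide_eq_true_eq] at he
    obtain ⟨⟨⟨⟨⟨⟨m0, m1, a0, a1, b0, b1⟩, g1⟩, g2⟩, g3⟩, g4⟩, g5⟩ := he
    have main : w + u ≤ W_Prim p a + W_Prim p b → (M + 1) * H ((w + u) / 2) ≤ H w + M * H u :=
      seg_Prim h (by omega) (by omega) (by omega) hb
        (okP_sound_Prim h S hb i0 i1 j0 j1 (by omega) (by omega) (by omega) (by omega) g1)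
        (okP_sound_Prim h S hb (by omega) (by omega) (by omega) (by omega) a0 a1 b0 b1 g2)
        (okF_sound_Prim h S hb k0 k1 l0 l1 m0 m1 i0 i1 j0 j1 g3)
        (okF_sound_Prim h S hb k0 k1 l0 l1 m0 m1 a0 a1 b0 b1 g4) w0 w1 u0 u1 hy
    rcases g5 with g5 | g5
    · rcases le_total (w + u) (W_Prim p a + W_Prim p b) with g | g
      · exact main g
      · exact chk_sound_Prim h S hb k0 k1 l0 l1 w0 w1 u0 u1 r a b a0 a1 b0 b1 g5 g
    · exact main ((add_le_add w1 u1).trans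
        (okP_sound_Prim h S hb a0 a1 b0 b1 (by omega) (by omega) (by omega) (by omega) g5))

theorem okL_sound_Prim (S : Sem_Prim M p c d K E) {a b : Ex} (he : okL_Prim a b = true) :
    a.ev K E ≤ b.ev K E := by
  rcases Bool.or_eq_true_iff.1 he with g | g
  · rw [of_decide_eq_true g]
  · exact (sub_pos.1 (S.pos _ (of_decide_eq_true g))).le

theorem all_Prim (h : HH_Prim H p c d) (S : Sem_Prim M p c d K E) (x t : ℝ) (h0 : 0 ≤ t)
    (h1 : t ≤ π) : (M + 1) * H x ≤ H (x - t) + M * H (x + t) := by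
  have ch : ∀ a b, a ≤ b → b ≤ 3 → d b ≤ d a := fun a b hab hb => by
    induction b, hab using Nat.le_induction with
    | base => exact le_rfl
    | succ b _ ih =>
      have e := okL_sound_Prim S (slope_Prim.2 b hb)
      rw [S.D _ (by omega), S.D _ (by omega)] at e
      exact e.trans (ih (by omega))
  refine fence_Prim h (fun k k0 l l0 kl lk => ?_) x t h0 h1
  rcases le_total (d (ty_Prim k)) (M * d (ty_Prim l)) with hb | hb
  · exact Or.inl hb
  rcases cover_Prim k k0 l l0 kl lk with g | ⟨e, he, rfl, rfl⟩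
  · obtain ⟨s1, s2, -⟩ := slope_Prim.1 _ (tylt_Prim k)
    have e1 := okL_sound_Prim S s2
    have e2 := okL_sound_Prim S (slope_Prim.1 _ (tylt_Prim l)).2.2
    rw [S.D _ (tylt_Prim k), S.D _ (by omega)] at e1
    rw [S.D _ (by omega), S.MD _ (tylt_Prim l)] at e2
    exact Or.inl (e1.trans ((ch _ _ g s1).trans e2))
  · have g := List.all_eq_true.1 cert_ok_Prim e he
    simp only [val_Prim, Bool.and_eq_true, decide_eq_true_eq] at g
    obtain ⟨⟨⟨a1, a2, a3, a4, a5, a6, a7, a8⟩, g1⟩, g2⟩ := g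
    exact Or.inr fun w u w0 w1 u0 u1 => chk_sound_Prim h S hb a1 a2 a3 a4 w0 w1 u0 u1 _ _ _
      a5 a6 a7 a8 g2 ((okP_sound_Prim h S hb a1 (by omega) (by omega) (by omega) a5 a6 a7 a8
        g1).trans (add_le_add w0 u0))

theorem zero_Prim (h : HH_Prim H p c d) (e5 : p 3 + p 11 + 2 * p 5 = 2 * p 12)
    (e6 : p 2 + p 10 + 2 * p 6 = 2 * p 12) (e7 : p 1 + p 9 + 2 * p 7 = 2 * p 12)
    (c1 : (M + 1) * c 6 + c 2 + M * c 10 = 2 * M * c 12)
    (c2 : (M + 1) * (c 2 - d 2 * p 2) = M * (c 6 - d 6 * p 6)) (t0 : d 0 = 1)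
    (t2 : (M + 1) * d 2 = 2) (t4 : (M + 1) * d 4 = 2 * d 3) (t5 : (M + 1) * d 5 = 2 * d 2)
    (t6 : (M + 1) * d 6 = 2 * d 1) (t7 : d 7 = d 2) (u6 : M * d 6 = 1)
    (u9 : M * d 9 = d 1) (u10 : M * d 10 = d 2) (u11 : M * d 11 = d 3) :
    ∀ z ∈ Z_Prim, fR_Prim M p c d z.1 z.2.1 z.2.2.1 z.2.2.2.1
      (W_Prim p z.2.2.2.2.1 + W_Prim p z.2.2.2.2.2) = 0 := by
  have c0 := h.c0
  have p0 := h.p0
  have h0 : c 1 = c 0 + d 0 * (p 1 - p 0) := h.rc 0
  have h1 : c 2 = c 1 + d 1 * (p 2 - p 1) := h.rc 1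
  have h2 : c 3 = c 2 + d 2 * (p 3 - p 2) := h.rc 2
  have h3 : c 4 = c 3 + d 3 * (p 4 - p 3) := h.rc 3
  have h4 : c 5 = c 4 + d 4 * (p 5 - p 4) := h.rc 4
  have h5 : c 6 = c 5 + d 5 * (p 6 - p 5) := h.rc 5
  have h6 : c 7 = c 6 + d 6 * (p 7 - p 6) := h.rc 6
  have h7 : c 8 = c 7 + d 7 * (p 8 - p 7) := h.rc 7
  have h8 : c 9 = c 8 + d 8 * (p 9 - p 8) := h.rc 8
  have h9 : c 10 = c 9 + d 9 * (p 10 - p 9) := h.rc 9
  have h10 : c 11 = c 10 + d 10 * (p 11 - p 10) := h.rc 10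
  have h11 : c 12 = c 11 + d 11 * (p 12 - p 11) := h.rc 11
  simp only [Z_Prim, List.forall_mem_cons, List.not_mem_nil, false_imp_iff, implies_true, and_true,
    fR_Prim, W_Prim, ty_Prim, Nat.reduceLeDiff, Nat.reduceAdd, Nat.reduceSub, Nat.reduceMod,
    Bool.false_eq_true, if_true, if_false, le_refl]
  refine ⟨?_, ?_, ?_, ?_, ?_, ?_, ?_, ?_, ?_, ?_, ?_, ?_, ?_, ?_, ?_, ?_, ?_, ?_, ?_, ?_, ?_, ?_⟩
  · linear_combination (1 + M) * h3 + (p 11 - 2 * p 12 + p 3 + 2 * p 4) * u11 + (-p 4 + p 5) * t4 +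
      (1 + M) * h4 + (-d 2 + d 3) * e5 + (p 10 - p 11) * u10 + (-M) * h10 + (-p 5 + p 6) * t5 + (1 +
      M) * h5 + (d 2) * e6 + (-1) * h2 + (-2 * M) * h11 + (-1) * c1
  · linear_combination (p 11 - 2 * p 12 + p 3 + 2 * p 4) * u11 + (-p 4 + p 5) * t4 + (1 + M) * h4 +
      (-d 2 + d 3) * e5 + (p 10 - p 11) * u10 + (-M) * h10 + (-p 5 + p 6) * t5 + (1 + M) * h5 + (d
      2) * e6 + (-1) * h2 + (-2 * M) * h11 + (-1) * c1
  · linear_combination (1 + M) * h4 + (p 10 - p 11) * u10 + (-M) * h10 + (-p 5 + p 6) * t5 + (1 + M)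
      * h5 + (d 2) * e6 + (-d 2 + d 3) * e5 + (-1) * h2 + (p 11 - 2 * p 12 + p 3 + 2 * p 5) * u11 +
      (-2 * M) * h11 + (-1) * c1
  · linear_combination (-1) * h2 + (-2 * M) * h11 + (-1) * c1 + (p 10 - p 11) * u10 + (-M) * h10 +
      (-p 5 + p 6) * t5 + (1 + M) * h5 + (d 2) * e6
  · linear_combination (-1) * h2 + (1 + M) * h5 + (-2 * M) * h11 + (d 2) * e6 + (-1) * c1 + (p 10 -
      p 11) * u10 + (-M) * h10
  · linear_combination (-2 * M) * h11 + (1 / 2 * p 11 - p 12 + 1 / 2 * p 2 + p 6) * t5 + (1 + M) *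
      h5 + (d 2) * e6 + (-1) * c1 + (p 10 - p 11) * u10 + (-M) * h10
  · linear_combination (-2 * M) * h11 + (1 / 2 * p 11 - p 12 + 1 / 2 * p 2 + p 6) * t5 + (1 + M) *
      h5 + (d 2) * e6 + (-1) * c1 + (p 10 - p 11) * u10 + (-M) * h10
  · linear_combination (1 / 2 * p 11 - p 12 + 1 / 2 * p 2 + p 6) * t5 + (1 + M) * h5 + (d 2) * e6 +
      (-1) * c1 + (p 10 - p 11) * u10 + (-M) * h10
  · linear_combination (1 + M) * h5 + (-M) * h10 + (-1) * c1 + (p 10 - 2 * p 12 + p 2 + 2 * p 6) *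
      u10 + (d 2) * e6
  · linear_combination (-M) * h10 + (d 1) * e6 + (-1) * c1
  · linear_combination (-M) * h10 + (-1) * c1 + (1 / 2 * p 1 + 1 / 2 * p 10 - p 12 + p 6) * t6 + (d
      1) * e6
  · linear_combination (-1) * h0 + (1 + M) * h1 + (-M) * h5 + (-1) * c0 + (d 0) * p0 + (2 * p 2 - p
      6) * t0 + (p 6) * u6 + (-1) * c2 + (-p 2) * t2
  · linear_combination (-1) * h0 + (-M) * h5 + (-1) * c0 + (d 0) * p0 + (2 * p 2 - p 6) * t0 + (p 6)
      * u6 + (-1) * c2 + (-p 2) * t2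
  · linear_combination (-1) * h0 + (-M) * h5 + (-1) * c0 + (d 0) * p0 + (2 * p 3 - p 6) * t0 + (-p
      3) * t2 + (p 6) * u6 + (-1) * c2
  · linear_combination (-1) * h0 + (-M) * h5 + (-1) * c0 + (d 0) * p0 + (2 * p 3 - p 6) * t0 + (-p
      3) * t2 + (-1 - M) * h2 + (p 6) * u6 + (-1) * c2
  · linear_combination (-M) * h10 + (-1) * c1 + (1 / 2 * p 1 + 1 / 2 * p 10 - p 12 + p 6) * t6 + (d
      1) * e6 + h1
  · linear_combination (-M) * h10 + (-1) * c1 + (1 / 2 * p 1 + 1 / 2 * p 10 - p 12 + p 6) * t6 + (d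
      1) * e6 + h1
  · linear_combination (-1) * c1 + (1 / 2 * p 1 + 1 / 2 * p 10 - p 12 + p 6) * t6 + (d 1) * e6 + h1
  · linear_combination (-1) * c1 + (p 1 + p 10 - 2 * p 12 + 2 * p 7) * u9 + (p 6 - p 7) * t6 + (d 1)
      * e6 + h1
  · linear_combination (p 1 - 2 * p 12 + 2 * p 7 + p 9) * t0 + (1 - d 1) * e7 + (-1 - M) * h6 + (-1)
      * c1 + (p 10 - p 9) * u9 + (p 6 - p 7) * t6 + (d 1) * e6 + h1
  · linear_combination (p 1 - 2 * p 12 + 2 * p 8 + p 9) * t0 + (1 - d 1) * e7 + (p 7 - p 8) * t2 +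
      (M * p 7 - M * p 8 + p 7 - p 8) * t7 + (-1 - M) * h6 + (-1) * c1 + (p 10 - p 9) * u9 + (p 6 -
      p 7) * t6 + (d 1) * e6 + h1
  · linear_combination (p 1 - 2 * p 12 + 2 * p 8 + p 9) * t0 + (1 - d 1) * e7 + (p 7 - p 8) * t2 +
      (M * p 7 - M * p 8 + p 7 - p 8) * t7 + (-1 - M) * h7 + (-1 - M) * h6 + (-1) * c1 + (p 10 - p
      9) * u9 + (p 6 - p 7) * t6 + (d 1) * e6 + h1

theorem sem_Prim {s : ℝ} (hM : 1 < M) (hl : Lin M s p) (h : HH_Prim H p (cum M s p) (dd M s))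
    (h0 : E 0 = M) (hp : ∀ i, 1 ≤ i → i ≤ 11 → E (9 + i) = p i) (h21 : E 21 = s)
    (hd : Dfs K E 22 dsP) (hc : Pos K E csP) : Sem_Prim M p (cum M s p) (dd M s) K E := by
  have hM0 : M ≠ 0 := by positivity
  have hM1 : M + 1 ≠ 0 := by positivity
  have c1 := hl.c1
  have c2 := hl.c2
  have a0 : dd M s 0 = 1 := rfl
  have a1 : dd M s 1 = (M + 1) / (2 * M) := rfl
  have a2 : dd M s 2 = 2 / (M + 1) := rfl
  have a3 : dd M s 3 = s := rfl
  have a4 : dd M s 4 = 2 * s / (M + 1) := rfl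
  have a5 : dd M s 5 = 4 / (M + 1) ^ 2 := rfl
  have a6 : dd M s 6 = 1 / M := rfl
  have t7 : dd M s 7 = dd M s 2 := rfl
  have t8 : dd M s 8 = dd M s 6 := rfl
  have a9 : dd M s 9 = (M + 1) / (2 * M ^ 2) := rfl
  have a10 : dd M s 10 = 2 / (M * (M + 1)) := rfl
  have a11 : dd M s 11 = s / M := rfl
  generalize cum M s p = c at *
  generalize dd M s = d at *
  have t2 : (M + 1) * d 2 = 2 := by rw [a2]; field_simp
  have t4 : (M + 1) * d 4 = 2 * d 3 := by rw [a4, a3]; field_simp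
  have t5 : (M + 1) * d 5 = 2 * d 2 := by rw [a5, a2]; field_simp; norm_num
  have t6 : (M + 1) * d 6 = 2 * d 1 := by rw [a6, a1]; field_simp
  have u6 : M * d 6 = 1 := by rw [a6]; field_simp
  have u9 : M * d 9 = d 1 := by rw [a9, a1]; field_simp
  have u10 : M * d 10 = d 2 := by rw [a10, a2]; field_simp
  have u11 : M * d 11 = d 3 := by rw [a11, a3]; field_simp
  have t10 : (M + 1) / 2 * d 10 = d 6 := by rw [a10, a6]; field_simp
  have one : (Ex.q 1 1).ev K E = 1 := by simp [Ex.ev]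
  simp only [dsP, Dfs, Ex.ev, Nat.reduceAdd] at hd
  obtain ⟨e22, e23, e24, e25, e26, e27, e28, e29, e30, e31, e32, e33, e34, e35, e36, e37, e38, e39,
    e40, e41, e42, e43, e44, e45, e46, e47, e48, e49, e50, e51, e52, e53, e54, e55, e56, e57, e58,
    e59, e60, e61, e62, e63, e64, e65, e66, e67, e68, e69, e70, e71, e72, e73, e74, e75, e76, e77,
    e78, e79, e80, e81, e82, e83, e84, e85, e86, e87, e88, e89, e90, e91, e92, e93, e94, e95, e96,
    e97, e98, e99, e100, e101, e102, e103, e104, e105, e106, e107, -⟩ := hd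
  have q1 : E 10 = p 1 := hp 1 (by norm_num) (by norm_num)
  have q2 : E 11 = p 2 := hp 2 (by norm_num) (by norm_num)
  have q3 : E 12 = p 3 := hp 3 (by norm_num) (by norm_num)
  have q4 : E 13 = p 4 := hp 4 (by norm_num) (by norm_num)
  have q5 : E 14 = p 5 := hp 5 (by norm_num) (by norm_num)
  have q6 : E 15 = p 6 := hp 6 (by norm_num) (by norm_num)
  have q7 : E 16 = p 7 := hp 7 (by norm_num) (by norm_num)
  have q8 : E 17 = p 8 := hp 8 (by norm_num) (by norm_num)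
  have q9 : E 18 = p 9 := hp 9 (by norm_num) (by norm_num)
  have q10 : E 19 = p 10 := hp 10 (by norm_num) (by norm_num)
  have q11 : E 20 = p 11 := hp 11 (by norm_num) (by norm_num)
  have r21 : E 21 = d 3 := h21.trans a3.symm
  have r22 : E 22 = d 6 := by rw [e22, h0, a6, one_div]
  have r23 : E 23 = (M + 1) / 2 := by rw [e23, h0]; push_cast; ring
  have r24 : E 24 = d 2 := by rw [e24, r23, a2, inv_div]
  have r25 : E 25 = d 1 := by rw [e25, r22, a6, a1]; push_cast; field_simp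
  have r26 : E 26 = d 4 := by rw [e26, r24, h21, a2, a4]; ring
  have r27 : E 27 = d 5 := by rw [e27, r24, a2, a5]; field_simp; norm_num
  have r28 : E 28 = d 9 := by rw [e28, r25, r22, a1, a6, a9]; field_simp
  have r29 : E 29 = d 10 := by rw [e29, r24, r22, a2, a6, a10]; field_simp
  have r30 : E 30 = d 11 := by rw [e30, h21, r22, a6, a11]; ring
  have r31 : E 31 = M * d 4 := by rw [e31, h0, r26]
  have r32 : E 32 = M * d 5 := by rw [e32, h0, r27]
  have r33 : E 33 = (M + 1) / 2 * d 1 := by rw [e33, r23, r25]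
  have r34 : E 34 = (M + 1) / 2 * d 3 := by rw [e34, r23, r21]
  have r35 : E 35 = (M + 1) / 2 * d 9 := by rw [e35, r25, a1, a9]; field_simp
  have r36 : E 36 = (M + 1) / 2 * d 11 := by rw [e36, h21, r25, a1, a11]; field_simp
  have r37 : E 37 = 2 * p 12 := by rw [e37, h.p12]; push_cast; ring
  have r38 : E 38 = c 1 := by rw [e38, q1, show c 1 = _ from h.rc 0, h.c0, h.p0, a0]; ring
  have r39 : E 39 = c 2 := by rw [e39, r38, r25, q2, q1]; exact (h.rc 1).symm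
  have r40 : E 40 = c 3 := by rw [e40, r39, r24, q3, q2]; exact (h.rc 2).symm
  have r41 : E 41 = c 4 := by rw [e41, r40, r21, q4, q3]; exact (h.rc 3).symm
  have r42 : E 42 = c 5 := by rw [e42, r41, r26, q5, q4]; exact (h.rc 4).symm
  have r43 : E 43 = c 6 := by rw [e43, r42, r27, q6, q5]; exact (h.rc 5).symm
  have r44 : E 44 = c 7 := by rw [e44, r43, r22, q7, q6]; exact (h.rc 6).symm
  have r45 : E 45 = c 8 := by rw [e45, r44, r24, q8, q7, ← t7]; exact (h.rc 7).symm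
  have r46 : E 46 = c 9 := by rw [e46, r45, r22, q9, q8, ← t8]; exact (h.rc 8).symm
  have r47 : E 47 = c 10 := by rw [e47, r46, r28, q10, q9]; exact (h.rc 9).symm
  have r48 : E 48 = c 11 := by rw [e48, r47, r29, q11, q10]; exact (h.rc 10).symm
  have r49 : E 49 = c 12 := by rw [e49, r48, r30, ← h.p12, q11]; exact (h.rc 11).symm
  have r50 : E 50 = M * c 1 := by rw [e50, h0, r38]
  have r51 : E 51 = M * c 2 := by rw [e51, h0, r39]
  have r52 : E 52 = M * c 3 := by rw [e52, h0, r40]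
  have r53 : E 53 = M * c 4 := by rw [e53, h0, r41]
  have r54 : E 54 = M * c 5 := by rw [e54, h0, r42]
  have r55 : E 55 = M * c 6 := by rw [e55, h0, r43]
  have r56 : E 56 = M * c 7 := by rw [e56, h0, r44]
  have r57 : E 57 = M * c 8 := by rw [e57, h0, r45]
  have r58 : E 58 = M * c 9 := by rw [e58, h0, r46]
  have r59 : E 59 = M * c 10 := by rw [e59, h0, r47]
  have r60 : E 60 = M * c 11 := by rw [e60, h0, r48]
  have r61 : E 61 = M * c 12 := by rw [e61, h0, r49]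
  have r62 : E 62 = (M + 1) * -c 1 := by rw [e62, r50, r38]; push_cast; ring
  have r63 : E 63 = (M + 1) * c 1 := by rw [e63, r50, r38]; ring
  have r64 : E 64 = (M + 1) * c 2 := by rw [e64, r51, r39]; ring
  have r65 : E 65 = (M + 1) * c 3 := by rw [e65, r52, r40]; ring
  have r66 : E 66 = (M + 1) * c 4 := by rw [e66, r53, r41]; ring
  have r67 : E 67 = (M + 1) * c 5 := by rw [e67, r54, r42]; ring
  have r68 : E 68 = (M + 1) * c 6 := by rw [e68, r55, r43]; ring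
  have r69 : E 69 = (M + 1) * c 7 := by rw [e69, r56, r44]; ring
  have r70 : E 70 = (M + 1) * c 8 := by rw [e70, r57, r45]; ring
  have r71 : E 71 = (M + 1) * c 9 := by rw [e71, r58, r46]; ring
  have r72 : E 72 = (M + 1) * c 10 := by rw [e72, r59, r47]; ring
  have r73 : E 73 = (M + 1) * c 11 := by rw [e73, r60, r48]; ring
  have r74 : E 74 = (M + 1) * (2 * c 12 - c 11) := by rw [e74, r61, r49, r73]; push_cast; ring
  have r75 : E 75 = -p 8 := by rw [e75, q8]; push_cast; ring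
  have r76 : E 76 = -p 7 := by rw [e76, q7]; push_cast; ring
  have r77 : E 77 = -p 6 := by rw [e77, q6]; push_cast; ring
  have r78 : E 78 = -p 5 := by rw [e78, q5]; push_cast; ring
  have r79 : E 79 = -p 4 := by rw [e79, q4]; push_cast; ring
  have r80 : E 80 = -p 3 := by rw [e80, q3]; push_cast; ring
  have r81 : E 81 = -p 2 := by rw [e81, q2]; push_cast; ring
  have r82 : E 82 = -p 1 := by rw [e82, q1]; push_cast; ring
  have r83 : E 83 = 2 * p 12 - p 11 := by rw [e83, r37, q11]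
  have r84 : E 84 = 2 * p 12 - p 10 := by rw [e84, r37, q10]
  have r85 : E 85 = 2 * p 12 - p 9 := by rw [e85, r37, q9]
  have r86 : E 86 = 2 * p 12 - p 8 := by rw [e86, r37, q8]
  have r87 : E 87 = 2 * p 12 - p 7 := by rw [e87, r37, q7]
  have r88 : E 88 = 2 * p 12 - p 6 := by rw [e88, r37, q6]
  have r89 : E 89 = 2 * p 12 - p 5 := by rw [e89, r37, q5]
  have r90 : E 90 = 2 * p 12 - p 4 := by rw [e90, r37, q4]
  have r91 : E 91 = -c 8 := by rw [e91, r45]; push_cast; ring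
  have r92 : E 92 = -c 7 := by rw [e92, r44]; push_cast; ring
  have r93 : E 93 = -c 6 := by rw [e93, r43]; push_cast; ring
  have r94 : E 94 = -c 5 := by rw [e94, r42]; push_cast; ring
  have r95 : E 95 = -c 4 := by rw [e95, r41]; push_cast; ring
  have r96 : E 96 = -c 3 := by rw [e96, r40]; push_cast; ring
  have r97 : E 97 = -c 2 := by rw [e97, r39]; push_cast; ring
  have r98 : E 98 = -c 1 := by rw [e98, r38]; push_cast; ring
  have r99 : E 99 = 2 * (M * c 12) := by rw [e99, r61]; push_cast; ring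
  have r100 : E 100 = M * (2 * c 12 - c 11) := by rw [e100, r99, r60]; ring
  have r101 : E 101 = M * (2 * c 12 - c 10) := by rw [e101, r99, r59]; ring
  have r102 : E 102 = M * (2 * c 12 - c 9) := by rw [e102, r99, r58]; ring
  have r103 : E 103 = M * (2 * c 12 - c 8) := by rw [e103, r99, r57]; ring
  have r104 : E 104 = M * (2 * c 12 - c 7) := by rw [e104, r99, r56]; ring
  have r105 : E 105 = M * (2 * c 12 - c 6) := by rw [e105, r99, r55]; ring
  have r106 : E 106 = M * (2 * c 12 - c 5) := by rw [e106, r99, r54]; ring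
  have r107 : E 107 = M * (2 * c 12 - c 4) := by rw [e107, r99, r53]; ring
  refine ⟨fun k k0 k1 => ?_, fun k k0 k1 => ?_, fun k k0 k1 => ?_, fun k k0 k1 => ?_,
    fun j hj => ?_, fun j hj => ?_, fun j hj => ?_,
    zero_Prim h (hl.e5.trans (by rw [h.p12])) (hl.e6.trans (by rw [h.p12]))
      (hl.e7.trans (by rw [h.p12])) c1 c2 a0 t2 t4 t5 t6 t7 u6 u9 u10 u11, pos_Prim hc⟩
  · interval_cases k
    exacts [r75, r76, r77, r78, r79, r80, r81, r82, q1, q2, q3, q4, q5, q6, q7, q8, q9, q10, q11,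
      r83, r84, r85, r86, r87, r88, r89, r90]
  · interval_cases k
    exacts [r91, r92, r93, r94, r95, r96, r97, r98, r38, r39, r40, r41, r42, r43, r44, r45]
  · interval_cases k
    exacts [r53, r54, r55, r56, r57, r58, r59, r60, r100, r101, r102, r103, r104, r105, r106, r107]
  · interval_cases k
    exacts [r62, r63, r64, r65, r66, r67, r68, r69, r70, r71, r72, r73, r74]
  · interval_cases j
    exacts [one.trans a0.symm, r25, r24, r21, r26, r27, r22, r24.trans t7.symm, r22.trans t8.symm,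
      r28, r29, r30]
  · interval_cases j
    exacts [congrArg₂ (· * ·) h0 (one.trans a0.symm), congrArg₂ (· * ·) h0 r25,
      congrArg₂ (· * ·) h0 r24, congrArg₂ (· * ·) h0 r21, r31, r32, one.trans u6.symm,
      congrArg₂ (· * ·) h0 (r24.trans t7.symm), one.trans (by rw [t8, u6]), r25.trans u9.symm,
      r24.trans u10.symm, r21.trans u11.symm]
  · interval_cases j
    exacts [r23.trans (by rw [a0, mul_one]), r33, one.trans (by linarith), r34,
      r21.trans (by linarith), r24.trans (by linarith), r25.trans (by linarith),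
      one.trans (by rw [t7]; linarith), r25.trans (by rw [t8]; linarith), r35, r22.trans t10.symm,
      r36]

end

theorem primal {M s : ℝ} {p : ℕ → ℝ} (hM : 1 < M) (hs : 0 < s) (ho : Ord p) (hl : Lin M s p)
    {K E : ℕ → ℝ} (h0 : E 0 = M) (hp : ∀ i, 1 ≤ i → i ≤ 11 → E (9 + i) = p i) (h21 : E 21 = s)
    (hd : Dfs K E 22 dsP) (hc : Pos K E csP) : IsLift M (Hs M s p) := by
  have hT := cum_pos hM hs ho
  have hpi := pi_pos
  have h : HH_Prim (fun y => cum M s p 12 / π * Hs M s p y) p (cum M s p) (dd M s) :=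
    ⟨continuous_const.mul (Hs_cont hM hs ho hl), fun y => by rw [Hs_odd hM hs ho hl, mul_neg],
      fun y => by rw [Hs_per]; field_simp, hl.e0, hl.e12, rfl, ho,
      fun i => Finset.sum_range_succ _ i,
      fun i hi y a b => by rw [Hs_piece hM hs ho hl hi a b]; field_simp⟩
  have key : ∀ x t, 0 < t → t ≤ π →
      Hs M s p x - Hs M s p (x - t) ≤ M * (Hs M s p (x + t) - Hs M s p x) := fun x t t0 t1 => by
    have e := all_Prim h (sem_Prim hM hl h h0 hp h21 hd hc) x t t0.le t1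
    refine le_of_mul_le_mul_left ?_ (div_pos hT hpi)
    linarith
  refine ⟨Hs_cont hM hs ho hl, Hs_mono hM hs ho hl, Hs_per, fun x t t0 t1 => ?_, key⟩
  have e := key (-x) t t0 t1
  rw [show -x - t = -(x + t) by ring, show -x + t = -(x - t) by ring, Hs_odd hM hs ho hl,
    Hs_odd hM hs ho hl, Hs_odd hM hs ho hl] at e
  linarith

end Pool.Agent.MP_e5b4ec_an.Mid
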