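import Pool.Agent.MP_e5b4ec_an.Mid.OneA
import Pool.Agent.MP_e5b4ec_an.Mid.OneB
import Pool.Agent.MP_e5b4ec_an.Mid.OneS
import Pool.Agent.MP_e5b4ec_an.Mid.AA
import Pool.Agent.MP_e5b4ec_an.Mid.Prim
import Pool.Agent.MP_e5b4ec_an.Mid.Fin
import Pool.Agent.MP_92c74b_an.Brouwer

/-! One subinterval: existence of a solution in the tube, and the value of `c M`. -/

open Real

namespace Pool.Agent.MP_e5b4ec_an.Mid

/-- the check for one subinterval -/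
noncomputable def chk (bs : List (List Ex × List Ex)) (m0 : Int) (dl : Nat) (Kl : List Int)
    (it : Nat) : Bool :=
  go m0 dl Kl 9 it (dsB ++ dsF) fsK
    ((dsB, csO) :: (dsB ++ dsP, csP) :: bs.map (fun b => (dsB ++ b.1, b.2)))

variable {K E : ℕ → ℝ}

theorem ltB_One : ltAll 10 dsB = true := by decide +kernel

theorem ltA_One : ltAll 10 (dsB ++ dsF) = true := by decide +kernel

theorem cokA_One : (dsB ++ dsF).all cok = true := by decide +kernel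

theorem split_One (ds : List Ex) : Dfs K E 10 (dsB ++ ds) ↔ Dfs K E 10 dsB ∧ Dfs K E 22 ds :=
  dfs_append K dsB ds 10

theorem splitF_One (h : Dfs K E 22 dsF) : Dfs K E 22 dsF0 ∧ Dfs K E 53 dsF1 ∧ Dfs K E 62 dsF2 :=
  have h1 := (dfs_append K dsF0 _ 22).1 h
  ⟨h1.1, (dfs_append K dsF1 _ _).1 h1.2⟩

theorem lt_One {ds : List Ex} (h : ltAll 22 ds = true) : ltAll 10 (dsB ++ ds) = true := by
  rw [ltAll_append, ltB_One, Bool.true_and]; exact h

theorem fs_One (i : ℕ) (hi : i < 9) :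
    fsK.getD i Ex.pi ∈ fsK ∧ cok (fsK.getD i Ex.pi) = true ∧
      (fsK.getD i Ex.pi).ev K E = E (i + 1) - E (71 + i) := by
  interval_cases i <;> exact ⟨by decide, rfl, rfl⟩

theorem fix_One : (∀ i, i < 9 → E (i + 1) = (fsK.getD i Ex.pi).ev K E) ↔
    E 71 = 0 ∧ E 72 = 0 ∧ E 73 = 0 ∧ E 74 = 0 ∧ E 75 = 0 ∧ E 76 = 0 ∧ E 77 = 0 ∧ E 78 = 0 ∧
      E 79 = 0 := by
  constructor
  · intro h
    have h' : ∀ i, i < 9 → E (71 + i) = 0 := fun i hi => by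
      have := (h i hi).trans (fs_One i hi).2.2
      linarith
    exact ⟨h' 0 (by norm_num), h' 1 (by norm_num), h' 2 (by norm_num), h' 3 (by norm_num),
      h' 4 (by norm_num), h' 5 (by norm_num), h' 6 (by norm_num), h' 7 (by norm_num),
      h' 8 (by norm_num)⟩
  · rintro ⟨b0, b1, b2, b3, b4, b5, b6, b7, b8⟩ i hi
    rw [(fs_One i hi).2.2]
    interval_cases i <;> simp only [Nat.reduceAdd, b0, b1, b2, b3, b4, b5, b6, b7, b8, sub_zero]

/-- the start registers: `M` and a point of the cube -/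
noncomputable def cube (M : ℝ) (a : Fin 9 → ℝ) (j : ℕ) : ℝ :=
  if j = 0 then M else if h : j - 1 < 9 then a ⟨j - 1, h⟩ else 0

/-- the start registers: `M` and the coordinates of a point of the tube -/
noncomputable def zr (M s : ℝ) (p : ℕ → ℝ) : ℕ → ℝ
  | 0 => M
  | 1 => 1000 * (p 8 - ctr 8 (M - 7 / 5))
  | 2 => 1000 * (p 4 - ctr 4 (M - 7 / 5))
  | 3 => 1000 * (s - ctr 0 (M - 7 / 5))
  | 4 => 1000 * (p 1 - ctr 1 (M - 7 / 5))
  | 5 => 1000 * (p 10 - ctr 10 (M - 7 / 5))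
  | 6 => 1000 * (p 2 - ctr 2 (M - 7 / 5))
  | 7 => 1000 * (p 9 - ctr 9 (M - 7 / 5))
  | 8 => 1000 * (p 3 - ctr 3 (M - 7 / 5))
  | _ => 1000 * (p 11 - ctr 11 (M - 7 / 5))

theorem zr_le {M s : ℝ} {p : ℕ → ℝ} (h : Tube M s p) (i : ℕ) (h1 : 1 ≤ i) (h9 : i ≤ 9) :
    |zr M s p i| ≤ 1 := by
  have key : ∀ x : ℝ, |x| ≤ 1 / 1000 → |1000 * x| ≤ 1 := fun x hx => by
    rw [abs_mul, abs_of_pos (by norm_num : (0 : ℝ) < 1000)]; linarith
  interval_cases i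
  exacts [key _ (h.2 8 (by decide)), key _ (h.2 4 (by decide)), key _ h.1,
    key _ (h.2 1 (by decide)), key _ (h.2 10 (by decide)), key _ (h.2 2 (by decide)),
    key _ (h.2 9 (by decide)), key _ (h.2 3 (by decide)), key _ (h.2 11 (by decide))]

theorem zr_reg {M s : ℝ} {p : ℕ → ℝ} (hl : Lin M s p) (hE : ∀ i, i < 10 → E i = zr M s p i)
    (hd : Dfs K E 10 dsB) :
    E 0 = M ∧ (∀ i, 1 ≤ i → i ≤ 11 → E (9 + i) = p i) ∧ E 21 = s := by
  obtain ⟨a1, a2, a3, a4, a8, a9, a10, a11, a0, a5, a6, a7⟩ := semB_One hd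
  have e5 := hl.e5
  have e6 := hl.e6
  have e7 := hl.e7
  have z0 : E 0 = M := hE 0 (by norm_num)
  have z1 : E 1 = 1000 * (p 8 - ctr 8 (M - 7 / 5)) := hE 1 (by norm_num)
  have z2 : E 2 = 1000 * (p 4 - ctr 4 (M - 7 / 5)) := hE 2 (by norm_num)
  have z3 : E 3 = 1000 * (s - ctr 0 (M - 7 / 5)) := hE 3 (by norm_num)
  have z4 : E 4 = 1000 * (p 1 - ctr 1 (M - 7 / 5)) := hE 4 (by norm_num)
  have z5 : E 5 = 1000 * (p 10 - ctr 10 (M - 7 / 5)) := hE 5 (by norm_num)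
  have z6 : E 6 = 1000 * (p 2 - ctr 2 (M - 7 / 5)) := hE 6 (by norm_num)
  have z7 : E 7 = 1000 * (p 9 - ctr 9 (M - 7 / 5)) := hE 7 (by norm_num)
  have z8 : E 8 = 1000 * (p 3 - ctr 3 (M - 7 / 5)) := hE 8 (by norm_num)
  have z9 : E 9 = 1000 * (p 11 - ctr 11 (M - 7 / 5)) := hE 9 (by norm_num)
  rw [z0] at a1 a2 a3 a4 a8 a9 a10 a11 a0
  refine ⟨z0, fun i h1 h2 => ?_, by linarith⟩
  interval_cases i <;> simp only [Nat.reduceAdd] <;> linarith

section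
variable {bs : List (List Ex × List Ex)} {m0 : Int} {dl : Nat} {Kl : List Int} {it : Nat} {M : ℝ}

theorem ex_One (h : chk bs m0 dl Kl it = true) (hM : |M * 2 ^ 60 - (m0 : ℝ)| ≤ (dl : ℝ)) :
    1 < M ∧ ∃ (p : ℕ → ℝ) (s : ℝ), Lin M s p ∧ Trig M p ∧ Tube M s p := by
  have hlt : ∀ a i, i < 10 → runR (Kof Kl) (dsB ++ dsF) 10 (cube M a) i = cube M a i :=
    fun a i hi => runR_lt _ _ _ _ i hi
  have h0 : ∀ a, runR (Kof Kl) (dsB ++ dsF) 10 (cube M a) 0 = M := fun a => hlt a 0 (by norm_num)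
  have hs : ∀ a (i : Fin 9), runR (Kof Kl) (dsB ++ dsF) 10 (cube M a) (i + 1) = a i :=
    fun a i => by rw [hlt a _ (by omega)]; simp [cube]
  have hz : ∀ a : Fin 9 → ℝ, (∀ i, |a i| ≤ 1) → ∀ i, 1 ≤ i → i ≤ 9 →
      |runR (Kof Kl) (dsB ++ dsF) 10 (cube M a) i| ≤ 1 := fun a ha i h1 h2 => by
    obtain ⟨j, rfl⟩ : ∃ j, i = j + 1 := ⟨i - 1, by omega⟩
    rw [hs a ⟨j, by omega⟩]; exact ha _
  have hd := fun a => runR_dfs (Kof Kl) (dsB ++ dsF) 10 (cube M a) ltA_One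
  have hc : ∀ i, Continuous fun a => runR (Kof Kl) (dsB ++ dsF) 10 (cube M a) i := by
    refine runR_cont _ _ 10 (cube M) (by norm_num) (fun i => ?_) (fun _ _ => rfl) cokA_One
    unfold cube
    split_ifs
    exacts [continuous_const, continuous_apply _, continuous_const]
  obtain ⟨a, ha, hfa⟩ := MP_92c74b_an.brouwer_cube (ι := Fin 9) zero_le_one
    (fun a i => (fsK.getD i Ex.pi).ev (Kof Kl) (runR (Kof Kl) (dsB ++ dsF) 10 (cube M a)))
    (continuous_pi fun i : Fin 9 => ev_cont_One _ hc (fun a b => (h0 a).trans (h0 b).symm) _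
      (fs_One (K := Kof Kl) (E := Kof Kl) i i.2).2.1).continuousOn
    fun a ha (i : Fin 9) => go_map h (by rw [h0]; exact hM) (hz a ha) (hd a) _
      (fs_One (K := Kof Kl) (E := Kof Kl) i i.2).1
  have hfix : ∀ i, i < 9 → runR (Kof Kl) (dsB ++ dsF) 10 (cube M a) (i + 1) =
      (fsK.getD i Ex.pi).ev (Kof Kl) (runR (Kof Kl) (dsB ++ dsF) 10 (cube M a)) := fun i hi =>
    (hs a ⟨i, hi⟩).trans (congrFun hfa ⟨i, hi⟩).symm
  have hz' := hz a ha
  have h0' := h0 a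
  have hd' := hd a
  generalize runR (Kof Kl) (dsB ++ dsF) 10 (cube M a) = E at hfix hz' h0' hd'
  obtain ⟨hB, hF⟩ := (split_One dsF).1 hd'
  obtain ⟨hF0, hF1, hF2⟩ := splitF_One hF
  obtain ⟨o1, -, -, o4⟩ := semO_One (go_pos h (by rw [h0']; exact hM) hz' hd' hfix
    (b := (dsB, csO)) (by simp) (fun _ _ => rfl) hB)
  rw [h0'] at o1
  obtain ⟨a1, a2, a3, a4, a8, a9, a10, a11, a0, a5, a6, a7⟩ := semB_One hB
  rw [h0'] at a1 a2 a3 a4 a8 a9 a10 a11 a0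
  obtain ⟨hl, ht⟩ := (semI_One (s := E 21)
    (p := fun i => if i = 0 then 0 else if i ≤ 11 then E (9 + i) else π) o1 h0'
    (fun i h1 h2 => by rw [if_neg (by omega), if_pos h2]) rfl rfl rfl a5 a6 a7 hF0 hF1).1
    (semU_One hF2 o4 (fix_One.1 hfix))
  have key : ∀ (x y : ℝ) (j : ℕ), 1 ≤ j → j ≤ 9 → x = y + E j / 1000 → |x - y| ≤ 1 / 1000 :=
    fun x y j h1 h2 e => by
      rw [e, add_sub_cancel_left, abs_div, abs_of_pos (by norm_num : (0 : ℝ) < 1000)]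
      linarith [hz' j h1 h2]
  refine ⟨o1, _, _, hl, ht, key _ _ 3 (by norm_num) (by norm_num) a0, fun i hi => ?_⟩
  simp only [Finset.mem_insert, Finset.mem_singleton] at hi
  rcases hi with rfl | rfl | rfl | rfl | rfl | rfl | rfl | rfl
  exacts [key _ _ 4 (by norm_num) (by norm_num) a1, key _ _ 6 (by norm_num) (by norm_num) a2,
    key _ _ 8 (by norm_num) (by norm_num) a3, key _ _ 2 (by norm_num) (by norm_num) a4,
    key _ _ 1 (by norm_num) (by norm_num) a8, key _ _ 7 (by norm_num) (by norm_num) a9,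
    key _ _ 5 (by norm_num) (by norm_num) a10, key _ _ 9 (by norm_num) (by norm_num) a11]

theorem one (hD : DualSpec bs) (h : chk bs m0 dl Kl it = true)
    (h1 : (m0 : ℝ) - dl ≤ M * 2 ^ 60) (h2 : M * 2 ^ 60 ≤ (m0 : ℝ) + dl) : Good M := by
  have hM : |M * 2 ^ 60 - (m0 : ℝ)| ≤ (dl : ℝ) := abs_le.2 ⟨by linarith, by linarith⟩
  obtain ⟨hM1, hex⟩ := ex_One h hM
  refine ⟨hex, fun p s hl ht hT => ?_⟩
  have mk : ∀ ds, ltAll 10 (dsB ++ ds) = true → ∃ E : ℕ → ℝ, (∀ i, i < 10 → E i = zr M s p i) ∧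
      Dfs (Kof Kl) E 10 (dsB ++ ds) ∧ Dfs (Kof Kl) E 22 ds ∧ E 0 = M ∧
      (∀ i, 1 ≤ i → i ≤ 11 → E (9 + i) = p i) ∧ E 21 = s := fun ds hds =>
    have hd := runR_dfs (Kof Kl) _ 10 (zr M s p) hds
    have hE := fun i hi => runR_lt (Kof Kl) (dsB ++ ds) 10 (zr M s p) i hi
    ⟨_, hE, hd, ((split_One ds).1 hd).2, zr_reg hl hE ((split_One ds).1 hd).1⟩
  obtain ⟨E, hE, hd, hF, h0, hp, h21⟩ := mk dsF ltA_One
  obtain ⟨hF0, hF1, hF2⟩ := splitF_One hF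
  have hfix := (fix_One (K := Kof Kl)).2 (semT_One hF2
    ((semI_One hM1 h0 hp h21 hl.e0 hl.e12 hl.e5 hl.e6 hl.e7 hF0 hF1).2 ⟨hl, ht⟩))
  have gp := fun (b : List Ex × List Ex) hb (E' : ℕ → ℝ) hE' hd' =>
    go_pos h (E := E) (by rw [h0]; exact hM)
      (fun i i1 i9 => by rw [hE i (by omega)]; exact zr_le hT i i1 i9) hd hfix (b := b) hb
      (E' := E') hE' hd'
  obtain ⟨-, o2, o3, -⟩ := semO_One (gp (dsB, csO) (by simp) E (fun _ _ => rfl)
    ((split_One dsF).1 hd).1)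
  rw [h21] at o2
  have ho : Ord p := by
    have q := fun i h1 h2 => (hp i h1 h2).symm
    obtain ⟨c0, c1, c2, c3, c4, c5, c6, c7, c8, c9, c10, c11⟩ := o3
    intro i hi
    interval_cases i
    · rw [hl.e0, q _ (by norm_num) (by norm_num)]; exact c0
    all_goals first
      | (rw [hl.e12, q _ (by norm_num) (by norm_num)]; exact c11)
      | (rw [q _ (by norm_num) (by norm_num), q (_ + 1) (by norm_num) (by norm_num)]; assumption)
  obtain ⟨EP, hEP, hdP, hP, p0, pp, p21⟩ := mk dsP (lt_One dsP_lt)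
  refine final hM1 o2 ho hl
    (primal hM1 o2 ho hl p0 pp p21 hP (gp (dsB ++ dsP, csP) (by simp) EP
      (fun i hi => (hEP i (by omega)).trans (hE i (by omega)).symm) hdP))
    (hD.2 (Kof Kl) M s p hM1 ho hl ht fun b hb => ?_)
  obtain ⟨ED, hED, hdD, hDD, d0, dp, -⟩ := mk b.1 (lt_One (hD.1 b hb))
  exact ⟨ED, d0, dp, hDD, gp (dsB ++ b.1, b.2)
    (List.mem_cons_of_mem _ (List.mem_cons_of_mem _ (List.mem_map_of_mem hb))) ED
    (fun i hi => (hED i (by omega)).trans (hE i (by omega)).symm) hdD⟩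

end

end Pool.Agent.MP_e5b4ec_an.Mid
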