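import Pool.Agent.MP_e5b4ec_an.Mid.Ex

/-! The register file defined by a list of expressions, and its continuity. -/

open Real

namespace Pool.Agent.MP_e5b4ec_an.Mid

/-- fill the registers `n, n+1, ...` -/
noncomputable def runR (K : ℕ → ℝ) : List Ex → ℕ → (ℕ → ℝ) → ℕ → ℝ
  | [], _, E => E
  | e :: es, n, E => runR K es (n + 1) (Function.update E n (e.ev K E))

/-- inverses are taken only of functions of register 0 -/
def cok : Ex → Bool
  | .add a b => cok a && cok b
  | .sub a b => cok a && cok b
  | .mul a b => cok a && cok b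
  | .inv a => a.lt 1
  | .sin a => cok a
  | .cos a => cok a
  | _ => true

variable (K : ℕ → ℝ)

theorem runR_lt : ∀ (ds : List Ex) (n : ℕ) (E : ℕ → ℝ) (i : ℕ), i < n → runR K ds n E i = E i
  | [], _, _, _, _ => rfl
  | e :: es, n, E, i, h => by
    rw [runR, runR_lt es (n + 1) _ i (by omega), Function.update_of_ne (by omega)]

theorem ev_congr_One {E E' : ℕ → ℝ} {n : ℕ} (h : ∀ i, i < n → E i = E' i) (e : Ex)
    (he : e.lt n = true) : e.ev K E = e.ev K E' := by
  induction e with
  | v i => exact h i (by simpa [Ex.lt, Nat.blt_eq] using he)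
  | k i => rfl
  | q a b => rfl
  | pi => rfl
  | add a b iha ihb =>
    rw [Ex.lt, Bool.and_eq_true] at he; rw [Ex.ev, Ex.ev, iha he.1, ihb he.2]
  | sub a b iha ihb =>
    rw [Ex.lt, Bool.and_eq_true] at he; rw [Ex.ev, Ex.ev, iha he.1, ihb he.2]
  | mul a b iha ihb =>
    rw [Ex.lt, Bool.and_eq_true] at he; rw [Ex.ev, Ex.ev, iha he.1, ihb he.2]
  | inv a ih => rw [Ex.lt] at he; rw [Ex.ev, Ex.ev, ih he]
  | sin a ih => rw [Ex.lt] at he; rw [Ex.ev, Ex.ev, ih he]
  | cos a ih => rw [Ex.lt] at he; rw [Ex.ev, Ex.ev, ih he]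

theorem runR_dfs : ∀ (ds : List Ex) (n : ℕ) (E : ℕ → ℝ), ltAll n ds = true →
    Dfs K (runR K ds n E) n ds
  | [], _, _, _ => trivial
  | e :: es, n, E, h => by
    rw [ltAll, Bool.and_eq_true] at h
    refine ⟨?_, runR_dfs es (n + 1) _ h.2⟩
    rw [runR, runR_lt K es (n + 1) _ n (by omega), Function.update_self]
    refine ev_congr_One K (fun i hi => ?_) e h.1
    rw [runR_lt K es (n + 1) _ i (by omega), Function.update_of_ne (by omega)]

theorem ev_cont_One {α : Type} [TopologicalSpace α] {E : α → ℕ → ℝ}
    (hc : ∀ i, Continuous fun a => E a i) (h0 : ∀ a b, E a 0 = E b 0) (e : Ex)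
    (he : cok e = true) : Continuous fun a => e.ev K (E a) := by
  induction e with
  | v i => exact hc i
  | k i => exact continuous_const
  | q a b => exact continuous_const
  | pi => exact continuous_const
  | add a b iha ihb => rw [cok, Bool.and_eq_true] at he; exact (iha he.1).add (ihb he.2)
  | sub a b iha ihb => rw [cok, Bool.and_eq_true] at he; exact (iha he.1).sub (ihb he.2)
  | mul a b iha ihb => rw [cok, Bool.and_eq_true] at he; exact (iha he.1).mul (ihb he.2)
  | inv x _ =>
    rw [cok] at he
    refine continuous_of_const fun a b => ?_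
    rw [Ex.ev, Ex.ev, ev_congr_One K (E := E a) (E' := E b) (fun i hi => ?_) x he]
    obtain rfl : i = 0 := by omega
    exact h0 a b
  | sin a ih => rw [cok] at he; exact continuous_sin.comp (ih he)
  | cos a ih => rw [cok] at he; exact continuous_cos.comp (ih he)

theorem runR_cont {α : Type} [TopologicalSpace α] : ∀ (ds : List Ex) (n : ℕ) (E : α → ℕ → ℝ),
    0 < n → (∀ i, Continuous fun a => E a i) → (∀ a b, E a 0 = E b 0) → ds.all cok = true →
    ∀ i, Continuous fun a => runR K ds n (E a) i
  | [], _, _, _, hc, _, _ => hc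
  | e :: es, n, E, hn, hc, h0, h => by
    rw [List.all_cons, Bool.and_eq_true] at h
    refine runR_cont es (n + 1) (fun a => Function.update (E a) n (e.ev K (E a))) (by omega)
      (fun i => ?_) (fun a b => ?_) h.2
    · by_cases hi : i = n
      · subst hi
        simp only [Function.update_self]
        exact ev_cont_One K hc h0 e h.1
      · simp only [Function.update_of_ne hi]
        exact hc i
    · rw [Function.update_of_ne (by omega), Function.update_of_ne (by omega), h0 a b]

theorem dfs_append {E : ℕ → ℝ} : ∀ (a b : List Ex) (n : ℕ),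
    Dfs K E n (a ++ b) ↔ Dfs K E n a ∧ Dfs K E (n + a.length) b
  | [], b, n => by simp [Dfs]
  | e :: a, b, n => by
    rw [List.cons_append, Dfs, Dfs, dfs_append a b (n + 1), List.length_cons, and_assoc,
      add_assoc, add_comm 1]

theorem ltAll_append : ∀ (a b : List Ex) (n : ℕ),
    ltAll n (a ++ b) = (ltAll n a && ltAll (n + a.length) b)
  | [], b, n => by simp [ltAll]
  | e :: a, b, n => by
    rw [List.cons_append, ltAll, ltAll, ltAll_append a b (n + 1), List.length_cons, Bool.and_assoc,
      add_assoc, add_comm 1]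

end Pool.Agent.MP_e5b4ec_an.Mid
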