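import Pool.Agent.MP_e5b4ec_an.Mid.Ex

/-! Expression lists of the Newton map. -/

namespace Pool.Agent.MP_e5b4ec_an.Mid

/-- registers 10 to 21 : `p 1, ..., p 11, s` in terms of `M` (register 0) and `z` (1 to 9) -/
def dsB : List Ex := [
  .add (.add (.q 1003 2000) (.mul (.sub (.v 0) (.q 7 5)) (.add (.q (-69) 500) (.mul (.sub (.v 0)
    (.q 7 5)) (.q 27 1000))))) (.mul (.q 1 1000) (.v 4)),
  .add (.add (.q 6269 10000) (.mul (.sub (.v 0) (.q 7 5)) (.add (.q (-133) 1000) (.mul (.sub (.v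
    0) (.q 7 5)) (.q 7 200))))) (.mul (.q 1 1000) (.v 6)),
  .add (.add (.q 4233 5000) (.mul (.sub (.v 0) (.q 7 5)) (.add (.q (-59) 500) (.mul (.sub (.v 0)
    (.q 7 5)) (.q 63 1000))))) (.mul (.q 1 1000) (.v 8)),
  .add (.add (.q 10399 10000) (.mul (.sub (.v 0) (.q 7 5)) (.add (.q (-21) 250) (.mul (.sub (.v 0)
    (.q 7 5)) (.q (-3) 500))))) (.mul (.q 1 1000) (.v 2)),
  .sub .pi (.mul (.q 1 2) (.add (.v 12) (.add (.add (.q 5117 2000) (.mul (.sub (.v 0) (.q 7 5))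
    (.add (.q (-63) 500) (.mul (.sub (.v 0) (.q 7 5)) (.q 9 50))))) (.mul (.q 1 1000) (.v 9))))),
  .sub .pi (.mul (.q 1 2) (.add (.v 11) (.add (.add (.q 296 125) (.mul (.sub (.v 0) (.q 7 5))
    (.add (.q (-179) 1000) (.mul (.sub (.v 0) (.q 7 5)) (.q 131 1000))))) (.mul (.q 1 1000) (.v
    5))))),
  .sub .pi (.mul (.q 1 2) (.add (.v 10) (.add (.add (.q 4483 2000) (.mul (.sub (.v 0) (.q 7 5))
    (.add (.q (-9) 40) (.mul (.sub (.v 0) (.q 7 5)) (.q 16 125))))) (.mul (.q 1 1000) (.v 7))))),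
  .add (.add (.q 411 200) (.mul (.sub (.v 0) (.q 7 5)) (.add (.q (-43) 500) (.mul (.sub (.v 0) (.q
    7 5)) (.q 73 1000))))) (.mul (.q 1 1000) (.v 1)),
  .add (.add (.q 4483 2000) (.mul (.sub (.v 0) (.q 7 5)) (.add (.q (-9) 40) (.mul (.sub (.v 0) (.q
    7 5)) (.q 16 125))))) (.mul (.q 1 1000) (.v 7)),
  .add (.add (.q 296 125) (.mul (.sub (.v 0) (.q 7 5)) (.add (.q (-179) 1000) (.mul (.sub (.v 0)
    (.q 7 5)) (.q 131 1000))))) (.mul (.q 1 1000) (.v 5)),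
  .add (.add (.q 5117 2000) (.mul (.sub (.v 0) (.q 7 5)) (.add (.q (-63) 500) (.mul (.sub (.v 0)
    (.q 7 5)) (.q 9 50))))) (.mul (.q 1 1000) (.v 9)),
  .add (.add (.q 7383 10000) (.mul (.sub (.v 0) (.q 7 5)) (.add (.q (-413) 1000) (.mul (.sub (.v
    0) (.q 7 5)) (.add (.q 377 1000) (.mul (.sub (.v 0) (.q 7 5)) (.q (-19) 50))))))) (.mul (.q 1
    1000) (.v 3))]

/-- registers 22 to 52 : functions of `M`, cosines, recentred moments -/
def dsF0 : List Ex := [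
  .inv (.v 0),
  .mul (.q 2 1) (.inv (.add (.v 0) (.q 1 1))),
  .mul (.q 1 2) (.add (.q 1 1) (.v 22)),
  .mul (.v 23) (.v 23),
  .mul (.v 24) (.v 22),
  .sub (.add (.v 22) (.v 22)) (.v 23),
  .add .pi .pi,
  .cos (.v 10),
  .cos (.v 11),
  .cos (.v 12),
  .cos (.v 13),
  .cos (.v 14),
  .cos (.v 15),
  .cos (.v 16),
  .cos (.v 17),
  .cos (.v 18),
  .cos (.v 19),
  .cos (.v 20),
  .sub (.sin (.v 10)) (.mul (.sub (.v 10) (.q 1 2)) (.v 29)),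
  .sub (.sin (.v 11)) (.mul (.sub (.v 11) (.q 63 100)) (.v 30)),
  .sub (.sin (.v 12)) (.mul (.sub (.v 12) (.q 17 20)) (.v 31)),
  .sub (.sin (.v 13)) (.mul (.sub (.v 13) (.q 26 25)) (.v 32)),
  .sub (.sin (.v 14)) (.mul (.sub (.v 14) (.q 36 25)) (.v 33)),
  .sub (.sin (.v 15)) (.mul (.sub (.v 15) (.q 41 25)) (.v 34)),
  .sub (.sin (.v 16)) (.mul (.sub (.v 16) (.q 177 100)) (.v 35)),
  .sub (.sin (.v 17)) (.mul (.sub (.v 17) (.q 103 50)) (.v 36)),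
  .sub (.sin (.v 18)) (.mul (.sub (.v 18) (.q 56 25)) (.v 37)),
  .sub (.sin (.v 19)) (.mul (.sub (.v 19) (.q 237 100)) (.v 38)),
  .sub (.sin (.v 20)) (.mul (.sub (.v 20) (.q 64 25)) (.v 39)),
  .add (.sub (.v 13) (.v 12)) (.mul (.v 23) (.sub (.v 14) (.v 13))),
  .add (.mul (.v 23) (.sub (.v 12) (.v 11))) (.mul (.v 25) (.sub (.v 15) (.v 14)))]

/-- registers 53 to 61 : residuals of the nine equations -/
def dsF1 : List Ex := [
  .sub (.sub (.v 35) (.v 36)) (.mul (.add (.q 1 1) (.v 22)) (.sub (.v 36) (.v 37))),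
  .sub (.mul (.v 23) (.sub (.v 32) (.v 33))) (.add (.sub (.v 31) (.v 32)) (.sub (.v 31) (.v 32))),
  .sub (.mul (.v 22) (.add (.add (.v 10) (.mul (.v 24) (.sub (.v 11) (.v 10)))) (.sub (.v 15)
    (.add (.v 11) (.v 11))))) (.add (.v 52) (.mul (.v 21) (.v 51))),
  .sub (.sub (.v 29) (.v 30)) (.mul (.v 22) (.sub (.v 37) (.v 38))),
  .sub (.sub (.v 33) (.v 34)) (.mul (.add (.q 1 1) (.v 22)) (.sub (.v 38) (.v 39))),
  .add (.mul (.mul (.sub (.q 1 1) (.mul (.q 1 2) (.v 23))) (.mul (.q 1 2) (.v 23))) (.sub (.sub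
    (.v 30) (.v 31)) (.mul (.mul (.q 1 2) (.v 23)) (.sub (.v 33) (.v 34))))) (.sub (.mul (.mul (.q
    1 2) (.v 23)) (.sub (.v 34) (.v 35))) (.sub (.v 29) (.v 30))),
  .sub (.add (.add (.add (.add (.add (.add (.add (.add (.add (.add (.add (.add (.add (.add (.add
    (.add (.add (.mul (.sub (.v 24) (.q 1 1)) (.v 40)) (.mul (.sub (.v 23) (.v 24)) (.v 41)))
    (.mul (.v 25) (.v 44))) (.mul (.sub (.v 22) (.v 25)) (.v 45))) (.mul (.sub (.v 23) (.v 22))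
    (.v 46))) (.mul (.sub (.v 22) (.v 23)) (.v 47))) (.mul (.sub (.v 26) (.v 22)) (.v 48))) (.mul
    (.sub (.v 27) (.v 26)) (.v 49))) (.mul (.add (.q 1 2) (.mul (.add (.v 28) (.q (-61) 10)) (.v
    24))) (.v 29))) (.mul (.sub (.mul (.q 1 50) (.v 23)) (.mul (.add (.v 28) (.q (-623) 100)) (.v
    24))) (.v 30))) (.mul (.mul (.q 1 5) (.v 23)) (.v 31))) (.mul (.mul (.q (-23) 200) (.v 25))
    (.v 33))) (.mul (.add (.mul (.q (-17) 50) (.v 22)) (.mul (.q 63 200) (.v 25))) (.v 34))) (.mul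
    (.add (.mul (.q 23 100) (.v 23)) (.mul (.q 47 100) (.v 22))) (.v 35))) (.mul (.add (.mul (.q 3
    50) (.v 23)) (.mul (.sub (.v 28) (.q 303 50)) (.v 22))) (.v 36))) (.mul (.sub (.mul (.q 19 25)
    (.v 26)) (.mul (.sub (.v 28) (.q 156 25)) (.v 22))) (.v 37))) (.mul (.add (.mul (.q (-63) 100)
    (.v 26)) (.mul (.sub (.v 28) (.q 567 100)) (.v 27))) (.v 38))) (.mul (.mul (.sub (.q 293 50)
    (.v 28)) (.v 27)) (.v 39))) (.add (.mul (.v 23) (.v 42)) (.mul (.v 27) (.v 50))),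
  .add (.add (.add (.add (.v 10) (.v 10)) (.sub (.v 15) (.v 18))) (.add (.sub (.v 16) (.v 17)) (.v
    52))) (.add (.add (.mul (.v 24) (.add (.add (.sub (.v 11) (.v 10)) (.sub (.v 11) (.v 10)))
    (.sub (.v 18) (.v 19)))) (.mul (.v 23) (.add (.sub (.v 17) (.v 16)) (.add (.sub (.v 19) (.v
    20)) (.sub (.v 19) (.v 20)))))) (.mul (.v 21) (.sub (.v 51) (.add (.sub .pi (.v 20)) (.sub .pi
    (.v 20)))))),
  .add (.add (.sub (.mul (.sub (.q 1 1) (.v 23)) (.v 43)) (.v 42)) (.sub (.mul (.v 23) (.v 44))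
    (.mul (.v 22) (.v 50)))) (.add (.add (.mul (.sub (.q 57 20) .pi) (.v 31)) (.mul (.add (.add
    .pi (.q (-76) 25)) (.mul (.q 1 25) (.v 23))) (.v 32))) (.add (.mul (.mul (.q (-11) 25) (.v
    23)) (.v 33)) (.mul (.mul (.sub (.q 64 25) .pi) (.v 22)) (.v 39))))]

/-- registers 62 to 79 : unit lower triangular, then upper triangular combinations -/
def dsF2 : List Ex := [
  .v 53,
  .v 54,
  .add (.v 55) (.mul (.k 0) (.v 54)),
  .v 56,
  .v 57,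
  .add (.add (.v 58) (.mul (.k 1) (.v 56))) (.mul (.k 2) (.v 57)),
  .add (.add (.add (.add (.v 59) (.mul (.k 3) (.v 53))) (.mul (.k 4) (.v 56))) (.mul (.k 5) (.v
    57))) (.mul (.k 6) (.v 58)),
  .add (.add (.add (.add (.add (.add (.add (.v 60) (.mul (.k 7) (.v 53))) (.mul (.k 8) (.v 54)))
    (.mul (.k 9) (.v 55))) (.mul (.k 10) (.v 56))) (.mul (.k 11) (.v 57))) (.mul (.k 12) (.v 58)))
    (.mul (.k 13) (.v 59)),
  .add (.add (.add (.add (.add (.add (.add (.add (.v 61) (.mul (.k 14) (.v 53))) (.mul (.k 15) (.v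
    54))) (.mul (.k 16) (.v 55))) (.mul (.k 17) (.v 56))) (.mul (.k 18) (.v 57))) (.mul (.k 19)
    (.v 58))) (.mul (.k 20) (.v 59))) (.mul (.k 21) (.v 60)),
  .add (.add (.add (.add (.add (.add (.mul (.k 22) (.v 62)) (.mul (.k 23) (.v 65))) (.mul (.k 24)
    (.v 66))) (.mul (.k 25) (.v 67))) (.mul (.k 26) (.v 68))) (.mul (.k 27) (.v 69))) (.mul (.k
    28) (.v 70)),
  .add (.add (.mul (.k 29) (.v 63)) (.mul (.k 30) (.v 69))) (.mul (.k 31) (.v 70)),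
  .add (.add (.add (.add (.add (.add (.mul (.k 32) (.v 64)) (.mul (.k 33) (.v 65))) (.mul (.k 34)
    (.v 66))) (.mul (.k 35) (.v 67))) (.mul (.k 36) (.v 68))) (.mul (.k 37) (.v 69))) (.mul (.k
    38) (.v 70)),
  .add (.add (.add (.add (.add (.mul (.k 39) (.v 65)) (.mul (.k 40) (.v 66))) (.mul (.k 41) (.v
    67))) (.mul (.k 42) (.v 68))) (.mul (.k 43) (.v 69))) (.mul (.k 44) (.v 70)),
  .add (.add (.add (.add (.mul (.k 45) (.v 66)) (.mul (.k 46) (.v 67))) (.mul (.k 47) (.v 68)))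
    (.mul (.k 48) (.v 69))) (.mul (.k 49) (.v 70)),
  .add (.add (.add (.mul (.k 50) (.v 67)) (.mul (.k 51) (.v 68))) (.mul (.k 52) (.v 69))) (.mul
    (.k 53) (.v 70)),
  .add (.add (.mul (.k 54) (.v 68)) (.mul (.k 55) (.v 69))) (.mul (.k 56) (.v 70)),
  .add (.mul (.k 57) (.v 69)) (.mul (.k 58) (.v 70)),
  .mul (.k 59) (.v 70)]

/-- registers from 22 : the preconditioned residuals -/
def dsF : List Ex := dsF0 ++ (dsF1 ++ dsF2)

/-- the Newton map in the variables `z` -/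
def fsK : List Ex := [
  .sub (.v 1) (.v 71),
  .sub (.v 2) (.v 72),
  .sub (.v 3) (.v 73),
  .sub (.v 4) (.v 74),
  .sub (.v 5) (.v 75),
  .sub (.v 6) (.v 76),
  .sub (.v 7) (.v 77),
  .sub (.v 8) (.v 78),
  .sub (.v 9) (.v 79)]

/-- conditions `1 < M`, `0 < s`, `p i < p (i+1)`, signs of the pivots -/
def csO : List Ex := [
  .sub (.v 0) (.q 1 1),
  .v 21,
  .v 10,
  .sub (.v 11) (.v 10),
  .sub (.v 12) (.v 11),
  .sub (.v 13) (.v 12),
  .sub (.v 14) (.v 13),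
  .sub (.v 15) (.v 14),
  .sub (.v 16) (.v 15),
  .sub (.v 17) (.v 16),
  .sub (.v 18) (.v 17),
  .sub (.v 19) (.v 18),
  .sub (.v 20) (.v 19),
  .sub .pi (.v 20),
  .k 22,
  .sub (.q 0 1) (.k 29),
  .sub (.q 0 1) (.k 32),
  .sub (.q 0 1) (.k 39),
  .k 45,
  .sub (.q 0 1) (.k 50),
  .sub (.q 0 1) (.k 54),
  .k 57,
  .k 59]

end Pool.Agent.MP_e5b4ec_an.Mid
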