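import Pool.Agent.MP_e5b4ec_an.Mid.Base

open Real

namespace Pool.Agent.MP_e5b4ec_an.Mid

variable {D : ℝ → ℝ} {M : ℝ}

theorem dK_Part (hD : Continuous D) (y : ℝ) : HasDerivAt (KK D) (D y) y :=
  (hD.integral_hasStrictDerivAt 0 y).hasDerivAt

theorem dS_Part (hD : Continuous D) (y : ℝ) : HasDerivAt (SS D) (D y * sin y) y :=
  ((hD.mul continuous_sin).integral_hasStrictDerivAt 0 y).hasDerivAt

theorem dT_Part (hD : Continuous D) (y : ℝ) : HasDerivAt (TT D) (D y * y) y :=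
  ((hD.mul continuous_id).integral_hasStrictDerivAt 0 y).hasDerivAt

theorem le_Part {f g : ℝ → ℝ} (hf : ∀ y, HasDerivAt f (g y) y) {u v : ℝ} (h : u ≤ v)
    (hg : ∀ y, u ≤ y → y ≤ v → 0 ≤ g y) : f u ≤ f v :=
  monotoneOn_of_deriv_nonneg (convex_Icc u v)
    (fun y _ => (hf y).continuousAt.continuousWithinAt)
    (fun y _ => (hf y).differentiableAt.differentiableWithinAt)
    (fun y hy => by
      rw [(hf y).deriv]
      exact hg y (interior_subset hy).1 (interior_subset hy).2)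
    ⟨le_rfl, h⟩ ⟨h, le_rfl⟩ h

theorem eq_Part {f g f' g' : ℝ → ℝ} (hf : ∀ y, HasDerivAt f (f' y) y)
    (hg : ∀ y, HasDerivAt g (g' y) y) (h : ∀ y, f' y = g' y) (a : ℝ) (ha : f a = g a) (y : ℝ) :
    f y = g y := by
  have := is_const_of_deriv_eq_zero (f := fun y => f y - g y)
    (fun y => ((hf y).sub (hg y)).differentiableAt)
    (fun y => (((hf y).sub (hg y)).deriv).trans (sub_eq_zero.2 (h y))) y a
  linarith

theorem cos_Part {a b y : ℝ} (h : Mono a b) (h1 : a ≤ y) (h2 : y ≤ b) :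
    (cos b ≤ cos y ∧ cos y ≤ cos a) ∨ (cos a ≤ cos y ∧ cos y ≤ cos b) := by
  rcases h with h | h | h
  · exact .inl ⟨cos_le_cos_of_nonneg_of_le_pi (h.1.trans h1) h.2 h2,
      cos_le_cos_of_nonneg_of_le_pi h.1 (h2.trans h.2) h1⟩
  · rw [← cos_neg a, ← cos_neg b, ← cos_neg y]
    refine .inr ⟨?_, ?_⟩ <;> apply cos_le_cos_of_nonneg_of_le_pi <;> linarith [h.1, h.2]
  · rw [← cos_two_pi_sub a, ← cos_two_pi_sub b, ← cos_two_pi_sub y]
    refine .inr ⟨?_, ?_⟩ <;> apply cos_le_cos_of_nonneg_of_le_pi <;> linarith [h.1, h.2]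

theorem sgn_Part {a b y s e : ℝ} (h : Mono a b) (h1 : a ≤ y) (h2 : y ≤ b)
    (ha : 0 ≤ s * cos a + e) (hb : 0 ≤ s * cos b + e) : 0 ≤ s * cos y + e := by
  rcases le_total 0 s with hs | hs <;> rcases cos_Part h h1 h2 with ⟨p, q⟩ | ⟨p, q⟩ <;> nlinarith

/-- integration by parts on one cell -/
theorem cell_Part (hD : Continuous D) {w k lam l s e u v : ℝ} {J : ℝ → ℝ}
    (hJ : ∀ y, HasDerivAt J (w * D y - k - lam * y) y) (h : u ≤ v)
    (hg : ∀ y, u ≤ y → y ≤ v → 0 ≤ J y * (s * cos y + e)) :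
    w * (l * (KK D v - KK D u) + s * (SS D v - SS D u) + e * (TT D v - TT D u))
      - k * (l * (v - u) + s * (cos u - cos v) + e * (v ^ 2 - u ^ 2) / 2)
      - lam * (l * (v ^ 2 - u ^ 2) / 2 + s * ((sin v - v * cos v) - (sin u - u * cos u))
        + e * (v ^ 3 - u ^ 3) / 3)
      ≤ J v * (l + s * sin v + e * v) - J u * (l + s * sin u + e * u) := by
  have := le_Part (f := fun y => J y * (l + s * sin y + e * y)
      - w * (l * KK D y + s * SS D y + e * TT D y) + k * (l * y - s * cos y + e * (y ^ 2 / 2))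
      + lam * (l * (y ^ 2 / 2) + s * (sin y - y * cos y) + e * (y ^ 3 / 3)))
    (g := fun y => J y * (s * cos y + e)) (fun y => by
      have h1 := hasDerivAt_id' y
      have h2 := (hasDerivAt_pow 2 y).div_const 2
      have h3 := (hasDerivAt_pow 3 y).div_const 3
      have h4 := hasDerivAt_sin y
      have h5 := hasDerivAt_cos y
      exact (((((hJ y).fun_mul (((h4.const_mul s).const_add l).fun_add (h1.const_mul e))).fun_sub
        (((((dK_Part hD y).const_mul l).fun_add ((dS_Part hD y).const_mul s)).fun_add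
          ((dT_Part hD y).const_mul e)).const_mul w)).fun_add
        ((((h1.const_mul l).fun_sub (h5.const_mul s)).fun_add (h2.const_mul e)).const_mul k)).fun_add
        ((((h2.const_mul l).fun_add ((h4.fun_sub (h1.fun_mul h5)).const_mul s)).fun_add
          (h3.const_mul e)).const_mul lam)).congr_deriv (by push_cast; ring)) h hg
  linarith

theorem lastU_Part {L : List Cell} : ∀ {a top : ℝ}, okU a top L → a ≤ lastc a L := by
  induction L with
  | nil => exact fun _ => le_rfl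
  | cons c r ih => exact fun h => h.1.trans (ih h.2.2.2.2.2)

theorem lastD_Part {L : List Cell} : ∀ {a top : ℝ}, okD a top L → lastc a L ≤ a := by
  induction L with
  | nil => exact fun _ => le_rfl
  | cons c r ih => exact fun h => (ih h.2.2.2.2.2).trans h.1

theorem up_Part (hD : Continuous D) {w k lam : ℝ} {J : ℝ → ℝ}
    (hJ : ∀ y, HasDerivAt J (w * D y - k - lam * y) y) {L : List Cell} :
    ∀ {a top : ℝ}, okU a top L → (∀ y, a ≤ y → y ≤ lastc a L → J y ≤ 0) →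
      w * pv D a L - k * pm a L - lam * pq a L ≤ -J a * top := by
  induction L with
  | nil =>
    intro a top h h0
    have := mul_nonneg (neg_nonneg.2 (h0 a le_rfl le_rfl)) h
    simp only [pv, pm, pq]
    linarith
  | cons c r ih =>
    intro a top h h0
    obtain ⟨h1, h2, h3, h4, h5, h6⟩ := h
    have h7 : c.b ≤ lastc a (c :: r) := lastU_Part h6
    have h8 := ih h6 fun y hy => h0 y (h1.trans hy)
    have h9 := cell_Part hD (l := c.l) (s := c.s) (e := c.e) hJ h1 fun y p q =>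
      mul_nonneg_of_nonpos_of_nonpos (h0 y p (q.trans h7)) (by
        have := sgn_Part (s := -c.s) (e := -c.e) h2 p q (by linarith) (by linarith)
        linarith)
    have := mul_nonneg (neg_nonneg.2 (h0 a le_rfl (h1.trans h7))) (sub_nonneg.2 h3)
    simp only [pv, pm, pq]
    linarith

theorem down_Part (hD : Continuous D) {w k lam : ℝ} {J : ℝ → ℝ}
    (hJ : ∀ y, HasDerivAt J (w * D y - k - lam * y) y) {L : List Cell} :
    ∀ {a top : ℝ}, okD a top L → (∀ y, lastc a L ≤ y → y ≤ a → 0 ≤ J y) →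
      -J a * top ≤ w * pv D a L - k * pm a L - lam * pq a L := by
  induction L with
  | nil =>
    intro a top h h0
    have := mul_nonneg (h0 a le_rfl le_rfl) h
    simp only [pv, pm, pq]
    linarith
  | cons c r ih =>
    intro a top h h0
    obtain ⟨h1, h2, h3, h4, h5, h6⟩ := h
    have h7 : lastc a (c :: r) ≤ c.b := lastD_Part h6
    have h8 := ih h6 fun y hy q => h0 y hy (q.trans h1)
    have h9 := cell_Part hD (l := c.l) (s := c.s) (e := c.e) hJ h1 fun y p q =>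
      mul_nonneg (h0 y (h7.trans p) q) (sgn_Part h2 p q h5 h4)
    have := mul_nonneg (h0 a (h7.trans h1) le_rfl) (sub_nonneg.2 h3)
    simp only [pv, pm, pq]
    linarith

theorem dJ_Part (hD : Continuous D) (w k lam y0 y : ℝ) :
    HasDerivAt (fun y => w * (KK D y - KK D y0) - k * (y - y0) - lam * ((y ^ 2 - y0 ^ 2) / 2))
      (w * D y - k - lam * y) y :=
  (((((dK_Part hD y).sub_const _).const_mul w).fun_sub
    (((hasDerivAt_id' y).sub_const y0).const_mul k)).fun_sub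
    ((((hasDerivAt_pow 2 y).sub_const _).div_const 2).const_mul lam)).congr_deriv
    (by push_cast; ring)

theorem dR_Part (hD : Continuous D) {p q : ℝ} (h : p ≠ q) (z0 z1 u : ℝ) :
    HasDerivAt (fun u => ((z0 * q - z1 * p) * (KK D (p + (q - p) * u) - KK D p)
      + (z1 - z0) * (TT D (p + (q - p) * u) - TT D p)) / (q - p) ^ 2)
      (D (p + (q - p) * u) * (z0 * (1 - u) + z1 * u)) u := by
  have h1 := ((hasDerivAt_id' u).const_mul (q - p)).const_add p
  have h2 : q - p ≠ 0 := sub_ne_zero.2 h.symm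
  exact ((((((dK_Part hD _).comp u h1).sub_const _).const_mul _).fun_add
    ((((dT_Part hD _).comp u h1).sub_const _).const_mul _)).div_const _).congr_deriv
    (by field_simp; ring)

theorem seg_Part {A B p q u : ℝ} (h1 : A ≤ p) (h2 : p ≤ B) (h3 : A ≤ q) (h4 : q ≤ B)
    (h5 : 0 ≤ u) (h6 : u ≤ 1) : A ≤ p + (q - p) * u ∧ p + (q - p) * u ≤ B :=
  ⟨by nlinarith, by nlinarith⟩

theorem int_Part (hD : Continuous D) (w a r t : ℝ) :
    r * ∫ s in (0 : ℝ)..t, w * D (a + r * s) = w * (KK D (a + r * t) - KK D a) :=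
  eq_Part (f := fun t => r * ∫ s in (0 : ℝ)..t, w * D (a + r * s))
    (g := fun t => w * (KK D (a + r * t) - KK D a))
    (fun y => (Continuous.integral_hasStrictDerivAt (f := fun s => w * D (a + r * s))
      (by fun_prop) 0 y).hasDerivAt.const_mul r)
    (fun y => (((dK_Part hD _).comp y
      (((hasDerivAt_id' y).const_mul r).const_add a)).sub_const _).const_mul w)
    (fun y => by ring) 0 (by simp) t

theorem part_up (hD : Continuous D) {w k lam y0 top : ℝ} {L : List Cell} (ok : okU y0 top L)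
    (hJ : ∀ y, y0 ≤ y → y ≤ lastc y0 L →
      w * (KK D y - KK D y0) ≤ k * (y - y0) + lam * (y ^ 2 - y0 ^ 2) / 2) :
    w * pv D y0 L ≤ k * pm y0 L + lam * pq y0 L := by
  have := up_Part hD (dJ_Part hD w k lam y0) ok fun y p q => by linarith [hJ y p q]
  simp only [sub_self, mul_zero, zero_div, neg_zero, zero_mul] at this
  linarith

theorem part_down (hD : Continuous D) {w k lam y0 top : ℝ} {L : List Cell} (ok : okD y0 top L)
    (hJ : ∀ y, lastc y0 L ≤ y → y ≤ y0 →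
      w * (KK D y0 - KK D y) ≤ k * (y0 - y) + lam * (y0 ^ 2 - y ^ 2) / 2) :
    k * pm y0 L + lam * pq y0 L ≤ w * pv D y0 L := by
  have := down_Part hD (dJ_Part hD w k lam y0) ok fun y p q => by linarith [hJ y p q]
  simp only [sub_self, mul_zero, zero_div, neg_zero, zero_mul] at this
  linarith

theorem ray (hD : Continuous D) {T0 T1 V0 V1 X0 X1 t v x t' v' x' z0 z1 : ℝ}
    (hB : Box M D T0 T1 V0 V1 X0 X1)
    (a1 : T0 ≤ t) (a2 : t ≤ T1) (a3 : V0 ≤ v) (a4 : v ≤ V1) (a5 : X0 ≤ x) (a6 : x ≤ X1)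
    (b1 : T0 ≤ t') (b2 : t' ≤ T1) (b3 : V0 ≤ v') (b4 : v' ≤ V1) (b5 : X0 ≤ x') (b6 : x' ≤ X1)
    (ha : t + v + 2 * x = 2 * π) (hb : t' + v' + 2 * x' = 2 * π) (h0 : 0 ≤ z0) (h1 : 0 ≤ z1)
    (nt : t ≠ t') (nv : v ≠ v') (nx : x ≠ x') :
    rv D t t' z0 z1 + M * rv D v v' z0 z1 + (M + 1) * rv D x x' z0 z1 ≤ 0 := by
  have := le_Part (fun u => (((dR_Part hD nt z0 z1 u).fun_add
    ((dR_Part hD nv z0 z1 u).const_mul M)).fun_add
    ((dR_Part hD nx z0 z1 u).const_mul (M + 1))).fun_neg) zero_le_one fun u p q => by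
      have s1 := seg_Part a1 a2 b1 b2 p q
      have s2 := seg_Part a3 a4 b3 b4 p q
      have s3 := seg_Part a5 a6 b5 b6 p q
      have := mul_nonneg (neg_nonneg.2 (hB _ _ _ s1.1 s1.2 s2.1 s2.2 s3.1 s3.2
        (by linear_combination (1 - u) * ha + u * hb)))
        (add_nonneg (mul_nonneg h0 (sub_nonneg.2 q)) (mul_nonneg h1 p))
      linarith
  simp only [mul_zero, add_zero, sub_self, zero_div, mul_one, add_sub_cancel, neg_zero] at this
  simp only [rv]
  linarith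

theorem ray0 (hD : Continuous D) (hz : D 0 = 0) {T0 T1 V0 V1 X0 X1 v x v' x' z0 z1 : ℝ}
    (hB : Box M D T0 T1 V0 V1 X0 X1)
    (a1 : T0 ≤ 0) (a2 : 0 ≤ T1) (a3 : V0 ≤ v) (a4 : v ≤ V1) (a5 : X0 ≤ x) (a6 : x ≤ X1)
    (b3 : V0 ≤ v') (b4 : v' ≤ V1) (b5 : X0 ≤ x') (b6 : x' ≤ X1)
    (ha : v + 2 * x = 2 * π) (hb : v' + 2 * x' = 2 * π) (h0 : 0 ≤ z0) (h1 : 0 ≤ z1)
    (nv : v ≠ v') (nx : x ≠ x') :
    M * rv D v v' z0 z1 + (M + 1) * rv D x x' z0 z1 ≤ 0 := by
  have := le_Part (fun u => (((dR_Part hD nv z0 z1 u).const_mul M).fun_add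
    ((dR_Part hD nx z0 z1 u).const_mul (M + 1))).fun_neg) zero_le_one fun u p q => by
      have s2 := seg_Part a3 a4 b3 b4 p q
      have s3 := seg_Part a5 a6 b5 b6 p q
      have := mul_nonneg (neg_nonneg.2 (hB _ _ _ a1 a2 s2.1 s2.2 s3.1 s3.2
        (by linear_combination (1 - u) * ha + u * hb)))
        (add_nonneg (mul_nonneg h0 (sub_nonneg.2 q)) (mul_nonneg h1 p))
      rw [hz] at this
      linarith
  simp only [mul_zero, add_zero, sub_self, zero_div, mul_one, add_sub_cancel, neg_zero] at this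
  simp only [rv]
  linarith

theorem folds (hD : Continuous D) (ho : ∀ y, D (-y) = -D y) (hp : ∀ y, D (y + 2 * π) = D y)
    (y : ℝ) :
    KK D (-y) = KK D y ∧ SS D (-y) = -SS D y ∧ TT D (-y) = -TT D y ∧
      KK D (2 * π - y) = KK D y ∧ SS D (2 * π - y) = 2 * SS D π - SS D y ∧
      TT D (2 * π - y) = 2 * TT D π - 2 * π * KK D π + 2 * π * KK D y - TT D y := by
  have h1 : ∀ y : ℝ, HasDerivAt (fun y => -y) (-1) y := fun y => hasDerivAt_neg' y
  have h2 : ∀ y : ℝ, HasDerivAt (fun y => 2 * π - y) (-1) y := fun y =>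
    (hasDerivAt_id' y).const_sub _
  have h3 : ∀ y, D (2 * π - y) = -D y := fun y => by rw [sub_eq_neg_add, hp, ho]
  have h4 : 2 * π - π = π := by ring
  refine ⟨eq_Part (fun y => (dK_Part hD _).comp y (h1 y)) (dK_Part hD)
      (fun y => by rw [ho]; ring) 0 (by simp) y,
    eq_Part (fun y => (dS_Part hD _).comp y (h1 y)) (fun y => (dS_Part hD y).fun_neg)
      (fun y => by rw [ho, sin_neg]; ring) 0 (by simp [SS]) y,
    eq_Part (fun y => (dT_Part hD _).comp y (h1 y)) (fun y => (dT_Part hD y).fun_neg)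
      (fun y => by rw [ho]; ring) 0 (by simp [TT]) y,
    eq_Part (fun y => (dK_Part hD _).comp y (h2 y)) (dK_Part hD)
      (fun y => by rw [h3]; ring) π (by rw [Function.comp, h4]) y,
    eq_Part (fun y => (dS_Part hD _).comp y (h2 y)) (fun y => (dS_Part hD y).const_sub _)
      (fun y => by rw [h3, sin_two_pi_sub]; ring) π (by rw [Function.comp, h4]; ring) y,
    eq_Part (fun y => (dT_Part hD _).comp y (h2 y))
      (fun y => (((dK_Part hD y).const_mul _).const_add _).fun_sub (dT_Part hD y))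
      (fun y => by rw [h3]; ring) π (by rw [Function.comp, h4]; ring) y⟩

/-- majorant form of a frame with anchors at the lower ends; `W` is the statement of `ww3` -/
theorem frame_up
    (W : ∀ {f1 f2 f3 : ℝ → ℝ}, Continuous f1 → Continuous f2 → Continuous f3 →
      ∀ {c l1 l2 l3 : ℝ}, 0 < l1 → 0 < l2 → 0 < l3 → l1 ≤ c → l2 ≤ c → l3 ≤ c →
      2 * c < l1 + l2 + l3 →
      (∀ x y z, 0 ≤ x → x ≤ l1 → 0 ≤ y → y ≤ l2 → 0 ≤ z → z ≤ l3 → x + y + z = c →
        f1 x + f2 y + f3 z ≤ 0) →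
      ∃ lam k1 k2 k3 : ℝ, k1 + k2 + k3 + c * lam ≤ 0 ∧
        (∀ t, 0 ≤ t → t ≤ l1 → ∫ s in (0 : ℝ)..t, f1 s ≤ k1 * t + lam * t ^ 2 / 2) ∧
        (∀ t, 0 ≤ t → t ≤ l2 → ∫ s in (0 : ℝ)..t, f2 s ≤ k2 * t + lam * t ^ 2 / 2) ∧
        (∀ t, 0 ≤ t → t ≤ l3 → ∫ s in (0 : ℝ)..t, f3 s ≤ k3 * t + lam * t ^ 2 / 2))
    (hD : Continuous D) {T0 T1 V0 V1 X0 X1 t0 v0 x0 a b c : ℝ} {Lt Lv Lx : List Cell}
    (hB : Box M D T0 T1 V0 V1 X0 X1)
    (ot : okU t0 a Lt) (ov : okU v0 b Lv) (ox : okU x0 c Lx)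
    (a1 : T0 ≤ t0) (a2 : lastc t0 Lt ≤ T1) (a3 : V0 ≤ v0) (a4 : lastc v0 Lv ≤ V1)
    (a5 : X0 ≤ x0) (a6 : lastc x0 Lx ≤ X1)
    (pt : t0 < lastc t0 Lt) (pv' : v0 < lastc v0 Lv) (px : x0 < lastc x0 Lx)
    (lt : lastc t0 Lt + v0 + 2 * x0 ≤ 2 * π) (lv : t0 + lastc v0 Lv + 2 * x0 ≤ 2 * π)
    (lx : t0 + v0 + 2 * lastc x0 Lx ≤ 2 * π)
    (hs : 4 * π < t0 + v0 + 2 * x0 + (lastc t0 Lt + lastc v0 Lv + 2 * lastc x0 Lx))
    (e1 : pm t0 Lt = pm x0 Lx) (e2 : pm v0 Lv = pm x0 Lx) (h0 : 0 ≤ pm x0 Lx)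
    (e3 : pq t0 Lt + pq v0 Lv + 2 * pq x0 Lx = 2 * π * pm x0 Lx) :
    pv D t0 Lt + M * pv D v0 Lv + (M + 1) * pv D x0 Lx ≤ 0 := by
  obtain ⟨lam, k1, k2, k3, hk, w1, w2, w3⟩ := W (f1 := fun s => 1 * D (t0 + 1 * s))
    (f2 := fun s => M * D (v0 + 1 * s)) (f3 := fun s => (M + 1) * D (x0 + 1 / 2 * s))
    (by fun_prop) (by fun_prop) (by fun_prop) (c := 2 * π - t0 - v0 - 2 * x0)
    (l1 := lastc t0 Lt - t0) (l2 := lastc v0 Lv - v0) (l3 := 2 * (lastc x0 Lx - x0))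
    (by linarith) (by linarith) (by linarith) (by linarith) (by linarith) (by linarith)
    (by linarith) fun x y z p1 p2 p3 p4 p5 p6 p7 => by
      rw [one_mul]
      apply hB <;> linarith
  have q1 := part_up hD (w := 1) (k := k1 - lam * t0) (lam := lam) ot fun y p q => by
    have h1 := w1 (y - t0) (by linarith) (by linarith)
    have h2 := int_Part hD 1 t0 1 (y - t0)
    rw [show t0 + 1 * (y - t0) = y by ring] at h2
    linarith
  have q2 := part_up hD (w := M) (k := k2 - lam * v0) (lam := lam) ov fun y p q => by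
    have h1 := w2 (y - v0) (by linarith) (by linarith)
    have h2 := int_Part hD M v0 1 (y - v0)
    rw [show v0 + 1 * (y - v0) = y by ring] at h2
    linarith
  have q3 := part_up hD (w := M + 1) (k := k3 - 2 * lam * x0) (lam := 2 * lam) ox fun y p q => by
    have h1 := w3 (2 * (y - x0)) (by linarith) (by linarith)
    have h2 := int_Part hD (M + 1) x0 (1 / 2) (2 * (y - x0))
    rw [show x0 + 1 / 2 * (2 * (y - x0)) = y by ring] at h2
    linarith
  have q4 := mul_nonneg (neg_nonneg.2 hk) h0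
  rw [e1] at q1
  rw [e2] at q2
  linear_combination q1 + q2 + q3 + q4 + lam * e3

/-- anchors at the upper ends -/
theorem frame_down
    (W : ∀ {f1 f2 f3 : ℝ → ℝ}, Continuous f1 → Continuous f2 → Continuous f3 →
      ∀ {c l1 l2 l3 : ℝ}, 0 < l1 → 0 < l2 → 0 < l3 → l1 ≤ c → l2 ≤ c → l3 ≤ c →
      2 * c < l1 + l2 + l3 →
      (∀ x y z, 0 ≤ x → x ≤ l1 → 0 ≤ y → y ≤ l2 → 0 ≤ z → z ≤ l3 → x + y + z = c →
        f1 x + f2 y + f3 z ≤ 0) →
      ∃ lam k1 k2 k3 : ℝ, k1 + k2 + k3 + c * lam ≤ 0 ∧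
        (∀ t, 0 ≤ t → t ≤ l1 → ∫ s in (0 : ℝ)..t, f1 s ≤ k1 * t + lam * t ^ 2 / 2) ∧
        (∀ t, 0 ≤ t → t ≤ l2 → ∫ s in (0 : ℝ)..t, f2 s ≤ k2 * t + lam * t ^ 2 / 2) ∧
        (∀ t, 0 ≤ t → t ≤ l3 → ∫ s in (0 : ℝ)..t, f3 s ≤ k3 * t + lam * t ^ 2 / 2))
    (hD : Continuous D) {T0 T1 V0 V1 X0 X1 t0 v0 x0 a b c : ℝ} {Lt Lv Lx : List Cell}
    (hB : Box M D T0 T1 V0 V1 X0 X1)
    (ot : okD t0 a Lt) (ov : okD v0 b Lv) (ox : okD x0 c Lx)
    (a1 : T0 ≤ lastc t0 Lt) (a2 : t0 ≤ T1) (a3 : V0 ≤ lastc v0 Lv) (a4 : v0 ≤ V1)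
    (a5 : X0 ≤ lastc x0 Lx) (a6 : x0 ≤ X1)
    (pt : lastc t0 Lt < t0) (pv' : lastc v0 Lv < v0) (px : lastc x0 Lx < x0)
    (lt : 2 * π ≤ lastc t0 Lt + v0 + 2 * x0) (lv : 2 * π ≤ t0 + lastc v0 Lv + 2 * x0)
    (lx : 2 * π ≤ t0 + v0 + 2 * lastc x0 Lx)
    (hs : t0 + v0 + 2 * x0 + (lastc t0 Lt + lastc v0 Lv + 2 * lastc x0 Lx) < 4 * π)
    (e1 : pm t0 Lt = pm x0 Lx) (e2 : pm v0 Lv = pm x0 Lx) (h0 : pm x0 Lx ≤ 0)
    (e3 : pq t0 Lt + pq v0 Lv + 2 * pq x0 Lx = 2 * π * pm x0 Lx) :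
    0 ≤ pv D t0 Lt + M * pv D v0 Lv + (M + 1) * pv D x0 Lx := by
  obtain ⟨lam, k1, k2, k3, hk, w1, w2, w3⟩ := W (f1 := fun s => 1 * D (t0 + -1 * s))
    (f2 := fun s => M * D (v0 + -1 * s)) (f3 := fun s => (M + 1) * D (x0 + -1 / 2 * s))
    (by fun_prop) (by fun_prop) (by fun_prop) (c := t0 + v0 + 2 * x0 - 2 * π)
    (l1 := t0 - lastc t0 Lt) (l2 := v0 - lastc v0 Lv) (l3 := 2 * (x0 - lastc x0 Lx))
    (by linarith) (by linarith) (by linarith) (by linarith) (by linarith) (by linarith)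
    (by linarith) fun x y z p1 p2 p3 p4 p5 p6 p7 => by
      rw [one_mul]
      apply hB <;> linarith
  have q1 := part_down hD (w := 1) (k := k1 + lam * t0) (lam := -lam) ot fun y p q => by
    have h1 := w1 (t0 - y) (by linarith) (by linarith)
    have h2 := int_Part hD 1 t0 (-1) (t0 - y)
    rw [show t0 + -1 * (t0 - y) = y by ring] at h2
    linarith
  have q2 := part_down hD (w := M) (k := k2 + lam * v0) (lam := -lam) ov fun y p q => by
    have h1 := w2 (v0 - y) (by linarith) (by linarith)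
    have h2 := int_Part hD M v0 (-1) (v0 - y)
    rw [show v0 + -1 * (v0 - y) = y by ring] at h2
    linarith
  have q3 := part_down hD (w := M + 1) (k := k3 + 2 * lam * x0) (lam := -2 * lam) ox
    fun y p q => by
    have h1 := w3 (2 * (x0 - y)) (by linarith) (by linarith)
    have h2 := int_Part hD (M + 1) x0 (-1 / 2) (2 * (x0 - y))
    rw [show x0 + -1 / 2 * (2 * (x0 - y)) = y by ring] at h2
    linarith
  have q4 := mul_nonneg_of_nonpos_of_nonpos hk h0
  rw [e1] at q1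
  rw [e2] at q2
  linear_combination q1 + q2 + q3 + q4 + lam * e3

end Pool.Agent.MP_e5b4ec_an.Mid
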