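import Pool.Agent.MP_e5b4ec_an.Defs

open Real

namespace Pool.Agent.MP_e5b4ec_an.Mid

/-- relative heights of the twelve steps of the extremal density, with `a = (M+1)/2`,
`b = (M+1)/(2M)` : `1, b, 1/a, s, s/a, 1/a^2, b/a, 1/a, b/a, b^2/a, b/a^2, s b/a`. -/
noncomputable def dd (M s : ℝ) : ℕ → ℝ
  | 0 => 1
  | 1 => (M + 1) / (2 * M)
  | 2 => 2 / (M + 1)
  | 3 => s
  | 4 => 2 * s / (M + 1)
  | 5 => 4 / (M + 1) ^ 2
  | 6 => 1 / M
  | 7 => 2 / (M + 1)
  | 8 => 1 / M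
  | 9 => (M + 1) / (2 * M ^ 2)
  | 10 => 2 / (M * (M + 1))
  | _ => s / M

/-- mass of the step density on `[p 0, p k]` -/
noncomputable def cum (M s : ℝ) (p : ℕ → ℝ) (k : ℕ) : ℝ :=
  ∑ i ∈ Finset.range k, dd M s i * (p (i + 1) - p i)

/-- the integral of `sin` over `[p i, p (i+1)]` -/
noncomputable def mu (p : ℕ → ℝ) (i : ℕ) : ℝ := cos (p i) - cos (p (i + 1))

/-- the integral of `θ * sin θ` over `[p i, p (i+1)]` -/
noncomputable def nu (p : ℕ → ℝ) (i : ℕ) : ℝ :=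
  (sin (p (i + 1)) - p (i + 1) * cos (p (i + 1))) - (sin (p i) - p i * cos (p i))

/-- the linear part of the system: end points, three corners, two contact equations -/
structure Lin (M s : ℝ) (p : ℕ → ℝ) : Prop where
  e0 : p 0 = 0
  e12 : p 12 = π
  e5 : p 3 + p 11 + 2 * p 5 = 2 * π
  e6 : p 2 + p 10 + 2 * p 6 = 2 * π
  e7 : p 1 + p 9 + 2 * p 7 = 2 * π
  c1 : (M + 1) * cum M s p 6 + cum M s p 2 + M * cum M s p 10 = 2 * M * cum M s p 12
  c2 : (M + 1) * (cum M s p 2 - dd M s 2 * p 2) = M * (cum M s p 6 - dd M s 6 * p 6)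

/-- the trigonometric part of the system: five mass and two moment equations -/
structure Trig (M : ℝ) (p : ℕ → ℝ) : Prop where
  mE : mu p 4 = (M + 1) * mu p 3
  mC : M * mu p 5 = (M + 1) * mu p 10
  mD : M * mu p 1 = mu p 9
  mB : M * mu p 7 = (M + 1) * mu p 8
  mA : M * ((M + 1) * mu p 2 - mu p 5) = (M + 1) ^ 2 * ((M + 1) * mu p 1 - mu p 6)
  qE : nu p 3 + 2 * nu p 4 / (M + 1) + nu p 11 / M = π * (mu p 3 + mu p 11 / M)
  qA : ((M + 1) * (2 * π * mu p 1 - nu p 1 - nu p 9 / M) / 2 - nu p 6) / M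
      - 2 * (nu p 2 - (2 * π * mu p 10 / M - nu p 10 / M - 2 * nu p 5 / (M + 1))) / (M + 1)
      + (2 * π * mu p 8 / M - nu p 8 / M - 2 * nu p 7 / (M + 1)) = nu p 0

/-- first Fourier coefficient of the homeomorphism with the step density -/
noncomputable def val (M s : ℝ) (p : ℕ → ℝ) : ℝ :=
  2 * (∑ i ∈ Finset.range 12, dd M s i * (sin (p (i + 1)) - sin (p i))) / cum M s p 12

end Pool.Agent.MP_e5b4ec_an.Mid
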