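import Pool.Agent.MP_e5b4ec_an.Mid.TaD

set_option maxRecDepth 20000
set_option linter.unusedSimpArgs false
set_option linter.unusedVariables false

open Real

namespace Pool.Agent.MP_e5b4ec_an.Mid

namespace Ta

variable {K E p : ℕ → ℝ}

theorem okC0t (h : TaH K E p) : okD (E 51) ((E 2003) + ((E 342) * (E 51))) (TaC0t E) :=
  okD_L ((inc h).le 50 51 rfl) (mono1 (hz h) (hpi h) ((inc h).le 36 50 rfl) ((inc h).le 51 79 rfl)) le_rfl (P1 h).2.2.2.2.1 <|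
  okD_L ((inc h).le 49 50 rfl) (mono1 (hz h) (hpi h) ((inc h).le 36 49 rfl) ((inc h).le 50 79 rfl)) (le_of_jump (P1 h).2.2.2.2.2.1 (by linear_combination ((1)) * (V0 h).2.2.2.1 + (-(1)) * (V0 h).2.2.2.2.1)) (P1 h).2.2.2.2.2.2.1 <|
  (nn_of_zero (by linear_combination ((1)) * (V0 h).2.2.2.2.1))

theorem okC0v (h : TaH K E p) : okD (E 76) (E 330) (TaC0v E) :=
  okD_C ((inc h).le 75 76 rfl) (mono1 (hz h) (hpi h) ((inc h).le 36 75 rfl) ((inc h).le 76 79 rfl)) le_rfl <|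
  (nn_of_eq (P1 h).2.2.2.2.2.2.2.1 (by ring))

theorem okC0x (h : TaH K E p) : okD (E 55) (((E 2117) + ((E 24) * (E 124))) + ((E 674) * (E 55))) (TaC0x E) :=
  okD_R (F6 h).2.2.2.2.2.2.1 (F6 h).2.2.2.2.2.2.2.1 (F6 h).2.2.2.2.1 (F6 h).2.2.2.2.2.1 ((inc h).le 54 55 rfl) (mono1 (hz h) (hpi h) ((inc h).le 36 54 rfl) ((inc h).le 55 79 rfl)) le_rfl (P1 h).2.2.2.2.2.2.2.2.1 (P1 h).2.2.2.2.2.2.2.2.2.1 <|
  (nn_of_eq (P1 h).2.2.2.2.2.2.2.2.2.2.1 (by linear_combination ((1)) * (V7 h).2.2.2.2.2.1 + ((E 54)) * (F40 h).2.2.2.2.2.2.2.2.2.2.2.2.1))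

theorem okC1t (h : TaH K E p) : okU (E 47) (E 356) (TaC1t E) :=
  okU_C ((inc h).le 47 48 rfl) (mono1 (hz h) (hpi h) ((inc h).le 36 47 rfl) ((inc h).le 48 79 rfl)) le_rfl <|
  okU_C ((inc h).le 48 49 rfl) (mono1 (hz h) (hpi h) ((inc h).le 36 48 rfl) ((inc h).le 49 79 rfl)) (le_of_jump (P1 h).2.2.2.2.2.2.2.2.2.2.2.1 (by ring)) <|
  okU_C ((inc h).le 49 50 rfl) (mono1 (hz h) (hpi h) ((inc h).le 36 49 rfl) ((inc h).le 50 79 rfl)) (le_of_jump (P1 h).2.2.2.2.2.2.2.2.2.2.2.2.1 (by ring)) <|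
  (nn_of_eq (P1 h).2.2.2.2.2.2.2.2.2.2.2.2.2.1 (by ring))

theorem okC1v (h : TaH K E p) : okU (E 74) (((E 2118) + ((E 23) * (E 162))) + ((E 675) * (E 74))) (TaC1v E) :=
  okU_R (F8 h).2.2.2.2.2.2.2.2.2.2.2.2.1 (F8 h).2.2.2.2.2.2.2.2.2.2.2.2.2.1 (F8 h).2.2.2.2.2.2.2.2.2.2.2.2.2.2.1 (F8 h).2.2.2.2.2.2.2.2.2.2.2.2.2.2.2.1 ((inc h).le 74 75 rfl) (mono1 (hz h) (hpi h) ((inc h).le 36 74 rfl) ((inc h).le 75 79 rfl)) le_rfl (P1 h).2.2.2.2.2.2.2.2.2.2.2.2.2.2.1 (P1 h).2.2.2.2.2.2.2.2.2.2.2.2.2.2.2.1 <|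
  okU_R (F8 h).2.2.2.2.2.2.2.2.2.2.2.2.2.2.1 (F8 h).2.2.2.2.2.2.2.2.2.2.2.2.2.2.2.1 (F9 h).1 (F9 h).2.1 ((inc h).le 75 76 rfl) (mono1 (hz h) (hpi h) ((inc h).le 36 75 rfl) ((inc h).le 76 79 rfl)) (le_of_jump (P1 h).2.2.2.2.2.2.2.1 (by linear_combination ((1)) * (V7 h).2.2.2.2.2.2.1 + ((E 75)) * (F40 h).2.2.2.2.2.2.2.2.2.2.2.2.2.1 + (-(1)) * (rs23 h).vh + (-(1)) * (V7 h).2.2.2.2.2.2.2.1 + (-(E 75)) * (F40 h).2.2.2.2.2.2.2.2.2.2.2.2.2.2.1)) (P2 h).1 (P2 h).2.1 <|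
  (nn_of_eq (P2 h).2.2.1 (by linear_combination ((1)) * (V7 h).2.2.2.2.2.2.2.1 + ((E 76)) * (F40 h).2.2.2.2.2.2.2.2.2.2.2.2.2.2.1))

theorem okC1x (h : TaH K E p) : okU (E 55) (((E 2120) + ((E 24) * (E 124))) + ((E 677) * (E 55))) (TaC1x E) :=
  okU_R (F6 h).2.2.2.2.2.2.1 (F6 h).2.2.2.2.2.2.2.1 (F6 h).2.2.2.2.2.2.2.2.1 (F6 h).2.2.2.2.2.2.2.2.2.1 ((inc h).le 55 56 rfl) (mono1 (hz h) (hpi h) ((inc h).le 36 55 rfl) ((inc h).le 56 79 rfl)) le_rfl (P2 h).2.2.2.1 (P2 h).2.2.2.2.1 <|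
  (nn_of_eq (P2 h).2.2.2.2.2.1 (by linear_combination ((1)) * (V7 h).2.2.2.2.2.2.2.2.1 + ((E 56)) * (F40 h).2.2.2.2.2.2.2.2.2.2.2.2.2.2.2.1 + (-(1)) * (rs24 h).vh))

theorem okD1t (h : TaH K E p) : okU (E 45) (E 420) (TaD1t E) :=
  okU_C ((inc h).le 45 46 rfl) (mono1 (hz h) (hpi h) ((inc h).le 36 45 rfl) ((inc h).le 46 79 rfl)) le_rfl <|
  (nn_of_eq (P2 h).2.2.2.2.2.2.1 (by ring))

theorem okD1v (h : TaH K E p) : okU (E 72) (((E 2121) + ((E 23) * (E 158))) + ((E 678) * (E 72))) (TaD1v E) :=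
  okU_R (F8 h).2.2.2.2.2.2.2.2.1 (F8 h).2.2.2.2.2.2.2.2.2.1 (F8 h).2.2.2.2.2.2.2.2.2.2.1 (F8 h).2.2.2.2.2.2.2.2.2.2.2.1 ((inc h).le 72 73 rfl) (mono1 (hz h) (hpi h) ((inc h).le 36 72 rfl) ((inc h).le 73 79 rfl)) le_rfl (P2 h).2.2.2.2.2.2.2.1 (P2 h).2.2.2.2.2.2.2.2.1 <|
  okU_R (F8 h).2.2.2.2.2.2.2.2.2.2.1 (F8 h).2.2.2.2.2.2.2.2.2.2.2.1 (F8 h).2.2.2.2.2.2.2.2.2.2.2.2.1 (F8 h).2.2.2.2.2.2.2.2.2.2.2.2.2.1 ((inc h).le 73 74 rfl) (mono1 (hz h) (hpi h) ((inc h).le 36 73 rfl) ((inc h).le 74 79 rfl)) (le_of_jump (P2 h).2.2.2.2.2.2.2.2.2.1 (by linear_combination ((1)) * (V7 h).2.2.2.2.2.2.2.2.2.1 + ((E 73)) * (F41 h).1 + (-(1)) * (rs29 h).vh + (-(1)) * (V7 h).2.2.2.2.2.2.2.2.2.2.1 + (-(E 73)) * (F41 h).2.1 + ((1)) * (rs26 h).vl)) (P2 h).2.2.2.2.2.2.2.2.2.2.1 (P2 h).2.2.2.2.2.2.2.2.2.2.2.1 <|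
  (nn_of_eq (P2 h).2.2.2.2.2.2.2.2.2.2.2.2.1 (by linear_combination ((1)) * (V7 h).2.2.2.2.2.2.2.2.2.2.1 + ((E 74)) * (F41 h).2.1 + (-(1)) * (rs26 h).vh))

theorem okD1x (h : TaH K E p) : okU (E 57) (((E 2123) + ((E 24) * (E 128))) + ((E 680) * (E 57))) (TaD1x E) :=
  okU_R (F6 h).2.2.2.2.2.2.2.2.2.2.1 (F6 h).2.2.2.2.2.2.2.2.2.2.2.1 (F6 h).2.2.2.2.2.2.2.2.2.2.2.2.1 (F6 h).2.2.2.2.2.2.2.2.2.2.2.2.2.1 ((inc h).le 57 58 rfl) (mono1 (hz h) (hpi h) ((inc h).le 36 57 rfl) ((inc h).le 58 79 rfl)) le_rfl (P2 h).2.2.2.2.2.2.2.2.2.2.2.2.2.1 (P2 h).2.2.2.2.2.2.2.2.2.2.2.2.2.2.1 <|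
  (nn_of_eq (P2 h).2.2.2.2.2.2.2.2.2.2.2.2.2.2.2.1 (by linear_combination ((1)) * (V7 h).2.2.2.2.2.2.2.2.2.2.2.1 + ((E 58)) * (F41 h).2.2.1 + (((E 24) * (E 0))) * (V0 h).2.2.2.2.2.2.1 + (-(((E 24) * (E 0)) * E 422)) * (nw82 h) + (-(1)) * (rs30 h).vh + (((E 24) * (E 0))) * (rs32 h).vl + (-(((E 24) * (E 0)) * E 322)) * (nw82 h)))

theorem okD2t (h : TaH K E p) : okD (E 47) (((E 2124) + ((((1 : ℤ) : ℝ) / ((1 : ℕ) : ℝ)) * (E 108))) + ((E 681) * (E 47))) (TaD2t E) :=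
  okD_R (F5 h).2.2.2.2.2.2.1 (F5 h).2.2.2.2.2.2.2.1 (F5 h).2.2.2.2.1 (F5 h).2.2.2.2.2.1 ((inc h).le 46 47 rfl) (mono1 (hz h) (hpi h) ((inc h).le 36 46 rfl) ((inc h).le 47 79 rfl)) le_rfl (P3 h).1 (P3 h).2.1 <|
  okD_R (F5 h).2.2.2.2.1 (F5 h).2.2.2.2.2.1 (F5 h).2.2.1 (F5 h).2.2.2.1 ((inc h).le 45 46 rfl) (mono1 (hz h) (hpi h) ((inc h).le 36 45 rfl) ((inc h).le 46 79 rfl)) (le_of_jump (P3 h).2.2.1 (by linear_combination ((1)) * (V7 h).2.2.2.2.2.2.2.2.2.2.2.2.1 + ((E 46)) * (F41 h).2.2.2.1 + (-(1)) * (rs25 h).vl + (-(1)) * (V7 h).2.2.2.2.2.2.2.2.2.2.2.2.2.1 + (-(E 46)) * (F41 h).2.2.2.2.1 + ((1)) * (rs28 h).vh)) (P3 h).2.2.2.1 (P3 h).2.2.2.2.1 <|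
  (nn_of_eq (P3 h).2.2.2.2.2.1 (by linear_combination ((1)) * (V7 h).2.2.2.2.2.2.2.2.2.2.2.2.2.1 + ((E 45)) * (F41 h).2.2.2.2.1 + (-(1)) * (rs28 h).vl))

theorem okD2v (h : TaH K E p) : okD (E 74) (E 421) (TaD2v E) :=
  okD_C ((inc h).le 73 74 rfl) (mono1 (hz h) (hpi h) ((inc h).le 36 73 rfl) ((inc h).le 74 79 rfl)) le_rfl <|
  (nn_of_eq (P3 h).2.2.2.2.2.2.1 (by ring))

theorem okD2x (h : TaH K E p) : okD (E 57) (((E 2126) + ((E 24) * (E 128))) + ((E 683) * (E 57))) (TaD2x E) :=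
  okD_R (F6 h).2.2.2.2.2.2.2.2.2.2.1 (F6 h).2.2.2.2.2.2.2.2.2.2.2.1 (F6 h).2.2.2.2.2.2.2.2.1 (F6 h).2.2.2.2.2.2.2.2.2.1 ((inc h).le 56 57 rfl) (mono1 (hz h) (hpi h) ((inc h).le 36 56 rfl) ((inc h).le 57 79 rfl)) le_rfl (P3 h).2.2.2.2.2.2.2.1 (P3 h).2.2.2.2.2.2.2.2.1 <|
  (nn_of_eq (P3 h).2.2.2.2.2.2.2.2.2.1 (by linear_combination ((1)) * (V7 h).2.2.2.2.2.2.2.2.2.2.2.2.2.2.1 + ((E 56)) * (F41 h).2.2.2.2.2.1 + (-(1)) * (rs27 h).vl + (((E 24) * (E 0))) * (rs32 h).vh + (-(((E 24) * (E 0)) * E 322)) * (nw84 h)))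

theorem okAt (h : TaH K E p) : okD (E 43) (E 435) (TaAt E) :=
  okD_C ((inc h).le 39 43 rfl) (mono1 (hz h) (hpi h) ((inc h).le 36 39 rfl) ((inc h).le 43 79 rfl)) le_rfl <|
  okD_C ((inc h).le 36 39 rfl) (mono1 (hz h) (hpi h) ((inc h).le 36 36 rfl) ((inc h).le 39 79 rfl)) (le_of_jump (P3 h).2.2.2.2.2.2.2.2.2.2.1 (by ring)) <|
  okD_C ((inc h).le 35 36 rfl) (mono2 (hmpi h) (hz h) ((inc h).le 32 35 rfl) ((inc h).le 36 36 rfl)) le_rfl <|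
  okD_L ((inc h).le 34 35 rfl) (mono2 (hmpi h) (hz h) ((inc h).le 32 34 rfl) ((inc h).le 35 36 rfl)) (le_of_jump (P3 h).2.2.2.2.2.2.2.2.2.2.2.1 (by linear_combination (-(1)) * (V0 h).2.2.2.2.2.1)) (P3 h).2.2.2.2.2.2.2.2.2.2.2.2.1 <|
  (nn_of_zero (by linear_combination ((1)) * (V0 h).2.2.2.2.2.1))

theorem okAv (h : TaH K E p) : okD (E 84) (E 419) (TaAv E) :=
  okD_C ((inc h).le 83 84 rfl) (mono3 (hpi h) (h2pi h) ((inc h).le 79 83 rfl) ((inc h).le 84 85 rfl)) le_rfl <|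
  okD_L ((inc h).le 82 83 rfl) (mono3 (hpi h) (h2pi h) ((inc h).le 79 82 rfl) ((inc h).le 83 85 rfl)) (le_of_tie (by linear_combination (-(1)) * (V0 h).2.2.2.2.2.2.1)) (P3 h).2.2.2.2.2.2.2.2.2.2.2.2.2.1 <|
  (nn_of_eq (P3 h).2.2.2.2.2.2.2.2.2.2.2.2.2.2.1 (by linear_combination ((1)) * (V0 h).2.2.2.2.2.2.1))

theorem okAx (h : TaH K E p) : okD (E 51) (((E 2127) + ((E 24) * (E 116))) + ((E 684) * (E 51))) (TaAx E) :=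
  okD_R (F5 h).2.2.2.2.2.2.2.2.2.2.2.2.2.2.1 (F5 h).2.2.2.2.2.2.2.2.2.2.2.2.2.2.2.1 (F5 h).2.2.2.2.2.2.2.2.2.2.2.2.1 (F5 h).2.2.2.2.2.2.2.2.2.2.2.2.2.1 ((inc h).le 50 51 rfl) (mono1 (hz h) (hpi h) ((inc h).le 36 50 rfl) ((inc h).le 51 79 rfl)) le_rfl (P3 h).2.2.2.2.2.2.2.2.2.2.2.2.2.2.2.1 (P4 h).1 <|
  okD_R (F5 h).2.2.2.2.2.2.2.2.2.2.2.2.1 (F5 h).2.2.2.2.2.2.2.2.2.2.2.2.2.1 (F5 h).2.2.2.2.2.2.2.2.2.2.1 (F5 h).2.2.2.2.2.2.2.2.2.2.2.1 ((inc h).le 49 50 rfl) (mono1 (hz h) (hpi h) ((inc h).le 36 49 rfl) ((inc h).le 50 79 rfl)) (le_of_jump (P4 h).2.1 (by linear_combination ((1)) * (V7 h).2.2.2.2.2.2.2.2.2.2.2.2.2.2.2.1 + ((E 50)) * (F41 h).2.2.2.2.2.2.1 + (-(E 24)) * (V0 h).2.2.2.1 + (-(1)) * (V8 h).1 + (-(E 50)) * (F41 h).2.2.2.2.2.2.2.1 + ((E 24)) * (V0 h).2.2.2.2.1 + ((E 24)) * (rs22 h).vh))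 (P4 h).2.2.1 (P4 h).2.2.2.1 <|
  okD_R (F5 h).2.2.2.2.2.2.2.2.2.2.1 (F5 h).2.2.2.2.2.2.2.2.2.2.2.1 (F5 h).2.2.2.2.2.2.2.2.1 (F5 h).2.2.2.2.2.2.2.2.2.1 ((inc h).le 48 49 rfl) (mono1 (hz h) (hpi h) ((inc h).le 36 48 rfl) ((inc h).le 49 79 rfl)) (le_of_jump (P4 h).2.2.2.2.1 (by linear_combination ((1)) * (V8 h).1 + ((E 49)) * (F41 h).2.2.2.2.2.2.2.1 + (-(E 24)) * (V0 h).2.2.2.2.1 + (-(1)) * (V8 h).2.1 + (-(E 49)) * (F41 h).2.2.2.2.2.2.2.2.1)) (P4 h).2.2.2.2.2.1 (P4 h).2.2.2.2.2.2.1 <|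
  okD_R (F5 h).2.2.2.2.2.2.2.2.1 (F5 h).2.2.2.2.2.2.2.2.2.1 (F5 h).2.2.2.2.2.2.1 (F5 h).2.2.2.2.2.2.2.1 ((inc h).le 47 48 rfl) (mono1 (hz h) (hpi h) ((inc h).le 36 47 rfl) ((inc h).le 48 79 rfl)) (le_of_jump (P4 h).2.2.2.2.2.2.2.1 (by linear_combination ((1)) * (V8 h).2.1 + ((E 48)) * (F41 h).2.2.2.2.2.2.2.2.1 + (-(1)) * (rs33 h).vl + (-(1)) * (V8 h).2.2.1 + (-(E 48)) * (F41 h).2.2.2.2.2.2.2.2.2.1)) (P4 h).2.2.2.2.2.2.2.2.1 (P4 h).2.2.2.2.2.2.2.2.2.1 <|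
  (nn_of_eq (P4 h).2.2.2.2.2.2.2.2.2.2.1 (by linear_combination ((1)) * (V8 h).2.2.1 + ((E 47)) * (F41 h).2.2.2.2.2.2.2.2.2.1 + (-(E 24)) * (rs22 h).vl))

theorem okBt (h : TaH K E p) : okD (E 45) (((E 2131) + ((((1 : ℤ) : ℝ) / ((1 : ℕ) : ℝ)) * (E 104))) + ((E 688) * (E 45))) (TaBt E) :=
  okD_R (F5 h).2.2.1 (F5 h).2.2.2.1 (F5 h).1 (F5 h).2.1 ((inc h).le 44 45 rfl) (mono1 (hz h) (hpi h) ((inc h).le 36 44 rfl) ((inc h).le 45 79 rfl)) le_rfl (P4 h).2.2.2.2.2.2.2.2.2.2.2.1 (P4 h).2.2.2.2.2.2.2.2.2.2.2.2.1 <|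
  okD_R (F5 h).1 (F5 h).2.1 (F4 h).2.2.2.2.2.2.2.2.2.2.2.2.2.2.1 (F4 h).2.2.2.2.2.2.2.2.2.2.2.2.2.2.2.1 ((inc h).le 43 44 rfl) (mono1 (hz h) (hpi h) ((inc h).le 36 43 rfl) ((inc h).le 44 79 rfl)) (le_of_jump (P4 h).2.2.2.2.2.2.2.2.2.2.2.2.2.1 (by linear_combination ((1)) * (V8 h).2.2.2.1 + ((E 44)) * (F41 h).2.2.2.2.2.2.2.2.2.2.1 + (-(1)) * (rs34 h).vl + (-(1)) * (rs37 h).vl + (-(1)) * (V8 h).2.2.2.2.1 + (-(E 44)) * (F41 h).2.2.2.2.2.2.2.2.2.2.2.1 + ((1)) * (rs31 h).vh + ((1)) * (rs46 h).vh + ((1)) * (rs49 h).vh + ((1)) * (rs61 h).vh + ((1)) * (rs64 h).vh)) (P4 h).2.2.2.2.2.2.2.2.2.2.2.2.2.2.1 (P4 h).2.2.2.2.2.2.2.2.2.2.2.2.2.2.2.1 <|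
  okD_R (F4 h).2.2.2.2.2.2.2.2.2.2.2.2.2.2.1 (F4 h).2.2.2.2.2.2.2.2.2.2.2.2.2.2.2.1 (F4 h).2.2.2.2.2.2.2.2.2.2.2.2.1 (F4 h).2.2.2.2.2.2.2.2.2.2.2.2.2.1 ((inc h).le 42 43 rfl) (mono1 (hz h) (hpi h) ((inc h).le 36 42 rfl) ((inc h).le 43 79 rfl)) (le_of_jump (P5 h).1 (by linear_combination ((1)) * (V8 h).2.2.2.2.1 + ((E 43)) * (F41 h).2.2.2.2.2.2.2.2.2.2.2.1 + (-(1)) * (rs40 h).vl + (-(1)) * (rs46 h).vl + (-(1)) * (rs49 h).vl + (-(1)) * (rs61 h).vl + (-(1)) * (V8 h).2.2.2.2.2.1 + (-(E 43)) * (F41 h).2.2.2.2.2.2.2.2.2.2.2.2.1 + ((1)) * (rs52 h).vh + ((1)) * (rs55 h).vh + ((1)) * (rs67 h).vh + ((1)) * (rs73 h).vh + ((1)) * (rs79 h).vh + ((1)) * (rs82 h).vh)) (P5 h).2.1 (P5 h).2.2.1 <|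
  okD_R (F4 h).2.2.2.2.2.2.2.2.2.2.2.2.1 (F4 h).2.2.2.2.2.2.2.2.2.2.2.2.2.1 (F4 h).2.2.2.2.2.2.2.2.2.2.1 (F4 h).2.2.2.2.2.2.2.2.2.2.2.1 ((inc h).le 41 42 rfl) (mono1 (hz h) (hpi h) ((inc h).le 36 41 rfl) ((inc h).le 42 79 rfl)) (le_of_jump (P5 h).2.2.2.1 (by linear_combination ((1)) * (V8 h).2.2.2.2.2.1 + ((E 42)) * (F41 h).2.2.2.2.2.2.2.2.2.2.2.2.1 + (-(1)) * (rs43 h).vl + (-(1)) * (rs52 h).vl + (-(1)) * (rs55 h).vl + (-(1)) * (rs67 h).vl + (-(1)) * (V8 h).2.2.2.2.2.2.1 + (-(E 42)) * (F41 h).2.2.2.2.2.2.2.2.2.2.2.2.2.1 + ((1)) * (rs58 h).vh + ((1)) * (rs70 h).vh + ((1)) * (rs85 h).vh + ((1)) * (rs88 h).vh + ((1)) * (rs91 h).vh)) (P5 h).2.2.2.2.1 (P5 h).2.2.2.2.2.1 <|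
  okD_R (F4 h).2.2.2.2.2.2.2.2.2.2.1 (F4 h).2.2.2.2.2.2.2.2.2.2.2.1 (F4 h).2.2.2.2.2.2.2.2.1 (F4 h).2.2.2.2.2.2.2.2.2.1 ((inc h).le 40 41 rfl) (mono1 (hz h) (hpi h) ((inc h).le 36 40 rfl) ((inc h).le 41 79 rfl)) (le_of_jump (P5 h).2.2.2.2.2.2.1 (by linear_combination ((1)) * (V8 h).2.2.2.2.2.2.1 + ((E 41)) * (F41 h).2.2.2.2.2.2.2.2.2.2.2.2.2.1 + (-(1)) * (rs73 h).vl + (-(1)) * (V8 h).2.2.2.2.2.2.2.1 + (-(E 41)) * (F41 h).2.2.2.2.2.2.2.2.2.2.2.2.2.2.1 + ((1)) * (rs76 h).vh)) (P5 h).2.2.2.2.2.2.2.1 (P5 h).2.2.2.2.2.2.2.2.1 <|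
  okD_R (F4 h).2.2.2.2.2.2.2.2.1 (F4 h).2.2.2.2.2.2.2.2.2.1 (F4 h).2.2.2.2.2.2.1 (F4 h).2.2.2.2.2.2.2.1 ((inc h).le 39 40 rfl) (mono1 (hz h) (hpi h) ((inc h).le 36 39 rfl) ((inc h).le 40 79 rfl)) (le_of_jump (P5 h).2.2.2.2.2.2.2.2.2.1 (by linear_combination ((1)) * (V8 h).2.2.2.2.2.2.2.1 + ((E 40)) * (F41 h).2.2.2.2.2.2.2.2.2.2.2.2.2.2.1 + (-(1)) * (rs58 h).vl + (-(1)) * (rs64 h).vl + (-(1)) * (rs70 h).vl + (-(1)) * (rs79 h).vl + (-(1)) * (rs85 h).vl + (-(1)) * (rs91 h).vl + (-(1)) * (V8 h).2.2.2.2.2.2.2.2.1 + (-(E 40)) * (F41 h).2.2.2.2.2.2.2.2.2.2.2.2.2.2.2.1 + ((1)) * (rs114 h).vh + ((1)) * (rs117 h).vh + ((1)) * (rs123 h).vh)) (P5 h).2.2.2.2.2.2.2.2.2.2.1 (P5 h).2.2.2.2.2.2.2.2.2.2.2.1 <|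
  okD_R (F4 h).2.2.2.2.2.2.1 (F4 h).2.2.2.2.2.2.2.1 (F4 h).2.2.2.2.1 (F4 h).2.2.2.2.2.1 ((inc h).le 38 39 rfl) (mono1 (hz h) (hpi h) ((inc h).le 36 38 rfl) ((inc h).le 39 79 rfl)) (le_of_jump (P5 h).2.2.2.2.2.2.2.2.2.2.2.2.1 (by linear_combination ((1)) * (V8 h).2.2.2.2.2.2.2.2.1 + ((E 39)) * (F41 h).2.2.2.2.2.2.2.2.2.2.2.2.2.2.2.1 + (-(1)) * (rs82 h).vl + (-(1)) * (rs88 h).vl + (-(1)) * (rs123 h).vl + (-(1)) * (V8 h).2.2.2.2.2.2.2.2.2.1 + (-(E 39)) * (F42 h).1 + ((1)) * (rs102 h).vh + ((1)) * (rs111 h).vh + ((1)) * (rs126 h).vh)) (P5 h).2.2.2.2.2.2.2.2.2.2.2.2.2.1 (P5 h).2.2.2.2.2.2.2.2.2.2.2.2.2.2.1 <|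
  okD_R (F4 h).2.2.2.2.1 (F4 h).2.2.2.2.2.1 (F4 h).2.2.1 (F4 h).2.2.2.1 ((inc h).le 37 38 rfl) (mono1 (hz h) (hpi h) ((inc h).le 36 37 rfl) ((inc h).le 38 79 rfl)) (le_of_tie (by linear_combination ((1)) * (V8 h).2.2.2.2.2.2.2.2.2.1 + ((E 38)) * (F42 h).1 + (-(1)) * (rs31 h).vl + (-(1)) * (V8 h).2.2.2.2.2.2.2.2.2.2.1 + (-(E 38)) * (F42 h).2.1 + (-(1)) * (V0 h).2.2.2.2.2.1 + ((1 * E 176)) * (nw34 h) + ((1 * E 324)) * (nw34 h))) (P5 h).2.2.2.2.2.2.2.2.2.2.2.2.2.2.2.1 (P6 h).1 <|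
  okD_R (F4 h).2.2.1 (F4 h).2.2.2.1 (F4 h).1 (F4 h).2.1 ((inc h).le 36 37 rfl) (mono1 (hz h) (hpi h) ((inc h).le 36 36 rfl) ((inc h).le 37 79 rfl)) (le_of_jump (P6 h).2.1 (by linear_combination ((1)) * (V8 h).2.2.2.2.2.2.2.2.2.2.1 + ((E 37)) * (F42 h).2.1 + ((1)) * (V0 h).2.2.2.2.2.1 + (-(1 * E 176)) * (nw35 h) + (-(1)) * (rs111 h).vl + (-(1)) * (rs117 h).vl + (-(1)) * (V8 h).2.2.2.2.2.2.2.2.2.2.2.1 + (-(E 37)) * (F42 h).2.2.1 + (-(1)) * (rs94 h).vl + ((1 * E 326)) * (nw35 h) + ((1)) * (rs94 h).vh + (-(1)) * (rs97 h).vl + ((1 * E 620)) * (nw35 h) + ((1)) * (rs105 h).vh + ((1)) * (rs108 h).vh + ((1)) * (rs120 h).vh + ((1)) * (rs129 h).vh)) (P6 h).2.2.1 (P6 h).2.2.2.1 <|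
  okD_C ((inc h).le 35 36 rfl) (mono2 (hmpi h) (hz h) ((inc h).le 32 35 rfl) ((inc h).le 36 36 rfl)) (le_of_jump (P6 h).2.2.2.2.1 (by linear_combination ((1)) * (V8 h).2.2.2.2.2.2.2.2.2.2.2.1 + ((E 36)) * (F42 h).2.2.1 + ((((1 : ℤ) : ℝ) / ((1 : ℕ) : ℝ))) * (hs0 h) + (-(1 * E 324)) * ((2) * hz h) + (-(1)) * (rs76 h).vl + (-(1 * E 326)) * ((2) * hz h) + ((1)) * (rs97 h).vh + (-(1 * E 620)) * ((2) * hz h) + (-(1)) * (rs102 h).vl + (-(1)) * (rs105 h).vl + (-(1)) * (rs108 h).vl + (-(1)) * (rs114 h).vl + (-(1)) * (rs120 h).vl + (-(1)) * (rs126 h).vl + (-(1)) * (rs129 h).vl)) <|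
  (nn_of_eq (P6 h).2.2.2.2.2.1 (by ring))

theorem okBv (h : TaH K E p) : okD (E 72) (((E 2140) + ((E 23) * (E 158))) + ((E 697) * (E 72))) (TaBv E) :=
  okD_R (F8 h).2.2.2.2.2.2.2.2.1 (F8 h).2.2.2.2.2.2.2.2.2.1 (F8 h).2.2.2.2.2.2.1 (F8 h).2.2.2.2.2.2.2.1 ((inc h).le 71 72 rfl) (mono1 (hz h) (hpi h) ((inc h).le 36 71 rfl) ((inc h).le 72 79 rfl)) le_rfl (P6 h).2.2.2.2.2.2.1 (P6 h).2.2.2.2.2.2.2.1 <|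
  okD_R (F8 h).2.2.2.2.2.2.1 (F8 h).2.2.2.2.2.2.2.1 (F8 h).2.2.2.2.1 (F8 h).2.2.2.2.2.1 ((inc h).le 70 71 rfl) (mono1 (hz h) (hpi h) ((inc h).le 36 70 rfl) ((inc h).le 71 79 rfl)) (le_of_jump (P6 h).2.2.2.2.2.2.2.2.1 (by linear_combination ((1)) * (V8 h).2.2.2.2.2.2.2.2.2.2.2.2.1 + ((E 71)) * (F42 h).2.2.2.1 + (-(1)) * (rs35 h).vl + (-(1)) * (rs95 h).vl + (-(1)) * (rs100 h).vl + (-(1)) * (rs103 h).vl + (-(1)) * (rs109 h).vl + (-(1)) * (V8 h).2.2.2.2.2.2.2.2.2.2.2.2.2.1 + (-(E 71)) * (F42 h).2.2.2.2.1 + ((1)) * (rs47 h).vh + ((1)) * (rs50 h).vh + ((1)) * (rs53 h).vh + ((1)) * (rs56 h).vh + ((1)) * (rs59 h).vh + ((1)) * (rs80 h).vh + ((1)) * (rs86 h).vh + ((1)) * (rs115 h).vh + ((1)) * (rs118 h).vh + ((1)) * (rs121 h).vh + ((1)) * (rs124 h).vh + ((1)) * (rs127 h).vh)) (P6 h).2.2.2.2.2.2.2.2.2.1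 (P6 h).2.2.2.2.2.2.2.2.2.2.1 <|
  okD_R (F8 h).2.2.2.2.1 (F8 h).2.2.2.2.2.1 (F8 h).2.2.1 (F8 h).2.2.2.1 ((inc h).le 69 70 rfl) (mono1 (hz h) (hpi h) ((inc h).le 36 69 rfl) ((inc h).le 70 79 rfl)) (le_of_jump (P6 h).2.2.2.2.2.2.2.2.2.2.2.1 (by linear_combination ((1)) * (V8 h).2.2.2.2.2.2.2.2.2.2.2.2.2.1 + ((E 70)) * (F42 h).2.2.2.2.1 + (-(1)) * (rs98 h).vl + (-(1)) * (rs121 h).vl + (-(1)) * (rs127 h).vl + (-(1)) * (V8 h).2.2.2.2.2.2.2.2.2.2.2.2.2.2.1 + (-(E 70)) * (F42 h).2.2.2.2.2.1 + ((1)) * (rs77 h).vh + ((1)) * (rs130 h).vh)) (P6 h).2.2.2.2.2.2.2.2.2.2.2.2.1 (P6 h).2.2.2.2.2.2.2.2.2.2.2.2.2.1 <|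
  okD_R (F8 h).2.2.1 (F8 h).2.2.2.1 (F8 h).1 (F8 h).2.1 ((inc h).le 68 69 rfl) (mono1 (hz h) (hpi h) ((inc h).le 36 68 rfl) ((inc h).le 69 79 rfl)) (le_of_jump (P6 h).2.2.2.2.2.2.2.2.2.2.2.2.2.2.1 (by linear_combination ((1)) * (V8 h).2.2.2.2.2.2.2.2.2.2.2.2.2.2.1 + ((E 69)) * (F42 h).2.2.2.2.2.1 + (-(1)) * (rs38 h).vl + (-(1)) * (rs47 h).vl + (-(1)) * (rs77 h).vl + (-(1)) * (rs106 h).vl + (-(1)) * (rs112 h).vl + (-(1)) * (rs115 h).vl + (-(1)) * (rs118 h).vl + (-(1)) * (rs130 h).vl + (-(1)) * (V8 h).2.2.2.2.2.2.2.2.2.2.2.2.2.2.2.1 + (-(E 69)) * (F42 h).2.2.2.2.2.2.1 + ((1)) * (rs62 h).vh + ((1)) * (rs65 h).vh + ((1)) * (rs68 h).vh + ((1)) * (rs71 h).vh + ((1)) * (rs74 h).vh + ((1)) * (rs83 h).vh + ((1)) * (rs89 h).vh + ((1)) * (rs92 h).vh)) (P6 h).2.2.2.2.2.2.2.2.2.2.2.2.2.2.2.1 (P7 h).1 <|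
  (nn_of_eq (P7 h).2.1 (by linear_combination ((1)) * (V8 h).2.2.2.2.2.2.2.2.2.2.2.2.2.2.2.1 + ((E 68)) * (F42 h).2.2.2.2.2.2.1 + (-(1)) * (rs41 h).vl + (-(1)) * (rs44 h).vl + (-(1)) * (rs50 h).vl + (-(1)) * (rs53 h).vl + (-(1)) * (rs56 h).vl + (-(1)) * (rs59 h).vl + (-(1)) * (rs62 h).vl + (-(1)) * (rs65 h).vl + (-(1)) * (rs68 h).vl + (-(1)) * (rs71 h).vl + (-(1)) * (rs74 h).vl + (-(1)) * (rs80 h).vl + (-(1)) * (rs83 h).vl + (-(1)) * (rs86 h).vl + (-(1)) * (rs89 h).vl + (-(1)) * (rs92 h).vl + (-(1)) * (rs124 h).vl))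

theorem okBx (h : TaH K E p) : okD (E 68) (((E 2144) + ((E 24) * (E 150))) + ((E 701) * (E 68))) (TaBx E) :=
  okD_R (F8 h).1 (F8 h).2.1 (F7 h).2.2.2.2.2.2.2.2.2.2.2.2.2.2.1 (F7 h).2.2.2.2.2.2.2.2.2.2.2.2.2.2.2.1 ((inc h).le 67 68 rfl) (mono1 (hz h) (hpi h) ((inc h).le 36 67 rfl) ((inc h).le 68 79 rfl)) le_rfl (P7 h).2.2.1 (P7 h).2.2.2.1 <|
  okD_R (F7 h).2.2.2.2.2.2.2.2.2.2.2.2.2.2.1 (F7 h).2.2.2.2.2.2.2.2.2.2.2.2.2.2.2.1 (F7 h).2.2.2.2.2.2.2.2.2.2.2.2.1 (F7 h).2.2.2.2.2.2.2.2.2.2.2.2.2.1 ((inc h).le 66 67 rfl) (mono1 (hz h) (hpi h) ((inc h).le 36 66 rfl) ((inc h).le 67 79 rfl)) (le_of_jump (P7 h).2.2.2.2.1 (by linear_combination ((1)) * (V9 h).1 + ((E 67)) * (F42 h).2.2.2.2.2.2.2.1 + (-(1)) * (rs99 h).vl + (-(1)) * (rs131 h).vl + (-(1)) * (V9 h).2.1 + (-(E 67)) * (F42 h).2.2.2.2.2.2.2.2.1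 + ((1)) * (rs96 h).vh + ((1)) * (rs101 h).vh + ((1)) * (rs107 h).vh + ((1)) * (rs110 h).vh + ((1)) * (rs116 h).vh)) (P7 h).2.2.2.2.2.1 (P7 h).2.2.2.2.2.2.1 <|
  okD_R (F7 h).2.2.2.2.2.2.2.2.2.2.2.2.1 (F7 h).2.2.2.2.2.2.2.2.2.2.2.2.2.1 (F7 h).2.2.2.2.2.2.2.2.2.2.1 (F7 h).2.2.2.2.2.2.2.2.2.2.2.1 ((inc h).le 65 66 rfl) (mono1 (hz h) (hpi h) ((inc h).le 36 65 rfl) ((inc h).le 66 79 rfl)) (le_of_jump (P7 h).2.2.2.2.2.2.2.1 (by linear_combination ((1)) * (V9 h).2.1 + ((E 66)) * (F42 h).2.2.2.2.2.2.2.2.1 + (-(1)) * (rs96 h).vl + (-(1)) * (rs101 h).vl + (-(1)) * (rs107 h).vl + (-(1)) * (rs122 h).vl + (-(1)) * (V9 h).2.2.1 + (-(E 66)) * (F42 h).2.2.2.2.2.2.2.2.2.1 + ((1)) * (rs60 h).vh + ((1)) * (rs66 h).vh + ((1)) * (rs72 h).vh + ((1)) * (rs84 h).vh + ((1)) * (rs90 h).vh + ((1)) * (rs104 h).vh + ((1))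 * (rs113 h).vh + ((1)) * (rs119 h).vh + ((1)) * (rs125 h).vh)) (P7 h).2.2.2.2.2.2.2.2.1 (P7 h).2.2.2.2.2.2.2.2.2.1 <|
  okD_R (F7 h).2.2.2.2.2.2.2.2.2.2.1 (F7 h).2.2.2.2.2.2.2.2.2.2.2.1 (F7 h).2.2.2.2.2.2.2.2.1 (F7 h).2.2.2.2.2.2.2.2.2.1 ((inc h).le 64 65 rfl) (mono1 (hz h) (hpi h) ((inc h).le 36 64 rfl) ((inc h).le 65 79 rfl)) (le_of_jump (P7 h).2.2.2.2.2.2.2.2.2.2.1 (by linear_combination ((1)) * (V9 h).2.2.1 + ((E 65)) * (F42 h).2.2.2.2.2.2.2.2.2.1 + (-(1)) * (rs104 h).vl + (-(1)) * (rs110 h).vl + (-(1)) * (rs113 h).vl + (-(1)) * (rs116 h).vl + (-(1)) * (rs119 h).vl + (-(1)) * (rs125 h).vl + (-(1)) * (rs128 h).vl + (-(1)) * (V9 h).2.2.2.1 + (-(E 65)) * (F42 h).2.2.2.2.2.2.2.2.2.2.1 + ((1)) * (rs93 h).vh)) (P7 h).2.2.2.2.2.2.2.2.2.2.2.1 (P7 h).2.2.2.2.2.2.2.2.2.2.2.2.1 <|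
  okD_R (F7 h).2.2.2.2.2.2.2.2.1 (F7 h).2.2.2.2.2.2.2.2.2.1 (F7 h).2.2.2.2.2.2.1 (F7 h).2.2.2.2.2.2.2.1 ((inc h).le 63 64 rfl) (mono1 (hz h) (hpi h) ((inc h).le 36 63 rfl) ((inc h).le 64 79 rfl)) (le_of_jump (P7 h).2.2.2.2.2.2.2.2.2.2.2.2.2.1 (by linear_combination ((1)) * (V9 h).2.2.2.1 + ((E 64)) * (F42 h).2.2.2.2.2.2.2.2.2.2.1 + (-(1)) * (rs78 h).vl + (-(1)) * (rs90 h).vl + (-(1)) * (rs93 h).vl + (-(1)) * (V9 h).2.2.2.2.1 + (-(E 64)) * (F42 h).2.2.2.2.2.2.2.2.2.2.2.1 + ((1)) * (rs45 h).vh + ((1)) * (rs54 h).vh + ((1)) * (rs69 h).vh + ((1)) * (rs75 h).vh + ((1)) * (rs87 h).vh)) (P7 h).2.2.2.2.2.2.2.2.2.2.2.2.2.2.1 (P7 h).2.2.2.2.2.2.2.2.2.2.2.2.2.2.2.1 <|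
  okD_R (F7 h).2.2.2.2.2.2.1 (F7 h).2.2.2.2.2.2.2.1 (F7 h).2.2.2.2.1 (F7 h).2.2.2.2.2.1 ((inc h).le 62 63 rfl) (mono1 (hz h) (hpi h) ((inc h).le 36 62 rfl) ((inc h).le 63 79 rfl)) (le_of_jump (P8 h).1 (by linear_combination ((1)) * (V9 h).2.2.2.2.1 + ((E 63)) * (F42 h).2.2.2.2.2.2.2.2.2.2.2.1 + (-(1)) * (rs87 h).vl + (-(1)) * (V9 h).2.2.2.2.2.1 + (-(E 63)) * (F42 h).2.2.2.2.2.2.2.2.2.2.2.2.1 + ((1)) * (rs81 h).vh)) (P8 h).2.1 (P8 h).2.2.1 <|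
  okD_R (F7 h).2.2.2.2.1 (F7 h).2.2.2.2.2.1 (F7 h).2.2.1 (F7 h).2.2.2.1 ((inc h).le 61 62 rfl) (mono1 (hz h) (hpi h) ((inc h).le 36 61 rfl) ((inc h).le 62 79 rfl)) (le_of_jump (P8 h).2.2.2.1 (by linear_combination ((1)) * (V9 h).2.2.2.2.2.1 + ((E 62)) * (F42 h).2.2.2.2.2.2.2.2.2.2.2.2.1 + (-(1)) * (rs72 h).vl + (-(1)) * (rs75 h).vl + (-(1)) * (rs81 h).vl + (-(1)) * (rs84 h).vl + (-(1)) * (V9 h).2.2.2.2.2.2.1 + (-(E 62)) * (F42 h).2.2.2.2.2.2.2.2.2.2.2.2.2.1 + ((1)) * (rs42 h).vh + ((1)) * (rs51 h).vh + ((1)) * (rs57 h).vh + ((1)) * (rs63 h).vh)) (P8 h).2.2.2.2.1 (P8 h).2.2.2.2.2.1 <|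
  okD_R (F7 h).2.2.1 (F7 h).2.2.2.1 (F7 h).1 (F7 h).2.1 ((inc h).le 60 61 rfl) (mono1 (hz h) (hpi h) ((inc h).le 36 60 rfl) ((inc h).le 61 79 rfl)) (le_of_jump (P8 h).2.2.2.2.2.2.1 (by linear_combination ((1)) * (V9 h).2.2.2.2.2.2.1 + ((E 61)) * (F42 h).2.2.2.2.2.2.2.2.2.2.2.2.2.1 + (-(1)) * (rs57 h).vl + (-(1)) * (rs60 h).vl + (-(1)) * (rs69 h).vl + (-(1)) * (V9 h).2.2.2.2.2.2.2.1 + (-(E 61)) * (F42 h).2.2.2.2.2.2.2.2.2.2.2.2.2.2.1 + ((1)) * (rs48 h).vh)) (P8 h).2.2.2.2.2.2.2.1 (P8 h).2.2.2.2.2.2.2.2.1 <|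
  okD_R (F7 h).1 (F7 h).2.1 (F6 h).2.2.2.2.2.2.2.2.2.2.2.2.2.2.1 (F6 h).2.2.2.2.2.2.2.2.2.2.2.2.2.2.2.1 ((inc h).le 59 60 rfl) (mono1 (hz h) (hpi h) ((inc h).le 36 59 rfl) ((inc h).le 60 79 rfl)) (le_of_jump (P8 h).2.2.2.2.2.2.2.2.2.1 (by linear_combination ((1)) * (V9 h).2.2.2.2.2.2.2.1 + ((E 60)) * (F42 h).2.2.2.2.2.2.2.2.2.2.2.2.2.2.1 + (-(1)) * (rs54 h).vl + (-(1)) * (rs63 h).vl + (-(1)) * (rs66 h).vl + (-(1)) * (V9 h).2.2.2.2.2.2.2.2.1 + (-(E 60)) * (F42 h).2.2.2.2.2.2.2.2.2.2.2.2.2.2.2.1 + ((1)) * (rs39 h).vh)) (P8 h).2.2.2.2.2.2.2.2.2.2.1 (P8 h).2.2.2.2.2.2.2.2.2.2.2.1 <|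
  okD_R (F6 h).2.2.2.2.2.2.2.2.2.2.2.2.2.2.1 (F6 h).2.2.2.2.2.2.2.2.2.2.2.2.2.2.2.1 (F6 h).2.2.2.2.2.2.2.2.2.2.2.2.1 (F6 h).2.2.2.2.2.2.2.2.2.2.2.2.2.1 ((inc h).le 58 59 rfl) (mono1 (hz h) (hpi h) ((inc h).le 36 58 rfl) ((inc h).le 59 79 rfl)) (le_of_jump (P8 h).2.2.2.2.2.2.2.2.2.2.2.2.1 (by linear_combination ((1)) * (V9 h).2.2.2.2.2.2.2.2.1 + ((E 59)) * (F42 h).2.2.2.2.2.2.2.2.2.2.2.2.2.2.2.1 + (-(1)) * (rs48 h).vl + (-(1)) * (rs51 h).vl + (-(1)) * (V9 h).2.2.2.2.2.2.2.2.2.1 + (-(E 59)) * (F43 h).1 + ((1)) * (rs36 h).vh)) (P8 h).2.2.2.2.2.2.2.2.2.2.2.2.2.1 (P8 h).2.2.2.2.2.2.2.2.2.2.2.2.2.2.1 <|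
  (nn_of_eq (P8 h).2.2.2.2.2.2.2.2.2.2.2.2.2.2.2.1 (by linear_combination ((1)) * (V9 h).2.2.2.2.2.2.2.2.2.1 + ((E 58)) * (F43 h).1 + (-(1)) * (rs36 h).vl + (-(1)) * (rs39 h).vl + (-(1)) * (rs42 h).vl + (-(1)) * (rs45 h).vl))

theorem okE1t (h : TaH K E p) : okU (E 51) (E 497) (TaE1t E) :=
  okU_C ((inc h).le 51 52 rfl) (mono1 (hz h) (hpi h) ((inc h).le 36 51 rfl) ((inc h).le 52 79 rfl)) le_rfl <|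
  (nn_of_eq (P9 h).1 (by ring))

theorem okE1v (h : TaH K E p) : okU (E 76) (((E 2154) + ((E 23) * (E 166))) + ((E 711) * (E 76))) (TaE1v E) :=
  okU_R (F9 h).1 (F9 h).2.1 (F9 h).2.2.1 (F9 h).2.2.2.1 ((inc h).le 76 77 rfl) (mono1 (hz h) (hpi h) ((inc h).le 36 76 rfl) ((inc h).le 77 79 rfl)) le_rfl (P9 h).2.1 (P9 h).2.2.1 <|
  okU_R (F9 h).2.2.1 (F9 h).2.2.2.1 (F9 h).2.2.2.2.1 (F9 h).2.2.2.2.2.1 ((inc h).le 77 78 rfl) (mono1 (hz h) (hpi h) ((inc h).le 36 77 rfl) ((inc h).le 78 79 rfl)) (le_of_jump (P9 h).2.2.2.1 (by linear_combination ((1)) * (V9 h).2.2.2.2.2.2.2.2.2.2.1 + ((E 77)) * (F43 h).2.1 + (-(1)) * (rs133 h).vh + (-(1)) * (V9 h).2.2.2.2.2.2.2.2.2.2.2.1 + (-(E 77)) * (F43 h).2.2.1)) (P9 h).2.2.2.2.1 (P9 h).2.2.2.2.2.1 <|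
  (nn_of_eq (P9 h).2.2.2.2.2.2.1 (by linear_combination ((1)) * (V9 h).2.2.2.2.2.2.2.2.2.2.2.1 + ((E 78)) * (F43 h).2.2.1))

theorem okE1x (h : TaH K E p) : okU (E 53) (((E 2156) + ((E 24) * (E 120))) + ((E 713) * (E 53))) (TaE1x E) :=
  okU_R (F6 h).2.2.1 (F6 h).2.2.2.1 (F6 h).2.2.2.2.1 (F6 h).2.2.2.2.2.1 ((inc h).le 53 54 rfl) (mono1 (hz h) (hpi h) ((inc h).le 36 53 rfl) ((inc h).le 54 79 rfl)) le_rfl (P9 h).2.2.2.2.2.2.2.1 (P9 h).2.2.2.2.2.2.2.2.1 <|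
  (nn_of_eq (P9 h).2.2.2.2.2.2.2.2.2.1 (by linear_combination ((1)) * (V9 h).2.2.2.2.2.2.2.2.2.2.2.2.1 + ((E 54)) * (F43 h).2.2.2.1 + (-(1)) * (rs134 h).vh))

theorem okE2t (h : TaH K E p) : okU (E 51) (E 494) (TaE2t E) :=
  okU_C ((inc h).le 51 52 rfl) (mono1 (hz h) (hpi h) ((inc h).le 36 51 rfl) ((inc h).le 52 79 rfl)) le_rfl <|
  (nn_of_eq (P9 h).2.2.2.2.2.2.2.2.2.2.1 (by ring))

theorem okE2v (h : TaH K E p) : okU (E 78) (((E 2157) + ((E 23) * (E 170))) + ((E 714) * (E 78))) (TaE2v E) :=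
  okU_R (F9 h).2.2.2.2.1 (F9 h).2.2.2.2.2.1 (F9 h).2.2.2.2.2.2.1 (F9 h).2.2.2.2.2.2.2.1 ((inc h).le 78 79 rfl) (mono1 (hz h) (hpi h) ((inc h).le 36 78 rfl) ((inc h).le 79 79 rfl)) le_rfl (P9 h).2.2.2.2.2.2.2.2.2.2.2.1 (P9 h).2.2.2.2.2.2.2.2.2.2.2.2.1 <|
  okU_C ((inc h).le 79 80 rfl) (mono3 (hpi h) (h2pi h) ((inc h).le 79 79 rfl) ((inc h).le 80 85 rfl)) (le_of_tie (by linear_combination ((1)) * (V9 h).2.2.2.2.2.2.2.2.2.2.2.2.2.1 + ((E 79)) * (F43 h).2.2.2.2.1 + ((E 23)) * (hspi h))) <|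
  (nn_of_eq (P9 h).2.2.2.2.2.2.2.2.2.2.2.2.2.1 (by ring))

theorem okE2x (h : TaH K E p) : okU (E 52) (E 492) (TaE2x E) :=
  okU_C ((inc h).le 52 53 rfl) (mono1 (hz h) (hpi h) ((inc h).le 36 52 rfl) ((inc h).le 53 79 rfl)) le_rfl <|
  (nn_of_eq (P9 h).2.2.2.2.2.2.2.2.2.2.2.2.2.2.1 (by ring))

theorem okE3t (h : TaH K E p) : okD (E 52) (((E 2158) + ((((1 : ℤ) : ℝ) / ((1 : ℕ) : ℝ)) * (E 118))) + ((E 715) * (E 52))) (TaE3t E) :=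
  okD_R (F6 h).1 (F6 h).2.1 (F5 h).2.2.2.2.2.2.2.2.2.2.2.2.2.2.1 (F5 h).2.2.2.2.2.2.2.2.2.2.2.2.2.2.2.1 ((inc h).le 51 52 rfl) (mono1 (hz h) (hpi h) ((inc h).le 36 51 rfl) ((inc h).le 52 79 rfl)) le_rfl (P9 h).2.2.2.2.2.2.2.2.2.2.2.2.2.2.2.1 (P10 h).1 <|
  (nn_of_eq (P10 h).2.1 (by linear_combination ((1)) * (V9 h).2.2.2.2.2.2.2.2.2.2.2.2.2.2.1 + ((E 51)) * (F43 h).2.2.2.2.2.1 + (-(1)) * (rs132 h).vl))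

theorem okE3v (h : TaH K E p) : okD (E 80) (E 491) (TaE3v E) :=
  okD_C ((inc h).le 79 80 rfl) (mono3 (hpi h) (h2pi h) ((inc h).le 79 79 rfl) ((inc h).le 80 85 rfl)) le_rfl <|
  okD_C ((inc h).le 78 79 rfl) (mono1 (hz h) (hpi h) ((inc h).le 36 78 rfl) ((inc h).le 79 79 rfl)) le_rfl <|
  okD_C ((inc h).le 77 78 rfl) (mono1 (hz h) (hpi h) ((inc h).le 36 77 rfl) ((inc h).le 78 79 rfl)) (le_of_jump (P10 h).2.2.1 (by ring)) <|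
  (nn_of_eq (P9 h).2.2.2.1 (by ring))

theorem okE3x (h : TaH K E p) : okD (E 53) (((E 2159) + ((E 24) * (E 120))) + ((E 716) * (E 53))) (TaE3x E) :=
  okD_R (F6 h).2.2.1 (F6 h).2.2.2.1 (F6 h).1 (F6 h).2.1 ((inc h).le 52 53 rfl) (mono1 (hz h) (hpi h) ((inc h).le 36 52 rfl) ((inc h).le 53 79 rfl)) le_rfl (P10 h).2.2.2.1 (P10 h).2.2.2.2.1 <|
  (nn_of_eq (P10 h).2.2.2.2.2.1 (by linear_combination ((1)) * (V9 h).2.2.2.2.2.2.2.2.2.2.2.2.2.2.2.1 + ((E 52)) * (F43 h).2.2.2.2.2.2.1))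

theorem amC0t (h : TaH K E p) : E 2160 = (((((E 51) - (E 50)) * (E 343)) + ((((E 51) - (E 50)) * (((((1 : ℤ) : ℝ) / ((2 : ℕ) : ℝ)) * ((E 50) + (E 51))) - (E 51))) * (E 342))) + (((E 50) - (E 49)) * (((E 50) - (E 49)) * (E 174)))) + ((((E 50) - (E 49)) * (((((1 : ℤ) : ℝ) / ((2 : ℕ) : ℝ)) * ((E 49) + (E 50))) - (E 50))) * (E 174)) := by
  linear_combination (V10 h).1

theorem aqC0t (h : TaH K E p) : E 2162 = ((((((E 51) - (E 50)) * ((((1 : ℤ) : ℝ) / ((2 : ℕ) : ℝ)) * ((E 50) + (E 51)))) * (E 343)) + ((((E 51) - (E 50)) * (((((1 : ℤ) : ℝ) / ((3 : ℕ) : ℝ)) * (((((E 50) - (E 51)) * ((E 50) - (E 51))) + (((E 50) - (E 51)) * ((E 51) - (E 51)))) + (((E 51) - (E 51)) * ((E 51) - (E 51))))) + ((E 51) * (((((1 : ℤ) : ℝ) / ((2 : ℕ) : ℝ)) * ((E 50) + (E 51))) - (E 51))))) * (E 342))) + ((((E 50) - (E 49))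 * ((((1 : ℤ) : ℝ) / ((2 : ℕ) : ℝ)) * ((E 49) + (E 50)))) * (((E 50) - (E 49)) * (E 174)))) + ((((E 50) - (E 49)) * (((((1 : ℤ) : ℝ) / ((3 : ℕ) : ℝ)) * (((((E 49) - (E 50)) * ((E 49) - (E 50))) + (((E 49) - (E 50)) * ((E 50) - (E 50)))) + (((E 50) - (E 50)) * ((E 50) - (E 50))))) + ((E 50) * (((((1 : ℤ) : ℝ) / ((2 : ℕ) : ℝ)) * ((E 49) + (E 50))) - (E 50))))) * (E 174)) := by
  linear_combination (V10 h).2.2.1 + (V10 h).2.1 + E 296 * (V10 h).1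

theorem amC0v (h : TaH K E p) : E 2163 = ((E 76) - (E 75)) * (E 330) := by
  linear_combination (V10 h).2.2.2.1

theorem aqC0v (h : TaH K E p) : E 2165 = (((E 76) - (E 75)) * ((((1 : ℤ) : ℝ) / ((2 : ℕ) : ℝ)) * ((E 75) + (E 76)))) * (E 330) := by
  linear_combination (V10 h).2.2.2.2.2.1 + (V10 h).2.2.2.2.1 + E 294 * (V10 h).2.2.2.1

theorem amC0x (h : TaH K E p) : E 2166 = (E 24) * ((E 123) - (E 125)) := by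
  linear_combination (V10 h).2.2.2.2.2.2.1

theorem aqC0x (h : TaH K E p) : E 2168 = (E 24) * (((E 124) - ((E 55) * (E 125))) - ((E 122) - ((E 54) * (E 123)))) := by
  linear_combination (V10 h).2.2.2.2.2.2.2.2.1 + (V10 h).2.2.2.2.2.2.2.1 + E 295 * (V10 h).2.2.2.2.2.2.1

theorem amC1t (h : TaH K E p) : E 2169 = ((((E 48) - (E 47)) * (E 356)) + (((E 49) - (E 48)) * (E 355))) + (((E 50) - (E 49)) * (E 175)) := by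
  linear_combination (V10 h).2.2.2.2.2.2.2.2.2.1

theorem aqC1t (h : TaH K E p) : E 2171 = (((((E 48) - (E 47)) * ((((1 : ℤ) : ℝ) / ((2 : ℕ) : ℝ)) * ((E 47) + (E 48)))) * (E 356)) + ((((E 49) - (E 48)) * ((((1 : ℤ) : ℝ) / ((2 : ℕ) : ℝ)) * ((E 48) + (E 49)))) * (E 355))) + ((((E 50) - (E 49)) * ((((1 : ℤ) : ℝ) / ((2 : ℕ) : ℝ)) * ((E 49) + (E 50)))) * (E 175)) := by
  linear_combination (V10 h).2.2.2.2.2.2.2.2.2.2.2.1 + (V10 h).2.2.2.2.2.2.2.2.2.2.1 + E 299 * (V10 h).2.2.2.2.2.2.2.2.2.1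

theorem amC1v (h : TaH K E p) : E 2172 = (((E 23) * ((E 163) - (E 167))) - ((((1 : ℤ) : ℝ) / ((2 : ℕ) : ℝ)) * (E 177))) - (((E 76) - (E 75)) * (E 330)) := by
  linear_combination (V10 h).2.2.2.2.2.2.2.2.2.2.2.2.1

theorem aqC1v (h : TaH K E p) : E 2174 = (((E 23) * (((E 166) - ((E 76) * (E 167))) - ((E 162) - ((E 74) * (E 163))))) - (((((1 : ℤ) : ℝ) / ((6 : ℕ) : ℝ)) * (((E 74) + (E 74)) + (E 75))) * (E 177))) - ((((E 76) - (E 75)) * ((((1 : ℤ) : ℝ) / ((2 : ℕ) : ℝ)) * ((E 75) + (E 76)))) * (E 330)) := by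
  linear_combination (V10 h).2.2.2.2.2.2.2.2.2.2.2.2.2.2.1 + (V10 h).2.2.2.2.2.2.2.2.2.2.2.2.2.1 + E 297 * (V10 h).2.2.2.2.2.2.2.2.2.2.2.2.1

theorem amC1x (h : TaH K E p) : E 2175 = ((E 24) * ((E 125) - (E 127))) - ((((1 : ℤ) : ℝ) / ((2 : ℕ) : ℝ)) * (E 177)) := by
  linear_combination (V10 h).2.2.2.2.2.2.2.2.2.2.2.2.2.2.2.1

theorem aqC1x (h : TaH K E p) : E 2177 = ((E 24) * (((E 126) - ((E 56) * (E 127))) - ((E 124) - ((E 55) * (E 125))))) - (((((1 : ℤ) : ℝ) / ((6 : ℕ) : ℝ)) * ((E 55) + ((E 56) + (E 56)))) * (E 177)) := by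
  linear_combination (V11 h).2.1 + (V11 h).1 + E 298 * (V10 h).2.2.2.2.2.2.2.2.2.2.2.2.2.2.2.1

theorem amD1t (h : TaH K E p) : E 2178 = ((E 46) - (E 45)) * (E 420) := by
  linear_combination (V11 h).2.2.1

theorem aqD1t (h : TaH K E p) : E 2180 = (((E 46) - (E 45)) * ((((1 : ℤ) : ℝ) / ((2 : ℕ) : ℝ)) * ((E 45) + (E 46)))) * (E 420) := by
  linear_combination (V11 h).2.2.2.2.1 + (V11 h).2.2.2.1 + E 302 * (V11 h).2.2.1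

theorem amD1v (h : TaH K E p) : E 2181 = ((((E 23) * ((E 159) - (E 163))) - ((((1 : ℤ) : ℝ) / ((2 : ℕ) : ℝ)) * (E 181))) - ((((1 : ℤ) : ℝ) / ((2 : ℕ) : ℝ)) * (E 418))) - (((E 74) - (E 73)) * (E 421)) := by
  linear_combination (V11 h).2.2.2.2.2.1

theorem aqD1v (h : TaH K E p) : E 2183 = ((((E 23) * (((E 162) - ((E 74) * (E 163))) - ((E 158) - ((E 72) * (E 159))))) - (((((1 : ℤ) : ℝ) / ((6 : ℕ) : ℝ)) * (((E 73) + (E 73)) + (E 74))) * (E 181))) - (((((1 : ℤ) : ℝ) / ((6 : ℕ) : ℝ)) * ((E 72) + ((E 73) + (E 73)))) * (E 418))) - ((((E 74) - (E 73)) * ((((1 : ℤ) : ℝ) / ((2 : ℕ) : ℝ)) * ((E 73) + (E 74)))) * (E 421)) := by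
  linear_combination (V11 h).2.2.2.2.2.2.2.1 + (V11 h).2.2.2.2.2.2.1 + E 300 * (V11 h).2.2.2.2.2.1

theorem amD1x (h : TaH K E p) : E 2184 = (((((E 24) * ((E 129) - (E 131))) + (((E 24) * (E 0)) * (((E 83) - (E 82)) * ((E 2000) + ((E 322) * ((((1 : ℤ) : ℝ) / ((2 : ℕ) : ℝ)) * ((E 82) + (E 83)))))))) + ((((E 24) * (E 0)) * ((E 83) - (E 82))) * (E 419))) + ((((E 24) * (E 0)) * (((E 83) - (E 82)) * (((((1 : ℤ) : ℝ) / ((2 : ℕ) : ℝ)) * ((E 82) + (E 83))) - (E 83)))) * (E 422))) - ((((1 : ℤ) : ℝ) / ((2 : ℕ) : ℝ)) * (E 418)) := by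
  linear_combination (V11 h).2.2.2.2.2.2.2.2.1 + (-1) * ((E 24) * (E 0)) * ((E 83) - (E 82)) * (rs32 h).vh

theorem aqD1x (h : TaH K E p) : E 2186 = (((((E 24) * (((E 130) - ((E 58) * (E 131))) - ((E 128) - ((E 57) * (E 129))))) - (((E 24) * (E 0)) * ((((E 83) - (E 82)) * (((E 2000) * ((((1 : ℤ) : ℝ) / ((2 : ℕ) : ℝ)) * ((E 82) + (E 83)))) + ((E 322) * ((((1 : ℤ) : ℝ) / ((3 : ℕ) : ℝ)) * ((((E 82) * (E 82)) + ((E 82) * (E 83))) + ((E 83) * (E 83))))))) - ((π + π) * (((E 83) - (E 82)) * ((E 2000) + ((E 322) * ((((1 : ℤ) : ℝ) / ((2 : ℕ) : ℝ)) * ((E 82) + (E 83)))))))))) - ((((E 24) * (E 0)) * ((((E 83) - (E 82)) * ((((1 : ℤ) : ℝ) / ((2 : ℕ) : ℝ)) * ((E 82) + (E 83)))) - ((π + π) * ((E 83) - (E 82))))) * (E 419))) - ((((E 24) * (E 0)) * ((((E 83) - (E 82)) * (((((1 : ℤ) : ℝ) / ((3 : ℕ) : ℝ)) * (((((E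 82) - (E 83)) * ((E 82) - (E 83))) + (((E 82) - (E 83)) * ((E 83) - (E 83)))) + (((E 83) - (E 83)) * ((E 83) - (E 83))))) + ((E 83) * (((((1 : ℤ) : ℝ) / ((2 : ℕ) : ℝ)) * ((E 82) + (E 83))) - (E 83))))) - ((π + π) * (((E 83) - (E 82)) * (((((1 : ℤ) : ℝ) / ((2 : ℕ) : ℝ)) * ((E 82) + (E 83))) - (E 83)))))) * (E 422))) - (((((1 : ℤ) : ℝ) / ((6 : ℕ) : ℝ)) * (((E 57) + (E 57)) + (E 58))) * (E 418)) := by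
  linear_combination (V11 h).2.2.2.2.2.2.2.2.2.2.1 + (V11 h).2.2.2.2.2.2.2.2.2.1 + E 301 * (V11 h).2.2.2.2.2.2.2.2.1 + ((E 24) * (E 0)) * ((E 83) - (E 82)) * ((((1 : ℤ) : ℝ) / ((2 : ℕ) : ℝ)) * ((E 82) + (E 83)) - (π + π)) * (rs32 h).vh

theorem amD2t (h : TaH K E p) : E 2187 = ((((((1 : ℤ) : ℝ) / ((1 : ℕ) : ℝ)) * ((E 105) - (E 109))) - ((((1 : ℤ) : ℝ) / ((2 : ℕ) : ℝ)) * (E 181))) - (((E 46) - (E 45)) * (E 420))) - ((((1 : ℤ) : ℝ) / ((2 : ℕ) : ℝ)) * (E 418)) := by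
  linear_combination (V11 h).2.2.2.2.2.2.2.2.2.2.2.1

theorem aqD2t (h : TaH K E p) : E 2189 = ((((((1 : ℤ) : ℝ) / ((1 : ℕ) : ℝ)) * (((E 108) - ((E 47) * (E 109))) - ((E 104) - ((E 45) * (E 105))))) - (((((1 : ℤ) : ℝ) / ((6 : ℕ) : ℝ)) * (((E 46) + (E 46)) + (E 47))) * (E 181))) - ((((E 46) - (E 45)) * ((((1 : ℤ) : ℝ) / ((2 : ℕ) : ℝ)) * ((E 45) + (E 46)))) * (E 420))) - (((((1 : ℤ) : ℝ) / ((6 : ℕ) : ℝ)) * ((E 45) + ((E 46) + (E 46)))) * (E 418)) := by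
  linear_combination (V11 h).2.2.2.2.2.2.2.2.2.2.2.2.2.1 + (V11 h).2.2.2.2.2.2.2.2.2.2.2.2.1 + E 305 * (V11 h).2.2.2.2.2.2.2.2.2.2.2.1

theorem amD2v (h : TaH K E p) : E 2190 = ((E 74) - (E 73)) * (E 421) := by
  linear_combination (V11 h).2.2.2.2.2.2.2.2.2.2.2.2.2.2.1

theorem aqD2v (h : TaH K E p) : E 2192 = (((E 74) - (E 73)) * ((((1 : ℤ) : ℝ) / ((2 : ℕ) : ℝ)) * ((E 73) + (E 74)))) * (E 421) := by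
  linear_combination (V12 h).1 + (V11 h).2.2.2.2.2.2.2.2.2.2.2.2.2.2.2.1 + E 303 * (V11 h).2.2.2.2.2.2.2.2.2.2.2.2.2.2.1

theorem amD2x (h : TaH K E p) : E 2193 = ((((E 24) * ((E 127) - (E 129))) + (((E 24) * (E 0)) * (((E 84) - (E 83)) * ((E 2000) + ((E 322) * ((((1 : ℤ) : ℝ) / ((2 : ℕ) : ℝ)) * ((E 83) + (E 84)))))))) + ((((E 24) * (E 0)) * ((E 84) - (E 83))) * (E 419))) - ((((1 : ℤ) : ℝ) / ((2 : ℕ) : ℝ)) * (E 181)) := by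
  linear_combination (V12 h).2.1 + (-1) * ((E 24) * (E 0)) * ((E 84) - (E 83)) * (rs32 h).vh

theorem aqD2x (h : TaH K E p) : E 2195 = ((((E 24) * (((E 128) - ((E 57) * (E 129))) - ((E 126) - ((E 56) * (E 127))))) - (((((1 : ℤ) : ℝ) / ((6 : ℕ) : ℝ)) * ((E 56) + ((E 57) + (E 57)))) * (E 181))) - (((E 24) * (E 0)) * ((((E 84) - (E 83)) * (((E 2000) * ((((1 : ℤ) : ℝ) / ((2 : ℕ) : ℝ)) * ((E 83) + (E 84)))) + ((E 322) * ((((1 : ℤ) : ℝ) / ((3 : ℕ) : ℝ)) * ((((E 83) * (E 83)) + ((E 83) * (E 84))) + ((E 84) * (E 84))))))) - ((π + π) * (((E 84) - (E 83)) * ((E 2000) + ((E 322) * ((((1 : ℤ) : ℝ) / ((2 : ℕ) : ℝ)) * ((E 83) + (E 84)))))))))) - ((((E 24) * (E 0)) * ((((E 84) - (E 83)) * ((((1 : ℤ) : ℝ) / ((2 : ℕ) : ℝ)) * ((E 83) + (E 84)))) - ((π + π) * ((E 84) - (E 83))))) * (E 419)) := by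
  linear_combination (V12 h).2.2.2.1 + (V12 h).2.2.1 + E 304 * (V12 h).2.1 + ((E 24) * (E 0)) * ((E 84) - (E 83)) * ((((1 : ℤ) : ℝ) / ((2 : ℕ) : ℝ)) * ((E 83) + (E 84)) - (π + π)) * (rs32 h).vh

theorem amAt (h : TaH K E p) : E 2196 = ((((((E 43) - (E 39)) * (E 435)) + (((E 39) - (E 36)) * (E 434))) + (((E 36) - (E 35)) * (E 434))) + (((E 35) - (E 34)) * (((E 35) - (E 34)) * (E 176)))) + ((((E 35) - (E 34)) * (((((1 : ℤ) : ℝ) / ((2 : ℕ) : ℝ)) * ((E 34) + (E 35))) - (E 35))) * (E 176)) := by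
  linear_combination (V12 h).2.2.2.2.1

theorem aqAt (h : TaH K E p) : E 2198 = (((((((E 43) - (E 39)) * ((((1 : ℤ) : ℝ) / ((2 : ℕ) : ℝ)) * ((E 39) + (E 43)))) * (E 435)) + ((((E 39) - (E 36)) * ((((1 : ℤ) : ℝ) / ((2 : ℕ) : ℝ)) * ((E 36) + (E 39)))) * (E 434))) + ((((E 36) - (E 35)) * ((((1 : ℤ) : ℝ) / ((2 : ℕ) : ℝ)) * ((E 35) + (E 36)))) * (E 434))) + ((((E 35) - (E 34)) * ((((1 : ℤ) : ℝ) / ((2 : ℕ) : ℝ)) * ((E 34) + (E 35)))) * (((E 35) - (E 34)) * (E 176)))) + ((((E 35) - (E 34)) * (((((1 : ℤ) : ℝ) / ((3 : ℕ) : ℝ)) * (((((E 34) - (E 35)) * ((E 34) - (E 35))) + (((E 34) - (E 35)) * ((E 35) - (E 35)))) + (((E 35) - (E 35)) * ((E 35) - (E 35))))) + ((E 35) * (((((1 : ℤ) : ℝ) / ((2 : ℕ) : ℝ)) * ((E 34) + (E 35))) - (E 35))))) * (E 176)) := by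
  linear_combination (V12 h).2.2.2.2.2.2.1 + (V12 h).2.2.2.2.2.1 + E 308 * (V12 h).2.2.2.2.1

theorem amAv (h : TaH K E p) : E 2199 = ((((E 84) - (E 83)) * (E 419)) + (((E 83) - (E 82)) * (E 419))) + ((((E 83) - (E 82)) * (((((1 : ℤ) : ℝ) / ((2 : ℕ) : ℝ)) * ((E 82) + (E 83))) - (E 83))) * (E 422)) := by
  linear_combination (V12 h).2.2.2.2.2.2.2.1

theorem aqAv (h : TaH K E p) : E 2201 = (((((E 84) - (E 83)) * ((((1 : ℤ) : ℝ) / ((2 : ℕ) : ℝ)) * ((E 83) + (E 84)))) * (E 419)) + ((((E 83) - (E 82)) * ((((1 : ℤ) : ℝ) / ((2 : ℕ) : ℝ)) * ((E 82) + (E 83)))) * (E 419))) + ((((E 83) - (E 82)) * (((((1 : ℤ) : ℝ) / ((3 : ℕ) : ℝ)) * (((((E 82) - (E 83)) * ((E 82) - (E 83))) + (((E 82) - (E 83)) * ((E 83) - (E 83)))) + (((E 83) - (E 83)) * ((E 83) - (E 83))))) + ((E 83) * (((((1 : ℤ) : ℝ) / ((2 : ℕ) :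 ℝ)) * ((E 82) + (E 83))) - (E 83))))) * (E 422)) := by
  linear_combination (V12 h).2.2.2.2.2.2.2.2.2.1 + (V12 h).2.2.2.2.2.2.2.2.1 + E 306 * (V12 h).2.2.2.2.2.2.2.1

theorem amAx (h : TaH K E p) : E 2202 = (((((((((E 24) * ((E 109) - (E 117))) - ((((1 : ℤ) : ℝ) / ((2 : ℕ) : ℝ)) * (E 188))) - ((E 24) * ((((E 50) - (E 49)) * (((E 50) - (E 49)) * (E 174))) + ((((E 50) - (E 49)) * (((((1 : ℤ) : ℝ) / ((2 : ℕ) : ℝ)) * ((E 49) + (E 50))) - (E 50))) * (E 174))))) - ((E 24) * (((E 50) - (E 49)) * (E 175)))) - ((E 24) * ((((1 : ℤ) : ℝ) / ((2 : ℕ) : ℝ)) * (E 177)))) - (((E 24) * ((E 51) - (E 50))) * (E 343))) - (((E 24) * (((E 51) - (E 50)) * (((((1 : ℤ) : ℝ) / ((2 : ℕ) : ℝ)) * ((E 50) + (E 51))) - (E 51)))) * (E 342))) - (((E 24) * ((E 49) - (E 48))) * (E 355))) - (((E 24) * ((E 48) - (E 47))) * (E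 356)) := by
  linear_combination (V12 h).2.2.2.2.2.2.2.2.2.2.1

theorem aqAx (h : TaH K E p) : E 2204 = (((((((((E 24) * (((E 116) - ((E 51) * (E 117))) - ((E 108) - ((E 47) * (E 109))))) - (((((1 : ℤ) : ℝ) / ((6 : ℕ) : ℝ)) * (((E 48) + (E 48)) + (E 51))) * (E 188))) - ((E 24) * (((((E 50) - (E 49)) * ((((1 : ℤ) : ℝ) / ((2 : ℕ) : ℝ)) * ((E 49) + (E 50)))) * (((E 50) - (E 49)) * (E 174))) + ((((E 50) - (E 49)) * (((((1 : ℤ) : ℝ) / ((3 : ℕ) : ℝ)) * (((((E 49) - (E 50)) * ((E 49) - (E 50))) + (((E 49) - (E 50)) * ((E 50) - (E 50)))) + (((E 50) - (E 50)) * ((E 50) - (E 50))))) + ((E 50) * (((((1 : ℤ) : ℝ) / ((2 : ℕ) : ℝ)) * ((E 49) + (E 50))) - (E 50))))) * (E 174))))) - ((E 24) * ((((E 50) - (E 49)) * ((((1 : ℤ) : ℝ) / ((2 : ℕ) : ℝ)) * ((E 49) + (E 50)))) * (E 175)))) - ((E 24) * (((((1 : ℤ) :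 ℝ) / ((6 : ℕ) : ℝ)) * (((E 47) + (E 47)) + (E 50))) * (E 177)))) - (((E 24) * (((E 51) - (E 50)) * ((((1 : ℤ) : ℝ) / ((2 : ℕ) : ℝ)) * ((E 50) + (E 51))))) * (E 343))) - (((E 24) * (((E 51) - (E 50)) * (((((1 : ℤ) : ℝ) / ((3 : ℕ) : ℝ)) * (((((E 50) - (E 51)) * ((E 50) - (E 51))) + (((E 50) - (E 51)) * ((E 51) - (E 51)))) + (((E 51) - (E 51)) * ((E 51) - (E 51))))) + ((E 51) * (((((1 : ℤ) : ℝ) / ((2 : ℕ) : ℝ)) * ((E 50) + (E 51))) - (E 51)))))) * (E 342))) - (((E 24) * (((E 49) - (E 48)) * ((((1 : ℤ) : ℝ) / ((2 : ℕ) : ℝ)) * ((E 48) + (E 49))))) * (E 355))) - (((E 24) * (((E 48) - (E 47)) * ((((1 : ℤ) : ℝ) / ((2 : ℕ) : ℝ)) * ((E 47) + (E 48))))) * (E 356)) := by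
  linear_combination (V12 h).2.2.2.2.2.2.2.2.2.2.2.2.1 + (V12 h).2.2.2.2.2.2.2.2.2.2.2.1 + E 307 * (V12 h).2.2.2.2.2.2.2.2.2.2.1

theorem amBt (h : TaH K E p) : E 2205 = ((((((((((((((((((((((((((((((((((((((((((((E 36) - (E 35)) * (E 439)) + (((E 36) - (E 35)) * (E 439))) + ((((1 : ℤ) : ℝ) / ((1 : ℕ) : ℝ)) * ((E 87) - (E 105)))) + (((E 35) - (E 34)) * (((E 35) - (E 34)) * (E 176)))) + ((((E 35) - (E 34)) * (((((1 : ℤ) : ℝ) / ((2 : ℕ) : ℝ)) * ((E 34) + (E 35))) - (E 35))) * (E 176))) + (((E 36) - (E 34)) * ((E 2001) + ((E 324) * ((((1 : ℤ) : ℝ) / ((2 : ℕ) : ℝ)) * ((E 34) + (E 36))))))) + (((E 36) - (E 35)) * ((E 2002) + ((E 326) * ((((1 : ℤ) : ℝ) / ((2 : ℕ) : ℝ)) * ((E 35) + (E 36))))))) + ((((1 : ℤ) : ℝ) / ((2 : ℕ) : ℝ)) * ((E 263) + (E 264)))) + (((E 36) - (E 35)) * (E 434))) - ((((1 : ℤ)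 : ℝ) / ((2 : ℕ) : ℝ)) * (E 192))) - ((((1 : ℤ) : ℝ) / ((2 : ℕ) : ℝ)) * ((E 197) + (E 196)))) - ((((1 : ℤ) : ℝ) / ((2 : ℕ) : ℝ)) * ((E 201) + (E 200)))) - ((((1 : ℤ) : ℝ) / ((2 : ℕ) : ℝ)) * ((E 206) + (E 205)))) - (((E 44) - (E 36)) * ((E 2001) + ((E 324) * ((((1 : ℤ) : ℝ) / ((2 : ℕ) : ℝ)) * ((E 36) + (E 44))))))) - ((((1 : ℤ) : ℝ) / ((2 : ℕ) : ℝ)) * (E 209))) - ((((1 : ℤ) : ℝ) / ((2 : ℕ) : ℝ)) * (E 213))) - ((((1 : ℤ) : ℝ) / ((2 : ℕ) : ℝ)) * (E 224))) - ((((1 : ℤ) : ℝ) / ((2 : ℕ) : ℝ)) * ((E 228) + (E 227)))) - ((((1 : ℤ) : ℝ) / ((2 : ℕ) : ℝ)) * (E 216))) - ((((1 : ℤ) : ℝ) / ((2 : ℕ) : ℝ)) * (E 219))) - ((((1 : ℤ) : ℝ) / ((2 : ℕ) : ℝ)) * ((E 232) + (E 231)))) - ((((1 : ℤ) : ℝ) / ((2 : ℕ) : ℝ)) * (E 236))) - ((((1 : ℤ) : ℝ) / ((2 : ℕ) : ℝ)) * (E 244))) - ((((1 : ℤ) : ℝ) / ((2 : ℕ) : ℝ)) * (E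 247))) - ((((1 : ℤ) : ℝ) / ((2 : ℕ) : ℝ)) * (E 221))) - ((((1 : ℤ) : ℝ) / ((2 : ℕ) : ℝ)) * (E 234))) - ((((1 : ℤ) : ℝ) / ((2 : ℕ) : ℝ)) * ((E 250) + (E 249)))) - ((((1 : ℤ) : ℝ) / ((2 : ℕ) : ℝ)) * ((E 253) + (E 252)))) - ((((1 : ℤ) : ℝ) / ((2 : ℕ) : ℝ)) * ((E 257) + (E 256)))) - ((((1 : ℤ) : ℝ) / ((2 : ℕ) : ℝ)) * ((E 240) + (E 239)))) - ((((1 : ℤ) : ℝ) / ((2 : ℕ) : ℝ)) * (E 279))) - ((((1 : ℤ) : ℝ) / ((2 : ℕ) : ℝ)) * (E 281))) - ((((1 : ℤ) : ℝ) / ((2 : ℕ) : ℝ)) * (E 286))) - ((((1 : ℤ) : ℝ) / ((2 : ℕ) : ℝ)) * (E 270))) - ((((1 : ℤ) : ℝ) / ((2 : ℕ) : ℝ)) * (E 277))) - ((((1 : ℤ) : ℝ) / ((2 : ℕ) : ℝ)) * (E 288))) - (((E 37) - (E 36)) * ((E 2002) + ((E 326) * ((((1 : ℤ) : ℝ) / ((2 : ℕ) : ℝ)) * ((E 36) + (E 37))))))) - ((((1 : ℤ) : ℝ) / ((2 : ℕ) : ℝ)) * (E 273))) - ((((1 : ℤ) : ℝ) / ((2 : ℕ) :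 ℝ)) * (E 275))) - ((((1 : ℤ) : ℝ) / ((2 : ℕ) : ℝ)) * (E 283))) - ((((1 : ℤ) : ℝ) / ((2 : ℕ) : ℝ)) * (E 290))) - (((E 43) - (E 39)) * (E 435))) - (((E 39) - (E 36)) * (E 434)) := by
  linear_combination (V12 h).2.2.2.2.2.2.2.2.2.2.2.2.2.1 + (1) * 1 * ((E 44) - (E 36)) * (rs31 h).vl + (-1) * 1 * ((E 36) - (E 34)) * (rs31 h).vl + (-1) * 1 * ((E 36) - (E 35)) * (rs94 h).vl + (1) * 1 * ((E 37) - (E 36)) * (rs94 h).vh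

theorem aqBt (h : TaH K E p) : E 2207 = (((((((((((((((((((((((((((((((((((((((((((((((((((((((E 36) - (E 35)) * ((((1 : ℤ) : ℝ) / ((2 : ℕ) : ℝ)) * ((E 35) + (E 36)))) * (E 439)) + ((((1 : ℤ) : ℝ) / ((1 : ℕ) : ℝ)) * (((E 104) - ((E 45) * (E 105))) - ((E 86) - ((E 36) * (E 87)))))) - ((((E 36) - (E 35)) * ((((1 : ℤ) : ℝ) / ((2 : ℕ) : ℝ)) * ((E 35) + (E 36)))) * (E 439))) - (((((1 : ℤ) : ℝ) / ((6 : ℕ) : ℝ)) * (((E 44) + (E 44)) + (E 45))) * (E 192))) - (((((1 : ℤ) : ℝ) / ((6 : ℕ) : ℝ)) * (((E 44) + (E 44)) + (E 45))) * (E 197))) - (((((1 : ℤ) : ℝ) / ((6 : ℕ) : ℝ)) * ((E 44) + ((E 45) + (E 45)))) * (E 196))) - (((((1 : ℤ) : ℝ) / ((6 : ℕ) : ℝ)) * (((E 43) + (E 43)) + (E 45))) * (E 201))) - (((((1 : ℤ) : ℝ) / ((6 : ℕ) : ℝ)) * ((E 43) + ((E 45) + (E 45)))) * (E 200))) - (((((1 : ℤ) : ℝ) / ((6 :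 ℕ) : ℝ)) * (((E 42) + (E 42)) + (E 45))) * (E 206))) - (((((1 : ℤ) : ℝ) / ((6 : ℕ) : ℝ)) * ((E 42) + ((E 45) + (E 45)))) * (E 205))) - (((E 44) - (E 36)) * (((E 2001) * ((((1 : ℤ) : ℝ) / ((2 : ℕ) : ℝ)) * ((E 36) + (E 44)))) + ((E 324) * ((((1 : ℤ) : ℝ) / ((3 : ℕ) : ℝ)) * ((((E 36) * (E 36)) + ((E 36) * (E 44))) + ((E 44) * (E 44)))))))) - (((((1 : ℤ) : ℝ) / ((6 : ℕ) : ℝ)) * (((E 43) + (E 43)) + (E 44))) * (E 209))) - (((((1 : ℤ) : ℝ) / ((6 : ℕ) : ℝ)) * ((E 43) + ((E 44) + (E 44)))) * (E 213))) - (((((1 : ℤ) : ℝ) / ((6 : ℕ) : ℝ)) * ((E 43) + ((E 44) + (E 44)))) * (E 224))) - (((((1 : ℤ) : ℝ) / ((6 : ℕ) : ℝ)) * (((E 40) + (E 40)) + (E 44))) * (E 228))) - (((((1 : ℤ) : ℝ) / ((6 : ℕ) : ℝ)) * ((E 40) + ((E 44) + (E 44)))) * (E 227))) - (((((1 : ℤ) : ℝ) / ((6 : ℕ) : ℝ)) * ((E 42) + ((E 43) + (E 43))))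 * (E 216))) - (((((1 : ℤ) : ℝ) / ((6 : ℕ) : ℝ)) * ((E 42) + ((E 43) + (E 43)))) * (E 219))) - (((((1 : ℤ) : ℝ) / ((6 : ℕ) : ℝ)) * (((E 42) + (E 42)) + (E 43))) * (E 232))) - (((((1 : ℤ) : ℝ) / ((6 : ℕ) : ℝ)) * ((E 42) + ((E 43) + (E 43)))) * (E 231))) - (((((1 : ℤ) : ℝ) / ((6 : ℕ) : ℝ)) * (((E 41) + (E 41)) + (E 43))) * (E 236))) - (((((1 : ℤ) : ℝ) / ((6 : ℕ) : ℝ)) * (((E 40) + (E 40)) + (E 43))) * (E 244))) - (((((1 : ℤ) : ℝ) / ((6 : ℕ) : ℝ)) * ((E 39) + ((E 43) + (E 43)))) * (E 247))) - (((((1 : ℤ) : ℝ) / ((6 : ℕ) : ℝ)) * ((E 40) + ((E 42) + (E 42)))) * (E 221))) - (((((1 : ℤ) : ℝ) / ((6 : ℕ) : ℝ)) * ((E 40) + ((E 42) + (E 42)))) * (E 234))) - (((((1 : ℤ) : ℝ) / ((6 : ℕ) : ℝ)) * (((E 40) + (E 40)) + (E 42))) * (E 250))) - (((((1 : ℤ) : ℝ) / ((6 : ℕ) : ℝ)) * ((E 40) + ((E 42) + (E 42)))) *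 (E 249))) - (((((1 : ℤ) : ℝ) / ((6 : ℕ) : ℝ)) * (((E 39) + (E 39)) + (E 42))) * (E 253))) - (((((1 : ℤ) : ℝ) / ((6 : ℕ) : ℝ)) * ((E 39) + ((E 42) + (E 42)))) * (E 252))) - (((((1 : ℤ) : ℝ) / ((6 : ℕ) : ℝ)) * (((E 40) + (E 40)) + (E 42))) * (E 257))) - (((((1 : ℤ) : ℝ) / ((6 : ℕ) : ℝ)) * ((E 40) + ((E 42) + (E 42)))) * (E 256))) - (((((1 : ℤ) : ℝ) / ((6 : ℕ) : ℝ)) * (((E 36) + (E 36)) + (E 41))) * (E 240))) - (((((1 : ℤ) : ℝ) / ((6 : ℕ) : ℝ)) * ((E 36) + ((E 41) + (E 41)))) * (E 239))) - (((((1 : ℤ) : ℝ) / ((6 : ℕ) : ℝ)) * ((E 36) + ((E 40) + (E 40)))) * (E 279))) - (((((1 : ℤ) : ℝ) / ((6 : ℕ) : ℝ)) * ((E 37) + ((E 40) + (E 40)))) * (E 281))) - (((((1 : ℤ) : ℝ) / ((6 : ℕ) : ℝ)) * ((E 39) + ((E 40) + (E 40)))) * (E 286))) - (((((1 : ℤ) : ℝ) / ((6 : ℕ) : ℝ)) * (((E 36) + (E 36)) + (E 39))) * (E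 270))) - (((((1 : ℤ) : ℝ) / ((6 : ℕ) : ℝ)) * ((E 37) + ((E 39) + (E 39)))) * (E 277))) - (((((1 : ℤ) : ℝ) / ((6 : ℕ) : ℝ)) * (((E 36) + (E 36)) + (E 39))) * (E 288))) - ((((E 35) - (E 34)) * ((((1 : ℤ) : ℝ) / ((2 : ℕ) : ℝ)) * ((E 34) + (E 35)))) * (((E 35) - (E 34)) * (E 176)))) - ((((E 35) - (E 34)) * (((((1 : ℤ) : ℝ) / ((3 : ℕ) : ℝ)) * (((((E 34) - (E 35)) * ((E 34) - (E 35))) + (((E 34) - (E 35)) * ((E 35) - (E 35)))) + (((E 35) - (E 35)) * ((E 35) - (E 35))))) + ((E 35) * (((((1 : ℤ) : ℝ) / ((2 : ℕ) : ℝ)) * ((E 34) + (E 35))) - (E 35))))) * (E 176))) - (((E 36) - (E 34)) * (((E 2001) * ((((1 : ℤ) : ℝ) / ((2 : ℕ) : ℝ)) * ((E 34) + (E 36)))) + ((E 324) * ((((1 : ℤ) : ℝ) / ((3 : ℕ) : ℝ)) * ((((E 34) * (E 34)) + ((E 34) * (E 36))) + ((E 36) * (E 36)))))))) - (((E 36) - (E 35)) * (((E 2002)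 * ((((1 : ℤ) : ℝ) / ((2 : ℕ) : ℝ)) * ((E 35) + (E 36)))) + ((E 326) * ((((1 : ℤ) : ℝ) / ((3 : ℕ) : ℝ)) * ((((E 35) * (E 35)) + ((E 35) * (E 36))) + ((E 36) * (E 36)))))))) - (((E 37) - (E 36)) * (((E 2002) * ((((1 : ℤ) : ℝ) / ((2 : ℕ) : ℝ)) * ((E 36) + (E 37)))) + ((E 326) * ((((1 : ℤ) : ℝ) / ((3 : ℕ) : ℝ)) * ((((E 36) * (E 36)) + ((E 36) * (E 37))) + ((E 37) * (E 37)))))))) - (((((1 : ℤ) : ℝ) / ((6 : ℕ) : ℝ)) * (((E 35) + (E 35)) + (E 36))) * (E 263))) - (((((1 : ℤ) : ℝ) / ((6 : ℕ) : ℝ)) * ((E 35) + ((E 36) + (E 36)))) * (E 264))) - (((((1 : ℤ) : ℝ) / ((6 : ℕ) : ℝ)) * ((E 36) + ((E 37) + (E 37)))) * (E 273))) - (((((1 : ℤ) : ℝ) / ((6 : ℕ) : ℝ)) * (((E 36) + (E 36)) + (E 37))) * (E 275))) - (((((1 : ℤ) : ℝ) / ((6 : ℕ) : ℝ)) * ((E 36) + ((E 37) + (E 37)))) * (E 283))) - (((((1 : ℤ) : ℝ) / ((6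 : ℕ) : ℝ)) * (((E 36) + (E 36)) + (E 37))) * (E 290))) - ((((E 43) - (E 39)) * ((((1 : ℤ) : ℝ) / ((2 : ℕ) : ℝ)) * ((E 39) + (E 43)))) * (E 435))) - ((((E 39) - (E 36)) * ((((1 : ℤ) : ℝ) / ((2 : ℕ) : ℝ)) * ((E 36) + (E 39)))) * (E 434))) - ((((E 36) - (E 35)) * ((((1 : ℤ) : ℝ) / ((2 : ℕ) : ℝ)) * ((E 35) + (E 36)))) * (E 434)) := by
  linear_combination (V12 h).2.2.2.2.2.2.2.2.2.2.2.2.2.2.2.1 + (V12 h).2.2.2.2.2.2.2.2.2.2.2.2.2.2.1 + E 311 * (V12 h).2.2.2.2.2.2.2.2.2.2.2.2.2.1 + 1 * ((E 44) - (E 36)) * ((((1 : ℤ) : ℝ) / ((2 : ℕ) : ℝ)) * ((E 36) + (E 44))) * (rs31 h).vl + 1 * ((E 36) - (E 34)) * ((((1 : ℤ) : ℝ) / ((2 : ℕ) : ℝ)) * ((E 34) + (E 36))) * (rs31 h).vl + 1 * ((E 36) - (E 35)) * ((((1 : ℤ) : ℝ) / ((2 : ℕ) : ℝ)) * ((E 35) + (E 36))) * (rs94 h).vl + 1 * ((E 37) - (E 36)) * ((((1 : ℤ) :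 ℝ) / ((2 : ℕ) : ℝ)) * ((E 36) + (E 37))) * (rs94 h).vh

theorem amBv (h : TaH K E p) : E 2208 = ((((((((((((((((((((((((((((((((((E 23) * ((E 151) - (E 159))) - ((((1 : ℤ) : ℝ) / ((2 : ℕ) : ℝ)) * (E 192))) - ((((1 : ℤ) : ℝ) / ((2 : ℕ) : ℝ)) * ((E 197) + (E 196)))) - ((((1 : ℤ) : ℝ) / ((2 : ℕ) : ℝ)) * ((E 201) + (E 200)))) - ((((1 : ℤ) : ℝ) / ((2 : ℕ) : ℝ)) * ((E 206) + (E 205)))) - ((((1 : ℤ) : ℝ) / ((2 : ℕ) : ℝ)) * ((E 260) + (E 259)))) - ((((1 : ℤ) : ℝ) / ((2 : ℕ) : ℝ)) * ((E 264) + (E 263)))) - ((((1 : ℤ) : ℝ) / ((2 : ℕ) : ℝ)) * ((E 269) + (E 268)))) - ((((1 : ℤ) : ℝ) / ((2 : ℕ) : ℝ)) * (E 270))) - ((((1 : ℤ) : ℝ) / ((2 : ℕ) : ℝ)) * (E 273))) - ((((1 : ℤ) : ℝ) / ((2 : ℕ) : ℝ)) * (E 275))) - ((((1 : ℤ) : ℝ) / ((2 : ℕ) : ℝ)) * (E 277))) - ((((1 : ℤ) : ℝ) / ((2 : ℕ) : ℝ)) * (E 209))) - ((((1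 : ℤ) : ℝ) / ((2 : ℕ) : ℝ)) * (E 213))) - ((((1 : ℤ) : ℝ) / ((2 : ℕ) : ℝ)) * (E 216))) - ((((1 : ℤ) : ℝ) / ((2 : ℕ) : ℝ)) * (E 219))) - ((((1 : ℤ) : ℝ) / ((2 : ℕ) : ℝ)) * (E 221))) - ((((1 : ℤ) : ℝ) / ((2 : ℕ) : ℝ)) * (E 244))) - ((((1 : ℤ) : ℝ) / ((2 : ℕ) : ℝ)) * ((E 249) + (E 250)))) - ((((1 : ℤ) : ℝ) / ((2 : ℕ) : ℝ)) * (E 279))) - ((((1 : ℤ) : ℝ) / ((2 : ℕ) : ℝ)) * (E 281))) - ((((1 : ℤ) : ℝ) / ((2 : ℕ) : ℝ)) * (E 283))) - ((((1 : ℤ) : ℝ) / ((2 : ℕ) : ℝ)) * (E 286))) - ((((1 : ℤ) : ℝ) / ((2 : ℕ) : ℝ)) * (E 288))) - ((((1 : ℤ) : ℝ) / ((2 : ℕ) : ℝ)) * ((E 239) + (E 240)))) - ((((1 : ℤ) : ℝ) / ((2 : ℕ) : ℝ)) * (E 290))) - ((((1 : ℤ) : ℝ) / ((2 : ℕ) : ℝ)) * (E 224))) - ((((1 : ℤ) : ℝ) / ((2 : ℕ) : ℝ)) * ((E 228) + (E 227)))) - ((((1 : ℤ) : ℝ) / ((2 : ℕ) : ℝ)) * ((E 232) + (E 231)))) - ((((1 :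 ℤ) : ℝ) / ((2 : ℕ) : ℝ)) * (E 234))) - ((((1 : ℤ) : ℝ) / ((2 : ℕ) : ℝ)) * (E 236))) - ((((1 : ℤ) : ℝ) / ((2 : ℕ) : ℝ)) * (E 247))) - ((((1 : ℤ) : ℝ) / ((2 : ℕ) : ℝ)) * ((E 252) + (E 253)))) - ((((1 : ℤ) : ℝ) / ((2 : ℕ) : ℝ)) * ((E 256) + (E 257))) := by
  linear_combination (V13 h).1

theorem aqBv (h : TaH K E p) : E 2210 = ((((((((((((((((((((((((((((((((((((((((((((((E 23) * (((E 158) - ((E 72) * (E 159))) - ((E 150) - ((E 68) * (E 151))))) - (((((1 : ℤ) : ℝ) / ((6 : ℕ) : ℝ)) * (((E 71) + (E 71)) + (E 72))) * (E 192))) - (((((1 : ℤ) : ℝ) / ((6 : ℕ) : ℝ)) * (((E 69) + (E 69)) + (E 72))) * (E 197))) - (((((1 : ℤ) : ℝ) / ((6 : ℕ) : ℝ)) * ((E 69) + ((E 72) + (E 72)))) * (E 196))) - (((((1 : ℤ) : ℝ) / ((6 : ℕ) : ℝ)) * (((E 68) + (E 68)) + (E 72))) * (E 201))) - (((((1 : ℤ) : ℝ) / ((6 : ℕ) : ℝ))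 * ((E 68) + ((E 72) + (E 72)))) * (E 200))) - (((((1 : ℤ) : ℝ) / ((6 : ℕ) : ℝ)) * (((E 68) + (E 68)) + (E 72))) * (E 206))) - (((((1 : ℤ) : ℝ) / ((6 : ℕ) : ℝ)) * ((E 68) + ((E 72) + (E 72)))) * (E 205))) - (((((1 : ℤ) : ℝ) / ((6 : ℕ) : ℝ)) * (((E 71) + (E 71)) + (E 72))) * (E 260))) - (((((1 : ℤ) : ℝ) / ((6 : ℕ) : ℝ)) * ((E 71) + ((E 72) + (E 72)))) * (E 259))) - (((((1 : ℤ) : ℝ) / ((6 : ℕ) : ℝ)) * (((E 70) + (E 70)) + (E 72))) * (E 264))) - (((((1 : ℤ) : ℝ) / ((6 : ℕ) : ℝ)) * ((E 70) + ((E 72) + (E 72)))) * (E 263))) - (((((1 : ℤ) : ℝ) / ((6 : ℕ) : ℝ)) * (((E 71) + (E 71)) + (E 72))) * (E 269))) - (((((1 : ℤ) : ℝ) / ((6 : ℕ) : ℝ)) * ((E 71) + ((E 72) + (E 72)))) * (E 268))) - (((((1 : ℤ) : ℝ) / ((6 : ℕ) : ℝ)) * ((E 71) + ((E 72) + (E 72)))) * (E 270))) - (((((1 : ℤ) : ℝ) / ((6 : ℕ) : ℝ)) *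 (((E 69) + (E 69)) + (E 72))) * (E 273))) - (((((1 : ℤ) : ℝ) / ((6 : ℕ) : ℝ)) * (((E 71) + (E 71)) + (E 72))) * (E 275))) - (((((1 : ℤ) : ℝ) / ((6 : ℕ) : ℝ)) * (((E 69) + (E 69)) + (E 72))) * (E 277))) - (((((1 : ℤ) : ℝ) / ((6 : ℕ) : ℝ)) * (((E 69) + (E 69)) + (E 71))) * (E 209))) - (((((1 : ℤ) : ℝ) / ((6 : ℕ) : ℝ)) * ((E 68) + ((E 71) + (E 71)))) * (E 213))) - (((((1 : ℤ) : ℝ) / ((6 : ℕ) : ℝ)) * ((E 68) + ((E 71) + (E 71)))) * (E 216))) - (((((1 : ℤ) : ℝ) / ((6 : ℕ) : ℝ)) * (((E 68) + (E 68)) + (E 71))) * (E 219))) - (((((1 : ℤ) : ℝ) / ((6 : ℕ) : ℝ)) * ((E 68) + ((E 71) + (E 71)))) * (E 221))) - (((((1 : ℤ) : ℝ) / ((6 : ℕ) : ℝ)) * ((E 68) + ((E 71) + (E 71)))) * (E 244))) - (((((1 : ℤ) : ℝ) / ((6 : ℕ) : ℝ)) * (((E 68) + (E 68)) + (E 71))) * (E 249))) - (((((1 : ℤ) : ℝ) / ((6 : ℕ) : ℝ)) * ((E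 68) + ((E 71) + (E 71)))) * (E 250))) - (((((1 : ℤ) : ℝ) / ((6 : ℕ) : ℝ)) * (((E 69) + (E 69)) + (E 71))) * (E 279))) - (((((1 : ℤ) : ℝ) / ((6 : ℕ) : ℝ)) * (((E 69) + (E 69)) + (E 71))) * (E 281))) - (((((1 : ℤ) : ℝ) / ((6 : ℕ) : ℝ)) * ((E 70) + ((E 71) + (E 71)))) * (E 283))) - (((((1 : ℤ) : ℝ) / ((6 : ℕ) : ℝ)) * (((E 68) + (E 68)) + (E 71))) * (E 286))) - (((((1 : ℤ) : ℝ) / ((6 : ℕ) : ℝ)) * (((E 70) + (E 70)) + (E 71))) * (E 288))) - (((((1 : ℤ) : ℝ) / ((6 : ℕ) : ℝ)) * (((E 69) + (E 69)) + (E 70))) * (E 239))) - (((((1 : ℤ) : ℝ) / ((6 : ℕ) : ℝ)) * ((E 69) + ((E 70) + (E 70)))) * (E 240))) - (((((1 : ℤ) : ℝ) / ((6 : ℕ) : ℝ)) * ((E 69) + ((E 70) + (E 70)))) * (E 290))) - (((((1 : ℤ) : ℝ) / ((6 : ℕ) : ℝ)) * ((E 68) + ((E 69) + (E 69)))) * (E 224))) - (((((1 : ℤ) : ℝ) / ((6 : ℕ) : ℝ)) * (((E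 68) + (E 68)) + (E 69))) * (E 228))) - (((((1 : ℤ) : ℝ) / ((6 : ℕ) : ℝ)) * ((E 68) + ((E 69) + (E 69)))) * (E 227))) - (((((1 : ℤ) : ℝ) / ((6 : ℕ) : ℝ)) * (((E 68) + (E 68)) + (E 69))) * (E 232))) - (((((1 : ℤ) : ℝ) / ((6 : ℕ) : ℝ)) * ((E 68) + ((E 69) + (E 69)))) * (E 231))) - (((((1 : ℤ) : ℝ) / ((6 : ℕ) : ℝ)) * ((E 68) + ((E 69) + (E 69)))) * (E 234))) - (((((1 : ℤ) : ℝ) / ((6 : ℕ) : ℝ)) * ((E 68) + ((E 69) + (E 69)))) * (E 236))) - (((((1 : ℤ) : ℝ) / ((6 : ℕ) : ℝ)) * (((E 68) + (E 68)) + (E 69))) * (E 247))) - (((((1 : ℤ) : ℝ) / ((6 : ℕ) : ℝ)) * (((E 68) + (E 68)) + (E 69))) * (E 252))) - (((((1 : ℤ) : ℝ) / ((6 : ℕ) : ℝ)) * ((E 68) + ((E 69) + (E 69)))) * (E 253))) - (((((1 : ℤ) : ℝ) / ((6 : ℕ) : ℝ)) * (((E 68) + (E 68)) + (E 69))) * (E 256))) - (((((1 : ℤ) : ℝ) / ((6 : ℕ) : ℝ)) * ((E 68)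 + ((E 69) + (E 69)))) * (E 257)) := by
  linear_combination (V13 h).2.2.1 + (V13 h).2.1 + E 309 * (V13 h).1

theorem amBx (h : TaH K E p) : E 2211 = ((((((((((((((((((((((((((((((((((E 24) * ((E 131) - (E 151))) - ((((1 : ℤ) : ℝ) / ((2 : ℕ) : ℝ)) * ((E 239) + (E 240)))) - ((((1 : ℤ) : ℝ) / ((2 : ℕ) : ℝ)) * ((E 263) + (E 264)))) - ((((1 : ℤ) : ℝ) / ((2 : ℕ) : ℝ)) * (E 283))) - ((((1 : ℤ) : ℝ) / ((2 : ℕ) : ℝ)) * (E 288))) - ((((1 : ℤ) : ℝ) / ((2 : ℕ) : ℝ)) * (E 290))) - ((((1 : ℤ) : ℝ) / ((2 : ℕ) : ℝ)) * ((E 260) + (E 259)))) - ((((1 : ℤ) : ℝ) / ((2 : ℕ) : ℝ)) * ((E 268) + (E 269)))) - ((((1 : ℤ) : ℝ) / ((2 : ℕ) : ℝ)) * (E 273))) - ((((1 : ℤ) : ℝ) / ((2 : ℕ) : ℝ)) * (E 275))) - ((((1 : ℤ) : ℝ) / ((2 : ℕ) : ℝ)) * (E 279))) - ((((1 : ℤ) : ℝ) / ((2 : ℕ) : ℝ)) * (E 221))) - ((((1 : ℤ) : ℝ) / ((2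 : ℕ) : ℝ)) * ((E 227) + (E 228)))) - ((((1 : ℤ) : ℝ) / ((2 : ℕ) : ℝ)) * (E 234))) - ((((1 : ℤ) : ℝ) / ((2 : ℕ) : ℝ)) * (E 247))) - ((((1 : ℤ) : ℝ) / ((2 : ℕ) : ℝ)) * ((E 252) + (E 253)))) - ((((1 : ℤ) : ℝ) / ((2 : ℕ) : ℝ)) * (E 270))) - ((((1 : ℤ) : ℝ) / ((2 : ℕ) : ℝ)) * (E 277))) - ((((1 : ℤ) : ℝ) / ((2 : ℕ) : ℝ)) * (E 281))) - ((((1 : ℤ) : ℝ) / ((2 : ℕ) : ℝ)) * (E 286))) - ((((1 : ℤ) : ℝ) / ((2 : ℕ) : ℝ)) * ((E 256) + (E 257)))) - ((((1 : ℤ) : ℝ) / ((2 : ℕ) : ℝ)) * ((E 205) + (E 206)))) - ((((1 : ℤ) : ℝ) / ((2 : ℕ) : ℝ)) * (E 216))) - ((((1 : ℤ) : ℝ) / ((2 : ℕ) : ℝ)) * ((E 231) + (E 232)))) - ((((1 : ℤ) : ℝ) / ((2 : ℕ) : ℝ)) * (E 236))) - ((((1 : ℤ) : ℝ) / ((2 : ℕ) : ℝ)) * ((E 250) + (E 249)))) - ((((1 : ℤ) : ℝ) / ((2 : ℕ) : ℝ)) * (E 244))) - ((((1 : ℤ) : ℝ) / ((2 : ℕ) : ℝ)) * ((E 200) +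 (E 201)))) - ((((1 : ℤ) : ℝ) / ((2 : ℕ) : ℝ)) * (E 213))) - ((((1 : ℤ) : ℝ) / ((2 : ℕ) : ℝ)) * (E 219))) - ((((1 : ℤ) : ℝ) / ((2 : ℕ) : ℝ)) * (E 224))) - ((((1 : ℤ) : ℝ) / ((2 : ℕ) : ℝ)) * (E 209))) - ((((1 : ℤ) : ℝ) / ((2 : ℕ) : ℝ)) * ((E 196) + (E 197)))) - ((((1 : ℤ) : ℝ) / ((2 : ℕ) : ℝ)) * (E 192)) := by
  linear_combination (V13 h).2.2.2.1

theorem aqBx (h : TaH K E p) : E 2213 = ((((((((((((((((((((((((((((((((((((((((((((((E 24) * (((E 150) - ((E 68) * (E 151))) - ((E 130) - ((E 58) * (E 131))))) - (((((1 : ℤ) : ℝ) / ((6 : ℕ) : ℝ)) * (((E 64) + (E 64)) + (E 68))) * (E 239))) - (((((1 : ℤ) : ℝ) / ((6 : ℕ) : ℝ)) * ((E 64) + ((E 68) + (E 68)))) * (E 240))) - (((((1 : ℤ) : ℝ) / ((6 : ℕ) : ℝ)) * (((E 67) + (E 67)) + (E 68))) * (E 263))) - (((((1 : ℤ) : ℝ) / ((6 : ℕ) : ℝ)) * ((E 67) + ((E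 68) + (E 68)))) * (E 264))) - (((((1 : ℤ) : ℝ) / ((6 : ℕ) : ℝ)) * (((E 66) + (E 66)) + (E 68))) * (E 283))) - (((((1 : ℤ) : ℝ) / ((6 : ℕ) : ℝ)) * ((E 65) + ((E 68) + (E 68)))) * (E 288))) - (((((1 : ℤ) : ℝ) / ((6 : ℕ) : ℝ)) * ((E 67) + ((E 68) + (E 68)))) * (E 290))) - (((((1 : ℤ) : ℝ) / ((6 : ℕ) : ℝ)) * (((E 66) + (E 66)) + (E 67))) * (E 260))) - (((((1 : ℤ) : ℝ) / ((6 : ℕ) : ℝ)) * ((E 66) + ((E 67) + (E 67)))) * (E 259))) - (((((1 : ℤ) : ℝ) / ((6 : ℕ) : ℝ)) * (((E 66) + (E 66)) + (E 67))) * (E 268))) - (((((1 : ℤ) : ℝ) / ((6 : ℕ) : ℝ)) * ((E 66) + ((E 67) + (E 67)))) * (E 269))) - (((((1 : ℤ) : ℝ) / ((6 : ℕ) : ℝ)) * ((E 66) + ((E 67) + (E 67)))) * (E 273))) - (((((1 : ℤ) : ℝ) / ((6 : ℕ) : ℝ)) * ((E 65) + ((E 67) + (E 67)))) * (E 275))) - (((((1 : ℤ) : ℝ) / ((6 : ℕ) : ℝ)) * (((E 65) + (E 65))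 + (E 67))) * (E 279))) - (((((1 : ℤ) : ℝ) / ((6 : ℕ) : ℝ)) * (((E 61) + (E 61)) + (E 66))) * (E 221))) - (((((1 : ℤ) : ℝ) / ((6 : ℕ) : ℝ)) * (((E 60) + (E 60)) + (E 66))) * (E 227))) - (((((1 : ℤ) : ℝ) / ((6 : ℕ) : ℝ)) * ((E 60) + ((E 66) + (E 66)))) * (E 228))) - (((((1 : ℤ) : ℝ) / ((6 : ℕ) : ℝ)) * (((E 62) + (E 62)) + (E 66))) * (E 234))) - (((((1 : ℤ) : ℝ) / ((6 : ℕ) : ℝ)) * (((E 62) + (E 62)) + (E 66))) * (E 247))) - (((((1 : ℤ) : ℝ) / ((6 : ℕ) : ℝ)) * (((E 64) + (E 64)) + (E 66))) * (E 252))) - (((((1 : ℤ) : ℝ) / ((6 : ℕ) : ℝ)) * ((E 64) + ((E 66) + (E 66)))) * (E 253))) - (((((1 : ℤ) : ℝ) / ((6 : ℕ) : ℝ)) * ((E 65) + ((E 66) + (E 66)))) * (E 270))) - (((((1 : ℤ) : ℝ) / ((6 : ℕ) : ℝ)) * ((E 65) + ((E 66) + (E 66)))) * (E 277))) - (((((1 : ℤ) : ℝ) / ((6 : ℕ) : ℝ)) * (((E 65) + (E 65)) +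 (E 66))) * (E 281))) - (((((1 : ℤ) : ℝ) / ((6 : ℕ) : ℝ)) * ((E 65) + ((E 66) + (E 66)))) * (E 286))) - (((((1 : ℤ) : ℝ) / ((6 : ℕ) : ℝ)) * (((E 64) + (E 64)) + (E 65))) * (E 256))) - (((((1 : ℤ) : ℝ) / ((6 : ℕ) : ℝ)) * ((E 64) + ((E 65) + (E 65)))) * (E 257))) - (((((1 : ℤ) : ℝ) / ((6 : ℕ) : ℝ)) * (((E 58) + (E 58)) + (E 64))) * (E 205))) - (((((1 : ℤ) : ℝ) / ((6 : ℕ) : ℝ)) * ((E 58) + ((E 64) + (E 64)))) * (E 206))) - (((((1 : ℤ) : ℝ) / ((6 : ℕ) : ℝ)) * (((E 60) + (E 60)) + (E 64))) * (E 216))) - (((((1 : ℤ) : ℝ) / ((6 : ℕ) : ℝ)) * (((E 61) + (E 61)) + (E 64))) * (E 231))) - (((((1 : ℤ) : ℝ) / ((6 : ℕ) : ℝ)) * ((E 61) + ((E 64) + (E 64)))) * (E 232))) - (((((1 : ℤ) : ℝ) / ((6 : ℕ) : ℝ)) * ((E 62) + ((E 64) + (E 64)))) * (E 236))) - (((((1 : ℤ) : ℝ) / ((6 : ℕ) : ℝ)) * (((E 63) + (E 63)) + (E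 64))) * (E 250))) - (((((1 : ℤ) : ℝ) / ((6 : ℕ) : ℝ)) * ((E 63) + ((E 64) + (E 64)))) * (E 249))) - (((((1 : ℤ) : ℝ) / ((6 : ℕ) : ℝ)) * ((E 62) + ((E 63) + (E 63)))) * (E 244))) - (((((1 : ℤ) : ℝ) / ((6 : ℕ) : ℝ)) * (((E 58) + (E 58)) + (E 62))) * (E 200))) - (((((1 : ℤ) : ℝ) / ((6 : ℕ) : ℝ)) * ((E 58) + ((E 62) + (E 62)))) * (E 201))) - (((((1 : ℤ) : ℝ) / ((6 : ℕ) : ℝ)) * (((E 59) + (E 59)) + (E 62))) * (E 213))) - (((((1 : ℤ) : ℝ) / ((6 : ℕ) : ℝ)) * ((E 61) + ((E 62) + (E 62)))) * (E 219))) - (((((1 : ℤ) : ℝ) / ((6 : ℕ) : ℝ)) * (((E 60) + (E 60)) + (E 62))) * (E 224))) - (((((1 : ℤ) : ℝ) / ((6 : ℕ) : ℝ)) * ((E 59) + ((E 61) + (E 61)))) * (E 209))) - (((((1 : ℤ) : ℝ) / ((6 : ℕ) : ℝ)) * (((E 58) + (E 58)) + (E 60))) * (E 196))) - (((((1 : ℤ) : ℝ) / ((6 : ℕ) : ℝ)) * ((E 58) + ((E 60) + (E 60))))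 * (E 197))) - (((((1 : ℤ) : ℝ) / ((6 : ℕ) : ℝ)) * ((E 58) + ((E 59) + (E 59)))) * (E 192)) := by
  linear_combination (V13 h).2.2.2.2.2.1 + (V13 h).2.2.2.2.1 + E 310 * (V13 h).2.2.2.1

theorem amE1t (h : TaH K E p) : E 2214 = ((E 52) - (E 51)) * (E 497) := by
  linear_combination (V13 h).2.2.2.2.2.2.1

theorem aqE1t (h : TaH K E p) : E 2216 = (((E 52) - (E 51)) * ((((1 : ℤ) : ℝ) / ((2 : ℕ) : ℝ)) * ((E 51) + (E 52)))) * (E 497) := by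
  linear_combination (V13 h).2.2.2.2.2.2.2.2.1 + (V13 h).2.2.2.2.2.2.2.1 + E 314 * (V13 h).2.2.2.2.2.2.1

theorem amE1v (h : TaH K E p) : E 2217 = (((E 23) * ((E 167) - (E 171))) - ((((1 : ℤ) : ℝ) / ((2 : ℕ) : ℝ)) * (E 496))) - (((E 78) - (E 77)) * (E 495)) := by
  linear_combination (V13 h).2.2.2.2.2.2.2.2.2.1

theorem aqE1v (h : TaH K E p) : E 2219 = (((E 23) * (((E 170) - ((E 78) * (E 171))) - ((E 166) - ((E 76) * (E 167))))) - (((((1 : ℤ) : ℝ) / ((6 : ℕ) : ℝ)) * (((E 76) + (E 76)) + (E 77))) * (E 496))) - ((((E 78) - (E 77)) * ((((1 : ℤ) : ℝ) / ((2 : ℕ) : ℝ)) * ((E 77) + (E 78)))) * (E 495)) := by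
  linear_combination (V13 h).2.2.2.2.2.2.2.2.2.2.2.1 + (V13 h).2.2.2.2.2.2.2.2.2.2.1 + E 312 * (V13 h).2.2.2.2.2.2.2.2.2.1

theorem amE1x (h : TaH K E p) : E 2220 = ((E 24) * ((E 121) - (E 123))) - ((((1 : ℤ) : ℝ) / ((2 : ℕ) : ℝ)) * (E 496)) := by
  linear_combination (V13 h).2.2.2.2.2.2.2.2.2.2.2.2.1

theorem aqE1x (h : TaH K E p) : E 2222 = ((E 24) * (((E 122) - ((E 54) * (E 123))) - ((E 120) - ((E 53) * (E 121))))) - (((((1 : ℤ) : ℝ) / ((6 : ℕ) : ℝ)) * ((E 53) + ((E 54) + (E 54)))) * (E 496)) := by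
  linear_combination (V13 h).2.2.2.2.2.2.2.2.2.2.2.2.2.2.1 + (V13 h).2.2.2.2.2.2.2.2.2.2.2.2.2.1 + E 313 * (V13 h).2.2.2.2.2.2.2.2.2.2.2.2.1

theorem amE2t (h : TaH K E p) : E 2223 = ((E 52) - (E 51)) * (E 494) := by
  linear_combination (V13 h).2.2.2.2.2.2.2.2.2.2.2.2.2.2.2.1

theorem aqE2t (h : TaH K E p) : E 2225 = (((E 52) - (E 51)) * ((((1 : ℤ) : ℝ) / ((2 : ℕ) : ℝ)) * ((E 51) + (E 52)))) * (E 494) := by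
  linear_combination (V14 h).2.1 + (V14 h).1 + E 317 * (V13 h).2.2.2.2.2.2.2.2.2.2.2.2.2.2.2.1

theorem amE2v (h : TaH K E p) : E 2226 = ((((((E 80) - (E 79)) * (E 493)) + (((E 80) - (E 79)) * (E 493))) + ((E 23) * ((E 171) - (E 173)))) + (((E 80) - (E 79)) * (E 491))) - (((E 79) - (E 78)) * (E 491)) := by
  linear_combination (V14 h).2.2.1

theorem aqE2v (h : TaH K E p) : E 2228 = (((((((((E 80) - (E 79)) * ((((1 : ℤ) : ℝ) / ((2 : ℕ) : ℝ)) * ((E 79) + (E 80)))) * (E 493)) + (((π + π) * ((E 80) - (E 79))) * (E 493))) + ((E 23) * (((E 172) - ((E 79) * (E 173))) - ((E 170) - ((E 78) * (E 171)))))) + (((π + π) * ((E 80) - (E 79))) * (E 491))) - ((((E 80) - (E 79)) * ((((1 : ℤ) : ℝ) / ((2 : ℕ) : ℝ)) * ((E 79) + (E 80)))) * (E 493))) - ((((E 80) - (E 79)) * ((((1 : ℤ) : ℝ) / ((2 : ℕ) : ℝ)) * ((E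 79) + (E 80)))) * (E 491))) - ((((E 79) - (E 78)) * ((((1 : ℤ) : ℝ) / ((2 : ℕ) : ℝ)) * ((E 78) + (E 79)))) * (E 491)) := by
  linear_combination (V14 h).2.2.2.2.1 + (V14 h).2.2.2.1 + E 315 * (V14 h).2.2.1

theorem amE2x (h : TaH K E p) : E 2229 = ((E 53) - (E 52)) * (E 492) := by
  linear_combination (V14 h).2.2.2.2.2.1

theorem aqE2x (h : TaH K E p) : E 2231 = (((E 53) - (E 52)) * ((((1 : ℤ) : ℝ) / ((2 : ℕ) : ℝ)) * ((E 52) + (E 53)))) * (E 492) := by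
  linear_combination (V14 h).2.2.2.2.2.2.2.1 + (V14 h).2.2.2.2.2.2.1 + E 316 * (V14 h).2.2.2.2.2.1

theorem amE3t (h : TaH K E p) : E 2232 = ((((((1 : ℤ) : ℝ) / ((1 : ℕ) : ℝ)) * ((E 117) - (E 119))) - (((E 52) - (E 51)) * (E 497))) - (((E 52) - (E 51)) * (E 494))) - ((((1 : ℤ) : ℝ) / ((2 : ℕ) : ℝ)) * (E 496)) := by
  linear_combination (V14 h).2.2.2.2.2.2.2.2.1

theorem aqE3t (h : TaH K E p) : E 2234 = ((((((1 : ℤ) : ℝ) / ((1 : ℕ) : ℝ)) * (((E 118) - ((E 52) * (E 119))) - ((E 116) - ((E 51) * (E 117))))) - ((((E 52) - (E 51)) * ((((1 : ℤ) : ℝ) / ((2 : ℕ) : ℝ)) * ((E 51) + (E 52)))) * (E 497))) - ((((E 52) - (E 51)) * ((((1 : ℤ) : ℝ) / ((2 : ℕ) : ℝ)) * ((E 51) + (E 52)))) * (E 494))) - (((((1 : ℤ) : ℝ) / ((6 : ℕ) : ℝ)) * (((E 51) + (E 51)) + (E 52))) * (E 496)) := by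
  linear_combination (V14 h).2.2.2.2.2.2.2.2.2.2.1 + (V14 h).2.2.2.2.2.2.2.2.2.1 + E 320 * (V14 h).2.2.2.2.2.2.2.2.1

theorem amE3v (h : TaH K E p) : E 2235 = ((((E 80) - (E 79)) * (E 491)) + (((E 79) - (E 78)) * (E 491))) + (((E 78) - (E 77)) * (E 495)) := by
  linear_combination (V14 h).2.2.2.2.2.2.2.2.2.2.2.1

theorem aqE3v (h : TaH K E p) : E 2237 = (((((E 80) - (E 79)) * ((((1 : ℤ) : ℝ) / ((2 : ℕ) : ℝ)) * ((E 79) + (E 80)))) * (E 491)) + ((((E 79) - (E 78)) * ((((1 : ℤ) : ℝ) / ((2 : ℕ) : ℝ)) * ((E 78) + (E 79)))) * (E 491))) + ((((E 78) - (E 77)) * ((((1 : ℤ) : ℝ) / ((2 : ℕ) : ℝ)) * ((E 77) + (E 78)))) * (E 495)) := by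
  linear_combination (V14 h).2.2.2.2.2.2.2.2.2.2.2.2.2.1 + (V14 h).2.2.2.2.2.2.2.2.2.2.2.2.1 + E 318 * (V14 h).2.2.2.2.2.2.2.2.2.2.2.1

theorem amE3x (h : TaH K E p) : E 2238 = ((E 24) * ((E 119) - (E 121))) - (((E 53) - (E 52)) * (E 492)) := by
  linear_combination (V14 h).2.2.2.2.2.2.2.2.2.2.2.2.2.2.1

theorem aqE3x (h : TaH K E p) : E 2240 = ((E 24) * (((E 120) - ((E 53) * (E 121))) - ((E 118) - ((E 52) * (E 119))))) - ((((E 53) - (E 52)) * ((((1 : ℤ) : ℝ) / ((2 : ℕ) : ℝ)) * ((E 52) + (E 53)))) * (E 492)) := by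
  linear_combination (V15 h).1 + (V14 h).2.2.2.2.2.2.2.2.2.2.2.2.2.2.2.1 + E 319 * (V14 h).2.2.2.2.2.2.2.2.2.2.2.2.2.2.1

theorem mC0t (h : TaH K E p) : pm (E 51) (TaC0t E) = -E 2160 := by
  have f0 := (V0 h).2.2.2.1
  have f1 := (V0 h).2.2.2.2.1
  have f2 := amC0t h
  simp only [TaC0t, pm]
  linear_combination ((E 50 - E 51)) * f0 +
    ((E 49 - E 50)) * f1 +
    (1) * f2

theorem qC0t (h : TaH K E p) : pq (E 51) (TaC0t E) = -E 2162 := by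
  have f0 := (V0 h).2.2.2.1
  have f1 := (V0 h).2.2.2.2.1
  have f2 := aqC0t h
  simp only [TaC0t, pq]
  linear_combination (((E 50) ^ 2 - (E 51) ^ 2) / 2) * f0 +
    (((E 49) ^ 2 - (E 50) ^ 2) / 2) * f1 +
    (1) * f2

theorem mC0v (h : TaH K E p) : pm (E 76) (TaC0v E) = -E 2163 := by
  have f0 := amC0v h
  simp only [TaC0v, pm]
  linear_combination (1) * f0

theorem qC0v (h : TaH K E p) : pq (E 76) (TaC0v E) = -E 2165 := by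
  have f0 := aqC0v h
  simp only [TaC0v, pq]
  linear_combination (1) * f0

theorem mC0x (h : TaH K E p) : pm (E 55) (TaC0x E) = -E 2166 := by
  have f0 := (V7 h).2.2.2.2.2.1
  have f1 := (F40 h).2.2.2.2.2.2.2.2.2.2.2.2.1
  have f2 := (F6 h).2.2.2.2.2.1
  have f3 := (F6 h).2.2.2.2.2.2.2.1
  have f4 := amC0x h
  simp only [TaC0x, pm]
  linear_combination ((E 54 - E 55)) * f0 +
    (((E 54) ^ 2 - (E 55) ^ 2) / 2) * f1 +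
    (1 * (E 24)) * f2 +
    (-1 * (E 24)) * f3 +
    (1) * f4

theorem qC0x (h : TaH K E p) : pq (E 55) (TaC0x E) = -E 2168 := by
  have f0 := (V7 h).2.2.2.2.2.1
  have f1 := (F40 h).2.2.2.2.2.2.2.2.2.2.2.2.1
  have f2 := (F6 h).2.2.2.2.2.2.1
  have f3 := (F6 h).2.2.2.2.2.2.2.1
  have f4 := (F6 h).2.2.2.2.1
  have f5 := (F6 h).2.2.2.2.2.1
  have f6 := aqC0x h
  simp only [TaC0x, pq]
  linear_combination (((E 54) ^ 2 - (E 55) ^ 2) / 2) * f0 +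
    (((E 54) ^ 3 - (E 55) ^ 3) / 3) * f1 +
    (1 * (E 24)) * f2 +
    (-1 * (E 24) * E 55) * f3 +
    (-1 * (E 24)) * f4 +
    (1 * (E 24) * E 54) * f5 +
    (1) * f6

theorem mC1t (h : TaH K E p) : pm (E 47) (TaC1t E) = E 2169 := by
  have f0 := amC1t h
  simp only [TaC1t, pm]
  linear_combination (-1) * f0

theorem qC1t (h : TaH K E p) : pq (E 47) (TaC1t E) = E 2171 := by
  have f0 := aqC1t h
  simp only [TaC1t, pq]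
  linear_combination (-1) * f0

theorem mC1v (h : TaH K E p) : pm (E 74) (TaC1v E) = E 2172 := by
  have f0 := (V7 h).2.2.2.2.2.2.1
  have f1 := (F40 h).2.2.2.2.2.2.2.2.2.2.2.2.2.1
  have f2 := (V7 h).2.2.2.2.2.2.2.1
  have f3 := (F40 h).2.2.2.2.2.2.2.2.2.2.2.2.2.2.1
  have f4 := (F8 h).2.2.2.2.2.2.2.2.2.2.2.2.2.1
  have f5 := (F9 h).2.1
  have f6 := (rs23 h).m
  have f7 := amC1v h
  simp only [TaC1v, pm]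
  linear_combination ((E 75 - E 74)) * f0 +
    (((E 75) ^ 2 - (E 74) ^ 2) / 2) * f1 +
    ((E 76 - E 75)) * f2 +
    (((E 76) ^ 2 - (E 75) ^ 2) / 2) * f3 +
    (-1 * (E 23)) * f4 +
    (1 * (E 23)) * f5 +
    (-1 * 1) * f6 +
    (-1) * f7

theorem qC1v (h : TaH K E p) : pq (E 74) (TaC1v E) = E 2174 := by
  have f0 := (V7 h).2.2.2.2.2.2.1
  have f1 := (F40 h).2.2.2.2.2.2.2.2.2.2.2.2.2.1
  have f2 := (V7 h).2.2.2.2.2.2.2.1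
  have f3 := (F40 h).2.2.2.2.2.2.2.2.2.2.2.2.2.2.1
  have f4 := (F9 h).1
  have f5 := (F9 h).2.1
  have f6 := (F8 h).2.2.2.2.2.2.2.2.2.2.2.2.1
  have f7 := (F8 h).2.2.2.2.2.2.2.2.2.2.2.2.2.1
  have f8 := (rs23 h).q
  have f9 := aqC1v h
  simp only [TaC1v, pq]
  linear_combination (((E 75) ^ 2 - (E 74) ^ 2) / 2) * f0 +
    (((E 75) ^ 3 - (E 74) ^ 3) / 3) * f1 +
    (((E 76) ^ 2 - (E 75) ^ 2) / 2) * f2 +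
    (((E 76) ^ 3 - (E 75) ^ 3) / 3) * f3 +
    (-1 * (E 23)) * f4 +
    (1 * (E 23) * E 76) * f5 +
    (1 * (E 23)) * f6 +
    (-1 * (E 23) * E 74) * f7 +
    (-1 * 1) * f8 +
    (-1) * f9

theorem mC1x (h : TaH K E p) : pm (E 55) (TaC1x E) = E 2175 := by
  have f0 := (V7 h).2.2.2.2.2.2.2.2.1
  have f1 := (F40 h).2.2.2.2.2.2.2.2.2.2.2.2.2.2.2.1
  have f2 := (F6 h).2.2.2.2.2.2.2.1
  have f3 := (F6 h).2.2.2.2.2.2.2.2.2.1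
  have f4 := (rs24 h).m
  have f5 := amC1x h
  simp only [TaC1x, pm]
  linear_combination ((E 56 - E 55)) * f0 +
    (((E 56) ^ 2 - (E 55) ^ 2) / 2) * f1 +
    (-1 * (E 24)) * f2 +
    (1 * (E 24)) * f3 +
    (-1 * 1) * f4 +
    (-1) * f5

theorem qC1x (h : TaH K E p) : pq (E 55) (TaC1x E) = E 2177 := by
  have f0 := (V7 h).2.2.2.2.2.2.2.2.1
  have f1 := (F40 h).2.2.2.2.2.2.2.2.2.2.2.2.2.2.2.1
  have f2 := (F6 h).2.2.2.2.2.2.2.2.1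
  have f3 := (F6 h).2.2.2.2.2.2.2.2.2.1
  have f4 := (F6 h).2.2.2.2.2.2.1
  have f5 := (F6 h).2.2.2.2.2.2.2.1
  have f6 := (rs24 h).q
  have f7 := aqC1x h
  simp only [TaC1x, pq]
  linear_combination (((E 56) ^ 2 - (E 55) ^ 2) / 2) * f0 +
    (((E 56) ^ 3 - (E 55) ^ 3) / 3) * f1 +
    (-1 * (E 24)) * f2 +
    (1 * (E 24) * E 56) * f3 +
    (1 * (E 24)) * f4 +
    (-1 * (E 24) * E 55) * f5 +
    (-1 * 1) * f6 +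
    (-1) * f7

theorem mD1t (h : TaH K E p) : pm (E 45) (TaD1t E) = E 2178 := by
  have f0 := amD1t h
  simp only [TaD1t, pm]
  linear_combination (-1) * f0

theorem qD1t (h : TaH K E p) : pq (E 45) (TaD1t E) = E 2180 := by
  have f0 := aqD1t h
  simp only [TaD1t, pq]
  linear_combination (-1) * f0

theorem mD1v (h : TaH K E p) : pm (E 72) (TaD1v E) = E 2181 := by
  have f0 := (V7 h).2.2.2.2.2.2.2.2.2.1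
  have f1 := (F41 h).1
  have f2 := (V7 h).2.2.2.2.2.2.2.2.2.2.1
  have f3 := (F41 h).2.1
  have f4 := (F8 h).2.2.2.2.2.2.2.2.2.1
  have f5 := (F8 h).2.2.2.2.2.2.2.2.2.2.2.2.2.1
  have f6 := (rs29 h).m
  have f7 := (rs26 h).m
  have f8 := amD1v h
  simp only [TaD1v, pm]
  linear_combination ((E 73 - E 72)) * f0 +
    (((E 73) ^ 2 - (E 72) ^ 2) / 2) * f1 +
    ((E 74 - E 73)) * f2 +
    (((E 74) ^ 2 - (E 73) ^ 2) / 2) * f3 +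
    (-1 * (E 23)) * f4 +
    (1 * (E 23)) * f5 +
    (-1 * 1) * f6 +
    (-1 * 1) * f7 +
    (-1) * f8

theorem qD1v (h : TaH K E p) : pq (E 72) (TaD1v E) = E 2183 := by
  have f0 := (V7 h).2.2.2.2.2.2.2.2.2.1
  have f1 := (F41 h).1
  have f2 := (V7 h).2.2.2.2.2.2.2.2.2.2.1
  have f3 := (F41 h).2.1
  have f4 := (F8 h).2.2.2.2.2.2.2.2.2.2.2.2.1
  have f5 := (F8 h).2.2.2.2.2.2.2.2.2.2.2.2.2.1
  have f6 := (F8 h).2.2.2.2.2.2.2.2.1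
  have f7 := (F8 h).2.2.2.2.2.2.2.2.2.1
  have f8 := (rs29 h).q
  have f9 := (rs26 h).q
  have f10 := aqD1v h
  simp only [TaD1v, pq]
  linear_combination (((E 73) ^ 2 - (E 72) ^ 2) / 2) * f0 +
    (((E 73) ^ 3 - (E 72) ^ 3) / 3) * f1 +
    (((E 74) ^ 2 - (E 73) ^ 2) / 2) * f2 +
    (((E 74) ^ 3 - (E 73) ^ 3) / 3) * f3 +
    (-1 * (E 23)) * f4 +
    (1 * (E 23) * E 74) * f5 +
    (1 * (E 23)) * f6 +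
    (-1 * (E 23) * E 72) * f7 +
    (-1 * 1) * f8 +
    (-1 * 1) * f9 +
    (-1) * f10

theorem mD1x (h : TaH K E p) : pm (E 57) (TaD1x E) = E 2184 := by
  have f0 := (V7 h).2.2.2.2.2.2.2.2.2.2.2.1
  have f1 := (F41 h).2.2.1
  have f2 := (F6 h).2.2.2.2.2.2.2.2.2.2.2.1
  have f3 := (F6 h).2.2.2.2.2.2.2.2.2.2.2.2.2.1
  have f4 := (rs30 h).m
  have f5 := (V0 h).2.2.2.2.2.2.1
  have f6 := amD1x h
  simp only [TaD1x, pm, nw82 h, nw83 h, nw84 h] at f0 f1 f2 f3 f4 f5 f6 ⊢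
  linear_combination ((E 58 - E 57)) * f0 +
    (((E 58) ^ 2 - (E 57) ^ 2) / 2) * f1 +
    (-1 * (E 24)) * f2 +
    (1 * (E 24)) * f3 +
    (-1 * 1) * f4 +
    (1 * ((E 24) * (E 0)) * (E 58 - E 57)) * f5 +
    (-1) * f6

theorem qD1x (h : TaH K E p) : pq (E 57) (TaD1x E) = E 2186 := by
  have f0 := (V7 h).2.2.2.2.2.2.2.2.2.2.2.1
  have f1 := (F41 h).2.2.1
  have f2 := (F6 h).2.2.2.2.2.2.2.2.2.2.2.2.1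
  have f3 := (F6 h).2.2.2.2.2.2.2.2.2.2.2.2.2.1
  have f4 := (F6 h).2.2.2.2.2.2.2.2.2.2.1
  have f5 := (F6 h).2.2.2.2.2.2.2.2.2.2.2.1
  have f6 := (rs30 h).q
  have f7 := (V0 h).2.2.2.2.2.2.1
  have f8 := aqD1x h
  simp only [TaD1x, pq, nw82 h, nw83 h, nw84 h] at f0 f1 f2 f3 f4 f5 f6 f7 f8 ⊢
  linear_combination (((E 58) ^ 2 - (E 57) ^ 2) / 2) * f0 +
    (((E 58) ^ 3 - (E 57) ^ 3) / 3) * f1 +
    (-1 * (E 24)) * f2 +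
    (1 * (E 24) * E 58) * f3 +
    (1 * (E 24)) * f4 +
    (-1 * (E 24) * E 57) * f5 +
    (-1 * 1) * f6 +
    (1 * ((E 24) * (E 0)) * ((E 58) ^ 2 - (E 57) ^ 2) / 2) * f7 +
    (-1) * f8

theorem mD2t (h : TaH K E p) : pm (E 47) (TaD2t E) = -E 2187 := by
  have f0 := (V7 h).2.2.2.2.2.2.2.2.2.2.2.2.1
  have f1 := (F41 h).2.2.2.1
  have f2 := (V7 h).2.2.2.2.2.2.2.2.2.2.2.2.2.1
  have f3 := (F41 h).2.2.2.2.1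
  have f4 := (F5 h).2.2.2.1
  have f5 := (F5 h).2.2.2.2.2.2.2.1
  have f6 := (rs25 h).m
  have f7 := (rs28 h).m
  have f8 := amD2t h
  simp only [TaD2t, pm]
  linear_combination ((E 46 - E 47)) * f0 +
    (((E 46) ^ 2 - (E 47) ^ 2) / 2) * f1 +
    ((E 45 - E 46)) * f2 +
    (((E 45) ^ 2 - (E 46) ^ 2) / 2) * f3 +
    (1 * (((1 : ℤ) : ℝ) / ((1 : ℕ) : ℝ))) * f4 +
    (-1 * (((1 : ℤ) : ℝ) / ((1 : ℕ) : ℝ))) * f5 +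
    (1 * 1) * f6 +
    (1 * 1) * f7 +
    (1) * f8

theorem qD2t (h : TaH K E p) : pq (E 47) (TaD2t E) = -E 2189 := by
  have f0 := (V7 h).2.2.2.2.2.2.2.2.2.2.2.2.1
  have f1 := (F41 h).2.2.2.1
  have f2 := (V7 h).2.2.2.2.2.2.2.2.2.2.2.2.2.1
  have f3 := (F41 h).2.2.2.2.1
  have f4 := (F5 h).2.2.2.2.2.2.1
  have f5 := (F5 h).2.2.2.2.2.2.2.1
  have f6 := (F5 h).2.2.1
  have f7 := (F5 h).2.2.2.1
  have f8 := (rs25 h).q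
  have f9 := (rs28 h).q
  have f10 := aqD2t h
  simp only [TaD2t, pq]
  linear_combination (((E 46) ^ 2 - (E 47) ^ 2) / 2) * f0 +
    (((E 46) ^ 3 - (E 47) ^ 3) / 3) * f1 +
    (((E 45) ^ 2 - (E 46) ^ 2) / 2) * f2 +
    (((E 45) ^ 3 - (E 46) ^ 3) / 3) * f3 +
    (1 * (((1 : ℤ) : ℝ) / ((1 : ℕ) : ℝ))) * f4 +
    (-1 * (((1 : ℤ) : ℝ) / ((1 : ℕ) : ℝ)) * E 47) * f5 +
    (-1 * (((1 : ℤ) : ℝ) / ((1 : ℕ) : ℝ))) * f6 +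
    (1 * (((1 : ℤ) : ℝ) / ((1 : ℕ) : ℝ)) * E 45) * f7 +
    (1 * 1) * f8 +
    (1 * 1) * f9 +
    (1) * f10

theorem mD2v (h : TaH K E p) : pm (E 74) (TaD2v E) = -E 2190 := by
  have f0 := amD2v h
  simp only [TaD2v, pm]
  linear_combination (1) * f0

theorem qD2v (h : TaH K E p) : pq (E 74) (TaD2v E) = -E 2192 := by
  have f0 := aqD2v h
  simp only [TaD2v, pq]
  linear_combination (1) * f0

theorem mD2x (h : TaH K E p) : pm (E 57) (TaD2x E) = -E 2193 := by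
  have f0 := (V7 h).2.2.2.2.2.2.2.2.2.2.2.2.2.2.1
  have f1 := (F41 h).2.2.2.2.2.1
  have f2 := (F6 h).2.2.2.2.2.2.2.2.2.1
  have f3 := (F6 h).2.2.2.2.2.2.2.2.2.2.2.1
  have f4 := (rs27 h).m
  have f5 := amD2x h
  simp only [TaD2x, pm, nw82 h, nw83 h, nw84 h] at f0 f1 f2 f3 f4 f5 ⊢
  linear_combination ((E 56 - E 57)) * f0 +
    (((E 56) ^ 2 - (E 57) ^ 2) / 2) * f1 +
    (1 * (E 24)) * f2 +
    (-1 * (E 24)) * f3 +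
    (1 * 1) * f4 +
    (1) * f5

theorem qD2x (h : TaH K E p) : pq (E 57) (TaD2x E) = -E 2195 := by
  have f0 := (V7 h).2.2.2.2.2.2.2.2.2.2.2.2.2.2.1
  have f1 := (F41 h).2.2.2.2.2.1
  have f2 := (F6 h).2.2.2.2.2.2.2.2.2.2.1
  have f3 := (F6 h).2.2.2.2.2.2.2.2.2.2.2.1
  have f4 := (F6 h).2.2.2.2.2.2.2.2.1
  have f5 := (F6 h).2.2.2.2.2.2.2.2.2.1
  have f6 := (rs27 h).q
  have f7 := aqD2x h
  simp only [TaD2x, pq, nw82 h, nw83 h, nw84 h] at f0 f1 f2 f3 f4 f5 f6 f7 ⊢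
  linear_combination (((E 56) ^ 2 - (E 57) ^ 2) / 2) * f0 +
    (((E 56) ^ 3 - (E 57) ^ 3) / 3) * f1 +
    (1 * (E 24)) * f2 +
    (-1 * (E 24) * E 57) * f3 +
    (-1 * (E 24)) * f4 +
    (1 * (E 24) * E 56) * f5 +
    (1 * 1) * f6 +
    (1) * f7

theorem mAt (h : TaH K E p) : pm (E 43) (TaAt E) = -E 2196 := by
  have f0 := (V0 h).2.2.2.2.2.1
  have f1 := amAt h
  simp only [TaAt, pm]
  linear_combination ((E 34 - E 35)) * f0 +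
    (1) * f1

theorem qAt (h : TaH K E p) : pq (E 43) (TaAt E) = -E 2198 := by
  have f0 := (V0 h).2.2.2.2.2.1
  have f1 := aqAt h
  simp only [TaAt, pq]
  linear_combination (((E 34) ^ 2 - (E 35) ^ 2) / 2) * f0 +
    (1) * f1

theorem mAv (h : TaH K E p) : pm (E 84) (TaAv E) = -E 2199 := by
  have f0 := (V0 h).2.2.2.2.2.2.1
  have f1 := amAv h
  simp only [TaAv, pm]
  linear_combination ((E 82 - E 83)) * f0 +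
    (1) * f1

theorem qAv (h : TaH K E p) : pq (E 84) (TaAv E) = -E 2201 := by
  have f0 := (V0 h).2.2.2.2.2.2.1
  have f1 := aqAv h
  simp only [TaAv, pq]
  linear_combination (((E 82) ^ 2 - (E 83) ^ 2) / 2) * f0 +
    (1) * f1

theorem mAx (h : TaH K E p) : pm (E 51) (TaAx E) = -E 2202 := by
  have f0 := (V7 h).2.2.2.2.2.2.2.2.2.2.2.2.2.2.2.1
  have f1 := (F41 h).2.2.2.2.2.2.1
  have f2 := (V8 h).1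
  have f3 := (F41 h).2.2.2.2.2.2.2.1
  have f4 := (V8 h).2.1
  have f5 := (F41 h).2.2.2.2.2.2.2.2.1
  have f6 := (V8 h).2.2.1
  have f7 := (F41 h).2.2.2.2.2.2.2.2.2.1
  have f8 := (F5 h).2.2.2.2.2.2.2.1
  have f9 := (F5 h).2.2.2.2.2.2.2.2.2.2.2.2.2.2.2.1
  have f10 := (rs33 h).m
  have f11 := (rs22 h).m
  have f12 := (V0 h).2.2.2.1
  have f13 := (V0 h).2.2.2.2.1
  have f14 := amAx h
  simp only [TaAx, pm]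
  linear_combination ((E 50 - E 51)) * f0 +
    (((E 50) ^ 2 - (E 51) ^ 2) / 2) * f1 +
    ((E 49 - E 50)) * f2 +
    (((E 49) ^ 2 - (E 50) ^ 2) / 2) * f3 +
    ((E 48 - E 49)) * f4 +
    (((E 48) ^ 2 - (E 49) ^ 2) / 2) * f5 +
    ((E 47 - E 48)) * f6 +
    (((E 47) ^ 2 - (E 48) ^ 2) / 2) * f7 +
    (1 * (E 24)) * f8 +
    (-1 * (E 24)) * f9 +
    (1 * 1) * f10 +
    (1 * (E 24)) * f11 +
    (-1 * (E 24) * (E 50 - E 51)) * f12 +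
    (-1 * (E 24) * (E 49 - E 50)) * f13 +
    (1) * f14

theorem qAx (h : TaH K E p) : pq (E 51) (TaAx E) = -E 2204 := by
  have f0 := (V7 h).2.2.2.2.2.2.2.2.2.2.2.2.2.2.2.1
  have f1 := (F41 h).2.2.2.2.2.2.1
  have f2 := (V8 h).1
  have f3 := (F41 h).2.2.2.2.2.2.2.1
  have f4 := (V8 h).2.1
  have f5 := (F41 h).2.2.2.2.2.2.2.2.1
  have f6 := (V8 h).2.2.1
  have f7 := (F41 h).2.2.2.2.2.2.2.2.2.1
  have f8 := (F5 h).2.2.2.2.2.2.2.2.2.2.2.2.2.2.1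
  have f9 := (F5 h).2.2.2.2.2.2.2.2.2.2.2.2.2.2.2.1
  have f10 := (F5 h).2.2.2.2.2.2.1
  have f11 := (F5 h).2.2.2.2.2.2.2.1
  have f12 := (rs33 h).q
  have f13 := (rs22 h).q
  have f14 := (V0 h).2.2.2.1
  have f15 := (V0 h).2.2.2.2.1
  have f16 := aqAx h
  simp only [TaAx, pq]
  linear_combination (((E 50) ^ 2 - (E 51) ^ 2) / 2) * f0 +
    (((E 50) ^ 3 - (E 51) ^ 3) / 3) * f1 +
    (((E 49) ^ 2 - (E 50) ^ 2) / 2) * f2 +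
    (((E 49) ^ 3 - (E 50) ^ 3) / 3) * f3 +
    (((E 48) ^ 2 - (E 49) ^ 2) / 2) * f4 +
    (((E 48) ^ 3 - (E 49) ^ 3) / 3) * f5 +
    (((E 47) ^ 2 - (E 48) ^ 2) / 2) * f6 +
    (((E 47) ^ 3 - (E 48) ^ 3) / 3) * f7 +
    (1 * (E 24)) * f8 +
    (-1 * (E 24) * E 51) * f9 +
    (-1 * (E 24)) * f10 +
    (1 * (E 24) * E 47) * f11 +
    (1 * 1) * f12 +
    (1 * (E 24)) * f13 +
    (-1 * (E 24) * ((E 50) ^ 2 - (E 51) ^ 2) / 2) * f14 +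
    (-1 * (E 24) * ((E 49) ^ 2 - (E 50) ^ 2) / 2) * f15 +
    (1) * f16

theorem mBt (h : TaH K E p) : pm (E 45) (TaBt E) = -E 2205 := by
  have f0 := (V8 h).2.2.2.1
  have f1 := (F41 h).2.2.2.2.2.2.2.2.2.2.1
  have f2 := (V8 h).2.2.2.2.1
  have f3 := (F41 h).2.2.2.2.2.2.2.2.2.2.2.1
  have f4 := (V8 h).2.2.2.2.2.1
  have f5 := (F41 h).2.2.2.2.2.2.2.2.2.2.2.2.1
  have f6 := (V8 h).2.2.2.2.2.2.1
  have f7 := (F41 h).2.2.2.2.2.2.2.2.2.2.2.2.2.1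
  have f8 := (V8 h).2.2.2.2.2.2.2.1
  have f9 := (F41 h).2.2.2.2.2.2.2.2.2.2.2.2.2.2.1
  have f10 := (V8 h).2.2.2.2.2.2.2.2.1
  have f11 := (F41 h).2.2.2.2.2.2.2.2.2.2.2.2.2.2.2.1
  have f12 := (V8 h).2.2.2.2.2.2.2.2.2.1
  have f13 := (F42 h).1
  have f14 := (V8 h).2.2.2.2.2.2.2.2.2.2.1
  have f15 := (F42 h).2.1
  have f16 := (V8 h).2.2.2.2.2.2.2.2.2.2.2.1
  have f17 := (F42 h).2.2.1
  have f18 := (F4 h).2.1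
  have f19 := (F5 h).2.2.2.1
  have f20 := (rs34 h).m
  have f21 := (rs37 h).m
  have f22 := (rs40 h).m
  have f23 := (rs43 h).m
  have f24 := (rs46 h).m
  have f25 := (rs49 h).m
  have f26 := (rs61 h).m
  have f27 := (rs64 h).m
  have f28 := (rs52 h).m
  have f29 := (rs55 h).m
  have f30 := (rs67 h).m
  have f31 := (rs73 h).m
  have f32 := (rs79 h).m
  have f33 := (rs82 h).m
  have f34 := (rs58 h).m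
  have f35 := (rs70 h).m
  have f36 := (rs85 h).m
  have f37 := (rs88 h).m
  have f38 := (rs91 h).m
  have f39 := (rs76 h).m
  have f40 := (rs114 h).m
  have f41 := (rs117 h).m
  have f42 := (rs123 h).m
  have f43 := (rs102 h).m
  have f44 := (rs111 h).m
  have f45 := (rs126 h).m
  have f46 := (rs97 h).m
  have f47 := (rs105 h).m
  have f48 := (rs108 h).m
  have f49 := (rs120 h).m
  have f50 := (rs129 h).m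
  have f51 := (V0 h).2.2.2.2.2.1
  have f52 := amBt h
  simp only [TaBt, pm, hz h, nw34 h, nw35 h] at f0 f1 f2 f3 f4 f5 f6 f7 f8 f9 f10 f11 f12 f13 f14 f15 f16 f17 f18 f19 f20 f21 f22 f23 f24 f25 f26 f27 f28 f29 f30 f31 f32 f33 f34 f35 f36 f37 f38 f39 f40 f41 f42 f43 f44 f45 f46 f47 f48 f49 f50 f51 f52 ⊢
  linear_combination ((E 44 - E 45)) * f0 +
    (((E 44) ^ 2 - (E 45) ^ 2) / 2) * f1 +
    ((E 43 - E 44)) * f2 +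
    (((E 43) ^ 2 - (E 44) ^ 2) / 2) * f3 +
    ((E 42 - E 43)) * f4 +
    (((E 42) ^ 2 - (E 43) ^ 2) / 2) * f5 +
    ((E 41 - E 42)) * f6 +
    (((E 41) ^ 2 - (E 42) ^ 2) / 2) * f7 +
    ((E 40 - E 41)) * f8 +
    (((E 40) ^ 2 - (E 41) ^ 2) / 2) * f9 +
    ((E 39 - E 40)) * f10 +
    (((E 39) ^ 2 - (E 40) ^ 2) / 2) * f11 +
    ((E 38 - E 39)) * f12 +
    (((E 38) ^ 2 - (E 39) ^ 2) / 2) * f13 +
    ((E 37 - E 38)) * f14 +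
    (((E 37) ^ 2 - (E 38) ^ 2) / 2) * f15 +
    ((0 - E 37)) * f16 +
    (((0) ^ 2 - (E 37) ^ 2) / 2) * f17 +
    (1 * (((1 : ℤ) : ℝ) / ((1 : ℕ) : ℝ))) * f18 +
    (-1 * (((1 : ℤ) : ℝ) / ((1 : ℕ) : ℝ))) * f19 +
    (1 * 1) * f20 +
    (1 * 1) * f21 +
    (1 * 1) * f22 +
    (1 * 1) * f23 +
    (1 * 1) * f24 +
    (1 * 1) * f25 +
    (1 * 1) * f26 +
    (1 * 1) * f27 +
    (1 * 1) * f28 +
    (1 * 1) * f29 +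
    (1 * 1) * f30 +
    (1 * 1) * f31 +
    (1 * 1) * f32 +
    (1 * 1) * f33 +
    (1 * 1) * f34 +
    (1 * 1) * f35 +
    (1 * 1) * f36 +
    (1 * 1) * f37 +
    (1 * 1) * f38 +
    (1 * 1) * f39 +
    (1 * 1) * f40 +
    (1 * 1) * f41 +
    (1 * 1) * f42 +
    (1 * 1) * f43 +
    (1 * 1) * f44 +
    (1 * 1) * f45 +
    (-1 * 1) * f46 +
    (1 * 1) * f47 +
    (1 * 1) * f48 +
    (1 * 1) * f49 +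
    (1 * 1) * f50 +
    (1 * 1 * (E 37 - E 38)) * f51 +
    (1) * f52

theorem qBt (h : TaH K E p) : pq (E 45) (TaBt E) = -E 2207 := by
  have f0 := (V8 h).2.2.2.1
  have f1 := (F41 h).2.2.2.2.2.2.2.2.2.2.1
  have f2 := (V8 h).2.2.2.2.1
  have f3 := (F41 h).2.2.2.2.2.2.2.2.2.2.2.1
  have f4 := (V8 h).2.2.2.2.2.1
  have f5 := (F41 h).2.2.2.2.2.2.2.2.2.2.2.2.1
  have f6 := (V8 h).2.2.2.2.2.2.1
  have f7 := (F41 h).2.2.2.2.2.2.2.2.2.2.2.2.2.1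
  have f8 := (V8 h).2.2.2.2.2.2.2.1
  have f9 := (F41 h).2.2.2.2.2.2.2.2.2.2.2.2.2.2.1
  have f10 := (V8 h).2.2.2.2.2.2.2.2.1
  have f11 := (F41 h).2.2.2.2.2.2.2.2.2.2.2.2.2.2.2.1
  have f12 := (V8 h).2.2.2.2.2.2.2.2.2.1
  have f13 := (F42 h).1
  have f14 := (V8 h).2.2.2.2.2.2.2.2.2.2.1
  have f15 := (F42 h).2.1
  have f16 := (V8 h).2.2.2.2.2.2.2.2.2.2.2.1
  have f17 := (F42 h).2.2.1
  have f18 := (F5 h).2.2.1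
  have f19 := (F5 h).2.2.2.1
  have f20 := (F4 h).1
  have f21 := (F4 h).2.1
  have f22 := (rs34 h).q
  have f23 := (rs37 h).q
  have f24 := (rs40 h).q
  have f25 := (rs43 h).q
  have f26 := (rs46 h).q
  have f27 := (rs49 h).q
  have f28 := (rs61 h).q
  have f29 := (rs64 h).q
  have f30 := (rs52 h).q
  have f31 := (rs55 h).q
  have f32 := (rs67 h).q
  have f33 := (rs73 h).q
  have f34 := (rs79 h).q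
  have f35 := (rs82 h).q
  have f36 := (rs58 h).q
  have f37 := (rs70 h).q
  have f38 := (rs85 h).q
  have f39 := (rs88 h).q
  have f40 := (rs91 h).q
  have f41 := (rs76 h).q
  have f42 := (rs114 h).q
  have f43 := (rs117 h).q
  have f44 := (rs123 h).q
  have f45 := (rs102 h).q
  have f46 := (rs111 h).q
  have f47 := (rs126 h).q
  have f48 := (rs97 h).q
  have f49 := (rs105 h).q
  have f50 := (rs108 h).q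
  have f51 := (rs120 h).q
  have f52 := (rs129 h).q
  have f53 := (V0 h).2.2.2.2.2.1
  have f54 := aqBt h
  simp only [TaBt, pq, hz h, nw34 h, nw35 h] at f0 f1 f2 f3 f4 f5 f6 f7 f8 f9 f10 f11 f12 f13 f14 f15 f16 f17 f18 f19 f20 f21 f22 f23 f24 f25 f26 f27 f28 f29 f30 f31 f32 f33 f34 f35 f36 f37 f38 f39 f40 f41 f42 f43 f44 f45 f46 f47 f48 f49 f50 f51 f52 f53 f54 ⊢
  linear_combination (((E 44) ^ 2 - (E 45) ^ 2) / 2) * f0 +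
    (((E 44) ^ 3 - (E 45) ^ 3) / 3) * f1 +
    (((E 43) ^ 2 - (E 44) ^ 2) / 2) * f2 +
    (((E 43) ^ 3 - (E 44) ^ 3) / 3) * f3 +
    (((E 42) ^ 2 - (E 43) ^ 2) / 2) * f4 +
    (((E 42) ^ 3 - (E 43) ^ 3) / 3) * f5 +
    (((E 41) ^ 2 - (E 42) ^ 2) / 2) * f6 +
    (((E 41) ^ 3 - (E 42) ^ 3) / 3) * f7 +
    (((E 40) ^ 2 - (E 41) ^ 2) / 2) * f8 +
    (((E 40) ^ 3 - (E 41) ^ 3) / 3) * f9 +
    (((E 39) ^ 2 - (E 40) ^ 2) / 2) * f10 +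
    (((E 39) ^ 3 - (E 40) ^ 3) / 3) * f11 +
    (((E 38) ^ 2 - (E 39) ^ 2) / 2) * f12 +
    (((E 38) ^ 3 - (E 39) ^ 3) / 3) * f13 +
    (((E 37) ^ 2 - (E 38) ^ 2) / 2) * f14 +
    (((E 37) ^ 3 - (E 38) ^ 3) / 3) * f15 +
    (((0) ^ 2 - (E 37) ^ 2) / 2) * f16 +
    (((0) ^ 3 - (E 37) ^ 3) / 3) * f17 +
    (1 * (((1 : ℤ) : ℝ) / ((1 : ℕ) : ℝ))) * f18 +
    (-1 * (((1 : ℤ) : ℝ) / ((1 : ℕ) : ℝ)) * E 45) * f19 +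
    (-1 * (((1 : ℤ) : ℝ) / ((1 : ℕ) : ℝ))) * f20 +
    (1 * (((1 : ℤ) : ℝ) / ((1 : ℕ) : ℝ)) * 0) * f21 +
    (1 * 1) * f22 +
    (1 * 1) * f23 +
    (1 * 1) * f24 +
    (1 * 1) * f25 +
    (1 * 1) * f26 +
    (1 * 1) * f27 +
    (1 * 1) * f28 +
    (1 * 1) * f29 +
    (1 * 1) * f30 +
    (1 * 1) * f31 +
    (1 * 1) * f32 +
    (1 * 1) * f33 +
    (1 * 1) * f34 +
    (1 * 1) * f35 +
    (1 * 1) * f36 +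
    (1 * 1) * f37 +
    (1 * 1) * f38 +
    (1 * 1) * f39 +
    (1 * 1) * f40 +
    (1 * 1) * f41 +
    (1 * 1) * f42 +
    (1 * 1) * f43 +
    (1 * 1) * f44 +
    (1 * 1) * f45 +
    (1 * 1) * f46 +
    (1 * 1) * f47 +
    (1 * 1) * f48 +
    (1 * 1) * f49 +
    (1 * 1) * f50 +
    (1 * 1) * f51 +
    (1 * 1) * f52 +
    (1 * 1 * ((E 37) ^ 2 - (E 38) ^ 2) / 2) * f53 +
    (1) * f54

theorem mBv (h : TaH K E p) : pm (E 72) (TaBv E) = -E 2208 := by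
  have f0 := (V8 h).2.2.2.2.2.2.2.2.2.2.2.2.1
  have f1 := (F42 h).2.2.2.1
  have f2 := (V8 h).2.2.2.2.2.2.2.2.2.2.2.2.2.1
  have f3 := (F42 h).2.2.2.2.1
  have f4 := (V8 h).2.2.2.2.2.2.2.2.2.2.2.2.2.2.1
  have f5 := (F42 h).2.2.2.2.2.1
  have f6 := (V8 h).2.2.2.2.2.2.2.2.2.2.2.2.2.2.2.1
  have f7 := (F42 h).2.2.2.2.2.2.1
  have f8 := (F8 h).2.1
  have f9 := (F8 h).2.2.2.2.2.2.2.2.2.1
  have f10 := (rs35 h).m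
  have f11 := (rs38 h).m
  have f12 := (rs41 h).m
  have f13 := (rs44 h).m
  have f14 := (rs95 h).m
  have f15 := (rs98 h).m
  have f16 := (rs100 h).m
  have f17 := (rs103 h).m
  have f18 := (rs106 h).m
  have f19 := (rs109 h).m
  have f20 := (rs112 h).m
  have f21 := (rs47 h).m
  have f22 := (rs50 h).m
  have f23 := (rs53 h).m
  have f24 := (rs56 h).m
  have f25 := (rs59 h).m
  have f26 := (rs80 h).m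
  have f27 := (rs86 h).m
  have f28 := (rs115 h).m
  have f29 := (rs118 h).m
  have f30 := (rs121 h).m
  have f31 := (rs124 h).m
  have f32 := (rs127 h).m
  have f33 := (rs77 h).m
  have f34 := (rs130 h).m
  have f35 := (rs62 h).m
  have f36 := (rs65 h).m
  have f37 := (rs68 h).m
  have f38 := (rs71 h).m
  have f39 := (rs74 h).m
  have f40 := (rs83 h).m
  have f41 := (rs89 h).m
  have f42 := (rs92 h).m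
  have f43 := amBv h
  simp only [TaBv, pm]
  linear_combination ((E 71 - E 72)) * f0 +
    (((E 71) ^ 2 - (E 72) ^ 2) / 2) * f1 +
    ((E 70 - E 71)) * f2 +
    (((E 70) ^ 2 - (E 71) ^ 2) / 2) * f3 +
    ((E 69 - E 70)) * f4 +
    (((E 69) ^ 2 - (E 70) ^ 2) / 2) * f5 +
    ((E 68 - E 69)) * f6 +
    (((E 68) ^ 2 - (E 69) ^ 2) / 2) * f7 +
    (1 * (E 23)) * f8 +
    (-1 * (E 23)) * f9 +
    (1 * 1) * f10 +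
    (1 * 1) * f11 +
    (1 * 1) * f12 +
    (1 * 1) * f13 +
    (1 * 1) * f14 +
    (1 * 1) * f15 +
    (1 * 1) * f16 +
    (1 * 1) * f17 +
    (1 * 1) * f18 +
    (1 * 1) * f19 +
    (1 * 1) * f20 +
    (1 * 1) * f21 +
    (1 * 1) * f22 +
    (1 * 1) * f23 +
    (1 * 1) * f24 +
    (1 * 1) * f25 +
    (1 * 1) * f26 +
    (1 * 1) * f27 +
    (1 * 1) * f28 +
    (1 * 1) * f29 +
    (1 * 1) * f30 +
    (1 * 1) * f31 +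
    (1 * 1) * f32 +
    (1 * 1) * f33 +
    (1 * 1) * f34 +
    (1 * 1) * f35 +
    (1 * 1) * f36 +
    (1 * 1) * f37 +
    (1 * 1) * f38 +
    (1 * 1) * f39 +
    (1 * 1) * f40 +
    (1 * 1) * f41 +
    (1 * 1) * f42 +
    (1) * f43

theorem qBv (h : TaH K E p) : pq (E 72) (TaBv E) = -E 2210 := by
  have f0 := (V8 h).2.2.2.2.2.2.2.2.2.2.2.2.1
  have f1 := (F42 h).2.2.2.1
  have f2 := (V8 h).2.2.2.2.2.2.2.2.2.2.2.2.2.1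
  have f3 := (F42 h).2.2.2.2.1
  have f4 := (V8 h).2.2.2.2.2.2.2.2.2.2.2.2.2.2.1
  have f5 := (F42 h).2.2.2.2.2.1
  have f6 := (V8 h).2.2.2.2.2.2.2.2.2.2.2.2.2.2.2.1
  have f7 := (F42 h).2.2.2.2.2.2.1
  have f8 := (F8 h).2.2.2.2.2.2.2.2.1
  have f9 := (F8 h).2.2.2.2.2.2.2.2.2.1
  have f10 := (F8 h).1
  have f11 := (F8 h).2.1
  have f12 := (rs35 h).q
  have f13 := (rs38 h).q
  have f14 := (rs41 h).q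
  have f15 := (rs44 h).q
  have f16 := (rs95 h).q
  have f17 := (rs98 h).q
  have f18 := (rs100 h).q
  have f19 := (rs103 h).q
  have f20 := (rs106 h).q
  have f21 := (rs109 h).q
  have f22 := (rs112 h).q
  have f23 := (rs47 h).q
  have f24 := (rs50 h).q
  have f25 := (rs53 h).q
  have f26 := (rs56 h).q
  have f27 := (rs59 h).q
  have f28 := (rs80 h).q
  have f29 := (rs86 h).q
  have f30 := (rs115 h).q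
  have f31 := (rs118 h).q
  have f32 := (rs121 h).q
  have f33 := (rs124 h).q
  have f34 := (rs127 h).q
  have f35 := (rs77 h).q
  have f36 := (rs130 h).q
  have f37 := (rs62 h).q
  have f38 := (rs65 h).q
  have f39 := (rs68 h).q
  have f40 := (rs71 h).q
  have f41 := (rs74 h).q
  have f42 := (rs83 h).q
  have f43 := (rs89 h).q
  have f44 := (rs92 h).q
  have f45 := aqBv h
  simp only [TaBv, pq]
  linear_combination (((E 71) ^ 2 - (E 72) ^ 2) / 2) * f0 +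
    (((E 71) ^ 3 - (E 72) ^ 3) / 3) * f1 +
    (((E 70) ^ 2 - (E 71) ^ 2) / 2) * f2 +
    (((E 70) ^ 3 - (E 71) ^ 3) / 3) * f3 +
    (((E 69) ^ 2 - (E 70) ^ 2) / 2) * f4 +
    (((E 69) ^ 3 - (E 70) ^ 3) / 3) * f5 +
    (((E 68) ^ 2 - (E 69) ^ 2) / 2) * f6 +
    (((E 68) ^ 3 - (E 69) ^ 3) / 3) * f7 +
    (1 * (E 23)) * f8 +
    (-1 * (E 23) * E 72) * f9 +
    (-1 * (E 23)) * f10 +
    (1 * (E 23) * E 68) * f11 +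
    (1 * 1) * f12 +
    (1 * 1) * f13 +
    (1 * 1) * f14 +
    (1 * 1) * f15 +
    (1 * 1) * f16 +
    (1 * 1) * f17 +
    (1 * 1) * f18 +
    (1 * 1) * f19 +
    (1 * 1) * f20 +
    (1 * 1) * f21 +
    (1 * 1) * f22 +
    (1 * 1) * f23 +
    (1 * 1) * f24 +
    (1 * 1) * f25 +
    (1 * 1) * f26 +
    (1 * 1) * f27 +
    (1 * 1) * f28 +
    (1 * 1) * f29 +
    (1 * 1) * f30 +
    (1 * 1) * f31 +
    (1 * 1) * f32 +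
    (1 * 1) * f33 +
    (1 * 1) * f34 +
    (1 * 1) * f35 +
    (1 * 1) * f36 +
    (1 * 1) * f37 +
    (1 * 1) * f38 +
    (1 * 1) * f39 +
    (1 * 1) * f40 +
    (1 * 1) * f41 +
    (1 * 1) * f42 +
    (1 * 1) * f43 +
    (1 * 1) * f44 +
    (1) * f45

theorem mBx (h : TaH K E p) : pm (E 68) (TaBx E) = -E 2211 := by
  have f0 := (V9 h).1
  have f1 := (F42 h).2.2.2.2.2.2.2.1
  have f2 := (V9 h).2.1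
  have f3 := (F42 h).2.2.2.2.2.2.2.2.1
  have f4 := (V9 h).2.2.1
  have f5 := (F42 h).2.2.2.2.2.2.2.2.2.1
  have f6 := (V9 h).2.2.2.1
  have f7 := (F42 h).2.2.2.2.2.2.2.2.2.2.1
  have f8 := (V9 h).2.2.2.2.1
  have f9 := (F42 h).2.2.2.2.2.2.2.2.2.2.2.1
  have f10 := (V9 h).2.2.2.2.2.1
  have f11 := (F42 h).2.2.2.2.2.2.2.2.2.2.2.2.1
  have f12 := (V9 h).2.2.2.2.2.2.1
  have f13 := (F42 h).2.2.2.2.2.2.2.2.2.2.2.2.2.1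
  have f14 := (V9 h).2.2.2.2.2.2.2.1
  have f15 := (F42 h).2.2.2.2.2.2.2.2.2.2.2.2.2.2.1
  have f16 := (V9 h).2.2.2.2.2.2.2.2.1
  have f17 := (F42 h).2.2.2.2.2.2.2.2.2.2.2.2.2.2.2.1
  have f18 := (V9 h).2.2.2.2.2.2.2.2.2.1
  have f19 := (F43 h).1
  have f20 := (F6 h).2.2.2.2.2.2.2.2.2.2.2.2.2.1
  have f21 := (F8 h).2.1
  have f22 := (rs78 h).m
  have f23 := (rs99 h).m
  have f24 := (rs122 h).m
  have f25 := (rs128 h).m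
  have f26 := (rs131 h).m
  have f27 := (rs96 h).m
  have f28 := (rs101 h).m
  have f29 := (rs107 h).m
  have f30 := (rs110 h).m
  have f31 := (rs116 h).m
  have f32 := (rs60 h).m
  have f33 := (rs66 h).m
  have f34 := (rs72 h).m
  have f35 := (rs84 h).m
  have f36 := (rs90 h).m
  have f37 := (rs104 h).m
  have f38 := (rs113 h).m
  have f39 := (rs119 h).m
  have f40 := (rs125 h).m
  have f41 := (rs93 h).m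
  have f42 := (rs45 h).m
  have f43 := (rs54 h).m
  have f44 := (rs69 h).m
  have f45 := (rs75 h).m
  have f46 := (rs87 h).m
  have f47 := (rs81 h).m
  have f48 := (rs42 h).m
  have f49 := (rs51 h).m
  have f50 := (rs57 h).m
  have f51 := (rs63 h).m
  have f52 := (rs48 h).m
  have f53 := (rs39 h).m
  have f54 := (rs36 h).m
  have f55 := amBx h
  simp only [TaBx, pm]
  linear_combination ((E 67 - E 68)) * f0 +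
    (((E 67) ^ 2 - (E 68) ^ 2) / 2) * f1 +
    ((E 66 - E 67)) * f2 +
    (((E 66) ^ 2 - (E 67) ^ 2) / 2) * f3 +
    ((E 65 - E 66)) * f4 +
    (((E 65) ^ 2 - (E 66) ^ 2) / 2) * f5 +
    ((E 64 - E 65)) * f6 +
    (((E 64) ^ 2 - (E 65) ^ 2) / 2) * f7 +
    ((E 63 - E 64)) * f8 +
    (((E 63) ^ 2 - (E 64) ^ 2) / 2) * f9 +
    ((E 62 - E 63)) * f10 +
    (((E 62) ^ 2 - (E 63) ^ 2) / 2) * f11 +
    ((E 61 - E 62)) * f12 +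
    (((E 61) ^ 2 - (E 62) ^ 2) / 2) * f13 +
    ((E 60 - E 61)) * f14 +
    (((E 60) ^ 2 - (E 61) ^ 2) / 2) * f15 +
    ((E 59 - E 60)) * f16 +
    (((E 59) ^ 2 - (E 60) ^ 2) / 2) * f17 +
    ((E 58 - E 59)) * f18 +
    (((E 58) ^ 2 - (E 59) ^ 2) / 2) * f19 +
    (1 * (E 24)) * f20 +
    (-1 * (E 24)) * f21 +
    (1 * 1) * f22 +
    (1 * 1) * f23 +
    (1 * 1) * f24 +
    (1 * 1) * f25 +
    (1 * 1) * f26 +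
    (1 * 1) * f27 +
    (1 * 1) * f28 +
    (1 * 1) * f29 +
    (1 * 1) * f30 +
    (1 * 1) * f31 +
    (1 * 1) * f32 +
    (1 * 1) * f33 +
    (1 * 1) * f34 +
    (1 * 1) * f35 +
    (1 * 1) * f36 +
    (1 * 1) * f37 +
    (1 * 1) * f38 +
    (1 * 1) * f39 +
    (1 * 1) * f40 +
    (1 * 1) * f41 +
    (1 * 1) * f42 +
    (1 * 1) * f43 +
    (1 * 1) * f44 +
    (1 * 1) * f45 +
    (1 * 1) * f46 +
    (1 * 1) * f47 +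
    (1 * 1) * f48 +
    (1 * 1) * f49 +
    (1 * 1) * f50 +
    (1 * 1) * f51 +
    (1 * 1) * f52 +
    (1 * 1) * f53 +
    (1 * 1) * f54 +
    (1) * f55

theorem qBx (h : TaH K E p) : pq (E 68) (TaBx E) = -E 2213 := by
  have f0 := (V9 h).1
  have f1 := (F42 h).2.2.2.2.2.2.2.1
  have f2 := (V9 h).2.1
  have f3 := (F42 h).2.2.2.2.2.2.2.2.1
  have f4 := (V9 h).2.2.1
  have f5 := (F42 h).2.2.2.2.2.2.2.2.2.1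
  have f6 := (V9 h).2.2.2.1
  have f7 := (F42 h).2.2.2.2.2.2.2.2.2.2.1
  have f8 := (V9 h).2.2.2.2.1
  have f9 := (F42 h).2.2.2.2.2.2.2.2.2.2.2.1
  have f10 := (V9 h).2.2.2.2.2.1
  have f11 := (F42 h).2.2.2.2.2.2.2.2.2.2.2.2.1
  have f12 := (V9 h).2.2.2.2.2.2.1
  have f13 := (F42 h).2.2.2.2.2.2.2.2.2.2.2.2.2.1
  have f14 := (V9 h).2.2.2.2.2.2.2.1
  have f15 := (F42 h).2.2.2.2.2.2.2.2.2.2.2.2.2.2.1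
  have f16 := (V9 h).2.2.2.2.2.2.2.2.1
  have f17 := (F42 h).2.2.2.2.2.2.2.2.2.2.2.2.2.2.2.1
  have f18 := (V9 h).2.2.2.2.2.2.2.2.2.1
  have f19 := (F43 h).1
  have f20 := (F8 h).1
  have f21 := (F8 h).2.1
  have f22 := (F6 h).2.2.2.2.2.2.2.2.2.2.2.2.1
  have f23 := (F6 h).2.2.2.2.2.2.2.2.2.2.2.2.2.1
  have f24 := (rs78 h).q
  have f25 := (rs99 h).q
  have f26 := (rs122 h).q
  have f27 := (rs128 h).q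
  have f28 := (rs131 h).q
  have f29 := (rs96 h).q
  have f30 := (rs101 h).q
  have f31 := (rs107 h).q
  have f32 := (rs110 h).q
  have f33 := (rs116 h).q
  have f34 := (rs60 h).q
  have f35 := (rs66 h).q
  have f36 := (rs72 h).q
  have f37 := (rs84 h).q
  have f38 := (rs90 h).q
  have f39 := (rs104 h).q
  have f40 := (rs113 h).q
  have f41 := (rs119 h).q
  have f42 := (rs125 h).q
  have f43 := (rs93 h).q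
  have f44 := (rs45 h).q
  have f45 := (rs54 h).q
  have f46 := (rs69 h).q
  have f47 := (rs75 h).q
  have f48 := (rs87 h).q
  have f49 := (rs81 h).q
  have f50 := (rs42 h).q
  have f51 := (rs51 h).q
  have f52 := (rs57 h).q
  have f53 := (rs63 h).q
  have f54 := (rs48 h).q
  have f55 := (rs39 h).q
  have f56 := (rs36 h).q
  have f57 := aqBx h
  simp only [TaBx, pq]
  linear_combination (((E 67) ^ 2 - (E 68) ^ 2) / 2) * f0 +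
    (((E 67) ^ 3 - (E 68) ^ 3) / 3) * f1 +
    (((E 66) ^ 2 - (E 67) ^ 2) / 2) * f2 +
    (((E 66) ^ 3 - (E 67) ^ 3) / 3) * f3 +
    (((E 65) ^ 2 - (E 66) ^ 2) / 2) * f4 +
    (((E 65) ^ 3 - (E 66) ^ 3) / 3) * f5 +
    (((E 64) ^ 2 - (E 65) ^ 2) / 2) * f6 +
    (((E 64) ^ 3 - (E 65) ^ 3) / 3) * f7 +
    (((E 63) ^ 2 - (E 64) ^ 2) / 2) * f8 +
    (((E 63) ^ 3 - (E 64) ^ 3) / 3) * f9 +
    (((E 62) ^ 2 - (E 63) ^ 2) / 2) * f10 +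
    (((E 62) ^ 3 - (E 63) ^ 3) / 3) * f11 +
    (((E 61) ^ 2 - (E 62) ^ 2) / 2) * f12 +
    (((E 61) ^ 3 - (E 62) ^ 3) / 3) * f13 +
    (((E 60) ^ 2 - (E 61) ^ 2) / 2) * f14 +
    (((E 60) ^ 3 - (E 61) ^ 3) / 3) * f15 +
    (((E 59) ^ 2 - (E 60) ^ 2) / 2) * f16 +
    (((E 59) ^ 3 - (E 60) ^ 3) / 3) * f17 +
    (((E 58) ^ 2 - (E 59) ^ 2) / 2) * f18 +
    (((E 58) ^ 3 - (E 59) ^ 3) / 3) * f19 +
    (1 * (E 24)) * f20 +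
    (-1 * (E 24) * E 68) * f21 +
    (-1 * (E 24)) * f22 +
    (1 * (E 24) * E 58) * f23 +
    (1 * 1) * f24 +
    (1 * 1) * f25 +
    (1 * 1) * f26 +
    (1 * 1) * f27 +
    (1 * 1) * f28 +
    (1 * 1) * f29 +
    (1 * 1) * f30 +
    (1 * 1) * f31 +
    (1 * 1) * f32 +
    (1 * 1) * f33 +
    (1 * 1) * f34 +
    (1 * 1) * f35 +
    (1 * 1) * f36 +
    (1 * 1) * f37 +
    (1 * 1) * f38 +
    (1 * 1) * f39 +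
    (1 * 1) * f40 +
    (1 * 1) * f41 +
    (1 * 1) * f42 +
    (1 * 1) * f43 +
    (1 * 1) * f44 +
    (1 * 1) * f45 +
    (1 * 1) * f46 +
    (1 * 1) * f47 +
    (1 * 1) * f48 +
    (1 * 1) * f49 +
    (1 * 1) * f50 +
    (1 * 1) * f51 +
    (1 * 1) * f52 +
    (1 * 1) * f53 +
    (1 * 1) * f54 +
    (1 * 1) * f55 +
    (1 * 1) * f56 +
    (1) * f57

theorem mE1t (h : TaH K E p) : pm (E 51) (TaE1t E) = E 2214 := by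
  have f0 := amE1t h
  simp only [TaE1t, pm]
  linear_combination (-1) * f0

theorem qE1t (h : TaH K E p) : pq (E 51) (TaE1t E) = E 2216 := by
  have f0 := aqE1t h
  simp only [TaE1t, pq]
  linear_combination (-1) * f0

theorem mE1v (h : TaH K E p) : pm (E 76) (TaE1v E) = E 2217 := by
  have f0 := (V9 h).2.2.2.2.2.2.2.2.2.2.1
  have f1 := (F43 h).2.1
  have f2 := (V9 h).2.2.2.2.2.2.2.2.2.2.2.1
  have f3 := (F43 h).2.2.1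
  have f4 := (F9 h).2.1
  have f5 := (F9 h).2.2.2.2.2.1
  have f6 := (rs133 h).m
  have f7 := amE1v h
  simp only [TaE1v, pm]
  linear_combination ((E 77 - E 76)) * f0 +
    (((E 77) ^ 2 - (E 76) ^ 2) / 2) * f1 +
    ((E 78 - E 77)) * f2 +
    (((E 78) ^ 2 - (E 77) ^ 2) / 2) * f3 +
    (-1 * (E 23)) * f4 +
    (1 * (E 23)) * f5 +
    (-1 * 1) * f6 +
    (-1) * f7

theorem qE1v (h : TaH K E p) : pq (E 76) (TaE1v E) = E 2219 := by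
  have f0 := (V9 h).2.2.2.2.2.2.2.2.2.2.1
  have f1 := (F43 h).2.1
  have f2 := (V9 h).2.2.2.2.2.2.2.2.2.2.2.1
  have f3 := (F43 h).2.2.1
  have f4 := (F9 h).2.2.2.2.1
  have f5 := (F9 h).2.2.2.2.2.1
  have f6 := (F9 h).1
  have f7 := (F9 h).2.1
  have f8 := (rs133 h).q
  have f9 := aqE1v h
  simp only [TaE1v, pq]
  linear_combination (((E 77) ^ 2 - (E 76) ^ 2) / 2) * f0 +
    (((E 77) ^ 3 - (E 76) ^ 3) / 3) * f1 +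
    (((E 78) ^ 2 - (E 77) ^ 2) / 2) * f2 +
    (((E 78) ^ 3 - (E 77) ^ 3) / 3) * f3 +
    (-1 * (E 23)) * f4 +
    (1 * (E 23) * E 78) * f5 +
    (1 * (E 23)) * f6 +
    (-1 * (E 23) * E 76) * f7 +
    (-1 * 1) * f8 +
    (-1) * f9

theorem mE1x (h : TaH K E p) : pm (E 53) (TaE1x E) = E 2220 := by
  have f0 := (V9 h).2.2.2.2.2.2.2.2.2.2.2.2.1
  have f1 := (F43 h).2.2.2.1
  have f2 := (F6 h).2.2.2.1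
  have f3 := (F6 h).2.2.2.2.2.1
  have f4 := (rs134 h).m
  have f5 := amE1x h
  simp only [TaE1x, pm]
  linear_combination ((E 54 - E 53)) * f0 +
    (((E 54) ^ 2 - (E 53) ^ 2) / 2) * f1 +
    (-1 * (E 24)) * f2 +
    (1 * (E 24)) * f3 +
    (-1 * 1) * f4 +
    (-1) * f5

theorem qE1x (h : TaH K E p) : pq (E 53) (TaE1x E) = E 2222 := by
  have f0 := (V9 h).2.2.2.2.2.2.2.2.2.2.2.2.1
  have f1 := (F43 h).2.2.2.1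
  have f2 := (F6 h).2.2.2.2.1
  have f3 := (F6 h).2.2.2.2.2.1
  have f4 := (F6 h).2.2.1
  have f5 := (F6 h).2.2.2.1
  have f6 := (rs134 h).q
  have f7 := aqE1x h
  simp only [TaE1x, pq]
  linear_combination (((E 54) ^ 2 - (E 53) ^ 2) / 2) * f0 +
    (((E 54) ^ 3 - (E 53) ^ 3) / 3) * f1 +
    (-1 * (E 24)) * f2 +
    (1 * (E 24) * E 54) * f3 +
    (1 * (E 24)) * f4 +
    (-1 * (E 24) * E 53) * f5 +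
    (-1 * 1) * f6 +
    (-1) * f7

theorem mE2t (h : TaH K E p) : pm (E 51) (TaE2t E) = E 2223 := by
  have f0 := amE2t h
  simp only [TaE2t, pm]
  linear_combination (-1) * f0

theorem qE2t (h : TaH K E p) : pq (E 51) (TaE2t E) = E 2225 := by
  have f0 := aqE2t h
  simp only [TaE2t, pq]
  linear_combination (-1) * f0

theorem mE2v (h : TaH K E p) : pm (E 78) (TaE2v E) = E 2226 := by
  have f0 := (V9 h).2.2.2.2.2.2.2.2.2.2.2.2.2.1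
  have f1 := (F43 h).2.2.2.2.1
  have f2 := (F9 h).2.2.2.2.2.1
  have f3 := (F9 h).2.2.2.2.2.2.2.1
  have f4 := amE2v h
  simp only [TaE2v, pm, hpi h, nw80 h] at f0 f1 f2 f3 f4 ⊢
  linear_combination ((π - E 78)) * f0 +
    (((π) ^ 2 - (E 78) ^ 2) / 2) * f1 +
    (-1 * (E 23)) * f2 +
    (1 * (E 23)) * f3 +
    (-1) * f4

theorem qE2v (h : TaH K E p) : pq (E 78) (TaE2v E) = E 2228 := by
  have f0 := (V9 h).2.2.2.2.2.2.2.2.2.2.2.2.2.1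
  have f1 := (F43 h).2.2.2.2.1
  have f2 := (F9 h).2.2.2.2.2.2.1
  have f3 := (F9 h).2.2.2.2.2.2.2.1
  have f4 := (F9 h).2.2.2.2.1
  have f5 := (F9 h).2.2.2.2.2.1
  have f6 := aqE2v h
  simp only [TaE2v, pq, hpi h, nw80 h] at f0 f1 f2 f3 f4 f5 f6 ⊢
  linear_combination (((π) ^ 2 - (E 78) ^ 2) / 2) * f0 +
    (((π) ^ 3 - (E 78) ^ 3) / 3) * f1 +
    (-1 * (E 23)) * f2 +
    (1 * (E 23) * π) * f3 +
    (1 * (E 23)) * f4 +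
    (-1 * (E 23) * E 78) * f5 +
    (-1) * f6

theorem mE2x (h : TaH K E p) : pm (E 52) (TaE2x E) = E 2229 := by
  have f0 := amE2x h
  simp only [TaE2x, pm]
  linear_combination (-1) * f0

theorem qE2x (h : TaH K E p) : pq (E 52) (TaE2x E) = E 2231 := by
  have f0 := aqE2x h
  simp only [TaE2x, pq]
  linear_combination (-1) * f0

theorem mE3t (h : TaH K E p) : pm (E 52) (TaE3t E) = -E 2232 := by
  have f0 := (V9 h).2.2.2.2.2.2.2.2.2.2.2.2.2.2.1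
  have f1 := (F43 h).2.2.2.2.2.1
  have f2 := (F5 h).2.2.2.2.2.2.2.2.2.2.2.2.2.2.2.1
  have f3 := (F6 h).2.1
  have f4 := (rs132 h).m
  have f5 := amE3t h
  simp only [TaE3t, pm]
  linear_combination ((E 51 - E 52)) * f0 +
    (((E 51) ^ 2 - (E 52) ^ 2) / 2) * f1 +
    (1 * (((1 : ℤ) : ℝ) / ((1 : ℕ) : ℝ))) * f2 +
    (-1 * (((1 : ℤ) : ℝ) / ((1 : ℕ) : ℝ))) * f3 +
    (1 * 1) * f4 +
    (1) * f5

theorem qE3t (h : TaH K E p) : pq (E 52) (TaE3t E) = -E 2234 := by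
  have f0 := (V9 h).2.2.2.2.2.2.2.2.2.2.2.2.2.2.1
  have f1 := (F43 h).2.2.2.2.2.1
  have f2 := (F6 h).1
  have f3 := (F6 h).2.1
  have f4 := (F5 h).2.2.2.2.2.2.2.2.2.2.2.2.2.2.1
  have f5 := (F5 h).2.2.2.2.2.2.2.2.2.2.2.2.2.2.2.1
  have f6 := (rs132 h).q
  have f7 := aqE3t h
  simp only [TaE3t, pq]
  linear_combination (((E 51) ^ 2 - (E 52) ^ 2) / 2) * f0 +
    (((E 51) ^ 3 - (E 52) ^ 3) / 3) * f1 +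
    (1 * (((1 : ℤ) : ℝ) / ((1 : ℕ) : ℝ))) * f2 +
    (-1 * (((1 : ℤ) : ℝ) / ((1 : ℕ) : ℝ)) * E 52) * f3 +
    (-1 * (((1 : ℤ) : ℝ) / ((1 : ℕ) : ℝ))) * f4 +
    (1 * (((1 : ℤ) : ℝ) / ((1 : ℕ) : ℝ)) * E 51) * f5 +
    (1 * 1) * f6 +
    (1) * f7

theorem mE3v (h : TaH K E p) : pm (E 80) (TaE3v E) = -E 2235 := by
  have f0 := amE3v h
  simp only [TaE3v, pm]
  linear_combination (1) * f0

theorem qE3v (h : TaH K E p) : pq (E 80) (TaE3v E) = -E 2237 := by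
  have f0 := aqE3v h
  simp only [TaE3v, pq]
  linear_combination (1) * f0

theorem mE3x (h : TaH K E p) : pm (E 53) (TaE3x E) = -E 2238 := by
  have f0 := (V9 h).2.2.2.2.2.2.2.2.2.2.2.2.2.2.2.1
  have f1 := (F43 h).2.2.2.2.2.2.1
  have f2 := (F6 h).2.1
  have f3 := (F6 h).2.2.2.1
  have f4 := amE3x h
  simp only [TaE3x, pm]
  linear_combination ((E 52 - E 53)) * f0 +
    (((E 52) ^ 2 - (E 53) ^ 2) / 2) * f1 +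
    (1 * (E 24)) * f2 +
    (-1 * (E 24)) * f3 +
    (1) * f4

theorem qE3x (h : TaH K E p) : pq (E 53) (TaE3x E) = -E 2240 := by
  have f0 := (V9 h).2.2.2.2.2.2.2.2.2.2.2.2.2.2.2.1
  have f1 := (F43 h).2.2.2.2.2.2.1
  have f2 := (F6 h).2.2.1
  have f3 := (F6 h).2.2.2.1
  have f4 := (F6 h).1
  have f5 := (F6 h).2.1
  have f6 := aqE3x h
  simp only [TaE3x, pq]
  linear_combination (((E 52) ^ 2 - (E 53) ^ 2) / 2) * f0 +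
    (((E 52) ^ 3 - (E 53) ^ 3) / 3) * f1 +
    (1 * (E 24)) * f2 +
    (-1 * (E 24) * E 53) * f3 +
    (-1 * (E 24)) * f4 +
    (1 * (E 24) * E 52) * f5 +
    (1) * f6

end Ta

end Pool.Agent.MP_e5b4ec_an.Mid
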