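import Pool.Agent.MP_e5b4ec_an.Mid.TaB
import Pool.Agent.MP_e5b4ec_an.Mid.TaK0
import Pool.Agent.MP_e5b4ec_an.Mid.TaK1
import Pool.Agent.MP_e5b4ec_an.Mid.TaK2
import Pool.Agent.MP_e5b4ec_an.Mid.TaK3

set_option maxRecDepth 20000

namespace Pool.Agent.MP_e5b4ec_an.Mid

theorem TaDS : DualSpec [(Tads, Tacs)] := by
  refine ⟨fun b hb => ?_, fun K M s p hM _ hl ht h => ?_⟩
  · rw [List.mem_singleton.1 hb]; decide +kernel
  · obtain ⟨E, h0, hp, hd, hc⟩ := h _ (List.mem_singleton.2 rfl)
    subst h0
    exact Taspec K E s p hM hl ht hp hd hc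

theorem Tacover (M : ℝ) (h1 : 127 / 100 ≤ M) (h2 : M ≤ 34 / 25) : Good M := by
  rcases le_total M (319 / 250) with h | h1
  · exact Tak0 TaDS M (by linarith) h
  rcases le_total M (321 / 250) with h | h1
  · exact Tak1 TaDS M (by linarith) h
  rcases le_total M (129 / 100) with h | h1
  · exact Tak2 TaDS M (by linarith) h
  rcases le_total M (162 / 125) with h | h1
  · exact Tak3 TaDS M (by linarith) h
  rcases le_total M (651 / 500) with h | h1
  · exact Tak4 TaDS M (by linarith) h
  rcases le_total M (327 / 250) with h | h1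
  · exact Tak5 TaDS M (by linarith) h
  rcases le_total M (657 / 500) with h | h1
  · exact Tak6 TaDS M (by linarith) h
  rcases le_total M (33 / 25) with h | h1
  · exact Tak7 TaDS M (by linarith) h
  rcases le_total M (663 / 500) with h | h1
  · exact Tak8 TaDS M (by linarith) h
  rcases le_total M (333 / 250) with h | h1
  · exact Tak9 TaDS M (by linarith) h
  rcases le_total M (669 / 500) with h | h1
  · exact Tak10 TaDS M (by linarith) h
  rcases le_total M (168 / 125) with h | h1
  · exact Tak11 TaDS M (by linarith) h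
  rcases le_total M (27 / 20) with h | h1
  · exact Tak12 TaDS M (by linarith) h
  rcases le_total M (339 / 250) with h | h1
  · exact Tak13 TaDS M (by linarith) h
  rcases le_total M (1359 / 1000) with h | h1
  · exact Tak14 TaDS M (by linarith) h
  exact Tak15 TaDS M (by linarith) h2

end Pool.Agent.MP_e5b4ec_an.Mid
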