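import Pool.Agent.MP_e5b4ec_an.Mid.TaX
import Pool.Agent.MP_e5b4ec_an.Mid.DL

set_option maxRecDepth 20000
set_option linter.unusedSimpArgs false
set_option linter.unusedVariables false

open Real

namespace Pool.Agent.MP_e5b4ec_an.Mid

def Tav0 : List Ex := [
  .sub (.mul (.v 188) (.v 190)) (.mul (.v 322) (.v 82)),
  .sub (.q 0 1) (.mul (.v 324) (.v 34)),
  .sub (.mul (.v 259) (.v 261)) (.mul (.v 326) (.v 35)),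
  .sub (.v 343) (.mul (.v 342) (.v 51)),
  .sub (.q 0 1) (.mul (.v 174) (.v 49)),
  .sub (.q 0 1) (.mul (.v 176) (.v 34)),
  .sub (.v 419) (.mul (.v 422) (.v 83)),
  .sub (.mul (.v 177) (.v 178)) (.mul (.v 499) (.v 47)),
  .sub (.mul (.v 177) (.v 179)) (.mul (.v 501) (.v 74)),
  .sub (.q 0 1) (.mul (.v 503) (.v 55)),
  .sub (.mul (.v 181) (.v 182)) (.mul (.v 505) (.v 46)),
  .sub (.mul (.v 181) (.v 183)) (.mul (.v 507) (.v 73)),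
  .sub (.q 0 1) (.mul (.v 509) (.v 56)),
  .sub (.q 0 1) (.mul (.v 511) (.v 45)),
  .sub (.q 0 1) (.mul (.v 513) (.v 72)),
  .sub (.mul (.v 418) (.v 187)) (.mul (.v 515) (.v 57))]

def Tav1 : List Ex := [
  .sub (.mul (.v 188) (.v 191)) (.mul (.v 517) (.v 48)),
  .sub (.mul (.v 192) (.v 193)) (.mul (.v 519) (.v 44)),
  .sub (.mul (.v 192) (.v 194)) (.mul (.v 521) (.v 71)),
  .sub (.q 0 1) (.mul (.v 523) (.v 58)),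
  .sub (.mul (.v 197) (.v 193)) (.mul (.v 524) (.v 44)),
  .sub (.mul (.v 197) (.v 198)) (.mul (.v 526) (.v 69)),
  .sub (.mul (.v 196) (.v 199)) (.mul (.v 528) (.v 58)),
  .sub (.mul (.v 201) (.v 202)) (.mul (.v 530) (.v 43)),
  .sub (.mul (.v 201) (.v 203)) (.mul (.v 532) (.v 68)),
  .sub (.mul (.v 200) (.v 204)) (.mul (.v 534) (.v 58)),
  .sub (.mul (.v 206) (.v 207)) (.mul (.v 536) (.v 42)),
  .sub (.mul (.v 206) (.v 203)) (.mul (.v 537) (.v 68)),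
  .sub (.mul (.v 205) (.v 208)) (.mul (.v 539) (.v 58)),
  .sub (.mul (.v 209) (.v 210)) (.mul (.v 541) (.v 43)),
  .sub (.mul (.v 209) (.v 211)) (.mul (.v 543) (.v 69)),
  .sub (.q 0 1) (.mul (.v 545) (.v 59))]

def Tav2 : List Ex := [
  .sub (.q 0 1) (.mul (.v 546) (.v 43)),
  .sub (.q 0 1) (.mul (.v 548) (.v 68)),
  .sub (.mul (.v 213) (.v 215)) (.mul (.v 550) (.v 59)),
  .sub (.q 0 1) (.mul (.v 552) (.v 42)),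
  .sub (.q 0 1) (.mul (.v 553) (.v 68)),
  .sub (.mul (.v 216) (.v 218)) (.mul (.v 555) (.v 60)),
  .sub (.q 0 1) (.mul (.v 556) (.v 42)),
  .sub (.mul (.v 219) (.v 214)) (.mul (.v 557) (.v 68)),
  .sub (.q 0 1) (.mul (.v 559) (.v 61)),
  .sub (.q 0 1) (.mul (.v 561) (.v 40)),
  .sub (.q 0 1) (.mul (.v 562) (.v 68)),
  .sub (.mul (.v 221) (.v 223)) (.mul (.v 564) (.v 61)),
  .sub (.q 0 1) (.mul (.v 565) (.v 43)),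
  .sub (.q 0 1) (.mul (.v 567) (.v 68)),
  .sub (.mul (.v 224) (.v 226)) (.mul (.v 569) (.v 60)),
  .sub (.mul (.v 228) (.v 229)) (.mul (.v 571) (.v 40))]

def Tav3 : List Ex := [
  .sub (.mul (.v 228) (.v 225)) (.mul (.v 572) (.v 68)),
  .sub (.mul (.v 227) (.v 230)) (.mul (.v 574) (.v 60)),
  .sub (.mul (.v 232) (.v 217)) (.mul (.v 575) (.v 42)),
  .sub (.mul (.v 232) (.v 225)) (.mul (.v 576) (.v 68)),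
  .sub (.mul (.v 231) (.v 233)) (.mul (.v 578) (.v 61)),
  .sub (.q 0 1) (.mul (.v 579) (.v 40)),
  .sub (.q 0 1) (.mul (.v 580) (.v 68)),
  .sub (.mul (.v 234) (.v 235)) (.mul (.v 582) (.v 62)),
  .sub (.mul (.v 236) (.v 237)) (.mul (.v 584) (.v 41)),
  .sub (.q 0 1) (.mul (.v 585) (.v 68)),
  .sub (.q 0 1) (.mul (.v 587) (.v 62)),
  .sub (.mul (.v 240) (.v 241)) (.mul (.v 589) (.v 36)),
  .sub (.mul (.v 239) (.v 242)) (.mul (.v 591) (.v 69)),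
  .sub (.mul (.v 239) (.v 243)) (.mul (.v 593) (.v 64)),
  .sub (.mul (.v 244) (.v 245)) (.mul (.v 595) (.v 40)),
  .sub (.q 0 1) (.mul (.v 596) (.v 68))]

def Tav4 : List Ex := [
  .sub (.q 0 1) (.mul (.v 598) (.v 62)),
  .sub (.q 0 1) (.mul (.v 600) (.v 39)),
  .sub (.mul (.v 247) (.v 225)) (.mul (.v 601) (.v 68)),
  .sub (.mul (.v 247) (.v 235)) (.mul (.v 602) (.v 62)),
  .sub (.mul (.v 250) (.v 222)) (.mul (.v 603) (.v 40)),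
  .sub (.mul (.v 249) (.v 214)) (.mul (.v 604) (.v 68)),
  .sub (.mul (.v 250) (.v 251)) (.mul (.v 606) (.v 63)),
  .sub (.mul (.v 253) (.v 254)) (.mul (.v 608) (.v 39)),
  .sub (.mul (.v 252) (.v 225)) (.mul (.v 609) (.v 68)),
  .sub (.mul (.v 252) (.v 255)) (.mul (.v 611) (.v 64)),
  .sub (.mul (.v 257) (.v 222)) (.mul (.v 612) (.v 40)),
  .sub (.mul (.v 256) (.v 225)) (.mul (.v 613) (.v 68)),
  .sub (.mul (.v 256) (.v 258)) (.mul (.v 615) (.v 64)),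
  .sub (.mul (.v 260) (.v 194)) (.mul (.v 616) (.v 71)),
  .sub (.mul (.v 260) (.v 262)) (.mul (.v 618) (.v 66)),
  .sub (.mul (.v 263) (.v 265)) (.mul (.v 620) (.v 35))]

def Tav5 : List Ex := [
  .sub (.mul (.v 264) (.v 266)) (.mul (.v 622) (.v 70)),
  .sub (.mul (.v 263) (.v 267)) (.mul (.v 624) (.v 67)),
  .sub (.mul (.v 269) (.v 194)) (.mul (.v 625) (.v 71)),
  .sub (.mul (.v 268) (.v 262)) (.mul (.v 626) (.v 66)),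
  .sub (.mul (.v 270) (.v 271)) (.mul (.v 628) (.v 36)),
  .sub (.q 0 1) (.mul (.v 629) (.v 71)),
  .sub (.q 0 1) (.mul (.v 631) (.v 65)),
  .sub (.q 0 1) (.mul (.v 633) (.v 36)),
  .sub (.mul (.v 273) (.v 198)) (.mul (.v 634) (.v 69)),
  .sub (.q 0 1) (.mul (.v 635) (.v 66)),
  .sub (.mul (.v 275) (.v 274)) (.mul (.v 636) (.v 36)),
  .sub (.mul (.v 275) (.v 194)) (.mul (.v 637) (.v 71)),
  .sub (.q 0 1) (.mul (.v 639) (.v 65)),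
  .sub (.q 0 1) (.mul (.v 641) (.v 37)),
  .sub (.mul (.v 277) (.v 198)) (.mul (.v 642) (.v 69)),
  .sub (.q 0 1) (.mul (.v 643) (.v 65))]

def Tav6 : List Ex := [
  .sub (.q 0 1) (.mul (.v 645) (.v 36)),
  .sub (.mul (.v 279) (.v 211)) (.mul (.v 646) (.v 69)),
  .sub (.mul (.v 279) (.v 276)) (.mul (.v 647) (.v 65)),
  .sub (.q 0 1) (.mul (.v 649) (.v 37)),
  .sub (.mul (.v 281) (.v 211)) (.mul (.v 650) (.v 69)),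
  .sub (.mul (.v 281) (.v 272)) (.mul (.v 651) (.v 65)),
  .sub (.q 0 1) (.mul (.v 652) (.v 36)),
  .sub (.q 0 1) (.mul (.v 654) (.v 70)),
  .sub (.mul (.v 283) (.v 285)) (.mul (.v 656) (.v 66)),
  .sub (.q 0 1) (.mul (.v 658) (.v 39)),
  .sub (.mul (.v 286) (.v 214)) (.mul (.v 659) (.v 68)),
  .sub (.q 0 1) (.mul (.v 660) (.v 65)),
  .sub (.mul (.v 288) (.v 271)) (.mul (.v 661) (.v 36)),
  .sub (.mul (.v 288) (.v 284)) (.mul (.v 662) (.v 70)),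
  .sub (.q 0 1) (.mul (.v 664) (.v 65)),
  .sub (.mul (.v 290) (.v 274)) (.mul (.v 665) (.v 36))]

def Tav7 : List Ex := [
  .sub (.q 0 1) (.mul (.v 666) (.v 69)),
  .sub (.q 0 1) (.mul (.v 667) (.v 67)),
  .sub (.mul (.v 496) (.v 291)) (.mul (.v 669) (.v 51)),
  .sub (.mul (.v 496) (.v 292)) (.mul (.v 671) (.v 76)),
  .sub (.q 0 1) (.mul (.v 673) (.v 53)),
  .q 0 1,
  .sub (.q 0 1) (.v 2008),
  .sub (.q 0 1) (.v 330),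
  .sub (.q 0 1) (.v 2009),
  .sub (.q 0 1) (.v 2014),
  .sub (.sub (.q 0 1) (.v 421)) (.v 2011),
  .sub (.sub (.q 0 1) (.v 2015)) (.mul (.v 24) (.sub (.sub (.q 0 1) (.mul (.v 0) (.add (.v 2006) (.mul (.v 422) (.add .pi .pi))))) (.mul (.v 0) (.add (.v 2000) (.mul (.v 322) (.add .pi .pi)))))),
  .sub (.q 0 1) (.v 2010),
  .sub (.sub (.q 0 1) (.v 420)) (.v 2013),
  .sub (.sub (.q 0 1) (.v 2012)) (.mul (.v 24) (.sub (.sub (.q 0 1) (.mul (.v 0) (.v 419))) (.mul (.v 0) (.add (.v 2000) (.mul (.v 322) (.add .pi .pi)))))),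
  .sub (.sub (.q 0 1) (.v 2016)) (.mul (.v 24) (.v 2003))]

def Tav8 : List Ex := [
  .sub (.sub (.q 0 1) (.v 2016)) (.mul (.v 24) (.add (.add (.v 2004) (.v 175)) (.v 2007))),
  .sub (.sub (.q 0 1) (.v 2016)) (.mul (.v 24) (.add (.v 355) (.v 2007))),
  .sub (.q 0 1) (.mul (.v 24) (.add (.v 356) (.v 2007))),
  .sub (.sub (.sub (.sub (.q 0 1) (.v 2017)) (.v 2020)) (.v 2023)) (.v 2026),
  .sub (.sub (.sub (.sub (.sub (.sub (.sub (.q 0 1) (.v 2001)) (.v 2023)) (.v 2026)) (.v 2029)) (.v 2032)) (.v 2044)) (.v 2047),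
  .sub (.sub (.sub (.sub (.sub (.sub (.sub (.sub (.sub (.sub (.q 0 1) (.v 435)) (.v 2001)) (.v 2026)) (.v 2035)) (.v 2038)) (.v 2047)) (.v 2050)) (.v 2056)) (.v 2062)) (.v 2065),
  .sub (.sub (.sub (.sub (.sub (.sub (.sub (.sub (.sub (.sub (.sub (.q 0 1) (.v 435)) (.v 2001)) (.v 2041)) (.v 2047)) (.v 2053)) (.v 2056)) (.v 2062)) (.v 2065)) (.v 2068)) (.v 2071)) (.v 2074),
  .sub (.sub (.sub (.sub (.sub (.sub (.sub (.sub (.sub (.sub (.sub (.q 0 1) (.v 435)) (.v 2001)) (.v 2041)) (.v 2047)) (.v 2053)) (.v 2059)) (.v 2062)) (.v 2065)) (.v 2068)) (.v 2071)) (.v 2074),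
  .sub (.sub (.sub (.sub (.sub (.sub (.sub (.sub (.q 0 1) (.v 435)) (.v 2001)) (.v 2059)) (.v 2065)) (.v 2071)) (.v 2096)) (.v 2099)) (.v 2105),
  .sub (.sub (.sub (.sub (.sub (.sub (.sub (.sub (.q 0 1) (.v 434)) (.v 2001)) (.v 2059)) (.v 2084)) (.v 2093)) (.v 2096)) (.v 2099)) (.v 2108),
  .sub (.sub (.sub (.sub (.sub (.sub (.sub (.sub (.add (.v 2005) (.v 2001)) (.v 434)) (.v 2001)) (.v 2059)) (.v 2084)) (.v 2093)) (.v 2096)) (.v 2099)) (.v 2108),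
  .sub (.sub (.sub (.sub (.sub (.sub (.sub (.sub (.sub (.sub (.sub (.add (.add (.add (.add (.v 434) (.v 439)) (.v 2001)) (.v 2002)) (.v 2079)) (.v 434)) (.v 2001)) (.v 2059)) (.v 2002)) (.v 2084)) (.v 2087)) (.v 2090)) (.v 2096)) (.v 2102)) (.v 2108)) (.v 2111),
  .sub (.sub (.sub (.sub (.sub (.sub (.sub (.sub (.sub (.sub (.sub (.q 0 1) (.v 2018)) (.v 2021)) (.v 2024)) (.v 2027)) (.v 2077)) (.v 2080)) (.v 2082)) (.v 2085)) (.v 2088)) (.v 2091)) (.v 2094),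
  .sub (.sub (.sub (.sub (.sub (.sub (.sub (.sub (.sub (.sub (.sub (.sub (.sub (.sub (.sub (.sub (.sub (.sub (.q 0 1) (.v 2021)) (.v 2024)) (.v 2027)) (.v 2030)) (.v 2033)) (.v 2036)) (.v 2039)) (.v 2042)) (.v 2063)) (.v 2069)) (.v 2080)) (.v 2088)) (.v 2094)) (.v 2097)) (.v 2100)) (.v 2103)) (.v 2106)) (.v 2109),
  .sub (.sub (.sub (.sub (.sub (.sub (.sub (.sub (.sub (.sub (.sub (.sub (.sub (.sub (.sub (.sub (.sub (.q 0 1) (.v 2021)) (.v 2024)) (.v 2027)) (.v 2030)) (.v 2033)) (.v 2036)) (.v 2039)) (.v 2042)) (.v 2060)) (.v 2063)) (.v 2069)) (.v 2088)) (.v 2094)) (.v 2097)) (.v 2100)) (.v 2106)) (.v 2112),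
  .sub (.sub (.sub (.sub (.sub (.sub (.sub (.sub (.sub (.sub (.sub (.sub (.sub (.sub (.sub (.sub (.sub (.q 0 1) (.v 2024)) (.v 2027)) (.v 2033)) (.v 2036)) (.v 2039)) (.v 2042)) (.v 2045)) (.v 2048)) (.v 2051)) (.v 2054)) (.v 2057)) (.v 2063)) (.v 2066)) (.v 2069)) (.v 2072)) (.v 2075)) (.v 2106)]

def Tav9 : List Ex := [
  .sub (.sub (.sub (.sub (.sub (.q 0 1) (.v 2061)) (.v 2081)) (.v 2104)) (.v 2110)) (.v 2113),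
  .sub (.sub (.sub (.sub (.sub (.sub (.sub (.sub (.q 0 1) (.v 2061)) (.v 2078)) (.v 2083)) (.v 2089)) (.v 2092)) (.v 2098)) (.v 2104)) (.v 2110),
  .sub (.sub (.sub (.sub (.sub (.sub (.sub (.sub (.sub (.sub (.sub (.sub (.sub (.q 0 1) (.v 2043)) (.v 2049)) (.v 2055)) (.v 2061)) (.v 2067)) (.v 2073)) (.v 2086)) (.v 2092)) (.v 2095)) (.v 2098)) (.v 2101)) (.v 2107)) (.v 2110),
  .sub (.sub (.sub (.sub (.sub (.sub (.sub (.q 0 1) (.v 2043)) (.v 2049)) (.v 2055)) (.v 2061)) (.v 2067)) (.v 2073)) (.v 2076),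
  .sub (.sub (.sub (.sub (.sub (.sub (.sub (.sub (.sub (.q 0 1) (.v 2028)) (.v 2037)) (.v 2043)) (.v 2049)) (.v 2052)) (.v 2055)) (.v 2058)) (.v 2067)) (.v 2070),
  .sub (.sub (.sub (.sub (.sub (.sub (.sub (.sub (.sub (.q 0 1) (.v 2028)) (.v 2037)) (.v 2043)) (.v 2049)) (.v 2052)) (.v 2055)) (.v 2058)) (.v 2064)) (.v 2067),
  .sub (.sub (.sub (.sub (.sub (.sub (.sub (.sub (.sub (.q 0 1) (.v 2025)) (.v 2028)) (.v 2034)) (.v 2037)) (.v 2040)) (.v 2043)) (.v 2046)) (.v 2049)) (.v 2052),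
  .sub (.sub (.sub (.sub (.sub (.sub (.sub (.q 0 1) (.v 2025)) (.v 2028)) (.v 2031)) (.v 2034)) (.v 2037)) (.v 2046)) (.v 2049),
  .sub (.sub (.sub (.sub (.sub (.q 0 1) (.v 2022)) (.v 2025)) (.v 2028)) (.v 2031)) (.v 2034),
  .sub (.sub (.sub (.sub (.q 0 1) (.v 2019)) (.v 2022)) (.v 2025)) (.v 2028),
  .sub (.q 0 1) (.v 2115),
  .sub (.q 0 1) (.v 495),
  .sub (.q 0 1) (.v 2116),
  .sub (.add (.v 493) (.v 491)) (.v 491),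
  .sub (.sub (.sub (.q 0 1) (.v 497)) (.v 494)) (.v 2114),
  .sub (.q 0 1) (.v 492)]

def Tav10 : List Ex := [
  .add (.add (.add (.mul (.sub (.v 51) (.v 50)) (.v 343)) (.mul (.mul (.sub (.v 51) (.v 50)) (.sub (.mul (.q 1 2) (.add (.v 50) (.v 51))) (.v 51))) (.v 342))) (.mul (.sub (.v 50) (.v 49)) (.mul (.sub (.v 50) (.v 49)) (.v 174)))) (.mul (.mul (.sub (.v 50) (.v 49)) (.sub (.mul (.q 1 2) (.add (.v 49) (.v 50))) (.v 50))) (.v 174)),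
  .add (.add (.add (.mul (.mul (.sub (.v 51) (.v 50)) (.sub (.mul (.q 1 2) (.add (.v 50) (.v 51))) (.v 296))) (.v 343)) (.mul (.mul (.sub (.v 51) (.v 50)) (.add (.mul (.q 1 3) (.add (.add (.mul (.sub (.v 50) (.v 51)) (.sub (.v 50) (.v 51))) (.mul (.sub (.v 50) (.v 51)) (.sub (.v 51) (.v 51)))) (.mul (.sub (.v 51) (.v 51)) (.sub (.v 51) (.v 51))))) (.mul (.sub (.v 51) (.v 296)) (.sub (.mul (.q 1 2) (.add (.v 50) (.v 51))) (.v 51))))) (.v 342))) (.mul (.mul (.sub (.v 50) (.v 49)) (.sub (.mul (.q 1 2) (.add (.v 49) (.v 50))) (.v 296))) (.mul (.sub (.v 50) (.v 49)) (.v 174)))) (.mul (.mul (.sub (.v 50) (.v 49)) (.add (.mul (.q 1 3) (.add (.add (.mul (.sub (.v 49) (.v 50)) (.sub (.v 49) (.v 50))) (.mul (.sub (.v 49) (.v 50)) (.sub (.v 50) (.v 50)))) (.mul (.sub (.v 50) (.v 50)) (.sub (.v 50) (.v 50))))) (.mul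 (.sub (.v 50) (.v 296)) (.sub (.mul (.q 1 2) (.add (.v 49) (.v 50))) (.v 50))))) (.v 174)),
  .add (.v 2161) (.mul (.v 296) (.v 2160)),
  .mul (.sub (.v 76) (.v 75)) (.v 330),
  .mul (.mul (.sub (.v 76) (.v 75)) (.sub (.mul (.q 1 2) (.add (.v 75) (.v 76))) (.v 294))) (.v 330),
  .add (.v 2164) (.mul (.v 294) (.v 2163)),
  .mul (.v 24) (.sub (.v 123) (.v 125)),
  .mul (.v 24) (.add (.sub (.v 124) (.v 122)) (.sub (.mul (.sub (.v 54) (.v 295)) (.v 123)) (.mul (.sub (.v 55) (.v 295)) (.v 125)))),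
  .add (.v 2167) (.mul (.v 295) (.v 2166)),
  .add (.add (.mul (.sub (.v 48) (.v 47)) (.v 356)) (.mul (.sub (.v 49) (.v 48)) (.v 355))) (.mul (.sub (.v 50) (.v 49)) (.v 175)),
  .add (.add (.mul (.mul (.sub (.v 48) (.v 47)) (.sub (.mul (.q 1 2) (.add (.v 47) (.v 48))) (.v 299))) (.v 356)) (.mul (.mul (.sub (.v 49) (.v 48)) (.sub (.mul (.q 1 2) (.add (.v 48) (.v 49))) (.v 299))) (.v 355))) (.mul (.mul (.sub (.v 50) (.v 49)) (.sub (.mul (.q 1 2) (.add (.v 49) (.v 50))) (.v 299))) (.v 175)),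
  .add (.v 2170) (.mul (.v 299) (.v 2169)),
  .sub (.sub (.mul (.v 23) (.sub (.v 163) (.v 167))) (.mul (.q 1 2) (.v 177))) (.mul (.sub (.v 76) (.v 75)) (.v 330)),
  .sub (.sub (.mul (.v 23) (.add (.sub (.v 166) (.v 162)) (.sub (.mul (.sub (.v 74) (.v 297)) (.v 163)) (.mul (.sub (.v 76) (.v 297)) (.v 167))))) (.mul (.mul (.q 1 6) (.add (.add (.sub (.v 74) (.v 297)) (.sub (.v 74) (.v 297))) (.sub (.v 75) (.v 297)))) (.v 177))) (.mul (.mul (.sub (.v 76) (.v 75)) (.sub (.mul (.q 1 2) (.add (.v 75) (.v 76))) (.v 297))) (.v 330)),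
  .add (.v 2173) (.mul (.v 297) (.v 2172)),
  .sub (.mul (.v 24) (.sub (.v 125) (.v 127))) (.mul (.q 1 2) (.v 177))]

def Tav11 : List Ex := [
  .sub (.mul (.v 24) (.add (.sub (.v 126) (.v 124)) (.sub (.mul (.sub (.v 55) (.v 298)) (.v 125)) (.mul (.sub (.v 56) (.v 298)) (.v 127))))) (.mul (.mul (.q 1 6) (.add (.sub (.v 55) (.v 298)) (.add (.sub (.v 56) (.v 298)) (.sub (.v 56) (.v 298))))) (.v 177)),
  .add (.v 2176) (.mul (.v 298) (.v 2175)),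
  .mul (.sub (.v 46) (.v 45)) (.v 420),
  .mul (.mul (.sub (.v 46) (.v 45)) (.sub (.mul (.q 1 2) (.add (.v 45) (.v 46))) (.v 302))) (.v 420),
  .add (.v 2179) (.mul (.v 302) (.v 2178)),
  .sub (.sub (.sub (.mul (.v 23) (.sub (.v 159) (.v 163))) (.mul (.q 1 2) (.v 181))) (.mul (.q 1 2) (.v 418))) (.mul (.sub (.v 74) (.v 73)) (.v 421)),
  .sub (.sub (.sub (.mul (.v 23) (.add (.sub (.v 162) (.v 158)) (.sub (.mul (.sub (.v 72) (.v 300)) (.v 159)) (.mul (.sub (.v 74) (.v 300)) (.v 163))))) (.mul (.mul (.q 1 6) (.add (.add (.sub (.v 73) (.v 300)) (.sub (.v 73) (.v 300))) (.sub (.v 74) (.v 300)))) (.v 181))) (.mul (.mul (.q 1 6) (.add (.sub (.v 72) (.v 300)) (.add (.sub (.v 73) (.v 300)) (.sub (.v 73) (.v 300))))) (.v 418))) (.mul (.mul (.sub (.v 74) (.v 73)) (.sub (.mul (.q 1 2) (.add (.v 73) (.v 74))) (.v 300)))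 (.v 421)),
  .add (.v 2182) (.mul (.v 300) (.v 2181)),
  .sub (.add (.add (.add (.mul (.v 24) (.sub (.v 129) (.v 131))) (.mul (.mul (.v 24) (.v 0)) (.mul (.sub (.v 83) (.v 82)) (.mul (.v 322) (.sub (.mul (.q 1 2) (.add (.v 82) (.v 83))) (.v 84)))))) (.mul (.mul (.mul (.v 24) (.v 0)) (.sub (.v 83) (.v 82))) (.v 419))) (.mul (.mul (.mul (.v 24) (.v 0)) (.mul (.sub (.v 83) (.v 82)) (.sub (.mul (.q 1 2) (.add (.v 82) (.v 83))) (.v 83)))) (.v 422))) (.mul (.q 1 2) (.v 418)),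
  .sub (.sub (.sub (.sub (.mul (.v 24) (.add (.sub (.v 130) (.v 128)) (.sub (.mul (.sub (.v 57) (.v 301)) (.v 129)) (.mul (.sub (.v 58) (.v 301)) (.v 131))))) (.mul (.mul (.v 24) (.v 0)) (.mul (.sub (.v 83) (.v 82)) (.mul (.v 322) (.add (.mul (.q 1 3) (.add (.add (.mul (.sub (.v 82) (.v 84)) (.sub (.v 82) (.v 84))) (.mul (.sub (.v 82) (.v 84)) (.sub (.v 83) (.v 84)))) (.mul (.sub (.v 83) (.v 84)) (.sub (.v 83) (.v 84))))) (.mul (.sub (.v 84) (.sub (.add .pi .pi) (.v 301))) (.sub (.mul (.q 1 2) (.add (.v 82) (.v 83))) (.v 84)))))))) (.mul (.mul (.mul (.v 24) (.v 0)) (.mul (.sub (.v 83) (.v 82)) (.sub (.mul (.q 1 2) (.add (.v 82) (.v 83))) (.sub (.add .pi .pi) (.v 301))))) (.v 419))) (.mul (.mul (.mul (.v 24) (.v 0)) (.mul (.sub (.v 83) (.v 82)) (.add (.mul (.q 1 3) (.add (.add (.mul (.sub (.v 82) (.v 83))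 (.sub (.v 82) (.v 83))) (.mul (.sub (.v 82) (.v 83)) (.sub (.v 83) (.v 83)))) (.mul (.sub (.v 83) (.v 83)) (.sub (.v 83) (.v 83))))) (.mul (.sub (.v 83) (.sub (.add .pi .pi) (.v 301))) (.sub (.mul (.q 1 2) (.add (.v 82) (.v 83))) (.v 83)))))) (.v 422))) (.mul (.mul (.q 1 6) (.add (.add (.sub (.v 57) (.v 301)) (.sub (.v 57) (.v 301))) (.sub (.v 58) (.v 301)))) (.v 418)),
  .add (.v 2185) (.mul (.v 301) (.v 2184)),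
  .sub (.sub (.sub (.mul (.q 1 1) (.sub (.v 105) (.v 109))) (.mul (.q 1 2) (.v 181))) (.mul (.sub (.v 46) (.v 45)) (.v 420))) (.mul (.q 1 2) (.v 418)),
  .sub (.sub (.sub (.mul (.q 1 1) (.add (.sub (.v 108) (.v 104)) (.sub (.mul (.sub (.v 45) (.v 305)) (.v 105)) (.mul (.sub (.v 47) (.v 305)) (.v 109))))) (.mul (.mul (.q 1 6) (.add (.add (.sub (.v 46) (.v 305)) (.sub (.v 46) (.v 305))) (.sub (.v 47) (.v 305)))) (.v 181))) (.mul (.mul (.sub (.v 46) (.v 45)) (.sub (.mul (.q 1 2) (.add (.v 45) (.v 46))) (.v 305))) (.v 420))) (.mul (.mul (.q 1 6) (.add (.sub (.v 45) (.v 305)) (.add (.sub (.v 46) (.v 305)) (.sub (.v 46) (.v 305))))) (.v 418)),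
  .add (.v 2188) (.mul (.v 305) (.v 2187)),
  .mul (.sub (.v 74) (.v 73)) (.v 421),
  .mul (.mul (.sub (.v 74) (.v 73)) (.sub (.mul (.q 1 2) (.add (.v 73) (.v 74))) (.v 303))) (.v 421)]

def Tav12 : List Ex := [
  .add (.v 2191) (.mul (.v 303) (.v 2190)),
  .sub (.add (.add (.mul (.v 24) (.sub (.v 127) (.v 129))) (.mul (.mul (.v 24) (.v 0)) (.mul (.sub (.v 84) (.v 83)) (.mul (.v 322) (.sub (.mul (.q 1 2) (.add (.v 83) (.v 84))) (.v 84)))))) (.mul (.mul (.mul (.v 24) (.v 0)) (.sub (.v 84) (.v 83))) (.v 419))) (.mul (.q 1 2) (.v 181)),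
  .sub (.sub (.sub (.mul (.v 24) (.add (.sub (.v 128) (.v 126)) (.sub (.mul (.sub (.v 56) (.v 304)) (.v 127)) (.mul (.sub (.v 57) (.v 304)) (.v 129))))) (.mul (.mul (.q 1 6) (.add (.sub (.v 56) (.v 304)) (.add (.sub (.v 57) (.v 304)) (.sub (.v 57) (.v 304))))) (.v 181))) (.mul (.mul (.v 24) (.v 0)) (.mul (.sub (.v 84) (.v 83)) (.mul (.v 322) (.add (.mul (.q 1 3) (.add (.add (.mul (.sub (.v 83) (.v 84)) (.sub (.v 83) (.v 84))) (.mul (.sub (.v 83) (.v 84)) (.sub (.v 84) (.v 84)))) (.mul (.sub (.v 84) (.v 84)) (.sub (.v 84) (.v 84))))) (.mul (.sub (.v 84) (.sub (.add .pi .pi) (.v 304))) (.sub (.mul (.q 1 2) (.add (.v 83) (.v 84))) (.v 84)))))))) (.mul (.mul (.mul (.v 24) (.v 0)) (.mul (.sub (.v 84) (.v 83)) (.sub (.mul (.q 1 2) (.add (.v 83) (.v 84))) (.sub (.add .pi .pi) (.v 304))))) (.v 419)),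
  .add (.v 2194) (.mul (.v 304) (.v 2193)),
  .add (.add (.add (.add (.mul (.sub (.v 43) (.v 39)) (.v 435)) (.mul (.sub (.v 39) (.v 36)) (.v 434))) (.mul (.sub (.v 36) (.v 35)) (.v 434))) (.mul (.sub (.v 35) (.v 34)) (.mul (.sub (.v 35) (.v 34)) (.v 176)))) (.mul (.mul (.sub (.v 35) (.v 34)) (.sub (.mul (.q 1 2) (.add (.v 34) (.v 35))) (.v 35))) (.v 176)),
  .add (.add (.add (.add (.mul (.mul (.sub (.v 43) (.v 39)) (.sub (.mul (.q 1 2) (.add (.v 39) (.v 43))) (.v 308))) (.v 435)) (.mul (.mul (.sub (.v 39) (.v 36)) (.sub (.mul (.q 1 2) (.add (.v 36) (.v 39))) (.v 308))) (.v 434))) (.mul (.mul (.sub (.v 36) (.v 35)) (.sub (.mul (.q 1 2) (.add (.v 35) (.v 36))) (.v 308))) (.v 434))) (.mul (.mul (.sub (.v 35) (.v 34)) (.sub (.mul (.q 1 2) (.add (.v 34) (.v 35))) (.v 308))) (.mul (.sub (.v 35) (.v 34)) (.v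 176)))) (.mul (.mul (.sub (.v 35) (.v 34)) (.add (.mul (.q 1 3) (.add (.add (.mul (.sub (.v 34) (.v 35)) (.sub (.v 34) (.v 35))) (.mul (.sub (.v 34) (.v 35)) (.sub (.v 35) (.v 35)))) (.mul (.sub (.v 35) (.v 35)) (.sub (.v 35) (.v 35))))) (.mul (.sub (.v 35) (.v 308)) (.sub (.mul (.q 1 2) (.add (.v 34) (.v 35))) (.v 35))))) (.v 176)),
  .add (.v 2197) (.mul (.v 308) (.v 2196)),
  .add (.add (.mul (.sub (.v 84) (.v 83)) (.v 419)) (.mul (.sub (.v 83) (.v 82)) (.v 419))) (.mul (.mul (.sub (.v 83) (.v 82)) (.sub (.mul (.q 1 2) (.add (.v 82) (.v 83))) (.v 83))) (.v 422)),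
  .add (.add (.mul (.mul (.sub (.v 84) (.v 83)) (.sub (.mul (.q 1 2) (.add (.v 83) (.v 84))) (.v 306))) (.v 419)) (.mul (.mul (.sub (.v 83) (.v 82)) (.sub (.mul (.q 1 2) (.add (.v 82) (.v 83))) (.v 306))) (.v 419))) (.mul (.mul (.sub (.v 83) (.v 82)) (.add (.mul (.q 1 3) (.add (.add (.mul (.sub (.v 82) (.v 83)) (.sub (.v 82) (.v 83))) (.mul (.sub (.v 82) (.v 83)) (.sub (.v 83) (.v 83)))) (.mul (.sub (.v 83) (.v 83)) (.sub (.v 83) (.v 83))))) (.mul (.sub (.v 83) (.v 306)) (.sub (.mul (.q 1 2) (.add (.v 82) (.v 83))) (.v 83))))) (.v 422)),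
  .add (.v 2200) (.mul (.v 306) (.v 2199)),
  .sub (.sub (.sub (.sub (.sub (.sub (.sub (.sub (.mul (.v 24) (.sub (.v 109) (.v 117))) (.mul (.q 1 2) (.v 188))) (.mul (.v 24) (.add (.mul (.sub (.v 50) (.v 49)) (.mul (.sub (.v 50) (.v 49)) (.v 174))) (.mul (.mul (.sub (.v 50) (.v 49)) (.sub (.mul (.q 1 2) (.add (.v 49) (.v 50))) (.v 50))) (.v 174))))) (.mul (.v 24) (.mul (.sub (.v 50) (.v 49)) (.v 175)))) (.mul (.v 24) (.mul (.q 1 2) (.v 177)))) (.mul (.mul (.v 24) (.sub (.v 51) (.v 50))) (.v 343))) (.mul (.mul (.v 24) (.mul (.sub (.v 51) (.v 50)) (.sub (.mul (.q 1 2) (.add (.v 50) (.v 51))) (.v 51)))) (.v 342))) (.mul (.mul (.v 24) (.sub (.v 49) (.v 48))) (.v 355))) (.mul (.mul (.v 24) (.sub (.v 48) (.v 47))) (.v 356)),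
  .sub (.sub (.sub (.sub (.sub (.sub (.sub (.sub (.mul (.v 24) (.add (.sub (.v 116) (.v 108)) (.sub (.mul (.sub (.v 47) (.v 307)) (.v 109)) (.mul (.sub (.v 51) (.v 307)) (.v 117))))) (.mul (.mul (.q 1 6) (.add (.add (.sub (.v 48) (.v 307)) (.sub (.v 48) (.v 307))) (.sub (.v 51) (.v 307)))) (.v 188))) (.mul (.v 24) (.add (.mul (.mul (.sub (.v 50) (.v 49)) (.sub (.mul (.q 1 2) (.add (.v 49) (.v 50))) (.v 307))) (.mul (.sub (.v 50) (.v 49)) (.v 174))) (.mul (.mul (.sub (.v 50) (.v 49)) (.add (.mul (.q 1 3) (.add (.add (.mul (.sub (.v 49) (.v 50)) (.sub (.v 49) (.v 50))) (.mul (.sub (.v 49) (.v 50)) (.sub (.v 50) (.v 50)))) (.mul (.sub (.v 50) (.v 50)) (.sub (.v 50) (.v 50))))) (.mul (.sub (.v 50) (.v 307)) (.sub (.mul (.q 1 2) (.add (.v 49) (.v 50))) (.v 50))))) (.v 174))))) (.mul (.v 24) (.mul (.mul (.sub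 (.v 50) (.v 49)) (.sub (.mul (.q 1 2) (.add (.v 49) (.v 50))) (.v 307))) (.v 175)))) (.mul (.v 24) (.mul (.mul (.q 1 6) (.add (.add (.sub (.v 47) (.v 307)) (.sub (.v 47) (.v 307))) (.sub (.v 50) (.v 307)))) (.v 177)))) (.mul (.mul (.v 24) (.mul (.sub (.v 51) (.v 50)) (.sub (.mul (.q 1 2) (.add (.v 50) (.v 51))) (.v 307)))) (.v 343))) (.mul (.mul (.v 24) (.mul (.sub (.v 51) (.v 50)) (.add (.mul (.q 1 3) (.add (.add (.mul (.sub (.v 50) (.v 51)) (.sub (.v 50) (.v 51))) (.mul (.sub (.v 50) (.v 51)) (.sub (.v 51) (.v 51)))) (.mul (.sub (.v 51) (.v 51)) (.sub (.v 51) (.v 51))))) (.mul (.sub (.v 51) (.v 307)) (.sub (.mul (.q 1 2) (.add (.v 50) (.v 51))) (.v 51)))))) (.v 342))) (.mul (.mul (.v 24) (.mul (.sub (.v 49) (.v 48)) (.sub (.mul (.q 1 2) (.add (.v 48) (.v 49))) (.v 307)))) (.v 355))) (.mul (.mul (.v 24)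 (.mul (.sub (.v 48) (.v 47)) (.sub (.mul (.q 1 2) (.add (.v 47) (.v 48))) (.v 307)))) (.v 356)),
  .add (.v 2203) (.mul (.v 307) (.v 2202)),
  .sub (.sub (.sub (.sub (.sub (.sub (.sub (.sub (.sub (.sub (.sub (.sub (.sub (.sub (.sub (.sub (.sub (.sub (.sub (.sub (.sub (.sub (.sub (.sub (.sub (.sub (.sub (.sub (.sub (.sub (.sub (.sub (.sub (.sub (.add (.add (.add (.add (.add (.add (.add (.add (.mul (.sub (.v 36) (.v 35)) (.v 439)) (.mul (.sub (.v 36) (.v 35)) (.v 439))) (.mul (.q 1 1) (.sub (.v 87) (.v 105)))) (.mul (.sub (.v 35) (.v 34)) (.mul (.sub (.v 35) (.v 34)) (.v 176)))) (.mul (.mul (.sub (.v 35) (.v 34)) (.sub (.mul (.q 1 2) (.add (.v 34) (.v 35))) (.v 35))) (.v 176))) (.mul (.sub (.v 36) (.v 34)) (.mul (.v 324) (.sub (.mul (.q 1 2) (.add (.v 34) (.v 36))) (.v 34))))) (.mul (.sub (.v 36) (.v 35))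 (.add (.mul (.v 259) (.v 261)) (.mul (.v 326) (.sub (.mul (.q 1 2) (.add (.v 35) (.v 36))) (.v 35)))))) (.mul (.q 1 2) (.add (.v 263) (.v 264)))) (.mul (.sub (.v 36) (.v 35)) (.v 434))) (.mul (.q 1 2) (.v 192))) (.mul (.q 1 2) (.add (.v 197) (.v 196)))) (.mul (.q 1 2) (.add (.v 201) (.v 200)))) (.mul (.q 1 2) (.add (.v 206) (.v 205)))) (.mul (.sub (.v 44) (.v 36)) (.mul (.v 324) (.sub (.mul (.q 1 2) (.add (.v 36) (.v 44))) (.v 34))))) (.mul (.q 1 2) (.v 209))) (.mul (.q 1 2) (.v 213))) (.mul (.q 1 2) (.v 224))) (.mul (.q 1 2) (.add (.v 228) (.v 227)))) (.mul (.q 1 2) (.v 216))) (.mul (.q 1 2) (.v 219))) (.mul (.q 1 2) (.add (.v 232) (.v 231)))) (.mul (.q 1 2) (.v 236))) (.mul (.q 1 2) (.v 244))) (.mul (.q 1 2) (.v 247))) (.mul (.q 1 2) (.v 221))) (.mul (.q 1 2) (.v 234))) (.mul (.q 1 2) (.add (.v 250)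 (.v 249)))) (.mul (.q 1 2) (.add (.v 253) (.v 252)))) (.mul (.q 1 2) (.add (.v 257) (.v 256)))) (.mul (.q 1 2) (.add (.v 240) (.v 239)))) (.mul (.q 1 2) (.v 279))) (.mul (.q 1 2) (.v 281))) (.mul (.q 1 2) (.v 286))) (.mul (.q 1 2) (.v 270))) (.mul (.q 1 2) (.v 277))) (.mul (.q 1 2) (.v 288))) (.mul (.sub (.v 37) (.v 36)) (.add (.mul (.v 260) (.v 261)) (.mul (.v 326) (.sub (.mul (.q 1 2) (.add (.v 36) (.v 37))) (.v 37)))))) (.mul (.q 1 2) (.v 273))) (.mul (.q 1 2) (.v 275))) (.mul (.q 1 2) (.v 283))) (.mul (.q 1 2) (.v 290))) (.mul (.sub (.v 43) (.v 39)) (.v 435))) (.mul (.sub (.v 39) (.v 36)) (.v 434)),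
  .sub (.sub (.sub (.sub (.sub (.sub (.sub (.sub (.sub (.sub (.sub (.sub (.sub (.sub (.sub (.sub (.sub (.sub (.sub (.sub (.sub (.sub (.sub (.sub (.sub (.sub (.sub (.sub (.sub (.sub (.sub (.sub (.sub (.sub (.sub (.sub (.sub (.sub (.sub (.sub (.sub (.sub (.sub (.sub (.sub (.sub (.sub (.sub (.sub (.sub (.sub (.add (.mul (.mul (.sub (.v 36) (.v 35)) (.sub (.mul (.q 1 2) (.add (.v 35) (.v 36))) (.v 311))) (.v 439)) (.mul (.q 1 1) (.add (.sub (.v 104) (.v 86)) (.sub (.mul (.sub (.v 36) (.v 311)) (.v 87)) (.mul (.sub (.v 45) (.v 311)) (.v 105)))))) (.mul (.mul (.sub (.v 36) (.v 35)) (.sub (.mul (.q 1 2) (.add (.v 35) (.v 36))) (.sub (.q 0 1) (.v 311)))) (.v 439))) (.mul (.mul (.q 1 6) (.add (.add (.sub (.v 44) (.v 311)) (.sub (.v 44) (.v 311))) (.sub (.v 45) (.v 311)))) (.v 192))) (.mul (.mul (.q 1 6) (.add (.add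 (.sub (.v 44) (.v 311)) (.sub (.v 44) (.v 311))) (.sub (.v 45) (.v 311)))) (.v 197))) (.mul (.mul (.q 1 6) (.add (.sub (.v 44) (.v 311)) (.add (.sub (.v 45) (.v 311)) (.sub (.v 45) (.v 311))))) (.v 196))) (.mul (.mul (.q 1 6) (.add (.add (.sub (.v 43) (.v 311)) (.sub (.v 43) (.v 311))) (.sub (.v 45) (.v 311)))) (.v 201))) (.mul (.mul (.q 1 6) (.add (.sub (.v 43) (.v 311)) (.add (.sub (.v 45) (.v 311)) (.sub (.v 45) (.v 311))))) (.v 200))) (.mul (.mul (.q 1 6) (.add (.add (.sub (.v 42) (.v 311)) (.sub (.v 42) (.v 311))) (.sub (.v 45) (.v 311)))) (.v 206))) (.mul (.mul (.q 1 6) (.add (.sub (.v 42) (.v 311)) (.add (.sub (.v 45) (.v 311)) (.sub (.v 45) (.v 311))))) (.v 205))) (.mul (.sub (.v 44) (.v 36)) (.mul (.v 324) (.add (.mul (.q 1 3) (.add (.add (.mul (.sub (.v 36) (.v 34)) (.sub (.v 36) (.v 34))) (.mul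 (.sub (.v 36) (.v 34)) (.sub (.v 44) (.v 34)))) (.mul (.sub (.v 44) (.v 34)) (.sub (.v 44) (.v 34))))) (.mul (.sub (.v 34) (.v 311)) (.sub (.mul (.q 1 2) (.add (.v 36) (.v 44))) (.v 34))))))) (.mul (.mul (.q 1 6) (.add (.add (.sub (.v 43) (.v 311)) (.sub (.v 43) (.v 311))) (.sub (.v 44) (.v 311)))) (.v 209))) (.mul (.mul (.q 1 6) (.add (.sub (.v 43) (.v 311)) (.add (.sub (.v 44) (.v 311)) (.sub (.v 44) (.v 311))))) (.v 213))) (.mul (.mul (.q 1 6) (.add (.sub (.v 43) (.v 311)) (.add (.sub (.v 44) (.v 311)) (.sub (.v 44) (.v 311))))) (.v 224))) (.mul (.mul (.q 1 6) (.add (.add (.sub (.v 40) (.v 311)) (.sub (.v 40) (.v 311))) (.sub (.v 44) (.v 311)))) (.v 228))) (.mul (.mul (.q 1 6) (.add (.sub (.v 40) (.v 311)) (.add (.sub (.v 44) (.v 311)) (.sub (.v 44) (.v 311))))) (.v 227))) (.mul (.mul (.q 1 6) (.add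 (.sub (.v 42) (.v 311)) (.add (.sub (.v 43) (.v 311)) (.sub (.v 43) (.v 311))))) (.v 216))) (.mul (.mul (.q 1 6) (.add (.sub (.v 42) (.v 311)) (.add (.sub (.v 43) (.v 311)) (.sub (.v 43) (.v 311))))) (.v 219))) (.mul (.mul (.q 1 6) (.add (.add (.sub (.v 42) (.v 311)) (.sub (.v 42) (.v 311))) (.sub (.v 43) (.v 311)))) (.v 232))) (.mul (.mul (.q 1 6) (.add (.sub (.v 42) (.v 311)) (.add (.sub (.v 43) (.v 311)) (.sub (.v 43) (.v 311))))) (.v 231))) (.mul (.mul (.q 1 6) (.add (.add (.sub (.v 41) (.v 311)) (.sub (.v 41) (.v 311))) (.sub (.v 43) (.v 311)))) (.v 236))) (.mul (.mul (.q 1 6) (.add (.add (.sub (.v 40) (.v 311)) (.sub (.v 40) (.v 311))) (.sub (.v 43) (.v 311)))) (.v 244))) (.mul (.mul (.q 1 6) (.add (.sub (.v 39) (.v 311)) (.add (.sub (.v 43) (.v 311)) (.sub (.v 43) (.v 311))))) (.v 247))) (.mul (.mul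 (.q 1 6) (.add (.sub (.v 40) (.v 311)) (.add (.sub (.v 42) (.v 311)) (.sub (.v 42) (.v 311))))) (.v 221))) (.mul (.mul (.q 1 6) (.add (.sub (.v 40) (.v 311)) (.add (.sub (.v 42) (.v 311)) (.sub (.v 42) (.v 311))))) (.v 234))) (.mul (.mul (.q 1 6) (.add (.add (.sub (.v 40) (.v 311)) (.sub (.v 40) (.v 311))) (.sub (.v 42) (.v 311)))) (.v 250))) (.mul (.mul (.q 1 6) (.add (.sub (.v 40) (.v 311)) (.add (.sub (.v 42) (.v 311)) (.sub (.v 42) (.v 311))))) (.v 249))) (.mul (.mul (.q 1 6) (.add (.add (.sub (.v 39) (.v 311)) (.sub (.v 39) (.v 311))) (.sub (.v 42) (.v 311)))) (.v 253))) (.mul (.mul (.q 1 6) (.add (.sub (.v 39) (.v 311)) (.add (.sub (.v 42) (.v 311)) (.sub (.v 42) (.v 311))))) (.v 252))) (.mul (.mul (.q 1 6) (.add (.add (.sub (.v 40) (.v 311)) (.sub (.v 40) (.v 311))) (.sub (.v 42) (.v 311)))) (.v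 257))) (.mul (.mul (.q 1 6) (.add (.sub (.v 40) (.v 311)) (.add (.sub (.v 42) (.v 311)) (.sub (.v 42) (.v 311))))) (.v 256))) (.mul (.mul (.q 1 6) (.add (.add (.sub (.v 36) (.v 311)) (.sub (.v 36) (.v 311))) (.sub (.v 41) (.v 311)))) (.v 240))) (.mul (.mul (.q 1 6) (.add (.sub (.v 36) (.v 311)) (.add (.sub (.v 41) (.v 311)) (.sub (.v 41) (.v 311))))) (.v 239))) (.mul (.mul (.q 1 6) (.add (.sub (.v 36) (.v 311)) (.add (.sub (.v 40) (.v 311)) (.sub (.v 40) (.v 311))))) (.v 279))) (.mul (.mul (.q 1 6) (.add (.sub (.v 37) (.v 311)) (.add (.sub (.v 40) (.v 311)) (.sub (.v 40) (.v 311))))) (.v 281))) (.mul (.mul (.q 1 6) (.add (.sub (.v 39) (.v 311)) (.add (.sub (.v 40) (.v 311)) (.sub (.v 40) (.v 311))))) (.v 286))) (.mul (.mul (.q 1 6) (.add (.add (.sub (.v 36) (.v 311)) (.sub (.v 36) (.v 311))) (.sub (.v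 39) (.v 311)))) (.v 270))) (.mul (.mul (.q 1 6) (.add (.sub (.v 37) (.v 311)) (.add (.sub (.v 39) (.v 311)) (.sub (.v 39) (.v 311))))) (.v 277))) (.mul (.mul (.q 1 6) (.add (.add (.sub (.v 36) (.v 311)) (.sub (.v 36) (.v 311))) (.sub (.v 39) (.v 311)))) (.v 288))) (.mul (.mul (.sub (.v 35) (.v 34)) (.sub (.mul (.q 1 2) (.add (.v 34) (.v 35))) (.sub (.q 0 1) (.v 311)))) (.mul (.sub (.v 35) (.v 34)) (.v 176)))) (.mul (.mul (.sub (.v 35) (.v 34)) (.add (.mul (.q 1 3) (.add (.add (.mul (.sub (.v 34) (.v 35)) (.sub (.v 34) (.v 35))) (.mul (.sub (.v 34) (.v 35)) (.sub (.v 35) (.v 35)))) (.mul (.sub (.v 35) (.v 35)) (.sub (.v 35) (.v 35))))) (.mul (.sub (.v 35) (.sub (.q 0 1) (.v 311))) (.sub (.mul (.q 1 2) (.add (.v 34) (.v 35))) (.v 35))))) (.v 176))) (.mul (.sub (.v 36) (.v 34)) (.mul (.v 324) (.add (.mul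 (.q 1 3) (.add (.add (.mul (.sub (.v 34) (.v 34)) (.sub (.v 34) (.v 34))) (.mul (.sub (.v 34) (.v 34)) (.sub (.v 36) (.v 34)))) (.mul (.sub (.v 36) (.v 34)) (.sub (.v 36) (.v 34))))) (.mul (.sub (.v 34) (.sub (.q 0 1) (.v 311))) (.sub (.mul (.q 1 2) (.add (.v 34) (.v 36))) (.v 34))))))) (.mul (.sub (.v 36) (.v 35)) (.add (.mul (.mul (.v 259) (.v 261)) (.sub (.mul (.q 1 2) (.add (.v 35) (.v 36))) (.sub (.q 0 1) (.v 311)))) (.mul (.v 326) (.add (.mul (.q 1 3) (.add (.add (.mul (.sub (.v 35) (.v 35)) (.sub (.v 35) (.v 35))) (.mul (.sub (.v 35) (.v 35)) (.sub (.v 36) (.v 35)))) (.mul (.sub (.v 36) (.v 35)) (.sub (.v 36) (.v 35))))) (.mul (.sub (.v 35) (.sub (.q 0 1) (.v 311))) (.sub (.mul (.q 1 2) (.add (.v 35) (.v 36))) (.v 35)))))))) (.mul (.sub (.v 37) (.v 36)) (.add (.mul (.mul (.v 260) (.v 261)) (.sub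 (.mul (.q 1 2) (.add (.v 36) (.v 37))) (.v 311))) (.mul (.v 326) (.add (.mul (.q 1 3) (.add (.add (.mul (.sub (.v 36) (.v 37)) (.sub (.v 36) (.v 37))) (.mul (.sub (.v 36) (.v 37)) (.sub (.v 37) (.v 37)))) (.mul (.sub (.v 37) (.v 37)) (.sub (.v 37) (.v 37))))) (.mul (.sub (.v 37) (.v 311)) (.sub (.mul (.q 1 2) (.add (.v 36) (.v 37))) (.v 37)))))))) (.mul (.mul (.q 1 6) (.add (.add (.sub (.v 35) (.sub (.q 0 1) (.v 311))) (.sub (.v 35) (.sub (.q 0 1) (.v 311)))) (.sub (.v 36) (.sub (.q 0 1) (.v 311))))) (.v 263))) (.mul (.mul (.q 1 6) (.add (.sub (.v 35) (.sub (.q 0 1) (.v 311))) (.add (.sub (.v 36) (.sub (.q 0 1) (.v 311))) (.sub (.v 36) (.sub (.q 0 1) (.v 311)))))) (.v 264))) (.mul (.mul (.q 1 6) (.add (.sub (.v 36) (.v 311)) (.add (.sub (.v 37) (.v 311)) (.sub (.v 37) (.v 311))))) (.v 273))) (.mul (.mul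 (.q 1 6) (.add (.add (.sub (.v 36) (.v 311)) (.sub (.v 36) (.v 311))) (.sub (.v 37) (.v 311)))) (.v 275))) (.mul (.mul (.q 1 6) (.add (.sub (.v 36) (.v 311)) (.add (.sub (.v 37) (.v 311)) (.sub (.v 37) (.v 311))))) (.v 283))) (.mul (.mul (.q 1 6) (.add (.add (.sub (.v 36) (.v 311)) (.sub (.v 36) (.v 311))) (.sub (.v 37) (.v 311)))) (.v 290))) (.mul (.mul (.sub (.v 43) (.v 39)) (.sub (.mul (.q 1 2) (.add (.v 39) (.v 43))) (.v 311))) (.v 435))) (.mul (.mul (.sub (.v 39) (.v 36)) (.sub (.mul (.q 1 2) (.add (.v 36) (.v 39))) (.v 311))) (.v 434))) (.mul (.mul (.sub (.v 36) (.v 35)) (.sub (.mul (.q 1 2) (.add (.v 35) (.v 36))) (.sub (.q 0 1) (.v 311)))) (.v 434)),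
  .add (.v 2206) (.mul (.v 311) (.v 2205))]

def Tav13 : List Ex := [
  .sub (.sub (.sub (.sub (.sub (.sub (.sub (.sub (.sub (.sub (.sub (.sub (.sub (.sub (.sub (.sub (.sub (.sub (.sub (.sub (.sub (.sub (.sub (.sub (.sub (.sub (.sub (.sub (.sub (.sub (.sub (.sub (.sub (.mul (.v 23) (.sub (.v 151) (.v 159))) (.mul (.q 1 2) (.v 192))) (.mul (.q 1 2) (.add (.v 197) (.v 196)))) (.mul (.q 1 2) (.add (.v 201) (.v 200)))) (.mul (.q 1 2) (.add (.v 206) (.v 205)))) (.mul (.q 1 2) (.add (.v 260) (.v 259)))) (.mul (.q 1 2) (.add (.v 264) (.v 263)))) (.mul (.q 1 2) (.add (.v 269) (.v 268)))) (.mul (.q 1 2) (.v 270))) (.mul (.q 1 2) (.v 273))) (.mul (.q 1 2) (.v 275))) (.mul (.q 1 2) (.v 277))) (.mul (.q 1 2) (.v 209))) (.mul (.q 1 2) (.v 213))) (.mul (.q 1 2) (.v 216))) (.mul (.q 1 2) (.v 219))) (.mul (.q 1 2) (.v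 221))) (.mul (.q 1 2) (.v 244))) (.mul (.q 1 2) (.add (.v 249) (.v 250)))) (.mul (.q 1 2) (.v 279))) (.mul (.q 1 2) (.v 281))) (.mul (.q 1 2) (.v 283))) (.mul (.q 1 2) (.v 286))) (.mul (.q 1 2) (.v 288))) (.mul (.q 1 2) (.add (.v 239) (.v 240)))) (.mul (.q 1 2) (.v 290))) (.mul (.q 1 2) (.v 224))) (.mul (.q 1 2) (.add (.v 228) (.v 227)))) (.mul (.q 1 2) (.add (.v 232) (.v 231)))) (.mul (.q 1 2) (.v 234))) (.mul (.q 1 2) (.v 236))) (.mul (.q 1 2) (.v 247))) (.mul (.q 1 2) (.add (.v 252) (.v 253)))) (.mul (.q 1 2) (.add (.v 256) (.v 257))),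
  .sub (.sub (.sub (.sub (.sub (.sub (.sub (.sub (.sub (.sub (.sub (.sub (.sub (.sub (.sub (.sub (.sub (.sub (.sub (.sub (.sub (.sub (.sub (.sub (.sub (.sub (.sub (.sub (.sub (.sub (.sub (.sub (.sub (.sub (.sub (.sub (.sub (.sub (.sub (.sub (.sub (.sub (.sub (.sub (.sub (.mul (.v 23) (.add (.sub (.v 158) (.v 150)) (.sub (.mul (.sub (.v 68) (.v 309)) (.v 151)) (.mul (.sub (.v 72) (.v 309)) (.v 159))))) (.mul (.mul (.q 1 6) (.add (.add (.sub (.v 71) (.v 309)) (.sub (.v 71) (.v 309))) (.sub (.v 72) (.v 309)))) (.v 192))) (.mul (.mul (.q 1 6) (.add (.add (.sub (.v 69) (.v 309)) (.sub (.v 69) (.v 309))) (.sub (.v 72) (.v 309)))) (.v 197))) (.mul (.mul (.q 1 6) (.add (.sub (.v 69) (.v 309)) (.add (.sub (.v 72) (.v 309)) (.sub (.v 72) (.v 309))))) (.v 196))) (.mul (.mul (.q 1 6) (.add (.add (.sub (.v 68) (.v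 309)) (.sub (.v 68) (.v 309))) (.sub (.v 72) (.v 309)))) (.v 201))) (.mul (.mul (.q 1 6) (.add (.sub (.v 68) (.v 309)) (.add (.sub (.v 72) (.v 309)) (.sub (.v 72) (.v 309))))) (.v 200))) (.mul (.mul (.q 1 6) (.add (.add (.sub (.v 68) (.v 309)) (.sub (.v 68) (.v 309))) (.sub (.v 72) (.v 309)))) (.v 206))) (.mul (.mul (.q 1 6) (.add (.sub (.v 68) (.v 309)) (.add (.sub (.v 72) (.v 309)) (.sub (.v 72) (.v 309))))) (.v 205))) (.mul (.mul (.q 1 6) (.add (.add (.sub (.v 71) (.v 309)) (.sub (.v 71) (.v 309))) (.sub (.v 72) (.v 309)))) (.v 260))) (.mul (.mul (.q 1 6) (.add (.sub (.v 71) (.v 309)) (.add (.sub (.v 72) (.v 309)) (.sub (.v 72) (.v 309))))) (.v 259))) (.mul (.mul (.q 1 6) (.add (.add (.sub (.v 70) (.v 309)) (.sub (.v 70) (.v 309))) (.sub (.v 72) (.v 309)))) (.v 264))) (.mul (.mul (.q 1 6) (.add (.sub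 (.v 70) (.v 309)) (.add (.sub (.v 72) (.v 309)) (.sub (.v 72) (.v 309))))) (.v 263))) (.mul (.mul (.q 1 6) (.add (.add (.sub (.v 71) (.v 309)) (.sub (.v 71) (.v 309))) (.sub (.v 72) (.v 309)))) (.v 269))) (.mul (.mul (.q 1 6) (.add (.sub (.v 71) (.v 309)) (.add (.sub (.v 72) (.v 309)) (.sub (.v 72) (.v 309))))) (.v 268))) (.mul (.mul (.q 1 6) (.add (.sub (.v 71) (.v 309)) (.add (.sub (.v 72) (.v 309)) (.sub (.v 72) (.v 309))))) (.v 270))) (.mul (.mul (.q 1 6) (.add (.add (.sub (.v 69) (.v 309)) (.sub (.v 69) (.v 309))) (.sub (.v 72) (.v 309)))) (.v 273))) (.mul (.mul (.q 1 6) (.add (.add (.sub (.v 71) (.v 309)) (.sub (.v 71) (.v 309))) (.sub (.v 72) (.v 309)))) (.v 275))) (.mul (.mul (.q 1 6) (.add (.add (.sub (.v 69) (.v 309)) (.sub (.v 69) (.v 309))) (.sub (.v 72) (.v 309)))) (.v 277))) (.mul (.mul (.q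 1 6) (.add (.add (.sub (.v 69) (.v 309)) (.sub (.v 69) (.v 309))) (.sub (.v 71) (.v 309)))) (.v 209))) (.mul (.mul (.q 1 6) (.add (.sub (.v 68) (.v 309)) (.add (.sub (.v 71) (.v 309)) (.sub (.v 71) (.v 309))))) (.v 213))) (.mul (.mul (.q 1 6) (.add (.sub (.v 68) (.v 309)) (.add (.sub (.v 71) (.v 309)) (.sub (.v 71) (.v 309))))) (.v 216))) (.mul (.mul (.q 1 6) (.add (.add (.sub (.v 68) (.v 309)) (.sub (.v 68) (.v 309))) (.sub (.v 71) (.v 309)))) (.v 219))) (.mul (.mul (.q 1 6) (.add (.sub (.v 68) (.v 309)) (.add (.sub (.v 71) (.v 309)) (.sub (.v 71) (.v 309))))) (.v 221))) (.mul (.mul (.q 1 6) (.add (.sub (.v 68) (.v 309)) (.add (.sub (.v 71) (.v 309)) (.sub (.v 71) (.v 309))))) (.v 244))) (.mul (.mul (.q 1 6) (.add (.add (.sub (.v 68) (.v 309)) (.sub (.v 68) (.v 309))) (.sub (.v 71) (.v 309)))) (.v 249)))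 (.mul (.mul (.q 1 6) (.add (.sub (.v 68) (.v 309)) (.add (.sub (.v 71) (.v 309)) (.sub (.v 71) (.v 309))))) (.v 250))) (.mul (.mul (.q 1 6) (.add (.add (.sub (.v 69) (.v 309)) (.sub (.v 69) (.v 309))) (.sub (.v 71) (.v 309)))) (.v 279))) (.mul (.mul (.q 1 6) (.add (.add (.sub (.v 69) (.v 309)) (.sub (.v 69) (.v 309))) (.sub (.v 71) (.v 309)))) (.v 281))) (.mul (.mul (.q 1 6) (.add (.sub (.v 70) (.v 309)) (.add (.sub (.v 71) (.v 309)) (.sub (.v 71) (.v 309))))) (.v 283))) (.mul (.mul (.q 1 6) (.add (.add (.sub (.v 68) (.v 309)) (.sub (.v 68) (.v 309))) (.sub (.v 71) (.v 309)))) (.v 286))) (.mul (.mul (.q 1 6) (.add (.add (.sub (.v 70) (.v 309)) (.sub (.v 70) (.v 309))) (.sub (.v 71) (.v 309)))) (.v 288))) (.mul (.mul (.q 1 6) (.add (.add (.sub (.v 69) (.v 309)) (.sub (.v 69) (.v 309))) (.sub (.v 70) (.v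 309)))) (.v 239))) (.mul (.mul (.q 1 6) (.add (.sub (.v 69) (.v 309)) (.add (.sub (.v 70) (.v 309)) (.sub (.v 70) (.v 309))))) (.v 240))) (.mul (.mul (.q 1 6) (.add (.sub (.v 69) (.v 309)) (.add (.sub (.v 70) (.v 309)) (.sub (.v 70) (.v 309))))) (.v 290))) (.mul (.mul (.q 1 6) (.add (.sub (.v 68) (.v 309)) (.add (.sub (.v 69) (.v 309)) (.sub (.v 69) (.v 309))))) (.v 224))) (.mul (.mul (.q 1 6) (.add (.add (.sub (.v 68) (.v 309)) (.sub (.v 68) (.v 309))) (.sub (.v 69) (.v 309)))) (.v 228))) (.mul (.mul (.q 1 6) (.add (.sub (.v 68) (.v 309)) (.add (.sub (.v 69) (.v 309)) (.sub (.v 69) (.v 309))))) (.v 227))) (.mul (.mul (.q 1 6) (.add (.add (.sub (.v 68) (.v 309)) (.sub (.v 68) (.v 309))) (.sub (.v 69) (.v 309)))) (.v 232))) (.mul (.mul (.q 1 6) (.add (.sub (.v 68) (.v 309)) (.add (.sub (.v 69) (.v 309))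 (.sub (.v 69) (.v 309))))) (.v 231))) (.mul (.mul (.q 1 6) (.add (.sub (.v 68) (.v 309)) (.add (.sub (.v 69) (.v 309)) (.sub (.v 69) (.v 309))))) (.v 234))) (.mul (.mul (.q 1 6) (.add (.sub (.v 68) (.v 309)) (.add (.sub (.v 69) (.v 309)) (.sub (.v 69) (.v 309))))) (.v 236))) (.mul (.mul (.q 1 6) (.add (.add (.sub (.v 68) (.v 309)) (.sub (.v 68) (.v 309))) (.sub (.v 69) (.v 309)))) (.v 247))) (.mul (.mul (.q 1 6) (.add (.add (.sub (.v 68) (.v 309)) (.sub (.v 68) (.v 309))) (.sub (.v 69) (.v 309)))) (.v 252))) (.mul (.mul (.q 1 6) (.add (.sub (.v 68) (.v 309)) (.add (.sub (.v 69) (.v 309)) (.sub (.v 69) (.v 309))))) (.v 253))) (.mul (.mul (.q 1 6) (.add (.add (.sub (.v 68) (.v 309)) (.sub (.v 68) (.v 309))) (.sub (.v 69) (.v 309)))) (.v 256))) (.mul (.mul (.q 1 6) (.add (.sub (.v 68) (.v 309)) (.add (.sub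 (.v 69) (.v 309)) (.sub (.v 69) (.v 309))))) (.v 257)),
  .add (.v 2209) (.mul (.v 309) (.v 2208)),
  .sub (.sub (.sub (.sub (.sub (.sub (.sub (.sub (.sub (.sub (.sub (.sub (.sub (.sub (.sub (.sub (.sub (.sub (.sub (.sub (.sub (.sub (.sub (.sub (.sub (.sub (.sub (.sub (.sub (.sub (.sub (.sub (.sub (.mul (.v 24) (.sub (.v 131) (.v 151))) (.mul (.q 1 2) (.add (.v 239) (.v 240)))) (.mul (.q 1 2) (.add (.v 263) (.v 264)))) (.mul (.q 1 2) (.v 283))) (.mul (.q 1 2) (.v 288))) (.mul (.q 1 2) (.v 290))) (.mul (.q 1 2) (.add (.v 260) (.v 259)))) (.mul (.q 1 2) (.add (.v 268) (.v 269)))) (.mul (.q 1 2) (.v 273))) (.mul (.q 1 2) (.v 275))) (.mul (.q 1 2) (.v 279))) (.mul (.q 1 2) (.v 221))) (.mul (.q 1 2) (.add (.v 227) (.v 228)))) (.mul (.q 1 2) (.v 234))) (.mul (.q 1 2) (.v 247))) (.mul (.q 1 2) (.add (.v 252)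 (.v 253)))) (.mul (.q 1 2) (.v 270))) (.mul (.q 1 2) (.v 277))) (.mul (.q 1 2) (.v 281))) (.mul (.q 1 2) (.v 286))) (.mul (.q 1 2) (.add (.v 256) (.v 257)))) (.mul (.q 1 2) (.add (.v 205) (.v 206)))) (.mul (.q 1 2) (.v 216))) (.mul (.q 1 2) (.add (.v 231) (.v 232)))) (.mul (.q 1 2) (.v 236))) (.mul (.q 1 2) (.add (.v 250) (.v 249)))) (.mul (.q 1 2) (.v 244))) (.mul (.q 1 2) (.add (.v 200) (.v 201)))) (.mul (.q 1 2) (.v 213))) (.mul (.q 1 2) (.v 219))) (.mul (.q 1 2) (.v 224))) (.mul (.q 1 2) (.v 209))) (.mul (.q 1 2) (.add (.v 196) (.v 197)))) (.mul (.q 1 2) (.v 192)),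
  .sub (.sub (.sub (.sub (.sub (.sub (.sub (.sub (.sub (.sub (.sub (.sub (.sub (.sub (.sub (.sub (.sub (.sub (.sub (.sub (.sub (.sub (.sub (.sub (.sub (.sub (.sub (.sub (.sub (.sub (.sub (.sub (.sub (.sub (.sub (.sub (.sub (.sub (.sub (.sub (.sub (.sub (.sub (.sub (.sub (.mul (.v 24) (.add (.sub (.v 150) (.v 130)) (.sub (.mul (.sub (.v 58) (.v 310)) (.v 131)) (.mul (.sub (.v 68) (.v 310)) (.v 151))))) (.mul (.mul (.q 1 6) (.add (.add (.sub (.v 64) (.v 310)) (.sub (.v 64) (.v 310))) (.sub (.v 68) (.v 310)))) (.v 239))) (.mul (.mul (.q 1 6) (.add (.sub (.v 64) (.v 310)) (.add (.sub (.v 68) (.v 310)) (.sub (.v 68) (.v 310))))) (.v 240))) (.mul (.mul (.q 1 6) (.add (.add (.sub (.v 67) (.v 310)) (.sub (.v 67) (.v 310))) (.sub (.v 68) (.v 310)))) (.v 263))) (.mul (.mul (.q 1 6) (.add (.sub (.v 67) (.v 310))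 (.add (.sub (.v 68) (.v 310)) (.sub (.v 68) (.v 310))))) (.v 264))) (.mul (.mul (.q 1 6) (.add (.add (.sub (.v 66) (.v 310)) (.sub (.v 66) (.v 310))) (.sub (.v 68) (.v 310)))) (.v 283))) (.mul (.mul (.q 1 6) (.add (.sub (.v 65) (.v 310)) (.add (.sub (.v 68) (.v 310)) (.sub (.v 68) (.v 310))))) (.v 288))) (.mul (.mul (.q 1 6) (.add (.sub (.v 67) (.v 310)) (.add (.sub (.v 68) (.v 310)) (.sub (.v 68) (.v 310))))) (.v 290))) (.mul (.mul (.q 1 6) (.add (.add (.sub (.v 66) (.v 310)) (.sub (.v 66) (.v 310))) (.sub (.v 67) (.v 310)))) (.v 260))) (.mul (.mul (.q 1 6) (.add (.sub (.v 66) (.v 310)) (.add (.sub (.v 67) (.v 310)) (.sub (.v 67) (.v 310))))) (.v 259))) (.mul (.mul (.q 1 6) (.add (.add (.sub (.v 66) (.v 310)) (.sub (.v 66) (.v 310))) (.sub (.v 67) (.v 310)))) (.v 268))) (.mul (.mul (.q 1 6) (.add (.sub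 (.v 66) (.v 310)) (.add (.sub (.v 67) (.v 310)) (.sub (.v 67) (.v 310))))) (.v 269))) (.mul (.mul (.q 1 6) (.add (.sub (.v 66) (.v 310)) (.add (.sub (.v 67) (.v 310)) (.sub (.v 67) (.v 310))))) (.v 273))) (.mul (.mul (.q 1 6) (.add (.sub (.v 65) (.v 310)) (.add (.sub (.v 67) (.v 310)) (.sub (.v 67) (.v 310))))) (.v 275))) (.mul (.mul (.q 1 6) (.add (.add (.sub (.v 65) (.v 310)) (.sub (.v 65) (.v 310))) (.sub (.v 67) (.v 310)))) (.v 279))) (.mul (.mul (.q 1 6) (.add (.add (.sub (.v 61) (.v 310)) (.sub (.v 61) (.v 310))) (.sub (.v 66) (.v 310)))) (.v 221))) (.mul (.mul (.q 1 6) (.add (.add (.sub (.v 60) (.v 310)) (.sub (.v 60) (.v 310))) (.sub (.v 66) (.v 310)))) (.v 227))) (.mul (.mul (.q 1 6) (.add (.sub (.v 60) (.v 310)) (.add (.sub (.v 66) (.v 310)) (.sub (.v 66) (.v 310))))) (.v 228))) (.mul (.mul (.q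 1 6) (.add (.add (.sub (.v 62) (.v 310)) (.sub (.v 62) (.v 310))) (.sub (.v 66) (.v 310)))) (.v 234))) (.mul (.mul (.q 1 6) (.add (.add (.sub (.v 62) (.v 310)) (.sub (.v 62) (.v 310))) (.sub (.v 66) (.v 310)))) (.v 247))) (.mul (.mul (.q 1 6) (.add (.add (.sub (.v 64) (.v 310)) (.sub (.v 64) (.v 310))) (.sub (.v 66) (.v 310)))) (.v 252))) (.mul (.mul (.q 1 6) (.add (.sub (.v 64) (.v 310)) (.add (.sub (.v 66) (.v 310)) (.sub (.v 66) (.v 310))))) (.v 253))) (.mul (.mul (.q 1 6) (.add (.sub (.v 65) (.v 310)) (.add (.sub (.v 66) (.v 310)) (.sub (.v 66) (.v 310))))) (.v 270))) (.mul (.mul (.q 1 6) (.add (.sub (.v 65) (.v 310)) (.add (.sub (.v 66) (.v 310)) (.sub (.v 66) (.v 310))))) (.v 277))) (.mul (.mul (.q 1 6) (.add (.add (.sub (.v 65) (.v 310)) (.sub (.v 65) (.v 310))) (.sub (.v 66) (.v 310)))) (.v 281)))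 (.mul (.mul (.q 1 6) (.add (.sub (.v 65) (.v 310)) (.add (.sub (.v 66) (.v 310)) (.sub (.v 66) (.v 310))))) (.v 286))) (.mul (.mul (.q 1 6) (.add (.add (.sub (.v 64) (.v 310)) (.sub (.v 64) (.v 310))) (.sub (.v 65) (.v 310)))) (.v 256))) (.mul (.mul (.q 1 6) (.add (.sub (.v 64) (.v 310)) (.add (.sub (.v 65) (.v 310)) (.sub (.v 65) (.v 310))))) (.v 257))) (.mul (.mul (.q 1 6) (.add (.add (.sub (.v 58) (.v 310)) (.sub (.v 58) (.v 310))) (.sub (.v 64) (.v 310)))) (.v 205))) (.mul (.mul (.q 1 6) (.add (.sub (.v 58) (.v 310)) (.add (.sub (.v 64) (.v 310)) (.sub (.v 64) (.v 310))))) (.v 206))) (.mul (.mul (.q 1 6) (.add (.add (.sub (.v 60) (.v 310)) (.sub (.v 60) (.v 310))) (.sub (.v 64) (.v 310)))) (.v 216))) (.mul (.mul (.q 1 6) (.add (.add (.sub (.v 61) (.v 310)) (.sub (.v 61) (.v 310))) (.sub (.v 64) (.v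 310)))) (.v 231))) (.mul (.mul (.q 1 6) (.add (.sub (.v 61) (.v 310)) (.add (.sub (.v 64) (.v 310)) (.sub (.v 64) (.v 310))))) (.v 232))) (.mul (.mul (.q 1 6) (.add (.sub (.v 62) (.v 310)) (.add (.sub (.v 64) (.v 310)) (.sub (.v 64) (.v 310))))) (.v 236))) (.mul (.mul (.q 1 6) (.add (.add (.sub (.v 63) (.v 310)) (.sub (.v 63) (.v 310))) (.sub (.v 64) (.v 310)))) (.v 250))) (.mul (.mul (.q 1 6) (.add (.sub (.v 63) (.v 310)) (.add (.sub (.v 64) (.v 310)) (.sub (.v 64) (.v 310))))) (.v 249))) (.mul (.mul (.q 1 6) (.add (.sub (.v 62) (.v 310)) (.add (.sub (.v 63) (.v 310)) (.sub (.v 63) (.v 310))))) (.v 244))) (.mul (.mul (.q 1 6) (.add (.add (.sub (.v 58) (.v 310)) (.sub (.v 58) (.v 310))) (.sub (.v 62) (.v 310)))) (.v 200))) (.mul (.mul (.q 1 6) (.add (.sub (.v 58) (.v 310)) (.add (.sub (.v 62) (.v 310))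 (.sub (.v 62) (.v 310))))) (.v 201))) (.mul (.mul (.q 1 6) (.add (.add (.sub (.v 59) (.v 310)) (.sub (.v 59) (.v 310))) (.sub (.v 62) (.v 310)))) (.v 213))) (.mul (.mul (.q 1 6) (.add (.sub (.v 61) (.v 310)) (.add (.sub (.v 62) (.v 310)) (.sub (.v 62) (.v 310))))) (.v 219))) (.mul (.mul (.q 1 6) (.add (.add (.sub (.v 60) (.v 310)) (.sub (.v 60) (.v 310))) (.sub (.v 62) (.v 310)))) (.v 224))) (.mul (.mul (.q 1 6) (.add (.sub (.v 59) (.v 310)) (.add (.sub (.v 61) (.v 310)) (.sub (.v 61) (.v 310))))) (.v 209))) (.mul (.mul (.q 1 6) (.add (.add (.sub (.v 58) (.v 310)) (.sub (.v 58) (.v 310))) (.sub (.v 60) (.v 310)))) (.v 196))) (.mul (.mul (.q 1 6) (.add (.sub (.v 58) (.v 310)) (.add (.sub (.v 60) (.v 310)) (.sub (.v 60) (.v 310))))) (.v 197))) (.mul (.mul (.q 1 6) (.add (.sub (.v 58) (.v 310)) (.add (.sub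 (.v 59) (.v 310)) (.sub (.v 59) (.v 310))))) (.v 192)),
  .add (.v 2212) (.mul (.v 310) (.v 2211)),
  .mul (.sub (.v 52) (.v 51)) (.v 497),
  .mul (.mul (.sub (.v 52) (.v 51)) (.sub (.mul (.q 1 2) (.add (.v 51) (.v 52))) (.v 314))) (.v 497),
  .add (.v 2215) (.mul (.v 314) (.v 2214)),
  .sub (.sub (.mul (.v 23) (.sub (.v 167) (.v 171))) (.mul (.q 1 2) (.v 496))) (.mul (.sub (.v 78) (.v 77)) (.v 495)),
  .sub (.sub (.mul (.v 23) (.add (.sub (.v 170) (.v 166)) (.sub (.mul (.sub (.v 76) (.v 312)) (.v 167)) (.mul (.sub (.v 78) (.v 312)) (.v 171))))) (.mul (.mul (.q 1 6) (.add (.add (.sub (.v 76) (.v 312)) (.sub (.v 76) (.v 312))) (.sub (.v 77) (.v 312)))) (.v 496))) (.mul (.mul (.sub (.v 78) (.v 77)) (.sub (.mul (.q 1 2) (.add (.v 77) (.v 78))) (.v 312))) (.v 495)),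
  .add (.v 2218) (.mul (.v 312) (.v 2217)),
  .sub (.mul (.v 24) (.sub (.v 121) (.v 123))) (.mul (.q 1 2) (.v 496)),
  .sub (.mul (.v 24) (.add (.sub (.v 122) (.v 120)) (.sub (.mul (.sub (.v 53) (.v 313)) (.v 121)) (.mul (.sub (.v 54) (.v 313)) (.v 123))))) (.mul (.mul (.q 1 6) (.add (.sub (.v 53) (.v 313)) (.add (.sub (.v 54) (.v 313)) (.sub (.v 54) (.v 313))))) (.v 496)),
  .add (.v 2221) (.mul (.v 313) (.v 2220)),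
  .mul (.sub (.v 52) (.v 51)) (.v 494)]

def Tav14 : List Ex := [
  .mul (.mul (.sub (.v 52) (.v 51)) (.sub (.mul (.q 1 2) (.add (.v 51) (.v 52))) (.v 317))) (.v 494),
  .add (.v 2224) (.mul (.v 317) (.v 2223)),
  .sub (.add (.add (.add (.mul (.sub (.v 80) (.v 79)) (.v 493)) (.mul (.sub (.v 80) (.v 79)) (.v 493))) (.mul (.v 23) (.sub (.v 171) (.v 173)))) (.mul (.sub (.v 80) (.v 79)) (.v 491))) (.mul (.sub (.v 79) (.v 78)) (.v 491)),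
  .sub (.sub (.sub (.add (.mul (.mul (.sub (.v 80) (.v 79)) (.sub (.mul (.q 1 2) (.add (.v 79) (.v 80))) (.v 315))) (.v 493)) (.mul (.v 23) (.add (.sub (.v 172) (.v 170)) (.sub (.mul (.sub (.v 78) (.v 315)) (.v 171)) (.mul (.sub (.v 79) (.v 315)) (.v 173)))))) (.mul (.mul (.sub (.v 80) (.v 79)) (.sub (.mul (.q 1 2) (.add (.v 79) (.v 80))) (.sub (.add .pi .pi) (.v 315)))) (.v 493))) (.mul (.mul (.sub (.v 80) (.v 79)) (.sub (.mul (.q 1 2) (.add (.v 79) (.v 80))) (.sub (.add .pi .pi) (.v 315)))) (.v 491))) (.mul (.mul (.sub (.v 79) (.v 78)) (.sub (.mul (.q 1 2) (.add (.v 78) (.v 79))) (.v 315))) (.v 491)),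
  .add (.v 2227) (.mul (.v 315) (.v 2226)),
  .mul (.sub (.v 53) (.v 52)) (.v 492),
  .mul (.mul (.sub (.v 53) (.v 52)) (.sub (.mul (.q 1 2) (.add (.v 52) (.v 53))) (.v 316))) (.v 492),
  .add (.v 2230) (.mul (.v 316) (.v 2229)),
  .sub (.sub (.sub (.mul (.q 1 1) (.sub (.v 117) (.v 119))) (.mul (.sub (.v 52) (.v 51)) (.v 497))) (.mul (.sub (.v 52) (.v 51)) (.v 494))) (.mul (.q 1 2) (.v 496)),
  .sub (.sub (.sub (.mul (.q 1 1) (.add (.sub (.v 118) (.v 116)) (.sub (.mul (.sub (.v 51) (.v 320)) (.v 117)) (.mul (.sub (.v 52) (.v 320)) (.v 119))))) (.mul (.mul (.sub (.v 52) (.v 51)) (.sub (.mul (.q 1 2) (.add (.v 51) (.v 52))) (.v 320))) (.v 497))) (.mul (.mul (.sub (.v 52) (.v 51)) (.sub (.mul (.q 1 2) (.add (.v 51) (.v 52))) (.v 320))) (.v 494))) (.mul (.mul (.q 1 6) (.add (.add (.sub (.v 51) (.v 320)) (.sub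 (.v 51) (.v 320))) (.sub (.v 52) (.v 320)))) (.v 496)),
  .add (.v 2233) (.mul (.v 320) (.v 2232)),
  .add (.add (.mul (.sub (.v 80) (.v 79)) (.v 491)) (.mul (.sub (.v 79) (.v 78)) (.v 491))) (.mul (.sub (.v 78) (.v 77)) (.v 495)),
  .add (.add (.mul (.mul (.sub (.v 80) (.v 79)) (.sub (.mul (.q 1 2) (.add (.v 79) (.v 80))) (.v 318))) (.v 491)) (.mul (.mul (.sub (.v 79) (.v 78)) (.sub (.mul (.q 1 2) (.add (.v 78) (.v 79))) (.v 318))) (.v 491))) (.mul (.mul (.sub (.v 78) (.v 77)) (.sub (.mul (.q 1 2) (.add (.v 77) (.v 78))) (.v 318))) (.v 495)),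
  .add (.v 2236) (.mul (.v 318) (.v 2235)),
  .sub (.mul (.v 24) (.sub (.v 119) (.v 121))) (.mul (.sub (.v 53) (.v 52)) (.v 492)),
  .sub (.mul (.v 24) (.add (.sub (.v 120) (.v 118)) (.sub (.mul (.sub (.v 52) (.v 319)) (.v 119)) (.mul (.sub (.v 53) (.v 319)) (.v 121))))) (.mul (.mul (.sub (.v 53) (.v 52)) (.sub (.mul (.q 1 2) (.add (.v 52) (.v 53))) (.v 319))) (.v 492))]

def Tav15 : List Ex := [
  .add (.v 2239) (.mul (.v 319) (.v 2238))]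

def Tadv : List Ex := Tav0 ++ (Tav1 ++ (Tav2 ++ (Tav3 ++ (Tav4 ++ (Tav5 ++ (Tav6 ++ (Tav7 ++ (Tav8 ++ (Tav9 ++ (Tav10 ++ (Tav11 ++ (Tav12 ++ (Tav13 ++ (Tav14 ++ (Tav15)))))))))))))))

structure TaH (K E p : ℕ → ℝ) : Prop where
  hM : 1 < E 0
  hp : ∀ i, 1 ≤ i → i ≤ 11 → E (9 + i) = p i
  e0 : p 0 = 0
  e12 : p 12 = π
  l5 : E 12 + E 20 + 2 * E 14 = 2 * π
  l6 : E 11 + E 19 + 2 * E 15 = 2 * π
  l7 : E 10 + E 18 + 2 * E 16 = 2 * π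
  ht : Trig (E 0) p
  ch : Pos K E Tach
  d0 : Dfs K E 22 Tad0
  d1 : Dfs K E 38 Tad1
  d2 : Dfs K E 54 Tad2
  d3 : Dfs K E 70 Tad3
  d4 : Dfs K E 86 Tad4
  d5 : Dfs K E 102 Tad5
  d6 : Dfs K E 118 Tad6
  d7 : Dfs K E 134 Tad7
  d8 : Dfs K E 150 Tad8
  d9 : Dfs K E 166 Tad9
  d10 : Dfs K E 182 Tad10
  d11 : Dfs K E 198 Tad11
  d12 : Dfs K E 214 Tad12
  d13 : Dfs K E 230 Tad13
  d14 : Dfs K E 246 Tad14
  d15 : Dfs K E 262 Tad15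
  d16 : Dfs K E 278 Tad16
  d17 : Dfs K E 294 Tad17
  d18 : Dfs K E 310 Tad18
  d19 : Dfs K E 326 Tad19
  d20 : Dfs K E 342 Tad20
  d21 : Dfs K E 358 Tad21
  d22 : Dfs K E 374 Tad22
  d23 : Dfs K E 390 Tad23
  d24 : Dfs K E 406 Tad24
  d25 : Dfs K E 422 Tad25
  d26 : Dfs K E 438 Tad26
  d27 : Dfs K E 454 Tad27
  d28 : Dfs K E 470 Tad28
  d29 : Dfs K E 486 Tad29
  d30 : Dfs K E 502 Tad30
  d31 : Dfs K E 518 Tad31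
  d32 : Dfs K E 534 Tad32
  d33 : Dfs K E 550 Tad33
  d34 : Dfs K E 566 Tad34
  d35 : Dfs K E 582 Tad35
  d36 : Dfs K E 598 Tad36
  d37 : Dfs K E 614 Tad37
  d38 : Dfs K E 630 Tad38
  d39 : Dfs K E 646 Tad39
  d40 : Dfs K E 662 Tad40
  d41 : Dfs K E 678 Tad41
  d42 : Dfs K E 694 Tad42
  d43 : Dfs K E 710 Tad43
  v0 : Dfs K E 2000 Tav0
  v1 : Dfs K E 2016 Tav1
  v2 : Dfs K E 2032 Tav2
  v3 : Dfs K E 2048 Tav3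
  v4 : Dfs K E 2064 Tav4
  v5 : Dfs K E 2080 Tav5
  v6 : Dfs K E 2096 Tav6
  v7 : Dfs K E 2112 Tav7
  v8 : Dfs K E 2128 Tav8
  v9 : Dfs K E 2144 Tav9
  v10 : Dfs K E 2160 Tav10
  v11 : Dfs K E 2176 Tav11
  v12 : Dfs K E 2192 Tav12
  v13 : Dfs K E 2208 Tav13
  v14 : Dfs K E 2224 Tav14
  v15 : Dfs K E 2240 Tav15
  c0 : Pos K E Tac0
  c1 : Pos K E Tac1
  c2 : Pos K E Tac2
  c3 : Pos K E Tac3
  c4 : Pos K E Tac4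
  c5 : Pos K E Tac5
  c6 : Pos K E Tac6
  c7 : Pos K E Tac7
  c8 : Pos K E Tac8
  c9 : Pos K E Tac9
  c10 : Pos K E Tac10
  c11 : Pos K E Tac11
  c12 : Pos K E Tac12
  c13 : Pos K E Tac13
  c14 : Pos K E Tac14
  c15 : Pos K E Tac15

namespace Ta

variable {K E p : ℕ → ℝ}

theorem F0 (h : TaH K E p) :
    E 22 = (E 0) - (K 100) ∧
    E 23 = (E 0)⁻¹ ∧
    E 24 = ((E 0) + (((1 : ℤ) : ℝ) / ((1 : ℕ) : ℝ)))⁻¹ ∧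
    E 25 = (K 101) + ((K 102) * (E 22)) ∧
    E 26 = (K 103) + ((K 104) * (E 22)) ∧
    E 27 = (K 105) + ((K 106) * (E 22)) ∧
    E 28 = (K 107) + ((K 108) * (E 22)) ∧
    E 29 = (K 109) + ((K 110) * (E 22)) ∧
    E 30 = (K 111) + ((K 112) * (E 22)) ∧
    E 31 = (K 113) + ((K 114) * (E 22)) ∧
    E 32 = (((0 : ℤ) : ℝ) / ((1 : ℕ) : ℝ)) - π ∧
    E 33 = (((0 : ℤ) : ℝ) / ((1 : ℕ) : ℝ)) - (E 10) ∧
    E 34 = (E 15) - ((E 12) + (E 12)) ∧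
    E 35 = ((((1 : ℤ) : ℝ) / ((3 : ℕ) : ℝ)) * (E 17)) - ((((1 : ℤ) : ℝ) / ((3 : ℕ) : ℝ)) * (E 18)) ∧
    E 36 = ((0 : ℤ) : ℝ) / ((1 : ℕ) : ℝ) ∧
    E 37 = ((((1 : ℤ) : ℝ) / ((3 : ℕ) : ℝ)) * (E 18)) - ((((1 : ℤ) : ℝ) / ((3 : ℕ) : ℝ)) * (E 17)) ∧ True := h.d0

theorem F1 (h : TaH K E p) :
    E 38 = ((E 12) + (E 12)) - (E 15) ∧
    E 39 = ((((2 : ℤ) : ℝ) / ((3 : ℕ) : ℝ)) * (E 18)) - ((((2 : ℤ) : ℝ) / ((3 : ℕ) : ℝ)) * (E 17)) ∧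
    E 40 = (E 18) - (E 17) ∧
    E 41 = (((E 10) + (E 17)) - (E 29)) - (E 18) ∧
    E 42 = (((E 10) + ((((2 : ℤ) : ℝ) / ((3 : ℕ) : ℝ)) * (E 17))) - (E 29)) - ((((2 : ℤ) : ℝ) / ((3 : ℕ) : ℝ)) * (E 18)) ∧
    E 43 = (((E 10) + ((((1 : ℤ) : ℝ) / ((3 : ℕ) : ℝ)) * (E 17))) - (E 29)) - ((((1 : ℤ) : ℝ) / ((3 : ℕ) : ℝ)) * (E 18)) ∧
    E 44 = (E 10) - (E 29) ∧
    E 45 = E 10 ∧
    E 46 = E 27 ∧
    E 47 = E 11 ∧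
    E 48 = (((((1 : ℤ) : ℝ) / ((2 : ℕ) : ℝ)) * (E 29)) + ((((1 : ℤ) : ℝ) / ((2 : ℕ) : ℝ)) * (E 16))) - ((((1 : ℤ) : ℝ) / ((2 : ℕ) : ℝ)) * (E 10)) ∧
    E 49 = E 28 ∧
    E 50 = ((π + π) - (E 26)) - ((E 25) + (E 25)) ∧
    E 51 = E 12 ∧
    E 52 = E 13 ∧
    E 53 = E 31 ∧ True := h.d1

theorem F2 (h : TaH K E p) :
    E 54 = E 14 ∧
    E 55 = E 25 ∧
    E 56 = E 15 ∧
    E 57 = (((((1 : ℤ) : ℝ) / ((2 : ℕ) : ℝ)) * (E 11)) + (E 15)) - ((((1 : ℤ) : ℝ) / ((2 : ℕ) : ℝ)) * (E 10)) ∧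
    E 58 = E 16 ∧
    E 59 = ((((((1 : ℤ) : ℝ) / ((2 : ℕ) : ℝ)) * (E 29)) + (E 16)) + ((((1 : ℤ) : ℝ) / ((6 : ℕ) : ℝ)) * (E 18))) - ((((1 : ℤ) : ℝ) / ((6 : ℕ) : ℝ)) * (E 17)) ∧
    E 60 = ((((((1 : ℤ) : ℝ) / ((2 : ℕ) : ℝ)) * (E 29)) + (E 16)) + ((((1 : ℤ) : ℝ) / ((3 : ℕ) : ℝ)) * (E 18))) - ((((1 : ℤ) : ℝ) / ((3 : ℕ) : ℝ)) * (E 17)) ∧
    E 61 = ((((((1 : ℤ) : ℝ) / ((2 : ℕ) : ℝ)) * (E 29)) + (E 16)) + ((((1 : ℤ) : ℝ) / ((2 : ℕ) : ℝ)) * (E 18))) - ((((1 : ℤ) : ℝ) / ((2 : ℕ) : ℝ)) * (E 17)) ∧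
    E 62 = ((((((1 : ℤ) : ℝ) / ((2 : ℕ) : ℝ)) * (E 29)) + (E 16)) + ((((2 : ℤ) : ℝ) / ((3 : ℕ) : ℝ)) * (E 18))) - ((((2 : ℤ) : ℝ) / ((3 : ℕ) : ℝ)) * (E 17)) ∧
    E 63 = ((((((1 : ℤ) : ℝ) / ((2 : ℕ) : ℝ)) * (E 10)) + (E 16)) + ((((1 : ℤ) : ℝ) / ((3 : ℕ) : ℝ)) * (E 17))) - ((((1 : ℤ) : ℝ) / ((3 : ℕ) : ℝ)) * (E 18)) ∧
    E 64 = ((((((1 : ℤ) : ℝ) / ((2 : ℕ) : ℝ)) * (E 29)) + (E 16)) + ((((5 : ℤ) : ℝ) / ((6 : ℕ) : ℝ)) * (E 18))) - ((((5 : ℤ) : ℝ) / ((6 : ℕ) : ℝ)) * (E 17)) ∧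
    E 65 = ((((((1 : ℤ) : ℝ) / ((2 : ℕ) : ℝ)) * (E 10)) + (E 16)) + ((((1 : ℤ) : ℝ) / ((6 : ℕ) : ℝ)) * (E 17))) - ((((1 : ℤ) : ℝ) / ((6 : ℕ) : ℝ)) * (E 18)) ∧
    E 66 = ((((1 : ℤ) : ℝ) / ((2 : ℕ) : ℝ)) * (E 10)) + (E 16) ∧
    E 67 = ((((((1 : ℤ) : ℝ) / ((2 : ℕ) : ℝ)) * (E 10)) + (E 16)) + ((((1 : ℤ) : ℝ) / ((6 : ℕ) : ℝ)) * (E 18))) - ((((1 : ℤ) : ℝ) / ((6 : ℕ) : ℝ)) * (E 17)) ∧
    E 68 = E 17 ∧
    E 69 = ((((2 : ℤ) : ℝ) / ((3 : ℕ) : ℝ)) * (E 17)) + ((((1 : ℤ) : ℝ) / ((3 : ℕ) : ℝ)) * (E 18)) ∧ True := h.d2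

theorem F3 (h : TaH K E p) :
    E 70 = (((E 10) + ((E 16) + (E 16))) + (E 18)) - ((E 17) + (E 17)) ∧
    E 71 = ((((1 : ℤ) : ℝ) / ((3 : ℕ) : ℝ)) * (E 17)) + ((((2 : ℤ) : ℝ) / ((3 : ℕ) : ℝ)) * (E 18)) ∧
    E 72 = E 18 ∧
    E 73 = ((((E 10) + (π + π)) - (E 11)) - ((E 15) + (E 15))) - (E 27) ∧
    E 74 = E 19 ∧
    E 75 = E 26 ∧
    E 76 = E 20 ∧
    E 77 = ((π + π) - ((E 31) + (E 31))) - (E 13) ∧
    E 78 = π - (E 30) ∧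
    E 79 = π ∧
    E 80 = (π + π) - (E 78) ∧
    E 81 = (π + π) - (E 76) ∧
    E 82 = (π + π) - (E 58) ∧
    E 83 = (π + π) - (E 57) ∧
    E 84 = (π + π) - (E 56) ∧
    E 85 = (π + π) - (E 36) ∧ True := h.d3

theorem F4 (h : TaH K E p) :
    E 86 = sin (E 36) ∧
    E 87 = cos (E 36) ∧
    E 88 = sin (E 37) ∧
    E 89 = cos (E 37) ∧
    E 90 = sin (E 38) ∧
    E 91 = cos (E 38) ∧
    E 92 = sin (E 39) ∧
    E 93 = cos (E 39) ∧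
    E 94 = sin (E 40) ∧
    E 95 = cos (E 40) ∧
    E 96 = sin (E 41) ∧
    E 97 = cos (E 41) ∧
    E 98 = sin (E 42) ∧
    E 99 = cos (E 42) ∧
    E 100 = sin (E 43) ∧
    E 101 = cos (E 43) ∧ True := h.d4

theorem F5 (h : TaH K E p) :
    E 102 = sin (E 44) ∧
    E 103 = cos (E 44) ∧
    E 104 = sin (E 45) ∧
    E 105 = cos (E 45) ∧
    E 106 = sin (E 46) ∧
    E 107 = cos (E 46) ∧
    E 108 = sin (E 47) ∧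
    E 109 = cos (E 47) ∧
    E 110 = sin (E 48) ∧
    E 111 = cos (E 48) ∧
    E 112 = sin (E 49) ∧
    E 113 = cos (E 49) ∧
    E 114 = sin (E 50) ∧
    E 115 = cos (E 50) ∧
    E 116 = sin (E 51) ∧
    E 117 = cos (E 51) ∧ True := h.d5

theorem F6 (h : TaH K E p) :
    E 118 = sin (E 52) ∧
    E 119 = cos (E 52) ∧
    E 120 = sin (E 53) ∧
    E 121 = cos (E 53) ∧
    E 122 = sin (E 54) ∧
    E 123 = cos (E 54) ∧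
    E 124 = sin (E 55) ∧
    E 125 = cos (E 55) ∧
    E 126 = sin (E 56) ∧
    E 127 = cos (E 56) ∧
    E 128 = sin (E 57) ∧
    E 129 = cos (E 57) ∧
    E 130 = sin (E 58) ∧
    E 131 = cos (E 58) ∧
    E 132 = sin (E 59) ∧
    E 133 = cos (E 59) ∧ True := h.d6

theorem F7 (h : TaH K E p) :
    E 134 = sin (E 60) ∧
    E 135 = cos (E 60) ∧
    E 136 = sin (E 61) ∧
    E 137 = cos (E 61) ∧
    E 138 = sin (E 62) ∧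
    E 139 = cos (E 62) ∧
    E 140 = sin (E 63) ∧
    E 141 = cos (E 63) ∧
    E 142 = sin (E 64) ∧
    E 143 = cos (E 64) ∧
    E 144 = sin (E 65) ∧
    E 145 = cos (E 65) ∧
    E 146 = sin (E 66) ∧
    E 147 = cos (E 66) ∧
    E 148 = sin (E 67) ∧
    E 149 = cos (E 67) ∧ True := h.d7

theorem F8 (h : TaH K E p) :
    E 150 = sin (E 68) ∧
    E 151 = cos (E 68) ∧
    E 152 = sin (E 69) ∧
    E 153 = cos (E 69) ∧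
    E 154 = sin (E 70) ∧
    E 155 = cos (E 70) ∧
    E 156 = sin (E 71) ∧
    E 157 = cos (E 71) ∧
    E 158 = sin (E 72) ∧
    E 159 = cos (E 72) ∧
    E 160 = sin (E 73) ∧
    E 161 = cos (E 73) ∧
    E 162 = sin (E 74) ∧
    E 163 = cos (E 74) ∧
    E 164 = sin (E 75) ∧
    E 165 = cos (E 75) ∧ True := h.d8

theorem F9 (h : TaH K E p) :
    E 166 = sin (E 76) ∧
    E 167 = cos (E 76) ∧
    E 168 = sin (E 77) ∧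
    E 169 = cos (E 77) ∧
    E 170 = sin (E 78) ∧
    E 171 = cos (E 78) ∧
    E 172 = sin (E 79) ∧
    E 173 = cos (E 79) ∧
    E 174 = (K 115) + ((K 116) * (E 22)) ∧
    E 175 = (K 117) + ((K 118) * (E 22)) ∧
    E 176 = (K 119) + ((K 120) * (E 22)) ∧
    E 177 = (K 121) + ((K 122) * (E 22)) ∧
    E 178 = ((E 50) - (E 47))⁻¹ ∧
    E 179 = ((E 75) - (E 74))⁻¹ ∧
    E 180 = ((E 56) - (E 55))⁻¹ ∧
    E 181 = (K 123) + ((K 124) * (E 22)) ∧ True := h.d9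

theorem F10 (h : TaH K E p) :
    E 182 = ((E 47) - (E 46))⁻¹ ∧
    E 183 = ((E 74) - (E 73))⁻¹ ∧
    E 184 = ((E 57) - (E 56))⁻¹ ∧
    E 185 = ((E 46) - (E 45))⁻¹ ∧
    E 186 = ((E 73) - (E 72))⁻¹ ∧
    E 187 = ((E 58) - (E 57))⁻¹ ∧
    E 188 = (K 125) + ((K 126) * (E 22)) ∧
    E 189 = ((E 44) - (E 34))⁻¹ ∧
    E 190 = ((E 84) - (E 82))⁻¹ ∧
    E 191 = ((E 51) - (E 48))⁻¹ ∧
    E 192 = (K 127) + ((K 128) * (E 22)) ∧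
    E 193 = ((E 45) - (E 44))⁻¹ ∧
    E 194 = ((E 72) - (E 71))⁻¹ ∧
    E 195 = ((E 59) - (E 58))⁻¹ ∧
    E 196 = (K 129) + ((K 130) * (E 22)) ∧
    E 197 = (K 131) + ((K 132) * (E 22)) ∧ True := h.d10

theorem F11 (h : TaH K E p) :
    E 198 = ((E 72) - (E 69))⁻¹ ∧
    E 199 = ((E 60) - (E 58))⁻¹ ∧
    E 200 = (K 133) + ((K 134) * (E 22)) ∧
    E 201 = (K 135) + ((K 136) * (E 22)) ∧
    E 202 = ((E 45) - (E 43))⁻¹ ∧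
    E 203 = ((E 72) - (E 68))⁻¹ ∧
    E 204 = ((E 62) - (E 58))⁻¹ ∧
    E 205 = (K 137) + ((K 138) * (E 22)) ∧
    E 206 = (K 139) + ((K 140) * (E 22)) ∧
    E 207 = ((E 45) - (E 42))⁻¹ ∧
    E 208 = ((E 64) - (E 58))⁻¹ ∧
    E 209 = (K 141) + ((K 142) * (E 22)) ∧
    E 210 = ((E 44) - (E 43))⁻¹ ∧
    E 211 = ((E 71) - (E 69))⁻¹ ∧
    E 212 = ((E 61) - (E 59))⁻¹ ∧
    E 213 = (K 143) + ((K 144) * (E 22)) ∧ True := h.d11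

theorem F12 (h : TaH K E p) :
    E 214 = ((E 71) - (E 68))⁻¹ ∧
    E 215 = ((E 62) - (E 59))⁻¹ ∧
    E 216 = (K 145) + ((K 146) * (E 22)) ∧
    E 217 = ((E 43) - (E 42))⁻¹ ∧
    E 218 = ((E 64) - (E 60))⁻¹ ∧
    E 219 = (K 147) + ((K 148) * (E 22)) ∧
    E 220 = ((E 62) - (E 61))⁻¹ ∧
    E 221 = (K 149) + ((K 150) * (E 22)) ∧
    E 222 = ((E 42) - (E 40))⁻¹ ∧
    E 223 = ((E 66) - (E 61))⁻¹ ∧
    E 224 = (K 151) + ((K 152) * (E 22)) ∧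
    E 225 = ((E 69) - (E 68))⁻¹ ∧
    E 226 = ((E 62) - (E 60))⁻¹ ∧
    E 227 = (K 153) + ((K 154) * (E 22)) ∧
    E 228 = (K 155) + ((K 156) * (E 22)) ∧
    E 229 = ((E 44) - (E 40))⁻¹ ∧ True := h.d12

theorem F13 (h : TaH K E p) :
    E 230 = ((E 66) - (E 60))⁻¹ ∧
    E 231 = (K 157) + ((K 158) * (E 22)) ∧
    E 232 = (K 159) + ((K 160) * (E 22)) ∧
    E 233 = ((E 64) - (E 61))⁻¹ ∧
    E 234 = (K 161) + ((K 162) * (E 22)) ∧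
    E 235 = ((E 66) - (E 62))⁻¹ ∧
    E 236 = (K 163) + ((K 164) * (E 22)) ∧
    E 237 = ((E 43) - (E 41))⁻¹ ∧
    E 238 = ((E 64) - (E 62))⁻¹ ∧
    E 239 = (K 165) + ((K 166) * (E 22)) ∧
    E 240 = (K 167) + ((K 168) * (E 22)) ∧
    E 241 = ((E 41) - (E 36))⁻¹ ∧
    E 242 = ((E 70) - (E 69))⁻¹ ∧
    E 243 = ((E 68) - (E 64))⁻¹ ∧
    E 244 = (K 169) + ((K 170) * (E 22)) ∧
    E 245 = ((E 43) - (E 40))⁻¹ ∧ True := h.d13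

theorem F14 (h : TaH K E p) :
    E 246 = ((E 63) - (E 62))⁻¹ ∧
    E 247 = (K 171) + ((K 172) * (E 22)) ∧
    E 248 = ((E 43) - (E 39))⁻¹ ∧
    E 249 = (K 173) + ((K 174) * (E 22)) ∧
    E 250 = (K 175) + ((K 176) * (E 22)) ∧
    E 251 = ((E 64) - (E 63))⁻¹ ∧
    E 252 = (K 177) + ((K 178) * (E 22)) ∧
    E 253 = (K 179) + ((K 180) * (E 22)) ∧
    E 254 = ((E 42) - (E 39))⁻¹ ∧
    E 255 = ((E 66) - (E 64))⁻¹ ∧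
    E 256 = (K 181) + ((K 182) * (E 22)) ∧
    E 257 = (K 183) + ((K 184) * (E 22)) ∧
    E 258 = ((E 65) - (E 64))⁻¹ ∧
    E 259 = (K 185) + ((K 186) * (E 22)) ∧
    E 260 = (K 187) + ((K 188) * (E 22)) ∧
    E 261 = ((E 37) - (E 35))⁻¹ ∧ True := h.d14

theorem F15 (h : TaH K E p) :
    E 262 = ((E 67) - (E 66))⁻¹ ∧
    E 263 = (K 189) + ((K 190) * (E 22)) ∧
    E 264 = (K 191) + ((K 192) * (E 22)) ∧
    E 265 = ((E 36) - (E 35))⁻¹ ∧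
    E 266 = ((E 72) - (E 70))⁻¹ ∧
    E 267 = ((E 68) - (E 67))⁻¹ ∧
    E 268 = (K 193) + ((K 194) * (E 22)) ∧
    E 269 = (K 195) + ((K 196) * (E 22)) ∧
    E 270 = (K 197) + ((K 198) * (E 22)) ∧
    E 271 = ((E 39) - (E 36))⁻¹ ∧
    E 272 = ((E 66) - (E 65))⁻¹ ∧
    E 273 = (K 199) + ((K 200) * (E 22)) ∧
    E 274 = ((E 37) - (E 36))⁻¹ ∧
    E 275 = (K 201) + ((K 202) * (E 22)) ∧
    E 276 = ((E 67) - (E 65))⁻¹ ∧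
    E 277 = (K 203) + ((K 204) * (E 22)) ∧ True := h.d15

theorem F16 (h : TaH K E p) :
    E 278 = ((E 39) - (E 37))⁻¹ ∧
    E 279 = (K 205) + ((K 206) * (E 22)) ∧
    E 280 = ((E 40) - (E 36))⁻¹ ∧
    E 281 = (K 207) + ((K 208) * (E 22)) ∧
    E 282 = ((E 40) - (E 37))⁻¹ ∧
    E 283 = (K 209) + ((K 210) * (E 22)) ∧
    E 284 = ((E 71) - (E 70))⁻¹ ∧
    E 285 = ((E 68) - (E 66))⁻¹ ∧
    E 286 = (K 211) + ((K 212) * (E 22)) ∧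
    E 287 = ((E 40) - (E 39))⁻¹ ∧
    E 288 = (K 213) + ((K 214) * (E 22)) ∧
    E 289 = ((E 68) - (E 65))⁻¹ ∧
    E 290 = (K 215) + ((K 216) * (E 22)) ∧
    E 291 = ((E 52) - (E 51))⁻¹ ∧
    E 292 = ((E 77) - (E 76))⁻¹ ∧
    E 293 = ((E 54) - (E 53))⁻¹ ∧ True := h.d16

theorem F17 (h : TaH K E p) :
    E 294 = (((1 : ℤ) : ℝ) / ((2 : ℕ) : ℝ)) * ((E 76) + (E 75)) ∧
    E 295 = (((1 : ℤ) : ℝ) / ((2 : ℕ) : ℝ)) * ((E 55) + (E 54)) ∧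
    E 296 = ((π + π) - (E 294)) - ((E 295) + (E 295)) ∧
    E 297 = (((1 : ℤ) : ℝ) / ((2 : ℕ) : ℝ)) * ((E 74) + (E 76)) ∧
    E 298 = (((1 : ℤ) : ℝ) / ((2 : ℕ) : ℝ)) * ((E 55) + (E 56)) ∧
    E 299 = ((π + π) - (E 297)) - ((E 298) + (E 298)) ∧
    E 300 = (((1 : ℤ) : ℝ) / ((2 : ℕ) : ℝ)) * ((E 72) + (E 74)) ∧
    E 301 = (((1 : ℤ) : ℝ) / ((2 : ℕ) : ℝ)) * ((E 57) + (E 58)) ∧
    E 302 = ((π + π) - (E 300)) - ((E 301) + (E 301)) ∧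
    E 303 = (((1 : ℤ) : ℝ) / ((2 : ℕ) : ℝ)) * ((E 74) + (E 73)) ∧
    E 304 = (((1 : ℤ) : ℝ) / ((2 : ℕ) : ℝ)) * ((E 57) + (E 56)) ∧
    E 305 = ((π + π) - (E 303)) - ((E 304) + (E 304)) ∧
    E 306 = (((1 : ℤ) : ℝ) / ((2 : ℕ) : ℝ)) * ((E 84) + (E 82)) ∧
    E 307 = (((1 : ℤ) : ℝ) / ((2 : ℕ) : ℝ)) * ((E 51) + (E 47)) ∧
    E 308 = ((π + π) - (E 306)) - ((E 307) + (E 307)) ∧
    E 309 = (((1 : ℤ) : ℝ) / ((2 : ℕ) : ℝ)) * ((E 72) + (E 68)) ∧ True := h.d17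

theorem F18 (h : TaH K E p) :
    E 310 = (((1 : ℤ) : ℝ) / ((2 : ℕ) : ℝ)) * ((E 68) + (E 58)) ∧
    E 311 = ((π + π) - (E 309)) - ((E 310) + (E 310)) ∧
    E 312 = (((1 : ℤ) : ℝ) / ((2 : ℕ) : ℝ)) * ((E 76) + (E 78)) ∧
    E 313 = (((1 : ℤ) : ℝ) / ((2 : ℕ) : ℝ)) * ((E 53) + (E 54)) ∧
    E 314 = ((π + π) - (E 312)) - ((E 313) + (E 313)) ∧
    E 315 = (((1 : ℤ) : ℝ) / ((2 : ℕ) : ℝ)) * ((E 78) + (E 80)) ∧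
    E 316 = (((1 : ℤ) : ℝ) / ((2 : ℕ) : ℝ)) * ((E 52) + (E 53)) ∧
    E 317 = ((π + π) - (E 315)) - ((E 316) + (E 316)) ∧
    E 318 = (((1 : ℤ) : ℝ) / ((2 : ℕ) : ℝ)) * ((E 80) + (E 77)) ∧
    E 319 = (((1 : ℤ) : ℝ) / ((2 : ℕ) : ℝ)) * ((E 53) + (E 52)) ∧
    E 320 = ((π + π) - (E 318)) - ((E 319) + (E 319)) ∧
    E 321 = (E 190) * (E 190) ∧
    E 322 = (((0 : ℤ) : ℝ) / ((1 : ℕ) : ℝ)) - ((E 188) * ((E 190) * (E 190))) ∧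
    E 323 = (E 189) * (E 189) ∧
    E 324 = (E 188) * ((E 189) * (E 189)) ∧
    E 325 = (E 261) * (E 261) ∧ True := h.d18

theorem F19 (h : TaH K E p) :
    E 326 = ((E 260) - (E 259)) * ((E 261) * (E 261)) ∧
    E 327 = (E 76) - (E 75) ∧
    E 328 = (((0 : ℤ) : ℝ) / ((1 : ℕ) : ℝ)) - ((E 24) * ((E 123) - (E 125))) ∧
    E 329 = (E 327)⁻¹ ∧
    E 330 = (((0 : ℤ) : ℝ) / ((1 : ℕ) : ℝ)) - ((E 329) * (E 328)) ∧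
    E 331 = (E 51) - (E 50) ∧
    E 332 = ((E 51) - (E 50)) * (((((1 : ℤ) : ℝ) / ((2 : ℕ) : ℝ)) * ((E 50) + (E 51))) - (E 51)) ∧
    E 333 = ((((E 50) - (E 49)) * (((E 50) - (E 49)) * (E 174))) + ((((E 50) - (E 49)) * (((((1 : ℤ) : ℝ) / ((2 : ℕ) : ℝ)) * ((E 49) + (E 50))) - (E 50))) * (E 174))) - ((E 24) * ((E 123) - (E 125))) ∧
    E 334 = ((E 51) - (E 50)) * (((((1 : ℤ) : ℝ) / ((2 : ℕ) : ℝ)) * ((E 50) + (E 51))) - (E 296)) ∧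
    E 335 = ((E 51) - (E 50)) * (((((1 : ℤ) : ℝ) / ((3 : ℕ) : ℝ)) * (((((E 50) - (E 51)) * ((E 50) - (E 51))) + (((E 50) - (E 51)) * ((E 51) - (E 51)))) + (((E 51) - (E 51)) * ((E 51) - (E 51))))) + (((E 51) - (E 296)) * (((((1 : ℤ) : ℝ) / ((2 : ℕ) : ℝ)) * ((E 50) + (E 51))) - (E 51)))) ∧
    E 336 = (((((((E 50) - (E 49)) * (((((1 : ℤ) : ℝ) / ((2 : ℕ) : ℝ)) * ((E 49) + (E 50))) - (E 296))) * (((E 50) - (E 49)) * (E 174))) + ((((E 50) - (E 49)) * (((((1 : ℤ) : ℝ) / ((3 : ℕ) : ℝ)) * (((((E 49) - (E 50)) * ((E 49) - (E 50))) + (((E 49) - (E 50)) * ((E 50) - (E 50)))) + (((E 50) - (E 50)) * ((E 50) - (E 50))))) + (((E 50) - (E 296)) * (((((1 : ℤ) : ℝ) / ((2 : ℕ) : ℝ)) * ((E 49) + (E 50))) - (E 50))))) * (E 174))) + ((E 24) * (((E 124) - (E 122)) + ((((E 54) - (E 295)) * (E 123)) - (((E 55) - (E 295)) * (E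 125)))))) + ((E 24) * (((E 124) - (E 122)) + ((((E 54) - (E 295)) * (E 123)) - (((E 55) - (E 295)) * (E 125)))))) + ((((E 76) - (E 75)) * (((((1 : ℤ) : ℝ) / ((2 : ℕ) : ℝ)) * ((E 75) + (E 76))) - (E 294))) * (E 330)) ∧
    E 337 = (E 331)⁻¹ ∧
    E 338 = (E 334) * (E 337) ∧
    E 339 = (E 335) - ((E 338) * (E 332)) ∧
    E 340 = (E 336) - ((E 338) * (E 333)) ∧
    E 341 = (E 339)⁻¹ ∧ True := h.d19

theorem F20 (h : TaH K E p) :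
    E 342 = (((0 : ℤ) : ℝ) / ((1 : ℕ) : ℝ)) - ((E 341) * (E 340)) ∧
    E 343 = (((0 : ℤ) : ℝ) / ((1 : ℕ) : ℝ)) - ((E 337) * ((E 333) + ((E 332) * (E 342)))) ∧
    E 344 = (E 48) - (E 47) ∧
    E 345 = (E 49) - (E 48) ∧
    E 346 = ((((E 50) - (E 49)) * (E 175)) + ((((1 : ℤ) : ℝ) / ((2 : ℕ) : ℝ)) * (E 177))) - ((E 24) * ((E 125) - (E 127))) ∧
    E 347 = ((E 48) - (E 47)) * (((((1 : ℤ) : ℝ) / ((2 : ℕ) : ℝ)) * ((E 47) + (E 48))) - (E 299)) ∧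
    E 348 = ((E 49) - (E 48)) * (((((1 : ℤ) : ℝ) / ((2 : ℕ) : ℝ)) * ((E 48) + (E 49))) - (E 299)) ∧
    E 349 = ((((((((((E 50) - (E 49)) * (((((1 : ℤ) : ℝ) / ((2 : ℕ) : ℝ)) * ((E 49) + (E 50))) - (E 299))) * (E 175)) + ((E 23) * (((E 166) - (E 162)) + ((((E 74) - (E 297)) * (E 163)) - (((E 76) - (E 297)) * (E 167)))))) + ((E 24) * (((E 126) - (E 124)) + ((((E 55) - (E 298)) * (E 125)) - (((E 56) - (E 298)) * (E 127)))))) + ((E 24) * (((E 126) - (E 124)) + ((((E 55) - (E 298)) * (E 125)) - (((E 56) - (E 298)) * (E 127)))))) - (((((1 : ℤ) : ℝ) / ((6 : ℕ) : ℝ)) * ((((E 74) - (E 297)) + ((E 74) - (E 297))) + ((E 75) - (E 297)))) * (E 177))) - (((((1 : ℤ) : ℝ) / ((6 : ℕ) : ℝ)) * (((E 55) - (E 298)) + (((E 56) - (E 298)) + ((E 56) - (E 298))))) * (E 177))) - (((((1 : ℤ) : ℝ) / ((6 : ℕ) : ℝ)) * (((E 55) - (E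 298)) + (((E 56) - (E 298)) + ((E 56) - (E 298))))) * (E 177))) - ((((E 76) - (E 75)) * (((((1 : ℤ) : ℝ) / ((2 : ℕ) : ℝ)) * ((E 75) + (E 76))) - (E 297))) * (E 330)) ∧
    E 350 = (E 344)⁻¹ ∧
    E 351 = (E 347) * (E 350) ∧
    E 352 = (E 348) - ((E 351) * (E 345)) ∧
    E 353 = (E 349) - ((E 351) * (E 346)) ∧
    E 354 = (E 352)⁻¹ ∧
    E 355 = (((0 : ℤ) : ℝ) / ((1 : ℕ) : ℝ)) - ((E 354) * (E 353)) ∧
    E 356 = (((0 : ℤ) : ℝ) / ((1 : ℕ) : ℝ)) - ((E 350) * ((E 346) + ((E 345) * (E 355)))) ∧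
    E 357 = (E 46) - (E 45) ∧ True := h.d20

theorem F21 (h : TaH K E p) :
    E 358 = (((0 : ℤ) : ℝ) / ((1 : ℕ) : ℝ)) - (((E 24) * (E 0)) * ((E 83) - (E 82))) ∧
    E 359 = (((0 : ℤ) : ℝ) / ((1 : ℕ) : ℝ)) - (((E 24) * (E 0)) * (((E 83) - (E 82)) * (((((1 : ℤ) : ℝ) / ((2 : ℕ) : ℝ)) * ((E 82) + (E 83))) - (E 83)))) ∧
    E 360 = ((1 : ℤ) : ℝ) / ((2 : ℕ) : ℝ) ∧
    E 361 = ((((0 : ℤ) : ℝ) / ((1 : ℕ) : ℝ)) - ((E 24) * ((E 129) - (E 131)))) - (((E 24) * (E 0)) * (((E 83) - (E 82)) * ((E 322) * (((((1 : ℤ) : ℝ) / ((2 : ℕ) : ℝ)) * ((E 82) + (E 83))) - (E 84))))) ∧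
    E 362 = (((1 : ℤ) : ℝ) / ((2 : ℕ) : ℝ)) - (((1 : ℤ) : ℝ) / ((2 : ℕ) : ℝ)) ∧
    E 363 = (((0 : ℤ) : ℝ) / ((1 : ℕ) : ℝ)) - ((E 74) - (E 73)) ∧
    E 364 = (((0 : ℤ) : ℝ) / ((1 : ℕ) : ℝ)) - (((E 24) * (E 0)) * ((E 83) - (E 82))) ∧
    E 365 = (((0 : ℤ) : ℝ) / ((1 : ℕ) : ℝ)) - (((E 24) * (E 0)) * (((E 83) - (E 82)) * (((((1 : ℤ) : ℝ) / ((2 : ℕ) : ℝ)) * ((E 82) + (E 83))) - (E 83)))) ∧
    E 366 = ((((E 23) * ((E 159) - (E 163))) - ((((1 : ℤ) : ℝ) / ((2 : ℕ) : ℝ)) * (E 181))) - ((E 24) * ((E 129) - (E 131)))) - (((E 24) * (E 0)) * (((E 83) - (E 82)) * ((E 322) * (((((1 : ℤ) : ℝ) / ((2 : ℕ) : ℝ)) * ((E 82) + (E 83))) - (E 84))))) ∧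
    E 367 = ((E 46) - (E 45)) * (((((1 : ℤ) : ℝ) / ((2 : ℕ) : ℝ)) * ((E 45) + (E 46))) - (E 302)) ∧
    E 368 = (((((0 : ℤ) : ℝ) / ((1 : ℕ) : ℝ)) - ((((1 : ℤ) : ℝ) / ((6 : ℕ) : ℝ)) * (((E 72) - (E 300)) + (((E 73) - (E 300)) + ((E 73) - (E 300)))))) - ((((1 : ℤ) : ℝ) / ((6 : ℕ) : ℝ)) * ((((E 57) - (E 301)) + ((E 57) - (E 301))) + ((E 58) - (E 301))))) - ((((1 : ℤ) : ℝ) / ((6 : ℕ) : ℝ)) * ((((E 57) - (E 301)) + ((E 57) - (E 301))) + ((E 58) - (E 301)))) ∧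
    E 369 = (((0 : ℤ) : ℝ) / ((1 : ℕ) : ℝ)) - (((E 74) - (E 73)) * (((((1 : ℤ) : ℝ) / ((2 : ℕ) : ℝ)) * ((E 73) + (E 74))) - (E 300))) ∧
    E 370 = ((((0 : ℤ) : ℝ) / ((1 : ℕ) : ℝ)) - (((E 24) * (E 0)) * (((E 83) - (E 82)) * (((((1 : ℤ) : ℝ) / ((2 : ℕ) : ℝ)) * ((E 82) + (E 83))) - ((π + π) - (E 301)))))) - (((E 24) * (E 0)) * (((E 83) - (E 82)) * (((((1 : ℤ) : ℝ) / ((2 : ℕ) : ℝ)) * ((E 82) + (E 83))) - ((π + π) - (E 301))))) ∧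
    E 371 = ((((0 : ℤ) : ℝ) / ((1 : ℕ) : ℝ)) - (((E 24) * (E 0)) * (((E 83) - (E 82)) * (((((1 : ℤ) : ℝ) / ((3 : ℕ) : ℝ)) * (((((E 82) - (E 83)) * ((E 82) - (E 83))) + (((E 82) - (E 83)) * ((E 83) - (E 83)))) + (((E 83) - (E 83)) * ((E 83) - (E 83))))) + (((E 83) - ((π + π) - (E 301))) * (((((1 : ℤ) : ℝ) / ((2 : ℕ) : ℝ)) * ((E 82) + (E 83))) - (E 83))))))) - (((E 24) * (E 0)) * (((E 83) - (E 82)) * (((((1 : ℤ) : ℝ) / ((3 : ℕ) : ℝ)) * (((((E 82) - (E 83)) * ((E 82) - (E 83))) + (((E 82) - (E 83)) * ((E 83) - (E 83)))) + (((E 83) - (E 83)) * ((E 83) - (E 83))))) + (((E 83) - ((π + π) - (E 301))) * (((((1 : ℤ) : ℝ) / ((2 : ℕ) : ℝ)) * ((E 82) + (E 83))) - (E 83)))))) ∧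
    E 372 = ((((((E 23) * (((E 162) - (E 158)) + ((((E 72) - (E 300)) * (E 159)) - (((E 74) - (E 300)) * (E 163))))) + ((E 24) * (((E 130) - (E 128)) + ((((E 57) - (E 301)) * (E 129)) - (((E 58) - (E 301)) * (E 131)))))) + ((E 24) * (((E 130) - (E 128)) + ((((E 57) - (E 301)) * (E 129)) - (((E 58) - (E 301)) * (E 131)))))) - (((((1 : ℤ) : ℝ) / ((6 : ℕ) : ℝ)) * ((((E 73) - (E 300)) + ((E 73) - (E 300))) + ((E 74) - (E 300)))) * (E 181))) - (((E 24) * (E 0)) * (((E 83) - (E 82)) * ((E 322) * (((((1 : ℤ) : ℝ) / ((3 : ℕ) : ℝ)) * (((((E 82) - (E 84)) * ((E 82) - (E 84))) + (((E 82) - (E 84)) * ((E 83) - (E 84)))) + (((E 83) - (E 84)) * ((E 83) - (E 84))))) + (((E 84) - ((π + π) - (E 301))) * (((((1 : ℤ) : ℝ) / ((2 : ℕ) : ℝ)) * ((E 82) + (E 83))) - (E 84)))))))) - (((E 24) * (E 0)) * (((E 83) - (E 82)) * ((E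 322) * (((((1 : ℤ) : ℝ) / ((3 : ℕ) : ℝ)) * (((((E 82) - (E 84)) * ((E 82) - (E 84))) + (((E 82) - (E 84)) * ((E 83) - (E 84)))) + (((E 83) - (E 84)) * ((E 83) - (E 84))))) + (((E 84) - ((π + π) - (E 301))) * (((((1 : ℤ) : ℝ) / ((2 : ℕ) : ℝ)) * ((E 82) + (E 83))) - (E 84))))))) ∧
    E 373 = (((0 : ℤ) : ℝ) / ((1 : ℕ) : ℝ)) - ((E 46) - (E 45)) ∧ True := h.d21

theorem F22 (h : TaH K E p) :
    E 374 = (((0 : ℤ) : ℝ) / ((1 : ℕ) : ℝ)) - (((1 : ℤ) : ℝ) / ((2 : ℕ) : ℝ)) ∧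
    E 375 = (((0 : ℤ) : ℝ) / ((1 : ℕ) : ℝ)) - (((E 24) * (E 0)) * ((E 84) - (E 83))) ∧
    E 376 = (((((((1 : ℤ) : ℝ) / ((1 : ℕ) : ℝ)) * ((E 105) - (E 109))) + ((((1 : ℤ) : ℝ) / ((2 : ℕ) : ℝ)) * (E 181))) - ((((1 : ℤ) : ℝ) / ((2 : ℕ) : ℝ)) * (E 181))) - ((E 24) * ((E 127) - (E 129)))) - (((E 24) * (E 0)) * (((E 84) - (E 83)) * ((E 322) * (((((1 : ℤ) : ℝ) / ((2 : ℕ) : ℝ)) * ((E 83) + (E 84))) - (E 84))))) ∧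
    E 377 = (((0 : ℤ) : ℝ) / ((1 : ℕ) : ℝ)) - (((E 46) - (E 45)) * (((((1 : ℤ) : ℝ) / ((2 : ℕ) : ℝ)) * ((E 45) + (E 46))) - (E 305))) ∧
    E 378 = (((0 : ℤ) : ℝ) / ((1 : ℕ) : ℝ)) - ((((1 : ℤ) : ℝ) / ((6 : ℕ) : ℝ)) * (((E 45) - (E 305)) + (((E 46) - (E 305)) + ((E 46) - (E 305))))) ∧
    E 379 = ((E 74) - (E 73)) * (((((1 : ℤ) : ℝ) / ((2 : ℕ) : ℝ)) * ((E 73) + (E 74))) - (E 303)) ∧
    E 380 = ((((0 : ℤ) : ℝ) / ((1 : ℕ) : ℝ)) - (((E 24) * (E 0)) * (((E 84) - (E 83)) * (((((1 : ℤ) : ℝ) / ((2 : ℕ) : ℝ)) * ((E 83) + (E 84))) - ((π + π) - (E 304)))))) - (((E 24) * (E 0)) * (((E 84) - (E 83)) * (((((1 : ℤ) : ℝ) / ((2 : ℕ) : ℝ)) * ((E 83) + (E 84))) - ((π + π) - (E 304))))) ∧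
    E 381 = ((((((((((1 : ℤ) : ℝ) / ((1 : ℕ) : ℝ)) * (((E 108) - (E 104)) + ((((E 45) - (E 305)) * (E 105)) - (((E 47) - (E 305)) * (E 109))))) + ((E 24) * (((E 128) - (E 126)) + ((((E 56) - (E 304)) * (E 127)) - (((E 57) - (E 304)) * (E 129)))))) + ((E 24) * (((E 128) - (E 126)) + ((((E 56) - (E 304)) * (E 127)) - (((E 57) - (E 304)) * (E 129)))))) - (((((1 : ℤ) : ℝ) / ((6 : ℕ) : ℝ)) * ((((E 46) - (E 305)) + ((E 46) - (E 305))) + ((E 47) - (E 305)))) * (E 181))) - (((((1 : ℤ) : ℝ) / ((6 : ℕ) : ℝ)) * (((E 56) - (E 304)) + (((E 57) - (E 304)) + ((E 57) - (E 304))))) * (E 181))) - (((E 24) * (E 0)) * (((E 84) - (E 83)) * ((E 322) * (((((1 : ℤ) : ℝ) / ((3 : ℕ) : ℝ)) * (((((E 83) - (E 84)) * ((E 83) - (E 84))) + (((E 83) - (E 84)) * ((E 84) - (E 84)))) + (((E 84) - (E 84)) * ((E 84) - (E 84))))) + (((E 84)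 - ((π + π) - (E 304))) * (((((1 : ℤ) : ℝ) / ((2 : ℕ) : ℝ)) * ((E 83) + (E 84))) - (E 84)))))))) - (((((1 : ℤ) : ℝ) / ((6 : ℕ) : ℝ)) * (((E 56) - (E 304)) + (((E 57) - (E 304)) + ((E 57) - (E 304))))) * (E 181))) - (((E 24) * (E 0)) * (((E 84) - (E 83)) * ((E 322) * (((((1 : ℤ) : ℝ) / ((3 : ℕ) : ℝ)) * (((((E 83) - (E 84)) * ((E 83) - (E 84))) + (((E 83) - (E 84)) * ((E 84) - (E 84)))) + (((E 84) - (E 84)) * ((E 84) - (E 84))))) + (((E 84) - ((π + π) - (E 304))) * (((((1 : ℤ) : ℝ) / ((2 : ℕ) : ℝ)) * ((E 83) + (E 84))) - (E 84))))))) ∧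
    E 382 = (E 359)⁻¹ ∧
    E 383 = (E 365) * (E 382) ∧
    E 384 = (E 364) - ((E 383) * (E 358)) ∧
    E 385 = (((0 : ℤ) : ℝ) / ((1 : ℕ) : ℝ)) - ((E 383) * (E 357)) ∧
    E 386 = (E 362) - ((E 383) * (E 360)) ∧
    E 387 = (E 366) - ((E 383) * (E 361)) ∧
    E 388 = (E 371) * (E 382) ∧
    E 389 = (E 370) - ((E 388) * (E 358)) ∧ True := h.d22

theorem F23 (h : TaH K E p) :
    E 390 = (E 367) - ((E 388) * (E 357)) ∧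
    E 391 = (E 368) - ((E 388) * (E 360)) ∧
    E 392 = (E 372) - ((E 388) * (E 361)) ∧
    E 393 = ((((0 : ℤ) : ℝ) / ((1 : ℕ) : ℝ)) - (E 363))⁻¹ ∧
    E 394 = (E 369) * (E 393) ∧
    E 395 = (E 389) + ((E 394) * (E 384)) ∧
    E 396 = (E 390) + ((E 394) * (E 385)) ∧
    E 397 = (E 391) + ((E 394) * (E 386)) ∧
    E 398 = (E 392) + ((E 394) * (E 387)) ∧
    E 399 = (E 379) * (E 393) ∧
    E 400 = (E 380) + ((E 399) * (E 384)) ∧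
    E 401 = (E 377) + ((E 399) * (E 385)) ∧
    E 402 = (E 378) + ((E 399) * (E 386)) ∧
    E 403 = (E 381) + ((E 399) * (E 387)) ∧
    E 404 = ((((0 : ℤ) : ℝ) / ((1 : ℕ) : ℝ)) - (E 373))⁻¹ ∧
    E 405 = (E 396) * (E 404) ∧ True := h.d23

theorem F24 (h : TaH K E p) :
    E 406 = (E 395) + ((E 405) * (E 375)) ∧
    E 407 = (E 397) + ((E 405) * (E 374)) ∧
    E 408 = (E 398) + ((E 405) * (E 376)) ∧
    E 409 = (E 401) * (E 404) ∧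
    E 410 = (E 400) + ((E 409) * (E 375)) ∧
    E 411 = (E 402) + ((E 409) * (E 374)) ∧
    E 412 = (E 403) + ((E 409) * (E 376)) ∧
    E 413 = ((((0 : ℤ) : ℝ) / ((1 : ℕ) : ℝ)) - (E 406))⁻¹ ∧
    E 414 = (E 410) * (E 413) ∧
    E 415 = (E 411) + ((E 414) * (E 407)) ∧
    E 416 = (E 412) + ((E 414) * (E 408)) ∧
    E 417 = ((((0 : ℤ) : ℝ) / ((1 : ℕ) : ℝ)) - (E 415))⁻¹ ∧
    E 418 = (E 417) * (E 416) ∧
    E 419 = (E 413) * ((E 408) + ((E 407) * (E 418))) ∧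
    E 420 = (E 404) * (((E 376) + ((E 374) * (E 418))) + ((E 375) * (E 419))) ∧
    E 421 = (E 393) * ((((E 387) + ((E 384) * (E 419))) + ((E 385) * (E 420))) + ((E 386) * (E 418))) ∧ True := h.d24

theorem F25 (h : TaH K E p) :
    E 422 = (((0 : ℤ) : ℝ) / ((1 : ℕ) : ℝ)) - ((E 382) * ((((E 361) + ((E 357) * (E 420))) + ((E 358) * (E 419))) + ((E 360) * (E 418)))) ∧
    E 423 = (E 43) - (E 39) ∧
    E 424 = ((E 39) - (E 36)) + ((E 36) - (E 35)) ∧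
    E 425 = ((((((((((((E 35) - (E 34)) * (((E 35) - (E 34)) * (E 176))) + ((((E 35) - (E 34)) * (((((1 : ℤ) : ℝ) / ((2 : ℕ) : ℝ)) * ((E 34) + (E 35))) - (E 35))) * (E 176))) + ((((1 : ℤ) : ℝ) / ((2 : ℕ) : ℝ)) * (E 188))) + ((E 24) * ((((E 50) - (E 49)) * (((E 50) - (E 49)) * (E 174))) + ((((E 50) - (E 49)) * (((((1 : ℤ) : ℝ) / ((2 : ℕ) : ℝ)) * ((E 49) + (E 50))) - (E 50))) * (E 174))))) + ((E 24) * (((E 50) - (E 49)) * (E 175)))) + ((E 24) * ((((1 : ℤ) : ℝ) / ((2 : ℕ) : ℝ)) * (E 177)))) + (((E 24) * ((E 51) - (E 50))) * (E 343))) + (((E 24) * (((E 51) - (E 50)) * (((((1 : ℤ) : ℝ) / ((2 : ℕ) : ℝ)) * ((E 50) + (E 51))) - (E 51)))) * (E 342))) + (((E 24) * ((E 49) - (E 48))) * (E 355))) + (((E 24) * ((E 48) - (E 47))) * (E 356))) - ((E 24) * ((E 109) - (E 117))) ∧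
    E 426 = ((E 43) - (E 39)) * (((((1 : ℤ) : ℝ) / ((2 : ℕ) : ℝ)) * ((E 39) + (E 43))) - (E 308)) ∧
    E 427 = (((E 39) - (E 36)) * (((((1 : ℤ) : ℝ) / ((2 : ℕ) : ℝ)) * ((E 36) + (E 39))) - (E 308))) + (((E 36) - (E 35)) * (((((1 : ℤ) : ℝ) / ((2 : ℕ) : ℝ)) * ((E 35) + (E 36))) - (E 308))) ∧
    E 428 = (((((((((((((((((((((((((E 35) - (E 34)) * (((((1 : ℤ) : ℝ) / ((2 : ℕ) : ℝ)) * ((E 34) + (E 35))) - (E 308))) * (((E 35) - (E 34)) * (E 176))) + ((((E 35) - (E 34)) * (((((1 : ℤ) : ℝ) / ((3 : ℕ) : ℝ)) * (((((E 34) - (E 35)) * ((E 34) - (E 35))) + (((E 34) - (E 35)) * ((E 35) - (E 35)))) + (((E 35) - (E 35)) * ((E 35) - (E 35))))) + (((E 35) - (E 308)) * (((((1 : ℤ) : ℝ) / ((2 : ℕ) : ℝ)) * ((E 34) + (E 35))) - (E 35))))) * (E 176))) + ((E 24) * (((E 116) - (E 108)) + ((((E 47) - (E 307)) * (E 109)) - (((E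 51) - (E 307)) * (E 117)))))) + ((E 24) * (((E 116) - (E 108)) + ((((E 47) - (E 307)) * (E 109)) - (((E 51) - (E 307)) * (E 117)))))) + ((((E 84) - (E 83)) * (((((1 : ℤ) : ℝ) / ((2 : ℕ) : ℝ)) * ((E 83) + (E 84))) - (E 306))) * (E 419))) + ((((E 83) - (E 82)) * (((((1 : ℤ) : ℝ) / ((2 : ℕ) : ℝ)) * ((E 82) + (E 83))) - (E 306))) * (E 419))) + ((((E 83) - (E 82)) * (((((1 : ℤ) : ℝ) / ((3 : ℕ) : ℝ)) * (((((E 82) - (E 83)) * ((E 82) - (E 83))) + (((E 82) - (E 83)) * ((E 83) - (E 83)))) + (((E 83) - (E 83)) * ((E 83) - (E 83))))) + (((E 83) - (E 306)) * (((((1 : ℤ) : ℝ) / ((2 : ℕ) : ℝ)) * ((E 82) + (E 83))) - (E 83))))) * (E 422))) - (((((1 : ℤ) : ℝ) / ((6 : ℕ) : ℝ)) * ((((E 48) - (E 307)) + ((E 48) - (E 307))) + ((E 51) - (E 307)))) * (E 188))) - ((E 24) * (((((E 50) - (E 49)) * (((((1 : ℤ) : ℝ) / ((2 : ℕ) :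 ℝ)) * ((E 49) + (E 50))) - (E 307))) * (((E 50) - (E 49)) * (E 174))) + ((((E 50) - (E 49)) * (((((1 : ℤ) : ℝ) / ((3 : ℕ) : ℝ)) * (((((E 49) - (E 50)) * ((E 49) - (E 50))) + (((E 49) - (E 50)) * ((E 50) - (E 50)))) + (((E 50) - (E 50)) * ((E 50) - (E 50))))) + (((E 50) - (E 307)) * (((((1 : ℤ) : ℝ) / ((2 : ℕ) : ℝ)) * ((E 49) + (E 50))) - (E 50))))) * (E 174))))) - ((E 24) * ((((E 50) - (E 49)) * (((((1 : ℤ) : ℝ) / ((2 : ℕ) : ℝ)) * ((E 49) + (E 50))) - (E 307))) * (E 175)))) - ((E 24) * (((((1 : ℤ) : ℝ) / ((6 : ℕ) : ℝ)) * ((((E 47) - (E 307)) + ((E 47) - (E 307))) + ((E 50) - (E 307)))) * (E 177)))) - (((((1 : ℤ) : ℝ) / ((6 : ℕ) : ℝ)) * ((((E 48) - (E 307)) + ((E 48) - (E 307))) + ((E 51) - (E 307)))) * (E 188))) - ((E 24) * (((((E 50) - (E 49)) * (((((1 : ℤ) : ℝ) / ((2 : ℕ) : ℝ)) * ((E 49) + (E 50))) -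 (E 307))) * (((E 50) - (E 49)) * (E 174))) + ((((E 50) - (E 49)) * (((((1 : ℤ) : ℝ) / ((3 : ℕ) : ℝ)) * (((((E 49) - (E 50)) * ((E 49) - (E 50))) + (((E 49) - (E 50)) * ((E 50) - (E 50)))) + (((E 50) - (E 50)) * ((E 50) - (E 50))))) + (((E 50) - (E 307)) * (((((1 : ℤ) : ℝ) / ((2 : ℕ) : ℝ)) * ((E 49) + (E 50))) - (E 50))))) * (E 174))))) - ((E 24) * ((((E 50) - (E 49)) * (((((1 : ℤ) : ℝ) / ((2 : ℕ) : ℝ)) * ((E 49) + (E 50))) - (E 307))) * (E 175)))) - ((E 24) * (((((1 : ℤ) : ℝ) / ((6 : ℕ) : ℝ)) * ((((E 47) - (E 307)) + ((E 47) - (E 307))) + ((E 50) - (E 307)))) * (E 177)))) - (((E 24) * (((E 51) - (E 50)) * (((((1 : ℤ) : ℝ) / ((2 : ℕ) : ℝ)) * ((E 50) + (E 51))) - (E 307)))) * (E 343))) - (((E 24) * (((E 51) - (E 50)) * (((((1 : ℤ) : ℝ) / ((2 : ℕ) : ℝ)) * ((E 50) + (E 51))) - (E 307)))) * (E 343))) - (((E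 24) * (((E 51) - (E 50)) * (((((1 : ℤ) : ℝ) / ((3 : ℕ) : ℝ)) * (((((E 50) - (E 51)) * ((E 50) - (E 51))) + (((E 50) - (E 51)) * ((E 51) - (E 51)))) + (((E 51) - (E 51)) * ((E 51) - (E 51))))) + (((E 51) - (E 307)) * (((((1 : ℤ) : ℝ) / ((2 : ℕ) : ℝ)) * ((E 50) + (E 51))) - (E 51)))))) * (E 342))) - (((E 24) * (((E 51) - (E 50)) * (((((1 : ℤ) : ℝ) / ((3 : ℕ) : ℝ)) * (((((E 50) - (E 51)) * ((E 50) - (E 51))) + (((E 50) - (E 51)) * ((E 51) - (E 51)))) + (((E 51) - (E 51)) * ((E 51) - (E 51))))) + (((E 51) - (E 307)) * (((((1 : ℤ) : ℝ) / ((2 : ℕ) : ℝ)) * ((E 50) + (E 51))) - (E 51)))))) * (E 342))) - (((E 24) * (((E 49) - (E 48)) * (((((1 : ℤ) : ℝ) / ((2 : ℕ) : ℝ)) * ((E 48) + (E 49))) - (E 307)))) * (E 355))) - (((E 24) * (((E 49) - (E 48)) * (((((1 : ℤ) : ℝ) / ((2 : ℕ) : ℝ)) * ((E 48) + (E 49))) - (E 307))))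 * (E 355))) - (((E 24) * (((E 48) - (E 47)) * (((((1 : ℤ) : ℝ) / ((2 : ℕ) : ℝ)) * ((E 47) + (E 48))) - (E 307)))) * (E 356))) - (((E 24) * (((E 48) - (E 47)) * (((((1 : ℤ) : ℝ) / ((2 : ℕ) : ℝ)) * ((E 47) + (E 48))) - (E 307)))) * (E 356)) ∧
    E 429 = (E 423)⁻¹ ∧
    E 430 = (E 426) * (E 429) ∧
    E 431 = (E 427) - ((E 430) * (E 424)) ∧
    E 432 = (E 428) - ((E 430) * (E 425)) ∧
    E 433 = ((((0 : ℤ) : ℝ) / ((1 : ℕ) : ℝ)) - (E 431))⁻¹ ∧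
    E 434 = (E 433) * (E 432) ∧
    E 435 = (((0 : ℤ) : ℝ) / ((1 : ℕ) : ℝ)) - ((E 429) * ((E 425) + ((E 424) * (E 434)))) ∧
    E 436 = ((E 36) - (E 35)) + ((E 36) - (E 35)) ∧
    E 437 = (((((((((((((((((((((((((((((((((((((((((((((((((((((((((((((((((((((((((((((1 : ℤ) : ℝ) / ((1 : ℕ) : ℝ)) * ((E 87) - (E 105))) + (((E 35) - (E 34)) * (((E 35) - (E 34)) * (E 176)))) + ((((E 35) - (E 34)) * (((((1 : ℤ) : ℝ) / ((2 : ℕ) : ℝ)) * ((E 34) + (E 35))) - (E 35))) * (E 176))) + (((E 36) - (E 34)) * ((E 324) * (((((1 : ℤ) : ℝ) / ((2 : ℕ) : ℝ)) * ((E 34) + (E 36))) - (E 34))))) + (((E 36) - (E 35)) * (((E 259) * (E 261)) + ((E 326) * (((((1 : ℤ) : ℝ) / ((2 : ℕ) : ℝ)) * ((E 35) + (E 36))) - (E 35)))))) + ((((1 : ℤ) : ℝ) / ((2 : ℕ) : ℝ)) * ((E 263) + (E 264)))) + ((((1 : ℤ) : ℝ) / ((2 : ℕ) : ℝ)) * ((E 239) + (E 240))))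 + ((((1 : ℤ) : ℝ) / ((2 : ℕ) : ℝ)) * ((E 263) + (E 264)))) + ((((1 : ℤ) : ℝ) / ((2 : ℕ) : ℝ)) * (E 283))) + ((((1 : ℤ) : ℝ) / ((2 : ℕ) : ℝ)) * (E 288))) + ((((1 : ℤ) : ℝ) / ((2 : ℕ) : ℝ)) * (E 290))) + ((((1 : ℤ) : ℝ) / ((2 : ℕ) : ℝ)) * ((E 260) + (E 259)))) + ((((1 : ℤ) : ℝ) / ((2 : ℕ) : ℝ)) * ((E 268) + (E 269)))) + ((((1 : ℤ) : ℝ) / ((2 : ℕ) : ℝ)) * (E 273))) + ((((1 : ℤ) : ℝ) / ((2 : ℕ) : ℝ)) * (E 275))) + ((((1 : ℤ) : ℝ) / ((2 : ℕ) : ℝ)) * (E 279))) + ((((1 : ℤ) : ℝ) / ((2 : ℕ) : ℝ)) * (E 221))) + ((((1 : ℤ) : ℝ) / ((2 : ℕ) : ℝ)) * ((E 227) + (E 228)))) + ((((1 : ℤ) : ℝ) / ((2 : ℕ) : ℝ)) * (E 234))) + ((((1 : ℤ) : ℝ) / ((2 : ℕ) : ℝ)) * (E 247))) + ((((1 : ℤ) : ℝ) / ((2 : ℕ) : ℝ)) * ((E 252) + (E 253)))) + ((((1 : ℤ) : ℝ) / ((2 : ℕ) : ℝ)) * (E 270))) + ((((1 : ℤ) : ℝ) / ((2 : ℕ) : ℝ)) * (E 277))) +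 ((((1 : ℤ) : ℝ) / ((2 : ℕ) : ℝ)) * (E 281))) + ((((1 : ℤ) : ℝ) / ((2 : ℕ) : ℝ)) * (E 286))) + ((((1 : ℤ) : ℝ) / ((2 : ℕ) : ℝ)) * ((E 256) + (E 257)))) + ((((1 : ℤ) : ℝ) / ((2 : ℕ) : ℝ)) * ((E 205) + (E 206)))) + ((((1 : ℤ) : ℝ) / ((2 : ℕ) : ℝ)) * (E 216))) + ((((1 : ℤ) : ℝ) / ((2 : ℕ) : ℝ)) * ((E 231) + (E 232)))) + ((((1 : ℤ) : ℝ) / ((2 : ℕ) : ℝ)) * (E 236))) + ((((1 : ℤ) : ℝ) / ((2 : ℕ) : ℝ)) * ((E 250) + (E 249)))) + ((((1 : ℤ) : ℝ) / ((2 : ℕ) : ℝ)) * (E 244))) + ((((1 : ℤ) : ℝ) / ((2 : ℕ) : ℝ)) * ((E 200) + (E 201)))) + ((((1 : ℤ) : ℝ) / ((2 : ℕ) : ℝ)) * (E 213))) + ((((1 : ℤ) : ℝ) / ((2 : ℕ) : ℝ)) * (E 219))) + ((((1 : ℤ) : ℝ) / ((2 : ℕ) : ℝ)) * (E 224))) + ((((1 : ℤ) : ℝ) / ((2 : ℕ) : ℝ)) * (E 209))) + ((((1 : ℤ) : ℝ) / ((2 : ℕ) : ℝ)) * ((E 196) + (E 197)))) + ((((1 : ℤ) : ℝ) / ((2 : ℕ) : ℝ)) * (E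 192))) + (((E 36) - (E 35)) * (E 434))) - ((((1 : ℤ) : ℝ) / ((2 : ℕ) : ℝ)) * (E 192))) - ((((1 : ℤ) : ℝ) / ((2 : ℕ) : ℝ)) * ((E 197) + (E 196)))) - ((((1 : ℤ) : ℝ) / ((2 : ℕ) : ℝ)) * ((E 201) + (E 200)))) - ((((1 : ℤ) : ℝ) / ((2 : ℕ) : ℝ)) * ((E 206) + (E 205)))) - (((E 44) - (E 36)) * ((E 324) * (((((1 : ℤ) : ℝ) / ((2 : ℕ) : ℝ)) * ((E 36) + (E 44))) - (E 34))))) - ((((1 : ℤ) : ℝ) / ((2 : ℕ) : ℝ)) * (E 209))) - ((((1 : ℤ) : ℝ) / ((2 : ℕ) : ℝ)) * (E 213))) - ((((1 : ℤ) : ℝ) / ((2 : ℕ) : ℝ)) * (E 224))) - ((((1 : ℤ) : ℝ) / ((2 : ℕ) : ℝ)) * ((E 228) + (E 227)))) - ((((1 : ℤ) : ℝ) / ((2 : ℕ) : ℝ)) * (E 216))) - ((((1 : ℤ) : ℝ) / ((2 : ℕ) : ℝ)) * (E 219))) - ((((1 : ℤ) : ℝ) / ((2 : ℕ) : ℝ)) * ((E 232) + (E 231)))) - ((((1 : ℤ) : ℝ) / ((2 : ℕ) : ℝ)) * (E 236))) - ((((1 : ℤ) : ℝ) / ((2 : ℕ) : ℝ)) * (E 244)))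 - ((((1 : ℤ) : ℝ) / ((2 : ℕ) : ℝ)) * (E 247))) - ((((1 : ℤ) : ℝ) / ((2 : ℕ) : ℝ)) * (E 221))) - ((((1 : ℤ) : ℝ) / ((2 : ℕ) : ℝ)) * (E 234))) - ((((1 : ℤ) : ℝ) / ((2 : ℕ) : ℝ)) * ((E 250) + (E 249)))) - ((((1 : ℤ) : ℝ) / ((2 : ℕ) : ℝ)) * ((E 253) + (E 252)))) - ((((1 : ℤ) : ℝ) / ((2 : ℕ) : ℝ)) * ((E 257) + (E 256)))) - ((((1 : ℤ) : ℝ) / ((2 : ℕ) : ℝ)) * ((E 240) + (E 239)))) - ((((1 : ℤ) : ℝ) / ((2 : ℕ) : ℝ)) * (E 279))) - ((((1 : ℤ) : ℝ) / ((2 : ℕ) : ℝ)) * (E 281))) - ((((1 : ℤ) : ℝ) / ((2 : ℕ) : ℝ)) * (E 286))) - ((((1 : ℤ) : ℝ) / ((2 : ℕ) : ℝ)) * (E 270))) - ((((1 : ℤ) : ℝ) / ((2 : ℕ) : ℝ)) * (E 277))) - ((((1 : ℤ) : ℝ) / ((2 : ℕ) : ℝ)) * (E 288))) - (((E 37) - (E 36)) * (((E 260) * (E 261)) + ((E 326) * (((((1 : ℤ) : ℝ) / ((2 : ℕ) : ℝ)) * ((E 36) + (E 37))) - (E 37)))))) - ((((1 : ℤ) : ℝ) / ((2 : ℕ)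 : ℝ)) * (E 273))) - ((((1 : ℤ) : ℝ) / ((2 : ℕ) : ℝ)) * (E 275))) - ((((1 : ℤ) : ℝ) / ((2 : ℕ) : ℝ)) * (E 283))) - ((((1 : ℤ) : ℝ) / ((2 : ℕ) : ℝ)) * (E 290))) - ((E 24) * ((E 131) - (E 151)))) - (((E 43) - (E 39)) * (E 435))) - (((E 39) - (E 36)) * (E 434)) ∧ True := h.d25

theorem F26 (h : TaH K E p) :
    E 438 = (E 436)⁻¹ ∧
    E 439 = (((0 : ℤ) : ℝ) / ((1 : ℕ) : ℝ)) - ((E 438) * (E 437)) ∧
    E 440 = (E 52) - (E 51) ∧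
    E 441 = ((1 : ℤ) : ℝ) / ((2 : ℕ) : ℝ) ∧
    E 442 = (((0 : ℤ) : ℝ) / ((1 : ℕ) : ℝ)) - ((E 24) * ((E 121) - (E 123))) ∧
    E 443 = (((1 : ℤ) : ℝ) / ((2 : ℕ) : ℝ)) - (((1 : ℤ) : ℝ) / ((2 : ℕ) : ℝ)) ∧
    E 444 = (((0 : ℤ) : ℝ) / ((1 : ℕ) : ℝ)) - ((E 78) - (E 77)) ∧
    E 445 = ((E 23) * ((E 167) - (E 171))) - ((E 24) * ((E 121) - (E 123))) ∧
    E 446 = ((E 52) - (E 51)) * (((((1 : ℤ) : ℝ) / ((2 : ℕ) : ℝ)) * ((E 51) + (E 52))) - (E 314)) ∧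
    E 447 = (((((0 : ℤ) : ℝ) / ((1 : ℕ) : ℝ)) - ((((1 : ℤ) : ℝ) / ((6 : ℕ) : ℝ)) * ((((E 76) - (E 312)) + ((E 76) - (E 312))) + ((E 77) - (E 312))))) - ((((1 : ℤ) : ℝ) / ((6 : ℕ) : ℝ)) * (((E 53) - (E 313)) + (((E 54) - (E 313)) + ((E 54) - (E 313)))))) - ((((1 : ℤ) : ℝ) / ((6 : ℕ) : ℝ)) * (((E 53) - (E 313)) + (((E 54) - (E 313)) + ((E 54) - (E 313))))) ∧
    E 448 = (((0 : ℤ) : ℝ) / ((1 : ℕ) : ℝ)) - (((E 78) - (E 77)) * (((((1 : ℤ) : ℝ) / ((2 : ℕ) : ℝ)) * ((E 77) + (E 78))) - (E 312))) ∧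
    E 449 = (((E 23) * (((E 170) - (E 166)) + ((((E 76) - (E 312)) * (E 167)) - (((E 78) - (E 312)) * (E 171))))) + ((E 24) * (((E 122) - (E 120)) + ((((E 53) - (E 313)) * (E 121)) - (((E 54) - (E 313)) * (E 123)))))) + ((E 24) * (((E 122) - (E 120)) + ((((E 53) - (E 313)) * (E 121)) - (((E 54) - (E 313)) * (E 123))))) ∧
    E 450 = (E 52) - (E 51) ∧
    E 451 = (((0 : ℤ) : ℝ) / ((1 : ℕ) : ℝ)) - ((E 53) - (E 52)) ∧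
    E 452 = ((0 : ℤ) : ℝ) / ((1 : ℕ) : ℝ) ∧
    E 453 = ((E 80) - (E 79)) + ((E 80) - (E 79)) ∧ True := h.d26

theorem F27 (h : TaH K E p) :
    E 454 = ((E 80) - (E 79)) - ((E 79) - (E 78)) ∧
    E 455 = (((0 : ℤ) : ℝ) / ((1 : ℕ) : ℝ)) - ((E 53) - (E 52)) ∧
    E 456 = (E 23) * ((E 171) - (E 173)) ∧
    E 457 = ((E 52) - (E 51)) * (((((1 : ℤ) : ℝ) / ((2 : ℕ) : ℝ)) * ((E 51) + (E 52))) - (E 317)) ∧
    E 458 = (((E 80) - (E 79)) * (((((1 : ℤ) : ℝ) / ((2 : ℕ) : ℝ)) * ((E 79) + (E 80))) - (E 315))) - (((E 80) - (E 79)) * (((((1 : ℤ) : ℝ) / ((2 : ℕ) : ℝ)) * ((E 79) + (E 80))) - ((π + π) - (E 315)))) ∧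
    E 459 = ((((0 : ℤ) : ℝ) / ((1 : ℕ) : ℝ)) - (((E 80) - (E 79)) * (((((1 : ℤ) : ℝ) / ((2 : ℕ) : ℝ)) * ((E 79) + (E 80))) - ((π + π) - (E 315))))) - (((E 79) - (E 78)) * (((((1 : ℤ) : ℝ) / ((2 : ℕ) : ℝ)) * ((E 78) + (E 79))) - (E 315))) ∧
    E 460 = (((E 53) - (E 52)) * (((((1 : ℤ) : ℝ) / ((2 : ℕ) : ℝ)) * ((E 52) + (E 53))) - (E 316))) + (((E 53) - (E 52)) * (((((1 : ℤ) : ℝ) / ((2 : ℕ) : ℝ)) * ((E 52) + (E 53))) - (E 316))) ∧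
    E 461 = (E 23) * (((E 172) - (E 170)) + ((((E 78) - (E 315)) * (E 171)) - (((E 79) - (E 315)) * (E 173)))) ∧
    E 462 = ((E 80) - (E 79)) + ((E 79) - (E 78)) ∧
    E 463 = (E 78) - (E 77) ∧
    E 464 = (E 53) - (E 52) ∧
    E 465 = (((0 : ℤ) : ℝ) / ((1 : ℕ) : ℝ)) - ((E 24) * ((E 119) - (E 121))) ∧
    E 466 = (E 440)⁻¹ ∧
    E 467 = (E 446) * (E 466) ∧
    E 468 = (E 447) - ((E 467) * (E 441)) ∧
    E 469 = (E 449) - ((E 467) * (E 442)) ∧ True := h.d27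

theorem F28 (h : TaH K E p) :
    E 470 = ((((0 : ℤ) : ℝ) / ((1 : ℕ) : ℝ)) - (E 468))⁻¹ ∧
    E 471 = (E 443) * (E 470) ∧
    E 472 = (E 444) + ((E 471) * (E 448)) ∧
    E 473 = (E 445) + ((E 471) * (E 469)) ∧
    E 474 = ((((0 : ℤ) : ℝ) / ((1 : ℕ) : ℝ)) - (E 472))⁻¹ ∧
    E 475 = (E 463) * (E 474) ∧
    E 476 = (E 465) + ((E 475) * (E 473)) ∧
    E 477 = (E 450)⁻¹ ∧
    E 478 = (E 457) * (E 477) ∧
    E 479 = (E 460) - ((E 478) * (E 451)) ∧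
    E 480 = (E 461) - ((E 478) * (E 452)) ∧
    E 481 = (E 453)⁻¹ ∧
    E 482 = (E 458) * (E 481) ∧
    E 483 = (E 479) - ((E 482) * (E 455)) ∧
    E 484 = (E 459) - ((E 482) * (E 454)) ∧
    E 485 = (E 480) - ((E 482) * (E 456)) ∧ True := h.d28

theorem F29 (h : TaH K E p) :
    E 486 = (E 464)⁻¹ ∧
    E 487 = (E 483) * (E 486) ∧
    E 488 = (E 484) - ((E 487) * (E 462)) ∧
    E 489 = (E 485) - ((E 487) * (E 476)) ∧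
    E 490 = ((((0 : ℤ) : ℝ) / ((1 : ℕ) : ℝ)) - (E 488))⁻¹ ∧
    E 491 = (E 490) * (E 489) ∧
    E 492 = (((0 : ℤ) : ℝ) / ((1 : ℕ) : ℝ)) - ((E 486) * ((E 476) + ((E 462) * (E 491)))) ∧
    E 493 = (((0 : ℤ) : ℝ) / ((1 : ℕ) : ℝ)) - ((E 481) * (((E 456) + ((E 454) * (E 491))) + ((E 455) * (E 492)))) ∧
    E 494 = (((0 : ℤ) : ℝ) / ((1 : ℕ) : ℝ)) - ((E 477) * ((E 452) + ((E 451) * (E 492)))) ∧
    E 495 = (E 474) * (E 473) ∧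
    E 496 = (E 470) * ((E 469) + ((E 448) * (E 495))) ∧
    E 497 = (((0 : ℤ) : ℝ) / ((1 : ℕ) : ℝ)) - ((E 466) * ((E 442) + ((E 441) * (E 496)))) ∧
    E 498 = (E 178) * (E 178) ∧
    E 499 = (((0 : ℤ) : ℝ) / ((1 : ℕ) : ℝ)) - ((E 177) * ((E 178) * (E 178))) ∧
    E 500 = (E 179) * (E 179) ∧
    E 501 = (((0 : ℤ) : ℝ) / ((1 : ℕ) : ℝ)) - ((E 177) * ((E 179) * (E 179))) ∧ True := h.d29

theorem F30 (h : TaH K E p) :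
    E 502 = (E 180) * (E 180) ∧
    E 503 = (E 177) * ((E 180) * (E 180)) ∧
    E 504 = (E 182) * (E 182) ∧
    E 505 = (((0 : ℤ) : ℝ) / ((1 : ℕ) : ℝ)) - ((E 181) * ((E 182) * (E 182))) ∧
    E 506 = (E 183) * (E 183) ∧
    E 507 = (((0 : ℤ) : ℝ) / ((1 : ℕ) : ℝ)) - ((E 181) * ((E 183) * (E 183))) ∧
    E 508 = (E 184) * (E 184) ∧
    E 509 = (E 181) * ((E 184) * (E 184)) ∧
    E 510 = (E 185) * (E 185) ∧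
    E 511 = (E 418) * ((E 185) * (E 185)) ∧
    E 512 = (E 186) * (E 186) ∧
    E 513 = (E 418) * ((E 186) * (E 186)) ∧
    E 514 = (E 187) * (E 187) ∧
    E 515 = (((0 : ℤ) : ℝ) / ((1 : ℕ) : ℝ)) - ((E 418) * ((E 187) * (E 187))) ∧
    E 516 = (E 191) * (E 191) ∧
    E 517 = (((0 : ℤ) : ℝ) / ((1 : ℕ) : ℝ)) - ((E 188) * ((E 191) * (E 191))) ∧ True := h.d30

theorem F31 (h : TaH K E p) :
    E 518 = (E 193) * (E 193) ∧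
    E 519 = (((0 : ℤ) : ℝ) / ((1 : ℕ) : ℝ)) - ((E 192) * ((E 193) * (E 193))) ∧
    E 520 = (E 194) * (E 194) ∧
    E 521 = (((0 : ℤ) : ℝ) / ((1 : ℕ) : ℝ)) - ((E 192) * ((E 194) * (E 194))) ∧
    E 522 = (E 195) * (E 195) ∧
    E 523 = (E 192) * ((E 195) * (E 195)) ∧
    E 524 = ((E 196) - (E 197)) * ((E 193) * (E 193)) ∧
    E 525 = (E 198) * (E 198) ∧
    E 526 = ((E 196) - (E 197)) * ((E 198) * (E 198)) ∧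
    E 527 = (E 199) * (E 199) ∧
    E 528 = ((E 197) - (E 196)) * ((E 199) * (E 199)) ∧
    E 529 = (E 202) * (E 202) ∧
    E 530 = ((E 200) - (E 201)) * ((E 202) * (E 202)) ∧
    E 531 = (E 203) * (E 203) ∧
    E 532 = ((E 200) - (E 201)) * ((E 203) * (E 203)) ∧
    E 533 = (E 204) * (E 204) ∧ True := h.d31

theorem F32 (h : TaH K E p) :
    E 534 = ((E 201) - (E 200)) * ((E 204) * (E 204)) ∧
    E 535 = (E 207) * (E 207) ∧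
    E 536 = ((E 205) - (E 206)) * ((E 207) * (E 207)) ∧
    E 537 = ((E 205) - (E 206)) * ((E 203) * (E 203)) ∧
    E 538 = (E 208) * (E 208) ∧
    E 539 = ((E 206) - (E 205)) * ((E 208) * (E 208)) ∧
    E 540 = (E 210) * (E 210) ∧
    E 541 = (((0 : ℤ) : ℝ) / ((1 : ℕ) : ℝ)) - ((E 209) * ((E 210) * (E 210))) ∧
    E 542 = (E 211) * (E 211) ∧
    E 543 = (((0 : ℤ) : ℝ) / ((1 : ℕ) : ℝ)) - ((E 209) * ((E 211) * (E 211))) ∧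
    E 544 = (E 212) * (E 212) ∧
    E 545 = (E 209) * ((E 212) * (E 212)) ∧
    E 546 = (E 213) * ((E 210) * (E 210)) ∧
    E 547 = (E 214) * (E 214) ∧
    E 548 = (E 213) * ((E 214) * (E 214)) ∧
    E 549 = (E 215) * (E 215) ∧ True := h.d32

theorem F33 (h : TaH K E p) :
    E 550 = (((0 : ℤ) : ℝ) / ((1 : ℕ) : ℝ)) - ((E 213) * ((E 215) * (E 215))) ∧
    E 551 = (E 217) * (E 217) ∧
    E 552 = (E 216) * ((E 217) * (E 217)) ∧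
    E 553 = (E 216) * ((E 214) * (E 214)) ∧
    E 554 = (E 218) * (E 218) ∧
    E 555 = (((0 : ℤ) : ℝ) / ((1 : ℕ) : ℝ)) - ((E 216) * ((E 218) * (E 218))) ∧
    E 556 = (E 219) * ((E 217) * (E 217)) ∧
    E 557 = (((0 : ℤ) : ℝ) / ((1 : ℕ) : ℝ)) - ((E 219) * ((E 214) * (E 214))) ∧
    E 558 = (E 220) * (E 220) ∧
    E 559 = (E 219) * ((E 220) * (E 220)) ∧
    E 560 = (E 222) * (E 222) ∧
    E 561 = (E 221) * ((E 222) * (E 222)) ∧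
    E 562 = (E 221) * ((E 214) * (E 214)) ∧
    E 563 = (E 223) * (E 223) ∧
    E 564 = (((0 : ℤ) : ℝ) / ((1 : ℕ) : ℝ)) - ((E 221) * ((E 223) * (E 223))) ∧
    E 565 = (E 224) * ((E 210) * (E 210)) ∧ True := h.d33

theorem F34 (h : TaH K E p) :
    E 566 = (E 225) * (E 225) ∧
    E 567 = (E 224) * ((E 225) * (E 225)) ∧
    E 568 = (E 226) * (E 226) ∧
    E 569 = (((0 : ℤ) : ℝ) / ((1 : ℕ) : ℝ)) - ((E 224) * ((E 226) * (E 226))) ∧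
    E 570 = (E 229) * (E 229) ∧
    E 571 = ((E 227) - (E 228)) * ((E 229) * (E 229)) ∧
    E 572 = ((E 227) - (E 228)) * ((E 225) * (E 225)) ∧
    E 573 = (E 230) * (E 230) ∧
    E 574 = ((E 228) - (E 227)) * ((E 230) * (E 230)) ∧
    E 575 = ((E 231) - (E 232)) * ((E 217) * (E 217)) ∧
    E 576 = ((E 231) - (E 232)) * ((E 225) * (E 225)) ∧
    E 577 = (E 233) * (E 233) ∧
    E 578 = ((E 232) - (E 231)) * ((E 233) * (E 233)) ∧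
    E 579 = (E 234) * ((E 222) * (E 222)) ∧
    E 580 = (E 234) * ((E 225) * (E 225)) ∧
    E 581 = (E 235) * (E 235) ∧ True := h.d34

theorem F35 (h : TaH K E p) :
    E 582 = (((0 : ℤ) : ℝ) / ((1 : ℕ) : ℝ)) - ((E 234) * ((E 235) * (E 235))) ∧
    E 583 = (E 237) * (E 237) ∧
    E 584 = (((0 : ℤ) : ℝ) / ((1 : ℕ) : ℝ)) - ((E 236) * ((E 237) * (E 237))) ∧
    E 585 = (E 236) * ((E 225) * (E 225)) ∧
    E 586 = (E 238) * (E 238) ∧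
    E 587 = (E 236) * ((E 238) * (E 238)) ∧
    E 588 = (E 241) * (E 241) ∧
    E 589 = ((E 239) - (E 240)) * ((E 241) * (E 241)) ∧
    E 590 = (E 242) * (E 242) ∧
    E 591 = ((E 240) - (E 239)) * ((E 242) * (E 242)) ∧
    E 592 = (E 243) * (E 243) ∧
    E 593 = ((E 240) - (E 239)) * ((E 243) * (E 243)) ∧
    E 594 = (E 245) * (E 245) ∧
    E 595 = (((0 : ℤ) : ℝ) / ((1 : ℕ) : ℝ)) - ((E 244) * ((E 245) * (E 245))) ∧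
    E 596 = (E 244) * ((E 214) * (E 214)) ∧
    E 597 = (E 246) * (E 246) ∧ True := h.d35

theorem F36 (h : TaH K E p) :
    E 598 = (E 244) * ((E 246) * (E 246)) ∧
    E 599 = (E 248) * (E 248) ∧
    E 600 = (E 247) * ((E 248) * (E 248)) ∧
    E 601 = (((0 : ℤ) : ℝ) / ((1 : ℕ) : ℝ)) - ((E 247) * ((E 225) * (E 225))) ∧
    E 602 = (((0 : ℤ) : ℝ) / ((1 : ℕ) : ℝ)) - ((E 247) * ((E 235) * (E 235))) ∧
    E 603 = ((E 249) - (E 250)) * ((E 222) * (E 222)) ∧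
    E 604 = ((E 250) - (E 249)) * ((E 214) * (E 214)) ∧
    E 605 = (E 251) * (E 251) ∧
    E 606 = ((E 249) - (E 250)) * ((E 251) * (E 251)) ∧
    E 607 = (E 254) * (E 254) ∧
    E 608 = ((E 252) - (E 253)) * ((E 254) * (E 254)) ∧
    E 609 = ((E 253) - (E 252)) * ((E 225) * (E 225)) ∧
    E 610 = (E 255) * (E 255) ∧
    E 611 = ((E 253) - (E 252)) * ((E 255) * (E 255)) ∧
    E 612 = ((E 256) - (E 257)) * ((E 222) * (E 222)) ∧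
    E 613 = ((E 257) - (E 256)) * ((E 225) * (E 225)) ∧ True := h.d36

theorem F37 (h : TaH K E p) :
    E 614 = (E 258) * (E 258) ∧
    E 615 = ((E 257) - (E 256)) * ((E 258) * (E 258)) ∧
    E 616 = ((E 259) - (E 260)) * ((E 194) * (E 194)) ∧
    E 617 = (E 262) * (E 262) ∧
    E 618 = ((E 259) - (E 260)) * ((E 262) * (E 262)) ∧
    E 619 = (E 265) * (E 265) ∧
    E 620 = ((E 264) - (E 263)) * ((E 265) * (E 265)) ∧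
    E 621 = (E 266) * (E 266) ∧
    E 622 = ((E 263) - (E 264)) * ((E 266) * (E 266)) ∧
    E 623 = (E 267) * (E 267) ∧
    E 624 = ((E 264) - (E 263)) * ((E 267) * (E 267)) ∧
    E 625 = ((E 268) - (E 269)) * ((E 194) * (E 194)) ∧
    E 626 = ((E 269) - (E 268)) * ((E 262) * (E 262)) ∧
    E 627 = (E 271) * (E 271) ∧
    E 628 = (((0 : ℤ) : ℝ) / ((1 : ℕ) : ℝ)) - ((E 270) * ((E 271) * (E 271))) ∧
    E 629 = (E 270) * ((E 194) * (E 194)) ∧ True := h.d37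

theorem F38 (h : TaH K E p) :
    E 630 = (E 272) * (E 272) ∧
    E 631 = (E 270) * ((E 272) * (E 272)) ∧
    E 632 = (E 274) * (E 274) ∧
    E 633 = (E 273) * ((E 274) * (E 274)) ∧
    E 634 = (((0 : ℤ) : ℝ) / ((1 : ℕ) : ℝ)) - ((E 273) * ((E 198) * (E 198))) ∧
    E 635 = (E 273) * ((E 262) * (E 262)) ∧
    E 636 = (((0 : ℤ) : ℝ) / ((1 : ℕ) : ℝ)) - ((E 275) * ((E 274) * (E 274))) ∧
    E 637 = (((0 : ℤ) : ℝ) / ((1 : ℕ) : ℝ)) - ((E 275) * ((E 194) * (E 194))) ∧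
    E 638 = (E 276) * (E 276) ∧
    E 639 = (E 275) * ((E 276) * (E 276)) ∧
    E 640 = (E 278) * (E 278) ∧
    E 641 = (E 277) * ((E 278) * (E 278)) ∧
    E 642 = (((0 : ℤ) : ℝ) / ((1 : ℕ) : ℝ)) - ((E 277) * ((E 198) * (E 198))) ∧
    E 643 = (E 277) * ((E 272) * (E 272)) ∧
    E 644 = (E 280) * (E 280) ∧
    E 645 = (E 279) * ((E 280) * (E 280)) ∧ True := h.d38

theorem F39 (h : TaH K E p) :
    E 646 = (((0 : ℤ) : ℝ) / ((1 : ℕ) : ℝ)) - ((E 279) * ((E 211) * (E 211))) ∧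
    E 647 = (((0 : ℤ) : ℝ) / ((1 : ℕ) : ℝ)) - ((E 279) * ((E 276) * (E 276))) ∧
    E 648 = (E 282) * (E 282) ∧
    E 649 = (E 281) * ((E 282) * (E 282)) ∧
    E 650 = (((0 : ℤ) : ℝ) / ((1 : ℕ) : ℝ)) - ((E 281) * ((E 211) * (E 211))) ∧
    E 651 = (((0 : ℤ) : ℝ) / ((1 : ℕ) : ℝ)) - ((E 281) * ((E 272) * (E 272))) ∧
    E 652 = (E 283) * ((E 274) * (E 274)) ∧
    E 653 = (E 284) * (E 284) ∧
    E 654 = (E 283) * ((E 284) * (E 284)) ∧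
    E 655 = (E 285) * (E 285) ∧
    E 656 = (((0 : ℤ) : ℝ) / ((1 : ℕ) : ℝ)) - ((E 283) * ((E 285) * (E 285))) ∧
    E 657 = (E 287) * (E 287) ∧
    E 658 = (E 286) * ((E 287) * (E 287)) ∧
    E 659 = (((0 : ℤ) : ℝ) / ((1 : ℕ) : ℝ)) - ((E 286) * ((E 214) * (E 214))) ∧
    E 660 = (E 286) * ((E 272) * (E 272)) ∧
    E 661 = (((0 : ℤ) : ℝ) / ((1 : ℕ) : ℝ)) - ((E 288) * ((E 271) * (E 271))) ∧ True := h.d39

theorem F40 (h : TaH K E p) :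
    E 662 = (((0 : ℤ) : ℝ) / ((1 : ℕ) : ℝ)) - ((E 288) * ((E 284) * (E 284))) ∧
    E 663 = (E 289) * (E 289) ∧
    E 664 = (E 288) * ((E 289) * (E 289)) ∧
    E 665 = (((0 : ℤ) : ℝ) / ((1 : ℕ) : ℝ)) - ((E 290) * ((E 274) * (E 274))) ∧
    E 666 = (E 290) * ((E 242) * (E 242)) ∧
    E 667 = (E 290) * ((E 267) * (E 267)) ∧
    E 668 = (E 291) * (E 291) ∧
    E 669 = (((0 : ℤ) : ℝ) / ((1 : ℕ) : ℝ)) - ((E 496) * ((E 291) * (E 291))) ∧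
    E 670 = (E 292) * (E 292) ∧
    E 671 = (((0 : ℤ) : ℝ) / ((1 : ℕ) : ℝ)) - ((E 496) * ((E 292) * (E 292))) ∧
    E 672 = (E 293) * (E 293) ∧
    E 673 = (E 496) * ((E 293) * (E 293)) ∧
    E 674 = ((0 : ℤ) : ℝ) / ((1 : ℕ) : ℝ) ∧
    E 675 = (((0 : ℤ) : ℝ) / ((1 : ℕ) : ℝ)) - (E 501) ∧
    E 676 = ((0 : ℤ) : ℝ) / ((1 : ℕ) : ℝ) ∧
    E 677 = (((0 : ℤ) : ℝ) / ((1 : ℕ) : ℝ)) - (E 503) ∧ True := h.d40

theorem F41 (h : TaH K E p) :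
    E 678 = (((0 : ℤ) : ℝ) / ((1 : ℕ) : ℝ)) - (E 513) ∧
    E 679 = (((0 : ℤ) : ℝ) / ((1 : ℕ) : ℝ)) - (E 507) ∧
    E 680 = ((((0 : ℤ) : ℝ) / ((1 : ℕ) : ℝ)) - (E 515)) - ((E 24) * (((E 0) * (E 422)) + ((E 0) * (E 322)))) ∧
    E 681 = (((0 : ℤ) : ℝ) / ((1 : ℕ) : ℝ)) - (E 505) ∧
    E 682 = (((0 : ℤ) : ℝ) / ((1 : ℕ) : ℝ)) - (E 511) ∧
    E 683 = ((((0 : ℤ) : ℝ) / ((1 : ℕ) : ℝ)) - (E 509)) - ((E 24) * ((E 0) * (E 322))) ∧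
    E 684 = ((((0 : ℤ) : ℝ) / ((1 : ℕ) : ℝ)) - (E 517)) - ((E 24) * (E 342)) ∧
    E 685 = ((((0 : ℤ) : ℝ) / ((1 : ℕ) : ℝ)) - (E 517)) - ((E 24) * ((E 174) + (E 499))) ∧
    E 686 = ((((0 : ℤ) : ℝ) / ((1 : ℕ) : ℝ)) - (E 517)) - ((E 24) * (E 499)) ∧
    E 687 = (((0 : ℤ) : ℝ) / ((1 : ℕ) : ℝ)) - ((E 24) * (E 499)) ∧
    E 688 = ((((((0 : ℤ) : ℝ) / ((1 : ℕ) : ℝ)) - (E 519)) - (E 524)) - (E 530)) - (E 536) ∧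
    E 689 = (((((((((0 : ℤ) : ℝ) / ((1 : ℕ) : ℝ)) - (E 324)) - (E 530)) - (E 536)) - (E 541)) - (E 546)) - (E 565)) - (E 571) ∧
    E 690 = (((((((((((0 : ℤ) : ℝ) / ((1 : ℕ) : ℝ)) - (E 324)) - (E 536)) - (E 552)) - (E 556)) - (E 571)) - (E 575)) - (E 584)) - (E 595)) - (E 600) ∧
    E 691 = ((((((((((((0 : ℤ) : ℝ) / ((1 : ℕ) : ℝ)) - (E 324)) - (E 561)) - (E 571)) - (E 579)) - (E 584)) - (E 595)) - (E 600)) - (E 603)) - (E 608)) - (E 612) ∧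
    E 692 = ((((((((((((0 : ℤ) : ℝ) / ((1 : ℕ) : ℝ)) - (E 324)) - (E 561)) - (E 571)) - (E 579)) - (E 589)) - (E 595)) - (E 600)) - (E 603)) - (E 608)) - (E 612) ∧
    E 693 = (((((((((0 : ℤ) : ℝ) / ((1 : ℕ) : ℝ)) - (E 324)) - (E 589)) - (E 600)) - (E 608)) - (E 645)) - (E 649)) - (E 658) ∧ True := h.d41

theorem F42 (h : TaH K E p) :
    E 694 = (((((((((0 : ℤ) : ℝ) / ((1 : ℕ) : ℝ)) - (E 324)) - (E 589)) - (E 628)) - (E 641)) - (E 645)) - (E 649)) - (E 661) ∧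
    E 695 = (((((((((((0 : ℤ) : ℝ) / ((1 : ℕ) : ℝ)) - (E 176)) - (E 324)) - (E 324)) - (E 589)) - (E 628)) - (E 641)) - (E 645)) - (E 649)) - (E 661) ∧
    E 696 = (((((((((((((((0 : ℤ) : ℝ) / ((1 : ℕ) : ℝ)) - (E 324)) - (E 324)) - (E 589)) - (E 326)) - (E 326)) - (E 620)) - (E 628)) - (E 633)) - (E 636)) - (E 645)) - (E 652)) - (E 661)) - (E 665) ∧
    E 697 = (((((((((((((0 : ℤ) : ℝ) / ((1 : ℕ) : ℝ)) - (E 521)) - (E 526)) - (E 532)) - (E 537)) - (E 616)) - (E 622)) - (E 625)) - (E 629)) - (E 634)) - (E 637)) - (E 642) ∧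
    E 698 = ((((((((((((((((((((0 : ℤ) : ℝ) / ((1 : ℕ) : ℝ)) - (E 526)) - (E 532)) - (E 537)) - (E 543)) - (E 548)) - (E 553)) - (E 557)) - (E 562)) - (E 596)) - (E 604)) - (E 622)) - (E 634)) - (E 642)) - (E 646)) - (E 650)) - (E 654)) - (E 659)) - (E 662) ∧
    E 699 = (((((((((((((((((((0 : ℤ) : ℝ) / ((1 : ℕ) : ℝ)) - (E 526)) - (E 532)) - (E 537)) - (E 543)) - (E 548)) - (E 553)) - (E 557)) - (E 562)) - (E 591)) - (E 596)) - (E 604)) - (E 634)) - (E 642)) - (E 646)) - (E 650)) - (E 659)) - (E 666) ∧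
    E 700 = (((((((((((((((((((0 : ℤ) : ℝ) / ((1 : ℕ) : ℝ)) - (E 532)) - (E 537)) - (E 548)) - (E 553)) - (E 557)) - (E 562)) - (E 567)) - (E 572)) - (E 576)) - (E 580)) - (E 585)) - (E 596)) - (E 601)) - (E 604)) - (E 609)) - (E 613)) - (E 659) ∧
    E 701 = (((((((0 : ℤ) : ℝ) / ((1 : ℕ) : ℝ)) - (E 593)) - (E 624)) - (E 656)) - (E 664)) - (E 667) ∧
    E 702 = ((((((((((0 : ℤ) : ℝ) / ((1 : ℕ) : ℝ)) - (E 593)) - (E 618)) - (E 626)) - (E 635)) - (E 639)) - (E 647)) - (E 656)) - (E 664) ∧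
    E 703 = (((((((((((((((0 : ℤ) : ℝ) / ((1 : ℕ) : ℝ)) - (E 564)) - (E 574)) - (E 582)) - (E 593)) - (E 602)) - (E 611)) - (E 631)) - (E 639)) - (E 643)) - (E 647)) - (E 651)) - (E 660)) - (E 664) ∧
    E 704 = (((((((((0 : ℤ) : ℝ) / ((1 : ℕ) : ℝ)) - (E 564)) - (E 574)) - (E 582)) - (E 593)) - (E 602)) - (E 611)) - (E 615) ∧
    E 705 = (((((((((((0 : ℤ) : ℝ) / ((1 : ℕ) : ℝ)) - (E 539)) - (E 555)) - (E 564)) - (E 574)) - (E 578)) - (E 582)) - (E 587)) - (E 602)) - (E 606) ∧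
    E 706 = (((((((((((0 : ℤ) : ℝ) / ((1 : ℕ) : ℝ)) - (E 539)) - (E 555)) - (E 564)) - (E 574)) - (E 578)) - (E 582)) - (E 587)) - (E 598)) - (E 602) ∧
    E 707 = (((((((((((0 : ℤ) : ℝ) / ((1 : ℕ) : ℝ)) - (E 534)) - (E 539)) - (E 550)) - (E 555)) - (E 559)) - (E 564)) - (E 569)) - (E 574)) - (E 578) ∧
    E 708 = (((((((((0 : ℤ) : ℝ) / ((1 : ℕ) : ℝ)) - (E 534)) - (E 539)) - (E 545)) - (E 550)) - (E 555)) - (E 569)) - (E 574) ∧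
    E 709 = (((((((0 : ℤ) : ℝ) / ((1 : ℕ) : ℝ)) - (E 528)) - (E 534)) - (E 539)) - (E 545)) - (E 550) ∧ True := h.d42

theorem F43 (h : TaH K E p) :
    E 710 = ((((((0 : ℤ) : ℝ) / ((1 : ℕ) : ℝ)) - (E 523)) - (E 528)) - (E 534)) - (E 539) ∧
    E 711 = (((0 : ℤ) : ℝ) / ((1 : ℕ) : ℝ)) - (E 671) ∧
    E 712 = ((0 : ℤ) : ℝ) / ((1 : ℕ) : ℝ) ∧
    E 713 = (((0 : ℤ) : ℝ) / ((1 : ℕ) : ℝ)) - (E 673) ∧
    E 714 = ((0 : ℤ) : ℝ) / ((1 : ℕ) : ℝ) ∧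
    E 715 = (((0 : ℤ) : ℝ) / ((1 : ℕ) : ℝ)) - (E 669) ∧
    E 716 = ((0 : ℤ) : ℝ) / ((1 : ℕ) : ℝ) ∧ True := h.d43

theorem V0 (h : TaH K E p) :
    E 2000 = ((E 188) * (E 190)) - ((E 322) * (E 82)) ∧
    E 2001 = (((0 : ℤ) : ℝ) / ((1 : ℕ) : ℝ)) - ((E 324) * (E 34)) ∧
    E 2002 = ((E 259) * (E 261)) - ((E 326) * (E 35)) ∧
    E 2003 = (E 343) - ((E 342) * (E 51)) ∧
    E 2004 = (((0 : ℤ) : ℝ) / ((1 : ℕ) : ℝ)) - ((E 174) * (E 49)) ∧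
    E 2005 = (((0 : ℤ) : ℝ) / ((1 : ℕ) : ℝ)) - ((E 176) * (E 34)) ∧
    E 2006 = (E 419) - ((E 422) * (E 83)) ∧
    E 2007 = ((E 177) * (E 178)) - ((E 499) * (E 47)) ∧
    E 2008 = ((E 177) * (E 179)) - ((E 501) * (E 74)) ∧
    E 2009 = (((0 : ℤ) : ℝ) / ((1 : ℕ) : ℝ)) - ((E 503) * (E 55)) ∧
    E 2010 = ((E 181) * (E 182)) - ((E 505) * (E 46)) ∧
    E 2011 = ((E 181) * (E 183)) - ((E 507) * (E 73)) ∧
    E 2012 = (((0 : ℤ) : ℝ) / ((1 : ℕ) : ℝ)) - ((E 509) * (E 56)) ∧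
    E 2013 = (((0 : ℤ) : ℝ) / ((1 : ℕ) : ℝ)) - ((E 511) * (E 45)) ∧
    E 2014 = (((0 : ℤ) : ℝ) / ((1 : ℕ) : ℝ)) - ((E 513) * (E 72)) ∧
    E 2015 = ((E 418) * (E 187)) - ((E 515) * (E 57)) ∧ True := h.v0

theorem V1 (h : TaH K E p) :
    E 2016 = ((E 188) * (E 191)) - ((E 517) * (E 48)) ∧
    E 2017 = ((E 192) * (E 193)) - ((E 519) * (E 44)) ∧
    E 2018 = ((E 192) * (E 194)) - ((E 521) * (E 71)) ∧
    E 2019 = (((0 : ℤ) : ℝ) / ((1 : ℕ) : ℝ)) - ((E 523) * (E 58)) ∧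
    E 2020 = ((E 197) * (E 193)) - ((E 524) * (E 44)) ∧
    E 2021 = ((E 197) * (E 198)) - ((E 526) * (E 69)) ∧
    E 2022 = ((E 196) * (E 199)) - ((E 528) * (E 58)) ∧
    E 2023 = ((E 201) * (E 202)) - ((E 530) * (E 43)) ∧
    E 2024 = ((E 201) * (E 203)) - ((E 532) * (E 68)) ∧
    E 2025 = ((E 200) * (E 204)) - ((E 534) * (E 58)) ∧
    E 2026 = ((E 206) * (E 207)) - ((E 536) * (E 42)) ∧
    E 2027 = ((E 206) * (E 203)) - ((E 537) * (E 68)) ∧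
    E 2028 = ((E 205) * (E 208)) - ((E 539) * (E 58)) ∧
    E 2029 = ((E 209) * (E 210)) - ((E 541) * (E 43)) ∧
    E 2030 = ((E 209) * (E 211)) - ((E 543) * (E 69)) ∧
    E 2031 = (((0 : ℤ) : ℝ) / ((1 : ℕ) : ℝ)) - ((E 545) * (E 59)) ∧ True := h.v1

theorem V2 (h : TaH K E p) :
    E 2032 = (((0 : ℤ) : ℝ) / ((1 : ℕ) : ℝ)) - ((E 546) * (E 43)) ∧
    E 2033 = (((0 : ℤ) : ℝ) / ((1 : ℕ) : ℝ)) - ((E 548) * (E 68)) ∧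
    E 2034 = ((E 213) * (E 215)) - ((E 550) * (E 59)) ∧
    E 2035 = (((0 : ℤ) : ℝ) / ((1 : ℕ) : ℝ)) - ((E 552) * (E 42)) ∧
    E 2036 = (((0 : ℤ) : ℝ) / ((1 : ℕ) : ℝ)) - ((E 553) * (E 68)) ∧
    E 2037 = ((E 216) * (E 218)) - ((E 555) * (E 60)) ∧
    E 2038 = (((0 : ℤ) : ℝ) / ((1 : ℕ) : ℝ)) - ((E 556) * (E 42)) ∧
    E 2039 = ((E 219) * (E 214)) - ((E 557) * (E 68)) ∧
    E 2040 = (((0 : ℤ) : ℝ) / ((1 : ℕ) : ℝ)) - ((E 559) * (E 61)) ∧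
    E 2041 = (((0 : ℤ) : ℝ) / ((1 : ℕ) : ℝ)) - ((E 561) * (E 40)) ∧
    E 2042 = (((0 : ℤ) : ℝ) / ((1 : ℕ) : ℝ)) - ((E 562) * (E 68)) ∧
    E 2043 = ((E 221) * (E 223)) - ((E 564) * (E 61)) ∧
    E 2044 = (((0 : ℤ) : ℝ) / ((1 : ℕ) : ℝ)) - ((E 565) * (E 43)) ∧
    E 2045 = (((0 : ℤ) : ℝ) / ((1 : ℕ) : ℝ)) - ((E 567) * (E 68)) ∧
    E 2046 = ((E 224) * (E 226)) - ((E 569) * (E 60)) ∧
    E 2047 = ((E 228) * (E 229)) - ((E 571) * (E 40)) ∧ True := h.v2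

theorem V3 (h : TaH K E p) :
    E 2048 = ((E 228) * (E 225)) - ((E 572) * (E 68)) ∧
    E 2049 = ((E 227) * (E 230)) - ((E 574) * (E 60)) ∧
    E 2050 = ((E 232) * (E 217)) - ((E 575) * (E 42)) ∧
    E 2051 = ((E 232) * (E 225)) - ((E 576) * (E 68)) ∧
    E 2052 = ((E 231) * (E 233)) - ((E 578) * (E 61)) ∧
    E 2053 = (((0 : ℤ) : ℝ) / ((1 : ℕ) : ℝ)) - ((E 579) * (E 40)) ∧
    E 2054 = (((0 : ℤ) : ℝ) / ((1 : ℕ) : ℝ)) - ((E 580) * (E 68)) ∧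
    E 2055 = ((E 234) * (E 235)) - ((E 582) * (E 62)) ∧
    E 2056 = ((E 236) * (E 237)) - ((E 584) * (E 41)) ∧
    E 2057 = (((0 : ℤ) : ℝ) / ((1 : ℕ) : ℝ)) - ((E 585) * (E 68)) ∧
    E 2058 = (((0 : ℤ) : ℝ) / ((1 : ℕ) : ℝ)) - ((E 587) * (E 62)) ∧
    E 2059 = ((E 240) * (E 241)) - ((E 589) * (E 36)) ∧
    E 2060 = ((E 239) * (E 242)) - ((E 591) * (E 69)) ∧
    E 2061 = ((E 239) * (E 243)) - ((E 593) * (E 64)) ∧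
    E 2062 = ((E 244) * (E 245)) - ((E 595) * (E 40)) ∧
    E 2063 = (((0 : ℤ) : ℝ) / ((1 : ℕ) : ℝ)) - ((E 596) * (E 68)) ∧ True := h.v3

theorem V4 (h : TaH K E p) :
    E 2064 = (((0 : ℤ) : ℝ) / ((1 : ℕ) : ℝ)) - ((E 598) * (E 62)) ∧
    E 2065 = (((0 : ℤ) : ℝ) / ((1 : ℕ) : ℝ)) - ((E 600) * (E 39)) ∧
    E 2066 = ((E 247) * (E 225)) - ((E 601) * (E 68)) ∧
    E 2067 = ((E 247) * (E 235)) - ((E 602) * (E 62)) ∧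
    E 2068 = ((E 250) * (E 222)) - ((E 603) * (E 40)) ∧
    E 2069 = ((E 249) * (E 214)) - ((E 604) * (E 68)) ∧
    E 2070 = ((E 250) * (E 251)) - ((E 606) * (E 63)) ∧
    E 2071 = ((E 253) * (E 254)) - ((E 608) * (E 39)) ∧
    E 2072 = ((E 252) * (E 225)) - ((E 609) * (E 68)) ∧
    E 2073 = ((E 252) * (E 255)) - ((E 611) * (E 64)) ∧
    E 2074 = ((E 257) * (E 222)) - ((E 612) * (E 40)) ∧
    E 2075 = ((E 256) * (E 225)) - ((E 613) * (E 68)) ∧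
    E 2076 = ((E 256) * (E 258)) - ((E 615) * (E 64)) ∧
    E 2077 = ((E 260) * (E 194)) - ((E 616) * (E 71)) ∧
    E 2078 = ((E 260) * (E 262)) - ((E 618) * (E 66)) ∧
    E 2079 = ((E 263) * (E 265)) - ((E 620) * (E 35)) ∧ True := h.v4

theorem V5 (h : TaH K E p) :
    E 2080 = ((E 264) * (E 266)) - ((E 622) * (E 70)) ∧
    E 2081 = ((E 263) * (E 267)) - ((E 624) * (E 67)) ∧
    E 2082 = ((E 269) * (E 194)) - ((E 625) * (E 71)) ∧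
    E 2083 = ((E 268) * (E 262)) - ((E 626) * (E 66)) ∧
    E 2084 = ((E 270) * (E 271)) - ((E 628) * (E 36)) ∧
    E 2085 = (((0 : ℤ) : ℝ) / ((1 : ℕ) : ℝ)) - ((E 629) * (E 71)) ∧
    E 2086 = (((0 : ℤ) : ℝ) / ((1 : ℕ) : ℝ)) - ((E 631) * (E 65)) ∧
    E 2087 = (((0 : ℤ) : ℝ) / ((1 : ℕ) : ℝ)) - ((E 633) * (E 36)) ∧
    E 2088 = ((E 273) * (E 198)) - ((E 634) * (E 69)) ∧
    E 2089 = (((0 : ℤ) : ℝ) / ((1 : ℕ) : ℝ)) - ((E 635) * (E 66)) ∧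
    E 2090 = ((E 275) * (E 274)) - ((E 636) * (E 36)) ∧
    E 2091 = ((E 275) * (E 194)) - ((E 637) * (E 71)) ∧
    E 2092 = (((0 : ℤ) : ℝ) / ((1 : ℕ) : ℝ)) - ((E 639) * (E 65)) ∧
    E 2093 = (((0 : ℤ) : ℝ) / ((1 : ℕ) : ℝ)) - ((E 641) * (E 37)) ∧
    E 2094 = ((E 277) * (E 198)) - ((E 642) * (E 69)) ∧
    E 2095 = (((0 : ℤ) : ℝ) / ((1 : ℕ) : ℝ)) - ((E 643) * (E 65)) ∧ True := h.v5

theorem V6 (h : TaH K E p) :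
    E 2096 = (((0 : ℤ) : ℝ) / ((1 : ℕ) : ℝ)) - ((E 645) * (E 36)) ∧
    E 2097 = ((E 279) * (E 211)) - ((E 646) * (E 69)) ∧
    E 2098 = ((E 279) * (E 276)) - ((E 647) * (E 65)) ∧
    E 2099 = (((0 : ℤ) : ℝ) / ((1 : ℕ) : ℝ)) - ((E 649) * (E 37)) ∧
    E 2100 = ((E 281) * (E 211)) - ((E 650) * (E 69)) ∧
    E 2101 = ((E 281) * (E 272)) - ((E 651) * (E 65)) ∧
    E 2102 = (((0 : ℤ) : ℝ) / ((1 : ℕ) : ℝ)) - ((E 652) * (E 36)) ∧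
    E 2103 = (((0 : ℤ) : ℝ) / ((1 : ℕ) : ℝ)) - ((E 654) * (E 70)) ∧
    E 2104 = ((E 283) * (E 285)) - ((E 656) * (E 66)) ∧
    E 2105 = (((0 : ℤ) : ℝ) / ((1 : ℕ) : ℝ)) - ((E 658) * (E 39)) ∧
    E 2106 = ((E 286) * (E 214)) - ((E 659) * (E 68)) ∧
    E 2107 = (((0 : ℤ) : ℝ) / ((1 : ℕ) : ℝ)) - ((E 660) * (E 65)) ∧
    E 2108 = ((E 288) * (E 271)) - ((E 661) * (E 36)) ∧
    E 2109 = ((E 288) * (E 284)) - ((E 662) * (E 70)) ∧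
    E 2110 = (((0 : ℤ) : ℝ) / ((1 : ℕ) : ℝ)) - ((E 664) * (E 65)) ∧
    E 2111 = ((E 290) * (E 274)) - ((E 665) * (E 36)) ∧ True := h.v6

theorem V7 (h : TaH K E p) :
    E 2112 = (((0 : ℤ) : ℝ) / ((1 : ℕ) : ℝ)) - ((E 666) * (E 69)) ∧
    E 2113 = (((0 : ℤ) : ℝ) / ((1 : ℕ) : ℝ)) - ((E 667) * (E 67)) ∧
    E 2114 = ((E 496) * (E 291)) - ((E 669) * (E 51)) ∧
    E 2115 = ((E 496) * (E 292)) - ((E 671) * (E 76)) ∧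
    E 2116 = (((0 : ℤ) : ℝ) / ((1 : ℕ) : ℝ)) - ((E 673) * (E 53)) ∧
    E 2117 = ((0 : ℤ) : ℝ) / ((1 : ℕ) : ℝ) ∧
    E 2118 = (((0 : ℤ) : ℝ) / ((1 : ℕ) : ℝ)) - (E 2008) ∧
    E 2119 = (((0 : ℤ) : ℝ) / ((1 : ℕ) : ℝ)) - (E 330) ∧
    E 2120 = (((0 : ℤ) : ℝ) / ((1 : ℕ) : ℝ)) - (E 2009) ∧
    E 2121 = (((0 : ℤ) : ℝ) / ((1 : ℕ) : ℝ)) - (E 2014) ∧
    E 2122 = ((((0 : ℤ) : ℝ) / ((1 : ℕ) : ℝ)) - (E 421)) - (E 2011) ∧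
    E 2123 = ((((0 : ℤ) : ℝ) / ((1 : ℕ) : ℝ)) - (E 2015)) - ((E 24) * (((((0 : ℤ) : ℝ) / ((1 : ℕ) : ℝ)) - ((E 0) * ((E 2006) + ((E 422) * (π + π))))) - ((E 0) * ((E 2000) + ((E 322) * (π + π)))))) ∧
    E 2124 = (((0 : ℤ) : ℝ) / ((1 : ℕ) : ℝ)) - (E 2010) ∧
    E 2125 = ((((0 : ℤ) : ℝ) / ((1 : ℕ) : ℝ)) - (E 420)) - (E 2013) ∧
    E 2126 = ((((0 : ℤ) : ℝ) / ((1 : ℕ) : ℝ)) - (E 2012)) - ((E 24) * (((((0 : ℤ) : ℝ) / ((1 : ℕ) : ℝ)) - ((E 0) * (E 419))) - ((E 0) * ((E 2000) + ((E 322) * (π + π)))))) ∧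
    E 2127 = ((((0 : ℤ) : ℝ) / ((1 : ℕ) : ℝ)) - (E 2016)) - ((E 24) * (E 2003)) ∧ True := h.v7

theorem V8 (h : TaH K E p) :
    E 2128 = ((((0 : ℤ) : ℝ) / ((1 : ℕ) : ℝ)) - (E 2016)) - ((E 24) * (((E 2004) + (E 175)) + (E 2007))) ∧
    E 2129 = ((((0 : ℤ) : ℝ) / ((1 : ℕ) : ℝ)) - (E 2016)) - ((E 24) * ((E 355) + (E 2007))) ∧
    E 2130 = (((0 : ℤ) : ℝ) / ((1 : ℕ) : ℝ)) - ((E 24) * ((E 356) + (E 2007))) ∧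
    E 2131 = ((((((0 : ℤ) : ℝ) / ((1 : ℕ) : ℝ)) - (E 2017)) - (E 2020)) - (E 2023)) - (E 2026) ∧
    E 2132 = (((((((((0 : ℤ) : ℝ) / ((1 : ℕ) : ℝ)) - (E 2001)) - (E 2023)) - (E 2026)) - (E 2029)) - (E 2032)) - (E 2044)) - (E 2047) ∧
    E 2133 = ((((((((((((0 : ℤ) : ℝ) / ((1 : ℕ) : ℝ)) - (E 435)) - (E 2001)) - (E 2026)) - (E 2035)) - (E 2038)) - (E 2047)) - (E 2050)) - (E 2056)) - (E 2062)) - (E 2065) ∧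
    E 2134 = (((((((((((((0 : ℤ) : ℝ) / ((1 : ℕ) : ℝ)) - (E 435)) - (E 2001)) - (E 2041)) - (E 2047)) - (E 2053)) - (E 2056)) - (E 2062)) - (E 2065)) - (E 2068)) - (E 2071)) - (E 2074) ∧
    E 2135 = (((((((((((((0 : ℤ) : ℝ) / ((1 : ℕ) : ℝ)) - (E 435)) - (E 2001)) - (E 2041)) - (E 2047)) - (E 2053)) - (E 2059)) - (E 2062)) - (E 2065)) - (E 2068)) - (E 2071)) - (E 2074) ∧
    E 2136 = ((((((((((0 : ℤ) : ℝ) / ((1 : ℕ) : ℝ)) - (E 435)) - (E 2001)) - (E 2059)) - (E 2065)) - (E 2071)) - (E 2096)) - (E 2099)) - (E 2105) ∧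
    E 2137 = ((((((((((0 : ℤ) : ℝ) / ((1 : ℕ) : ℝ)) - (E 434)) - (E 2001)) - (E 2059)) - (E 2084)) - (E 2093)) - (E 2096)) - (E 2099)) - (E 2108) ∧
    E 2138 = (((((((((E 2005) + (E 2001)) - (E 434)) - (E 2001)) - (E 2059)) - (E 2084)) - (E 2093)) - (E 2096)) - (E 2099)) - (E 2108) ∧
    E 2139 = (((((((((((((((E 434) + (E 439)) + (E 2001)) + (E 2002)) + (E 2079)) - (E 434)) - (E 2001)) - (E 2059)) - (E 2002)) - (E 2084)) - (E 2087)) - (E 2090)) - (E 2096)) - (E 2102)) - (E 2108)) - (E 2111) ∧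
    E 2140 = (((((((((((((0 : ℤ) : ℝ) / ((1 : ℕ) : ℝ)) - (E 2018)) - (E 2021)) - (E 2024)) - (E 2027)) - (E 2077)) - (E 2080)) - (E 2082)) - (E 2085)) - (E 2088)) - (E 2091)) - (E 2094) ∧
    E 2141 = ((((((((((((((((((((0 : ℤ) : ℝ) / ((1 : ℕ) : ℝ)) - (E 2021)) - (E 2024)) - (E 2027)) - (E 2030)) - (E 2033)) - (E 2036)) - (E 2039)) - (E 2042)) - (E 2063)) - (E 2069)) - (E 2080)) - (E 2088)) - (E 2094)) - (E 2097)) - (E 2100)) - (E 2103)) - (E 2106)) - (E 2109) ∧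
    E 2142 = (((((((((((((((((((0 : ℤ) : ℝ) / ((1 : ℕ) : ℝ)) - (E 2021)) - (E 2024)) - (E 2027)) - (E 2030)) - (E 2033)) - (E 2036)) - (E 2039)) - (E 2042)) - (E 2060)) - (E 2063)) - (E 2069)) - (E 2088)) - (E 2094)) - (E 2097)) - (E 2100)) - (E 2106)) - (E 2112) ∧
    E 2143 = (((((((((((((((((((0 : ℤ) : ℝ) / ((1 : ℕ) : ℝ)) - (E 2024)) - (E 2027)) - (E 2033)) - (E 2036)) - (E 2039)) - (E 2042)) - (E 2045)) - (E 2048)) - (E 2051)) - (E 2054)) - (E 2057)) - (E 2063)) - (E 2066)) - (E 2069)) - (E 2072)) - (E 2075)) - (E 2106) ∧ True := h.v8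

theorem V9 (h : TaH K E p) :
    E 2144 = (((((((0 : ℤ) : ℝ) / ((1 : ℕ) : ℝ)) - (E 2061)) - (E 2081)) - (E 2104)) - (E 2110)) - (E 2113) ∧
    E 2145 = ((((((((((0 : ℤ) : ℝ) / ((1 : ℕ) : ℝ)) - (E 2061)) - (E 2078)) - (E 2083)) - (E 2089)) - (E 2092)) - (E 2098)) - (E 2104)) - (E 2110) ∧
    E 2146 = (((((((((((((((0 : ℤ) : ℝ) / ((1 : ℕ) : ℝ)) - (E 2043)) - (E 2049)) - (E 2055)) - (E 2061)) - (E 2067)) - (E 2073)) - (E 2086)) - (E 2092)) - (E 2095)) - (E 2098)) - (E 2101)) - (E 2107)) - (E 2110) ∧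
    E 2147 = (((((((((0 : ℤ) : ℝ) / ((1 : ℕ) : ℝ)) - (E 2043)) - (E 2049)) - (E 2055)) - (E 2061)) - (E 2067)) - (E 2073)) - (E 2076) ∧
    E 2148 = (((((((((((0 : ℤ) : ℝ) / ((1 : ℕ) : ℝ)) - (E 2028)) - (E 2037)) - (E 2043)) - (E 2049)) - (E 2052)) - (E 2055)) - (E 2058)) - (E 2067)) - (E 2070) ∧
    E 2149 = (((((((((((0 : ℤ) : ℝ) / ((1 : ℕ) : ℝ)) - (E 2028)) - (E 2037)) - (E 2043)) - (E 2049)) - (E 2052)) - (E 2055)) - (E 2058)) - (E 2064)) - (E 2067) ∧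
    E 2150 = (((((((((((0 : ℤ) : ℝ) / ((1 : ℕ) : ℝ)) - (E 2025)) - (E 2028)) - (E 2034)) - (E 2037)) - (E 2040)) - (E 2043)) - (E 2046)) - (E 2049)) - (E 2052) ∧
    E 2151 = (((((((((0 : ℤ) : ℝ) / ((1 : ℕ) : ℝ)) - (E 2025)) - (E 2028)) - (E 2031)) - (E 2034)) - (E 2037)) - (E 2046)) - (E 2049) ∧
    E 2152 = (((((((0 : ℤ) : ℝ) / ((1 : ℕ) : ℝ)) - (E 2022)) - (E 2025)) - (E 2028)) - (E 2031)) - (E 2034) ∧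
    E 2153 = ((((((0 : ℤ) : ℝ) / ((1 : ℕ) : ℝ)) - (E 2019)) - (E 2022)) - (E 2025)) - (E 2028) ∧
    E 2154 = (((0 : ℤ) : ℝ) / ((1 : ℕ) : ℝ)) - (E 2115) ∧
    E 2155 = (((0 : ℤ) : ℝ) / ((1 : ℕ) : ℝ)) - (E 495) ∧
    E 2156 = (((0 : ℤ) : ℝ) / ((1 : ℕ) : ℝ)) - (E 2116) ∧
    E 2157 = ((E 493) + (E 491)) - (E 491) ∧
    E 2158 = (((((0 : ℤ) : ℝ) / ((1 : ℕ) : ℝ)) - (E 497)) - (E 494)) - (E 2114) ∧
    E 2159 = (((0 : ℤ) : ℝ) / ((1 : ℕ) : ℝ)) - (E 492) ∧ True := h.v9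

theorem V10 (h : TaH K E p) :
    E 2160 = (((((E 51) - (E 50)) * (E 343)) + ((((E 51) - (E 50)) * (((((1 : ℤ) : ℝ) / ((2 : ℕ) : ℝ)) * ((E 50) + (E 51))) - (E 51))) * (E 342))) + (((E 50) - (E 49)) * (((E 50) - (E 49)) * (E 174)))) + ((((E 50) - (E 49)) * (((((1 : ℤ) : ℝ) / ((2 : ℕ) : ℝ)) * ((E 49) + (E 50))) - (E 50))) * (E 174)) ∧
    E 2161 = ((((((E 51) - (E 50)) * (((((1 : ℤ) : ℝ) / ((2 : ℕ) : ℝ)) * ((E 50) + (E 51))) - (E 296))) * (E 343)) + ((((E 51) - (E 50)) * (((((1 : ℤ) : ℝ) / ((3 : ℕ) : ℝ)) * (((((E 50) - (E 51)) * ((E 50) - (E 51))) + (((E 50) - (E 51)) * ((E 51) - (E 51)))) + (((E 51) - (E 51)) * ((E 51) - (E 51))))) + (((E 51) - (E 296)) * (((((1 : ℤ) : ℝ) / ((2 : ℕ) : ℝ)) * ((E 50) + (E 51))) - (E 51))))) * (E 342))) + ((((E 50) - (E 49)) * (((((1 : ℤ) : ℝ) / ((2 : ℕ) : ℝ)) * ((E 49) +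 (E 50))) - (E 296))) * (((E 50) - (E 49)) * (E 174)))) + ((((E 50) - (E 49)) * (((((1 : ℤ) : ℝ) / ((3 : ℕ) : ℝ)) * (((((E 49) - (E 50)) * ((E 49) - (E 50))) + (((E 49) - (E 50)) * ((E 50) - (E 50)))) + (((E 50) - (E 50)) * ((E 50) - (E 50))))) + (((E 50) - (E 296)) * (((((1 : ℤ) : ℝ) / ((2 : ℕ) : ℝ)) * ((E 49) + (E 50))) - (E 50))))) * (E 174)) ∧
    E 2162 = (E 2161) + ((E 296) * (E 2160)) ∧
    E 2163 = ((E 76) - (E 75)) * (E 330) ∧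
    E 2164 = (((E 76) - (E 75)) * (((((1 : ℤ) : ℝ) / ((2 : ℕ) : ℝ)) * ((E 75) + (E 76))) - (E 294))) * (E 330) ∧
    E 2165 = (E 2164) + ((E 294) * (E 2163)) ∧
    E 2166 = (E 24) * ((E 123) - (E 125)) ∧
    E 2167 = (E 24) * (((E 124) - (E 122)) + ((((E 54) - (E 295)) * (E 123)) - (((E 55) - (E 295)) * (E 125)))) ∧
    E 2168 = (E 2167) + ((E 295) * (E 2166)) ∧
    E 2169 = ((((E 48) - (E 47)) * (E 356)) + (((E 49) - (E 48)) * (E 355))) + (((E 50) - (E 49)) * (E 175)) ∧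
    E 2170 = (((((E 48) - (E 47)) * (((((1 : ℤ) : ℝ) / ((2 : ℕ) : ℝ)) * ((E 47) + (E 48))) - (E 299))) * (E 356)) + ((((E 49) - (E 48)) * (((((1 : ℤ) : ℝ) / ((2 : ℕ) : ℝ)) * ((E 48) + (E 49))) - (E 299))) * (E 355))) + ((((E 50) - (E 49)) * (((((1 : ℤ) : ℝ) / ((2 : ℕ) : ℝ)) * ((E 49) + (E 50))) - (E 299))) * (E 175)) ∧
    E 2171 = (E 2170) + ((E 299) * (E 2169)) ∧
    E 2172 = (((E 23) * ((E 163) - (E 167))) - ((((1 : ℤ) : ℝ) / ((2 : ℕ) : ℝ)) * (E 177))) - (((E 76) - (E 75)) * (E 330)) ∧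
    E 2173 = (((E 23) * (((E 166) - (E 162)) + ((((E 74) - (E 297)) * (E 163)) - (((E 76) - (E 297)) * (E 167))))) - (((((1 : ℤ) : ℝ) / ((6 : ℕ) : ℝ)) * ((((E 74) - (E 297)) + ((E 74) - (E 297))) + ((E 75) - (E 297)))) * (E 177))) - ((((E 76) - (E 75)) * (((((1 : ℤ) : ℝ) / ((2 : ℕ) : ℝ)) * ((E 75) + (E 76))) - (E 297))) * (E 330)) ∧
    E 2174 = (E 2173) + ((E 297) * (E 2172)) ∧
    E 2175 = ((E 24) * ((E 125) - (E 127))) - ((((1 : ℤ) : ℝ) / ((2 : ℕ) : ℝ)) * (E 177)) ∧ True := h.v10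

theorem V11 (h : TaH K E p) :
    E 2176 = ((E 24) * (((E 126) - (E 124)) + ((((E 55) - (E 298)) * (E 125)) - (((E 56) - (E 298)) * (E 127))))) - (((((1 : ℤ) : ℝ) / ((6 : ℕ) : ℝ)) * (((E 55) - (E 298)) + (((E 56) - (E 298)) + ((E 56) - (E 298))))) * (E 177)) ∧
    E 2177 = (E 2176) + ((E 298) * (E 2175)) ∧
    E 2178 = ((E 46) - (E 45)) * (E 420) ∧
    E 2179 = (((E 46) - (E 45)) * (((((1 : ℤ) : ℝ) / ((2 : ℕ) : ℝ)) * ((E 45) + (E 46))) - (E 302))) * (E 420) ∧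
    E 2180 = (E 2179) + ((E 302) * (E 2178)) ∧
    E 2181 = ((((E 23) * ((E 159) - (E 163))) - ((((1 : ℤ) : ℝ) / ((2 : ℕ) : ℝ)) * (E 181))) - ((((1 : ℤ) : ℝ) / ((2 : ℕ) : ℝ)) * (E 418))) - (((E 74) - (E 73)) * (E 421)) ∧
    E 2182 = ((((E 23) * (((E 162) - (E 158)) + ((((E 72) - (E 300)) * (E 159)) - (((E 74) - (E 300)) * (E 163))))) - (((((1 : ℤ) : ℝ) / ((6 : ℕ) : ℝ)) * ((((E 73) - (E 300)) + ((E 73) - (E 300))) + ((E 74) - (E 300)))) * (E 181))) - (((((1 : ℤ) : ℝ) / ((6 : ℕ) : ℝ)) * (((E 72) - (E 300)) + (((E 73) - (E 300)) + ((E 73) - (E 300))))) * (E 418))) - ((((E 74) - (E 73)) * (((((1 : ℤ) : ℝ) / ((2 : ℕ) : ℝ)) * ((E 73) + (E 74))) - (E 300))) * (E 421)) ∧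
    E 2183 = (E 2182) + ((E 300) * (E 2181)) ∧
    E 2184 = (((((E 24) * ((E 129) - (E 131))) + (((E 24) * (E 0)) * (((E 83) - (E 82)) * ((E 322) * (((((1 : ℤ) : ℝ) / ((2 : ℕ) : ℝ)) * ((E 82) + (E 83))) - (E 84)))))) + ((((E 24) * (E 0)) * ((E 83) - (E 82))) * (E 419))) + ((((E 24) * (E 0)) * (((E 83) - (E 82)) * (((((1 : ℤ) : ℝ) / ((2 : ℕ) : ℝ)) * ((E 82) + (E 83))) - (E 83)))) * (E 422))) - ((((1 : ℤ) : ℝ) / ((2 : ℕ) : ℝ)) * (E 418)) ∧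
    E 2185 = (((((E 24) * (((E 130) - (E 128)) + ((((E 57) - (E 301)) * (E 129)) - (((E 58) - (E 301)) * (E 131))))) - (((E 24) * (E 0)) * (((E 83) - (E 82)) * ((E 322) * (((((1 : ℤ) : ℝ) / ((3 : ℕ) : ℝ)) * (((((E 82) - (E 84)) * ((E 82) - (E 84))) + (((E 82) - (E 84)) * ((E 83) - (E 84)))) + (((E 83) - (E 84)) * ((E 83) - (E 84))))) + (((E 84) - ((π + π) - (E 301))) * (((((1 : ℤ) : ℝ) / ((2 : ℕ) : ℝ)) * ((E 82) + (E 83))) - (E 84)))))))) - ((((E 24) * (E 0)) * (((E 83) - (E 82)) * (((((1 : ℤ) : ℝ) / ((2 : ℕ) : ℝ)) * ((E 82) + (E 83))) - ((π + π) - (E 301))))) * (E 419))) - ((((E 24) * (E 0)) * (((E 83) - (E 82)) * (((((1 : ℤ) : ℝ) / ((3 : ℕ) : ℝ)) * (((((E 82) - (E 83)) * ((E 82) - (E 83))) + (((E 82) - (E 83)) * ((E 83) - (E 83)))) + (((E 83) - (E 83)) * ((E 83) - (E 83))))) + (((E 83) - ((π + π) - (E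 301))) * (((((1 : ℤ) : ℝ) / ((2 : ℕ) : ℝ)) * ((E 82) + (E 83))) - (E 83)))))) * (E 422))) - (((((1 : ℤ) : ℝ) / ((6 : ℕ) : ℝ)) * ((((E 57) - (E 301)) + ((E 57) - (E 301))) + ((E 58) - (E 301)))) * (E 418)) ∧
    E 2186 = (E 2185) + ((E 301) * (E 2184)) ∧
    E 2187 = ((((((1 : ℤ) : ℝ) / ((1 : ℕ) : ℝ)) * ((E 105) - (E 109))) - ((((1 : ℤ) : ℝ) / ((2 : ℕ) : ℝ)) * (E 181))) - (((E 46) - (E 45)) * (E 420))) - ((((1 : ℤ) : ℝ) / ((2 : ℕ) : ℝ)) * (E 418)) ∧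
    E 2188 = ((((((1 : ℤ) : ℝ) / ((1 : ℕ) : ℝ)) * (((E 108) - (E 104)) + ((((E 45) - (E 305)) * (E 105)) - (((E 47) - (E 305)) * (E 109))))) - (((((1 : ℤ) : ℝ) / ((6 : ℕ) : ℝ)) * ((((E 46) - (E 305)) + ((E 46) - (E 305))) + ((E 47) - (E 305)))) * (E 181))) - ((((E 46) - (E 45)) * (((((1 : ℤ) : ℝ) / ((2 : ℕ) : ℝ)) * ((E 45) + (E 46))) - (E 305))) * (E 420))) - (((((1 : ℤ) : ℝ) / ((6 : ℕ) : ℝ)) * (((E 45) - (E 305)) + (((E 46) - (E 305)) + ((E 46) - (E 305))))) * (E 418)) ∧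
    E 2189 = (E 2188) + ((E 305) * (E 2187)) ∧
    E 2190 = ((E 74) - (E 73)) * (E 421) ∧
    E 2191 = (((E 74) - (E 73)) * (((((1 : ℤ) : ℝ) / ((2 : ℕ) : ℝ)) * ((E 73) + (E 74))) - (E 303))) * (E 421) ∧ True := h.v11

theorem V12 (h : TaH K E p) :
    E 2192 = (E 2191) + ((E 303) * (E 2190)) ∧
    E 2193 = ((((E 24) * ((E 127) - (E 129))) + (((E 24) * (E 0)) * (((E 84) - (E 83)) * ((E 322) * (((((1 : ℤ) : ℝ) / ((2 : ℕ) : ℝ)) * ((E 83) + (E 84))) - (E 84)))))) + ((((E 24) * (E 0)) * ((E 84) - (E 83))) * (E 419))) - ((((1 : ℤ) : ℝ) / ((2 : ℕ) : ℝ)) * (E 181)) ∧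
    E 2194 = ((((E 24) * (((E 128) - (E 126)) + ((((E 56) - (E 304)) * (E 127)) - (((E 57) - (E 304)) * (E 129))))) - (((((1 : ℤ) : ℝ) / ((6 : ℕ) : ℝ)) * (((E 56) - (E 304)) + (((E 57) - (E 304)) + ((E 57) - (E 304))))) * (E 181))) - (((E 24) * (E 0)) * (((E 84) - (E 83)) * ((E 322) * (((((1 : ℤ) : ℝ) / ((3 : ℕ) : ℝ)) * (((((E 83) - (E 84)) * ((E 83) - (E 84))) + (((E 83) - (E 84)) * ((E 84) - (E 84)))) + (((E 84) - (E 84)) * ((E 84) - (E 84))))) + (((E 84) - ((π + π) - (E 304))) * (((((1 : ℤ) : ℝ) / ((2 : ℕ) : ℝ)) * ((E 83) + (E 84))) - (E 84)))))))) - ((((E 24) * (E 0)) * (((E 84) - (E 83)) * (((((1 : ℤ) : ℝ) / ((2 : ℕ) : ℝ)) * ((E 83) + (E 84))) - ((π + π) - (E 304))))) * (E 419)) ∧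
    E 2195 = (E 2194) + ((E 304) * (E 2193)) ∧
    E 2196 = ((((((E 43) - (E 39)) * (E 435)) + (((E 39) - (E 36)) * (E 434))) + (((E 36) - (E 35)) * (E 434))) + (((E 35) - (E 34)) * (((E 35) - (E 34)) * (E 176)))) + ((((E 35) - (E 34)) * (((((1 : ℤ) : ℝ) / ((2 : ℕ) : ℝ)) * ((E 34) + (E 35))) - (E 35))) * (E 176)) ∧
    E 2197 = (((((((E 43) - (E 39)) * (((((1 : ℤ) : ℝ) / ((2 : ℕ) : ℝ)) * ((E 39) + (E 43))) - (E 308))) * (E 435)) + ((((E 39) - (E 36)) * (((((1 : ℤ) : ℝ) / ((2 : ℕ) : ℝ)) * ((E 36) + (E 39))) - (E 308))) * (E 434))) + ((((E 36) - (E 35)) * (((((1 : ℤ) : ℝ) / ((2 : ℕ) : ℝ)) * ((E 35) + (E 36))) - (E 308))) * (E 434))) + ((((E 35) - (E 34)) * (((((1 : ℤ) : ℝ) / ((2 : ℕ) : ℝ)) * ((E 34) + (E 35))) - (E 308))) * (((E 35) - (E 34)) * (E 176)))) + ((((E 35) - (E 34)) * (((((1 : ℤ) : ℝ) / ((3 :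 ℕ) : ℝ)) * (((((E 34) - (E 35)) * ((E 34) - (E 35))) + (((E 34) - (E 35)) * ((E 35) - (E 35)))) + (((E 35) - (E 35)) * ((E 35) - (E 35))))) + (((E 35) - (E 308)) * (((((1 : ℤ) : ℝ) / ((2 : ℕ) : ℝ)) * ((E 34) + (E 35))) - (E 35))))) * (E 176)) ∧
    E 2198 = (E 2197) + ((E 308) * (E 2196)) ∧
    E 2199 = ((((E 84) - (E 83)) * (E 419)) + (((E 83) - (E 82)) * (E 419))) + ((((E 83) - (E 82)) * (((((1 : ℤ) : ℝ) / ((2 : ℕ) : ℝ)) * ((E 82) + (E 83))) - (E 83))) * (E 422)) ∧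
    E 2200 = (((((E 84) - (E 83)) * (((((1 : ℤ) : ℝ) / ((2 : ℕ) : ℝ)) * ((E 83) + (E 84))) - (E 306))) * (E 419)) + ((((E 83) - (E 82)) * (((((1 : ℤ) : ℝ) / ((2 : ℕ) : ℝ)) * ((E 82) + (E 83))) - (E 306))) * (E 419))) + ((((E 83) - (E 82)) * (((((1 : ℤ) : ℝ) / ((3 : ℕ) : ℝ)) * (((((E 82) - (E 83)) * ((E 82) - (E 83))) + (((E 82) - (E 83)) * ((E 83) - (E 83)))) + (((E 83) - (E 83)) * ((E 83) - (E 83))))) + (((E 83) - (E 306)) * (((((1 : ℤ) : ℝ) / ((2 : ℕ) : ℝ)) * ((E 82) + (E 83))) - (E 83))))) * (E 422)) ∧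
    E 2201 = (E 2200) + ((E 306) * (E 2199)) ∧
    E 2202 = (((((((((E 24) * ((E 109) - (E 117))) - ((((1 : ℤ) : ℝ) / ((2 : ℕ) : ℝ)) * (E 188))) - ((E 24) * ((((E 50) - (E 49)) * (((E 50) - (E 49)) * (E 174))) + ((((E 50) - (E 49)) * (((((1 : ℤ) : ℝ) / ((2 : ℕ) : ℝ)) * ((E 49) + (E 50))) - (E 50))) * (E 174))))) - ((E 24) * (((E 50) - (E 49)) * (E 175)))) - ((E 24) * ((((1 : ℤ) : ℝ) / ((2 : ℕ) : ℝ)) * (E 177)))) - (((E 24) * ((E 51) - (E 50))) * (E 343))) - (((E 24) * (((E 51) - (E 50)) * (((((1 : ℤ) : ℝ) / ((2 : ℕ) : ℝ)) * ((E 50) + (E 51))) - (E 51)))) * (E 342))) - (((E 24) * ((E 49) - (E 48))) * (E 355))) - (((E 24) * ((E 48) - (E 47))) * (E 356)) ∧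
    E 2203 = (((((((((E 24) * (((E 116) - (E 108)) + ((((E 47) - (E 307)) * (E 109)) - (((E 51) - (E 307)) * (E 117))))) - (((((1 : ℤ) : ℝ) / ((6 : ℕ) : ℝ)) * ((((E 48) - (E 307)) + ((E 48) - (E 307))) + ((E 51) - (E 307)))) * (E 188))) - ((E 24) * (((((E 50) - (E 49)) * (((((1 : ℤ) : ℝ) / ((2 : ℕ) : ℝ)) * ((E 49) + (E 50))) - (E 307))) * (((E 50) - (E 49)) * (E 174))) + ((((E 50) - (E 49)) * (((((1 : ℤ) : ℝ) / ((3 : ℕ) : ℝ)) * (((((E 49) - (E 50)) * ((E 49) - (E 50))) + (((E 49) - (E 50)) * ((E 50) - (E 50)))) + (((E 50) - (E 50)) * ((E 50) - (E 50))))) + (((E 50) - (E 307)) * (((((1 : ℤ) : ℝ) / ((2 : ℕ) : ℝ)) * ((E 49) + (E 50))) - (E 50))))) * (E 174))))) - ((E 24) * ((((E 50) - (E 49)) * (((((1 : ℤ) : ℝ) / ((2 : ℕ) : ℝ)) * ((E 49) + (E 50))) - (E 307))) * (E 175)))) - ((E 24) * (((((1 : ℤ) : ℝ) / ((6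 : ℕ) : ℝ)) * ((((E 47) - (E 307)) + ((E 47) - (E 307))) + ((E 50) - (E 307)))) * (E 177)))) - (((E 24) * (((E 51) - (E 50)) * (((((1 : ℤ) : ℝ) / ((2 : ℕ) : ℝ)) * ((E 50) + (E 51))) - (E 307)))) * (E 343))) - (((E 24) * (((E 51) - (E 50)) * (((((1 : ℤ) : ℝ) / ((3 : ℕ) : ℝ)) * (((((E 50) - (E 51)) * ((E 50) - (E 51))) + (((E 50) - (E 51)) * ((E 51) - (E 51)))) + (((E 51) - (E 51)) * ((E 51) - (E 51))))) + (((E 51) - (E 307)) * (((((1 : ℤ) : ℝ) / ((2 : ℕ) : ℝ)) * ((E 50) + (E 51))) - (E 51)))))) * (E 342))) - (((E 24) * (((E 49) - (E 48)) * (((((1 : ℤ) : ℝ) / ((2 : ℕ) : ℝ)) * ((E 48) + (E 49))) - (E 307)))) * (E 355))) - (((E 24) * (((E 48) - (E 47)) * (((((1 : ℤ) : ℝ) / ((2 : ℕ) : ℝ)) * ((E 47) + (E 48))) - (E 307)))) * (E 356)) ∧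
    E 2204 = (E 2203) + ((E 307) * (E 2202)) ∧
    E 2205 = ((((((((((((((((((((((((((((((((((((((((((((E 36) - (E 35)) * (E 439)) + (((E 36) - (E 35)) * (E 439))) + ((((1 : ℤ) : ℝ) / ((1 : ℕ) : ℝ)) * ((E 87) - (E 105)))) + (((E 35) - (E 34)) * (((E 35) - (E 34)) * (E 176)))) + ((((E 35) - (E 34)) * (((((1 : ℤ) : ℝ) / ((2 : ℕ) : ℝ)) * ((E 34) + (E 35))) - (E 35))) * (E 176))) + (((E 36) - (E 34)) * ((E 324) * (((((1 : ℤ) : ℝ) / ((2 : ℕ) : ℝ)) * ((E 34) + (E 36))) - (E 34))))) + (((E 36) - (E 35)) * (((E 259) * (E 261)) + ((E 326) * (((((1 : ℤ) : ℝ) / ((2 : ℕ) : ℝ)) * ((E 35) + (E 36))) - (E 35)))))) + ((((1 : ℤ) : ℝ) / ((2 : ℕ) : ℝ)) * ((E 263) + (E 264)))) + (((E 36) - (E 35)) * (E 434))) - ((((1 : ℤ) : ℝ) / ((2 : ℕ) : ℝ)) * (E 192))) - ((((1 : ℤ) : ℝ) / ((2 : ℕ) : ℝ)) * ((E 197) + (E 196)))) - ((((1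 : ℤ) : ℝ) / ((2 : ℕ) : ℝ)) * ((E 201) + (E 200)))) - ((((1 : ℤ) : ℝ) / ((2 : ℕ) : ℝ)) * ((E 206) + (E 205)))) - (((E 44) - (E 36)) * ((E 324) * (((((1 : ℤ) : ℝ) / ((2 : ℕ) : ℝ)) * ((E 36) + (E 44))) - (E 34))))) - ((((1 : ℤ) : ℝ) / ((2 : ℕ) : ℝ)) * (E 209))) - ((((1 : ℤ) : ℝ) / ((2 : ℕ) : ℝ)) * (E 213))) - ((((1 : ℤ) : ℝ) / ((2 : ℕ) : ℝ)) * (E 224))) - ((((1 : ℤ) : ℝ) / ((2 : ℕ) : ℝ)) * ((E 228) + (E 227)))) - ((((1 : ℤ) : ℝ) / ((2 : ℕ) : ℝ)) * (E 216))) - ((((1 : ℤ) : ℝ) / ((2 : ℕ) : ℝ)) * (E 219))) - ((((1 : ℤ) : ℝ) / ((2 : ℕ) : ℝ)) * ((E 232) + (E 231)))) - ((((1 : ℤ) : ℝ) / ((2 : ℕ) : ℝ)) * (E 236))) - ((((1 : ℤ) : ℝ) / ((2 : ℕ) : ℝ)) * (E 244))) - ((((1 : ℤ) : ℝ) / ((2 : ℕ) : ℝ)) * (E 247))) - ((((1 : ℤ) : ℝ) / ((2 : ℕ) : ℝ)) * (E 221))) - ((((1 : ℤ) : ℝ) / ((2 : ℕ) : ℝ)) * (E 234))) - ((((1 : ℤ)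 : ℝ) / ((2 : ℕ) : ℝ)) * ((E 250) + (E 249)))) - ((((1 : ℤ) : ℝ) / ((2 : ℕ) : ℝ)) * ((E 253) + (E 252)))) - ((((1 : ℤ) : ℝ) / ((2 : ℕ) : ℝ)) * ((E 257) + (E 256)))) - ((((1 : ℤ) : ℝ) / ((2 : ℕ) : ℝ)) * ((E 240) + (E 239)))) - ((((1 : ℤ) : ℝ) / ((2 : ℕ) : ℝ)) * (E 279))) - ((((1 : ℤ) : ℝ) / ((2 : ℕ) : ℝ)) * (E 281))) - ((((1 : ℤ) : ℝ) / ((2 : ℕ) : ℝ)) * (E 286))) - ((((1 : ℤ) : ℝ) / ((2 : ℕ) : ℝ)) * (E 270))) - ((((1 : ℤ) : ℝ) / ((2 : ℕ) : ℝ)) * (E 277))) - ((((1 : ℤ) : ℝ) / ((2 : ℕ) : ℝ)) * (E 288))) - (((E 37) - (E 36)) * (((E 260) * (E 261)) + ((E 326) * (((((1 : ℤ) : ℝ) / ((2 : ℕ) : ℝ)) * ((E 36) + (E 37))) - (E 37)))))) - ((((1 : ℤ) : ℝ) / ((2 : ℕ) : ℝ)) * (E 273))) - ((((1 : ℤ) : ℝ) / ((2 : ℕ) : ℝ)) * (E 275))) - ((((1 : ℤ) : ℝ) / ((2 : ℕ) : ℝ)) * (E 283))) - ((((1 : ℤ) : ℝ) / ((2 : ℕ) : ℝ)) * (E 290)))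 - (((E 43) - (E 39)) * (E 435))) - (((E 39) - (E 36)) * (E 434)) ∧
    E 2206 = (((((((((((((((((((((((((((((((((((((((((((((((((((((((E 36) - (E 35)) * (((((1 : ℤ) : ℝ) / ((2 : ℕ) : ℝ)) * ((E 35) + (E 36))) - (E 311))) * (E 439)) + ((((1 : ℤ) : ℝ) / ((1 : ℕ) : ℝ)) * (((E 104) - (E 86)) + ((((E 36) - (E 311)) * (E 87)) - (((E 45) - (E 311)) * (E 105)))))) - ((((E 36) - (E 35)) * (((((1 : ℤ) : ℝ) / ((2 : ℕ) : ℝ)) * ((E 35) + (E 36))) - ((((0 : ℤ) : ℝ) / ((1 : ℕ) : ℝ)) - (E 311)))) * (E 439))) - (((((1 : ℤ) : ℝ) / ((6 : ℕ) : ℝ)) * ((((E 44) - (E 311)) + ((E 44) - (E 311))) + ((E 45) - (E 311)))) * (E 192))) - (((((1 : ℤ) : ℝ) / ((6 : ℕ) : ℝ)) * ((((E 44) - (E 311)) + ((E 44) - (E 311))) + ((E 45) - (E 311)))) * (E 197))) - (((((1 : ℤ) : ℝ) / ((6 : ℕ) : ℝ)) * (((E 44) - (E 311)) + (((E 45) - (E 311)) + ((E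 45) - (E 311))))) * (E 196))) - (((((1 : ℤ) : ℝ) / ((6 : ℕ) : ℝ)) * ((((E 43) - (E 311)) + ((E 43) - (E 311))) + ((E 45) - (E 311)))) * (E 201))) - (((((1 : ℤ) : ℝ) / ((6 : ℕ) : ℝ)) * (((E 43) - (E 311)) + (((E 45) - (E 311)) + ((E 45) - (E 311))))) * (E 200))) - (((((1 : ℤ) : ℝ) / ((6 : ℕ) : ℝ)) * ((((E 42) - (E 311)) + ((E 42) - (E 311))) + ((E 45) - (E 311)))) * (E 206))) - (((((1 : ℤ) : ℝ) / ((6 : ℕ) : ℝ)) * (((E 42) - (E 311)) + (((E 45) - (E 311)) + ((E 45) - (E 311))))) * (E 205))) - (((E 44) - (E 36)) * ((E 324) * (((((1 : ℤ) : ℝ) / ((3 : ℕ) : ℝ)) * (((((E 36) - (E 34)) * ((E 36) - (E 34))) + (((E 36) - (E 34)) * ((E 44) - (E 34)))) + (((E 44) - (E 34)) * ((E 44) - (E 34))))) + (((E 34) - (E 311)) * (((((1 : ℤ) : ℝ) / ((2 : ℕ) : ℝ)) * ((E 36) + (E 44))) - (E 34))))))) - (((((1 : ℤ) : ℝ) / ((6 :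 ℕ) : ℝ)) * ((((E 43) - (E 311)) + ((E 43) - (E 311))) + ((E 44) - (E 311)))) * (E 209))) - (((((1 : ℤ) : ℝ) / ((6 : ℕ) : ℝ)) * (((E 43) - (E 311)) + (((E 44) - (E 311)) + ((E 44) - (E 311))))) * (E 213))) - (((((1 : ℤ) : ℝ) / ((6 : ℕ) : ℝ)) * (((E 43) - (E 311)) + (((E 44) - (E 311)) + ((E 44) - (E 311))))) * (E 224))) - (((((1 : ℤ) : ℝ) / ((6 : ℕ) : ℝ)) * ((((E 40) - (E 311)) + ((E 40) - (E 311))) + ((E 44) - (E 311)))) * (E 228))) - (((((1 : ℤ) : ℝ) / ((6 : ℕ) : ℝ)) * (((E 40) - (E 311)) + (((E 44) - (E 311)) + ((E 44) - (E 311))))) * (E 227))) - (((((1 : ℤ) : ℝ) / ((6 : ℕ) : ℝ)) * (((E 42) - (E 311)) + (((E 43) - (E 311)) + ((E 43) - (E 311))))) * (E 216))) - (((((1 : ℤ) : ℝ) / ((6 : ℕ) : ℝ)) * (((E 42) - (E 311)) + (((E 43) - (E 311)) + ((E 43) - (E 311))))) * (E 219))) - (((((1 : ℤ) : ℝ) / ((6 : ℕ)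 : ℝ)) * ((((E 42) - (E 311)) + ((E 42) - (E 311))) + ((E 43) - (E 311)))) * (E 232))) - (((((1 : ℤ) : ℝ) / ((6 : ℕ) : ℝ)) * (((E 42) - (E 311)) + (((E 43) - (E 311)) + ((E 43) - (E 311))))) * (E 231))) - (((((1 : ℤ) : ℝ) / ((6 : ℕ) : ℝ)) * ((((E 41) - (E 311)) + ((E 41) - (E 311))) + ((E 43) - (E 311)))) * (E 236))) - (((((1 : ℤ) : ℝ) / ((6 : ℕ) : ℝ)) * ((((E 40) - (E 311)) + ((E 40) - (E 311))) + ((E 43) - (E 311)))) * (E 244))) - (((((1 : ℤ) : ℝ) / ((6 : ℕ) : ℝ)) * (((E 39) - (E 311)) + (((E 43) - (E 311)) + ((E 43) - (E 311))))) * (E 247))) - (((((1 : ℤ) : ℝ) / ((6 : ℕ) : ℝ)) * (((E 40) - (E 311)) + (((E 42) - (E 311)) + ((E 42) - (E 311))))) * (E 221))) - (((((1 : ℤ) : ℝ) / ((6 : ℕ) : ℝ)) * (((E 40) - (E 311)) + (((E 42) - (E 311)) + ((E 42) - (E 311))))) * (E 234))) - (((((1 : ℤ) : ℝ) / ((6 : ℕ) :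 ℝ)) * ((((E 40) - (E 311)) + ((E 40) - (E 311))) + ((E 42) - (E 311)))) * (E 250))) - (((((1 : ℤ) : ℝ) / ((6 : ℕ) : ℝ)) * (((E 40) - (E 311)) + (((E 42) - (E 311)) + ((E 42) - (E 311))))) * (E 249))) - (((((1 : ℤ) : ℝ) / ((6 : ℕ) : ℝ)) * ((((E 39) - (E 311)) + ((E 39) - (E 311))) + ((E 42) - (E 311)))) * (E 253))) - (((((1 : ℤ) : ℝ) / ((6 : ℕ) : ℝ)) * (((E 39) - (E 311)) + (((E 42) - (E 311)) + ((E 42) - (E 311))))) * (E 252))) - (((((1 : ℤ) : ℝ) / ((6 : ℕ) : ℝ)) * ((((E 40) - (E 311)) + ((E 40) - (E 311))) + ((E 42) - (E 311)))) * (E 257))) - (((((1 : ℤ) : ℝ) / ((6 : ℕ) : ℝ)) * (((E 40) - (E 311)) + (((E 42) - (E 311)) + ((E 42) - (E 311))))) * (E 256))) - (((((1 : ℤ) : ℝ) / ((6 : ℕ) : ℝ)) * ((((E 36) - (E 311)) + ((E 36) - (E 311))) + ((E 41) - (E 311)))) * (E 240))) - (((((1 : ℤ) : ℝ) / ((6 : ℕ) : ℝ))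 * (((E 36) - (E 311)) + (((E 41) - (E 311)) + ((E 41) - (E 311))))) * (E 239))) - (((((1 : ℤ) : ℝ) / ((6 : ℕ) : ℝ)) * (((E 36) - (E 311)) + (((E 40) - (E 311)) + ((E 40) - (E 311))))) * (E 279))) - (((((1 : ℤ) : ℝ) / ((6 : ℕ) : ℝ)) * (((E 37) - (E 311)) + (((E 40) - (E 311)) + ((E 40) - (E 311))))) * (E 281))) - (((((1 : ℤ) : ℝ) / ((6 : ℕ) : ℝ)) * (((E 39) - (E 311)) + (((E 40) - (E 311)) + ((E 40) - (E 311))))) * (E 286))) - (((((1 : ℤ) : ℝ) / ((6 : ℕ) : ℝ)) * ((((E 36) - (E 311)) + ((E 36) - (E 311))) + ((E 39) - (E 311)))) * (E 270))) - (((((1 : ℤ) : ℝ) / ((6 : ℕ) : ℝ)) * (((E 37) - (E 311)) + (((E 39) - (E 311)) + ((E 39) - (E 311))))) * (E 277))) - (((((1 : ℤ) : ℝ) / ((6 : ℕ) : ℝ)) * ((((E 36) - (E 311)) + ((E 36) - (E 311))) + ((E 39) - (E 311)))) * (E 288))) - ((((E 35) - (E 34)) * (((((1 : ℤ) :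 ℝ) / ((2 : ℕ) : ℝ)) * ((E 34) + (E 35))) - ((((0 : ℤ) : ℝ) / ((1 : ℕ) : ℝ)) - (E 311)))) * (((E 35) - (E 34)) * (E 176)))) - ((((E 35) - (E 34)) * (((((1 : ℤ) : ℝ) / ((3 : ℕ) : ℝ)) * (((((E 34) - (E 35)) * ((E 34) - (E 35))) + (((E 34) - (E 35)) * ((E 35) - (E 35)))) + (((E 35) - (E 35)) * ((E 35) - (E 35))))) + (((E 35) - ((((0 : ℤ) : ℝ) / ((1 : ℕ) : ℝ)) - (E 311))) * (((((1 : ℤ) : ℝ) / ((2 : ℕ) : ℝ)) * ((E 34) + (E 35))) - (E 35))))) * (E 176))) - (((E 36) - (E 34)) * ((E 324) * (((((1 : ℤ) : ℝ) / ((3 : ℕ) : ℝ)) * (((((E 34) - (E 34)) * ((E 34) - (E 34))) + (((E 34) - (E 34)) * ((E 36) - (E 34)))) + (((E 36) - (E 34)) * ((E 36) - (E 34))))) + (((E 34) - ((((0 : ℤ) : ℝ) / ((1 : ℕ) : ℝ)) - (E 311))) * (((((1 : ℤ) : ℝ) / ((2 : ℕ) : ℝ)) * ((E 34) + (E 36))) - (E 34))))))) - (((E 36) - (E 35)) * ((((E 259)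 * (E 261)) * (((((1 : ℤ) : ℝ) / ((2 : ℕ) : ℝ)) * ((E 35) + (E 36))) - ((((0 : ℤ) : ℝ) / ((1 : ℕ) : ℝ)) - (E 311)))) + ((E 326) * (((((1 : ℤ) : ℝ) / ((3 : ℕ) : ℝ)) * (((((E 35) - (E 35)) * ((E 35) - (E 35))) + (((E 35) - (E 35)) * ((E 36) - (E 35)))) + (((E 36) - (E 35)) * ((E 36) - (E 35))))) + (((E 35) - ((((0 : ℤ) : ℝ) / ((1 : ℕ) : ℝ)) - (E 311))) * (((((1 : ℤ) : ℝ) / ((2 : ℕ) : ℝ)) * ((E 35) + (E 36))) - (E 35)))))))) - (((E 37) - (E 36)) * ((((E 260) * (E 261)) * (((((1 : ℤ) : ℝ) / ((2 : ℕ) : ℝ)) * ((E 36) + (E 37))) - (E 311))) + ((E 326) * (((((1 : ℤ) : ℝ) / ((3 : ℕ) : ℝ)) * (((((E 36) - (E 37)) * ((E 36) - (E 37))) + (((E 36) - (E 37)) * ((E 37) - (E 37)))) + (((E 37) - (E 37)) * ((E 37) - (E 37))))) + (((E 37) - (E 311)) * (((((1 : ℤ) : ℝ) / ((2 : ℕ) : ℝ)) * ((E 36) + (E 37))) - (E 37)))))))) -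 (((((1 : ℤ) : ℝ) / ((6 : ℕ) : ℝ)) * ((((E 35) - ((((0 : ℤ) : ℝ) / ((1 : ℕ) : ℝ)) - (E 311))) + ((E 35) - ((((0 : ℤ) : ℝ) / ((1 : ℕ) : ℝ)) - (E 311)))) + ((E 36) - ((((0 : ℤ) : ℝ) / ((1 : ℕ) : ℝ)) - (E 311))))) * (E 263))) - (((((1 : ℤ) : ℝ) / ((6 : ℕ) : ℝ)) * (((E 35) - ((((0 : ℤ) : ℝ) / ((1 : ℕ) : ℝ)) - (E 311))) + (((E 36) - ((((0 : ℤ) : ℝ) / ((1 : ℕ) : ℝ)) - (E 311))) + ((E 36) - ((((0 : ℤ) : ℝ) / ((1 : ℕ) : ℝ)) - (E 311)))))) * (E 264))) - (((((1 : ℤ) : ℝ) / ((6 : ℕ) : ℝ)) * (((E 36) - (E 311)) + (((E 37) - (E 311)) + ((E 37) - (E 311))))) * (E 273))) - (((((1 : ℤ) : ℝ) / ((6 : ℕ) : ℝ)) * ((((E 36) - (E 311)) + ((E 36) - (E 311))) + ((E 37) - (E 311)))) * (E 275))) - (((((1 : ℤ) : ℝ) / ((6 : ℕ) : ℝ)) * (((E 36) - (E 311)) + (((E 37) - (E 311)) + ((E 37) - (E 311))))) * (E 283))) - (((((1 : ℤ) : ℝ)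 / ((6 : ℕ) : ℝ)) * ((((E 36) - (E 311)) + ((E 36) - (E 311))) + ((E 37) - (E 311)))) * (E 290))) - ((((E 43) - (E 39)) * (((((1 : ℤ) : ℝ) / ((2 : ℕ) : ℝ)) * ((E 39) + (E 43))) - (E 311))) * (E 435))) - ((((E 39) - (E 36)) * (((((1 : ℤ) : ℝ) / ((2 : ℕ) : ℝ)) * ((E 36) + (E 39))) - (E 311))) * (E 434))) - ((((E 36) - (E 35)) * (((((1 : ℤ) : ℝ) / ((2 : ℕ) : ℝ)) * ((E 35) + (E 36))) - ((((0 : ℤ) : ℝ) / ((1 : ℕ) : ℝ)) - (E 311)))) * (E 434)) ∧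
    E 2207 = (E 2206) + ((E 311) * (E 2205)) ∧ True := h.v12

theorem V13 (h : TaH K E p) :
    E 2208 = ((((((((((((((((((((((((((((((((((E 23) * ((E 151) - (E 159))) - ((((1 : ℤ) : ℝ) / ((2 : ℕ) : ℝ)) * (E 192))) - ((((1 : ℤ) : ℝ) / ((2 : ℕ) : ℝ)) * ((E 197) + (E 196)))) - ((((1 : ℤ) : ℝ) / ((2 : ℕ) : ℝ)) * ((E 201) + (E 200)))) - ((((1 : ℤ) : ℝ) / ((2 : ℕ) : ℝ)) * ((E 206) + (E 205)))) - ((((1 : ℤ) : ℝ) / ((2 : ℕ) : ℝ)) * ((E 260) + (E 259)))) - ((((1 : ℤ) : ℝ) / ((2 : ℕ) : ℝ)) * ((E 264) + (E 263)))) - ((((1 : ℤ) : ℝ) / ((2 : ℕ) : ℝ)) * ((E 269) + (E 268)))) - ((((1 : ℤ) : ℝ) / ((2 : ℕ) : ℝ)) * (E 270))) - ((((1 : ℤ) : ℝ) / ((2 : ℕ) : ℝ)) * (E 273))) - ((((1 : ℤ) : ℝ) / ((2 : ℕ) : ℝ)) * (E 275))) - ((((1 : ℤ) : ℝ) / ((2 : ℕ) : ℝ)) * (E 277))) - ((((1 : ℤ) : ℝ) / ((2 : ℕ) : ℝ)) * (E 209))) - ((((1 :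 ℤ) : ℝ) / ((2 : ℕ) : ℝ)) * (E 213))) - ((((1 : ℤ) : ℝ) / ((2 : ℕ) : ℝ)) * (E 216))) - ((((1 : ℤ) : ℝ) / ((2 : ℕ) : ℝ)) * (E 219))) - ((((1 : ℤ) : ℝ) / ((2 : ℕ) : ℝ)) * (E 221))) - ((((1 : ℤ) : ℝ) / ((2 : ℕ) : ℝ)) * (E 244))) - ((((1 : ℤ) : ℝ) / ((2 : ℕ) : ℝ)) * ((E 249) + (E 250)))) - ((((1 : ℤ) : ℝ) / ((2 : ℕ) : ℝ)) * (E 279))) - ((((1 : ℤ) : ℝ) / ((2 : ℕ) : ℝ)) * (E 281))) - ((((1 : ℤ) : ℝ) / ((2 : ℕ) : ℝ)) * (E 283))) - ((((1 : ℤ) : ℝ) / ((2 : ℕ) : ℝ)) * (E 286))) - ((((1 : ℤ) : ℝ) / ((2 : ℕ) : ℝ)) * (E 288))) - ((((1 : ℤ) : ℝ) / ((2 : ℕ) : ℝ)) * ((E 239) + (E 240)))) - ((((1 : ℤ) : ℝ) / ((2 : ℕ) : ℝ)) * (E 290))) - ((((1 : ℤ) : ℝ) / ((2 : ℕ) : ℝ)) * (E 224))) - ((((1 : ℤ) : ℝ) / ((2 : ℕ) : ℝ)) * ((E 228) + (E 227)))) - ((((1 : ℤ) : ℝ) / ((2 : ℕ) : ℝ)) * ((E 232) + (E 231)))) - ((((1 : ℤ) : ℝ) / ((2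 : ℕ) : ℝ)) * (E 234))) - ((((1 : ℤ) : ℝ) / ((2 : ℕ) : ℝ)) * (E 236))) - ((((1 : ℤ) : ℝ) / ((2 : ℕ) : ℝ)) * (E 247))) - ((((1 : ℤ) : ℝ) / ((2 : ℕ) : ℝ)) * ((E 252) + (E 253)))) - ((((1 : ℤ) : ℝ) / ((2 : ℕ) : ℝ)) * ((E 256) + (E 257))) ∧
    E 2209 = ((((((((((((((((((((((((((((((((((((((((((((((E 23) * (((E 158) - (E 150)) + ((((E 68) - (E 309)) * (E 151)) - (((E 72) - (E 309)) * (E 159))))) - (((((1 : ℤ) : ℝ) / ((6 : ℕ) : ℝ)) * ((((E 71) - (E 309)) + ((E 71) - (E 309))) + ((E 72) - (E 309)))) * (E 192))) - (((((1 : ℤ) : ℝ) / ((6 : ℕ) : ℝ)) * ((((E 69) - (E 309)) + ((E 69) - (E 309))) + ((E 72) - (E 309)))) * (E 197))) - (((((1 : ℤ) : ℝ) / ((6 : ℕ) : ℝ)) * (((E 69) - (E 309)) + (((E 72) - (E 309)) + ((E 72) - (E 309))))) * (E 196))) - (((((1 : ℤ) : ℝ) / ((6 : ℕ) : ℝ)) * ((((E 68) - (E 309)) + ((E 68) -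 (E 309))) + ((E 72) - (E 309)))) * (E 201))) - (((((1 : ℤ) : ℝ) / ((6 : ℕ) : ℝ)) * (((E 68) - (E 309)) + (((E 72) - (E 309)) + ((E 72) - (E 309))))) * (E 200))) - (((((1 : ℤ) : ℝ) / ((6 : ℕ) : ℝ)) * ((((E 68) - (E 309)) + ((E 68) - (E 309))) + ((E 72) - (E 309)))) * (E 206))) - (((((1 : ℤ) : ℝ) / ((6 : ℕ) : ℝ)) * (((E 68) - (E 309)) + (((E 72) - (E 309)) + ((E 72) - (E 309))))) * (E 205))) - (((((1 : ℤ) : ℝ) / ((6 : ℕ) : ℝ)) * ((((E 71) - (E 309)) + ((E 71) - (E 309))) + ((E 72) - (E 309)))) * (E 260))) - (((((1 : ℤ) : ℝ) / ((6 : ℕ) : ℝ)) * (((E 71) - (E 309)) + (((E 72) - (E 309)) + ((E 72) - (E 309))))) * (E 259))) - (((((1 : ℤ) : ℝ) / ((6 : ℕ) : ℝ)) * ((((E 70) - (E 309)) + ((E 70) - (E 309))) + ((E 72) - (E 309)))) * (E 264))) - (((((1 : ℤ) : ℝ) / ((6 : ℕ) : ℝ)) * (((E 70) - (E 309)) + (((E 72) - (E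 309)) + ((E 72) - (E 309))))) * (E 263))) - (((((1 : ℤ) : ℝ) / ((6 : ℕ) : ℝ)) * ((((E 71) - (E 309)) + ((E 71) - (E 309))) + ((E 72) - (E 309)))) * (E 269))) - (((((1 : ℤ) : ℝ) / ((6 : ℕ) : ℝ)) * (((E 71) - (E 309)) + (((E 72) - (E 309)) + ((E 72) - (E 309))))) * (E 268))) - (((((1 : ℤ) : ℝ) / ((6 : ℕ) : ℝ)) * (((E 71) - (E 309)) + (((E 72) - (E 309)) + ((E 72) - (E 309))))) * (E 270))) - (((((1 : ℤ) : ℝ) / ((6 : ℕ) : ℝ)) * ((((E 69) - (E 309)) + ((E 69) - (E 309))) + ((E 72) - (E 309)))) * (E 273))) - (((((1 : ℤ) : ℝ) / ((6 : ℕ) : ℝ)) * ((((E 71) - (E 309)) + ((E 71) - (E 309))) + ((E 72) - (E 309)))) * (E 275))) - (((((1 : ℤ) : ℝ) / ((6 : ℕ) : ℝ)) * ((((E 69) - (E 309)) + ((E 69) - (E 309))) + ((E 72) - (E 309)))) * (E 277))) - (((((1 : ℤ) : ℝ) / ((6 : ℕ) : ℝ)) * ((((E 69) - (E 309)) + ((E 69) - (E 309)))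 + ((E 71) - (E 309)))) * (E 209))) - (((((1 : ℤ) : ℝ) / ((6 : ℕ) : ℝ)) * (((E 68) - (E 309)) + (((E 71) - (E 309)) + ((E 71) - (E 309))))) * (E 213))) - (((((1 : ℤ) : ℝ) / ((6 : ℕ) : ℝ)) * (((E 68) - (E 309)) + (((E 71) - (E 309)) + ((E 71) - (E 309))))) * (E 216))) - (((((1 : ℤ) : ℝ) / ((6 : ℕ) : ℝ)) * ((((E 68) - (E 309)) + ((E 68) - (E 309))) + ((E 71) - (E 309)))) * (E 219))) - (((((1 : ℤ) : ℝ) / ((6 : ℕ) : ℝ)) * (((E 68) - (E 309)) + (((E 71) - (E 309)) + ((E 71) - (E 309))))) * (E 221))) - (((((1 : ℤ) : ℝ) / ((6 : ℕ) : ℝ)) * (((E 68) - (E 309)) + (((E 71) - (E 309)) + ((E 71) - (E 309))))) * (E 244))) - (((((1 : ℤ) : ℝ) / ((6 : ℕ) : ℝ)) * ((((E 68) - (E 309)) + ((E 68) - (E 309))) + ((E 71) - (E 309)))) * (E 249))) - (((((1 : ℤ) : ℝ) / ((6 : ℕ) : ℝ)) * (((E 68) - (E 309)) + (((E 71) - (E 309)) +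 ((E 71) - (E 309))))) * (E 250))) - (((((1 : ℤ) : ℝ) / ((6 : ℕ) : ℝ)) * ((((E 69) - (E 309)) + ((E 69) - (E 309))) + ((E 71) - (E 309)))) * (E 279))) - (((((1 : ℤ) : ℝ) / ((6 : ℕ) : ℝ)) * ((((E 69) - (E 309)) + ((E 69) - (E 309))) + ((E 71) - (E 309)))) * (E 281))) - (((((1 : ℤ) : ℝ) / ((6 : ℕ) : ℝ)) * (((E 70) - (E 309)) + (((E 71) - (E 309)) + ((E 71) - (E 309))))) * (E 283))) - (((((1 : ℤ) : ℝ) / ((6 : ℕ) : ℝ)) * ((((E 68) - (E 309)) + ((E 68) - (E 309))) + ((E 71) - (E 309)))) * (E 286))) - (((((1 : ℤ) : ℝ) / ((6 : ℕ) : ℝ)) * ((((E 70) - (E 309)) + ((E 70) - (E 309))) + ((E 71) - (E 309)))) * (E 288))) - (((((1 : ℤ) : ℝ) / ((6 : ℕ) : ℝ)) * ((((E 69) - (E 309)) + ((E 69) - (E 309))) + ((E 70) - (E 309)))) * (E 239))) - (((((1 : ℤ) : ℝ) / ((6 : ℕ) : ℝ)) * (((E 69) - (E 309)) + (((E 70) - (E 309)) + ((E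 70) - (E 309))))) * (E 240))) - (((((1 : ℤ) : ℝ) / ((6 : ℕ) : ℝ)) * (((E 69) - (E 309)) + (((E 70) - (E 309)) + ((E 70) - (E 309))))) * (E 290))) - (((((1 : ℤ) : ℝ) / ((6 : ℕ) : ℝ)) * (((E 68) - (E 309)) + (((E 69) - (E 309)) + ((E 69) - (E 309))))) * (E 224))) - (((((1 : ℤ) : ℝ) / ((6 : ℕ) : ℝ)) * ((((E 68) - (E 309)) + ((E 68) - (E 309))) + ((E 69) - (E 309)))) * (E 228))) - (((((1 : ℤ) : ℝ) / ((6 : ℕ) : ℝ)) * (((E 68) - (E 309)) + (((E 69) - (E 309)) + ((E 69) - (E 309))))) * (E 227))) - (((((1 : ℤ) : ℝ) / ((6 : ℕ) : ℝ)) * ((((E 68) - (E 309)) + ((E 68) - (E 309))) + ((E 69) - (E 309)))) * (E 232))) - (((((1 : ℤ) : ℝ) / ((6 : ℕ) : ℝ)) * (((E 68) - (E 309)) + (((E 69) - (E 309)) + ((E 69) - (E 309))))) * (E 231))) - (((((1 : ℤ) : ℝ) / ((6 : ℕ) : ℝ)) * (((E 68) - (E 309)) + (((E 69) - (E 309)) + ((E 69)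 - (E 309))))) * (E 234))) - (((((1 : ℤ) : ℝ) / ((6 : ℕ) : ℝ)) * (((E 68) - (E 309)) + (((E 69) - (E 309)) + ((E 69) - (E 309))))) * (E 236))) - (((((1 : ℤ) : ℝ) / ((6 : ℕ) : ℝ)) * ((((E 68) - (E 309)) + ((E 68) - (E 309))) + ((E 69) - (E 309)))) * (E 247))) - (((((1 : ℤ) : ℝ) / ((6 : ℕ) : ℝ)) * ((((E 68) - (E 309)) + ((E 68) - (E 309))) + ((E 69) - (E 309)))) * (E 252))) - (((((1 : ℤ) : ℝ) / ((6 : ℕ) : ℝ)) * (((E 68) - (E 309)) + (((E 69) - (E 309)) + ((E 69) - (E 309))))) * (E 253))) - (((((1 : ℤ) : ℝ) / ((6 : ℕ) : ℝ)) * ((((E 68) - (E 309)) + ((E 68) - (E 309))) + ((E 69) - (E 309)))) * (E 256))) - (((((1 : ℤ) : ℝ) / ((6 : ℕ) : ℝ)) * (((E 68) - (E 309)) + (((E 69) - (E 309)) + ((E 69) - (E 309))))) * (E 257)) ∧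
    E 2210 = (E 2209) + ((E 309) * (E 2208)) ∧
    E 2211 = ((((((((((((((((((((((((((((((((((E 24) * ((E 131) - (E 151))) - ((((1 : ℤ) : ℝ) / ((2 : ℕ) : ℝ)) * ((E 239) + (E 240)))) - ((((1 : ℤ) : ℝ) / ((2 : ℕ) : ℝ)) * ((E 263) + (E 264)))) - ((((1 : ℤ) : ℝ) / ((2 : ℕ) : ℝ)) * (E 283))) - ((((1 : ℤ) : ℝ) / ((2 : ℕ) : ℝ)) * (E 288))) - ((((1 : ℤ) : ℝ) / ((2 : ℕ) : ℝ)) * (E 290))) - ((((1 : ℤ) : ℝ) / ((2 : ℕ) : ℝ)) * ((E 260) + (E 259)))) - ((((1 : ℤ) : ℝ) / ((2 : ℕ) : ℝ)) * ((E 268) + (E 269)))) - ((((1 : ℤ) : ℝ) / ((2 : ℕ) : ℝ)) * (E 273))) - ((((1 : ℤ) : ℝ) / ((2 : ℕ) : ℝ)) * (E 275))) - ((((1 : ℤ) : ℝ) / ((2 : ℕ) : ℝ)) * (E 279))) - ((((1 : ℤ) : ℝ) / ((2 : ℕ) : ℝ)) * (E 221))) - ((((1 : ℤ) : ℝ) / ((2 : ℕ) : ℝ)) * ((E 227) + (E 228)))) - ((((1 : ℤ) : ℝ) / ((2 : ℕ) : ℝ)) * (E 234))) - ((((1 : ℤ) : ℝ) /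 ((2 : ℕ) : ℝ)) * (E 247))) - ((((1 : ℤ) : ℝ) / ((2 : ℕ) : ℝ)) * ((E 252) + (E 253)))) - ((((1 : ℤ) : ℝ) / ((2 : ℕ) : ℝ)) * (E 270))) - ((((1 : ℤ) : ℝ) / ((2 : ℕ) : ℝ)) * (E 277))) - ((((1 : ℤ) : ℝ) / ((2 : ℕ) : ℝ)) * (E 281))) - ((((1 : ℤ) : ℝ) / ((2 : ℕ) : ℝ)) * (E 286))) - ((((1 : ℤ) : ℝ) / ((2 : ℕ) : ℝ)) * ((E 256) + (E 257)))) - ((((1 : ℤ) : ℝ) / ((2 : ℕ) : ℝ)) * ((E 205) + (E 206)))) - ((((1 : ℤ) : ℝ) / ((2 : ℕ) : ℝ)) * (E 216))) - ((((1 : ℤ) : ℝ) / ((2 : ℕ) : ℝ)) * ((E 231) + (E 232)))) - ((((1 : ℤ) : ℝ) / ((2 : ℕ) : ℝ)) * (E 236))) - ((((1 : ℤ) : ℝ) / ((2 : ℕ) : ℝ)) * ((E 250) + (E 249)))) - ((((1 : ℤ) : ℝ) / ((2 : ℕ) : ℝ)) * (E 244))) - ((((1 : ℤ) : ℝ) / ((2 : ℕ) : ℝ)) * ((E 200) + (E 201)))) - ((((1 : ℤ) : ℝ) / ((2 : ℕ) : ℝ)) * (E 213))) - ((((1 : ℤ) : ℝ) / ((2 : ℕ) : ℝ)) * (E 219))) - ((((1 :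 ℤ) : ℝ) / ((2 : ℕ) : ℝ)) * (E 224))) - ((((1 : ℤ) : ℝ) / ((2 : ℕ) : ℝ)) * (E 209))) - ((((1 : ℤ) : ℝ) / ((2 : ℕ) : ℝ)) * ((E 196) + (E 197)))) - ((((1 : ℤ) : ℝ) / ((2 : ℕ) : ℝ)) * (E 192)) ∧
    E 2212 = ((((((((((((((((((((((((((((((((((((((((((((((E 24) * (((E 150) - (E 130)) + ((((E 58) - (E 310)) * (E 131)) - (((E 68) - (E 310)) * (E 151))))) - (((((1 : ℤ) : ℝ) / ((6 : ℕ) : ℝ)) * ((((E 64) - (E 310)) + ((E 64) - (E 310))) + ((E 68) - (E 310)))) * (E 239))) - (((((1 : ℤ) : ℝ) / ((6 : ℕ) : ℝ)) * (((E 64) - (E 310)) + (((E 68) - (E 310)) + ((E 68) - (E 310))))) * (E 240))) - (((((1 : ℤ) : ℝ) / ((6 : ℕ) : ℝ)) * ((((E 67) - (E 310)) + ((E 67) - (E 310))) + ((E 68) - (E 310)))) * (E 263))) - (((((1 : ℤ) : ℝ) / ((6 : ℕ) : ℝ)) * (((E 67) - (E 310)) + (((E 68) - (E 310)) + ((E 68) - (E 310))))) * (E 264)))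 - (((((1 : ℤ) : ℝ) / ((6 : ℕ) : ℝ)) * ((((E 66) - (E 310)) + ((E 66) - (E 310))) + ((E 68) - (E 310)))) * (E 283))) - (((((1 : ℤ) : ℝ) / ((6 : ℕ) : ℝ)) * (((E 65) - (E 310)) + (((E 68) - (E 310)) + ((E 68) - (E 310))))) * (E 288))) - (((((1 : ℤ) : ℝ) / ((6 : ℕ) : ℝ)) * (((E 67) - (E 310)) + (((E 68) - (E 310)) + ((E 68) - (E 310))))) * (E 290))) - (((((1 : ℤ) : ℝ) / ((6 : ℕ) : ℝ)) * ((((E 66) - (E 310)) + ((E 66) - (E 310))) + ((E 67) - (E 310)))) * (E 260))) - (((((1 : ℤ) : ℝ) / ((6 : ℕ) : ℝ)) * (((E 66) - (E 310)) + (((E 67) - (E 310)) + ((E 67) - (E 310))))) * (E 259))) - (((((1 : ℤ) : ℝ) / ((6 : ℕ) : ℝ)) * ((((E 66) - (E 310)) + ((E 66) - (E 310))) + ((E 67) - (E 310)))) * (E 268))) - (((((1 : ℤ) : ℝ) / ((6 : ℕ) : ℝ)) * (((E 66) - (E 310)) + (((E 67) - (E 310)) + ((E 67) - (E 310))))) * (E 269))) -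 (((((1 : ℤ) : ℝ) / ((6 : ℕ) : ℝ)) * (((E 66) - (E 310)) + (((E 67) - (E 310)) + ((E 67) - (E 310))))) * (E 273))) - (((((1 : ℤ) : ℝ) / ((6 : ℕ) : ℝ)) * (((E 65) - (E 310)) + (((E 67) - (E 310)) + ((E 67) - (E 310))))) * (E 275))) - (((((1 : ℤ) : ℝ) / ((6 : ℕ) : ℝ)) * ((((E 65) - (E 310)) + ((E 65) - (E 310))) + ((E 67) - (E 310)))) * (E 279))) - (((((1 : ℤ) : ℝ) / ((6 : ℕ) : ℝ)) * ((((E 61) - (E 310)) + ((E 61) - (E 310))) + ((E 66) - (E 310)))) * (E 221))) - (((((1 : ℤ) : ℝ) / ((6 : ℕ) : ℝ)) * ((((E 60) - (E 310)) + ((E 60) - (E 310))) + ((E 66) - (E 310)))) * (E 227))) - (((((1 : ℤ) : ℝ) / ((6 : ℕ) : ℝ)) * (((E 60) - (E 310)) + (((E 66) - (E 310)) + ((E 66) - (E 310))))) * (E 228))) - (((((1 : ℤ) : ℝ) / ((6 : ℕ) : ℝ)) * ((((E 62) - (E 310)) + ((E 62) - (E 310))) + ((E 66) - (E 310)))) * (E 234))) - (((((1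 : ℤ) : ℝ) / ((6 : ℕ) : ℝ)) * ((((E 62) - (E 310)) + ((E 62) - (E 310))) + ((E 66) - (E 310)))) * (E 247))) - (((((1 : ℤ) : ℝ) / ((6 : ℕ) : ℝ)) * ((((E 64) - (E 310)) + ((E 64) - (E 310))) + ((E 66) - (E 310)))) * (E 252))) - (((((1 : ℤ) : ℝ) / ((6 : ℕ) : ℝ)) * (((E 64) - (E 310)) + (((E 66) - (E 310)) + ((E 66) - (E 310))))) * (E 253))) - (((((1 : ℤ) : ℝ) / ((6 : ℕ) : ℝ)) * (((E 65) - (E 310)) + (((E 66) - (E 310)) + ((E 66) - (E 310))))) * (E 270))) - (((((1 : ℤ) : ℝ) / ((6 : ℕ) : ℝ)) * (((E 65) - (E 310)) + (((E 66) - (E 310)) + ((E 66) - (E 310))))) * (E 277))) - (((((1 : ℤ) : ℝ) / ((6 : ℕ) : ℝ)) * ((((E 65) - (E 310)) + ((E 65) - (E 310))) + ((E 66) - (E 310)))) * (E 281))) - (((((1 : ℤ) : ℝ) / ((6 : ℕ) : ℝ)) * (((E 65) - (E 310)) + (((E 66) - (E 310)) + ((E 66) - (E 310))))) * (E 286))) - (((((1 :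 ℤ) : ℝ) / ((6 : ℕ) : ℝ)) * ((((E 64) - (E 310)) + ((E 64) - (E 310))) + ((E 65) - (E 310)))) * (E 256))) - (((((1 : ℤ) : ℝ) / ((6 : ℕ) : ℝ)) * (((E 64) - (E 310)) + (((E 65) - (E 310)) + ((E 65) - (E 310))))) * (E 257))) - (((((1 : ℤ) : ℝ) / ((6 : ℕ) : ℝ)) * ((((E 58) - (E 310)) + ((E 58) - (E 310))) + ((E 64) - (E 310)))) * (E 205))) - (((((1 : ℤ) : ℝ) / ((6 : ℕ) : ℝ)) * (((E 58) - (E 310)) + (((E 64) - (E 310)) + ((E 64) - (E 310))))) * (E 206))) - (((((1 : ℤ) : ℝ) / ((6 : ℕ) : ℝ)) * ((((E 60) - (E 310)) + ((E 60) - (E 310))) + ((E 64) - (E 310)))) * (E 216))) - (((((1 : ℤ) : ℝ) / ((6 : ℕ) : ℝ)) * ((((E 61) - (E 310)) + ((E 61) - (E 310))) + ((E 64) - (E 310)))) * (E 231))) - (((((1 : ℤ) : ℝ) / ((6 : ℕ) : ℝ)) * (((E 61) - (E 310)) + (((E 64) - (E 310)) + ((E 64) - (E 310))))) * (E 232))) - (((((1 : ℤ)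 : ℝ) / ((6 : ℕ) : ℝ)) * (((E 62) - (E 310)) + (((E 64) - (E 310)) + ((E 64) - (E 310))))) * (E 236))) - (((((1 : ℤ) : ℝ) / ((6 : ℕ) : ℝ)) * ((((E 63) - (E 310)) + ((E 63) - (E 310))) + ((E 64) - (E 310)))) * (E 250))) - (((((1 : ℤ) : ℝ) / ((6 : ℕ) : ℝ)) * (((E 63) - (E 310)) + (((E 64) - (E 310)) + ((E 64) - (E 310))))) * (E 249))) - (((((1 : ℤ) : ℝ) / ((6 : ℕ) : ℝ)) * (((E 62) - (E 310)) + (((E 63) - (E 310)) + ((E 63) - (E 310))))) * (E 244))) - (((((1 : ℤ) : ℝ) / ((6 : ℕ) : ℝ)) * ((((E 58) - (E 310)) + ((E 58) - (E 310))) + ((E 62) - (E 310)))) * (E 200))) - (((((1 : ℤ) : ℝ) / ((6 : ℕ) : ℝ)) * (((E 58) - (E 310)) + (((E 62) - (E 310)) + ((E 62) - (E 310))))) * (E 201))) - (((((1 : ℤ) : ℝ) / ((6 : ℕ) : ℝ)) * ((((E 59) - (E 310)) + ((E 59) - (E 310))) + ((E 62) - (E 310)))) * (E 213))) - (((((1 : ℤ) :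 ℝ) / ((6 : ℕ) : ℝ)) * (((E 61) - (E 310)) + (((E 62) - (E 310)) + ((E 62) - (E 310))))) * (E 219))) - (((((1 : ℤ) : ℝ) / ((6 : ℕ) : ℝ)) * ((((E 60) - (E 310)) + ((E 60) - (E 310))) + ((E 62) - (E 310)))) * (E 224))) - (((((1 : ℤ) : ℝ) / ((6 : ℕ) : ℝ)) * (((E 59) - (E 310)) + (((E 61) - (E 310)) + ((E 61) - (E 310))))) * (E 209))) - (((((1 : ℤ) : ℝ) / ((6 : ℕ) : ℝ)) * ((((E 58) - (E 310)) + ((E 58) - (E 310))) + ((E 60) - (E 310)))) * (E 196))) - (((((1 : ℤ) : ℝ) / ((6 : ℕ) : ℝ)) * (((E 58) - (E 310)) + (((E 60) - (E 310)) + ((E 60) - (E 310))))) * (E 197))) - (((((1 : ℤ) : ℝ) / ((6 : ℕ) : ℝ)) * (((E 58) - (E 310)) + (((E 59) - (E 310)) + ((E 59) - (E 310))))) * (E 192)) ∧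
    E 2213 = (E 2212) + ((E 310) * (E 2211)) ∧
    E 2214 = ((E 52) - (E 51)) * (E 497) ∧
    E 2215 = (((E 52) - (E 51)) * (((((1 : ℤ) : ℝ) / ((2 : ℕ) : ℝ)) * ((E 51) + (E 52))) - (E 314))) * (E 497) ∧
    E 2216 = (E 2215) + ((E 314) * (E 2214)) ∧
    E 2217 = (((E 23) * ((E 167) - (E 171))) - ((((1 : ℤ) : ℝ) / ((2 : ℕ) : ℝ)) * (E 496))) - (((E 78) - (E 77)) * (E 495)) ∧
    E 2218 = (((E 23) * (((E 170) - (E 166)) + ((((E 76) - (E 312)) * (E 167)) - (((E 78) - (E 312)) * (E 171))))) - (((((1 : ℤ) : ℝ) / ((6 : ℕ) : ℝ)) * ((((E 76) - (E 312)) + ((E 76) - (E 312))) + ((E 77) - (E 312)))) * (E 496))) - ((((E 78) - (E 77)) * (((((1 : ℤ) : ℝ) / ((2 : ℕ) : ℝ)) * ((E 77) + (E 78))) - (E 312))) * (E 495)) ∧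
    E 2219 = (E 2218) + ((E 312) * (E 2217)) ∧
    E 2220 = ((E 24) * ((E 121) - (E 123))) - ((((1 : ℤ) : ℝ) / ((2 : ℕ) : ℝ)) * (E 496)) ∧
    E 2221 = ((E 24) * (((E 122) - (E 120)) + ((((E 53) - (E 313)) * (E 121)) - (((E 54) - (E 313)) * (E 123))))) - (((((1 : ℤ) : ℝ) / ((6 : ℕ) : ℝ)) * (((E 53) - (E 313)) + (((E 54) - (E 313)) + ((E 54) - (E 313))))) * (E 496)) ∧
    E 2222 = (E 2221) + ((E 313) * (E 2220)) ∧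
    E 2223 = ((E 52) - (E 51)) * (E 494) ∧ True := h.v13

theorem V14 (h : TaH K E p) :
    E 2224 = (((E 52) - (E 51)) * (((((1 : ℤ) : ℝ) / ((2 : ℕ) : ℝ)) * ((E 51) + (E 52))) - (E 317))) * (E 494) ∧
    E 2225 = (E 2224) + ((E 317) * (E 2223)) ∧
    E 2226 = ((((((E 80) - (E 79)) * (E 493)) + (((E 80) - (E 79)) * (E 493))) + ((E 23) * ((E 171) - (E 173)))) + (((E 80) - (E 79)) * (E 491))) - (((E 79) - (E 78)) * (E 491)) ∧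
    E 2227 = (((((((E 80) - (E 79)) * (((((1 : ℤ) : ℝ) / ((2 : ℕ) : ℝ)) * ((E 79) + (E 80))) - (E 315))) * (E 493)) + ((E 23) * (((E 172) - (E 170)) + ((((E 78) - (E 315)) * (E 171)) - (((E 79) - (E 315)) * (E 173)))))) - ((((E 80) - (E 79)) * (((((1 : ℤ) : ℝ) / ((2 : ℕ) : ℝ)) * ((E 79) + (E 80))) - ((π + π) - (E 315)))) * (E 493))) - ((((E 80) - (E 79)) * (((((1 : ℤ) : ℝ) / ((2 : ℕ) : ℝ)) * ((E 79) + (E 80))) - ((π + π) - (E 315)))) * (E 491))) - ((((E 79) - (E 78)) * (((((1 : ℤ) : ℝ) / ((2 : ℕ) : ℝ)) * ((E 78) + (E 79))) - (E 315))) * (E 491)) ∧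
    E 2228 = (E 2227) + ((E 315) * (E 2226)) ∧
    E 2229 = ((E 53) - (E 52)) * (E 492) ∧
    E 2230 = (((E 53) - (E 52)) * (((((1 : ℤ) : ℝ) / ((2 : ℕ) : ℝ)) * ((E 52) + (E 53))) - (E 316))) * (E 492) ∧
    E 2231 = (E 2230) + ((E 316) * (E 2229)) ∧
    E 2232 = ((((((1 : ℤ) : ℝ) / ((1 : ℕ) : ℝ)) * ((E 117) - (E 119))) - (((E 52) - (E 51)) * (E 497))) - (((E 52) - (E 51)) * (E 494))) - ((((1 : ℤ) : ℝ) / ((2 : ℕ) : ℝ)) * (E 496)) ∧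
    E 2233 = ((((((1 : ℤ) : ℝ) / ((1 : ℕ) : ℝ)) * (((E 118) - (E 116)) + ((((E 51) - (E 320)) * (E 117)) - (((E 52) - (E 320)) * (E 119))))) - ((((E 52) - (E 51)) * (((((1 : ℤ) : ℝ) / ((2 : ℕ) : ℝ)) * ((E 51) + (E 52))) - (E 320))) * (E 497))) - ((((E 52) - (E 51)) * (((((1 : ℤ) : ℝ) / ((2 : ℕ) : ℝ)) * ((E 51) + (E 52))) - (E 320))) * (E 494))) - (((((1 : ℤ) : ℝ) / ((6 : ℕ) : ℝ)) * ((((E 51) - (E 320)) + ((E 51) - (E 320))) + ((E 52) - (E 320)))) * (E 496)) ∧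
    E 2234 = (E 2233) + ((E 320) * (E 2232)) ∧
    E 2235 = ((((E 80) - (E 79)) * (E 491)) + (((E 79) - (E 78)) * (E 491))) + (((E 78) - (E 77)) * (E 495)) ∧
    E 2236 = (((((E 80) - (E 79)) * (((((1 : ℤ) : ℝ) / ((2 : ℕ) : ℝ)) * ((E 79) + (E 80))) - (E 318))) * (E 491)) + ((((E 79) - (E 78)) * (((((1 : ℤ) : ℝ) / ((2 : ℕ) : ℝ)) * ((E 78) + (E 79))) - (E 318))) * (E 491))) + ((((E 78) - (E 77)) * (((((1 : ℤ) : ℝ) / ((2 : ℕ) : ℝ)) * ((E 77) + (E 78))) - (E 318))) * (E 495)) ∧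
    E 2237 = (E 2236) + ((E 318) * (E 2235)) ∧
    E 2238 = ((E 24) * ((E 119) - (E 121))) - (((E 53) - (E 52)) * (E 492)) ∧
    E 2239 = ((E 24) * (((E 120) - (E 118)) + ((((E 52) - (E 319)) * (E 119)) - (((E 53) - (E 319)) * (E 121))))) - ((((E 53) - (E 52)) * (((((1 : ℤ) : ℝ) / ((2 : ℕ) : ℝ)) * ((E 52) + (E 53))) - (E 319))) * (E 492)) ∧ True := h.v14

theorem V15 (h : TaH K E p) :
    E 2240 = (E 2239) + ((E 319) * (E 2238)) ∧ True := h.v15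

theorem P0 (h : TaH K E p) :
    0 < E 327 ∧
    0 < E 331 ∧
    0 < E 339 ∧
    0 < E 344 ∧
    0 < E 352 ∧
    0 < E 359 ∧
    0 < (((0 : ℤ) : ℝ) / ((1 : ℕ) : ℝ)) - (E 363) ∧
    0 < (((0 : ℤ) : ℝ) / ((1 : ℕ) : ℝ)) - (E 373) ∧
    0 < (((0 : ℤ) : ℝ) / ((1 : ℕ) : ℝ)) - (E 406) ∧
    0 < (((0 : ℤ) : ℝ) / ((1 : ℕ) : ℝ)) - (E 415) ∧
    0 < E 423 ∧
    0 < (((0 : ℤ) : ℝ) / ((1 : ℕ) : ℝ)) - (E 431) ∧
    0 < E 436 ∧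
    0 < E 440 ∧
    0 < (((0 : ℤ) : ℝ) / ((1 : ℕ) : ℝ)) - (E 468) ∧
    0 < (((0 : ℤ) : ℝ) / ((1 : ℕ) : ℝ)) - (E 472) ∧ True := h.c0

theorem P1 (h : TaH K E p) :
    0 < E 450 ∧
    0 < E 453 ∧
    0 < E 464 ∧
    0 < (((0 : ℤ) : ℝ) / ((1 : ℕ) : ℝ)) - (E 488) ∧
    0 < E 342 ∧
    0 < ((E 343) + (((E 50) - (E 51)) * (E 342))) - (((E 50) - (E 49)) * (E 174)) ∧
    0 < E 174 ∧
    0 < E 330 ∧
    0 < ((E 24) * (E 125)) + (E 674) ∧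
    0 < ((E 24) * (E 123)) + (E 674) ∧
    0 < (E 24) * (E 122) ∧
    0 < (E 356) - (E 355) ∧
    0 < (E 355) - (E 175) ∧
    0 < E 175 ∧
    0 < (((0 : ℤ) : ℝ) / ((1 : ℕ) : ℝ)) - (((E 23) * (E 163)) + (E 675)) ∧
    0 < (((0 : ℤ) : ℝ) / ((1 : ℕ) : ℝ)) - (((E 23) * (E 165)) + (E 675)) ∧ True := h.c1

theorem P2 (h : TaH K E p) :
    0 < (((0 : ℤ) : ℝ) / ((1 : ℕ) : ℝ)) - (((E 23) * (E 165)) + (E 676)) ∧
    0 < (((0 : ℤ) : ℝ) / ((1 : ℕ) : ℝ)) - (((E 23) * (E 167)) + (E 676)) ∧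
    0 < ((E 23) * (E 166)) - (E 330) ∧
    0 < (((0 : ℤ) : ℝ) / ((1 : ℕ) : ℝ)) - (((E 24) * (E 125)) + (E 677)) ∧
    0 < (((0 : ℤ) : ℝ) / ((1 : ℕ) : ℝ)) - (((E 24) * (E 127)) + (E 677)) ∧
    0 < ((E 24) * (E 126)) - ((E 177) * (E 180)) ∧
    0 < E 420 ∧
    0 < (((0 : ℤ) : ℝ) / ((1 : ℕ) : ℝ)) - (((E 23) * (E 159)) + (E 678)) ∧
    0 < (((0 : ℤ) : ℝ) / ((1 : ℕ) : ℝ)) - (((E 23) * (E 161)) + (E 678)) ∧
    0 < ((E 421) + ((E 181) * (E 183))) - ((E 418) * (E 186)) ∧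
    0 < (((0 : ℤ) : ℝ) / ((1 : ℕ) : ℝ)) - (((E 23) * (E 161)) + (E 679)) ∧
    0 < (((0 : ℤ) : ℝ) / ((1 : ℕ) : ℝ)) - (((E 23) * (E 163)) + (E 679)) ∧
    0 < ((E 23) * (E 162)) - (E 421) ∧
    0 < (((0 : ℤ) : ℝ) / ((1 : ℕ) : ℝ)) - (((E 24) * (E 129)) + (E 680)) ∧
    0 < (((0 : ℤ) : ℝ) / ((1 : ℕ) : ℝ)) - (((E 24) * (E 131)) + (E 680)) ∧
    0 < (((E 24) * (E 130)) + (((E 24) * (E 0)) * ((E 419) + (((E 82) - (E 83)) * (E 422))))) + (((E 24) * (E 0)) * ((E 188) * (E 190))) ∧ True := h.c2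

theorem P3 (h : TaH K E p) :
    0 < ((((1 : ℤ) : ℝ) / ((1 : ℕ) : ℝ)) * (E 109)) + (E 681) ∧
    0 < ((((1 : ℤ) : ℝ) / ((1 : ℕ) : ℝ)) * (E 107)) + (E 681) ∧
    0 < ((E 420) + ((E 418) * (E 185))) - ((E 181) * (E 182)) ∧
    0 < ((((1 : ℤ) : ℝ) / ((1 : ℕ) : ℝ)) * (E 107)) + (E 682) ∧
    0 < ((((1 : ℤ) : ℝ) / ((1 : ℕ) : ℝ)) * (E 105)) + (E 682) ∧
    0 < ((((1 : ℤ) : ℝ) / ((1 : ℕ) : ℝ)) * (E 104)) - (E 420) ∧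
    0 < E 421 ∧
    0 < ((E 24) * (E 129)) + (E 683) ∧
    0 < ((E 24) * (E 127)) + (E 683) ∧
    0 < ((E 24) * (E 126)) + (((E 24) * (E 0)) * (E 419)) ∧
    0 < (E 435) - (E 434) ∧
    0 < (E 434) - (((E 35) - (E 34)) * (E 176)) ∧
    0 < E 176 ∧
    0 < E 422 ∧
    0 < (E 419) + (((E 82) - (E 83)) * (E 422)) ∧
    0 < ((E 24) * (E 117)) + (E 684) ∧ True := h.c3

theorem P4 (h : TaH K E p) :
    0 < ((E 24) * (E 115)) + (E 684) ∧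
    0 < (((E 24) * (((E 50) - (E 49)) * (E 174))) + ((E 24) * (E 175))) - ((E 24) * ((E 343) + (((E 50) - (E 51)) * (E 342)))) ∧
    0 < ((E 24) * (E 115)) + (E 685) ∧
    0 < ((E 24) * (E 113)) + (E 685) ∧
    0 < ((E 24) * (E 355)) - ((E 24) * (E 175)) ∧
    0 < ((E 24) * (E 113)) + (E 686) ∧
    0 < ((E 24) * (E 111)) + (E 686) ∧
    0 < (((E 24) * (E 356)) - ((E 24) * (E 355))) - ((E 188) * (E 191)) ∧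
    0 < ((E 24) * (E 111)) + (E 687) ∧
    0 < ((E 24) * (E 109)) + (E 687) ∧
    0 < (((E 24) * (E 108)) - ((E 24) * (E 356))) - ((E 24) * ((E 177) * (E 178))) ∧
    0 < ((((1 : ℤ) : ℝ) / ((1 : ℕ) : ℝ)) * (E 105)) + (E 688) ∧
    0 < ((((1 : ℤ) : ℝ) / ((1 : ℕ) : ℝ)) * (E 103)) + (E 688) ∧
    0 < ((((((E 188) * (E 189)) + ((E 213) * (E 210))) + ((E 224) * (E 210))) + ((E 227) * (E 229))) - ((E 192) * (E 193))) - ((E 197) * (E 193)) ∧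
    0 < ((((1 : ℤ) : ℝ) / ((1 : ℕ) : ℝ)) * (E 103)) + (E 689) ∧
    0 < ((((1 : ℤ) : ℝ) / ((1 : ℕ) : ℝ)) * (E 101)) + (E 689) ∧ True := h.c4

theorem P5 (h : TaH K E p) :
    0 < ((((((E 435) + ((E 216) * (E 217))) + ((E 219) * (E 217))) + ((E 231) * (E 217))) + ((E 247) * (E 248))) - ((E 201) * (E 202))) - ((E 209) * (E 210)) ∧
    0 < ((((1 : ℤ) : ℝ) / ((1 : ℕ) : ℝ)) * (E 101)) + (E 690) ∧
    0 < ((((1 : ℤ) : ℝ) / ((1 : ℕ) : ℝ)) * (E 99)) + (E 690) ∧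
    0 < (((((((E 221) * (E 222)) + ((E 234) * (E 222))) + ((E 249) * (E 222))) + ((E 252) * (E 254))) + ((E 256) * (E 222))) - ((E 206) * (E 207))) - ((E 232) * (E 217)) ∧
    0 < ((((1 : ℤ) : ℝ) / ((1 : ℕ) : ℝ)) * (E 99)) + (E 691) ∧
    0 < ((((1 : ℤ) : ℝ) / ((1 : ℕ) : ℝ)) * (E 97)) + (E 691) ∧
    0 < ((E 239) * (E 241)) - ((E 236) * (E 237)) ∧
    0 < ((((1 : ℤ) : ℝ) / ((1 : ℕ) : ℝ)) * (E 97)) + (E 692) ∧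
    0 < ((((1 : ℤ) : ℝ) / ((1 : ℕ) : ℝ)) * (E 95)) + (E 692) ∧
    0 < (((((((E 279) * (E 280)) + ((E 281) * (E 282))) + ((E 286) * (E 287))) - ((E 228) * (E 229))) - ((E 244) * (E 245))) - ((E 250) * (E 222))) - ((E 257) * (E 222)) ∧
    0 < ((((1 : ℤ) : ℝ) / ((1 : ℕ) : ℝ)) * (E 95)) + (E 693) ∧
    0 < ((((1 : ℤ) : ℝ) / ((1 : ℕ) : ℝ)) * (E 93)) + (E 693) ∧
    0 < (((E 434) + ((E 277) * (E 278))) - (E 435)) - ((E 253) * (E 254)) ∧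
    0 < ((((1 : ℤ) : ℝ) / ((1 : ℕ) : ℝ)) * (E 93)) + (E 694) ∧
    0 < ((((1 : ℤ) : ℝ) / ((1 : ℕ) : ℝ)) * (E 91)) + (E 694) ∧
    0 < ((((1 : ℤ) : ℝ) / ((1 : ℕ) : ℝ)) * (E 91)) + (E 695) ∧ True := h.c5

theorem P6 (h : TaH K E p) :
    0 < ((((1 : ℤ) : ℝ) / ((1 : ℕ) : ℝ)) * (E 89)) + (E 695) ∧
    0 < (((((((((E 35) - (E 34)) * (E 176)) + ((E 260) * (E 261))) + ((E 273) * (E 274))) + ((E 283) * (E 274))) - (E 434)) - (E 439)) - ((E 259) * (E 261))) - ((E 263) * (E 265)) ∧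
    0 < ((((1 : ℤ) : ℝ) / ((1 : ℕ) : ℝ)) * (E 89)) + (E 696) ∧
    0 < ((((1 : ℤ) : ℝ) / ((1 : ℕ) : ℝ)) * (E 87)) + (E 696) ∧
    0 < ((((((E 264) * (E 265)) - ((E 240) * (E 241))) - ((E 270) * (E 271))) - ((E 275) * (E 274))) - ((E 288) * (E 271))) - ((E 290) * (E 274)) ∧
    0 < E 439 ∧
    0 < ((E 23) * (E 159)) + (E 697) ∧
    0 < ((E 23) * (E 157)) + (E 697) ∧
    0 < ((((((((((E 213) * (E 214)) + ((E 216) * (E 214))) + ((E 221) * (E 214))) + ((E 244) * (E 214))) + ((E 250) * (E 214))) + ((E 283) * (E 284))) - ((E 192) * (E 194))) - ((E 260) * (E 194))) - ((E 269) * (E 194))) - ((E 275) * (E 194)) ∧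
    0 < ((E 23) * (E 157)) + (E 698) ∧
    0 < ((E 23) * (E 155)) + (E 698) ∧
    0 < ((((E 240) * (E 242)) + ((E 290) * (E 242))) - ((E 264) * (E 266))) - ((E 288) * (E 284)) ∧
    0 < ((E 23) * (E 155)) + (E 699) ∧
    0 < ((E 23) * (E 153)) + (E 699) ∧
    0 < ((((((((((((((E 224) * (E 225)) + ((E 227) * (E 225))) + ((E 231) * (E 225))) + ((E 234) * (E 225))) + ((E 236) * (E 225))) + ((E 253) * (E 225))) + ((E 257) * (E 225))) - ((E 197) * (E 198))) - ((E 209) * (E 211))) - ((E 239) * (E 242))) - ((E 273) * (E 198))) - ((E 277) * (E 198))) - ((E 279) * (E 211))) - ((E 281) * (E 211)) ∧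
    0 < ((E 23) * (E 153)) + (E 700) ∧ True := h.c6

theorem P7 (h : TaH K E p) :
    0 < ((E 23) * (E 151)) + (E 700) ∧
    0 < (((((((((((E 23) * (E 150)) - ((E 201) * (E 203))) - ((E 206) * (E 203))) - ((E 219) * (E 214))) - ((E 228) * (E 225))) - ((E 232) * (E 225))) - ((E 247) * (E 225))) - ((E 249) * (E 214))) - ((E 252) * (E 225))) - ((E 256) * (E 225))) - ((E 286) * (E 214)) ∧
    0 < ((E 24) * (E 151)) + (E 701) ∧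
    0 < ((E 24) * (E 149)) + (E 701) ∧
    0 < (((((E 259) * (E 262)) + ((E 269) * (E 262))) + ((E 273) * (E 262))) + ((E 275) * (E 276))) - ((E 263) * (E 267)) ∧
    0 < ((E 24) * (E 149)) + (E 702) ∧
    0 < ((E 24) * (E 147)) + (E 702) ∧
    0 < ((((((((E 228) * (E 230)) + ((E 253) * (E 255))) + ((E 270) * (E 272))) + ((E 277) * (E 272))) + ((E 286) * (E 272))) - ((E 260) * (E 262))) - ((E 268) * (E 262))) - ((E 283) * (E 285)) ∧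
    0 < ((E 24) * (E 147)) + (E 703) ∧
    0 < ((E 24) * (E 145)) + (E 703) ∧
    0 < (((E 257) * (E 258)) - ((E 279) * (E 276))) - ((E 281) * (E 272)) ∧
    0 < ((E 24) * (E 145)) + (E 704) ∧
    0 < ((E 24) * (E 143)) + (E 704) ∧
    0 < (((((((E 206) * (E 208)) + ((E 232) * (E 233))) + ((E 236) * (E 238))) + ((E 249) * (E 251))) - ((E 239) * (E 243))) - ((E 252) * (E 255))) - ((E 256) * (E 258)) ∧
    0 < ((E 24) * (E 143)) + (E 705) ∧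
    0 < ((E 24) * (E 141)) + (E 705) ∧ True := h.c7

theorem P8 (h : TaH K E p) :
    0 < ((E 244) * (E 246)) - ((E 250) * (E 251)) ∧
    0 < ((E 24) * (E 141)) + (E 706) ∧
    0 < ((E 24) * (E 139)) + (E 706) ∧
    0 < ((((E 201) * (E 204)) + ((E 219) * (E 220))) - ((E 234) * (E 235))) - ((E 247) * (E 235)) ∧
    0 < ((E 24) * (E 139)) + (E 707) ∧
    0 < ((E 24) * (E 137)) + (E 707) ∧
    0 < (((E 209) * (E 212)) - ((E 221) * (E 223))) - ((E 231) * (E 233)) ∧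
    0 < ((E 24) * (E 137)) + (E 708) ∧
    0 < ((E 24) * (E 135)) + (E 708) ∧
    0 < ((((E 197) * (E 199)) - ((E 216) * (E 218))) - ((E 224) * (E 226))) - ((E 227) * (E 230)) ∧
    0 < ((E 24) * (E 135)) + (E 709) ∧
    0 < ((E 24) * (E 133)) + (E 709) ∧
    0 < ((E 192) * (E 195)) - ((E 213) * (E 215)) ∧
    0 < ((E 24) * (E 133)) + (E 710) ∧
    0 < ((E 24) * (E 131)) + (E 710) ∧
    0 < ((((E 24) * (E 130)) - ((E 196) * (E 199))) - ((E 200) * (E 204))) - ((E 205) * (E 208)) ∧ True := h.c8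

theorem P9 (h : TaH K E p) :
    0 < E 497 ∧
    0 < (((0 : ℤ) : ℝ) / ((1 : ℕ) : ℝ)) - (((E 23) * (E 167)) + (E 711)) ∧
    0 < (((0 : ℤ) : ℝ) / ((1 : ℕ) : ℝ)) - (((E 23) * (E 169)) + (E 711)) ∧
    0 < E 495 ∧
    0 < (((0 : ℤ) : ℝ) / ((1 : ℕ) : ℝ)) - (((E 23) * (E 169)) + (E 712)) ∧
    0 < (((0 : ℤ) : ℝ) / ((1 : ℕ) : ℝ)) - (((E 23) * (E 171)) + (E 712)) ∧
    0 < ((E 23) * (E 170)) - (E 495) ∧
    0 < (((0 : ℤ) : ℝ) / ((1 : ℕ) : ℝ)) - (((E 24) * (E 121)) + (E 713)) ∧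
    0 < (((0 : ℤ) : ℝ) / ((1 : ℕ) : ℝ)) - (((E 24) * (E 123)) + (E 713)) ∧
    0 < ((E 24) * (E 122)) - ((E 496) * (E 293)) ∧
    0 < E 494 ∧
    0 < (((0 : ℤ) : ℝ) / ((1 : ℕ) : ℝ)) - (((E 23) * (E 171)) + (E 714)) ∧
    0 < (((0 : ℤ) : ℝ) / ((1 : ℕ) : ℝ)) - (((E 23) * (E 173)) + (E 714)) ∧
    0 < E 493 ∧
    0 < E 492 ∧
    0 < ((((1 : ℤ) : ℝ) / ((1 : ℕ) : ℝ)) * (E 119)) + (E 715) ∧ True := h.c9

theorem P10 (h : TaH K E p) :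
    0 < ((((1 : ℤ) : ℝ) / ((1 : ℕ) : ℝ)) * (E 117)) + (E 715) ∧
    0 < ((((((1 : ℤ) : ℝ) / ((1 : ℕ) : ℝ)) * (E 116)) - (E 497)) - (E 494)) - ((E 496) * (E 291)) ∧
    0 < (E 491) - (E 495) ∧
    0 < ((E 24) * (E 121)) + (E 716) ∧
    0 < ((E 24) * (E 119)) + (E 716) ∧
    0 < ((E 24) * (E 118)) - (E 492) ∧
    0 < (((E 49) + (E 76)) + ((E 55) + (E 55))) - (π + π) ∧
    0 < (((E 51) + (E 75)) + ((E 55) + (E 55))) - (π + π) ∧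
    0 < ((π + π) + (π + π)) - ((((E 51) + (E 76)) + ((E 55) + (E 55))) + (((E 49) + (E 75)) + ((E 54) + (E 54)))) ∧
    0 < (E 24) * ((E 123) - (E 125)) ∧
    0 < (π + π) - (((E 50) + (E 74)) + ((E 55) + (E 55))) ∧
    0 < (π + π) - (((E 47) + (E 76)) + ((E 55) + (E 55))) ∧
    0 < ((((E 47) + (E 74)) + ((E 55) + (E 55))) + (((E 50) + (E 76)) + ((E 56) + (E 56)))) - ((π + π) + (π + π)) ∧
    0 < ((E 24) * ((E 125) - (E 127))) - ((((1 : ℤ) : ℝ) / ((2 : ℕ) : ℝ)) * (E 177)) ∧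
    0 < (π + π) - (((E 46) + (E 72)) + ((E 57) + (E 57))) ∧
    0 < ((((E 45) + (E 72)) + ((E 57) + (E 57))) + (((E 46) + (E 74)) + ((E 58) + (E 58)))) - ((π + π) + (π + π)) ∧ True := h.c10

theorem P11 (h : TaH K E p) :
    0 < (((((E 24) * ((E 129) - (E 131))) + (((E 24) * (E 0)) * (((E 83) - (E 82)) * ((E 322) * (((((1 : ℤ) : ℝ) / ((2 : ℕ) : ℝ)) * ((E 82) + (E 83))) - (E 84)))))) + ((((E 24) * (E 0)) * ((E 83) - (E 82))) * (E 419))) + ((((E 24) * (E 0)) * (((E 83) - (E 82)) * (((((1 : ℤ) : ℝ) / ((2 : ℕ) : ℝ)) * ((E 82) + (E 83))) - (E 83)))) * (E 422))) - ((((1 : ℤ) : ℝ) / ((2 : ℕ) : ℝ)) * (E 418)) ∧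
    0 < (((E 47) + (E 73)) + ((E 57) + (E 57))) - (π + π) ∧
    0 < ((π + π) + (π + π)) - ((((E 47) + (E 74)) + ((E 57) + (E 57))) + (((E 45) + (E 73)) + ((E 56) + (E 56)))) ∧
    0 < ((((E 24) * ((E 127) - (E 129))) + (((E 24) * (E 0)) * (((E 84) - (E 83)) * ((E 322) * (((((1 : ℤ) : ℝ) / ((2 : ℕ) : ℝ)) * ((E 83) + (E 84))) - (E 84)))))) + ((((E 24) * (E 0)) * ((E 84) - (E 83))) * (E 419))) - ((((1 : ℤ) : ℝ) / ((2 : ℕ) : ℝ)) * (E 181)) ∧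
    0 < (((E 43) + (E 82)) + ((E 51) + (E 51))) - (π + π) ∧
    0 < (((E 43) + (E 84)) + ((E 47) + (E 47))) - (π + π) ∧
    0 < ((π + π) + (π + π)) - ((((E 43) + (E 84)) + ((E 51) + (E 51))) + (((E 34) + (E 82)) + ((E 47) + (E 47)))) ∧
    0 < (((((((((E 24) * ((E 109) - (E 117))) - ((((1 : ℤ) : ℝ) / ((2 : ℕ) : ℝ)) * (E 188))) - ((E 24) * ((((E 50) - (E 49)) * (((E 50) - (E 49)) * (E 174))) + ((((E 50) - (E 49)) * (((((1 : ℤ) : ℝ) / ((2 : ℕ) : ℝ)) * ((E 49) + (E 50))) - (E 50))) * (E 174))))) - ((E 24) * (((E 50) - (E 49)) * (E 175)))) - ((E 24) * ((((1 : ℤ) : ℝ) / ((2 : ℕ) : ℝ)) * (E 177)))) - (((E 24) * ((E 51) - (E 50))) * (E 343))) - (((E 24) * (((E 51) - (E 50)) * (((((1 : ℤ) : ℝ) / ((2 : ℕ) : ℝ)) * ((E 50) + (E 51))) - (E 51)))) * (E 342))) - (((E 24) * ((E 49) - (E 48))) * (E 355))) - (((E 24) *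 ((E 48) - (E 47))) * (E 356)) ∧
    0 < (((E 35) + (E 72)) + ((E 68) + (E 68))) - (π + π) ∧
    0 < (((E 45) + (E 68)) + ((E 68) + (E 68))) - (π + π) ∧
    0 < ((π + π) + (π + π)) - ((((E 45) + (E 72)) + ((E 68) + (E 68))) + (((E 35) + (E 68)) + ((E 58) + (E 58)))) ∧
    0 < ((((((((((((((((((((((((((((((((((E 24) * ((E 131) - (E 151))) - ((((1 : ℤ) : ℝ) / ((2 : ℕ) : ℝ)) * ((E 239) + (E 240)))) - ((((1 : ℤ) : ℝ) / ((2 : ℕ) : ℝ)) * ((E 263) + (E 264)))) - ((((1 : ℤ) : ℝ) / ((2 : ℕ) : ℝ)) * (E 283))) - ((((1 : ℤ) : ℝ) / ((2 : ℕ) : ℝ)) * (E 288))) - ((((1 : ℤ) : ℝ) / ((2 : ℕ) : ℝ)) * (E 290))) - ((((1 : ℤ) : ℝ) / ((2 : ℕ) : ℝ)) * ((E 260) + (E 259)))) - ((((1 : ℤ) : ℝ) / ((2 : ℕ) : ℝ)) * ((E 268) + (E 269)))) - ((((1 : ℤ) : ℝ) / ((2 : ℕ) : ℝ)) * (E 273))) - ((((1 : ℤ) : ℝ) / ((2 : ℕ) : ℝ)) * (E 275))) - ((((1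 : ℤ) : ℝ) / ((2 : ℕ) : ℝ)) * (E 279))) - ((((1 : ℤ) : ℝ) / ((2 : ℕ) : ℝ)) * (E 221))) - ((((1 : ℤ) : ℝ) / ((2 : ℕ) : ℝ)) * ((E 227) + (E 228)))) - ((((1 : ℤ) : ℝ) / ((2 : ℕ) : ℝ)) * (E 234))) - ((((1 : ℤ) : ℝ) / ((2 : ℕ) : ℝ)) * (E 247))) - ((((1 : ℤ) : ℝ) / ((2 : ℕ) : ℝ)) * ((E 252) + (E 253)))) - ((((1 : ℤ) : ℝ) / ((2 : ℕ) : ℝ)) * (E 270))) - ((((1 : ℤ) : ℝ) / ((2 : ℕ) : ℝ)) * (E 277))) - ((((1 : ℤ) : ℝ) / ((2 : ℕ) : ℝ)) * (E 281))) - ((((1 : ℤ) : ℝ) / ((2 : ℕ) : ℝ)) * (E 286))) - ((((1 : ℤ) : ℝ) / ((2 : ℕ) : ℝ)) * ((E 256) + (E 257)))) - ((((1 : ℤ) : ℝ) / ((2 : ℕ) : ℝ)) * ((E 205) + (E 206)))) - ((((1 : ℤ) : ℝ) / ((2 : ℕ) : ℝ)) * (E 216))) - ((((1 : ℤ) : ℝ) / ((2 : ℕ) : ℝ)) * ((E 231) + (E 232)))) - ((((1 : ℤ) : ℝ) / ((2 : ℕ) : ℝ)) * (E 236))) - ((((1 : ℤ) : ℝ) / ((2 : ℕ) : ℝ)) * ((E 250) + (E 249))))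 - ((((1 : ℤ) : ℝ) / ((2 : ℕ) : ℝ)) * (E 244))) - ((((1 : ℤ) : ℝ) / ((2 : ℕ) : ℝ)) * ((E 200) + (E 201)))) - ((((1 : ℤ) : ℝ) / ((2 : ℕ) : ℝ)) * (E 213))) - ((((1 : ℤ) : ℝ) / ((2 : ℕ) : ℝ)) * (E 219))) - ((((1 : ℤ) : ℝ) / ((2 : ℕ) : ℝ)) * (E 224))) - ((((1 : ℤ) : ℝ) / ((2 : ℕ) : ℝ)) * (E 209))) - ((((1 : ℤ) : ℝ) / ((2 : ℕ) : ℝ)) * ((E 196) + (E 197)))) - ((((1 : ℤ) : ℝ) / ((2 : ℕ) : ℝ)) * (E 192)) ∧
    0 < (π + π) - (((E 52) + (E 76)) + ((E 53) + (E 53))) ∧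
    0 < (π + π) - (((E 51) + (E 78)) + ((E 53) + (E 53))) ∧
    0 < ((((E 51) + (E 76)) + ((E 53) + (E 53))) + (((E 52) + (E 78)) + ((E 54) + (E 54)))) - ((π + π) + (π + π)) ∧
    0 < ((E 24) * ((E 121) - (E 123))) - ((((1 : ℤ) : ℝ) / ((2 : ℕ) : ℝ)) * (E 496)) ∧ True := h.c11

theorem P12 (h : TaH K E p) :
    0 < (π + π) - (((E 52) + (E 78)) + ((E 52) + (E 52))) ∧
    0 < (π + π) - (((E 51) + (E 80)) + ((E 52) + (E 52))) ∧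
    0 < ((((E 51) + (E 78)) + ((E 52) + (E 52))) + (((E 52) + (E 80)) + ((E 53) + (E 53)))) - ((π + π) + (π + π)) ∧
    0 < ((E 53) - (E 52)) * (E 492) ∧
    0 < (((E 51) + (E 80)) + ((E 53) + (E 53))) - (π + π) ∧
    0 < (((E 52) + (E 80)) + ((E 52) + (E 52))) - (π + π) ∧
    0 < ((π + π) + (π + π)) - ((((E 52) + (E 80)) + ((E 53) + (E 53))) + (((E 51) + (E 77)) + ((E 52) + (E 52)))) ∧
    0 < ((E 24) * ((E 119) - (E 121))) - (((E 53) - (E 52)) * (E 492)) ∧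
    0 < E 177 ∧
    0 < E 181 ∧
    0 < E 418 ∧
    0 < E 188 ∧
    0 < E 192 ∧
    0 < E 196 ∧
    0 < E 197 ∧
    0 < E 200 ∧ True := h.c12

theorem P13 (h : TaH K E p) :
    0 < E 201 ∧
    0 < E 205 ∧
    0 < E 206 ∧
    0 < E 209 ∧
    0 < E 213 ∧
    0 < E 216 ∧
    0 < E 219 ∧
    0 < E 221 ∧
    0 < E 224 ∧
    0 < E 227 ∧
    0 < E 228 ∧
    0 < E 231 ∧
    0 < E 232 ∧
    0 < E 234 ∧
    0 < E 236 ∧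
    0 < E 239 ∧ True := h.c13

theorem P14 (h : TaH K E p) :
    0 < E 240 ∧
    0 < E 244 ∧
    0 < E 247 ∧
    0 < E 249 ∧
    0 < E 250 ∧
    0 < E 252 ∧
    0 < E 253 ∧
    0 < E 256 ∧
    0 < E 257 ∧
    0 < E 259 ∧
    0 < E 260 ∧
    0 < E 263 ∧
    0 < E 264 ∧
    0 < E 268 ∧
    0 < E 269 ∧
    0 < E 270 ∧ True := h.c14

theorem P15 (h : TaH K E p) :
    0 < E 273 ∧
    0 < E 275 ∧
    0 < E 277 ∧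
    0 < E 279 ∧
    0 < E 281 ∧
    0 < E 283 ∧
    0 < E 286 ∧
    0 < E 288 ∧
    0 < E 290 ∧
    0 < E 496 ∧ True := h.c15

theorem inc (h : TaH K E p) : Inc E 32 53 := h.ch

theorem hz (h : TaH K E p) : E 36 = 0 := by linear_combination (F0 h).2.2.2.2.2.2.2.2.2.2.2.2.2.2.1

theorem hpi (h : TaH K E p) : E 79 = π := (F3 h).2.2.2.2.2.2.2.2.2.1

theorem hmpi (h : TaH K E p) : E 32 = -π := by linear_combination (F0 h).2.2.2.2.2.2.2.2.2.2.1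

theorem h2pi (h : TaH K E p) : E 85 = 2 * π := by linear_combination (F3 h).2.2.2.2.2.2.2.2.2.2.2.2.2.2.2.1 - hz h

theorem hs0 (h : TaH K E p) : E 86 = 0 := by rw [(F4 h).1, hz h, sin_zero]

theorem hspi (h : TaH K E p) : E 172 = 0 := by rw [(F9 h).2.2.2.2.2.2.1, hpi h, sin_pi]

theorem tz (h : TaH K E p) (D : ℝ → ℝ) : TT D (E 36) = 0 := by rw [hz h, (prim0 D).2.2]

theorem hV (h : TaH K E p) : E 0 * E 23 = 1 := by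
  rw [(F0 h).2.1]; exact mul_inv_cancel₀ (by linarith [h.hM])

theorem hX (h : TaH K E p) : (E 0 + 1) * E 24 = 1 := by
  have := inv_reg (by linarith [h.hM]) (F0 h).2.2.1
  linear_combination this

theorem np0 (h : TaH K E p) : E 36 = p 0 := (hz h).trans h.e0.symm

theorem np1 (h : TaH K E p) : E 45 = p 1 := (F1 h).2.2.2.2.2.2.2.1.trans (h.hp 1 (by decide) (by decide))

theorem np2 (h : TaH K E p) : E 47 = p 2 := (F1 h).2.2.2.2.2.2.2.2.2.1.trans (h.hp 2 (by decide) (by decide))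

theorem np3 (h : TaH K E p) : E 51 = p 3 := (F1 h).2.2.2.2.2.2.2.2.2.2.2.2.2.1.trans (h.hp 3 (by decide) (by decide))

theorem np4 (h : TaH K E p) : E 52 = p 4 := (F1 h).2.2.2.2.2.2.2.2.2.2.2.2.2.2.1.trans (h.hp 4 (by decide) (by decide))

theorem np5 (h : TaH K E p) : E 54 = p 5 := (F2 h).1.trans (h.hp 5 (by decide) (by decide))

theorem np6 (h : TaH K E p) : E 56 = p 6 := (F2 h).2.2.1.trans (h.hp 6 (by decide) (by decide))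

theorem np7 (h : TaH K E p) : E 58 = p 7 := (F2 h).2.2.2.2.1.trans (h.hp 7 (by decide) (by decide))

theorem np8 (h : TaH K E p) : E 68 = p 8 := (F2 h).2.2.2.2.2.2.2.2.2.2.2.2.2.2.1.trans (h.hp 8 (by decide) (by decide))

theorem np9 (h : TaH K E p) : E 72 = p 9 := (F3 h).2.2.1.trans (h.hp 9 (by decide) (by decide))

theorem np10 (h : TaH K E p) : E 74 = p 10 := (F3 h).2.2.2.2.1.trans (h.hp 10 (by decide) (by decide))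

theorem np11 (h : TaH K E p) : E 76 = p 11 := (F3 h).2.2.2.2.2.2.1.trans (h.hp 11 (by decide) (by decide))

theorem np12 (h : TaH K E p) : E 79 = p 12 := (hpi h).trans h.e12.symm

theorem mu0 (h : TaH K E p) : mu p 0 = E 87 - E 105 := (munu (np0 h) (np1 h) (F4 h).1 (F4 h).2.1 (F5 h).2.2.1 (F5 h).2.2.2.1).1

theorem nu0 (h : TaH K E p) : nu p 0 = (E 104 - E 45 * E 105) - (E 86 - E 36 * E 87) := (munu (np0 h) (np1 h) (F4 h).1 (F4 h).2.1 (F5 h).2.2.1 (F5 h).2.2.2.1).2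

theorem mu1 (h : TaH K E p) : mu p 1 = E 105 - E 109 := (munu (np1 h) (np2 h) (F5 h).2.2.1 (F5 h).2.2.2.1 (F5 h).2.2.2.2.2.2.1 (F5 h).2.2.2.2.2.2.2.1).1

theorem nu1 (h : TaH K E p) : nu p 1 = (E 108 - E 47 * E 109) - (E 104 - E 45 * E 105) := (munu (np1 h) (np2 h) (F5 h).2.2.1 (F5 h).2.2.2.1 (F5 h).2.2.2.2.2.2.1 (F5 h).2.2.2.2.2.2.2.1).2

theorem mu2 (h : TaH K E p) : mu p 2 = E 109 - E 117 := (munu (np2 h) (np3 h) (F5 h).2.2.2.2.2.2.1 (F5 h).2.2.2.2.2.2.2.1 (F5 h).2.2.2.2.2.2.2.2.2.2.2.2.2.2.1 (F5 h).2.2.2.2.2.2.2.2.2.2.2.2.2.2.2.1).1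

theorem nu2 (h : TaH K E p) : nu p 2 = (E 116 - E 51 * E 117) - (E 108 - E 47 * E 109) := (munu (np2 h) (np3 h) (F5 h).2.2.2.2.2.2.1 (F5 h).2.2.2.2.2.2.2.1 (F5 h).2.2.2.2.2.2.2.2.2.2.2.2.2.2.1 (F5 h).2.2.2.2.2.2.2.2.2.2.2.2.2.2.2.1).2

theorem mu3 (h : TaH K E p) : mu p 3 = E 117 - E 119 := (munu (np3 h) (np4 h) (F5 h).2.2.2.2.2.2.2.2.2.2.2.2.2.2.1 (F5 h).2.2.2.2.2.2.2.2.2.2.2.2.2.2.2.1 (F6 h).1 (F6 h).2.1).1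

theorem nu3 (h : TaH K E p) : nu p 3 = (E 118 - E 52 * E 119) - (E 116 - E 51 * E 117) := (munu (np3 h) (np4 h) (F5 h).2.2.2.2.2.2.2.2.2.2.2.2.2.2.1 (F5 h).2.2.2.2.2.2.2.2.2.2.2.2.2.2.2.1 (F6 h).1 (F6 h).2.1).2

theorem mu4 (h : TaH K E p) : mu p 4 = E 119 - E 123 := (munu (np4 h) (np5 h) (F6 h).1 (F6 h).2.1 (F6 h).2.2.2.2.1 (F6 h).2.2.2.2.2.1).1

theorem nu4 (h : TaH K E p) : nu p 4 = (E 122 - E 54 * E 123) - (E 118 - E 52 * E 119) := (munu (np4 h) (np5 h) (F6 h).1 (F6 h).2.1 (F6 h).2.2.2.2.1 (F6 h).2.2.2.2.2.1).2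

theorem mu5 (h : TaH K E p) : mu p 5 = E 123 - E 127 := (munu (np5 h) (np6 h) (F6 h).2.2.2.2.1 (F6 h).2.2.2.2.2.1 (F6 h).2.2.2.2.2.2.2.2.1 (F6 h).2.2.2.2.2.2.2.2.2.1).1

theorem nu5 (h : TaH K E p) : nu p 5 = (E 126 - E 56 * E 127) - (E 122 - E 54 * E 123) := (munu (np5 h) (np6 h) (F6 h).2.2.2.2.1 (F6 h).2.2.2.2.2.1 (F6 h).2.2.2.2.2.2.2.2.1 (F6 h).2.2.2.2.2.2.2.2.2.1).2

theorem mu6 (h : TaH K E p) : mu p 6 = E 127 - E 131 := (munu (np6 h) (np7 h) (F6 h).2.2.2.2.2.2.2.2.1 (F6 h).2.2.2.2.2.2.2.2.2.1 (F6 h).2.2.2.2.2.2.2.2.2.2.2.2.1 (F6 h).2.2.2.2.2.2.2.2.2.2.2.2.2.1).1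

theorem nu6 (h : TaH K E p) : nu p 6 = (E 130 - E 58 * E 131) - (E 126 - E 56 * E 127) := (munu (np6 h) (np7 h) (F6 h).2.2.2.2.2.2.2.2.1 (F6 h).2.2.2.2.2.2.2.2.2.1 (F6 h).2.2.2.2.2.2.2.2.2.2.2.2.1 (F6 h).2.2.2.2.2.2.2.2.2.2.2.2.2.1).2

theorem mu7 (h : TaH K E p) : mu p 7 = E 131 - E 151 := (munu (np7 h) (np8 h) (F6 h).2.2.2.2.2.2.2.2.2.2.2.2.1 (F6 h).2.2.2.2.2.2.2.2.2.2.2.2.2.1 (F8 h).1 (F8 h).2.1).1

theorem nu7 (h : TaH K E p) : nu p 7 = (E 150 - E 68 * E 151) - (E 130 - E 58 * E 131) := (munu (np7 h) (np8 h) (F6 h).2.2.2.2.2.2.2.2.2.2.2.2.1 (F6 h).2.2.2.2.2.2.2.2.2.2.2.2.2.1 (F8 h).1 (F8 h).2.1).2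

theorem mu8 (h : TaH K E p) : mu p 8 = E 151 - E 159 := (munu (np8 h) (np9 h) (F8 h).1 (F8 h).2.1 (F8 h).2.2.2.2.2.2.2.2.1 (F8 h).2.2.2.2.2.2.2.2.2.1).1

theorem nu8 (h : TaH K E p) : nu p 8 = (E 158 - E 72 * E 159) - (E 150 - E 68 * E 151) := (munu (np8 h) (np9 h) (F8 h).1 (F8 h).2.1 (F8 h).2.2.2.2.2.2.2.2.1 (F8 h).2.2.2.2.2.2.2.2.2.1).2

theorem mu9 (h : TaH K E p) : mu p 9 = E 159 - E 163 := (munu (np9 h) (np10 h) (F8 h).2.2.2.2.2.2.2.2.1 (F8 h).2.2.2.2.2.2.2.2.2.1 (F8 h).2.2.2.2.2.2.2.2.2.2.2.2.1 (F8 h).2.2.2.2.2.2.2.2.2.2.2.2.2.1).1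

theorem nu9 (h : TaH K E p) : nu p 9 = (E 162 - E 74 * E 163) - (E 158 - E 72 * E 159) := (munu (np9 h) (np10 h) (F8 h).2.2.2.2.2.2.2.2.1 (F8 h).2.2.2.2.2.2.2.2.2.1 (F8 h).2.2.2.2.2.2.2.2.2.2.2.2.1 (F8 h).2.2.2.2.2.2.2.2.2.2.2.2.2.1).2

theorem mu10 (h : TaH K E p) : mu p 10 = E 163 - E 167 := (munu (np10 h) (np11 h) (F8 h).2.2.2.2.2.2.2.2.2.2.2.2.1 (F8 h).2.2.2.2.2.2.2.2.2.2.2.2.2.1 (F9 h).1 (F9 h).2.1).1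

theorem nu10 (h : TaH K E p) : nu p 10 = (E 166 - E 76 * E 167) - (E 162 - E 74 * E 163) := (munu (np10 h) (np11 h) (F8 h).2.2.2.2.2.2.2.2.2.2.2.2.1 (F8 h).2.2.2.2.2.2.2.2.2.2.2.2.2.1 (F9 h).1 (F9 h).2.1).2

theorem mu11 (h : TaH K E p) : mu p 11 = E 167 - E 173 := (munu (np11 h) (np12 h) (F9 h).1 (F9 h).2.1 (F9 h).2.2.2.2.2.2.1 (F9 h).2.2.2.2.2.2.2.1).1

theorem nu11 (h : TaH K E p) : nu p 11 = (E 172 - E 79 * E 173) - (E 166 - E 76 * E 167) := (munu (np11 h) (np12 h) (F9 h).1 (F9 h).2.1 (F9 h).2.2.2.2.2.2.1 (F9 h).2.2.2.2.2.2.2.1).2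

theorem nw33 (h : TaH K E p) : E 33 = (((0 : ℤ) : ℝ) / ((1 : ℕ) : ℝ)) - (E 45) := by linear_combination (F0 h).2.2.2.2.2.2.2.2.2.2.2.1 + (F1 h).2.2.2.2.2.2.2.1

theorem fo33 (h : TaH K E p) {D : ℝ → ℝ} (A : Adm (E 0) p D) : KK D (E 33) = KK D (E 45) ∧ TT D (E 33) = -TT D (E 45) := fold0 A (nw33 h)

theorem nw34 (h : TaH K E p) : E 34 = (((0 : ℤ) : ℝ) / ((1 : ℕ) : ℝ)) - (E 38) := by linear_combination (F0 h).2.2.2.2.2.2.2.2.2.2.2.2.1 + (F1 h).1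

theorem fo34 (h : TaH K E p) {D : ℝ → ℝ} (A : Adm (E 0) p D) : KK D (E 34) = KK D (E 38) ∧ TT D (E 34) = -TT D (E 38) := fold0 A (nw34 h)

theorem nw35 (h : TaH K E p) : E 35 = (((0 : ℤ) : ℝ) / ((1 : ℕ) : ℝ)) - (E 37) := by linear_combination (F0 h).2.2.2.2.2.2.2.2.2.2.2.2.2.1 + (F0 h).2.2.2.2.2.2.2.2.2.2.2.2.2.2.2.1

theorem fo35 (h : TaH K E p) {D : ℝ → ℝ} (A : Adm (E 0) p D) : KK D (E 35) = KK D (E 37) ∧ TT D (E 35) = -TT D (E 37) := fold0 A (nw35 h)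

theorem nw80 (h : TaH K E p) : E 80 = (π + π) - (E 78) := (F3 h).2.2.2.2.2.2.2.2.2.2.1

theorem fo80 (h : TaH K E p) {D : ℝ → ℝ} (A : Adm (E 0) p D) : KK D (E 80) = KK D (E 78) ∧ TT D (E 80) = 2 * TT D π - 2 * π * KK D π + 2 * π * KK D (E 78) - TT D (E 78) := fold2 A (nw80 h)

theorem nw81 (h : TaH K E p) : E 81 = (π + π) - (E 76) := (F3 h).2.2.2.2.2.2.2.2.2.2.2.1

theorem fo81 (h : TaH K E p) {D : ℝ → ℝ} (A : Adm (E 0) p D) : KK D (E 81) = KK D (E 76) ∧ TT D (E 81) = 2 * TT D π - 2 * π * KK D π + 2 * π * KK D (E 76) - TT D (E 76) := fold2 A (nw81 h)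

theorem nw82 (h : TaH K E p) : E 82 = (π + π) - (E 58) := (F3 h).2.2.2.2.2.2.2.2.2.2.2.2.1

theorem fo82 (h : TaH K E p) {D : ℝ → ℝ} (A : Adm (E 0) p D) : KK D (E 82) = KK D (E 58) ∧ TT D (E 82) = 2 * TT D π - 2 * π * KK D π + 2 * π * KK D (E 58) - TT D (E 58) := fold2 A (nw82 h)

theorem nw83 (h : TaH K E p) : E 83 = (π + π) - (E 57) := (F3 h).2.2.2.2.2.2.2.2.2.2.2.2.2.1

theorem fo83 (h : TaH K E p) {D : ℝ → ℝ} (A : Adm (E 0) p D) : KK D (E 83) = KK D (E 57) ∧ TT D (E 83) = 2 * TT D π - 2 * π * KK D π + 2 * π * KK D (E 57) - TT D (E 57) := fold2 A (nw83 h)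

theorem nw84 (h : TaH K E p) : E 84 = (π + π) - (E 56) := (F3 h).2.2.2.2.2.2.2.2.2.2.2.2.2.2.1

theorem fo84 (h : TaH K E p) {D : ℝ → ℝ} (A : Adm (E 0) p D) : KK D (E 84) = KK D (E 56) ∧ TT D (E 84) = 2 * TT D π - 2 * π * KK D π + 2 * π * KK D (E 56) - TT D (E 56) := fold2 A (nw84 h)

theorem rs22 (h : TaH K E p) : RS (E 47) (E 50) (E 177) 0 (E 178) (E 2007) (E 499) := RS.hi0 ((inc h).lt 47 50 rfl) (F9 h).2.2.2.2.2.2.2.2.2.2.2.2.1 (F29 h).2.2.2.2.2.2.2.2.2.2.2.2.2.1 (V0 h).2.2.2.2.2.2.2.1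

theorem rs23 (h : TaH K E p) : RS (E 74) (E 75) (E 177) 0 (E 179) (E 2008) (E 501) := RS.hi0 ((inc h).lt 74 75 rfl) (F9 h).2.2.2.2.2.2.2.2.2.2.2.2.2.1 (F29 h).2.2.2.2.2.2.2.2.2.2.2.2.2.2.2.1 (V0 h).2.2.2.2.2.2.2.2.1

theorem rs24 (h : TaH K E p) : RS (E 55) (E 56) 0 (E 177) (E 180) (E 2009) (E 503) := RS.lo0 ((inc h).lt 55 56 rfl) (F9 h).2.2.2.2.2.2.2.2.2.2.2.2.2.2.1 (F30 h).2.1 (V0 h).2.2.2.2.2.2.2.2.2.1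

theorem rs25 (h : TaH K E p) : RS (E 46) (E 47) (E 181) 0 (E 182) (E 2010) (E 505) := RS.hi0 ((inc h).lt 46 47 rfl) (F10 h).1 (F30 h).2.2.2.1 (V0 h).2.2.2.2.2.2.2.2.2.2.1

theorem rs26 (h : TaH K E p) : RS (E 73) (E 74) (E 181) 0 (E 183) (E 2011) (E 507) := RS.hi0 ((inc h).lt 73 74 rfl) (F10 h).2.1 (F30 h).2.2.2.2.2.1 (V0 h).2.2.2.2.2.2.2.2.2.2.2.1

theorem rs27 (h : TaH K E p) : RS (E 56) (E 57) 0 (E 181) (E 184) (E 2012) (E 509) := RS.lo0 ((inc h).lt 56 57 rfl) (F10 h).2.2.1 (F30 h).2.2.2.2.2.2.2.1 (V0 h).2.2.2.2.2.2.2.2.2.2.2.2.1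

theorem rs28 (h : TaH K E p) : RS (E 45) (E 46) 0 (E 418) (E 185) (E 2013) (E 511) := RS.lo0 ((inc h).lt 45 46 rfl) (F10 h).2.2.2.1 (F30 h).2.2.2.2.2.2.2.2.2.1 (V0 h).2.2.2.2.2.2.2.2.2.2.2.2.2.1

theorem rs29 (h : TaH K E p) : RS (E 72) (E 73) 0 (E 418) (E 186) (E 2014) (E 513) := RS.lo0 ((inc h).lt 72 73 rfl) (F10 h).2.2.2.2.1 (F30 h).2.2.2.2.2.2.2.2.2.2.2.1 (V0 h).2.2.2.2.2.2.2.2.2.2.2.2.2.2.1

theorem rs30 (h : TaH K E p) : RS (E 57) (E 58) (E 418) 0 (E 187) (E 2015) (E 515) := RS.hi0 ((inc h).lt 57 58 rfl) (F10 h).2.2.2.2.2.1 (F30 h).2.2.2.2.2.2.2.2.2.2.2.2.2.1 (V0 h).2.2.2.2.2.2.2.2.2.2.2.2.2.2.2.1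

theorem rs31 (h : TaH K E p) : RS (E 34) (E 44) 0 (E 188) (E 189) (E 2001) (E 324) := RS.lo0 ((inc h).lt 34 44 rfl) (F10 h).2.2.2.2.2.2.2.1 (F18 h).2.2.2.2.2.2.2.2.2.2.2.2.2.2.1 (V0 h).2.1

theorem rs32 (h : TaH K E p) : RS (E 82) (E 84) (E 188) 0 (E 190) (E 2000) (E 322) := RS.hi0 ((inc h).lt 82 84 rfl) (F10 h).2.2.2.2.2.2.2.2.1 (F18 h).2.2.2.2.2.2.2.2.2.2.2.2.1 (V0 h).1

theorem rs33 (h : TaH K E p) : RS (E 48) (E 51) (E 188) 0 (E 191) (E 2016) (E 517) := RS.hi0 ((inc h).lt 48 51 rfl) (F10 h).2.2.2.2.2.2.2.2.2.1 (F30 h).2.2.2.2.2.2.2.2.2.2.2.2.2.2.2.1 (V1 h).1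

theorem rs34 (h : TaH K E p) : RS (E 44) (E 45) (E 192) 0 (E 193) (E 2017) (E 519) := RS.hi0 ((inc h).lt 44 45 rfl) (F10 h).2.2.2.2.2.2.2.2.2.2.2.1 (F31 h).2.1 (V1 h).2.1

theorem rs35 (h : TaH K E p) : RS (E 71) (E 72) (E 192) 0 (E 194) (E 2018) (E 521) := RS.hi0 ((inc h).lt 71 72 rfl) (F10 h).2.2.2.2.2.2.2.2.2.2.2.2.1 (F31 h).2.2.2.1 (V1 h).2.2.1

theorem rs36 (h : TaH K E p) : RS (E 58) (E 59) 0 (E 192) (E 195) (E 2019) (E 523) := RS.lo0 ((inc h).lt 58 59 rfl) (F10 h).2.2.2.2.2.2.2.2.2.2.2.2.2.1 (F31 h).2.2.2.2.2.1 (V1 h).2.2.2.1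

theorem rs37 (h : TaH K E p) : RS (E 44) (E 45) (E 197) (E 196) (E 193) (E 2020) (E 524) := RS.two ((inc h).lt 44 45 rfl) (F10 h).2.2.2.2.2.2.2.2.2.2.2.1 (F31 h).2.2.2.2.2.2.1 (V1 h).2.2.2.2.1

theorem rs38 (h : TaH K E p) : RS (E 69) (E 72) (E 197) (E 196) (E 198) (E 2021) (E 526) := RS.two ((inc h).lt 69 72 rfl) (F11 h).1 (F31 h).2.2.2.2.2.2.2.2.1 (V1 h).2.2.2.2.2.1

theorem rs39 (h : TaH K E p) : RS (E 58) (E 60) (E 196) (E 197) (E 199) (E 2022) (E 528) := RS.two ((inc h).lt 58 60 rfl) (F11 h).2.1 (F31 h).2.2.2.2.2.2.2.2.2.2.1 (V1 h).2.2.2.2.2.2.1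

theorem rs40 (h : TaH K E p) : RS (E 43) (E 45) (E 201) (E 200) (E 202) (E 2023) (E 530) := RS.two ((inc h).lt 43 45 rfl) (F11 h).2.2.2.2.1 (F31 h).2.2.2.2.2.2.2.2.2.2.2.2.1 (V1 h).2.2.2.2.2.2.2.1

theorem rs41 (h : TaH K E p) : RS (E 68) (E 72) (E 201) (E 200) (E 203) (E 2024) (E 532) := RS.two ((inc h).lt 68 72 rfl) (F11 h).2.2.2.2.2.1 (F31 h).2.2.2.2.2.2.2.2.2.2.2.2.2.2.1 (V1 h).2.2.2.2.2.2.2.2.1

theorem rs42 (h : TaH K E p) : RS (E 58) (E 62) (E 200) (E 201) (E 204) (E 2025) (E 534) := RS.two ((inc h).lt 58 62 rfl) (F11 h).2.2.2.2.2.2.1 (F32 h).1 (V1 h).2.2.2.2.2.2.2.2.2.1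

theorem rs43 (h : TaH K E p) : RS (E 42) (E 45) (E 206) (E 205) (E 207) (E 2026) (E 536) := RS.two ((inc h).lt 42 45 rfl) (F11 h).2.2.2.2.2.2.2.2.2.1 (F32 h).2.2.1 (V1 h).2.2.2.2.2.2.2.2.2.2.1

theorem rs44 (h : TaH K E p) : RS (E 68) (E 72) (E 206) (E 205) (E 203) (E 2027) (E 537) := RS.two ((inc h).lt 68 72 rfl) (F11 h).2.2.2.2.2.1 (F32 h).2.2.2.1 (V1 h).2.2.2.2.2.2.2.2.2.2.2.1

theorem rs45 (h : TaH K E p) : RS (E 58) (E 64) (E 205) (E 206) (E 208) (E 2028) (E 539) := RS.two ((inc h).lt 58 64 rfl) (F11 h).2.2.2.2.2.2.2.2.2.2.1 (F32 h).2.2.2.2.2.1 (V1 h).2.2.2.2.2.2.2.2.2.2.2.2.1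

theorem rs46 (h : TaH K E p) : RS (E 43) (E 44) (E 209) 0 (E 210) (E 2029) (E 541) := RS.hi0 ((inc h).lt 43 44 rfl) (F11 h).2.2.2.2.2.2.2.2.2.2.2.2.1 (F32 h).2.2.2.2.2.2.2.1 (V1 h).2.2.2.2.2.2.2.2.2.2.2.2.2.1

theorem rs47 (h : TaH K E p) : RS (E 69) (E 71) (E 209) 0 (E 211) (E 2030) (E 543) := RS.hi0 ((inc h).lt 69 71 rfl) (F11 h).2.2.2.2.2.2.2.2.2.2.2.2.2.1 (F32 h).2.2.2.2.2.2.2.2.2.1 (V1 h).2.2.2.2.2.2.2.2.2.2.2.2.2.2.1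

theorem rs48 (h : TaH K E p) : RS (E 59) (E 61) 0 (E 209) (E 212) (E 2031) (E 545) := RS.lo0 ((inc h).lt 59 61 rfl) (F11 h).2.2.2.2.2.2.2.2.2.2.2.2.2.2.1 (F32 h).2.2.2.2.2.2.2.2.2.2.2.1 (V1 h).2.2.2.2.2.2.2.2.2.2.2.2.2.2.2.1

theorem rs49 (h : TaH K E p) : RS (E 43) (E 44) 0 (E 213) (E 210) (E 2032) (E 546) := RS.lo0 ((inc h).lt 43 44 rfl) (F11 h).2.2.2.2.2.2.2.2.2.2.2.2.1 (F32 h).2.2.2.2.2.2.2.2.2.2.2.2.1 (V2 h).1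

theorem rs50 (h : TaH K E p) : RS (E 68) (E 71) 0 (E 213) (E 214) (E 2033) (E 548) := RS.lo0 ((inc h).lt 68 71 rfl) (F12 h).1 (F32 h).2.2.2.2.2.2.2.2.2.2.2.2.2.2.1 (V2 h).2.1

theorem rs51 (h : TaH K E p) : RS (E 59) (E 62) (E 213) 0 (E 215) (E 2034) (E 550) := RS.hi0 ((inc h).lt 59 62 rfl) (F12 h).2.1 (F33 h).1 (V2 h).2.2.1

theorem rs52 (h : TaH K E p) : RS (E 42) (E 43) 0 (E 216) (E 217) (E 2035) (E 552) := RS.lo0 ((inc h).lt 42 43 rfl) (F12 h).2.2.2.1 (F33 h).2.2.1 (V2 h).2.2.2.1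

theorem rs53 (h : TaH K E p) : RS (E 68) (E 71) 0 (E 216) (E 214) (E 2036) (E 553) := RS.lo0 ((inc h).lt 68 71 rfl) (F12 h).1 (F33 h).2.2.2.1 (V2 h).2.2.2.2.1

theorem rs54 (h : TaH K E p) : RS (E 60) (E 64) (E 216) 0 (E 218) (E 2037) (E 555) := RS.hi0 ((inc h).lt 60 64 rfl) (F12 h).2.2.2.2.1 (F33 h).2.2.2.2.2.1 (V2 h).2.2.2.2.2.1

theorem rs55 (h : TaH K E p) : RS (E 42) (E 43) 0 (E 219) (E 217) (E 2038) (E 556) := RS.lo0 ((inc h).lt 42 43 rfl) (F12 h).2.2.2.1 (F33 h).2.2.2.2.2.2.1 (V2 h).2.2.2.2.2.2.1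

theorem rs56 (h : TaH K E p) : RS (E 68) (E 71) (E 219) 0 (E 214) (E 2039) (E 557) := RS.hi0 ((inc h).lt 68 71 rfl) (F12 h).1 (F33 h).2.2.2.2.2.2.2.1 (V2 h).2.2.2.2.2.2.2.1

theorem rs57 (h : TaH K E p) : RS (E 61) (E 62) 0 (E 219) (E 220) (E 2040) (E 559) := RS.lo0 ((inc h).lt 61 62 rfl) (F12 h).2.2.2.2.2.2.1 (F33 h).2.2.2.2.2.2.2.2.2.1 (V2 h).2.2.2.2.2.2.2.2.1

theorem rs58 (h : TaH K E p) : RS (E 40) (E 42) 0 (E 221) (E 222) (E 2041) (E 561) := RS.lo0 ((inc h).lt 40 42 rfl) (F12 h).2.2.2.2.2.2.2.2.1 (F33 h).2.2.2.2.2.2.2.2.2.2.2.1 (V2 h).2.2.2.2.2.2.2.2.2.1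

theorem rs59 (h : TaH K E p) : RS (E 68) (E 71) 0 (E 221) (E 214) (E 2042) (E 562) := RS.lo0 ((inc h).lt 68 71 rfl) (F12 h).1 (F33 h).2.2.2.2.2.2.2.2.2.2.2.2.1 (V2 h).2.2.2.2.2.2.2.2.2.2.1

theorem rs60 (h : TaH K E p) : RS (E 61) (E 66) (E 221) 0 (E 223) (E 2043) (E 564) := RS.hi0 ((inc h).lt 61 66 rfl) (F12 h).2.2.2.2.2.2.2.2.2.1 (F33 h).2.2.2.2.2.2.2.2.2.2.2.2.2.2.1 (V2 h).2.2.2.2.2.2.2.2.2.2.2.1

theorem rs61 (h : TaH K E p) : RS (E 43) (E 44) 0 (E 224) (E 210) (E 2044) (E 565) := RS.lo0 ((inc h).lt 43 44 rfl) (F11 h).2.2.2.2.2.2.2.2.2.2.2.2.1 (F33 h).2.2.2.2.2.2.2.2.2.2.2.2.2.2.2.1 (V2 h).2.2.2.2.2.2.2.2.2.2.2.2.1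

theorem rs62 (h : TaH K E p) : RS (E 68) (E 69) 0 (E 224) (E 225) (E 2045) (E 567) := RS.lo0 ((inc h).lt 68 69 rfl) (F12 h).2.2.2.2.2.2.2.2.2.2.2.1 (F34 h).2.1 (V2 h).2.2.2.2.2.2.2.2.2.2.2.2.2.1

theorem rs63 (h : TaH K E p) : RS (E 60) (E 62) (E 224) 0 (E 226) (E 2046) (E 569) := RS.hi0 ((inc h).lt 60 62 rfl) (F12 h).2.2.2.2.2.2.2.2.2.2.2.2.1 (F34 h).2.2.2.1 (V2 h).2.2.2.2.2.2.2.2.2.2.2.2.2.2.1

theorem rs64 (h : TaH K E p) : RS (E 40) (E 44) (E 228) (E 227) (E 229) (E 2047) (E 571) := RS.two ((inc h).lt 40 44 rfl) (F12 h).2.2.2.2.2.2.2.2.2.2.2.2.2.2.2.1 (F34 h).2.2.2.2.2.1 (V2 h).2.2.2.2.2.2.2.2.2.2.2.2.2.2.2.1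

theorem rs65 (h : TaH K E p) : RS (E 68) (E 69) (E 228) (E 227) (E 225) (E 2048) (E 572) := RS.two ((inc h).lt 68 69 rfl) (F12 h).2.2.2.2.2.2.2.2.2.2.2.1 (F34 h).2.2.2.2.2.2.1 (V3 h).1

theorem rs66 (h : TaH K E p) : RS (E 60) (E 66) (E 227) (E 228) (E 230) (E 2049) (E 574) := RS.two ((inc h).lt 60 66 rfl) (F13 h).1 (F34 h).2.2.2.2.2.2.2.2.1 (V3 h).2.1

theorem rs67 (h : TaH K E p) : RS (E 42) (E 43) (E 232) (E 231) (E 217) (E 2050) (E 575) := RS.two ((inc h).lt 42 43 rfl) (F12 h).2.2.2.1 (F34 h).2.2.2.2.2.2.2.2.2.1 (V3 h).2.2.1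

theorem rs68 (h : TaH K E p) : RS (E 68) (E 69) (E 232) (E 231) (E 225) (E 2051) (E 576) := RS.two ((inc h).lt 68 69 rfl) (F12 h).2.2.2.2.2.2.2.2.2.2.2.1 (F34 h).2.2.2.2.2.2.2.2.2.2.1 (V3 h).2.2.2.1

theorem rs69 (h : TaH K E p) : RS (E 61) (E 64) (E 231) (E 232) (E 233) (E 2052) (E 578) := RS.two ((inc h).lt 61 64 rfl) (F13 h).2.2.2.1 (F34 h).2.2.2.2.2.2.2.2.2.2.2.2.1 (V3 h).2.2.2.2.1

theorem rs70 (h : TaH K E p) : RS (E 40) (E 42) 0 (E 234) (E 222) (E 2053) (E 579) := RS.lo0 ((inc h).lt 40 42 rfl) (F12 h).2.2.2.2.2.2.2.2.1 (F34 h).2.2.2.2.2.2.2.2.2.2.2.2.2.1 (V3 h).2.2.2.2.2.1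

theorem rs71 (h : TaH K E p) : RS (E 68) (E 69) 0 (E 234) (E 225) (E 2054) (E 580) := RS.lo0 ((inc h).lt 68 69 rfl) (F12 h).2.2.2.2.2.2.2.2.2.2.2.1 (F34 h).2.2.2.2.2.2.2.2.2.2.2.2.2.2.1 (V3 h).2.2.2.2.2.2.1

theorem rs72 (h : TaH K E p) : RS (E 62) (E 66) (E 234) 0 (E 235) (E 2055) (E 582) := RS.hi0 ((inc h).lt 62 66 rfl) (F13 h).2.2.2.2.2.1 (F35 h).1 (V3 h).2.2.2.2.2.2.2.1

theorem rs73 (h : TaH K E p) : RS (E 41) (E 43) (E 236) 0 (E 237) (E 2056) (E 584) := RS.hi0 ((inc h).lt 41 43 rfl) (F13 h).2.2.2.2.2.2.2.1 (F35 h).2.2.1 (V3 h).2.2.2.2.2.2.2.2.1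

theorem rs74 (h : TaH K E p) : RS (E 68) (E 69) 0 (E 236) (E 225) (E 2057) (E 585) := RS.lo0 ((inc h).lt 68 69 rfl) (F12 h).2.2.2.2.2.2.2.2.2.2.2.1 (F35 h).2.2.2.1 (V3 h).2.2.2.2.2.2.2.2.2.1

theorem rs75 (h : TaH K E p) : RS (E 62) (E 64) 0 (E 236) (E 238) (E 2058) (E 587) := RS.lo0 ((inc h).lt 62 64 rfl) (F13 h).2.2.2.2.2.2.2.2.1 (F35 h).2.2.2.2.2.1 (V3 h).2.2.2.2.2.2.2.2.2.2.1

theorem rs76 (h : TaH K E p) : RS (E 36) (E 41) (E 240) (E 239) (E 241) (E 2059) (E 589) := RS.two ((inc h).lt 36 41 rfl) (F13 h).2.2.2.2.2.2.2.2.2.2.2.1 (F35 h).2.2.2.2.2.2.2.1 (V3 h).2.2.2.2.2.2.2.2.2.2.2.1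

theorem rs77 (h : TaH K E p) : RS (E 69) (E 70) (E 239) (E 240) (E 242) (E 2060) (E 591) := RS.two ((inc h).lt 69 70 rfl) (F13 h).2.2.2.2.2.2.2.2.2.2.2.2.1 (F35 h).2.2.2.2.2.2.2.2.2.1 (V3 h).2.2.2.2.2.2.2.2.2.2.2.2.1

theorem rs78 (h : TaH K E p) : RS (E 64) (E 68) (E 239) (E 240) (E 243) (E 2061) (E 593) := RS.two ((inc h).lt 64 68 rfl) (F13 h).2.2.2.2.2.2.2.2.2.2.2.2.2.1 (F35 h).2.2.2.2.2.2.2.2.2.2.2.1 (V3 h).2.2.2.2.2.2.2.2.2.2.2.2.2.1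

theorem rs79 (h : TaH K E p) : RS (E 40) (E 43) (E 244) 0 (E 245) (E 2062) (E 595) := RS.hi0 ((inc h).lt 40 43 rfl) (F13 h).2.2.2.2.2.2.2.2.2.2.2.2.2.2.2.1 (F35 h).2.2.2.2.2.2.2.2.2.2.2.2.2.1 (V3 h).2.2.2.2.2.2.2.2.2.2.2.2.2.2.1

theorem rs80 (h : TaH K E p) : RS (E 68) (E 71) 0 (E 244) (E 214) (E 2063) (E 596) := RS.lo0 ((inc h).lt 68 71 rfl) (F12 h).1 (F35 h).2.2.2.2.2.2.2.2.2.2.2.2.2.2.1 (V3 h).2.2.2.2.2.2.2.2.2.2.2.2.2.2.2.1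

theorem rs81 (h : TaH K E p) : RS (E 62) (E 63) 0 (E 244) (E 246) (E 2064) (E 598) := RS.lo0 ((inc h).lt 62 63 rfl) (F14 h).1 (F36 h).1 (V4 h).1

theorem rs82 (h : TaH K E p) : RS (E 39) (E 43) 0 (E 247) (E 248) (E 2065) (E 600) := RS.lo0 ((inc h).lt 39 43 rfl) (F14 h).2.2.1 (F36 h).2.2.1 (V4 h).2.1

theorem rs83 (h : TaH K E p) : RS (E 68) (E 69) (E 247) 0 (E 225) (E 2066) (E 601) := RS.hi0 ((inc h).lt 68 69 rfl) (F12 h).2.2.2.2.2.2.2.2.2.2.2.1 (F36 h).2.2.2.1 (V4 h).2.2.1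

theorem rs84 (h : TaH K E p) : RS (E 62) (E 66) (E 247) 0 (E 235) (E 2067) (E 602) := RS.hi0 ((inc h).lt 62 66 rfl) (F13 h).2.2.2.2.2.1 (F36 h).2.2.2.2.1 (V4 h).2.2.2.1

theorem rs85 (h : TaH K E p) : RS (E 40) (E 42) (E 250) (E 249) (E 222) (E 2068) (E 603) := RS.two ((inc h).lt 40 42 rfl) (F12 h).2.2.2.2.2.2.2.2.1 (F36 h).2.2.2.2.2.1 (V4 h).2.2.2.2.1

theorem rs86 (h : TaH K E p) : RS (E 68) (E 71) (E 249) (E 250) (E 214) (E 2069) (E 604) := RS.two ((inc h).lt 68 71 rfl) (F12 h).1 (F36 h).2.2.2.2.2.2.1 (V4 h).2.2.2.2.2.1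

theorem rs87 (h : TaH K E p) : RS (E 63) (E 64) (E 250) (E 249) (E 251) (E 2070) (E 606) := RS.two ((inc h).lt 63 64 rfl) (F14 h).2.2.2.2.2.1 (F36 h).2.2.2.2.2.2.2.2.1 (V4 h).2.2.2.2.2.2.1

theorem rs88 (h : TaH K E p) : RS (E 39) (E 42) (E 253) (E 252) (E 254) (E 2071) (E 608) := RS.two ((inc h).lt 39 42 rfl) (F14 h).2.2.2.2.2.2.2.2.1 (F36 h).2.2.2.2.2.2.2.2.2.2.1 (V4 h).2.2.2.2.2.2.2.1

theorem rs89 (h : TaH K E p) : RS (E 68) (E 69) (E 252) (E 253) (E 225) (E 2072) (E 609) := RS.two ((inc h).lt 68 69 rfl) (F12 h).2.2.2.2.2.2.2.2.2.2.2.1 (F36 h).2.2.2.2.2.2.2.2.2.2.2.1 (V4 h).2.2.2.2.2.2.2.2.1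

theorem rs90 (h : TaH K E p) : RS (E 64) (E 66) (E 252) (E 253) (E 255) (E 2073) (E 611) := RS.two ((inc h).lt 64 66 rfl) (F14 h).2.2.2.2.2.2.2.2.2.1 (F36 h).2.2.2.2.2.2.2.2.2.2.2.2.2.1 (V4 h).2.2.2.2.2.2.2.2.2.1

theorem rs91 (h : TaH K E p) : RS (E 40) (E 42) (E 257) (E 256) (E 222) (E 2074) (E 612) := RS.two ((inc h).lt 40 42 rfl) (F12 h).2.2.2.2.2.2.2.2.1 (F36 h).2.2.2.2.2.2.2.2.2.2.2.2.2.2.1 (V4 h).2.2.2.2.2.2.2.2.2.2.1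

theorem rs92 (h : TaH K E p) : RS (E 68) (E 69) (E 256) (E 257) (E 225) (E 2075) (E 613) := RS.two ((inc h).lt 68 69 rfl) (F12 h).2.2.2.2.2.2.2.2.2.2.2.1 (F36 h).2.2.2.2.2.2.2.2.2.2.2.2.2.2.2.1 (V4 h).2.2.2.2.2.2.2.2.2.2.2.1

theorem rs93 (h : TaH K E p) : RS (E 64) (E 65) (E 256) (E 257) (E 258) (E 2076) (E 615) := RS.two ((inc h).lt 64 65 rfl) (F14 h).2.2.2.2.2.2.2.2.2.2.2.2.1 (F37 h).2.1 (V4 h).2.2.2.2.2.2.2.2.2.2.2.2.1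

theorem rs94 (h : TaH K E p) : RS (E 35) (E 37) (E 259) (E 260) (E 261) (E 2002) (E 326) := RS.two ((inc h).lt 35 37 rfl) (F14 h).2.2.2.2.2.2.2.2.2.2.2.2.2.2.2.1 (F19 h).1 (V0 h).2.2.1

theorem rs95 (h : TaH K E p) : RS (E 71) (E 72) (E 260) (E 259) (E 194) (E 2077) (E 616) := RS.two ((inc h).lt 71 72 rfl) (F10 h).2.2.2.2.2.2.2.2.2.2.2.2.1 (F37 h).2.2.1 (V4 h).2.2.2.2.2.2.2.2.2.2.2.2.2.1

theorem rs96 (h : TaH K E p) : RS (E 66) (E 67) (E 260) (E 259) (E 262) (E 2078) (E 618) := RS.two ((inc h).lt 66 67 rfl) (F15 h).1 (F37 h).2.2.2.2.1 (V4 h).2.2.2.2.2.2.2.2.2.2.2.2.2.2.1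

theorem rs97 (h : TaH K E p) : RS (E 35) (E 36) (E 263) (E 264) (E 265) (E 2079) (E 620) := RS.two ((inc h).lt 35 36 rfl) (F15 h).2.2.2.1 (F37 h).2.2.2.2.2.2.1 (V4 h).2.2.2.2.2.2.2.2.2.2.2.2.2.2.2.1

theorem rs98 (h : TaH K E p) : RS (E 70) (E 72) (E 264) (E 263) (E 266) (E 2080) (E 622) := RS.two ((inc h).lt 70 72 rfl) (F15 h).2.2.2.2.1 (F37 h).2.2.2.2.2.2.2.2.1 (V5 h).1

theorem rs99 (h : TaH K E p) : RS (E 67) (E 68) (E 263) (E 264) (E 267) (E 2081) (E 624) := RS.two ((inc h).lt 67 68 rfl) (F15 h).2.2.2.2.2.1 (F37 h).2.2.2.2.2.2.2.2.2.2.1 (V5 h).2.1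

theorem rs100 (h : TaH K E p) : RS (E 71) (E 72) (E 269) (E 268) (E 194) (E 2082) (E 625) := RS.two ((inc h).lt 71 72 rfl) (F10 h).2.2.2.2.2.2.2.2.2.2.2.2.1 (F37 h).2.2.2.2.2.2.2.2.2.2.2.1 (V5 h).2.2.1

theorem rs101 (h : TaH K E p) : RS (E 66) (E 67) (E 268) (E 269) (E 262) (E 2083) (E 626) := RS.two ((inc h).lt 66 67 rfl) (F15 h).1 (F37 h).2.2.2.2.2.2.2.2.2.2.2.2.1 (V5 h).2.2.2.1

theorem rs102 (h : TaH K E p) : RS (E 36) (E 39) (E 270) 0 (E 271) (E 2084) (E 628) := RS.hi0 ((inc h).lt 36 39 rfl) (F15 h).2.2.2.2.2.2.2.2.2.1 (F37 h).2.2.2.2.2.2.2.2.2.2.2.2.2.2.1 (V5 h).2.2.2.2.1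

theorem rs103 (h : TaH K E p) : RS (E 71) (E 72) 0 (E 270) (E 194) (E 2085) (E 629) := RS.lo0 ((inc h).lt 71 72 rfl) (F10 h).2.2.2.2.2.2.2.2.2.2.2.2.1 (F37 h).2.2.2.2.2.2.2.2.2.2.2.2.2.2.2.1 (V5 h).2.2.2.2.2.1

theorem rs104 (h : TaH K E p) : RS (E 65) (E 66) 0 (E 270) (E 272) (E 2086) (E 631) := RS.lo0 ((inc h).lt 65 66 rfl) (F15 h).2.2.2.2.2.2.2.2.2.2.1 (F38 h).2.1 (V5 h).2.2.2.2.2.2.1

theorem rs105 (h : TaH K E p) : RS (E 36) (E 37) 0 (E 273) (E 274) (E 2087) (E 633) := RS.lo0 ((inc h).lt 36 37 rfl) (F15 h).2.2.2.2.2.2.2.2.2.2.2.2.1 (F38 h).2.2.2.1 (V5 h).2.2.2.2.2.2.2.1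

theorem rs106 (h : TaH K E p) : RS (E 69) (E 72) (E 273) 0 (E 198) (E 2088) (E 634) := RS.hi0 ((inc h).lt 69 72 rfl) (F11 h).1 (F38 h).2.2.2.2.1 (V5 h).2.2.2.2.2.2.2.2.1

theorem rs107 (h : TaH K E p) : RS (E 66) (E 67) 0 (E 273) (E 262) (E 2089) (E 635) := RS.lo0 ((inc h).lt 66 67 rfl) (F15 h).1 (F38 h).2.2.2.2.2.1 (V5 h).2.2.2.2.2.2.2.2.2.1

theorem rs108 (h : TaH K E p) : RS (E 36) (E 37) (E 275) 0 (E 274) (E 2090) (E 636) := RS.hi0 ((inc h).lt 36 37 rfl) (F15 h).2.2.2.2.2.2.2.2.2.2.2.2.1 (F38 h).2.2.2.2.2.2.1 (V5 h).2.2.2.2.2.2.2.2.2.2.1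

theorem rs109 (h : TaH K E p) : RS (E 71) (E 72) (E 275) 0 (E 194) (E 2091) (E 637) := RS.hi0 ((inc h).lt 71 72 rfl) (F10 h).2.2.2.2.2.2.2.2.2.2.2.2.1 (F38 h).2.2.2.2.2.2.2.1 (V5 h).2.2.2.2.2.2.2.2.2.2.2.1

theorem rs110 (h : TaH K E p) : RS (E 65) (E 67) 0 (E 275) (E 276) (E 2092) (E 639) := RS.lo0 ((inc h).lt 65 67 rfl) (F15 h).2.2.2.2.2.2.2.2.2.2.2.2.2.2.1 (F38 h).2.2.2.2.2.2.2.2.2.1 (V5 h).2.2.2.2.2.2.2.2.2.2.2.2.1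

theorem rs111 (h : TaH K E p) : RS (E 37) (E 39) 0 (E 277) (E 278) (E 2093) (E 641) := RS.lo0 ((inc h).lt 37 39 rfl) (F16 h).1 (F38 h).2.2.2.2.2.2.2.2.2.2.2.1 (V5 h).2.2.2.2.2.2.2.2.2.2.2.2.2.1

theorem rs112 (h : TaH K E p) : RS (E 69) (E 72) (E 277) 0 (E 198) (E 2094) (E 642) := RS.hi0 ((inc h).lt 69 72 rfl) (F11 h).1 (F38 h).2.2.2.2.2.2.2.2.2.2.2.2.1 (V5 h).2.2.2.2.2.2.2.2.2.2.2.2.2.2.1

theorem rs113 (h : TaH K E p) : RS (E 65) (E 66) 0 (E 277) (E 272) (E 2095) (E 643) := RS.lo0 ((inc h).lt 65 66 rfl) (F15 h).2.2.2.2.2.2.2.2.2.2.1 (F38 h).2.2.2.2.2.2.2.2.2.2.2.2.2.1 (V5 h).2.2.2.2.2.2.2.2.2.2.2.2.2.2.2.1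

theorem rs114 (h : TaH K E p) : RS (E 36) (E 40) 0 (E 279) (E 280) (E 2096) (E 645) := RS.lo0 ((inc h).lt 36 40 rfl) (F16 h).2.2.1 (F38 h).2.2.2.2.2.2.2.2.2.2.2.2.2.2.2.1 (V6 h).1

theorem rs115 (h : TaH K E p) : RS (E 69) (E 71) (E 279) 0 (E 211) (E 2097) (E 646) := RS.hi0 ((inc h).lt 69 71 rfl) (F11 h).2.2.2.2.2.2.2.2.2.2.2.2.2.1 (F39 h).1 (V6 h).2.1

theorem rs116 (h : TaH K E p) : RS (E 65) (E 67) (E 279) 0 (E 276) (E 2098) (E 647) := RS.hi0 ((inc h).lt 65 67 rfl) (F15 h).2.2.2.2.2.2.2.2.2.2.2.2.2.2.1 (F39 h).2.1 (V6 h).2.2.1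

theorem rs117 (h : TaH K E p) : RS (E 37) (E 40) 0 (E 281) (E 282) (E 2099) (E 649) := RS.lo0 ((inc h).lt 37 40 rfl) (F16 h).2.2.2.2.1 (F39 h).2.2.2.1 (V6 h).2.2.2.1

theorem rs118 (h : TaH K E p) : RS (E 69) (E 71) (E 281) 0 (E 211) (E 2100) (E 650) := RS.hi0 ((inc h).lt 69 71 rfl) (F11 h).2.2.2.2.2.2.2.2.2.2.2.2.2.1 (F39 h).2.2.2.2.1 (V6 h).2.2.2.2.1

theorem rs119 (h : TaH K E p) : RS (E 65) (E 66) (E 281) 0 (E 272) (E 2101) (E 651) := RS.hi0 ((inc h).lt 65 66 rfl) (F15 h).2.2.2.2.2.2.2.2.2.2.1 (F39 h).2.2.2.2.2.1 (V6 h).2.2.2.2.2.1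

theorem rs120 (h : TaH K E p) : RS (E 36) (E 37) 0 (E 283) (E 274) (E 2102) (E 652) := RS.lo0 ((inc h).lt 36 37 rfl) (F15 h).2.2.2.2.2.2.2.2.2.2.2.2.1 (F39 h).2.2.2.2.2.2.1 (V6 h).2.2.2.2.2.2.1

theorem rs121 (h : TaH K E p) : RS (E 70) (E 71) 0 (E 283) (E 284) (E 2103) (E 654) := RS.lo0 ((inc h).lt 70 71 rfl) (F16 h).2.2.2.2.2.2.1 (F39 h).2.2.2.2.2.2.2.2.1 (V6 h).2.2.2.2.2.2.2.1

theorem rs122 (h : TaH K E p) : RS (E 66) (E 68) (E 283) 0 (E 285) (E 2104) (E 656) := RS.hi0 ((inc h).lt 66 68 rfl) (F16 h).2.2.2.2.2.2.2.1 (F39 h).2.2.2.2.2.2.2.2.2.2.1 (V6 h).2.2.2.2.2.2.2.2.1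

theorem rs123 (h : TaH K E p) : RS (E 39) (E 40) 0 (E 286) (E 287) (E 2105) (E 658) := RS.lo0 ((inc h).lt 39 40 rfl) (F16 h).2.2.2.2.2.2.2.2.2.1 (F39 h).2.2.2.2.2.2.2.2.2.2.2.2.1 (V6 h).2.2.2.2.2.2.2.2.2.1

theorem rs124 (h : TaH K E p) : RS (E 68) (E 71) (E 286) 0 (E 214) (E 2106) (E 659) := RS.hi0 ((inc h).lt 68 71 rfl) (F12 h).1 (F39 h).2.2.2.2.2.2.2.2.2.2.2.2.2.1 (V6 h).2.2.2.2.2.2.2.2.2.2.1

theorem rs125 (h : TaH K E p) : RS (E 65) (E 66) 0 (E 286) (E 272) (E 2107) (E 660) := RS.lo0 ((inc h).lt 65 66 rfl) (F15 h).2.2.2.2.2.2.2.2.2.2.1 (F39 h).2.2.2.2.2.2.2.2.2.2.2.2.2.2.1 (V6 h).2.2.2.2.2.2.2.2.2.2.2.1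

theorem rs126 (h : TaH K E p) : RS (E 36) (E 39) (E 288) 0 (E 271) (E 2108) (E 661) := RS.hi0 ((inc h).lt 36 39 rfl) (F15 h).2.2.2.2.2.2.2.2.2.1 (F39 h).2.2.2.2.2.2.2.2.2.2.2.2.2.2.2.1 (V6 h).2.2.2.2.2.2.2.2.2.2.2.2.1

theorem rs127 (h : TaH K E p) : RS (E 70) (E 71) (E 288) 0 (E 284) (E 2109) (E 662) := RS.hi0 ((inc h).lt 70 71 rfl) (F16 h).2.2.2.2.2.2.1 (F40 h).1 (V6 h).2.2.2.2.2.2.2.2.2.2.2.2.2.1

theorem rs128 (h : TaH K E p) : RS (E 65) (E 68) 0 (E 288) (E 289) (E 2110) (E 664) := RS.lo0 ((inc h).lt 65 68 rfl) (F16 h).2.2.2.2.2.2.2.2.2.2.2.1 (F40 h).2.2.1 (V6 h).2.2.2.2.2.2.2.2.2.2.2.2.2.2.1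

theorem rs129 (h : TaH K E p) : RS (E 36) (E 37) (E 290) 0 (E 274) (E 2111) (E 665) := RS.hi0 ((inc h).lt 36 37 rfl) (F15 h).2.2.2.2.2.2.2.2.2.2.2.2.1 (F40 h).2.2.2.1 (V6 h).2.2.2.2.2.2.2.2.2.2.2.2.2.2.2.1

theorem rs130 (h : TaH K E p) : RS (E 69) (E 70) 0 (E 290) (E 242) (E 2112) (E 666) := RS.lo0 ((inc h).lt 69 70 rfl) (F13 h).2.2.2.2.2.2.2.2.2.2.2.2.1 (F40 h).2.2.2.2.1 (V7 h).1

theorem rs131 (h : TaH K E p) : RS (E 67) (E 68) 0 (E 290) (E 267) (E 2113) (E 667) := RS.lo0 ((inc h).lt 67 68 rfl) (F15 h).2.2.2.2.2.1 (F40 h).2.2.2.2.2.1 (V7 h).2.1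

theorem rs132 (h : TaH K E p) : RS (E 51) (E 52) (E 496) 0 (E 291) (E 2114) (E 669) := RS.hi0 ((inc h).lt 51 52 rfl) (F16 h).2.2.2.2.2.2.2.2.2.2.2.2.2.1 (F40 h).2.2.2.2.2.2.2.1 (V7 h).2.2.1

theorem rs133 (h : TaH K E p) : RS (E 76) (E 77) (E 496) 0 (E 292) (E 2115) (E 671) := RS.hi0 ((inc h).lt 76 77 rfl) (F16 h).2.2.2.2.2.2.2.2.2.2.2.2.2.2.1 (F40 h).2.2.2.2.2.2.2.2.2.1 (V7 h).2.2.2.1

theorem rs134 (h : TaH K E p) : RS (E 53) (E 54) 0 (E 496) (E 293) (E 2116) (E 673) := RS.lo0 ((inc h).lt 53 54 rfl) (F16 h).2.2.2.2.2.2.2.2.2.2.2.2.2.2.2.1 (F40 h).2.2.2.2.2.2.2.2.2.2.2.1 (V7 h).2.2.2.2.1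

theorem pl51_76_54 (h : TaH K E p) : E 51 + E 76 + 2 * E 54 = 2 * π := by
  linear_combination (1) * (F1 h).2.2.2.2.2.2.2.2.2.2.2.2.2.1 + (1) * (F3 h).2.2.2.2.2.2.1 + (2) * (F2 h).1 + (1) * h.l5

theorem pl52_77_53 (h : TaH K E p) : E 52 + E 77 + 2 * E 53 = 2 * π := by
  linear_combination (1) * (F1 h).2.2.2.2.2.2.2.2.2.2.2.2.2.2.1 + (1) * (F3 h).2.2.2.2.2.2.2.1 + (2) * (F1 h).2.2.2.2.2.2.2.2.2.2.2.2.2.2.2.1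

theorem pl50_75_55 (h : TaH K E p) : E 50 + E 75 + 2 * E 55 = 2 * π := by
  linear_combination (1) * (F1 h).2.2.2.2.2.2.2.2.2.2.2.2.1 + (1) * (F3 h).2.2.2.2.2.1 + (2) * (F2 h).2.1

theorem pl47_74_56 (h : TaH K E p) : E 47 + E 74 + 2 * E 56 = 2 * π := by
  linear_combination (1) * (F1 h).2.2.2.2.2.2.2.2.2.1 + (1) * (F3 h).2.2.2.2.1 + (2) * (F2 h).2.2.1 + (1) * h.l6

theorem pl46_73_57 (h : TaH K E p) : E 46 + E 73 + 2 * E 57 = 2 * π := by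
  linear_combination (1) * (F1 h).2.2.2.2.2.2.2.2.1 + (1) * (F3 h).2.2.2.1 + (2) * (F2 h).2.2.2.1

theorem pl45_72_58 (h : TaH K E p) : E 45 + E 72 + 2 * E 58 = 2 * π := by
  linear_combination (1) * (F1 h).2.2.2.2.2.2.2.1 + (1) * (F3 h).2.2.1 + (2) * (F2 h).2.2.2.2.1 + (1) * h.l7

theorem pl44_82_48 (h : TaH K E p) : E 44 + E 82 + 2 * E 48 = 2 * π := by
  linear_combination (1) * (F1 h).2.2.2.2.2.2.1 + (1) * (F3 h).2.2.2.2.2.2.2.2.2.2.2.2.1 + (-1) * (F2 h).2.2.2.2.1 + (2) * (F1 h).2.2.2.2.2.2.2.2.2.2.1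

theorem pl34_84_51 (h : TaH K E p) : E 34 + E 84 + 2 * E 51 = 2 * π := by
  linear_combination (1) * (F0 h).2.2.2.2.2.2.2.2.2.2.2.2.1 + (1) * (F3 h).2.2.2.2.2.2.2.2.2.2.2.2.2.2.1 + (-1) * (F2 h).2.2.1 + (2) * (F1 h).2.2.2.2.2.2.2.2.2.2.2.2.2.1

theorem pl44_71_59 (h : TaH K E p) : E 44 + E 71 + 2 * E 59 = 2 * π := by
  linear_combination (1) * (F1 h).2.2.2.2.2.2.1 + (1) * (F3 h).2.1 + (2) * (F2 h).2.2.2.2.2.1 + (1) * h.l7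

theorem pl44_69_60 (h : TaH K E p) : E 44 + E 69 + 2 * E 60 = 2 * π := by
  linear_combination (1) * (F1 h).2.2.2.2.2.2.1 + (1) * (F2 h).2.2.2.2.2.2.2.2.2.2.2.2.2.2.2.1 + (2) * (F2 h).2.2.2.2.2.2.1 + (1) * h.l7

theorem pl43_68_62 (h : TaH K E p) : E 43 + E 68 + 2 * E 62 = 2 * π := by
  linear_combination (1) * (F1 h).2.2.2.2.2.1 + (1) * (F2 h).2.2.2.2.2.2.2.2.2.2.2.2.2.2.1 + (2) * (F2 h).2.2.2.2.2.2.2.2.1 + (1) * h.l7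

theorem pl42_68_64 (h : TaH K E p) : E 42 + E 68 + 2 * E 64 = 2 * π := by
  linear_combination (1) * (F1 h).2.2.2.2.1 + (1) * (F2 h).2.2.2.2.2.2.2.2.2.2.2.2.2.2.1 + (2) * (F2 h).2.2.2.2.2.2.2.2.2.2.1 + (1) * h.l7

theorem pl43_69_61 (h : TaH K E p) : E 43 + E 69 + 2 * E 61 = 2 * π := by
  linear_combination (1) * (F1 h).2.2.2.2.2.1 + (1) * (F2 h).2.2.2.2.2.2.2.2.2.2.2.2.2.2.2.1 + (2) * (F2 h).2.2.2.2.2.2.2.1 + (1) * h.l7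

theorem pl43_71_60 (h : TaH K E p) : E 43 + E 71 + 2 * E 60 = 2 * π := by
  linear_combination (1) * (F1 h).2.2.2.2.2.1 + (1) * (F3 h).2.1 + (2) * (F2 h).2.2.2.2.2.2.1 + (1) * h.l7

theorem pl42_71_61 (h : TaH K E p) : E 42 + E 71 + 2 * E 61 = 2 * π := by
  linear_combination (1) * (F1 h).2.2.2.2.1 + (1) * (F3 h).2.1 + (2) * (F2 h).2.2.2.2.2.2.2.1 + (1) * h.l7

theorem pl40_68_66 (h : TaH K E p) : E 40 + E 68 + 2 * E 66 = 2 * π := by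
  linear_combination (1) * (F1 h).2.2.1 + (1) * (F2 h).2.2.2.2.2.2.2.2.2.2.2.2.2.2.1 + (2) * (F2 h).2.2.2.2.2.2.2.2.2.2.2.2.1 + (1) * h.l7

theorem pl42_69_62 (h : TaH K E p) : E 42 + E 69 + 2 * E 62 = 2 * π := by
  linear_combination (1) * (F1 h).2.2.2.2.1 + (1) * (F2 h).2.2.2.2.2.2.2.2.2.2.2.2.2.2.2.1 + (2) * (F2 h).2.2.2.2.2.2.2.2.1 + (1) * h.l7

theorem pl41_69_64 (h : TaH K E p) : E 41 + E 69 + 2 * E 64 = 2 * π := by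
  linear_combination (1) * (F1 h).2.2.2.1 + (1) * (F2 h).2.2.2.2.2.2.2.2.2.2.2.2.2.2.2.1 + (2) * (F2 h).2.2.2.2.2.2.2.2.2.2.1 + (1) * h.l7

theorem pl36_70_68 (h : TaH K E p) : E 36 + E 70 + 2 * E 68 = 2 * π := by
  linear_combination (1) * (F0 h).2.2.2.2.2.2.2.2.2.2.2.2.2.2.1 + (1) * (F3 h).1 + (2) * (F2 h).2.2.2.2.2.2.2.2.2.2.2.2.2.2.1 + (1) * h.l7

theorem pl40_71_63 (h : TaH K E p) : E 40 + E 71 + 2 * E 63 = 2 * π := by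
  linear_combination (1) * (F1 h).2.2.1 + (1) * (F3 h).2.1 + (2) * (F2 h).2.2.2.2.2.2.2.2.2.1 + (1) * h.l7

theorem pl39_69_66 (h : TaH K E p) : E 39 + E 69 + 2 * E 66 = 2 * π := by
  linear_combination (1) * (F1 h).2.1 + (1) * (F2 h).2.2.2.2.2.2.2.2.2.2.2.2.2.2.2.1 + (2) * (F2 h).2.2.2.2.2.2.2.2.2.2.2.2.1 + (1) * h.l7

theorem pl40_69_65 (h : TaH K E p) : E 40 + E 69 + 2 * E 65 = 2 * π := by
  linear_combination (1) * (F1 h).2.2.1 + (1) * (F2 h).2.2.2.2.2.2.2.2.2.2.2.2.2.2.2.1 + (2) * (F2 h).2.2.2.2.2.2.2.2.2.2.2.1 + (1) * h.l7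

theorem pl35_72_67 (h : TaH K E p) : E 35 + E 72 + 2 * E 67 = 2 * π := by
  linear_combination (1) * (F0 h).2.2.2.2.2.2.2.2.2.2.2.2.2.1 + (1) * (F3 h).2.2.1 + (2) * (F2 h).2.2.2.2.2.2.2.2.2.2.2.2.2.1 + (1) * h.l7

theorem pl37_71_66 (h : TaH K E p) : E 37 + E 71 + 2 * E 66 = 2 * π := by
  linear_combination (1) * (F0 h).2.2.2.2.2.2.2.2.2.2.2.2.2.2.2.1 + (1) * (F3 h).2.1 + (2) * (F2 h).2.2.2.2.2.2.2.2.2.2.2.2.1 + (1) * h.l7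

theorem pl72_66 (h : TaH K E p) : E 72 + 2 * E 66 = 2 * π := by
  linear_combination (1) * (F3 h).2.2.1 + (2) * (F2 h).2.2.2.2.2.2.2.2.2.2.2.2.1 + (1) * h.l7

theorem pl71_67 (h : TaH K E p) : E 71 + 2 * E 67 = 2 * π := by
  linear_combination (1) * (F3 h).2.1 + (2) * (F2 h).2.2.2.2.2.2.2.2.2.2.2.2.2.1 + (1) * h.l7

theorem pl36_72_66 (h : TaH K E p) : E 36 + E 72 + 2 * E 66 = 2 * π := by
  linear_combination (1) * (F0 h).2.2.2.2.2.2.2.2.2.2.2.2.2.2.1 + (1) * (F3 h).2.2.1 + (2) * (F2 h).2.2.2.2.2.2.2.2.2.2.2.2.1 + (1) * h.l7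

theorem pl39_71_65 (h : TaH K E p) : E 39 + E 71 + 2 * E 65 = 2 * π := by
  linear_combination (1) * (F1 h).2.1 + (1) * (F3 h).2.1 + (2) * (F2 h).2.2.2.2.2.2.2.2.2.2.2.1 + (1) * h.l7

theorem pl37_69_67 (h : TaH K E p) : E 37 + E 69 + 2 * E 67 = 2 * π := by
  linear_combination (1) * (F0 h).2.2.2.2.2.2.2.2.2.2.2.2.2.2.2.1 + (1) * (F2 h).2.2.2.2.2.2.2.2.2.2.2.2.2.2.2.1 + (2) * (F2 h).2.2.2.2.2.2.2.2.2.2.2.2.2.1 + (1) * h.l7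

theorem pl37_72_65 (h : TaH K E p) : E 37 + E 72 + 2 * E 65 = 2 * π := by
  linear_combination (1) * (F0 h).2.2.2.2.2.2.2.2.2.2.2.2.2.2.2.1 + (1) * (F3 h).2.2.1 + (2) * (F2 h).2.2.2.2.2.2.2.2.2.2.2.1 + (1) * h.l7

theorem pl36_71_67 (h : TaH K E p) : E 36 + E 71 + 2 * E 67 = 2 * π := by
  linear_combination (1) * (F0 h).2.2.2.2.2.2.2.2.2.2.2.2.2.2.1 + (1) * (F3 h).2.1 + (2) * (F2 h).2.2.2.2.2.2.2.2.2.2.2.2.2.1 + (1) * h.l7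

theorem pl45_74_57 (h : TaH K E p) : E 45 + E 74 + 2 * E 57 = 2 * π := by
  linear_combination (1) * (F1 h).2.2.2.2.2.2.2.1 + (1) * (F3 h).2.2.2.2.1 + (2) * (F2 h).2.2.2.1 + (1) * h.l6

noncomputable def TaC0t (E : ℕ → ℝ) : List Cell := [⟨E 50, E 2003, 0, E 342⟩, ⟨E 49, E 2004, 0, E 174⟩]

noncomputable def TaC0v (E : ℕ → ℝ) : List Cell := [⟨E 75, E 330, 0, 0⟩]

noncomputable def TaC0x (E : ℕ → ℝ) : List Cell := [⟨E 54, E 2117, E 24, E 674⟩]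

noncomputable def TaC1t (E : ℕ → ℝ) : List Cell := [⟨E 48, E 356, 0, 0⟩, ⟨E 49, E 355, 0, 0⟩, ⟨E 50, E 175, 0, 0⟩]

noncomputable def TaC1v (E : ℕ → ℝ) : List Cell := [⟨E 75, E 2118, E 23, E 675⟩, ⟨E 76, E 2119, E 23, E 676⟩]

noncomputable def TaC1x (E : ℕ → ℝ) : List Cell := [⟨E 56, E 2120, E 24, E 677⟩]

noncomputable def TaD1t (E : ℕ → ℝ) : List Cell := [⟨E 46, E 420, 0, 0⟩]

noncomputable def TaD1v (E : ℕ → ℝ) : List Cell := [⟨E 73, E 2121, E 23, E 678⟩, ⟨E 74, E 2122, E 23, E 679⟩]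

noncomputable def TaD1x (E : ℕ → ℝ) : List Cell := [⟨E 58, E 2123, E 24, E 680⟩]

noncomputable def TaD2t (E : ℕ → ℝ) : List Cell := [⟨E 46, E 2124, ((1 : ℤ) : ℝ) / ((1 : ℕ) : ℝ), E 681⟩, ⟨E 45, E 2125, ((1 : ℤ) : ℝ) / ((1 : ℕ) : ℝ), E 682⟩]

noncomputable def TaD2v (E : ℕ → ℝ) : List Cell := [⟨E 73, E 421, 0, 0⟩]

noncomputable def TaD2x (E : ℕ → ℝ) : List Cell := [⟨E 56, E 2126, E 24, E 683⟩]

noncomputable def TaAt (E : ℕ → ℝ) : List Cell := [⟨E 39, E 435, 0, 0⟩, ⟨E 36, E 434, 0, 0⟩, ⟨E 35, E 434, 0, 0⟩, ⟨E 34, E 2005, 0, E 176⟩]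

noncomputable def TaAv (E : ℕ → ℝ) : List Cell := [⟨E 83, E 419, 0, 0⟩, ⟨E 82, E 2006, 0, E 422⟩]

noncomputable def TaAx (E : ℕ → ℝ) : List Cell := [⟨E 50, E 2127, E 24, E 684⟩, ⟨E 49, E 2128, E 24, E 685⟩, ⟨E 48, E 2129, E 24, E 686⟩, ⟨E 47, E 2130, E 24, E 687⟩]

noncomputable def TaBt (E : ℕ → ℝ) : List Cell := [⟨E 44, E 2131, ((1 : ℤ) : ℝ) / ((1 : ℕ) : ℝ), E 688⟩, ⟨E 43, E 2132, ((1 : ℤ) : ℝ) / ((1 : ℕ) : ℝ), E 689⟩, ⟨E 42, E 2133, ((1 : ℤ) : ℝ) / ((1 : ℕ) : ℝ), E 690⟩, ⟨E 41, E 2134, ((1 : ℤ) : ℝ) / ((1 : ℕ) : ℝ), E 691⟩, ⟨E 40, E 2135, ((1 : ℤ) : ℝ) / ((1 : ℕ) : ℝ), E 692⟩, ⟨E 39, E 2136, ((1 : ℤ) : ℝ) / ((1 : ℕ) : ℝ), E 693⟩, ⟨E 38, E 2137, ((1 : ℤ) : ℝ) / ((1 : ℕ) : ℝ), E 694⟩, ⟨E 37, E 2138, ((1 : ℤ) : ℝ) / ((1 : ℕ) : ℝ), E 695⟩, ⟨E 36, E 2139, ((1 : ℤ) : ℝ) / ((1 : ℕ) : ℝ), E 696⟩, ⟨E 35, E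 439, 0, 0⟩]

noncomputable def TaBv (E : ℕ → ℝ) : List Cell := [⟨E 71, E 2140, E 23, E 697⟩, ⟨E 70, E 2141, E 23, E 698⟩, ⟨E 69, E 2142, E 23, E 699⟩, ⟨E 68, E 2143, E 23, E 700⟩]

noncomputable def TaBx (E : ℕ → ℝ) : List Cell := [⟨E 67, E 2144, E 24, E 701⟩, ⟨E 66, E 2145, E 24, E 702⟩, ⟨E 65, E 2146, E 24, E 703⟩, ⟨E 64, E 2147, E 24, E 704⟩, ⟨E 63, E 2148, E 24, E 705⟩, ⟨E 62, E 2149, E 24, E 706⟩, ⟨E 61, E 2150, E 24, E 707⟩, ⟨E 60, E 2151, E 24, E 708⟩, ⟨E 59, E 2152, E 24, E 709⟩, ⟨E 58, E 2153, E 24, E 710⟩]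

noncomputable def TaE1t (E : ℕ → ℝ) : List Cell := [⟨E 52, E 497, 0, 0⟩]

noncomputable def TaE1v (E : ℕ → ℝ) : List Cell := [⟨E 77, E 2154, E 23, E 711⟩, ⟨E 78, E 2155, E 23, E 712⟩]

noncomputable def TaE1x (E : ℕ → ℝ) : List Cell := [⟨E 54, E 2156, E 24, E 713⟩]

noncomputable def TaE2t (E : ℕ → ℝ) : List Cell := [⟨E 52, E 494, 0, 0⟩]

noncomputable def TaE2v (E : ℕ → ℝ) : List Cell := [⟨E 79, E 2157, E 23, E 714⟩, ⟨E 80, E 493, 0, 0⟩]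

noncomputable def TaE2x (E : ℕ → ℝ) : List Cell := [⟨E 53, E 492, 0, 0⟩]

noncomputable def TaE3t (E : ℕ → ℝ) : List Cell := [⟨E 51, E 2158, ((1 : ℤ) : ℝ) / ((1 : ℕ) : ℝ), E 715⟩]

noncomputable def TaE3v (E : ℕ → ℝ) : List Cell := [⟨E 79, E 491, 0, 0⟩, ⟨E 78, E 491, 0, 0⟩, ⟨E 77, E 495, 0, 0⟩]

noncomputable def TaE3x (E : ℕ → ℝ) : List Cell := [⟨E 52, E 2159, E 24, E 716⟩]

end Ta

end Pool.Agent.MP_e5b4ec_an.Mid
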