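import Pool.Agent.MP_e5b4ec_an.Mid.Ex

set_option maxRecDepth 20000
set_option linter.unusedSimpArgs false
set_option linter.unusedVariables false

open Real

namespace Pool.Agent.MP_e5b4ec_an.Mid

def Tad0 : List Ex := [
  .sub (.v 0) (.k 100),
  .inv (.v 0),
  .inv (.add (.v 0) (.q 1 1)),
  .add (.k 101) (.mul (.k 102) (.v 22)),
  .add (.k 103) (.mul (.k 104) (.v 22)),
  .add (.k 105) (.mul (.k 106) (.v 22)),
  .add (.k 107) (.mul (.k 108) (.v 22)),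
  .add (.k 109) (.mul (.k 110) (.v 22)),
  .add (.k 111) (.mul (.k 112) (.v 22)),
  .add (.k 113) (.mul (.k 114) (.v 22)),
  .sub (.q 0 1) .pi,
  .sub (.q 0 1) (.v 10),
  .sub (.v 15) (.add (.v 12) (.v 12)),
  .sub (.mul (.q 1 3) (.v 17)) (.mul (.q 1 3) (.v 18)),
  .q 0 1,
  .sub (.mul (.q 1 3) (.v 18)) (.mul (.q 1 3) (.v 17))]

def Tad1 : List Ex := [
  .sub (.add (.v 12) (.v 12)) (.v 15),
  .sub (.mul (.q 2 3) (.v 18)) (.mul (.q 2 3) (.v 17)),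
  .sub (.v 18) (.v 17),
  .sub (.sub (.add (.v 10) (.v 17)) (.v 29)) (.v 18),
  .sub (.sub (.add (.v 10) (.mul (.q 2 3) (.v 17))) (.v 29)) (.mul (.q 2 3) (.v 18)),
  .sub (.sub (.add (.v 10) (.mul (.q 1 3) (.v 17))) (.v 29)) (.mul (.q 1 3) (.v 18)),
  .sub (.v 10) (.v 29),
  .v 10,
  .v 27,
  .v 11,
  .sub (.add (.mul (.q 1 2) (.v 29)) (.mul (.q 1 2) (.v 16))) (.mul (.q 1 2) (.v 10)),
  .v 28,
  .sub (.sub (.add .pi .pi) (.v 26)) (.add (.v 25) (.v 25)),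
  .v 12,
  .v 13,
  .v 31]

def Tad2 : List Ex := [
  .v 14,
  .v 25,
  .v 15,
  .sub (.add (.mul (.q 1 2) (.v 11)) (.v 15)) (.mul (.q 1 2) (.v 10)),
  .v 16,
  .sub (.add (.add (.mul (.q 1 2) (.v 29)) (.v 16)) (.mul (.q 1 6) (.v 18))) (.mul (.q 1 6) (.v 17)),
  .sub (.add (.add (.mul (.q 1 2) (.v 29)) (.v 16)) (.mul (.q 1 3) (.v 18))) (.mul (.q 1 3) (.v 17)),
  .sub (.add (.add (.mul (.q 1 2) (.v 29)) (.v 16)) (.mul (.q 1 2) (.v 18))) (.mul (.q 1 2) (.v 17)),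
  .sub (.add (.add (.mul (.q 1 2) (.v 29)) (.v 16)) (.mul (.q 2 3) (.v 18))) (.mul (.q 2 3) (.v 17)),
  .sub (.add (.add (.mul (.q 1 2) (.v 10)) (.v 16)) (.mul (.q 1 3) (.v 17))) (.mul (.q 1 3) (.v 18)),
  .sub (.add (.add (.mul (.q 1 2) (.v 29)) (.v 16)) (.mul (.q 5 6) (.v 18))) (.mul (.q 5 6) (.v 17)),
  .sub (.add (.add (.mul (.q 1 2) (.v 10)) (.v 16)) (.mul (.q 1 6) (.v 17))) (.mul (.q 1 6) (.v 18)),
  .add (.mul (.q 1 2) (.v 10)) (.v 16),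
  .sub (.add (.add (.mul (.q 1 2) (.v 10)) (.v 16)) (.mul (.q 1 6) (.v 18))) (.mul (.q 1 6) (.v 17)),
  .v 17,
  .add (.mul (.q 2 3) (.v 17)) (.mul (.q 1 3) (.v 18))]

def Tad3 : List Ex := [
  .sub (.add (.add (.v 10) (.add (.v 16) (.v 16))) (.v 18)) (.add (.v 17) (.v 17)),
  .add (.mul (.q 1 3) (.v 17)) (.mul (.q 2 3) (.v 18)),
  .v 18,
  .sub (.sub (.sub (.add (.v 10) (.add .pi .pi)) (.v 11)) (.add (.v 15) (.v 15))) (.v 27),
  .v 19,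
  .v 26,
  .v 20,
  .sub (.sub (.add .pi .pi) (.add (.v 31) (.v 31))) (.v 13),
  .sub .pi (.v 30),
  .pi,
  .sub (.add .pi .pi) (.v 78),
  .sub (.add .pi .pi) (.v 76),
  .sub (.add .pi .pi) (.v 58),
  .sub (.add .pi .pi) (.v 57),
  .sub (.add .pi .pi) (.v 56),
  .sub (.add .pi .pi) (.v 36)]

def Tad4 : List Ex := [
  .sin (.v 36),
  .cos (.v 36),
  .sin (.v 37),
  .cos (.v 37),
  .sin (.v 38),
  .cos (.v 38),
  .sin (.v 39),
  .cos (.v 39),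
  .sin (.v 40),
  .cos (.v 40),
  .sin (.v 41),
  .cos (.v 41),
  .sin (.v 42),
  .cos (.v 42),
  .sin (.v 43),
  .cos (.v 43)]

def Tad5 : List Ex := [
  .sin (.v 44),
  .cos (.v 44),
  .sin (.v 45),
  .cos (.v 45),
  .sin (.v 46),
  .cos (.v 46),
  .sin (.v 47),
  .cos (.v 47),
  .sin (.v 48),
  .cos (.v 48),
  .sin (.v 49),
  .cos (.v 49),
  .sin (.v 50),
  .cos (.v 50),
  .sin (.v 51),
  .cos (.v 51)]

def Tad6 : List Ex := [
  .sin (.v 52),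
  .cos (.v 52),
  .sin (.v 53),
  .cos (.v 53),
  .sin (.v 54),
  .cos (.v 54),
  .sin (.v 55),
  .cos (.v 55),
  .sin (.v 56),
  .cos (.v 56),
  .sin (.v 57),
  .cos (.v 57),
  .sin (.v 58),
  .cos (.v 58),
  .sin (.v 59),
  .cos (.v 59)]

def Tad7 : List Ex := [
  .sin (.v 60),
  .cos (.v 60),
  .sin (.v 61),
  .cos (.v 61),
  .sin (.v 62),
  .cos (.v 62),
  .sin (.v 63),
  .cos (.v 63),
  .sin (.v 64),
  .cos (.v 64),
  .sin (.v 65),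
  .cos (.v 65),
  .sin (.v 66),
  .cos (.v 66),
  .sin (.v 67),
  .cos (.v 67)]

def Tad8 : List Ex := [
  .sin (.v 68),
  .cos (.v 68),
  .sin (.v 69),
  .cos (.v 69),
  .sin (.v 70),
  .cos (.v 70),
  .sin (.v 71),
  .cos (.v 71),
  .sin (.v 72),
  .cos (.v 72),
  .sin (.v 73),
  .cos (.v 73),
  .sin (.v 74),
  .cos (.v 74),
  .sin (.v 75),
  .cos (.v 75)]

def Tad9 : List Ex := [
  .sin (.v 76),
  .cos (.v 76),
  .sin (.v 77),
  .cos (.v 77),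
  .sin (.v 78),
  .cos (.v 78),
  .sin (.v 79),
  .cos (.v 79),
  .add (.k 115) (.mul (.k 116) (.v 22)),
  .add (.k 117) (.mul (.k 118) (.v 22)),
  .add (.k 119) (.mul (.k 120) (.v 22)),
  .add (.k 121) (.mul (.k 122) (.v 22)),
  .inv (.sub (.v 50) (.v 47)),
  .inv (.sub (.v 75) (.v 74)),
  .inv (.sub (.v 56) (.v 55)),
  .add (.k 123) (.mul (.k 124) (.v 22))]

def Tad10 : List Ex := [
  .inv (.sub (.v 47) (.v 46)),
  .inv (.sub (.v 74) (.v 73)),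
  .inv (.sub (.v 57) (.v 56)),
  .inv (.sub (.v 46) (.v 45)),
  .inv (.sub (.v 73) (.v 72)),
  .inv (.sub (.v 58) (.v 57)),
  .add (.k 125) (.mul (.k 126) (.v 22)),
  .inv (.sub (.v 44) (.v 34)),
  .inv (.sub (.v 84) (.v 82)),
  .inv (.sub (.v 51) (.v 48)),
  .add (.k 127) (.mul (.k 128) (.v 22)),
  .inv (.sub (.v 45) (.v 44)),
  .inv (.sub (.v 72) (.v 71)),
  .inv (.sub (.v 59) (.v 58)),
  .add (.k 129) (.mul (.k 130) (.v 22)),
  .add (.k 131) (.mul (.k 132) (.v 22))]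

def Tad11 : List Ex := [
  .inv (.sub (.v 72) (.v 69)),
  .inv (.sub (.v 60) (.v 58)),
  .add (.k 133) (.mul (.k 134) (.v 22)),
  .add (.k 135) (.mul (.k 136) (.v 22)),
  .inv (.sub (.v 45) (.v 43)),
  .inv (.sub (.v 72) (.v 68)),
  .inv (.sub (.v 62) (.v 58)),
  .add (.k 137) (.mul (.k 138) (.v 22)),
  .add (.k 139) (.mul (.k 140) (.v 22)),
  .inv (.sub (.v 45) (.v 42)),
  .inv (.sub (.v 64) (.v 58)),
  .add (.k 141) (.mul (.k 142) (.v 22)),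
  .inv (.sub (.v 44) (.v 43)),
  .inv (.sub (.v 71) (.v 69)),
  .inv (.sub (.v 61) (.v 59)),
  .add (.k 143) (.mul (.k 144) (.v 22))]

def Tad12 : List Ex := [
  .inv (.sub (.v 71) (.v 68)),
  .inv (.sub (.v 62) (.v 59)),
  .add (.k 145) (.mul (.k 146) (.v 22)),
  .inv (.sub (.v 43) (.v 42)),
  .inv (.sub (.v 64) (.v 60)),
  .add (.k 147) (.mul (.k 148) (.v 22)),
  .inv (.sub (.v 62) (.v 61)),
  .add (.k 149) (.mul (.k 150) (.v 22)),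
  .inv (.sub (.v 42) (.v 40)),
  .inv (.sub (.v 66) (.v 61)),
  .add (.k 151) (.mul (.k 152) (.v 22)),
  .inv (.sub (.v 69) (.v 68)),
  .inv (.sub (.v 62) (.v 60)),
  .add (.k 153) (.mul (.k 154) (.v 22)),
  .add (.k 155) (.mul (.k 156) (.v 22)),
  .inv (.sub (.v 44) (.v 40))]

def Tad13 : List Ex := [
  .inv (.sub (.v 66) (.v 60)),
  .add (.k 157) (.mul (.k 158) (.v 22)),
  .add (.k 159) (.mul (.k 160) (.v 22)),
  .inv (.sub (.v 64) (.v 61)),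
  .add (.k 161) (.mul (.k 162) (.v 22)),
  .inv (.sub (.v 66) (.v 62)),
  .add (.k 163) (.mul (.k 164) (.v 22)),
  .inv (.sub (.v 43) (.v 41)),
  .inv (.sub (.v 64) (.v 62)),
  .add (.k 165) (.mul (.k 166) (.v 22)),
  .add (.k 167) (.mul (.k 168) (.v 22)),
  .inv (.sub (.v 41) (.v 36)),
  .inv (.sub (.v 70) (.v 69)),
  .inv (.sub (.v 68) (.v 64)),
  .add (.k 169) (.mul (.k 170) (.v 22)),
  .inv (.sub (.v 43) (.v 40))]

def Tad14 : List Ex := [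
  .inv (.sub (.v 63) (.v 62)),
  .add (.k 171) (.mul (.k 172) (.v 22)),
  .inv (.sub (.v 43) (.v 39)),
  .add (.k 173) (.mul (.k 174) (.v 22)),
  .add (.k 175) (.mul (.k 176) (.v 22)),
  .inv (.sub (.v 64) (.v 63)),
  .add (.k 177) (.mul (.k 178) (.v 22)),
  .add (.k 179) (.mul (.k 180) (.v 22)),
  .inv (.sub (.v 42) (.v 39)),
  .inv (.sub (.v 66) (.v 64)),
  .add (.k 181) (.mul (.k 182) (.v 22)),
  .add (.k 183) (.mul (.k 184) (.v 22)),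
  .inv (.sub (.v 65) (.v 64)),
  .add (.k 185) (.mul (.k 186) (.v 22)),
  .add (.k 187) (.mul (.k 188) (.v 22)),
  .inv (.sub (.v 37) (.v 35))]

def Tad15 : List Ex := [
  .inv (.sub (.v 67) (.v 66)),
  .add (.k 189) (.mul (.k 190) (.v 22)),
  .add (.k 191) (.mul (.k 192) (.v 22)),
  .inv (.sub (.v 36) (.v 35)),
  .inv (.sub (.v 72) (.v 70)),
  .inv (.sub (.v 68) (.v 67)),
  .add (.k 193) (.mul (.k 194) (.v 22)),
  .add (.k 195) (.mul (.k 196) (.v 22)),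
  .add (.k 197) (.mul (.k 198) (.v 22)),
  .inv (.sub (.v 39) (.v 36)),
  .inv (.sub (.v 66) (.v 65)),
  .add (.k 199) (.mul (.k 200) (.v 22)),
  .inv (.sub (.v 37) (.v 36)),
  .add (.k 201) (.mul (.k 202) (.v 22)),
  .inv (.sub (.v 67) (.v 65)),
  .add (.k 203) (.mul (.k 204) (.v 22))]

def Tad16 : List Ex := [
  .inv (.sub (.v 39) (.v 37)),
  .add (.k 205) (.mul (.k 206) (.v 22)),
  .inv (.sub (.v 40) (.v 36)),
  .add (.k 207) (.mul (.k 208) (.v 22)),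
  .inv (.sub (.v 40) (.v 37)),
  .add (.k 209) (.mul (.k 210) (.v 22)),
  .inv (.sub (.v 71) (.v 70)),
  .inv (.sub (.v 68) (.v 66)),
  .add (.k 211) (.mul (.k 212) (.v 22)),
  .inv (.sub (.v 40) (.v 39)),
  .add (.k 213) (.mul (.k 214) (.v 22)),
  .inv (.sub (.v 68) (.v 65)),
  .add (.k 215) (.mul (.k 216) (.v 22)),
  .inv (.sub (.v 52) (.v 51)),
  .inv (.sub (.v 77) (.v 76)),
  .inv (.sub (.v 54) (.v 53))]

def Tad17 : List Ex := [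
  .mul (.q 1 2) (.add (.v 76) (.v 75)),
  .mul (.q 1 2) (.add (.v 55) (.v 54)),
  .sub (.sub (.add .pi .pi) (.v 294)) (.add (.v 295) (.v 295)),
  .mul (.q 1 2) (.add (.v 74) (.v 76)),
  .mul (.q 1 2) (.add (.v 55) (.v 56)),
  .sub (.sub (.add .pi .pi) (.v 297)) (.add (.v 298) (.v 298)),
  .mul (.q 1 2) (.add (.v 72) (.v 74)),
  .mul (.q 1 2) (.add (.v 57) (.v 58)),
  .sub (.sub (.add .pi .pi) (.v 300)) (.add (.v 301) (.v 301)),
  .mul (.q 1 2) (.add (.v 74) (.v 73)),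
  .mul (.q 1 2) (.add (.v 57) (.v 56)),
  .sub (.sub (.add .pi .pi) (.v 303)) (.add (.v 304) (.v 304)),
  .mul (.q 1 2) (.add (.v 84) (.v 82)),
  .mul (.q 1 2) (.add (.v 51) (.v 47)),
  .sub (.sub (.add .pi .pi) (.v 306)) (.add (.v 307) (.v 307)),
  .mul (.q 1 2) (.add (.v 72) (.v 68))]

def Tad18 : List Ex := [
  .mul (.q 1 2) (.add (.v 68) (.v 58)),
  .sub (.sub (.add .pi .pi) (.v 309)) (.add (.v 310) (.v 310)),
  .mul (.q 1 2) (.add (.v 76) (.v 78)),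
  .mul (.q 1 2) (.add (.v 53) (.v 54)),
  .sub (.sub (.add .pi .pi) (.v 312)) (.add (.v 313) (.v 313)),
  .mul (.q 1 2) (.add (.v 78) (.v 80)),
  .mul (.q 1 2) (.add (.v 52) (.v 53)),
  .sub (.sub (.add .pi .pi) (.v 315)) (.add (.v 316) (.v 316)),
  .mul (.q 1 2) (.add (.v 80) (.v 77)),
  .mul (.q 1 2) (.add (.v 53) (.v 52)),
  .sub (.sub (.add .pi .pi) (.v 318)) (.add (.v 319) (.v 319)),
  .mul (.v 190) (.v 190),
  .sub (.q 0 1) (.mul (.v 188) (.mul (.v 190) (.v 190))),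
  .mul (.v 189) (.v 189),
  .mul (.v 188) (.mul (.v 189) (.v 189)),
  .mul (.v 261) (.v 261)]

def Tad19 : List Ex := [
  .mul (.sub (.v 260) (.v 259)) (.mul (.v 261) (.v 261)),
  .sub (.v 76) (.v 75),
  .sub (.q 0 1) (.mul (.v 24) (.sub (.v 123) (.v 125))),
  .inv (.v 327),
  .sub (.q 0 1) (.mul (.v 329) (.v 328)),
  .sub (.v 51) (.v 50),
  .mul (.sub (.v 51) (.v 50)) (.sub (.mul (.q 1 2) (.add (.v 50) (.v 51))) (.v 51)),
  .sub (.add (.mul (.sub (.v 50) (.v 49)) (.mul (.sub (.v 50) (.v 49)) (.v 174))) (.mul (.mul (.sub (.v 50) (.v 49)) (.sub (.mul (.q 1 2) (.add (.v 49) (.v 50))) (.v 50))) (.v 174))) (.mul (.v 24) (.sub (.v 123) (.v 125))),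
  .mul (.sub (.v 51) (.v 50)) (.sub (.mul (.q 1 2) (.add (.v 50) (.v 51))) (.v 296)),
  .mul (.sub (.v 51) (.v 50)) (.add (.mul (.q 1 3) (.add (.add (.mul (.sub (.v 50) (.v 51)) (.sub (.v 50) (.v 51))) (.mul (.sub (.v 50) (.v 51)) (.sub (.v 51) (.v 51)))) (.mul (.sub (.v 51) (.v 51)) (.sub (.v 51) (.v 51))))) (.mul (.sub (.v 51) (.v 296)) (.sub (.mul (.q 1 2) (.add (.v 50) (.v 51))) (.v 51)))),
  .add (.add (.add (.add (.mul (.mul (.sub (.v 50) (.v 49)) (.sub (.mul (.q 1 2) (.add (.v 49) (.v 50))) (.v 296))) (.mul (.sub (.v 50) (.v 49)) (.v 174))) (.mul (.mul (.sub (.v 50) (.v 49)) (.add (.mul (.q 1 3) (.add (.add (.mul (.sub (.v 49) (.v 50)) (.sub (.v 49) (.v 50))) (.mul (.sub (.v 49) (.v 50)) (.sub (.v 50) (.v 50)))) (.mul (.sub (.v 50) (.v 50)) (.sub (.v 50) (.v 50))))) (.mul (.sub (.v 50) (.v 296)) (.sub (.mul (.q 1 2) (.add (.v 49) (.v 50))) (.v 50))))) (.v 174)))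 (.mul (.v 24) (.add (.sub (.v 124) (.v 122)) (.sub (.mul (.sub (.v 54) (.v 295)) (.v 123)) (.mul (.sub (.v 55) (.v 295)) (.v 125)))))) (.mul (.v 24) (.add (.sub (.v 124) (.v 122)) (.sub (.mul (.sub (.v 54) (.v 295)) (.v 123)) (.mul (.sub (.v 55) (.v 295)) (.v 125)))))) (.mul (.mul (.sub (.v 76) (.v 75)) (.sub (.mul (.q 1 2) (.add (.v 75) (.v 76))) (.v 294))) (.v 330)),
  .inv (.v 331),
  .mul (.v 334) (.v 337),
  .sub (.v 335) (.mul (.v 338) (.v 332)),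
  .sub (.v 336) (.mul (.v 338) (.v 333)),
  .inv (.v 339)]

def Tad20 : List Ex := [
  .sub (.q 0 1) (.mul (.v 341) (.v 340)),
  .sub (.q 0 1) (.mul (.v 337) (.add (.v 333) (.mul (.v 332) (.v 342)))),
  .sub (.v 48) (.v 47),
  .sub (.v 49) (.v 48),
  .sub (.add (.mul (.sub (.v 50) (.v 49)) (.v 175)) (.mul (.q 1 2) (.v 177))) (.mul (.v 24) (.sub (.v 125) (.v 127))),
  .mul (.sub (.v 48) (.v 47)) (.sub (.mul (.q 1 2) (.add (.v 47) (.v 48))) (.v 299)),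
  .mul (.sub (.v 49) (.v 48)) (.sub (.mul (.q 1 2) (.add (.v 48) (.v 49))) (.v 299)),
  .sub (.sub (.sub (.sub (.add (.add (.add (.mul (.mul (.sub (.v 50) (.v 49)) (.sub (.mul (.q 1 2) (.add (.v 49) (.v 50))) (.v 299))) (.v 175)) (.mul (.v 23) (.add (.sub (.v 166) (.v 162)) (.sub (.mul (.sub (.v 74) (.v 297)) (.v 163)) (.mul (.sub (.v 76) (.v 297)) (.v 167)))))) (.mul (.v 24) (.add (.sub (.v 126) (.v 124)) (.sub (.mul (.sub (.v 55) (.v 298)) (.v 125)) (.mul (.sub (.v 56) (.v 298)) (.v 127)))))) (.mul (.v 24) (.add (.sub (.v 126) (.v 124)) (.sub (.mul (.sub (.v 55) (.v 298)) (.v 125)) (.mul (.sub (.v 56) (.v 298)) (.v 127)))))) (.mul (.mul (.q 1 6) (.add (.add (.sub (.v 74) (.v 297)) (.sub (.v 74) (.v 297))) (.sub (.v 75) (.v 297)))) (.v 177))) (.mul (.mul (.q 1 6) (.add (.sub (.v 55) (.v 298)) (.add (.sub (.v 56) (.v 298)) (.sub (.v 56) (.v 298))))) (.v 177))) (.mul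 (.mul (.q 1 6) (.add (.sub (.v 55) (.v 298)) (.add (.sub (.v 56) (.v 298)) (.sub (.v 56) (.v 298))))) (.v 177))) (.mul (.mul (.sub (.v 76) (.v 75)) (.sub (.mul (.q 1 2) (.add (.v 75) (.v 76))) (.v 297))) (.v 330)),
  .inv (.v 344),
  .mul (.v 347) (.v 350),
  .sub (.v 348) (.mul (.v 351) (.v 345)),
  .sub (.v 349) (.mul (.v 351) (.v 346)),
  .inv (.v 352),
  .sub (.q 0 1) (.mul (.v 354) (.v 353)),
  .sub (.q 0 1) (.mul (.v 350) (.add (.v 346) (.mul (.v 345) (.v 355)))),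
  .sub (.v 46) (.v 45)]

def Tad21 : List Ex := [
  .sub (.q 0 1) (.mul (.mul (.v 24) (.v 0)) (.sub (.v 83) (.v 82))),
  .sub (.q 0 1) (.mul (.mul (.v 24) (.v 0)) (.mul (.sub (.v 83) (.v 82)) (.sub (.mul (.q 1 2) (.add (.v 82) (.v 83))) (.v 83)))),
  .q 1 2,
  .sub (.sub (.q 0 1) (.mul (.v 24) (.sub (.v 129) (.v 131)))) (.mul (.mul (.v 24) (.v 0)) (.mul (.sub (.v 83) (.v 82)) (.mul (.v 322) (.sub (.mul (.q 1 2) (.add (.v 82) (.v 83))) (.v 84))))),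
  .sub (.q 1 2) (.q 1 2),
  .sub (.q 0 1) (.sub (.v 74) (.v 73)),
  .sub (.q 0 1) (.mul (.mul (.v 24) (.v 0)) (.sub (.v 83) (.v 82))),
  .sub (.q 0 1) (.mul (.mul (.v 24) (.v 0)) (.mul (.sub (.v 83) (.v 82)) (.sub (.mul (.q 1 2) (.add (.v 82) (.v 83))) (.v 83)))),
  .sub (.sub (.sub (.mul (.v 23) (.sub (.v 159) (.v 163))) (.mul (.q 1 2) (.v 181))) (.mul (.v 24) (.sub (.v 129) (.v 131)))) (.mul (.mul (.v 24) (.v 0)) (.mul (.sub (.v 83) (.v 82)) (.mul (.v 322) (.sub (.mul (.q 1 2) (.add (.v 82) (.v 83))) (.v 84))))),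
  .mul (.sub (.v 46) (.v 45)) (.sub (.mul (.q 1 2) (.add (.v 45) (.v 46))) (.v 302)),
  .sub (.sub (.sub (.q 0 1) (.mul (.q 1 6) (.add (.sub (.v 72) (.v 300)) (.add (.sub (.v 73) (.v 300)) (.sub (.v 73) (.v 300)))))) (.mul (.q 1 6) (.add (.add (.sub (.v 57) (.v 301)) (.sub (.v 57) (.v 301))) (.sub (.v 58) (.v 301))))) (.mul (.q 1 6) (.add (.add (.sub (.v 57) (.v 301)) (.sub (.v 57) (.v 301))) (.sub (.v 58) (.v 301)))),
  .sub (.q 0 1) (.mul (.sub (.v 74) (.v 73)) (.sub (.mul (.q 1 2) (.add (.v 73) (.v 74))) (.v 300))),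
  .sub (.sub (.q 0 1) (.mul (.mul (.v 24) (.v 0)) (.mul (.sub (.v 83) (.v 82)) (.sub (.mul (.q 1 2) (.add (.v 82) (.v 83))) (.sub (.add .pi .pi) (.v 301)))))) (.mul (.mul (.v 24) (.v 0)) (.mul (.sub (.v 83) (.v 82)) (.sub (.mul (.q 1 2) (.add (.v 82) (.v 83))) (.sub (.add .pi .pi) (.v 301))))),
  .sub (.sub (.q 0 1) (.mul (.mul (.v 24) (.v 0)) (.mul (.sub (.v 83) (.v 82)) (.add (.mul (.q 1 3) (.add (.add (.mul (.sub (.v 82) (.v 83)) (.sub (.v 82) (.v 83))) (.mul (.sub (.v 82) (.v 83)) (.sub (.v 83) (.v 83)))) (.mul (.sub (.v 83) (.v 83)) (.sub (.v 83) (.v 83))))) (.mul (.sub (.v 83) (.sub (.add .pi .pi) (.v 301))) (.sub (.mul (.q 1 2) (.add (.v 82) (.v 83))) (.v 83))))))) (.mul (.mul (.v 24) (.v 0)) (.mul (.sub (.v 83) (.v 82)) (.add (.mul (.q 1 3) (.add (.add (.mul (.sub (.v 82) (.v 83)) (.sub (.v 82) (.v 83))) (.mul (.sub (.v 82) (.v 83)) (.sub (.v 83) (.v 83))))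 (.mul (.sub (.v 83) (.v 83)) (.sub (.v 83) (.v 83))))) (.mul (.sub (.v 83) (.sub (.add .pi .pi) (.v 301))) (.sub (.mul (.q 1 2) (.add (.v 82) (.v 83))) (.v 83)))))),
  .sub (.sub (.sub (.add (.add (.mul (.v 23) (.add (.sub (.v 162) (.v 158)) (.sub (.mul (.sub (.v 72) (.v 300)) (.v 159)) (.mul (.sub (.v 74) (.v 300)) (.v 163))))) (.mul (.v 24) (.add (.sub (.v 130) (.v 128)) (.sub (.mul (.sub (.v 57) (.v 301)) (.v 129)) (.mul (.sub (.v 58) (.v 301)) (.v 131)))))) (.mul (.v 24) (.add (.sub (.v 130) (.v 128)) (.sub (.mul (.sub (.v 57) (.v 301)) (.v 129)) (.mul (.sub (.v 58) (.v 301)) (.v 131)))))) (.mul (.mul (.q 1 6) (.add (.add (.sub (.v 73) (.v 300)) (.sub (.v 73) (.v 300))) (.sub (.v 74) (.v 300)))) (.v 181))) (.mul (.mul (.v 24) (.v 0)) (.mul (.sub (.v 83) (.v 82)) (.mul (.v 322) (.add (.mul (.q 1 3) (.add (.add (.mul (.sub (.v 82) (.v 84)) (.sub (.v 82) (.v 84)))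 (.mul (.sub (.v 82) (.v 84)) (.sub (.v 83) (.v 84)))) (.mul (.sub (.v 83) (.v 84)) (.sub (.v 83) (.v 84))))) (.mul (.sub (.v 84) (.sub (.add .pi .pi) (.v 301))) (.sub (.mul (.q 1 2) (.add (.v 82) (.v 83))) (.v 84)))))))) (.mul (.mul (.v 24) (.v 0)) (.mul (.sub (.v 83) (.v 82)) (.mul (.v 322) (.add (.mul (.q 1 3) (.add (.add (.mul (.sub (.v 82) (.v 84)) (.sub (.v 82) (.v 84))) (.mul (.sub (.v 82) (.v 84)) (.sub (.v 83) (.v 84)))) (.mul (.sub (.v 83) (.v 84)) (.sub (.v 83) (.v 84))))) (.mul (.sub (.v 84) (.sub (.add .pi .pi) (.v 301))) (.sub (.mul (.q 1 2) (.add (.v 82) (.v 83))) (.v 84))))))),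
  .sub (.q 0 1) (.sub (.v 46) (.v 45))]

def Tad22 : List Ex := [
  .sub (.q 0 1) (.q 1 2),
  .sub (.q 0 1) (.mul (.mul (.v 24) (.v 0)) (.sub (.v 84) (.v 83))),
  .sub (.sub (.sub (.add (.mul (.q 1 1) (.sub (.v 105) (.v 109))) (.mul (.q 1 2) (.v 181))) (.mul (.q 1 2) (.v 181))) (.mul (.v 24) (.sub (.v 127) (.v 129)))) (.mul (.mul (.v 24) (.v 0)) (.mul (.sub (.v 84) (.v 83)) (.mul (.v 322) (.sub (.mul (.q 1 2) (.add (.v 83) (.v 84))) (.v 84))))),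
  .sub (.q 0 1) (.mul (.sub (.v 46) (.v 45)) (.sub (.mul (.q 1 2) (.add (.v 45) (.v 46))) (.v 305))),
  .sub (.q 0 1) (.mul (.q 1 6) (.add (.sub (.v 45) (.v 305)) (.add (.sub (.v 46) (.v 305)) (.sub (.v 46) (.v 305))))),
  .mul (.sub (.v 74) (.v 73)) (.sub (.mul (.q 1 2) (.add (.v 73) (.v 74))) (.v 303)),
  .sub (.sub (.q 0 1) (.mul (.mul (.v 24) (.v 0)) (.mul (.sub (.v 84) (.v 83)) (.sub (.mul (.q 1 2) (.add (.v 83) (.v 84))) (.sub (.add .pi .pi) (.v 304)))))) (.mul (.mul (.v 24) (.v 0)) (.mul (.sub (.v 84) (.v 83)) (.sub (.mul (.q 1 2) (.add (.v 83) (.v 84))) (.sub (.add .pi .pi) (.v 304))))),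
  .sub (.sub (.sub (.sub (.sub (.add (.add (.mul (.q 1 1) (.add (.sub (.v 108) (.v 104)) (.sub (.mul (.sub (.v 45) (.v 305)) (.v 105)) (.mul (.sub (.v 47) (.v 305)) (.v 109))))) (.mul (.v 24) (.add (.sub (.v 128) (.v 126)) (.sub (.mul (.sub (.v 56) (.v 304)) (.v 127)) (.mul (.sub (.v 57) (.v 304)) (.v 129)))))) (.mul (.v 24) (.add (.sub (.v 128) (.v 126)) (.sub (.mul (.sub (.v 56) (.v 304)) (.v 127)) (.mul (.sub (.v 57) (.v 304)) (.v 129)))))) (.mul (.mul (.q 1 6) (.add (.add (.sub (.v 46) (.v 305)) (.sub (.v 46) (.v 305))) (.sub (.v 47) (.v 305)))) (.v 181))) (.mul (.mul (.q 1 6) (.add (.sub (.v 56) (.v 304)) (.add (.sub (.v 57) (.v 304)) (.sub (.v 57) (.v 304))))) (.v 181))) (.mul (.mul (.v 24) (.v 0)) (.mul (.sub (.v 84) (.v 83)) (.mul (.v 322) (.add (.mul (.q 1 3) (.add (.add (.mul (.sub (.v 83) (.v 84)) (.sub (.v 83) (.v 84))) (.mul (.sub (.v 83) (.v 84)) (.sub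 (.v 84) (.v 84)))) (.mul (.sub (.v 84) (.v 84)) (.sub (.v 84) (.v 84))))) (.mul (.sub (.v 84) (.sub (.add .pi .pi) (.v 304))) (.sub (.mul (.q 1 2) (.add (.v 83) (.v 84))) (.v 84)))))))) (.mul (.mul (.q 1 6) (.add (.sub (.v 56) (.v 304)) (.add (.sub (.v 57) (.v 304)) (.sub (.v 57) (.v 304))))) (.v 181))) (.mul (.mul (.v 24) (.v 0)) (.mul (.sub (.v 84) (.v 83)) (.mul (.v 322) (.add (.mul (.q 1 3) (.add (.add (.mul (.sub (.v 83) (.v 84)) (.sub (.v 83) (.v 84))) (.mul (.sub (.v 83) (.v 84)) (.sub (.v 84) (.v 84)))) (.mul (.sub (.v 84) (.v 84)) (.sub (.v 84) (.v 84))))) (.mul (.sub (.v 84) (.sub (.add .pi .pi) (.v 304))) (.sub (.mul (.q 1 2) (.add (.v 83) (.v 84))) (.v 84))))))),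
  .inv (.v 359),
  .mul (.v 365) (.v 382),
  .sub (.v 364) (.mul (.v 383) (.v 358)),
  .sub (.q 0 1) (.mul (.v 383) (.v 357)),
  .sub (.v 362) (.mul (.v 383) (.v 360)),
  .sub (.v 366) (.mul (.v 383) (.v 361)),
  .mul (.v 371) (.v 382),
  .sub (.v 370) (.mul (.v 388) (.v 358))]

def Tad23 : List Ex := [
  .sub (.v 367) (.mul (.v 388) (.v 357)),
  .sub (.v 368) (.mul (.v 388) (.v 360)),
  .sub (.v 372) (.mul (.v 388) (.v 361)),
  .inv (.sub (.q 0 1) (.v 363)),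
  .mul (.v 369) (.v 393),
  .add (.v 389) (.mul (.v 394) (.v 384)),
  .add (.v 390) (.mul (.v 394) (.v 385)),
  .add (.v 391) (.mul (.v 394) (.v 386)),
  .add (.v 392) (.mul (.v 394) (.v 387)),
  .mul (.v 379) (.v 393),
  .add (.v 380) (.mul (.v 399) (.v 384)),
  .add (.v 377) (.mul (.v 399) (.v 385)),
  .add (.v 378) (.mul (.v 399) (.v 386)),
  .add (.v 381) (.mul (.v 399) (.v 387)),
  .inv (.sub (.q 0 1) (.v 373)),
  .mul (.v 396) (.v 404)]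

def Tad24 : List Ex := [
  .add (.v 395) (.mul (.v 405) (.v 375)),
  .add (.v 397) (.mul (.v 405) (.v 374)),
  .add (.v 398) (.mul (.v 405) (.v 376)),
  .mul (.v 401) (.v 404),
  .add (.v 400) (.mul (.v 409) (.v 375)),
  .add (.v 402) (.mul (.v 409) (.v 374)),
  .add (.v 403) (.mul (.v 409) (.v 376)),
  .inv (.sub (.q 0 1) (.v 406)),
  .mul (.v 410) (.v 413),
  .add (.v 411) (.mul (.v 414) (.v 407)),
  .add (.v 412) (.mul (.v 414) (.v 408)),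
  .inv (.sub (.q 0 1) (.v 415)),
  .mul (.v 417) (.v 416),
  .mul (.v 413) (.add (.v 408) (.mul (.v 407) (.v 418))),
  .mul (.v 404) (.add (.add (.v 376) (.mul (.v 374) (.v 418))) (.mul (.v 375) (.v 419))),
  .mul (.v 393) (.add (.add (.add (.v 387) (.mul (.v 384) (.v 419))) (.mul (.v 385) (.v 420))) (.mul (.v 386) (.v 418)))]

def Tad25 : List Ex := [
  .sub (.q 0 1) (.mul (.v 382) (.add (.add (.add (.v 361) (.mul (.v 357) (.v 420))) (.mul (.v 358) (.v 419))) (.mul (.v 360) (.v 418)))),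
  .sub (.v 43) (.v 39),
  .add (.sub (.v 39) (.v 36)) (.sub (.v 36) (.v 35)),
  .sub (.add (.add (.add (.add (.add (.add (.add (.add (.add (.mul (.sub (.v 35) (.v 34)) (.mul (.sub (.v 35) (.v 34)) (.v 176))) (.mul (.mul (.sub (.v 35) (.v 34)) (.sub (.mul (.q 1 2) (.add (.v 34) (.v 35))) (.v 35))) (.v 176))) (.mul (.q 1 2) (.v 188))) (.mul (.v 24) (.add (.mul (.sub (.v 50) (.v 49)) (.mul (.sub (.v 50) (.v 49)) (.v 174))) (.mul (.mul (.sub (.v 50) (.v 49)) (.sub (.mul (.q 1 2) (.add (.v 49) (.v 50))) (.v 50))) (.v 174))))) (.mul (.v 24) (.mul (.sub (.v 50) (.v 49)) (.v 175)))) (.mul (.v 24) (.mul (.q 1 2) (.v 177)))) (.mul (.mul (.v 24) (.sub (.v 51) (.v 50))) (.v 343))) (.mul (.mul (.v 24) (.mul (.sub (.v 51) (.v 50)) (.sub (.mul (.q 1 2) (.add (.v 50) (.v 51))) (.v 51)))) (.v 342))) (.mul (.mul (.v 24) (.sub (.v 49) (.v 48))) (.v 355))) (.mul (.mul (.v 24) (.sub (.v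 48) (.v 47))) (.v 356))) (.mul (.v 24) (.sub (.v 109) (.v 117))),
  .mul (.sub (.v 43) (.v 39)) (.sub (.mul (.q 1 2) (.add (.v 39) (.v 43))) (.v 308)),
  .add (.mul (.sub (.v 39) (.v 36)) (.sub (.mul (.q 1 2) (.add (.v 36) (.v 39))) (.v 308))) (.mul (.sub (.v 36) (.v 35)) (.sub (.mul (.q 1 2) (.add (.v 35) (.v 36))) (.v 308))),
  .sub (.sub (.sub (.sub (.sub (.sub (.sub (.sub (.sub (.sub (.sub (.sub (.sub (.sub (.sub (.sub (.add (.add (.add (.add (.add (.add (.mul (.mul (.sub (.v 35) (.v 34)) (.sub (.mul (.q 1 2) (.add (.v 34) (.v 35))) (.v 308))) (.mul (.sub (.v 35) (.v 34)) (.v 176))) (.mul (.mul (.sub (.v 35) (.v 34)) (.add (.mul (.q 1 3) (.add (.add (.mul (.sub (.v 34) (.v 35)) (.sub (.v 34) (.v 35))) (.mul (.sub (.v 34) (.v 35)) (.sub (.v 35) (.v 35)))) (.mul (.sub (.v 35) (.v 35)) (.sub (.v 35) (.v 35))))) (.mul (.sub (.v 35) (.v 308)) (.sub (.mul (.q 1 2) (.add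 (.v 34) (.v 35))) (.v 35))))) (.v 176))) (.mul (.v 24) (.add (.sub (.v 116) (.v 108)) (.sub (.mul (.sub (.v 47) (.v 307)) (.v 109)) (.mul (.sub (.v 51) (.v 307)) (.v 117)))))) (.mul (.v 24) (.add (.sub (.v 116) (.v 108)) (.sub (.mul (.sub (.v 47) (.v 307)) (.v 109)) (.mul (.sub (.v 51) (.v 307)) (.v 117)))))) (.mul (.mul (.sub (.v 84) (.v 83)) (.sub (.mul (.q 1 2) (.add (.v 83) (.v 84))) (.v 306))) (.v 419))) (.mul (.mul (.sub (.v 83) (.v 82)) (.sub (.mul (.q 1 2) (.add (.v 82) (.v 83))) (.v 306))) (.v 419))) (.mul (.mul (.sub (.v 83) (.v 82)) (.add (.mul (.q 1 3) (.add (.add (.mul (.sub (.v 82) (.v 83)) (.sub (.v 82) (.v 83))) (.mul (.sub (.v 82) (.v 83)) (.sub (.v 83) (.v 83)))) (.mul (.sub (.v 83) (.v 83)) (.sub (.v 83) (.v 83))))) (.mul (.sub (.v 83) (.v 306)) (.sub (.mul (.q 1 2) (.add (.v 82) (.v 83))) (.v 83))))) (.v 422))) (.mul (.mul (.q 1 6) (.add (.add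 (.sub (.v 48) (.v 307)) (.sub (.v 48) (.v 307))) (.sub (.v 51) (.v 307)))) (.v 188))) (.mul (.v 24) (.add (.mul (.mul (.sub (.v 50) (.v 49)) (.sub (.mul (.q 1 2) (.add (.v 49) (.v 50))) (.v 307))) (.mul (.sub (.v 50) (.v 49)) (.v 174))) (.mul (.mul (.sub (.v 50) (.v 49)) (.add (.mul (.q 1 3) (.add (.add (.mul (.sub (.v 49) (.v 50)) (.sub (.v 49) (.v 50))) (.mul (.sub (.v 49) (.v 50)) (.sub (.v 50) (.v 50)))) (.mul (.sub (.v 50) (.v 50)) (.sub (.v 50) (.v 50))))) (.mul (.sub (.v 50) (.v 307)) (.sub (.mul (.q 1 2) (.add (.v 49) (.v 50))) (.v 50))))) (.v 174))))) (.mul (.v 24) (.mul (.mul (.sub (.v 50) (.v 49)) (.sub (.mul (.q 1 2) (.add (.v 49) (.v 50))) (.v 307))) (.v 175)))) (.mul (.v 24) (.mul (.mul (.q 1 6) (.add (.add (.sub (.v 47) (.v 307)) (.sub (.v 47) (.v 307))) (.sub (.v 50) (.v 307)))) (.v 177)))) (.mul (.mul (.q 1 6) (.add (.add (.sub (.v 48) (.v 307)) (.sub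 (.v 48) (.v 307))) (.sub (.v 51) (.v 307)))) (.v 188))) (.mul (.v 24) (.add (.mul (.mul (.sub (.v 50) (.v 49)) (.sub (.mul (.q 1 2) (.add (.v 49) (.v 50))) (.v 307))) (.mul (.sub (.v 50) (.v 49)) (.v 174))) (.mul (.mul (.sub (.v 50) (.v 49)) (.add (.mul (.q 1 3) (.add (.add (.mul (.sub (.v 49) (.v 50)) (.sub (.v 49) (.v 50))) (.mul (.sub (.v 49) (.v 50)) (.sub (.v 50) (.v 50)))) (.mul (.sub (.v 50) (.v 50)) (.sub (.v 50) (.v 50))))) (.mul (.sub (.v 50) (.v 307)) (.sub (.mul (.q 1 2) (.add (.v 49) (.v 50))) (.v 50))))) (.v 174))))) (.mul (.v 24) (.mul (.mul (.sub (.v 50) (.v 49)) (.sub (.mul (.q 1 2) (.add (.v 49) (.v 50))) (.v 307))) (.v 175)))) (.mul (.v 24) (.mul (.mul (.q 1 6) (.add (.add (.sub (.v 47) (.v 307)) (.sub (.v 47) (.v 307))) (.sub (.v 50) (.v 307)))) (.v 177)))) (.mul (.mul (.v 24) (.mul (.sub (.v 51) (.v 50)) (.sub (.mul (.q 1 2) (.add (.v 50) (.v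 51))) (.v 307)))) (.v 343))) (.mul (.mul (.v 24) (.mul (.sub (.v 51) (.v 50)) (.sub (.mul (.q 1 2) (.add (.v 50) (.v 51))) (.v 307)))) (.v 343))) (.mul (.mul (.v 24) (.mul (.sub (.v 51) (.v 50)) (.add (.mul (.q 1 3) (.add (.add (.mul (.sub (.v 50) (.v 51)) (.sub (.v 50) (.v 51))) (.mul (.sub (.v 50) (.v 51)) (.sub (.v 51) (.v 51)))) (.mul (.sub (.v 51) (.v 51)) (.sub (.v 51) (.v 51))))) (.mul (.sub (.v 51) (.v 307)) (.sub (.mul (.q 1 2) (.add (.v 50) (.v 51))) (.v 51)))))) (.v 342))) (.mul (.mul (.v 24) (.mul (.sub (.v 51) (.v 50)) (.add (.mul (.q 1 3) (.add (.add (.mul (.sub (.v 50) (.v 51)) (.sub (.v 50) (.v 51))) (.mul (.sub (.v 50) (.v 51)) (.sub (.v 51) (.v 51)))) (.mul (.sub (.v 51) (.v 51)) (.sub (.v 51) (.v 51))))) (.mul (.sub (.v 51) (.v 307)) (.sub (.mul (.q 1 2) (.add (.v 50) (.v 51))) (.v 51)))))) (.v 342))) (.mul (.mul (.v 24) (.mul (.sub (.v 49) (.v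 48)) (.sub (.mul (.q 1 2) (.add (.v 48) (.v 49))) (.v 307)))) (.v 355))) (.mul (.mul (.v 24) (.mul (.sub (.v 49) (.v 48)) (.sub (.mul (.q 1 2) (.add (.v 48) (.v 49))) (.v 307)))) (.v 355))) (.mul (.mul (.v 24) (.mul (.sub (.v 48) (.v 47)) (.sub (.mul (.q 1 2) (.add (.v 47) (.v 48))) (.v 307)))) (.v 356))) (.mul (.mul (.v 24) (.mul (.sub (.v 48) (.v 47)) (.sub (.mul (.q 1 2) (.add (.v 47) (.v 48))) (.v 307)))) (.v 356)),
  .inv (.v 423),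
  .mul (.v 426) (.v 429),
  .sub (.v 427) (.mul (.v 430) (.v 424)),
  .sub (.v 428) (.mul (.v 430) (.v 425)),
  .inv (.sub (.q 0 1) (.v 431)),
  .mul (.v 433) (.v 432),
  .sub (.q 0 1) (.mul (.v 429) (.add (.v 425) (.mul (.v 424) (.v 434)))),
  .add (.sub (.v 36) (.v 35)) (.sub (.v 36) (.v 35)),
  .sub (.sub (.sub (.sub (.sub (.sub (.sub (.sub (.sub (.sub (.sub (.sub (.sub (.sub (.sub (.sub (.sub (.sub (.sub (.sub (.sub (.sub (.sub (.sub (.sub (.sub (.sub (.sub (.sub (.sub (.sub (.sub (.sub (.sub (.sub (.add (.add (.add (.add (.add (.add (.add (.add (.add (.add (.add (.add (.add (.add (.add (.add (.add (.add (.add (.add (.add (.add (.add (.add (.add (.add (.add (.add (.add (.add (.add (.add (.add (.add (.add (.add (.add (.add (.add (.mul (.q 1 1) (.sub (.v 87) (.v 105))) (.mul (.sub (.v 35) (.v 34)) (.mul (.sub (.v 35) (.v 34)) (.v 176)))) (.mul (.mul (.sub (.v 35)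 (.v 34)) (.sub (.mul (.q 1 2) (.add (.v 34) (.v 35))) (.v 35))) (.v 176))) (.mul (.sub (.v 36) (.v 34)) (.mul (.v 324) (.sub (.mul (.q 1 2) (.add (.v 34) (.v 36))) (.v 34))))) (.mul (.sub (.v 36) (.v 35)) (.add (.mul (.v 259) (.v 261)) (.mul (.v 326) (.sub (.mul (.q 1 2) (.add (.v 35) (.v 36))) (.v 35)))))) (.mul (.q 1 2) (.add (.v 263) (.v 264)))) (.mul (.q 1 2) (.add (.v 239) (.v 240)))) (.mul (.q 1 2) (.add (.v 263) (.v 264)))) (.mul (.q 1 2) (.v 283))) (.mul (.q 1 2) (.v 288))) (.mul (.q 1 2) (.v 290))) (.mul (.q 1 2) (.add (.v 260) (.v 259)))) (.mul (.q 1 2) (.add (.v 268) (.v 269)))) (.mul (.q 1 2) (.v 273))) (.mul (.q 1 2) (.v 275))) (.mul (.q 1 2) (.v 279))) (.mul (.q 1 2) (.v 221))) (.mul (.q 1 2) (.add (.v 227) (.v 228)))) (.mul (.q 1 2) (.v 234))) (.mul (.q 1 2) (.v 247))) (.mul (.q 1 2) (.add (.v 252) (.v 253)))) (.mul (.q 1 2) (.v 270))) (.mul (.q 1 2)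 (.v 277))) (.mul (.q 1 2) (.v 281))) (.mul (.q 1 2) (.v 286))) (.mul (.q 1 2) (.add (.v 256) (.v 257)))) (.mul (.q 1 2) (.add (.v 205) (.v 206)))) (.mul (.q 1 2) (.v 216))) (.mul (.q 1 2) (.add (.v 231) (.v 232)))) (.mul (.q 1 2) (.v 236))) (.mul (.q 1 2) (.add (.v 250) (.v 249)))) (.mul (.q 1 2) (.v 244))) (.mul (.q 1 2) (.add (.v 200) (.v 201)))) (.mul (.q 1 2) (.v 213))) (.mul (.q 1 2) (.v 219))) (.mul (.q 1 2) (.v 224))) (.mul (.q 1 2) (.v 209))) (.mul (.q 1 2) (.add (.v 196) (.v 197)))) (.mul (.q 1 2) (.v 192))) (.mul (.sub (.v 36) (.v 35)) (.v 434))) (.mul (.q 1 2) (.v 192))) (.mul (.q 1 2) (.add (.v 197) (.v 196)))) (.mul (.q 1 2) (.add (.v 201) (.v 200)))) (.mul (.q 1 2) (.add (.v 206) (.v 205)))) (.mul (.sub (.v 44) (.v 36)) (.mul (.v 324) (.sub (.mul (.q 1 2) (.add (.v 36) (.v 44))) (.v 34))))) (.mul (.q 1 2) (.v 209))) (.mul (.q 1 2) (.v 213))) (.mul (.q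 1 2) (.v 224))) (.mul (.q 1 2) (.add (.v 228) (.v 227)))) (.mul (.q 1 2) (.v 216))) (.mul (.q 1 2) (.v 219))) (.mul (.q 1 2) (.add (.v 232) (.v 231)))) (.mul (.q 1 2) (.v 236))) (.mul (.q 1 2) (.v 244))) (.mul (.q 1 2) (.v 247))) (.mul (.q 1 2) (.v 221))) (.mul (.q 1 2) (.v 234))) (.mul (.q 1 2) (.add (.v 250) (.v 249)))) (.mul (.q 1 2) (.add (.v 253) (.v 252)))) (.mul (.q 1 2) (.add (.v 257) (.v 256)))) (.mul (.q 1 2) (.add (.v 240) (.v 239)))) (.mul (.q 1 2) (.v 279))) (.mul (.q 1 2) (.v 281))) (.mul (.q 1 2) (.v 286))) (.mul (.q 1 2) (.v 270))) (.mul (.q 1 2) (.v 277))) (.mul (.q 1 2) (.v 288))) (.mul (.sub (.v 37) (.v 36)) (.add (.mul (.v 260) (.v 261)) (.mul (.v 326) (.sub (.mul (.q 1 2) (.add (.v 36) (.v 37))) (.v 37)))))) (.mul (.q 1 2) (.v 273))) (.mul (.q 1 2) (.v 275))) (.mul (.q 1 2) (.v 283))) (.mul (.q 1 2) (.v 290))) (.mul (.v 24) (.sub (.v 131) (.v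 151)))) (.mul (.sub (.v 43) (.v 39)) (.v 435))) (.mul (.sub (.v 39) (.v 36)) (.v 434))]

def Tad26 : List Ex := [
  .inv (.v 436),
  .sub (.q 0 1) (.mul (.v 438) (.v 437)),
  .sub (.v 52) (.v 51),
  .q 1 2,
  .sub (.q 0 1) (.mul (.v 24) (.sub (.v 121) (.v 123))),
  .sub (.q 1 2) (.q 1 2),
  .sub (.q 0 1) (.sub (.v 78) (.v 77)),
  .sub (.mul (.v 23) (.sub (.v 167) (.v 171))) (.mul (.v 24) (.sub (.v 121) (.v 123))),
  .mul (.sub (.v 52) (.v 51)) (.sub (.mul (.q 1 2) (.add (.v 51) (.v 52))) (.v 314)),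
  .sub (.sub (.sub (.q 0 1) (.mul (.q 1 6) (.add (.add (.sub (.v 76) (.v 312)) (.sub (.v 76) (.v 312))) (.sub (.v 77) (.v 312))))) (.mul (.q 1 6) (.add (.sub (.v 53) (.v 313)) (.add (.sub (.v 54) (.v 313)) (.sub (.v 54) (.v 313)))))) (.mul (.q 1 6) (.add (.sub (.v 53) (.v 313)) (.add (.sub (.v 54) (.v 313)) (.sub (.v 54) (.v 313))))),
  .sub (.q 0 1) (.mul (.sub (.v 78) (.v 77)) (.sub (.mul (.q 1 2) (.add (.v 77) (.v 78))) (.v 312))),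
  .add (.add (.mul (.v 23) (.add (.sub (.v 170) (.v 166)) (.sub (.mul (.sub (.v 76) (.v 312)) (.v 167)) (.mul (.sub (.v 78) (.v 312)) (.v 171))))) (.mul (.v 24) (.add (.sub (.v 122) (.v 120)) (.sub (.mul (.sub (.v 53) (.v 313)) (.v 121)) (.mul (.sub (.v 54) (.v 313)) (.v 123)))))) (.mul (.v 24) (.add (.sub (.v 122) (.v 120)) (.sub (.mul (.sub (.v 53) (.v 313)) (.v 121)) (.mul (.sub (.v 54) (.v 313)) (.v 123))))),
  .sub (.v 52) (.v 51),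
  .sub (.q 0 1) (.sub (.v 53) (.v 52)),
  .q 0 1,
  .add (.sub (.v 80) (.v 79)) (.sub (.v 80) (.v 79))]

def Tad27 : List Ex := [
  .sub (.sub (.v 80) (.v 79)) (.sub (.v 79) (.v 78)),
  .sub (.q 0 1) (.sub (.v 53) (.v 52)),
  .mul (.v 23) (.sub (.v 171) (.v 173)),
  .mul (.sub (.v 52) (.v 51)) (.sub (.mul (.q 1 2) (.add (.v 51) (.v 52))) (.v 317)),
  .sub (.mul (.sub (.v 80) (.v 79)) (.sub (.mul (.q 1 2) (.add (.v 79) (.v 80))) (.v 315))) (.mul (.sub (.v 80) (.v 79)) (.sub (.mul (.q 1 2) (.add (.v 79) (.v 80))) (.sub (.add .pi .pi) (.v 315)))),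
  .sub (.sub (.q 0 1) (.mul (.sub (.v 80) (.v 79)) (.sub (.mul (.q 1 2) (.add (.v 79) (.v 80))) (.sub (.add .pi .pi) (.v 315))))) (.mul (.sub (.v 79) (.v 78)) (.sub (.mul (.q 1 2) (.add (.v 78) (.v 79))) (.v 315))),
  .add (.mul (.sub (.v 53) (.v 52)) (.sub (.mul (.q 1 2) (.add (.v 52) (.v 53))) (.v 316))) (.mul (.sub (.v 53) (.v 52)) (.sub (.mul (.q 1 2) (.add (.v 52) (.v 53))) (.v 316))),
  .mul (.v 23) (.add (.sub (.v 172) (.v 170)) (.sub (.mul (.sub (.v 78) (.v 315)) (.v 171)) (.mul (.sub (.v 79) (.v 315)) (.v 173)))),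
  .add (.sub (.v 80) (.v 79)) (.sub (.v 79) (.v 78)),
  .sub (.v 78) (.v 77),
  .sub (.v 53) (.v 52),
  .sub (.q 0 1) (.mul (.v 24) (.sub (.v 119) (.v 121))),
  .inv (.v 440),
  .mul (.v 446) (.v 466),
  .sub (.v 447) (.mul (.v 467) (.v 441)),
  .sub (.v 449) (.mul (.v 467) (.v 442))]

def Tad28 : List Ex := [
  .inv (.sub (.q 0 1) (.v 468)),
  .mul (.v 443) (.v 470),
  .add (.v 444) (.mul (.v 471) (.v 448)),
  .add (.v 445) (.mul (.v 471) (.v 469)),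
  .inv (.sub (.q 0 1) (.v 472)),
  .mul (.v 463) (.v 474),
  .add (.v 465) (.mul (.v 475) (.v 473)),
  .inv (.v 450),
  .mul (.v 457) (.v 477),
  .sub (.v 460) (.mul (.v 478) (.v 451)),
  .sub (.v 461) (.mul (.v 478) (.v 452)),
  .inv (.v 453),
  .mul (.v 458) (.v 481),
  .sub (.v 479) (.mul (.v 482) (.v 455)),
  .sub (.v 459) (.mul (.v 482) (.v 454)),
  .sub (.v 480) (.mul (.v 482) (.v 456))]

def Tad29 : List Ex := [
  .inv (.v 464),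
  .mul (.v 483) (.v 486),
  .sub (.v 484) (.mul (.v 487) (.v 462)),
  .sub (.v 485) (.mul (.v 487) (.v 476)),
  .inv (.sub (.q 0 1) (.v 488)),
  .mul (.v 490) (.v 489),
  .sub (.q 0 1) (.mul (.v 486) (.add (.v 476) (.mul (.v 462) (.v 491)))),
  .sub (.q 0 1) (.mul (.v 481) (.add (.add (.v 456) (.mul (.v 454) (.v 491))) (.mul (.v 455) (.v 492)))),
  .sub (.q 0 1) (.mul (.v 477) (.add (.v 452) (.mul (.v 451) (.v 492)))),
  .mul (.v 474) (.v 473),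
  .mul (.v 470) (.add (.v 469) (.mul (.v 448) (.v 495))),
  .sub (.q 0 1) (.mul (.v 466) (.add (.v 442) (.mul (.v 441) (.v 496)))),
  .mul (.v 178) (.v 178),
  .sub (.q 0 1) (.mul (.v 177) (.mul (.v 178) (.v 178))),
  .mul (.v 179) (.v 179),
  .sub (.q 0 1) (.mul (.v 177) (.mul (.v 179) (.v 179)))]

def Tad30 : List Ex := [
  .mul (.v 180) (.v 180),
  .mul (.v 177) (.mul (.v 180) (.v 180)),
  .mul (.v 182) (.v 182),
  .sub (.q 0 1) (.mul (.v 181) (.mul (.v 182) (.v 182))),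
  .mul (.v 183) (.v 183),
  .sub (.q 0 1) (.mul (.v 181) (.mul (.v 183) (.v 183))),
  .mul (.v 184) (.v 184),
  .mul (.v 181) (.mul (.v 184) (.v 184)),
  .mul (.v 185) (.v 185),
  .mul (.v 418) (.mul (.v 185) (.v 185)),
  .mul (.v 186) (.v 186),
  .mul (.v 418) (.mul (.v 186) (.v 186)),
  .mul (.v 187) (.v 187),
  .sub (.q 0 1) (.mul (.v 418) (.mul (.v 187) (.v 187))),
  .mul (.v 191) (.v 191),
  .sub (.q 0 1) (.mul (.v 188) (.mul (.v 191) (.v 191)))]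

def Tad31 : List Ex := [
  .mul (.v 193) (.v 193),
  .sub (.q 0 1) (.mul (.v 192) (.mul (.v 193) (.v 193))),
  .mul (.v 194) (.v 194),
  .sub (.q 0 1) (.mul (.v 192) (.mul (.v 194) (.v 194))),
  .mul (.v 195) (.v 195),
  .mul (.v 192) (.mul (.v 195) (.v 195)),
  .mul (.sub (.v 196) (.v 197)) (.mul (.v 193) (.v 193)),
  .mul (.v 198) (.v 198),
  .mul (.sub (.v 196) (.v 197)) (.mul (.v 198) (.v 198)),
  .mul (.v 199) (.v 199),
  .mul (.sub (.v 197) (.v 196)) (.mul (.v 199) (.v 199)),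
  .mul (.v 202) (.v 202),
  .mul (.sub (.v 200) (.v 201)) (.mul (.v 202) (.v 202)),
  .mul (.v 203) (.v 203),
  .mul (.sub (.v 200) (.v 201)) (.mul (.v 203) (.v 203)),
  .mul (.v 204) (.v 204)]

def Tad32 : List Ex := [
  .mul (.sub (.v 201) (.v 200)) (.mul (.v 204) (.v 204)),
  .mul (.v 207) (.v 207),
  .mul (.sub (.v 205) (.v 206)) (.mul (.v 207) (.v 207)),
  .mul (.sub (.v 205) (.v 206)) (.mul (.v 203) (.v 203)),
  .mul (.v 208) (.v 208),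
  .mul (.sub (.v 206) (.v 205)) (.mul (.v 208) (.v 208)),
  .mul (.v 210) (.v 210),
  .sub (.q 0 1) (.mul (.v 209) (.mul (.v 210) (.v 210))),
  .mul (.v 211) (.v 211),
  .sub (.q 0 1) (.mul (.v 209) (.mul (.v 211) (.v 211))),
  .mul (.v 212) (.v 212),
  .mul (.v 209) (.mul (.v 212) (.v 212)),
  .mul (.v 213) (.mul (.v 210) (.v 210)),
  .mul (.v 214) (.v 214),
  .mul (.v 213) (.mul (.v 214) (.v 214)),
  .mul (.v 215) (.v 215)]

def Tad33 : List Ex := [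
  .sub (.q 0 1) (.mul (.v 213) (.mul (.v 215) (.v 215))),
  .mul (.v 217) (.v 217),
  .mul (.v 216) (.mul (.v 217) (.v 217)),
  .mul (.v 216) (.mul (.v 214) (.v 214)),
  .mul (.v 218) (.v 218),
  .sub (.q 0 1) (.mul (.v 216) (.mul (.v 218) (.v 218))),
  .mul (.v 219) (.mul (.v 217) (.v 217)),
  .sub (.q 0 1) (.mul (.v 219) (.mul (.v 214) (.v 214))),
  .mul (.v 220) (.v 220),
  .mul (.v 219) (.mul (.v 220) (.v 220)),
  .mul (.v 222) (.v 222),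
  .mul (.v 221) (.mul (.v 222) (.v 222)),
  .mul (.v 221) (.mul (.v 214) (.v 214)),
  .mul (.v 223) (.v 223),
  .sub (.q 0 1) (.mul (.v 221) (.mul (.v 223) (.v 223))),
  .mul (.v 224) (.mul (.v 210) (.v 210))]

def Tad34 : List Ex := [
  .mul (.v 225) (.v 225),
  .mul (.v 224) (.mul (.v 225) (.v 225)),
  .mul (.v 226) (.v 226),
  .sub (.q 0 1) (.mul (.v 224) (.mul (.v 226) (.v 226))),
  .mul (.v 229) (.v 229),
  .mul (.sub (.v 227) (.v 228)) (.mul (.v 229) (.v 229)),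
  .mul (.sub (.v 227) (.v 228)) (.mul (.v 225) (.v 225)),
  .mul (.v 230) (.v 230),
  .mul (.sub (.v 228) (.v 227)) (.mul (.v 230) (.v 230)),
  .mul (.sub (.v 231) (.v 232)) (.mul (.v 217) (.v 217)),
  .mul (.sub (.v 231) (.v 232)) (.mul (.v 225) (.v 225)),
  .mul (.v 233) (.v 233),
  .mul (.sub (.v 232) (.v 231)) (.mul (.v 233) (.v 233)),
  .mul (.v 234) (.mul (.v 222) (.v 222)),
  .mul (.v 234) (.mul (.v 225) (.v 225)),
  .mul (.v 235) (.v 235)]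

def Tad35 : List Ex := [
  .sub (.q 0 1) (.mul (.v 234) (.mul (.v 235) (.v 235))),
  .mul (.v 237) (.v 237),
  .sub (.q 0 1) (.mul (.v 236) (.mul (.v 237) (.v 237))),
  .mul (.v 236) (.mul (.v 225) (.v 225)),
  .mul (.v 238) (.v 238),
  .mul (.v 236) (.mul (.v 238) (.v 238)),
  .mul (.v 241) (.v 241),
  .mul (.sub (.v 239) (.v 240)) (.mul (.v 241) (.v 241)),
  .mul (.v 242) (.v 242),
  .mul (.sub (.v 240) (.v 239)) (.mul (.v 242) (.v 242)),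
  .mul (.v 243) (.v 243),
  .mul (.sub (.v 240) (.v 239)) (.mul (.v 243) (.v 243)),
  .mul (.v 245) (.v 245),
  .sub (.q 0 1) (.mul (.v 244) (.mul (.v 245) (.v 245))),
  .mul (.v 244) (.mul (.v 214) (.v 214)),
  .mul (.v 246) (.v 246)]

def Tad36 : List Ex := [
  .mul (.v 244) (.mul (.v 246) (.v 246)),
  .mul (.v 248) (.v 248),
  .mul (.v 247) (.mul (.v 248) (.v 248)),
  .sub (.q 0 1) (.mul (.v 247) (.mul (.v 225) (.v 225))),
  .sub (.q 0 1) (.mul (.v 247) (.mul (.v 235) (.v 235))),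
  .mul (.sub (.v 249) (.v 250)) (.mul (.v 222) (.v 222)),
  .mul (.sub (.v 250) (.v 249)) (.mul (.v 214) (.v 214)),
  .mul (.v 251) (.v 251),
  .mul (.sub (.v 249) (.v 250)) (.mul (.v 251) (.v 251)),
  .mul (.v 254) (.v 254),
  .mul (.sub (.v 252) (.v 253)) (.mul (.v 254) (.v 254)),
  .mul (.sub (.v 253) (.v 252)) (.mul (.v 225) (.v 225)),
  .mul (.v 255) (.v 255),
  .mul (.sub (.v 253) (.v 252)) (.mul (.v 255) (.v 255)),
  .mul (.sub (.v 256) (.v 257)) (.mul (.v 222) (.v 222)),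
  .mul (.sub (.v 257) (.v 256)) (.mul (.v 225) (.v 225))]

def Tad37 : List Ex := [
  .mul (.v 258) (.v 258),
  .mul (.sub (.v 257) (.v 256)) (.mul (.v 258) (.v 258)),
  .mul (.sub (.v 259) (.v 260)) (.mul (.v 194) (.v 194)),
  .mul (.v 262) (.v 262),
  .mul (.sub (.v 259) (.v 260)) (.mul (.v 262) (.v 262)),
  .mul (.v 265) (.v 265),
  .mul (.sub (.v 264) (.v 263)) (.mul (.v 265) (.v 265)),
  .mul (.v 266) (.v 266),
  .mul (.sub (.v 263) (.v 264)) (.mul (.v 266) (.v 266)),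
  .mul (.v 267) (.v 267),
  .mul (.sub (.v 264) (.v 263)) (.mul (.v 267) (.v 267)),
  .mul (.sub (.v 268) (.v 269)) (.mul (.v 194) (.v 194)),
  .mul (.sub (.v 269) (.v 268)) (.mul (.v 262) (.v 262)),
  .mul (.v 271) (.v 271),
  .sub (.q 0 1) (.mul (.v 270) (.mul (.v 271) (.v 271))),
  .mul (.v 270) (.mul (.v 194) (.v 194))]

def Tad38 : List Ex := [
  .mul (.v 272) (.v 272),
  .mul (.v 270) (.mul (.v 272) (.v 272)),
  .mul (.v 274) (.v 274),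
  .mul (.v 273) (.mul (.v 274) (.v 274)),
  .sub (.q 0 1) (.mul (.v 273) (.mul (.v 198) (.v 198))),
  .mul (.v 273) (.mul (.v 262) (.v 262)),
  .sub (.q 0 1) (.mul (.v 275) (.mul (.v 274) (.v 274))),
  .sub (.q 0 1) (.mul (.v 275) (.mul (.v 194) (.v 194))),
  .mul (.v 276) (.v 276),
  .mul (.v 275) (.mul (.v 276) (.v 276)),
  .mul (.v 278) (.v 278),
  .mul (.v 277) (.mul (.v 278) (.v 278)),
  .sub (.q 0 1) (.mul (.v 277) (.mul (.v 198) (.v 198))),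
  .mul (.v 277) (.mul (.v 272) (.v 272)),
  .mul (.v 280) (.v 280),
  .mul (.v 279) (.mul (.v 280) (.v 280))]

def Tad39 : List Ex := [
  .sub (.q 0 1) (.mul (.v 279) (.mul (.v 211) (.v 211))),
  .sub (.q 0 1) (.mul (.v 279) (.mul (.v 276) (.v 276))),
  .mul (.v 282) (.v 282),
  .mul (.v 281) (.mul (.v 282) (.v 282)),
  .sub (.q 0 1) (.mul (.v 281) (.mul (.v 211) (.v 211))),
  .sub (.q 0 1) (.mul (.v 281) (.mul (.v 272) (.v 272))),
  .mul (.v 283) (.mul (.v 274) (.v 274)),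
  .mul (.v 284) (.v 284),
  .mul (.v 283) (.mul (.v 284) (.v 284)),
  .mul (.v 285) (.v 285),
  .sub (.q 0 1) (.mul (.v 283) (.mul (.v 285) (.v 285))),
  .mul (.v 287) (.v 287),
  .mul (.v 286) (.mul (.v 287) (.v 287)),
  .sub (.q 0 1) (.mul (.v 286) (.mul (.v 214) (.v 214))),
  .mul (.v 286) (.mul (.v 272) (.v 272)),
  .sub (.q 0 1) (.mul (.v 288) (.mul (.v 271) (.v 271)))]

def Tad40 : List Ex := [
  .sub (.q 0 1) (.mul (.v 288) (.mul (.v 284) (.v 284))),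
  .mul (.v 289) (.v 289),
  .mul (.v 288) (.mul (.v 289) (.v 289)),
  .sub (.q 0 1) (.mul (.v 290) (.mul (.v 274) (.v 274))),
  .mul (.v 290) (.mul (.v 242) (.v 242)),
  .mul (.v 290) (.mul (.v 267) (.v 267)),
  .mul (.v 291) (.v 291),
  .sub (.q 0 1) (.mul (.v 496) (.mul (.v 291) (.v 291))),
  .mul (.v 292) (.v 292),
  .sub (.q 0 1) (.mul (.v 496) (.mul (.v 292) (.v 292))),
  .mul (.v 293) (.v 293),
  .mul (.v 496) (.mul (.v 293) (.v 293)),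
  .q 0 1,
  .sub (.q 0 1) (.v 501),
  .q 0 1,
  .sub (.q 0 1) (.v 503)]

def Tad41 : List Ex := [
  .sub (.q 0 1) (.v 513),
  .sub (.q 0 1) (.v 507),
  .sub (.sub (.q 0 1) (.v 515)) (.mul (.v 24) (.add (.mul (.v 0) (.v 422)) (.mul (.v 0) (.v 322)))),
  .sub (.q 0 1) (.v 505),
  .sub (.q 0 1) (.v 511),
  .sub (.sub (.q 0 1) (.v 509)) (.mul (.v 24) (.mul (.v 0) (.v 322))),
  .sub (.sub (.q 0 1) (.v 517)) (.mul (.v 24) (.v 342)),
  .sub (.sub (.q 0 1) (.v 517)) (.mul (.v 24) (.add (.v 174) (.v 499))),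
  .sub (.sub (.q 0 1) (.v 517)) (.mul (.v 24) (.v 499)),
  .sub (.q 0 1) (.mul (.v 24) (.v 499)),
  .sub (.sub (.sub (.sub (.q 0 1) (.v 519)) (.v 524)) (.v 530)) (.v 536),
  .sub (.sub (.sub (.sub (.sub (.sub (.sub (.q 0 1) (.v 324)) (.v 530)) (.v 536)) (.v 541)) (.v 546)) (.v 565)) (.v 571),
  .sub (.sub (.sub (.sub (.sub (.sub (.sub (.sub (.sub (.q 0 1) (.v 324)) (.v 536)) (.v 552)) (.v 556)) (.v 571)) (.v 575)) (.v 584)) (.v 595)) (.v 600),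
  .sub (.sub (.sub (.sub (.sub (.sub (.sub (.sub (.sub (.sub (.q 0 1) (.v 324)) (.v 561)) (.v 571)) (.v 579)) (.v 584)) (.v 595)) (.v 600)) (.v 603)) (.v 608)) (.v 612),
  .sub (.sub (.sub (.sub (.sub (.sub (.sub (.sub (.sub (.sub (.q 0 1) (.v 324)) (.v 561)) (.v 571)) (.v 579)) (.v 589)) (.v 595)) (.v 600)) (.v 603)) (.v 608)) (.v 612),
  .sub (.sub (.sub (.sub (.sub (.sub (.sub (.q 0 1) (.v 324)) (.v 589)) (.v 600)) (.v 608)) (.v 645)) (.v 649)) (.v 658)]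

def Tad42 : List Ex := [
  .sub (.sub (.sub (.sub (.sub (.sub (.sub (.q 0 1) (.v 324)) (.v 589)) (.v 628)) (.v 641)) (.v 645)) (.v 649)) (.v 661),
  .sub (.sub (.sub (.sub (.sub (.sub (.sub (.sub (.sub (.q 0 1) (.v 176)) (.v 324)) (.v 324)) (.v 589)) (.v 628)) (.v 641)) (.v 645)) (.v 649)) (.v 661),
  .sub (.sub (.sub (.sub (.sub (.sub (.sub (.sub (.sub (.sub (.sub (.sub (.sub (.q 0 1) (.v 324)) (.v 324)) (.v 589)) (.v 326)) (.v 326)) (.v 620)) (.v 628)) (.v 633)) (.v 636)) (.v 645)) (.v 652)) (.v 661)) (.v 665),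
  .sub (.sub (.sub (.sub (.sub (.sub (.sub (.sub (.sub (.sub (.sub (.q 0 1) (.v 521)) (.v 526)) (.v 532)) (.v 537)) (.v 616)) (.v 622)) (.v 625)) (.v 629)) (.v 634)) (.v 637)) (.v 642),
  .sub (.sub (.sub (.sub (.sub (.sub (.sub (.sub (.sub (.sub (.sub (.sub (.sub (.sub (.sub (.sub (.sub (.sub (.q 0 1) (.v 526)) (.v 532)) (.v 537)) (.v 543)) (.v 548)) (.v 553)) (.v 557)) (.v 562)) (.v 596)) (.v 604)) (.v 622)) (.v 634)) (.v 642)) (.v 646)) (.v 650)) (.v 654)) (.v 659)) (.v 662),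
  .sub (.sub (.sub (.sub (.sub (.sub (.sub (.sub (.sub (.sub (.sub (.sub (.sub (.sub (.sub (.sub (.sub (.q 0 1) (.v 526)) (.v 532)) (.v 537)) (.v 543)) (.v 548)) (.v 553)) (.v 557)) (.v 562)) (.v 591)) (.v 596)) (.v 604)) (.v 634)) (.v 642)) (.v 646)) (.v 650)) (.v 659)) (.v 666),
  .sub (.sub (.sub (.sub (.sub (.sub (.sub (.sub (.sub (.sub (.sub (.sub (.sub (.sub (.sub (.sub (.sub (.q 0 1) (.v 532)) (.v 537)) (.v 548)) (.v 553)) (.v 557)) (.v 562)) (.v 567)) (.v 572)) (.v 576)) (.v 580)) (.v 585)) (.v 596)) (.v 601)) (.v 604)) (.v 609)) (.v 613)) (.v 659),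
  .sub (.sub (.sub (.sub (.sub (.q 0 1) (.v 593)) (.v 624)) (.v 656)) (.v 664)) (.v 667),
  .sub (.sub (.sub (.sub (.sub (.sub (.sub (.sub (.q 0 1) (.v 593)) (.v 618)) (.v 626)) (.v 635)) (.v 639)) (.v 647)) (.v 656)) (.v 664),
  .sub (.sub (.sub (.sub (.sub (.sub (.sub (.sub (.sub (.sub (.sub (.sub (.sub (.q 0 1) (.v 564)) (.v 574)) (.v 582)) (.v 593)) (.v 602)) (.v 611)) (.v 631)) (.v 639)) (.v 643)) (.v 647)) (.v 651)) (.v 660)) (.v 664),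
  .sub (.sub (.sub (.sub (.sub (.sub (.sub (.q 0 1) (.v 564)) (.v 574)) (.v 582)) (.v 593)) (.v 602)) (.v 611)) (.v 615),
  .sub (.sub (.sub (.sub (.sub (.sub (.sub (.sub (.sub (.q 0 1) (.v 539)) (.v 555)) (.v 564)) (.v 574)) (.v 578)) (.v 582)) (.v 587)) (.v 602)) (.v 606),
  .sub (.sub (.sub (.sub (.sub (.sub (.sub (.sub (.sub (.q 0 1) (.v 539)) (.v 555)) (.v 564)) (.v 574)) (.v 578)) (.v 582)) (.v 587)) (.v 598)) (.v 602),
  .sub (.sub (.sub (.sub (.sub (.sub (.sub (.sub (.sub (.q 0 1) (.v 534)) (.v 539)) (.v 550)) (.v 555)) (.v 559)) (.v 564)) (.v 569)) (.v 574)) (.v 578),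
  .sub (.sub (.sub (.sub (.sub (.sub (.sub (.q 0 1) (.v 534)) (.v 539)) (.v 545)) (.v 550)) (.v 555)) (.v 569)) (.v 574),
  .sub (.sub (.sub (.sub (.sub (.q 0 1) (.v 528)) (.v 534)) (.v 539)) (.v 545)) (.v 550)]

def Tad43 : List Ex := [
  .sub (.sub (.sub (.sub (.q 0 1) (.v 523)) (.v 528)) (.v 534)) (.v 539),
  .sub (.q 0 1) (.v 671),
  .q 0 1,
  .sub (.q 0 1) (.v 673),
  .q 0 1,
  .sub (.q 0 1) (.v 669),
  .q 0 1]

def Tac0 : List Ex := [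
  .v 327,
  .v 331,
  .v 339,
  .v 344,
  .v 352,
  .v 359,
  .sub (.q 0 1) (.v 363),
  .sub (.q 0 1) (.v 373),
  .sub (.q 0 1) (.v 406),
  .sub (.q 0 1) (.v 415),
  .v 423,
  .sub (.q 0 1) (.v 431),
  .v 436,
  .v 440,
  .sub (.q 0 1) (.v 468),
  .sub (.q 0 1) (.v 472)]

def Tac1 : List Ex := [
  .v 450,
  .v 453,
  .v 464,
  .sub (.q 0 1) (.v 488),
  .v 342,
  .sub (.add (.v 343) (.mul (.sub (.v 50) (.v 51)) (.v 342))) (.mul (.sub (.v 50) (.v 49)) (.v 174)),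
  .v 174,
  .v 330,
  .add (.mul (.v 24) (.v 125)) (.v 674),
  .add (.mul (.v 24) (.v 123)) (.v 674),
  .mul (.v 24) (.v 122),
  .sub (.v 356) (.v 355),
  .sub (.v 355) (.v 175),
  .v 175,
  .sub (.q 0 1) (.add (.mul (.v 23) (.v 163)) (.v 675)),
  .sub (.q 0 1) (.add (.mul (.v 23) (.v 165)) (.v 675))]

def Tac2 : List Ex := [
  .sub (.q 0 1) (.add (.mul (.v 23) (.v 165)) (.v 676)),
  .sub (.q 0 1) (.add (.mul (.v 23) (.v 167)) (.v 676)),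
  .sub (.mul (.v 23) (.v 166)) (.v 330),
  .sub (.q 0 1) (.add (.mul (.v 24) (.v 125)) (.v 677)),
  .sub (.q 0 1) (.add (.mul (.v 24) (.v 127)) (.v 677)),
  .sub (.mul (.v 24) (.v 126)) (.mul (.v 177) (.v 180)),
  .v 420,
  .sub (.q 0 1) (.add (.mul (.v 23) (.v 159)) (.v 678)),
  .sub (.q 0 1) (.add (.mul (.v 23) (.v 161)) (.v 678)),
  .sub (.add (.v 421) (.mul (.v 181) (.v 183))) (.mul (.v 418) (.v 186)),
  .sub (.q 0 1) (.add (.mul (.v 23) (.v 161)) (.v 679)),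
  .sub (.q 0 1) (.add (.mul (.v 23) (.v 163)) (.v 679)),
  .sub (.mul (.v 23) (.v 162)) (.v 421),
  .sub (.q 0 1) (.add (.mul (.v 24) (.v 129)) (.v 680)),
  .sub (.q 0 1) (.add (.mul (.v 24) (.v 131)) (.v 680)),
  .add (.add (.mul (.v 24) (.v 130)) (.mul (.mul (.v 24) (.v 0)) (.add (.v 419) (.mul (.sub (.v 82) (.v 83)) (.v 422))))) (.mul (.mul (.v 24) (.v 0)) (.mul (.v 188) (.v 190)))]

def Tac3 : List Ex := [
  .add (.mul (.q 1 1) (.v 109)) (.v 681),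
  .add (.mul (.q 1 1) (.v 107)) (.v 681),
  .sub (.add (.v 420) (.mul (.v 418) (.v 185))) (.mul (.v 181) (.v 182)),
  .add (.mul (.q 1 1) (.v 107)) (.v 682),
  .add (.mul (.q 1 1) (.v 105)) (.v 682),
  .sub (.mul (.q 1 1) (.v 104)) (.v 420),
  .v 421,
  .add (.mul (.v 24) (.v 129)) (.v 683),
  .add (.mul (.v 24) (.v 127)) (.v 683),
  .add (.mul (.v 24) (.v 126)) (.mul (.mul (.v 24) (.v 0)) (.v 419)),
  .sub (.v 435) (.v 434),
  .sub (.v 434) (.mul (.sub (.v 35) (.v 34)) (.v 176)),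
  .v 176,
  .v 422,
  .add (.v 419) (.mul (.sub (.v 82) (.v 83)) (.v 422)),
  .add (.mul (.v 24) (.v 117)) (.v 684)]

def Tac4 : List Ex := [
  .add (.mul (.v 24) (.v 115)) (.v 684),
  .sub (.add (.mul (.v 24) (.mul (.sub (.v 50) (.v 49)) (.v 174))) (.mul (.v 24) (.v 175))) (.mul (.v 24) (.add (.v 343) (.mul (.sub (.v 50) (.v 51)) (.v 342)))),
  .add (.mul (.v 24) (.v 115)) (.v 685),
  .add (.mul (.v 24) (.v 113)) (.v 685),
  .sub (.mul (.v 24) (.v 355)) (.mul (.v 24) (.v 175)),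
  .add (.mul (.v 24) (.v 113)) (.v 686),
  .add (.mul (.v 24) (.v 111)) (.v 686),
  .sub (.sub (.mul (.v 24) (.v 356)) (.mul (.v 24) (.v 355))) (.mul (.v 188) (.v 191)),
  .add (.mul (.v 24) (.v 111)) (.v 687),
  .add (.mul (.v 24) (.v 109)) (.v 687),
  .sub (.sub (.mul (.v 24) (.v 108)) (.mul (.v 24) (.v 356))) (.mul (.v 24) (.mul (.v 177) (.v 178))),
  .add (.mul (.q 1 1) (.v 105)) (.v 688),
  .add (.mul (.q 1 1) (.v 103)) (.v 688),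
  .sub (.sub (.add (.add (.add (.mul (.v 188) (.v 189)) (.mul (.v 213) (.v 210))) (.mul (.v 224) (.v 210))) (.mul (.v 227) (.v 229))) (.mul (.v 192) (.v 193))) (.mul (.v 197) (.v 193)),
  .add (.mul (.q 1 1) (.v 103)) (.v 689),
  .add (.mul (.q 1 1) (.v 101)) (.v 689)]

def Tac5 : List Ex := [
  .sub (.sub (.add (.add (.add (.add (.v 435) (.mul (.v 216) (.v 217))) (.mul (.v 219) (.v 217))) (.mul (.v 231) (.v 217))) (.mul (.v 247) (.v 248))) (.mul (.v 201) (.v 202))) (.mul (.v 209) (.v 210)),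
  .add (.mul (.q 1 1) (.v 101)) (.v 690),
  .add (.mul (.q 1 1) (.v 99)) (.v 690),
  .sub (.sub (.add (.add (.add (.add (.mul (.v 221) (.v 222)) (.mul (.v 234) (.v 222))) (.mul (.v 249) (.v 222))) (.mul (.v 252) (.v 254))) (.mul (.v 256) (.v 222))) (.mul (.v 206) (.v 207))) (.mul (.v 232) (.v 217)),
  .add (.mul (.q 1 1) (.v 99)) (.v 691),
  .add (.mul (.q 1 1) (.v 97)) (.v 691),
  .sub (.mul (.v 239) (.v 241)) (.mul (.v 236) (.v 237)),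
  .add (.mul (.q 1 1) (.v 97)) (.v 692),
  .add (.mul (.q 1 1) (.v 95)) (.v 692),
  .sub (.sub (.sub (.sub (.add (.add (.mul (.v 279) (.v 280)) (.mul (.v 281) (.v 282))) (.mul (.v 286) (.v 287))) (.mul (.v 228) (.v 229))) (.mul (.v 244) (.v 245))) (.mul (.v 250) (.v 222))) (.mul (.v 257) (.v 222)),
  .add (.mul (.q 1 1) (.v 95)) (.v 693),
  .add (.mul (.q 1 1) (.v 93)) (.v 693),
  .sub (.sub (.add (.v 434) (.mul (.v 277) (.v 278))) (.v 435)) (.mul (.v 253) (.v 254)),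
  .add (.mul (.q 1 1) (.v 93)) (.v 694),
  .add (.mul (.q 1 1) (.v 91)) (.v 694),
  .add (.mul (.q 1 1) (.v 91)) (.v 695)]

def Tac6 : List Ex := [
  .add (.mul (.q 1 1) (.v 89)) (.v 695),
  .sub (.sub (.sub (.sub (.add (.add (.add (.mul (.sub (.v 35) (.v 34)) (.v 176)) (.mul (.v 260) (.v 261))) (.mul (.v 273) (.v 274))) (.mul (.v 283) (.v 274))) (.v 434)) (.v 439)) (.mul (.v 259) (.v 261))) (.mul (.v 263) (.v 265)),
  .add (.mul (.q 1 1) (.v 89)) (.v 696),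
  .add (.mul (.q 1 1) (.v 87)) (.v 696),
  .sub (.sub (.sub (.sub (.sub (.mul (.v 264) (.v 265)) (.mul (.v 240) (.v 241))) (.mul (.v 270) (.v 271))) (.mul (.v 275) (.v 274))) (.mul (.v 288) (.v 271))) (.mul (.v 290) (.v 274)),
  .v 439,
  .add (.mul (.v 23) (.v 159)) (.v 697),
  .add (.mul (.v 23) (.v 157)) (.v 697),
  .sub (.sub (.sub (.sub (.add (.add (.add (.add (.add (.mul (.v 213) (.v 214)) (.mul (.v 216) (.v 214))) (.mul (.v 221) (.v 214))) (.mul (.v 244) (.v 214))) (.mul (.v 250) (.v 214))) (.mul (.v 283) (.v 284))) (.mul (.v 192) (.v 194))) (.mul (.v 260) (.v 194))) (.mul (.v 269) (.v 194))) (.mul (.v 275) (.v 194)),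
  .add (.mul (.v 23) (.v 157)) (.v 698),
  .add (.mul (.v 23) (.v 155)) (.v 698),
  .sub (.sub (.add (.mul (.v 240) (.v 242)) (.mul (.v 290) (.v 242))) (.mul (.v 264) (.v 266))) (.mul (.v 288) (.v 284)),
  .add (.mul (.v 23) (.v 155)) (.v 699),
  .add (.mul (.v 23) (.v 153)) (.v 699),
  .sub (.sub (.sub (.sub (.sub (.sub (.sub (.add (.add (.add (.add (.add (.add (.mul (.v 224) (.v 225)) (.mul (.v 227) (.v 225))) (.mul (.v 231) (.v 225))) (.mul (.v 234) (.v 225))) (.mul (.v 236) (.v 225))) (.mul (.v 253) (.v 225))) (.mul (.v 257) (.v 225))) (.mul (.v 197) (.v 198))) (.mul (.v 209) (.v 211))) (.mul (.v 239) (.v 242))) (.mul (.v 273) (.v 198))) (.mul (.v 277) (.v 198))) (.mul (.v 279) (.v 211))) (.mul (.v 281) (.v 211)),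
  .add (.mul (.v 23) (.v 153)) (.v 700)]

def Tac7 : List Ex := [
  .add (.mul (.v 23) (.v 151)) (.v 700),
  .sub (.sub (.sub (.sub (.sub (.sub (.sub (.sub (.sub (.sub (.mul (.v 23) (.v 150)) (.mul (.v 201) (.v 203))) (.mul (.v 206) (.v 203))) (.mul (.v 219) (.v 214))) (.mul (.v 228) (.v 225))) (.mul (.v 232) (.v 225))) (.mul (.v 247) (.v 225))) (.mul (.v 249) (.v 214))) (.mul (.v 252) (.v 225))) (.mul (.v 256) (.v 225))) (.mul (.v 286) (.v 214)),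
  .add (.mul (.v 24) (.v 151)) (.v 701),
  .add (.mul (.v 24) (.v 149)) (.v 701),
  .sub (.add (.add (.add (.mul (.v 259) (.v 262)) (.mul (.v 269) (.v 262))) (.mul (.v 273) (.v 262))) (.mul (.v 275) (.v 276))) (.mul (.v 263) (.v 267)),
  .add (.mul (.v 24) (.v 149)) (.v 702),
  .add (.mul (.v 24) (.v 147)) (.v 702),
  .sub (.sub (.sub (.add (.add (.add (.add (.mul (.v 228) (.v 230)) (.mul (.v 253) (.v 255))) (.mul (.v 270) (.v 272))) (.mul (.v 277) (.v 272))) (.mul (.v 286) (.v 272))) (.mul (.v 260) (.v 262))) (.mul (.v 268) (.v 262))) (.mul (.v 283) (.v 285)),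
  .add (.mul (.v 24) (.v 147)) (.v 703),
  .add (.mul (.v 24) (.v 145)) (.v 703),
  .sub (.sub (.mul (.v 257) (.v 258)) (.mul (.v 279) (.v 276))) (.mul (.v 281) (.v 272)),
  .add (.mul (.v 24) (.v 145)) (.v 704),
  .add (.mul (.v 24) (.v 143)) (.v 704),
  .sub (.sub (.sub (.add (.add (.add (.mul (.v 206) (.v 208)) (.mul (.v 232) (.v 233))) (.mul (.v 236) (.v 238))) (.mul (.v 249) (.v 251))) (.mul (.v 239) (.v 243))) (.mul (.v 252) (.v 255))) (.mul (.v 256) (.v 258)),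
  .add (.mul (.v 24) (.v 143)) (.v 705),
  .add (.mul (.v 24) (.v 141)) (.v 705)]

def Tac8 : List Ex := [
  .sub (.mul (.v 244) (.v 246)) (.mul (.v 250) (.v 251)),
  .add (.mul (.v 24) (.v 141)) (.v 706),
  .add (.mul (.v 24) (.v 139)) (.v 706),
  .sub (.sub (.add (.mul (.v 201) (.v 204)) (.mul (.v 219) (.v 220))) (.mul (.v 234) (.v 235))) (.mul (.v 247) (.v 235)),
  .add (.mul (.v 24) (.v 139)) (.v 707),
  .add (.mul (.v 24) (.v 137)) (.v 707),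
  .sub (.sub (.mul (.v 209) (.v 212)) (.mul (.v 221) (.v 223))) (.mul (.v 231) (.v 233)),
  .add (.mul (.v 24) (.v 137)) (.v 708),
  .add (.mul (.v 24) (.v 135)) (.v 708),
  .sub (.sub (.sub (.mul (.v 197) (.v 199)) (.mul (.v 216) (.v 218))) (.mul (.v 224) (.v 226))) (.mul (.v 227) (.v 230)),
  .add (.mul (.v 24) (.v 135)) (.v 709),
  .add (.mul (.v 24) (.v 133)) (.v 709),
  .sub (.mul (.v 192) (.v 195)) (.mul (.v 213) (.v 215)),
  .add (.mul (.v 24) (.v 133)) (.v 710),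
  .add (.mul (.v 24) (.v 131)) (.v 710),
  .sub (.sub (.sub (.mul (.v 24) (.v 130)) (.mul (.v 196) (.v 199))) (.mul (.v 200) (.v 204))) (.mul (.v 205) (.v 208))]

def Tac9 : List Ex := [
  .v 497,
  .sub (.q 0 1) (.add (.mul (.v 23) (.v 167)) (.v 711)),
  .sub (.q 0 1) (.add (.mul (.v 23) (.v 169)) (.v 711)),
  .v 495,
  .sub (.q 0 1) (.add (.mul (.v 23) (.v 169)) (.v 712)),
  .sub (.q 0 1) (.add (.mul (.v 23) (.v 171)) (.v 712)),
  .sub (.mul (.v 23) (.v 170)) (.v 495),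
  .sub (.q 0 1) (.add (.mul (.v 24) (.v 121)) (.v 713)),
  .sub (.q 0 1) (.add (.mul (.v 24) (.v 123)) (.v 713)),
  .sub (.mul (.v 24) (.v 122)) (.mul (.v 496) (.v 293)),
  .v 494,
  .sub (.q 0 1) (.add (.mul (.v 23) (.v 171)) (.v 714)),
  .sub (.q 0 1) (.add (.mul (.v 23) (.v 173)) (.v 714)),
  .v 493,
  .v 492,
  .add (.mul (.q 1 1) (.v 119)) (.v 715)]

def Tac10 : List Ex := [
  .add (.mul (.q 1 1) (.v 117)) (.v 715),
  .sub (.sub (.sub (.mul (.q 1 1) (.v 116)) (.v 497)) (.v 494)) (.mul (.v 496) (.v 291)),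
  .sub (.v 491) (.v 495),
  .add (.mul (.v 24) (.v 121)) (.v 716),
  .add (.mul (.v 24) (.v 119)) (.v 716),
  .sub (.mul (.v 24) (.v 118)) (.v 492),
  .sub (.add (.add (.v 49) (.v 76)) (.add (.v 55) (.v 55))) (.add .pi .pi),
  .sub (.add (.add (.v 51) (.v 75)) (.add (.v 55) (.v 55))) (.add .pi .pi),
  .sub (.add (.add .pi .pi) (.add .pi .pi)) (.add (.add (.add (.v 51) (.v 76)) (.add (.v 55) (.v 55))) (.add (.add (.v 49) (.v 75)) (.add (.v 54) (.v 54)))),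
  .mul (.v 24) (.sub (.v 123) (.v 125)),
  .sub (.add .pi .pi) (.add (.add (.v 50) (.v 74)) (.add (.v 55) (.v 55))),
  .sub (.add .pi .pi) (.add (.add (.v 47) (.v 76)) (.add (.v 55) (.v 55))),
  .sub (.add (.add (.add (.v 47) (.v 74)) (.add (.v 55) (.v 55))) (.add (.add (.v 50) (.v 76)) (.add (.v 56) (.v 56)))) (.add (.add .pi .pi) (.add .pi .pi)),
  .sub (.mul (.v 24) (.sub (.v 125) (.v 127))) (.mul (.q 1 2) (.v 177)),
  .sub (.add .pi .pi) (.add (.add (.v 46) (.v 72)) (.add (.v 57) (.v 57))),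
  .sub (.add (.add (.add (.v 45) (.v 72)) (.add (.v 57) (.v 57))) (.add (.add (.v 46) (.v 74)) (.add (.v 58) (.v 58)))) (.add (.add .pi .pi) (.add .pi .pi))]

def Tac11 : List Ex := [
  .sub (.add (.add (.add (.mul (.v 24) (.sub (.v 129) (.v 131))) (.mul (.mul (.v 24) (.v 0)) (.mul (.sub (.v 83) (.v 82)) (.mul (.v 322) (.sub (.mul (.q 1 2) (.add (.v 82) (.v 83))) (.v 84)))))) (.mul (.mul (.mul (.v 24) (.v 0)) (.sub (.v 83) (.v 82))) (.v 419))) (.mul (.mul (.mul (.v 24) (.v 0)) (.mul (.sub (.v 83) (.v 82)) (.sub (.mul (.q 1 2) (.add (.v 82) (.v 83))) (.v 83)))) (.v 422))) (.mul (.q 1 2) (.v 418)),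
  .sub (.add (.add (.v 47) (.v 73)) (.add (.v 57) (.v 57))) (.add .pi .pi),
  .sub (.add (.add .pi .pi) (.add .pi .pi)) (.add (.add (.add (.v 47) (.v 74)) (.add (.v 57) (.v 57))) (.add (.add (.v 45) (.v 73)) (.add (.v 56) (.v 56)))),
  .sub (.add (.add (.mul (.v 24) (.sub (.v 127) (.v 129))) (.mul (.mul (.v 24) (.v 0)) (.mul (.sub (.v 84) (.v 83)) (.mul (.v 322) (.sub (.mul (.q 1 2) (.add (.v 83) (.v 84))) (.v 84)))))) (.mul (.mul (.mul (.v 24) (.v 0)) (.sub (.v 84) (.v 83))) (.v 419))) (.mul (.q 1 2) (.v 181)),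
  .sub (.add (.add (.v 43) (.v 82)) (.add (.v 51) (.v 51))) (.add .pi .pi),
  .sub (.add (.add (.v 43) (.v 84)) (.add (.v 47) (.v 47))) (.add .pi .pi),
  .sub (.add (.add .pi .pi) (.add .pi .pi)) (.add (.add (.add (.v 43) (.v 84)) (.add (.v 51) (.v 51))) (.add (.add (.v 34) (.v 82)) (.add (.v 47) (.v 47)))),
  .sub (.sub (.sub (.sub (.sub (.sub (.sub (.sub (.mul (.v 24) (.sub (.v 109) (.v 117))) (.mul (.q 1 2) (.v 188))) (.mul (.v 24) (.add (.mul (.sub (.v 50) (.v 49)) (.mul (.sub (.v 50) (.v 49)) (.v 174))) (.mul (.mul (.sub (.v 50) (.v 49)) (.sub (.mul (.q 1 2) (.add (.v 49) (.v 50))) (.v 50))) (.v 174))))) (.mul (.v 24) (.mul (.sub (.v 50) (.v 49)) (.v 175)))) (.mul (.v 24) (.mul (.q 1 2) (.v 177)))) (.mul (.mul (.v 24) (.sub (.v 51) (.v 50))) (.v 343))) (.mul (.mul (.v 24) (.mul (.sub (.v 51) (.v 50)) (.sub (.mul (.q 1 2) (.add (.v 50) (.v 51))) (.v 51)))) (.v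 342))) (.mul (.mul (.v 24) (.sub (.v 49) (.v 48))) (.v 355))) (.mul (.mul (.v 24) (.sub (.v 48) (.v 47))) (.v 356)),
  .sub (.add (.add (.v 35) (.v 72)) (.add (.v 68) (.v 68))) (.add .pi .pi),
  .sub (.add (.add (.v 45) (.v 68)) (.add (.v 68) (.v 68))) (.add .pi .pi),
  .sub (.add (.add .pi .pi) (.add .pi .pi)) (.add (.add (.add (.v 45) (.v 72)) (.add (.v 68) (.v 68))) (.add (.add (.v 35) (.v 68)) (.add (.v 58) (.v 58)))),
  .sub (.sub (.sub (.sub (.sub (.sub (.sub (.sub (.sub (.sub (.sub (.sub (.sub (.sub (.sub (.sub (.sub (.sub (.sub (.sub (.sub (.sub (.sub (.sub (.sub (.sub (.sub (.sub (.sub (.sub (.sub (.sub (.sub (.mul (.v 24) (.sub (.v 131) (.v 151))) (.mul (.q 1 2) (.add (.v 239) (.v 240)))) (.mul (.q 1 2) (.add (.v 263) (.v 264)))) (.mul (.q 1 2) (.v 283))) (.mul (.q 1 2) (.v 288))) (.mul (.q 1 2) (.v 290))) (.mul (.q 1 2) (.add (.v 260) (.v 259)))) (.mul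 (.q 1 2) (.add (.v 268) (.v 269)))) (.mul (.q 1 2) (.v 273))) (.mul (.q 1 2) (.v 275))) (.mul (.q 1 2) (.v 279))) (.mul (.q 1 2) (.v 221))) (.mul (.q 1 2) (.add (.v 227) (.v 228)))) (.mul (.q 1 2) (.v 234))) (.mul (.q 1 2) (.v 247))) (.mul (.q 1 2) (.add (.v 252) (.v 253)))) (.mul (.q 1 2) (.v 270))) (.mul (.q 1 2) (.v 277))) (.mul (.q 1 2) (.v 281))) (.mul (.q 1 2) (.v 286))) (.mul (.q 1 2) (.add (.v 256) (.v 257)))) (.mul (.q 1 2) (.add (.v 205) (.v 206)))) (.mul (.q 1 2) (.v 216))) (.mul (.q 1 2) (.add (.v 231) (.v 232)))) (.mul (.q 1 2) (.v 236))) (.mul (.q 1 2) (.add (.v 250) (.v 249)))) (.mul (.q 1 2) (.v 244))) (.mul (.q 1 2) (.add (.v 200) (.v 201)))) (.mul (.q 1 2) (.v 213))) (.mul (.q 1 2) (.v 219))) (.mul (.q 1 2) (.v 224))) (.mul (.q 1 2) (.v 209))) (.mul (.q 1 2) (.add (.v 196) (.v 197)))) (.mul (.q 1 2) (.v 192)),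
  .sub (.add .pi .pi) (.add (.add (.v 52) (.v 76)) (.add (.v 53) (.v 53))),
  .sub (.add .pi .pi) (.add (.add (.v 51) (.v 78)) (.add (.v 53) (.v 53))),
  .sub (.add (.add (.add (.v 51) (.v 76)) (.add (.v 53) (.v 53))) (.add (.add (.v 52) (.v 78)) (.add (.v 54) (.v 54)))) (.add (.add .pi .pi) (.add .pi .pi)),
  .sub (.mul (.v 24) (.sub (.v 121) (.v 123))) (.mul (.q 1 2) (.v 496))]

def Tac12 : List Ex := [
  .sub (.add .pi .pi) (.add (.add (.v 52) (.v 78)) (.add (.v 52) (.v 52))),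
  .sub (.add .pi .pi) (.add (.add (.v 51) (.v 80)) (.add (.v 52) (.v 52))),
  .sub (.add (.add (.add (.v 51) (.v 78)) (.add (.v 52) (.v 52))) (.add (.add (.v 52) (.v 80)) (.add (.v 53) (.v 53)))) (.add (.add .pi .pi) (.add .pi .pi)),
  .mul (.sub (.v 53) (.v 52)) (.v 492),
  .sub (.add (.add (.v 51) (.v 80)) (.add (.v 53) (.v 53))) (.add .pi .pi),
  .sub (.add (.add (.v 52) (.v 80)) (.add (.v 52) (.v 52))) (.add .pi .pi),
  .sub (.add (.add .pi .pi) (.add .pi .pi)) (.add (.add (.add (.v 52) (.v 80)) (.add (.v 53) (.v 53))) (.add (.add (.v 51) (.v 77)) (.add (.v 52) (.v 52)))),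
  .sub (.mul (.v 24) (.sub (.v 119) (.v 121))) (.mul (.sub (.v 53) (.v 52)) (.v 492)),
  .v 177,
  .v 181,
  .v 418,
  .v 188,
  .v 192,
  .v 196,
  .v 197,
  .v 200]

def Tac13 : List Ex := [
  .v 201,
  .v 205,
  .v 206,
  .v 209,
  .v 213,
  .v 216,
  .v 219,
  .v 221,
  .v 224,
  .v 227,
  .v 228,
  .v 231,
  .v 232,
  .v 234,
  .v 236,
  .v 239]

def Tac14 : List Ex := [
  .v 240,
  .v 244,
  .v 247,
  .v 249,
  .v 250,
  .v 252,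
  .v 253,
  .v 256,
  .v 257,
  .v 259,
  .v 260,
  .v 263,
  .v 264,
  .v 268,
  .v 269,
  .v 270]

def Tac15 : List Ex := [
  .v 273,
  .v 275,
  .v 277,
  .v 279,
  .v 281,
  .v 283,
  .v 286,
  .v 288,
  .v 290,
  .v 496]

def Tach : List Ex := [
  .sub (.v 33) (.v 32),
  .sub (.v 34) (.v 33),
  .sub (.v 35) (.v 34),
  .sub (.v 36) (.v 35),
  .sub (.v 37) (.v 36),
  .sub (.v 38) (.v 37),
  .sub (.v 39) (.v 38),
  .sub (.v 40) (.v 39),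
  .sub (.v 41) (.v 40),
  .sub (.v 42) (.v 41),
  .sub (.v 43) (.v 42),
  .sub (.v 44) (.v 43),
  .sub (.v 45) (.v 44),
  .sub (.v 46) (.v 45),
  .sub (.v 47) (.v 46),
  .sub (.v 48) (.v 47),
  .sub (.v 49) (.v 48),
  .sub (.v 50) (.v 49),
  .sub (.v 51) (.v 50),
  .sub (.v 52) (.v 51),
  .sub (.v 53) (.v 52),
  .sub (.v 54) (.v 53),
  .sub (.v 55) (.v 54),
  .sub (.v 56) (.v 55),
  .sub (.v 57) (.v 56),
  .sub (.v 58) (.v 57),
  .sub (.v 59) (.v 58),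
  .sub (.v 60) (.v 59),
  .sub (.v 61) (.v 60),
  .sub (.v 62) (.v 61),
  .sub (.v 63) (.v 62),
  .sub (.v 64) (.v 63),
  .sub (.v 65) (.v 64),
  .sub (.v 66) (.v 65),
  .sub (.v 67) (.v 66),
  .sub (.v 68) (.v 67),
  .sub (.v 69) (.v 68),
  .sub (.v 70) (.v 69),
  .sub (.v 71) (.v 70),
  .sub (.v 72) (.v 71),
  .sub (.v 73) (.v 72),
  .sub (.v 74) (.v 73),
  .sub (.v 75) (.v 74),
  .sub (.v 76) (.v 75),
  .sub (.v 77) (.v 76),
  .sub (.v 78) (.v 77),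
  .sub (.v 79) (.v 78),
  .sub (.v 80) (.v 79),
  .sub (.v 81) (.v 80),
  .sub (.v 82) (.v 81),
  .sub (.v 83) (.v 82),
  .sub (.v 84) (.v 83),
  .sub (.v 85) (.v 84)]

def Tads : List Ex := Tad0 ++ (Tad1 ++ (Tad2 ++ (Tad3 ++ (Tad4 ++ (Tad5 ++ (Tad6 ++ (Tad7 ++ (Tad8 ++ (Tad9 ++ (Tad10 ++ (Tad11 ++ (Tad12 ++ (Tad13 ++ (Tad14 ++ (Tad15 ++ (Tad16 ++ (Tad17 ++ (Tad18 ++ (Tad19 ++ (Tad20 ++ (Tad21 ++ (Tad22 ++ (Tad23 ++ (Tad24 ++ (Tad25 ++ (Tad26 ++ (Tad27 ++ (Tad28 ++ (Tad29 ++ (Tad30 ++ (Tad31 ++ (Tad32 ++ (Tad33 ++ (Tad34 ++ (Tad35 ++ (Tad36 ++ (Tad37 ++ (Tad38 ++ (Tad39 ++ (Tad40 ++ (Tad41 ++ (Tad42 ++ (Tad43)))))))))))))))))))))))))))))))))))))))))))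

def Tacs : List Ex := Tach ++ (Tac0 ++ (Tac1 ++ (Tac2 ++ (Tac3 ++ (Tac4 ++ (Tac5 ++ (Tac6 ++ (Tac7 ++ (Tac8 ++ (Tac9 ++ (Tac10 ++ (Tac11 ++ (Tac12 ++ (Tac13 ++ (Tac14 ++ (Tac15))))))))))))))))


end Pool.Agent.MP_e5b4ec_an.Mid
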