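import Pool.Agent.MP_e5b4ec_an.Mid.TbD

set_option maxRecDepth 20000
set_option linter.unusedSimpArgs false
set_option linter.unusedVariables false

open Real

namespace Pool.Agent.MP_e5b4ec_an.Mid

namespace Tb

variable {K E p : ℕ → ℝ}

theorem okC0t (h : TbH K E p) : okD (E 50) ((E 2008) + ((E 323) * (E 50))) (TbC0t E) :=
  okD_L ((inc h).le 49 50 rfl) (mono1 (hz h) (hpi h) ((inc h).le 37 49 rfl) ((inc h).le 50 79 rfl)) le_rfl (P1 h).2.2.2.2.2.2.2.1 <|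
  okD_L ((inc h).le 48 49 rfl) (mono1 (hz h) (hpi h) ((inc h).le 37 48 rfl) ((inc h).le 49 79 rfl)) (le_of_jump (P1 h).2.2.2.2.2.2.2.2.1 (by linear_combination ((1)) * (V0 h).2.2.2.2.2.2.2.2.1 + (-(1)) * (V0 h).2.2.2.2.2.2.2.2.2.1)) (P1 h).2.2.2.2.2.2.2.2.2.1 <|
  (nn_of_zero (by linear_combination ((1)) * (V0 h).2.2.2.2.2.2.2.2.2.1))

theorem okC0v (h : TbH K E p) : okD (E 76) (E 311) (TbC0v E) :=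
  okD_C ((inc h).le 75 76 rfl) (mono1 (hz h) (hpi h) ((inc h).le 37 75 rfl) ((inc h).le 76 79 rfl)) le_rfl <|
  (nn_of_eq (P1 h).2.2.2.2.2.2.2.2.2.2.1 (by ring))

theorem okC0x (h : TbH K E p) : okD (E 54) (((E 2091) + ((E 24) * (E 120))) + ((E 629) * (E 54))) (TbC0x E) :=
  okD_R (F6 h).2.2.1 (F6 h).2.2.2.1 (F6 h).1 (F6 h).2.1 ((inc h).le 53 54 rfl) (mono1 (hz h) (hpi h) ((inc h).le 37 53 rfl) ((inc h).le 54 79 rfl)) le_rfl (P1 h).2.2.2.2.2.2.2.2.2.2.2.1 (P1 h).2.2.2.2.2.2.2.2.2.2.2.2.1 <|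
  (nn_of_eq (P1 h).2.2.2.2.2.2.2.2.2.2.2.2.2.1 (by linear_combination ((1)) * (V5 h).2.2.2.2.2.2.2.2.2.2.2.1 + ((E 53)) * (F37 h).2.2.2.2.2.2.2.2.2.2.2.2.2.2.2.1))

theorem okC1t (h : TbH K E p) : okU (E 46) (E 337) (TbC1t E) :=
  okU_C ((inc h).le 46 47 rfl) (mono1 (hz h) (hpi h) ((inc h).le 37 46 rfl) ((inc h).le 47 79 rfl)) le_rfl <|
  okU_C ((inc h).le 47 48 rfl) (mono1 (hz h) (hpi h) ((inc h).le 37 47 rfl) ((inc h).le 48 79 rfl)) (le_of_jump (P1 h).2.2.2.2.2.2.2.2.2.2.2.2.2.2.1 (by ring)) <|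
  okU_C ((inc h).le 48 49 rfl) (mono1 (hz h) (hpi h) ((inc h).le 37 48 rfl) ((inc h).le 49 79 rfl)) (le_of_jump (P1 h).2.2.2.2.2.2.2.2.2.2.2.2.2.2.2.1 (by ring)) <|
  (nn_of_eq (P2 h).1 (by ring))

theorem okC1v (h : TbH K E p) : okU (E 74) (((E 2092) + ((E 23) * (E 160))) + ((E 630) * (E 74))) (TbC1v E) :=
  okU_R (F8 h).2.2.2.2.2.2.2.2.2.2.1 (F8 h).2.2.2.2.2.2.2.2.2.2.2.1 (F8 h).2.2.2.2.2.2.2.2.2.2.2.2.1 (F8 h).2.2.2.2.2.2.2.2.2.2.2.2.2.1 ((inc h).le 74 75 rfl) (mono1 (hz h) (hpi h) ((inc h).le 37 74 rfl) ((inc h).le 75 79 rfl)) le_rfl (P2 h).2.1 (P2 h).2.2.1 <|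
  okU_R (F8 h).2.2.2.2.2.2.2.2.2.2.2.2.1 (F8 h).2.2.2.2.2.2.2.2.2.2.2.2.2.1 (F8 h).2.2.2.2.2.2.2.2.2.2.2.2.2.2.1 (F8 h).2.2.2.2.2.2.2.2.2.2.2.2.2.2.2.1 ((inc h).le 75 76 rfl) (mono1 (hz h) (hpi h) ((inc h).le 37 75 rfl) ((inc h).le 76 79 rfl)) (le_of_jump (P1 h).2.2.2.2.2.2.2.2.2.2.1 (by linear_combination ((1)) * (V5 h).2.2.2.2.2.2.2.2.2.2.2.2.1 + ((E 75)) * (F38 h).1 + (-(1)) * (rs25 h).vh + (-(1)) * (V5 h).2.2.2.2.2.2.2.2.2.2.2.2.2.1 + (-(E 75)) * (F38 h).2.1)) (P2 h).2.2.2.1 (P2 h).2.2.2.2.1 <|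
  (nn_of_eq (P2 h).2.2.2.2.2.1 (by linear_combination ((1)) * (V5 h).2.2.2.2.2.2.2.2.2.2.2.2.2.1 + ((E 76)) * (F38 h).2.1))

theorem okC1x (h : TbH K E p) : okU (E 54) (((E 2094) + ((E 24) * (E 120))) + ((E 632) * (E 54))) (TbC1x E) :=
  okU_R (F6 h).2.2.1 (F6 h).2.2.2.1 (F6 h).2.2.2.2.1 (F6 h).2.2.2.2.2.1 ((inc h).le 54 55 rfl) (mono1 (hz h) (hpi h) ((inc h).le 37 54 rfl) ((inc h).le 55 79 rfl)) le_rfl (P2 h).2.2.2.2.2.2.1 (P2 h).2.2.2.2.2.2.2.1 <|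
  (nn_of_eq (P2 h).2.2.2.2.2.2.2.2.1 (by linear_combination ((1)) * (V5 h).2.2.2.2.2.2.2.2.2.2.2.2.2.2.1 + ((E 55)) * (F38 h).2.2.1 + (-(1)) * (rs26 h).vh))

theorem okD1t (h : TbH K E p) : okU (E 44) (E 401) (TbD1t E) :=
  okU_C ((inc h).le 44 45 rfl) (mono1 (hz h) (hpi h) ((inc h).le 37 44 rfl) ((inc h).le 45 79 rfl)) le_rfl <|
  (nn_of_eq (P2 h).2.2.2.2.2.2.2.2.2.1 (by ring))

theorem okD1v (h : TbH K E p) : okU (E 72) (((E 2095) + ((E 23) * (E 156))) + ((E 633) * (E 72))) (TbD1v E) :=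
  okU_R (F8 h).2.2.2.2.2.2.1 (F8 h).2.2.2.2.2.2.2.1 (F8 h).2.2.2.2.2.2.2.2.1 (F8 h).2.2.2.2.2.2.2.2.2.1 ((inc h).le 72 73 rfl) (mono1 (hz h) (hpi h) ((inc h).le 37 72 rfl) ((inc h).le 73 79 rfl)) le_rfl (P2 h).2.2.2.2.2.2.2.2.2.2.1 (P2 h).2.2.2.2.2.2.2.2.2.2.2.1 <|
  okU_R (F8 h).2.2.2.2.2.2.2.2.1 (F8 h).2.2.2.2.2.2.2.2.2.1 (F8 h).2.2.2.2.2.2.2.2.2.2.1 (F8 h).2.2.2.2.2.2.2.2.2.2.2.1 ((inc h).le 73 74 rfl) (mono1 (hz h) (hpi h) ((inc h).le 37 73 rfl) ((inc h).le 74 79 rfl)) (le_of_jump (P2 h).2.2.2.2.2.2.2.2.2.2.2.2.1 (by linear_combination ((1)) * (V5 h).2.2.2.2.2.2.2.2.2.2.2.2.2.2.2.1 + ((E 73)) * (F38 h).2.2.2.1 + (-(1)) * (rs31 h).vh + (-(1)) * (V6 h).1 + (-(E 73)) * (F38 h).2.2.2.2.1 + ((1)) * (rs28 h).vl)) (P2 h).2.2.2.2.2.2.2.2.2.2.2.2.2.1 (P2 h).2.2.2.2.2.2.2.2.2.2.2.2.2.2.1 <|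
  (nn_of_eq (P2 h).2.2.2.2.2.2.2.2.2.2.2.2.2.2.2.1 (by linear_combination ((1)) * (V6 h).1 + ((E 74)) * (F38 h).2.2.2.2.1 + (-(1)) * (rs28 h).vh))

theorem okD1x (h : TbH K E p) : okU (E 56) (((E 2097) + ((E 24) * (E 124))) + ((E 635) * (E 56))) (TbD1x E) :=
  okU_R (F6 h).2.2.2.2.2.2.1 (F6 h).2.2.2.2.2.2.2.1 (F6 h).2.2.2.2.2.2.2.2.1 (F6 h).2.2.2.2.2.2.2.2.2.1 ((inc h).le 56 57 rfl) (mono1 (hz h) (hpi h) ((inc h).le 37 56 rfl) ((inc h).le 57 79 rfl)) le_rfl (P3 h).1 (P3 h).2.1 <|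
  (nn_of_eq (P3 h).2.2.1 (by linear_combination ((1)) * (V6 h).2.1 + ((E 57)) * (F38 h).2.2.2.2.2.1 + (((E 24) * (E 0))) * (V0 h).2.2.2.2.2.2.2.2.2.2.1 + (-(((E 24) * (E 0)) * E 403)) * (nw82 h) + (-(1)) * (rs32 h).vh + (((E 24) * (E 0))) * (rs34 h).vl + (-(((E 24) * (E 0)) * E 293)) * (nw82 h)))

theorem okD2t (h : TbH K E p) : okD (E 46) (((E 2098) + ((((1 : ℤ) : ℝ) / ((1 : ℕ) : ℝ)) * (E 104))) + ((E 636) * (E 46))) (TbD2t E) :=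
  okD_R (F5 h).2.2.1 (F5 h).2.2.2.1 (F5 h).1 (F5 h).2.1 ((inc h).le 45 46 rfl) (mono1 (hz h) (hpi h) ((inc h).le 37 45 rfl) ((inc h).le 46 79 rfl)) le_rfl (P3 h).2.2.2.1 (P3 h).2.2.2.2.1 <|
  okD_R (F5 h).1 (F5 h).2.1 (F4 h).2.2.2.2.2.2.2.2.2.2.2.2.2.2.1 (F4 h).2.2.2.2.2.2.2.2.2.2.2.2.2.2.2.1 ((inc h).le 44 45 rfl) (mono1 (hz h) (hpi h) ((inc h).le 37 44 rfl) ((inc h).le 45 79 rfl)) (le_of_jump (P3 h).2.2.2.2.2.1 (by linear_combination ((1)) * (V6 h).2.2.1 + ((E 45)) * (F38 h).2.2.2.2.2.2.1 + (-(1)) * (rs27 h).vl + (-(1)) * (V6 h).2.2.2.1 + (-(E 45)) * (F38 h).2.2.2.2.2.2.2.1 + ((1)) * (rs30 h).vh)) (P3 h).2.2.2.2.2.2.1 (P3 h).2.2.2.2.2.2.2.1 <|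
  (nn_of_eq (P3 h).2.2.2.2.2.2.2.2.1 (by linear_combination ((1)) * (V6 h).2.2.2.1 + ((E 44)) * (F38 h).2.2.2.2.2.2.2.1 + (-(1)) * (rs30 h).vl))

theorem okD2v (h : TbH K E p) : okD (E 74) (E 402) (TbD2v E) :=
  okD_C ((inc h).le 73 74 rfl) (mono1 (hz h) (hpi h) ((inc h).le 37 73 rfl) ((inc h).le 74 79 rfl)) le_rfl <|
  (nn_of_eq (P3 h).2.2.2.2.2.2.2.2.2.1 (by ring))

theorem okD2x (h : TbH K E p) : okD (E 56) (((E 2100) + ((E 24) * (E 124))) + ((E 638) * (E 56))) (TbD2x E) :=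
  okD_R (F6 h).2.2.2.2.2.2.1 (F6 h).2.2.2.2.2.2.2.1 (F6 h).2.2.2.2.1 (F6 h).2.2.2.2.2.1 ((inc h).le 55 56 rfl) (mono1 (hz h) (hpi h) ((inc h).le 37 55 rfl) ((inc h).le 56 79 rfl)) le_rfl (P3 h).2.2.2.2.2.2.2.2.2.2.1 (P3 h).2.2.2.2.2.2.2.2.2.2.2.1 <|
  (nn_of_eq (P3 h).2.2.2.2.2.2.2.2.2.2.2.2.1 (by linear_combination ((1)) * (V6 h).2.2.2.2.1 + ((E 55)) * (F38 h).2.2.2.2.2.2.2.2.1 + (-(1)) * (rs29 h).vl + (((E 24) * (E 0))) * (rs34 h).vh + (-(((E 24) * (E 0)) * E 293)) * (nw84 h)))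

theorem okAt (h : TbH K E p) : okD (E 43) (E 426) (TbAt E) :=
  okD_C ((inc h).le 41 43 rfl) (mono1 (hz h) (hpi h) ((inc h).le 37 41 rfl) ((inc h).le 43 79 rfl)) le_rfl <|
  okD_C ((inc h).le 38 41 rfl) (mono1 (hz h) (hpi h) ((inc h).le 37 38 rfl) ((inc h).le 41 79 rfl)) (le_of_jump (P3 h).2.2.2.2.2.2.2.2.2.2.2.2.2.1 (by ring)) <|
  okD_C ((inc h).le 37 38 rfl) (mono1 (hz h) (hpi h) ((inc h).le 37 37 rfl) ((inc h).le 38 79 rfl)) (le_of_jump (P3 h).2.2.2.2.2.2.2.2.2.2.2.2.2.2.1 (by ring)) <|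
  okD_C ((inc h).le 36 37 rfl) (mono2 (hmpi h) (hz h) ((inc h).le 34 36 rfl) ((inc h).le 37 37 rfl)) le_rfl <|
  (nn_of_eq (P3 h).2.2.2.2.2.2.2.2.2.2.2.2.2.2.2.1 (by ring))

theorem okAv (h : TbH K E p) : okD (E 84) (E 400) (TbAv E) :=
  okD_C ((inc h).le 83 84 rfl) (mono3 (hpi h) (h2pi h) ((inc h).le 79 83 rfl) ((inc h).le 84 85 rfl)) le_rfl <|
  okD_L ((inc h).le 82 83 rfl) (mono3 (hpi h) (h2pi h) ((inc h).le 79 82 rfl) ((inc h).le 83 85 rfl)) (le_of_tie (by linear_combination (-(1)) * (V0 h).2.2.2.2.2.2.2.2.2.2.1)) (P4 h).1 <|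
  (nn_of_eq (P4 h).2.1 (by linear_combination ((1)) * (V0 h).2.2.2.2.2.2.2.2.2.2.1))

theorem okAx (h : TbH K E p) : okD (E 50) (((E 2101) + ((E 24) * (E 112))) + ((E 639) * (E 50))) (TbAx E) :=
  okD_R (F5 h).2.2.2.2.2.2.2.2.2.2.1 (F5 h).2.2.2.2.2.2.2.2.2.2.2.1 (F5 h).2.2.2.2.2.2.2.2.1 (F5 h).2.2.2.2.2.2.2.2.2.1 ((inc h).le 49 50 rfl) (mono1 (hz h) (hpi h) ((inc h).le 37 49 rfl) ((inc h).le 50 79 rfl)) le_rfl (P4 h).2.2.1 (P4 h).2.2.2.1 <|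
  okD_R (F5 h).2.2.2.2.2.2.2.2.1 (F5 h).2.2.2.2.2.2.2.2.2.1 (F5 h).2.2.2.2.2.2.1 (F5 h).2.2.2.2.2.2.2.1 ((inc h).le 48 49 rfl) (mono1 (hz h) (hpi h) ((inc h).le 37 48 rfl) ((inc h).le 49 79 rfl)) (le_of_jump (P4 h).2.2.2.2.1 (by linear_combination ((1)) * (V6 h).2.2.2.2.2.1 + ((E 49)) * (F38 h).2.2.2.2.2.2.2.2.2.1 + (-(E 24)) * (V0 h).2.2.2.2.2.2.2.2.1 + (-(1)) * (V6 h).2.2.2.2.2.2.1 + (-(E 49)) * (F38 h).2.2.2.2.2.2.2.2.2.2.1 + ((E 24)) * (V0 h).2.2.2.2.2.2.2.2.2.1 + ((E 24)) * (rs24 h).vh)) (P4 h).2.2.2.2.2.1 (P4 h).2.2.2.2.2.2.1 <|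
  okD_R (F5 h).2.2.2.2.2.2.1 (F5 h).2.2.2.2.2.2.2.1 (F5 h).2.2.2.2.1 (F5 h).2.2.2.2.2.1 ((inc h).le 47 48 rfl) (mono1 (hz h) (hpi h) ((inc h).le 37 47 rfl) ((inc h).le 48 79 rfl)) (le_of_jump (P4 h).2.2.2.2.2.2.2.1 (by linear_combination ((1)) * (V6 h).2.2.2.2.2.2.1 + ((E 48)) * (F38 h).2.2.2.2.2.2.2.2.2.2.1 + (-(E 24)) * (V0 h).2.2.2.2.2.2.2.2.2.1 + (-(1)) * (V6 h).2.2.2.2.2.2.2.1 + (-(E 48)) * (F38 h).2.2.2.2.2.2.2.2.2.2.2.1)) (P4 h).2.2.2.2.2.2.2.2.1 (P4 h).2.2.2.2.2.2.2.2.2.1 <|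
  okD_R (F5 h).2.2.2.2.1 (F5 h).2.2.2.2.2.1 (F5 h).2.2.1 (F5 h).2.2.2.1 ((inc h).le 46 47 rfl) (mono1 (hz h) (hpi h) ((inc h).le 37 46 rfl) ((inc h).le 47 79 rfl)) (le_of_jump (P4 h).2.2.2.2.2.2.2.2.2.2.1 (by linear_combination ((1)) * (V6 h).2.2.2.2.2.2.2.1 + ((E 47)) * (F38 h).2.2.2.2.2.2.2.2.2.2.2.1 + (-(1)) * (rs35 h).vl + (-(1)) * (V6 h).2.2.2.2.2.2.2.2.1 + (-(E 47)) * (F38 h).2.2.2.2.2.2.2.2.2.2.2.2.1)) (P4 h).2.2.2.2.2.2.2.2.2.2.2.1 (P4 h).2.2.2.2.2.2.2.2.2.2.2.2.1 <|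
  (nn_of_eq (P4 h).2.2.2.2.2.2.2.2.2.2.2.2.2.1 (by linear_combination ((1)) * (V6 h).2.2.2.2.2.2.2.2.1 + ((E 46)) * (F38 h).2.2.2.2.2.2.2.2.2.2.2.2.1 + (-(E 24)) * (rs24 h).vl))

theorem okTt (h : TbH K E p) : okD (E 38) (((E 2105) + ((((1 : ℤ) : ℝ) / ((1 : ℕ) : ℝ)) * (E 88))) + ((E 643) * (E 38))) (TbTt E) :=
  okD_R (F4 h).2.2.1 (F4 h).2.2.2.1 (F4 h).1 (F4 h).2.1 ((inc h).le 37 38 rfl) (mono1 (hz h) (hpi h) ((inc h).le 37 37 rfl) ((inc h).le 38 79 rfl)) le_rfl (P4 h).2.2.2.2.2.2.2.2.2.2.2.2.2.2.1 (P4 h).2.2.2.2.2.2.2.2.2.2.2.2.2.2.2.1 <|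
  okD_C ((inc h).le 36 37 rfl) (mono2 (hmpi h) (hz h) ((inc h).le 34 36 rfl) ((inc h).le 37 37 rfl)) (le_of_tie (by linear_combination ((1)) * (V6 h).2.2.2.2.2.2.2.2.2.1 + ((E 37)) * (F38 h).2.2.2.2.2.2.2.2.2.2.2.2.2.1 + ((((1 : ℤ) : ℝ) / ((1 : ℕ) : ℝ))) * (hs0 h) + (-(1 * E 295)) * ((2) * hz h))) <|
  (nn_of_eq (P5 h).1 (by ring))

theorem okTv (h : TbH K E p) : okD (E 72) (E 444) (TbTv E) :=
  okD_C ((inc h).le 71 72 rfl) (mono1 (hz h) (hpi h) ((inc h).le 37 71 rfl) ((inc h).le 72 79 rfl)) le_rfl <|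
  okD_L ((inc h).le 70 71 rfl) (mono1 (hz h) (hpi h) ((inc h).le 37 70 rfl) ((inc h).le 71 79 rfl)) (le_of_jump (P5 h).2.1 (by linear_combination (-(1)) * (V0 h).2.2.2.2.2.2.2.2.2.2.2.1)) (P5 h).2.2.1 <|
  (nn_of_zero (by linear_combination ((1)) * (V0 h).2.2.2.2.2.2.2.2.2.2.2.1))

theorem okTx (h : TbH K E p) : okD (E 68) (((E 2106) + ((E 24) * (E 148))) + ((E 644) * (E 68))) (TbTx E) :=
  okD_R (F7 h).2.2.2.2.2.2.2.2.2.2.2.2.2.2.1 (F7 h).2.2.2.2.2.2.2.2.2.2.2.2.2.2.2.1 (F7 h).2.2.2.2.2.2.2.2.2.2.2.2.1 (F7 h).2.2.2.2.2.2.2.2.2.2.2.2.2.1 ((inc h).le 67 68 rfl) (mono1 (hz h) (hpi h) ((inc h).le 37 67 rfl) ((inc h).le 68 79 rfl)) le_rfl (P5 h).2.2.2.1 (P5 h).2.2.2.2.1 <|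
  okD_R (F7 h).2.2.2.2.2.2.2.2.2.2.2.2.1 (F7 h).2.2.2.2.2.2.2.2.2.2.2.2.2.1 (F7 h).2.2.2.2.2.2.2.2.2.2.1 (F7 h).2.2.2.2.2.2.2.2.2.2.2.1 ((inc h).le 66 67 rfl) (mono1 (hz h) (hpi h) ((inc h).le 37 66 rfl) ((inc h).le 67 79 rfl)) (le_of_tie (by linear_combination ((1)) * (V6 h).2.2.2.2.2.2.2.2.2.2.1 + ((E 67)) * (F38 h).2.2.2.2.2.2.2.2.2.2.2.2.2.2.1 + (-(1)) * (V6 h).2.2.2.2.2.2.2.2.2.2.2.1 + (-(E 67)) * (F38 h).2.2.2.2.2.2.2.2.2.2.2.2.2.2.2.1 + ((1)) * (rs107 h).vh)) (P5 h).2.2.2.2.2.1 (P5 h).2.2.2.2.2.2.1 <|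
  okD_R (F7 h).2.2.2.2.2.2.2.2.2.2.1 (F7 h).2.2.2.2.2.2.2.2.2.2.2.1 (F7 h).2.2.2.2.2.2.2.2.1 (F7 h).2.2.2.2.2.2.2.2.2.1 ((inc h).le 65 66 rfl) (mono1 (hz h) (hpi h) ((inc h).le 37 65 rfl) ((inc h).le 66 79 rfl)) (le_of_jump (P5 h).2.2.2.2.2.2.2.1 (by linear_combination ((1)) * (V6 h).2.2.2.2.2.2.2.2.2.2.2.1 + ((E 66)) * (F38 h).2.2.2.2.2.2.2.2.2.2.2.2.2.2.2.1 + (-(1)) * (V6 h).2.2.2.2.2.2.2.2.2.2.2.2.1 + (-(E 66)) * (F39 h).1 + ((1)) * (rs65 h).vh + ((1)) * (rs101 h).vh + ((1)) * (rs104 h).vh)) (P5 h).2.2.2.2.2.2.2.2.1 (P5 h).2.2.2.2.2.2.2.2.2.1 <|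
  (nn_of_eq (P5 h).2.2.2.2.2.2.2.2.2.2.1 (by linear_combination ((1)) * (V6 h).2.2.2.2.2.2.2.2.2.2.2.2.1 + ((E 65)) * (F39 h).1 + (-(1)) * (rs65 h).vl + (-(1)) * (rs89 h).vh + (-(1)) * (rs95 h).vh + (-(1)) * (rs101 h).vh + (-(1)) * (rs104 h).vl + (-(1)) * (rs107 h).vh))

theorem okBt (h : TbH K E p) : okD (E 44) (((E 2109) + ((((1 : ℤ) : ℝ) / ((1 : ℕ) : ℝ)) * (E 100))) + ((E 647) * (E 44))) (TbBt E) :=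
  okD_R (F4 h).2.2.2.2.2.2.2.2.2.2.2.2.2.2.1 (F4 h).2.2.2.2.2.2.2.2.2.2.2.2.2.2.2.1 (F4 h).2.2.2.2.2.2.2.2.2.2.2.2.1 (F4 h).2.2.2.2.2.2.2.2.2.2.2.2.2.1 ((inc h).le 43 44 rfl) (mono1 (hz h) (hpi h) ((inc h).le 37 43 rfl) ((inc h).le 44 79 rfl)) le_rfl (P5 h).2.2.2.2.2.2.2.2.2.2.2.1 (P5 h).2.2.2.2.2.2.2.2.2.2.2.2.1 <|
  okD_R (F4 h).2.2.2.2.2.2.2.2.2.2.2.2.1 (F4 h).2.2.2.2.2.2.2.2.2.2.2.2.2.1 (F4 h).2.2.2.2.2.2.2.2.2.2.1 (F4 h).2.2.2.2.2.2.2.2.2.2.2.1 ((inc h).le 42 43 rfl) (mono1 (hz h) (hpi h) ((inc h).le 37 42 rfl) ((inc h).le 43 79 rfl)) (le_of_jump (P5 h).2.2.2.2.2.2.2.2.2.2.2.2.2.1 (by linear_combination ((1)) * (V6 h).2.2.2.2.2.2.2.2.2.2.2.2.2.1 + ((E 43)) * (F39 h).2.1 + (-(1)) * (rs36 h).vl + (-(1)) * (rs39 h).vl + (-(1)) * (rs45 h).vl + (-(1)) * (V6 h).2.2.2.2.2.2.2.2.2.2.2.2.2.2.1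 + (-(E 43)) * (F39 h).2.2.1 + ((1)) * (rs33 h).vh + ((1)) * (rs54 h).vh + ((1)) * (rs57 h).vh + ((1)) * (rs69 h).vh + ((1)) * (rs78 h).vh + ((1)) * (rs81 h).vh)) (P5 h).2.2.2.2.2.2.2.2.2.2.2.2.2.2.1 (P5 h).2.2.2.2.2.2.2.2.2.2.2.2.2.2.2.1 <|
  okD_R (F4 h).2.2.2.2.2.2.2.2.2.2.1 (F4 h).2.2.2.2.2.2.2.2.2.2.2.1 (F4 h).2.2.2.2.2.2.2.2.1 (F4 h).2.2.2.2.2.2.2.2.2.1 ((inc h).le 41 42 rfl) (mono1 (hz h) (hpi h) ((inc h).le 37 41 rfl) ((inc h).le 42 79 rfl)) (le_of_jump (P6 h).1 (by linear_combination ((1)) * (V6 h).2.2.2.2.2.2.2.2.2.2.2.2.2.2.1 + ((E 42)) * (F39 h).2.2.1 + (-(1)) * (rs42 h).vl + (-(1)) * (rs48 h).vl + (-(1)) * (rs54 h).vl + (-(1)) * (rs57 h).vl + (-(1)) * (V6 h).2.2.2.2.2.2.2.2.2.2.2.2.2.2.2.1 + (-(E 42)) * (F39 h).2.2.2.1 + ((1)) * (rs60 h).vh + ((1)) * (rs63 h).vh + ((1)) * (rs66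 h).vh + ((1)) * (rs72 h).vh + ((1)) * (rs84 h).vh + ((1)) * (rs90 h).vh)) (P6 h).2.1 (P6 h).2.2.1 <|
  okD_R (F4 h).2.2.2.2.2.2.2.2.1 (F4 h).2.2.2.2.2.2.2.2.2.1 (F4 h).2.2.2.2.2.2.1 (F4 h).2.2.2.2.2.2.2.1 ((inc h).le 40 41 rfl) (mono1 (hz h) (hpi h) ((inc h).le 37 40 rfl) ((inc h).le 41 79 rfl)) (le_of_jump (P6 h).2.2.2.1 (by linear_combination ((1)) * (V6 h).2.2.2.2.2.2.2.2.2.2.2.2.2.2.2.1 + ((E 41)) * (F39 h).2.2.2.1 + (-(1)) * (rs51 h).vl + (-(1)) * (rs60 h).vl + (-(1)) * (rs66 h).vl + (-(1)) * (rs78 h).vl + (-(1)) * (V7 h).1 + (-(E 41)) * (F39 h).2.2.2.2.1 + ((1)) * (rs75 h).vh + ((1)) * (rs87 h).vh + ((1)) * (rs96 h).vh + ((1)) * (rs99 h).vh)) (P6 h).2.2.2.2.1 (P6 h).2.2.2.2.2.1 <|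
  okD_R (F4 h).2.2.2.2.2.2.1 (F4 h).2.2.2.2.2.2.2.1 (F4 h).2.2.2.2.1 (F4 h).2.2.2.2.2.1 ((inc h).le 39 40 rfl) (mono1 (hz h) (hpi h) ((inc h).le 37 39 rfl) ((inc h).le 40 79 rfl)) (le_of_jump (P6 h).2.2.2.2.2.2.1 (by linear_combination ((1)) * (V7 h).1 + ((E 40)) * (F39 h).2.2.2.2.1 + (-(1)) * (rs69 h).vl + (-(1)) * (rs72 h).vl + (-(1)) * (rs75 h).vl + (-(1)) * (rs81 h).vl + (-(1)) * (rs84 h).vl + (-(1)) * (rs90 h).vl + (-(1)) * (V7 h).2.1 + (-(E 40)) * (F39 h).2.2.2.2.2.1 + ((1)) * (rs93 h).vh + ((1)) * (rs102 h).vh)) (P6 h).2.2.2.2.2.2.2.1 (P6 h).2.2.2.2.2.2.2.2.1 <|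
  okD_R (F4 h).2.2.2.2.1 (F4 h).2.2.2.2.2.1 (F4 h).2.2.1 (F4 h).2.2.2.1 ((inc h).le 38 39 rfl) (mono1 (hz h) (hpi h) ((inc h).le 37 38 rfl) ((inc h).le 39 79 rfl)) (le_of_jump (P6 h).2.2.2.2.2.2.2.2.2.1 (by linear_combination ((1)) * (V7 h).2.1 + ((E 39)) * (F39 h).2.2.2.2.2.1 + (-(1)) * (rs63 h).vl + (-(1)) * (rs87 h).vl + (-(1)) * (rs93 h).vl + (-(1)) * (rs96 h).vl + (-(1)) * (rs99 h).vl + (-(1)) * (rs102 h).vl + (-(1)) * (V7 h).2.2.1 + (-(E 39)) * (F39 h).2.2.2.2.2.2.1 + ((1)) * (rs105 h).vh)) (P6 h).2.2.2.2.2.2.2.2.2.2.1 (P6 h).2.2.2.2.2.2.2.2.2.2.2.1 <|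
  (nn_of_eq (P6 h).2.2.2.2.2.2.2.2.2.2.2.2.1 (by linear_combination ((1)) * (V7 h).2.2.1 + ((E 38)) * (F39 h).2.2.2.2.2.2.1 + (-(1)) * (rs33 h).vl + (-(1)) * (rs105 h).vl))

theorem okBv (h : TbH K E p) : okD (E 72) (((E 2115) + ((E 23) * (E 156))) + ((E 653) * (E 72))) (TbBv E) :=
  okD_R (F8 h).2.2.2.2.2.2.1 (F8 h).2.2.2.2.2.2.2.1 (F8 h).2.2.2.2.1 (F8 h).2.2.2.2.2.1 ((inc h).le 71 72 rfl) (mono1 (hz h) (hpi h) ((inc h).le 37 71 rfl) ((inc h).le 72 79 rfl)) le_rfl (P6 h).2.2.2.2.2.2.2.2.2.2.2.2.2.1 (P6 h).2.2.2.2.2.2.2.2.2.2.2.2.2.2.1 <|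
  okD_R (F8 h).2.2.2.2.1 (F8 h).2.2.2.2.2.1 (F8 h).2.2.1 (F8 h).2.2.2.1 ((inc h).le 70 71 rfl) (mono1 (hz h) (hpi h) ((inc h).le 37 70 rfl) ((inc h).le 71 79 rfl)) (le_of_jump (P6 h).2.2.2.2.2.2.2.2.2.2.2.2.2.2.2.1 (by linear_combination ((1)) * (V7 h).2.2.2.1 + ((E 71)) * (F39 h).2.2.2.2.2.2.2.1 + (-(1)) * (rs37 h).vl + (-(1)) * (V7 h).2.2.2.2.1 + (-(E 71)) * (F39 h).2.2.2.2.2.2.2.2.1 + ((1)) * (V0 h).2.2.2.2.2.2.2.2.2.2.2.1 + ((1)) * (rs55 h).vh + ((1)) * (rs58 h).vh + ((1)) * (rs61 h).vh + ((1)) * (rs64 h).vh + ((1)) * (rs67 h).vh + ((1)) * (rs70 h).vh + ((1)) * (rs73 h).vh + ((1)) * (rs76 h).vh + ((1)) * (rs97 h).vh + ((1)) * (rs106 h).vh)) (P7 h).1 (P7 h).2.1 <|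
  okD_R (F8 h).2.2.1 (F8 h).2.2.2.1 (F8 h).1 (F8 h).2.1 ((inc h).le 69 70 rfl) (mono1 (hz h) (hpi h) ((inc h).le 37 69 rfl) ((inc h).le 70 79 rfl)) (le_of_tie (by linear_combination ((1)) * (V7 h).2.2.2.2.1 + ((E 70)) * (F39 h).2.2.2.2.2.2.2.2.1 + (-(1)) * (V0 h).2.2.2.2.2.2.2.2.2.2.2.1 + (-(1)) * (rs106 h).vl + (-(1)) * (V7 h).2.2.2.2.2.1 + (-(E 70)) * (F39 h).2.2.2.2.2.2.2.2.2.1)) (P7 h).2.2.1 (P7 h).2.2.2.1 <|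
  okD_R (F8 h).1 (F8 h).2.1 (F7 h).2.2.2.2.2.2.2.2.2.2.2.2.2.2.1 (F7 h).2.2.2.2.2.2.2.2.2.2.2.2.2.2.2.1 ((inc h).le 68 69 rfl) (mono1 (hz h) (hpi h) ((inc h).le 37 68 rfl) ((inc h).le 69 79 rfl)) (le_of_jump (P7 h).2.2.2.2.1 (by linear_combination ((1)) * (V7 h).2.2.2.2.2.1 + ((E 69)) * (F39 h).2.2.2.2.2.2.2.2.2.1 + (-(1)) * (rs40 h).vl + (-(1)) * (rs43 h).vl + (-(1)) * (rs55 h).vl + (-(1)) * (rs61 h).vl + (-(1)) * (rs64 h).vl + (-(1)) * (rs70 h).vl + (-(1)) * (rs73 h).vl + (-(1)) * (V7 h).2.2.2.2.2.2.1 + (-(E 69)) * (F39 h).2.2.2.2.2.2.2.2.2.2.1 + ((1)) * (rs79 h).vh + ((1)) * (rs82 h).vh + ((1)) * (rs85 h).vh + ((1)) * (rs88 h).vh + ((1)) * (rs91 h).vh + ((1)) * (rs94 h).vh + ((1)) * (rs100 h).vh + ((1)) * (rs103 h).vh)) (P7 h).2.2.2.2.2.1 (P7 h).2.2.2.2.2.2.1 <|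
  (nn_of_eq (P7 h).2.2.2.2.2.2.2.1 (by linear_combination ((1)) * (V7 h).2.2.2.2.2.2.1 + ((E 68)) * (F39 h).2.2.2.2.2.2.2.2.2.2.1 + (-(1)) * (rs46 h).vl + (-(1)) * (rs49 h).vl + (-(1)) * (rs52 h).vl + (-(1)) * (rs58 h).vl + (-(1)) * (rs67 h).vl + (-(1)) * (rs76 h).vl + (-(1)) * (rs79 h).vl + (-(1)) * (rs82 h).vl + (-(1)) * (rs85 h).vl + (-(1)) * (rs88 h).vl + (-(1)) * (rs91 h).vl + (-(1)) * (rs94 h).vl + (-(1)) * (rs97 h).vl + (-(1)) * (rs100 h).vl + (-(1)) * (rs103 h).vl))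

theorem okBx (h : TbH K E p) : okD (E 65) (((E 2119) + ((E 24) * (E 142))) + ((E 657) * (E 65))) (TbBx E) :=
  okD_R (F7 h).2.2.2.2.2.2.2.2.1 (F7 h).2.2.2.2.2.2.2.2.2.1 (F7 h).2.2.2.2.2.2.1 (F7 h).2.2.2.2.2.2.2.1 ((inc h).le 64 65 rfl) (mono1 (hz h) (hpi h) ((inc h).le 37 64 rfl) ((inc h).le 65 79 rfl)) le_rfl (P7 h).2.2.2.2.2.2.2.2.1 (P7 h).2.2.2.2.2.2.2.2.2.1 <|
  okD_R (F7 h).2.2.2.2.2.2.1 (F7 h).2.2.2.2.2.2.2.1 (F7 h).2.2.2.2.1 (F7 h).2.2.2.2.2.1 ((inc h).le 63 64 rfl) (mono1 (hz h) (hpi h) ((inc h).le 37 63 rfl) ((inc h).le 64 79 rfl)) (le_of_jump (P7 h).2.2.2.2.2.2.2.2.2.2.1 (by linear_combination ((1)) * (V7 h).2.2.2.2.2.2.2.1 + ((E 64)) * (F39 h).2.2.2.2.2.2.2.2.2.2.2.1 + (-(1)) * (rs104 h).vl + (-(1)) * (V7 h).2.2.2.2.2.2.2.2.1 + (-(E 64)) * (F39 h).2.2.2.2.2.2.2.2.2.2.2.2.1 + ((1))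 * (rs83 h).vh + ((1)) * (rs86 h).vh)) (P7 h).2.2.2.2.2.2.2.2.2.2.2.1 (P7 h).2.2.2.2.2.2.2.2.2.2.2.2.1 <|
  okD_R (F7 h).2.2.2.2.1 (F7 h).2.2.2.2.2.1 (F7 h).2.2.1 (F7 h).2.2.2.1 ((inc h).le 62 63 rfl) (mono1 (hz h) (hpi h) ((inc h).le 37 62 rfl) ((inc h).le 63 79 rfl)) (le_of_jump (P7 h).2.2.2.2.2.2.2.2.2.2.2.2.2.1 (by linear_combination ((1)) * (V7 h).2.2.2.2.2.2.2.2.1 + ((E 63)) * (F39 h).2.2.2.2.2.2.2.2.2.2.2.2.1 + (-(1)) * (rs107 h).vl + (-(1)) * (V7 h).2.2.2.2.2.2.2.2.2.1 + (-(E 63)) * (F39 h).2.2.2.2.2.2.2.2.2.2.2.2.2.1 + ((1)) * (rs98 h).vh)) (P7 h).2.2.2.2.2.2.2.2.2.2.2.2.2.2.1 (P7 h).2.2.2.2.2.2.2.2.2.2.2.2.2.2.2.1 <|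
  okD_R (F7 h).2.2.1 (F7 h).2.2.2.1 (F7 h).1 (F7 h).2.1 ((inc h).le 61 62 rfl) (mono1 (hz h) (hpi h) ((inc h).le 37 61 rfl) ((inc h).le 62 79 rfl)) (le_of_jump (P8 h).1 (by linear_combination ((1)) * (V7 h).2.2.2.2.2.2.2.2.2.1 + ((E 62)) * (F39 h).2.2.2.2.2.2.2.2.2.2.2.2.2.1 + (-(1)) * (rs95 h).vl + (-(1)) * (rs98 h).vl + (-(1)) * (rs101 h).vl + (-(1)) * (V7 h).2.2.2.2.2.2.2.2.2.2.1 + (-(E 62)) * (F39 h).2.2.2.2.2.2.2.2.2.2.2.2.2.2.1 + ((1)) * (rs53 h).vh + ((1)) * (rs77 h).vh + ((1)) * (rs80 h).vh + ((1)) * (rs92 h).vh)) (P8 h).2.1 (P8 h).2.2.1 <|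
  okD_R (F7 h).1 (F7 h).2.1 (F6 h).2.2.2.2.2.2.2.2.2.2.2.2.2.2.1 (F6 h).2.2.2.2.2.2.2.2.2.2.2.2.2.2.2.1 ((inc h).le 60 61 rfl) (mono1 (hz h) (hpi h) ((inc h).le 37 60 rfl) ((inc h).le 61 79 rfl)) (le_of_jump (P8 h).2.2.2.1 (by linear_combination ((1)) * (V7 h).2.2.2.2.2.2.2.2.2.2.1 + ((E 61)) * (F39 h).2.2.2.2.2.2.2.2.2.2.2.2.2.2.1 + (-(1)) * (rs77 h).vl + (-(1)) * (rs89 h).vl + (-(1)) * (rs92 h).vl + (-(1)) * (V7 h).2.2.2.2.2.2.2.2.2.2.2.1 + (-(E 61)) * (F39 h).2.2.2.2.2.2.2.2.2.2.2.2.2.2.2.1 + ((1)) * (rs50 h).vh + ((1)) * (rs59 h).vh + ((1)) * (rs62 h).vh + ((1)) * (rs68 h).vh + ((1)) * (rs71 h).vh + ((1)) * (rs74 h).vh)) (P8 h).2.2.2.2.1 (P8 h).2.2.2.2.2.1 <|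
  okD_R (F6 h).2.2.2.2.2.2.2.2.2.2.2.2.2.2.1 (F6 h).2.2.2.2.2.2.2.2.2.2.2.2.2.2.2.1 (F6 h).2.2.2.2.2.2.2.2.2.2.2.2.1 (F6 h).2.2.2.2.2.2.2.2.2.2.2.2.2.1 ((inc h).le 59 60 rfl) (mono1 (hz h) (hpi h) ((inc h).le 37 59 rfl) ((inc h).le 60 79 rfl)) (le_of_jump (P8 h).2.2.2.2.2.2.1 (by linear_combination ((1)) * (V7 h).2.2.2.2.2.2.2.2.2.2.2.1 + ((E 60)) * (F39 h).2.2.2.2.2.2.2.2.2.2.2.2.2.2.2.1 + (-(1)) * (rs68 h).vl + (-(1)) * (rs74 h).vl + (-(1)) * (rs86 h).vl + (-(1)) * (V7 h).2.2.2.2.2.2.2.2.2.2.2.2.1 + (-(E 60)) * (F40 h).1 + ((1)) * (rs44 h).vh + ((1)) * (rs47 h).vh + ((1)) * (rs56 h).vh)) (P8 h).2.2.2.2.2.2.2.1 (P8 h).2.2.2.2.2.2.2.2.1 <|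
  okD_R (F6 h).2.2.2.2.2.2.2.2.2.2.2.2.1 (F6 h).2.2.2.2.2.2.2.2.2.2.2.2.2.1 (F6 h).2.2.2.2.2.2.2.2.2.2.1 (F6 h).2.2.2.2.2.2.2.2.2.2.2.1 ((inc h).le 58 59 rfl) (mono1 (hz h) (hpi h) ((inc h).le 37 58 rfl) ((inc h).le 59 79 rfl)) (le_of_jump (P8 h).2.2.2.2.2.2.2.2.2.1 (by linear_combination ((1)) * (V7 h).2.2.2.2.2.2.2.2.2.2.2.2.1 + ((E 59)) * (F40 h).1 + (-(1)) * (rs62 h).vl + (-(1)) * (rs65 h).vl + (-(1)) * (rs71 h).vl + (-(1)) * (rs80 h).vl + (-(1)) * (rs83 h).vl + (-(1)) * (V7 h).2.2.2.2.2.2.2.2.2.2.2.2.2.1 + (-(E 59)) * (F40 h).2.1 + ((1)) * (rs41 h).vh)) (P8 h).2.2.2.2.2.2.2.2.2.2.1 (P8 h).2.2.2.2.2.2.2.2.2.2.2.1 <|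
  okD_R (F6 h).2.2.2.2.2.2.2.2.2.2.1 (F6 h).2.2.2.2.2.2.2.2.2.2.2.1 (F6 h).2.2.2.2.2.2.2.2.1 (F6 h).2.2.2.2.2.2.2.2.2.1 ((inc h).le 57 58 rfl) (mono1 (hz h) (hpi h) ((inc h).le 37 57 rfl) ((inc h).le 58 79 rfl)) (le_of_jump (P8 h).2.2.2.2.2.2.2.2.2.2.2.2.1 (by linear_combination ((1)) * (V7 h).2.2.2.2.2.2.2.2.2.2.2.2.2.1 + ((E 58)) * (F40 h).2.1 + (-(1)) * (rs56 h).vl + (-(1)) * (rs59 h).vl + (-(1)) * (V7 h).2.2.2.2.2.2.2.2.2.2.2.2.2.2.1 + (-(E 58)) * (F40 h).2.2.1 + ((1)) * (rs38 h).vh)) (P8 h).2.2.2.2.2.2.2.2.2.2.2.2.2.1 (P8 h).2.2.2.2.2.2.2.2.2.2.2.2.2.2.1 <|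
  (nn_of_eq (P8 h).2.2.2.2.2.2.2.2.2.2.2.2.2.2.2.1 (by linear_combination ((1)) * (V7 h).2.2.2.2.2.2.2.2.2.2.2.2.2.2.1 + ((E 57)) * (F40 h).2.2.1 + (-(1)) * (rs38 h).vl + (-(1)) * (rs41 h).vl + (-(1)) * (rs44 h).vl + (-(1)) * (rs47 h).vl + (-(1)) * (rs50 h).vl + (-(1)) * (rs53 h).vl))

theorem okE1t (h : TbH K E p) : okU (E 50) (E 502) (TbE1t E) :=
  okU_C ((inc h).le 50 51 rfl) (mono1 (hz h) (hpi h) ((inc h).le 37 50 rfl) ((inc h).le 51 79 rfl)) le_rfl <|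
  (nn_of_eq (P9 h).1 (by ring))

theorem okE1v (h : TbH K E p) : okU (E 76) (((E 2127) + ((E 23) * (E 164))) + ((E 665) * (E 76))) (TbE1v E) :=
  okU_R (F8 h).2.2.2.2.2.2.2.2.2.2.2.2.2.2.1 (F8 h).2.2.2.2.2.2.2.2.2.2.2.2.2.2.2.1 (F9 h).1 (F9 h).2.1 ((inc h).le 76 77 rfl) (mono1 (hz h) (hpi h) ((inc h).le 37 76 rfl) ((inc h).le 77 79 rfl)) le_rfl (P9 h).2.1 (P9 h).2.2.1 <|
  okU_R (F9 h).1 (F9 h).2.1 (F9 h).2.2.1 (F9 h).2.2.2.1 ((inc h).le 77 78 rfl) (mono1 (hz h) (hpi h) ((inc h).le 37 77 rfl) ((inc h).le 78 79 rfl)) (le_of_jump (P9 h).2.2.2.1 (by linear_combination ((1)) * (V7 h).2.2.2.2.2.2.2.2.2.2.2.2.2.2.2.1 + ((E 77)) * (F40 h).2.2.2.1 + (-(1)) * (rs109 h).vh + (-(1)) * (V8 h).1 + (-(E 77)) * (F40 h).2.2.2.2.1)) (P9 h).2.2.2.2.1 (P9 h).2.2.2.2.2.1 <|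
  (nn_of_eq (P9 h).2.2.2.2.2.2.1 (by linear_combination ((1)) * (V8 h).1 + ((E 78)) * (F40 h).2.2.2.2.1))

theorem okE1x (h : TbH K E p) : okU (E 52) (((E 2129) + ((E 24) * (E 116))) + ((E 667) * (E 52))) (TbE1x E) :=
  okU_R (F5 h).2.2.2.2.2.2.2.2.2.2.2.2.2.2.1 (F5 h).2.2.2.2.2.2.2.2.2.2.2.2.2.2.2.1 (F6 h).1 (F6 h).2.1 ((inc h).le 52 53 rfl) (mono1 (hz h) (hpi h) ((inc h).le 37 52 rfl) ((inc h).le 53 79 rfl)) le_rfl (P9 h).2.2.2.2.2.2.2.1 (P9 h).2.2.2.2.2.2.2.2.1 <|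
  (nn_of_eq (P9 h).2.2.2.2.2.2.2.2.2.1 (by linear_combination ((1)) * (V8 h).2.1 + ((E 53)) * (F40 h).2.2.2.2.2.1 + (-(1)) * (rs110 h).vh))

theorem okE2t (h : TbH K E p) : okU (E 50) (E 499) (TbE2t E) :=
  okU_C ((inc h).le 50 51 rfl) (mono1 (hz h) (hpi h) ((inc h).le 37 50 rfl) ((inc h).le 51 79 rfl)) le_rfl <|
  (nn_of_eq (P9 h).2.2.2.2.2.2.2.2.2.2.1 (by ring))

theorem okE2v (h : TbH K E p) : okU (E 78) (((E 2130) + ((E 23) * (E 168))) + ((E 668) * (E 78))) (TbE2v E) :=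
  okU_R (F9 h).2.2.1 (F9 h).2.2.2.1 (F9 h).2.2.2.2.1 (F9 h).2.2.2.2.2.1 ((inc h).le 78 79 rfl) (mono1 (hz h) (hpi h) ((inc h).le 37 78 rfl) ((inc h).le 79 79 rfl)) le_rfl (P9 h).2.2.2.2.2.2.2.2.2.2.2.1 (P9 h).2.2.2.2.2.2.2.2.2.2.2.2.1 <|
  okU_C ((inc h).le 79 80 rfl) (mono3 (hpi h) (h2pi h) ((inc h).le 79 79 rfl) ((inc h).le 80 85 rfl)) (le_of_tie (by linear_combination ((1)) * (V8 h).2.2.1 + ((E 79)) * (F40 h).2.2.2.2.2.2.1 + ((E 23)) * (hspi h))) <|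
  (nn_of_eq (P9 h).2.2.2.2.2.2.2.2.2.2.2.2.2.1 (by ring))

theorem okE2x (h : TbH K E p) : okU (E 51) (E 496) (TbE2x E) :=
  okU_C ((inc h).le 51 52 rfl) (mono1 (hz h) (hpi h) ((inc h).le 37 51 rfl) ((inc h).le 52 79 rfl)) le_rfl <|
  (nn_of_eq (P9 h).2.2.2.2.2.2.2.2.2.2.2.2.2.2.1 (by ring))

theorem okE3t (h : TbH K E p) : okD (E 51) (((E 2131) + ((((1 : ℤ) : ℝ) / ((1 : ℕ) : ℝ)) * (E 114))) + ((E 669) * (E 51))) (TbE3t E) :=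
  okD_R (F5 h).2.2.2.2.2.2.2.2.2.2.2.2.1 (F5 h).2.2.2.2.2.2.2.2.2.2.2.2.2.1 (F5 h).2.2.2.2.2.2.2.2.2.2.1 (F5 h).2.2.2.2.2.2.2.2.2.2.2.1 ((inc h).le 50 51 rfl) (mono1 (hz h) (hpi h) ((inc h).le 37 50 rfl) ((inc h).le 51 79 rfl)) le_rfl (P9 h).2.2.2.2.2.2.2.2.2.2.2.2.2.2.2.1 (P10 h).1 <|
  (nn_of_eq (P10 h).2.1 (by linear_combination ((1)) * (V8 h).2.2.2.1 + ((E 50)) * (F40 h).2.2.2.2.2.2.2.1 + (-(1)) * (rs108 h).vl))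

theorem okE3v (h : TbH K E p) : okD (E 80) (E 497) (TbE3v E) :=
  okD_C ((inc h).le 79 80 rfl) (mono3 (hpi h) (h2pi h) ((inc h).le 79 79 rfl) ((inc h).le 80 85 rfl)) le_rfl <|
  okD_C ((inc h).le 78 79 rfl) (mono1 (hz h) (hpi h) ((inc h).le 37 78 rfl) ((inc h).le 79 79 rfl)) le_rfl <|
  okD_C ((inc h).le 77 78 rfl) (mono1 (hz h) (hpi h) ((inc h).le 37 77 rfl) ((inc h).le 78 79 rfl)) (le_of_jump (P10 h).2.2.1 (by ring)) <|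
  (nn_of_eq (P9 h).2.2.2.1 (by ring))

theorem okE3x (h : TbH K E p) : okD (E 52) (((E 2132) + ((E 24) * (E 116))) + ((E 670) * (E 52))) (TbE3x E) :=
  okD_R (F5 h).2.2.2.2.2.2.2.2.2.2.2.2.2.2.1 (F5 h).2.2.2.2.2.2.2.2.2.2.2.2.2.2.2.1 (F5 h).2.2.2.2.2.2.2.2.2.2.2.2.1 (F5 h).2.2.2.2.2.2.2.2.2.2.2.2.2.1 ((inc h).le 51 52 rfl) (mono1 (hz h) (hpi h) ((inc h).le 37 51 rfl) ((inc h).le 52 79 rfl)) le_rfl (P10 h).2.2.2.1 (P10 h).2.2.2.2.1 <|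
  (nn_of_eq (P10 h).2.2.2.2.2.1 (by linear_combination ((1)) * (V8 h).2.2.2.2.1 + ((E 51)) * (F40 h).2.2.2.2.2.2.2.2.1))

theorem amC0t (h : TbH K E p) : E 2133 = (((((E 50) - (E 49)) * (E 324)) + ((((E 50) - (E 49)) * (((((1 : ℤ) : ℝ) / ((2 : ℕ) : ℝ)) * ((E 49) + (E 50))) - (E 50))) * (E 323))) + (((E 49) - (E 48)) * (((E 49) - (E 48)) * (E 172)))) + ((((E 49) - (E 48)) * (((((1 : ℤ) : ℝ) / ((2 : ℕ) : ℝ)) * ((E 48) + (E 49))) - (E 49))) * (E 172)) := by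
  linear_combination (V8 h).2.2.2.2.2.1

theorem aqC0t (h : TbH K E p) : E 2135 = ((((((E 50) - (E 49)) * ((((1 : ℤ) : ℝ) / ((2 : ℕ) : ℝ)) * ((E 49) + (E 50)))) * (E 324)) + ((((E 50) - (E 49)) * (((((1 : ℤ) : ℝ) / ((3 : ℕ) : ℝ)) * (((((E 49) - (E 50)) * ((E 49) - (E 50))) + (((E 49) - (E 50)) * ((E 50) - (E 50)))) + (((E 50) - (E 50)) * ((E 50) - (E 50))))) + ((E 50) * (((((1 : ℤ) : ℝ) / ((2 : ℕ) : ℝ)) * ((E 49) + (E 50))) - (E 50))))) * (E 323))) + ((((E 49) - (E 48)) * ((((1 : ℤ) : ℝ) / ((2 : ℕ) : ℝ)) * ((E 48) + (E 49)))) * (((E 49) - (E 48)) * (E 172)))) + ((((E 49) - (E 48)) * (((((1 : ℤ) : ℝ) / ((3 : ℕ) : ℝ)) * (((((E 48) - (E 49)) * ((E 48) - (E 49))) + (((E 48) - (E 49)) * ((E 49) - (E 49)))) + (((E 49) - (E 49)) * ((E 49) - (E 49))))) + ((E 49) * (((((1 : ℤ) : ℝ) / ((2 : ℕ) : ℝ))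 * ((E 48) + (E 49))) - (E 49))))) * (E 172)) := by
  linear_combination (V8 h).2.2.2.2.2.2.2.1 + (V8 h).2.2.2.2.2.2.1 + E 264 * (V8 h).2.2.2.2.2.1

theorem amC0v (h : TbH K E p) : E 2136 = ((E 76) - (E 75)) * (E 311) := by
  linear_combination (V8 h).2.2.2.2.2.2.2.2.1

theorem aqC0v (h : TbH K E p) : E 2138 = (((E 76) - (E 75)) * ((((1 : ℤ) : ℝ) / ((2 : ℕ) : ℝ)) * ((E 75) + (E 76)))) * (E 311) := by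
  linear_combination (V8 h).2.2.2.2.2.2.2.2.2.2.1 + (V8 h).2.2.2.2.2.2.2.2.2.1 + E 262 * (V8 h).2.2.2.2.2.2.2.2.1

theorem amC0x (h : TbH K E p) : E 2139 = (E 24) * ((E 119) - (E 121)) := by
  linear_combination (V8 h).2.2.2.2.2.2.2.2.2.2.2.1

theorem aqC0x (h : TbH K E p) : E 2141 = (E 24) * (((E 120) - ((E 54) * (E 121))) - ((E 118) - ((E 53) * (E 119)))) := by
  linear_combination (V8 h).2.2.2.2.2.2.2.2.2.2.2.2.2.1 + (V8 h).2.2.2.2.2.2.2.2.2.2.2.2.1 + E 263 * (V8 h).2.2.2.2.2.2.2.2.2.2.2.1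

theorem amC1t (h : TbH K E p) : E 2142 = ((((E 47) - (E 46)) * (E 337)) + (((E 48) - (E 47)) * (E 336))) + (((E 49) - (E 48)) * (E 173)) := by
  linear_combination (V8 h).2.2.2.2.2.2.2.2.2.2.2.2.2.2.1

theorem aqC1t (h : TbH K E p) : E 2144 = (((((E 47) - (E 46)) * ((((1 : ℤ) : ℝ) / ((2 : ℕ) : ℝ)) * ((E 46) + (E 47)))) * (E 337)) + ((((E 48) - (E 47)) * ((((1 : ℤ) : ℝ) / ((2 : ℕ) : ℝ)) * ((E 47) + (E 48)))) * (E 336))) + ((((E 49) - (E 48)) * ((((1 : ℤ) : ℝ) / ((2 : ℕ) : ℝ)) * ((E 48) + (E 49)))) * (E 173)) := by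
  linear_combination (V9 h).1 + (V8 h).2.2.2.2.2.2.2.2.2.2.2.2.2.2.2.1 + E 267 * (V8 h).2.2.2.2.2.2.2.2.2.2.2.2.2.2.1

theorem amC1v (h : TbH K E p) : E 2145 = (((E 23) * ((E 161) - (E 165))) - ((((1 : ℤ) : ℝ) / ((2 : ℕ) : ℝ)) * (E 174))) - (((E 76) - (E 75)) * (E 311)) := by
  linear_combination (V9 h).2.1

theorem aqC1v (h : TbH K E p) : E 2147 = (((E 23) * (((E 164) - ((E 76) * (E 165))) - ((E 160) - ((E 74) * (E 161))))) - (((((1 : ℤ) : ℝ) / ((6 : ℕ) : ℝ)) * (((E 74) + (E 74)) + (E 75))) * (E 174))) - ((((E 76) - (E 75)) * ((((1 : ℤ) : ℝ) / ((2 : ℕ) : ℝ)) * ((E 75) + (E 76)))) * (E 311)) := by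
  linear_combination (V9 h).2.2.2.1 + (V9 h).2.2.1 + E 265 * (V9 h).2.1

theorem amC1x (h : TbH K E p) : E 2148 = ((E 24) * ((E 121) - (E 123))) - ((((1 : ℤ) : ℝ) / ((2 : ℕ) : ℝ)) * (E 174)) := by
  linear_combination (V9 h).2.2.2.2.1

theorem aqC1x (h : TbH K E p) : E 2150 = ((E 24) * (((E 122) - ((E 55) * (E 123))) - ((E 120) - ((E 54) * (E 121))))) - (((((1 : ℤ) : ℝ) / ((6 : ℕ) : ℝ)) * ((E 54) + ((E 55) + (E 55)))) * (E 174)) := by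
  linear_combination (V9 h).2.2.2.2.2.2.1 + (V9 h).2.2.2.2.2.1 + E 266 * (V9 h).2.2.2.2.1

theorem amD1t (h : TbH K E p) : E 2151 = ((E 45) - (E 44)) * (E 401) := by
  linear_combination (V9 h).2.2.2.2.2.2.2.1

theorem aqD1t (h : TbH K E p) : E 2153 = (((E 45) - (E 44)) * ((((1 : ℤ) : ℝ) / ((2 : ℕ) : ℝ)) * ((E 44) + (E 45)))) * (E 401) := by
  linear_combination (V9 h).2.2.2.2.2.2.2.2.2.1 + (V9 h).2.2.2.2.2.2.2.2.1 + E 270 * (V9 h).2.2.2.2.2.2.2.1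

theorem amD1v (h : TbH K E p) : E 2154 = ((((E 23) * ((E 157) - (E 161))) - ((((1 : ℤ) : ℝ) / ((2 : ℕ) : ℝ)) * (E 178))) - ((((1 : ℤ) : ℝ) / ((2 : ℕ) : ℝ)) * (E 399))) - (((E 74) - (E 73)) * (E 402)) := by
  linear_combination (V9 h).2.2.2.2.2.2.2.2.2.2.1

theorem aqD1v (h : TbH K E p) : E 2156 = ((((E 23) * (((E 160) - ((E 74) * (E 161))) - ((E 156) - ((E 72) * (E 157))))) - (((((1 : ℤ) : ℝ) / ((6 : ℕ) : ℝ)) * (((E 73) + (E 73)) + (E 74))) * (E 178))) - (((((1 : ℤ) : ℝ) / ((6 : ℕ) : ℝ)) * ((E 72) + ((E 73) + (E 73)))) * (E 399))) - ((((E 74) - (E 73)) * ((((1 : ℤ) : ℝ) / ((2 : ℕ) : ℝ)) * ((E 73) + (E 74)))) * (E 402)) := by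
  linear_combination (V9 h).2.2.2.2.2.2.2.2.2.2.2.2.1 + (V9 h).2.2.2.2.2.2.2.2.2.2.2.1 + E 268 * (V9 h).2.2.2.2.2.2.2.2.2.2.1

theorem amD1x (h : TbH K E p) : E 2157 = (((((E 24) * ((E 125) - (E 127))) + (((E 24) * (E 0)) * (((E 83) - (E 82)) * ((E 2000) + ((E 293) * ((((1 : ℤ) : ℝ) / ((2 : ℕ) : ℝ)) * ((E 82) + (E 83)))))))) + ((((E 24) * (E 0)) * ((E 83) - (E 82))) * (E 400))) + ((((E 24) * (E 0)) * (((E 83) - (E 82)) * (((((1 : ℤ) : ℝ) / ((2 : ℕ) : ℝ)) * ((E 82) + (E 83))) - (E 83)))) * (E 403))) - ((((1 : ℤ) : ℝ) / ((2 : ℕ) : ℝ)) * (E 399)) := by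
  linear_combination (V9 h).2.2.2.2.2.2.2.2.2.2.2.2.2.1 + (-1) * ((E 24) * (E 0)) * ((E 83) - (E 82)) * (rs34 h).vh

theorem aqD1x (h : TbH K E p) : E 2159 = (((((E 24) * (((E 126) - ((E 57) * (E 127))) - ((E 124) - ((E 56) * (E 125))))) - (((E 24) * (E 0)) * ((((E 83) - (E 82)) * (((E 2000) * ((((1 : ℤ) : ℝ) / ((2 : ℕ) : ℝ)) * ((E 82) + (E 83)))) + ((E 293) * ((((1 : ℤ) : ℝ) / ((3 : ℕ) : ℝ)) * ((((E 82) * (E 82)) + ((E 82) * (E 83))) + ((E 83) * (E 83))))))) - ((π + π) * (((E 83) - (E 82)) * ((E 2000) + ((E 293) * ((((1 : ℤ) : ℝ) / ((2 : ℕ) : ℝ)) * ((E 82) + (E 83)))))))))) - ((((E 24) * (E 0)) * ((((E 83) - (E 82)) * ((((1 : ℤ) : ℝ) / ((2 : ℕ) : ℝ)) * ((E 82) + (E 83)))) - ((π + π) * ((E 83) - (E 82))))) * (E 400))) - ((((E 24) * (E 0)) * ((((E 83) - (E 82)) * (((((1 : ℤ) : ℝ) / ((3 : ℕ)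 : ℝ)) * (((((E 82) - (E 83)) * ((E 82) - (E 83))) + (((E 82) - (E 83)) * ((E 83) - (E 83)))) + (((E 83) - (E 83)) * ((E 83) - (E 83))))) + ((E 83) * (((((1 : ℤ) : ℝ) / ((2 : ℕ) : ℝ)) * ((E 82) + (E 83))) - (E 83))))) - ((π + π) * (((E 83) - (E 82)) * (((((1 : ℤ) : ℝ) / ((2 : ℕ) : ℝ)) * ((E 82) + (E 83))) - (E 83)))))) * (E 403))) - (((((1 : ℤ) : ℝ) / ((6 : ℕ) : ℝ)) * (((E 56) + (E 56)) + (E 57))) * (E 399)) := by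
  linear_combination (V9 h).2.2.2.2.2.2.2.2.2.2.2.2.2.2.2.1 + (V9 h).2.2.2.2.2.2.2.2.2.2.2.2.2.2.1 + E 269 * (V9 h).2.2.2.2.2.2.2.2.2.2.2.2.2.1 + ((E 24) * (E 0)) * ((E 83) - (E 82)) * ((((1 : ℤ) : ℝ) / ((2 : ℕ) : ℝ)) * ((E 82) + (E 83)) - (π + π)) * (rs34 h).vh

theorem amD2t (h : TbH K E p) : E 2160 = ((((((1 : ℤ) : ℝ) / ((1 : ℕ) : ℝ)) * ((E 101) - (E 105))) - ((((1 : ℤ) : ℝ) / ((2 : ℕ) : ℝ)) * (E 178))) - (((E 45) - (E 44)) * (E 401))) - ((((1 : ℤ) : ℝ) / ((2 : ℕ) : ℝ)) * (E 399)) := by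
  linear_combination (V10 h).1

theorem aqD2t (h : TbH K E p) : E 2162 = ((((((1 : ℤ) : ℝ) / ((1 : ℕ) : ℝ)) * (((E 104) - ((E 46) * (E 105))) - ((E 100) - ((E 44) * (E 101))))) - (((((1 : ℤ) : ℝ) / ((6 : ℕ) : ℝ)) * (((E 45) + (E 45)) + (E 46))) * (E 178))) - ((((E 45) - (E 44)) * ((((1 : ℤ) : ℝ) / ((2 : ℕ) : ℝ)) * ((E 44) + (E 45)))) * (E 401))) - (((((1 : ℤ) : ℝ) / ((6 : ℕ) : ℝ)) * ((E 44) + ((E 45) + (E 45)))) * (E 399)) := by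
  linear_combination (V10 h).2.2.1 + (V10 h).2.1 + E 273 * (V10 h).1

theorem amD2v (h : TbH K E p) : E 2163 = ((E 74) - (E 73)) * (E 402) := by
  linear_combination (V10 h).2.2.2.1

theorem aqD2v (h : TbH K E p) : E 2165 = (((E 74) - (E 73)) * ((((1 : ℤ) : ℝ) / ((2 : ℕ) : ℝ)) * ((E 73) + (E 74)))) * (E 402) := by
  linear_combination (V10 h).2.2.2.2.2.1 + (V10 h).2.2.2.2.1 + E 271 * (V10 h).2.2.2.1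

theorem amD2x (h : TbH K E p) : E 2166 = ((((E 24) * ((E 123) - (E 125))) + (((E 24) * (E 0)) * (((E 84) - (E 83)) * ((E 2000) + ((E 293) * ((((1 : ℤ) : ℝ) / ((2 : ℕ) : ℝ)) * ((E 83) + (E 84)))))))) + ((((E 24) * (E 0)) * ((E 84) - (E 83))) * (E 400))) - ((((1 : ℤ) : ℝ) / ((2 : ℕ) : ℝ)) * (E 178)) := by
  linear_combination (V10 h).2.2.2.2.2.2.1 + (-1) * ((E 24) * (E 0)) * ((E 84) - (E 83)) * (rs34 h).vh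

theorem aqD2x (h : TbH K E p) : E 2168 = ((((E 24) * (((E 124) - ((E 56) * (E 125))) - ((E 122) - ((E 55) * (E 123))))) - (((((1 : ℤ) : ℝ) / ((6 : ℕ) : ℝ)) * ((E 55) + ((E 56) + (E 56)))) * (E 178))) - (((E 24) * (E 0)) * ((((E 84) - (E 83)) * (((E 2000) * ((((1 : ℤ) : ℝ) / ((2 : ℕ) : ℝ)) * ((E 83) + (E 84)))) + ((E 293) * ((((1 : ℤ) : ℝ) / ((3 : ℕ) : ℝ)) * ((((E 83) * (E 83)) + ((E 83) * (E 84))) + ((E 84) * (E 84))))))) - ((π + π) * (((E 84) - (E 83)) * ((E 2000) + ((E 293) * ((((1 : ℤ) : ℝ) / ((2 : ℕ) : ℝ)) * ((E 83) + (E 84)))))))))) - ((((E 24) * (E 0)) * ((((E 84) - (E 83)) * ((((1 : ℤ) : ℝ) / ((2 : ℕ) : ℝ)) * ((E 83) + (E 84)))) - ((π + π) * ((E 84) - (E 83))))) * (E 400)) := by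
  linear_combination (V10 h).2.2.2.2.2.2.2.2.1 + (V10 h).2.2.2.2.2.2.2.1 + E 272 * (V10 h).2.2.2.2.2.2.1 + ((E 24) * (E 0)) * ((E 84) - (E 83)) * ((((1 : ℤ) : ℝ) / ((2 : ℕ) : ℝ)) * ((E 83) + (E 84)) - (π + π)) * (rs34 h).vh

theorem amAt (h : TbH K E p) : E 2169 = (((((E 43) - (E 41)) * (E 426)) + (((E 41) - (E 38)) * (E 425))) + (((E 38) - (E 37)) * (E 427))) + (((E 37) - (E 36)) * (E 427)) := by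
  linear_combination (V10 h).2.2.2.2.2.2.2.2.2.1

theorem aqAt (h : TbH K E p) : E 2171 = ((((((E 43) - (E 41)) * ((((1 : ℤ) : ℝ) / ((2 : ℕ) : ℝ)) * ((E 41) + (E 43)))) * (E 426)) + ((((E 41) - (E 38)) * ((((1 : ℤ) : ℝ) / ((2 : ℕ) : ℝ)) * ((E 38) + (E 41)))) * (E 425))) + ((((E 38) - (E 37)) * ((((1 : ℤ) : ℝ) / ((2 : ℕ) : ℝ)) * ((E 37) + (E 38)))) * (E 427))) + ((((E 37) - (E 36)) * ((((1 : ℤ) : ℝ) / ((2 : ℕ) : ℝ)) * ((E 36) + (E 37)))) * (E 427)) := by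
  linear_combination (V10 h).2.2.2.2.2.2.2.2.2.2.2.1 + (V10 h).2.2.2.2.2.2.2.2.2.2.1 + E 276 * (V10 h).2.2.2.2.2.2.2.2.2.1

theorem amAv (h : TbH K E p) : E 2172 = ((((E 84) - (E 83)) * (E 400)) + (((E 83) - (E 82)) * (E 400))) + ((((E 83) - (E 82)) * (((((1 : ℤ) : ℝ) / ((2 : ℕ) : ℝ)) * ((E 82) + (E 83))) - (E 83))) * (E 403)) := by
  linear_combination (V10 h).2.2.2.2.2.2.2.2.2.2.2.2.1

theorem aqAv (h : TbH K E p) : E 2174 = (((((E 84) - (E 83)) * ((((1 : ℤ) : ℝ) / ((2 : ℕ) : ℝ)) * ((E 83) + (E 84)))) * (E 400)) + ((((E 83) - (E 82)) * ((((1 : ℤ) : ℝ) / ((2 : ℕ) : ℝ)) * ((E 82) + (E 83)))) * (E 400))) + ((((E 83) - (E 82)) * (((((1 : ℤ) : ℝ) / ((3 : ℕ) : ℝ)) * (((((E 82) - (E 83)) * ((E 82) - (E 83))) + (((E 82) - (E 83)) * ((E 83) - (E 83)))) + (((E 83) - (E 83)) * ((E 83) - (E 83))))) +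 ((E 83) * (((((1 : ℤ) : ℝ) / ((2 : ℕ) : ℝ)) * ((E 82) + (E 83))) - (E 83))))) * (E 403)) := by
  linear_combination (V10 h).2.2.2.2.2.2.2.2.2.2.2.2.2.2.1 + (V10 h).2.2.2.2.2.2.2.2.2.2.2.2.2.1 + E 274 * (V10 h).2.2.2.2.2.2.2.2.2.2.2.2.1

theorem amAx (h : TbH K E p) : E 2175 = (((((((((E 24) * ((E 105) - (E 113))) - ((((1 : ℤ) : ℝ) / ((2 : ℕ) : ℝ)) * (E 185))) - ((E 24) * ((((E 49) - (E 48)) * (((E 49) - (E 48)) * (E 172))) + ((((E 49) - (E 48)) * (((((1 : ℤ) : ℝ) / ((2 : ℕ) : ℝ)) * ((E 48) + (E 49))) - (E 49))) * (E 172))))) - ((E 24) * (((E 49) - (E 48)) * (E 173)))) - ((E 24) * ((((1 : ℤ) : ℝ) / ((2 : ℕ) : ℝ)) * (E 174)))) - (((E 24) * ((E 50) - (E 49))) * (E 324))) - (((E 24) * (((E 50) - (E 49)) * (((((1 : ℤ) : ℝ) / ((2 : ℕ) : ℝ)) * ((E 49) + (E 50))) - (E 50)))) * (E 323))) - (((E 24)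 * ((E 48) - (E 47))) * (E 336))) - (((E 24) * ((E 47) - (E 46))) * (E 337)) := by
  linear_combination (V10 h).2.2.2.2.2.2.2.2.2.2.2.2.2.2.2.1

theorem aqAx (h : TbH K E p) : E 2177 = (((((((((E 24) * (((E 112) - ((E 50) * (E 113))) - ((E 104) - ((E 46) * (E 105))))) - (((((1 : ℤ) : ℝ) / ((6 : ℕ) : ℝ)) * (((E 47) + (E 47)) + (E 50))) * (E 185))) - ((E 24) * (((((E 49) - (E 48)) * ((((1 : ℤ) : ℝ) / ((2 : ℕ) : ℝ)) * ((E 48) + (E 49)))) * (((E 49) - (E 48)) * (E 172))) + ((((E 49) - (E 48)) * (((((1 : ℤ) : ℝ) / ((3 : ℕ) : ℝ)) * (((((E 48) - (E 49)) * ((E 48) - (E 49))) + (((E 48) - (E 49)) * ((E 49) - (E 49)))) + (((E 49) - (E 49)) * ((E 49) - (E 49))))) + ((E 49) * (((((1 : ℤ) : ℝ) / ((2 : ℕ) : ℝ)) * ((E 48) + (E 49))) - (E 49))))) * (E 172))))) - ((E 24) * ((((E 49) - (E 48)) * ((((1 : ℤ) :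 ℝ) / ((2 : ℕ) : ℝ)) * ((E 48) + (E 49)))) * (E 173)))) - ((E 24) * (((((1 : ℤ) : ℝ) / ((6 : ℕ) : ℝ)) * (((E 46) + (E 46)) + (E 49))) * (E 174)))) - (((E 24) * (((E 50) - (E 49)) * ((((1 : ℤ) : ℝ) / ((2 : ℕ) : ℝ)) * ((E 49) + (E 50))))) * (E 324))) - (((E 24) * (((E 50) - (E 49)) * (((((1 : ℤ) : ℝ) / ((3 : ℕ) : ℝ)) * (((((E 49) - (E 50)) * ((E 49) - (E 50))) + (((E 49) - (E 50)) * ((E 50) - (E 50)))) + (((E 50) - (E 50)) * ((E 50) - (E 50))))) + ((E 50) * (((((1 : ℤ) : ℝ) / ((2 : ℕ) : ℝ)) * ((E 49) + (E 50))) - (E 50)))))) * (E 323))) - (((E 24) * (((E 48) - (E 47)) * ((((1 : ℤ) : ℝ) / ((2 : ℕ) : ℝ)) * ((E 47) + (E 48))))) * (E 336))) - (((E 24) * (((E 47) - (E 46)) * ((((1 : ℤ) : ℝ) / ((2 : ℕ) : ℝ)) * ((E 46) + (E 47))))) * (E 337)) := by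
  linear_combination (V11 h).2.1 + (V11 h).1 + E 275 * (V10 h).2.2.2.2.2.2.2.2.2.2.2.2.2.2.2.1

theorem amTt (h : TbH K E p) : E 2178 = ((((((((E 37) - (E 36)) * (E 431)) + (((E 37) - (E 36)) * (E 431))) + ((((1 : ℤ) : ℝ) / ((1 : ℕ) : ℝ)) * ((E 87) - (E 89)))) + (((E 37) - (E 36)) * ((E 2001) + ((E 295) * ((((1 : ℤ) : ℝ) / ((2 : ℕ) : ℝ)) * ((E 36) + (E 37))))))) + (((E 37) - (E 36)) * (E 427))) - (((E 38) - (E 37)) * ((E 2001) + ((E 295) * ((((1 : ℤ) : ℝ) / ((2 : ℕ) : ℝ)) * ((E 37) + (E 38))))))) - (((E 38) - (E 37)) * (E 427)) := by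
  linear_combination (V11 h).2.2.1 + (-1) * 1 * ((E 37) - (E 36)) * (rs33 h).vl + (1) * 1 * ((E 38) - (E 37)) * (rs33 h).vl

theorem aqTt (h : TbH K E p) : E 2180 = (((((((((E 37) - (E 36)) * ((((1 : ℤ) : ℝ) / ((2 : ℕ) : ℝ)) * ((E 36) + (E 37)))) * (E 431)) + ((((1 : ℤ) : ℝ) / ((1 : ℕ) : ℝ)) * (((E 88) - ((E 38) * (E 89))) - ((E 86) - ((E 37) * (E 87)))))) - ((((E 37) - (E 36)) * ((((1 : ℤ) : ℝ) / ((2 : ℕ) : ℝ)) * ((E 36) + (E 37)))) * (E 431))) - (((E 37) - (E 36)) * (((E 2001) * ((((1 : ℤ) : ℝ) / ((2 : ℕ) : ℝ)) * ((E 36) + (E 37)))) + ((E 295) * ((((1 : ℤ) : ℝ) / ((3 : ℕ) : ℝ)) * ((((E 36) * (E 36)) + ((E 36) * (E 37))) + ((E 37) * (E 37)))))))) - (((E 38) - (E 37)) * (((E 2001) * ((((1 : ℤ) : ℝ) / ((2 : ℕ) : ℝ)) * ((E 37) + (E 38)))) + ((E 295) * ((((1 : ℤ) : ℝ) / ((3 : ℕ) : ℝ)) * ((((E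 37) * (E 37)) + ((E 37) * (E 38))) + ((E 38) * (E 38)))))))) - ((((E 38) - (E 37)) * ((((1 : ℤ) : ℝ) / ((2 : ℕ) : ℝ)) * ((E 37) + (E 38)))) * (E 427))) - ((((E 37) - (E 36)) * ((((1 : ℤ) : ℝ) / ((2 : ℕ) : ℝ)) * ((E 36) + (E 37)))) * (E 427)) := by
  linear_combination (V11 h).2.2.2.2.1 + (V11 h).2.2.2.1 + E 279 * (V11 h).2.2.1 + 1 * ((E 37) - (E 36)) * ((((1 : ℤ) : ℝ) / ((2 : ℕ) : ℝ)) * ((E 36) + (E 37))) * (rs33 h).vl + 1 * ((E 38) - (E 37)) * ((((1 : ℤ) : ℝ) / ((2 : ℕ) : ℝ)) * ((E 37) + (E 38))) * (rs33 h).vl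

theorem amTv (h : TbH K E p) : E 2181 = ((((E 72) - (E 71)) * (E 444)) + ((((E 71) - (E 70)) * ((E 71) - (E 70))) * (E 443))) + ((((E 71) - (E 70)) * (((((1 : ℤ) : ℝ) / ((2 : ℕ) : ℝ)) * ((E 70) + (E 71))) - (E 71))) * (E 443)) := by
  linear_combination (V11 h).2.2.2.2.2.1

theorem aqTv (h : TbH K E p) : E 2183 = (((((E 72) - (E 71)) * ((((1 : ℤ) : ℝ) / ((2 : ℕ) : ℝ)) * ((E 71) + (E 72)))) * (E 444)) + (((((E 71) - (E 70)) * ((((1 : ℤ) : ℝ) / ((2 : ℕ) : ℝ)) * ((E 70) + (E 71)))) * ((E 71) - (E 70))) * (E 443))) + ((((E 71) - (E 70)) * (((((1 : ℤ) : ℝ) / ((3 : ℕ) : ℝ)) * (((((E 70) - (E 71)) * ((E 70) - (E 71))) + (((E 70) - (E 71)) * ((E 71) - (E 71)))) + (((E 71) - (E 71)) * ((E 71) - (E 71))))) + ((E 71) * (((((1 : ℤ) : ℝ) / ((2 : ℕ) : ℝ)) * ((E 70) + (E 71))) - (E 71))))) * (E 443)) :=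 by
  linear_combination (V11 h).2.2.2.2.2.2.2.1 + (V11 h).2.2.2.2.2.2.1 + E 277 * (V11 h).2.2.2.2.2.1

theorem amTx (h : TbH K E p) : E 2184 = (((((((E 24) * ((E 143) - (E 149))) - (((E 68) - (E 65)) * ((E 2002) + ((E 297) * ((((1 : ℤ) : ℝ) / ((2 : ℕ) : ℝ)) * ((E 65) + (E 68))))))) - (((E 68) - (E 65)) * ((E 2003) + ((E 299) * ((((1 : ℤ) : ℝ) / ((2 : ℕ) : ℝ)) * ((E 65) + (E 68))))))) - (((E 67) - (E 65)) * ((E 2004) + ((E 301) * ((((1 : ℤ) : ℝ) / ((2 : ℕ) : ℝ)) * ((E 65) + (E 67))))))) - (((E 66) - (E 65)) * ((E 2005) + ((E 303) * ((((1 : ℤ) : ℝ) / ((2 : ℕ) : ℝ)) * ((E 65) + (E 66))))))) - (((E 66) - (E 65)) * ((E 2006) + ((E 305) * ((((1 : ℤ) : ℝ) / ((2 : ℕ) : ℝ)) * ((E 65) + (E 66))))))) - (((E 66) - (E 65)) * ((E 2007) + ((E 307) * ((((1 : ℤ) : ℝ) / ((2 : ℕ) : ℝ)) * ((E 65) + (E 66))))))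 := by
  linear_combination (V11 h).2.2.2.2.2.2.2.2.1 + (1) * 1 * ((E 68) - (E 65)) * (rs89 h).vh + (1) * 1 * ((E 68) - (E 65)) * (rs95 h).vh + (1) * 1 * ((E 67) - (E 65)) * (rs107 h).vh + (1) * 1 * ((E 66) - (E 65)) * (rs65 h).vl + (1) * 1 * ((E 66) - (E 65)) * (rs101 h).vh + (1) * 1 * ((E 66) - (E 65)) * (rs104 h).vh

theorem aqTx (h : TbH K E p) : E 2186 = (((((((E 24) * (((E 148) - ((E 68) * (E 149))) - ((E 142) - ((E 65) * (E 143))))) - (((E 68) - (E 65)) * (((E 2002) * ((((1 : ℤ) : ℝ) / ((2 : ℕ) : ℝ)) * ((E 65) + (E 68)))) + ((E 297) * ((((1 : ℤ) : ℝ) / ((3 : ℕ) : ℝ)) * ((((E 65) * (E 65)) + ((E 65) * (E 68))) + ((E 68) * (E 68)))))))) - (((E 68) - (E 65)) * (((E 2003) * ((((1 : ℤ) : ℝ) / ((2 : ℕ) : ℝ)) * ((E 65) + (E 68)))) + ((E 299) * ((((1 : ℤ) : ℝ) / ((3 : ℕ) : ℝ)) * ((((E 65) * (E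 65)) + ((E 65) * (E 68))) + ((E 68) * (E 68)))))))) - (((E 67) - (E 65)) * (((E 2004) * ((((1 : ℤ) : ℝ) / ((2 : ℕ) : ℝ)) * ((E 65) + (E 67)))) + ((E 301) * ((((1 : ℤ) : ℝ) / ((3 : ℕ) : ℝ)) * ((((E 65) * (E 65)) + ((E 65) * (E 67))) + ((E 67) * (E 67)))))))) - (((E 66) - (E 65)) * (((E 2005) * ((((1 : ℤ) : ℝ) / ((2 : ℕ) : ℝ)) * ((E 65) + (E 66)))) + ((E 303) * ((((1 : ℤ) : ℝ) / ((3 : ℕ) : ℝ)) * ((((E 65) * (E 65)) + ((E 65) * (E 66))) + ((E 66) * (E 66)))))))) - (((E 66) - (E 65)) * (((E 2006) * ((((1 : ℤ) : ℝ) / ((2 : ℕ) : ℝ)) * ((E 65) + (E 66)))) + ((E 305) * ((((1 : ℤ) : ℝ) / ((3 : ℕ) : ℝ)) * ((((E 65) * (E 65)) + ((E 65) * (E 66))) + ((E 66) * (E 66)))))))) - (((E 66) - (E 65)) * (((E 2007) * ((((1 : ℤ) : ℝ) / ((2 : ℕ) : ℝ)) * ((E 65) + (E 66)))) + ((E 307) * ((((1 : ℤ) : ℝ) / ((3 : ℕ)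 : ℝ)) * ((((E 65) * (E 65)) + ((E 65) * (E 66))) + ((E 66) * (E 66))))))) := by
  linear_combination (V11 h).2.2.2.2.2.2.2.2.2.2.1 + (V11 h).2.2.2.2.2.2.2.2.2.1 + E 278 * (V11 h).2.2.2.2.2.2.2.2.1 + 1 * ((E 68) - (E 65)) * ((((1 : ℤ) : ℝ) / ((2 : ℕ) : ℝ)) * ((E 65) + (E 68))) * (rs89 h).vh + 1 * ((E 68) - (E 65)) * ((((1 : ℤ) : ℝ) / ((2 : ℕ) : ℝ)) * ((E 65) + (E 68))) * (rs95 h).vh + 1 * ((E 67) - (E 65)) * ((((1 : ℤ) : ℝ) / ((2 : ℕ) : ℝ)) * ((E 65) + (E 67))) * (rs107 h).vh + 1 * ((E 66) - (E 65)) * ((((1 : ℤ) : ℝ) / ((2 : ℕ) : ℝ)) * ((E 65) + (E 66))) * (rs65 h).vl + 1 * ((E 66) - (E 65)) * ((((1 : ℤ) : ℝ) / ((2 : ℕ) : ℝ)) * ((E 65) + (E 66))) * (rs101 h).vh + 1 * ((E 66) - (E 65)) * ((((1 : ℤ) : ℝ) / ((2 : ℕ) : ℝ)) * ((E 65) + (E 66))) * (rs104 h).vh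

theorem amBt (h : TbH K E p) : E 2187 = ((((((((((((((((((((((((((((((1 : ℤ) : ℝ) / ((1 : ℕ) : ℝ)) * ((E 89) - (E 101))) - ((((1 : ℤ) : ℝ) / ((2 : ℕ) : ℝ)) * (E 189))) - ((((1 : ℤ) : ℝ) / ((2 : ℕ) : ℝ)) * ((E 194) + (E 193)))) - ((((1 : ℤ) : ℝ) / ((2 : ℕ) : ℝ)) * (E 197))) - ((((1 : ℤ) : ℝ) / ((2 : ℕ) : ℝ)) * (E 200))) - ((((1 : ℤ) : ℝ) / ((2 : ℕ) : ℝ)) * ((E 203) + (E 202)))) - ((((1 : ℤ) : ℝ) / ((2 : ℕ) : ℝ)) * (E 205))) - (((E 43) - (E 38)) * ((E 2001) + ((E 295) * ((((1 : ℤ) : ℝ) / ((2 : ℕ) : ℝ)) * ((E 38) + (E 43))))))) - ((((1 : ℤ) : ℝ) / ((2 : ℕ) : ℝ)) * (E 208))) - ((((1 : ℤ) : ℝ) / ((2 : ℕ) : ℝ)) * (E 212))) - ((((1 : ℤ) : ℝ) / ((2 : ℕ) : ℝ)) * (E 224))) - ((((1 : ℤ) : ℝ) / ((2 : ℕ) : ℝ)) * ((E 232) + (E 231)))) - ((((1 : ℤ) : ℝ) / ((2 : ℕ) : ℝ)) * (E 236))) - ((((1 : ℤ) : ℝ) / ((2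 : ℕ) : ℝ)) * ((E 216) + (E 215)))) - ((((1 : ℤ) : ℝ) / ((2 : ℕ) : ℝ)) * (E 219))) - ((((1 : ℤ) : ℝ) / ((2 : ℕ) : ℝ)) * (E 222))) - ((((1 : ℤ) : ℝ) / ((2 : ℕ) : ℝ)) * (E 226))) - ((((1 : ℤ) : ℝ) / ((2 : ℕ) : ℝ)) * (E 238))) - ((((1 : ℤ) : ℝ) / ((2 : ℕ) : ℝ)) * (E 243))) - ((((1 : ℤ) : ℝ) / ((2 : ℕ) : ℝ)) * (E 228))) - ((((1 : ℤ) : ℝ) / ((2 : ℕ) : ℝ)) * (E 240))) - ((((1 : ℤ) : ℝ) / ((2 : ℕ) : ℝ)) * ((E 248) + (E 247)))) - ((((1 : ℤ) : ℝ) / ((2 : ℕ) : ℝ)) * (E 250))) - ((((1 : ℤ) : ℝ) / ((2 : ℕ) : ℝ)) * (E 244))) - ((((1 : ℤ) : ℝ) / ((2 : ℕ) : ℝ)) * ((E 253) + (E 252)))) - ((((1 : ℤ) : ℝ) / ((2 : ℕ) : ℝ)) * (E 255))) - (((E 43) - (E 41)) * (E 426))) - (((E 41) - (E 38)) * (E 425)) := by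
  linear_combination (V11 h).2.2.2.2.2.2.2.2.2.2.2.1 + (1) * 1 * ((E 43) - (E 38)) * (rs33 h).vl

theorem aqBt (h : TbH K E p) : E 2189 = ((((((((((((((((((((((((((((((((((((1 : ℤ) : ℝ) / ((1 : ℕ) : ℝ)) * (((E 100) - ((E 44) * (E 101))) - ((E 88) - ((E 38) * (E 89))))) - (((((1 : ℤ) : ℝ) / ((6 : ℕ) : ℝ)) * (((E 43) + (E 43)) + (E 44))) * (E 189))) - (((((1 : ℤ) : ℝ) / ((6 : ℕ) : ℝ)) * (((E 43) + (E 43)) + (E 44))) * (E 194))) - (((((1 : ℤ) : ℝ) / ((6 : ℕ) : ℝ)) * ((E 43) + ((E 44) + (E 44)))) * (E 193))) - (((((1 : ℤ) : ℝ) / ((6 : ℕ) : ℝ)) * (((E 42) + (E 42)) + (E 44))) * (E 197))) - (((((1 : ℤ) : ℝ) / ((6 : ℕ) : ℝ)) * ((E 43) + ((E 44) + (E 44)))) * (E 200))) - (((((1 : ℤ) : ℝ) / ((6 : ℕ) : ℝ)) * (((E 42) + (E 42)) + (E 44))) * (E 203))) - (((((1 : ℤ) : ℝ) / ((6 : ℕ) : ℝ)) * ((E 42) + ((E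 44) + (E 44)))) * (E 202))) - (((((1 : ℤ) : ℝ) / ((6 : ℕ) : ℝ)) * (((E 41) + (E 41)) + (E 44))) * (E 205))) - (((E 43) - (E 38)) * (((E 2001) * ((((1 : ℤ) : ℝ) / ((2 : ℕ) : ℝ)) * ((E 38) + (E 43)))) + ((E 295) * ((((1 : ℤ) : ℝ) / ((3 : ℕ) : ℝ)) * ((((E 38) * (E 38)) + ((E 38) * (E 43))) + ((E 43) * (E 43)))))))) - (((((1 : ℤ) : ℝ) / ((6 : ℕ) : ℝ)) * (((E 42) + (E 42)) + (E 43))) * (E 208))) - (((((1 : ℤ) : ℝ) / ((6 : ℕ) : ℝ)) * ((E 42) + ((E 43) + (E 43)))) * (E 212))) - (((((1 : ℤ) : ℝ) / ((6 : ℕ) : ℝ)) * ((E 40) + ((E 43) + (E 43)))) * (E 224))) - (((((1 : ℤ) : ℝ) / ((6 : ℕ) : ℝ)) * (((E 41) + (E 41)) + (E 43))) * (E 232))) - (((((1 : ℤ) : ℝ) / ((6 : ℕ) : ℝ)) * ((E 41) + ((E 43) + (E 43)))) * (E 231))) - (((((1 : ℤ) : ℝ) / ((6 : ℕ) : ℝ)) * (((E 40) + (E 40)) + (E 43))) * (E 236))) - (((((1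 : ℤ) : ℝ) / ((6 : ℕ) : ℝ)) * (((E 41) + (E 41)) + (E 42))) * (E 216))) - (((((1 : ℤ) : ℝ) / ((6 : ℕ) : ℝ)) * ((E 41) + ((E 42) + (E 42)))) * (E 215))) - (((((1 : ℤ) : ℝ) / ((6 : ℕ) : ℝ)) * (((E 39) + (E 39)) + (E 42))) * (E 219))) - (((((1 : ℤ) : ℝ) / ((6 : ℕ) : ℝ)) * ((E 41) + ((E 42) + (E 42)))) * (E 222))) - (((((1 : ℤ) : ℝ) / ((6 : ℕ) : ℝ)) * ((E 40) + ((E 42) + (E 42)))) * (E 226))) - (((((1 : ℤ) : ℝ) / ((6 : ℕ) : ℝ)) * (((E 40) + (E 40)) + (E 42))) * (E 238))) - (((((1 : ℤ) : ℝ) / ((6 : ℕ) : ℝ)) * ((E 40) + ((E 42) + (E 42)))) * (E 243))) - (((((1 : ℤ) : ℝ) / ((6 : ℕ) : ℝ)) * ((E 40) + ((E 41) + (E 41)))) * (E 228))) - (((((1 : ℤ) : ℝ) / ((6 : ℕ) : ℝ)) * ((E 39) + ((E 41) + (E 41)))) * (E 240))) - (((((1 : ℤ) : ℝ) / ((6 : ℕ) : ℝ)) * (((E 39) + (E 39)) + (E 41))) * (E 248))) - (((((1 :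 ℤ) : ℝ) / ((6 : ℕ) : ℝ)) * ((E 39) + ((E 41) + (E 41)))) * (E 247))) - (((((1 : ℤ) : ℝ) / ((6 : ℕ) : ℝ)) * ((E 39) + ((E 41) + (E 41)))) * (E 250))) - (((((1 : ℤ) : ℝ) / ((6 : ℕ) : ℝ)) * ((E 39) + ((E 40) + (E 40)))) * (E 244))) - (((((1 : ℤ) : ℝ) / ((6 : ℕ) : ℝ)) * (((E 39) + (E 39)) + (E 40))) * (E 253))) - (((((1 : ℤ) : ℝ) / ((6 : ℕ) : ℝ)) * ((E 39) + ((E 40) + (E 40)))) * (E 252))) - (((((1 : ℤ) : ℝ) / ((6 : ℕ) : ℝ)) * ((E 38) + ((E 39) + (E 39)))) * (E 255))) - ((((E 43) - (E 41)) * ((((1 : ℤ) : ℝ) / ((2 : ℕ) : ℝ)) * ((E 41) + (E 43)))) * (E 426))) - ((((E 41) - (E 38)) * ((((1 : ℤ) : ℝ) / ((2 : ℕ) : ℝ)) * ((E 38) + (E 41)))) * (E 425)) := by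
  linear_combination (V11 h).2.2.2.2.2.2.2.2.2.2.2.2.2.1 + (V11 h).2.2.2.2.2.2.2.2.2.2.2.2.1 + E 282 * (V11 h).2.2.2.2.2.2.2.2.2.2.2.1 + 1 * ((E 43) - (E 38)) * ((((1 : ℤ) : ℝ) / ((2 : ℕ) : ℝ)) * ((E 38) + (E 43))) * (rs33 h).vl

theorem amBv (h : TbH K E p) : E 2190 = ((((((((((((((((((((((((((((E 23) * ((E 149) - (E 157))) - ((((1 : ℤ) : ℝ) / ((2 : ℕ) : ℝ)) * (E 189))) - ((((1 : ℤ) : ℝ) / ((2 : ℕ) : ℝ)) * ((E 194) + (E 193)))) - ((((1 : ℤ) : ℝ) / ((2 : ℕ) : ℝ)) * (E 197))) - ((((1 : ℤ) : ℝ) / ((2 : ℕ) : ℝ)) * (E 200))) - ((((1 : ℤ) : ℝ) / ((2 : ℕ) : ℝ)) * ((E 203) + (E 202)))) - ((((1 : ℤ) : ℝ) / ((2 : ℕ) : ℝ)) * (E 205))) - ((((1 : ℤ) : ℝ) / ((2 : ℕ) : ℝ)) * (E 208))) - ((((1 : ℤ) : ℝ) / ((2 : ℕ) : ℝ)) * (E 212))) - ((((1 : ℤ) : ℝ) / ((2 : ℕ) : ℝ)) * ((E 216) + (E 215)))) - ((((1 : ℤ) :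 ℝ) / ((2 : ℕ) : ℝ)) * (E 219))) - ((((1 : ℤ) : ℝ) / ((2 : ℕ) : ℝ)) * (E 222))) - ((((1 : ℤ) : ℝ) / ((2 : ℕ) : ℝ)) * (E 224))) - ((((1 : ℤ) : ℝ) / ((2 : ℕ) : ℝ)) * (E 226))) - ((((1 : ℤ) : ℝ) / ((2 : ℕ) : ℝ)) * (E 228))) - ((((1 : ℤ) : ℝ) / ((2 : ℕ) : ℝ)) * ((E 247) + (E 248)))) - ((((1 : ℤ) : ℝ) / ((2 : ℕ) : ℝ)) * (E 255))) - ((((1 : ℤ) : ℝ) / ((2 : ℕ) : ℝ)) * ((E 232) + (E 231)))) - ((((1 : ℤ) : ℝ) / ((2 : ℕ) : ℝ)) * (E 236))) - ((((1 : ℤ) : ℝ) / ((2 : ℕ) : ℝ)) * (E 238))) - ((((1 : ℤ) : ℝ) / ((2 : ℕ) : ℝ)) * (E 240))) - ((((1 : ℤ) : ℝ) / ((2 : ℕ) : ℝ)) * (E 243))) - ((((1 : ℤ) : ℝ) / ((2 : ℕ) : ℝ)) * (E 244))) - ((((1 : ℤ) : ℝ) / ((2 : ℕ) : ℝ)) * (E 250))) - ((((1 : ℤ) : ℝ) / ((2 : ℕ) : ℝ)) * ((E 252) + (E 253)))) - (((E 72) - (E 71)) * (E 444))) - ((((E 71) - (E 70)) * ((E 71) - (E 70)))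 * (E 443))) - ((((E 71) - (E 70)) * (((((1 : ℤ) : ℝ) / ((2 : ℕ) : ℝ)) * ((E 70) + (E 71))) - (E 71))) * (E 443)) := by
  linear_combination (V11 h).2.2.2.2.2.2.2.2.2.2.2.2.2.2.1

theorem aqBv (h : TbH K E p) : E 2192 = ((((((((((((((((((((((((((((((((((E 23) * (((E 156) - ((E 72) * (E 157))) - ((E 148) - ((E 68) * (E 149))))) - (((((1 : ℤ) : ℝ) / ((6 : ℕ) : ℝ)) * (((E 71) + (E 71)) + (E 72))) * (E 189))) - (((((1 : ℤ) : ℝ) / ((6 : ℕ) : ℝ)) * (((E 69) + (E 69)) + (E 72))) * (E 194))) - (((((1 : ℤ) : ℝ) / ((6 : ℕ) : ℝ)) * ((E 69) + ((E 72) + (E 72)))) * (E 193))) - (((((1 : ℤ) : ℝ) / ((6 : ℕ) : ℝ)) * (((E 69) + (E 69)) + (E 72))) * (E 197))) - (((((1 : ℤ) : ℝ) / ((6 : ℕ) : ℝ)) * ((E 68) + ((E 72) + (E 72)))) * (E 200))) - (((((1 : ℤ) : ℝ) / ((6 : ℕ) : ℝ)) * (((E 68) + (E 68)) + (E 72))) * (E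 203))) - (((((1 : ℤ) : ℝ) / ((6 : ℕ) : ℝ)) * ((E 68) + ((E 72) + (E 72)))) * (E 202))) - (((((1 : ℤ) : ℝ) / ((6 : ℕ) : ℝ)) * (((E 68) + (E 68)) + (E 72))) * (E 205))) - (((((1 : ℤ) : ℝ) / ((6 : ℕ) : ℝ)) * (((E 69) + (E 69)) + (E 71))) * (E 208))) - (((((1 : ℤ) : ℝ) / ((6 : ℕ) : ℝ)) * ((E 68) + ((E 71) + (E 71)))) * (E 212))) - (((((1 : ℤ) : ℝ) / ((6 : ℕ) : ℝ)) * (((E 69) + (E 69)) + (E 71))) * (E 216))) - (((((1 : ℤ) : ℝ) / ((6 : ℕ) : ℝ)) * ((E 69) + ((E 71) + (E 71)))) * (E 215))) - (((((1 : ℤ) : ℝ) / ((6 : ℕ) : ℝ)) * (((E 69) + (E 69)) + (E 71))) * (E 219))) - (((((1 : ℤ) : ℝ) / ((6 : ℕ) : ℝ)) * (((E 68) + (E 68)) + (E 71))) * (E 222))) - (((((1 : ℤ) : ℝ) / ((6 : ℕ) : ℝ)) * (((E 69) + (E 69)) + (E 71))) * (E 224))) - (((((1 : ℤ) : ℝ) / ((6 : ℕ) : ℝ)) * (((E 69) + (E 69)) + (E 71))) * (E 226)))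 - (((((1 : ℤ) : ℝ) / ((6 : ℕ) : ℝ)) * (((E 68) + (E 68)) + (E 71))) * (E 228))) - (((((1 : ℤ) : ℝ) / ((6 : ℕ) : ℝ)) * (((E 68) + (E 68)) + (E 71))) * (E 247))) - (((((1 : ℤ) : ℝ) / ((6 : ℕ) : ℝ)) * ((E 68) + ((E 71) + (E 71)))) * (E 248))) - (((((1 : ℤ) : ℝ) / ((6 : ℕ) : ℝ)) * ((E 70) + ((E 71) + (E 71)))) * (E 255))) - (((((1 : ℤ) : ℝ) / ((6 : ℕ) : ℝ)) * (((E 68) + (E 68)) + (E 69))) * (E 232))) - (((((1 : ℤ) : ℝ) / ((6 : ℕ) : ℝ)) * ((E 68) + ((E 69) + (E 69)))) * (E 231))) - (((((1 : ℤ) : ℝ) / ((6 : ℕ) : ℝ)) * (((E 68) + (E 68)) + (E 69))) * (E 236))) - (((((1 : ℤ) : ℝ) / ((6 : ℕ) : ℝ)) * (((E 68) + (E 68)) + (E 69))) * (E 238))) - (((((1 : ℤ) : ℝ) / ((6 : ℕ) : ℝ)) * ((E 68) + ((E 69) + (E 69)))) * (E 240))) - (((((1 : ℤ) : ℝ) / ((6 : ℕ) : ℝ)) * (((E 68) + (E 68)) + (E 69))) * (E 243))) -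 (((((1 : ℤ) : ℝ) / ((6 : ℕ) : ℝ)) * ((E 68) + ((E 69) + (E 69)))) * (E 244))) - (((((1 : ℤ) : ℝ) / ((6 : ℕ) : ℝ)) * (((E 68) + (E 68)) + (E 69))) * (E 250))) - (((((1 : ℤ) : ℝ) / ((6 : ℕ) : ℝ)) * (((E 68) + (E 68)) + (E 69))) * (E 252))) - (((((1 : ℤ) : ℝ) / ((6 : ℕ) : ℝ)) * ((E 68) + ((E 69) + (E 69)))) * (E 253))) - ((((E 72) - (E 71)) * ((((1 : ℤ) : ℝ) / ((2 : ℕ) : ℝ)) * ((E 71) + (E 72)))) * (E 444))) - (((((E 71) - (E 70)) * ((((1 : ℤ) : ℝ) / ((2 : ℕ) : ℝ)) * ((E 70) + (E 71)))) * ((E 71) - (E 70))) * (E 443))) - ((((E 71) - (E 70)) * (((((1 : ℤ) : ℝ) / ((3 : ℕ) : ℝ)) * (((((E 70) - (E 71)) * ((E 70) - (E 71))) + (((E 70) - (E 71)) * ((E 71) - (E 71)))) + (((E 71) - (E 71)) * ((E 71) - (E 71))))) + ((E 71) * (((((1 : ℤ) : ℝ) / ((2 : ℕ) : ℝ)) * ((E 70) + (E 71))) - (E 71))))) * (E 443))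 := by
  linear_combination (V12 h).1 + (V11 h).2.2.2.2.2.2.2.2.2.2.2.2.2.2.2.1 + E 280 * (V11 h).2.2.2.2.2.2.2.2.2.2.2.2.2.2.1

theorem amBx (h : TbH K E p) : E 2193 = (((((((((((((((((((((((((E 24) * ((E 127) - (E 143))) - (((E 65) - (E 59)) * ((E 2005) + ((E 303) * ((((1 : ℤ) : ℝ) / ((2 : ℕ) : ℝ)) * ((E 59) + (E 65))))))) - (((E 65) - (E 61)) * ((E 2002) + ((E 297) * ((((1 : ℤ) : ℝ) / ((2 : ℕ) : ℝ)) * ((E 61) + (E 65))))))) - (((E 65) - (E 62)) * ((E 2003) + ((E 299) * ((((1 : ℤ) : ℝ) / ((2 : ℕ) : ℝ)) * ((E 62) + (E 65))))))) - (((E 65) - (E 62)) * ((E 2006) + ((E 305) * ((((1 : ℤ) : ℝ) / ((2 : ℕ) : ℝ)) * ((E 62) + (E 65))))))) - (((E 65) - (E 64)) * ((E 2007) + ((E 307) * ((((1 : ℤ) : ℝ) / ((2 : ℕ) : ℝ)) * ((E 64) + (E 65))))))) - (((E 65) - (E 63)) * ((E 2004) + ((E 301) * ((((1 : ℤ) :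 ℝ) / ((2 : ℕ) : ℝ)) * ((E 63) + (E 65))))))) - ((((1 : ℤ) : ℝ) / ((2 : ℕ) : ℝ)) * (E 236))) - ((((1 : ℤ) : ℝ) / ((2 : ℕ) : ℝ)) * (E 238))) - ((((1 : ℤ) : ℝ) / ((2 : ℕ) : ℝ)) * ((E 247) + (E 248)))) - ((((1 : ℤ) : ℝ) / ((2 : ℕ) : ℝ)) * (E 205))) - ((((1 : ℤ) : ℝ) / ((2 : ℕ) : ℝ)) * (E 228))) - ((((1 : ℤ) : ℝ) / ((2 : ℕ) : ℝ)) * ((E 231) + (E 232)))) - ((((1 : ℤ) : ℝ) / ((2 : ℕ) : ℝ)) * (E 243))) - ((((1 : ℤ) : ℝ) / ((2 : ℕ) : ℝ)) * ((E 202) + (E 203)))) - ((((1 : ℤ) : ℝ) / ((2 : ℕ) : ℝ)) * (E 212))) - ((((1 : ℤ) : ℝ) / ((2 : ℕ) : ℝ)) * ((E 215) + (E 216)))) - ((((1 : ℤ) : ℝ) / ((2 : ℕ) : ℝ)) * (E 222))) - ((((1 : ℤ) : ℝ) / ((2 : ℕ) : ℝ)) * (E 224))) - ((((1 : ℤ) : ℝ) / ((2 : ℕ) : ℝ)) * (E 226))) - ((((1 : ℤ) : ℝ) / ((2 : ℕ) : ℝ)) * (E 197))) - ((((1 : ℤ) : ℝ) / ((2 : ℕ) : ℝ)) * (E 200))) - ((((1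 : ℤ) : ℝ) / ((2 : ℕ) : ℝ)) * (E 208))) - ((((1 : ℤ) : ℝ) / ((2 : ℕ) : ℝ)) * ((E 193) + (E 194)))) - ((((1 : ℤ) : ℝ) / ((2 : ℕ) : ℝ)) * (E 189)) := by
  linear_combination (V12 h).2.1 + (1) * 1 * ((E 65) - (E 59)) * (rs65 h).vl + (1) * 1 * ((E 65) - (E 61)) * (rs89 h).vh + (1) * 1 * ((E 65) - (E 62)) * (rs95 h).vh + (1) * 1 * ((E 65) - (E 62)) * (rs101 h).vh + (1) * 1 * ((E 65) - (E 64)) * (rs104 h).vl + (1) * 1 * ((E 65) - (E 63)) * (rs107 h).vh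

theorem aqBx (h : TbH K E p) : E 2195 = ((((((((((((((((((((((((((((((E 24) * (((E 142) - ((E 65) * (E 143))) - ((E 126) - ((E 57) * (E 127))))) - (((E 65) - (E 59)) * (((E 2005) * ((((1 : ℤ) : ℝ) / ((2 : ℕ) : ℝ)) * ((E 59) + (E 65)))) + ((E 303) * ((((1 : ℤ) : ℝ) / ((3 : ℕ) : ℝ)) * ((((E 59) * (E 59)) + ((E 59) * (E 65))) + ((E 65) * (E 65)))))))) - (((E 65) - (E 61)) * (((E 2002) * ((((1 : ℤ) : ℝ) / ((2 : ℕ) : ℝ)) * ((E 61) + (E 65)))) + ((E 297) * ((((1 : ℤ) : ℝ) / ((3 : ℕ) : ℝ)) * ((((E 61) * (E 61)) + ((E 61) * (E 65))) + ((E 65) * (E 65)))))))) - (((E 65) - (E 62)) * (((E 2003) * ((((1 : ℤ) : ℝ) / ((2 : ℕ) : ℝ)) * ((E 62) + (E 65)))) + ((E 299) * ((((1 : ℤ) : ℝ) / ((3 : ℕ) : ℝ)) * ((((E 62) * (E 62)) + ((E 62) * (E 65))) + ((E 65) * (E 65)))))))) - (((E 65) - (E 62)) * (((E 2006) * ((((1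 : ℤ) : ℝ) / ((2 : ℕ) : ℝ)) * ((E 62) + (E 65)))) + ((E 305) * ((((1 : ℤ) : ℝ) / ((3 : ℕ) : ℝ)) * ((((E 62) * (E 62)) + ((E 62) * (E 65))) + ((E 65) * (E 65)))))))) - (((E 65) - (E 64)) * (((E 2007) * ((((1 : ℤ) : ℝ) / ((2 : ℕ) : ℝ)) * ((E 64) + (E 65)))) + ((E 307) * ((((1 : ℤ) : ℝ) / ((3 : ℕ) : ℝ)) * ((((E 64) * (E 64)) + ((E 64) * (E 65))) + ((E 65) * (E 65)))))))) - (((E 65) - (E 63)) * (((E 2004) * ((((1 : ℤ) : ℝ) / ((2 : ℕ) : ℝ)) * ((E 63) + (E 65)))) + ((E 301) * ((((1 : ℤ) : ℝ) / ((3 : ℕ) : ℝ)) * ((((E 63) * (E 63)) + ((E 63) * (E 65))) + ((E 65) * (E 65)))))))) - (((((1 : ℤ) : ℝ) / ((6 : ℕ) : ℝ)) * ((E 59) + ((E 64) + (E 64)))) * (E 236))) - (((((1 : ℤ) : ℝ) / ((6 : ℕ) : ℝ)) * ((E 60) + ((E 64) + (E 64)))) * (E 238))) - (((((1 : ℤ) : ℝ) / ((6 : ℕ) : ℝ)) * (((E 62) + (E 62)) + (E 63)))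 * (E 247))) - (((((1 : ℤ) : ℝ) / ((6 : ℕ) : ℝ)) * ((E 62) + ((E 63) + (E 63)))) * (E 248))) - (((((1 : ℤ) : ℝ) / ((6 : ℕ) : ℝ)) * ((E 57) + ((E 62) + (E 62)))) * (E 205))) - (((((1 : ℤ) : ℝ) / ((6 : ℕ) : ℝ)) * ((E 61) + ((E 62) + (E 62)))) * (E 228))) - (((((1 : ℤ) : ℝ) / ((6 : ℕ) : ℝ)) * (((E 59) + (E 59)) + (E 62))) * (E 231))) - (((((1 : ℤ) : ℝ) / ((6 : ℕ) : ℝ)) * ((E 59) + ((E 62) + (E 62)))) * (E 232))) - (((((1 : ℤ) : ℝ) / ((6 : ℕ) : ℝ)) * (((E 61) + (E 61)) + (E 62))) * (E 243))) - (((((1 : ℤ) : ℝ) / ((6 : ℕ) : ℝ)) * (((E 57) + (E 57)) + (E 61))) * (E 202))) - (((((1 : ℤ) : ℝ) / ((6 : ℕ) : ℝ)) * ((E 57) + ((E 61) + (E 61)))) * (E 203))) - (((((1 : ℤ) : ℝ) / ((6 : ℕ) : ℝ)) * (((E 58) + (E 58)) + (E 61))) * (E 212))) - (((((1 : ℤ) : ℝ) / ((6 : ℕ) : ℝ)) * (((E 59) + (E 59)) + (E 61))) *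 (E 215))) - (((((1 : ℤ) : ℝ) / ((6 : ℕ) : ℝ)) * ((E 59) + ((E 61) + (E 61)))) * (E 216))) - (((((1 : ℤ) : ℝ) / ((6 : ℕ) : ℝ)) * ((E 60) + ((E 61) + (E 61)))) * (E 222))) - (((((1 : ℤ) : ℝ) / ((6 : ℕ) : ℝ)) * (((E 59) + (E 59)) + (E 61))) * (E 224))) - (((((1 : ℤ) : ℝ) / ((6 : ℕ) : ℝ)) * (((E 60) + (E 60)) + (E 61))) * (E 226))) - (((((1 : ℤ) : ℝ) / ((6 : ℕ) : ℝ)) * ((E 57) + ((E 60) + (E 60)))) * (E 197))) - (((((1 : ℤ) : ℝ) / ((6 : ℕ) : ℝ)) * (((E 57) + (E 57)) + (E 60))) * (E 200))) - (((((1 : ℤ) : ℝ) / ((6 : ℕ) : ℝ)) * ((E 58) + ((E 60) + (E 60)))) * (E 208))) - (((((1 : ℤ) : ℝ) / ((6 : ℕ) : ℝ)) * (((E 57) + (E 57)) + (E 59))) * (E 193))) - (((((1 : ℤ) : ℝ) / ((6 : ℕ) : ℝ)) * ((E 57) + ((E 59) + (E 59)))) * (E 194))) - (((((1 : ℤ) : ℝ) / ((6 : ℕ) : ℝ)) * ((E 57) + ((E 58) + (E 58)))) * (E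 189)) := by
  linear_combination (V12 h).2.2.2.1 + (V12 h).2.2.1 + E 281 * (V12 h).2.1 + 1 * ((E 65) - (E 59)) * ((((1 : ℤ) : ℝ) / ((2 : ℕ) : ℝ)) * ((E 59) + (E 65))) * (rs65 h).vl + 1 * ((E 65) - (E 61)) * ((((1 : ℤ) : ℝ) / ((2 : ℕ) : ℝ)) * ((E 61) + (E 65))) * (rs89 h).vh + 1 * ((E 65) - (E 62)) * ((((1 : ℤ) : ℝ) / ((2 : ℕ) : ℝ)) * ((E 62) + (E 65))) * (rs95 h).vh + 1 * ((E 65) - (E 62)) * ((((1 : ℤ) : ℝ) / ((2 : ℕ) : ℝ)) * ((E 62) + (E 65))) * (rs101 h).vh + 1 * ((E 65) - (E 64)) * ((((1 : ℤ) : ℝ) / ((2 : ℕ) : ℝ)) * ((E 64) + (E 65))) * (rs104 h).vl + 1 * ((E 65) - (E 63)) * ((((1 : ℤ) : ℝ) / ((2 : ℕ) : ℝ)) * ((E 63) + (E 65))) * (rs107 h).vh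

theorem amE1t (h : TbH K E p) : E 2196 = ((E 51) - (E 50)) * (E 502) := by
  linear_combination (V12 h).2.2.2.2.1

theorem aqE1t (h : TbH K E p) : E 2198 = (((E 51) - (E 50)) * ((((1 : ℤ) : ℝ) / ((2 : ℕ) : ℝ)) * ((E 50) + (E 51)))) * (E 502) := by
  linear_combination (V12 h).2.2.2.2.2.2.1 + (V12 h).2.2.2.2.2.1 + E 285 * (V12 h).2.2.2.2.1

theorem amE1v (h : TbH K E p) : E 2199 = (((E 23) * ((E 165) - (E 169))) - ((((1 : ℤ) : ℝ) / ((2 : ℕ) : ℝ)) * (E 501))) - (((E 78) - (E 77)) * (E 500)) := by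
  linear_combination (V12 h).2.2.2.2.2.2.2.1

theorem aqE1v (h : TbH K E p) : E 2201 = (((E 23) * (((E 168) - ((E 78) * (E 169))) - ((E 164) - ((E 76) * (E 165))))) - (((((1 : ℤ) : ℝ) / ((6 : ℕ) : ℝ)) * (((E 76) + (E 76)) + (E 77))) * (E 501))) - ((((E 78) - (E 77)) * ((((1 : ℤ) : ℝ) / ((2 : ℕ) : ℝ)) * ((E 77) + (E 78)))) * (E 500)) := by
  linear_combination (V12 h).2.2.2.2.2.2.2.2.2.1 + (V12 h).2.2.2.2.2.2.2.2.1 + E 283 * (V12 h).2.2.2.2.2.2.2.1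

theorem amE1x (h : TbH K E p) : E 2202 = ((E 24) * ((E 117) - (E 119))) - ((((1 : ℤ) : ℝ) / ((2 : ℕ) : ℝ)) * (E 501)) := by
  linear_combination (V12 h).2.2.2.2.2.2.2.2.2.2.1

theorem aqE1x (h : TbH K E p) : E 2204 = ((E 24) * (((E 118) - ((E 53) * (E 119))) - ((E 116) - ((E 52) * (E 117))))) - (((((1 : ℤ) : ℝ) / ((6 : ℕ) : ℝ)) * ((E 52) + ((E 53) + (E 53)))) * (E 501)) := by
  linear_combination (V12 h).2.2.2.2.2.2.2.2.2.2.2.2.1 + (V12 h).2.2.2.2.2.2.2.2.2.2.2.1 + E 284 * (V12 h).2.2.2.2.2.2.2.2.2.2.1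

theorem amE2t (h : TbH K E p) : E 2205 = ((E 51) - (E 50)) * (E 499) := by
  linear_combination (V12 h).2.2.2.2.2.2.2.2.2.2.2.2.2.1

theorem aqE2t (h : TbH K E p) : E 2207 = (((E 51) - (E 50)) * ((((1 : ℤ) : ℝ) / ((2 : ℕ) : ℝ)) * ((E 50) + (E 51)))) * (E 499) := by
  linear_combination (V12 h).2.2.2.2.2.2.2.2.2.2.2.2.2.2.2.1 + (V12 h).2.2.2.2.2.2.2.2.2.2.2.2.2.2.1 + E 288 * (V12 h).2.2.2.2.2.2.2.2.2.2.2.2.2.1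

theorem amE2v (h : TbH K E p) : E 2208 = ((((((E 80) - (E 79)) * (E 498)) + (((E 80) - (E 79)) * (E 498))) + ((E 23) * ((E 169) - (E 171)))) + (((E 80) - (E 79)) * (E 497))) - (((E 79) - (E 78)) * (E 497)) := by
  linear_combination (V13 h).1

theorem aqE2v (h : TbH K E p) : E 2210 = (((((((((E 80) - (E 79)) * ((((1 : ℤ) : ℝ) / ((2 : ℕ) : ℝ)) * ((E 79) + (E 80)))) * (E 498)) + (((π + π) * ((E 80) - (E 79))) * (E 498))) + ((E 23) * (((E 170) - ((E 79) * (E 171))) - ((E 168) - ((E 78) * (E 169)))))) + (((π + π) * ((E 80) - (E 79))) * (E 497))) - ((((E 80) - (E 79)) * ((((1 : ℤ) : ℝ) / ((2 : ℕ) : ℝ)) * ((E 79) + (E 80)))) * (E 498))) - ((((E 80) - (E 79)) * ((((1 : ℤ) : ℝ) / ((2 : ℕ) : ℝ)) * ((E 79) + (E 80)))) * (E 497))) - ((((E 79) - (E 78)) * ((((1 : ℤ) : ℝ) / ((2 : ℕ) : ℝ)) * ((E 78) + (E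 79)))) * (E 497)) := by
  linear_combination (V13 h).2.2.1 + (V13 h).2.1 + E 286 * (V13 h).1

theorem amE2x (h : TbH K E p) : E 2211 = ((E 52) - (E 51)) * (E 496) := by
  linear_combination (V13 h).2.2.2.1

theorem aqE2x (h : TbH K E p) : E 2213 = (((E 52) - (E 51)) * ((((1 : ℤ) : ℝ) / ((2 : ℕ) : ℝ)) * ((E 51) + (E 52)))) * (E 496) := by
  linear_combination (V13 h).2.2.2.2.2.1 + (V13 h).2.2.2.2.1 + E 287 * (V13 h).2.2.2.1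

theorem amE3t (h : TbH K E p) : E 2214 = ((((((1 : ℤ) : ℝ) / ((1 : ℕ) : ℝ)) * ((E 113) - (E 115))) - (((E 51) - (E 50)) * (E 502))) - (((E 51) - (E 50)) * (E 499))) - ((((1 : ℤ) : ℝ) / ((2 : ℕ) : ℝ)) * (E 501)) := by
  linear_combination (V13 h).2.2.2.2.2.2.1

theorem aqE3t (h : TbH K E p) : E 2216 = ((((((1 : ℤ) : ℝ) / ((1 : ℕ) : ℝ)) * (((E 114) - ((E 51) * (E 115))) - ((E 112) - ((E 50) * (E 113))))) - ((((E 51) - (E 50)) * ((((1 : ℤ) : ℝ) / ((2 : ℕ) : ℝ)) * ((E 50) + (E 51)))) * (E 502))) - ((((E 51) - (E 50)) * ((((1 : ℤ) : ℝ) / ((2 : ℕ) : ℝ)) * ((E 50) + (E 51)))) * (E 499))) - (((((1 : ℤ) : ℝ) / ((6 : ℕ) : ℝ)) * (((E 50) + (E 50)) + (E 51))) * (E 501)) := by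
  linear_combination (V13 h).2.2.2.2.2.2.2.2.1 + (V13 h).2.2.2.2.2.2.2.1 + E 291 * (V13 h).2.2.2.2.2.2.1

theorem amE3v (h : TbH K E p) : E 2217 = ((((E 80) - (E 79)) * (E 497)) + (((E 79) - (E 78)) * (E 497))) + (((E 78) - (E 77)) * (E 500)) := by
  linear_combination (V13 h).2.2.2.2.2.2.2.2.2.1

theorem aqE3v (h : TbH K E p) : E 2219 = (((((E 80) - (E 79)) * ((((1 : ℤ) : ℝ) / ((2 : ℕ) : ℝ)) * ((E 79) + (E 80)))) * (E 497)) + ((((E 79) - (E 78)) * ((((1 : ℤ) : ℝ) / ((2 : ℕ) : ℝ)) * ((E 78) + (E 79)))) * (E 497))) + ((((E 78) - (E 77)) * ((((1 : ℤ) : ℝ) / ((2 : ℕ) : ℝ)) * ((E 77) + (E 78)))) * (E 500)) := by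
  linear_combination (V13 h).2.2.2.2.2.2.2.2.2.2.2.1 + (V13 h).2.2.2.2.2.2.2.2.2.2.1 + E 289 * (V13 h).2.2.2.2.2.2.2.2.2.1

theorem amE3x (h : TbH K E p) : E 2220 = ((E 24) * ((E 115) - (E 117))) - (((E 52) - (E 51)) * (E 496)) := by
  linear_combination (V13 h).2.2.2.2.2.2.2.2.2.2.2.2.1

theorem aqE3x (h : TbH K E p) : E 2222 = ((E 24) * (((E 116) - ((E 52) * (E 117))) - ((E 114) - ((E 51) * (E 115))))) - ((((E 52) - (E 51)) * ((((1 : ℤ) : ℝ) / ((2 : ℕ) : ℝ)) * ((E 51) + (E 52)))) * (E 496)) := by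
  linear_combination (V13 h).2.2.2.2.2.2.2.2.2.2.2.2.2.2.1 + (V13 h).2.2.2.2.2.2.2.2.2.2.2.2.2.1 + E 290 * (V13 h).2.2.2.2.2.2.2.2.2.2.2.2.1

theorem mC0t (h : TbH K E p) : pm (E 50) (TbC0t E) = -E 2133 := by
  have f0 := (V0 h).2.2.2.2.2.2.2.2.1
  have f1 := (V0 h).2.2.2.2.2.2.2.2.2.1
  have f2 := amC0t h
  simp only [TbC0t, pm]
  linear_combination ((E 49 - E 50)) * f0 +
    ((E 48 - E 49)) * f1 +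
    (1) * f2

theorem qC0t (h : TbH K E p) : pq (E 50) (TbC0t E) = -E 2135 := by
  have f0 := (V0 h).2.2.2.2.2.2.2.2.1
  have f1 := (V0 h).2.2.2.2.2.2.2.2.2.1
  have f2 := aqC0t h
  simp only [TbC0t, pq]
  linear_combination (((E 49) ^ 2 - (E 50) ^ 2) / 2) * f0 +
    (((E 48) ^ 2 - (E 49) ^ 2) / 2) * f1 +
    (1) * f2

theorem mC0v (h : TbH K E p) : pm (E 76) (TbC0v E) = -E 2136 := by
  have f0 := amC0v h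
  simp only [TbC0v, pm]
  linear_combination (1) * f0

theorem qC0v (h : TbH K E p) : pq (E 76) (TbC0v E) = -E 2138 := by
  have f0 := aqC0v h
  simp only [TbC0v, pq]
  linear_combination (1) * f0

theorem mC0x (h : TbH K E p) : pm (E 54) (TbC0x E) = -E 2139 := by
  have f0 := (V5 h).2.2.2.2.2.2.2.2.2.2.2.1
  have f1 := (F37 h).2.2.2.2.2.2.2.2.2.2.2.2.2.2.2.1
  have f2 := (F6 h).2.1
  have f3 := (F6 h).2.2.2.1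
  have f4 := amC0x h
  simp only [TbC0x, pm]
  linear_combination ((E 53 - E 54)) * f0 +
    (((E 53) ^ 2 - (E 54) ^ 2) / 2) * f1 +
    (1 * (E 24)) * f2 +
    (-1 * (E 24)) * f3 +
    (1) * f4

theorem qC0x (h : TbH K E p) : pq (E 54) (TbC0x E) = -E 2141 := by
  have f0 := (V5 h).2.2.2.2.2.2.2.2.2.2.2.1
  have f1 := (F37 h).2.2.2.2.2.2.2.2.2.2.2.2.2.2.2.1
  have f2 := (F6 h).2.2.1
  have f3 := (F6 h).2.2.2.1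
  have f4 := (F6 h).1
  have f5 := (F6 h).2.1
  have f6 := aqC0x h
  simp only [TbC0x, pq]
  linear_combination (((E 53) ^ 2 - (E 54) ^ 2) / 2) * f0 +
    (((E 53) ^ 3 - (E 54) ^ 3) / 3) * f1 +
    (1 * (E 24)) * f2 +
    (-1 * (E 24) * E 54) * f3 +
    (-1 * (E 24)) * f4 +
    (1 * (E 24) * E 53) * f5 +
    (1) * f6

theorem mC1t (h : TbH K E p) : pm (E 46) (TbC1t E) = E 2142 := by
  have f0 := amC1t h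
  simp only [TbC1t, pm]
  linear_combination (-1) * f0

theorem qC1t (h : TbH K E p) : pq (E 46) (TbC1t E) = E 2144 := by
  have f0 := aqC1t h
  simp only [TbC1t, pq]
  linear_combination (-1) * f0

theorem mC1v (h : TbH K E p) : pm (E 74) (TbC1v E) = E 2145 := by
  have f0 := (V5 h).2.2.2.2.2.2.2.2.2.2.2.2.1
  have f1 := (F38 h).1
  have f2 := (V5 h).2.2.2.2.2.2.2.2.2.2.2.2.2.1
  have f3 := (F38 h).2.1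
  have f4 := (F8 h).2.2.2.2.2.2.2.2.2.2.2.1
  have f5 := (F8 h).2.2.2.2.2.2.2.2.2.2.2.2.2.2.2.1
  have f6 := (rs25 h).m
  have f7 := amC1v h
  simp only [TbC1v, pm]
  linear_combination ((E 75 - E 74)) * f0 +
    (((E 75) ^ 2 - (E 74) ^ 2) / 2) * f1 +
    ((E 76 - E 75)) * f2 +
    (((E 76) ^ 2 - (E 75) ^ 2) / 2) * f3 +
    (-1 * (E 23)) * f4 +
    (1 * (E 23)) * f5 +
    (-1 * 1) * f6 +
    (-1) * f7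

theorem qC1v (h : TbH K E p) : pq (E 74) (TbC1v E) = E 2147 := by
  have f0 := (V5 h).2.2.2.2.2.2.2.2.2.2.2.2.1
  have f1 := (F38 h).1
  have f2 := (V5 h).2.2.2.2.2.2.2.2.2.2.2.2.2.1
  have f3 := (F38 h).2.1
  have f4 := (F8 h).2.2.2.2.2.2.2.2.2.2.2.2.2.2.1
  have f5 := (F8 h).2.2.2.2.2.2.2.2.2.2.2.2.2.2.2.1
  have f6 := (F8 h).2.2.2.2.2.2.2.2.2.2.1
  have f7 := (F8 h).2.2.2.2.2.2.2.2.2.2.2.1
  have f8 := (rs25 h).q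
  have f9 := aqC1v h
  simp only [TbC1v, pq]
  linear_combination (((E 75) ^ 2 - (E 74) ^ 2) / 2) * f0 +
    (((E 75) ^ 3 - (E 74) ^ 3) / 3) * f1 +
    (((E 76) ^ 2 - (E 75) ^ 2) / 2) * f2 +
    (((E 76) ^ 3 - (E 75) ^ 3) / 3) * f3 +
    (-1 * (E 23)) * f4 +
    (1 * (E 23) * E 76) * f5 +
    (1 * (E 23)) * f6 +
    (-1 * (E 23) * E 74) * f7 +
    (-1 * 1) * f8 +
    (-1) * f9

theorem mC1x (h : TbH K E p) : pm (E 54) (TbC1x E) = E 2148 := by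
  have f0 := (V5 h).2.2.2.2.2.2.2.2.2.2.2.2.2.2.1
  have f1 := (F38 h).2.2.1
  have f2 := (F6 h).2.2.2.1
  have f3 := (F6 h).2.2.2.2.2.1
  have f4 := (rs26 h).m
  have f5 := amC1x h
  simp only [TbC1x, pm]
  linear_combination ((E 55 - E 54)) * f0 +
    (((E 55) ^ 2 - (E 54) ^ 2) / 2) * f1 +
    (-1 * (E 24)) * f2 +
    (1 * (E 24)) * f3 +
    (-1 * 1) * f4 +
    (-1) * f5

theorem qC1x (h : TbH K E p) : pq (E 54) (TbC1x E) = E 2150 := by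
  have f0 := (V5 h).2.2.2.2.2.2.2.2.2.2.2.2.2.2.1
  have f1 := (F38 h).2.2.1
  have f2 := (F6 h).2.2.2.2.1
  have f3 := (F6 h).2.2.2.2.2.1
  have f4 := (F6 h).2.2.1
  have f5 := (F6 h).2.2.2.1
  have f6 := (rs26 h).q
  have f7 := aqC1x h
  simp only [TbC1x, pq]
  linear_combination (((E 55) ^ 2 - (E 54) ^ 2) / 2) * f0 +
    (((E 55) ^ 3 - (E 54) ^ 3) / 3) * f1 +
    (-1 * (E 24)) * f2 +
    (1 * (E 24) * E 55) * f3 +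
    (1 * (E 24)) * f4 +
    (-1 * (E 24) * E 54) * f5 +
    (-1 * 1) * f6 +
    (-1) * f7

theorem mD1t (h : TbH K E p) : pm (E 44) (TbD1t E) = E 2151 := by
  have f0 := amD1t h
  simp only [TbD1t, pm]
  linear_combination (-1) * f0

theorem qD1t (h : TbH K E p) : pq (E 44) (TbD1t E) = E 2153 := by
  have f0 := aqD1t h
  simp only [TbD1t, pq]
  linear_combination (-1) * f0

theorem mD1v (h : TbH K E p) : pm (E 72) (TbD1v E) = E 2154 := by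
  have f0 := (V5 h).2.2.2.2.2.2.2.2.2.2.2.2.2.2.2.1
  have f1 := (F38 h).2.2.2.1
  have f2 := (V6 h).1
  have f3 := (F38 h).2.2.2.2.1
  have f4 := (F8 h).2.2.2.2.2.2.2.1
  have f5 := (F8 h).2.2.2.2.2.2.2.2.2.2.2.1
  have f6 := (rs31 h).m
  have f7 := (rs28 h).m
  have f8 := amD1v h
  simp only [TbD1v, pm]
  linear_combination ((E 73 - E 72)) * f0 +
    (((E 73) ^ 2 - (E 72) ^ 2) / 2) * f1 +
    ((E 74 - E 73)) * f2 +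
    (((E 74) ^ 2 - (E 73) ^ 2) / 2) * f3 +
    (-1 * (E 23)) * f4 +
    (1 * (E 23)) * f5 +
    (-1 * 1) * f6 +
    (-1 * 1) * f7 +
    (-1) * f8

theorem qD1v (h : TbH K E p) : pq (E 72) (TbD1v E) = E 2156 := by
  have f0 := (V5 h).2.2.2.2.2.2.2.2.2.2.2.2.2.2.2.1
  have f1 := (F38 h).2.2.2.1
  have f2 := (V6 h).1
  have f3 := (F38 h).2.2.2.2.1
  have f4 := (F8 h).2.2.2.2.2.2.2.2.2.2.1
  have f5 := (F8 h).2.2.2.2.2.2.2.2.2.2.2.1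
  have f6 := (F8 h).2.2.2.2.2.2.1
  have f7 := (F8 h).2.2.2.2.2.2.2.1
  have f8 := (rs31 h).q
  have f9 := (rs28 h).q
  have f10 := aqD1v h
  simp only [TbD1v, pq]
  linear_combination (((E 73) ^ 2 - (E 72) ^ 2) / 2) * f0 +
    (((E 73) ^ 3 - (E 72) ^ 3) / 3) * f1 +
    (((E 74) ^ 2 - (E 73) ^ 2) / 2) * f2 +
    (((E 74) ^ 3 - (E 73) ^ 3) / 3) * f3 +
    (-1 * (E 23)) * f4 +
    (1 * (E 23) * E 74) * f5 +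
    (1 * (E 23)) * f6 +
    (-1 * (E 23) * E 72) * f7 +
    (-1 * 1) * f8 +
    (-1 * 1) * f9 +
    (-1) * f10

theorem mD1x (h : TbH K E p) : pm (E 56) (TbD1x E) = E 2157 := by
  have f0 := (V6 h).2.1
  have f1 := (F38 h).2.2.2.2.2.1
  have f2 := (F6 h).2.2.2.2.2.2.2.1
  have f3 := (F6 h).2.2.2.2.2.2.2.2.2.1
  have f4 := (rs32 h).m
  have f5 := (V0 h).2.2.2.2.2.2.2.2.2.2.1
  have f6 := amD1x h
  simp only [TbD1x, pm, nw82 h, nw83 h, nw84 h] at f0 f1 f2 f3 f4 f5 f6 ⊢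
  linear_combination ((E 57 - E 56)) * f0 +
    (((E 57) ^ 2 - (E 56) ^ 2) / 2) * f1 +
    (-1 * (E 24)) * f2 +
    (1 * (E 24)) * f3 +
    (-1 * 1) * f4 +
    (1 * ((E 24) * (E 0)) * (E 57 - E 56)) * f5 +
    (-1) * f6

theorem qD1x (h : TbH K E p) : pq (E 56) (TbD1x E) = E 2159 := by
  have f0 := (V6 h).2.1
  have f1 := (F38 h).2.2.2.2.2.1
  have f2 := (F6 h).2.2.2.2.2.2.2.2.1
  have f3 := (F6 h).2.2.2.2.2.2.2.2.2.1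
  have f4 := (F6 h).2.2.2.2.2.2.1
  have f5 := (F6 h).2.2.2.2.2.2.2.1
  have f6 := (rs32 h).q
  have f7 := (V0 h).2.2.2.2.2.2.2.2.2.2.1
  have f8 := aqD1x h
  simp only [TbD1x, pq, nw82 h, nw83 h, nw84 h] at f0 f1 f2 f3 f4 f5 f6 f7 f8 ⊢
  linear_combination (((E 57) ^ 2 - (E 56) ^ 2) / 2) * f0 +
    (((E 57) ^ 3 - (E 56) ^ 3) / 3) * f1 +
    (-1 * (E 24)) * f2 +
    (1 * (E 24) * E 57) * f3 +
    (1 * (E 24)) * f4 +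
    (-1 * (E 24) * E 56) * f5 +
    (-1 * 1) * f6 +
    (1 * ((E 24) * (E 0)) * ((E 57) ^ 2 - (E 56) ^ 2) / 2) * f7 +
    (-1) * f8

theorem mD2t (h : TbH K E p) : pm (E 46) (TbD2t E) = -E 2160 := by
  have f0 := (V6 h).2.2.1
  have f1 := (F38 h).2.2.2.2.2.2.1
  have f2 := (V6 h).2.2.2.1
  have f3 := (F38 h).2.2.2.2.2.2.2.1
  have f4 := (F4 h).2.2.2.2.2.2.2.2.2.2.2.2.2.2.2.1
  have f5 := (F5 h).2.2.2.1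
  have f6 := (rs27 h).m
  have f7 := (rs30 h).m
  have f8 := amD2t h
  simp only [TbD2t, pm]
  linear_combination ((E 45 - E 46)) * f0 +
    (((E 45) ^ 2 - (E 46) ^ 2) / 2) * f1 +
    ((E 44 - E 45)) * f2 +
    (((E 44) ^ 2 - (E 45) ^ 2) / 2) * f3 +
    (1 * (((1 : ℤ) : ℝ) / ((1 : ℕ) : ℝ))) * f4 +
    (-1 * (((1 : ℤ) : ℝ) / ((1 : ℕ) : ℝ))) * f5 +
    (1 * 1) * f6 +
    (1 * 1) * f7 +
    (1) * f8

theorem qD2t (h : TbH K E p) : pq (E 46) (TbD2t E) = -E 2162 := by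
  have f0 := (V6 h).2.2.1
  have f1 := (F38 h).2.2.2.2.2.2.1
  have f2 := (V6 h).2.2.2.1
  have f3 := (F38 h).2.2.2.2.2.2.2.1
  have f4 := (F5 h).2.2.1
  have f5 := (F5 h).2.2.2.1
  have f6 := (F4 h).2.2.2.2.2.2.2.2.2.2.2.2.2.2.1
  have f7 := (F4 h).2.2.2.2.2.2.2.2.2.2.2.2.2.2.2.1
  have f8 := (rs27 h).q
  have f9 := (rs30 h).q
  have f10 := aqD2t h
  simp only [TbD2t, pq]
  linear_combination (((E 45) ^ 2 - (E 46) ^ 2) / 2) * f0 +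
    (((E 45) ^ 3 - (E 46) ^ 3) / 3) * f1 +
    (((E 44) ^ 2 - (E 45) ^ 2) / 2) * f2 +
    (((E 44) ^ 3 - (E 45) ^ 3) / 3) * f3 +
    (1 * (((1 : ℤ) : ℝ) / ((1 : ℕ) : ℝ))) * f4 +
    (-1 * (((1 : ℤ) : ℝ) / ((1 : ℕ) : ℝ)) * E 46) * f5 +
    (-1 * (((1 : ℤ) : ℝ) / ((1 : ℕ) : ℝ))) * f6 +
    (1 * (((1 : ℤ) : ℝ) / ((1 : ℕ) : ℝ)) * E 44) * f7 +
    (1 * 1) * f8 +
    (1 * 1) * f9 +
    (1) * f10

theorem mD2v (h : TbH K E p) : pm (E 74) (TbD2v E) = -E 2163 := by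
  have f0 := amD2v h
  simp only [TbD2v, pm]
  linear_combination (1) * f0

theorem qD2v (h : TbH K E p) : pq (E 74) (TbD2v E) = -E 2165 := by
  have f0 := aqD2v h
  simp only [TbD2v, pq]
  linear_combination (1) * f0

theorem mD2x (h : TbH K E p) : pm (E 56) (TbD2x E) = -E 2166 := by
  have f0 := (V6 h).2.2.2.2.1
  have f1 := (F38 h).2.2.2.2.2.2.2.2.1
  have f2 := (F6 h).2.2.2.2.2.1
  have f3 := (F6 h).2.2.2.2.2.2.2.1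
  have f4 := (rs29 h).m
  have f5 := amD2x h
  simp only [TbD2x, pm, nw82 h, nw83 h, nw84 h] at f0 f1 f2 f3 f4 f5 ⊢
  linear_combination ((E 55 - E 56)) * f0 +
    (((E 55) ^ 2 - (E 56) ^ 2) / 2) * f1 +
    (1 * (E 24)) * f2 +
    (-1 * (E 24)) * f3 +
    (1 * 1) * f4 +
    (1) * f5

theorem qD2x (h : TbH K E p) : pq (E 56) (TbD2x E) = -E 2168 := by
  have f0 := (V6 h).2.2.2.2.1
  have f1 := (F38 h).2.2.2.2.2.2.2.2.1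
  have f2 := (F6 h).2.2.2.2.2.2.1
  have f3 := (F6 h).2.2.2.2.2.2.2.1
  have f4 := (F6 h).2.2.2.2.1
  have f5 := (F6 h).2.2.2.2.2.1
  have f6 := (rs29 h).q
  have f7 := aqD2x h
  simp only [TbD2x, pq, nw82 h, nw83 h, nw84 h] at f0 f1 f2 f3 f4 f5 f6 f7 ⊢
  linear_combination (((E 55) ^ 2 - (E 56) ^ 2) / 2) * f0 +
    (((E 55) ^ 3 - (E 56) ^ 3) / 3) * f1 +
    (1 * (E 24)) * f2 +
    (-1 * (E 24) * E 56) * f3 +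
    (-1 * (E 24)) * f4 +
    (1 * (E 24) * E 55) * f5 +
    (1 * 1) * f6 +
    (1) * f7

theorem mAt (h : TbH K E p) : pm (E 43) (TbAt E) = -E 2169 := by
  have f0 := amAt h
  simp only [TbAt, pm]
  linear_combination (1) * f0

theorem qAt (h : TbH K E p) : pq (E 43) (TbAt E) = -E 2171 := by
  have f0 := aqAt h
  simp only [TbAt, pq]
  linear_combination (1) * f0

theorem mAv (h : TbH K E p) : pm (E 84) (TbAv E) = -E 2172 := by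
  have f0 := (V0 h).2.2.2.2.2.2.2.2.2.2.1
  have f1 := amAv h
  simp only [TbAv, pm]
  linear_combination ((E 82 - E 83)) * f0 +
    (1) * f1

theorem qAv (h : TbH K E p) : pq (E 84) (TbAv E) = -E 2174 := by
  have f0 := (V0 h).2.2.2.2.2.2.2.2.2.2.1
  have f1 := aqAv h
  simp only [TbAv, pq]
  linear_combination (((E 82) ^ 2 - (E 83) ^ 2) / 2) * f0 +
    (1) * f1

theorem mAx (h : TbH K E p) : pm (E 50) (TbAx E) = -E 2175 := by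
  have f0 := (V6 h).2.2.2.2.2.1
  have f1 := (F38 h).2.2.2.2.2.2.2.2.2.1
  have f2 := (V6 h).2.2.2.2.2.2.1
  have f3 := (F38 h).2.2.2.2.2.2.2.2.2.2.1
  have f4 := (V6 h).2.2.2.2.2.2.2.1
  have f5 := (F38 h).2.2.2.2.2.2.2.2.2.2.2.1
  have f6 := (V6 h).2.2.2.2.2.2.2.2.1
  have f7 := (F38 h).2.2.2.2.2.2.2.2.2.2.2.2.1
  have f8 := (F5 h).2.2.2.1
  have f9 := (F5 h).2.2.2.2.2.2.2.2.2.2.2.1
  have f10 := (rs35 h).m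
  have f11 := (rs24 h).m
  have f12 := (V0 h).2.2.2.2.2.2.2.2.1
  have f13 := (V0 h).2.2.2.2.2.2.2.2.2.1
  have f14 := amAx h
  simp only [TbAx, pm]
  linear_combination ((E 49 - E 50)) * f0 +
    (((E 49) ^ 2 - (E 50) ^ 2) / 2) * f1 +
    ((E 48 - E 49)) * f2 +
    (((E 48) ^ 2 - (E 49) ^ 2) / 2) * f3 +
    ((E 47 - E 48)) * f4 +
    (((E 47) ^ 2 - (E 48) ^ 2) / 2) * f5 +
    ((E 46 - E 47)) * f6 +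
    (((E 46) ^ 2 - (E 47) ^ 2) / 2) * f7 +
    (1 * (E 24)) * f8 +
    (-1 * (E 24)) * f9 +
    (1 * 1) * f10 +
    (1 * (E 24)) * f11 +
    (-1 * (E 24) * (E 49 - E 50)) * f12 +
    (-1 * (E 24) * (E 48 - E 49)) * f13 +
    (1) * f14

theorem qAx (h : TbH K E p) : pq (E 50) (TbAx E) = -E 2177 := by
  have f0 := (V6 h).2.2.2.2.2.1
  have f1 := (F38 h).2.2.2.2.2.2.2.2.2.1
  have f2 := (V6 h).2.2.2.2.2.2.1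
  have f3 := (F38 h).2.2.2.2.2.2.2.2.2.2.1
  have f4 := (V6 h).2.2.2.2.2.2.2.1
  have f5 := (F38 h).2.2.2.2.2.2.2.2.2.2.2.1
  have f6 := (V6 h).2.2.2.2.2.2.2.2.1
  have f7 := (F38 h).2.2.2.2.2.2.2.2.2.2.2.2.1
  have f8 := (F5 h).2.2.2.2.2.2.2.2.2.2.1
  have f9 := (F5 h).2.2.2.2.2.2.2.2.2.2.2.1
  have f10 := (F5 h).2.2.1
  have f11 := (F5 h).2.2.2.1
  have f12 := (rs35 h).q
  have f13 := (rs24 h).q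
  have f14 := (V0 h).2.2.2.2.2.2.2.2.1
  have f15 := (V0 h).2.2.2.2.2.2.2.2.2.1
  have f16 := aqAx h
  simp only [TbAx, pq]
  linear_combination (((E 49) ^ 2 - (E 50) ^ 2) / 2) * f0 +
    (((E 49) ^ 3 - (E 50) ^ 3) / 3) * f1 +
    (((E 48) ^ 2 - (E 49) ^ 2) / 2) * f2 +
    (((E 48) ^ 3 - (E 49) ^ 3) / 3) * f3 +
    (((E 47) ^ 2 - (E 48) ^ 2) / 2) * f4 +
    (((E 47) ^ 3 - (E 48) ^ 3) / 3) * f5 +
    (((E 46) ^ 2 - (E 47) ^ 2) / 2) * f6 +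
    (((E 46) ^ 3 - (E 47) ^ 3) / 3) * f7 +
    (1 * (E 24)) * f8 +
    (-1 * (E 24) * E 50) * f9 +
    (-1 * (E 24)) * f10 +
    (1 * (E 24) * E 46) * f11 +
    (1 * 1) * f12 +
    (1 * (E 24)) * f13 +
    (-1 * (E 24) * ((E 49) ^ 2 - (E 50) ^ 2) / 2) * f14 +
    (-1 * (E 24) * ((E 48) ^ 2 - (E 49) ^ 2) / 2) * f15 +
    (1) * f16

theorem mTt (h : TbH K E p) : pm (E 38) (TbTt E) = -E 2178 := by
  have f0 := (V6 h).2.2.2.2.2.2.2.2.2.1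
  have f1 := (F38 h).2.2.2.2.2.2.2.2.2.2.2.2.2.1
  have f2 := (F4 h).2.1
  have f3 := (F4 h).2.2.2.1
  have f4 := amTt h
  simp only [TbTt, pm, hz h, nw36 h] at f0 f1 f2 f3 f4 ⊢
  linear_combination ((0 - E 38)) * f0 +
    (((0) ^ 2 - (E 38) ^ 2) / 2) * f1 +
    (1 * (((1 : ℤ) : ℝ) / ((1 : ℕ) : ℝ))) * f2 +
    (-1 * (((1 : ℤ) : ℝ) / ((1 : ℕ) : ℝ))) * f3 +
    (1) * f4

theorem qTt (h : TbH K E p) : pq (E 38) (TbTt E) = -E 2180 := by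
  have f0 := (V6 h).2.2.2.2.2.2.2.2.2.1
  have f1 := (F38 h).2.2.2.2.2.2.2.2.2.2.2.2.2.1
  have f2 := (F4 h).2.2.1
  have f3 := (F4 h).2.2.2.1
  have f4 := (F4 h).1
  have f5 := (F4 h).2.1
  have f6 := aqTt h
  simp only [TbTt, pq, hz h, nw36 h] at f0 f1 f2 f3 f4 f5 f6 ⊢
  linear_combination (((0) ^ 2 - (E 38) ^ 2) / 2) * f0 +
    (((0) ^ 3 - (E 38) ^ 3) / 3) * f1 +
    (1 * (((1 : ℤ) : ℝ) / ((1 : ℕ) : ℝ))) * f2 +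
    (-1 * (((1 : ℤ) : ℝ) / ((1 : ℕ) : ℝ)) * E 38) * f3 +
    (-1 * (((1 : ℤ) : ℝ) / ((1 : ℕ) : ℝ))) * f4 +
    (1 * (((1 : ℤ) : ℝ) / ((1 : ℕ) : ℝ)) * 0) * f5 +
    (1) * f6

theorem mTv (h : TbH K E p) : pm (E 72) (TbTv E) = -E 2181 := by
  have f0 := (V0 h).2.2.2.2.2.2.2.2.2.2.2.1
  have f1 := amTv h
  simp only [TbTv, pm]
  linear_combination ((E 70 - E 71)) * f0 +
    (1) * f1

theorem qTv (h : TbH K E p) : pq (E 72) (TbTv E) = -E 2183 := by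
  have f0 := (V0 h).2.2.2.2.2.2.2.2.2.2.2.1
  have f1 := aqTv h
  simp only [TbTv, pq]
  linear_combination (((E 70) ^ 2 - (E 71) ^ 2) / 2) * f0 +
    (1) * f1

theorem mTx (h : TbH K E p) : pm (E 68) (TbTx E) = -E 2184 := by
  have f0 := (V6 h).2.2.2.2.2.2.2.2.2.2.1
  have f1 := (F38 h).2.2.2.2.2.2.2.2.2.2.2.2.2.2.1
  have f2 := (V6 h).2.2.2.2.2.2.2.2.2.2.2.1
  have f3 := (F38 h).2.2.2.2.2.2.2.2.2.2.2.2.2.2.2.1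
  have f4 := (V6 h).2.2.2.2.2.2.2.2.2.2.2.2.1
  have f5 := (F39 h).1
  have f6 := (F7 h).2.2.2.2.2.2.2.2.2.1
  have f7 := (F7 h).2.2.2.2.2.2.2.2.2.2.2.2.2.2.2.1
  have f8 := amTx h
  simp only [TbTx, pm]
  linear_combination ((E 67 - E 68)) * f0 +
    (((E 67) ^ 2 - (E 68) ^ 2) / 2) * f1 +
    ((E 66 - E 67)) * f2 +
    (((E 66) ^ 2 - (E 67) ^ 2) / 2) * f3 +
    ((E 65 - E 66)) * f4 +
    (((E 65) ^ 2 - (E 66) ^ 2) / 2) * f5 +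
    (1 * (E 24)) * f6 +
    (-1 * (E 24)) * f7 +
    (1) * f8

theorem qTx (h : TbH K E p) : pq (E 68) (TbTx E) = -E 2186 := by
  have f0 := (V6 h).2.2.2.2.2.2.2.2.2.2.1
  have f1 := (F38 h).2.2.2.2.2.2.2.2.2.2.2.2.2.2.1
  have f2 := (V6 h).2.2.2.2.2.2.2.2.2.2.2.1
  have f3 := (F38 h).2.2.2.2.2.2.2.2.2.2.2.2.2.2.2.1
  have f4 := (V6 h).2.2.2.2.2.2.2.2.2.2.2.2.1
  have f5 := (F39 h).1
  have f6 := (F7 h).2.2.2.2.2.2.2.2.2.2.2.2.2.2.1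
  have f7 := (F7 h).2.2.2.2.2.2.2.2.2.2.2.2.2.2.2.1
  have f8 := (F7 h).2.2.2.2.2.2.2.2.1
  have f9 := (F7 h).2.2.2.2.2.2.2.2.2.1
  have f10 := aqTx h
  simp only [TbTx, pq]
  linear_combination (((E 67) ^ 2 - (E 68) ^ 2) / 2) * f0 +
    (((E 67) ^ 3 - (E 68) ^ 3) / 3) * f1 +
    (((E 66) ^ 2 - (E 67) ^ 2) / 2) * f2 +
    (((E 66) ^ 3 - (E 67) ^ 3) / 3) * f3 +
    (((E 65) ^ 2 - (E 66) ^ 2) / 2) * f4 +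
    (((E 65) ^ 3 - (E 66) ^ 3) / 3) * f5 +
    (1 * (E 24)) * f6 +
    (-1 * (E 24) * E 68) * f7 +
    (-1 * (E 24)) * f8 +
    (1 * (E 24) * E 65) * f9 +
    (1) * f10

theorem mBt (h : TbH K E p) : pm (E 44) (TbBt E) = -E 2187 := by
  have f0 := (V6 h).2.2.2.2.2.2.2.2.2.2.2.2.2.1
  have f1 := (F39 h).2.1
  have f2 := (V6 h).2.2.2.2.2.2.2.2.2.2.2.2.2.2.1
  have f3 := (F39 h).2.2.1
  have f4 := (V6 h).2.2.2.2.2.2.2.2.2.2.2.2.2.2.2.1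
  have f5 := (F39 h).2.2.2.1
  have f6 := (V7 h).1
  have f7 := (F39 h).2.2.2.2.1
  have f8 := (V7 h).2.1
  have f9 := (F39 h).2.2.2.2.2.1
  have f10 := (V7 h).2.2.1
  have f11 := (F39 h).2.2.2.2.2.2.1
  have f12 := (F4 h).2.2.2.1
  have f13 := (F4 h).2.2.2.2.2.2.2.2.2.2.2.2.2.2.2.1
  have f14 := (rs36 h).m
  have f15 := (rs39 h).m
  have f16 := (rs42 h).m
  have f17 := (rs45 h).m
  have f18 := (rs48 h).m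
  have f19 := (rs51 h).m
  have f20 := (rs54 h).m
  have f21 := (rs57 h).m
  have f22 := (rs69 h).m
  have f23 := (rs78 h).m
  have f24 := (rs81 h).m
  have f25 := (rs60 h).m
  have f26 := (rs63 h).m
  have f27 := (rs66 h).m
  have f28 := (rs72 h).m
  have f29 := (rs84 h).m
  have f30 := (rs90 h).m
  have f31 := (rs75 h).m
  have f32 := (rs87 h).m
  have f33 := (rs96 h).m
  have f34 := (rs99 h).m
  have f35 := (rs93 h).m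
  have f36 := (rs102 h).m
  have f37 := (rs105 h).m
  have f38 := amBt h
  simp only [TbBt, pm]
  linear_combination ((E 43 - E 44)) * f0 +
    (((E 43) ^ 2 - (E 44) ^ 2) / 2) * f1 +
    ((E 42 - E 43)) * f2 +
    (((E 42) ^ 2 - (E 43) ^ 2) / 2) * f3 +
    ((E 41 - E 42)) * f4 +
    (((E 41) ^ 2 - (E 42) ^ 2) / 2) * f5 +
    ((E 40 - E 41)) * f6 +
    (((E 40) ^ 2 - (E 41) ^ 2) / 2) * f7 +
    ((E 39 - E 40)) * f8 +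
    (((E 39) ^ 2 - (E 40) ^ 2) / 2) * f9 +
    ((E 38 - E 39)) * f10 +
    (((E 38) ^ 2 - (E 39) ^ 2) / 2) * f11 +
    (1 * (((1 : ℤ) : ℝ) / ((1 : ℕ) : ℝ))) * f12 +
    (-1 * (((1 : ℤ) : ℝ) / ((1 : ℕ) : ℝ))) * f13 +
    (1 * 1) * f14 +
    (1 * 1) * f15 +
    (1 * 1) * f16 +
    (1 * 1) * f17 +
    (1 * 1) * f18 +
    (1 * 1) * f19 +
    (1 * 1) * f20 +
    (1 * 1) * f21 +
    (1 * 1) * f22 +
    (1 * 1) * f23 +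
    (1 * 1) * f24 +
    (1 * 1) * f25 +
    (1 * 1) * f26 +
    (1 * 1) * f27 +
    (1 * 1) * f28 +
    (1 * 1) * f29 +
    (1 * 1) * f30 +
    (1 * 1) * f31 +
    (1 * 1) * f32 +
    (1 * 1) * f33 +
    (1 * 1) * f34 +
    (1 * 1) * f35 +
    (1 * 1) * f36 +
    (1 * 1) * f37 +
    (1) * f38

theorem qBt (h : TbH K E p) : pq (E 44) (TbBt E) = -E 2189 := by
  have f0 := (V6 h).2.2.2.2.2.2.2.2.2.2.2.2.2.1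
  have f1 := (F39 h).2.1
  have f2 := (V6 h).2.2.2.2.2.2.2.2.2.2.2.2.2.2.1
  have f3 := (F39 h).2.2.1
  have f4 := (V6 h).2.2.2.2.2.2.2.2.2.2.2.2.2.2.2.1
  have f5 := (F39 h).2.2.2.1
  have f6 := (V7 h).1
  have f7 := (F39 h).2.2.2.2.1
  have f8 := (V7 h).2.1
  have f9 := (F39 h).2.2.2.2.2.1
  have f10 := (V7 h).2.2.1
  have f11 := (F39 h).2.2.2.2.2.2.1
  have f12 := (F4 h).2.2.2.2.2.2.2.2.2.2.2.2.2.2.1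
  have f13 := (F4 h).2.2.2.2.2.2.2.2.2.2.2.2.2.2.2.1
  have f14 := (F4 h).2.2.1
  have f15 := (F4 h).2.2.2.1
  have f16 := (rs36 h).q
  have f17 := (rs39 h).q
  have f18 := (rs42 h).q
  have f19 := (rs45 h).q
  have f20 := (rs48 h).q
  have f21 := (rs51 h).q
  have f22 := (rs54 h).q
  have f23 := (rs57 h).q
  have f24 := (rs69 h).q
  have f25 := (rs78 h).q
  have f26 := (rs81 h).q
  have f27 := (rs60 h).q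
  have f28 := (rs63 h).q
  have f29 := (rs66 h).q
  have f30 := (rs72 h).q
  have f31 := (rs84 h).q
  have f32 := (rs90 h).q
  have f33 := (rs75 h).q
  have f34 := (rs87 h).q
  have f35 := (rs96 h).q
  have f36 := (rs99 h).q
  have f37 := (rs93 h).q
  have f38 := (rs102 h).q
  have f39 := (rs105 h).q
  have f40 := aqBt h
  simp only [TbBt, pq]
  linear_combination (((E 43) ^ 2 - (E 44) ^ 2) / 2) * f0 +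
    (((E 43) ^ 3 - (E 44) ^ 3) / 3) * f1 +
    (((E 42) ^ 2 - (E 43) ^ 2) / 2) * f2 +
    (((E 42) ^ 3 - (E 43) ^ 3) / 3) * f3 +
    (((E 41) ^ 2 - (E 42) ^ 2) / 2) * f4 +
    (((E 41) ^ 3 - (E 42) ^ 3) / 3) * f5 +
    (((E 40) ^ 2 - (E 41) ^ 2) / 2) * f6 +
    (((E 40) ^ 3 - (E 41) ^ 3) / 3) * f7 +
    (((E 39) ^ 2 - (E 40) ^ 2) / 2) * f8 +
    (((E 39) ^ 3 - (E 40) ^ 3) / 3) * f9 +
    (((E 38) ^ 2 - (E 39) ^ 2) / 2) * f10 +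
    (((E 38) ^ 3 - (E 39) ^ 3) / 3) * f11 +
    (1 * (((1 : ℤ) : ℝ) / ((1 : ℕ) : ℝ))) * f12 +
    (-1 * (((1 : ℤ) : ℝ) / ((1 : ℕ) : ℝ)) * E 44) * f13 +
    (-1 * (((1 : ℤ) : ℝ) / ((1 : ℕ) : ℝ))) * f14 +
    (1 * (((1 : ℤ) : ℝ) / ((1 : ℕ) : ℝ)) * E 38) * f15 +
    (1 * 1) * f16 +
    (1 * 1) * f17 +
    (1 * 1) * f18 +
    (1 * 1) * f19 +
    (1 * 1) * f20 +
    (1 * 1) * f21 +
    (1 * 1) * f22 +
    (1 * 1) * f23 +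
    (1 * 1) * f24 +
    (1 * 1) * f25 +
    (1 * 1) * f26 +
    (1 * 1) * f27 +
    (1 * 1) * f28 +
    (1 * 1) * f29 +
    (1 * 1) * f30 +
    (1 * 1) * f31 +
    (1 * 1) * f32 +
    (1 * 1) * f33 +
    (1 * 1) * f34 +
    (1 * 1) * f35 +
    (1 * 1) * f36 +
    (1 * 1) * f37 +
    (1 * 1) * f38 +
    (1 * 1) * f39 +
    (1) * f40

theorem mBv (h : TbH K E p) : pm (E 72) (TbBv E) = -E 2190 := by
  have f0 := (V7 h).2.2.2.1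
  have f1 := (F39 h).2.2.2.2.2.2.2.1
  have f2 := (V7 h).2.2.2.2.1
  have f3 := (F39 h).2.2.2.2.2.2.2.2.1
  have f4 := (V7 h).2.2.2.2.2.1
  have f5 := (F39 h).2.2.2.2.2.2.2.2.2.1
  have f6 := (V7 h).2.2.2.2.2.2.1
  have f7 := (F39 h).2.2.2.2.2.2.2.2.2.2.1
  have f8 := (F7 h).2.2.2.2.2.2.2.2.2.2.2.2.2.2.2.1
  have f9 := (F8 h).2.2.2.2.2.2.2.1
  have f10 := (rs37 h).m
  have f11 := (rs40 h).m
  have f12 := (rs43 h).m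
  have f13 := (rs46 h).m
  have f14 := (rs49 h).m
  have f15 := (rs52 h).m
  have f16 := (rs55 h).m
  have f17 := (rs58 h).m
  have f18 := (rs61 h).m
  have f19 := (rs64 h).m
  have f20 := (rs67 h).m
  have f21 := (rs70 h).m
  have f22 := (rs73 h).m
  have f23 := (rs76 h).m
  have f24 := (rs97 h).m
  have f25 := (rs106 h).m
  have f26 := (rs79 h).m
  have f27 := (rs82 h).m
  have f28 := (rs85 h).m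
  have f29 := (rs88 h).m
  have f30 := (rs91 h).m
  have f31 := (rs94 h).m
  have f32 := (rs100 h).m
  have f33 := (rs103 h).m
  have f34 := (V0 h).2.2.2.2.2.2.2.2.2.2.2.1
  have f35 := amBv h
  simp only [TbBv, pm]
  linear_combination ((E 71 - E 72)) * f0 +
    (((E 71) ^ 2 - (E 72) ^ 2) / 2) * f1 +
    ((E 70 - E 71)) * f2 +
    (((E 70) ^ 2 - (E 71) ^ 2) / 2) * f3 +
    ((E 69 - E 70)) * f4 +
    (((E 69) ^ 2 - (E 70) ^ 2) / 2) * f5 +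
    ((E 68 - E 69)) * f6 +
    (((E 68) ^ 2 - (E 69) ^ 2) / 2) * f7 +
    (1 * (E 23)) * f8 +
    (-1 * (E 23)) * f9 +
    (1 * 1) * f10 +
    (1 * 1) * f11 +
    (1 * 1) * f12 +
    (1 * 1) * f13 +
    (1 * 1) * f14 +
    (1 * 1) * f15 +
    (1 * 1) * f16 +
    (1 * 1) * f17 +
    (1 * 1) * f18 +
    (1 * 1) * f19 +
    (1 * 1) * f20 +
    (1 * 1) * f21 +
    (1 * 1) * f22 +
    (1 * 1) * f23 +
    (1 * 1) * f24 +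
    (1 * 1) * f25 +
    (1 * 1) * f26 +
    (1 * 1) * f27 +
    (1 * 1) * f28 +
    (1 * 1) * f29 +
    (1 * 1) * f30 +
    (1 * 1) * f31 +
    (1 * 1) * f32 +
    (1 * 1) * f33 +
    (-1 * 1 * (E 70 - E 71)) * f34 +
    (1) * f35

theorem qBv (h : TbH K E p) : pq (E 72) (TbBv E) = -E 2192 := by
  have f0 := (V7 h).2.2.2.1
  have f1 := (F39 h).2.2.2.2.2.2.2.1
  have f2 := (V7 h).2.2.2.2.1
  have f3 := (F39 h).2.2.2.2.2.2.2.2.1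
  have f4 := (V7 h).2.2.2.2.2.1
  have f5 := (F39 h).2.2.2.2.2.2.2.2.2.1
  have f6 := (V7 h).2.2.2.2.2.2.1
  have f7 := (F39 h).2.2.2.2.2.2.2.2.2.2.1
  have f8 := (F8 h).2.2.2.2.2.2.1
  have f9 := (F8 h).2.2.2.2.2.2.2.1
  have f10 := (F7 h).2.2.2.2.2.2.2.2.2.2.2.2.2.2.1
  have f11 := (F7 h).2.2.2.2.2.2.2.2.2.2.2.2.2.2.2.1
  have f12 := (rs37 h).q
  have f13 := (rs40 h).q
  have f14 := (rs43 h).q
  have f15 := (rs46 h).q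
  have f16 := (rs49 h).q
  have f17 := (rs52 h).q
  have f18 := (rs55 h).q
  have f19 := (rs58 h).q
  have f20 := (rs61 h).q
  have f21 := (rs64 h).q
  have f22 := (rs67 h).q
  have f23 := (rs70 h).q
  have f24 := (rs73 h).q
  have f25 := (rs76 h).q
  have f26 := (rs97 h).q
  have f27 := (rs106 h).q
  have f28 := (rs79 h).q
  have f29 := (rs82 h).q
  have f30 := (rs85 h).q
  have f31 := (rs88 h).q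
  have f32 := (rs91 h).q
  have f33 := (rs94 h).q
  have f34 := (rs100 h).q
  have f35 := (rs103 h).q
  have f36 := (V0 h).2.2.2.2.2.2.2.2.2.2.2.1
  have f37 := aqBv h
  simp only [TbBv, pq]
  linear_combination (((E 71) ^ 2 - (E 72) ^ 2) / 2) * f0 +
    (((E 71) ^ 3 - (E 72) ^ 3) / 3) * f1 +
    (((E 70) ^ 2 - (E 71) ^ 2) / 2) * f2 +
    (((E 70) ^ 3 - (E 71) ^ 3) / 3) * f3 +
    (((E 69) ^ 2 - (E 70) ^ 2) / 2) * f4 +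
    (((E 69) ^ 3 - (E 70) ^ 3) / 3) * f5 +
    (((E 68) ^ 2 - (E 69) ^ 2) / 2) * f6 +
    (((E 68) ^ 3 - (E 69) ^ 3) / 3) * f7 +
    (1 * (E 23)) * f8 +
    (-1 * (E 23) * E 72) * f9 +
    (-1 * (E 23)) * f10 +
    (1 * (E 23) * E 68) * f11 +
    (1 * 1) * f12 +
    (1 * 1) * f13 +
    (1 * 1) * f14 +
    (1 * 1) * f15 +
    (1 * 1) * f16 +
    (1 * 1) * f17 +
    (1 * 1) * f18 +
    (1 * 1) * f19 +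
    (1 * 1) * f20 +
    (1 * 1) * f21 +
    (1 * 1) * f22 +
    (1 * 1) * f23 +
    (1 * 1) * f24 +
    (1 * 1) * f25 +
    (1 * 1) * f26 +
    (1 * 1) * f27 +
    (1 * 1) * f28 +
    (1 * 1) * f29 +
    (1 * 1) * f30 +
    (1 * 1) * f31 +
    (1 * 1) * f32 +
    (1 * 1) * f33 +
    (1 * 1) * f34 +
    (1 * 1) * f35 +
    (-1 * 1 * ((E 70) ^ 2 - (E 71) ^ 2) / 2) * f36 +
    (1) * f37

theorem mBx (h : TbH K E p) : pm (E 65) (TbBx E) = -E 2193 := by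
  have f0 := (V7 h).2.2.2.2.2.2.2.1
  have f1 := (F39 h).2.2.2.2.2.2.2.2.2.2.2.1
  have f2 := (V7 h).2.2.2.2.2.2.2.2.1
  have f3 := (F39 h).2.2.2.2.2.2.2.2.2.2.2.2.1
  have f4 := (V7 h).2.2.2.2.2.2.2.2.2.1
  have f5 := (F39 h).2.2.2.2.2.2.2.2.2.2.2.2.2.1
  have f6 := (V7 h).2.2.2.2.2.2.2.2.2.2.1
  have f7 := (F39 h).2.2.2.2.2.2.2.2.2.2.2.2.2.2.1
  have f8 := (V7 h).2.2.2.2.2.2.2.2.2.2.2.1
  have f9 := (F39 h).2.2.2.2.2.2.2.2.2.2.2.2.2.2.2.1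
  have f10 := (V7 h).2.2.2.2.2.2.2.2.2.2.2.2.1
  have f11 := (F40 h).1
  have f12 := (V7 h).2.2.2.2.2.2.2.2.2.2.2.2.2.1
  have f13 := (F40 h).2.1
  have f14 := (V7 h).2.2.2.2.2.2.2.2.2.2.2.2.2.2.1
  have f15 := (F40 h).2.2.1
  have f16 := (F6 h).2.2.2.2.2.2.2.2.2.1
  have f17 := (F7 h).2.2.2.2.2.2.2.2.2.1
  have f18 := (rs83 h).m
  have f19 := (rs86 h).m
  have f20 := (rs98 h).m
  have f21 := (rs53 h).m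
  have f22 := (rs77 h).m
  have f23 := (rs80 h).m
  have f24 := (rs92 h).m
  have f25 := (rs50 h).m
  have f26 := (rs59 h).m
  have f27 := (rs62 h).m
  have f28 := (rs68 h).m
  have f29 := (rs71 h).m
  have f30 := (rs74 h).m
  have f31 := (rs44 h).m
  have f32 := (rs47 h).m
  have f33 := (rs56 h).m
  have f34 := (rs41 h).m
  have f35 := (rs38 h).m
  have f36 := amBx h
  simp only [TbBx, pm]
  linear_combination ((E 64 - E 65)) * f0 +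
    (((E 64) ^ 2 - (E 65) ^ 2) / 2) * f1 +
    ((E 63 - E 64)) * f2 +
    (((E 63) ^ 2 - (E 64) ^ 2) / 2) * f3 +
    ((E 62 - E 63)) * f4 +
    (((E 62) ^ 2 - (E 63) ^ 2) / 2) * f5 +
    ((E 61 - E 62)) * f6 +
    (((E 61) ^ 2 - (E 62) ^ 2) / 2) * f7 +
    ((E 60 - E 61)) * f8 +
    (((E 60) ^ 2 - (E 61) ^ 2) / 2) * f9 +
    ((E 59 - E 60)) * f10 +
    (((E 59) ^ 2 - (E 60) ^ 2) / 2) * f11 +
    ((E 58 - E 59)) * f12 +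
    (((E 58) ^ 2 - (E 59) ^ 2) / 2) * f13 +
    ((E 57 - E 58)) * f14 +
    (((E 57) ^ 2 - (E 58) ^ 2) / 2) * f15 +
    (1 * (E 24)) * f16 +
    (-1 * (E 24)) * f17 +
    (1 * 1) * f18 +
    (1 * 1) * f19 +
    (1 * 1) * f20 +
    (1 * 1) * f21 +
    (1 * 1) * f22 +
    (1 * 1) * f23 +
    (1 * 1) * f24 +
    (1 * 1) * f25 +
    (1 * 1) * f26 +
    (1 * 1) * f27 +
    (1 * 1) * f28 +
    (1 * 1) * f29 +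
    (1 * 1) * f30 +
    (1 * 1) * f31 +
    (1 * 1) * f32 +
    (1 * 1) * f33 +
    (1 * 1) * f34 +
    (1 * 1) * f35 +
    (1) * f36

theorem qBx (h : TbH K E p) : pq (E 65) (TbBx E) = -E 2195 := by
  have f0 := (V7 h).2.2.2.2.2.2.2.1
  have f1 := (F39 h).2.2.2.2.2.2.2.2.2.2.2.1
  have f2 := (V7 h).2.2.2.2.2.2.2.2.1
  have f3 := (F39 h).2.2.2.2.2.2.2.2.2.2.2.2.1
  have f4 := (V7 h).2.2.2.2.2.2.2.2.2.1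
  have f5 := (F39 h).2.2.2.2.2.2.2.2.2.2.2.2.2.1
  have f6 := (V7 h).2.2.2.2.2.2.2.2.2.2.1
  have f7 := (F39 h).2.2.2.2.2.2.2.2.2.2.2.2.2.2.1
  have f8 := (V7 h).2.2.2.2.2.2.2.2.2.2.2.1
  have f9 := (F39 h).2.2.2.2.2.2.2.2.2.2.2.2.2.2.2.1
  have f10 := (V7 h).2.2.2.2.2.2.2.2.2.2.2.2.1
  have f11 := (F40 h).1
  have f12 := (V7 h).2.2.2.2.2.2.2.2.2.2.2.2.2.1
  have f13 := (F40 h).2.1
  have f14 := (V7 h).2.2.2.2.2.2.2.2.2.2.2.2.2.2.1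
  have f15 := (F40 h).2.2.1
  have f16 := (F7 h).2.2.2.2.2.2.2.2.1
  have f17 := (F7 h).2.2.2.2.2.2.2.2.2.1
  have f18 := (F6 h).2.2.2.2.2.2.2.2.1
  have f19 := (F6 h).2.2.2.2.2.2.2.2.2.1
  have f20 := (rs83 h).q
  have f21 := (rs86 h).q
  have f22 := (rs98 h).q
  have f23 := (rs53 h).q
  have f24 := (rs77 h).q
  have f25 := (rs80 h).q
  have f26 := (rs92 h).q
  have f27 := (rs50 h).q
  have f28 := (rs59 h).q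
  have f29 := (rs62 h).q
  have f30 := (rs68 h).q
  have f31 := (rs71 h).q
  have f32 := (rs74 h).q
  have f33 := (rs44 h).q
  have f34 := (rs47 h).q
  have f35 := (rs56 h).q
  have f36 := (rs41 h).q
  have f37 := (rs38 h).q
  have f38 := aqBx h
  simp only [TbBx, pq]
  linear_combination (((E 64) ^ 2 - (E 65) ^ 2) / 2) * f0 +
    (((E 64) ^ 3 - (E 65) ^ 3) / 3) * f1 +
    (((E 63) ^ 2 - (E 64) ^ 2) / 2) * f2 +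
    (((E 63) ^ 3 - (E 64) ^ 3) / 3) * f3 +
    (((E 62) ^ 2 - (E 63) ^ 2) / 2) * f4 +
    (((E 62) ^ 3 - (E 63) ^ 3) / 3) * f5 +
    (((E 61) ^ 2 - (E 62) ^ 2) / 2) * f6 +
    (((E 61) ^ 3 - (E 62) ^ 3) / 3) * f7 +
    (((E 60) ^ 2 - (E 61) ^ 2) / 2) * f8 +
    (((E 60) ^ 3 - (E 61) ^ 3) / 3) * f9 +
    (((E 59) ^ 2 - (E 60) ^ 2) / 2) * f10 +
    (((E 59) ^ 3 - (E 60) ^ 3) / 3) * f11 +
    (((E 58) ^ 2 - (E 59) ^ 2) / 2) * f12 +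
    (((E 58) ^ 3 - (E 59) ^ 3) / 3) * f13 +
    (((E 57) ^ 2 - (E 58) ^ 2) / 2) * f14 +
    (((E 57) ^ 3 - (E 58) ^ 3) / 3) * f15 +
    (1 * (E 24)) * f16 +
    (-1 * (E 24) * E 65) * f17 +
    (-1 * (E 24)) * f18 +
    (1 * (E 24) * E 57) * f19 +
    (1 * 1) * f20 +
    (1 * 1) * f21 +
    (1 * 1) * f22 +
    (1 * 1) * f23 +
    (1 * 1) * f24 +
    (1 * 1) * f25 +
    (1 * 1) * f26 +
    (1 * 1) * f27 +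
    (1 * 1) * f28 +
    (1 * 1) * f29 +
    (1 * 1) * f30 +
    (1 * 1) * f31 +
    (1 * 1) * f32 +
    (1 * 1) * f33 +
    (1 * 1) * f34 +
    (1 * 1) * f35 +
    (1 * 1) * f36 +
    (1 * 1) * f37 +
    (1) * f38

theorem mE1t (h : TbH K E p) : pm (E 50) (TbE1t E) = E 2196 := by
  have f0 := amE1t h
  simp only [TbE1t, pm]
  linear_combination (-1) * f0

theorem qE1t (h : TbH K E p) : pq (E 50) (TbE1t E) = E 2198 := by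
  have f0 := aqE1t h
  simp only [TbE1t, pq]
  linear_combination (-1) * f0

theorem mE1v (h : TbH K E p) : pm (E 76) (TbE1v E) = E 2199 := by
  have f0 := (V7 h).2.2.2.2.2.2.2.2.2.2.2.2.2.2.2.1
  have f1 := (F40 h).2.2.2.1
  have f2 := (V8 h).1
  have f3 := (F40 h).2.2.2.2.1
  have f4 := (F8 h).2.2.2.2.2.2.2.2.2.2.2.2.2.2.2.1
  have f5 := (F9 h).2.2.2.1
  have f6 := (rs109 h).m
  have f7 := amE1v h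
  simp only [TbE1v, pm]
  linear_combination ((E 77 - E 76)) * f0 +
    (((E 77) ^ 2 - (E 76) ^ 2) / 2) * f1 +
    ((E 78 - E 77)) * f2 +
    (((E 78) ^ 2 - (E 77) ^ 2) / 2) * f3 +
    (-1 * (E 23)) * f4 +
    (1 * (E 23)) * f5 +
    (-1 * 1) * f6 +
    (-1) * f7

theorem qE1v (h : TbH K E p) : pq (E 76) (TbE1v E) = E 2201 := by
  have f0 := (V7 h).2.2.2.2.2.2.2.2.2.2.2.2.2.2.2.1
  have f1 := (F40 h).2.2.2.1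
  have f2 := (V8 h).1
  have f3 := (F40 h).2.2.2.2.1
  have f4 := (F9 h).2.2.1
  have f5 := (F9 h).2.2.2.1
  have f6 := (F8 h).2.2.2.2.2.2.2.2.2.2.2.2.2.2.1
  have f7 := (F8 h).2.2.2.2.2.2.2.2.2.2.2.2.2.2.2.1
  have f8 := (rs109 h).q
  have f9 := aqE1v h
  simp only [TbE1v, pq]
  linear_combination (((E 77) ^ 2 - (E 76) ^ 2) / 2) * f0 +
    (((E 77) ^ 3 - (E 76) ^ 3) / 3) * f1 +
    (((E 78) ^ 2 - (E 77) ^ 2) / 2) * f2 +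
    (((E 78) ^ 3 - (E 77) ^ 3) / 3) * f3 +
    (-1 * (E 23)) * f4 +
    (1 * (E 23) * E 78) * f5 +
    (1 * (E 23)) * f6 +
    (-1 * (E 23) * E 76) * f7 +
    (-1 * 1) * f8 +
    (-1) * f9

theorem mE1x (h : TbH K E p) : pm (E 52) (TbE1x E) = E 2202 := by
  have f0 := (V8 h).2.1
  have f1 := (F40 h).2.2.2.2.2.1
  have f2 := (F5 h).2.2.2.2.2.2.2.2.2.2.2.2.2.2.2.1
  have f3 := (F6 h).2.1
  have f4 := (rs110 h).m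
  have f5 := amE1x h
  simp only [TbE1x, pm]
  linear_combination ((E 53 - E 52)) * f0 +
    (((E 53) ^ 2 - (E 52) ^ 2) / 2) * f1 +
    (-1 * (E 24)) * f2 +
    (1 * (E 24)) * f3 +
    (-1 * 1) * f4 +
    (-1) * f5

theorem qE1x (h : TbH K E p) : pq (E 52) (TbE1x E) = E 2204 := by
  have f0 := (V8 h).2.1
  have f1 := (F40 h).2.2.2.2.2.1
  have f2 := (F6 h).1
  have f3 := (F6 h).2.1
  have f4 := (F5 h).2.2.2.2.2.2.2.2.2.2.2.2.2.2.1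
  have f5 := (F5 h).2.2.2.2.2.2.2.2.2.2.2.2.2.2.2.1
  have f6 := (rs110 h).q
  have f7 := aqE1x h
  simp only [TbE1x, pq]
  linear_combination (((E 53) ^ 2 - (E 52) ^ 2) / 2) * f0 +
    (((E 53) ^ 3 - (E 52) ^ 3) / 3) * f1 +
    (-1 * (E 24)) * f2 +
    (1 * (E 24) * E 53) * f3 +
    (1 * (E 24)) * f4 +
    (-1 * (E 24) * E 52) * f5 +
    (-1 * 1) * f6 +
    (-1) * f7

theorem mE2t (h : TbH K E p) : pm (E 50) (TbE2t E) = E 2205 := by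
  have f0 := amE2t h
  simp only [TbE2t, pm]
  linear_combination (-1) * f0

theorem qE2t (h : TbH K E p) : pq (E 50) (TbE2t E) = E 2207 := by
  have f0 := aqE2t h
  simp only [TbE2t, pq]
  linear_combination (-1) * f0

theorem mE2v (h : TbH K E p) : pm (E 78) (TbE2v E) = E 2208 := by
  have f0 := (V8 h).2.2.1
  have f1 := (F40 h).2.2.2.2.2.2.1
  have f2 := (F9 h).2.2.2.1
  have f3 := (F9 h).2.2.2.2.2.1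
  have f4 := amE2v h
  simp only [TbE2v, pm, hpi h, nw80 h] at f0 f1 f2 f3 f4 ⊢
  linear_combination ((π - E 78)) * f0 +
    (((π) ^ 2 - (E 78) ^ 2) / 2) * f1 +
    (-1 * (E 23)) * f2 +
    (1 * (E 23)) * f3 +
    (-1) * f4

theorem qE2v (h : TbH K E p) : pq (E 78) (TbE2v E) = E 2210 := by
  have f0 := (V8 h).2.2.1
  have f1 := (F40 h).2.2.2.2.2.2.1
  have f2 := (F9 h).2.2.2.2.1
  have f3 := (F9 h).2.2.2.2.2.1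
  have f4 := (F9 h).2.2.1
  have f5 := (F9 h).2.2.2.1
  have f6 := aqE2v h
  simp only [TbE2v, pq, hpi h, nw80 h] at f0 f1 f2 f3 f4 f5 f6 ⊢
  linear_combination (((π) ^ 2 - (E 78) ^ 2) / 2) * f0 +
    (((π) ^ 3 - (E 78) ^ 3) / 3) * f1 +
    (-1 * (E 23)) * f2 +
    (1 * (E 23) * π) * f3 +
    (1 * (E 23)) * f4 +
    (-1 * (E 23) * E 78) * f5 +
    (-1) * f6

theorem mE2x (h : TbH K E p) : pm (E 51) (TbE2x E) = E 2211 := by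
  have f0 := amE2x h
  simp only [TbE2x, pm]
  linear_combination (-1) * f0

theorem qE2x (h : TbH K E p) : pq (E 51) (TbE2x E) = E 2213 := by
  have f0 := aqE2x h
  simp only [TbE2x, pq]
  linear_combination (-1) * f0

theorem mE3t (h : TbH K E p) : pm (E 51) (TbE3t E) = -E 2214 := by
  have f0 := (V8 h).2.2.2.1
  have f1 := (F40 h).2.2.2.2.2.2.2.1
  have f2 := (F5 h).2.2.2.2.2.2.2.2.2.2.2.1
  have f3 := (F5 h).2.2.2.2.2.2.2.2.2.2.2.2.2.1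
  have f4 := (rs108 h).m
  have f5 := amE3t h
  simp only [TbE3t, pm]
  linear_combination ((E 50 - E 51)) * f0 +
    (((E 50) ^ 2 - (E 51) ^ 2) / 2) * f1 +
    (1 * (((1 : ℤ) : ℝ) / ((1 : ℕ) : ℝ))) * f2 +
    (-1 * (((1 : ℤ) : ℝ) / ((1 : ℕ) : ℝ))) * f3 +
    (1 * 1) * f4 +
    (1) * f5

theorem qE3t (h : TbH K E p) : pq (E 51) (TbE3t E) = -E 2216 := by
  have f0 := (V8 h).2.2.2.1
  have f1 := (F40 h).2.2.2.2.2.2.2.1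
  have f2 := (F5 h).2.2.2.2.2.2.2.2.2.2.2.2.1
  have f3 := (F5 h).2.2.2.2.2.2.2.2.2.2.2.2.2.1
  have f4 := (F5 h).2.2.2.2.2.2.2.2.2.2.1
  have f5 := (F5 h).2.2.2.2.2.2.2.2.2.2.2.1
  have f6 := (rs108 h).q
  have f7 := aqE3t h
  simp only [TbE3t, pq]
  linear_combination (((E 50) ^ 2 - (E 51) ^ 2) / 2) * f0 +
    (((E 50) ^ 3 - (E 51) ^ 3) / 3) * f1 +
    (1 * (((1 : ℤ) : ℝ) / ((1 : ℕ) : ℝ))) * f2 +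
    (-1 * (((1 : ℤ) : ℝ) / ((1 : ℕ) : ℝ)) * E 51) * f3 +
    (-1 * (((1 : ℤ) : ℝ) / ((1 : ℕ) : ℝ))) * f4 +
    (1 * (((1 : ℤ) : ℝ) / ((1 : ℕ) : ℝ)) * E 50) * f5 +
    (1 * 1) * f6 +
    (1) * f7

theorem mE3v (h : TbH K E p) : pm (E 80) (TbE3v E) = -E 2217 := by
  have f0 := amE3v h
  simp only [TbE3v, pm]
  linear_combination (1) * f0

theorem qE3v (h : TbH K E p) : pq (E 80) (TbE3v E) = -E 2219 := by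
  have f0 := aqE3v h
  simp only [TbE3v, pq]
  linear_combination (1) * f0

theorem mE3x (h : TbH K E p) : pm (E 52) (TbE3x E) = -E 2220 := by
  have f0 := (V8 h).2.2.2.2.1
  have f1 := (F40 h).2.2.2.2.2.2.2.2.1
  have f2 := (F5 h).2.2.2.2.2.2.2.2.2.2.2.2.2.1
  have f3 := (F5 h).2.2.2.2.2.2.2.2.2.2.2.2.2.2.2.1
  have f4 := amE3x h
  simp only [TbE3x, pm]
  linear_combination ((E 51 - E 52)) * f0 +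
    (((E 51) ^ 2 - (E 52) ^ 2) / 2) * f1 +
    (1 * (E 24)) * f2 +
    (-1 * (E 24)) * f3 +
    (1) * f4

theorem qE3x (h : TbH K E p) : pq (E 52) (TbE3x E) = -E 2222 := by
  have f0 := (V8 h).2.2.2.2.1
  have f1 := (F40 h).2.2.2.2.2.2.2.2.1
  have f2 := (F5 h).2.2.2.2.2.2.2.2.2.2.2.2.2.2.1
  have f3 := (F5 h).2.2.2.2.2.2.2.2.2.2.2.2.2.2.2.1
  have f4 := (F5 h).2.2.2.2.2.2.2.2.2.2.2.2.1
  have f5 := (F5 h).2.2.2.2.2.2.2.2.2.2.2.2.2.1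
  have f6 := aqE3x h
  simp only [TbE3x, pq]
  linear_combination (((E 51) ^ 2 - (E 52) ^ 2) / 2) * f0 +
    (((E 51) ^ 3 - (E 52) ^ 3) / 3) * f1 +
    (1 * (E 24)) * f2 +
    (-1 * (E 24) * E 52) * f3 +
    (-1 * (E 24)) * f4 +
    (1 * (E 24) * E 51) * f5 +
    (1) * f6

end Tb

end Pool.Agent.MP_e5b4ec_an.Mid
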