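import Pool.Agent.MP_e5b4ec_an.Mid.TbA

set_option maxRecDepth 20000
set_option linter.unusedSimpArgs false
set_option linter.unusedVariables false

open Real

namespace Pool.Agent.MP_e5b4ec_an.Mid

namespace Tb

variable {K E p : ℕ → ℝ}

theorem GC02_0 (h : TbH K E p) : E 308 * E 311 + E 309 = 0 := by
  have i := inv_reg (P0 h).1 (F18 h).1
  linear_combination E 308 * (F18 h).2.1 - (E 309) * i

theorem GC01_0 (h : TbH K E p) : E 312 * E 324 + E 313 * E 323 + E 314 = 0 := by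
  have i := inv_reg (P0 h).2.1 (F18 h).2.2.2.2.2.2.2.2.1
  linear_combination E 312 * (F18 h).2.2.2.2.2.2.2.2.2.2.2.2.2.2.1 - ((E 314) + ((E 313) * (E 323))) * i

theorem GC03_1 (h : TbH K E p) : E 320 * E 323 + E 321 = 0 := by
  have i := inv_reg (P0 h).2.2.1 (F18 h).2.2.2.2.2.2.2.2.2.2.2.2.1
  linear_combination E 320 * (F18 h).2.2.2.2.2.2.2.2.2.2.2.2.2.1 - (E 321) * i

theorem GC03_0 (h : TbH K E p) : E 315 * E 324 + E 316 * E 323 + E 317 = 0 := by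
  have i := inv_reg (P0 h).2.1 (F18 h).2.2.2.2.2.2.2.2.1
  linear_combination GC03_1 h + (1) * E 319 * GC01_0 h + (-1) * (F18 h).2.2.2.2.2.2.2.2.2.2.2.1 + (-E 323) * (F18 h).2.2.2.2.2.2.2.2.2.2.1 + (-1) * E 312 * E 324 * (F18 h).2.2.2.2.2.2.2.2.2.1 + (-E 315 * E 324) * i

theorem GC11_0 (h : TbH K E p) : E 325 * E 337 + E 326 * E 336 + E 327 = 0 := by
  have i := inv_reg (P0 h).2.2.2.1 (F19 h).2.2.2.2.2.1
  linear_combination E 325 * (F19 h).2.2.2.2.2.2.2.2.2.2.2.1 - ((E 327) + ((E 326) * (E 336))) * i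

theorem GC13_1 (h : TbH K E p) : E 333 * E 336 + E 334 = 0 := by
  have i := inv_reg (P0 h).2.2.2.2.1 (F19 h).2.2.2.2.2.2.2.2.2.1
  linear_combination E 333 * (F19 h).2.2.2.2.2.2.2.2.2.2.1 - (E 334) * i

theorem GC13_0 (h : TbH K E p) : E 328 * E 337 + E 329 * E 336 + E 330 = 0 := by
  have i := inv_reg (P0 h).2.2.2.1 (F19 h).2.2.2.2.2.1
  linear_combination GC13_1 h + (1) * E 332 * GC11_0 h + (-1) * (F19 h).2.2.2.2.2.2.2.2.1 + (-E 336) * (F19 h).2.2.2.2.2.2.2.1 + (-1) * E 325 * E 337 * (F19 h).2.2.2.2.2.2.1 + (-E 328 * E 337) * i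

theorem GD11_0 (h : TbH K E p) : E 339 * E 400 + E 338 * E 401 + E 340 * E 403 + E 341 * E 399 + E 342 = 0 := by
  have i := inv_reg (P0 h).2.2.2.2.2.1 (F21 h).2.2.2.2.2.1
  linear_combination E 340 * (F23 h).2.2.2.2.2.2.2.2.2.2.2.2.2.1 - ((((E 342) + ((E 338) * (E 401))) + ((E 339) * (E 400))) + ((E 341) * (E 399))) * i

theorem GD12_1 (h : TbH K E p) : E 367 * E 400 + E 365 * E 401 + E 344 * E 402 + E 366 * E 399 + E 368 = 0 := by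
  have i := inv_reg (P0 h).2.2.2.2.2.2.1 (F22 h).1
  linear_combination E 344 * (F23 h).2.2.2.2.2.2.2.2.2.2.2.2.1 - ((((E 368) + ((E 365) * (E 401))) + ((E 366) * (E 399))) + ((E 367) * (E 400))) * i

theorem GD12_0 (h : TbH K E p) : E 345 * E 400 + E 344 * E 402 + E 346 * E 403 + E 343 * E 399 + E 347 = 0 := by
  have i := inv_reg (P0 h).2.2.2.2.2.1 (F21 h).2.2.2.2.2.1
  linear_combination GD12_1 h + (1) * E 364 * GD11_0 h + (-1) * (F21 h).2.2.2.2.2.2.2.2.2.2.1 + (-E 401) * (F21 h).2.2.2.2.2.2.2.1 + (-E 399) * (F21 h).2.2.2.2.2.2.2.2.1 + (-E 400) * (F21 h).2.2.2.2.2.2.2.2.2.1 + (-1) * E 340 * E 403 * (F21 h).2.2.2.2.2.2.1 + (-E 346 * E 403) * i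

theorem GD21_0 (h : TbH K E p) : E 356 * E 400 + E 354 * E 401 + E 355 * E 399 + E 357 = 0 := by
  have i := inv_reg (P0 h).2.2.2.2.2.2.2.1 (F22 h).2.2.2.2.2.2.2.2.2.2.2.1
  linear_combination E 354 * (F23 h).2.2.2.2.2.2.2.2.2.2.2.1 - (((E 357) + ((E 355) * (E 399))) + ((E 356) * (E 400))) * i

theorem GD13_3 (h : TbH K E p) : E 387 * E 400 + E 388 * E 399 + E 389 = 0 := by
  have i := inv_reg (P0 h).2.2.2.2.2.2.2.2.1 (F23 h).2.2.2.2.1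
  linear_combination E 387 * (F23 h).2.2.2.2.2.2.2.2.2.2.1 - ((E 389) + ((E 388) * (E 399))) * i

theorem GD13_2 (h : TbH K E p) : E 378 * E 400 + E 376 * E 401 + E 377 * E 399 + E 379 = 0 := by
  have i := inv_reg (P0 h).2.2.2.2.2.2.2.1 (F22 h).2.2.2.2.2.2.2.2.2.2.2.1
  linear_combination GD13_3 h + (-1) * E 386 * GD21_0 h + (-1) * (F22 h).2.2.2.2.2.2.2.2.2.2.2.2.2.2.2.1 + (-E 400) * (F22 h).2.2.2.2.2.2.2.2.2.2.2.2.2.1 + (-E 399) * (F22 h).2.2.2.2.2.2.2.2.2.2.2.2.2.2.1 + (1) * E 354 * E 401 * (F22 h).2.2.2.2.2.2.2.2.2.2.2.2.1 + (-E 376 * E 401) * i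

theorem GD13_1 (h : TbH K E p) : E 372 * E 400 + E 370 * E 401 + E 350 * E 402 + E 371 * E 399 + E 373 = 0 := by
  have i := inv_reg (P0 h).2.2.2.2.2.2.1 (F22 h).1
  linear_combination GD13_2 h + (-1) * E 375 * GD12_1 h + (-1) * (F22 h).2.2.2.2.2.1 + (-E 401) * (F22 h).2.2.1 + (-E 399) * (F22 h).2.2.2.1 + (-E 400) * (F22 h).2.2.2.2.1 + (1) * E 344 * E 402 * (F22 h).2.1 + (-E 350 * E 402) * i

theorem GD13_0 (h : TbH K E p) : E 351 * E 400 + E 348 * E 401 + E 350 * E 402 + E 352 * E 403 + E 349 * E 399 + E 353 = 0 := by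
  have i := inv_reg (P0 h).2.2.2.2.2.1 (F21 h).2.2.2.2.2.1
  linear_combination GD13_1 h + (1) * E 369 * GD11_0 h + (-1) * (F21 h).2.2.2.2.2.2.2.2.2.2.2.2.2.2.2.1 + (-E 401) * (F21 h).2.2.2.2.2.2.2.2.2.2.2.2.1 + (-E 399) * (F21 h).2.2.2.2.2.2.2.2.2.2.2.2.2.1 + (-E 400) * (F21 h).2.2.2.2.2.2.2.2.2.2.2.2.2.2.1 + (-1) * E 340 * E 403 * (F21 h).2.2.2.2.2.2.2.2.2.2.2.1 + (-E 352 * E 403) * i

theorem GD23_3 (h : TbH K E p) : E 396 * E 399 + E 397 = 0 := by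
  have i := inv_reg (P0 h).2.2.2.2.2.2.2.2.2.1 (F23 h).2.2.2.2.2.2.2.2.1
  linear_combination E 396 * (F23 h).2.2.2.2.2.2.2.2.2.1 - (E 397) * i

theorem GD23_2 (h : TbH K E p) : E 391 * E 400 + E 392 * E 399 + E 393 = 0 := by
  have i := inv_reg (P0 h).2.2.2.2.2.2.2.2.1 (F23 h).2.2.2.2.1
  linear_combination GD23_3 h + (-1) * E 395 * GD13_3 h + (-1) * (F23 h).2.2.2.2.2.2.2.1 + (-E 399) * (F23 h).2.2.2.2.2.2.1 + (1) * E 387 * E 400 * (F23 h).2.2.2.2.2.1 + (-E 391 * E 400) * i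

theorem GD23_1 (h : TbH K E p) : E 383 * E 400 + E 381 * E 401 + E 382 * E 399 + E 384 = 0 := by
  have i := inv_reg (P0 h).2.2.2.2.2.2.2.1 (F22 h).2.2.2.2.2.2.2.2.2.2.2.1
  linear_combination GD23_2 h + (-1) * E 390 * GD21_0 h + (-1) * (F23 h).2.2.2.1 + (-E 400) * (F23 h).2.1 + (-E 399) * (F23 h).2.2.1 + (1) * E 354 * E 401 * (F23 h).1 + (-E 381 * E 401) * i

theorem GD23_0 (h : TbH K E p) : E 361 * E 400 + E 358 * E 401 + E 360 * E 402 + E 359 * E 399 + E 362 = 0 := by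
  have i := inv_reg (P0 h).2.2.2.2.2.2.1 (F22 h).1
  linear_combination GD23_1 h + (-1) * E 380 * GD12_1 h + (-1) * (F22 h).2.2.2.2.2.2.2.2.2.2.1 + (-E 401) * (F22 h).2.2.2.2.2.2.2.1 + (-E 399) * (F22 h).2.2.2.2.2.2.2.2.1 + (-E 400) * (F22 h).2.2.2.2.2.2.2.2.2.1 + (1) * E 344 * E 402 * (F22 h).2.2.2.2.2.2.1 + (-E 360 * E 402) * i

theorem GA1_0 (h : TbH K E p) : E 404 * E 426 + E 405 * E 425 + E 406 * E 427 + E 407 = 0 := by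
  have i := inv_reg (P0 h).2.2.2.2.2.2.2.2.2.2.1 (F24 h).2.2.2.2.2.2.2.2.2.1
  linear_combination E 406 * (F25 h).2.2.2.2.2.1 - (((E 407) + ((E 404) * (E 426))) + ((E 405) * (E 425))) * i

theorem GB1_0 (h : TbH K E p) : E 412 * E 426 + E 413 * E 425 + E 414 = 0 := by
  have i := inv_reg (P0 h).2.2.2.2.2.2.2.2.2.2.2.1 (F24 h).2.2.2.2.2.2.2.2.2.2.2.2.2.2.1
  linear_combination E 412 * (F25 h).2.2.2.2.1 - ((E 414) + ((E 413) * (E 425))) * i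

theorem GA3_2 (h : TbH K E p) : E 422 * E 425 + E 423 = 0 := by
  have i := inv_reg (P0 h).2.2.2.2.2.2.2.2.2.2.2.2.1 (F25 h).2.2.1
  linear_combination E 422 * (F25 h).2.2.2.1 - (E 423) * i

theorem GA3_1 (h : TbH K E p) : E 417 * E 426 + E 418 * E 425 + E 419 = 0 := by
  have i := inv_reg (P0 h).2.2.2.2.2.2.2.2.2.2.2.1 (F24 h).2.2.2.2.2.2.2.2.2.2.2.2.2.2.1
  linear_combination GA3_2 h + (-1) * E 421 * GB1_0 h + (-1) * (F25 h).2.1 + (-E 425) * (F25 h).1 + (1) * E 412 * E 426 * (F24 h).2.2.2.2.2.2.2.2.2.2.2.2.2.2.2.1 + (-E 417 * E 426) * i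

theorem GA3_0 (h : TbH K E p) : E 408 * E 426 + E 409 * E 425 + E 410 * E 427 + E 411 = 0 := by
  have i := inv_reg (P0 h).2.2.2.2.2.2.2.2.2.2.1 (F24 h).2.2.2.2.2.2.2.2.2.1
  linear_combination GA3_1 h + (1) * E 416 * GA1_0 h + (-1) * (F24 h).2.2.2.2.2.2.2.2.2.2.2.2.2.1 + (-E 426) * (F24 h).2.2.2.2.2.2.2.2.2.2.2.1 + (-E 425) * (F24 h).2.2.2.2.2.2.2.2.2.2.2.2.1 + (-1) * E 406 * E 427 * (F24 h).2.2.2.2.2.2.2.2.2.2.1 + (-E 410 * E 427) * i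

theorem GT1_0 (h : TbH K E p) : E 428 * E 431 + E 429 = 0 := by
  have i := inv_reg (P0 h).2.2.2.2.2.2.2.2.2.2.2.2.2.1 (F25 h).2.2.2.2.2.2.2.2.1
  linear_combination E 428 * (F25 h).2.2.2.2.2.2.2.2.2.1 - (E 429) * i

theorem GT2_0 (h : TbH K E p) : E 432 * E 444 + E 433 * E 443 + E 434 = 0 := by
  have i := inv_reg (P0 h).2.2.2.2.2.2.2.2.2.2.2.2.2.2.1 (F26 h).1
  linear_combination E 432 * (F26 h).2.2.2.2.2.2.1 - ((E 434) + ((E 433) * (E 443))) * i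

theorem GT3_1 (h : TbH K E p) : E 440 * E 443 + E 441 = 0 := by
  have i := inv_reg (P0 h).2.2.2.2.2.2.2.2.2.2.2.2.2.2.2.1 (F26 h).2.2.2.2.1
  linear_combination E 440 * (F26 h).2.2.2.2.2.1 - (E 441) * i

theorem GT3_0 (h : TbH K E p) : E 435 * E 444 + E 436 * E 443 + E 437 = 0 := by
  have i := inv_reg (P0 h).2.2.2.2.2.2.2.2.2.2.2.2.2.2.1 (F26 h).1
  linear_combination GT3_1 h + (1) * E 439 * GT2_0 h + (-1) * (F26 h).2.2.2.1 + (-E 443) * (F26 h).2.2.1 + (-1) * E 432 * E 444 * (F26 h).2.1 + (-E 435 * E 444) * i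

theorem GE11_0 (h : TbH K E p) : E 445 * E 502 + E 446 * E 501 + E 447 = 0 := by
  have i := inv_reg (P1 h).1 (F28 h).2.1
  linear_combination E 445 * (F30 h).1 - ((E 447) + ((E 446) * (E 501))) * i

theorem GE13_1 (h : TbH K E p) : E 453 * E 500 + E 473 * E 501 + E 474 = 0 := by
  have i := inv_reg (P1 h).2.1 (F28 h).2.2.2.2.2.1
  linear_combination E 473 * (F29 h).2.2.2.2.2.2.2.2.2.2.2.2.2.2.2.1 - ((E 474) + ((E 453) * (E 500))) * i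

theorem GE13_0 (h : TbH K E p) : E 451 * E 502 + E 453 * E 500 + E 452 * E 501 + E 454 = 0 := by
  have i := inv_reg (P1 h).1 (F28 h).2.1
  linear_combination GE13_1 h + (1) * E 472 * GE11_0 h + (-1) * (F28 h).2.2.2.2.1 + (-E 501) * (F28 h).2.2.2.1 + (-1) * E 445 * E 502 * (F28 h).2.2.1 + (-E 451 * E 502) * i

theorem GE12_1 (h : TbH K E p) : E 477 * E 500 + E 478 = 0 := by
  have i := inv_reg (P1 h).2.2.1 (F28 h).2.2.2.2.2.2.2.2.2.1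
  linear_combination E 477 * (F29 h).2.2.2.2.2.2.2.2.2.2.2.2.2.2.1 - (E 478) * i

theorem GE12_0 (h : TbH K E p) : E 449 * E 500 + E 448 * E 501 + E 450 = 0 := by
  have i := inv_reg (P1 h).2.1 (F28 h).2.2.2.2.2.1
  linear_combination GE12_1 h + (-1) * E 476 * GE13_1 h + (-1) * (F28 h).2.2.2.2.2.2.2.2.1 + (-E 500) * (F28 h).2.2.2.2.2.2.2.1 + (1) * E 473 * E 501 * (F28 h).2.2.2.2.2.2.1 + (-E 448 * E 501) * i

theorem GE21_0 (h : TbH K E p) : E 455 * E 499 + E 456 * E 496 + E 457 = 0 := by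
  have i := inv_reg (P1 h).2.2.2.1 (F28 h).2.2.2.2.2.2.2.2.2.2.2.2.1
  linear_combination E 455 * (F29 h).2.2.2.2.2.2.2.2.2.2.2.2.2.1 - ((E 457) + ((E 456) * (E 496))) * i

theorem GE22_0 (h : TbH K E p) : E 458 * E 498 + E 460 * E 496 + E 459 * E 497 + E 461 = 0 := by
  have i := inv_reg (P1 h).2.2.2.2.1 (F29 h).1
  linear_combination E 458 * (F29 h).2.2.2.2.2.2.2.2.2.2.2.2.1 - (((E 461) + ((E 459) * (E 497))) + ((E 460) * (E 496))) * i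

theorem GE32_1 (h : TbH K E p) : E 469 * E 496 + E 467 * E 497 + E 481 = 0 := by
  have i := inv_reg (P1 h).2.2.2.2.2.1 (F29 h).2.2.2.2.2.1
  linear_combination E 467 * (F29 h).2.2.2.2.2.2.2.2.2.2.2.1 - ((E 481) + ((E 469) * (E 496))) * i

theorem GE32_0 (h : TbH K E p) : E 469 * E 496 + E 467 * E 497 + E 468 * E 500 + E 470 = 0 := by
  have i := inv_reg (P1 h).2.2.1 (F28 h).2.2.2.2.2.2.2.2.2.1
  linear_combination GE32_1 h + (-1) * E 480 * GE12_1 h + (-1) * (F28 h).2.2.2.2.2.2.2.2.2.2.2.1 + (1) * E 477 * E 500 * (F28 h).2.2.2.2.2.2.2.2.2.2.1 + (-E 468 * E 500) * i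

theorem GE23_3 (h : TbH K E p) : E 493 * E 496 + E 494 = 0 := by
  have i := inv_reg (P1 h).2.2.2.2.2.2.1 (F29 h).2.2.2.2.2.2.2.2.2.1
  linear_combination E 493 * (F29 h).2.2.2.2.2.2.2.2.2.2.1 - (E 494) * i

theorem GE23_2 (h : TbH K E p) : E 488 * E 496 + E 489 * E 497 + E 490 = 0 := by
  have i := inv_reg (P1 h).2.2.2.2.2.1 (F29 h).2.2.2.2.2.1
  linear_combination GE23_3 h + (1) * E 492 * GE32_1 h + (-1) * (F29 h).2.2.2.2.2.2.2.2.1 + (-E 496) * (F29 h).2.2.2.2.2.2.2.1 + (-1) * E 467 * E 497 * (F29 h).2.2.2.2.2.2.1 + (-E 489 * E 497) * i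

theorem GE23_1 (h : TbH K E p) : E 463 * E 498 + E 484 * E 496 + E 464 * E 497 + E 485 = 0 := by
  have i := inv_reg (P1 h).2.2.2.2.1 (F29 h).1
  linear_combination GE23_2 h + (1) * E 487 * GE22_0 h + (-1) * (F29 h).2.2.2.2.1 + (-E 496) * (F29 h).2.2.1 + (-E 497) * (F29 h).2.2.2.1 + (-1) * E 458 * E 498 * (F29 h).2.1 + (-E 463 * E 498) * i

theorem GE23_0 (h : TbH K E p) : E 462 * E 499 + E 463 * E 498 + E 465 * E 496 + E 464 * E 497 + E 466 = 0 := by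
  have i := inv_reg (P1 h).2.2.2.1 (F28 h).2.2.2.2.2.2.2.2.2.2.2.2.1
  linear_combination GE23_1 h + (1) * E 483 * GE21_0 h + (-1) * (F28 h).2.2.2.2.2.2.2.2.2.2.2.2.2.2.2.1 + (-E 496) * (F28 h).2.2.2.2.2.2.2.2.2.2.2.2.2.2.1 + (-1) * E 455 * E 499 * (F28 h).2.2.2.2.2.2.2.2.2.2.2.2.2.1 + (-E 462 * E 499) * i

theorem XC02 (h : TbH K E p) : E 2136 = E 2139 := by
  linear_combination GC02_0 h + (V8 h).2.2.2.2.2.2.2.2.1 - (V8 h).2.2.2.2.2.2.2.2.2.2.2.1 + (-1) * (F17 h).2.2.2.2.2.2.2.2.2.2.2.2.2.2.2.1 + (-E 311) * (F17 h).2.2.2.2.2.2.2.2.2.2.2.2.2.2.1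

theorem XC01 (h : TbH K E p) : E 2133 = E 2139 := by
  linear_combination GC01_0 h + (V8 h).2.2.2.2.2.1 - (V8 h).2.2.2.2.2.2.2.2.2.2.2.1 + (-1) * (F18 h).2.2.2.2.1 + (-E 324) * (F18 h).2.2.1 + (-E 323) * (F18 h).2.2.2.1

theorem XC11 (h : TbH K E p) : E 2142 = E 2148 := by
  linear_combination GC11_0 h + (V8 h).2.2.2.2.2.2.2.2.2.2.2.2.2.2.1 - (V9 h).2.2.2.2.1 + (-1) * (F19 h).2.1 + (-E 337) * (F18 h).2.2.2.2.2.2.2.2.2.2.2.2.2.2.2.1 + (-E 336) * (F19 h).1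

theorem XD11 (h : TbH K E p) : E 2151 = E 2157 := by
  linear_combination GD11_0 h + (V9 h).2.2.2.2.2.2.2.1 - (V9 h).2.2.2.2.2.2.2.2.2.2.2.2.2.1 + (-1) * (F20 h).1 + (-E 401) * (F19 h).2.2.2.2.2.2.2.2.2.2.2.2.1 + (-E 400) * (F19 h).2.2.2.2.2.2.2.2.2.2.2.2.2.1 + (-E 403) * (F19 h).2.2.2.2.2.2.2.2.2.2.2.2.2.2.1 + (-E 399) * (F19 h).2.2.2.2.2.2.2.2.2.2.2.2.2.2.2.1

theorem XD12 (h : TbH K E p) : E 2154 = E 2157 := by
  linear_combination GD12_0 h + (V9 h).2.2.2.2.2.2.2.2.2.2.1 - (V9 h).2.2.2.2.2.2.2.2.2.2.2.2.2.1 + (-1) * (F20 h).2.2.2.2.2.1 + (-E 399) * (F20 h).2.1 + (-E 402) * (F20 h).2.2.1 + (-E 400) * (F20 h).2.2.2.1 + (-E 403) * (F20 h).2.2.2.2.1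

theorem XD21 (h : TbH K E p) : E 2160 = E 2166 := by
  linear_combination GD21_0 h + (V10 h).1 - (V10 h).2.2.2.2.2.2.1 + (-1) * (F20 h).2.2.2.2.2.2.2.2.2.2.2.2.2.2.2.1 + (-E 401) * (F20 h).2.2.2.2.2.2.2.2.2.2.2.2.1 + (-E 399) * (F20 h).2.2.2.2.2.2.2.2.2.2.2.2.2.1 + (-E 400) * (F20 h).2.2.2.2.2.2.2.2.2.2.2.2.2.2.1

theorem XA1 (h : TbH K E p) : E 2169 = E 2175 := by
  linear_combination GA1_0 h + (V10 h).2.2.2.2.2.2.2.2.2.1 - (V10 h).2.2.2.2.2.2.2.2.2.2.2.2.2.2.2.1 + (-1) * (F24 h).2.1 + (-E 426) * (F23 h).2.2.2.2.2.2.2.2.2.2.2.2.2.2.1 + (-E 425) * (F23 h).2.2.2.2.2.2.2.2.2.2.2.2.2.2.2.1 + (-E 427) * (F24 h).1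

theorem XB1 (h : TbH K E p) : E 2187 = E 2193 := by
  linear_combination GB1_0 h + (V11 h).2.2.2.2.2.2.2.2.2.2.2.1 - (V12 h).2.1 + (-1) * (F24 h).2.2.2.2.2.2.2.2.1 + (-E 426) * (F24 h).2.2.2.2.2.2.1 + (-E 425) * (F24 h).2.2.2.2.2.2.2.1

theorem XT1 (h : TbH K E p) : E 2178 = E 2184 := by
  linear_combination GT1_0 h + (V11 h).2.2.1 - (V11 h).2.2.2.2.2.2.2.2.1 + (-1) * (F25 h).2.2.2.2.2.2.2.1 + (-E 431) * (F25 h).2.2.2.2.2.2.1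

theorem XT2 (h : TbH K E p) : E 2181 = E 2184 := by
  linear_combination GT2_0 h + (V11 h).2.2.2.2.2.1 - (V11 h).2.2.2.2.2.2.2.2.1 + (-1) * (F25 h).2.2.2.2.2.2.2.2.2.2.2.2.1 + (-E 444) * (F25 h).2.2.2.2.2.2.2.2.2.2.1 + (-E 443) * (F25 h).2.2.2.2.2.2.2.2.2.2.2.1

theorem XE11 (h : TbH K E p) : E 2196 = E 2202 := by
  linear_combination GE11_0 h + (V12 h).2.2.2.2.1 - (V12 h).2.2.2.2.2.2.2.2.2.2.1 + (-1) * (F26 h).2.2.2.2.2.2.2.2.2.1 + (-E 502) * (F26 h).2.2.2.2.2.2.2.1 + (-E 501) * (F26 h).2.2.2.2.2.2.2.2.1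

theorem XE12 (h : TbH K E p) : E 2199 = E 2202 := by
  linear_combination GE12_0 h + (V12 h).2.2.2.2.2.2.2.1 - (V12 h).2.2.2.2.2.2.2.2.2.2.1 + (-1) * (F26 h).2.2.2.2.2.2.2.2.2.2.2.2.1 + (-E 501) * (F26 h).2.2.2.2.2.2.2.2.2.2.1 + (-E 500) * (F26 h).2.2.2.2.2.2.2.2.2.2.2.1

theorem XE21 (h : TbH K E p) : E 2205 = E 2211 := by
  linear_combination GE21_0 h + (V12 h).2.2.2.2.2.2.2.2.2.2.2.2.2.1 - (V13 h).2.2.2.1 + (-1) * (F27 h).2.2.2.1 + (-E 499) * (F27 h).2.1 + (-E 496) * (F27 h).2.2.1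

theorem XE22 (h : TbH K E p) : E 2208 = E 2211 := by
  linear_combination GE22_0 h + (V13 h).1 - (V13 h).2.2.2.1 + (-1) * (F27 h).2.2.2.2.2.2.2.1 + (-E 498) * (F27 h).2.2.2.2.1 + (-E 497) * (F27 h).2.2.2.2.2.1 + (-E 496) * (F27 h).2.2.2.2.2.2.1

theorem XE32 (h : TbH K E p) : E 2217 = E 2220 := by
  linear_combination GE32_0 h + (V13 h).2.2.2.2.2.2.2.2.2.1 - (V13 h).2.2.2.2.2.2.2.2.2.2.2.2.1 + (-1) * (F28 h).1 + (-E 497) * (F27 h).2.2.2.2.2.2.2.2.2.2.2.2.2.1 + (-E 500) * (F27 h).2.2.2.2.2.2.2.2.2.2.2.2.2.2.1 + (-E 496) * (F27 h).2.2.2.2.2.2.2.2.2.2.2.2.2.2.2.1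

theorem XC12 (h : TbH K E p) : E 2145 = E 2148 := by
  linear_combination (amC0v h + amC1v h) - (amC0x h + amC1x h) + clC h.ht (hV h) (hX h) - E 23 * mu10 h + E 24 * mu5 h - (XC02 h)

theorem XD22 (h : TbH K E p) : E 2163 = E 2166 := by
  linear_combination (amD1v h + amD2v h) - (amD1t h + amD2t h) + clD h.ht (hV h) - E 23 * mu9 h + mu1 h + (XD11 h + XD21 h) - (XD12 h)

theorem XB2 (h : TbH K E p) : E 2190 = E 2193 := by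
  linear_combination (amTv h + amBv h) - (amTx h + amBx h) + clB h.ht (hV h) (hX h) - E 23 * mu8 h + E 24 * mu7 h - (XT2 h) + (0 * hz h) - ((-1) * 1 * (rs89 h).m + (-1) * 1 * (rs95 h).m + (-1) * 1 * (rs107 h).m + (-1) * 1 * (rs65 h).m + (-1) * 1 * (rs101 h).m + (-1) * 1 * (rs104 h).m)

theorem XE31 (h : TbH K E p) : E 2214 = E 2220 := by
  linear_combination (amE1t h + amE2t h + amE3t h) - (amE1x h + amE2x h + amE3x h) + clE h.ht (hX h) - mu3 h + E 24 * mu4 h - (XE11 h + XE21 h)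

theorem XA2 (h : TbH K E p) : E 2172 = E 2175 := by
  have c := clA h.hM h.ht (hX h) (U := (E 2172 + (E 185) / 2)) (by
    linear_combination mu1 h - E 24 * mu6 h + (XD11 h + XD21 h) - (amD1t h + amD2t h) + (amD1x h + amD2x h) + ((1) * ((E 24) * (E 0)) * (rs34 h).m) - E 24 * E 0 * (amAv h))
  linear_combination c + E 24 * mu2 h - E 24 * E 24 * mu5 h - (amAx h) + E 24 * ((XC01 h + XC11 h) + (amC0x h + amC1x h) - (amC0t h + amC1t h)) - (0 * hz h)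

theorem XC03 (h : TbH K E p) : E 2135 + E 2138 + 2 * E 2141 = 2 * π * E 2139 := by
  linear_combination GC03_0 h + ((V8 h).2.2.2.2.2.2.2.1 + (V8 h).2.2.2.2.2.2.1) + ((V8 h).2.2.2.2.2.2.2.2.2.2.1 + (V8 h).2.2.2.2.2.2.2.2.2.1) + 2 * ((V8 h).2.2.2.2.2.2.2.2.2.2.2.2.2.1 + (V8 h).2.2.2.2.2.2.2.2.2.2.2.2.1) + E 264 * XC01 h + E 262 * XC02 h + E 2139 * (F15 h).2.2.1 + (-1) * (F18 h).2.2.2.2.2.2.2.1 + (-E 324) * (F18 h).2.2.2.2.2.1 + (-E 323) * (F18 h).2.2.2.2.2.2.1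

theorem XC13 (h : TbH K E p) : E 2144 + E 2147 + 2 * E 2150 = 2 * π * E 2148 := by
  linear_combination GC13_0 h + ((V9 h).1 + (V8 h).2.2.2.2.2.2.2.2.2.2.2.2.2.2.2.1) + ((V9 h).2.2.2.1 + (V9 h).2.2.1) + 2 * ((V9 h).2.2.2.2.2.2.1 + (V9 h).2.2.2.2.2.1) + E 267 * XC11 h + E 265 * XC12 h + E 2148 * (F15 h).2.2.2.2.2.1 + (-1) * (F19 h).2.2.2.2.1 + (-E 337) * (F19 h).2.2.1 + (-E 336) * (F19 h).2.2.2.1

theorem XD13 (h : TbH K E p) : E 2153 + E 2156 + 2 * E 2159 = 2 * π * E 2157 := by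
  linear_combination GD13_0 h + ((V9 h).2.2.2.2.2.2.2.2.2.1 + (V9 h).2.2.2.2.2.2.2.2.1) + ((V9 h).2.2.2.2.2.2.2.2.2.2.2.2.1 + (V9 h).2.2.2.2.2.2.2.2.2.2.2.1) + 2 * ((V9 h).2.2.2.2.2.2.2.2.2.2.2.2.2.2.2.1 + (V9 h).2.2.2.2.2.2.2.2.2.2.2.2.2.2.1) + E 270 * XD11 h + E 268 * XD12 h + E 2157 * (F15 h).2.2.2.2.2.2.2.2.1 + (-1) * (F20 h).2.2.2.2.2.2.2.2.2.2.2.1 + (-E 401) * (F20 h).2.2.2.2.2.2.1 + (-E 399) * (F20 h).2.2.2.2.2.2.2.1 + (-E 402) * (F20 h).2.2.2.2.2.2.2.2.1 + (-E 400) * (F20 h).2.2.2.2.2.2.2.2.2.1 + (-E 403) * (F20 h).2.2.2.2.2.2.2.2.2.2.1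

theorem XD23 (h : TbH K E p) : E 2162 + E 2165 + 2 * E 2168 = 2 * π * E 2166 := by
  linear_combination GD23_0 h + ((V10 h).2.2.1 + (V10 h).2.1) + ((V10 h).2.2.2.2.2.1 + (V10 h).2.2.2.2.1) + 2 * ((V10 h).2.2.2.2.2.2.2.2.1 + (V10 h).2.2.2.2.2.2.2.1) + E 273 * XD21 h + E 271 * XD22 h + E 2166 * (F15 h).2.2.2.2.2.2.2.2.2.2.2.1 + (-1) * (F21 h).2.2.2.2.1 + (-E 401) * (F21 h).1 + (-E 399) * (F21 h).2.1 + (-E 402) * (F21 h).2.2.1 + (-E 400) * (F21 h).2.2.2.1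

theorem XA3 (h : TbH K E p) : E 2171 + E 2174 + 2 * E 2177 = 2 * π * E 2175 := by
  linear_combination GA3_0 h + ((V10 h).2.2.2.2.2.2.2.2.2.2.2.1 + (V10 h).2.2.2.2.2.2.2.2.2.2.1) + ((V10 h).2.2.2.2.2.2.2.2.2.2.2.2.2.2.1 + (V10 h).2.2.2.2.2.2.2.2.2.2.2.2.2.1) + 2 * ((V11 h).2.1 + (V11 h).1) + E 276 * XA1 h + E 274 * XA2 h + E 2175 * (F15 h).2.2.2.2.2.2.2.2.2.2.2.2.2.2.1 + (-1) * (F24 h).2.2.2.2.2.1 + (-E 426) * (F24 h).2.2.1 + (-E 425) * (F24 h).2.2.2.1 + (-E 427) * (F24 h).2.2.2.2.1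

theorem XT3 (h : TbH K E p) : E 2180 + E 2183 + 2 * E 2186 = 2 * π * E 2184 := by
  linear_combination GT3_0 h + ((V11 h).2.2.2.2.1 + (V11 h).2.2.2.1) + ((V11 h).2.2.2.2.2.2.2.1 + (V11 h).2.2.2.2.2.2.1) + 2 * ((V11 h).2.2.2.2.2.2.2.2.2.2.1 + (V11 h).2.2.2.2.2.2.2.2.2.1) + E 279 * XT1 h + E 277 * XT2 h + E 2184 * (F16 h).2.1 + (-1) * (F25 h).2.2.2.2.2.2.2.2.2.2.2.2.2.2.2.1 + (-E 444) * (F25 h).2.2.2.2.2.2.2.2.2.2.2.2.2.1 + (-E 443) * (F25 h).2.2.2.2.2.2.2.2.2.2.2.2.2.2.1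

theorem XE13 (h : TbH K E p) : E 2198 + E 2201 + 2 * E 2204 = 2 * π * E 2202 := by
  linear_combination GE13_0 h + ((V12 h).2.2.2.2.2.2.1 + (V12 h).2.2.2.2.2.1) + ((V12 h).2.2.2.2.2.2.2.2.2.1 + (V12 h).2.2.2.2.2.2.2.2.1) + 2 * ((V12 h).2.2.2.2.2.2.2.2.2.2.2.2.1 + (V12 h).2.2.2.2.2.2.2.2.2.2.2.1) + E 285 * XE11 h + E 283 * XE12 h + E 2202 * (F16 h).2.2.2.2.2.2.2.1 + (-1) * (F27 h).1 + (-E 502) * (F26 h).2.2.2.2.2.2.2.2.2.2.2.2.2.1 + (-E 501) * (F26 h).2.2.2.2.2.2.2.2.2.2.2.2.2.2.1 + (-E 500) * (F26 h).2.2.2.2.2.2.2.2.2.2.2.2.2.2.2.1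

theorem XE23 (h : TbH K E p) : E 2207 + E 2210 + 2 * E 2213 = 2 * π * E 2211 := by
  linear_combination GE23_0 h + ((V12 h).2.2.2.2.2.2.2.2.2.2.2.2.2.2.2.1 + (V12 h).2.2.2.2.2.2.2.2.2.2.2.2.2.2.1) + ((V13 h).2.2.1 + (V13 h).2.1) + 2 * ((V13 h).2.2.2.2.2.1 + (V13 h).2.2.2.2.1) + E 288 * XE21 h + E 286 * XE22 h + E 2211 * (F16 h).2.2.2.2.2.2.2.2.2.2.1 + (-1) * (F27 h).2.2.2.2.2.2.2.2.2.2.2.2.1 + (-E 499) * (F27 h).2.2.2.2.2.2.2.2.1 + (-E 498) * (F27 h).2.2.2.2.2.2.2.2.2.1 + (-E 497) * (F27 h).2.2.2.2.2.2.2.2.2.2.1 + (-E 496) * (F27 h).2.2.2.2.2.2.2.2.2.2.2.1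

theorem XE33 (h : TbH K E p) : E 2216 + E 2219 + 2 * E 2222 = 2 * π * E 2220 := by
  linear_combination clqE h.ht (hV h) (hX h) + π * clE h.ht (hX h) + π * ((XE12 h + XE22 h + XE32 h) - (amE1v h + amE2v h + amE3v h) + (amE1x h + amE2x h + amE3x h)) - ((2 * E 501 + 0) / 6 * pl50_76_53 h + (E 501 + 2 * 0) / 6 * pl51_77_52 h) + (aqE1t h + aqE2t h + aqE3t h) + (aqE1v h + aqE2v h + aqE3v h) + 2 * (aqE1x h + aqE2x h + aqE3x h) - 2 * π * (amE1x h + amE2x h + amE3x h) - nu3 h - E 23 * nu11 h + π * E 23 * mu11 h - 2 * E 24 * nu4 h + π * E 24 * mu4 h - (XE13 h + XE23 h)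

theorem XB3 (h : TbH K E p) : E 2189 + E 2192 + 2 * E 2195 = 2 * π * E 2193 := by
  have c := clqA h.ht (hV h) (hX h) (qC := (E 2135 + E 2144 + ((2 * 0 + E 174) * E 49 + (0 + 2 * E 174) * E 46) / 6)) (qD := (E 2159 + E 2168 + ((2 * 0 + E 178) * E 55 + (0 + 2 * E 178) * E 56) / 6 + ((2 * E 399 + 0) * E 56 + (E 399 + 2 * 0) * E 57) / 6)) (U := (E 2172 + (E 185) / 2)) (qv := (E 2174 + ((2 * E 185 + 0) * E 82 + (E 185 + 2 * 0) * E 84) / 6)) (qt := (E 2171 + ((2 * E 185 + 0) * E 43 + (E 185 + 2 * 0) * E 36) / 6))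
    (by linear_combination (XC03 h + XC13 h) + ((2 * 0 + E 174) / 6 * pl49_75_54 h + (0 + 2 * E 174) / 6 * pl46_74_55 h) - (aqC0v h + aqC1v h) - 2 * (aqC0x h + aqC1x h) + 2 * π * (amC0x h + amC1x h) + E 23 * nu10 h + 2 * E 24 * nu5 h - 2 * π * E 24 * mu5 h)
    (by linear_combination (XD13 h + XD23 h) + ((2 * 0 + E 178) / 6 * pl46_74_55 h + (0 + 2 * E 178) / 6 * pl45_73_56 h + (2 * E 399 + 0) / 6 * pl45_73_56 h + (E 399 + 2 * 0) / 6 * pl44_72_57 h) - (aqD1t h + aqD2t h) - (aqD1v h + aqD2v h) + nu1 h + E 23 * nu9 h + 2 * π * ((amD1t h + amD2t h) - (XD11 h + XD21 h) - mu1 h))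
    (by linear_combination (aqD1x h + aqD2x h) - E 24 * nu6 h - E 24 * E 0 * (2 * π * (amAv h) - (aqAv h)) + ((-1) * ((E 24) * (E 0)) * (rs34 h).q + 2 * π * ((E 24) * (E 0)) * (rs34 h).m))
    (by linear_combination (XA3 h) + ((2 * E 185 + 0) / 6 * pl43_82_47 h + (E 185 + 2 * 0) / 6 * pl36_84_50 h) - 2 * (aqAx h) + 2 * E 24 * nu2 h - 2 * E 24 * (aqC0t h + aqC1t h) - 2 * π * (XA2 h))
  linear_combination c + (aqTt h + aqBt h) + (aqTv h + aqBv h) + 2 * (aqTx h + aqBx h) - 2 * π * (amTx h + amBx h) + (aqAt h) + ((-1) * 1 * (rs33 h).q) - nu0 h - E 23 * nu8 h - 2 * E 24 * nu7 h + 2 * π * E 24 * mu7 h - ((2 * 0 + E 189) / 6 * pl44_72_57 h + (0 + 2 * E 189) / 6 * pl43_71_58 h + (2 * E 193 + E 194) / 6 * pl44_72_57 h + (E 193 + 2 * E 194) / 6 * pl43_69_59 h + (2 * 0 + E 197) / 6 * pl44_72_57 h + (0 + 2 * E 197) / 6 * pl42_69_60 h + (2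 * E 200 + 0) / 6 * pl44_72_57 h + (E 200 + 2 * 0) / 6 * pl43_68_60 h + (2 * E 202 + E 203) / 6 * pl44_72_57 h + (E 202 + 2 * E 203) / 6 * pl42_68_61 h + (2 * 0 + E 205) / 6 * pl44_72_57 h + (0 + 2 * E 205) / 6 * pl41_68_62 h + (2 * 0 + E 208) / 6 * pl43_71_58 h + (0 + 2 * E 208) / 6 * pl42_69_60 h + (2 * E 212 + 0) / 6 * pl43_71_58 h + (E 212 + 2 * 0) / 6 * pl42_68_61 h + (2 * E 215 + E 216) / 6 * pl42_71_59 h + (E 215 + 2 * E 216) / 6 * pl41_69_61 h + (2 * 0 + E 219) / 6 * pl42_71_59 h + (0 + 2 * E 219) / 6 * pl39_69_66 h + (2 * 0 + E 222) / 6 * pl41_71_60 h + (0 + 2 * E 222) / 6 * pl42_68_61 h + (2 * 0 + E 224) / 6 * pl40_71_61 h + (0 + 2 * E 224) / 6 * pl43_69_59 h + (2 * 0 + E 226) / 6 * pl40_71_61 h + (0 + 2 * E 226) / 6 * pl42_69_60 h + (2 * 0 + E 228) / 6 * pl40_71_61 h + (0 + 2 * E 228) / 6 * pl41_68_62 h + (2 * E 231 +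 E 232) / 6 * pl43_69_59 h + (E 231 + 2 * E 232) / 6 * pl41_68_62 h + (2 * 0 + E 236) / 6 * pl43_69_59 h + (0 + 2 * E 236) / 6 * pl40_68_64 h + (2 * 0 + E 238) / 6 * pl42_69_60 h + (0 + 2 * E 238) / 6 * pl40_68_64 h + (2 * E 240 + 0) / 6 * pl41_69_61 h + (E 240 + 2 * 0) / 6 * pl39_68_68 h + (2 * 0 + E 243) / 6 * pl40_69_62 h + (0 + 2 * E 243) / 6 * pl42_68_61 h + (2 * E 244 + 0) / 6 * pl40_69_62 h + (E 244 + 2 * 0) / 6 * pl39_68_68 h + (2 * E 247 + E 248) / 6 * pl41_68_62 h + (E 247 + 2 * E 248) / 6 * pl39_71_63 h + (2 * E 250 + 0) / 6 * pl41_68_62 h + (E 250 + 2 * 0) / 6 * pl39_69_66 h + (2 * E 252 + E 253) / 6 * pl40_68_64 h + (E 252 + 2 * E 253) / 6 * pl39_69_66 h + (2 * E 255 + 0) / 6 * pl39_71_63 h + (E 255 + 2 * 0) / 6 * pl38_70_67 h) - (XT3 h) + (0 * hz h) + 2 * ((-1) * 1 * (rs89 h).q + (-1) * 1 * (rs95 h).q + (-1) * 1 *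 (rs107 h).q + (-1) * 1 * (rs65 h).q + (-1) * 1 * (rs101 h).q + (-1) * 1 * (rs104 h).q) - 2 * π * ((-1) * 1 * (rs89 h).m + (-1) * 1 * (rs95 h).m + (-1) * 1 * (rs107 h).m + (-1) * 1 * (rs65 h).m + (-1) * 1 * (rs101 h).m + (-1) * 1 * (rs104 h).m)

theorem boxA (h : TbH K E p) {D : ℝ → ℝ} (A : Adm (E 0) p D) : Box (E 0) D (E 35) (E 44) (E 82) (E 84) (E 46) (E 50) :=
  Box.cg A.bA (by linear_combination nw35 h - np1 h) (np1 h) (by linear_combination nw82 h - np7 h) (by linear_combination nw84 h - np6 h) (np2 h) (np3 h)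

theorem boxB (h : TbH K E p) {D : ℝ → ℝ} (A : Adm (E 0) p D) : Box (E 0) D (E 35) (E 44) (E 68) (E 72) (E 57) (E 68) :=
  Box.cg A.bB (by linear_combination nw35 h - np1 h) (np1 h) (np8 h) (np9 h) (np7 h) (np8 h)

theorem boxC (h : TbH K E p) {D : ℝ → ℝ} (A : Adm (E 0) p D) : Box (E 0) D (E 46) (E 50) (E 74) (E 76) (E 53) (E 55) :=
  Box.cg A.bC (np2 h) (np3 h) (np10 h) (np11 h) (np5 h) (np6 h)

theorem boxD (h : TbH K E p) {D : ℝ → ℝ} (A : Adm (E 0) p D) : Box (E 0) D (E 44) (E 46) (E 72) (E 74) (E 55) (E 57) :=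
  Box.cg A.bD (np1 h) (np2 h) (np9 h) (np10 h) (np6 h) (np7 h)

theorem boxE (h : TbH K E p) {D : ℝ → ℝ} (A : Adm (E 0) p D) : Box (E 0) D (E 50) (E 51) (E 76) (E 81) (E 51) (E 53) :=
  Box.cg A.bE (np3 h) (np4 h) (np11 h) (by linear_combination nw81 h - np11 h) (np4 h) (np5 h)

theorem frC0 (h : TbH K E p) {D : ℝ → ℝ} (A : Adm (E 0) p D) : 0 ≤ pv D (E 50) (TbC0t E) + E 0 * pv D (E 76) (TbC0v E) + (E 0 + 1) * pv D (E 54) (TbC0x E) :=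
  frame_down (@ww3) A.cont (boxC h A) (okC0t h) (okC0v h) (okC0x h)
    ((inc h).le 46 48 rfl)
    ((inc h).le 50 50 rfl)
    ((inc h).le 74 75 rfl)
    ((inc h).le 76 76 rfl)
    ((inc h).le 53 53 rfl)
    ((inc h).le 54 55 rfl)
    ((inc h).lt 48 50 rfl)
    ((inc h).lt 75 76 rfl)
    ((inc h).lt 53 54 rfl)
    (show 2 * π ≤ E 48 + E 76 + 2 * E 54 by linarith [(P10 h).2.2.2.2.2.2.1])
    (show 2 * π ≤ E 50 + E 75 + 2 * E 54 by linarith [(P10 h).2.2.2.2.2.2.2.1])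
    (ge_of_eq (pl50_76_53 h))
    (show E 50 + E 76 + 2 * E 54 + (E 48 + E 75 + 2 * E 53) < 4 * π by linarith [(P10 h).2.2.2.2.2.2.2.2.1])
    (by linear_combination mC0t h - mC0x h + (-1) * XC01 h)
    (by linear_combination mC0v h - mC0x h + (-1) * XC02 h)
    ((mC0x h).trans_le (neg_nonpos.mpr ((P10 h).2.2.2.2.2.2.2.2.2.1.le.trans_eq (V8 h).2.2.2.2.2.2.2.2.2.2.2.1.symm)))
    (by linear_combination qC0t h + qC0v h + 2 * qC0x h - 2 * π * mC0x h + (-1) * XC03 h)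

theorem frC1 (h : TbH K E p) {D : ℝ → ℝ} (A : Adm (E 0) p D) : pv D (E 46) (TbC1t E) + E 0 * pv D (E 74) (TbC1v E) + (E 0 + 1) * pv D (E 54) (TbC1x E) ≤ 0 :=
  frame_up (@ww3) A.cont (boxC h A) (okC1t h) (okC1v h) (okC1x h)
    ((inc h).le 46 46 rfl)
    ((inc h).le 49 50 rfl)
    ((inc h).le 74 74 rfl)
    ((inc h).le 76 76 rfl)
    ((inc h).le 53 54 rfl)
    ((inc h).le 55 55 rfl)
    ((inc h).lt 46 49 rfl)
    ((inc h).lt 74 76 rfl)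
    ((inc h).lt 54 55 rfl)
    (show E 49 + E 74 + 2 * E 54 ≤ 2 * π by linarith [(P10 h).2.2.2.2.2.2.2.2.2.2.1])
    (show E 46 + E 76 + 2 * E 54 ≤ 2 * π by linarith [(P10 h).2.2.2.2.2.2.2.2.2.2.2.1])
    (le_of_eq (pl46_74_55 h))
    (show 4 * π < E 46 + E 74 + 2 * E 54 + (E 49 + E 76 + 2 * E 55) by linarith [(P10 h).2.2.2.2.2.2.2.2.2.2.2.2.1])
    (by linear_combination mC1t h - mC1x h + (1) * XC11 h)
    (by linear_combination mC1v h - mC1x h + (1) * XC12 h)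
    ((P10 h).2.2.2.2.2.2.2.2.2.2.2.2.2.1.le.trans_eq ((mC1x h).trans (V9 h).2.2.2.2.1).symm)
    (by linear_combination qC1t h + qC1v h + 2 * qC1x h - 2 * π * mC1x h + (1) * XC13 h)

theorem frD1 (h : TbH K E p) {D : ℝ → ℝ} (A : Adm (E 0) p D) : pv D (E 44) (TbD1t E) + E 0 * pv D (E 72) (TbD1v E) + (E 0 + 1) * pv D (E 56) (TbD1x E) ≤ 0 :=
  frame_up (@ww3) A.cont (boxD h A) (okD1t h) (okD1v h) (okD1x h)
    ((inc h).le 44 44 rfl)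
    ((inc h).le 45 46 rfl)
    ((inc h).le 72 72 rfl)
    ((inc h).le 74 74 rfl)
    ((inc h).le 55 56 rfl)
    ((inc h).le 57 57 rfl)
    ((inc h).lt 44 45 rfl)
    ((inc h).lt 72 74 rfl)
    ((inc h).lt 56 57 rfl)
    (show E 45 + E 72 + 2 * E 56 ≤ 2 * π by linarith [(P10 h).2.2.2.2.2.2.2.2.2.2.2.2.2.2.1])
    (le_of_eq (pl44_74_56 h))
    (le_of_eq (pl44_72_57 h))
    (show 4 * π < E 44 + E 72 + 2 * E 56 + (E 45 + E 74 + 2 * E 57) by linarith [(P10 h).2.2.2.2.2.2.2.2.2.2.2.2.2.2.2.1])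
    (by linear_combination mD1t h - mD1x h + (1) * XD11 h)
    (by linear_combination mD1v h - mD1x h + (1) * XD12 h)
    ((P11 h).1.le.trans_eq ((mD1x h).trans (V9 h).2.2.2.2.2.2.2.2.2.2.2.2.2.1).symm)
    (by linear_combination qD1t h + qD1v h + 2 * qD1x h - 2 * π * mD1x h + (1) * XD13 h)

theorem frD2 (h : TbH K E p) {D : ℝ → ℝ} (A : Adm (E 0) p D) : 0 ≤ pv D (E 46) (TbD2t E) + E 0 * pv D (E 74) (TbD2v E) + (E 0 + 1) * pv D (E 56) (TbD2x E) :=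
  frame_down (@ww3) A.cont (boxD h A) (okD2t h) (okD2v h) (okD2x h)
    ((inc h).le 44 44 rfl)
    ((inc h).le 46 46 rfl)
    ((inc h).le 72 73 rfl)
    ((inc h).le 74 74 rfl)
    ((inc h).le 55 55 rfl)
    ((inc h).le 56 57 rfl)
    ((inc h).lt 44 46 rfl)
    ((inc h).lt 73 74 rfl)
    ((inc h).lt 55 56 rfl)
    (ge_of_eq (pl44_74_56 h))
    (show 2 * π ≤ E 46 + E 73 + 2 * E 56 by linarith [(P11 h).2.1])
    (ge_of_eq (pl46_74_55 h))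
    (show E 46 + E 74 + 2 * E 56 + (E 44 + E 73 + 2 * E 55) < 4 * π by linarith [(P11 h).2.2.1])
    (by linear_combination mD2t h - mD2x h + (-1) * XD21 h)
    (by linear_combination mD2v h - mD2x h + (-1) * XD22 h)
    ((mD2x h).trans_le (neg_nonpos.mpr ((P11 h).2.2.2.1.le.trans_eq (V10 h).2.2.2.2.2.2.1.symm)))
    (by linear_combination qD2t h + qD2v h + 2 * qD2x h - 2 * π * mD2x h + (-1) * XD23 h)

theorem frA (h : TbH K E p) {D : ℝ → ℝ} (A : Adm (E 0) p D) : 0 ≤ pv D (E 43) (TbAt E) + E 0 * pv D (E 84) (TbAv E) + (E 0 + 1) * pv D (E 50) (TbAx E) :=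
  frame_down (@ww3) A.cont (boxA h A) (okAt h) (okAv h) (okAx h)
    ((inc h).le 35 36 rfl)
    ((inc h).le 43 44 rfl)
    ((inc h).le 82 82 rfl)
    ((inc h).le 84 84 rfl)
    ((inc h).le 46 46 rfl)
    ((inc h).le 50 50 rfl)
    ((inc h).lt 36 43 rfl)
    ((inc h).lt 82 84 rfl)
    ((inc h).lt 46 50 rfl)
    (ge_of_eq (pl36_84_50 h))
    (show 2 * π ≤ E 43 + E 82 + 2 * E 50 by linarith [(P11 h).2.2.2.2.1])
    (show 2 * π ≤ E 43 + E 84 + 2 * E 46 by linarith [(P11 h).2.2.2.2.2.1])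
    (show E 43 + E 84 + 2 * E 50 + (E 36 + E 82 + 2 * E 46) < 4 * π by linarith [(P11 h).2.2.2.2.2.2.1])
    (by linear_combination mAt h - mAx h + (-1) * XA1 h)
    (by linear_combination mAv h - mAx h + (-1) * XA2 h)
    ((mAx h).trans_le (neg_nonpos.mpr ((P11 h).2.2.2.2.2.2.2.1.le.trans_eq (V10 h).2.2.2.2.2.2.2.2.2.2.2.2.2.2.2.1.symm)))
    (by linear_combination qAt h + qAv h + 2 * qAx h - 2 * π * mAx h + (-1) * XA3 h)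

theorem frT (h : TbH K E p) {D : ℝ → ℝ} (A : Adm (E 0) p D) : 0 ≤ pv D (E 38) (TbTt E) + E 0 * pv D (E 72) (TbTv E) + (E 0 + 1) * pv D (E 68) (TbTx E) :=
  frame_down (@ww3) A.cont (boxB h A) (okTt h) (okTv h) (okTx h)
    ((inc h).le 35 36 rfl)
    ((inc h).le 38 44 rfl)
    ((inc h).le 68 70 rfl)
    ((inc h).le 72 72 rfl)
    ((inc h).le 57 65 rfl)
    ((inc h).le 68 68 rfl)
    ((inc h).lt 36 38 rfl)
    ((inc h).lt 70 72 rfl)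
    ((inc h).lt 65 68 rfl)
    (show 2 * π ≤ E 36 + E 72 + 2 * E 68 by linarith [(P11 h).2.2.2.2.2.2.2.2.1])
    (show 2 * π ≤ E 38 + E 70 + 2 * E 68 by linarith [(P11 h).2.2.2.2.2.2.2.2.2.1])
    (show 2 * π ≤ E 38 + E 72 + 2 * E 65 by linarith [(P11 h).2.2.2.2.2.2.2.2.2.2.1])
    (show E 38 + E 72 + 2 * E 68 + (E 36 + E 70 + 2 * E 65) < 4 * π by linarith [(P11 h).2.2.2.2.2.2.2.2.2.2.2.1])
    (by linear_combination mTt h - mTx h + (-1) * XT1 h)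
    (by linear_combination mTv h - mTx h + (-1) * XT2 h)
    ((mTx h).trans_le (neg_nonpos.mpr ((P11 h).2.2.2.2.2.2.2.2.2.2.2.2.1.le.trans_eq (V11 h).2.2.2.2.2.2.2.2.1.symm)))
    (by linear_combination qTt h + qTv h + 2 * qTx h - 2 * π * mTx h + (-1) * XT3 h)

theorem frB (h : TbH K E p) {D : ℝ → ℝ} (A : Adm (E 0) p D) : 0 ≤ pv D (E 44) (TbBt E) + E 0 * pv D (E 72) (TbBv E) + (E 0 + 1) * pv D (E 65) (TbBx E) :=
  frame_down (@ww3) A.cont (boxB h A) (okBt h) (okBv h) (okBx h)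
    ((inc h).le 35 38 rfl)
    ((inc h).le 44 44 rfl)
    ((inc h).le 68 68 rfl)
    ((inc h).le 72 72 rfl)
    ((inc h).le 57 57 rfl)
    ((inc h).le 65 68 rfl)
    ((inc h).lt 38 44 rfl)
    ((inc h).lt 68 72 rfl)
    ((inc h).lt 57 65 rfl)
    (show 2 * π ≤ E 38 + E 72 + 2 * E 65 by linarith [(P11 h).2.2.2.2.2.2.2.2.2.2.1])
    (show 2 * π ≤ E 44 + E 68 + 2 * E 65 by linarith [(P11 h).2.2.2.2.2.2.2.2.2.2.2.2.2.1])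
    (ge_of_eq (pl44_72_57 h))
    (show E 44 + E 72 + 2 * E 65 + (E 38 + E 68 + 2 * E 57) < 4 * π by linarith [(P11 h).2.2.2.2.2.2.2.2.2.2.2.2.2.2.1])
    (by linear_combination mBt h - mBx h + (-1) * XB1 h)
    (by linear_combination mBv h - mBx h + (-1) * XB2 h)
    ((mBx h).trans_le (neg_nonpos.mpr ((P11 h).2.2.2.2.2.2.2.2.2.2.2.2.2.2.2.1.le.trans_eq (V12 h).2.1.symm)))
    (by linear_combination qBt h + qBv h + 2 * qBx h - 2 * π * mBx h + (-1) * XB3 h)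

theorem frE1 (h : TbH K E p) {D : ℝ → ℝ} (A : Adm (E 0) p D) : pv D (E 50) (TbE1t E) + E 0 * pv D (E 76) (TbE1v E) + (E 0 + 1) * pv D (E 52) (TbE1x E) ≤ 0 :=
  frame_up (@ww3) A.cont (boxE h A) (okE1t h) (okE1v h) (okE1x h)
    ((inc h).le 50 50 rfl)
    ((inc h).le 51 51 rfl)
    ((inc h).le 76 76 rfl)
    ((inc h).le 78 81 rfl)
    ((inc h).le 51 52 rfl)
    ((inc h).le 53 53 rfl)
    ((inc h).lt 50 51 rfl)
    ((inc h).lt 76 78 rfl)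
    ((inc h).lt 52 53 rfl)
    (show E 51 + E 76 + 2 * E 52 ≤ 2 * π by linarith [(P12 h).1])
    (show E 50 + E 78 + 2 * E 52 ≤ 2 * π by linarith [(P12 h).2.1])
    (le_of_eq (pl50_76_53 h))
    (show 4 * π < E 50 + E 76 + 2 * E 52 + (E 51 + E 78 + 2 * E 53) by linarith [(P12 h).2.2.1])
    (by linear_combination mE1t h - mE1x h + (1) * XE11 h)
    (by linear_combination mE1v h - mE1x h + (1) * XE12 h)
    ((P12 h).2.2.2.1.le.trans_eq ((mE1x h).trans (V12 h).2.2.2.2.2.2.2.2.2.2.1).symm)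
    (by linear_combination qE1t h + qE1v h + 2 * qE1x h - 2 * π * mE1x h + (1) * XE13 h)

theorem frE2 (h : TbH K E p) {D : ℝ → ℝ} (A : Adm (E 0) p D) : pv D (E 50) (TbE2t E) + E 0 * pv D (E 78) (TbE2v E) + (E 0 + 1) * pv D (E 51) (TbE2x E) ≤ 0 :=
  frame_up (@ww3) A.cont (boxE h A) (okE2t h) (okE2v h) (okE2x h)
    ((inc h).le 50 50 rfl)
    ((inc h).le 51 51 rfl)
    ((inc h).le 76 78 rfl)
    ((inc h).le 80 81 rfl)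
    ((inc h).le 51 51 rfl)
    ((inc h).le 52 53 rfl)
    ((inc h).lt 50 51 rfl)
    ((inc h).lt 78 80 rfl)
    ((inc h).lt 51 52 rfl)
    (show E 51 + E 78 + 2 * E 51 ≤ 2 * π by linarith [(P12 h).2.2.2.2.1])
    (show E 50 + E 80 + 2 * E 51 ≤ 2 * π by linarith [(P12 h).2.2.2.2.2.1])
    (show E 50 + E 78 + 2 * E 52 ≤ 2 * π by linarith [(P12 h).2.1])
    (show 4 * π < E 50 + E 78 + 2 * E 51 + (E 51 + E 80 + 2 * E 52) by linarith [(P12 h).2.2.2.2.2.2.1])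
    (by linear_combination mE2t h - mE2x h + (1) * XE21 h)
    (by linear_combination mE2v h - mE2x h + (1) * XE22 h)
    ((P12 h).2.2.2.2.2.2.2.1.le.trans_eq ((mE2x h).trans (V13 h).2.2.2.1).symm)
    (by linear_combination qE2t h + qE2v h + 2 * qE2x h - 2 * π * mE2x h + (1) * XE23 h)

theorem frE3 (h : TbH K E p) {D : ℝ → ℝ} (A : Adm (E 0) p D) : 0 ≤ pv D (E 51) (TbE3t E) + E 0 * pv D (E 80) (TbE3v E) + (E 0 + 1) * pv D (E 52) (TbE3x E) :=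
  frame_down (@ww3) A.cont (boxE h A) (okE3t h) (okE3v h) (okE3x h)
    ((inc h).le 50 50 rfl)
    ((inc h).le 51 51 rfl)
    ((inc h).le 76 77 rfl)
    ((inc h).le 80 81 rfl)
    ((inc h).le 51 51 rfl)
    ((inc h).le 52 53 rfl)
    ((inc h).lt 50 51 rfl)
    ((inc h).lt 77 80 rfl)
    ((inc h).lt 51 52 rfl)
    (show 2 * π ≤ E 50 + E 80 + 2 * E 52 by linarith [(P12 h).2.2.2.2.2.2.2.2.1])
    (ge_of_eq (pl51_77_52 h))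
    (show 2 * π ≤ E 51 + E 80 + 2 * E 51 by linarith [(P12 h).2.2.2.2.2.2.2.2.2.1])
    (show E 51 + E 80 + 2 * E 52 + (E 50 + E 77 + 2 * E 51) < 4 * π by linarith [(P12 h).2.2.2.2.2.2.2.2.2.2.1])
    (by linear_combination mE3t h - mE3x h + (-1) * XE31 h)
    (by linear_combination mE3v h - mE3x h + (-1) * XE32 h)
    ((mE3x h).trans_le (neg_nonpos.mpr ((P12 h).2.2.2.2.2.2.2.2.2.2.2.1.le.trans_eq (V13 h).2.2.2.2.2.2.2.2.2.2.2.2.1.symm)))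
    (by linear_combination qE3t h + qE3v h + 2 * qE3x h - 2 * π * mE3x h + (-1) * XE33 h)

theorem ry0 (h : TbH K E p) {D : ℝ → ℝ} (A : Adm (E 0) p D) : rv D (E 49) (E 46) 0 (E 174) + E 0 * rv D (E 75) (E 74) 0 (E 174) + (E 0 + 1) * rv D (E 54) (E 55) 0 (E 174) ≤ 0 :=
  ray A.cont (boxC h A)
    ((inc h).le 46 49 rfl) ((inc h).le 49 50 rfl) ((inc h).le 74 75 rfl) ((inc h).le 75 76 rfl) ((inc h).le 53 54 rfl) ((inc h).le 54 55 rfl) ((inc h).le 46 46 rfl) ((inc h).le 46 50 rfl) ((inc h).le 74 74 rfl) ((inc h).le 74 76 rfl) ((inc h).le 53 55 rfl) ((inc h).le 55 55 rfl) (pl49_75_54 h) (pl46_74_55 h) le_rfl (P12 h).2.2.2.2.2.2.2.2.2.2.2.2.1.le (rs24 h).lt.ne' (rs25 h).lt.ne' (rs26 h).lt.ne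

theorem ry1 (h : TbH K E p) {D : ℝ → ℝ} (A : Adm (E 0) p D) : rv D (E 46) (E 45) 0 (E 178) + E 0 * rv D (E 74) (E 73) 0 (E 178) + (E 0 + 1) * rv D (E 55) (E 56) 0 (E 178) ≤ 0 :=
  ray A.cont (boxD h A)
    ((inc h).le 44 46 rfl) ((inc h).le 46 46 rfl) ((inc h).le 72 74 rfl) ((inc h).le 74 74 rfl) ((inc h).le 55 55 rfl) ((inc h).le 55 57 rfl) ((inc h).le 44 45 rfl) ((inc h).le 45 46 rfl) ((inc h).le 72 73 rfl) ((inc h).le 73 74 rfl) ((inc h).le 55 56 rfl) ((inc h).le 56 57 rfl) (pl46_74_55 h) (pl45_73_56 h) le_rfl (P12 h).2.2.2.2.2.2.2.2.2.2.2.2.2.1.le (rs27 h).lt.ne' (rs28 h).lt.ne' (rs29 h).lt.ne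

theorem ry2 (h : TbH K E p) {D : ℝ → ℝ} (A : Adm (E 0) p D) : rv D (E 45) (E 44) (E 399) 0 + E 0 * rv D (E 73) (E 72) (E 399) 0 + (E 0 + 1) * rv D (E 56) (E 57) (E 399) 0 ≤ 0 :=
  ray A.cont (boxD h A)
    ((inc h).le 44 45 rfl) ((inc h).le 45 46 rfl) ((inc h).le 72 73 rfl) ((inc h).le 73 74 rfl) ((inc h).le 55 56 rfl) ((inc h).le 56 57 rfl) ((inc h).le 44 44 rfl) ((inc h).le 44 46 rfl) ((inc h).le 72 72 rfl) ((inc h).le 72 74 rfl) ((inc h).le 55 57 rfl) ((inc h).le 57 57 rfl) (pl45_73_56 h) (pl44_72_57 h) (P12 h).2.2.2.2.2.2.2.2.2.2.2.2.2.2.1.le le_rfl (rs30 h).lt.ne' (rs31 h).lt.ne' (rs32 h).lt.ne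

theorem ry3 (h : TbH K E p) {D : ℝ → ℝ} (A : Adm (E 0) p D) : rv D (E 43) (E 36) (E 185) 0 + E 0 * rv D (E 82) (E 84) (E 185) 0 + (E 0 + 1) * rv D (E 47) (E 50) (E 185) 0 ≤ 0 :=
  ray A.cont (boxA h A)
    ((inc h).le 35 43 rfl) ((inc h).le 43 44 rfl) ((inc h).le 82 82 rfl) ((inc h).le 82 84 rfl) ((inc h).le 46 47 rfl) ((inc h).le 47 50 rfl) ((inc h).le 35 36 rfl) ((inc h).le 36 44 rfl) ((inc h).le 82 84 rfl) ((inc h).le 84 84 rfl) ((inc h).le 46 50 rfl) ((inc h).le 50 50 rfl) (pl43_82_47 h) (pl36_84_50 h) (P12 h).2.2.2.2.2.2.2.2.2.2.2.2.2.2.2.1.le le_rfl (rs33 h).lt.ne' (rs34 h).lt.ne (rs35 h).lt.ne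

theorem ry4 (h : TbH K E p) {D : ℝ → ℝ} (A : Adm (E 0) p D) : rv D (E 44) (E 43) 0 (E 189) + E 0 * rv D (E 72) (E 71) 0 (E 189) + (E 0 + 1) * rv D (E 57) (E 58) 0 (E 189) ≤ 0 :=
  ray A.cont (boxB h A)
    ((inc h).le 35 44 rfl) ((inc h).le 44 44 rfl) ((inc h).le 68 72 rfl) ((inc h).le 72 72 rfl) ((inc h).le 57 57 rfl) ((inc h).le 57 68 rfl) ((inc h).le 35 43 rfl) ((inc h).le 43 44 rfl) ((inc h).le 68 71 rfl) ((inc h).le 71 72 rfl) ((inc h).le 57 58 rfl) ((inc h).le 58 68 rfl) (pl44_72_57 h) (pl43_71_58 h) le_rfl (P13 h).1.le (rs36 h).lt.ne' (rs37 h).lt.ne' (rs38 h).lt.ne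

theorem ry5 (h : TbH K E p) {D : ℝ → ℝ} (A : Adm (E 0) p D) : rv D (E 44) (E 43) (E 193) (E 194) + E 0 * rv D (E 72) (E 69) (E 193) (E 194) + (E 0 + 1) * rv D (E 57) (E 59) (E 193) (E 194) ≤ 0 :=
  ray A.cont (boxB h A)
    ((inc h).le 35 44 rfl) ((inc h).le 44 44 rfl) ((inc h).le 68 72 rfl) ((inc h).le 72 72 rfl) ((inc h).le 57 57 rfl) ((inc h).le 57 68 rfl) ((inc h).le 35 43 rfl) ((inc h).le 43 44 rfl) ((inc h).le 68 69 rfl) ((inc h).le 69 72 rfl) ((inc h).le 57 59 rfl) ((inc h).le 59 68 rfl) (pl44_72_57 h) (pl43_69_59 h) (P13 h).2.1.le (P13 h).2.2.1.le (rs39 h).lt.ne' (rs40 h).lt.ne' (rs41 h).lt.ne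

theorem ry6 (h : TbH K E p) {D : ℝ → ℝ} (A : Adm (E 0) p D) : rv D (E 44) (E 42) 0 (E 197) + E 0 * rv D (E 72) (E 69) 0 (E 197) + (E 0 + 1) * rv D (E 57) (E 60) 0 (E 197) ≤ 0 :=
  ray A.cont (boxB h A)
    ((inc h).le 35 44 rfl) ((inc h).le 44 44 rfl) ((inc h).le 68 72 rfl) ((inc h).le 72 72 rfl) ((inc h).le 57 57 rfl) ((inc h).le 57 68 rfl) ((inc h).le 35 42 rfl) ((inc h).le 42 44 rfl) ((inc h).le 68 69 rfl) ((inc h).le 69 72 rfl) ((inc h).le 57 60 rfl) ((inc h).le 60 68 rfl) (pl44_72_57 h) (pl42_69_60 h) le_rfl (P13 h).2.2.2.1.le (rs42 h).lt.ne' (rs43 h).lt.ne' (rs44 h).lt.ne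

theorem ry7 (h : TbH K E p) {D : ℝ → ℝ} (A : Adm (E 0) p D) : rv D (E 44) (E 43) (E 200) 0 + E 0 * rv D (E 72) (E 68) (E 200) 0 + (E 0 + 1) * rv D (E 57) (E 60) (E 200) 0 ≤ 0 :=
  ray A.cont (boxB h A)
    ((inc h).le 35 44 rfl) ((inc h).le 44 44 rfl) ((inc h).le 68 72 rfl) ((inc h).le 72 72 rfl) ((inc h).le 57 57 rfl) ((inc h).le 57 68 rfl) ((inc h).le 35 43 rfl) ((inc h).le 43 44 rfl) ((inc h).le 68 68 rfl) ((inc h).le 68 72 rfl) ((inc h).le 57 60 rfl) ((inc h).le 60 68 rfl) (pl44_72_57 h) (pl43_68_60 h) (P13 h).2.2.2.2.1.le le_rfl (rs45 h).lt.ne' (rs46 h).lt.ne' (rs47 h).lt.ne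

theorem ry8 (h : TbH K E p) {D : ℝ → ℝ} (A : Adm (E 0) p D) : rv D (E 44) (E 42) (E 202) (E 203) + E 0 * rv D (E 72) (E 68) (E 202) (E 203) + (E 0 + 1) * rv D (E 57) (E 61) (E 202) (E 203) ≤ 0 :=
  ray A.cont (boxB h A)
    ((inc h).le 35 44 rfl) ((inc h).le 44 44 rfl) ((inc h).le 68 72 rfl) ((inc h).le 72 72 rfl) ((inc h).le 57 57 rfl) ((inc h).le 57 68 rfl) ((inc h).le 35 42 rfl) ((inc h).le 42 44 rfl) ((inc h).le 68 68 rfl) ((inc h).le 68 72 rfl) ((inc h).le 57 61 rfl) ((inc h).le 61 68 rfl) (pl44_72_57 h) (pl42_68_61 h) (P13 h).2.2.2.2.2.1.le (P13 h).2.2.2.2.2.2.1.le (rs48 h).lt.ne' (rs49 h).lt.ne' (rs50 h).lt.ne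

theorem ry9 (h : TbH K E p) {D : ℝ → ℝ} (A : Adm (E 0) p D) : rv D (E 44) (E 41) 0 (E 205) + E 0 * rv D (E 72) (E 68) 0 (E 205) + (E 0 + 1) * rv D (E 57) (E 62) 0 (E 205) ≤ 0 :=
  ray A.cont (boxB h A)
    ((inc h).le 35 44 rfl) ((inc h).le 44 44 rfl) ((inc h).le 68 72 rfl) ((inc h).le 72 72 rfl) ((inc h).le 57 57 rfl) ((inc h).le 57 68 rfl) ((inc h).le 35 41 rfl) ((inc h).le 41 44 rfl) ((inc h).le 68 68 rfl) ((inc h).le 68 72 rfl) ((inc h).le 57 62 rfl) ((inc h).le 62 68 rfl) (pl44_72_57 h) (pl41_68_62 h) le_rfl (P13 h).2.2.2.2.2.2.2.1.le (rs51 h).lt.ne' (rs52 h).lt.ne' (rs53 h).lt.ne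

theorem ry10 (h : TbH K E p) {D : ℝ → ℝ} (A : Adm (E 0) p D) : rv D (E 43) (E 42) 0 (E 208) + E 0 * rv D (E 71) (E 69) 0 (E 208) + (E 0 + 1) * rv D (E 58) (E 60) 0 (E 208) ≤ 0 :=
  ray A.cont (boxB h A)
    ((inc h).le 35 43 rfl) ((inc h).le 43 44 rfl) ((inc h).le 68 71 rfl) ((inc h).le 71 72 rfl) ((inc h).le 57 58 rfl) ((inc h).le 58 68 rfl) ((inc h).le 35 42 rfl) ((inc h).le 42 44 rfl) ((inc h).le 68 69 rfl) ((inc h).le 69 72 rfl) ((inc h).le 57 60 rfl) ((inc h).le 60 68 rfl) (pl43_71_58 h) (pl42_69_60 h) le_rfl (P13 h).2.2.2.2.2.2.2.2.1.le (rs54 h).lt.ne' (rs55 h).lt.ne' (rs56 h).lt.ne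

theorem ry11 (h : TbH K E p) {D : ℝ → ℝ} (A : Adm (E 0) p D) : rv D (E 43) (E 42) (E 212) 0 + E 0 * rv D (E 71) (E 68) (E 212) 0 + (E 0 + 1) * rv D (E 58) (E 61) (E 212) 0 ≤ 0 :=
  ray A.cont (boxB h A)
    ((inc h).le 35 43 rfl) ((inc h).le 43 44 rfl) ((inc h).le 68 71 rfl) ((inc h).le 71 72 rfl) ((inc h).le 57 58 rfl) ((inc h).le 58 68 rfl) ((inc h).le 35 42 rfl) ((inc h).le 42 44 rfl) ((inc h).le 68 68 rfl) ((inc h).le 68 72 rfl) ((inc h).le 57 61 rfl) ((inc h).le 61 68 rfl) (pl43_71_58 h) (pl42_68_61 h) (P13 h).2.2.2.2.2.2.2.2.2.1.le le_rfl (rs57 h).lt.ne' (rs58 h).lt.ne' (rs59 h).lt.ne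

theorem ry12 (h : TbH K E p) {D : ℝ → ℝ} (A : Adm (E 0) p D) : rv D (E 42) (E 41) (E 215) (E 216) + E 0 * rv D (E 71) (E 69) (E 215) (E 216) + (E 0 + 1) * rv D (E 59) (E 61) (E 215) (E 216) ≤ 0 :=
  ray A.cont (boxB h A)
    ((inc h).le 35 42 rfl) ((inc h).le 42 44 rfl) ((inc h).le 68 71 rfl) ((inc h).le 71 72 rfl) ((inc h).le 57 59 rfl) ((inc h).le 59 68 rfl) ((inc h).le 35 41 rfl) ((inc h).le 41 44 rfl) ((inc h).le 68 69 rfl) ((inc h).le 69 72 rfl) ((inc h).le 57 61 rfl) ((inc h).le 61 68 rfl) (pl42_71_59 h) (pl41_69_61 h) (P13 h).2.2.2.2.2.2.2.2.2.2.1.le (P13 h).2.2.2.2.2.2.2.2.2.2.2.1.le (rs60 h).lt.ne' (rs61 h).lt.ne' (rs62 h).lt.ne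

theorem ry13 (h : TbH K E p) {D : ℝ → ℝ} (A : Adm (E 0) p D) : rv D (E 42) (E 39) 0 (E 219) + E 0 * rv D (E 71) (E 69) 0 (E 219) + (E 0 + 1) * rv D (E 59) (E 66) 0 (E 219) ≤ 0 :=
  ray A.cont (boxB h A)
    ((inc h).le 35 42 rfl) ((inc h).le 42 44 rfl) ((inc h).le 68 71 rfl) ((inc h).le 71 72 rfl) ((inc h).le 57 59 rfl) ((inc h).le 59 68 rfl) ((inc h).le 35 39 rfl) ((inc h).le 39 44 rfl) ((inc h).le 68 69 rfl) ((inc h).le 69 72 rfl) ((inc h).le 57 66 rfl) ((inc h).le 66 68 rfl) (pl42_71_59 h) (pl39_69_66 h) le_rfl (P13 h).2.2.2.2.2.2.2.2.2.2.2.2.1.le (rs63 h).lt.ne' (rs64 h).lt.ne' (rs65 h).lt.ne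

theorem ry14 (h : TbH K E p) {D : ℝ → ℝ} (A : Adm (E 0) p D) : rv D (E 41) (E 42) 0 (E 222) + E 0 * rv D (E 71) (E 68) 0 (E 222) + (E 0 + 1) * rv D (E 60) (E 61) 0 (E 222) ≤ 0 :=
  ray A.cont (boxB h A)
    ((inc h).le 35 41 rfl) ((inc h).le 41 44 rfl) ((inc h).le 68 71 rfl) ((inc h).le 71 72 rfl) ((inc h).le 57 60 rfl) ((inc h).le 60 68 rfl) ((inc h).le 35 42 rfl) ((inc h).le 42 44 rfl) ((inc h).le 68 68 rfl) ((inc h).le 68 72 rfl) ((inc h).le 57 61 rfl) ((inc h).le 61 68 rfl) (pl41_71_60 h) (pl42_68_61 h) le_rfl (P13 h).2.2.2.2.2.2.2.2.2.2.2.2.2.1.le (rs66 h).lt.ne (rs67 h).lt.ne' (rs68 h).lt.ne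

theorem ry15 (h : TbH K E p) {D : ℝ → ℝ} (A : Adm (E 0) p D) : rv D (E 40) (E 43) 0 (E 224) + E 0 * rv D (E 71) (E 69) 0 (E 224) + (E 0 + 1) * rv D (E 61) (E 59) 0 (E 224) ≤ 0 :=
  ray A.cont (boxB h A)
    ((inc h).le 35 40 rfl) ((inc h).le 40 44 rfl) ((inc h).le 68 71 rfl) ((inc h).le 71 72 rfl) ((inc h).le 57 61 rfl) ((inc h).le 61 68 rfl) ((inc h).le 35 43 rfl) ((inc h).le 43 44 rfl) ((inc h).le 68 69 rfl) ((inc h).le 69 72 rfl) ((inc h).le 57 59 rfl) ((inc h).le 59 68 rfl) (pl40_71_61 h) (pl43_69_59 h) le_rfl (P13 h).2.2.2.2.2.2.2.2.2.2.2.2.2.2.1.le (rs69 h).lt.ne (rs70 h).lt.ne' (rs71 h).lt.ne'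

theorem ry16 (h : TbH K E p) {D : ℝ → ℝ} (A : Adm (E 0) p D) : rv D (E 40) (E 42) 0 (E 226) + E 0 * rv D (E 71) (E 69) 0 (E 226) + (E 0 + 1) * rv D (E 61) (E 60) 0 (E 226) ≤ 0 :=
  ray A.cont (boxB h A)
    ((inc h).le 35 40 rfl) ((inc h).le 40 44 rfl) ((inc h).le 68 71 rfl) ((inc h).le 71 72 rfl) ((inc h).le 57 61 rfl) ((inc h).le 61 68 rfl) ((inc h).le 35 42 rfl) ((inc h).le 42 44 rfl) ((inc h).le 68 69 rfl) ((inc h).le 69 72 rfl) ((inc h).le 57 60 rfl) ((inc h).le 60 68 rfl) (pl40_71_61 h) (pl42_69_60 h) le_rfl (P13 h).2.2.2.2.2.2.2.2.2.2.2.2.2.2.2.1.le (rs72 h).lt.ne (rs73 h).lt.ne' (rs74 h).lt.ne'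

theorem ry17 (h : TbH K E p) {D : ℝ → ℝ} (A : Adm (E 0) p D) : rv D (E 40) (E 41) 0 (E 228) + E 0 * rv D (E 71) (E 68) 0 (E 228) + (E 0 + 1) * rv D (E 61) (E 62) 0 (E 228) ≤ 0 :=
  ray A.cont (boxB h A)
    ((inc h).le 35 40 rfl) ((inc h).le 40 44 rfl) ((inc h).le 68 71 rfl) ((inc h).le 71 72 rfl) ((inc h).le 57 61 rfl) ((inc h).le 61 68 rfl) ((inc h).le 35 41 rfl) ((inc h).le 41 44 rfl) ((inc h).le 68 68 rfl) ((inc h).le 68 72 rfl) ((inc h).le 57 62 rfl) ((inc h).le 62 68 rfl) (pl40_71_61 h) (pl41_68_62 h) le_rfl (P14 h).1.le (rs75 h).lt.ne (rs76 h).lt.ne' (rs77 h).lt.ne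

theorem ry18 (h : TbH K E p) {D : ℝ → ℝ} (A : Adm (E 0) p D) : rv D (E 43) (E 41) (E 231) (E 232) + E 0 * rv D (E 69) (E 68) (E 231) (E 232) + (E 0 + 1) * rv D (E 59) (E 62) (E 231) (E 232) ≤ 0 :=
  ray A.cont (boxB h A)
    ((inc h).le 35 43 rfl) ((inc h).le 43 44 rfl) ((inc h).le 68 69 rfl) ((inc h).le 69 72 rfl) ((inc h).le 57 59 rfl) ((inc h).le 59 68 rfl) ((inc h).le 35 41 rfl) ((inc h).le 41 44 rfl) ((inc h).le 68 68 rfl) ((inc h).le 68 72 rfl) ((inc h).le 57 62 rfl) ((inc h).le 62 68 rfl) (pl43_69_59 h) (pl41_68_62 h) (P14 h).2.1.le (P14 h).2.2.1.le (rs78 h).lt.ne' (rs79 h).lt.ne' (rs80 h).lt.ne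

theorem ry19 (h : TbH K E p) {D : ℝ → ℝ} (A : Adm (E 0) p D) : rv D (E 43) (E 40) 0 (E 236) + E 0 * rv D (E 69) (E 68) 0 (E 236) + (E 0 + 1) * rv D (E 59) (E 64) 0 (E 236) ≤ 0 :=
  ray A.cont (boxB h A)
    ((inc h).le 35 43 rfl) ((inc h).le 43 44 rfl) ((inc h).le 68 69 rfl) ((inc h).le 69 72 rfl) ((inc h).le 57 59 rfl) ((inc h).le 59 68 rfl) ((inc h).le 35 40 rfl) ((inc h).le 40 44 rfl) ((inc h).le 68 68 rfl) ((inc h).le 68 72 rfl) ((inc h).le 57 64 rfl) ((inc h).le 64 68 rfl) (pl43_69_59 h) (pl40_68_64 h) le_rfl (P14 h).2.2.2.1.le (rs81 h).lt.ne' (rs82 h).lt.ne' (rs83 h).lt.ne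

theorem ry20 (h : TbH K E p) {D : ℝ → ℝ} (A : Adm (E 0) p D) : rv D (E 42) (E 40) 0 (E 238) + E 0 * rv D (E 69) (E 68) 0 (E 238) + (E 0 + 1) * rv D (E 60) (E 64) 0 (E 238) ≤ 0 :=
  ray A.cont (boxB h A)
    ((inc h).le 35 42 rfl) ((inc h).le 42 44 rfl) ((inc h).le 68 69 rfl) ((inc h).le 69 72 rfl) ((inc h).le 57 60 rfl) ((inc h).le 60 68 rfl) ((inc h).le 35 40 rfl) ((inc h).le 40 44 rfl) ((inc h).le 68 68 rfl) ((inc h).le 68 72 rfl) ((inc h).le 57 64 rfl) ((inc h).le 64 68 rfl) (pl42_69_60 h) (pl40_68_64 h) le_rfl (P14 h).2.2.2.2.1.le (rs84 h).lt.ne' (rs85 h).lt.ne' (rs86 h).lt.ne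

theorem ry21 (h : TbH K E p) {D : ℝ → ℝ} (A : Adm (E 0) p D) : rv D (E 41) (E 39) (E 240) 0 + E 0 * rv D (E 69) (E 68) (E 240) 0 + (E 0 + 1) * rv D (E 61) (E 68) (E 240) 0 ≤ 0 :=
  ray A.cont (boxB h A)
    ((inc h).le 35 41 rfl) ((inc h).le 41 44 rfl) ((inc h).le 68 69 rfl) ((inc h).le 69 72 rfl) ((inc h).le 57 61 rfl) ((inc h).le 61 68 rfl) ((inc h).le 35 39 rfl) ((inc h).le 39 44 rfl) ((inc h).le 68 68 rfl) ((inc h).le 68 72 rfl) ((inc h).le 57 68 rfl) ((inc h).le 68 68 rfl) (pl41_69_61 h) (pl39_68_68 h) (P14 h).2.2.2.2.2.1.le le_rfl (rs87 h).lt.ne' (rs88 h).lt.ne' (rs89 h).lt.ne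

theorem ry22 (h : TbH K E p) {D : ℝ → ℝ} (A : Adm (E 0) p D) : rv D (E 40) (E 42) 0 (E 243) + E 0 * rv D (E 69) (E 68) 0 (E 243) + (E 0 + 1) * rv D (E 62) (E 61) 0 (E 243) ≤ 0 :=
  ray A.cont (boxB h A)
    ((inc h).le 35 40 rfl) ((inc h).le 40 44 rfl) ((inc h).le 68 69 rfl) ((inc h).le 69 72 rfl) ((inc h).le 57 62 rfl) ((inc h).le 62 68 rfl) ((inc h).le 35 42 rfl) ((inc h).le 42 44 rfl) ((inc h).le 68 68 rfl) ((inc h).le 68 72 rfl) ((inc h).le 57 61 rfl) ((inc h).le 61 68 rfl) (pl40_69_62 h) (pl42_68_61 h) le_rfl (P14 h).2.2.2.2.2.2.1.le (rs90 h).lt.ne (rs91 h).lt.ne' (rs92 h).lt.ne'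

theorem ry23 (h : TbH K E p) {D : ℝ → ℝ} (A : Adm (E 0) p D) : rv D (E 40) (E 39) (E 244) 0 + E 0 * rv D (E 69) (E 68) (E 244) 0 + (E 0 + 1) * rv D (E 62) (E 68) (E 244) 0 ≤ 0 :=
  ray A.cont (boxB h A)
    ((inc h).le 35 40 rfl) ((inc h).le 40 44 rfl) ((inc h).le 68 69 rfl) ((inc h).le 69 72 rfl) ((inc h).le 57 62 rfl) ((inc h).le 62 68 rfl) ((inc h).le 35 39 rfl) ((inc h).le 39 44 rfl) ((inc h).le 68 68 rfl) ((inc h).le 68 72 rfl) ((inc h).le 57 68 rfl) ((inc h).le 68 68 rfl) (pl40_69_62 h) (pl39_68_68 h) (P14 h).2.2.2.2.2.2.2.1.le le_rfl (rs93 h).lt.ne' (rs94 h).lt.ne' (rs95 h).lt.ne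

theorem ry24 (h : TbH K E p) {D : ℝ → ℝ} (A : Adm (E 0) p D) : rv D (E 41) (E 39) (E 247) (E 248) + E 0 * rv D (E 68) (E 71) (E 247) (E 248) + (E 0 + 1) * rv D (E 62) (E 63) (E 247) (E 248) ≤ 0 :=
  ray A.cont (boxB h A)
    ((inc h).le 35 41 rfl) ((inc h).le 41 44 rfl) ((inc h).le 68 68 rfl) ((inc h).le 68 72 rfl) ((inc h).le 57 62 rfl) ((inc h).le 62 68 rfl) ((inc h).le 35 39 rfl) ((inc h).le 39 44 rfl) ((inc h).le 68 71 rfl) ((inc h).le 71 72 rfl) ((inc h).le 57 63 rfl) ((inc h).le 63 68 rfl) (pl41_68_62 h) (pl39_71_63 h) (P14 h).2.2.2.2.2.2.2.2.1.le (P14 h).2.2.2.2.2.2.2.2.2.1.le (rs96 h).lt.ne' (rs97 h).lt.ne (rs98 h).lt.ne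

theorem ry25 (h : TbH K E p) {D : ℝ → ℝ} (A : Adm (E 0) p D) : rv D (E 41) (E 39) (E 250) 0 + E 0 * rv D (E 68) (E 69) (E 250) 0 + (E 0 + 1) * rv D (E 62) (E 66) (E 250) 0 ≤ 0 :=
  ray A.cont (boxB h A)
    ((inc h).le 35 41 rfl) ((inc h).le 41 44 rfl) ((inc h).le 68 68 rfl) ((inc h).le 68 72 rfl) ((inc h).le 57 62 rfl) ((inc h).le 62 68 rfl) ((inc h).le 35 39 rfl) ((inc h).le 39 44 rfl) ((inc h).le 68 69 rfl) ((inc h).le 69 72 rfl) ((inc h).le 57 66 rfl) ((inc h).le 66 68 rfl) (pl41_68_62 h) (pl39_69_66 h) (P14 h).2.2.2.2.2.2.2.2.2.2.1.le le_rfl (rs99 h).lt.ne' (rs100 h).lt.ne (rs101 h).lt.ne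

theorem ry26 (h : TbH K E p) {D : ℝ → ℝ} (A : Adm (E 0) p D) : rv D (E 40) (E 39) (E 252) (E 253) + E 0 * rv D (E 68) (E 69) (E 252) (E 253) + (E 0 + 1) * rv D (E 64) (E 66) (E 252) (E 253) ≤ 0 :=
  ray A.cont (boxB h A)
    ((inc h).le 35 40 rfl) ((inc h).le 40 44 rfl) ((inc h).le 68 68 rfl) ((inc h).le 68 72 rfl) ((inc h).le 57 64 rfl) ((inc h).le 64 68 rfl) ((inc h).le 35 39 rfl) ((inc h).le 39 44 rfl) ((inc h).le 68 69 rfl) ((inc h).le 69 72 rfl) ((inc h).le 57 66 rfl) ((inc h).le 66 68 rfl) (pl40_68_64 h) (pl39_69_66 h) (P14 h).2.2.2.2.2.2.2.2.2.2.2.1.le (P14 h).2.2.2.2.2.2.2.2.2.2.2.2.1.le (rs102 h).lt.ne' (rs103 h).lt.ne (rs104 h).lt.ne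

theorem ry27 (h : TbH K E p) {D : ℝ → ℝ} (A : Adm (E 0) p D) : rv D (E 39) (E 38) (E 255) 0 + E 0 * rv D (E 71) (E 70) (E 255) 0 + (E 0 + 1) * rv D (E 63) (E 67) (E 255) 0 ≤ 0 :=
  ray A.cont (boxB h A)
    ((inc h).le 35 39 rfl) ((inc h).le 39 44 rfl) ((inc h).le 68 71 rfl) ((inc h).le 71 72 rfl) ((inc h).le 57 63 rfl) ((inc h).le 63 68 rfl) ((inc h).le 35 38 rfl) ((inc h).le 38 44 rfl) ((inc h).le 68 70 rfl) ((inc h).le 70 72 rfl) ((inc h).le 57 67 rfl) ((inc h).le 67 68 rfl) (pl39_71_63 h) (pl38_70_67 h) (P14 h).2.2.2.2.2.2.2.2.2.2.2.2.2.1.le le_rfl (rs105 h).lt.ne' (rs106 h).lt.ne' (rs107 h).lt.ne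

theorem ry28 (h : TbH K E p) {D : ℝ → ℝ} (A : Adm (E 0) p D) : rv D (E 50) (E 51) (E 501) 0 + E 0 * rv D (E 76) (E 77) (E 501) 0 + (E 0 + 1) * rv D (E 53) (E 52) (E 501) 0 ≤ 0 :=
  ray A.cont (boxE h A)
    ((inc h).le 50 50 rfl) ((inc h).le 50 51 rfl) ((inc h).le 76 76 rfl) ((inc h).le 76 81 rfl) ((inc h).le 51 53 rfl) ((inc h).le 53 53 rfl) ((inc h).le 50 51 rfl) ((inc h).le 51 51 rfl) ((inc h).le 76 77 rfl) ((inc h).le 77 81 rfl) ((inc h).le 51 52 rfl) ((inc h).le 52 53 rfl) (pl50_76_53 h) (pl51_77_52 h) (P14 h).2.2.2.2.2.2.2.2.2.2.2.2.2.2.1.le le_rfl (rs108 h).lt.ne (rs109 h).lt.ne (rs110 h).lt.ne'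

theorem vv0 (h : TbH K E p) {D : ℝ → ℝ} (A : Adm (E 0) p D) : (-1) * (pv D (E 43) (TbAt E)) + (-1) * (pv D (E 38) (TbTt E)) + (-1) * (pv D (E 44) (TbBt E)) + rv D (E 43) (E 36) (E 185) 0 + rv D (E 44) (E 43) 0 (E 189) + rv D (E 44) (E 43) (E 193) (E 194) + rv D (E 44) (E 42) 0 (E 197) + rv D (E 44) (E 43) (E 200) 0 + rv D (E 44) (E 42) (E 202) (E 203) + rv D (E 44) (E 41) 0 (E 205) + rv D (E 43) (E 42) 0 (E 208) + rv D (E 43) (E 42) (E 212) 0 + rv D (E 42) (E 41) (E 215) (E 216) + rv D (E 42) (E 39) 0 (E 219) + rv D (E 41) (E 42) 0 (E 222) + rv D (E 40) (E 43) 0 (E 224) + rv D (E 40) (E 42) 0 (E 226) + rv D (E 40) (E 41) 0 (E 228) + rv D (E 43) (E 41) (E 231) (E 232) + rv D (E 43) (E 40) 0 (E 236) + rv D (E 42) (E 40) 0 (E 238) + rv D (E 41) (E 39) (E 240) 0 + rv D (E 40) (E 42) 0 (E 243) + rv D (E 40) (E 39) (E 244) 0 + rv D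 (E 41) (E 39) (E 247) (E 248) + rv D (E 41) (E 39) (E 250) 0 + rv D (E 40) (E 39) (E 252) (E 253) + rv D (E 39) (E 38) (E 255) 0 = SS D (E 44) - SS D (E 37) := by
  simp only [TbAt, TbTt, TbBt, pv, (rs33 h).dn D, (rs36 h).dn D, (rs39 h).dn D, (rs42 h).dn D, (rs45 h).dn D, (rs48 h).dn D, (rs51 h).dn D, (rs54 h).dn D, (rs57 h).dn D, (rs60 h).dn D, (rs63 h).dn D, (rs66 h).up D, (rs69 h).up D, (rs72 h).up D, (rs75 h).up D, (rs78 h).dn D, (rs81 h).dn D, (rs84 h).dn D, (rs87 h).dn D, (rs90 h).up D, (rs93 h).dn D, (rs96 h).dn D, (rs99 h).dn D, (rs102 h).dn D, (rs105 h).dn D, (fo36 h A).1, (fo36 h A).2]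
  linear_combination 1 * (KK D (E 38) - KK D (E 37)) * (V6 h).2.2.2.2.2.2.2.2.2.1 + 1 * (TT D (E 38) - TT D (E 37)) * (F38 h).2.2.2.2.2.2.2.2.2.2.2.2.2.1 +
    1 * (KK D (E 39) - KK D (E 38)) * (V7 h).2.2.1 + 1 * (TT D (E 39) - TT D (E 38)) * (F39 h).2.2.2.2.2.2.1 +
    1 * (KK D (E 40) - KK D (E 39)) * (V7 h).2.1 + 1 * (TT D (E 40) - TT D (E 39)) * (F39 h).2.2.2.2.2.1 +
    1 * (KK D (E 41) - KK D (E 40)) * (V7 h).1 + 1 * (TT D (E 41) - TT D (E 40)) * (F39 h).2.2.2.2.1 +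
    1 * (KK D (E 42) - KK D (E 41)) * (V6 h).2.2.2.2.2.2.2.2.2.2.2.2.2.2.2.1 + 1 * (TT D (E 42) - TT D (E 41)) * (F39 h).2.2.2.1 +
    1 * (KK D (E 43) - KK D (E 42)) * (V6 h).2.2.2.2.2.2.2.2.2.2.2.2.2.2.1 + 1 * (TT D (E 43) - TT D (E 42)) * (F39 h).2.2.1 +
    1 * (KK D (E 44) - KK D (E 43)) * (V6 h).2.2.2.2.2.2.2.2.2.2.2.2.2.1 + 1 * (TT D (E 44) - TT D (E 43)) * (F39 h).2.1 +
    2 * (E 295) * tz h D

theorem vv1 (h : TbH K E p) {D : ℝ → ℝ} (A : Adm (E 0) p D) : (1) * (pv D (E 44) (TbD1t E)) + (-1) * (pv D (E 46) (TbD2t E)) + rv D (E 46) (E 45) 0 (E 178) + rv D (E 45) (E 44) (E 399) 0 = SS D (E 46) - SS D (E 44) := by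
  simp only [TbD1t, TbD2t, pv, (rs27 h).dn D, (rs30 h).dn D]
  linear_combination 1 * (KK D (E 45) - KK D (E 44)) * (V6 h).2.2.2.1 + 1 * (TT D (E 45) - TT D (E 44)) * (F38 h).2.2.2.2.2.2.2.1 +
    1 * (KK D (E 46) - KK D (E 45)) * (V6 h).2.2.1 + 1 * (TT D (E 46) - TT D (E 45)) * (F38 h).2.2.2.2.2.2.1

theorem vv2 (h : TbH K E p) {D : ℝ → ℝ} (A : Adm (E 0) p D) : (-1) * (pv D (E 50) (TbC0t E)) + (1) * (pv D (E 46) (TbC1t E)) + (-1) * ((E 0 + 1) * pv D (E 50) (TbAx E)) + rv D (E 49) (E 46) 0 (E 174) + (E 0 + 1) * rv D (E 47) (E 50) (E 185) 0 = SS D (E 50) - SS D (E 46) := by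
  simp only [TbC0t, TbC1t, TbAx, pv, (rs24 h).dn D, (rs35 h).up D]
  linear_combination (E 0 + 1) * (KK D (E 47) - KK D (E 46)) * (V6 h).2.2.2.2.2.2.2.2.1 + (E 0 + 1) * (TT D (E 47) - TT D (E 46)) * (F38 h).2.2.2.2.2.2.2.2.2.2.2.2.1 +
    (SS D (E 47) - SS D (E 46) - ((E 337) + (E 2012)) * (KK D (E 47) - KK D (E 46)) - (E 504) * (TT D (E 47) - TT D (E 46))) * hX h +
    (E 0 + 1) * (KK D (E 48) - KK D (E 47)) * (V6 h).2.2.2.2.2.2.2.1 + (E 0 + 1) * (TT D (E 48) - TT D (E 47)) * (F38 h).2.2.2.2.2.2.2.2.2.2.2.1 +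
    (SS D (E 48) - SS D (E 47) - ((E 336) + (E 2012)) * (KK D (E 48) - KK D (E 47)) - (E 504) * (TT D (E 48) - TT D (E 47))) * hX h +
    (E 0 + 1) * (KK D (E 49) - KK D (E 48)) * (V6 h).2.2.2.2.2.2.1 + (E 0 + 1) * (TT D (E 49) - TT D (E 48)) * (F38 h).2.2.2.2.2.2.2.2.2.2.1 +
    (SS D (E 49) - SS D (E 48) - (((E 2009) + (E 173)) + (E 2012)) * (KK D (E 49) - KK D (E 48)) - ((E 172) + (E 504)) * (TT D (E 49) - TT D (E 48))) * hX h +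
    (E 0 + 1) * (KK D (E 50) - KK D (E 49)) * (V6 h).2.2.2.2.2.1 + (E 0 + 1) * (TT D (E 50) - TT D (E 49)) * (F38 h).2.2.2.2.2.2.2.2.2.1 +
    (SS D (E 50) - SS D (E 49) - (E 2008) * (KK D (E 50) - KK D (E 49)) - (E 323) * (TT D (E 50) - TT D (E 49))) * hX h

theorem vv3 (h : TbH K E p) {D : ℝ → ℝ} (A : Adm (E 0) p D) : (1) * (pv D (E 50) (TbE1t E)) + (1) * (pv D (E 50) (TbE2t E)) + (-1) * (pv D (E 51) (TbE3t E)) + rv D (E 50) (E 51) (E 501) 0 = SS D (E 51) - SS D (E 50) := by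
  simp only [TbE1t, TbE2t, TbE3t, pv, (rs108 h).up D]
  linear_combination 1 * (KK D (E 51) - KK D (E 50)) * (V8 h).2.2.2.1 + 1 * (TT D (E 51) - TT D (E 50)) * (F40 h).2.2.2.2.2.2.2.1

theorem vv4 (h : TbH K E p) {D : ℝ → ℝ} (A : Adm (E 0) p D) : (1) * ((E 0 + 1) * pv D (E 52) (TbE1x E)) + (1) * ((E 0 + 1) * pv D (E 51) (TbE2x E)) + (-1) * ((E 0 + 1) * pv D (E 52) (TbE3x E)) + (E 0 + 1) * rv D (E 53) (E 52) (E 501) 0 = SS D (E 53) - SS D (E 51) := by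
  simp only [TbE1x, TbE2x, TbE3x, pv, (rs110 h).dn D]
  linear_combination (E 0 + 1) * (KK D (E 52) - KK D (E 51)) * (V8 h).2.2.2.2.1 + (E 0 + 1) * (TT D (E 52) - TT D (E 51)) * (F40 h).2.2.2.2.2.2.2.2.1 +
    (SS D (E 52) - SS D (E 51)) * hX h +
    (E 0 + 1) * (KK D (E 53) - KK D (E 52)) * (V8 h).2.1 + (E 0 + 1) * (TT D (E 53) - TT D (E 52)) * (F40 h).2.2.2.2.2.1 +
    (SS D (E 53) - SS D (E 52)) * hX h

theorem vv5 (h : TbH K E p) {D : ℝ → ℝ} (A : Adm (E 0) p D) : (-1) * ((E 0 + 1) * pv D (E 54) (TbC0x E)) + (1) * ((E 0 + 1) * pv D (E 54) (TbC1x E)) + (E 0 + 1) * rv D (E 54) (E 55) 0 (E 174) = SS D (E 55) - SS D (E 53) := by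
  simp only [TbC0x, TbC1x, pv, (rs26 h).up D]
  linear_combination (E 0 + 1) * (KK D (E 54) - KK D (E 53)) * (V5 h).2.2.2.2.2.2.2.2.2.2.2.1 + (E 0 + 1) * (TT D (E 54) - TT D (E 53)) * (F37 h).2.2.2.2.2.2.2.2.2.2.2.2.2.2.2.1 +
    (SS D (E 54) - SS D (E 53)) * hX h +
    (E 0 + 1) * (KK D (E 55) - KK D (E 54)) * (V5 h).2.2.2.2.2.2.2.2.2.2.2.2.2.2.1 + (E 0 + 1) * (TT D (E 55) - TT D (E 54)) * (F38 h).2.2.1 +
    (SS D (E 55) - SS D (E 54)) * hX h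

theorem vv6 (h : TbH K E p) {D : ℝ → ℝ} (A : Adm (E 0) p D) : (1) * ((E 0 + 1) * pv D (E 56) (TbD1x E)) + (-1) * ((E 0 + 1) * pv D (E 56) (TbD2x E)) + (-1) * (E 0 * pv D (E 84) (TbAv E)) + (E 0 + 1) * rv D (E 55) (E 56) 0 (E 178) + (E 0 + 1) * rv D (E 56) (E 57) (E 399) 0 + E 0 * rv D (E 82) (E 84) (E 185) 0 = SS D (E 57) - SS D (E 55) := by
  simp only [TbD1x, TbD2x, TbAv, pv, (rs29 h).up D, (rs32 h).up D, (rs34 h).up D, (fo82 h A).1, (fo82 h A).2, (fo83 h A).1, (fo83 h A).2, (fo84 h A).1, (fo84 h A).2]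
  linear_combination (E 0 + 1) * (KK D (E 56) - KK D (E 55)) * (V6 h).2.2.2.2.1 + (E 0 + 1) * (TT D (E 56) - TT D (E 55)) * (F38 h).2.2.2.2.2.2.2.2.1 +
    (SS D (E 56) - SS D (E 55) - (((((0 : ℤ) : ℝ) / ((1 : ℕ) : ℝ)) - ((E 0) * (E 400))) - ((E 0) * ((E 2000) + ((E 293) * (π + π))))) * (KK D (E 56) - KK D (E 55)) - ((E 0) * (E 293)) * (TT D (E 56) - TT D (E 55))) * hX h +
    (E 0 + 1) * (KK D (E 57) - KK D (E 56)) * (V6 h).2.1 + (E 0 + 1) * (TT D (E 57) - TT D (E 56)) * (F38 h).2.2.2.2.2.1 +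
    (SS D (E 57) - SS D (E 56) - (((((0 : ℤ) : ℝ) / ((1 : ℕ) : ℝ)) - ((E 0) * ((E 2010) + ((E 403) * (π + π))))) - ((E 0) * ((E 2000) + ((E 293) * (π + π))))) * (KK D (E 57) - KK D (E 56)) - (((E 0) * (E 403)) + ((E 0) * (E 293))) * (TT D (E 57) - TT D (E 56))) * hX h

theorem vv7 (h : TbH K E p) {D : ℝ → ℝ} (A : Adm (E 0) p D) : (-1) * ((E 0 + 1) * pv D (E 68) (TbTx E)) + (-1) * ((E 0 + 1) * pv D (E 65) (TbBx E)) + (E 0 + 1) * rv D (E 57) (E 58) 0 (E 189) + (E 0 + 1) * rv D (E 57) (E 59) (E 193) (E 194) + (E 0 + 1) * rv D (E 57) (E 60) 0 (E 197) + (E 0 + 1) * rv D (E 57) (E 60) (E 200) 0 + (E 0 + 1) * rv D (E 57) (E 61) (E 202) (E 203) + (E 0 + 1) * rv D (E 57) (E 62) 0 (E 205) + (E 0 + 1) * rv D (E 58) (E 60) 0 (E 208) + (E 0 + 1) * rv D (E 58) (E 61) (E 212) 0 + (E 0 + 1) * rv D (E 59) (E 61) (E 215) (E 216) + (E 0 + 1) * rv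 D (E 59) (E 66) 0 (E 219) + (E 0 + 1) * rv D (E 60) (E 61) 0 (E 222) + (E 0 + 1) * rv D (E 61) (E 59) 0 (E 224) + (E 0 + 1) * rv D (E 61) (E 60) 0 (E 226) + (E 0 + 1) * rv D (E 61) (E 62) 0 (E 228) + (E 0 + 1) * rv D (E 59) (E 62) (E 231) (E 232) + (E 0 + 1) * rv D (E 59) (E 64) 0 (E 236) + (E 0 + 1) * rv D (E 60) (E 64) 0 (E 238) + (E 0 + 1) * rv D (E 61) (E 68) (E 240) 0 + (E 0 + 1) * rv D (E 62) (E 61) 0 (E 243) + (E 0 + 1) * rv D (E 62) (E 68) (E 244) 0 + (E 0 + 1) * rv D (E 62) (E 63) (E 247) (E 248) + (E 0 + 1) * rv D (E 62) (E 66) (E 250) 0 + (E 0 + 1) * rv D (E 64) (E 66) (E 252) (E 253) + (E 0 + 1) * rv D (E 63) (E 67) (E 255) 0 = SS D (E 68) - SS D (E 57) := by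
  simp only [TbTx, TbBx, pv, (rs38 h).up D, (rs41 h).up D, (rs44 h).up D, (rs47 h).up D, (rs50 h).up D, (rs53 h).up D, (rs56 h).up D, (rs59 h).up D, (rs62 h).up D, (rs65 h).up D, (rs68 h).up D, (rs71 h).dn D, (rs74 h).dn D, (rs77 h).up D, (rs80 h).up D, (rs83 h).up D, (rs86 h).up D, (rs89 h).up D, (rs92 h).dn D, (rs95 h).up D, (rs98 h).up D, (rs101 h).up D, (rs104 h).up D, (rs107 h).up D]
  linear_combination (E 0 + 1) * (KK D (E 58) - KK D (E 57)) * (V7 h).2.2.2.2.2.2.2.2.2.2.2.2.2.2.1 + (E 0 + 1) * (TT D (E 58) - TT D (E 57)) * (F40 h).2.2.1 +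
    (SS D (E 58) - SS D (E 57)) * hX h +
    (E 0 + 1) * (KK D (E 59) - KK D (E 58)) * (V7 h).2.2.2.2.2.2.2.2.2.2.2.2.2.1 + (E 0 + 1) * (TT D (E 59) - TT D (E 58)) * (F40 h).2.1 +
    (SS D (E 59) - SS D (E 58)) * hX h +
    (E 0 + 1) * (KK D (E 60) - KK D (E 59)) * (V7 h).2.2.2.2.2.2.2.2.2.2.2.2.1 + (E 0 + 1) * (TT D (E 60) - TT D (E 59)) * (F40 h).1 +
    (SS D (E 60) - SS D (E 59)) * hX h +
    (E 0 + 1) * (KK D (E 61) - KK D (E 60)) * (V7 h).2.2.2.2.2.2.2.2.2.2.2.1 + (E 0 + 1) * (TT D (E 61) - TT D (E 60)) * (F39 h).2.2.2.2.2.2.2.2.2.2.2.2.2.2.2.1 +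
    (SS D (E 61) - SS D (E 60)) * hX h +
    (E 0 + 1) * (KK D (E 62) - KK D (E 61)) * (V7 h).2.2.2.2.2.2.2.2.2.2.1 + (E 0 + 1) * (TT D (E 62) - TT D (E 61)) * (F39 h).2.2.2.2.2.2.2.2.2.2.2.2.2.2.1 +
    (SS D (E 62) - SS D (E 61)) * hX h +
    (E 0 + 1) * (KK D (E 63) - KK D (E 62)) * (V7 h).2.2.2.2.2.2.2.2.2.1 + (E 0 + 1) * (TT D (E 63) - TT D (E 62)) * (F39 h).2.2.2.2.2.2.2.2.2.2.2.2.2.1 +
    (SS D (E 63) - SS D (E 62)) * hX h +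
    (E 0 + 1) * (KK D (E 64) - KK D (E 63)) * (V7 h).2.2.2.2.2.2.2.2.1 + (E 0 + 1) * (TT D (E 64) - TT D (E 63)) * (F39 h).2.2.2.2.2.2.2.2.2.2.2.2.1 +
    (SS D (E 64) - SS D (E 63)) * hX h +
    (E 0 + 1) * (KK D (E 65) - KK D (E 64)) * (V7 h).2.2.2.2.2.2.2.1 + (E 0 + 1) * (TT D (E 65) - TT D (E 64)) * (F39 h).2.2.2.2.2.2.2.2.2.2.2.1 +
    (SS D (E 65) - SS D (E 64)) * hX h +
    (E 0 + 1) * (KK D (E 66) - KK D (E 65)) * (V6 h).2.2.2.2.2.2.2.2.2.2.2.2.1 + (E 0 + 1) * (TT D (E 66) - TT D (E 65)) * (F39 h).1 +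
    (SS D (E 66) - SS D (E 65)) * hX h +
    (E 0 + 1) * (KK D (E 67) - KK D (E 66)) * (V6 h).2.2.2.2.2.2.2.2.2.2.2.1 + (E 0 + 1) * (TT D (E 67) - TT D (E 66)) * (F38 h).2.2.2.2.2.2.2.2.2.2.2.2.2.2.2.1 +
    (SS D (E 67) - SS D (E 66)) * hX h +
    (E 0 + 1) * (KK D (E 68) - KK D (E 67)) * (V6 h).2.2.2.2.2.2.2.2.2.2.1 + (E 0 + 1) * (TT D (E 68) - TT D (E 67)) * (F38 h).2.2.2.2.2.2.2.2.2.2.2.2.2.2.1 +
    (SS D (E 68) - SS D (E 67)) * hX h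

theorem vv8 (h : TbH K E p) {D : ℝ → ℝ} (A : Adm (E 0) p D) : (-1) * (E 0 * pv D (E 72) (TbTv E)) + (-1) * (E 0 * pv D (E 72) (TbBv E)) + E 0 * rv D (E 72) (E 71) 0 (E 189) + E 0 * rv D (E 72) (E 69) (E 193) (E 194) + E 0 * rv D (E 72) (E 69) 0 (E 197) + E 0 * rv D (E 72) (E 68) (E 200) 0 + E 0 * rv D (E 72) (E 68) (E 202) (E 203) + E 0 * rv D (E 72) (E 68) 0 (E 205) + E 0 * rv D (E 71) (E 69) 0 (E 208) + E 0 * rv D (E 71) (E 68) (E 212) 0 + E 0 * rv D (E 71) (E 69) (E 215) (E 216) + E 0 * rv D (E 71) (E 69) 0 (E 219) + E 0 * rv D (E 71) (E 68) 0 (E 222) + E 0 * rv D (E 71) (E 69) 0 (E 224) + E 0 * rv D (E 71) (E 69) 0 (E 226) + E 0 * rv D (E 71) (E 68) 0 (E 228) + E 0 * rv D (E 69) (E 68) (E 231) (E 232) + E 0 * rv D (E 69) (E 68) 0 (E 236) + E 0 * rv D (E 69) (E 68) 0 (E 238) + E 0 * rv D (E 69) (E 68) (E 240) 0 + E 0 * rv D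 (E 69) (E 68) 0 (E 243) + E 0 * rv D (E 69) (E 68) (E 244) 0 + E 0 * rv D (E 68) (E 71) (E 247) (E 248) + E 0 * rv D (E 68) (E 69) (E 250) 0 + E 0 * rv D (E 68) (E 69) (E 252) (E 253) + E 0 * rv D (E 71) (E 70) (E 255) 0 = SS D (E 72) - SS D (E 68) := by
  simp only [TbTv, TbBv, pv, (rs37 h).dn D, (rs40 h).dn D, (rs43 h).dn D, (rs46 h).dn D, (rs49 h).dn D, (rs52 h).dn D, (rs55 h).dn D, (rs58 h).dn D, (rs61 h).dn D, (rs64 h).dn D, (rs67 h).dn D, (rs70 h).dn D, (rs73 h).dn D, (rs76 h).dn D, (rs79 h).dn D, (rs82 h).dn D, (rs85 h).dn D, (rs88 h).dn D, (rs91 h).dn D, (rs94 h).dn D, (rs97 h).up D, (rs100 h).up D, (rs103 h).up D, (rs106 h).dn D]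
  linear_combination E 0 * (KK D (E 69) - KK D (E 68)) * (V7 h).2.2.2.2.2.2.1 + E 0 * (TT D (E 69) - TT D (E 68)) * (F39 h).2.2.2.2.2.2.2.2.2.2.1 +
    (SS D (E 69) - SS D (E 68)) * hV h +
    E 0 * (KK D (E 70) - KK D (E 69)) * (V7 h).2.2.2.2.2.1 + E 0 * (TT D (E 70) - TT D (E 69)) * (F39 h).2.2.2.2.2.2.2.2.2.1 +
    (SS D (E 70) - SS D (E 69)) * hV h +
    E 0 * (KK D (E 71) - KK D (E 70)) * (V7 h).2.2.2.2.1 + E 0 * (TT D (E 71) - TT D (E 70)) * (F39 h).2.2.2.2.2.2.2.2.1 +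
    (SS D (E 71) - SS D (E 70)) * hV h +
    E 0 * (KK D (E 72) - KK D (E 71)) * (V7 h).2.2.2.1 + E 0 * (TT D (E 72) - TT D (E 71)) * (F39 h).2.2.2.2.2.2.2.1 +
    (SS D (E 72) - SS D (E 71)) * hV h

theorem vv9 (h : TbH K E p) {D : ℝ → ℝ} (A : Adm (E 0) p D) : (1) * (E 0 * pv D (E 72) (TbD1v E)) + (-1) * (E 0 * pv D (E 74) (TbD2v E)) + E 0 * rv D (E 74) (E 73) 0 (E 178) + E 0 * rv D (E 73) (E 72) (E 399) 0 = SS D (E 74) - SS D (E 72) := by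
  simp only [TbD1v, TbD2v, pv, (rs28 h).dn D, (rs31 h).dn D]
  linear_combination E 0 * (KK D (E 73) - KK D (E 72)) * (V5 h).2.2.2.2.2.2.2.2.2.2.2.2.2.2.2.1 + E 0 * (TT D (E 73) - TT D (E 72)) * (F38 h).2.2.2.1 +
    (SS D (E 73) - SS D (E 72)) * hV h +
    E 0 * (KK D (E 74) - KK D (E 73)) * (V6 h).1 + E 0 * (TT D (E 74) - TT D (E 73)) * (F38 h).2.2.2.2.1 +
    (SS D (E 74) - SS D (E 73)) * hV h

theorem vv10 (h : TbH K E p) {D : ℝ → ℝ} (A : Adm (E 0) p D) : (-1) * (E 0 * pv D (E 76) (TbC0v E)) + (1) * (E 0 * pv D (E 74) (TbC1v E)) + E 0 * rv D (E 75) (E 74) 0 (E 174) = SS D (E 76) - SS D (E 74) := by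
  simp only [TbC0v, TbC1v, pv, (rs25 h).dn D]
  linear_combination E 0 * (KK D (E 75) - KK D (E 74)) * (V5 h).2.2.2.2.2.2.2.2.2.2.2.2.1 + E 0 * (TT D (E 75) - TT D (E 74)) * (F38 h).1 +
    (SS D (E 75) - SS D (E 74)) * hV h +
    E 0 * (KK D (E 76) - KK D (E 75)) * (V5 h).2.2.2.2.2.2.2.2.2.2.2.2.2.1 + E 0 * (TT D (E 76) - TT D (E 75)) * (F38 h).2.1 +
    (SS D (E 76) - SS D (E 75)) * hV h

theorem vv11 (h : TbH K E p) {D : ℝ → ℝ} (A : Adm (E 0) p D) : (1) * (E 0 * pv D (E 76) (TbE1v E)) + (1) * (E 0 * pv D (E 78) (TbE2v E)) + (-1) * (E 0 * pv D (E 80) (TbE3v E)) + E 0 * rv D (E 76) (E 77) (E 501) 0 = SS D (E 79) - SS D (E 76) := by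
  simp only [TbE1v, TbE2v, TbE3v, pv, (rs109 h).up D, (fo80 h A).1, (fo80 h A).2]
  linear_combination E 0 * (KK D (E 77) - KK D (E 76)) * (V7 h).2.2.2.2.2.2.2.2.2.2.2.2.2.2.2.1 + E 0 * (TT D (E 77) - TT D (E 76)) * (F40 h).2.2.2.1 +
    (SS D (E 77) - SS D (E 76)) * hV h +
    E 0 * (KK D (E 78) - KK D (E 77)) * (V8 h).1 + E 0 * (TT D (E 78) - TT D (E 77)) * (F40 h).2.2.2.2.1 +
    (SS D (E 78) - SS D (E 77)) * hV h +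
    E 0 * (KK D (E 79) - KK D (E 78)) * (V8 h).2.2.1 + E 0 * (TT D (E 79) - TT D (E 78)) * (F40 h).2.2.2.2.2.2.1 +
    (SS D (E 79) - SS D (E 78)) * hV h

theorem Tbdual (h : TbH K E p) : Dual (E 0) p := by
  intro D A
  have e : SS D (E 79) - SS D (E 37) ≤ 0 := by
    linarith [vv0 h A, vv1 h A, vv2 h A, vv3 h A, vv4 h A, vv5 h A, vv6 h A, vv7 h A, vv8 h A, vv9 h A, vv10 h A, vv11 h A, frC0 h A, frC1 h A, frD1 h A, frD2 h A, frA h A, frT h A, frB h A, frE1 h A, frE2 h A, frE3 h A, ry0 h A, ry1 h A, ry2 h A, ry3 h A, ry4 h A, ry5 h A, ry6 h A, ry7 h A, ry8 h A, ry9 h A, ry10 h A, ry11 h A, ry12 h A, ry13 h A, ry14 h A, ry15 h A, ry16 h A, ry17 h A, ry18 h A, ry19 h A, ry20 h A, ry21 h A, ry22 h A, ry23 h A, ry24 h A, ry25 h A, ry26 h A, ry27 h A, ry28 h A]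
  rw [hpi h, hz h, (prim0 D).2.1, sub_zero] at e
  exact e

end Tb

theorem Tbspec (K E : ℕ → ℝ) (s : ℝ) (p : ℕ → ℝ) (hM : 1 < E 0) (hl : Lin (E 0) s p) (ht : Trig (E 0) p)
    (hp : ∀ i, 1 ≤ i → i ≤ 11 → E (9 + i) = p i) (hd : Dfs K E 22 Tbds) (hc : Pos K E Tbcs) :
    Dual (E 0) p := by
  obtain ⟨F, hF, hv⟩ := Dfs_ext K E 2000 Tbdv (by decide +kernel)
  have hd := Dfs_agree hF Tbds 22 (by decide +kernel) (by decide +kernel) hd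
  have hc := Pos_agree hF Tbcs (by decide +kernel) hc
  have hq : ∀ i, 1 ≤ i → i ≤ 11 → F (9 + i) = p i := fun i a b => (hF _ (by omega)).trans (hp i a b)
  rw [← hF 0 (by omega)] at hM ht ⊢
  obtain ⟨d0, hd⟩ := Dfs_app hd 38 rfl
  obtain ⟨d1, hd⟩ := Dfs_app hd 54 rfl
  obtain ⟨d2, hd⟩ := Dfs_app hd 70 rfl
  obtain ⟨d3, hd⟩ := Dfs_app hd 86 rfl
  obtain ⟨d4, hd⟩ := Dfs_app hd 102 rfl
  obtain ⟨d5, hd⟩ := Dfs_app hd 118 rfl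
  obtain ⟨d6, hd⟩ := Dfs_app hd 134 rfl
  obtain ⟨d7, hd⟩ := Dfs_app hd 150 rfl
  obtain ⟨d8, hd⟩ := Dfs_app hd 166 rfl
  obtain ⟨d9, hd⟩ := Dfs_app hd 182 rfl
  obtain ⟨d10, hd⟩ := Dfs_app hd 198 rfl
  obtain ⟨d11, hd⟩ := Dfs_app hd 214 rfl
  obtain ⟨d12, hd⟩ := Dfs_app hd 230 rfl
  obtain ⟨d13, hd⟩ := Dfs_app hd 246 rfl
  obtain ⟨d14, hd⟩ := Dfs_app hd 262 rfl
  obtain ⟨d15, hd⟩ := Dfs_app hd 278 rfl
  obtain ⟨d16, hd⟩ := Dfs_app hd 294 rfl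
  obtain ⟨d17, hd⟩ := Dfs_app hd 310 rfl
  obtain ⟨d18, hd⟩ := Dfs_app hd 326 rfl
  obtain ⟨d19, hd⟩ := Dfs_app hd 342 rfl
  obtain ⟨d20, hd⟩ := Dfs_app hd 358 rfl
  obtain ⟨d21, hd⟩ := Dfs_app hd 374 rfl
  obtain ⟨d22, hd⟩ := Dfs_app hd 390 rfl
  obtain ⟨d23, hd⟩ := Dfs_app hd 406 rfl
  obtain ⟨d24, hd⟩ := Dfs_app hd 422 rfl
  obtain ⟨d25, hd⟩ := Dfs_app hd 438 rfl
  obtain ⟨d26, hd⟩ := Dfs_app hd 454 rfl
  obtain ⟨d27, hd⟩ := Dfs_app hd 470 rfl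
  obtain ⟨d28, hd⟩ := Dfs_app hd 486 rfl
  obtain ⟨d29, hd⟩ := Dfs_app hd 502 rfl
  obtain ⟨d30, hd⟩ := Dfs_app hd 518 rfl
  obtain ⟨d31, hd⟩ := Dfs_app hd 534 rfl
  obtain ⟨d32, hd⟩ := Dfs_app hd 550 rfl
  obtain ⟨d33, hd⟩ := Dfs_app hd 566 rfl
  obtain ⟨d34, hd⟩ := Dfs_app hd 582 rfl
  obtain ⟨d35, hd⟩ := Dfs_app hd 598 rfl
  obtain ⟨d36, hd⟩ := Dfs_app hd 614 rfl
  obtain ⟨d37, hd⟩ := Dfs_app hd 630 rfl
  obtain ⟨d38, hd⟩ := Dfs_app hd 646 rfl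
  obtain ⟨d39, hd⟩ := Dfs_app hd 662 rfl
  obtain ⟨v0, hv⟩ := Dfs_app hv 2016 rfl
  obtain ⟨v1, hv⟩ := Dfs_app hv 2032 rfl
  obtain ⟨v2, hv⟩ := Dfs_app hv 2048 rfl
  obtain ⟨v3, hv⟩ := Dfs_app hv 2064 rfl
  obtain ⟨v4, hv⟩ := Dfs_app hv 2080 rfl
  obtain ⟨v5, hv⟩ := Dfs_app hv 2096 rfl
  obtain ⟨v6, hv⟩ := Dfs_app hv 2112 rfl
  obtain ⟨v7, hv⟩ := Dfs_app hv 2128 rfl
  obtain ⟨v8, hv⟩ := Dfs_app hv 2144 rfl
  obtain ⟨v9, hv⟩ := Dfs_app hv 2160 rfl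
  obtain ⟨v10, hv⟩ := Dfs_app hv 2176 rfl
  obtain ⟨v11, hv⟩ := Dfs_app hv 2192 rfl
  obtain ⟨v12, hv⟩ := Dfs_app hv 2208 rfl
  obtain ⟨ch, hc⟩ := Pos_app hc
  obtain ⟨c0, hc⟩ := Pos_app hc
  obtain ⟨c1, hc⟩ := Pos_app hc
  obtain ⟨c2, hc⟩ := Pos_app hc
  obtain ⟨c3, hc⟩ := Pos_app hc
  obtain ⟨c4, hc⟩ := Pos_app hc
  obtain ⟨c5, hc⟩ := Pos_app hc
  obtain ⟨c6, hc⟩ := Pos_app hc
  obtain ⟨c7, hc⟩ := Pos_app hc
  obtain ⟨c8, hc⟩ := Pos_app hc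
  obtain ⟨c9, hc⟩ := Pos_app hc
  obtain ⟨c10, hc⟩ := Pos_app hc
  obtain ⟨c11, hc⟩ := Pos_app hc
  obtain ⟨c12, hc⟩ := Pos_app hc
  obtain ⟨c13, hc⟩ := Pos_app hc
  exact Tb.Tbdual ⟨hM, hq, hl.e0, hl.e12, lin3 (hq 3 (by decide) (by decide)) (hq 11 (by decide) (by decide)) (hq 5 (by decide) (by decide)) hl.e5, lin3 (hq 2 (by decide) (by decide)) (hq 10 (by decide) (by decide)) (hq 6 (by decide) (by decide)) hl.e6,
    lin3 (hq 1 (by decide) (by decide)) (hq 9 (by decide) (by decide)) (hq 7 (by decide) (by decide)) hl.e7, ht, ch, d0, d1, d2, d3, d4, d5, d6, d7, d8, d9, d10, d11, d12, d13, d14, d15, d16, d17, d18, d19, d20, d21, d22, d23, d24, d25, d26, d27, d28, d29, d30, d31, d32, d33, d34, d35, d36, d37, d38, d39, hd, v0, v1, v2, v3, v4, v5, v6, v7, v8, v9, v10, v11, v12, hv, c0, c1, c2, c3, c4, c5, c6, c7, c8, c9, c10, c11, c12,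 c13, hc⟩

end Pool.Agent.MP_e5b4ec_an.Mid
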