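import Pool.Agent.MP_e5b4ec_an.Mid.TbB
import Pool.Agent.MP_e5b4ec_an.Mid.TbK0
import Pool.Agent.MP_e5b4ec_an.Mid.TbK1

set_option maxRecDepth 20000

namespace Pool.Agent.MP_e5b4ec_an.Mid

theorem TbDS : DualSpec [(Tbds, Tbcs)] := by
  refine ⟨fun b hb => ?_, fun K M s p hM _ hl ht h => ?_⟩
  · rw [List.mem_singleton.1 hb]; decide +kernel
  · obtain ⟨E, h0, hp, hd, hc⟩ := h _ (List.mem_singleton.2 rfl)
    subst h0
    exact Tbspec K E s p hM hl ht hp hd hc

theorem Tbcover (M : ℝ) (h1 : 271 / 200 ≤ M) (h2 : M ≤ 141 / 100) : Good M := by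
  rcases le_total M (273 / 200) with h | h1
  · exact Tbk0 TbDS M (by linarith) h
  rcases le_total M (11 / 8) with h | h1
  · exact Tbk1 TbDS M (by linarith) h
  rcases le_total M (277 / 200) with h | h1
  · exact Tbk2 TbDS M (by linarith) h
  rcases le_total M (279 / 200) with h | h1
  · exact Tbk3 TbDS M (by linarith) h
  rcases le_total M (281 / 200) with h | h1
  · exact Tbk4 TbDS M (by linarith) h
  exact Tbk5 TbDS M (by linarith) h2

end Pool.Agent.MP_e5b4ec_an.Mid
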