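import Pool.Agent.MP_e5b4ec_an.Mid.TbX
import Pool.Agent.MP_e5b4ec_an.Mid.DL

set_option maxRecDepth 20000
set_option linter.unusedSimpArgs false
set_option linter.unusedVariables false

open Real

namespace Pool.Agent.MP_e5b4ec_an.Mid

def Tbv0 : List Ex := [
  .sub (.mul (.v 185) (.v 187)) (.mul (.v 293) (.v 82)),
  .sub (.q 0 1) (.mul (.v 295) (.v 36)),
  .sub (.mul (.v 240) (.v 242)) (.mul (.v 297) (.v 61)),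
  .sub (.mul (.v 244) (.v 246)) (.mul (.v 299) (.v 62)),
  .sub (.mul (.v 255) (.v 258)) (.mul (.v 301) (.v 63)),
  .sub (.q 0 1) (.mul (.v 303) (.v 59)),
  .sub (.mul (.v 250) (.v 251)) (.mul (.v 305) (.v 62)),
  .sub (.mul (.v 252) (.v 254)) (.mul (.v 307) (.v 64)),
  .sub (.v 324) (.mul (.v 323) (.v 50)),
  .sub (.q 0 1) (.mul (.v 172) (.v 48)),
  .sub (.v 400) (.mul (.v 403) (.v 83)),
  .sub (.q 0 1) (.mul (.v 443) (.v 70)),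
  .sub (.mul (.v 174) (.v 175)) (.mul (.v 504) (.v 46)),
  .sub (.mul (.v 174) (.v 176)) (.mul (.v 506) (.v 74)),
  .sub (.q 0 1) (.mul (.v 508) (.v 54)),
  .sub (.mul (.v 178) (.v 179)) (.mul (.v 510) (.v 45))]

def Tbv1 : List Ex := [
  .sub (.mul (.v 178) (.v 180)) (.mul (.v 512) (.v 73)),
  .sub (.q 0 1) (.mul (.v 514) (.v 55)),
  .sub (.q 0 1) (.mul (.v 516) (.v 44)),
  .sub (.q 0 1) (.mul (.v 518) (.v 72)),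
  .sub (.mul (.v 399) (.v 184)) (.mul (.v 520) (.v 56)),
  .sub (.mul (.v 185) (.v 188)) (.mul (.v 522) (.v 47)),
  .sub (.mul (.v 189) (.v 190)) (.mul (.v 524) (.v 43)),
  .sub (.mul (.v 189) (.v 191)) (.mul (.v 526) (.v 71)),
  .sub (.q 0 1) (.mul (.v 528) (.v 57)),
  .sub (.mul (.v 194) (.v 190)) (.mul (.v 529) (.v 43)),
  .sub (.mul (.v 194) (.v 195)) (.mul (.v 531) (.v 69)),
  .sub (.mul (.v 193) (.v 196)) (.mul (.v 533) (.v 57)),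
  .sub (.mul (.v 197) (.v 198)) (.mul (.v 535) (.v 42)),
  .sub (.mul (.v 197) (.v 195)) (.mul (.v 536) (.v 69)),
  .sub (.q 0 1) (.mul (.v 538) (.v 57)),
  .sub (.q 0 1) (.mul (.v 539) (.v 43))]

def Tbv2 : List Ex := [
  .sub (.q 0 1) (.mul (.v 541) (.v 68)),
  .sub (.mul (.v 200) (.v 199)) (.mul (.v 542) (.v 57)),
  .sub (.mul (.v 203) (.v 198)) (.mul (.v 543) (.v 42)),
  .sub (.mul (.v 203) (.v 201)) (.mul (.v 544) (.v 68)),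
  .sub (.mul (.v 202) (.v 204)) (.mul (.v 546) (.v 57)),
  .sub (.mul (.v 205) (.v 206)) (.mul (.v 548) (.v 41)),
  .sub (.mul (.v 205) (.v 201)) (.mul (.v 549) (.v 68)),
  .sub (.q 0 1) (.mul (.v 551) (.v 57)),
  .sub (.mul (.v 208) (.v 209)) (.mul (.v 553) (.v 42)),
  .sub (.mul (.v 208) (.v 210)) (.mul (.v 555) (.v 69)),
  .sub (.q 0 1) (.mul (.v 557) (.v 58)),
  .sub (.q 0 1) (.mul (.v 558) (.v 42)),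
  .sub (.q 0 1) (.mul (.v 560) (.v 68)),
  .sub (.mul (.v 212) (.v 214)) (.mul (.v 562) (.v 58)),
  .sub (.mul (.v 216) (.v 217)) (.mul (.v 564) (.v 41)),
  .sub (.mul (.v 216) (.v 210)) (.mul (.v 565) (.v 69))]

def Tbv3 : List Ex := [
  .sub (.mul (.v 215) (.v 218)) (.mul (.v 567) (.v 59)),
  .sub (.mul (.v 219) (.v 220)) (.mul (.v 569) (.v 39)),
  .sub (.mul (.v 219) (.v 210)) (.mul (.v 570) (.v 69)),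
  .sub (.q 0 1) (.mul (.v 571) (.v 41)),
  .sub (.mul (.v 222) (.v 213)) (.mul (.v 572) (.v 68)),
  .sub (.q 0 1) (.mul (.v 574) (.v 60)),
  .sub (.q 0 1) (.mul (.v 576) (.v 40)),
  .sub (.mul (.v 224) (.v 210)) (.mul (.v 577) (.v 69)),
  .sub (.mul (.v 224) (.v 218)) (.mul (.v 578) (.v 59)),
  .sub (.q 0 1) (.mul (.v 580) (.v 40)),
  .sub (.mul (.v 226) (.v 210)) (.mul (.v 581) (.v 69)),
  .sub (.mul (.v 226) (.v 223)) (.mul (.v 582) (.v 60)),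
  .sub (.q 0 1) (.mul (.v 584) (.v 40)),
  .sub (.mul (.v 228) (.v 213)) (.mul (.v 585) (.v 68)),
  .sub (.q 0 1) (.mul (.v 587) (.v 61)),
  .sub (.mul (.v 232) (.v 233)) (.mul (.v 589) (.v 41))]

def Tbv4 : List Ex := [
  .sub (.mul (.v 232) (.v 234)) (.mul (.v 591) (.v 68)),
  .sub (.mul (.v 231) (.v 235)) (.mul (.v 593) (.v 59)),
  .sub (.mul (.v 236) (.v 225)) (.mul (.v 594) (.v 40)),
  .sub (.mul (.v 236) (.v 234)) (.mul (.v 595) (.v 68)),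
  .sub (.q 0 1) (.mul (.v 597) (.v 59)),
  .sub (.mul (.v 238) (.v 227)) (.mul (.v 598) (.v 40)),
  .sub (.mul (.v 238) (.v 234)) (.mul (.v 599) (.v 68)),
  .sub (.q 0 1) (.mul (.v 601) (.v 60)),
  .sub (.q 0 1) (.mul (.v 603) (.v 39)),
  .sub (.q 0 1) (.mul (.v 604) (.v 68)),
  .sub (.q 0 1) (.mul (.v 605) (.v 40)),
  .sub (.mul (.v 243) (.v 234)) (.mul (.v 606) (.v 68)),
  .sub (.mul (.v 243) (.v 230)) (.mul (.v 607) (.v 61)),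
  .sub (.q 0 1) (.mul (.v 609) (.v 39)),
  .sub (.q 0 1) (.mul (.v 610) (.v 68)),
  .sub (.mul (.v 248) (.v 241)) (.mul (.v 611) (.v 39))]

def Tbv5 : List Ex := [
  .sub (.mul (.v 247) (.v 213)) (.mul (.v 612) (.v 68)),
  .sub (.mul (.v 247) (.v 249)) (.mul (.v 614) (.v 62)),
  .sub (.q 0 1) (.mul (.v 615) (.v 39)),
  .sub (.mul (.v 250) (.v 234)) (.mul (.v 616) (.v 68)),
  .sub (.mul (.v 253) (.v 245)) (.mul (.v 617) (.v 39)),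
  .sub (.mul (.v 252) (.v 234)) (.mul (.v 618) (.v 68)),
  .sub (.q 0 1) (.mul (.v 620) (.v 38)),
  .sub (.q 0 1) (.mul (.v 622) (.v 70)),
  .sub (.mul (.v 501) (.v 259)) (.mul (.v 624) (.v 50)),
  .sub (.mul (.v 501) (.v 260)) (.mul (.v 626) (.v 76)),
  .sub (.q 0 1) (.mul (.v 628) (.v 52)),
  .q 0 1,
  .sub (.q 0 1) (.v 2013),
  .sub (.q 0 1) (.v 311),
  .sub (.q 0 1) (.v 2014),
  .sub (.q 0 1) (.v 2019)]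

def Tbv6 : List Ex := [
  .sub (.sub (.q 0 1) (.v 402)) (.v 2016),
  .sub (.sub (.q 0 1) (.v 2020)) (.mul (.v 24) (.sub (.sub (.q 0 1) (.mul (.v 0) (.add (.v 2010) (.mul (.v 403) (.add .pi .pi))))) (.mul (.v 0) (.add (.v 2000) (.mul (.v 293) (.add .pi .pi)))))),
  .sub (.q 0 1) (.v 2015),
  .sub (.sub (.q 0 1) (.v 401)) (.v 2018),
  .sub (.sub (.q 0 1) (.v 2017)) (.mul (.v 24) (.sub (.sub (.q 0 1) (.mul (.v 0) (.v 400))) (.mul (.v 0) (.add (.v 2000) (.mul (.v 293) (.add .pi .pi)))))),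
  .sub (.sub (.q 0 1) (.v 2021)) (.mul (.v 24) (.v 2008)),
  .sub (.sub (.q 0 1) (.v 2021)) (.mul (.v 24) (.add (.add (.v 2009) (.v 173)) (.v 2012))),
  .sub (.sub (.q 0 1) (.v 2021)) (.mul (.v 24) (.add (.v 336) (.v 2012))),
  .sub (.q 0 1) (.mul (.v 24) (.add (.v 337) (.v 2012))),
  .sub (.sub (.add (.add (.v 427) (.v 431)) (.v 2001)) (.v 427)) (.v 2001),
  .sub (.sub (.q 0 1) (.v 2002)) (.v 2003),
  .sub (.sub (.sub (.q 0 1) (.v 2002)) (.v 2003)) (.v 2004),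
  .sub (.sub (.sub (.sub (.sub (.sub (.q 0 1) (.v 2005)) (.v 2002)) (.v 2003)) (.v 2006)) (.v 2007)) (.v 2004),
  .sub (.sub (.sub (.sub (.sub (.sub (.q 0 1) (.v 2022)) (.v 2025)) (.v 2028)) (.v 2031)) (.v 2034)) (.v 2037),
  .sub (.sub (.sub (.sub (.sub (.sub (.sub (.sub (.sub (.sub (.q 0 1) (.v 426)) (.v 2001)) (.v 2028)) (.v 2034)) (.v 2037)) (.v 2040)) (.v 2043)) (.v 2054)) (.v 2063)) (.v 2066),
  .sub (.sub (.sub (.sub (.sub (.sub (.sub (.sub (.sub (.sub (.sub (.sub (.q 0 1) (.v 426)) (.v 2001)) (.v 2037)) (.v 2046)) (.v 2049)) (.v 2051)) (.v 2054)) (.v 2057)) (.v 2063)) (.v 2066)) (.v 2069)) (.v 2074)]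

def Tbv7 : List Ex := [
  .sub (.sub (.sub (.sub (.sub (.sub (.sub (.sub (.sub (.sub (.sub (.sub (.q 0 1) (.v 425)) (.v 2001)) (.v 2049)) (.v 2054)) (.v 2057)) (.v 2060)) (.v 2066)) (.v 2069)) (.v 2072)) (.v 2074)) (.v 2079)) (.v 2082),
  .sub (.sub (.sub (.sub (.sub (.sub (.sub (.sub (.q 0 1) (.v 425)) (.v 2001)) (.v 2049)) (.v 2072)) (.v 2077)) (.v 2079)) (.v 2082)) (.v 2084),
  .sub (.sub (.sub (.q 0 1) (.v 425)) (.v 2001)) (.v 2086),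
  .sub (.sub (.sub (.sub (.sub (.sub (.sub (.q 0 1) (.v 444)) (.v 2023)) (.v 2026)) (.v 2029)) (.v 2032)) (.v 2035)) (.v 2038),
  .sub (.sub (.sub (.sub (.sub (.sub (.sub (.sub (.sub (.sub (.sub (.sub (.sub (.sub (.sub (.sub (.q 0 1) (.v 2011)) (.v 2026)) (.v 2029)) (.v 2032)) (.v 2035)) (.v 2038)) (.v 2041)) (.v 2044)) (.v 2047)) (.v 2050)) (.v 2052)) (.v 2055)) (.v 2058)) (.v 2061)) (.v 2080)) (.v 2087),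
  .sub (.sub (.sub (.sub (.sub (.sub (.sub (.sub (.sub (.sub (.sub (.sub (.sub (.sub (.q 0 1) (.v 2026)) (.v 2029)) (.v 2032)) (.v 2035)) (.v 2038)) (.v 2041)) (.v 2044)) (.v 2047)) (.v 2050)) (.v 2052)) (.v 2055)) (.v 2058)) (.v 2061)) (.v 2080),
  .sub (.sub (.sub (.sub (.sub (.sub (.sub (.sub (.sub (.sub (.sub (.sub (.sub (.sub (.sub (.q 0 1) (.v 2032)) (.v 2035)) (.v 2038)) (.v 2044)) (.v 2052)) (.v 2061)) (.v 2064)) (.v 2067)) (.v 2070)) (.v 2073)) (.v 2075)) (.v 2078)) (.v 2080)) (.v 2083)) (.v 2085),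
  .sub (.sub (.sub (.sub (.sub (.sub (.q 0 1) (.v 2005)) (.v 2002)) (.v 2003)) (.v 2006)) (.v 2007)) (.v 2004),
  .sub (.sub (.sub (.sub (.sub (.sub (.sub (.q 0 1) (.v 2005)) (.v 2068)) (.v 2071)) (.v 2002)) (.v 2003)) (.v 2006)) (.v 2004),
  .sub (.sub (.sub (.sub (.sub (.sub (.sub (.q 0 1) (.v 2005)) (.v 2068)) (.v 2071)) (.v 2002)) (.v 2003)) (.v 2081)) (.v 2006),
  .sub (.sub (.sub (.sub (.sub (.sub (.sub (.sub (.q 0 1) (.v 2039)) (.v 2005)) (.v 2062)) (.v 2065)) (.v 2068)) (.v 2071)) (.v 2002)) (.v 2076),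
  .sub (.sub (.sub (.sub (.sub (.sub (.sub (.sub (.sub (.sub (.sub (.q 0 1) (.v 2036)) (.v 2039)) (.v 2045)) (.v 2048)) (.v 2005)) (.v 2053)) (.v 2056)) (.v 2059)) (.v 2065)) (.v 2068)) (.v 2071),
  .sub (.sub (.sub (.sub (.sub (.sub (.sub (.sub (.sub (.sub (.sub (.q 0 1) (.v 2030)) (.v 2033)) (.v 2036)) (.v 2039)) (.v 2042)) (.v 2045)) (.v 2048)) (.v 2005)) (.v 2056)) (.v 2065)) (.v 2068),
  .sub (.sub (.sub (.sub (.sub (.sub (.sub (.q 0 1) (.v 2027)) (.v 2030)) (.v 2033)) (.v 2036)) (.v 2039)) (.v 2042)) (.v 2045),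
  .sub (.sub (.sub (.sub (.sub (.sub (.q 0 1) (.v 2024)) (.v 2027)) (.v 2030)) (.v 2033)) (.v 2036)) (.v 2039),
  .sub (.q 0 1) (.v 2089)]

def Tbv8 : List Ex := [
  .sub (.q 0 1) (.v 500),
  .sub (.q 0 1) (.v 2090),
  .sub (.add (.v 498) (.v 497)) (.v 497),
  .sub (.sub (.sub (.q 0 1) (.v 502)) (.v 499)) (.v 2088),
  .sub (.q 0 1) (.v 496),
  .add (.add (.add (.mul (.sub (.v 50) (.v 49)) (.v 324)) (.mul (.mul (.sub (.v 50) (.v 49)) (.sub (.mul (.q 1 2) (.add (.v 49) (.v 50))) (.v 50))) (.v 323))) (.mul (.sub (.v 49) (.v 48)) (.mul (.sub (.v 49) (.v 48)) (.v 172)))) (.mul (.mul (.sub (.v 49) (.v 48)) (.sub (.mul (.q 1 2) (.add (.v 48) (.v 49))) (.v 49))) (.v 172)),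
  .add (.add (.add (.mul (.mul (.sub (.v 50) (.v 49)) (.sub (.mul (.q 1 2) (.add (.v 49) (.v 50))) (.v 264))) (.v 324)) (.mul (.mul (.sub (.v 50) (.v 49)) (.add (.mul (.q 1 3) (.add (.add (.mul (.sub (.v 49) (.v 50)) (.sub (.v 49) (.v 50))) (.mul (.sub (.v 49) (.v 50)) (.sub (.v 50) (.v 50)))) (.mul (.sub (.v 50) (.v 50)) (.sub (.v 50) (.v 50))))) (.mul (.sub (.v 50) (.v 264)) (.sub (.mul (.q 1 2) (.add (.v 49) (.v 50))) (.v 50))))) (.v 323))) (.mul (.mul (.sub (.v 49) (.v 48)) (.sub (.mul (.q 1 2) (.add (.v 48) (.v 49))) (.v 264))) (.mul (.sub (.v 49) (.v 48)) (.v 172)))) (.mul (.mul (.sub (.v 49) (.v 48)) (.add (.mul (.q 1 3) (.add (.add (.mul (.sub (.v 48) (.v 49)) (.sub (.v 48) (.v 49))) (.mul (.sub (.v 48) (.v 49)) (.sub (.v 49) (.v 49)))) (.mul (.sub (.v 49) (.v 49)) (.sub (.v 49) (.v 49))))) (.mul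 (.sub (.v 49) (.v 264)) (.sub (.mul (.q 1 2) (.add (.v 48) (.v 49))) (.v 49))))) (.v 172)),
  .add (.v 2134) (.mul (.v 264) (.v 2133)),
  .mul (.sub (.v 76) (.v 75)) (.v 311),
  .mul (.mul (.sub (.v 76) (.v 75)) (.sub (.mul (.q 1 2) (.add (.v 75) (.v 76))) (.v 262))) (.v 311),
  .add (.v 2137) (.mul (.v 262) (.v 2136)),
  .mul (.v 24) (.sub (.v 119) (.v 121)),
  .mul (.v 24) (.add (.sub (.v 120) (.v 118)) (.sub (.mul (.sub (.v 53) (.v 263)) (.v 119)) (.mul (.sub (.v 54) (.v 263)) (.v 121)))),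
  .add (.v 2140) (.mul (.v 263) (.v 2139)),
  .add (.add (.mul (.sub (.v 47) (.v 46)) (.v 337)) (.mul (.sub (.v 48) (.v 47)) (.v 336))) (.mul (.sub (.v 49) (.v 48)) (.v 173)),
  .add (.add (.mul (.mul (.sub (.v 47) (.v 46)) (.sub (.mul (.q 1 2) (.add (.v 46) (.v 47))) (.v 267))) (.v 337)) (.mul (.mul (.sub (.v 48) (.v 47)) (.sub (.mul (.q 1 2) (.add (.v 47) (.v 48))) (.v 267))) (.v 336))) (.mul (.mul (.sub (.v 49) (.v 48)) (.sub (.mul (.q 1 2) (.add (.v 48) (.v 49))) (.v 267))) (.v 173))]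

def Tbv9 : List Ex := [
  .add (.v 2143) (.mul (.v 267) (.v 2142)),
  .sub (.sub (.mul (.v 23) (.sub (.v 161) (.v 165))) (.mul (.q 1 2) (.v 174))) (.mul (.sub (.v 76) (.v 75)) (.v 311)),
  .sub (.sub (.mul (.v 23) (.add (.sub (.v 164) (.v 160)) (.sub (.mul (.sub (.v 74) (.v 265)) (.v 161)) (.mul (.sub (.v 76) (.v 265)) (.v 165))))) (.mul (.mul (.q 1 6) (.add (.add (.sub (.v 74) (.v 265)) (.sub (.v 74) (.v 265))) (.sub (.v 75) (.v 265)))) (.v 174))) (.mul (.mul (.sub (.v 76) (.v 75)) (.sub (.mul (.q 1 2) (.add (.v 75) (.v 76))) (.v 265))) (.v 311)),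
  .add (.v 2146) (.mul (.v 265) (.v 2145)),
  .sub (.mul (.v 24) (.sub (.v 121) (.v 123))) (.mul (.q 1 2) (.v 174)),
  .sub (.mul (.v 24) (.add (.sub (.v 122) (.v 120)) (.sub (.mul (.sub (.v 54) (.v 266)) (.v 121)) (.mul (.sub (.v 55) (.v 266)) (.v 123))))) (.mul (.mul (.q 1 6) (.add (.sub (.v 54) (.v 266)) (.add (.sub (.v 55) (.v 266)) (.sub (.v 55) (.v 266))))) (.v 174)),
  .add (.v 2149) (.mul (.v 266) (.v 2148)),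
  .mul (.sub (.v 45) (.v 44)) (.v 401),
  .mul (.mul (.sub (.v 45) (.v 44)) (.sub (.mul (.q 1 2) (.add (.v 44) (.v 45))) (.v 270))) (.v 401),
  .add (.v 2152) (.mul (.v 270) (.v 2151)),
  .sub (.sub (.sub (.mul (.v 23) (.sub (.v 157) (.v 161))) (.mul (.q 1 2) (.v 178))) (.mul (.q 1 2) (.v 399))) (.mul (.sub (.v 74) (.v 73)) (.v 402)),
  .sub (.sub (.sub (.mul (.v 23) (.add (.sub (.v 160) (.v 156)) (.sub (.mul (.sub (.v 72) (.v 268)) (.v 157)) (.mul (.sub (.v 74) (.v 268)) (.v 161))))) (.mul (.mul (.q 1 6) (.add (.add (.sub (.v 73) (.v 268)) (.sub (.v 73) (.v 268))) (.sub (.v 74) (.v 268)))) (.v 178))) (.mul (.mul (.q 1 6) (.add (.sub (.v 72) (.v 268)) (.add (.sub (.v 73) (.v 268)) (.sub (.v 73) (.v 268))))) (.v 399))) (.mul (.mul (.sub (.v 74) (.v 73)) (.sub (.mul (.q 1 2) (.add (.v 73) (.v 74))) (.v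 268))) (.v 402)),
  .add (.v 2155) (.mul (.v 268) (.v 2154)),
  .sub (.add (.add (.add (.mul (.v 24) (.sub (.v 125) (.v 127))) (.mul (.mul (.v 24) (.v 0)) (.mul (.sub (.v 83) (.v 82)) (.mul (.v 293) (.sub (.mul (.q 1 2) (.add (.v 82) (.v 83))) (.v 84)))))) (.mul (.mul (.mul (.v 24) (.v 0)) (.sub (.v 83) (.v 82))) (.v 400))) (.mul (.mul (.mul (.v 24) (.v 0)) (.mul (.sub (.v 83) (.v 82)) (.sub (.mul (.q 1 2) (.add (.v 82) (.v 83))) (.v 83)))) (.v 403))) (.mul (.q 1 2) (.v 399)),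
  .sub (.sub (.sub (.sub (.mul (.v 24) (.add (.sub (.v 126) (.v 124)) (.sub (.mul (.sub (.v 56) (.v 269)) (.v 125)) (.mul (.sub (.v 57) (.v 269)) (.v 127))))) (.mul (.mul (.v 24) (.v 0)) (.mul (.sub (.v 83) (.v 82)) (.mul (.v 293) (.add (.mul (.q 1 3) (.add (.add (.mul (.sub (.v 82) (.v 84)) (.sub (.v 82) (.v 84))) (.mul (.sub (.v 82) (.v 84)) (.sub (.v 83) (.v 84)))) (.mul (.sub (.v 83) (.v 84)) (.sub (.v 83) (.v 84))))) (.mul (.sub (.v 84) (.sub (.add .pi .pi) (.v 269))) (.sub (.mul (.q 1 2) (.add (.v 82) (.v 83))) (.v 84)))))))) (.mul (.mul (.mul (.v 24) (.v 0)) (.mul (.sub (.v 83) (.v 82)) (.sub (.mul (.q 1 2) (.add (.v 82) (.v 83))) (.sub (.add .pi .pi) (.v 269))))) (.v 400))) (.mul (.mul (.mul (.v 24) (.v 0)) (.mul (.sub (.v 83) (.v 82)) (.add (.mul (.q 1 3) (.add (.add (.mul (.sub (.v 82) (.v 83))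 (.sub (.v 82) (.v 83))) (.mul (.sub (.v 82) (.v 83)) (.sub (.v 83) (.v 83)))) (.mul (.sub (.v 83) (.v 83)) (.sub (.v 83) (.v 83))))) (.mul (.sub (.v 83) (.sub (.add .pi .pi) (.v 269))) (.sub (.mul (.q 1 2) (.add (.v 82) (.v 83))) (.v 83)))))) (.v 403))) (.mul (.mul (.q 1 6) (.add (.add (.sub (.v 56) (.v 269)) (.sub (.v 56) (.v 269))) (.sub (.v 57) (.v 269)))) (.v 399)),
  .add (.v 2158) (.mul (.v 269) (.v 2157))]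

def Tbv10 : List Ex := [
  .sub (.sub (.sub (.mul (.q 1 1) (.sub (.v 101) (.v 105))) (.mul (.q 1 2) (.v 178))) (.mul (.sub (.v 45) (.v 44)) (.v 401))) (.mul (.q 1 2) (.v 399)),
  .sub (.sub (.sub (.mul (.q 1 1) (.add (.sub (.v 104) (.v 100)) (.sub (.mul (.sub (.v 44) (.v 273)) (.v 101)) (.mul (.sub (.v 46) (.v 273)) (.v 105))))) (.mul (.mul (.q 1 6) (.add (.add (.sub (.v 45) (.v 273)) (.sub (.v 45) (.v 273))) (.sub (.v 46) (.v 273)))) (.v 178))) (.mul (.mul (.sub (.v 45) (.v 44)) (.sub (.mul (.q 1 2) (.add (.v 44) (.v 45))) (.v 273))) (.v 401))) (.mul (.mul (.q 1 6) (.add (.sub (.v 44) (.v 273)) (.add (.sub (.v 45) (.v 273)) (.sub (.v 45) (.v 273))))) (.v 399)),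
  .add (.v 2161) (.mul (.v 273) (.v 2160)),
  .mul (.sub (.v 74) (.v 73)) (.v 402),
  .mul (.mul (.sub (.v 74) (.v 73)) (.sub (.mul (.q 1 2) (.add (.v 73) (.v 74))) (.v 271))) (.v 402),
  .add (.v 2164) (.mul (.v 271) (.v 2163)),
  .sub (.add (.add (.mul (.v 24) (.sub (.v 123) (.v 125))) (.mul (.mul (.v 24) (.v 0)) (.mul (.sub (.v 84) (.v 83)) (.mul (.v 293) (.sub (.mul (.q 1 2) (.add (.v 83) (.v 84))) (.v 84)))))) (.mul (.mul (.mul (.v 24) (.v 0)) (.sub (.v 84) (.v 83))) (.v 400))) (.mul (.q 1 2) (.v 178)),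
  .sub (.sub (.sub (.mul (.v 24) (.add (.sub (.v 124) (.v 122)) (.sub (.mul (.sub (.v 55) (.v 272)) (.v 123)) (.mul (.sub (.v 56) (.v 272)) (.v 125))))) (.mul (.mul (.q 1 6) (.add (.sub (.v 55) (.v 272)) (.add (.sub (.v 56) (.v 272)) (.sub (.v 56) (.v 272))))) (.v 178))) (.mul (.mul (.v 24) (.v 0)) (.mul (.sub (.v 84) (.v 83)) (.mul (.v 293) (.add (.mul (.q 1 3) (.add (.add (.mul (.sub (.v 83) (.v 84)) (.sub (.v 83) (.v 84))) (.mul (.sub (.v 83) (.v 84)) (.sub (.v 84) (.v 84)))) (.mul (.sub (.v 84) (.v 84)) (.sub (.v 84) (.v 84))))) (.mul (.sub (.v 84) (.sub (.add .pi .pi) (.v 272))) (.sub (.mul (.q 1 2) (.add (.v 83) (.v 84))) (.v 84)))))))) (.mul (.mul (.mul (.v 24) (.v 0)) (.mul (.sub (.v 84) (.v 83)) (.sub (.mul (.q 1 2) (.add (.v 83) (.v 84))) (.sub (.add .pi .pi) (.v 272))))) (.v 400)),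
  .add (.v 2167) (.mul (.v 272) (.v 2166)),
  .add (.add (.add (.mul (.sub (.v 43) (.v 41)) (.v 426)) (.mul (.sub (.v 41) (.v 38)) (.v 425))) (.mul (.sub (.v 38) (.v 37)) (.v 427))) (.mul (.sub (.v 37) (.v 36)) (.v 427)),
  .add (.add (.add (.mul (.mul (.sub (.v 43) (.v 41)) (.sub (.mul (.q 1 2) (.add (.v 41) (.v 43))) (.v 276))) (.v 426)) (.mul (.mul (.sub (.v 41) (.v 38)) (.sub (.mul (.q 1 2) (.add (.v 38) (.v 41))) (.v 276))) (.v 425))) (.mul (.mul (.sub (.v 38) (.v 37)) (.sub (.mul (.q 1 2) (.add (.v 37) (.v 38))) (.v 276))) (.v 427))) (.mul (.mul (.sub (.v 37) (.v 36)) (.sub (.mul (.q 1 2) (.add (.v 36) (.v 37))) (.v 276))) (.v 427)),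
  .add (.v 2170) (.mul (.v 276) (.v 2169)),
  .add (.add (.mul (.sub (.v 84) (.v 83)) (.v 400)) (.mul (.sub (.v 83) (.v 82)) (.v 400))) (.mul (.mul (.sub (.v 83) (.v 82)) (.sub (.mul (.q 1 2) (.add (.v 82) (.v 83))) (.v 83))) (.v 403)),
  .add (.add (.mul (.mul (.sub (.v 84) (.v 83)) (.sub (.mul (.q 1 2) (.add (.v 83) (.v 84))) (.v 274))) (.v 400)) (.mul (.mul (.sub (.v 83) (.v 82)) (.sub (.mul (.q 1 2) (.add (.v 82) (.v 83))) (.v 274))) (.v 400))) (.mul (.mul (.sub (.v 83) (.v 82)) (.add (.mul (.q 1 3) (.add (.add (.mul (.sub (.v 82) (.v 83)) (.sub (.v 82) (.v 83))) (.mul (.sub (.v 82) (.v 83)) (.sub (.v 83) (.v 83)))) (.mul (.sub (.v 83) (.v 83)) (.sub (.v 83) (.v 83))))) (.mul (.sub (.v 83) (.v 274)) (.sub (.mul (.q 1 2) (.add (.v 82) (.v 83))) (.v 83))))) (.v 403)),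
  .add (.v 2173) (.mul (.v 274) (.v 2172)),
  .sub (.sub (.sub (.sub (.sub (.sub (.sub (.sub (.mul (.v 24) (.sub (.v 105) (.v 113))) (.mul (.q 1 2) (.v 185))) (.mul (.v 24) (.add (.mul (.sub (.v 49) (.v 48)) (.mul (.sub (.v 49) (.v 48)) (.v 172))) (.mul (.mul (.sub (.v 49) (.v 48)) (.sub (.mul (.q 1 2) (.add (.v 48) (.v 49))) (.v 49))) (.v 172))))) (.mul (.v 24) (.mul (.sub (.v 49) (.v 48)) (.v 173)))) (.mul (.v 24) (.mul (.q 1 2) (.v 174)))) (.mul (.mul (.v 24) (.sub (.v 50) (.v 49))) (.v 324))) (.mul (.mul (.v 24) (.mul (.sub (.v 50) (.v 49)) (.sub (.mul (.q 1 2) (.add (.v 49) (.v 50))) (.v 50)))) (.v 323))) (.mul (.mul (.v 24) (.sub (.v 48) (.v 47))) (.v 336))) (.mul (.mul (.v 24) (.sub (.v 47) (.v 46))) (.v 337))]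

def Tbv11 : List Ex := [
  .sub (.sub (.sub (.sub (.sub (.sub (.sub (.sub (.mul (.v 24) (.add (.sub (.v 112) (.v 104)) (.sub (.mul (.sub (.v 46) (.v 275)) (.v 105)) (.mul (.sub (.v 50) (.v 275)) (.v 113))))) (.mul (.mul (.q 1 6) (.add (.add (.sub (.v 47) (.v 275)) (.sub (.v 47) (.v 275))) (.sub (.v 50) (.v 275)))) (.v 185))) (.mul (.v 24) (.add (.mul (.mul (.sub (.v 49) (.v 48)) (.sub (.mul (.q 1 2) (.add (.v 48) (.v 49))) (.v 275))) (.mul (.sub (.v 49) (.v 48)) (.v 172))) (.mul (.mul (.sub (.v 49) (.v 48)) (.add (.mul (.q 1 3) (.add (.add (.mul (.sub (.v 48) (.v 49)) (.sub (.v 48) (.v 49))) (.mul (.sub (.v 48) (.v 49)) (.sub (.v 49) (.v 49)))) (.mul (.sub (.v 49) (.v 49)) (.sub (.v 49) (.v 49))))) (.mul (.sub (.v 49) (.v 275)) (.sub (.mul (.q 1 2) (.add (.v 48) (.v 49))) (.v 49))))) (.v 172))))) (.mul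 (.v 24) (.mul (.mul (.sub (.v 49) (.v 48)) (.sub (.mul (.q 1 2) (.add (.v 48) (.v 49))) (.v 275))) (.v 173)))) (.mul (.v 24) (.mul (.mul (.q 1 6) (.add (.add (.sub (.v 46) (.v 275)) (.sub (.v 46) (.v 275))) (.sub (.v 49) (.v 275)))) (.v 174)))) (.mul (.mul (.v 24) (.mul (.sub (.v 50) (.v 49)) (.sub (.mul (.q 1 2) (.add (.v 49) (.v 50))) (.v 275)))) (.v 324))) (.mul (.mul (.v 24) (.mul (.sub (.v 50) (.v 49)) (.add (.mul (.q 1 3) (.add (.add (.mul (.sub (.v 49) (.v 50)) (.sub (.v 49) (.v 50))) (.mul (.sub (.v 49) (.v 50)) (.sub (.v 50) (.v 50)))) (.mul (.sub (.v 50) (.v 50)) (.sub (.v 50) (.v 50))))) (.mul (.sub (.v 50) (.v 275)) (.sub (.mul (.q 1 2) (.add (.v 49) (.v 50))) (.v 50)))))) (.v 323))) (.mul (.mul (.v 24) (.mul (.sub (.v 48) (.v 47)) (.sub (.mul (.q 1 2) (.add (.v 47) (.v 48))) (.v 275)))) (.v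 336))) (.mul (.mul (.v 24) (.mul (.sub (.v 47) (.v 46)) (.sub (.mul (.q 1 2) (.add (.v 46) (.v 47))) (.v 275)))) (.v 337)),
  .add (.v 2176) (.mul (.v 275) (.v 2175)),
  .sub (.sub (.add (.add (.add (.add (.mul (.sub (.v 37) (.v 36)) (.v 431)) (.mul (.sub (.v 37) (.v 36)) (.v 431))) (.mul (.q 1 1) (.sub (.v 87) (.v 89)))) (.mul (.sub (.v 37) (.v 36)) (.mul (.v 295) (.sub (.mul (.q 1 2) (.add (.v 36) (.v 37))) (.v 36))))) (.mul (.sub (.v 37) (.v 36)) (.v 427))) (.mul (.sub (.v 38) (.v 37)) (.mul (.v 295) (.sub (.mul (.q 1 2) (.add (.v 37) (.v 38))) (.v 36))))) (.mul (.sub (.v 38) (.v 37)) (.v 427)),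
  .sub (.sub (.sub (.sub (.sub (.add (.mul (.mul (.sub (.v 37) (.v 36)) (.sub (.mul (.q 1 2) (.add (.v 36) (.v 37))) (.v 279))) (.v 431)) (.mul (.q 1 1) (.add (.sub (.v 88) (.v 86)) (.sub (.mul (.sub (.v 37) (.v 279)) (.v 87)) (.mul (.sub (.v 38) (.v 279)) (.v 89)))))) (.mul (.mul (.sub (.v 37) (.v 36)) (.sub (.mul (.q 1 2) (.add (.v 36) (.v 37))) (.sub (.q 0 1) (.v 279)))) (.v 431))) (.mul (.sub (.v 37) (.v 36)) (.mul (.v 295) (.add (.mul (.q 1 3) (.add (.add (.mul (.sub (.v 36) (.v 36)) (.sub (.v 36) (.v 36))) (.mul (.sub (.v 36) (.v 36)) (.sub (.v 37) (.v 36)))) (.mul (.sub (.v 37) (.v 36)) (.sub (.v 37) (.v 36))))) (.mul (.sub (.v 36) (.sub (.q 0 1) (.v 279))) (.sub (.mul (.q 1 2) (.add (.v 36) (.v 37))) (.v 36))))))) (.mul (.sub (.v 38) (.v 37)) (.mul (.v 295) (.add (.mul (.q 1 3) (.add (.add (.mul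 (.sub (.v 37) (.v 36)) (.sub (.v 37) (.v 36))) (.mul (.sub (.v 37) (.v 36)) (.sub (.v 38) (.v 36)))) (.mul (.sub (.v 38) (.v 36)) (.sub (.v 38) (.v 36))))) (.mul (.sub (.v 36) (.v 279)) (.sub (.mul (.q 1 2) (.add (.v 37) (.v 38))) (.v 36))))))) (.mul (.mul (.sub (.v 38) (.v 37)) (.sub (.mul (.q 1 2) (.add (.v 37) (.v 38))) (.v 279))) (.v 427))) (.mul (.mul (.sub (.v 37) (.v 36)) (.sub (.mul (.q 1 2) (.add (.v 36) (.v 37))) (.sub (.q 0 1) (.v 279)))) (.v 427)),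
  .add (.v 2179) (.mul (.v 279) (.v 2178)),
  .add (.add (.mul (.sub (.v 72) (.v 71)) (.v 444)) (.mul (.mul (.sub (.v 71) (.v 70)) (.sub (.v 71) (.v 70))) (.v 443))) (.mul (.mul (.sub (.v 71) (.v 70)) (.sub (.mul (.q 1 2) (.add (.v 70) (.v 71))) (.v 71))) (.v 443)),
  .add (.add (.mul (.mul (.sub (.v 72) (.v 71)) (.sub (.mul (.q 1 2) (.add (.v 71) (.v 72))) (.v 277))) (.v 444)) (.mul (.mul (.mul (.sub (.v 71) (.v 70)) (.sub (.mul (.q 1 2) (.add (.v 70) (.v 71))) (.v 277))) (.sub (.v 71) (.v 70))) (.v 443))) (.mul (.mul (.sub (.v 71) (.v 70)) (.add (.mul (.q 1 3) (.add (.add (.mul (.sub (.v 70) (.v 71)) (.sub (.v 70) (.v 71))) (.mul (.sub (.v 70) (.v 71)) (.sub (.v 71) (.v 71)))) (.mul (.sub (.v 71) (.v 71)) (.sub (.v 71) (.v 71))))) (.mul (.sub (.v 71) (.v 277)) (.sub (.mul (.q 1 2) (.add (.v 70) (.v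 71))) (.v 71))))) (.v 443)),
  .add (.v 2182) (.mul (.v 277) (.v 2181)),
  .sub (.sub (.sub (.sub (.sub (.sub (.mul (.v 24) (.sub (.v 143) (.v 149))) (.mul (.sub (.v 68) (.v 65)) (.mul (.v 297) (.sub (.mul (.q 1 2) (.add (.v 65) (.v 68))) (.v 68))))) (.mul (.sub (.v 68) (.v 65)) (.mul (.v 299) (.sub (.mul (.q 1 2) (.add (.v 65) (.v 68))) (.v 68))))) (.mul (.sub (.v 67) (.v 65)) (.mul (.v 301) (.sub (.mul (.q 1 2) (.add (.v 65) (.v 67))) (.v 67))))) (.mul (.sub (.v 66) (.v 65)) (.mul (.v 303) (.sub (.mul (.q 1 2) (.add (.v 65) (.v 66))) (.v 59))))) (.mul (.sub (.v 66) (.v 65)) (.mul (.v 305) (.sub (.mul (.q 1 2) (.add (.v 65) (.v 66))) (.v 66))))) (.mul (.sub (.v 66) (.v 65)) (.add (.mul (.v 253) (.v 254)) (.mul (.v 307) (.sub (.mul (.q 1 2) (.add (.v 65) (.v 66))) (.v 66))))),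
  .sub (.sub (.sub (.sub (.sub (.sub (.mul (.v 24) (.add (.sub (.v 148) (.v 142)) (.sub (.mul (.sub (.v 65) (.v 278)) (.v 143)) (.mul (.sub (.v 68) (.v 278)) (.v 149))))) (.mul (.sub (.v 68) (.v 65)) (.mul (.v 297) (.add (.mul (.q 1 3) (.add (.add (.mul (.sub (.v 65) (.v 68)) (.sub (.v 65) (.v 68))) (.mul (.sub (.v 65) (.v 68)) (.sub (.v 68) (.v 68)))) (.mul (.sub (.v 68) (.v 68)) (.sub (.v 68) (.v 68))))) (.mul (.sub (.v 68) (.v 278)) (.sub (.mul (.q 1 2) (.add (.v 65) (.v 68))) (.v 68))))))) (.mul (.sub (.v 68) (.v 65)) (.mul (.v 299) (.add (.mul (.q 1 3) (.add (.add (.mul (.sub (.v 65) (.v 68)) (.sub (.v 65) (.v 68))) (.mul (.sub (.v 65) (.v 68)) (.sub (.v 68) (.v 68)))) (.mul (.sub (.v 68) (.v 68)) (.sub (.v 68) (.v 68))))) (.mul (.sub (.v 68) (.v 278)) (.sub (.mul (.q 1 2) (.add (.v 65) (.v 68)))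 (.v 68))))))) (.mul (.sub (.v 67) (.v 65)) (.mul (.v 301) (.add (.mul (.q 1 3) (.add (.add (.mul (.sub (.v 65) (.v 67)) (.sub (.v 65) (.v 67))) (.mul (.sub (.v 65) (.v 67)) (.sub (.v 67) (.v 67)))) (.mul (.sub (.v 67) (.v 67)) (.sub (.v 67) (.v 67))))) (.mul (.sub (.v 67) (.v 278)) (.sub (.mul (.q 1 2) (.add (.v 65) (.v 67))) (.v 67))))))) (.mul (.sub (.v 66) (.v 65)) (.mul (.v 303) (.add (.mul (.q 1 3) (.add (.add (.mul (.sub (.v 65) (.v 59)) (.sub (.v 65) (.v 59))) (.mul (.sub (.v 65) (.v 59)) (.sub (.v 66) (.v 59)))) (.mul (.sub (.v 66) (.v 59)) (.sub (.v 66) (.v 59))))) (.mul (.sub (.v 59) (.v 278)) (.sub (.mul (.q 1 2) (.add (.v 65) (.v 66))) (.v 59))))))) (.mul (.sub (.v 66) (.v 65)) (.mul (.v 305) (.add (.mul (.q 1 3) (.add (.add (.mul (.sub (.v 65) (.v 66)) (.sub (.v 65) (.v 66))) (.mul (.sub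 (.v 65) (.v 66)) (.sub (.v 66) (.v 66)))) (.mul (.sub (.v 66) (.v 66)) (.sub (.v 66) (.v 66))))) (.mul (.sub (.v 66) (.v 278)) (.sub (.mul (.q 1 2) (.add (.v 65) (.v 66))) (.v 66))))))) (.mul (.sub (.v 66) (.v 65)) (.add (.mul (.mul (.v 253) (.v 254)) (.sub (.mul (.q 1 2) (.add (.v 65) (.v 66))) (.v 278))) (.mul (.v 307) (.add (.mul (.q 1 3) (.add (.add (.mul (.sub (.v 65) (.v 66)) (.sub (.v 65) (.v 66))) (.mul (.sub (.v 65) (.v 66)) (.sub (.v 66) (.v 66)))) (.mul (.sub (.v 66) (.v 66)) (.sub (.v 66) (.v 66))))) (.mul (.sub (.v 66) (.v 278)) (.sub (.mul (.q 1 2) (.add (.v 65) (.v 66))) (.v 66))))))),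
  .add (.v 2185) (.mul (.v 278) (.v 2184)),
  .sub (.sub (.sub (.sub (.sub (.sub (.sub (.sub (.sub (.sub (.sub (.sub (.sub (.sub (.sub (.sub (.sub (.sub (.sub (.sub (.sub (.sub (.sub (.sub (.sub (.sub (.sub (.mul (.q 1 1) (.sub (.v 89) (.v 101))) (.mul (.q 1 2) (.v 189))) (.mul (.q 1 2) (.add (.v 194) (.v 193)))) (.mul (.q 1 2) (.v 197))) (.mul (.q 1 2) (.v 200))) (.mul (.q 1 2) (.add (.v 203) (.v 202)))) (.mul (.q 1 2) (.v 205))) (.mul (.sub (.v 43) (.v 38)) (.mul (.v 295) (.sub (.mul (.q 1 2) (.add (.v 38) (.v 43))) (.v 36))))) (.mul (.q 1 2) (.v 208))) (.mul (.q 1 2) (.v 212))) (.mul (.q 1 2) (.v 224))) (.mul (.q 1 2) (.add (.v 232) (.v 231)))) (.mul (.q 1 2) (.v 236))) (.mul (.q 1 2) (.add (.v 216) (.v 215)))) (.mul (.q 1 2) (.v 219))) (.mul (.q 1 2) (.v 222))) (.mul (.q 1 2) (.v 226))) (.mul (.q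 1 2) (.v 238))) (.mul (.q 1 2) (.v 243))) (.mul (.q 1 2) (.v 228))) (.mul (.q 1 2) (.v 240))) (.mul (.q 1 2) (.add (.v 248) (.v 247)))) (.mul (.q 1 2) (.v 250))) (.mul (.q 1 2) (.v 244))) (.mul (.q 1 2) (.add (.v 253) (.v 252)))) (.mul (.q 1 2) (.v 255))) (.mul (.sub (.v 43) (.v 41)) (.v 426))) (.mul (.sub (.v 41) (.v 38)) (.v 425)),
  .sub (.sub (.sub (.sub (.sub (.sub (.sub (.sub (.sub (.sub (.sub (.sub (.sub (.sub (.sub (.sub (.sub (.sub (.sub (.sub (.sub (.sub (.sub (.sub (.sub (.sub (.sub (.sub (.sub (.sub (.sub (.sub (.sub (.mul (.q 1 1) (.add (.sub (.v 100) (.v 88)) (.sub (.mul (.sub (.v 38) (.v 282)) (.v 89)) (.mul (.sub (.v 44) (.v 282)) (.v 101))))) (.mul (.mul (.q 1 6) (.add (.add (.sub (.v 43) (.v 282)) (.sub (.v 43) (.v 282))) (.sub (.v 44) (.v 282)))) (.v 189))) (.mul (.mul (.q 1 6) (.add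 (.add (.sub (.v 43) (.v 282)) (.sub (.v 43) (.v 282))) (.sub (.v 44) (.v 282)))) (.v 194))) (.mul (.mul (.q 1 6) (.add (.sub (.v 43) (.v 282)) (.add (.sub (.v 44) (.v 282)) (.sub (.v 44) (.v 282))))) (.v 193))) (.mul (.mul (.q 1 6) (.add (.add (.sub (.v 42) (.v 282)) (.sub (.v 42) (.v 282))) (.sub (.v 44) (.v 282)))) (.v 197))) (.mul (.mul (.q 1 6) (.add (.sub (.v 43) (.v 282)) (.add (.sub (.v 44) (.v 282)) (.sub (.v 44) (.v 282))))) (.v 200))) (.mul (.mul (.q 1 6) (.add (.add (.sub (.v 42) (.v 282)) (.sub (.v 42) (.v 282))) (.sub (.v 44) (.v 282)))) (.v 203))) (.mul (.mul (.q 1 6) (.add (.sub (.v 42) (.v 282)) (.add (.sub (.v 44) (.v 282)) (.sub (.v 44) (.v 282))))) (.v 202))) (.mul (.mul (.q 1 6) (.add (.add (.sub (.v 41) (.v 282)) (.sub (.v 41) (.v 282))) (.sub (.v 44) (.v 282)))) (.v 205))) (.mul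 (.sub (.v 43) (.v 38)) (.mul (.v 295) (.add (.mul (.q 1 3) (.add (.add (.mul (.sub (.v 38) (.v 36)) (.sub (.v 38) (.v 36))) (.mul (.sub (.v 38) (.v 36)) (.sub (.v 43) (.v 36)))) (.mul (.sub (.v 43) (.v 36)) (.sub (.v 43) (.v 36))))) (.mul (.sub (.v 36) (.v 282)) (.sub (.mul (.q 1 2) (.add (.v 38) (.v 43))) (.v 36))))))) (.mul (.mul (.q 1 6) (.add (.add (.sub (.v 42) (.v 282)) (.sub (.v 42) (.v 282))) (.sub (.v 43) (.v 282)))) (.v 208))) (.mul (.mul (.q 1 6) (.add (.sub (.v 42) (.v 282)) (.add (.sub (.v 43) (.v 282)) (.sub (.v 43) (.v 282))))) (.v 212))) (.mul (.mul (.q 1 6) (.add (.sub (.v 40) (.v 282)) (.add (.sub (.v 43) (.v 282)) (.sub (.v 43) (.v 282))))) (.v 224))) (.mul (.mul (.q 1 6) (.add (.add (.sub (.v 41) (.v 282)) (.sub (.v 41) (.v 282))) (.sub (.v 43) (.v 282)))) (.v 232))) (.mul (.mul (.q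 1 6) (.add (.sub (.v 41) (.v 282)) (.add (.sub (.v 43) (.v 282)) (.sub (.v 43) (.v 282))))) (.v 231))) (.mul (.mul (.q 1 6) (.add (.add (.sub (.v 40) (.v 282)) (.sub (.v 40) (.v 282))) (.sub (.v 43) (.v 282)))) (.v 236))) (.mul (.mul (.q 1 6) (.add (.add (.sub (.v 41) (.v 282)) (.sub (.v 41) (.v 282))) (.sub (.v 42) (.v 282)))) (.v 216))) (.mul (.mul (.q 1 6) (.add (.sub (.v 41) (.v 282)) (.add (.sub (.v 42) (.v 282)) (.sub (.v 42) (.v 282))))) (.v 215))) (.mul (.mul (.q 1 6) (.add (.add (.sub (.v 39) (.v 282)) (.sub (.v 39) (.v 282))) (.sub (.v 42) (.v 282)))) (.v 219))) (.mul (.mul (.q 1 6) (.add (.sub (.v 41) (.v 282)) (.add (.sub (.v 42) (.v 282)) (.sub (.v 42) (.v 282))))) (.v 222))) (.mul (.mul (.q 1 6) (.add (.sub (.v 40) (.v 282)) (.add (.sub (.v 42) (.v 282)) (.sub (.v 42) (.v 282))))) (.v 226)))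 (.mul (.mul (.q 1 6) (.add (.add (.sub (.v 40) (.v 282)) (.sub (.v 40) (.v 282))) (.sub (.v 42) (.v 282)))) (.v 238))) (.mul (.mul (.q 1 6) (.add (.sub (.v 40) (.v 282)) (.add (.sub (.v 42) (.v 282)) (.sub (.v 42) (.v 282))))) (.v 243))) (.mul (.mul (.q 1 6) (.add (.sub (.v 40) (.v 282)) (.add (.sub (.v 41) (.v 282)) (.sub (.v 41) (.v 282))))) (.v 228))) (.mul (.mul (.q 1 6) (.add (.sub (.v 39) (.v 282)) (.add (.sub (.v 41) (.v 282)) (.sub (.v 41) (.v 282))))) (.v 240))) (.mul (.mul (.q 1 6) (.add (.add (.sub (.v 39) (.v 282)) (.sub (.v 39) (.v 282))) (.sub (.v 41) (.v 282)))) (.v 248))) (.mul (.mul (.q 1 6) (.add (.sub (.v 39) (.v 282)) (.add (.sub (.v 41) (.v 282)) (.sub (.v 41) (.v 282))))) (.v 247))) (.mul (.mul (.q 1 6) (.add (.sub (.v 39) (.v 282)) (.add (.sub (.v 41) (.v 282)) (.sub (.v 41) (.v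 282))))) (.v 250))) (.mul (.mul (.q 1 6) (.add (.sub (.v 39) (.v 282)) (.add (.sub (.v 40) (.v 282)) (.sub (.v 40) (.v 282))))) (.v 244))) (.mul (.mul (.q 1 6) (.add (.add (.sub (.v 39) (.v 282)) (.sub (.v 39) (.v 282))) (.sub (.v 40) (.v 282)))) (.v 253))) (.mul (.mul (.q 1 6) (.add (.sub (.v 39) (.v 282)) (.add (.sub (.v 40) (.v 282)) (.sub (.v 40) (.v 282))))) (.v 252))) (.mul (.mul (.q 1 6) (.add (.sub (.v 38) (.v 282)) (.add (.sub (.v 39) (.v 282)) (.sub (.v 39) (.v 282))))) (.v 255))) (.mul (.mul (.sub (.v 43) (.v 41)) (.sub (.mul (.q 1 2) (.add (.v 41) (.v 43))) (.v 282))) (.v 426))) (.mul (.mul (.sub (.v 41) (.v 38)) (.sub (.mul (.q 1 2) (.add (.v 38) (.v 41))) (.v 282))) (.v 425)),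
  .add (.v 2188) (.mul (.v 282) (.v 2187)),
  .sub (.sub (.sub (.sub (.sub (.sub (.sub (.sub (.sub (.sub (.sub (.sub (.sub (.sub (.sub (.sub (.sub (.sub (.sub (.sub (.sub (.sub (.sub (.sub (.sub (.sub (.sub (.mul (.v 23) (.sub (.v 149) (.v 157))) (.mul (.q 1 2) (.v 189))) (.mul (.q 1 2) (.add (.v 194) (.v 193)))) (.mul (.q 1 2) (.v 197))) (.mul (.q 1 2) (.v 200))) (.mul (.q 1 2) (.add (.v 203) (.v 202)))) (.mul (.q 1 2) (.v 205))) (.mul (.q 1 2) (.v 208))) (.mul (.q 1 2) (.v 212))) (.mul (.q 1 2) (.add (.v 216) (.v 215)))) (.mul (.q 1 2) (.v 219))) (.mul (.q 1 2) (.v 222))) (.mul (.q 1 2) (.v 224))) (.mul (.q 1 2) (.v 226))) (.mul (.q 1 2) (.v 228))) (.mul (.q 1 2) (.add (.v 247) (.v 248)))) (.mul (.q 1 2) (.v 255))) (.mul (.q 1 2) (.add (.v 232) (.v 231)))) (.mul (.q 1 2) (.v 236))) (.mul (.q 1 2) (.v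 238))) (.mul (.q 1 2) (.v 240))) (.mul (.q 1 2) (.v 243))) (.mul (.q 1 2) (.v 244))) (.mul (.q 1 2) (.v 250))) (.mul (.q 1 2) (.add (.v 252) (.v 253)))) (.mul (.sub (.v 72) (.v 71)) (.v 444))) (.mul (.mul (.sub (.v 71) (.v 70)) (.sub (.v 71) (.v 70))) (.v 443))) (.mul (.mul (.sub (.v 71) (.v 70)) (.sub (.mul (.q 1 2) (.add (.v 70) (.v 71))) (.v 71))) (.v 443)),
  .sub (.sub (.sub (.sub (.sub (.sub (.sub (.sub (.sub (.sub (.sub (.sub (.sub (.sub (.sub (.sub (.sub (.sub (.sub (.sub (.sub (.sub (.sub (.sub (.sub (.sub (.sub (.sub (.sub (.sub (.sub (.sub (.sub (.mul (.v 23) (.add (.sub (.v 156) (.v 148)) (.sub (.mul (.sub (.v 68) (.v 280)) (.v 149)) (.mul (.sub (.v 72) (.v 280)) (.v 157))))) (.mul (.mul (.q 1 6) (.add (.add (.sub (.v 71) (.v 280)) (.sub (.v 71) (.v 280))) (.sub (.v 72) (.v 280)))) (.v 189)))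 (.mul (.mul (.q 1 6) (.add (.add (.sub (.v 69) (.v 280)) (.sub (.v 69) (.v 280))) (.sub (.v 72) (.v 280)))) (.v 194))) (.mul (.mul (.q 1 6) (.add (.sub (.v 69) (.v 280)) (.add (.sub (.v 72) (.v 280)) (.sub (.v 72) (.v 280))))) (.v 193))) (.mul (.mul (.q 1 6) (.add (.add (.sub (.v 69) (.v 280)) (.sub (.v 69) (.v 280))) (.sub (.v 72) (.v 280)))) (.v 197))) (.mul (.mul (.q 1 6) (.add (.sub (.v 68) (.v 280)) (.add (.sub (.v 72) (.v 280)) (.sub (.v 72) (.v 280))))) (.v 200))) (.mul (.mul (.q 1 6) (.add (.add (.sub (.v 68) (.v 280)) (.sub (.v 68) (.v 280))) (.sub (.v 72) (.v 280)))) (.v 203))) (.mul (.mul (.q 1 6) (.add (.sub (.v 68) (.v 280)) (.add (.sub (.v 72) (.v 280)) (.sub (.v 72) (.v 280))))) (.v 202))) (.mul (.mul (.q 1 6) (.add (.add (.sub (.v 68) (.v 280)) (.sub (.v 68) (.v 280))) (.sub (.v 72) (.v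 280)))) (.v 205))) (.mul (.mul (.q 1 6) (.add (.add (.sub (.v 69) (.v 280)) (.sub (.v 69) (.v 280))) (.sub (.v 71) (.v 280)))) (.v 208))) (.mul (.mul (.q 1 6) (.add (.sub (.v 68) (.v 280)) (.add (.sub (.v 71) (.v 280)) (.sub (.v 71) (.v 280))))) (.v 212))) (.mul (.mul (.q 1 6) (.add (.add (.sub (.v 69) (.v 280)) (.sub (.v 69) (.v 280))) (.sub (.v 71) (.v 280)))) (.v 216))) (.mul (.mul (.q 1 6) (.add (.sub (.v 69) (.v 280)) (.add (.sub (.v 71) (.v 280)) (.sub (.v 71) (.v 280))))) (.v 215))) (.mul (.mul (.q 1 6) (.add (.add (.sub (.v 69) (.v 280)) (.sub (.v 69) (.v 280))) (.sub (.v 71) (.v 280)))) (.v 219))) (.mul (.mul (.q 1 6) (.add (.add (.sub (.v 68) (.v 280)) (.sub (.v 68) (.v 280))) (.sub (.v 71) (.v 280)))) (.v 222))) (.mul (.mul (.q 1 6) (.add (.add (.sub (.v 69) (.v 280)) (.sub (.v 69) (.v 280)))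 (.sub (.v 71) (.v 280)))) (.v 224))) (.mul (.mul (.q 1 6) (.add (.add (.sub (.v 69) (.v 280)) (.sub (.v 69) (.v 280))) (.sub (.v 71) (.v 280)))) (.v 226))) (.mul (.mul (.q 1 6) (.add (.add (.sub (.v 68) (.v 280)) (.sub (.v 68) (.v 280))) (.sub (.v 71) (.v 280)))) (.v 228))) (.mul (.mul (.q 1 6) (.add (.add (.sub (.v 68) (.v 280)) (.sub (.v 68) (.v 280))) (.sub (.v 71) (.v 280)))) (.v 247))) (.mul (.mul (.q 1 6) (.add (.sub (.v 68) (.v 280)) (.add (.sub (.v 71) (.v 280)) (.sub (.v 71) (.v 280))))) (.v 248))) (.mul (.mul (.q 1 6) (.add (.sub (.v 70) (.v 280)) (.add (.sub (.v 71) (.v 280)) (.sub (.v 71) (.v 280))))) (.v 255))) (.mul (.mul (.q 1 6) (.add (.add (.sub (.v 68) (.v 280)) (.sub (.v 68) (.v 280))) (.sub (.v 69) (.v 280)))) (.v 232))) (.mul (.mul (.q 1 6) (.add (.sub (.v 68) (.v 280)) (.add (.sub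 (.v 69) (.v 280)) (.sub (.v 69) (.v 280))))) (.v 231))) (.mul (.mul (.q 1 6) (.add (.add (.sub (.v 68) (.v 280)) (.sub (.v 68) (.v 280))) (.sub (.v 69) (.v 280)))) (.v 236))) (.mul (.mul (.q 1 6) (.add (.add (.sub (.v 68) (.v 280)) (.sub (.v 68) (.v 280))) (.sub (.v 69) (.v 280)))) (.v 238))) (.mul (.mul (.q 1 6) (.add (.sub (.v 68) (.v 280)) (.add (.sub (.v 69) (.v 280)) (.sub (.v 69) (.v 280))))) (.v 240))) (.mul (.mul (.q 1 6) (.add (.add (.sub (.v 68) (.v 280)) (.sub (.v 68) (.v 280))) (.sub (.v 69) (.v 280)))) (.v 243))) (.mul (.mul (.q 1 6) (.add (.sub (.v 68) (.v 280)) (.add (.sub (.v 69) (.v 280)) (.sub (.v 69) (.v 280))))) (.v 244))) (.mul (.mul (.q 1 6) (.add (.add (.sub (.v 68) (.v 280)) (.sub (.v 68) (.v 280))) (.sub (.v 69) (.v 280)))) (.v 250))) (.mul (.mul (.q 1 6) (.add (.add (.sub (.v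 68) (.v 280)) (.sub (.v 68) (.v 280))) (.sub (.v 69) (.v 280)))) (.v 252))) (.mul (.mul (.q 1 6) (.add (.sub (.v 68) (.v 280)) (.add (.sub (.v 69) (.v 280)) (.sub (.v 69) (.v 280))))) (.v 253))) (.mul (.mul (.sub (.v 72) (.v 71)) (.sub (.mul (.q 1 2) (.add (.v 71) (.v 72))) (.v 280))) (.v 444))) (.mul (.mul (.mul (.sub (.v 71) (.v 70)) (.sub (.mul (.q 1 2) (.add (.v 70) (.v 71))) (.v 280))) (.sub (.v 71) (.v 70))) (.v 443))) (.mul (.mul (.sub (.v 71) (.v 70)) (.add (.mul (.q 1 3) (.add (.add (.mul (.sub (.v 70) (.v 71)) (.sub (.v 70) (.v 71))) (.mul (.sub (.v 70) (.v 71)) (.sub (.v 71) (.v 71)))) (.mul (.sub (.v 71) (.v 71)) (.sub (.v 71) (.v 71))))) (.mul (.sub (.v 71) (.v 280)) (.sub (.mul (.q 1 2) (.add (.v 70) (.v 71))) (.v 71))))) (.v 443))]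

def Tbv12 : List Ex := [
  .add (.v 2191) (.mul (.v 280) (.v 2190)),
  .sub (.sub (.sub (.sub (.sub (.sub (.sub (.sub (.sub (.sub (.sub (.sub (.sub (.sub (.sub (.sub (.sub (.sub (.sub (.sub (.sub (.sub (.sub (.sub (.mul (.v 24) (.sub (.v 127) (.v 143))) (.mul (.sub (.v 65) (.v 59)) (.mul (.v 303) (.sub (.mul (.q 1 2) (.add (.v 59) (.v 65))) (.v 59))))) (.mul (.sub (.v 65) (.v 61)) (.mul (.v 297) (.sub (.mul (.q 1 2) (.add (.v 61) (.v 65))) (.v 68))))) (.mul (.sub (.v 65) (.v 62)) (.mul (.v 299) (.sub (.mul (.q 1 2) (.add (.v 62) (.v 65))) (.v 68))))) (.mul (.sub (.v 65) (.v 62)) (.mul (.v 305) (.sub (.mul (.q 1 2) (.add (.v 62) (.v 65))) (.v 66))))) (.mul (.sub (.v 65) (.v 64)) (.add (.mul (.v 252) (.v 254)) (.mul (.v 307) (.sub (.mul (.q 1 2) (.add (.v 64) (.v 65))) (.v 64)))))) (.mul (.sub (.v 65)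 (.v 63)) (.mul (.v 301) (.sub (.mul (.q 1 2) (.add (.v 63) (.v 65))) (.v 67))))) (.mul (.q 1 2) (.v 236))) (.mul (.q 1 2) (.v 238))) (.mul (.q 1 2) (.add (.v 247) (.v 248)))) (.mul (.q 1 2) (.v 205))) (.mul (.q 1 2) (.v 228))) (.mul (.q 1 2) (.add (.v 231) (.v 232)))) (.mul (.q 1 2) (.v 243))) (.mul (.q 1 2) (.add (.v 202) (.v 203)))) (.mul (.q 1 2) (.v 212))) (.mul (.q 1 2) (.add (.v 215) (.v 216)))) (.mul (.q 1 2) (.v 222))) (.mul (.q 1 2) (.v 224))) (.mul (.q 1 2) (.v 226))) (.mul (.q 1 2) (.v 197))) (.mul (.q 1 2) (.v 200))) (.mul (.q 1 2) (.v 208))) (.mul (.q 1 2) (.add (.v 193) (.v 194)))) (.mul (.q 1 2) (.v 189)),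
  .sub (.sub (.sub (.sub (.sub (.sub (.sub (.sub (.sub (.sub (.sub (.sub (.sub (.sub (.sub (.sub (.sub (.sub (.sub (.sub (.sub (.sub (.sub (.sub (.sub (.sub (.sub (.sub (.sub (.mul (.v 24) (.add (.sub (.v 142) (.v 126)) (.sub (.mul (.sub (.v 57) (.v 281)) (.v 127)) (.mul (.sub (.v 65) (.v 281)) (.v 143))))) (.mul (.sub (.v 65) (.v 59)) (.mul (.v 303) (.add (.mul (.q 1 3) (.add (.add (.mul (.sub (.v 59) (.v 59)) (.sub (.v 59) (.v 59))) (.mul (.sub (.v 59) (.v 59)) (.sub (.v 65) (.v 59)))) (.mul (.sub (.v 65) (.v 59)) (.sub (.v 65) (.v 59))))) (.mul (.sub (.v 59) (.v 281)) (.sub (.mul (.q 1 2) (.add (.v 59) (.v 65))) (.v 59))))))) (.mul (.sub (.v 65) (.v 61)) (.mul (.v 297) (.add (.mul (.q 1 3) (.add (.add (.mul (.sub (.v 61) (.v 68)) (.sub (.v 61) (.v 68))) (.mul (.sub (.v 61) (.v 68)) (.sub (.v 65) (.v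 68)))) (.mul (.sub (.v 65) (.v 68)) (.sub (.v 65) (.v 68))))) (.mul (.sub (.v 68) (.v 281)) (.sub (.mul (.q 1 2) (.add (.v 61) (.v 65))) (.v 68))))))) (.mul (.sub (.v 65) (.v 62)) (.mul (.v 299) (.add (.mul (.q 1 3) (.add (.add (.mul (.sub (.v 62) (.v 68)) (.sub (.v 62) (.v 68))) (.mul (.sub (.v 62) (.v 68)) (.sub (.v 65) (.v 68)))) (.mul (.sub (.v 65) (.v 68)) (.sub (.v 65) (.v 68))))) (.mul (.sub (.v 68) (.v 281)) (.sub (.mul (.q 1 2) (.add (.v 62) (.v 65))) (.v 68))))))) (.mul (.sub (.v 65) (.v 62)) (.mul (.v 305) (.add (.mul (.q 1 3) (.add (.add (.mul (.sub (.v 62) (.v 66)) (.sub (.v 62) (.v 66))) (.mul (.sub (.v 62) (.v 66)) (.sub (.v 65) (.v 66)))) (.mul (.sub (.v 65) (.v 66)) (.sub (.v 65) (.v 66))))) (.mul (.sub (.v 66) (.v 281)) (.sub (.mul (.q 1 2) (.add (.v 62) (.v 65))) (.v 66))))))) (.mul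 (.sub (.v 65) (.v 64)) (.add (.mul (.mul (.v 252) (.v 254)) (.sub (.mul (.q 1 2) (.add (.v 64) (.v 65))) (.v 281))) (.mul (.v 307) (.add (.mul (.q 1 3) (.add (.add (.mul (.sub (.v 64) (.v 64)) (.sub (.v 64) (.v 64))) (.mul (.sub (.v 64) (.v 64)) (.sub (.v 65) (.v 64)))) (.mul (.sub (.v 65) (.v 64)) (.sub (.v 65) (.v 64))))) (.mul (.sub (.v 64) (.v 281)) (.sub (.mul (.q 1 2) (.add (.v 64) (.v 65))) (.v 64)))))))) (.mul (.sub (.v 65) (.v 63)) (.mul (.v 301) (.add (.mul (.q 1 3) (.add (.add (.mul (.sub (.v 63) (.v 67)) (.sub (.v 63) (.v 67))) (.mul (.sub (.v 63) (.v 67)) (.sub (.v 65) (.v 67)))) (.mul (.sub (.v 65) (.v 67)) (.sub (.v 65) (.v 67))))) (.mul (.sub (.v 67) (.v 281)) (.sub (.mul (.q 1 2) (.add (.v 63) (.v 65))) (.v 67))))))) (.mul (.mul (.q 1 6) (.add (.sub (.v 59) (.v 281)) (.add (.sub (.v 64)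 (.v 281)) (.sub (.v 64) (.v 281))))) (.v 236))) (.mul (.mul (.q 1 6) (.add (.sub (.v 60) (.v 281)) (.add (.sub (.v 64) (.v 281)) (.sub (.v 64) (.v 281))))) (.v 238))) (.mul (.mul (.q 1 6) (.add (.add (.sub (.v 62) (.v 281)) (.sub (.v 62) (.v 281))) (.sub (.v 63) (.v 281)))) (.v 247))) (.mul (.mul (.q 1 6) (.add (.sub (.v 62) (.v 281)) (.add (.sub (.v 63) (.v 281)) (.sub (.v 63) (.v 281))))) (.v 248))) (.mul (.mul (.q 1 6) (.add (.sub (.v 57) (.v 281)) (.add (.sub (.v 62) (.v 281)) (.sub (.v 62) (.v 281))))) (.v 205))) (.mul (.mul (.q 1 6) (.add (.sub (.v 61) (.v 281)) (.add (.sub (.v 62) (.v 281)) (.sub (.v 62) (.v 281))))) (.v 228))) (.mul (.mul (.q 1 6) (.add (.add (.sub (.v 59) (.v 281)) (.sub (.v 59) (.v 281))) (.sub (.v 62) (.v 281)))) (.v 231))) (.mul (.mul (.q 1 6) (.add (.sub (.v 59) (.v 281))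 (.add (.sub (.v 62) (.v 281)) (.sub (.v 62) (.v 281))))) (.v 232))) (.mul (.mul (.q 1 6) (.add (.add (.sub (.v 61) (.v 281)) (.sub (.v 61) (.v 281))) (.sub (.v 62) (.v 281)))) (.v 243))) (.mul (.mul (.q 1 6) (.add (.add (.sub (.v 57) (.v 281)) (.sub (.v 57) (.v 281))) (.sub (.v 61) (.v 281)))) (.v 202))) (.mul (.mul (.q 1 6) (.add (.sub (.v 57) (.v 281)) (.add (.sub (.v 61) (.v 281)) (.sub (.v 61) (.v 281))))) (.v 203))) (.mul (.mul (.q 1 6) (.add (.add (.sub (.v 58) (.v 281)) (.sub (.v 58) (.v 281))) (.sub (.v 61) (.v 281)))) (.v 212))) (.mul (.mul (.q 1 6) (.add (.add (.sub (.v 59) (.v 281)) (.sub (.v 59) (.v 281))) (.sub (.v 61) (.v 281)))) (.v 215))) (.mul (.mul (.q 1 6) (.add (.sub (.v 59) (.v 281)) (.add (.sub (.v 61) (.v 281)) (.sub (.v 61) (.v 281))))) (.v 216))) (.mul (.mul (.q 1 6) (.add (.sub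 (.v 60) (.v 281)) (.add (.sub (.v 61) (.v 281)) (.sub (.v 61) (.v 281))))) (.v 222))) (.mul (.mul (.q 1 6) (.add (.add (.sub (.v 59) (.v 281)) (.sub (.v 59) (.v 281))) (.sub (.v 61) (.v 281)))) (.v 224))) (.mul (.mul (.q 1 6) (.add (.add (.sub (.v 60) (.v 281)) (.sub (.v 60) (.v 281))) (.sub (.v 61) (.v 281)))) (.v 226))) (.mul (.mul (.q 1 6) (.add (.sub (.v 57) (.v 281)) (.add (.sub (.v 60) (.v 281)) (.sub (.v 60) (.v 281))))) (.v 197))) (.mul (.mul (.q 1 6) (.add (.add (.sub (.v 57) (.v 281)) (.sub (.v 57) (.v 281))) (.sub (.v 60) (.v 281)))) (.v 200))) (.mul (.mul (.q 1 6) (.add (.sub (.v 58) (.v 281)) (.add (.sub (.v 60) (.v 281)) (.sub (.v 60) (.v 281))))) (.v 208))) (.mul (.mul (.q 1 6) (.add (.add (.sub (.v 57) (.v 281)) (.sub (.v 57) (.v 281))) (.sub (.v 59) (.v 281)))) (.v 193))) (.mul (.mul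 (.q 1 6) (.add (.sub (.v 57) (.v 281)) (.add (.sub (.v 59) (.v 281)) (.sub (.v 59) (.v 281))))) (.v 194))) (.mul (.mul (.q 1 6) (.add (.sub (.v 57) (.v 281)) (.add (.sub (.v 58) (.v 281)) (.sub (.v 58) (.v 281))))) (.v 189)),
  .add (.v 2194) (.mul (.v 281) (.v 2193)),
  .mul (.sub (.v 51) (.v 50)) (.v 502),
  .mul (.mul (.sub (.v 51) (.v 50)) (.sub (.mul (.q 1 2) (.add (.v 50) (.v 51))) (.v 285))) (.v 502),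
  .add (.v 2197) (.mul (.v 285) (.v 2196)),
  .sub (.sub (.mul (.v 23) (.sub (.v 165) (.v 169))) (.mul (.q 1 2) (.v 501))) (.mul (.sub (.v 78) (.v 77)) (.v 500)),
  .sub (.sub (.mul (.v 23) (.add (.sub (.v 168) (.v 164)) (.sub (.mul (.sub (.v 76) (.v 283)) (.v 165)) (.mul (.sub (.v 78) (.v 283)) (.v 169))))) (.mul (.mul (.q 1 6) (.add (.add (.sub (.v 76) (.v 283)) (.sub (.v 76) (.v 283))) (.sub (.v 77) (.v 283)))) (.v 501))) (.mul (.mul (.sub (.v 78) (.v 77)) (.sub (.mul (.q 1 2) (.add (.v 77) (.v 78))) (.v 283))) (.v 500)),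
  .add (.v 2200) (.mul (.v 283) (.v 2199)),
  .sub (.mul (.v 24) (.sub (.v 117) (.v 119))) (.mul (.q 1 2) (.v 501)),
  .sub (.mul (.v 24) (.add (.sub (.v 118) (.v 116)) (.sub (.mul (.sub (.v 52) (.v 284)) (.v 117)) (.mul (.sub (.v 53) (.v 284)) (.v 119))))) (.mul (.mul (.q 1 6) (.add (.sub (.v 52) (.v 284)) (.add (.sub (.v 53) (.v 284)) (.sub (.v 53) (.v 284))))) (.v 501)),
  .add (.v 2203) (.mul (.v 284) (.v 2202)),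
  .mul (.sub (.v 51) (.v 50)) (.v 499),
  .mul (.mul (.sub (.v 51) (.v 50)) (.sub (.mul (.q 1 2) (.add (.v 50) (.v 51))) (.v 288))) (.v 499),
  .add (.v 2206) (.mul (.v 288) (.v 2205))]

def Tbv13 : List Ex := [
  .sub (.add (.add (.add (.mul (.sub (.v 80) (.v 79)) (.v 498)) (.mul (.sub (.v 80) (.v 79)) (.v 498))) (.mul (.v 23) (.sub (.v 169) (.v 171)))) (.mul (.sub (.v 80) (.v 79)) (.v 497))) (.mul (.sub (.v 79) (.v 78)) (.v 497)),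
  .sub (.sub (.sub (.add (.mul (.mul (.sub (.v 80) (.v 79)) (.sub (.mul (.q 1 2) (.add (.v 79) (.v 80))) (.v 286))) (.v 498)) (.mul (.v 23) (.add (.sub (.v 170) (.v 168)) (.sub (.mul (.sub (.v 78) (.v 286)) (.v 169)) (.mul (.sub (.v 79) (.v 286)) (.v 171)))))) (.mul (.mul (.sub (.v 80) (.v 79)) (.sub (.mul (.q 1 2) (.add (.v 79) (.v 80))) (.sub (.add .pi .pi) (.v 286)))) (.v 498))) (.mul (.mul (.sub (.v 80) (.v 79)) (.sub (.mul (.q 1 2) (.add (.v 79) (.v 80))) (.sub (.add .pi .pi) (.v 286)))) (.v 497))) (.mul (.mul (.sub (.v 79) (.v 78)) (.sub (.mul (.q 1 2) (.add (.v 78) (.v 79))) (.v 286))) (.v 497)),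
  .add (.v 2209) (.mul (.v 286) (.v 2208)),
  .mul (.sub (.v 52) (.v 51)) (.v 496),
  .mul (.mul (.sub (.v 52) (.v 51)) (.sub (.mul (.q 1 2) (.add (.v 51) (.v 52))) (.v 287))) (.v 496),
  .add (.v 2212) (.mul (.v 287) (.v 2211)),
  .sub (.sub (.sub (.mul (.q 1 1) (.sub (.v 113) (.v 115))) (.mul (.sub (.v 51) (.v 50)) (.v 502))) (.mul (.sub (.v 51) (.v 50)) (.v 499))) (.mul (.q 1 2) (.v 501)),
  .sub (.sub (.sub (.mul (.q 1 1) (.add (.sub (.v 114) (.v 112)) (.sub (.mul (.sub (.v 50) (.v 291)) (.v 113)) (.mul (.sub (.v 51) (.v 291)) (.v 115))))) (.mul (.mul (.sub (.v 51) (.v 50)) (.sub (.mul (.q 1 2) (.add (.v 50) (.v 51))) (.v 291))) (.v 502))) (.mul (.mul (.sub (.v 51) (.v 50)) (.sub (.mul (.q 1 2) (.add (.v 50) (.v 51))) (.v 291))) (.v 499))) (.mul (.mul (.q 1 6) (.add (.add (.sub (.v 50) (.v 291)) (.sub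 (.v 50) (.v 291))) (.sub (.v 51) (.v 291)))) (.v 501)),
  .add (.v 2215) (.mul (.v 291) (.v 2214)),
  .add (.add (.mul (.sub (.v 80) (.v 79)) (.v 497)) (.mul (.sub (.v 79) (.v 78)) (.v 497))) (.mul (.sub (.v 78) (.v 77)) (.v 500)),
  .add (.add (.mul (.mul (.sub (.v 80) (.v 79)) (.sub (.mul (.q 1 2) (.add (.v 79) (.v 80))) (.v 289))) (.v 497)) (.mul (.mul (.sub (.v 79) (.v 78)) (.sub (.mul (.q 1 2) (.add (.v 78) (.v 79))) (.v 289))) (.v 497))) (.mul (.mul (.sub (.v 78) (.v 77)) (.sub (.mul (.q 1 2) (.add (.v 77) (.v 78))) (.v 289))) (.v 500)),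
  .add (.v 2218) (.mul (.v 289) (.v 2217)),
  .sub (.mul (.v 24) (.sub (.v 115) (.v 117))) (.mul (.sub (.v 52) (.v 51)) (.v 496)),
  .sub (.mul (.v 24) (.add (.sub (.v 116) (.v 114)) (.sub (.mul (.sub (.v 51) (.v 290)) (.v 115)) (.mul (.sub (.v 52) (.v 290)) (.v 117))))) (.mul (.mul (.sub (.v 52) (.v 51)) (.sub (.mul (.q 1 2) (.add (.v 51) (.v 52))) (.v 290))) (.v 496)),
  .add (.v 2221) (.mul (.v 290) (.v 2220))]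

def Tbdv : List Ex := Tbv0 ++ (Tbv1 ++ (Tbv2 ++ (Tbv3 ++ (Tbv4 ++ (Tbv5 ++ (Tbv6 ++ (Tbv7 ++ (Tbv8 ++ (Tbv9 ++ (Tbv10 ++ (Tbv11 ++ (Tbv12 ++ (Tbv13)))))))))))))

structure TbH (K E p : ℕ → ℝ) : Prop where
  hM : 1 < E 0
  hp : ∀ i, 1 ≤ i → i ≤ 11 → E (9 + i) = p i
  e0 : p 0 = 0
  e12 : p 12 = π
  l5 : E 12 + E 20 + 2 * E 14 = 2 * π
  l6 : E 11 + E 19 + 2 * E 15 = 2 * π
  l7 : E 10 + E 18 + 2 * E 16 = 2 * π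
  ht : Trig (E 0) p
  ch : Pos K E Tbch
  d0 : Dfs K E 22 Tbd0
  d1 : Dfs K E 38 Tbd1
  d2 : Dfs K E 54 Tbd2
  d3 : Dfs K E 70 Tbd3
  d4 : Dfs K E 86 Tbd4
  d5 : Dfs K E 102 Tbd5
  d6 : Dfs K E 118 Tbd6
  d7 : Dfs K E 134 Tbd7
  d8 : Dfs K E 150 Tbd8
  d9 : Dfs K E 166 Tbd9
  d10 : Dfs K E 182 Tbd10
  d11 : Dfs K E 198 Tbd11
  d12 : Dfs K E 214 Tbd12
  d13 : Dfs K E 230 Tbd13
  d14 : Dfs K E 246 Tbd14
  d15 : Dfs K E 262 Tbd15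
  d16 : Dfs K E 278 Tbd16
  d17 : Dfs K E 294 Tbd17
  d18 : Dfs K E 310 Tbd18
  d19 : Dfs K E 326 Tbd19
  d20 : Dfs K E 342 Tbd20
  d21 : Dfs K E 358 Tbd21
  d22 : Dfs K E 374 Tbd22
  d23 : Dfs K E 390 Tbd23
  d24 : Dfs K E 406 Tbd24
  d25 : Dfs K E 422 Tbd25
  d26 : Dfs K E 438 Tbd26
  d27 : Dfs K E 454 Tbd27
  d28 : Dfs K E 470 Tbd28
  d29 : Dfs K E 486 Tbd29
  d30 : Dfs K E 502 Tbd30
  d31 : Dfs K E 518 Tbd31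
  d32 : Dfs K E 534 Tbd32
  d33 : Dfs K E 550 Tbd33
  d34 : Dfs K E 566 Tbd34
  d35 : Dfs K E 582 Tbd35
  d36 : Dfs K E 598 Tbd36
  d37 : Dfs K E 614 Tbd37
  d38 : Dfs K E 630 Tbd38
  d39 : Dfs K E 646 Tbd39
  d40 : Dfs K E 662 Tbd40
  v0 : Dfs K E 2000 Tbv0
  v1 : Dfs K E 2016 Tbv1
  v2 : Dfs K E 2032 Tbv2
  v3 : Dfs K E 2048 Tbv3
  v4 : Dfs K E 2064 Tbv4
  v5 : Dfs K E 2080 Tbv5
  v6 : Dfs K E 2096 Tbv6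
  v7 : Dfs K E 2112 Tbv7
  v8 : Dfs K E 2128 Tbv8
  v9 : Dfs K E 2144 Tbv9
  v10 : Dfs K E 2160 Tbv10
  v11 : Dfs K E 2176 Tbv11
  v12 : Dfs K E 2192 Tbv12
  v13 : Dfs K E 2208 Tbv13
  c0 : Pos K E Tbc0
  c1 : Pos K E Tbc1
  c2 : Pos K E Tbc2
  c3 : Pos K E Tbc3
  c4 : Pos K E Tbc4
  c5 : Pos K E Tbc5
  c6 : Pos K E Tbc6
  c7 : Pos K E Tbc7
  c8 : Pos K E Tbc8
  c9 : Pos K E Tbc9
  c10 : Pos K E Tbc10
  c11 : Pos K E Tbc11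
  c12 : Pos K E Tbc12
  c13 : Pos K E Tbc13
  c14 : Pos K E Tbc14

namespace Tb

variable {K E p : ℕ → ℝ}

theorem F0 (h : TbH K E p) :
    E 22 = (E 0) - (K 100) ∧
    E 23 = (E 0)⁻¹ ∧
    E 24 = ((E 0) + (((1 : ℤ) : ℝ) / ((1 : ℕ) : ℝ)))⁻¹ ∧
    E 25 = (K 101) + ((K 102) * (E 22)) ∧
    E 26 = (K 103) + ((K 104) * (E 22)) ∧
    E 27 = (K 105) + ((K 106) * (E 22)) ∧
    E 28 = (K 107) + ((K 108) * (E 22)) ∧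
    E 29 = (K 109) + ((K 110) * (E 22)) ∧
    E 30 = (K 111) + ((K 112) * (E 22)) ∧
    E 31 = (K 113) + ((K 114) * (E 22)) ∧
    E 32 = (K 115) + ((K 116) * (E 22)) ∧
    E 33 = (K 117) + ((K 118) * (E 22)) ∧
    E 34 = (((0 : ℤ) : ℝ) / ((1 : ℕ) : ℝ)) - π ∧
    E 35 = (((0 : ℤ) : ℝ) / ((1 : ℕ) : ℝ)) - (E 10) ∧
    E 36 = (E 15) - ((E 12) + (E 12)) ∧
    E 37 = ((0 : ℤ) : ℝ) / ((1 : ℕ) : ℝ) ∧ True := h.d0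

theorem F1 (h : TbH K E p) :
    E 38 = ((E 12) + (E 12)) - (E 15) ∧
    E 39 = (((E 10) + ((E 16) + (E 16))) + (E 18)) - ((((3 : ℤ) : ℝ) / ((1 : ℕ) : ℝ)) * (E 17)) ∧
    E 40 = (((E 10) + (E 17)) - (E 29)) - (E 18) ∧
    E 41 = (((E 10) + ((((2 : ℤ) : ℝ) / ((3 : ℕ) : ℝ)) * (E 17))) - (E 29)) - ((((2 : ℤ) : ℝ) / ((3 : ℕ) : ℝ)) * (E 18)) ∧
    E 42 = (((E 10) + ((((1 : ℤ) : ℝ) / ((3 : ℕ) : ℝ)) * (E 17))) - (E 29)) - ((((1 : ℤ) : ℝ) / ((3 : ℕ) : ℝ)) * (E 18)) ∧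
    E 43 = (E 10) - (E 29) ∧
    E 44 = E 10 ∧
    E 45 = E 27 ∧
    E 46 = E 11 ∧
    E 47 = (((((1 : ℤ) : ℝ) / ((2 : ℕ) : ℝ)) * (E 29)) + ((((1 : ℤ) : ℝ) / ((2 : ℕ) : ℝ)) * (E 16))) - ((((1 : ℤ) : ℝ) / ((2 : ℕ) : ℝ)) * (E 10)) ∧
    E 48 = E 28 ∧
    E 49 = ((π + π) - (E 26)) - ((E 25) + (E 25)) ∧
    E 50 = E 12 ∧
    E 51 = E 13 ∧
    E 52 = E 33 ∧
    E 53 = E 14 ∧ True := h.d1

theorem F2 (h : TbH K E p) :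
    E 54 = E 25 ∧
    E 55 = E 15 ∧
    E 56 = (((((1 : ℤ) : ℝ) / ((2 : ℕ) : ℝ)) * (E 11)) + (E 15)) - ((((1 : ℤ) : ℝ) / ((2 : ℕ) : ℝ)) * (E 10)) ∧
    E 57 = E 16 ∧
    E 58 = ((((((1 : ℤ) : ℝ) / ((2 : ℕ) : ℝ)) * (E 29)) + (E 16)) + ((((1 : ℤ) : ℝ) / ((6 : ℕ) : ℝ)) * (E 18))) - ((((1 : ℤ) : ℝ) / ((6 : ℕ) : ℝ)) * (E 17)) ∧
    E 59 = ((((((1 : ℤ) : ℝ) / ((2 : ℕ) : ℝ)) * (E 29)) + (E 16)) + ((((1 : ℤ) : ℝ) / ((3 : ℕ) : ℝ)) * (E 18))) - ((((1 : ℤ) : ℝ) / ((3 : ℕ) : ℝ)) * (E 17)) ∧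
    E 60 = ((((((1 : ℤ) : ℝ) / ((2 : ℕ) : ℝ)) * (E 29)) + (E 16)) + ((((1 : ℤ) : ℝ) / ((2 : ℕ) : ℝ)) * (E 18))) - ((((1 : ℤ) : ℝ) / ((2 : ℕ) : ℝ)) * (E 17)) ∧
    E 61 = ((((((1 : ℤ) : ℝ) / ((2 : ℕ) : ℝ)) * (E 29)) + (E 16)) + ((((2 : ℤ) : ℝ) / ((3 : ℕ) : ℝ)) * (E 18))) - ((((2 : ℤ) : ℝ) / ((3 : ℕ) : ℝ)) * (E 17)) ∧
    E 62 = ((((((1 : ℤ) : ℝ) / ((2 : ℕ) : ℝ)) * (E 29)) + (E 16)) + ((((5 : ℤ) : ℝ) / ((6 : ℕ) : ℝ)) * (E 18))) - ((((5 : ℤ) : ℝ) / ((6 : ℕ) : ℝ)) * (E 17)) ∧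
    E 63 = ((((4 : ℤ) : ℝ) / ((3 : ℕ) : ℝ)) * (E 17)) - ((((1 : ℤ) : ℝ) / ((3 : ℕ) : ℝ)) * (E 18)) ∧
    E 64 = ((((((1 : ℤ) : ℝ) / ((2 : ℕ) : ℝ)) * (E 29)) + (E 16)) + (E 18)) - (E 17) ∧
    E 65 = ((((1 : ℤ) : ℝ) / ((2 : ℕ) : ℝ)) * (E 30)) + (E 16) ∧
    E 66 = ((((7 : ℤ) : ℝ) / ((6 : ℕ) : ℝ)) * (E 17)) - ((((1 : ℤ) : ℝ) / ((6 : ℕ) : ℝ)) * (E 18)) ∧
    E 67 = (((((((1 : ℤ) : ℝ) / ((2 : ℕ) : ℝ)) * (E 31)) + ((((1 : ℤ) : ℝ) / ((2 : ℕ) : ℝ)) * (E 10))) + ((((1 : ℤ) : ℝ) / ((2 : ℕ) : ℝ)) * (E 15))) + (E 16)) - (E 12) ∧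
    E 68 = E 17 ∧
    E 69 = ((((2 : ℤ) : ℝ) / ((3 : ℕ) : ℝ)) * (E 17)) + ((((1 : ℤ) : ℝ) / ((3 : ℕ) : ℝ)) * (E 18)) ∧ True := h.d2

theorem F3 (h : TbH K E p) :
    E 70 = (E 18) - (E 31) ∧
    E 71 = ((((1 : ℤ) : ℝ) / ((3 : ℕ) : ℝ)) * (E 17)) + ((((2 : ℤ) : ℝ) / ((3 : ℕ) : ℝ)) * (E 18)) ∧
    E 72 = E 18 ∧
    E 73 = ((((E 10) + (π + π)) - (E 11)) - ((E 15) + (E 15))) - (E 27) ∧
    E 74 = E 19 ∧
    E 75 = E 26 ∧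
    E 76 = E 20 ∧
    E 77 = ((π + π) - ((E 33) + (E 33))) - (E 13) ∧
    E 78 = π - (E 32) ∧
    E 79 = π ∧
    E 80 = (π + π) - (E 78) ∧
    E 81 = (π + π) - (E 76) ∧
    E 82 = (π + π) - (E 57) ∧
    E 83 = (π + π) - (E 56) ∧
    E 84 = (π + π) - (E 55) ∧
    E 85 = (π + π) - (E 37) ∧ True := h.d3

theorem F4 (h : TbH K E p) :
    E 86 = sin (E 37) ∧
    E 87 = cos (E 37) ∧
    E 88 = sin (E 38) ∧
    E 89 = cos (E 38) ∧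
    E 90 = sin (E 39) ∧
    E 91 = cos (E 39) ∧
    E 92 = sin (E 40) ∧
    E 93 = cos (E 40) ∧
    E 94 = sin (E 41) ∧
    E 95 = cos (E 41) ∧
    E 96 = sin (E 42) ∧
    E 97 = cos (E 42) ∧
    E 98 = sin (E 43) ∧
    E 99 = cos (E 43) ∧
    E 100 = sin (E 44) ∧
    E 101 = cos (E 44) ∧ True := h.d4

theorem F5 (h : TbH K E p) :
    E 102 = sin (E 45) ∧
    E 103 = cos (E 45) ∧
    E 104 = sin (E 46) ∧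
    E 105 = cos (E 46) ∧
    E 106 = sin (E 47) ∧
    E 107 = cos (E 47) ∧
    E 108 = sin (E 48) ∧
    E 109 = cos (E 48) ∧
    E 110 = sin (E 49) ∧
    E 111 = cos (E 49) ∧
    E 112 = sin (E 50) ∧
    E 113 = cos (E 50) ∧
    E 114 = sin (E 51) ∧
    E 115 = cos (E 51) ∧
    E 116 = sin (E 52) ∧
    E 117 = cos (E 52) ∧ True := h.d5

theorem F6 (h : TbH K E p) :
    E 118 = sin (E 53) ∧
    E 119 = cos (E 53) ∧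
    E 120 = sin (E 54) ∧
    E 121 = cos (E 54) ∧
    E 122 = sin (E 55) ∧
    E 123 = cos (E 55) ∧
    E 124 = sin (E 56) ∧
    E 125 = cos (E 56) ∧
    E 126 = sin (E 57) ∧
    E 127 = cos (E 57) ∧
    E 128 = sin (E 58) ∧
    E 129 = cos (E 58) ∧
    E 130 = sin (E 59) ∧
    E 131 = cos (E 59) ∧
    E 132 = sin (E 60) ∧
    E 133 = cos (E 60) ∧ True := h.d6

theorem F7 (h : TbH K E p) :
    E 134 = sin (E 61) ∧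
    E 135 = cos (E 61) ∧
    E 136 = sin (E 62) ∧
    E 137 = cos (E 62) ∧
    E 138 = sin (E 63) ∧
    E 139 = cos (E 63) ∧
    E 140 = sin (E 64) ∧
    E 141 = cos (E 64) ∧
    E 142 = sin (E 65) ∧
    E 143 = cos (E 65) ∧
    E 144 = sin (E 66) ∧
    E 145 = cos (E 66) ∧
    E 146 = sin (E 67) ∧
    E 147 = cos (E 67) ∧
    E 148 = sin (E 68) ∧
    E 149 = cos (E 68) ∧ True := h.d7

theorem F8 (h : TbH K E p) :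
    E 150 = sin (E 69) ∧
    E 151 = cos (E 69) ∧
    E 152 = sin (E 70) ∧
    E 153 = cos (E 70) ∧
    E 154 = sin (E 71) ∧
    E 155 = cos (E 71) ∧
    E 156 = sin (E 72) ∧
    E 157 = cos (E 72) ∧
    E 158 = sin (E 73) ∧
    E 159 = cos (E 73) ∧
    E 160 = sin (E 74) ∧
    E 161 = cos (E 74) ∧
    E 162 = sin (E 75) ∧
    E 163 = cos (E 75) ∧
    E 164 = sin (E 76) ∧
    E 165 = cos (E 76) ∧ True := h.d8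

theorem F9 (h : TbH K E p) :
    E 166 = sin (E 77) ∧
    E 167 = cos (E 77) ∧
    E 168 = sin (E 78) ∧
    E 169 = cos (E 78) ∧
    E 170 = sin (E 79) ∧
    E 171 = cos (E 79) ∧
    E 172 = (K 119) + ((K 120) * (E 22)) ∧
    E 173 = (K 121) + ((K 122) * (E 22)) ∧
    E 174 = (K 123) + ((K 124) * (E 22)) ∧
    E 175 = ((E 49) - (E 46))⁻¹ ∧
    E 176 = ((E 75) - (E 74))⁻¹ ∧
    E 177 = ((E 55) - (E 54))⁻¹ ∧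
    E 178 = (K 125) + ((K 126) * (E 22)) ∧
    E 179 = ((E 46) - (E 45))⁻¹ ∧
    E 180 = ((E 74) - (E 73))⁻¹ ∧
    E 181 = ((E 56) - (E 55))⁻¹ ∧ True := h.d9

theorem F10 (h : TbH K E p) :
    E 182 = ((E 45) - (E 44))⁻¹ ∧
    E 183 = ((E 73) - (E 72))⁻¹ ∧
    E 184 = ((E 57) - (E 56))⁻¹ ∧
    E 185 = (K 127) + ((K 128) * (E 22)) ∧
    E 186 = ((E 43) - (E 36))⁻¹ ∧
    E 187 = ((E 84) - (E 82))⁻¹ ∧
    E 188 = ((E 50) - (E 47))⁻¹ ∧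
    E 189 = (K 129) + ((K 130) * (E 22)) ∧
    E 190 = ((E 44) - (E 43))⁻¹ ∧
    E 191 = ((E 72) - (E 71))⁻¹ ∧
    E 192 = ((E 58) - (E 57))⁻¹ ∧
    E 193 = (K 131) + ((K 132) * (E 22)) ∧
    E 194 = (K 133) + ((K 134) * (E 22)) ∧
    E 195 = ((E 72) - (E 69))⁻¹ ∧
    E 196 = ((E 59) - (E 57))⁻¹ ∧
    E 197 = (K 135) + ((K 136) * (E 22)) ∧ True := h.d10

theorem F11 (h : TbH K E p) :
    E 198 = ((E 44) - (E 42))⁻¹ ∧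
    E 199 = ((E 60) - (E 57))⁻¹ ∧
    E 200 = (K 137) + ((K 138) * (E 22)) ∧
    E 201 = ((E 72) - (E 68))⁻¹ ∧
    E 202 = (K 139) + ((K 140) * (E 22)) ∧
    E 203 = (K 141) + ((K 142) * (E 22)) ∧
    E 204 = ((E 61) - (E 57))⁻¹ ∧
    E 205 = (K 143) + ((K 144) * (E 22)) ∧
    E 206 = ((E 44) - (E 41))⁻¹ ∧
    E 207 = ((E 62) - (E 57))⁻¹ ∧
    E 208 = (K 145) + ((K 146) * (E 22)) ∧
    E 209 = ((E 43) - (E 42))⁻¹ ∧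
    E 210 = ((E 71) - (E 69))⁻¹ ∧
    E 211 = ((E 60) - (E 58))⁻¹ ∧
    E 212 = (K 147) + ((K 148) * (E 22)) ∧
    E 213 = ((E 71) - (E 68))⁻¹ ∧ True := h.d11

theorem F12 (h : TbH K E p) :
    E 214 = ((E 61) - (E 58))⁻¹ ∧
    E 215 = (K 149) + ((K 150) * (E 22)) ∧
    E 216 = (K 151) + ((K 152) * (E 22)) ∧
    E 217 = ((E 42) - (E 41))⁻¹ ∧
    E 218 = ((E 61) - (E 59))⁻¹ ∧
    E 219 = (K 153) + ((K 154) * (E 22)) ∧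
    E 220 = ((E 42) - (E 39))⁻¹ ∧
    E 221 = ((E 66) - (E 59))⁻¹ ∧
    E 222 = (K 155) + ((K 156) * (E 22)) ∧
    E 223 = ((E 61) - (E 60))⁻¹ ∧
    E 224 = (K 157) + ((K 158) * (E 22)) ∧
    E 225 = ((E 43) - (E 40))⁻¹ ∧
    E 226 = (K 159) + ((K 160) * (E 22)) ∧
    E 227 = ((E 42) - (E 40))⁻¹ ∧
    E 228 = (K 161) + ((K 162) * (E 22)) ∧
    E 229 = ((E 41) - (E 40))⁻¹ ∧ True := h.d12

theorem F13 (h : TbH K E p) :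
    E 230 = ((E 62) - (E 61))⁻¹ ∧
    E 231 = (K 163) + ((K 164) * (E 22)) ∧
    E 232 = (K 165) + ((K 166) * (E 22)) ∧
    E 233 = ((E 43) - (E 41))⁻¹ ∧
    E 234 = ((E 69) - (E 68))⁻¹ ∧
    E 235 = ((E 62) - (E 59))⁻¹ ∧
    E 236 = (K 167) + ((K 168) * (E 22)) ∧
    E 237 = ((E 64) - (E 59))⁻¹ ∧
    E 238 = (K 169) + ((K 170) * (E 22)) ∧
    E 239 = ((E 64) - (E 60))⁻¹ ∧
    E 240 = (K 171) + ((K 172) * (E 22)) ∧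
    E 241 = ((E 41) - (E 39))⁻¹ ∧
    E 242 = ((E 68) - (E 61))⁻¹ ∧
    E 243 = (K 173) + ((K 174) * (E 22)) ∧
    E 244 = (K 175) + ((K 176) * (E 22)) ∧
    E 245 = ((E 40) - (E 39))⁻¹ ∧ True := h.d13

theorem F14 (h : TbH K E p) :
    E 246 = ((E 68) - (E 62))⁻¹ ∧
    E 247 = (K 177) + ((K 178) * (E 22)) ∧
    E 248 = (K 179) + ((K 180) * (E 22)) ∧
    E 249 = ((E 63) - (E 62))⁻¹ ∧
    E 250 = (K 181) + ((K 182) * (E 22)) ∧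
    E 251 = ((E 66) - (E 62))⁻¹ ∧
    E 252 = (K 183) + ((K 184) * (E 22)) ∧
    E 253 = (K 185) + ((K 186) * (E 22)) ∧
    E 254 = ((E 66) - (E 64))⁻¹ ∧
    E 255 = (K 187) + ((K 188) * (E 22)) ∧
    E 256 = ((E 39) - (E 38))⁻¹ ∧
    E 257 = ((E 71) - (E 70))⁻¹ ∧
    E 258 = ((E 67) - (E 63))⁻¹ ∧
    E 259 = ((E 51) - (E 50))⁻¹ ∧
    E 260 = ((E 77) - (E 76))⁻¹ ∧
    E 261 = ((E 53) - (E 52))⁻¹ ∧ True := h.d14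

theorem F15 (h : TbH K E p) :
    E 262 = (((1 : ℤ) : ℝ) / ((2 : ℕ) : ℝ)) * ((E 76) + (E 75)) ∧
    E 263 = (((1 : ℤ) : ℝ) / ((2 : ℕ) : ℝ)) * ((E 54) + (E 53)) ∧
    E 264 = ((π + π) - (E 262)) - ((E 263) + (E 263)) ∧
    E 265 = (((1 : ℤ) : ℝ) / ((2 : ℕ) : ℝ)) * ((E 74) + (E 76)) ∧
    E 266 = (((1 : ℤ) : ℝ) / ((2 : ℕ) : ℝ)) * ((E 54) + (E 55)) ∧
    E 267 = ((π + π) - (E 265)) - ((E 266) + (E 266)) ∧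
    E 268 = (((1 : ℤ) : ℝ) / ((2 : ℕ) : ℝ)) * ((E 72) + (E 74)) ∧
    E 269 = (((1 : ℤ) : ℝ) / ((2 : ℕ) : ℝ)) * ((E 56) + (E 57)) ∧
    E 270 = ((π + π) - (E 268)) - ((E 269) + (E 269)) ∧
    E 271 = (((1 : ℤ) : ℝ) / ((2 : ℕ) : ℝ)) * ((E 74) + (E 73)) ∧
    E 272 = (((1 : ℤ) : ℝ) / ((2 : ℕ) : ℝ)) * ((E 56) + (E 55)) ∧
    E 273 = ((π + π) - (E 271)) - ((E 272) + (E 272)) ∧
    E 274 = (((1 : ℤ) : ℝ) / ((2 : ℕ) : ℝ)) * ((E 84) + (E 82)) ∧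
    E 275 = (((1 : ℤ) : ℝ) / ((2 : ℕ) : ℝ)) * ((E 50) + (E 46)) ∧
    E 276 = ((π + π) - (E 274)) - ((E 275) + (E 275)) ∧
    E 277 = (((1 : ℤ) : ℝ) / ((2 : ℕ) : ℝ)) * ((E 72) + (E 70)) ∧ True := h.d15

theorem F16 (h : TbH K E p) :
    E 278 = (((1 : ℤ) : ℝ) / ((2 : ℕ) : ℝ)) * ((E 68) + (E 65)) ∧
    E 279 = ((π + π) - (E 277)) - ((E 278) + (E 278)) ∧
    E 280 = (((1 : ℤ) : ℝ) / ((2 : ℕ) : ℝ)) * ((E 72) + (E 68)) ∧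
    E 281 = (((1 : ℤ) : ℝ) / ((2 : ℕ) : ℝ)) * ((E 65) + (E 57)) ∧
    E 282 = ((π + π) - (E 280)) - ((E 281) + (E 281)) ∧
    E 283 = (((1 : ℤ) : ℝ) / ((2 : ℕ) : ℝ)) * ((E 76) + (E 78)) ∧
    E 284 = (((1 : ℤ) : ℝ) / ((2 : ℕ) : ℝ)) * ((E 52) + (E 53)) ∧
    E 285 = ((π + π) - (E 283)) - ((E 284) + (E 284)) ∧
    E 286 = (((1 : ℤ) : ℝ) / ((2 : ℕ) : ℝ)) * ((E 78) + (E 80)) ∧
    E 287 = (((1 : ℤ) : ℝ) / ((2 : ℕ) : ℝ)) * ((E 51) + (E 52)) ∧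
    E 288 = ((π + π) - (E 286)) - ((E 287) + (E 287)) ∧
    E 289 = (((1 : ℤ) : ℝ) / ((2 : ℕ) : ℝ)) * ((E 80) + (E 77)) ∧
    E 290 = (((1 : ℤ) : ℝ) / ((2 : ℕ) : ℝ)) * ((E 52) + (E 51)) ∧
    E 291 = ((π + π) - (E 289)) - ((E 290) + (E 290)) ∧
    E 292 = (E 187) * (E 187) ∧
    E 293 = (((0 : ℤ) : ℝ) / ((1 : ℕ) : ℝ)) - ((E 185) * ((E 187) * (E 187))) ∧ True := h.d16

theorem F17 (h : TbH K E p) :
    E 294 = (E 186) * (E 186) ∧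
    E 295 = (E 185) * ((E 186) * (E 186)) ∧
    E 296 = (E 242) * (E 242) ∧
    E 297 = (((0 : ℤ) : ℝ) / ((1 : ℕ) : ℝ)) - ((E 240) * ((E 242) * (E 242))) ∧
    E 298 = (E 246) * (E 246) ∧
    E 299 = (((0 : ℤ) : ℝ) / ((1 : ℕ) : ℝ)) - ((E 244) * ((E 246) * (E 246))) ∧
    E 300 = (E 258) * (E 258) ∧
    E 301 = (((0 : ℤ) : ℝ) / ((1 : ℕ) : ℝ)) - ((E 255) * ((E 258) * (E 258))) ∧
    E 302 = (E 221) * (E 221) ∧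
    E 303 = (E 219) * ((E 221) * (E 221)) ∧
    E 304 = (E 251) * (E 251) ∧
    E 305 = (((0 : ℤ) : ℝ) / ((1 : ℕ) : ℝ)) - ((E 250) * ((E 251) * (E 251))) ∧
    E 306 = (E 254) * (E 254) ∧
    E 307 = ((E 253) - (E 252)) * ((E 254) * (E 254)) ∧
    E 308 = (E 76) - (E 75) ∧
    E 309 = (((0 : ℤ) : ℝ) / ((1 : ℕ) : ℝ)) - ((E 24) * ((E 119) - (E 121))) ∧ True := h.d17

theorem F18 (h : TbH K E p) :
    E 310 = (E 308)⁻¹ ∧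
    E 311 = (((0 : ℤ) : ℝ) / ((1 : ℕ) : ℝ)) - ((E 310) * (E 309)) ∧
    E 312 = (E 50) - (E 49) ∧
    E 313 = ((E 50) - (E 49)) * (((((1 : ℤ) : ℝ) / ((2 : ℕ) : ℝ)) * ((E 49) + (E 50))) - (E 50)) ∧
    E 314 = ((((E 49) - (E 48)) * (((E 49) - (E 48)) * (E 172))) + ((((E 49) - (E 48)) * (((((1 : ℤ) : ℝ) / ((2 : ℕ) : ℝ)) * ((E 48) + (E 49))) - (E 49))) * (E 172))) - ((E 24) * ((E 119) - (E 121))) ∧
    E 315 = ((E 50) - (E 49)) * (((((1 : ℤ) : ℝ) / ((2 : ℕ) : ℝ)) * ((E 49) + (E 50))) - (E 264)) ∧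
    E 316 = ((E 50) - (E 49)) * (((((1 : ℤ) : ℝ) / ((3 : ℕ) : ℝ)) * (((((E 49) - (E 50)) * ((E 49) - (E 50))) + (((E 49) - (E 50)) * ((E 50) - (E 50)))) + (((E 50) - (E 50)) * ((E 50) - (E 50))))) + (((E 50) - (E 264)) * (((((1 : ℤ) : ℝ) / ((2 : ℕ) : ℝ)) * ((E 49) + (E 50))) - (E 50)))) ∧
    E 317 = (((((((E 49) - (E 48)) * (((((1 : ℤ) : ℝ) / ((2 : ℕ) : ℝ)) * ((E 48) + (E 49))) - (E 264))) * (((E 49) - (E 48)) * (E 172))) + ((((E 49) - (E 48)) * (((((1 : ℤ) : ℝ) / ((3 : ℕ) : ℝ)) * (((((E 48) - (E 49)) * ((E 48) - (E 49))) + (((E 48) - (E 49)) * ((E 49) - (E 49)))) + (((E 49) - (E 49)) * ((E 49) - (E 49))))) + (((E 49) - (E 264)) * (((((1 : ℤ) : ℝ) / ((2 : ℕ) : ℝ)) * ((E 48) + (E 49))) - (E 49))))) * (E 172))) + ((E 24) * (((E 120) - (E 118)) + ((((E 53) - (E 263)) * (E 119)) - (((E 54) - (E 263)) * (E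 121)))))) + ((E 24) * (((E 120) - (E 118)) + ((((E 53) - (E 263)) * (E 119)) - (((E 54) - (E 263)) * (E 121)))))) + ((((E 76) - (E 75)) * (((((1 : ℤ) : ℝ) / ((2 : ℕ) : ℝ)) * ((E 75) + (E 76))) - (E 262))) * (E 311)) ∧
    E 318 = (E 312)⁻¹ ∧
    E 319 = (E 315) * (E 318) ∧
    E 320 = (E 316) - ((E 319) * (E 313)) ∧
    E 321 = (E 317) - ((E 319) * (E 314)) ∧
    E 322 = (E 320)⁻¹ ∧
    E 323 = (((0 : ℤ) : ℝ) / ((1 : ℕ) : ℝ)) - ((E 322) * (E 321)) ∧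
    E 324 = (((0 : ℤ) : ℝ) / ((1 : ℕ) : ℝ)) - ((E 318) * ((E 314) + ((E 313) * (E 323)))) ∧
    E 325 = (E 47) - (E 46) ∧ True := h.d18

theorem F19 (h : TbH K E p) :
    E 326 = (E 48) - (E 47) ∧
    E 327 = ((((E 49) - (E 48)) * (E 173)) + ((((1 : ℤ) : ℝ) / ((2 : ℕ) : ℝ)) * (E 174))) - ((E 24) * ((E 121) - (E 123))) ∧
    E 328 = ((E 47) - (E 46)) * (((((1 : ℤ) : ℝ) / ((2 : ℕ) : ℝ)) * ((E 46) + (E 47))) - (E 267)) ∧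
    E 329 = ((E 48) - (E 47)) * (((((1 : ℤ) : ℝ) / ((2 : ℕ) : ℝ)) * ((E 47) + (E 48))) - (E 267)) ∧
    E 330 = ((((((((((E 49) - (E 48)) * (((((1 : ℤ) : ℝ) / ((2 : ℕ) : ℝ)) * ((E 48) + (E 49))) - (E 267))) * (E 173)) + ((E 23) * (((E 164) - (E 160)) + ((((E 74) - (E 265)) * (E 161)) - (((E 76) - (E 265)) * (E 165)))))) + ((E 24) * (((E 122) - (E 120)) + ((((E 54) - (E 266)) * (E 121)) - (((E 55) - (E 266)) * (E 123)))))) + ((E 24) * (((E 122) - (E 120)) + ((((E 54) - (E 266)) * (E 121)) - (((E 55) - (E 266)) * (E 123)))))) - (((((1 : ℤ) : ℝ) / ((6 : ℕ) : ℝ)) * ((((E 74) - (E 265)) + ((E 74) - (E 265))) + ((E 75) - (E 265)))) * (E 174))) - (((((1 : ℤ) : ℝ) / ((6 : ℕ) : ℝ)) * (((E 54) - (E 266)) + (((E 55) - (E 266)) + ((E 55) - (E 266))))) * (E 174))) - (((((1 : ℤ) : ℝ) / ((6 : ℕ) : ℝ)) * (((E 54) - (E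 266)) + (((E 55) - (E 266)) + ((E 55) - (E 266))))) * (E 174))) - ((((E 76) - (E 75)) * (((((1 : ℤ) : ℝ) / ((2 : ℕ) : ℝ)) * ((E 75) + (E 76))) - (E 265))) * (E 311)) ∧
    E 331 = (E 325)⁻¹ ∧
    E 332 = (E 328) * (E 331) ∧
    E 333 = (E 329) - ((E 332) * (E 326)) ∧
    E 334 = (E 330) - ((E 332) * (E 327)) ∧
    E 335 = (E 333)⁻¹ ∧
    E 336 = (((0 : ℤ) : ℝ) / ((1 : ℕ) : ℝ)) - ((E 335) * (E 334)) ∧
    E 337 = (((0 : ℤ) : ℝ) / ((1 : ℕ) : ℝ)) - ((E 331) * ((E 327) + ((E 326) * (E 336)))) ∧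
    E 338 = (E 45) - (E 44) ∧
    E 339 = (((0 : ℤ) : ℝ) / ((1 : ℕ) : ℝ)) - (((E 24) * (E 0)) * ((E 83) - (E 82))) ∧
    E 340 = (((0 : ℤ) : ℝ) / ((1 : ℕ) : ℝ)) - (((E 24) * (E 0)) * (((E 83) - (E 82)) * (((((1 : ℤ) : ℝ) / ((2 : ℕ) : ℝ)) * ((E 82) + (E 83))) - (E 83)))) ∧
    E 341 = ((1 : ℤ) : ℝ) / ((2 : ℕ) : ℝ) ∧ True := h.d19

theorem F20 (h : TbH K E p) :
    E 342 = ((((0 : ℤ) : ℝ) / ((1 : ℕ) : ℝ)) - ((E 24) * ((E 125) - (E 127)))) - (((E 24) * (E 0)) * (((E 83) - (E 82)) * ((E 293) * (((((1 : ℤ) : ℝ) / ((2 : ℕ) : ℝ)) * ((E 82) + (E 83))) - (E 84))))) ∧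
    E 343 = (((1 : ℤ) : ℝ) / ((2 : ℕ) : ℝ)) - (((1 : ℤ) : ℝ) / ((2 : ℕ) : ℝ)) ∧
    E 344 = (((0 : ℤ) : ℝ) / ((1 : ℕ) : ℝ)) - ((E 74) - (E 73)) ∧
    E 345 = (((0 : ℤ) : ℝ) / ((1 : ℕ) : ℝ)) - (((E 24) * (E 0)) * ((E 83) - (E 82))) ∧
    E 346 = (((0 : ℤ) : ℝ) / ((1 : ℕ) : ℝ)) - (((E 24) * (E 0)) * (((E 83) - (E 82)) * (((((1 : ℤ) : ℝ) / ((2 : ℕ) : ℝ)) * ((E 82) + (E 83))) - (E 83)))) ∧
    E 347 = ((((E 23) * ((E 157) - (E 161))) - ((((1 : ℤ) : ℝ) / ((2 : ℕ) : ℝ)) * (E 178))) - ((E 24) * ((E 125) - (E 127)))) - (((E 24) * (E 0)) * (((E 83) - (E 82)) * ((E 293) * (((((1 : ℤ) : ℝ) / ((2 : ℕ) : ℝ)) * ((E 82) + (E 83))) - (E 84))))) ∧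
    E 348 = ((E 45) - (E 44)) * (((((1 : ℤ) : ℝ) / ((2 : ℕ) : ℝ)) * ((E 44) + (E 45))) - (E 270)) ∧
    E 349 = (((((0 : ℤ) : ℝ) / ((1 : ℕ) : ℝ)) - ((((1 : ℤ) : ℝ) / ((6 : ℕ) : ℝ)) * (((E 72) - (E 268)) + (((E 73) - (E 268)) + ((E 73) - (E 268)))))) - ((((1 : ℤ) : ℝ) / ((6 : ℕ) : ℝ)) * ((((E 56) - (E 269)) + ((E 56) - (E 269))) + ((E 57) - (E 269))))) - ((((1 : ℤ) : ℝ) / ((6 : ℕ) : ℝ)) * ((((E 56) - (E 269)) + ((E 56) - (E 269))) + ((E 57) - (E 269)))) ∧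
    E 350 = (((0 : ℤ) : ℝ) / ((1 : ℕ) : ℝ)) - (((E 74) - (E 73)) * (((((1 : ℤ) : ℝ) / ((2 : ℕ) : ℝ)) * ((E 73) + (E 74))) - (E 268))) ∧
    E 351 = ((((0 : ℤ) : ℝ) / ((1 : ℕ) : ℝ)) - (((E 24) * (E 0)) * (((E 83) - (E 82)) * (((((1 : ℤ) : ℝ) / ((2 : ℕ) : ℝ)) * ((E 82) + (E 83))) - ((π + π) - (E 269)))))) - (((E 24) * (E 0)) * (((E 83) - (E 82)) * (((((1 : ℤ) : ℝ) / ((2 : ℕ) : ℝ)) * ((E 82) + (E 83))) - ((π + π) - (E 269))))) ∧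
    E 352 = ((((0 : ℤ) : ℝ) / ((1 : ℕ) : ℝ)) - (((E 24) * (E 0)) * (((E 83) - (E 82)) * (((((1 : ℤ) : ℝ) / ((3 : ℕ) : ℝ)) * (((((E 82) - (E 83)) * ((E 82) - (E 83))) + (((E 82) - (E 83)) * ((E 83) - (E 83)))) + (((E 83) - (E 83)) * ((E 83) - (E 83))))) + (((E 83) - ((π + π) - (E 269))) * (((((1 : ℤ) : ℝ) / ((2 : ℕ) : ℝ)) * ((E 82) + (E 83))) - (E 83))))))) - (((E 24) * (E 0)) * (((E 83) - (E 82)) * (((((1 : ℤ) : ℝ) / ((3 : ℕ) : ℝ)) * (((((E 82) - (E 83)) * ((E 82) - (E 83))) + (((E 82) - (E 83)) * ((E 83) - (E 83)))) + (((E 83) - (E 83)) * ((E 83) - (E 83))))) + (((E 83) - ((π + π) - (E 269))) * (((((1 : ℤ) : ℝ) / ((2 : ℕ) : ℝ)) * ((E 82) + (E 83))) - (E 83)))))) ∧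
    E 353 = ((((((E 23) * (((E 160) - (E 156)) + ((((E 72) - (E 268)) * (E 157)) - (((E 74) - (E 268)) * (E 161))))) + ((E 24) * (((E 126) - (E 124)) + ((((E 56) - (E 269)) * (E 125)) - (((E 57) - (E 269)) * (E 127)))))) + ((E 24) * (((E 126) - (E 124)) + ((((E 56) - (E 269)) * (E 125)) - (((E 57) - (E 269)) * (E 127)))))) - (((((1 : ℤ) : ℝ) / ((6 : ℕ) : ℝ)) * ((((E 73) - (E 268)) + ((E 73) - (E 268))) + ((E 74) - (E 268)))) * (E 178))) - (((E 24) * (E 0)) * (((E 83) - (E 82)) * ((E 293) * (((((1 : ℤ) : ℝ) / ((3 : ℕ) : ℝ)) * (((((E 82) - (E 84)) * ((E 82) - (E 84))) + (((E 82) - (E 84)) * ((E 83) - (E 84)))) + (((E 83) - (E 84)) * ((E 83) - (E 84))))) + (((E 84) - ((π + π) - (E 269))) * (((((1 : ℤ) : ℝ) / ((2 : ℕ) : ℝ)) * ((E 82) + (E 83))) - (E 84)))))))) - (((E 24) * (E 0)) * (((E 83) - (E 82)) * ((E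 293) * (((((1 : ℤ) : ℝ) / ((3 : ℕ) : ℝ)) * (((((E 82) - (E 84)) * ((E 82) - (E 84))) + (((E 82) - (E 84)) * ((E 83) - (E 84)))) + (((E 83) - (E 84)) * ((E 83) - (E 84))))) + (((E 84) - ((π + π) - (E 269))) * (((((1 : ℤ) : ℝ) / ((2 : ℕ) : ℝ)) * ((E 82) + (E 83))) - (E 84))))))) ∧
    E 354 = (((0 : ℤ) : ℝ) / ((1 : ℕ) : ℝ)) - ((E 45) - (E 44)) ∧
    E 355 = (((0 : ℤ) : ℝ) / ((1 : ℕ) : ℝ)) - (((1 : ℤ) : ℝ) / ((2 : ℕ) : ℝ)) ∧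
    E 356 = (((0 : ℤ) : ℝ) / ((1 : ℕ) : ℝ)) - (((E 24) * (E 0)) * ((E 84) - (E 83))) ∧
    E 357 = (((((((1 : ℤ) : ℝ) / ((1 : ℕ) : ℝ)) * ((E 101) - (E 105))) + ((((1 : ℤ) : ℝ) / ((2 : ℕ) : ℝ)) * (E 178))) - ((((1 : ℤ) : ℝ) / ((2 : ℕ) : ℝ)) * (E 178))) - ((E 24) * ((E 123) - (E 125)))) - (((E 24) * (E 0)) * (((E 84) - (E 83)) * ((E 293) * (((((1 : ℤ) : ℝ) / ((2 : ℕ) : ℝ)) * ((E 83) + (E 84))) - (E 84))))) ∧ True := h.d20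

theorem F21 (h : TbH K E p) :
    E 358 = (((0 : ℤ) : ℝ) / ((1 : ℕ) : ℝ)) - (((E 45) - (E 44)) * (((((1 : ℤ) : ℝ) / ((2 : ℕ) : ℝ)) * ((E 44) + (E 45))) - (E 273))) ∧
    E 359 = (((0 : ℤ) : ℝ) / ((1 : ℕ) : ℝ)) - ((((1 : ℤ) : ℝ) / ((6 : ℕ) : ℝ)) * (((E 44) - (E 273)) + (((E 45) - (E 273)) + ((E 45) - (E 273))))) ∧
    E 360 = ((E 74) - (E 73)) * (((((1 : ℤ) : ℝ) / ((2 : ℕ) : ℝ)) * ((E 73) + (E 74))) - (E 271)) ∧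
    E 361 = ((((0 : ℤ) : ℝ) / ((1 : ℕ) : ℝ)) - (((E 24) * (E 0)) * (((E 84) - (E 83)) * (((((1 : ℤ) : ℝ) / ((2 : ℕ) : ℝ)) * ((E 83) + (E 84))) - ((π + π) - (E 272)))))) - (((E 24) * (E 0)) * (((E 84) - (E 83)) * (((((1 : ℤ) : ℝ) / ((2 : ℕ) : ℝ)) * ((E 83) + (E 84))) - ((π + π) - (E 272))))) ∧
    E 362 = ((((((((((1 : ℤ) : ℝ) / ((1 : ℕ) : ℝ)) * (((E 104) - (E 100)) + ((((E 44) - (E 273)) * (E 101)) - (((E 46) - (E 273)) * (E 105))))) + ((E 24) * (((E 124) - (E 122)) + ((((E 55) - (E 272)) * (E 123)) - (((E 56) - (E 272)) * (E 125)))))) + ((E 24) * (((E 124) - (E 122)) + ((((E 55) - (E 272)) * (E 123)) - (((E 56) - (E 272)) * (E 125)))))) - (((((1 : ℤ) : ℝ) / ((6 : ℕ) : ℝ)) * ((((E 45) - (E 273)) + ((E 45) - (E 273))) + ((E 46) - (E 273)))) * (E 178))) - (((((1 : ℤ) : ℝ) / ((6 : ℕ) : ℝ)) * (((E 55) - (E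 272)) + (((E 56) - (E 272)) + ((E 56) - (E 272))))) * (E 178))) - (((E 24) * (E 0)) * (((E 84) - (E 83)) * ((E 293) * (((((1 : ℤ) : ℝ) / ((3 : ℕ) : ℝ)) * (((((E 83) - (E 84)) * ((E 83) - (E 84))) + (((E 83) - (E 84)) * ((E 84) - (E 84)))) + (((E 84) - (E 84)) * ((E 84) - (E 84))))) + (((E 84) - ((π + π) - (E 272))) * (((((1 : ℤ) : ℝ) / ((2 : ℕ) : ℝ)) * ((E 83) + (E 84))) - (E 84)))))))) - (((((1 : ℤ) : ℝ) / ((6 : ℕ) : ℝ)) * (((E 55) - (E 272)) + (((E 56) - (E 272)) + ((E 56) - (E 272))))) * (E 178))) - (((E 24) * (E 0)) * (((E 84) - (E 83)) * ((E 293) * (((((1 : ℤ) : ℝ) / ((3 : ℕ) : ℝ)) * (((((E 83) - (E 84)) * ((E 83) - (E 84))) + (((E 83) - (E 84)) * ((E 84) - (E 84)))) + (((E 84) - (E 84)) * ((E 84) - (E 84))))) + (((E 84) - ((π + π) - (E 272))) * (((((1 : ℤ) : ℝ) / ((2 : ℕ) : ℝ)) * ((E 83) + (E 84)))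 - (E 84))))))) ∧
    E 363 = (E 340)⁻¹ ∧
    E 364 = (E 346) * (E 363) ∧
    E 365 = (((0 : ℤ) : ℝ) / ((1 : ℕ) : ℝ)) - ((E 364) * (E 338)) ∧
    E 366 = (E 343) - ((E 364) * (E 341)) ∧
    E 367 = (E 345) - ((E 364) * (E 339)) ∧
    E 368 = (E 347) - ((E 364) * (E 342)) ∧
    E 369 = (E 352) * (E 363) ∧
    E 370 = (E 348) - ((E 369) * (E 338)) ∧
    E 371 = (E 349) - ((E 369) * (E 341)) ∧
    E 372 = (E 351) - ((E 369) * (E 339)) ∧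
    E 373 = (E 353) - ((E 369) * (E 342)) ∧ True := h.d21

theorem F22 (h : TbH K E p) :
    E 374 = ((((0 : ℤ) : ℝ) / ((1 : ℕ) : ℝ)) - (E 344))⁻¹ ∧
    E 375 = (E 350) * (E 374) ∧
    E 376 = (E 370) + ((E 375) * (E 365)) ∧
    E 377 = (E 371) + ((E 375) * (E 366)) ∧
    E 378 = (E 372) + ((E 375) * (E 367)) ∧
    E 379 = (E 373) + ((E 375) * (E 368)) ∧
    E 380 = (E 360) * (E 374) ∧
    E 381 = (E 358) + ((E 380) * (E 365)) ∧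
    E 382 = (E 359) + ((E 380) * (E 366)) ∧
    E 383 = (E 361) + ((E 380) * (E 367)) ∧
    E 384 = (E 362) + ((E 380) * (E 368)) ∧
    E 385 = ((((0 : ℤ) : ℝ) / ((1 : ℕ) : ℝ)) - (E 354))⁻¹ ∧
    E 386 = (E 376) * (E 385) ∧
    E 387 = (E 378) + ((E 386) * (E 356)) ∧
    E 388 = (E 377) + ((E 386) * (E 355)) ∧
    E 389 = (E 379) + ((E 386) * (E 357)) ∧ True := h.d22

theorem F23 (h : TbH K E p) :
    E 390 = (E 381) * (E 385) ∧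
    E 391 = (E 383) + ((E 390) * (E 356)) ∧
    E 392 = (E 382) + ((E 390) * (E 355)) ∧
    E 393 = (E 384) + ((E 390) * (E 357)) ∧
    E 394 = ((((0 : ℤ) : ℝ) / ((1 : ℕ) : ℝ)) - (E 387))⁻¹ ∧
    E 395 = (E 391) * (E 394) ∧
    E 396 = (E 392) + ((E 395) * (E 388)) ∧
    E 397 = (E 393) + ((E 395) * (E 389)) ∧
    E 398 = ((((0 : ℤ) : ℝ) / ((1 : ℕ) : ℝ)) - (E 396))⁻¹ ∧
    E 399 = (E 398) * (E 397) ∧
    E 400 = (E 394) * ((E 389) + ((E 388) * (E 399))) ∧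
    E 401 = (E 385) * (((E 357) + ((E 355) * (E 399))) + ((E 356) * (E 400))) ∧
    E 402 = (E 374) * ((((E 368) + ((E 365) * (E 401))) + ((E 366) * (E 399))) + ((E 367) * (E 400))) ∧
    E 403 = (((0 : ℤ) : ℝ) / ((1 : ℕ) : ℝ)) - ((E 363) * ((((E 342) + ((E 338) * (E 401))) + ((E 339) * (E 400))) + ((E 341) * (E 399)))) ∧
    E 404 = (E 43) - (E 41) ∧
    E 405 = (E 41) - (E 38) ∧ True := h.d23

theorem F24 (h : TbH K E p) :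
    E 406 = ((E 38) - (E 37)) + ((E 37) - (E 36)) ∧
    E 407 = (((((((((((1 : ℤ) : ℝ) / ((2 : ℕ) : ℝ)) * (E 185)) + ((E 24) * ((((E 49) - (E 48)) * (((E 49) - (E 48)) * (E 172))) + ((((E 49) - (E 48)) * (((((1 : ℤ) : ℝ) / ((2 : ℕ) : ℝ)) * ((E 48) + (E 49))) - (E 49))) * (E 172))))) + ((E 24) * (((E 49) - (E 48)) * (E 173)))) + ((E 24) * ((((1 : ℤ) : ℝ) / ((2 : ℕ) : ℝ)) * (E 174)))) + (((E 24) * ((E 50) - (E 49))) * (E 324))) + (((E 24) * (((E 50) - (E 49)) * (((((1 : ℤ) : ℝ) / ((2 : ℕ) : ℝ)) * ((E 49) + (E 50))) - (E 50)))) * (E 323))) + (((E 24) * ((E 48) - (E 47))) * (E 336))) + (((E 24) * ((E 47) - (E 46))) * (E 337))) - ((E 24) * ((E 105) - (E 113))) ∧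
    E 408 = ((E 43) - (E 41)) * (((((1 : ℤ) : ℝ) / ((2 : ℕ) : ℝ)) * ((E 41) + (E 43))) - (E 276)) ∧
    E 409 = ((E 41) - (E 38)) * (((((1 : ℤ) : ℝ) / ((2 : ℕ) : ℝ)) * ((E 38) + (E 41))) - (E 276)) ∧
    E 410 = (((E 38) - (E 37)) * (((((1 : ℤ) : ℝ) / ((2 : ℕ) : ℝ)) * ((E 37) + (E 38))) - (E 276))) + (((E 37) - (E 36)) * (((((1 : ℤ) : ℝ) / ((2 : ℕ) : ℝ)) * ((E 36) + (E 37))) - (E 276))) ∧
    E 411 = (((((((((((((((((((((((E 84) - (E 83)) * (((((1 : ℤ) : ℝ) / ((2 : ℕ) : ℝ)) * ((E 83) + (E 84))) - (E 274))) * (E 400)) + ((((E 83) - (E 82)) * (((((1 : ℤ) : ℝ) / ((2 : ℕ) : ℝ)) * ((E 82) + (E 83))) - (E 274))) * (E 400))) + ((((E 83) - (E 82)) * (((((1 : ℤ) : ℝ) / ((3 : ℕ) : ℝ)) * (((((E 82) - (E 83)) * ((E 82) - (E 83))) + (((E 82) - (E 83)) * ((E 83) - (E 83)))) + (((E 83) - (E 83)) * ((E 83) - (E 83)))))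 + (((E 83) - (E 274)) * (((((1 : ℤ) : ℝ) / ((2 : ℕ) : ℝ)) * ((E 82) + (E 83))) - (E 83))))) * (E 403))) + ((E 24) * (((E 112) - (E 104)) + ((((E 46) - (E 275)) * (E 105)) - (((E 50) - (E 275)) * (E 113)))))) + ((E 24) * (((E 112) - (E 104)) + ((((E 46) - (E 275)) * (E 105)) - (((E 50) - (E 275)) * (E 113)))))) - (((((1 : ℤ) : ℝ) / ((6 : ℕ) : ℝ)) * ((((E 47) - (E 275)) + ((E 47) - (E 275))) + ((E 50) - (E 275)))) * (E 185))) - ((E 24) * (((((E 49) - (E 48)) * (((((1 : ℤ) : ℝ) / ((2 : ℕ) : ℝ)) * ((E 48) + (E 49))) - (E 275))) * (((E 49) - (E 48)) * (E 172))) + ((((E 49) - (E 48)) * (((((1 : ℤ) : ℝ) / ((3 : ℕ) : ℝ)) * (((((E 48) - (E 49)) * ((E 48) - (E 49))) + (((E 48) - (E 49)) * ((E 49) - (E 49)))) + (((E 49) - (E 49)) * ((E 49) - (E 49))))) + (((E 49) - (E 275)) * (((((1 : ℤ) : ℝ) / ((2 : ℕ) : ℝ)) *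 ((E 48) + (E 49))) - (E 49))))) * (E 172))))) - ((E 24) * ((((E 49) - (E 48)) * (((((1 : ℤ) : ℝ) / ((2 : ℕ) : ℝ)) * ((E 48) + (E 49))) - (E 275))) * (E 173)))) - ((E 24) * (((((1 : ℤ) : ℝ) / ((6 : ℕ) : ℝ)) * ((((E 46) - (E 275)) + ((E 46) - (E 275))) + ((E 49) - (E 275)))) * (E 174)))) - (((((1 : ℤ) : ℝ) / ((6 : ℕ) : ℝ)) * ((((E 47) - (E 275)) + ((E 47) - (E 275))) + ((E 50) - (E 275)))) * (E 185))) - ((E 24) * (((((E 49) - (E 48)) * (((((1 : ℤ) : ℝ) / ((2 : ℕ) : ℝ)) * ((E 48) + (E 49))) - (E 275))) * (((E 49) - (E 48)) * (E 172))) + ((((E 49) - (E 48)) * (((((1 : ℤ) : ℝ) / ((3 : ℕ) : ℝ)) * (((((E 48) - (E 49)) * ((E 48) - (E 49))) + (((E 48) - (E 49)) * ((E 49) - (E 49)))) + (((E 49) - (E 49)) * ((E 49) - (E 49))))) + (((E 49) - (E 275)) * (((((1 : ℤ) : ℝ) / ((2 : ℕ) : ℝ)) * ((E 48) + (E 49))) - (E 49)))))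 * (E 172))))) - ((E 24) * ((((E 49) - (E 48)) * (((((1 : ℤ) : ℝ) / ((2 : ℕ) : ℝ)) * ((E 48) + (E 49))) - (E 275))) * (E 173)))) - ((E 24) * (((((1 : ℤ) : ℝ) / ((6 : ℕ) : ℝ)) * ((((E 46) - (E 275)) + ((E 46) - (E 275))) + ((E 49) - (E 275)))) * (E 174)))) - (((E 24) * (((E 50) - (E 49)) * (((((1 : ℤ) : ℝ) / ((2 : ℕ) : ℝ)) * ((E 49) + (E 50))) - (E 275)))) * (E 324))) - (((E 24) * (((E 50) - (E 49)) * (((((1 : ℤ) : ℝ) / ((2 : ℕ) : ℝ)) * ((E 49) + (E 50))) - (E 275)))) * (E 324))) - (((E 24) * (((E 50) - (E 49)) * (((((1 : ℤ) : ℝ) / ((3 : ℕ) : ℝ)) * (((((E 49) - (E 50)) * ((E 49) - (E 50))) + (((E 49) - (E 50)) * ((E 50) - (E 50)))) + (((E 50) - (E 50)) * ((E 50) - (E 50))))) + (((E 50) - (E 275)) * (((((1 : ℤ) : ℝ) / ((2 : ℕ) : ℝ)) * ((E 49) + (E 50))) - (E 50)))))) * (E 323))) - (((E 24) * (((E 50) - (E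 49)) * (((((1 : ℤ) : ℝ) / ((3 : ℕ) : ℝ)) * (((((E 49) - (E 50)) * ((E 49) - (E 50))) + (((E 49) - (E 50)) * ((E 50) - (E 50)))) + (((E 50) - (E 50)) * ((E 50) - (E 50))))) + (((E 50) - (E 275)) * (((((1 : ℤ) : ℝ) / ((2 : ℕ) : ℝ)) * ((E 49) + (E 50))) - (E 50)))))) * (E 323))) - (((E 24) * (((E 48) - (E 47)) * (((((1 : ℤ) : ℝ) / ((2 : ℕ) : ℝ)) * ((E 47) + (E 48))) - (E 275)))) * (E 336))) - (((E 24) * (((E 48) - (E 47)) * (((((1 : ℤ) : ℝ) / ((2 : ℕ) : ℝ)) * ((E 47) + (E 48))) - (E 275)))) * (E 336))) - (((E 24) * (((E 47) - (E 46)) * (((((1 : ℤ) : ℝ) / ((2 : ℕ) : ℝ)) * ((E 46) + (E 47))) - (E 275)))) * (E 337))) - (((E 24) * (((E 47) - (E 46)) * (((((1 : ℤ) : ℝ) / ((2 : ℕ) : ℝ)) * ((E 46) + (E 47))) - (E 275)))) * (E 337)) ∧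
    E 412 = (((0 : ℤ) : ℝ) / ((1 : ℕ) : ℝ)) - ((E 43) - (E 41)) ∧
    E 413 = (((0 : ℤ) : ℝ) / ((1 : ℕ) : ℝ)) - ((E 41) - (E 38)) ∧
    E 414 = (((((((((((((((((((((((((((((((((((((((((((((((((((((1 : ℤ) : ℝ) / ((1 : ℕ) : ℝ)) * ((E 89) - (E 101))) + (((E 65) - (E 59)) * ((E 303) * (((((1 : ℤ) : ℝ) / ((2 : ℕ) : ℝ)) * ((E 59) + (E 65))) - (E 59))))) + (((E 65) - (E 61)) * ((E 297) * (((((1 : ℤ) : ℝ) / ((2 : ℕ) : ℝ)) * ((E 61) + (E 65))) - (E 68))))) + (((E 65) - (E 62)) * ((E 299) * (((((1 : ℤ) : ℝ) / ((2 : ℕ) : ℝ)) * ((E 62) + (E 65))) - (E 68))))) + (((E 65) - (E 62)) * ((E 305) * (((((1 : ℤ) : ℝ) / ((2 : ℕ) : ℝ)) * ((E 62) + (E 65))) - (E 66))))) + (((E 65) - (E 64)) * (((E 252) * (E 254)) + ((E 307) * (((((1 : ℤ) : ℝ) / ((2 : ℕ) : ℝ)) * ((E 64) + (E 65))) - (E 64)))))) + (((E 65) - (E 63)) * ((E 301)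 * (((((1 : ℤ) : ℝ) / ((2 : ℕ) : ℝ)) * ((E 63) + (E 65))) - (E 67))))) + ((((1 : ℤ) : ℝ) / ((2 : ℕ) : ℝ)) * (E 236))) + ((((1 : ℤ) : ℝ) / ((2 : ℕ) : ℝ)) * (E 238))) + ((((1 : ℤ) : ℝ) / ((2 : ℕ) : ℝ)) * ((E 247) + (E 248)))) + ((((1 : ℤ) : ℝ) / ((2 : ℕ) : ℝ)) * (E 205))) + ((((1 : ℤ) : ℝ) / ((2 : ℕ) : ℝ)) * (E 228))) + ((((1 : ℤ) : ℝ) / ((2 : ℕ) : ℝ)) * ((E 231) + (E 232)))) + ((((1 : ℤ) : ℝ) / ((2 : ℕ) : ℝ)) * (E 243))) + ((((1 : ℤ) : ℝ) / ((2 : ℕ) : ℝ)) * ((E 202) + (E 203)))) + ((((1 : ℤ) : ℝ) / ((2 : ℕ) : ℝ)) * (E 212))) + ((((1 : ℤ) : ℝ) / ((2 : ℕ) : ℝ)) * ((E 215) + (E 216)))) + ((((1 : ℤ) : ℝ) / ((2 : ℕ) : ℝ)) * (E 222))) + ((((1 : ℤ) : ℝ) / ((2 : ℕ) : ℝ)) * (E 224))) + ((((1 : ℤ) : ℝ) / ((2 : ℕ) : ℝ)) * (E 226))) + ((((1 : ℤ) : ℝ) / ((2 : ℕ) : ℝ)) * (E 197))) + ((((1 : ℤ) : ℝ) / ((2 : ℕ) : ℝ)) *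 (E 200))) + ((((1 : ℤ) : ℝ) / ((2 : ℕ) : ℝ)) * (E 208))) + ((((1 : ℤ) : ℝ) / ((2 : ℕ) : ℝ)) * ((E 193) + (E 194)))) + ((((1 : ℤ) : ℝ) / ((2 : ℕ) : ℝ)) * (E 189))) - ((((1 : ℤ) : ℝ) / ((2 : ℕ) : ℝ)) * (E 189))) - ((((1 : ℤ) : ℝ) / ((2 : ℕ) : ℝ)) * ((E 194) + (E 193)))) - ((((1 : ℤ) : ℝ) / ((2 : ℕ) : ℝ)) * (E 197))) - ((((1 : ℤ) : ℝ) / ((2 : ℕ) : ℝ)) * (E 200))) - ((((1 : ℤ) : ℝ) / ((2 : ℕ) : ℝ)) * ((E 203) + (E 202)))) - ((((1 : ℤ) : ℝ) / ((2 : ℕ) : ℝ)) * (E 205))) - (((E 43) - (E 38)) * ((E 295) * (((((1 : ℤ) : ℝ) / ((2 : ℕ) : ℝ)) * ((E 38) + (E 43))) - (E 36))))) - ((((1 : ℤ) : ℝ) / ((2 : ℕ) : ℝ)) * (E 208))) - ((((1 : ℤ) : ℝ) / ((2 : ℕ) : ℝ)) * (E 212))) - ((((1 : ℤ) : ℝ) / ((2 : ℕ) : ℝ)) * (E 224))) - ((((1 : ℤ) : ℝ) / ((2 : ℕ) : ℝ)) * ((E 232) + (E 231)))) - ((((1 : ℤ) : ℝ) / ((2 : ℕ) : ℝ)) * (E 236)))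 - ((((1 : ℤ) : ℝ) / ((2 : ℕ) : ℝ)) * ((E 216) + (E 215)))) - ((((1 : ℤ) : ℝ) / ((2 : ℕ) : ℝ)) * (E 219))) - ((((1 : ℤ) : ℝ) / ((2 : ℕ) : ℝ)) * (E 222))) - ((((1 : ℤ) : ℝ) / ((2 : ℕ) : ℝ)) * (E 226))) - ((((1 : ℤ) : ℝ) / ((2 : ℕ) : ℝ)) * (E 238))) - ((((1 : ℤ) : ℝ) / ((2 : ℕ) : ℝ)) * (E 243))) - ((((1 : ℤ) : ℝ) / ((2 : ℕ) : ℝ)) * (E 228))) - ((((1 : ℤ) : ℝ) / ((2 : ℕ) : ℝ)) * (E 240))) - ((((1 : ℤ) : ℝ) / ((2 : ℕ) : ℝ)) * ((E 248) + (E 247)))) - ((((1 : ℤ) : ℝ) / ((2 : ℕ) : ℝ)) * (E 250))) - ((((1 : ℤ) : ℝ) / ((2 : ℕ) : ℝ)) * (E 244))) - ((((1 : ℤ) : ℝ) / ((2 : ℕ) : ℝ)) * ((E 253) + (E 252)))) - ((((1 : ℤ) : ℝ) / ((2 : ℕ) : ℝ)) * (E 255))) - ((E 24) * ((E 127) - (E 143))) ∧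
    E 415 = (E 406)⁻¹ ∧
    E 416 = (E 410) * (E 415) ∧
    E 417 = (E 408) - ((E 416) * (E 404)) ∧
    E 418 = (E 409) - ((E 416) * (E 405)) ∧
    E 419 = (E 411) - ((E 416) * (E 407)) ∧
    E 420 = ((((0 : ℤ) : ℝ) / ((1 : ℕ) : ℝ)) - (E 412))⁻¹ ∧
    E 421 = (E 417) * (E 420) ∧ True := h.d24

theorem F25 (h : TbH K E p) :
    E 422 = (E 418) + ((E 421) * (E 413)) ∧
    E 423 = (E 419) + ((E 421) * (E 414)) ∧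
    E 424 = ((((0 : ℤ) : ℝ) / ((1 : ℕ) : ℝ)) - (E 422))⁻¹ ∧
    E 425 = (E 424) * (E 423) ∧
    E 426 = (E 420) * ((E 414) + ((E 413) * (E 425))) ∧
    E 427 = (((0 : ℤ) : ℝ) / ((1 : ℕ) : ℝ)) - ((E 415) * (((E 407) + ((E 404) * (E 426))) + ((E 405) * (E 425)))) ∧
    E 428 = ((E 37) - (E 36)) + ((E 37) - (E 36)) ∧
    E 429 = ((((((((((((((1 : ℤ) : ℝ) / ((1 : ℕ) : ℝ)) * ((E 87) - (E 89))) + (((E 37) - (E 36)) * ((E 295) * (((((1 : ℤ) : ℝ) / ((2 : ℕ) : ℝ)) * ((E 36) + (E 37))) - (E 36))))) + (((E 68) - (E 65)) * ((E 297) * (((((1 : ℤ) : ℝ) / ((2 : ℕ) : ℝ)) * ((E 65) + (E 68))) - (E 68))))) + (((E 68) - (E 65)) * ((E 299) * (((((1 : ℤ) : ℝ) / ((2 : ℕ) : ℝ)) * ((E 65) + (E 68))) - (E 68))))) + (((E 67) - (E 65)) * ((E 301) * (((((1 : ℤ) : ℝ) / ((2 : ℕ) : ℝ)) * ((E 65) + (E 67))) - (E 67))))) + (((E 66) -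 (E 65)) * ((E 303) * (((((1 : ℤ) : ℝ) / ((2 : ℕ) : ℝ)) * ((E 65) + (E 66))) - (E 59))))) + (((E 66) - (E 65)) * ((E 305) * (((((1 : ℤ) : ℝ) / ((2 : ℕ) : ℝ)) * ((E 65) + (E 66))) - (E 66))))) + (((E 66) - (E 65)) * (((E 253) * (E 254)) + ((E 307) * (((((1 : ℤ) : ℝ) / ((2 : ℕ) : ℝ)) * ((E 65) + (E 66))) - (E 66)))))) + (((E 37) - (E 36)) * (E 427))) - (((E 38) - (E 37)) * ((E 295) * (((((1 : ℤ) : ℝ) / ((2 : ℕ) : ℝ)) * ((E 37) + (E 38))) - (E 36))))) - ((E 24) * ((E 143) - (E 149)))) - (((E 38) - (E 37)) * (E 427)) ∧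
    E 430 = (E 428)⁻¹ ∧
    E 431 = (((0 : ℤ) : ℝ) / ((1 : ℕ) : ℝ)) - ((E 430) * (E 429)) ∧
    E 432 = (E 72) - (E 71) ∧
    E 433 = (((E 71) - (E 70)) * ((E 71) - (E 70))) + (((E 71) - (E 70)) * (((((1 : ℤ) : ℝ) / ((2 : ℕ) : ℝ)) * ((E 70) + (E 71))) - (E 71))) ∧
    E 434 = ((((((((E 68) - (E 65)) * ((E 297) * (((((1 : ℤ) : ℝ) / ((2 : ℕ) : ℝ)) * ((E 65) + (E 68))) - (E 68)))) + (((E 68) - (E 65)) * ((E 299) * (((((1 : ℤ) : ℝ) / ((2 : ℕ) : ℝ)) * ((E 65) + (E 68))) - (E 68))))) + (((E 67) - (E 65)) * ((E 301) * (((((1 : ℤ) : ℝ) / ((2 : ℕ) : ℝ)) * ((E 65) + (E 67))) - (E 67))))) + (((E 66) - (E 65)) * ((E 303) * (((((1 : ℤ) : ℝ) / ((2 : ℕ) : ℝ)) * ((E 65) + (E 66))) - (E 59))))) + (((E 66) - (E 65)) * ((E 305) * (((((1 : ℤ) : ℝ) / ((2 : ℕ) : ℝ)) * ((E 65) + (E 66))) - (E 66))))) + (((E 66) - (E 65)) *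 (((E 253) * (E 254)) + ((E 307) * (((((1 : ℤ) : ℝ) / ((2 : ℕ) : ℝ)) * ((E 65) + (E 66))) - (E 66)))))) - ((E 24) * ((E 143) - (E 149))) ∧
    E 435 = ((E 72) - (E 71)) * (((((1 : ℤ) : ℝ) / ((2 : ℕ) : ℝ)) * ((E 71) + (E 72))) - (E 277)) ∧
    E 436 = ((((E 71) - (E 70)) * (((((1 : ℤ) : ℝ) / ((2 : ℕ) : ℝ)) * ((E 70) + (E 71))) - (E 277))) * ((E 71) - (E 70))) + (((E 71) - (E 70)) * (((((1 : ℤ) : ℝ) / ((3 : ℕ) : ℝ)) * (((((E 70) - (E 71)) * ((E 70) - (E 71))) + (((E 70) - (E 71)) * ((E 71) - (E 71)))) + (((E 71) - (E 71)) * ((E 71) - (E 71))))) + (((E 71) - (E 277)) * (((((1 : ℤ) : ℝ) / ((2 : ℕ) : ℝ)) * ((E 70) + (E 71))) - (E 71))))) ∧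
    E 437 = (((((((((((((((((((((((E 37) - (E 36)) * (((((1 : ℤ) : ℝ) / ((2 : ℕ) : ℝ)) * ((E 36) + (E 37))) - (E 279))) * (E 431)) + ((((1 : ℤ) : ℝ) / ((1 : ℕ) : ℝ)) * (((E 88) - (E 86)) + ((((E 37) - (E 279)) * (E 87)) - (((E 38) - (E 279)) * (E 89)))))) + ((E 24) * (((E 148) - (E 142)) + ((((E 65) - (E 278)) * (E 143)) - (((E 68) - (E 278)) * (E 149)))))) + ((E 24) * (((E 148) - (E 142)) + ((((E 65) - (E 278)) * (E 143)) - (((E 68) - (E 278)) * (E 149)))))) - ((((E 37) - (E 36)) * (((((1 : ℤ) : ℝ) / ((2 : ℕ) : ℝ)) * ((E 36) + (E 37))) - ((((0 : ℤ) : ℝ) / ((1 : ℕ) : ℝ)) - (E 279)))) * (E 431))) - (((E 37) - (E 36)) * ((E 295) * (((((1 : ℤ) : ℝ) / ((3 : ℕ) : ℝ)) * (((((E 36) - (E 36)) * ((E 36) - (E 36))) + (((E 36) - (E 36)) * ((E 37) - (E 36)))) + (((E 37) - (E 36)) * ((E 37) - (E 36))))) + (((E 36)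 - ((((0 : ℤ) : ℝ) / ((1 : ℕ) : ℝ)) - (E 279))) * (((((1 : ℤ) : ℝ) / ((2 : ℕ) : ℝ)) * ((E 36) + (E 37))) - (E 36))))))) - (((E 38) - (E 37)) * ((E 295) * (((((1 : ℤ) : ℝ) / ((3 : ℕ) : ℝ)) * (((((E 37) - (E 36)) * ((E 37) - (E 36))) + (((E 37) - (E 36)) * ((E 38) - (E 36)))) + (((E 38) - (E 36)) * ((E 38) - (E 36))))) + (((E 36) - (E 279)) * (((((1 : ℤ) : ℝ) / ((2 : ℕ) : ℝ)) * ((E 37) + (E 38))) - (E 36))))))) - (((E 68) - (E 65)) * ((E 297) * (((((1 : ℤ) : ℝ) / ((3 : ℕ) : ℝ)) * (((((E 65) - (E 68)) * ((E 65) - (E 68))) + (((E 65) - (E 68)) * ((E 68) - (E 68)))) + (((E 68) - (E 68)) * ((E 68) - (E 68))))) + (((E 68) - (E 278)) * (((((1 : ℤ) : ℝ) / ((2 : ℕ) : ℝ)) * ((E 65) + (E 68))) - (E 68))))))) - (((E 68) - (E 65)) * ((E 299) * (((((1 : ℤ) : ℝ) / ((3 : ℕ) : ℝ)) * (((((E 65) - (E 68)) * ((E 65) - (E 68)))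 + (((E 65) - (E 68)) * ((E 68) - (E 68)))) + (((E 68) - (E 68)) * ((E 68) - (E 68))))) + (((E 68) - (E 278)) * (((((1 : ℤ) : ℝ) / ((2 : ℕ) : ℝ)) * ((E 65) + (E 68))) - (E 68))))))) - (((E 67) - (E 65)) * ((E 301) * (((((1 : ℤ) : ℝ) / ((3 : ℕ) : ℝ)) * (((((E 65) - (E 67)) * ((E 65) - (E 67))) + (((E 65) - (E 67)) * ((E 67) - (E 67)))) + (((E 67) - (E 67)) * ((E 67) - (E 67))))) + (((E 67) - (E 278)) * (((((1 : ℤ) : ℝ) / ((2 : ℕ) : ℝ)) * ((E 65) + (E 67))) - (E 67))))))) - (((E 66) - (E 65)) * ((E 303) * (((((1 : ℤ) : ℝ) / ((3 : ℕ) : ℝ)) * (((((E 65) - (E 59)) * ((E 65) - (E 59))) + (((E 65) - (E 59)) * ((E 66) - (E 59)))) + (((E 66) - (E 59)) * ((E 66) - (E 59))))) + (((E 59) - (E 278)) * (((((1 : ℤ) : ℝ) / ((2 : ℕ) : ℝ)) * ((E 65) + (E 66))) - (E 59))))))) - (((E 66) - (E 65)) * ((E 305) * (((((1 : ℤ)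 : ℝ) / ((3 : ℕ) : ℝ)) * (((((E 65) - (E 66)) * ((E 65) - (E 66))) + (((E 65) - (E 66)) * ((E 66) - (E 66)))) + (((E 66) - (E 66)) * ((E 66) - (E 66))))) + (((E 66) - (E 278)) * (((((1 : ℤ) : ℝ) / ((2 : ℕ) : ℝ)) * ((E 65) + (E 66))) - (E 66))))))) - (((E 66) - (E 65)) * ((((E 253) * (E 254)) * (((((1 : ℤ) : ℝ) / ((2 : ℕ) : ℝ)) * ((E 65) + (E 66))) - (E 278))) + ((E 307) * (((((1 : ℤ) : ℝ) / ((3 : ℕ) : ℝ)) * (((((E 65) - (E 66)) * ((E 65) - (E 66))) + (((E 65) - (E 66)) * ((E 66) - (E 66)))) + (((E 66) - (E 66)) * ((E 66) - (E 66))))) + (((E 66) - (E 278)) * (((((1 : ℤ) : ℝ) / ((2 : ℕ) : ℝ)) * ((E 65) + (E 66))) - (E 66)))))))) - (((E 68) - (E 65)) * ((E 297) * (((((1 : ℤ) : ℝ) / ((3 : ℕ) : ℝ)) * (((((E 65) - (E 68)) * ((E 65) - (E 68))) + (((E 65) - (E 68)) * ((E 68) - (E 68)))) + (((E 68) - (E 68)) *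 ((E 68) - (E 68))))) + (((E 68) - (E 278)) * (((((1 : ℤ) : ℝ) / ((2 : ℕ) : ℝ)) * ((E 65) + (E 68))) - (E 68))))))) - (((E 68) - (E 65)) * ((E 299) * (((((1 : ℤ) : ℝ) / ((3 : ℕ) : ℝ)) * (((((E 65) - (E 68)) * ((E 65) - (E 68))) + (((E 65) - (E 68)) * ((E 68) - (E 68)))) + (((E 68) - (E 68)) * ((E 68) - (E 68))))) + (((E 68) - (E 278)) * (((((1 : ℤ) : ℝ) / ((2 : ℕ) : ℝ)) * ((E 65) + (E 68))) - (E 68))))))) - (((E 67) - (E 65)) * ((E 301) * (((((1 : ℤ) : ℝ) / ((3 : ℕ) : ℝ)) * (((((E 65) - (E 67)) * ((E 65) - (E 67))) + (((E 65) - (E 67)) * ((E 67) - (E 67)))) + (((E 67) - (E 67)) * ((E 67) - (E 67))))) + (((E 67) - (E 278)) * (((((1 : ℤ) : ℝ) / ((2 : ℕ) : ℝ)) * ((E 65) + (E 67))) - (E 67))))))) - (((E 66) - (E 65)) * ((E 303) * (((((1 : ℤ) : ℝ) / ((3 : ℕ) : ℝ)) * (((((E 65) - (E 59)) * ((E 65) - (E 59)))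 + (((E 65) - (E 59)) * ((E 66) - (E 59)))) + (((E 66) - (E 59)) * ((E 66) - (E 59))))) + (((E 59) - (E 278)) * (((((1 : ℤ) : ℝ) / ((2 : ℕ) : ℝ)) * ((E 65) + (E 66))) - (E 59))))))) - (((E 66) - (E 65)) * ((E 305) * (((((1 : ℤ) : ℝ) / ((3 : ℕ) : ℝ)) * (((((E 65) - (E 66)) * ((E 65) - (E 66))) + (((E 65) - (E 66)) * ((E 66) - (E 66)))) + (((E 66) - (E 66)) * ((E 66) - (E 66))))) + (((E 66) - (E 278)) * (((((1 : ℤ) : ℝ) / ((2 : ℕ) : ℝ)) * ((E 65) + (E 66))) - (E 66))))))) - (((E 66) - (E 65)) * ((((E 253) * (E 254)) * (((((1 : ℤ) : ℝ) / ((2 : ℕ) : ℝ)) * ((E 65) + (E 66))) - (E 278))) + ((E 307) * (((((1 : ℤ) : ℝ) / ((3 : ℕ) : ℝ)) * (((((E 65) - (E 66)) * ((E 65) - (E 66))) + (((E 65) - (E 66)) * ((E 66) - (E 66)))) + (((E 66) - (E 66)) * ((E 66) - (E 66))))) + (((E 66) - (E 278)) * (((((1 : ℤ) : ℝ) / ((2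 : ℕ) : ℝ)) * ((E 65) + (E 66))) - (E 66)))))))) - ((((E 38) - (E 37)) * (((((1 : ℤ) : ℝ) / ((2 : ℕ) : ℝ)) * ((E 37) + (E 38))) - (E 279))) * (E 427))) - ((((E 37) - (E 36)) * (((((1 : ℤ) : ℝ) / ((2 : ℕ) : ℝ)) * ((E 36) + (E 37))) - ((((0 : ℤ) : ℝ) / ((1 : ℕ) : ℝ)) - (E 279)))) * (E 427)) ∧ True := h.d25

theorem F26 (h : TbH K E p) :
    E 438 = (E 432)⁻¹ ∧
    E 439 = (E 435) * (E 438) ∧
    E 440 = (E 436) - ((E 439) * (E 433)) ∧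
    E 441 = (E 437) - ((E 439) * (E 434)) ∧
    E 442 = ((((0 : ℤ) : ℝ) / ((1 : ℕ) : ℝ)) - (E 440))⁻¹ ∧
    E 443 = (E 442) * (E 441) ∧
    E 444 = (((0 : ℤ) : ℝ) / ((1 : ℕ) : ℝ)) - ((E 438) * ((E 434) + ((E 433) * (E 443)))) ∧
    E 445 = (E 51) - (E 50) ∧
    E 446 = ((1 : ℤ) : ℝ) / ((2 : ℕ) : ℝ) ∧
    E 447 = (((0 : ℤ) : ℝ) / ((1 : ℕ) : ℝ)) - ((E 24) * ((E 117) - (E 119))) ∧
    E 448 = (((1 : ℤ) : ℝ) / ((2 : ℕ) : ℝ)) - (((1 : ℤ) : ℝ) / ((2 : ℕ) : ℝ)) ∧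
    E 449 = (((0 : ℤ) : ℝ) / ((1 : ℕ) : ℝ)) - ((E 78) - (E 77)) ∧
    E 450 = ((E 23) * ((E 165) - (E 169))) - ((E 24) * ((E 117) - (E 119))) ∧
    E 451 = ((E 51) - (E 50)) * (((((1 : ℤ) : ℝ) / ((2 : ℕ) : ℝ)) * ((E 50) + (E 51))) - (E 285)) ∧
    E 452 = (((((0 : ℤ) : ℝ) / ((1 : ℕ) : ℝ)) - ((((1 : ℤ) : ℝ) / ((6 : ℕ) : ℝ)) * ((((E 76) - (E 283)) + ((E 76) - (E 283))) + ((E 77) - (E 283))))) - ((((1 : ℤ) : ℝ) / ((6 : ℕ) : ℝ)) * (((E 52) - (E 284)) + (((E 53) - (E 284)) + ((E 53) - (E 284)))))) - ((((1 : ℤ) : ℝ) / ((6 : ℕ) : ℝ)) * (((E 52) - (E 284)) + (((E 53) - (E 284)) + ((E 53) - (E 284))))) ∧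
    E 453 = (((0 : ℤ) : ℝ) / ((1 : ℕ) : ℝ)) - (((E 78) - (E 77)) * (((((1 : ℤ) : ℝ) / ((2 : ℕ) : ℝ)) * ((E 77) + (E 78))) - (E 283))) ∧ True := h.d26

theorem F27 (h : TbH K E p) :
    E 454 = (((E 23) * (((E 168) - (E 164)) + ((((E 76) - (E 283)) * (E 165)) - (((E 78) - (E 283)) * (E 169))))) + ((E 24) * (((E 118) - (E 116)) + ((((E 52) - (E 284)) * (E 117)) - (((E 53) - (E 284)) * (E 119)))))) + ((E 24) * (((E 118) - (E 116)) + ((((E 52) - (E 284)) * (E 117)) - (((E 53) - (E 284)) * (E 119))))) ∧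
    E 455 = (E 51) - (E 50) ∧
    E 456 = (((0 : ℤ) : ℝ) / ((1 : ℕ) : ℝ)) - ((E 52) - (E 51)) ∧
    E 457 = ((0 : ℤ) : ℝ) / ((1 : ℕ) : ℝ) ∧
    E 458 = ((E 80) - (E 79)) + ((E 80) - (E 79)) ∧
    E 459 = ((E 80) - (E 79)) - ((E 79) - (E 78)) ∧
    E 460 = (((0 : ℤ) : ℝ) / ((1 : ℕ) : ℝ)) - ((E 52) - (E 51)) ∧
    E 461 = (E 23) * ((E 169) - (E 171)) ∧
    E 462 = ((E 51) - (E 50)) * (((((1 : ℤ) : ℝ) / ((2 : ℕ) : ℝ)) * ((E 50) + (E 51))) - (E 288)) ∧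
    E 463 = (((E 80) - (E 79)) * (((((1 : ℤ) : ℝ) / ((2 : ℕ) : ℝ)) * ((E 79) + (E 80))) - (E 286))) - (((E 80) - (E 79)) * (((((1 : ℤ) : ℝ) / ((2 : ℕ) : ℝ)) * ((E 79) + (E 80))) - ((π + π) - (E 286)))) ∧
    E 464 = ((((0 : ℤ) : ℝ) / ((1 : ℕ) : ℝ)) - (((E 80) - (E 79)) * (((((1 : ℤ) : ℝ) / ((2 : ℕ) : ℝ)) * ((E 79) + (E 80))) - ((π + π) - (E 286))))) - (((E 79) - (E 78)) * (((((1 : ℤ) : ℝ) / ((2 : ℕ) : ℝ)) * ((E 78) + (E 79))) - (E 286))) ∧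
    E 465 = (((E 52) - (E 51)) * (((((1 : ℤ) : ℝ) / ((2 : ℕ) : ℝ)) * ((E 51) + (E 52))) - (E 287))) + (((E 52) - (E 51)) * (((((1 : ℤ) : ℝ) / ((2 : ℕ) : ℝ)) * ((E 51) + (E 52))) - (E 287))) ∧
    E 466 = (E 23) * (((E 170) - (E 168)) + ((((E 78) - (E 286)) * (E 169)) - (((E 79) - (E 286)) * (E 171)))) ∧
    E 467 = ((E 80) - (E 79)) + ((E 79) - (E 78)) ∧
    E 468 = (E 78) - (E 77) ∧
    E 469 = (E 52) - (E 51) ∧ True := h.d27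

theorem F28 (h : TbH K E p) :
    E 470 = (((0 : ℤ) : ℝ) / ((1 : ℕ) : ℝ)) - ((E 24) * ((E 115) - (E 117))) ∧
    E 471 = (E 445)⁻¹ ∧
    E 472 = (E 451) * (E 471) ∧
    E 473 = (E 452) - ((E 472) * (E 446)) ∧
    E 474 = (E 454) - ((E 472) * (E 447)) ∧
    E 475 = ((((0 : ℤ) : ℝ) / ((1 : ℕ) : ℝ)) - (E 473))⁻¹ ∧
    E 476 = (E 448) * (E 475) ∧
    E 477 = (E 449) + ((E 476) * (E 453)) ∧
    E 478 = (E 450) + ((E 476) * (E 474)) ∧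
    E 479 = ((((0 : ℤ) : ℝ) / ((1 : ℕ) : ℝ)) - (E 477))⁻¹ ∧
    E 480 = (E 468) * (E 479) ∧
    E 481 = (E 470) + ((E 480) * (E 478)) ∧
    E 482 = (E 455)⁻¹ ∧
    E 483 = (E 462) * (E 482) ∧
    E 484 = (E 465) - ((E 483) * (E 456)) ∧
    E 485 = (E 466) - ((E 483) * (E 457)) ∧ True := h.d28

theorem F29 (h : TbH K E p) :
    E 486 = (E 458)⁻¹ ∧
    E 487 = (E 463) * (E 486) ∧
    E 488 = (E 484) - ((E 487) * (E 460)) ∧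
    E 489 = (E 464) - ((E 487) * (E 459)) ∧
    E 490 = (E 485) - ((E 487) * (E 461)) ∧
    E 491 = (E 467)⁻¹ ∧
    E 492 = (E 489) * (E 491) ∧
    E 493 = (E 488) - ((E 492) * (E 469)) ∧
    E 494 = (E 490) - ((E 492) * (E 481)) ∧
    E 495 = (E 493)⁻¹ ∧
    E 496 = (((0 : ℤ) : ℝ) / ((1 : ℕ) : ℝ)) - ((E 495) * (E 494)) ∧
    E 497 = (((0 : ℤ) : ℝ) / ((1 : ℕ) : ℝ)) - ((E 491) * ((E 481) + ((E 469) * (E 496)))) ∧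
    E 498 = (((0 : ℤ) : ℝ) / ((1 : ℕ) : ℝ)) - ((E 486) * (((E 461) + ((E 459) * (E 497))) + ((E 460) * (E 496)))) ∧
    E 499 = (((0 : ℤ) : ℝ) / ((1 : ℕ) : ℝ)) - ((E 482) * ((E 457) + ((E 456) * (E 496)))) ∧
    E 500 = (E 479) * (E 478) ∧
    E 501 = (E 475) * ((E 474) + ((E 453) * (E 500))) ∧ True := h.d29

theorem F30 (h : TbH K E p) :
    E 502 = (((0 : ℤ) : ℝ) / ((1 : ℕ) : ℝ)) - ((E 471) * ((E 447) + ((E 446) * (E 501)))) ∧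
    E 503 = (E 175) * (E 175) ∧
    E 504 = (((0 : ℤ) : ℝ) / ((1 : ℕ) : ℝ)) - ((E 174) * ((E 175) * (E 175))) ∧
    E 505 = (E 176) * (E 176) ∧
    E 506 = (((0 : ℤ) : ℝ) / ((1 : ℕ) : ℝ)) - ((E 174) * ((E 176) * (E 176))) ∧
    E 507 = (E 177) * (E 177) ∧
    E 508 = (E 174) * ((E 177) * (E 177)) ∧
    E 509 = (E 179) * (E 179) ∧
    E 510 = (((0 : ℤ) : ℝ) / ((1 : ℕ) : ℝ)) - ((E 178) * ((E 179) * (E 179))) ∧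
    E 511 = (E 180) * (E 180) ∧
    E 512 = (((0 : ℤ) : ℝ) / ((1 : ℕ) : ℝ)) - ((E 178) * ((E 180) * (E 180))) ∧
    E 513 = (E 181) * (E 181) ∧
    E 514 = (E 178) * ((E 181) * (E 181)) ∧
    E 515 = (E 182) * (E 182) ∧
    E 516 = (E 399) * ((E 182) * (E 182)) ∧
    E 517 = (E 183) * (E 183) ∧ True := h.d30

theorem F31 (h : TbH K E p) :
    E 518 = (E 399) * ((E 183) * (E 183)) ∧
    E 519 = (E 184) * (E 184) ∧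
    E 520 = (((0 : ℤ) : ℝ) / ((1 : ℕ) : ℝ)) - ((E 399) * ((E 184) * (E 184))) ∧
    E 521 = (E 188) * (E 188) ∧
    E 522 = (((0 : ℤ) : ℝ) / ((1 : ℕ) : ℝ)) - ((E 185) * ((E 188) * (E 188))) ∧
    E 523 = (E 190) * (E 190) ∧
    E 524 = (((0 : ℤ) : ℝ) / ((1 : ℕ) : ℝ)) - ((E 189) * ((E 190) * (E 190))) ∧
    E 525 = (E 191) * (E 191) ∧
    E 526 = (((0 : ℤ) : ℝ) / ((1 : ℕ) : ℝ)) - ((E 189) * ((E 191) * (E 191))) ∧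
    E 527 = (E 192) * (E 192) ∧
    E 528 = (E 189) * ((E 192) * (E 192)) ∧
    E 529 = ((E 193) - (E 194)) * ((E 190) * (E 190)) ∧
    E 530 = (E 195) * (E 195) ∧
    E 531 = ((E 193) - (E 194)) * ((E 195) * (E 195)) ∧
    E 532 = (E 196) * (E 196) ∧
    E 533 = ((E 194) - (E 193)) * ((E 196) * (E 196)) ∧ True := h.d31

theorem F32 (h : TbH K E p) :
    E 534 = (E 198) * (E 198) ∧
    E 535 = (((0 : ℤ) : ℝ) / ((1 : ℕ) : ℝ)) - ((E 197) * ((E 198) * (E 198))) ∧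
    E 536 = (((0 : ℤ) : ℝ) / ((1 : ℕ) : ℝ)) - ((E 197) * ((E 195) * (E 195))) ∧
    E 537 = (E 199) * (E 199) ∧
    E 538 = (E 197) * ((E 199) * (E 199)) ∧
    E 539 = (E 200) * ((E 190) * (E 190)) ∧
    E 540 = (E 201) * (E 201) ∧
    E 541 = (E 200) * ((E 201) * (E 201)) ∧
    E 542 = (((0 : ℤ) : ℝ) / ((1 : ℕ) : ℝ)) - ((E 200) * ((E 199) * (E 199))) ∧
    E 543 = ((E 202) - (E 203)) * ((E 198) * (E 198)) ∧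
    E 544 = ((E 202) - (E 203)) * ((E 201) * (E 201)) ∧
    E 545 = (E 204) * (E 204) ∧
    E 546 = ((E 203) - (E 202)) * ((E 204) * (E 204)) ∧
    E 547 = (E 206) * (E 206) ∧
    E 548 = (((0 : ℤ) : ℝ) / ((1 : ℕ) : ℝ)) - ((E 205) * ((E 206) * (E 206))) ∧
    E 549 = (((0 : ℤ) : ℝ) / ((1 : ℕ) : ℝ)) - ((E 205) * ((E 201) * (E 201))) ∧ True := h.d32

theorem F33 (h : TbH K E p) :
    E 550 = (E 207) * (E 207) ∧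
    E 551 = (E 205) * ((E 207) * (E 207)) ∧
    E 552 = (E 209) * (E 209) ∧
    E 553 = (((0 : ℤ) : ℝ) / ((1 : ℕ) : ℝ)) - ((E 208) * ((E 209) * (E 209))) ∧
    E 554 = (E 210) * (E 210) ∧
    E 555 = (((0 : ℤ) : ℝ) / ((1 : ℕ) : ℝ)) - ((E 208) * ((E 210) * (E 210))) ∧
    E 556 = (E 211) * (E 211) ∧
    E 557 = (E 208) * ((E 211) * (E 211)) ∧
    E 558 = (E 212) * ((E 209) * (E 209)) ∧
    E 559 = (E 213) * (E 213) ∧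
    E 560 = (E 212) * ((E 213) * (E 213)) ∧
    E 561 = (E 214) * (E 214) ∧
    E 562 = (((0 : ℤ) : ℝ) / ((1 : ℕ) : ℝ)) - ((E 212) * ((E 214) * (E 214))) ∧
    E 563 = (E 217) * (E 217) ∧
    E 564 = ((E 215) - (E 216)) * ((E 217) * (E 217)) ∧
    E 565 = ((E 215) - (E 216)) * ((E 210) * (E 210)) ∧ True := h.d33

theorem F34 (h : TbH K E p) :
    E 566 = (E 218) * (E 218) ∧
    E 567 = ((E 216) - (E 215)) * ((E 218) * (E 218)) ∧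
    E 568 = (E 220) * (E 220) ∧
    E 569 = (((0 : ℤ) : ℝ) / ((1 : ℕ) : ℝ)) - ((E 219) * ((E 220) * (E 220))) ∧
    E 570 = (((0 : ℤ) : ℝ) / ((1 : ℕ) : ℝ)) - ((E 219) * ((E 210) * (E 210))) ∧
    E 571 = (E 222) * ((E 217) * (E 217)) ∧
    E 572 = (((0 : ℤ) : ℝ) / ((1 : ℕ) : ℝ)) - ((E 222) * ((E 213) * (E 213))) ∧
    E 573 = (E 223) * (E 223) ∧
    E 574 = (E 222) * ((E 223) * (E 223)) ∧
    E 575 = (E 225) * (E 225) ∧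
    E 576 = (E 224) * ((E 225) * (E 225)) ∧
    E 577 = (((0 : ℤ) : ℝ) / ((1 : ℕ) : ℝ)) - ((E 224) * ((E 210) * (E 210))) ∧
    E 578 = (((0 : ℤ) : ℝ) / ((1 : ℕ) : ℝ)) - ((E 224) * ((E 218) * (E 218))) ∧
    E 579 = (E 227) * (E 227) ∧
    E 580 = (E 226) * ((E 227) * (E 227)) ∧
    E 581 = (((0 : ℤ) : ℝ) / ((1 : ℕ) : ℝ)) - ((E 226) * ((E 210) * (E 210))) ∧ True := h.d34

theorem F35 (h : TbH K E p) :
    E 582 = (((0 : ℤ) : ℝ) / ((1 : ℕ) : ℝ)) - ((E 226) * ((E 223) * (E 223))) ∧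
    E 583 = (E 229) * (E 229) ∧
    E 584 = (E 228) * ((E 229) * (E 229)) ∧
    E 585 = (((0 : ℤ) : ℝ) / ((1 : ℕ) : ℝ)) - ((E 228) * ((E 213) * (E 213))) ∧
    E 586 = (E 230) * (E 230) ∧
    E 587 = (E 228) * ((E 230) * (E 230)) ∧
    E 588 = (E 233) * (E 233) ∧
    E 589 = ((E 231) - (E 232)) * ((E 233) * (E 233)) ∧
    E 590 = (E 234) * (E 234) ∧
    E 591 = ((E 231) - (E 232)) * ((E 234) * (E 234)) ∧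
    E 592 = (E 235) * (E 235) ∧
    E 593 = ((E 232) - (E 231)) * ((E 235) * (E 235)) ∧
    E 594 = (((0 : ℤ) : ℝ) / ((1 : ℕ) : ℝ)) - ((E 236) * ((E 225) * (E 225))) ∧
    E 595 = (((0 : ℤ) : ℝ) / ((1 : ℕ) : ℝ)) - ((E 236) * ((E 234) * (E 234))) ∧
    E 596 = (E 237) * (E 237) ∧
    E 597 = (E 236) * ((E 237) * (E 237)) ∧ True := h.d35

theorem F36 (h : TbH K E p) :
    E 598 = (((0 : ℤ) : ℝ) / ((1 : ℕ) : ℝ)) - ((E 238) * ((E 227) * (E 227))) ∧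
    E 599 = (((0 : ℤ) : ℝ) / ((1 : ℕ) : ℝ)) - ((E 238) * ((E 234) * (E 234))) ∧
    E 600 = (E 239) * (E 239) ∧
    E 601 = (E 238) * ((E 239) * (E 239)) ∧
    E 602 = (E 241) * (E 241) ∧
    E 603 = (E 240) * ((E 241) * (E 241)) ∧
    E 604 = (E 240) * ((E 234) * (E 234)) ∧
    E 605 = (E 243) * ((E 227) * (E 227)) ∧
    E 606 = (((0 : ℤ) : ℝ) / ((1 : ℕ) : ℝ)) - ((E 243) * ((E 234) * (E 234))) ∧
    E 607 = (((0 : ℤ) : ℝ) / ((1 : ℕ) : ℝ)) - ((E 243) * ((E 230) * (E 230))) ∧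
    E 608 = (E 245) * (E 245) ∧
    E 609 = (E 244) * ((E 245) * (E 245)) ∧
    E 610 = (E 244) * ((E 234) * (E 234)) ∧
    E 611 = ((E 247) - (E 248)) * ((E 241) * (E 241)) ∧
    E 612 = ((E 248) - (E 247)) * ((E 213) * (E 213)) ∧
    E 613 = (E 249) * (E 249) ∧ True := h.d36

theorem F37 (h : TbH K E p) :
    E 614 = ((E 248) - (E 247)) * ((E 249) * (E 249)) ∧
    E 615 = (E 250) * ((E 241) * (E 241)) ∧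
    E 616 = (((0 : ℤ) : ℝ) / ((1 : ℕ) : ℝ)) - ((E 250) * ((E 234) * (E 234))) ∧
    E 617 = ((E 252) - (E 253)) * ((E 245) * (E 245)) ∧
    E 618 = ((E 253) - (E 252)) * ((E 234) * (E 234)) ∧
    E 619 = (E 256) * (E 256) ∧
    E 620 = (E 255) * ((E 256) * (E 256)) ∧
    E 621 = (E 257) * (E 257) ∧
    E 622 = (E 255) * ((E 257) * (E 257)) ∧
    E 623 = (E 259) * (E 259) ∧
    E 624 = (((0 : ℤ) : ℝ) / ((1 : ℕ) : ℝ)) - ((E 501) * ((E 259) * (E 259))) ∧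
    E 625 = (E 260) * (E 260) ∧
    E 626 = (((0 : ℤ) : ℝ) / ((1 : ℕ) : ℝ)) - ((E 501) * ((E 260) * (E 260))) ∧
    E 627 = (E 261) * (E 261) ∧
    E 628 = (E 501) * ((E 261) * (E 261)) ∧
    E 629 = ((0 : ℤ) : ℝ) / ((1 : ℕ) : ℝ) ∧ True := h.d37

theorem F38 (h : TbH K E p) :
    E 630 = (((0 : ℤ) : ℝ) / ((1 : ℕ) : ℝ)) - (E 506) ∧
    E 631 = ((0 : ℤ) : ℝ) / ((1 : ℕ) : ℝ) ∧
    E 632 = (((0 : ℤ) : ℝ) / ((1 : ℕ) : ℝ)) - (E 508) ∧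
    E 633 = (((0 : ℤ) : ℝ) / ((1 : ℕ) : ℝ)) - (E 518) ∧
    E 634 = (((0 : ℤ) : ℝ) / ((1 : ℕ) : ℝ)) - (E 512) ∧
    E 635 = ((((0 : ℤ) : ℝ) / ((1 : ℕ) : ℝ)) - (E 520)) - ((E 24) * (((E 0) * (E 403)) + ((E 0) * (E 293)))) ∧
    E 636 = (((0 : ℤ) : ℝ) / ((1 : ℕ) : ℝ)) - (E 510) ∧
    E 637 = (((0 : ℤ) : ℝ) / ((1 : ℕ) : ℝ)) - (E 516) ∧
    E 638 = ((((0 : ℤ) : ℝ) / ((1 : ℕ) : ℝ)) - (E 514)) - ((E 24) * ((E 0) * (E 293))) ∧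
    E 639 = ((((0 : ℤ) : ℝ) / ((1 : ℕ) : ℝ)) - (E 522)) - ((E 24) * (E 323)) ∧
    E 640 = ((((0 : ℤ) : ℝ) / ((1 : ℕ) : ℝ)) - (E 522)) - ((E 24) * ((E 172) + (E 504))) ∧
    E 641 = ((((0 : ℤ) : ℝ) / ((1 : ℕ) : ℝ)) - (E 522)) - ((E 24) * (E 504)) ∧
    E 642 = (((0 : ℤ) : ℝ) / ((1 : ℕ) : ℝ)) - ((E 24) * (E 504)) ∧
    E 643 = ((((0 : ℤ) : ℝ) / ((1 : ℕ) : ℝ)) - (E 295)) - (E 295) ∧
    E 644 = ((((0 : ℤ) : ℝ) / ((1 : ℕ) : ℝ)) - (E 297)) - (E 299) ∧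
    E 645 = (((((0 : ℤ) : ℝ) / ((1 : ℕ) : ℝ)) - (E 297)) - (E 299)) - (E 301) ∧ True := h.d38

theorem F39 (h : TbH K E p) :
    E 646 = ((((((((0 : ℤ) : ℝ) / ((1 : ℕ) : ℝ)) - (E 303)) - (E 297)) - (E 299)) - (E 305)) - (E 307)) - (E 301) ∧
    E 647 = ((((((((0 : ℤ) : ℝ) / ((1 : ℕ) : ℝ)) - (E 524)) - (E 529)) - (E 535)) - (E 539)) - (E 543)) - (E 548) ∧
    E 648 = (((((((((((0 : ℤ) : ℝ) / ((1 : ℕ) : ℝ)) - (E 295)) - (E 535)) - (E 543)) - (E 548)) - (E 553)) - (E 558)) - (E 576)) - (E 589)) - (E 594) ∧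
    E 649 = (((((((((((((0 : ℤ) : ℝ) / ((1 : ℕ) : ℝ)) - (E 295)) - (E 548)) - (E 564)) - (E 569)) - (E 571)) - (E 576)) - (E 580)) - (E 589)) - (E 594)) - (E 598)) - (E 605) ∧
    E 650 = (((((((((((((0 : ℤ) : ℝ) / ((1 : ℕ) : ℝ)) - (E 295)) - (E 569)) - (E 576)) - (E 580)) - (E 584)) - (E 594)) - (E 598)) - (E 603)) - (E 605)) - (E 611)) - (E 615) ∧
    E 651 = (((((((((0 : ℤ) : ℝ) / ((1 : ℕ) : ℝ)) - (E 295)) - (E 569)) - (E 603)) - (E 609)) - (E 611)) - (E 615)) - (E 617) ∧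
    E 652 = ((((0 : ℤ) : ℝ) / ((1 : ℕ) : ℝ)) - (E 295)) - (E 620) ∧
    E 653 = ((((((((0 : ℤ) : ℝ) / ((1 : ℕ) : ℝ)) - (E 526)) - (E 531)) - (E 536)) - (E 541)) - (E 544)) - (E 549) ∧
    E 654 = ((((((((((((((((((0 : ℤ) : ℝ) / ((1 : ℕ) : ℝ)) - (E 443)) - (E 531)) - (E 536)) - (E 541)) - (E 544)) - (E 549)) - (E 555)) - (E 560)) - (E 565)) - (E 570)) - (E 572)) - (E 577)) - (E 581)) - (E 585)) - (E 612)) - (E 622) ∧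
    E 655 = ((((((((((((((((0 : ℤ) : ℝ) / ((1 : ℕ) : ℝ)) - (E 531)) - (E 536)) - (E 541)) - (E 544)) - (E 549)) - (E 555)) - (E 560)) - (E 565)) - (E 570)) - (E 572)) - (E 577)) - (E 581)) - (E 585)) - (E 612) ∧
    E 656 = (((((((((((((((((0 : ℤ) : ℝ) / ((1 : ℕ) : ℝ)) - (E 541)) - (E 544)) - (E 549)) - (E 560)) - (E 572)) - (E 585)) - (E 591)) - (E 595)) - (E 599)) - (E 604)) - (E 606)) - (E 610)) - (E 612)) - (E 616)) - (E 618) ∧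
    E 657 = ((((((((0 : ℤ) : ℝ) / ((1 : ℕ) : ℝ)) - (E 303)) - (E 297)) - (E 299)) - (E 305)) - (E 307)) - (E 301) ∧
    E 658 = (((((((((0 : ℤ) : ℝ) / ((1 : ℕ) : ℝ)) - (E 303)) - (E 597)) - (E 601)) - (E 297)) - (E 299)) - (E 305)) - (E 301) ∧
    E 659 = (((((((((0 : ℤ) : ℝ) / ((1 : ℕ) : ℝ)) - (E 303)) - (E 597)) - (E 601)) - (E 297)) - (E 299)) - (E 614)) - (E 305) ∧
    E 660 = ((((((((((0 : ℤ) : ℝ) / ((1 : ℕ) : ℝ)) - (E 551)) - (E 303)) - (E 587)) - (E 593)) - (E 597)) - (E 601)) - (E 297)) - (E 607) ∧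
    E 661 = (((((((((((((0 : ℤ) : ℝ) / ((1 : ℕ) : ℝ)) - (E 546)) - (E 551)) - (E 562)) - (E 567)) - (E 303)) - (E 574)) - (E 578)) - (E 582)) - (E 593)) - (E 597)) - (E 601) ∧ True := h.d39

theorem F40 (h : TbH K E p) :
    E 662 = (((((((((((((0 : ℤ) : ℝ) / ((1 : ℕ) : ℝ)) - (E 538)) - (E 542)) - (E 546)) - (E 551)) - (E 557)) - (E 562)) - (E 567)) - (E 303)) - (E 578)) - (E 593)) - (E 597) ∧
    E 663 = (((((((((0 : ℤ) : ℝ) / ((1 : ℕ) : ℝ)) - (E 533)) - (E 538)) - (E 542)) - (E 546)) - (E 551)) - (E 557)) - (E 562) ∧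
    E 664 = ((((((((0 : ℤ) : ℝ) / ((1 : ℕ) : ℝ)) - (E 528)) - (E 533)) - (E 538)) - (E 542)) - (E 546)) - (E 551) ∧
    E 665 = (((0 : ℤ) : ℝ) / ((1 : ℕ) : ℝ)) - (E 626) ∧
    E 666 = ((0 : ℤ) : ℝ) / ((1 : ℕ) : ℝ) ∧
    E 667 = (((0 : ℤ) : ℝ) / ((1 : ℕ) : ℝ)) - (E 628) ∧
    E 668 = ((0 : ℤ) : ℝ) / ((1 : ℕ) : ℝ) ∧
    E 669 = (((0 : ℤ) : ℝ) / ((1 : ℕ) : ℝ)) - (E 624) ∧
    E 670 = ((0 : ℤ) : ℝ) / ((1 : ℕ) : ℝ) ∧ True := h.d40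

theorem V0 (h : TbH K E p) :
    E 2000 = ((E 185) * (E 187)) - ((E 293) * (E 82)) ∧
    E 2001 = (((0 : ℤ) : ℝ) / ((1 : ℕ) : ℝ)) - ((E 295) * (E 36)) ∧
    E 2002 = ((E 240) * (E 242)) - ((E 297) * (E 61)) ∧
    E 2003 = ((E 244) * (E 246)) - ((E 299) * (E 62)) ∧
    E 2004 = ((E 255) * (E 258)) - ((E 301) * (E 63)) ∧
    E 2005 = (((0 : ℤ) : ℝ) / ((1 : ℕ) : ℝ)) - ((E 303) * (E 59)) ∧
    E 2006 = ((E 250) * (E 251)) - ((E 305) * (E 62)) ∧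
    E 2007 = ((E 252) * (E 254)) - ((E 307) * (E 64)) ∧
    E 2008 = (E 324) - ((E 323) * (E 50)) ∧
    E 2009 = (((0 : ℤ) : ℝ) / ((1 : ℕ) : ℝ)) - ((E 172) * (E 48)) ∧
    E 2010 = (E 400) - ((E 403) * (E 83)) ∧
    E 2011 = (((0 : ℤ) : ℝ) / ((1 : ℕ) : ℝ)) - ((E 443) * (E 70)) ∧
    E 2012 = ((E 174) * (E 175)) - ((E 504) * (E 46)) ∧
    E 2013 = ((E 174) * (E 176)) - ((E 506) * (E 74)) ∧
    E 2014 = (((0 : ℤ) : ℝ) / ((1 : ℕ) : ℝ)) - ((E 508) * (E 54)) ∧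
    E 2015 = ((E 178) * (E 179)) - ((E 510) * (E 45)) ∧ True := h.v0

theorem V1 (h : TbH K E p) :
    E 2016 = ((E 178) * (E 180)) - ((E 512) * (E 73)) ∧
    E 2017 = (((0 : ℤ) : ℝ) / ((1 : ℕ) : ℝ)) - ((E 514) * (E 55)) ∧
    E 2018 = (((0 : ℤ) : ℝ) / ((1 : ℕ) : ℝ)) - ((E 516) * (E 44)) ∧
    E 2019 = (((0 : ℤ) : ℝ) / ((1 : ℕ) : ℝ)) - ((E 518) * (E 72)) ∧
    E 2020 = ((E 399) * (E 184)) - ((E 520) * (E 56)) ∧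
    E 2021 = ((E 185) * (E 188)) - ((E 522) * (E 47)) ∧
    E 2022 = ((E 189) * (E 190)) - ((E 524) * (E 43)) ∧
    E 2023 = ((E 189) * (E 191)) - ((E 526) * (E 71)) ∧
    E 2024 = (((0 : ℤ) : ℝ) / ((1 : ℕ) : ℝ)) - ((E 528) * (E 57)) ∧
    E 2025 = ((E 194) * (E 190)) - ((E 529) * (E 43)) ∧
    E 2026 = ((E 194) * (E 195)) - ((E 531) * (E 69)) ∧
    E 2027 = ((E 193) * (E 196)) - ((E 533) * (E 57)) ∧
    E 2028 = ((E 197) * (E 198)) - ((E 535) * (E 42)) ∧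
    E 2029 = ((E 197) * (E 195)) - ((E 536) * (E 69)) ∧
    E 2030 = (((0 : ℤ) : ℝ) / ((1 : ℕ) : ℝ)) - ((E 538) * (E 57)) ∧
    E 2031 = (((0 : ℤ) : ℝ) / ((1 : ℕ) : ℝ)) - ((E 539) * (E 43)) ∧ True := h.v1

theorem V2 (h : TbH K E p) :
    E 2032 = (((0 : ℤ) : ℝ) / ((1 : ℕ) : ℝ)) - ((E 541) * (E 68)) ∧
    E 2033 = ((E 200) * (E 199)) - ((E 542) * (E 57)) ∧
    E 2034 = ((E 203) * (E 198)) - ((E 543) * (E 42)) ∧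
    E 2035 = ((E 203) * (E 201)) - ((E 544) * (E 68)) ∧
    E 2036 = ((E 202) * (E 204)) - ((E 546) * (E 57)) ∧
    E 2037 = ((E 205) * (E 206)) - ((E 548) * (E 41)) ∧
    E 2038 = ((E 205) * (E 201)) - ((E 549) * (E 68)) ∧
    E 2039 = (((0 : ℤ) : ℝ) / ((1 : ℕ) : ℝ)) - ((E 551) * (E 57)) ∧
    E 2040 = ((E 208) * (E 209)) - ((E 553) * (E 42)) ∧
    E 2041 = ((E 208) * (E 210)) - ((E 555) * (E 69)) ∧
    E 2042 = (((0 : ℤ) : ℝ) / ((1 : ℕ) : ℝ)) - ((E 557) * (E 58)) ∧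
    E 2043 = (((0 : ℤ) : ℝ) / ((1 : ℕ) : ℝ)) - ((E 558) * (E 42)) ∧
    E 2044 = (((0 : ℤ) : ℝ) / ((1 : ℕ) : ℝ)) - ((E 560) * (E 68)) ∧
    E 2045 = ((E 212) * (E 214)) - ((E 562) * (E 58)) ∧
    E 2046 = ((E 216) * (E 217)) - ((E 564) * (E 41)) ∧
    E 2047 = ((E 216) * (E 210)) - ((E 565) * (E 69)) ∧ True := h.v2

theorem V3 (h : TbH K E p) :
    E 2048 = ((E 215) * (E 218)) - ((E 567) * (E 59)) ∧
    E 2049 = ((E 219) * (E 220)) - ((E 569) * (E 39)) ∧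
    E 2050 = ((E 219) * (E 210)) - ((E 570) * (E 69)) ∧
    E 2051 = (((0 : ℤ) : ℝ) / ((1 : ℕ) : ℝ)) - ((E 571) * (E 41)) ∧
    E 2052 = ((E 222) * (E 213)) - ((E 572) * (E 68)) ∧
    E 2053 = (((0 : ℤ) : ℝ) / ((1 : ℕ) : ℝ)) - ((E 574) * (E 60)) ∧
    E 2054 = (((0 : ℤ) : ℝ) / ((1 : ℕ) : ℝ)) - ((E 576) * (E 40)) ∧
    E 2055 = ((E 224) * (E 210)) - ((E 577) * (E 69)) ∧
    E 2056 = ((E 224) * (E 218)) - ((E 578) * (E 59)) ∧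
    E 2057 = (((0 : ℤ) : ℝ) / ((1 : ℕ) : ℝ)) - ((E 580) * (E 40)) ∧
    E 2058 = ((E 226) * (E 210)) - ((E 581) * (E 69)) ∧
    E 2059 = ((E 226) * (E 223)) - ((E 582) * (E 60)) ∧
    E 2060 = (((0 : ℤ) : ℝ) / ((1 : ℕ) : ℝ)) - ((E 584) * (E 40)) ∧
    E 2061 = ((E 228) * (E 213)) - ((E 585) * (E 68)) ∧
    E 2062 = (((0 : ℤ) : ℝ) / ((1 : ℕ) : ℝ)) - ((E 587) * (E 61)) ∧
    E 2063 = ((E 232) * (E 233)) - ((E 589) * (E 41)) ∧ True := h.v3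

theorem V4 (h : TbH K E p) :
    E 2064 = ((E 232) * (E 234)) - ((E 591) * (E 68)) ∧
    E 2065 = ((E 231) * (E 235)) - ((E 593) * (E 59)) ∧
    E 2066 = ((E 236) * (E 225)) - ((E 594) * (E 40)) ∧
    E 2067 = ((E 236) * (E 234)) - ((E 595) * (E 68)) ∧
    E 2068 = (((0 : ℤ) : ℝ) / ((1 : ℕ) : ℝ)) - ((E 597) * (E 59)) ∧
    E 2069 = ((E 238) * (E 227)) - ((E 598) * (E 40)) ∧
    E 2070 = ((E 238) * (E 234)) - ((E 599) * (E 68)) ∧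
    E 2071 = (((0 : ℤ) : ℝ) / ((1 : ℕ) : ℝ)) - ((E 601) * (E 60)) ∧
    E 2072 = (((0 : ℤ) : ℝ) / ((1 : ℕ) : ℝ)) - ((E 603) * (E 39)) ∧
    E 2073 = (((0 : ℤ) : ℝ) / ((1 : ℕ) : ℝ)) - ((E 604) * (E 68)) ∧
    E 2074 = (((0 : ℤ) : ℝ) / ((1 : ℕ) : ℝ)) - ((E 605) * (E 40)) ∧
    E 2075 = ((E 243) * (E 234)) - ((E 606) * (E 68)) ∧
    E 2076 = ((E 243) * (E 230)) - ((E 607) * (E 61)) ∧
    E 2077 = (((0 : ℤ) : ℝ) / ((1 : ℕ) : ℝ)) - ((E 609) * (E 39)) ∧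
    E 2078 = (((0 : ℤ) : ℝ) / ((1 : ℕ) : ℝ)) - ((E 610) * (E 68)) ∧
    E 2079 = ((E 248) * (E 241)) - ((E 611) * (E 39)) ∧ True := h.v4

theorem V5 (h : TbH K E p) :
    E 2080 = ((E 247) * (E 213)) - ((E 612) * (E 68)) ∧
    E 2081 = ((E 247) * (E 249)) - ((E 614) * (E 62)) ∧
    E 2082 = (((0 : ℤ) : ℝ) / ((1 : ℕ) : ℝ)) - ((E 615) * (E 39)) ∧
    E 2083 = ((E 250) * (E 234)) - ((E 616) * (E 68)) ∧
    E 2084 = ((E 253) * (E 245)) - ((E 617) * (E 39)) ∧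
    E 2085 = ((E 252) * (E 234)) - ((E 618) * (E 68)) ∧
    E 2086 = (((0 : ℤ) : ℝ) / ((1 : ℕ) : ℝ)) - ((E 620) * (E 38)) ∧
    E 2087 = (((0 : ℤ) : ℝ) / ((1 : ℕ) : ℝ)) - ((E 622) * (E 70)) ∧
    E 2088 = ((E 501) * (E 259)) - ((E 624) * (E 50)) ∧
    E 2089 = ((E 501) * (E 260)) - ((E 626) * (E 76)) ∧
    E 2090 = (((0 : ℤ) : ℝ) / ((1 : ℕ) : ℝ)) - ((E 628) * (E 52)) ∧
    E 2091 = ((0 : ℤ) : ℝ) / ((1 : ℕ) : ℝ) ∧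
    E 2092 = (((0 : ℤ) : ℝ) / ((1 : ℕ) : ℝ)) - (E 2013) ∧
    E 2093 = (((0 : ℤ) : ℝ) / ((1 : ℕ) : ℝ)) - (E 311) ∧
    E 2094 = (((0 : ℤ) : ℝ) / ((1 : ℕ) : ℝ)) - (E 2014) ∧
    E 2095 = (((0 : ℤ) : ℝ) / ((1 : ℕ) : ℝ)) - (E 2019) ∧ True := h.v5

theorem V6 (h : TbH K E p) :
    E 2096 = ((((0 : ℤ) : ℝ) / ((1 : ℕ) : ℝ)) - (E 402)) - (E 2016) ∧
    E 2097 = ((((0 : ℤ) : ℝ) / ((1 : ℕ) : ℝ)) - (E 2020)) - ((E 24) * (((((0 : ℤ) : ℝ) / ((1 : ℕ) : ℝ)) - ((E 0) * ((E 2010) + ((E 403) * (π + π))))) - ((E 0) * ((E 2000) + ((E 293) * (π + π)))))) ∧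
    E 2098 = (((0 : ℤ) : ℝ) / ((1 : ℕ) : ℝ)) - (E 2015) ∧
    E 2099 = ((((0 : ℤ) : ℝ) / ((1 : ℕ) : ℝ)) - (E 401)) - (E 2018) ∧
    E 2100 = ((((0 : ℤ) : ℝ) / ((1 : ℕ) : ℝ)) - (E 2017)) - ((E 24) * (((((0 : ℤ) : ℝ) / ((1 : ℕ) : ℝ)) - ((E 0) * (E 400))) - ((E 0) * ((E 2000) + ((E 293) * (π + π)))))) ∧
    E 2101 = ((((0 : ℤ) : ℝ) / ((1 : ℕ) : ℝ)) - (E 2021)) - ((E 24) * (E 2008)) ∧
    E 2102 = ((((0 : ℤ) : ℝ) / ((1 : ℕ) : ℝ)) - (E 2021)) - ((E 24) * (((E 2009) + (E 173)) + (E 2012))) ∧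
    E 2103 = ((((0 : ℤ) : ℝ) / ((1 : ℕ) : ℝ)) - (E 2021)) - ((E 24) * ((E 336) + (E 2012))) ∧
    E 2104 = (((0 : ℤ) : ℝ) / ((1 : ℕ) : ℝ)) - ((E 24) * ((E 337) + (E 2012))) ∧
    E 2105 = ((((E 427) + (E 431)) + (E 2001)) - (E 427)) - (E 2001) ∧
    E 2106 = ((((0 : ℤ) : ℝ) / ((1 : ℕ) : ℝ)) - (E 2002)) - (E 2003) ∧
    E 2107 = (((((0 : ℤ) : ℝ) / ((1 : ℕ) : ℝ)) - (E 2002)) - (E 2003)) - (E 2004) ∧
    E 2108 = ((((((((0 : ℤ) : ℝ) / ((1 : ℕ) : ℝ)) - (E 2005)) - (E 2002)) - (E 2003)) - (E 2006)) - (E 2007)) - (E 2004) ∧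
    E 2109 = ((((((((0 : ℤ) : ℝ) / ((1 : ℕ) : ℝ)) - (E 2022)) - (E 2025)) - (E 2028)) - (E 2031)) - (E 2034)) - (E 2037) ∧
    E 2110 = ((((((((((((0 : ℤ) : ℝ) / ((1 : ℕ) : ℝ)) - (E 426)) - (E 2001)) - (E 2028)) - (E 2034)) - (E 2037)) - (E 2040)) - (E 2043)) - (E 2054)) - (E 2063)) - (E 2066) ∧
    E 2111 = ((((((((((((((0 : ℤ) : ℝ) / ((1 : ℕ) : ℝ)) - (E 426)) - (E 2001)) - (E 2037)) - (E 2046)) - (E 2049)) - (E 2051)) - (E 2054)) - (E 2057)) - (E 2063)) - (E 2066)) - (E 2069)) - (E 2074) ∧ True := h.v6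

theorem V7 (h : TbH K E p) :
    E 2112 = ((((((((((((((0 : ℤ) : ℝ) / ((1 : ℕ) : ℝ)) - (E 425)) - (E 2001)) - (E 2049)) - (E 2054)) - (E 2057)) - (E 2060)) - (E 2066)) - (E 2069)) - (E 2072)) - (E 2074)) - (E 2079)) - (E 2082) ∧
    E 2113 = ((((((((((0 : ℤ) : ℝ) / ((1 : ℕ) : ℝ)) - (E 425)) - (E 2001)) - (E 2049)) - (E 2072)) - (E 2077)) - (E 2079)) - (E 2082)) - (E 2084) ∧
    E 2114 = (((((0 : ℤ) : ℝ) / ((1 : ℕ) : ℝ)) - (E 425)) - (E 2001)) - (E 2086) ∧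
    E 2115 = (((((((((0 : ℤ) : ℝ) / ((1 : ℕ) : ℝ)) - (E 444)) - (E 2023)) - (E 2026)) - (E 2029)) - (E 2032)) - (E 2035)) - (E 2038) ∧
    E 2116 = ((((((((((((((((((0 : ℤ) : ℝ) / ((1 : ℕ) : ℝ)) - (E 2011)) - (E 2026)) - (E 2029)) - (E 2032)) - (E 2035)) - (E 2038)) - (E 2041)) - (E 2044)) - (E 2047)) - (E 2050)) - (E 2052)) - (E 2055)) - (E 2058)) - (E 2061)) - (E 2080)) - (E 2087) ∧
    E 2117 = ((((((((((((((((0 : ℤ) : ℝ) / ((1 : ℕ) : ℝ)) - (E 2026)) - (E 2029)) - (E 2032)) - (E 2035)) - (E 2038)) - (E 2041)) - (E 2044)) - (E 2047)) - (E 2050)) - (E 2052)) - (E 2055)) - (E 2058)) - (E 2061)) - (E 2080) ∧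
    E 2118 = (((((((((((((((((0 : ℤ) : ℝ) / ((1 : ℕ) : ℝ)) - (E 2032)) - (E 2035)) - (E 2038)) - (E 2044)) - (E 2052)) - (E 2061)) - (E 2064)) - (E 2067)) - (E 2070)) - (E 2073)) - (E 2075)) - (E 2078)) - (E 2080)) - (E 2083)) - (E 2085) ∧
    E 2119 = ((((((((0 : ℤ) : ℝ) / ((1 : ℕ) : ℝ)) - (E 2005)) - (E 2002)) - (E 2003)) - (E 2006)) - (E 2007)) - (E 2004) ∧
    E 2120 = (((((((((0 : ℤ) : ℝ) / ((1 : ℕ) : ℝ)) - (E 2005)) - (E 2068)) - (E 2071)) - (E 2002)) - (E 2003)) - (E 2006)) - (E 2004) ∧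
    E 2121 = (((((((((0 : ℤ) : ℝ) / ((1 : ℕ) : ℝ)) - (E 2005)) - (E 2068)) - (E 2071)) - (E 2002)) - (E 2003)) - (E 2081)) - (E 2006) ∧
    E 2122 = ((((((((((0 : ℤ) : ℝ) / ((1 : ℕ) : ℝ)) - (E 2039)) - (E 2005)) - (E 2062)) - (E 2065)) - (E 2068)) - (E 2071)) - (E 2002)) - (E 2076) ∧
    E 2123 = (((((((((((((0 : ℤ) : ℝ) / ((1 : ℕ) : ℝ)) - (E 2036)) - (E 2039)) - (E 2045)) - (E 2048)) - (E 2005)) - (E 2053)) - (E 2056)) - (E 2059)) - (E 2065)) - (E 2068)) - (E 2071) ∧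
    E 2124 = (((((((((((((0 : ℤ) : ℝ) / ((1 : ℕ) : ℝ)) - (E 2030)) - (E 2033)) - (E 2036)) - (E 2039)) - (E 2042)) - (E 2045)) - (E 2048)) - (E 2005)) - (E 2056)) - (E 2065)) - (E 2068) ∧
    E 2125 = (((((((((0 : ℤ) : ℝ) / ((1 : ℕ) : ℝ)) - (E 2027)) - (E 2030)) - (E 2033)) - (E 2036)) - (E 2039)) - (E 2042)) - (E 2045) ∧
    E 2126 = ((((((((0 : ℤ) : ℝ) / ((1 : ℕ) : ℝ)) - (E 2024)) - (E 2027)) - (E 2030)) - (E 2033)) - (E 2036)) - (E 2039) ∧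
    E 2127 = (((0 : ℤ) : ℝ) / ((1 : ℕ) : ℝ)) - (E 2089) ∧ True := h.v7

theorem V8 (h : TbH K E p) :
    E 2128 = (((0 : ℤ) : ℝ) / ((1 : ℕ) : ℝ)) - (E 500) ∧
    E 2129 = (((0 : ℤ) : ℝ) / ((1 : ℕ) : ℝ)) - (E 2090) ∧
    E 2130 = ((E 498) + (E 497)) - (E 497) ∧
    E 2131 = (((((0 : ℤ) : ℝ) / ((1 : ℕ) : ℝ)) - (E 502)) - (E 499)) - (E 2088) ∧
    E 2132 = (((0 : ℤ) : ℝ) / ((1 : ℕ) : ℝ)) - (E 496) ∧
    E 2133 = (((((E 50) - (E 49)) * (E 324)) + ((((E 50) - (E 49)) * (((((1 : ℤ) : ℝ) / ((2 : ℕ) : ℝ)) * ((E 49) + (E 50))) - (E 50))) * (E 323))) + (((E 49) - (E 48)) * (((E 49) - (E 48)) * (E 172)))) + ((((E 49) - (E 48)) * (((((1 : ℤ) : ℝ) / ((2 : ℕ) : ℝ)) * ((E 48) + (E 49))) - (E 49))) * (E 172)) ∧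
    E 2134 = ((((((E 50) - (E 49)) * (((((1 : ℤ) : ℝ) / ((2 : ℕ) : ℝ)) * ((E 49) + (E 50))) - (E 264))) * (E 324)) + ((((E 50) - (E 49)) * (((((1 : ℤ) : ℝ) / ((3 : ℕ) : ℝ)) * (((((E 49) - (E 50)) * ((E 49) - (E 50))) + (((E 49) - (E 50)) * ((E 50) - (E 50)))) + (((E 50) - (E 50)) * ((E 50) - (E 50))))) + (((E 50) - (E 264)) * (((((1 : ℤ) : ℝ) / ((2 : ℕ) : ℝ)) * ((E 49) + (E 50))) - (E 50))))) * (E 323))) + ((((E 49) - (E 48)) * (((((1 : ℤ) : ℝ) / ((2 : ℕ) : ℝ)) * ((E 48) + (E 49))) - (E 264))) * (((E 49) - (E 48)) * (E 172)))) + ((((E 49) - (E 48)) * (((((1 : ℤ) : ℝ) / ((3 : ℕ) : ℝ)) * (((((E 48) - (E 49)) * ((E 48) - (E 49))) + (((E 48) - (E 49)) * ((E 49) - (E 49)))) + (((E 49) - (E 49)) * ((E 49) - (E 49))))) + (((E 49) - (E 264)) * (((((1 : ℤ) : ℝ) / ((2 : ℕ) : ℝ)) * ((E 48) + (E 49))) - (E 49)))))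 * (E 172)) ∧
    E 2135 = (E 2134) + ((E 264) * (E 2133)) ∧
    E 2136 = ((E 76) - (E 75)) * (E 311) ∧
    E 2137 = (((E 76) - (E 75)) * (((((1 : ℤ) : ℝ) / ((2 : ℕ) : ℝ)) * ((E 75) + (E 76))) - (E 262))) * (E 311) ∧
    E 2138 = (E 2137) + ((E 262) * (E 2136)) ∧
    E 2139 = (E 24) * ((E 119) - (E 121)) ∧
    E 2140 = (E 24) * (((E 120) - (E 118)) + ((((E 53) - (E 263)) * (E 119)) - (((E 54) - (E 263)) * (E 121)))) ∧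
    E 2141 = (E 2140) + ((E 263) * (E 2139)) ∧
    E 2142 = ((((E 47) - (E 46)) * (E 337)) + (((E 48) - (E 47)) * (E 336))) + (((E 49) - (E 48)) * (E 173)) ∧
    E 2143 = (((((E 47) - (E 46)) * (((((1 : ℤ) : ℝ) / ((2 : ℕ) : ℝ)) * ((E 46) + (E 47))) - (E 267))) * (E 337)) + ((((E 48) - (E 47)) * (((((1 : ℤ) : ℝ) / ((2 : ℕ) : ℝ)) * ((E 47) + (E 48))) - (E 267))) * (E 336))) + ((((E 49) - (E 48)) * (((((1 : ℤ) : ℝ) / ((2 : ℕ) : ℝ)) * ((E 48) + (E 49))) - (E 267))) * (E 173)) ∧ True := h.v8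

theorem V9 (h : TbH K E p) :
    E 2144 = (E 2143) + ((E 267) * (E 2142)) ∧
    E 2145 = (((E 23) * ((E 161) - (E 165))) - ((((1 : ℤ) : ℝ) / ((2 : ℕ) : ℝ)) * (E 174))) - (((E 76) - (E 75)) * (E 311)) ∧
    E 2146 = (((E 23) * (((E 164) - (E 160)) + ((((E 74) - (E 265)) * (E 161)) - (((E 76) - (E 265)) * (E 165))))) - (((((1 : ℤ) : ℝ) / ((6 : ℕ) : ℝ)) * ((((E 74) - (E 265)) + ((E 74) - (E 265))) + ((E 75) - (E 265)))) * (E 174))) - ((((E 76) - (E 75)) * (((((1 : ℤ) : ℝ) / ((2 : ℕ) : ℝ)) * ((E 75) + (E 76))) - (E 265))) * (E 311)) ∧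
    E 2147 = (E 2146) + ((E 265) * (E 2145)) ∧
    E 2148 = ((E 24) * ((E 121) - (E 123))) - ((((1 : ℤ) : ℝ) / ((2 : ℕ) : ℝ)) * (E 174)) ∧
    E 2149 = ((E 24) * (((E 122) - (E 120)) + ((((E 54) - (E 266)) * (E 121)) - (((E 55) - (E 266)) * (E 123))))) - (((((1 : ℤ) : ℝ) / ((6 : ℕ) : ℝ)) * (((E 54) - (E 266)) + (((E 55) - (E 266)) + ((E 55) - (E 266))))) * (E 174)) ∧
    E 2150 = (E 2149) + ((E 266) * (E 2148)) ∧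
    E 2151 = ((E 45) - (E 44)) * (E 401) ∧
    E 2152 = (((E 45) - (E 44)) * (((((1 : ℤ) : ℝ) / ((2 : ℕ) : ℝ)) * ((E 44) + (E 45))) - (E 270))) * (E 401) ∧
    E 2153 = (E 2152) + ((E 270) * (E 2151)) ∧
    E 2154 = ((((E 23) * ((E 157) - (E 161))) - ((((1 : ℤ) : ℝ) / ((2 : ℕ) : ℝ)) * (E 178))) - ((((1 : ℤ) : ℝ) / ((2 : ℕ) : ℝ)) * (E 399))) - (((E 74) - (E 73)) * (E 402)) ∧
    E 2155 = ((((E 23) * (((E 160) - (E 156)) + ((((E 72) - (E 268)) * (E 157)) - (((E 74) - (E 268)) * (E 161))))) - (((((1 : ℤ) : ℝ) / ((6 : ℕ) : ℝ)) * ((((E 73) - (E 268)) + ((E 73) - (E 268))) + ((E 74) - (E 268)))) * (E 178))) - (((((1 : ℤ) : ℝ) / ((6 : ℕ) : ℝ)) * (((E 72) - (E 268)) + (((E 73) - (E 268)) + ((E 73) - (E 268))))) * (E 399))) - ((((E 74) - (E 73)) * (((((1 : ℤ) : ℝ) / ((2 : ℕ) : ℝ)) * ((E 73) + (E 74))) - (E 268)))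 * (E 402)) ∧
    E 2156 = (E 2155) + ((E 268) * (E 2154)) ∧
    E 2157 = (((((E 24) * ((E 125) - (E 127))) + (((E 24) * (E 0)) * (((E 83) - (E 82)) * ((E 293) * (((((1 : ℤ) : ℝ) / ((2 : ℕ) : ℝ)) * ((E 82) + (E 83))) - (E 84)))))) + ((((E 24) * (E 0)) * ((E 83) - (E 82))) * (E 400))) + ((((E 24) * (E 0)) * (((E 83) - (E 82)) * (((((1 : ℤ) : ℝ) / ((2 : ℕ) : ℝ)) * ((E 82) + (E 83))) - (E 83)))) * (E 403))) - ((((1 : ℤ) : ℝ) / ((2 : ℕ) : ℝ)) * (E 399)) ∧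
    E 2158 = (((((E 24) * (((E 126) - (E 124)) + ((((E 56) - (E 269)) * (E 125)) - (((E 57) - (E 269)) * (E 127))))) - (((E 24) * (E 0)) * (((E 83) - (E 82)) * ((E 293) * (((((1 : ℤ) : ℝ) / ((3 : ℕ) : ℝ)) * (((((E 82) - (E 84)) * ((E 82) - (E 84))) + (((E 82) - (E 84)) * ((E 83) - (E 84)))) + (((E 83) - (E 84)) * ((E 83) - (E 84))))) + (((E 84) - ((π + π) - (E 269))) * (((((1 : ℤ) : ℝ) / ((2 : ℕ) : ℝ)) * ((E 82) + (E 83))) - (E 84)))))))) - ((((E 24) * (E 0)) * (((E 83) - (E 82)) * (((((1 : ℤ) : ℝ) / ((2 : ℕ) : ℝ)) * ((E 82) + (E 83))) - ((π + π) - (E 269))))) * (E 400))) - ((((E 24) * (E 0)) * (((E 83) - (E 82)) * (((((1 : ℤ) : ℝ) / ((3 : ℕ) : ℝ)) * (((((E 82) - (E 83)) * ((E 82) - (E 83))) + (((E 82) - (E 83)) * ((E 83) - (E 83)))) + (((E 83) - (E 83)) * ((E 83) - (E 83))))) + (((E 83) - ((π + π) -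 (E 269))) * (((((1 : ℤ) : ℝ) / ((2 : ℕ) : ℝ)) * ((E 82) + (E 83))) - (E 83)))))) * (E 403))) - (((((1 : ℤ) : ℝ) / ((6 : ℕ) : ℝ)) * ((((E 56) - (E 269)) + ((E 56) - (E 269))) + ((E 57) - (E 269)))) * (E 399)) ∧
    E 2159 = (E 2158) + ((E 269) * (E 2157)) ∧ True := h.v9

theorem V10 (h : TbH K E p) :
    E 2160 = ((((((1 : ℤ) : ℝ) / ((1 : ℕ) : ℝ)) * ((E 101) - (E 105))) - ((((1 : ℤ) : ℝ) / ((2 : ℕ) : ℝ)) * (E 178))) - (((E 45) - (E 44)) * (E 401))) - ((((1 : ℤ) : ℝ) / ((2 : ℕ) : ℝ)) * (E 399)) ∧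
    E 2161 = ((((((1 : ℤ) : ℝ) / ((1 : ℕ) : ℝ)) * (((E 104) - (E 100)) + ((((E 44) - (E 273)) * (E 101)) - (((E 46) - (E 273)) * (E 105))))) - (((((1 : ℤ) : ℝ) / ((6 : ℕ) : ℝ)) * ((((E 45) - (E 273)) + ((E 45) - (E 273))) + ((E 46) - (E 273)))) * (E 178))) - ((((E 45) - (E 44)) * (((((1 : ℤ) : ℝ) / ((2 : ℕ) : ℝ)) * ((E 44) + (E 45))) - (E 273))) * (E 401))) - (((((1 : ℤ) : ℝ) / ((6 : ℕ) : ℝ)) * (((E 44) - (E 273)) + (((E 45) - (E 273)) + ((E 45) - (E 273))))) * (E 399)) ∧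
    E 2162 = (E 2161) + ((E 273) * (E 2160)) ∧
    E 2163 = ((E 74) - (E 73)) * (E 402) ∧
    E 2164 = (((E 74) - (E 73)) * (((((1 : ℤ) : ℝ) / ((2 : ℕ) : ℝ)) * ((E 73) + (E 74))) - (E 271))) * (E 402) ∧
    E 2165 = (E 2164) + ((E 271) * (E 2163)) ∧
    E 2166 = ((((E 24) * ((E 123) - (E 125))) + (((E 24) * (E 0)) * (((E 84) - (E 83)) * ((E 293) * (((((1 : ℤ) : ℝ) / ((2 : ℕ) : ℝ)) * ((E 83) + (E 84))) - (E 84)))))) + ((((E 24) * (E 0)) * ((E 84) - (E 83))) * (E 400))) - ((((1 : ℤ) : ℝ) / ((2 : ℕ) : ℝ)) * (E 178)) ∧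
    E 2167 = ((((E 24) * (((E 124) - (E 122)) + ((((E 55) - (E 272)) * (E 123)) - (((E 56) - (E 272)) * (E 125))))) - (((((1 : ℤ) : ℝ) / ((6 : ℕ) : ℝ)) * (((E 55) - (E 272)) + (((E 56) - (E 272)) + ((E 56) - (E 272))))) * (E 178))) - (((E 24) * (E 0)) * (((E 84) - (E 83)) * ((E 293) * (((((1 : ℤ) : ℝ) / ((3 : ℕ) : ℝ)) * (((((E 83) - (E 84)) * ((E 83) - (E 84))) + (((E 83) - (E 84)) * ((E 84) - (E 84)))) + (((E 84) - (E 84)) * ((E 84) - (E 84))))) + (((E 84) - ((π + π) - (E 272))) * (((((1 : ℤ) : ℝ) / ((2 : ℕ) : ℝ)) * ((E 83) + (E 84))) - (E 84)))))))) - ((((E 24) * (E 0)) * (((E 84) - (E 83)) * (((((1 : ℤ) : ℝ) / ((2 : ℕ) : ℝ)) * ((E 83) + (E 84))) - ((π + π) - (E 272))))) * (E 400)) ∧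
    E 2168 = (E 2167) + ((E 272) * (E 2166)) ∧
    E 2169 = (((((E 43) - (E 41)) * (E 426)) + (((E 41) - (E 38)) * (E 425))) + (((E 38) - (E 37)) * (E 427))) + (((E 37) - (E 36)) * (E 427)) ∧
    E 2170 = ((((((E 43) - (E 41)) * (((((1 : ℤ) : ℝ) / ((2 : ℕ) : ℝ)) * ((E 41) + (E 43))) - (E 276))) * (E 426)) + ((((E 41) - (E 38)) * (((((1 : ℤ) : ℝ) / ((2 : ℕ) : ℝ)) * ((E 38) + (E 41))) - (E 276))) * (E 425))) + ((((E 38) - (E 37)) * (((((1 : ℤ) : ℝ) / ((2 : ℕ) : ℝ)) * ((E 37) + (E 38))) - (E 276))) * (E 427))) + ((((E 37) - (E 36)) * (((((1 : ℤ) : ℝ) / ((2 : ℕ) : ℝ)) * ((E 36) + (E 37))) - (E 276))) * (E 427)) ∧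
    E 2171 = (E 2170) + ((E 276) * (E 2169)) ∧
    E 2172 = ((((E 84) - (E 83)) * (E 400)) + (((E 83) - (E 82)) * (E 400))) + ((((E 83) - (E 82)) * (((((1 : ℤ) : ℝ) / ((2 : ℕ) : ℝ)) * ((E 82) + (E 83))) - (E 83))) * (E 403)) ∧
    E 2173 = (((((E 84) - (E 83)) * (((((1 : ℤ) : ℝ) / ((2 : ℕ) : ℝ)) * ((E 83) + (E 84))) - (E 274))) * (E 400)) + ((((E 83) - (E 82)) * (((((1 : ℤ) : ℝ) / ((2 : ℕ) : ℝ)) * ((E 82) + (E 83))) - (E 274))) * (E 400))) + ((((E 83) - (E 82)) * (((((1 : ℤ) : ℝ) / ((3 : ℕ) : ℝ)) * (((((E 82) - (E 83)) * ((E 82) - (E 83))) + (((E 82) - (E 83)) * ((E 83) - (E 83)))) + (((E 83) - (E 83)) * ((E 83) - (E 83))))) + (((E 83) - (E 274)) * (((((1 : ℤ) : ℝ) / ((2 : ℕ) : ℝ)) * ((E 82) + (E 83))) - (E 83))))) * (E 403)) ∧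
    E 2174 = (E 2173) + ((E 274) * (E 2172)) ∧
    E 2175 = (((((((((E 24) * ((E 105) - (E 113))) - ((((1 : ℤ) : ℝ) / ((2 : ℕ) : ℝ)) * (E 185))) - ((E 24) * ((((E 49) - (E 48)) * (((E 49) - (E 48)) * (E 172))) + ((((E 49) - (E 48)) * (((((1 : ℤ) : ℝ) / ((2 : ℕ) : ℝ)) * ((E 48) + (E 49))) - (E 49))) * (E 172))))) - ((E 24) * (((E 49) - (E 48)) * (E 173)))) - ((E 24) * ((((1 : ℤ) : ℝ) / ((2 : ℕ) : ℝ)) * (E 174)))) - (((E 24) * ((E 50) - (E 49))) * (E 324))) - (((E 24) * (((E 50) - (E 49)) * (((((1 : ℤ) : ℝ) / ((2 : ℕ) : ℝ)) * ((E 49) + (E 50))) - (E 50)))) * (E 323))) - (((E 24) * ((E 48) - (E 47))) * (E 336))) - (((E 24) * ((E 47) - (E 46))) * (E 337)) ∧ True := h.v10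

theorem V11 (h : TbH K E p) :
    E 2176 = (((((((((E 24) * (((E 112) - (E 104)) + ((((E 46) - (E 275)) * (E 105)) - (((E 50) - (E 275)) * (E 113))))) - (((((1 : ℤ) : ℝ) / ((6 : ℕ) : ℝ)) * ((((E 47) - (E 275)) + ((E 47) - (E 275))) + ((E 50) - (E 275)))) * (E 185))) - ((E 24) * (((((E 49) - (E 48)) * (((((1 : ℤ) : ℝ) / ((2 : ℕ) : ℝ)) * ((E 48) + (E 49))) - (E 275))) * (((E 49) - (E 48)) * (E 172))) + ((((E 49) - (E 48)) * (((((1 : ℤ) : ℝ) / ((3 : ℕ) : ℝ)) * (((((E 48) - (E 49)) * ((E 48) - (E 49))) + (((E 48) - (E 49)) * ((E 49) - (E 49)))) + (((E 49) - (E 49)) * ((E 49) - (E 49))))) + (((E 49) - (E 275)) * (((((1 : ℤ) : ℝ) / ((2 : ℕ) : ℝ)) * ((E 48) + (E 49))) - (E 49))))) * (E 172))))) - ((E 24) * ((((E 49) - (E 48)) * (((((1 : ℤ) : ℝ) / ((2 : ℕ) : ℝ)) * ((E 48) + (E 49))) - (E 275))) * (E 173))))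 - ((E 24) * (((((1 : ℤ) : ℝ) / ((6 : ℕ) : ℝ)) * ((((E 46) - (E 275)) + ((E 46) - (E 275))) + ((E 49) - (E 275)))) * (E 174)))) - (((E 24) * (((E 50) - (E 49)) * (((((1 : ℤ) : ℝ) / ((2 : ℕ) : ℝ)) * ((E 49) + (E 50))) - (E 275)))) * (E 324))) - (((E 24) * (((E 50) - (E 49)) * (((((1 : ℤ) : ℝ) / ((3 : ℕ) : ℝ)) * (((((E 49) - (E 50)) * ((E 49) - (E 50))) + (((E 49) - (E 50)) * ((E 50) - (E 50)))) + (((E 50) - (E 50)) * ((E 50) - (E 50))))) + (((E 50) - (E 275)) * (((((1 : ℤ) : ℝ) / ((2 : ℕ) : ℝ)) * ((E 49) + (E 50))) - (E 50)))))) * (E 323))) - (((E 24) * (((E 48) - (E 47)) * (((((1 : ℤ) : ℝ) / ((2 : ℕ) : ℝ)) * ((E 47) + (E 48))) - (E 275)))) * (E 336))) - (((E 24) * (((E 47) - (E 46)) * (((((1 : ℤ) : ℝ) / ((2 : ℕ) : ℝ)) * ((E 46) + (E 47))) - (E 275)))) * (E 337)) ∧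
    E 2177 = (E 2176) + ((E 275) * (E 2175)) ∧
    E 2178 = ((((((((E 37) - (E 36)) * (E 431)) + (((E 37) - (E 36)) * (E 431))) + ((((1 : ℤ) : ℝ) / ((1 : ℕ) : ℝ)) * ((E 87) - (E 89)))) + (((E 37) - (E 36)) * ((E 295) * (((((1 : ℤ) : ℝ) / ((2 : ℕ) : ℝ)) * ((E 36) + (E 37))) - (E 36))))) + (((E 37) - (E 36)) * (E 427))) - (((E 38) - (E 37)) * ((E 295) * (((((1 : ℤ) : ℝ) / ((2 : ℕ) : ℝ)) * ((E 37) + (E 38))) - (E 36))))) - (((E 38) - (E 37)) * (E 427)) ∧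
    E 2179 = (((((((((E 37) - (E 36)) * (((((1 : ℤ) : ℝ) / ((2 : ℕ) : ℝ)) * ((E 36) + (E 37))) - (E 279))) * (E 431)) + ((((1 : ℤ) : ℝ) / ((1 : ℕ) : ℝ)) * (((E 88) - (E 86)) + ((((E 37) - (E 279)) * (E 87)) - (((E 38) - (E 279)) * (E 89)))))) - ((((E 37) - (E 36)) * (((((1 : ℤ) : ℝ) / ((2 : ℕ) : ℝ)) * ((E 36) + (E 37))) - ((((0 : ℤ) : ℝ) / ((1 : ℕ) : ℝ)) - (E 279)))) * (E 431))) - (((E 37) - (E 36)) * ((E 295) * (((((1 : ℤ) : ℝ) / ((3 : ℕ) : ℝ)) * (((((E 36) - (E 36)) * ((E 36) - (E 36))) + (((E 36) - (E 36)) * ((E 37) - (E 36)))) + (((E 37) - (E 36)) * ((E 37) - (E 36))))) + (((E 36) - ((((0 : ℤ) : ℝ) / ((1 : ℕ) : ℝ)) - (E 279))) * (((((1 : ℤ) : ℝ) / ((2 : ℕ) : ℝ)) * ((E 36) + (E 37))) - (E 36))))))) - (((E 38) - (E 37)) * ((E 295) * (((((1 : ℤ) : ℝ) / ((3 : ℕ) : ℝ)) * (((((E 37) - (E 36)) * ((E 37)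 - (E 36))) + (((E 37) - (E 36)) * ((E 38) - (E 36)))) + (((E 38) - (E 36)) * ((E 38) - (E 36))))) + (((E 36) - (E 279)) * (((((1 : ℤ) : ℝ) / ((2 : ℕ) : ℝ)) * ((E 37) + (E 38))) - (E 36))))))) - ((((E 38) - (E 37)) * (((((1 : ℤ) : ℝ) / ((2 : ℕ) : ℝ)) * ((E 37) + (E 38))) - (E 279))) * (E 427))) - ((((E 37) - (E 36)) * (((((1 : ℤ) : ℝ) / ((2 : ℕ) : ℝ)) * ((E 36) + (E 37))) - ((((0 : ℤ) : ℝ) / ((1 : ℕ) : ℝ)) - (E 279)))) * (E 427)) ∧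
    E 2180 = (E 2179) + ((E 279) * (E 2178)) ∧
    E 2181 = ((((E 72) - (E 71)) * (E 444)) + ((((E 71) - (E 70)) * ((E 71) - (E 70))) * (E 443))) + ((((E 71) - (E 70)) * (((((1 : ℤ) : ℝ) / ((2 : ℕ) : ℝ)) * ((E 70) + (E 71))) - (E 71))) * (E 443)) ∧
    E 2182 = (((((E 72) - (E 71)) * (((((1 : ℤ) : ℝ) / ((2 : ℕ) : ℝ)) * ((E 71) + (E 72))) - (E 277))) * (E 444)) + (((((E 71) - (E 70)) * (((((1 : ℤ) : ℝ) / ((2 : ℕ) : ℝ)) * ((E 70) + (E 71))) - (E 277))) * ((E 71) - (E 70))) * (E 443))) + ((((E 71) - (E 70)) * (((((1 : ℤ) : ℝ) / ((3 : ℕ) : ℝ)) * (((((E 70) - (E 71)) * ((E 70) - (E 71))) + (((E 70) - (E 71)) * ((E 71) - (E 71)))) + (((E 71) - (E 71)) * ((E 71) - (E 71))))) + (((E 71) - (E 277)) * (((((1 : ℤ) : ℝ) / ((2 : ℕ) : ℝ)) * ((E 70) + (E 71))) - (E 71))))) * (E 443)) ∧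
    E 2183 = (E 2182) + ((E 277) * (E 2181)) ∧
    E 2184 = (((((((E 24) * ((E 143) - (E 149))) - (((E 68) - (E 65)) * ((E 297) * (((((1 : ℤ) : ℝ) / ((2 : ℕ) : ℝ)) * ((E 65) + (E 68))) - (E 68))))) - (((E 68) - (E 65)) * ((E 299) * (((((1 : ℤ) : ℝ) / ((2 : ℕ) : ℝ)) * ((E 65) + (E 68))) - (E 68))))) - (((E 67) - (E 65)) * ((E 301) * (((((1 : ℤ) : ℝ) / ((2 : ℕ) : ℝ)) * ((E 65) + (E 67))) - (E 67))))) - (((E 66) - (E 65)) * ((E 303) * (((((1 : ℤ) : ℝ) / ((2 : ℕ) : ℝ)) * ((E 65) + (E 66))) - (E 59))))) - (((E 66) - (E 65)) * ((E 305) * (((((1 : ℤ) : ℝ) / ((2 : ℕ) : ℝ)) * ((E 65) + (E 66))) - (E 66))))) - (((E 66) - (E 65)) * (((E 253) * (E 254)) + ((E 307) * (((((1 : ℤ) : ℝ) / ((2 : ℕ) : ℝ)) * ((E 65) + (E 66))) - (E 66))))) ∧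
    E 2185 = (((((((E 24) * (((E 148) - (E 142)) + ((((E 65) - (E 278)) * (E 143)) - (((E 68) - (E 278)) * (E 149))))) - (((E 68) - (E 65)) * ((E 297) * (((((1 : ℤ) : ℝ) / ((3 : ℕ) : ℝ)) * (((((E 65) - (E 68)) * ((E 65) - (E 68))) + (((E 65) - (E 68)) * ((E 68) - (E 68)))) + (((E 68) - (E 68)) * ((E 68) - (E 68))))) + (((E 68) - (E 278)) * (((((1 : ℤ) : ℝ) / ((2 : ℕ) : ℝ)) * ((E 65) + (E 68))) - (E 68))))))) - (((E 68) - (E 65)) * ((E 299) * (((((1 : ℤ) : ℝ) / ((3 : ℕ) : ℝ)) * (((((E 65) - (E 68)) * ((E 65) - (E 68))) + (((E 65) - (E 68)) * ((E 68) - (E 68)))) + (((E 68) - (E 68)) * ((E 68) - (E 68))))) + (((E 68) - (E 278)) * (((((1 : ℤ) : ℝ) / ((2 : ℕ) : ℝ)) * ((E 65) + (E 68))) - (E 68))))))) - (((E 67) - (E 65)) * ((E 301) * (((((1 : ℤ) : ℝ) / ((3 : ℕ) : ℝ)) * (((((E 65) - (E 67)) * ((E 65) - (E 67)))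 + (((E 65) - (E 67)) * ((E 67) - (E 67)))) + (((E 67) - (E 67)) * ((E 67) - (E 67))))) + (((E 67) - (E 278)) * (((((1 : ℤ) : ℝ) / ((2 : ℕ) : ℝ)) * ((E 65) + (E 67))) - (E 67))))))) - (((E 66) - (E 65)) * ((E 303) * (((((1 : ℤ) : ℝ) / ((3 : ℕ) : ℝ)) * (((((E 65) - (E 59)) * ((E 65) - (E 59))) + (((E 65) - (E 59)) * ((E 66) - (E 59)))) + (((E 66) - (E 59)) * ((E 66) - (E 59))))) + (((E 59) - (E 278)) * (((((1 : ℤ) : ℝ) / ((2 : ℕ) : ℝ)) * ((E 65) + (E 66))) - (E 59))))))) - (((E 66) - (E 65)) * ((E 305) * (((((1 : ℤ) : ℝ) / ((3 : ℕ) : ℝ)) * (((((E 65) - (E 66)) * ((E 65) - (E 66))) + (((E 65) - (E 66)) * ((E 66) - (E 66)))) + (((E 66) - (E 66)) * ((E 66) - (E 66))))) + (((E 66) - (E 278)) * (((((1 : ℤ) : ℝ) / ((2 : ℕ) : ℝ)) * ((E 65) + (E 66))) - (E 66))))))) - (((E 66) - (E 65)) * ((((E 253) * (E 254))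 * (((((1 : ℤ) : ℝ) / ((2 : ℕ) : ℝ)) * ((E 65) + (E 66))) - (E 278))) + ((E 307) * (((((1 : ℤ) : ℝ) / ((3 : ℕ) : ℝ)) * (((((E 65) - (E 66)) * ((E 65) - (E 66))) + (((E 65) - (E 66)) * ((E 66) - (E 66)))) + (((E 66) - (E 66)) * ((E 66) - (E 66))))) + (((E 66) - (E 278)) * (((((1 : ℤ) : ℝ) / ((2 : ℕ) : ℝ)) * ((E 65) + (E 66))) - (E 66))))))) ∧
    E 2186 = (E 2185) + ((E 278) * (E 2184)) ∧
    E 2187 = ((((((((((((((((((((((((((((((1 : ℤ) : ℝ) / ((1 : ℕ) : ℝ)) * ((E 89) - (E 101))) - ((((1 : ℤ) : ℝ) / ((2 : ℕ) : ℝ)) * (E 189))) - ((((1 : ℤ) : ℝ) / ((2 : ℕ) : ℝ)) * ((E 194) + (E 193)))) - ((((1 : ℤ) : ℝ) / ((2 : ℕ) : ℝ)) * (E 197))) - ((((1 : ℤ) : ℝ) / ((2 : ℕ) : ℝ)) * (E 200))) - ((((1 : ℤ) : ℝ) / ((2 : ℕ) : ℝ)) * ((E 203) + (E 202)))) - ((((1 : ℤ) : ℝ) / ((2 : ℕ) : ℝ)) * (E 205))) - (((E 43) - (E 38)) *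 ((E 295) * (((((1 : ℤ) : ℝ) / ((2 : ℕ) : ℝ)) * ((E 38) + (E 43))) - (E 36))))) - ((((1 : ℤ) : ℝ) / ((2 : ℕ) : ℝ)) * (E 208))) - ((((1 : ℤ) : ℝ) / ((2 : ℕ) : ℝ)) * (E 212))) - ((((1 : ℤ) : ℝ) / ((2 : ℕ) : ℝ)) * (E 224))) - ((((1 : ℤ) : ℝ) / ((2 : ℕ) : ℝ)) * ((E 232) + (E 231)))) - ((((1 : ℤ) : ℝ) / ((2 : ℕ) : ℝ)) * (E 236))) - ((((1 : ℤ) : ℝ) / ((2 : ℕ) : ℝ)) * ((E 216) + (E 215)))) - ((((1 : ℤ) : ℝ) / ((2 : ℕ) : ℝ)) * (E 219))) - ((((1 : ℤ) : ℝ) / ((2 : ℕ) : ℝ)) * (E 222))) - ((((1 : ℤ) : ℝ) / ((2 : ℕ) : ℝ)) * (E 226))) - ((((1 : ℤ) : ℝ) / ((2 : ℕ) : ℝ)) * (E 238))) - ((((1 : ℤ) : ℝ) / ((2 : ℕ) : ℝ)) * (E 243))) - ((((1 : ℤ) : ℝ) / ((2 : ℕ) : ℝ)) * (E 228))) - ((((1 : ℤ) : ℝ) / ((2 : ℕ) : ℝ)) * (E 240))) - ((((1 : ℤ) : ℝ) / ((2 : ℕ) : ℝ)) * ((E 248) + (E 247)))) - ((((1 : ℤ) : ℝ) / ((2 : ℕ) : ℝ)) * (E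 250))) - ((((1 : ℤ) : ℝ) / ((2 : ℕ) : ℝ)) * (E 244))) - ((((1 : ℤ) : ℝ) / ((2 : ℕ) : ℝ)) * ((E 253) + (E 252)))) - ((((1 : ℤ) : ℝ) / ((2 : ℕ) : ℝ)) * (E 255))) - (((E 43) - (E 41)) * (E 426))) - (((E 41) - (E 38)) * (E 425)) ∧
    E 2188 = ((((((((((((((((((((((((((((((((((((1 : ℤ) : ℝ) / ((1 : ℕ) : ℝ)) * (((E 100) - (E 88)) + ((((E 38) - (E 282)) * (E 89)) - (((E 44) - (E 282)) * (E 101))))) - (((((1 : ℤ) : ℝ) / ((6 : ℕ) : ℝ)) * ((((E 43) - (E 282)) + ((E 43) - (E 282))) + ((E 44) - (E 282)))) * (E 189))) - (((((1 : ℤ) : ℝ) / ((6 : ℕ) : ℝ)) * ((((E 43) - (E 282)) + ((E 43) - (E 282))) + ((E 44) - (E 282)))) * (E 194))) - (((((1 : ℤ) : ℝ) / ((6 : ℕ) : ℝ)) * (((E 43) - (E 282)) + (((E 44) - (E 282)) + ((E 44) - (E 282))))) * (E 193))) - (((((1 : ℤ) : ℝ) / ((6 : ℕ) : ℝ)) * ((((E 42) - (E 282)) + ((E 42)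 - (E 282))) + ((E 44) - (E 282)))) * (E 197))) - (((((1 : ℤ) : ℝ) / ((6 : ℕ) : ℝ)) * (((E 43) - (E 282)) + (((E 44) - (E 282)) + ((E 44) - (E 282))))) * (E 200))) - (((((1 : ℤ) : ℝ) / ((6 : ℕ) : ℝ)) * ((((E 42) - (E 282)) + ((E 42) - (E 282))) + ((E 44) - (E 282)))) * (E 203))) - (((((1 : ℤ) : ℝ) / ((6 : ℕ) : ℝ)) * (((E 42) - (E 282)) + (((E 44) - (E 282)) + ((E 44) - (E 282))))) * (E 202))) - (((((1 : ℤ) : ℝ) / ((6 : ℕ) : ℝ)) * ((((E 41) - (E 282)) + ((E 41) - (E 282))) + ((E 44) - (E 282)))) * (E 205))) - (((E 43) - (E 38)) * ((E 295) * (((((1 : ℤ) : ℝ) / ((3 : ℕ) : ℝ)) * (((((E 38) - (E 36)) * ((E 38) - (E 36))) + (((E 38) - (E 36)) * ((E 43) - (E 36)))) + (((E 43) - (E 36)) * ((E 43) - (E 36))))) + (((E 36) - (E 282)) * (((((1 : ℤ) : ℝ) / ((2 : ℕ) : ℝ)) * ((E 38) + (E 43))) - (E 36))))))) - (((((1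 : ℤ) : ℝ) / ((6 : ℕ) : ℝ)) * ((((E 42) - (E 282)) + ((E 42) - (E 282))) + ((E 43) - (E 282)))) * (E 208))) - (((((1 : ℤ) : ℝ) / ((6 : ℕ) : ℝ)) * (((E 42) - (E 282)) + (((E 43) - (E 282)) + ((E 43) - (E 282))))) * (E 212))) - (((((1 : ℤ) : ℝ) / ((6 : ℕ) : ℝ)) * (((E 40) - (E 282)) + (((E 43) - (E 282)) + ((E 43) - (E 282))))) * (E 224))) - (((((1 : ℤ) : ℝ) / ((6 : ℕ) : ℝ)) * ((((E 41) - (E 282)) + ((E 41) - (E 282))) + ((E 43) - (E 282)))) * (E 232))) - (((((1 : ℤ) : ℝ) / ((6 : ℕ) : ℝ)) * (((E 41) - (E 282)) + (((E 43) - (E 282)) + ((E 43) - (E 282))))) * (E 231))) - (((((1 : ℤ) : ℝ) / ((6 : ℕ) : ℝ)) * ((((E 40) - (E 282)) + ((E 40) - (E 282))) + ((E 43) - (E 282)))) * (E 236))) - (((((1 : ℤ) : ℝ) / ((6 : ℕ) : ℝ)) * ((((E 41) - (E 282)) + ((E 41) - (E 282))) + ((E 42) - (E 282)))) * (E 216))) - (((((1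 : ℤ) : ℝ) / ((6 : ℕ) : ℝ)) * (((E 41) - (E 282)) + (((E 42) - (E 282)) + ((E 42) - (E 282))))) * (E 215))) - (((((1 : ℤ) : ℝ) / ((6 : ℕ) : ℝ)) * ((((E 39) - (E 282)) + ((E 39) - (E 282))) + ((E 42) - (E 282)))) * (E 219))) - (((((1 : ℤ) : ℝ) / ((6 : ℕ) : ℝ)) * (((E 41) - (E 282)) + (((E 42) - (E 282)) + ((E 42) - (E 282))))) * (E 222))) - (((((1 : ℤ) : ℝ) / ((6 : ℕ) : ℝ)) * (((E 40) - (E 282)) + (((E 42) - (E 282)) + ((E 42) - (E 282))))) * (E 226))) - (((((1 : ℤ) : ℝ) / ((6 : ℕ) : ℝ)) * ((((E 40) - (E 282)) + ((E 40) - (E 282))) + ((E 42) - (E 282)))) * (E 238))) - (((((1 : ℤ) : ℝ) / ((6 : ℕ) : ℝ)) * (((E 40) - (E 282)) + (((E 42) - (E 282)) + ((E 42) - (E 282))))) * (E 243))) - (((((1 : ℤ) : ℝ) / ((6 : ℕ) : ℝ)) * (((E 40) - (E 282)) + (((E 41) - (E 282)) + ((E 41) - (E 282))))) * (E 228))) - (((((1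 : ℤ) : ℝ) / ((6 : ℕ) : ℝ)) * (((E 39) - (E 282)) + (((E 41) - (E 282)) + ((E 41) - (E 282))))) * (E 240))) - (((((1 : ℤ) : ℝ) / ((6 : ℕ) : ℝ)) * ((((E 39) - (E 282)) + ((E 39) - (E 282))) + ((E 41) - (E 282)))) * (E 248))) - (((((1 : ℤ) : ℝ) / ((6 : ℕ) : ℝ)) * (((E 39) - (E 282)) + (((E 41) - (E 282)) + ((E 41) - (E 282))))) * (E 247))) - (((((1 : ℤ) : ℝ) / ((6 : ℕ) : ℝ)) * (((E 39) - (E 282)) + (((E 41) - (E 282)) + ((E 41) - (E 282))))) * (E 250))) - (((((1 : ℤ) : ℝ) / ((6 : ℕ) : ℝ)) * (((E 39) - (E 282)) + (((E 40) - (E 282)) + ((E 40) - (E 282))))) * (E 244))) - (((((1 : ℤ) : ℝ) / ((6 : ℕ) : ℝ)) * ((((E 39) - (E 282)) + ((E 39) - (E 282))) + ((E 40) - (E 282)))) * (E 253))) - (((((1 : ℤ) : ℝ) / ((6 : ℕ) : ℝ)) * (((E 39) - (E 282)) + (((E 40) - (E 282)) + ((E 40) - (E 282))))) * (E 252))) - (((((1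 : ℤ) : ℝ) / ((6 : ℕ) : ℝ)) * (((E 38) - (E 282)) + (((E 39) - (E 282)) + ((E 39) - (E 282))))) * (E 255))) - ((((E 43) - (E 41)) * (((((1 : ℤ) : ℝ) / ((2 : ℕ) : ℝ)) * ((E 41) + (E 43))) - (E 282))) * (E 426))) - ((((E 41) - (E 38)) * (((((1 : ℤ) : ℝ) / ((2 : ℕ) : ℝ)) * ((E 38) + (E 41))) - (E 282))) * (E 425)) ∧
    E 2189 = (E 2188) + ((E 282) * (E 2187)) ∧
    E 2190 = ((((((((((((((((((((((((((((E 23) * ((E 149) - (E 157))) - ((((1 : ℤ) : ℝ) / ((2 : ℕ) : ℝ)) * (E 189))) - ((((1 : ℤ) : ℝ) / ((2 : ℕ) : ℝ)) * ((E 194) + (E 193)))) - ((((1 : ℤ) : ℝ) / ((2 : ℕ) : ℝ)) * (E 197))) - ((((1 : ℤ) : ℝ) / ((2 : ℕ) : ℝ)) * (E 200))) - ((((1 : ℤ) : ℝ) / ((2 : ℕ) : ℝ)) * ((E 203) + (E 202)))) - ((((1 : ℤ) : ℝ) / ((2 : ℕ) : ℝ)) * (E 205))) - ((((1 : ℤ) : ℝ) / ((2 : ℕ) : ℝ)) * (E 208))) - ((((1 : ℤ) : ℝ) / ((2 : ℕ)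 : ℝ)) * (E 212))) - ((((1 : ℤ) : ℝ) / ((2 : ℕ) : ℝ)) * ((E 216) + (E 215)))) - ((((1 : ℤ) : ℝ) / ((2 : ℕ) : ℝ)) * (E 219))) - ((((1 : ℤ) : ℝ) / ((2 : ℕ) : ℝ)) * (E 222))) - ((((1 : ℤ) : ℝ) / ((2 : ℕ) : ℝ)) * (E 224))) - ((((1 : ℤ) : ℝ) / ((2 : ℕ) : ℝ)) * (E 226))) - ((((1 : ℤ) : ℝ) / ((2 : ℕ) : ℝ)) * (E 228))) - ((((1 : ℤ) : ℝ) / ((2 : ℕ) : ℝ)) * ((E 247) + (E 248)))) - ((((1 : ℤ) : ℝ) / ((2 : ℕ) : ℝ)) * (E 255))) - ((((1 : ℤ) : ℝ) / ((2 : ℕ) : ℝ)) * ((E 232) + (E 231)))) - ((((1 : ℤ) : ℝ) / ((2 : ℕ) : ℝ)) * (E 236))) - ((((1 : ℤ) : ℝ) / ((2 : ℕ) : ℝ)) * (E 238))) - ((((1 : ℤ) : ℝ) / ((2 : ℕ) : ℝ)) * (E 240))) - ((((1 : ℤ) : ℝ) / ((2 : ℕ) : ℝ)) * (E 243))) - ((((1 : ℤ) : ℝ) / ((2 : ℕ) : ℝ)) * (E 244))) - ((((1 : ℤ) : ℝ) / ((2 : ℕ) : ℝ)) * (E 250))) - ((((1 : ℤ) : ℝ) / ((2 : ℕ) : ℝ)) * ((E 252) + (E 253))))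 - (((E 72) - (E 71)) * (E 444))) - ((((E 71) - (E 70)) * ((E 71) - (E 70))) * (E 443))) - ((((E 71) - (E 70)) * (((((1 : ℤ) : ℝ) / ((2 : ℕ) : ℝ)) * ((E 70) + (E 71))) - (E 71))) * (E 443)) ∧
    E 2191 = ((((((((((((((((((((((((((((((((((E 23) * (((E 156) - (E 148)) + ((((E 68) - (E 280)) * (E 149)) - (((E 72) - (E 280)) * (E 157))))) - (((((1 : ℤ) : ℝ) / ((6 : ℕ) : ℝ)) * ((((E 71) - (E 280)) + ((E 71) - (E 280))) + ((E 72) - (E 280)))) * (E 189))) - (((((1 : ℤ) : ℝ) / ((6 : ℕ) : ℝ)) * ((((E 69) - (E 280)) + ((E 69) - (E 280))) + ((E 72) - (E 280)))) * (E 194))) - (((((1 : ℤ) : ℝ) / ((6 : ℕ) : ℝ)) * (((E 69) - (E 280)) + (((E 72) - (E 280)) + ((E 72) - (E 280))))) * (E 193))) - (((((1 : ℤ) : ℝ) / ((6 : ℕ) : ℝ)) * ((((E 69) - (E 280)) + ((E 69) - (E 280))) + ((E 72) - (E 280)))) * (E 197))) - (((((1 :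 ℤ) : ℝ) / ((6 : ℕ) : ℝ)) * (((E 68) - (E 280)) + (((E 72) - (E 280)) + ((E 72) - (E 280))))) * (E 200))) - (((((1 : ℤ) : ℝ) / ((6 : ℕ) : ℝ)) * ((((E 68) - (E 280)) + ((E 68) - (E 280))) + ((E 72) - (E 280)))) * (E 203))) - (((((1 : ℤ) : ℝ) / ((6 : ℕ) : ℝ)) * (((E 68) - (E 280)) + (((E 72) - (E 280)) + ((E 72) - (E 280))))) * (E 202))) - (((((1 : ℤ) : ℝ) / ((6 : ℕ) : ℝ)) * ((((E 68) - (E 280)) + ((E 68) - (E 280))) + ((E 72) - (E 280)))) * (E 205))) - (((((1 : ℤ) : ℝ) / ((6 : ℕ) : ℝ)) * ((((E 69) - (E 280)) + ((E 69) - (E 280))) + ((E 71) - (E 280)))) * (E 208))) - (((((1 : ℤ) : ℝ) / ((6 : ℕ) : ℝ)) * (((E 68) - (E 280)) + (((E 71) - (E 280)) + ((E 71) - (E 280))))) * (E 212))) - (((((1 : ℤ) : ℝ) / ((6 : ℕ) : ℝ)) * ((((E 69) - (E 280)) + ((E 69) - (E 280))) + ((E 71) - (E 280)))) * (E 216))) - (((((1 :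 ℤ) : ℝ) / ((6 : ℕ) : ℝ)) * (((E 69) - (E 280)) + (((E 71) - (E 280)) + ((E 71) - (E 280))))) * (E 215))) - (((((1 : ℤ) : ℝ) / ((6 : ℕ) : ℝ)) * ((((E 69) - (E 280)) + ((E 69) - (E 280))) + ((E 71) - (E 280)))) * (E 219))) - (((((1 : ℤ) : ℝ) / ((6 : ℕ) : ℝ)) * ((((E 68) - (E 280)) + ((E 68) - (E 280))) + ((E 71) - (E 280)))) * (E 222))) - (((((1 : ℤ) : ℝ) / ((6 : ℕ) : ℝ)) * ((((E 69) - (E 280)) + ((E 69) - (E 280))) + ((E 71) - (E 280)))) * (E 224))) - (((((1 : ℤ) : ℝ) / ((6 : ℕ) : ℝ)) * ((((E 69) - (E 280)) + ((E 69) - (E 280))) + ((E 71) - (E 280)))) * (E 226))) - (((((1 : ℤ) : ℝ) / ((6 : ℕ) : ℝ)) * ((((E 68) - (E 280)) + ((E 68) - (E 280))) + ((E 71) - (E 280)))) * (E 228))) - (((((1 : ℤ) : ℝ) / ((6 : ℕ) : ℝ)) * ((((E 68) - (E 280)) + ((E 68) - (E 280))) + ((E 71) - (E 280)))) * (E 247))) - (((((1 :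 ℤ) : ℝ) / ((6 : ℕ) : ℝ)) * (((E 68) - (E 280)) + (((E 71) - (E 280)) + ((E 71) - (E 280))))) * (E 248))) - (((((1 : ℤ) : ℝ) / ((6 : ℕ) : ℝ)) * (((E 70) - (E 280)) + (((E 71) - (E 280)) + ((E 71) - (E 280))))) * (E 255))) - (((((1 : ℤ) : ℝ) / ((6 : ℕ) : ℝ)) * ((((E 68) - (E 280)) + ((E 68) - (E 280))) + ((E 69) - (E 280)))) * (E 232))) - (((((1 : ℤ) : ℝ) / ((6 : ℕ) : ℝ)) * (((E 68) - (E 280)) + (((E 69) - (E 280)) + ((E 69) - (E 280))))) * (E 231))) - (((((1 : ℤ) : ℝ) / ((6 : ℕ) : ℝ)) * ((((E 68) - (E 280)) + ((E 68) - (E 280))) + ((E 69) - (E 280)))) * (E 236))) - (((((1 : ℤ) : ℝ) / ((6 : ℕ) : ℝ)) * ((((E 68) - (E 280)) + ((E 68) - (E 280))) + ((E 69) - (E 280)))) * (E 238))) - (((((1 : ℤ) : ℝ) / ((6 : ℕ) : ℝ)) * (((E 68) - (E 280)) + (((E 69) - (E 280)) + ((E 69) - (E 280))))) * (E 240))) - (((((1 :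 ℤ) : ℝ) / ((6 : ℕ) : ℝ)) * ((((E 68) - (E 280)) + ((E 68) - (E 280))) + ((E 69) - (E 280)))) * (E 243))) - (((((1 : ℤ) : ℝ) / ((6 : ℕ) : ℝ)) * (((E 68) - (E 280)) + (((E 69) - (E 280)) + ((E 69) - (E 280))))) * (E 244))) - (((((1 : ℤ) : ℝ) / ((6 : ℕ) : ℝ)) * ((((E 68) - (E 280)) + ((E 68) - (E 280))) + ((E 69) - (E 280)))) * (E 250))) - (((((1 : ℤ) : ℝ) / ((6 : ℕ) : ℝ)) * ((((E 68) - (E 280)) + ((E 68) - (E 280))) + ((E 69) - (E 280)))) * (E 252))) - (((((1 : ℤ) : ℝ) / ((6 : ℕ) : ℝ)) * (((E 68) - (E 280)) + (((E 69) - (E 280)) + ((E 69) - (E 280))))) * (E 253))) - ((((E 72) - (E 71)) * (((((1 : ℤ) : ℝ) / ((2 : ℕ) : ℝ)) * ((E 71) + (E 72))) - (E 280))) * (E 444))) - (((((E 71) - (E 70)) * (((((1 : ℤ) : ℝ) / ((2 : ℕ) : ℝ)) * ((E 70) + (E 71))) - (E 280))) * ((E 71) - (E 70))) * (E 443))) - ((((E 71) - (E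 70)) * (((((1 : ℤ) : ℝ) / ((3 : ℕ) : ℝ)) * (((((E 70) - (E 71)) * ((E 70) - (E 71))) + (((E 70) - (E 71)) * ((E 71) - (E 71)))) + (((E 71) - (E 71)) * ((E 71) - (E 71))))) + (((E 71) - (E 280)) * (((((1 : ℤ) : ℝ) / ((2 : ℕ) : ℝ)) * ((E 70) + (E 71))) - (E 71))))) * (E 443)) ∧ True := h.v11

theorem V12 (h : TbH K E p) :
    E 2192 = (E 2191) + ((E 280) * (E 2190)) ∧
    E 2193 = (((((((((((((((((((((((((E 24) * ((E 127) - (E 143))) - (((E 65) - (E 59)) * ((E 303) * (((((1 : ℤ) : ℝ) / ((2 : ℕ) : ℝ)) * ((E 59) + (E 65))) - (E 59))))) - (((E 65) - (E 61)) * ((E 297) * (((((1 : ℤ) : ℝ) / ((2 : ℕ) : ℝ)) * ((E 61) + (E 65))) - (E 68))))) - (((E 65) - (E 62)) * ((E 299) * (((((1 : ℤ) : ℝ) / ((2 : ℕ) : ℝ)) * ((E 62) + (E 65))) - (E 68))))) - (((E 65) - (E 62)) * ((E 305) * (((((1 : ℤ) : ℝ) / ((2 : ℕ) : ℝ)) *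 ((E 62) + (E 65))) - (E 66))))) - (((E 65) - (E 64)) * (((E 252) * (E 254)) + ((E 307) * (((((1 : ℤ) : ℝ) / ((2 : ℕ) : ℝ)) * ((E 64) + (E 65))) - (E 64)))))) - (((E 65) - (E 63)) * ((E 301) * (((((1 : ℤ) : ℝ) / ((2 : ℕ) : ℝ)) * ((E 63) + (E 65))) - (E 67))))) - ((((1 : ℤ) : ℝ) / ((2 : ℕ) : ℝ)) * (E 236))) - ((((1 : ℤ) : ℝ) / ((2 : ℕ) : ℝ)) * (E 238))) - ((((1 : ℤ) : ℝ) / ((2 : ℕ) : ℝ)) * ((E 247) + (E 248)))) - ((((1 : ℤ) : ℝ) / ((2 : ℕ) : ℝ)) * (E 205))) - ((((1 : ℤ) : ℝ) / ((2 : ℕ) : ℝ)) * (E 228))) - ((((1 : ℤ) : ℝ) / ((2 : ℕ) : ℝ)) * ((E 231) + (E 232)))) - ((((1 : ℤ) : ℝ) / ((2 : ℕ) : ℝ)) * (E 243))) - ((((1 : ℤ) : ℝ) / ((2 : ℕ) : ℝ)) * ((E 202) + (E 203)))) - ((((1 : ℤ) : ℝ) / ((2 : ℕ) : ℝ)) * (E 212))) - ((((1 : ℤ) : ℝ) / ((2 : ℕ) : ℝ)) * ((E 215) + (E 216)))) - ((((1 : ℤ) : ℝ) / ((2 : ℕ) : ℝ))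 * (E 222))) - ((((1 : ℤ) : ℝ) / ((2 : ℕ) : ℝ)) * (E 224))) - ((((1 : ℤ) : ℝ) / ((2 : ℕ) : ℝ)) * (E 226))) - ((((1 : ℤ) : ℝ) / ((2 : ℕ) : ℝ)) * (E 197))) - ((((1 : ℤ) : ℝ) / ((2 : ℕ) : ℝ)) * (E 200))) - ((((1 : ℤ) : ℝ) / ((2 : ℕ) : ℝ)) * (E 208))) - ((((1 : ℤ) : ℝ) / ((2 : ℕ) : ℝ)) * ((E 193) + (E 194)))) - ((((1 : ℤ) : ℝ) / ((2 : ℕ) : ℝ)) * (E 189)) ∧
    E 2194 = ((((((((((((((((((((((((((((((E 24) * (((E 142) - (E 126)) + ((((E 57) - (E 281)) * (E 127)) - (((E 65) - (E 281)) * (E 143))))) - (((E 65) - (E 59)) * ((E 303) * (((((1 : ℤ) : ℝ) / ((3 : ℕ) : ℝ)) * (((((E 59) - (E 59)) * ((E 59) - (E 59))) + (((E 59) - (E 59)) * ((E 65) - (E 59)))) + (((E 65) - (E 59)) * ((E 65) - (E 59))))) + (((E 59) - (E 281)) * (((((1 : ℤ) : ℝ) / ((2 : ℕ) : ℝ)) * ((E 59) + (E 65))) - (E 59))))))) - (((E 65) - (E 61)) *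 ((E 297) * (((((1 : ℤ) : ℝ) / ((3 : ℕ) : ℝ)) * (((((E 61) - (E 68)) * ((E 61) - (E 68))) + (((E 61) - (E 68)) * ((E 65) - (E 68)))) + (((E 65) - (E 68)) * ((E 65) - (E 68))))) + (((E 68) - (E 281)) * (((((1 : ℤ) : ℝ) / ((2 : ℕ) : ℝ)) * ((E 61) + (E 65))) - (E 68))))))) - (((E 65) - (E 62)) * ((E 299) * (((((1 : ℤ) : ℝ) / ((3 : ℕ) : ℝ)) * (((((E 62) - (E 68)) * ((E 62) - (E 68))) + (((E 62) - (E 68)) * ((E 65) - (E 68)))) + (((E 65) - (E 68)) * ((E 65) - (E 68))))) + (((E 68) - (E 281)) * (((((1 : ℤ) : ℝ) / ((2 : ℕ) : ℝ)) * ((E 62) + (E 65))) - (E 68))))))) - (((E 65) - (E 62)) * ((E 305) * (((((1 : ℤ) : ℝ) / ((3 : ℕ) : ℝ)) * (((((E 62) - (E 66)) * ((E 62) - (E 66))) + (((E 62) - (E 66)) * ((E 65) - (E 66)))) + (((E 65) - (E 66)) * ((E 65) - (E 66))))) + (((E 66) - (E 281)) * (((((1 : ℤ) : ℝ) / ((2 : ℕ)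 : ℝ)) * ((E 62) + (E 65))) - (E 66))))))) - (((E 65) - (E 64)) * ((((E 252) * (E 254)) * (((((1 : ℤ) : ℝ) / ((2 : ℕ) : ℝ)) * ((E 64) + (E 65))) - (E 281))) + ((E 307) * (((((1 : ℤ) : ℝ) / ((3 : ℕ) : ℝ)) * (((((E 64) - (E 64)) * ((E 64) - (E 64))) + (((E 64) - (E 64)) * ((E 65) - (E 64)))) + (((E 65) - (E 64)) * ((E 65) - (E 64))))) + (((E 64) - (E 281)) * (((((1 : ℤ) : ℝ) / ((2 : ℕ) : ℝ)) * ((E 64) + (E 65))) - (E 64)))))))) - (((E 65) - (E 63)) * ((E 301) * (((((1 : ℤ) : ℝ) / ((3 : ℕ) : ℝ)) * (((((E 63) - (E 67)) * ((E 63) - (E 67))) + (((E 63) - (E 67)) * ((E 65) - (E 67)))) + (((E 65) - (E 67)) * ((E 65) - (E 67))))) + (((E 67) - (E 281)) * (((((1 : ℤ) : ℝ) / ((2 : ℕ) : ℝ)) * ((E 63) + (E 65))) - (E 67))))))) - (((((1 : ℤ) : ℝ) / ((6 : ℕ) : ℝ)) * (((E 59) - (E 281)) + (((E 64) - (E 281)) + ((E 64)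 - (E 281))))) * (E 236))) - (((((1 : ℤ) : ℝ) / ((6 : ℕ) : ℝ)) * (((E 60) - (E 281)) + (((E 64) - (E 281)) + ((E 64) - (E 281))))) * (E 238))) - (((((1 : ℤ) : ℝ) / ((6 : ℕ) : ℝ)) * ((((E 62) - (E 281)) + ((E 62) - (E 281))) + ((E 63) - (E 281)))) * (E 247))) - (((((1 : ℤ) : ℝ) / ((6 : ℕ) : ℝ)) * (((E 62) - (E 281)) + (((E 63) - (E 281)) + ((E 63) - (E 281))))) * (E 248))) - (((((1 : ℤ) : ℝ) / ((6 : ℕ) : ℝ)) * (((E 57) - (E 281)) + (((E 62) - (E 281)) + ((E 62) - (E 281))))) * (E 205))) - (((((1 : ℤ) : ℝ) / ((6 : ℕ) : ℝ)) * (((E 61) - (E 281)) + (((E 62) - (E 281)) + ((E 62) - (E 281))))) * (E 228))) - (((((1 : ℤ) : ℝ) / ((6 : ℕ) : ℝ)) * ((((E 59) - (E 281)) + ((E 59) - (E 281))) + ((E 62) - (E 281)))) * (E 231))) - (((((1 : ℤ) : ℝ) / ((6 : ℕ) : ℝ)) * (((E 59) - (E 281)) + (((E 62) - (E 281)) + ((E 62)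 - (E 281))))) * (E 232))) - (((((1 : ℤ) : ℝ) / ((6 : ℕ) : ℝ)) * ((((E 61) - (E 281)) + ((E 61) - (E 281))) + ((E 62) - (E 281)))) * (E 243))) - (((((1 : ℤ) : ℝ) / ((6 : ℕ) : ℝ)) * ((((E 57) - (E 281)) + ((E 57) - (E 281))) + ((E 61) - (E 281)))) * (E 202))) - (((((1 : ℤ) : ℝ) / ((6 : ℕ) : ℝ)) * (((E 57) - (E 281)) + (((E 61) - (E 281)) + ((E 61) - (E 281))))) * (E 203))) - (((((1 : ℤ) : ℝ) / ((6 : ℕ) : ℝ)) * ((((E 58) - (E 281)) + ((E 58) - (E 281))) + ((E 61) - (E 281)))) * (E 212))) - (((((1 : ℤ) : ℝ) / ((6 : ℕ) : ℝ)) * ((((E 59) - (E 281)) + ((E 59) - (E 281))) + ((E 61) - (E 281)))) * (E 215))) - (((((1 : ℤ) : ℝ) / ((6 : ℕ) : ℝ)) * (((E 59) - (E 281)) + (((E 61) - (E 281)) + ((E 61) - (E 281))))) * (E 216))) - (((((1 : ℤ) : ℝ) / ((6 : ℕ) : ℝ)) * (((E 60) - (E 281)) + (((E 61) - (E 281)) + ((E 61)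 - (E 281))))) * (E 222))) - (((((1 : ℤ) : ℝ) / ((6 : ℕ) : ℝ)) * ((((E 59) - (E 281)) + ((E 59) - (E 281))) + ((E 61) - (E 281)))) * (E 224))) - (((((1 : ℤ) : ℝ) / ((6 : ℕ) : ℝ)) * ((((E 60) - (E 281)) + ((E 60) - (E 281))) + ((E 61) - (E 281)))) * (E 226))) - (((((1 : ℤ) : ℝ) / ((6 : ℕ) : ℝ)) * (((E 57) - (E 281)) + (((E 60) - (E 281)) + ((E 60) - (E 281))))) * (E 197))) - (((((1 : ℤ) : ℝ) / ((6 : ℕ) : ℝ)) * ((((E 57) - (E 281)) + ((E 57) - (E 281))) + ((E 60) - (E 281)))) * (E 200))) - (((((1 : ℤ) : ℝ) / ((6 : ℕ) : ℝ)) * (((E 58) - (E 281)) + (((E 60) - (E 281)) + ((E 60) - (E 281))))) * (E 208))) - (((((1 : ℤ) : ℝ) / ((6 : ℕ) : ℝ)) * ((((E 57) - (E 281)) + ((E 57) - (E 281))) + ((E 59) - (E 281)))) * (E 193))) - (((((1 : ℤ) : ℝ) / ((6 : ℕ) : ℝ)) * (((E 57) - (E 281)) + (((E 59) - (E 281)) + ((E 59)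 - (E 281))))) * (E 194))) - (((((1 : ℤ) : ℝ) / ((6 : ℕ) : ℝ)) * (((E 57) - (E 281)) + (((E 58) - (E 281)) + ((E 58) - (E 281))))) * (E 189)) ∧
    E 2195 = (E 2194) + ((E 281) * (E 2193)) ∧
    E 2196 = ((E 51) - (E 50)) * (E 502) ∧
    E 2197 = (((E 51) - (E 50)) * (((((1 : ℤ) : ℝ) / ((2 : ℕ) : ℝ)) * ((E 50) + (E 51))) - (E 285))) * (E 502) ∧
    E 2198 = (E 2197) + ((E 285) * (E 2196)) ∧
    E 2199 = (((E 23) * ((E 165) - (E 169))) - ((((1 : ℤ) : ℝ) / ((2 : ℕ) : ℝ)) * (E 501))) - (((E 78) - (E 77)) * (E 500)) ∧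
    E 2200 = (((E 23) * (((E 168) - (E 164)) + ((((E 76) - (E 283)) * (E 165)) - (((E 78) - (E 283)) * (E 169))))) - (((((1 : ℤ) : ℝ) / ((6 : ℕ) : ℝ)) * ((((E 76) - (E 283)) + ((E 76) - (E 283))) + ((E 77) - (E 283)))) * (E 501))) - ((((E 78) - (E 77)) * (((((1 : ℤ) : ℝ) / ((2 : ℕ) : ℝ)) * ((E 77) + (E 78))) - (E 283))) * (E 500)) ∧
    E 2201 = (E 2200) + ((E 283) * (E 2199)) ∧
    E 2202 = ((E 24) * ((E 117) - (E 119))) - ((((1 : ℤ) : ℝ) / ((2 : ℕ) : ℝ)) * (E 501)) ∧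
    E 2203 = ((E 24) * (((E 118) - (E 116)) + ((((E 52) - (E 284)) * (E 117)) - (((E 53) - (E 284)) * (E 119))))) - (((((1 : ℤ) : ℝ) / ((6 : ℕ) : ℝ)) * (((E 52) - (E 284)) + (((E 53) - (E 284)) + ((E 53) - (E 284))))) * (E 501)) ∧
    E 2204 = (E 2203) + ((E 284) * (E 2202)) ∧
    E 2205 = ((E 51) - (E 50)) * (E 499) ∧
    E 2206 = (((E 51) - (E 50)) * (((((1 : ℤ) : ℝ) / ((2 : ℕ) : ℝ)) * ((E 50) + (E 51))) - (E 288))) * (E 499) ∧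
    E 2207 = (E 2206) + ((E 288) * (E 2205)) ∧ True := h.v12

theorem V13 (h : TbH K E p) :
    E 2208 = ((((((E 80) - (E 79)) * (E 498)) + (((E 80) - (E 79)) * (E 498))) + ((E 23) * ((E 169) - (E 171)))) + (((E 80) - (E 79)) * (E 497))) - (((E 79) - (E 78)) * (E 497)) ∧
    E 2209 = (((((((E 80) - (E 79)) * (((((1 : ℤ) : ℝ) / ((2 : ℕ) : ℝ)) * ((E 79) + (E 80))) - (E 286))) * (E 498)) + ((E 23) * (((E 170) - (E 168)) + ((((E 78) - (E 286)) * (E 169)) - (((E 79) - (E 286)) * (E 171)))))) - ((((E 80) - (E 79)) * (((((1 : ℤ) : ℝ) / ((2 : ℕ) : ℝ)) * ((E 79) + (E 80))) - ((π + π) - (E 286)))) * (E 498))) - ((((E 80) - (E 79)) * (((((1 : ℤ) : ℝ) / ((2 : ℕ) : ℝ)) * ((E 79) + (E 80))) - ((π + π) - (E 286)))) * (E 497))) - ((((E 79) - (E 78)) * (((((1 : ℤ) : ℝ) / ((2 : ℕ) : ℝ)) * ((E 78) + (E 79))) - (E 286)))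 * (E 497)) ∧
    E 2210 = (E 2209) + ((E 286) * (E 2208)) ∧
    E 2211 = ((E 52) - (E 51)) * (E 496) ∧
    E 2212 = (((E 52) - (E 51)) * (((((1 : ℤ) : ℝ) / ((2 : ℕ) : ℝ)) * ((E 51) + (E 52))) - (E 287))) * (E 496) ∧
    E 2213 = (E 2212) + ((E 287) * (E 2211)) ∧
    E 2214 = ((((((1 : ℤ) : ℝ) / ((1 : ℕ) : ℝ)) * ((E 113) - (E 115))) - (((E 51) - (E 50)) * (E 502))) - (((E 51) - (E 50)) * (E 499))) - ((((1 : ℤ) : ℝ) / ((2 : ℕ) : ℝ)) * (E 501)) ∧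
    E 2215 = ((((((1 : ℤ) : ℝ) / ((1 : ℕ) : ℝ)) * (((E 114) - (E 112)) + ((((E 50) - (E 291)) * (E 113)) - (((E 51) - (E 291)) * (E 115))))) - ((((E 51) - (E 50)) * (((((1 : ℤ) : ℝ) / ((2 : ℕ) : ℝ)) * ((E 50) + (E 51))) - (E 291))) * (E 502))) - ((((E 51) - (E 50)) * (((((1 : ℤ) : ℝ) / ((2 : ℕ) : ℝ)) * ((E 50) + (E 51))) - (E 291))) * (E 499))) - (((((1 : ℤ) : ℝ) / ((6 : ℕ) : ℝ)) * ((((E 50) - (E 291)) + ((E 50) - (E 291))) + ((E 51) - (E 291)))) * (E 501)) ∧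
    E 2216 = (E 2215) + ((E 291) * (E 2214)) ∧
    E 2217 = ((((E 80) - (E 79)) * (E 497)) + (((E 79) - (E 78)) * (E 497))) + (((E 78) - (E 77)) * (E 500)) ∧
    E 2218 = (((((E 80) - (E 79)) * (((((1 : ℤ) : ℝ) / ((2 : ℕ) : ℝ)) * ((E 79) + (E 80))) - (E 289))) * (E 497)) + ((((E 79) - (E 78)) * (((((1 : ℤ) : ℝ) / ((2 : ℕ) : ℝ)) * ((E 78) + (E 79))) - (E 289))) * (E 497))) + ((((E 78) - (E 77)) * (((((1 : ℤ) : ℝ) / ((2 : ℕ) : ℝ)) * ((E 77) + (E 78))) - (E 289))) * (E 500)) ∧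
    E 2219 = (E 2218) + ((E 289) * (E 2217)) ∧
    E 2220 = ((E 24) * ((E 115) - (E 117))) - (((E 52) - (E 51)) * (E 496)) ∧
    E 2221 = ((E 24) * (((E 116) - (E 114)) + ((((E 51) - (E 290)) * (E 115)) - (((E 52) - (E 290)) * (E 117))))) - ((((E 52) - (E 51)) * (((((1 : ℤ) : ℝ) / ((2 : ℕ) : ℝ)) * ((E 51) + (E 52))) - (E 290))) * (E 496)) ∧
    E 2222 = (E 2221) + ((E 290) * (E 2220)) ∧ True := h.v13

theorem P0 (h : TbH K E p) :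
    0 < E 308 ∧
    0 < E 312 ∧
    0 < E 320 ∧
    0 < E 325 ∧
    0 < E 333 ∧
    0 < E 340 ∧
    0 < (((0 : ℤ) : ℝ) / ((1 : ℕ) : ℝ)) - (E 344) ∧
    0 < (((0 : ℤ) : ℝ) / ((1 : ℕ) : ℝ)) - (E 354) ∧
    0 < (((0 : ℤ) : ℝ) / ((1 : ℕ) : ℝ)) - (E 387) ∧
    0 < (((0 : ℤ) : ℝ) / ((1 : ℕ) : ℝ)) - (E 396) ∧
    0 < E 406 ∧
    0 < (((0 : ℤ) : ℝ) / ((1 : ℕ) : ℝ)) - (E 412) ∧
    0 < (((0 : ℤ) : ℝ) / ((1 : ℕ) : ℝ)) - (E 422) ∧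
    0 < E 428 ∧
    0 < E 432 ∧
    0 < (((0 : ℤ) : ℝ) / ((1 : ℕ) : ℝ)) - (E 440) ∧ True := h.c0

theorem P1 (h : TbH K E p) :
    0 < E 445 ∧
    0 < (((0 : ℤ) : ℝ) / ((1 : ℕ) : ℝ)) - (E 473) ∧
    0 < (((0 : ℤ) : ℝ) / ((1 : ℕ) : ℝ)) - (E 477) ∧
    0 < E 455 ∧
    0 < E 458 ∧
    0 < E 467 ∧
    0 < E 493 ∧
    0 < E 323 ∧
    0 < ((E 324) + (((E 49) - (E 50)) * (E 323))) - (((E 49) - (E 48)) * (E 172)) ∧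
    0 < E 172 ∧
    0 < E 311 ∧
    0 < ((E 24) * (E 121)) + (E 629) ∧
    0 < ((E 24) * (E 119)) + (E 629) ∧
    0 < (E 24) * (E 118) ∧
    0 < (E 337) - (E 336) ∧
    0 < (E 336) - (E 173) ∧ True := h.c1

theorem P2 (h : TbH K E p) :
    0 < E 173 ∧
    0 < (((0 : ℤ) : ℝ) / ((1 : ℕ) : ℝ)) - (((E 23) * (E 161)) + (E 630)) ∧
    0 < (((0 : ℤ) : ℝ) / ((1 : ℕ) : ℝ)) - (((E 23) * (E 163)) + (E 630)) ∧
    0 < (((0 : ℤ) : ℝ) / ((1 : ℕ) : ℝ)) - (((E 23) * (E 163)) + (E 631)) ∧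
    0 < (((0 : ℤ) : ℝ) / ((1 : ℕ) : ℝ)) - (((E 23) * (E 165)) + (E 631)) ∧
    0 < ((E 23) * (E 164)) - (E 311) ∧
    0 < (((0 : ℤ) : ℝ) / ((1 : ℕ) : ℝ)) - (((E 24) * (E 121)) + (E 632)) ∧
    0 < (((0 : ℤ) : ℝ) / ((1 : ℕ) : ℝ)) - (((E 24) * (E 123)) + (E 632)) ∧
    0 < ((E 24) * (E 122)) - ((E 174) * (E 177)) ∧
    0 < E 401 ∧
    0 < (((0 : ℤ) : ℝ) / ((1 : ℕ) : ℝ)) - (((E 23) * (E 157)) + (E 633)) ∧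
    0 < (((0 : ℤ) : ℝ) / ((1 : ℕ) : ℝ)) - (((E 23) * (E 159)) + (E 633)) ∧
    0 < ((E 402) + ((E 178) * (E 180))) - ((E 399) * (E 183)) ∧
    0 < (((0 : ℤ) : ℝ) / ((1 : ℕ) : ℝ)) - (((E 23) * (E 159)) + (E 634)) ∧
    0 < (((0 : ℤ) : ℝ) / ((1 : ℕ) : ℝ)) - (((E 23) * (E 161)) + (E 634)) ∧
    0 < ((E 23) * (E 160)) - (E 402) ∧ True := h.c2

theorem P3 (h : TbH K E p) :
    0 < (((0 : ℤ) : ℝ) / ((1 : ℕ) : ℝ)) - (((E 24) * (E 125)) + (E 635)) ∧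
    0 < (((0 : ℤ) : ℝ) / ((1 : ℕ) : ℝ)) - (((E 24) * (E 127)) + (E 635)) ∧
    0 < (((E 24) * (E 126)) + (((E 24) * (E 0)) * ((E 400) + (((E 82) - (E 83)) * (E 403))))) + (((E 24) * (E 0)) * ((E 185) * (E 187))) ∧
    0 < ((((1 : ℤ) : ℝ) / ((1 : ℕ) : ℝ)) * (E 105)) + (E 636) ∧
    0 < ((((1 : ℤ) : ℝ) / ((1 : ℕ) : ℝ)) * (E 103)) + (E 636) ∧
    0 < ((E 401) + ((E 399) * (E 182))) - ((E 178) * (E 179)) ∧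
    0 < ((((1 : ℤ) : ℝ) / ((1 : ℕ) : ℝ)) * (E 103)) + (E 637) ∧
    0 < ((((1 : ℤ) : ℝ) / ((1 : ℕ) : ℝ)) * (E 101)) + (E 637) ∧
    0 < ((((1 : ℤ) : ℝ) / ((1 : ℕ) : ℝ)) * (E 100)) - (E 401) ∧
    0 < E 402 ∧
    0 < ((E 24) * (E 125)) + (E 638) ∧
    0 < ((E 24) * (E 123)) + (E 638) ∧
    0 < ((E 24) * (E 122)) + (((E 24) * (E 0)) * (E 400)) ∧
    0 < (E 426) - (E 425) ∧
    0 < (E 425) - (E 427) ∧
    0 < E 427 ∧ True := h.c3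

theorem P4 (h : TbH K E p) :
    0 < E 403 ∧
    0 < (E 400) + (((E 82) - (E 83)) * (E 403)) ∧
    0 < ((E 24) * (E 113)) + (E 639) ∧
    0 < ((E 24) * (E 111)) + (E 639) ∧
    0 < (((E 24) * (((E 49) - (E 48)) * (E 172))) + ((E 24) * (E 173))) - ((E 24) * ((E 324) + (((E 49) - (E 50)) * (E 323)))) ∧
    0 < ((E 24) * (E 111)) + (E 640) ∧
    0 < ((E 24) * (E 109)) + (E 640) ∧
    0 < ((E 24) * (E 336)) - ((E 24) * (E 173)) ∧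
    0 < ((E 24) * (E 109)) + (E 641) ∧
    0 < ((E 24) * (E 107)) + (E 641) ∧
    0 < (((E 24) * (E 337)) - ((E 24) * (E 336))) - ((E 185) * (E 188)) ∧
    0 < ((E 24) * (E 107)) + (E 642) ∧
    0 < ((E 24) * (E 105)) + (E 642) ∧
    0 < (((E 24) * (E 104)) - ((E 24) * (E 337))) - ((E 24) * ((E 174) * (E 175))) ∧
    0 < ((((1 : ℤ) : ℝ) / ((1 : ℕ) : ℝ)) * (E 89)) + (E 643) ∧
    0 < ((((1 : ℤ) : ℝ) / ((1 : ℕ) : ℝ)) * (E 87)) + (E 643) ∧ True := h.c4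

theorem P5 (h : TbH K E p) :
    0 < E 431 ∧
    0 < (E 444) - (((E 71) - (E 70)) * (E 443)) ∧
    0 < E 443 ∧
    0 < ((E 24) * (E 149)) + (E 644) ∧
    0 < ((E 24) * (E 147)) + (E 644) ∧
    0 < ((E 24) * (E 147)) + (E 645) ∧
    0 < ((E 24) * (E 145)) + (E 645) ∧
    0 < ((E 219) * (E 221)) + ((E 253) * (E 254)) ∧
    0 < ((E 24) * (E 145)) + (E 646) ∧
    0 < ((E 24) * (E 143)) + (E 646) ∧
    0 < (((((((E 24) * (E 142)) - ((E 303) * ((E 65) - (E 59)))) - ((E 297) * ((E 65) - (E 68)))) - ((E 299) * ((E 65) - (E 68)))) - ((E 305) * ((E 65) - (E 66)))) - (((E 252) * (E 254)) + ((E 307) * ((E 65) - (E 64))))) - ((E 301) * ((E 65) - (E 67))) ∧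
    0 < ((((1 : ℤ) : ℝ) / ((1 : ℕ) : ℝ)) * (E 101)) + (E 647) ∧
    0 < ((((1 : ℤ) : ℝ) / ((1 : ℕ) : ℝ)) * (E 99)) + (E 647) ∧
    0 < ((((((E 426) + ((E 185) * (E 186))) + ((E 212) * (E 209))) + ((E 224) * (E 225))) + ((E 231) * (E 233))) - ((E 189) * (E 190))) - ((E 194) * (E 190)) ∧
    0 < ((((1 : ℤ) : ℝ) / ((1 : ℕ) : ℝ)) * (E 99)) + (E 648) ∧
    0 < ((((1 : ℤ) : ℝ) / ((1 : ℕ) : ℝ)) * (E 97)) + (E 648) ∧ True := h.c5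

theorem P6 (h : TbH K E p) :
    0 < (((((((E 215) * (E 217)) + ((E 222) * (E 217))) + ((E 226) * (E 227))) + ((E 243) * (E 227))) - ((E 197) * (E 198))) - ((E 203) * (E 198))) - ((E 208) * (E 209)) ∧
    0 < ((((1 : ℤ) : ℝ) / ((1 : ℕ) : ℝ)) * (E 97)) + (E 649) ∧
    0 < ((((1 : ℤ) : ℝ) / ((1 : ℕ) : ℝ)) * (E 95)) + (E 649) ∧
    0 < ((((((((E 425) + ((E 228) * (E 229))) + ((E 240) * (E 241))) + ((E 247) * (E 241))) + ((E 250) * (E 241))) - (E 426)) - ((E 205) * (E 206))) - ((E 216) * (E 217))) - ((E 232) * (E 233)) ∧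
    0 < ((((1 : ℤ) : ℝ) / ((1 : ℕ) : ℝ)) * (E 95)) + (E 650) ∧
    0 < ((((1 : ℤ) : ℝ) / ((1 : ℕ) : ℝ)) * (E 93)) + (E 650) ∧
    0 < ((((E 244) * (E 245)) + ((E 252) * (E 245))) - ((E 236) * (E 225))) - ((E 238) * (E 227)) ∧
    0 < ((((1 : ℤ) : ℝ) / ((1 : ℕ) : ℝ)) * (E 93)) + (E 651) ∧
    0 < ((((1 : ℤ) : ℝ) / ((1 : ℕ) : ℝ)) * (E 91)) + (E 651) ∧
    0 < ((((E 255) * (E 256)) - ((E 219) * (E 220))) - ((E 248) * (E 241))) - ((E 253) * (E 245)) ∧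
    0 < ((((1 : ℤ) : ℝ) / ((1 : ℕ) : ℝ)) * (E 91)) + (E 652) ∧
    0 < ((((1 : ℤ) : ℝ) / ((1 : ℕ) : ℝ)) * (E 89)) + (E 652) ∧
    0 < (((((1 : ℤ) : ℝ) / ((1 : ℕ) : ℝ)) * (E 88)) - (E 425)) - ((E 295) * ((E 38) - (E 36))) ∧
    0 < ((E 23) * (E 157)) + (E 653) ∧
    0 < ((E 23) * (E 155)) + (E 653) ∧
    0 < ((((((((E 71) - (E 70)) * (E 443)) + ((E 212) * (E 213))) + ((E 215) * (E 210))) + ((E 248) * (E 213))) + ((E 255) * (E 257))) - (E 444)) - ((E 189) * (E 191)) ∧ True := h.c6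

theorem P7 (h : TbH K E p) :
    0 < ((E 23) * (E 155)) + (E 654) ∧
    0 < ((E 23) * (E 153)) + (E 654) ∧
    0 < ((E 23) * (E 153)) + (E 655) ∧
    0 < ((E 23) * (E 151)) + (E 655) ∧
    0 < (((((((((((E 231) * (E 234)) + ((E 240) * (E 234))) + ((E 244) * (E 234))) + ((E 253) * (E 234))) - ((E 194) * (E 195))) - ((E 197) * (E 195))) - ((E 208) * (E 210))) - ((E 216) * (E 210))) - ((E 219) * (E 210))) - ((E 224) * (E 210))) - ((E 226) * (E 210)) ∧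
    0 < ((E 23) * (E 151)) + (E 656) ∧
    0 < ((E 23) * (E 149)) + (E 656) ∧
    0 < ((((((((((((E 23) * (E 148)) - ((E 203) * (E 201))) - ((E 205) * (E 201))) - ((E 222) * (E 213))) - ((E 228) * (E 213))) - ((E 232) * (E 234))) - ((E 236) * (E 234))) - ((E 238) * (E 234))) - ((E 243) * (E 234))) - ((E 247) * (E 213))) - ((E 250) * (E 234))) - ((E 252) * (E 234)) ∧
    0 < ((E 24) * (E 143)) + (E 657) ∧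
    0 < ((E 24) * (E 141)) + (E 657) ∧
    0 < (((E 236) * (E 237)) + ((E 238) * (E 239))) - ((E 252) * (E 254)) ∧
    0 < ((E 24) * (E 141)) + (E 658) ∧
    0 < ((E 24) * (E 139)) + (E 658) ∧
    0 < ((E 248) * (E 249)) - ((E 255) * (E 258)) ∧
    0 < ((E 24) * (E 139)) + (E 659) ∧
    0 < ((E 24) * (E 137)) + (E 659) ∧ True := h.c7

theorem P8 (h : TbH K E p) :
    0 < ((((((E 205) * (E 207)) + ((E 228) * (E 230))) + ((E 232) * (E 235))) - ((E 244) * (E 246))) - ((E 247) * (E 249))) - ((E 250) * (E 251)) ∧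
    0 < ((E 24) * (E 137)) + (E 660) ∧
    0 < ((E 24) * (E 135)) + (E 660) ∧
    0 < (((((E 203) * (E 204)) + ((E 216) * (E 218))) + ((E 222) * (E 223))) - ((E 240) * (E 242))) - ((E 243) * (E 230)) ∧
    0 < ((E 24) * (E 135)) + (E 661) ∧
    0 < ((E 24) * (E 133)) + (E 661) ∧
    0 < (((E 197) * (E 199)) + ((E 208) * (E 211))) - ((E 226) * (E 223)) ∧
    0 < ((E 24) * (E 133)) + (E 662) ∧
    0 < ((E 24) * (E 131)) + (E 662) ∧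
    0 < ((((E 194) * (E 196)) - ((E 215) * (E 218))) - ((E 224) * (E 218))) - ((E 231) * (E 235)) ∧
    0 < ((E 24) * (E 131)) + (E 663) ∧
    0 < ((E 24) * (E 129)) + (E 663) ∧
    0 < ((E 189) * (E 192)) - ((E 212) * (E 214)) ∧
    0 < ((E 24) * (E 129)) + (E 664) ∧
    0 < ((E 24) * (E 127)) + (E 664) ∧
    0 < ((((E 24) * (E 126)) - ((E 193) * (E 196))) - ((E 200) * (E 199))) - ((E 202) * (E 204)) ∧ True := h.c8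

theorem P9 (h : TbH K E p) :
    0 < E 502 ∧
    0 < (((0 : ℤ) : ℝ) / ((1 : ℕ) : ℝ)) - (((E 23) * (E 165)) + (E 665)) ∧
    0 < (((0 : ℤ) : ℝ) / ((1 : ℕ) : ℝ)) - (((E 23) * (E 167)) + (E 665)) ∧
    0 < E 500 ∧
    0 < (((0 : ℤ) : ℝ) / ((1 : ℕ) : ℝ)) - (((E 23) * (E 167)) + (E 666)) ∧
    0 < (((0 : ℤ) : ℝ) / ((1 : ℕ) : ℝ)) - (((E 23) * (E 169)) + (E 666)) ∧
    0 < ((E 23) * (E 168)) - (E 500) ∧
    0 < (((0 : ℤ) : ℝ) / ((1 : ℕ) : ℝ)) - (((E 24) * (E 117)) + (E 667)) ∧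
    0 < (((0 : ℤ) : ℝ) / ((1 : ℕ) : ℝ)) - (((E 24) * (E 119)) + (E 667)) ∧
    0 < ((E 24) * (E 118)) - ((E 501) * (E 261)) ∧
    0 < E 499 ∧
    0 < (((0 : ℤ) : ℝ) / ((1 : ℕ) : ℝ)) - (((E 23) * (E 169)) + (E 668)) ∧
    0 < (((0 : ℤ) : ℝ) / ((1 : ℕ) : ℝ)) - (((E 23) * (E 171)) + (E 668)) ∧
    0 < E 498 ∧
    0 < E 496 ∧
    0 < ((((1 : ℤ) : ℝ) / ((1 : ℕ) : ℝ)) * (E 115)) + (E 669) ∧ True := h.c9

theorem P10 (h : TbH K E p) :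
    0 < ((((1 : ℤ) : ℝ) / ((1 : ℕ) : ℝ)) * (E 113)) + (E 669) ∧
    0 < ((((((1 : ℤ) : ℝ) / ((1 : ℕ) : ℝ)) * (E 112)) - (E 502)) - (E 499)) - ((E 501) * (E 259)) ∧
    0 < (E 497) - (E 500) ∧
    0 < ((E 24) * (E 117)) + (E 670) ∧
    0 < ((E 24) * (E 115)) + (E 670) ∧
    0 < ((E 24) * (E 114)) - (E 496) ∧
    0 < (((E 48) + (E 76)) + ((E 54) + (E 54))) - (π + π) ∧
    0 < (((E 50) + (E 75)) + ((E 54) + (E 54))) - (π + π) ∧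
    0 < ((π + π) + (π + π)) - ((((E 50) + (E 76)) + ((E 54) + (E 54))) + (((E 48) + (E 75)) + ((E 53) + (E 53)))) ∧
    0 < (E 24) * ((E 119) - (E 121)) ∧
    0 < (π + π) - (((E 49) + (E 74)) + ((E 54) + (E 54))) ∧
    0 < (π + π) - (((E 46) + (E 76)) + ((E 54) + (E 54))) ∧
    0 < ((((E 46) + (E 74)) + ((E 54) + (E 54))) + (((E 49) + (E 76)) + ((E 55) + (E 55)))) - ((π + π) + (π + π)) ∧
    0 < ((E 24) * ((E 121) - (E 123))) - ((((1 : ℤ) : ℝ) / ((2 : ℕ) : ℝ)) * (E 174)) ∧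
    0 < (π + π) - (((E 45) + (E 72)) + ((E 56) + (E 56))) ∧
    0 < ((((E 44) + (E 72)) + ((E 56) + (E 56))) + (((E 45) + (E 74)) + ((E 57) + (E 57)))) - ((π + π) + (π + π)) ∧ True := h.c10

theorem P11 (h : TbH K E p) :
    0 < (((((E 24) * ((E 125) - (E 127))) + (((E 24) * (E 0)) * (((E 83) - (E 82)) * ((E 293) * (((((1 : ℤ) : ℝ) / ((2 : ℕ) : ℝ)) * ((E 82) + (E 83))) - (E 84)))))) + ((((E 24) * (E 0)) * ((E 83) - (E 82))) * (E 400))) + ((((E 24) * (E 0)) * (((E 83) - (E 82)) * (((((1 : ℤ) : ℝ) / ((2 : ℕ) : ℝ)) * ((E 82) + (E 83))) - (E 83)))) * (E 403))) - ((((1 : ℤ) : ℝ) / ((2 : ℕ) : ℝ)) * (E 399)) ∧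
    0 < (((E 46) + (E 73)) + ((E 56) + (E 56))) - (π + π) ∧
    0 < ((π + π) + (π + π)) - ((((E 46) + (E 74)) + ((E 56) + (E 56))) + (((E 44) + (E 73)) + ((E 55) + (E 55)))) ∧
    0 < ((((E 24) * ((E 123) - (E 125))) + (((E 24) * (E 0)) * (((E 84) - (E 83)) * ((E 293) * (((((1 : ℤ) : ℝ) / ((2 : ℕ) : ℝ)) * ((E 83) + (E 84))) - (E 84)))))) + ((((E 24) * (E 0)) * ((E 84) - (E 83))) * (E 400))) - ((((1 : ℤ) : ℝ) / ((2 : ℕ) : ℝ)) * (E 178)) ∧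
    0 < (((E 43) + (E 82)) + ((E 50) + (E 50))) - (π + π) ∧
    0 < (((E 43) + (E 84)) + ((E 46) + (E 46))) - (π + π) ∧
    0 < ((π + π) + (π + π)) - ((((E 43) + (E 84)) + ((E 50) + (E 50))) + (((E 36) + (E 82)) + ((E 46) + (E 46)))) ∧
    0 < (((((((((E 24) * ((E 105) - (E 113))) - ((((1 : ℤ) : ℝ) / ((2 : ℕ) : ℝ)) * (E 185))) - ((E 24) * ((((E 49) - (E 48)) * (((E 49) - (E 48)) * (E 172))) + ((((E 49) - (E 48)) * (((((1 : ℤ) : ℝ) / ((2 : ℕ) : ℝ)) * ((E 48) + (E 49))) - (E 49))) * (E 172))))) - ((E 24) * (((E 49) - (E 48)) * (E 173)))) - ((E 24) * ((((1 : ℤ) : ℝ) / ((2 : ℕ) : ℝ)) * (E 174)))) - (((E 24) * ((E 50) - (E 49))) * (E 324))) - (((E 24) * (((E 50) - (E 49)) * (((((1 : ℤ) : ℝ) / ((2 : ℕ) : ℝ)) * ((E 49) + (E 50))) - (E 50)))) * (E 323))) - (((E 24) * ((E 48) - (E 47))) * (E 336))) - (((E 24)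 * ((E 47) - (E 46))) * (E 337)) ∧
    0 < (((E 36) + (E 72)) + ((E 68) + (E 68))) - (π + π) ∧
    0 < (((E 38) + (E 70)) + ((E 68) + (E 68))) - (π + π) ∧
    0 < (((E 38) + (E 72)) + ((E 65) + (E 65))) - (π + π) ∧
    0 < ((π + π) + (π + π)) - ((((E 38) + (E 72)) + ((E 68) + (E 68))) + (((E 36) + (E 70)) + ((E 65) + (E 65)))) ∧
    0 < (((((((E 24) * ((E 143) - (E 149))) - (((E 68) - (E 65)) * ((E 297) * (((((1 : ℤ) : ℝ) / ((2 : ℕ) : ℝ)) * ((E 65) + (E 68))) - (E 68))))) - (((E 68) - (E 65)) * ((E 299) * (((((1 : ℤ) : ℝ) / ((2 : ℕ) : ℝ)) * ((E 65) + (E 68))) - (E 68))))) - (((E 67) - (E 65)) * ((E 301) * (((((1 : ℤ) : ℝ) / ((2 : ℕ) : ℝ)) * ((E 65) + (E 67))) - (E 67))))) - (((E 66) - (E 65)) * ((E 303) * (((((1 : ℤ) : ℝ) / ((2 : ℕ) : ℝ)) * ((E 65) + (E 66))) - (E 59))))) - (((E 66) - (E 65)) * ((E 305)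 * (((((1 : ℤ) : ℝ) / ((2 : ℕ) : ℝ)) * ((E 65) + (E 66))) - (E 66))))) - (((E 66) - (E 65)) * (((E 253) * (E 254)) + ((E 307) * (((((1 : ℤ) : ℝ) / ((2 : ℕ) : ℝ)) * ((E 65) + (E 66))) - (E 66))))) ∧
    0 < (((E 44) + (E 68)) + ((E 65) + (E 65))) - (π + π) ∧
    0 < ((π + π) + (π + π)) - ((((E 44) + (E 72)) + ((E 65) + (E 65))) + (((E 38) + (E 68)) + ((E 57) + (E 57)))) ∧
    0 < (((((((((((((((((((((((((E 24) * ((E 127) - (E 143))) - (((E 65) - (E 59)) * ((E 303) * (((((1 : ℤ) : ℝ) / ((2 : ℕ) : ℝ)) * ((E 59) + (E 65))) - (E 59))))) - (((E 65) - (E 61)) * ((E 297) * (((((1 : ℤ) : ℝ) / ((2 : ℕ) : ℝ)) * ((E 61) + (E 65))) - (E 68))))) - (((E 65) - (E 62)) * ((E 299) * (((((1 : ℤ) : ℝ) / ((2 : ℕ) : ℝ)) * ((E 62) + (E 65))) - (E 68))))) - (((E 65) - (E 62)) * ((E 305) * (((((1 : ℤ) : ℝ) / ((2 : ℕ) : ℝ)) * ((E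 62) + (E 65))) - (E 66))))) - (((E 65) - (E 64)) * (((E 252) * (E 254)) + ((E 307) * (((((1 : ℤ) : ℝ) / ((2 : ℕ) : ℝ)) * ((E 64) + (E 65))) - (E 64)))))) - (((E 65) - (E 63)) * ((E 301) * (((((1 : ℤ) : ℝ) / ((2 : ℕ) : ℝ)) * ((E 63) + (E 65))) - (E 67))))) - ((((1 : ℤ) : ℝ) / ((2 : ℕ) : ℝ)) * (E 236))) - ((((1 : ℤ) : ℝ) / ((2 : ℕ) : ℝ)) * (E 238))) - ((((1 : ℤ) : ℝ) / ((2 : ℕ) : ℝ)) * ((E 247) + (E 248)))) - ((((1 : ℤ) : ℝ) / ((2 : ℕ) : ℝ)) * (E 205))) - ((((1 : ℤ) : ℝ) / ((2 : ℕ) : ℝ)) * (E 228))) - ((((1 : ℤ) : ℝ) / ((2 : ℕ) : ℝ)) * ((E 231) + (E 232)))) - ((((1 : ℤ) : ℝ) / ((2 : ℕ) : ℝ)) * (E 243))) - ((((1 : ℤ) : ℝ) / ((2 : ℕ) : ℝ)) * ((E 202) + (E 203)))) - ((((1 : ℤ) : ℝ) / ((2 : ℕ) : ℝ)) * (E 212))) - ((((1 : ℤ) : ℝ) / ((2 : ℕ) : ℝ)) * ((E 215) + (E 216)))) - ((((1 : ℤ) : ℝ) / ((2 : ℕ) : ℝ)) * (E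 222))) - ((((1 : ℤ) : ℝ) / ((2 : ℕ) : ℝ)) * (E 224))) - ((((1 : ℤ) : ℝ) / ((2 : ℕ) : ℝ)) * (E 226))) - ((((1 : ℤ) : ℝ) / ((2 : ℕ) : ℝ)) * (E 197))) - ((((1 : ℤ) : ℝ) / ((2 : ℕ) : ℝ)) * (E 200))) - ((((1 : ℤ) : ℝ) / ((2 : ℕ) : ℝ)) * (E 208))) - ((((1 : ℤ) : ℝ) / ((2 : ℕ) : ℝ)) * ((E 193) + (E 194)))) - ((((1 : ℤ) : ℝ) / ((2 : ℕ) : ℝ)) * (E 189)) ∧ True := h.c11

theorem P12 (h : TbH K E p) :
    0 < (π + π) - (((E 51) + (E 76)) + ((E 52) + (E 52))) ∧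
    0 < (π + π) - (((E 50) + (E 78)) + ((E 52) + (E 52))) ∧
    0 < ((((E 50) + (E 76)) + ((E 52) + (E 52))) + (((E 51) + (E 78)) + ((E 53) + (E 53)))) - ((π + π) + (π + π)) ∧
    0 < ((E 24) * ((E 117) - (E 119))) - ((((1 : ℤ) : ℝ) / ((2 : ℕ) : ℝ)) * (E 501)) ∧
    0 < (π + π) - (((E 51) + (E 78)) + ((E 51) + (E 51))) ∧
    0 < (π + π) - (((E 50) + (E 80)) + ((E 51) + (E 51))) ∧
    0 < ((((E 50) + (E 78)) + ((E 51) + (E 51))) + (((E 51) + (E 80)) + ((E 52) + (E 52)))) - ((π + π) + (π + π)) ∧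
    0 < ((E 52) - (E 51)) * (E 496) ∧
    0 < (((E 50) + (E 80)) + ((E 52) + (E 52))) - (π + π) ∧
    0 < (((E 51) + (E 80)) + ((E 51) + (E 51))) - (π + π) ∧
    0 < ((π + π) + (π + π)) - ((((E 51) + (E 80)) + ((E 52) + (E 52))) + (((E 50) + (E 77)) + ((E 51) + (E 51)))) ∧
    0 < ((E 24) * ((E 115) - (E 117))) - (((E 52) - (E 51)) * (E 496)) ∧
    0 < E 174 ∧
    0 < E 178 ∧
    0 < E 399 ∧
    0 < E 185 ∧ True := h.c12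

theorem P13 (h : TbH K E p) :
    0 < E 189 ∧
    0 < E 193 ∧
    0 < E 194 ∧
    0 < E 197 ∧
    0 < E 200 ∧
    0 < E 202 ∧
    0 < E 203 ∧
    0 < E 205 ∧
    0 < E 208 ∧
    0 < E 212 ∧
    0 < E 215 ∧
    0 < E 216 ∧
    0 < E 219 ∧
    0 < E 222 ∧
    0 < E 224 ∧
    0 < E 226 ∧ True := h.c13

theorem P14 (h : TbH K E p) :
    0 < E 228 ∧
    0 < E 231 ∧
    0 < E 232 ∧
    0 < E 236 ∧
    0 < E 238 ∧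
    0 < E 240 ∧
    0 < E 243 ∧
    0 < E 244 ∧
    0 < E 247 ∧
    0 < E 248 ∧
    0 < E 250 ∧
    0 < E 252 ∧
    0 < E 253 ∧
    0 < E 255 ∧
    0 < E 501 ∧ True := h.c14

theorem inc (h : TbH K E p) : Inc E 34 51 := h.ch

theorem hz (h : TbH K E p) : E 37 = 0 := by linear_combination (F0 h).2.2.2.2.2.2.2.2.2.2.2.2.2.2.2.1

theorem hpi (h : TbH K E p) : E 79 = π := (F3 h).2.2.2.2.2.2.2.2.2.1

theorem hmpi (h : TbH K E p) : E 34 = -π := by linear_combination (F0 h).2.2.2.2.2.2.2.2.2.2.2.2.1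

theorem h2pi (h : TbH K E p) : E 85 = 2 * π := by linear_combination (F3 h).2.2.2.2.2.2.2.2.2.2.2.2.2.2.2.1 - hz h

theorem hs0 (h : TbH K E p) : E 86 = 0 := by rw [(F4 h).1, hz h, sin_zero]

theorem hspi (h : TbH K E p) : E 170 = 0 := by rw [(F9 h).2.2.2.2.1, hpi h, sin_pi]

theorem tz (h : TbH K E p) (D : ℝ → ℝ) : TT D (E 37) = 0 := by rw [hz h, (prim0 D).2.2]

theorem hV (h : TbH K E p) : E 0 * E 23 = 1 := by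
  rw [(F0 h).2.1]; exact mul_inv_cancel₀ (by linarith [h.hM])

theorem hX (h : TbH K E p) : (E 0 + 1) * E 24 = 1 := by
  have := inv_reg (by linarith [h.hM]) (F0 h).2.2.1
  linear_combination this

theorem np0 (h : TbH K E p) : E 37 = p 0 := (hz h).trans h.e0.symm

theorem np1 (h : TbH K E p) : E 44 = p 1 := (F1 h).2.2.2.2.2.2.1.trans (h.hp 1 (by decide) (by decide))

theorem np2 (h : TbH K E p) : E 46 = p 2 := (F1 h).2.2.2.2.2.2.2.2.1.trans (h.hp 2 (by decide) (by decide))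

theorem np3 (h : TbH K E p) : E 50 = p 3 := (F1 h).2.2.2.2.2.2.2.2.2.2.2.2.1.trans (h.hp 3 (by decide) (by decide))

theorem np4 (h : TbH K E p) : E 51 = p 4 := (F1 h).2.2.2.2.2.2.2.2.2.2.2.2.2.1.trans (h.hp 4 (by decide) (by decide))

theorem np5 (h : TbH K E p) : E 53 = p 5 := (F1 h).2.2.2.2.2.2.2.2.2.2.2.2.2.2.2.1.trans (h.hp 5 (by decide) (by decide))

theorem np6 (h : TbH K E p) : E 55 = p 6 := (F2 h).2.1.trans (h.hp 6 (by decide) (by decide))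

theorem np7 (h : TbH K E p) : E 57 = p 7 := (F2 h).2.2.2.1.trans (h.hp 7 (by decide) (by decide))

theorem np8 (h : TbH K E p) : E 68 = p 8 := (F2 h).2.2.2.2.2.2.2.2.2.2.2.2.2.2.1.trans (h.hp 8 (by decide) (by decide))

theorem np9 (h : TbH K E p) : E 72 = p 9 := (F3 h).2.2.1.trans (h.hp 9 (by decide) (by decide))

theorem np10 (h : TbH K E p) : E 74 = p 10 := (F3 h).2.2.2.2.1.trans (h.hp 10 (by decide) (by decide))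

theorem np11 (h : TbH K E p) : E 76 = p 11 := (F3 h).2.2.2.2.2.2.1.trans (h.hp 11 (by decide) (by decide))

theorem np12 (h : TbH K E p) : E 79 = p 12 := (hpi h).trans h.e12.symm

theorem mu0 (h : TbH K E p) : mu p 0 = E 87 - E 101 := (munu (np0 h) (np1 h) (F4 h).1 (F4 h).2.1 (F4 h).2.2.2.2.2.2.2.2.2.2.2.2.2.2.1 (F4 h).2.2.2.2.2.2.2.2.2.2.2.2.2.2.2.1).1

theorem nu0 (h : TbH K E p) : nu p 0 = (E 100 - E 44 * E 101) - (E 86 - E 37 * E 87) := (munu (np0 h) (np1 h) (F4 h).1 (F4 h).2.1 (F4 h).2.2.2.2.2.2.2.2.2.2.2.2.2.2.1 (F4 h).2.2.2.2.2.2.2.2.2.2.2.2.2.2.2.1).2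

theorem mu1 (h : TbH K E p) : mu p 1 = E 101 - E 105 := (munu (np1 h) (np2 h) (F4 h).2.2.2.2.2.2.2.2.2.2.2.2.2.2.1 (F4 h).2.2.2.2.2.2.2.2.2.2.2.2.2.2.2.1 (F5 h).2.2.1 (F5 h).2.2.2.1).1

theorem nu1 (h : TbH K E p) : nu p 1 = (E 104 - E 46 * E 105) - (E 100 - E 44 * E 101) := (munu (np1 h) (np2 h) (F4 h).2.2.2.2.2.2.2.2.2.2.2.2.2.2.1 (F4 h).2.2.2.2.2.2.2.2.2.2.2.2.2.2.2.1 (F5 h).2.2.1 (F5 h).2.2.2.1).2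

theorem mu2 (h : TbH K E p) : mu p 2 = E 105 - E 113 := (munu (np2 h) (np3 h) (F5 h).2.2.1 (F5 h).2.2.2.1 (F5 h).2.2.2.2.2.2.2.2.2.2.1 (F5 h).2.2.2.2.2.2.2.2.2.2.2.1).1

theorem nu2 (h : TbH K E p) : nu p 2 = (E 112 - E 50 * E 113) - (E 104 - E 46 * E 105) := (munu (np2 h) (np3 h) (F5 h).2.2.1 (F5 h).2.2.2.1 (F5 h).2.2.2.2.2.2.2.2.2.2.1 (F5 h).2.2.2.2.2.2.2.2.2.2.2.1).2

theorem mu3 (h : TbH K E p) : mu p 3 = E 113 - E 115 := (munu (np3 h) (np4 h) (F5 h).2.2.2.2.2.2.2.2.2.2.1 (F5 h).2.2.2.2.2.2.2.2.2.2.2.1 (F5 h).2.2.2.2.2.2.2.2.2.2.2.2.1 (F5 h).2.2.2.2.2.2.2.2.2.2.2.2.2.1).1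

theorem nu3 (h : TbH K E p) : nu p 3 = (E 114 - E 51 * E 115) - (E 112 - E 50 * E 113) := (munu (np3 h) (np4 h) (F5 h).2.2.2.2.2.2.2.2.2.2.1 (F5 h).2.2.2.2.2.2.2.2.2.2.2.1 (F5 h).2.2.2.2.2.2.2.2.2.2.2.2.1 (F5 h).2.2.2.2.2.2.2.2.2.2.2.2.2.1).2

theorem mu4 (h : TbH K E p) : mu p 4 = E 115 - E 119 := (munu (np4 h) (np5 h) (F5 h).2.2.2.2.2.2.2.2.2.2.2.2.1 (F5 h).2.2.2.2.2.2.2.2.2.2.2.2.2.1 (F6 h).1 (F6 h).2.1).1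

theorem nu4 (h : TbH K E p) : nu p 4 = (E 118 - E 53 * E 119) - (E 114 - E 51 * E 115) := (munu (np4 h) (np5 h) (F5 h).2.2.2.2.2.2.2.2.2.2.2.2.1 (F5 h).2.2.2.2.2.2.2.2.2.2.2.2.2.1 (F6 h).1 (F6 h).2.1).2

theorem mu5 (h : TbH K E p) : mu p 5 = E 119 - E 123 := (munu (np5 h) (np6 h) (F6 h).1 (F6 h).2.1 (F6 h).2.2.2.2.1 (F6 h).2.2.2.2.2.1).1

theorem nu5 (h : TbH K E p) : nu p 5 = (E 122 - E 55 * E 123) - (E 118 - E 53 * E 119) := (munu (np5 h) (np6 h) (F6 h).1 (F6 h).2.1 (F6 h).2.2.2.2.1 (F6 h).2.2.2.2.2.1).2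

theorem mu6 (h : TbH K E p) : mu p 6 = E 123 - E 127 := (munu (np6 h) (np7 h) (F6 h).2.2.2.2.1 (F6 h).2.2.2.2.2.1 (F6 h).2.2.2.2.2.2.2.2.1 (F6 h).2.2.2.2.2.2.2.2.2.1).1

theorem nu6 (h : TbH K E p) : nu p 6 = (E 126 - E 57 * E 127) - (E 122 - E 55 * E 123) := (munu (np6 h) (np7 h) (F6 h).2.2.2.2.1 (F6 h).2.2.2.2.2.1 (F6 h).2.2.2.2.2.2.2.2.1 (F6 h).2.2.2.2.2.2.2.2.2.1).2

theorem mu7 (h : TbH K E p) : mu p 7 = E 127 - E 149 := (munu (np7 h) (np8 h) (F6 h).2.2.2.2.2.2.2.2.1 (F6 h).2.2.2.2.2.2.2.2.2.1 (F7 h).2.2.2.2.2.2.2.2.2.2.2.2.2.2.1 (F7 h).2.2.2.2.2.2.2.2.2.2.2.2.2.2.2.1).1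

theorem nu7 (h : TbH K E p) : nu p 7 = (E 148 - E 68 * E 149) - (E 126 - E 57 * E 127) := (munu (np7 h) (np8 h) (F6 h).2.2.2.2.2.2.2.2.1 (F6 h).2.2.2.2.2.2.2.2.2.1 (F7 h).2.2.2.2.2.2.2.2.2.2.2.2.2.2.1 (F7 h).2.2.2.2.2.2.2.2.2.2.2.2.2.2.2.1).2

theorem mu8 (h : TbH K E p) : mu p 8 = E 149 - E 157 := (munu (np8 h) (np9 h) (F7 h).2.2.2.2.2.2.2.2.2.2.2.2.2.2.1 (F7 h).2.2.2.2.2.2.2.2.2.2.2.2.2.2.2.1 (F8 h).2.2.2.2.2.2.1 (F8 h).2.2.2.2.2.2.2.1).1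

theorem nu8 (h : TbH K E p) : nu p 8 = (E 156 - E 72 * E 157) - (E 148 - E 68 * E 149) := (munu (np8 h) (np9 h) (F7 h).2.2.2.2.2.2.2.2.2.2.2.2.2.2.1 (F7 h).2.2.2.2.2.2.2.2.2.2.2.2.2.2.2.1 (F8 h).2.2.2.2.2.2.1 (F8 h).2.2.2.2.2.2.2.1).2

theorem mu9 (h : TbH K E p) : mu p 9 = E 157 - E 161 := (munu (np9 h) (np10 h) (F8 h).2.2.2.2.2.2.1 (F8 h).2.2.2.2.2.2.2.1 (F8 h).2.2.2.2.2.2.2.2.2.2.1 (F8 h).2.2.2.2.2.2.2.2.2.2.2.1).1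

theorem nu9 (h : TbH K E p) : nu p 9 = (E 160 - E 74 * E 161) - (E 156 - E 72 * E 157) := (munu (np9 h) (np10 h) (F8 h).2.2.2.2.2.2.1 (F8 h).2.2.2.2.2.2.2.1 (F8 h).2.2.2.2.2.2.2.2.2.2.1 (F8 h).2.2.2.2.2.2.2.2.2.2.2.1).2

theorem mu10 (h : TbH K E p) : mu p 10 = E 161 - E 165 := (munu (np10 h) (np11 h) (F8 h).2.2.2.2.2.2.2.2.2.2.1 (F8 h).2.2.2.2.2.2.2.2.2.2.2.1 (F8 h).2.2.2.2.2.2.2.2.2.2.2.2.2.2.1 (F8 h).2.2.2.2.2.2.2.2.2.2.2.2.2.2.2.1).1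

theorem nu10 (h : TbH K E p) : nu p 10 = (E 164 - E 76 * E 165) - (E 160 - E 74 * E 161) := (munu (np10 h) (np11 h) (F8 h).2.2.2.2.2.2.2.2.2.2.1 (F8 h).2.2.2.2.2.2.2.2.2.2.2.1 (F8 h).2.2.2.2.2.2.2.2.2.2.2.2.2.2.1 (F8 h).2.2.2.2.2.2.2.2.2.2.2.2.2.2.2.1).2

theorem mu11 (h : TbH K E p) : mu p 11 = E 165 - E 171 := (munu (np11 h) (np12 h) (F8 h).2.2.2.2.2.2.2.2.2.2.2.2.2.2.1 (F8 h).2.2.2.2.2.2.2.2.2.2.2.2.2.2.2.1 (F9 h).2.2.2.2.1 (F9 h).2.2.2.2.2.1).1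

theorem nu11 (h : TbH K E p) : nu p 11 = (E 170 - E 79 * E 171) - (E 164 - E 76 * E 165) := (munu (np11 h) (np12 h) (F8 h).2.2.2.2.2.2.2.2.2.2.2.2.2.2.1 (F8 h).2.2.2.2.2.2.2.2.2.2.2.2.2.2.2.1 (F9 h).2.2.2.2.1 (F9 h).2.2.2.2.2.1).2

theorem nw35 (h : TbH K E p) : E 35 = (((0 : ℤ) : ℝ) / ((1 : ℕ) : ℝ)) - (E 44) := by linear_combination (F0 h).2.2.2.2.2.2.2.2.2.2.2.2.2.1 + (F1 h).2.2.2.2.2.2.1

theorem fo35 (h : TbH K E p) {D : ℝ → ℝ} (A : Adm (E 0) p D) : KK D (E 35) = KK D (E 44) ∧ TT D (E 35) = -TT D (E 44) := fold0 A (nw35 h)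

theorem nw36 (h : TbH K E p) : E 36 = (((0 : ℤ) : ℝ) / ((1 : ℕ) : ℝ)) - (E 38) := by linear_combination (F0 h).2.2.2.2.2.2.2.2.2.2.2.2.2.2.1 + (F1 h).1

theorem fo36 (h : TbH K E p) {D : ℝ → ℝ} (A : Adm (E 0) p D) : KK D (E 36) = KK D (E 38) ∧ TT D (E 36) = -TT D (E 38) := fold0 A (nw36 h)

theorem nw80 (h : TbH K E p) : E 80 = (π + π) - (E 78) := (F3 h).2.2.2.2.2.2.2.2.2.2.1

theorem fo80 (h : TbH K E p) {D : ℝ → ℝ} (A : Adm (E 0) p D) : KK D (E 80) = KK D (E 78) ∧ TT D (E 80) = 2 * TT D π - 2 * π * KK D π + 2 * π * KK D (E 78) - TT D (E 78) := fold2 A (nw80 h)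

theorem nw81 (h : TbH K E p) : E 81 = (π + π) - (E 76) := (F3 h).2.2.2.2.2.2.2.2.2.2.2.1

theorem fo81 (h : TbH K E p) {D : ℝ → ℝ} (A : Adm (E 0) p D) : KK D (E 81) = KK D (E 76) ∧ TT D (E 81) = 2 * TT D π - 2 * π * KK D π + 2 * π * KK D (E 76) - TT D (E 76) := fold2 A (nw81 h)

theorem nw82 (h : TbH K E p) : E 82 = (π + π) - (E 57) := (F3 h).2.2.2.2.2.2.2.2.2.2.2.2.1

theorem fo82 (h : TbH K E p) {D : ℝ → ℝ} (A : Adm (E 0) p D) : KK D (E 82) = KK D (E 57) ∧ TT D (E 82) = 2 * TT D π - 2 * π * KK D π + 2 * π * KK D (E 57) - TT D (E 57) := fold2 A (nw82 h)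

theorem nw83 (h : TbH K E p) : E 83 = (π + π) - (E 56) := (F3 h).2.2.2.2.2.2.2.2.2.2.2.2.2.1

theorem fo83 (h : TbH K E p) {D : ℝ → ℝ} (A : Adm (E 0) p D) : KK D (E 83) = KK D (E 56) ∧ TT D (E 83) = 2 * TT D π - 2 * π * KK D π + 2 * π * KK D (E 56) - TT D (E 56) := fold2 A (nw83 h)

theorem nw84 (h : TbH K E p) : E 84 = (π + π) - (E 55) := (F3 h).2.2.2.2.2.2.2.2.2.2.2.2.2.2.1

theorem fo84 (h : TbH K E p) {D : ℝ → ℝ} (A : Adm (E 0) p D) : KK D (E 84) = KK D (E 55) ∧ TT D (E 84) = 2 * TT D π - 2 * π * KK D π + 2 * π * KK D (E 55) - TT D (E 55) := fold2 A (nw84 h)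

theorem rs24 (h : TbH K E p) : RS (E 46) (E 49) (E 174) 0 (E 175) (E 2012) (E 504) := RS.hi0 ((inc h).lt 46 49 rfl) (F9 h).2.2.2.2.2.2.2.2.2.1 (F30 h).2.2.1 (V0 h).2.2.2.2.2.2.2.2.2.2.2.2.1

theorem rs25 (h : TbH K E p) : RS (E 74) (E 75) (E 174) 0 (E 176) (E 2013) (E 506) := RS.hi0 ((inc h).lt 74 75 rfl) (F9 h).2.2.2.2.2.2.2.2.2.2.1 (F30 h).2.2.2.2.1 (V0 h).2.2.2.2.2.2.2.2.2.2.2.2.2.1

theorem rs26 (h : TbH K E p) : RS (E 54) (E 55) 0 (E 174) (E 177) (E 2014) (E 508) := RS.lo0 ((inc h).lt 54 55 rfl) (F9 h).2.2.2.2.2.2.2.2.2.2.2.1 (F30 h).2.2.2.2.2.2.1 (V0 h).2.2.2.2.2.2.2.2.2.2.2.2.2.2.1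

theorem rs27 (h : TbH K E p) : RS (E 45) (E 46) (E 178) 0 (E 179) (E 2015) (E 510) := RS.hi0 ((inc h).lt 45 46 rfl) (F9 h).2.2.2.2.2.2.2.2.2.2.2.2.2.1 (F30 h).2.2.2.2.2.2.2.2.1 (V0 h).2.2.2.2.2.2.2.2.2.2.2.2.2.2.2.1

theorem rs28 (h : TbH K E p) : RS (E 73) (E 74) (E 178) 0 (E 180) (E 2016) (E 512) := RS.hi0 ((inc h).lt 73 74 rfl) (F9 h).2.2.2.2.2.2.2.2.2.2.2.2.2.2.1 (F30 h).2.2.2.2.2.2.2.2.2.2.1 (V1 h).1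

theorem rs29 (h : TbH K E p) : RS (E 55) (E 56) 0 (E 178) (E 181) (E 2017) (E 514) := RS.lo0 ((inc h).lt 55 56 rfl) (F9 h).2.2.2.2.2.2.2.2.2.2.2.2.2.2.2.1 (F30 h).2.2.2.2.2.2.2.2.2.2.2.2.1 (V1 h).2.1

theorem rs30 (h : TbH K E p) : RS (E 44) (E 45) 0 (E 399) (E 182) (E 2018) (E 516) := RS.lo0 ((inc h).lt 44 45 rfl) (F10 h).1 (F30 h).2.2.2.2.2.2.2.2.2.2.2.2.2.2.1 (V1 h).2.2.1

theorem rs31 (h : TbH K E p) : RS (E 72) (E 73) 0 (E 399) (E 183) (E 2019) (E 518) := RS.lo0 ((inc h).lt 72 73 rfl) (F10 h).2.1 (F31 h).1 (V1 h).2.2.2.1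

theorem rs32 (h : TbH K E p) : RS (E 56) (E 57) (E 399) 0 (E 184) (E 2020) (E 520) := RS.hi0 ((inc h).lt 56 57 rfl) (F10 h).2.2.1 (F31 h).2.2.1 (V1 h).2.2.2.2.1

theorem rs33 (h : TbH K E p) : RS (E 36) (E 43) 0 (E 185) (E 186) (E 2001) (E 295) := RS.lo0 ((inc h).lt 36 43 rfl) (F10 h).2.2.2.2.1 (F17 h).2.1 (V0 h).2.1

theorem rs34 (h : TbH K E p) : RS (E 82) (E 84) (E 185) 0 (E 187) (E 2000) (E 293) := RS.hi0 ((inc h).lt 82 84 rfl) (F10 h).2.2.2.2.2.1 (F16 h).2.2.2.2.2.2.2.2.2.2.2.2.2.2.2.1 (V0 h).1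

theorem rs35 (h : TbH K E p) : RS (E 47) (E 50) (E 185) 0 (E 188) (E 2021) (E 522) := RS.hi0 ((inc h).lt 47 50 rfl) (F10 h).2.2.2.2.2.2.1 (F31 h).2.2.2.2.1 (V1 h).2.2.2.2.2.1

theorem rs36 (h : TbH K E p) : RS (E 43) (E 44) (E 189) 0 (E 190) (E 2022) (E 524) := RS.hi0 ((inc h).lt 43 44 rfl) (F10 h).2.2.2.2.2.2.2.2.1 (F31 h).2.2.2.2.2.2.1 (V1 h).2.2.2.2.2.2.1

theorem rs37 (h : TbH K E p) : RS (E 71) (E 72) (E 189) 0 (E 191) (E 2023) (E 526) := RS.hi0 ((inc h).lt 71 72 rfl) (F10 h).2.2.2.2.2.2.2.2.2.1 (F31 h).2.2.2.2.2.2.2.2.1 (V1 h).2.2.2.2.2.2.2.1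

theorem rs38 (h : TbH K E p) : RS (E 57) (E 58) 0 (E 189) (E 192) (E 2024) (E 528) := RS.lo0 ((inc h).lt 57 58 rfl) (F10 h).2.2.2.2.2.2.2.2.2.2.1 (F31 h).2.2.2.2.2.2.2.2.2.2.1 (V1 h).2.2.2.2.2.2.2.2.1

theorem rs39 (h : TbH K E p) : RS (E 43) (E 44) (E 194) (E 193) (E 190) (E 2025) (E 529) := RS.two ((inc h).lt 43 44 rfl) (F10 h).2.2.2.2.2.2.2.2.1 (F31 h).2.2.2.2.2.2.2.2.2.2.2.1 (V1 h).2.2.2.2.2.2.2.2.2.1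

theorem rs40 (h : TbH K E p) : RS (E 69) (E 72) (E 194) (E 193) (E 195) (E 2026) (E 531) := RS.two ((inc h).lt 69 72 rfl) (F10 h).2.2.2.2.2.2.2.2.2.2.2.2.2.1 (F31 h).2.2.2.2.2.2.2.2.2.2.2.2.2.1 (V1 h).2.2.2.2.2.2.2.2.2.2.1

theorem rs41 (h : TbH K E p) : RS (E 57) (E 59) (E 193) (E 194) (E 196) (E 2027) (E 533) := RS.two ((inc h).lt 57 59 rfl) (F10 h).2.2.2.2.2.2.2.2.2.2.2.2.2.2.1 (F31 h).2.2.2.2.2.2.2.2.2.2.2.2.2.2.2.1 (V1 h).2.2.2.2.2.2.2.2.2.2.2.1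

theorem rs42 (h : TbH K E p) : RS (E 42) (E 44) (E 197) 0 (E 198) (E 2028) (E 535) := RS.hi0 ((inc h).lt 42 44 rfl) (F11 h).1 (F32 h).2.1 (V1 h).2.2.2.2.2.2.2.2.2.2.2.2.1

theorem rs43 (h : TbH K E p) : RS (E 69) (E 72) (E 197) 0 (E 195) (E 2029) (E 536) := RS.hi0 ((inc h).lt 69 72 rfl) (F10 h).2.2.2.2.2.2.2.2.2.2.2.2.2.1 (F32 h).2.2.1 (V1 h).2.2.2.2.2.2.2.2.2.2.2.2.2.1

theorem rs44 (h : TbH K E p) : RS (E 57) (E 60) 0 (E 197) (E 199) (E 2030) (E 538) := RS.lo0 ((inc h).lt 57 60 rfl) (F11 h).2.1 (F32 h).2.2.2.2.1 (V1 h).2.2.2.2.2.2.2.2.2.2.2.2.2.2.1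

theorem rs45 (h : TbH K E p) : RS (E 43) (E 44) 0 (E 200) (E 190) (E 2031) (E 539) := RS.lo0 ((inc h).lt 43 44 rfl) (F10 h).2.2.2.2.2.2.2.2.1 (F32 h).2.2.2.2.2.1 (V1 h).2.2.2.2.2.2.2.2.2.2.2.2.2.2.2.1

theorem rs46 (h : TbH K E p) : RS (E 68) (E 72) 0 (E 200) (E 201) (E 2032) (E 541) := RS.lo0 ((inc h).lt 68 72 rfl) (F11 h).2.2.2.1 (F32 h).2.2.2.2.2.2.2.1 (V2 h).1

theorem rs47 (h : TbH K E p) : RS (E 57) (E 60) (E 200) 0 (E 199) (E 2033) (E 542) := RS.hi0 ((inc h).lt 57 60 rfl) (F11 h).2.1 (F32 h).2.2.2.2.2.2.2.2.1 (V2 h).2.1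

theorem rs48 (h : TbH K E p) : RS (E 42) (E 44) (E 203) (E 202) (E 198) (E 2034) (E 543) := RS.two ((inc h).lt 42 44 rfl) (F11 h).1 (F32 h).2.2.2.2.2.2.2.2.2.1 (V2 h).2.2.1

theorem rs49 (h : TbH K E p) : RS (E 68) (E 72) (E 203) (E 202) (E 201) (E 2035) (E 544) := RS.two ((inc h).lt 68 72 rfl) (F11 h).2.2.2.1 (F32 h).2.2.2.2.2.2.2.2.2.2.1 (V2 h).2.2.2.1

theorem rs50 (h : TbH K E p) : RS (E 57) (E 61) (E 202) (E 203) (E 204) (E 2036) (E 546) := RS.two ((inc h).lt 57 61 rfl) (F11 h).2.2.2.2.2.2.1 (F32 h).2.2.2.2.2.2.2.2.2.2.2.2.1 (V2 h).2.2.2.2.1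

theorem rs51 (h : TbH K E p) : RS (E 41) (E 44) (E 205) 0 (E 206) (E 2037) (E 548) := RS.hi0 ((inc h).lt 41 44 rfl) (F11 h).2.2.2.2.2.2.2.2.1 (F32 h).2.2.2.2.2.2.2.2.2.2.2.2.2.2.1 (V2 h).2.2.2.2.2.1

theorem rs52 (h : TbH K E p) : RS (E 68) (E 72) (E 205) 0 (E 201) (E 2038) (E 549) := RS.hi0 ((inc h).lt 68 72 rfl) (F11 h).2.2.2.1 (F32 h).2.2.2.2.2.2.2.2.2.2.2.2.2.2.2.1 (V2 h).2.2.2.2.2.2.1

theorem rs53 (h : TbH K E p) : RS (E 57) (E 62) 0 (E 205) (E 207) (E 2039) (E 551) := RS.lo0 ((inc h).lt 57 62 rfl) (F11 h).2.2.2.2.2.2.2.2.2.1 (F33 h).2.1 (V2 h).2.2.2.2.2.2.2.1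

theorem rs54 (h : TbH K E p) : RS (E 42) (E 43) (E 208) 0 (E 209) (E 2040) (E 553) := RS.hi0 ((inc h).lt 42 43 rfl) (F11 h).2.2.2.2.2.2.2.2.2.2.2.1 (F33 h).2.2.2.1 (V2 h).2.2.2.2.2.2.2.2.1

theorem rs55 (h : TbH K E p) : RS (E 69) (E 71) (E 208) 0 (E 210) (E 2041) (E 555) := RS.hi0 ((inc h).lt 69 71 rfl) (F11 h).2.2.2.2.2.2.2.2.2.2.2.2.1 (F33 h).2.2.2.2.2.1 (V2 h).2.2.2.2.2.2.2.2.2.1

theorem rs56 (h : TbH K E p) : RS (E 58) (E 60) 0 (E 208) (E 211) (E 2042) (E 557) := RS.lo0 ((inc h).lt 58 60 rfl) (F11 h).2.2.2.2.2.2.2.2.2.2.2.2.2.1 (F33 h).2.2.2.2.2.2.2.1 (V2 h).2.2.2.2.2.2.2.2.2.2.1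

theorem rs57 (h : TbH K E p) : RS (E 42) (E 43) 0 (E 212) (E 209) (E 2043) (E 558) := RS.lo0 ((inc h).lt 42 43 rfl) (F11 h).2.2.2.2.2.2.2.2.2.2.2.1 (F33 h).2.2.2.2.2.2.2.2.1 (V2 h).2.2.2.2.2.2.2.2.2.2.2.1

theorem rs58 (h : TbH K E p) : RS (E 68) (E 71) 0 (E 212) (E 213) (E 2044) (E 560) := RS.lo0 ((inc h).lt 68 71 rfl) (F11 h).2.2.2.2.2.2.2.2.2.2.2.2.2.2.2.1 (F33 h).2.2.2.2.2.2.2.2.2.2.1 (V2 h).2.2.2.2.2.2.2.2.2.2.2.2.1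

theorem rs59 (h : TbH K E p) : RS (E 58) (E 61) (E 212) 0 (E 214) (E 2045) (E 562) := RS.hi0 ((inc h).lt 58 61 rfl) (F12 h).1 (F33 h).2.2.2.2.2.2.2.2.2.2.2.2.1 (V2 h).2.2.2.2.2.2.2.2.2.2.2.2.2.1

theorem rs60 (h : TbH K E p) : RS (E 41) (E 42) (E 216) (E 215) (E 217) (E 2046) (E 564) := RS.two ((inc h).lt 41 42 rfl) (F12 h).2.2.2.1 (F33 h).2.2.2.2.2.2.2.2.2.2.2.2.2.2.1 (V2 h).2.2.2.2.2.2.2.2.2.2.2.2.2.2.1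

theorem rs61 (h : TbH K E p) : RS (E 69) (E 71) (E 216) (E 215) (E 210) (E 2047) (E 565) := RS.two ((inc h).lt 69 71 rfl) (F11 h).2.2.2.2.2.2.2.2.2.2.2.2.1 (F33 h).2.2.2.2.2.2.2.2.2.2.2.2.2.2.2.1 (V2 h).2.2.2.2.2.2.2.2.2.2.2.2.2.2.2.1

theorem rs62 (h : TbH K E p) : RS (E 59) (E 61) (E 215) (E 216) (E 218) (E 2048) (E 567) := RS.two ((inc h).lt 59 61 rfl) (F12 h).2.2.2.2.1 (F34 h).2.1 (V3 h).1

theorem rs63 (h : TbH K E p) : RS (E 39) (E 42) (E 219) 0 (E 220) (E 2049) (E 569) := RS.hi0 ((inc h).lt 39 42 rfl) (F12 h).2.2.2.2.2.2.1 (F34 h).2.2.2.1 (V3 h).2.1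

theorem rs64 (h : TbH K E p) : RS (E 69) (E 71) (E 219) 0 (E 210) (E 2050) (E 570) := RS.hi0 ((inc h).lt 69 71 rfl) (F11 h).2.2.2.2.2.2.2.2.2.2.2.2.1 (F34 h).2.2.2.2.1 (V3 h).2.2.1

theorem rs65 (h : TbH K E p) : RS (E 59) (E 66) 0 (E 219) (E 221) (E 2005) (E 303) := RS.lo0 ((inc h).lt 59 66 rfl) (F12 h).2.2.2.2.2.2.2.1 (F17 h).2.2.2.2.2.2.2.2.2.1 (V0 h).2.2.2.2.2.1

theorem rs66 (h : TbH K E p) : RS (E 41) (E 42) 0 (E 222) (E 217) (E 2051) (E 571) := RS.lo0 ((inc h).lt 41 42 rfl) (F12 h).2.2.2.1 (F34 h).2.2.2.2.2.1 (V3 h).2.2.2.1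

theorem rs67 (h : TbH K E p) : RS (E 68) (E 71) (E 222) 0 (E 213) (E 2052) (E 572) := RS.hi0 ((inc h).lt 68 71 rfl) (F11 h).2.2.2.2.2.2.2.2.2.2.2.2.2.2.2.1 (F34 h).2.2.2.2.2.2.1 (V3 h).2.2.2.2.1

theorem rs68 (h : TbH K E p) : RS (E 60) (E 61) 0 (E 222) (E 223) (E 2053) (E 574) := RS.lo0 ((inc h).lt 60 61 rfl) (F12 h).2.2.2.2.2.2.2.2.2.1 (F34 h).2.2.2.2.2.2.2.2.1 (V3 h).2.2.2.2.2.1

theorem rs69 (h : TbH K E p) : RS (E 40) (E 43) 0 (E 224) (E 225) (E 2054) (E 576) := RS.lo0 ((inc h).lt 40 43 rfl) (F12 h).2.2.2.2.2.2.2.2.2.2.2.1 (F34 h).2.2.2.2.2.2.2.2.2.2.1 (V3 h).2.2.2.2.2.2.1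

theorem rs70 (h : TbH K E p) : RS (E 69) (E 71) (E 224) 0 (E 210) (E 2055) (E 577) := RS.hi0 ((inc h).lt 69 71 rfl) (F11 h).2.2.2.2.2.2.2.2.2.2.2.2.1 (F34 h).2.2.2.2.2.2.2.2.2.2.2.1 (V3 h).2.2.2.2.2.2.2.1

theorem rs71 (h : TbH K E p) : RS (E 59) (E 61) (E 224) 0 (E 218) (E 2056) (E 578) := RS.hi0 ((inc h).lt 59 61 rfl) (F12 h).2.2.2.2.1 (F34 h).2.2.2.2.2.2.2.2.2.2.2.2.1 (V3 h).2.2.2.2.2.2.2.2.1

theorem rs72 (h : TbH K E p) : RS (E 40) (E 42) 0 (E 226) (E 227) (E 2057) (E 580) := RS.lo0 ((inc h).lt 40 42 rfl) (F12 h).2.2.2.2.2.2.2.2.2.2.2.2.2.1 (F34 h).2.2.2.2.2.2.2.2.2.2.2.2.2.2.1 (V3 h).2.2.2.2.2.2.2.2.2.1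

theorem rs73 (h : TbH K E p) : RS (E 69) (E 71) (E 226) 0 (E 210) (E 2058) (E 581) := RS.hi0 ((inc h).lt 69 71 rfl) (F11 h).2.2.2.2.2.2.2.2.2.2.2.2.1 (F34 h).2.2.2.2.2.2.2.2.2.2.2.2.2.2.2.1 (V3 h).2.2.2.2.2.2.2.2.2.2.1

theorem rs74 (h : TbH K E p) : RS (E 60) (E 61) (E 226) 0 (E 223) (E 2059) (E 582) := RS.hi0 ((inc h).lt 60 61 rfl) (F12 h).2.2.2.2.2.2.2.2.2.1 (F35 h).1 (V3 h).2.2.2.2.2.2.2.2.2.2.2.1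

theorem rs75 (h : TbH K E p) : RS (E 40) (E 41) 0 (E 228) (E 229) (E 2060) (E 584) := RS.lo0 ((inc h).lt 40 41 rfl) (F12 h).2.2.2.2.2.2.2.2.2.2.2.2.2.2.2.1 (F35 h).2.2.1 (V3 h).2.2.2.2.2.2.2.2.2.2.2.2.1

theorem rs76 (h : TbH K E p) : RS (E 68) (E 71) (E 228) 0 (E 213) (E 2061) (E 585) := RS.hi0 ((inc h).lt 68 71 rfl) (F11 h).2.2.2.2.2.2.2.2.2.2.2.2.2.2.2.1 (F35 h).2.2.2.1 (V3 h).2.2.2.2.2.2.2.2.2.2.2.2.2.1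

theorem rs77 (h : TbH K E p) : RS (E 61) (E 62) 0 (E 228) (E 230) (E 2062) (E 587) := RS.lo0 ((inc h).lt 61 62 rfl) (F13 h).1 (F35 h).2.2.2.2.2.1 (V3 h).2.2.2.2.2.2.2.2.2.2.2.2.2.2.1

theorem rs78 (h : TbH K E p) : RS (E 41) (E 43) (E 232) (E 231) (E 233) (E 2063) (E 589) := RS.two ((inc h).lt 41 43 rfl) (F13 h).2.2.2.1 (F35 h).2.2.2.2.2.2.2.1 (V3 h).2.2.2.2.2.2.2.2.2.2.2.2.2.2.2.1

theorem rs79 (h : TbH K E p) : RS (E 68) (E 69) (E 232) (E 231) (E 234) (E 2064) (E 591) := RS.two ((inc h).lt 68 69 rfl) (F13 h).2.2.2.2.1 (F35 h).2.2.2.2.2.2.2.2.2.1 (V4 h).1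

theorem rs80 (h : TbH K E p) : RS (E 59) (E 62) (E 231) (E 232) (E 235) (E 2065) (E 593) := RS.two ((inc h).lt 59 62 rfl) (F13 h).2.2.2.2.2.1 (F35 h).2.2.2.2.2.2.2.2.2.2.2.1 (V4 h).2.1

theorem rs81 (h : TbH K E p) : RS (E 40) (E 43) (E 236) 0 (E 225) (E 2066) (E 594) := RS.hi0 ((inc h).lt 40 43 rfl) (F12 h).2.2.2.2.2.2.2.2.2.2.2.1 (F35 h).2.2.2.2.2.2.2.2.2.2.2.2.1 (V4 h).2.2.1

theorem rs82 (h : TbH K E p) : RS (E 68) (E 69) (E 236) 0 (E 234) (E 2067) (E 595) := RS.hi0 ((inc h).lt 68 69 rfl) (F13 h).2.2.2.2.1 (F35 h).2.2.2.2.2.2.2.2.2.2.2.2.2.1 (V4 h).2.2.2.1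

theorem rs83 (h : TbH K E p) : RS (E 59) (E 64) 0 (E 236) (E 237) (E 2068) (E 597) := RS.lo0 ((inc h).lt 59 64 rfl) (F13 h).2.2.2.2.2.2.2.1 (F35 h).2.2.2.2.2.2.2.2.2.2.2.2.2.2.2.1 (V4 h).2.2.2.2.1

theorem rs84 (h : TbH K E p) : RS (E 40) (E 42) (E 238) 0 (E 227) (E 2069) (E 598) := RS.hi0 ((inc h).lt 40 42 rfl) (F12 h).2.2.2.2.2.2.2.2.2.2.2.2.2.1 (F36 h).1 (V4 h).2.2.2.2.2.1

theorem rs85 (h : TbH K E p) : RS (E 68) (E 69) (E 238) 0 (E 234) (E 2070) (E 599) := RS.hi0 ((inc h).lt 68 69 rfl) (F13 h).2.2.2.2.1 (F36 h).2.1 (V4 h).2.2.2.2.2.2.1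

theorem rs86 (h : TbH K E p) : RS (E 60) (E 64) 0 (E 238) (E 239) (E 2071) (E 601) := RS.lo0 ((inc h).lt 60 64 rfl) (F13 h).2.2.2.2.2.2.2.2.2.1 (F36 h).2.2.2.1 (V4 h).2.2.2.2.2.2.2.1

theorem rs87 (h : TbH K E p) : RS (E 39) (E 41) 0 (E 240) (E 241) (E 2072) (E 603) := RS.lo0 ((inc h).lt 39 41 rfl) (F13 h).2.2.2.2.2.2.2.2.2.2.2.1 (F36 h).2.2.2.2.2.1 (V4 h).2.2.2.2.2.2.2.2.1

theorem rs88 (h : TbH K E p) : RS (E 68) (E 69) 0 (E 240) (E 234) (E 2073) (E 604) := RS.lo0 ((inc h).lt 68 69 rfl) (F13 h).2.2.2.2.1 (F36 h).2.2.2.2.2.2.1 (V4 h).2.2.2.2.2.2.2.2.2.1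

theorem rs89 (h : TbH K E p) : RS (E 61) (E 68) (E 240) 0 (E 242) (E 2002) (E 297) := RS.hi0 ((inc h).lt 61 68 rfl) (F13 h).2.2.2.2.2.2.2.2.2.2.2.2.1 (F17 h).2.2.2.1 (V0 h).2.2.1

theorem rs90 (h : TbH K E p) : RS (E 40) (E 42) 0 (E 243) (E 227) (E 2074) (E 605) := RS.lo0 ((inc h).lt 40 42 rfl) (F12 h).2.2.2.2.2.2.2.2.2.2.2.2.2.1 (F36 h).2.2.2.2.2.2.2.1 (V4 h).2.2.2.2.2.2.2.2.2.2.1

theorem rs91 (h : TbH K E p) : RS (E 68) (E 69) (E 243) 0 (E 234) (E 2075) (E 606) := RS.hi0 ((inc h).lt 68 69 rfl) (F13 h).2.2.2.2.1 (F36 h).2.2.2.2.2.2.2.2.1 (V4 h).2.2.2.2.2.2.2.2.2.2.2.1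

theorem rs92 (h : TbH K E p) : RS (E 61) (E 62) (E 243) 0 (E 230) (E 2076) (E 607) := RS.hi0 ((inc h).lt 61 62 rfl) (F13 h).1 (F36 h).2.2.2.2.2.2.2.2.2.1 (V4 h).2.2.2.2.2.2.2.2.2.2.2.2.1

theorem rs93 (h : TbH K E p) : RS (E 39) (E 40) 0 (E 244) (E 245) (E 2077) (E 609) := RS.lo0 ((inc h).lt 39 40 rfl) (F13 h).2.2.2.2.2.2.2.2.2.2.2.2.2.2.2.1 (F36 h).2.2.2.2.2.2.2.2.2.2.2.1 (V4 h).2.2.2.2.2.2.2.2.2.2.2.2.2.1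

theorem rs94 (h : TbH K E p) : RS (E 68) (E 69) 0 (E 244) (E 234) (E 2078) (E 610) := RS.lo0 ((inc h).lt 68 69 rfl) (F13 h).2.2.2.2.1 (F36 h).2.2.2.2.2.2.2.2.2.2.2.2.1 (V4 h).2.2.2.2.2.2.2.2.2.2.2.2.2.2.1

theorem rs95 (h : TbH K E p) : RS (E 62) (E 68) (E 244) 0 (E 246) (E 2003) (E 299) := RS.hi0 ((inc h).lt 62 68 rfl) (F14 h).1 (F17 h).2.2.2.2.2.1 (V0 h).2.2.2.1

theorem rs96 (h : TbH K E p) : RS (E 39) (E 41) (E 248) (E 247) (E 241) (E 2079) (E 611) := RS.two ((inc h).lt 39 41 rfl) (F13 h).2.2.2.2.2.2.2.2.2.2.2.1 (F36 h).2.2.2.2.2.2.2.2.2.2.2.2.2.1 (V4 h).2.2.2.2.2.2.2.2.2.2.2.2.2.2.2.1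

theorem rs97 (h : TbH K E p) : RS (E 68) (E 71) (E 247) (E 248) (E 213) (E 2080) (E 612) := RS.two ((inc h).lt 68 71 rfl) (F11 h).2.2.2.2.2.2.2.2.2.2.2.2.2.2.2.1 (F36 h).2.2.2.2.2.2.2.2.2.2.2.2.2.2.1 (V5 h).1

theorem rs98 (h : TbH K E p) : RS (E 62) (E 63) (E 247) (E 248) (E 249) (E 2081) (E 614) := RS.two ((inc h).lt 62 63 rfl) (F14 h).2.2.2.1 (F37 h).1 (V5 h).2.1

theorem rs99 (h : TbH K E p) : RS (E 39) (E 41) 0 (E 250) (E 241) (E 2082) (E 615) := RS.lo0 ((inc h).lt 39 41 rfl) (F13 h).2.2.2.2.2.2.2.2.2.2.2.1 (F37 h).2.1 (V5 h).2.2.1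

theorem rs100 (h : TbH K E p) : RS (E 68) (E 69) (E 250) 0 (E 234) (E 2083) (E 616) := RS.hi0 ((inc h).lt 68 69 rfl) (F13 h).2.2.2.2.1 (F37 h).2.2.1 (V5 h).2.2.2.1

theorem rs101 (h : TbH K E p) : RS (E 62) (E 66) (E 250) 0 (E 251) (E 2006) (E 305) := RS.hi0 ((inc h).lt 62 66 rfl) (F14 h).2.2.2.2.2.1 (F17 h).2.2.2.2.2.2.2.2.2.2.2.1 (V0 h).2.2.2.2.2.2.1

theorem rs102 (h : TbH K E p) : RS (E 39) (E 40) (E 253) (E 252) (E 245) (E 2084) (E 617) := RS.two ((inc h).lt 39 40 rfl) (F13 h).2.2.2.2.2.2.2.2.2.2.2.2.2.2.2.1 (F37 h).2.2.2.1 (V5 h).2.2.2.2.1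

theorem rs103 (h : TbH K E p) : RS (E 68) (E 69) (E 252) (E 253) (E 234) (E 2085) (E 618) := RS.two ((inc h).lt 68 69 rfl) (F13 h).2.2.2.2.1 (F37 h).2.2.2.2.1 (V5 h).2.2.2.2.2.1

theorem rs104 (h : TbH K E p) : RS (E 64) (E 66) (E 252) (E 253) (E 254) (E 2007) (E 307) := RS.two ((inc h).lt 64 66 rfl) (F14 h).2.2.2.2.2.2.2.2.1 (F17 h).2.2.2.2.2.2.2.2.2.2.2.2.2.1 (V0 h).2.2.2.2.2.2.2.1

theorem rs105 (h : TbH K E p) : RS (E 38) (E 39) 0 (E 255) (E 256) (E 2086) (E 620) := RS.lo0 ((inc h).lt 38 39 rfl) (F14 h).2.2.2.2.2.2.2.2.2.2.1 (F37 h).2.2.2.2.2.2.1 (V5 h).2.2.2.2.2.2.1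

theorem rs106 (h : TbH K E p) : RS (E 70) (E 71) 0 (E 255) (E 257) (E 2087) (E 622) := RS.lo0 ((inc h).lt 70 71 rfl) (F14 h).2.2.2.2.2.2.2.2.2.2.2.1 (F37 h).2.2.2.2.2.2.2.2.1 (V5 h).2.2.2.2.2.2.2.1

theorem rs107 (h : TbH K E p) : RS (E 63) (E 67) (E 255) 0 (E 258) (E 2004) (E 301) := RS.hi0 ((inc h).lt 63 67 rfl) (F14 h).2.2.2.2.2.2.2.2.2.2.2.2.1 (F17 h).2.2.2.2.2.2.2.1 (V0 h).2.2.2.2.1

theorem rs108 (h : TbH K E p) : RS (E 50) (E 51) (E 501) 0 (E 259) (E 2088) (E 624) := RS.hi0 ((inc h).lt 50 51 rfl) (F14 h).2.2.2.2.2.2.2.2.2.2.2.2.2.1 (F37 h).2.2.2.2.2.2.2.2.2.2.1 (V5 h).2.2.2.2.2.2.2.2.1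

theorem rs109 (h : TbH K E p) : RS (E 76) (E 77) (E 501) 0 (E 260) (E 2089) (E 626) := RS.hi0 ((inc h).lt 76 77 rfl) (F14 h).2.2.2.2.2.2.2.2.2.2.2.2.2.2.1 (F37 h).2.2.2.2.2.2.2.2.2.2.2.2.1 (V5 h).2.2.2.2.2.2.2.2.2.1

theorem rs110 (h : TbH K E p) : RS (E 52) (E 53) 0 (E 501) (E 261) (E 2090) (E 628) := RS.lo0 ((inc h).lt 52 53 rfl) (F14 h).2.2.2.2.2.2.2.2.2.2.2.2.2.2.2.1 (F37 h).2.2.2.2.2.2.2.2.2.2.2.2.2.2.1 (V5 h).2.2.2.2.2.2.2.2.2.2.1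

theorem pl50_76_53 (h : TbH K E p) : E 50 + E 76 + 2 * E 53 = 2 * π := by
  linear_combination (1) * (F1 h).2.2.2.2.2.2.2.2.2.2.2.2.1 + (1) * (F3 h).2.2.2.2.2.2.1 + (2) * (F1 h).2.2.2.2.2.2.2.2.2.2.2.2.2.2.2.1 + (1) * h.l5

theorem pl51_77_52 (h : TbH K E p) : E 51 + E 77 + 2 * E 52 = 2 * π := by
  linear_combination (1) * (F1 h).2.2.2.2.2.2.2.2.2.2.2.2.2.1 + (1) * (F3 h).2.2.2.2.2.2.2.1 + (2) * (F1 h).2.2.2.2.2.2.2.2.2.2.2.2.2.2.1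

theorem pl49_75_54 (h : TbH K E p) : E 49 + E 75 + 2 * E 54 = 2 * π := by
  linear_combination (1) * (F1 h).2.2.2.2.2.2.2.2.2.2.2.1 + (1) * (F3 h).2.2.2.2.2.1 + (2) * (F2 h).1

theorem pl46_74_55 (h : TbH K E p) : E 46 + E 74 + 2 * E 55 = 2 * π := by
  linear_combination (1) * (F1 h).2.2.2.2.2.2.2.2.1 + (1) * (F3 h).2.2.2.2.1 + (2) * (F2 h).2.1 + (1) * h.l6

theorem pl45_73_56 (h : TbH K E p) : E 45 + E 73 + 2 * E 56 = 2 * π := by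
  linear_combination (1) * (F1 h).2.2.2.2.2.2.2.1 + (1) * (F3 h).2.2.2.1 + (2) * (F2 h).2.2.1

theorem pl44_72_57 (h : TbH K E p) : E 44 + E 72 + 2 * E 57 = 2 * π := by
  linear_combination (1) * (F1 h).2.2.2.2.2.2.1 + (1) * (F3 h).2.2.1 + (2) * (F2 h).2.2.2.1 + (1) * h.l7

theorem pl43_82_47 (h : TbH K E p) : E 43 + E 82 + 2 * E 47 = 2 * π := by
  linear_combination (1) * (F1 h).2.2.2.2.2.1 + (1) * (F3 h).2.2.2.2.2.2.2.2.2.2.2.2.1 + (-1) * (F2 h).2.2.2.1 + (2) * (F1 h).2.2.2.2.2.2.2.2.2.1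

theorem pl36_84_50 (h : TbH K E p) : E 36 + E 84 + 2 * E 50 = 2 * π := by
  linear_combination (1) * (F0 h).2.2.2.2.2.2.2.2.2.2.2.2.2.2.1 + (1) * (F3 h).2.2.2.2.2.2.2.2.2.2.2.2.2.2.1 + (-1) * (F2 h).2.1 + (2) * (F1 h).2.2.2.2.2.2.2.2.2.2.2.2.1

theorem pl43_71_58 (h : TbH K E p) : E 43 + E 71 + 2 * E 58 = 2 * π := by
  linear_combination (1) * (F1 h).2.2.2.2.2.1 + (1) * (F3 h).2.1 + (2) * (F2 h).2.2.2.2.1 + (1) * h.l7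

theorem pl43_69_59 (h : TbH K E p) : E 43 + E 69 + 2 * E 59 = 2 * π := by
  linear_combination (1) * (F1 h).2.2.2.2.2.1 + (1) * (F2 h).2.2.2.2.2.2.2.2.2.2.2.2.2.2.2.1 + (2) * (F2 h).2.2.2.2.2.1 + (1) * h.l7

theorem pl42_69_60 (h : TbH K E p) : E 42 + E 69 + 2 * E 60 = 2 * π := by
  linear_combination (1) * (F1 h).2.2.2.2.1 + (1) * (F2 h).2.2.2.2.2.2.2.2.2.2.2.2.2.2.2.1 + (2) * (F2 h).2.2.2.2.2.2.1 + (1) * h.l7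

theorem pl43_68_60 (h : TbH K E p) : E 43 + E 68 + 2 * E 60 = 2 * π := by
  linear_combination (1) * (F1 h).2.2.2.2.2.1 + (1) * (F2 h).2.2.2.2.2.2.2.2.2.2.2.2.2.2.1 + (2) * (F2 h).2.2.2.2.2.2.1 + (1) * h.l7

theorem pl42_68_61 (h : TbH K E p) : E 42 + E 68 + 2 * E 61 = 2 * π := by
  linear_combination (1) * (F1 h).2.2.2.2.1 + (1) * (F2 h).2.2.2.2.2.2.2.2.2.2.2.2.2.2.1 + (2) * (F2 h).2.2.2.2.2.2.2.1 + (1) * h.l7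

theorem pl41_68_62 (h : TbH K E p) : E 41 + E 68 + 2 * E 62 = 2 * π := by
  linear_combination (1) * (F1 h).2.2.2.1 + (1) * (F2 h).2.2.2.2.2.2.2.2.2.2.2.2.2.2.1 + (2) * (F2 h).2.2.2.2.2.2.2.2.1 + (1) * h.l7

theorem pl42_71_59 (h : TbH K E p) : E 42 + E 71 + 2 * E 59 = 2 * π := by
  linear_combination (1) * (F1 h).2.2.2.2.1 + (1) * (F3 h).2.1 + (2) * (F2 h).2.2.2.2.2.1 + (1) * h.l7

theorem pl41_69_61 (h : TbH K E p) : E 41 + E 69 + 2 * E 61 = 2 * π := by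
  linear_combination (1) * (F1 h).2.2.2.1 + (1) * (F2 h).2.2.2.2.2.2.2.2.2.2.2.2.2.2.2.1 + (2) * (F2 h).2.2.2.2.2.2.2.1 + (1) * h.l7

theorem pl39_69_66 (h : TbH K E p) : E 39 + E 69 + 2 * E 66 = 2 * π := by
  linear_combination (1) * (F1 h).2.1 + (1) * (F2 h).2.2.2.2.2.2.2.2.2.2.2.2.2.2.2.1 + (2) * (F2 h).2.2.2.2.2.2.2.2.2.2.2.2.1 + (1) * h.l7

theorem pl41_71_60 (h : TbH K E p) : E 41 + E 71 + 2 * E 60 = 2 * π := by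
  linear_combination (1) * (F1 h).2.2.2.1 + (1) * (F3 h).2.1 + (2) * (F2 h).2.2.2.2.2.2.1 + (1) * h.l7

theorem pl40_71_61 (h : TbH K E p) : E 40 + E 71 + 2 * E 61 = 2 * π := by
  linear_combination (1) * (F1 h).2.2.1 + (1) * (F3 h).2.1 + (2) * (F2 h).2.2.2.2.2.2.2.1 + (1) * h.l7

theorem pl40_68_64 (h : TbH K E p) : E 40 + E 68 + 2 * E 64 = 2 * π := by
  linear_combination (1) * (F1 h).2.2.1 + (1) * (F2 h).2.2.2.2.2.2.2.2.2.2.2.2.2.2.1 + (2) * (F2 h).2.2.2.2.2.2.2.2.2.2.1 + (1) * h.l7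

theorem pl39_68_68 (h : TbH K E p) : E 39 + E 68 + 2 * E 68 = 2 * π := by
  linear_combination (1) * (F1 h).2.1 + (1) * (F2 h).2.2.2.2.2.2.2.2.2.2.2.2.2.2.1 + (2) * (F2 h).2.2.2.2.2.2.2.2.2.2.2.2.2.2.1 + (1) * h.l7

theorem pl40_69_62 (h : TbH K E p) : E 40 + E 69 + 2 * E 62 = 2 * π := by
  linear_combination (1) * (F1 h).2.2.1 + (1) * (F2 h).2.2.2.2.2.2.2.2.2.2.2.2.2.2.2.1 + (2) * (F2 h).2.2.2.2.2.2.2.2.1 + (1) * h.l7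

theorem pl39_71_63 (h : TbH K E p) : E 39 + E 71 + 2 * E 63 = 2 * π := by
  linear_combination (1) * (F1 h).2.1 + (1) * (F3 h).2.1 + (2) * (F2 h).2.2.2.2.2.2.2.2.2.1 + (1) * h.l7

theorem pl38_70_67 (h : TbH K E p) : E 38 + E 70 + 2 * E 67 = 2 * π := by
  linear_combination (1) * (F1 h).1 + (1) * (F3 h).1 + (2) * (F2 h).2.2.2.2.2.2.2.2.2.2.2.2.2.1 + (1) * h.l7

theorem pl44_74_56 (h : TbH K E p) : E 44 + E 74 + 2 * E 56 = 2 * π := by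
  linear_combination (1) * (F1 h).2.2.2.2.2.2.1 + (1) * (F3 h).2.2.2.2.1 + (2) * (F2 h).2.2.1 + (1) * h.l6

noncomputable def TbC0t (E : ℕ → ℝ) : List Cell := [⟨E 49, E 2008, 0, E 323⟩, ⟨E 48, E 2009, 0, E 172⟩]

noncomputable def TbC0v (E : ℕ → ℝ) : List Cell := [⟨E 75, E 311, 0, 0⟩]

noncomputable def TbC0x (E : ℕ → ℝ) : List Cell := [⟨E 53, E 2091, E 24, E 629⟩]

noncomputable def TbC1t (E : ℕ → ℝ) : List Cell := [⟨E 47, E 337, 0, 0⟩, ⟨E 48, E 336, 0, 0⟩, ⟨E 49, E 173, 0, 0⟩]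

noncomputable def TbC1v (E : ℕ → ℝ) : List Cell := [⟨E 75, E 2092, E 23, E 630⟩, ⟨E 76, E 2093, E 23, E 631⟩]

noncomputable def TbC1x (E : ℕ → ℝ) : List Cell := [⟨E 55, E 2094, E 24, E 632⟩]

noncomputable def TbD1t (E : ℕ → ℝ) : List Cell := [⟨E 45, E 401, 0, 0⟩]

noncomputable def TbD1v (E : ℕ → ℝ) : List Cell := [⟨E 73, E 2095, E 23, E 633⟩, ⟨E 74, E 2096, E 23, E 634⟩]

noncomputable def TbD1x (E : ℕ → ℝ) : List Cell := [⟨E 57, E 2097, E 24, E 635⟩]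

noncomputable def TbD2t (E : ℕ → ℝ) : List Cell := [⟨E 45, E 2098, ((1 : ℤ) : ℝ) / ((1 : ℕ) : ℝ), E 636⟩, ⟨E 44, E 2099, ((1 : ℤ) : ℝ) / ((1 : ℕ) : ℝ), E 637⟩]

noncomputable def TbD2v (E : ℕ → ℝ) : List Cell := [⟨E 73, E 402, 0, 0⟩]

noncomputable def TbD2x (E : ℕ → ℝ) : List Cell := [⟨E 55, E 2100, E 24, E 638⟩]

noncomputable def TbAt (E : ℕ → ℝ) : List Cell := [⟨E 41, E 426, 0, 0⟩, ⟨E 38, E 425, 0, 0⟩, ⟨E 37, E 427, 0, 0⟩, ⟨E 36, E 427, 0, 0⟩]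

noncomputable def TbAv (E : ℕ → ℝ) : List Cell := [⟨E 83, E 400, 0, 0⟩, ⟨E 82, E 2010, 0, E 403⟩]

noncomputable def TbAx (E : ℕ → ℝ) : List Cell := [⟨E 49, E 2101, E 24, E 639⟩, ⟨E 48, E 2102, E 24, E 640⟩, ⟨E 47, E 2103, E 24, E 641⟩, ⟨E 46, E 2104, E 24, E 642⟩]

noncomputable def TbTt (E : ℕ → ℝ) : List Cell := [⟨E 37, E 2105, ((1 : ℤ) : ℝ) / ((1 : ℕ) : ℝ), E 643⟩, ⟨E 36, E 431, 0, 0⟩]

noncomputable def TbTv (E : ℕ → ℝ) : List Cell := [⟨E 71, E 444, 0, 0⟩, ⟨E 70, E 2011, 0, E 443⟩]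

noncomputable def TbTx (E : ℕ → ℝ) : List Cell := [⟨E 67, E 2106, E 24, E 644⟩, ⟨E 66, E 2107, E 24, E 645⟩, ⟨E 65, E 2108, E 24, E 646⟩]

noncomputable def TbBt (E : ℕ → ℝ) : List Cell := [⟨E 43, E 2109, ((1 : ℤ) : ℝ) / ((1 : ℕ) : ℝ), E 647⟩, ⟨E 42, E 2110, ((1 : ℤ) : ℝ) / ((1 : ℕ) : ℝ), E 648⟩, ⟨E 41, E 2111, ((1 : ℤ) : ℝ) / ((1 : ℕ) : ℝ), E 649⟩, ⟨E 40, E 2112, ((1 : ℤ) : ℝ) / ((1 : ℕ) : ℝ), E 650⟩, ⟨E 39, E 2113, ((1 : ℤ) : ℝ) / ((1 : ℕ) : ℝ), E 651⟩, ⟨E 38, E 2114, ((1 : ℤ) : ℝ) / ((1 : ℕ) : ℝ), E 652⟩]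

noncomputable def TbBv (E : ℕ → ℝ) : List Cell := [⟨E 71, E 2115, E 23, E 653⟩, ⟨E 70, E 2116, E 23, E 654⟩, ⟨E 69, E 2117, E 23, E 655⟩, ⟨E 68, E 2118, E 23, E 656⟩]

noncomputable def TbBx (E : ℕ → ℝ) : List Cell := [⟨E 64, E 2119, E 24, E 657⟩, ⟨E 63, E 2120, E 24, E 658⟩, ⟨E 62, E 2121, E 24, E 659⟩, ⟨E 61, E 2122, E 24, E 660⟩, ⟨E 60, E 2123, E 24, E 661⟩, ⟨E 59, E 2124, E 24, E 662⟩, ⟨E 58, E 2125, E 24, E 663⟩, ⟨E 57, E 2126, E 24, E 664⟩]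

noncomputable def TbE1t (E : ℕ → ℝ) : List Cell := [⟨E 51, E 502, 0, 0⟩]

noncomputable def TbE1v (E : ℕ → ℝ) : List Cell := [⟨E 77, E 2127, E 23, E 665⟩, ⟨E 78, E 2128, E 23, E 666⟩]

noncomputable def TbE1x (E : ℕ → ℝ) : List Cell := [⟨E 53, E 2129, E 24, E 667⟩]

noncomputable def TbE2t (E : ℕ → ℝ) : List Cell := [⟨E 51, E 499, 0, 0⟩]

noncomputable def TbE2v (E : ℕ → ℝ) : List Cell := [⟨E 79, E 2130, E 23, E 668⟩, ⟨E 80, E 498, 0, 0⟩]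

noncomputable def TbE2x (E : ℕ → ℝ) : List Cell := [⟨E 52, E 496, 0, 0⟩]

noncomputable def TbE3t (E : ℕ → ℝ) : List Cell := [⟨E 50, E 2131, ((1 : ℤ) : ℝ) / ((1 : ℕ) : ℝ), E 669⟩]

noncomputable def TbE3v (E : ℕ → ℝ) : List Cell := [⟨E 79, E 497, 0, 0⟩, ⟨E 78, E 497, 0, 0⟩, ⟨E 77, E 500, 0, 0⟩]

noncomputable def TbE3x (E : ℕ → ℝ) : List Cell := [⟨E 51, E 2132, E 24, E 670⟩]

end Tb

end Pool.Agent.MP_e5b4ec_an.Mid
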