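import Pool.Agent.MP_e5b4ec_an.Mid.Ex

set_option maxRecDepth 20000
set_option linter.unusedSimpArgs false
set_option linter.unusedVariables false

open Real

namespace Pool.Agent.MP_e5b4ec_an.Mid

def Tbd0 : List Ex := [
  .sub (.v 0) (.k 100),
  .inv (.v 0),
  .inv (.add (.v 0) (.q 1 1)),
  .add (.k 101) (.mul (.k 102) (.v 22)),
  .add (.k 103) (.mul (.k 104) (.v 22)),
  .add (.k 105) (.mul (.k 106) (.v 22)),
  .add (.k 107) (.mul (.k 108) (.v 22)),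
  .add (.k 109) (.mul (.k 110) (.v 22)),
  .add (.k 111) (.mul (.k 112) (.v 22)),
  .add (.k 113) (.mul (.k 114) (.v 22)),
  .add (.k 115) (.mul (.k 116) (.v 22)),
  .add (.k 117) (.mul (.k 118) (.v 22)),
  .sub (.q 0 1) .pi,
  .sub (.q 0 1) (.v 10),
  .sub (.v 15) (.add (.v 12) (.v 12)),
  .q 0 1]

def Tbd1 : List Ex := [
  .sub (.add (.v 12) (.v 12)) (.v 15),
  .sub (.add (.add (.v 10) (.add (.v 16) (.v 16))) (.v 18)) (.mul (.q 3 1) (.v 17)),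
  .sub (.sub (.add (.v 10) (.v 17)) (.v 29)) (.v 18),
  .sub (.sub (.add (.v 10) (.mul (.q 2 3) (.v 17))) (.v 29)) (.mul (.q 2 3) (.v 18)),
  .sub (.sub (.add (.v 10) (.mul (.q 1 3) (.v 17))) (.v 29)) (.mul (.q 1 3) (.v 18)),
  .sub (.v 10) (.v 29),
  .v 10,
  .v 27,
  .v 11,
  .sub (.add (.mul (.q 1 2) (.v 29)) (.mul (.q 1 2) (.v 16))) (.mul (.q 1 2) (.v 10)),
  .v 28,
  .sub (.sub (.add .pi .pi) (.v 26)) (.add (.v 25) (.v 25)),
  .v 12,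
  .v 13,
  .v 33,
  .v 14]

def Tbd2 : List Ex := [
  .v 25,
  .v 15,
  .sub (.add (.mul (.q 1 2) (.v 11)) (.v 15)) (.mul (.q 1 2) (.v 10)),
  .v 16,
  .sub (.add (.add (.mul (.q 1 2) (.v 29)) (.v 16)) (.mul (.q 1 6) (.v 18))) (.mul (.q 1 6) (.v 17)),
  .sub (.add (.add (.mul (.q 1 2) (.v 29)) (.v 16)) (.mul (.q 1 3) (.v 18))) (.mul (.q 1 3) (.v 17)),
  .sub (.add (.add (.mul (.q 1 2) (.v 29)) (.v 16)) (.mul (.q 1 2) (.v 18))) (.mul (.q 1 2) (.v 17)),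
  .sub (.add (.add (.mul (.q 1 2) (.v 29)) (.v 16)) (.mul (.q 2 3) (.v 18))) (.mul (.q 2 3) (.v 17)),
  .sub (.add (.add (.mul (.q 1 2) (.v 29)) (.v 16)) (.mul (.q 5 6) (.v 18))) (.mul (.q 5 6) (.v 17)),
  .sub (.mul (.q 4 3) (.v 17)) (.mul (.q 1 3) (.v 18)),
  .sub (.add (.add (.mul (.q 1 2) (.v 29)) (.v 16)) (.v 18)) (.v 17),
  .add (.mul (.q 1 2) (.v 30)) (.v 16),
  .sub (.mul (.q 7 6) (.v 17)) (.mul (.q 1 6) (.v 18)),
  .sub (.add (.add (.add (.mul (.q 1 2) (.v 31)) (.mul (.q 1 2) (.v 10))) (.mul (.q 1 2) (.v 15))) (.v 16)) (.v 12),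
  .v 17,
  .add (.mul (.q 2 3) (.v 17)) (.mul (.q 1 3) (.v 18))]

def Tbd3 : List Ex := [
  .sub (.v 18) (.v 31),
  .add (.mul (.q 1 3) (.v 17)) (.mul (.q 2 3) (.v 18)),
  .v 18,
  .sub (.sub (.sub (.add (.v 10) (.add .pi .pi)) (.v 11)) (.add (.v 15) (.v 15))) (.v 27),
  .v 19,
  .v 26,
  .v 20,
  .sub (.sub (.add .pi .pi) (.add (.v 33) (.v 33))) (.v 13),
  .sub .pi (.v 32),
  .pi,
  .sub (.add .pi .pi) (.v 78),
  .sub (.add .pi .pi) (.v 76),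
  .sub (.add .pi .pi) (.v 57),
  .sub (.add .pi .pi) (.v 56),
  .sub (.add .pi .pi) (.v 55),
  .sub (.add .pi .pi) (.v 37)]

def Tbd4 : List Ex := [
  .sin (.v 37),
  .cos (.v 37),
  .sin (.v 38),
  .cos (.v 38),
  .sin (.v 39),
  .cos (.v 39),
  .sin (.v 40),
  .cos (.v 40),
  .sin (.v 41),
  .cos (.v 41),
  .sin (.v 42),
  .cos (.v 42),
  .sin (.v 43),
  .cos (.v 43),
  .sin (.v 44),
  .cos (.v 44)]

def Tbd5 : List Ex := [
  .sin (.v 45),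
  .cos (.v 45),
  .sin (.v 46),
  .cos (.v 46),
  .sin (.v 47),
  .cos (.v 47),
  .sin (.v 48),
  .cos (.v 48),
  .sin (.v 49),
  .cos (.v 49),
  .sin (.v 50),
  .cos (.v 50),
  .sin (.v 51),
  .cos (.v 51),
  .sin (.v 52),
  .cos (.v 52)]

def Tbd6 : List Ex := [
  .sin (.v 53),
  .cos (.v 53),
  .sin (.v 54),
  .cos (.v 54),
  .sin (.v 55),
  .cos (.v 55),
  .sin (.v 56),
  .cos (.v 56),
  .sin (.v 57),
  .cos (.v 57),
  .sin (.v 58),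
  .cos (.v 58),
  .sin (.v 59),
  .cos (.v 59),
  .sin (.v 60),
  .cos (.v 60)]

def Tbd7 : List Ex := [
  .sin (.v 61),
  .cos (.v 61),
  .sin (.v 62),
  .cos (.v 62),
  .sin (.v 63),
  .cos (.v 63),
  .sin (.v 64),
  .cos (.v 64),
  .sin (.v 65),
  .cos (.v 65),
  .sin (.v 66),
  .cos (.v 66),
  .sin (.v 67),
  .cos (.v 67),
  .sin (.v 68),
  .cos (.v 68)]

def Tbd8 : List Ex := [
  .sin (.v 69),
  .cos (.v 69),
  .sin (.v 70),
  .cos (.v 70),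
  .sin (.v 71),
  .cos (.v 71),
  .sin (.v 72),
  .cos (.v 72),
  .sin (.v 73),
  .cos (.v 73),
  .sin (.v 74),
  .cos (.v 74),
  .sin (.v 75),
  .cos (.v 75),
  .sin (.v 76),
  .cos (.v 76)]

def Tbd9 : List Ex := [
  .sin (.v 77),
  .cos (.v 77),
  .sin (.v 78),
  .cos (.v 78),
  .sin (.v 79),
  .cos (.v 79),
  .add (.k 119) (.mul (.k 120) (.v 22)),
  .add (.k 121) (.mul (.k 122) (.v 22)),
  .add (.k 123) (.mul (.k 124) (.v 22)),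
  .inv (.sub (.v 49) (.v 46)),
  .inv (.sub (.v 75) (.v 74)),
  .inv (.sub (.v 55) (.v 54)),
  .add (.k 125) (.mul (.k 126) (.v 22)),
  .inv (.sub (.v 46) (.v 45)),
  .inv (.sub (.v 74) (.v 73)),
  .inv (.sub (.v 56) (.v 55))]

def Tbd10 : List Ex := [
  .inv (.sub (.v 45) (.v 44)),
  .inv (.sub (.v 73) (.v 72)),
  .inv (.sub (.v 57) (.v 56)),
  .add (.k 127) (.mul (.k 128) (.v 22)),
  .inv (.sub (.v 43) (.v 36)),
  .inv (.sub (.v 84) (.v 82)),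
  .inv (.sub (.v 50) (.v 47)),
  .add (.k 129) (.mul (.k 130) (.v 22)),
  .inv (.sub (.v 44) (.v 43)),
  .inv (.sub (.v 72) (.v 71)),
  .inv (.sub (.v 58) (.v 57)),
  .add (.k 131) (.mul (.k 132) (.v 22)),
  .add (.k 133) (.mul (.k 134) (.v 22)),
  .inv (.sub (.v 72) (.v 69)),
  .inv (.sub (.v 59) (.v 57)),
  .add (.k 135) (.mul (.k 136) (.v 22))]

def Tbd11 : List Ex := [
  .inv (.sub (.v 44) (.v 42)),
  .inv (.sub (.v 60) (.v 57)),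
  .add (.k 137) (.mul (.k 138) (.v 22)),
  .inv (.sub (.v 72) (.v 68)),
  .add (.k 139) (.mul (.k 140) (.v 22)),
  .add (.k 141) (.mul (.k 142) (.v 22)),
  .inv (.sub (.v 61) (.v 57)),
  .add (.k 143) (.mul (.k 144) (.v 22)),
  .inv (.sub (.v 44) (.v 41)),
  .inv (.sub (.v 62) (.v 57)),
  .add (.k 145) (.mul (.k 146) (.v 22)),
  .inv (.sub (.v 43) (.v 42)),
  .inv (.sub (.v 71) (.v 69)),
  .inv (.sub (.v 60) (.v 58)),
  .add (.k 147) (.mul (.k 148) (.v 22)),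
  .inv (.sub (.v 71) (.v 68))]

def Tbd12 : List Ex := [
  .inv (.sub (.v 61) (.v 58)),
  .add (.k 149) (.mul (.k 150) (.v 22)),
  .add (.k 151) (.mul (.k 152) (.v 22)),
  .inv (.sub (.v 42) (.v 41)),
  .inv (.sub (.v 61) (.v 59)),
  .add (.k 153) (.mul (.k 154) (.v 22)),
  .inv (.sub (.v 42) (.v 39)),
  .inv (.sub (.v 66) (.v 59)),
  .add (.k 155) (.mul (.k 156) (.v 22)),
  .inv (.sub (.v 61) (.v 60)),
  .add (.k 157) (.mul (.k 158) (.v 22)),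
  .inv (.sub (.v 43) (.v 40)),
  .add (.k 159) (.mul (.k 160) (.v 22)),
  .inv (.sub (.v 42) (.v 40)),
  .add (.k 161) (.mul (.k 162) (.v 22)),
  .inv (.sub (.v 41) (.v 40))]

def Tbd13 : List Ex := [
  .inv (.sub (.v 62) (.v 61)),
  .add (.k 163) (.mul (.k 164) (.v 22)),
  .add (.k 165) (.mul (.k 166) (.v 22)),
  .inv (.sub (.v 43) (.v 41)),
  .inv (.sub (.v 69) (.v 68)),
  .inv (.sub (.v 62) (.v 59)),
  .add (.k 167) (.mul (.k 168) (.v 22)),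
  .inv (.sub (.v 64) (.v 59)),
  .add (.k 169) (.mul (.k 170) (.v 22)),
  .inv (.sub (.v 64) (.v 60)),
  .add (.k 171) (.mul (.k 172) (.v 22)),
  .inv (.sub (.v 41) (.v 39)),
  .inv (.sub (.v 68) (.v 61)),
  .add (.k 173) (.mul (.k 174) (.v 22)),
  .add (.k 175) (.mul (.k 176) (.v 22)),
  .inv (.sub (.v 40) (.v 39))]

def Tbd14 : List Ex := [
  .inv (.sub (.v 68) (.v 62)),
  .add (.k 177) (.mul (.k 178) (.v 22)),
  .add (.k 179) (.mul (.k 180) (.v 22)),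
  .inv (.sub (.v 63) (.v 62)),
  .add (.k 181) (.mul (.k 182) (.v 22)),
  .inv (.sub (.v 66) (.v 62)),
  .add (.k 183) (.mul (.k 184) (.v 22)),
  .add (.k 185) (.mul (.k 186) (.v 22)),
  .inv (.sub (.v 66) (.v 64)),
  .add (.k 187) (.mul (.k 188) (.v 22)),
  .inv (.sub (.v 39) (.v 38)),
  .inv (.sub (.v 71) (.v 70)),
  .inv (.sub (.v 67) (.v 63)),
  .inv (.sub (.v 51) (.v 50)),
  .inv (.sub (.v 77) (.v 76)),
  .inv (.sub (.v 53) (.v 52))]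

def Tbd15 : List Ex := [
  .mul (.q 1 2) (.add (.v 76) (.v 75)),
  .mul (.q 1 2) (.add (.v 54) (.v 53)),
  .sub (.sub (.add .pi .pi) (.v 262)) (.add (.v 263) (.v 263)),
  .mul (.q 1 2) (.add (.v 74) (.v 76)),
  .mul (.q 1 2) (.add (.v 54) (.v 55)),
  .sub (.sub (.add .pi .pi) (.v 265)) (.add (.v 266) (.v 266)),
  .mul (.q 1 2) (.add (.v 72) (.v 74)),
  .mul (.q 1 2) (.add (.v 56) (.v 57)),
  .sub (.sub (.add .pi .pi) (.v 268)) (.add (.v 269) (.v 269)),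
  .mul (.q 1 2) (.add (.v 74) (.v 73)),
  .mul (.q 1 2) (.add (.v 56) (.v 55)),
  .sub (.sub (.add .pi .pi) (.v 271)) (.add (.v 272) (.v 272)),
  .mul (.q 1 2) (.add (.v 84) (.v 82)),
  .mul (.q 1 2) (.add (.v 50) (.v 46)),
  .sub (.sub (.add .pi .pi) (.v 274)) (.add (.v 275) (.v 275)),
  .mul (.q 1 2) (.add (.v 72) (.v 70))]

def Tbd16 : List Ex := [
  .mul (.q 1 2) (.add (.v 68) (.v 65)),
  .sub (.sub (.add .pi .pi) (.v 277)) (.add (.v 278) (.v 278)),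
  .mul (.q 1 2) (.add (.v 72) (.v 68)),
  .mul (.q 1 2) (.add (.v 65) (.v 57)),
  .sub (.sub (.add .pi .pi) (.v 280)) (.add (.v 281) (.v 281)),
  .mul (.q 1 2) (.add (.v 76) (.v 78)),
  .mul (.q 1 2) (.add (.v 52) (.v 53)),
  .sub (.sub (.add .pi .pi) (.v 283)) (.add (.v 284) (.v 284)),
  .mul (.q 1 2) (.add (.v 78) (.v 80)),
  .mul (.q 1 2) (.add (.v 51) (.v 52)),
  .sub (.sub (.add .pi .pi) (.v 286)) (.add (.v 287) (.v 287)),
  .mul (.q 1 2) (.add (.v 80) (.v 77)),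
  .mul (.q 1 2) (.add (.v 52) (.v 51)),
  .sub (.sub (.add .pi .pi) (.v 289)) (.add (.v 290) (.v 290)),
  .mul (.v 187) (.v 187),
  .sub (.q 0 1) (.mul (.v 185) (.mul (.v 187) (.v 187)))]

def Tbd17 : List Ex := [
  .mul (.v 186) (.v 186),
  .mul (.v 185) (.mul (.v 186) (.v 186)),
  .mul (.v 242) (.v 242),
  .sub (.q 0 1) (.mul (.v 240) (.mul (.v 242) (.v 242))),
  .mul (.v 246) (.v 246),
  .sub (.q 0 1) (.mul (.v 244) (.mul (.v 246) (.v 246))),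
  .mul (.v 258) (.v 258),
  .sub (.q 0 1) (.mul (.v 255) (.mul (.v 258) (.v 258))),
  .mul (.v 221) (.v 221),
  .mul (.v 219) (.mul (.v 221) (.v 221)),
  .mul (.v 251) (.v 251),
  .sub (.q 0 1) (.mul (.v 250) (.mul (.v 251) (.v 251))),
  .mul (.v 254) (.v 254),
  .mul (.sub (.v 253) (.v 252)) (.mul (.v 254) (.v 254)),
  .sub (.v 76) (.v 75),
  .sub (.q 0 1) (.mul (.v 24) (.sub (.v 119) (.v 121)))]

def Tbd18 : List Ex := [
  .inv (.v 308),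
  .sub (.q 0 1) (.mul (.v 310) (.v 309)),
  .sub (.v 50) (.v 49),
  .mul (.sub (.v 50) (.v 49)) (.sub (.mul (.q 1 2) (.add (.v 49) (.v 50))) (.v 50)),
  .sub (.add (.mul (.sub (.v 49) (.v 48)) (.mul (.sub (.v 49) (.v 48)) (.v 172))) (.mul (.mul (.sub (.v 49) (.v 48)) (.sub (.mul (.q 1 2) (.add (.v 48) (.v 49))) (.v 49))) (.v 172))) (.mul (.v 24) (.sub (.v 119) (.v 121))),
  .mul (.sub (.v 50) (.v 49)) (.sub (.mul (.q 1 2) (.add (.v 49) (.v 50))) (.v 264)),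
  .mul (.sub (.v 50) (.v 49)) (.add (.mul (.q 1 3) (.add (.add (.mul (.sub (.v 49) (.v 50)) (.sub (.v 49) (.v 50))) (.mul (.sub (.v 49) (.v 50)) (.sub (.v 50) (.v 50)))) (.mul (.sub (.v 50) (.v 50)) (.sub (.v 50) (.v 50))))) (.mul (.sub (.v 50) (.v 264)) (.sub (.mul (.q 1 2) (.add (.v 49) (.v 50))) (.v 50)))),
  .add (.add (.add (.add (.mul (.mul (.sub (.v 49) (.v 48)) (.sub (.mul (.q 1 2) (.add (.v 48) (.v 49))) (.v 264))) (.mul (.sub (.v 49) (.v 48)) (.v 172))) (.mul (.mul (.sub (.v 49) (.v 48)) (.add (.mul (.q 1 3) (.add (.add (.mul (.sub (.v 48) (.v 49)) (.sub (.v 48) (.v 49))) (.mul (.sub (.v 48) (.v 49)) (.sub (.v 49) (.v 49)))) (.mul (.sub (.v 49) (.v 49)) (.sub (.v 49) (.v 49))))) (.mul (.sub (.v 49) (.v 264)) (.sub (.mul (.q 1 2) (.add (.v 48) (.v 49))) (.v 49))))) (.v 172))) (.mul (.v 24) (.add (.sub (.v 120) (.v 118)) (.sub (.mul (.sub (.v 53) (.v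 263)) (.v 119)) (.mul (.sub (.v 54) (.v 263)) (.v 121)))))) (.mul (.v 24) (.add (.sub (.v 120) (.v 118)) (.sub (.mul (.sub (.v 53) (.v 263)) (.v 119)) (.mul (.sub (.v 54) (.v 263)) (.v 121)))))) (.mul (.mul (.sub (.v 76) (.v 75)) (.sub (.mul (.q 1 2) (.add (.v 75) (.v 76))) (.v 262))) (.v 311)),
  .inv (.v 312),
  .mul (.v 315) (.v 318),
  .sub (.v 316) (.mul (.v 319) (.v 313)),
  .sub (.v 317) (.mul (.v 319) (.v 314)),
  .inv (.v 320),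
  .sub (.q 0 1) (.mul (.v 322) (.v 321)),
  .sub (.q 0 1) (.mul (.v 318) (.add (.v 314) (.mul (.v 313) (.v 323)))),
  .sub (.v 47) (.v 46)]

def Tbd19 : List Ex := [
  .sub (.v 48) (.v 47),
  .sub (.add (.mul (.sub (.v 49) (.v 48)) (.v 173)) (.mul (.q 1 2) (.v 174))) (.mul (.v 24) (.sub (.v 121) (.v 123))),
  .mul (.sub (.v 47) (.v 46)) (.sub (.mul (.q 1 2) (.add (.v 46) (.v 47))) (.v 267)),
  .mul (.sub (.v 48) (.v 47)) (.sub (.mul (.q 1 2) (.add (.v 47) (.v 48))) (.v 267)),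
  .sub (.sub (.sub (.sub (.add (.add (.add (.mul (.mul (.sub (.v 49) (.v 48)) (.sub (.mul (.q 1 2) (.add (.v 48) (.v 49))) (.v 267))) (.v 173)) (.mul (.v 23) (.add (.sub (.v 164) (.v 160)) (.sub (.mul (.sub (.v 74) (.v 265)) (.v 161)) (.mul (.sub (.v 76) (.v 265)) (.v 165)))))) (.mul (.v 24) (.add (.sub (.v 122) (.v 120)) (.sub (.mul (.sub (.v 54) (.v 266)) (.v 121)) (.mul (.sub (.v 55) (.v 266)) (.v 123)))))) (.mul (.v 24) (.add (.sub (.v 122) (.v 120)) (.sub (.mul (.sub (.v 54) (.v 266)) (.v 121)) (.mul (.sub (.v 55) (.v 266)) (.v 123)))))) (.mul (.mul (.q 1 6) (.add (.add (.sub (.v 74) (.v 265)) (.sub (.v 74) (.v 265))) (.sub (.v 75) (.v 265)))) (.v 174))) (.mul (.mul (.q 1 6) (.add (.sub (.v 54) (.v 266)) (.add (.sub (.v 55) (.v 266)) (.sub (.v 55) (.v 266))))) (.v 174))) (.mul (.mul (.q 1 6) (.add (.sub (.v 54) (.v 266)) (.add (.sub (.v 55) (.v 266)) (.sub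 (.v 55) (.v 266))))) (.v 174))) (.mul (.mul (.sub (.v 76) (.v 75)) (.sub (.mul (.q 1 2) (.add (.v 75) (.v 76))) (.v 265))) (.v 311)),
  .inv (.v 325),
  .mul (.v 328) (.v 331),
  .sub (.v 329) (.mul (.v 332) (.v 326)),
  .sub (.v 330) (.mul (.v 332) (.v 327)),
  .inv (.v 333),
  .sub (.q 0 1) (.mul (.v 335) (.v 334)),
  .sub (.q 0 1) (.mul (.v 331) (.add (.v 327) (.mul (.v 326) (.v 336)))),
  .sub (.v 45) (.v 44),
  .sub (.q 0 1) (.mul (.mul (.v 24) (.v 0)) (.sub (.v 83) (.v 82))),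
  .sub (.q 0 1) (.mul (.mul (.v 24) (.v 0)) (.mul (.sub (.v 83) (.v 82)) (.sub (.mul (.q 1 2) (.add (.v 82) (.v 83))) (.v 83)))),
  .q 1 2]

def Tbd20 : List Ex := [
  .sub (.sub (.q 0 1) (.mul (.v 24) (.sub (.v 125) (.v 127)))) (.mul (.mul (.v 24) (.v 0)) (.mul (.sub (.v 83) (.v 82)) (.mul (.v 293) (.sub (.mul (.q 1 2) (.add (.v 82) (.v 83))) (.v 84))))),
  .sub (.q 1 2) (.q 1 2),
  .sub (.q 0 1) (.sub (.v 74) (.v 73)),
  .sub (.q 0 1) (.mul (.mul (.v 24) (.v 0)) (.sub (.v 83) (.v 82))),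
  .sub (.q 0 1) (.mul (.mul (.v 24) (.v 0)) (.mul (.sub (.v 83) (.v 82)) (.sub (.mul (.q 1 2) (.add (.v 82) (.v 83))) (.v 83)))),
  .sub (.sub (.sub (.mul (.v 23) (.sub (.v 157) (.v 161))) (.mul (.q 1 2) (.v 178))) (.mul (.v 24) (.sub (.v 125) (.v 127)))) (.mul (.mul (.v 24) (.v 0)) (.mul (.sub (.v 83) (.v 82)) (.mul (.v 293) (.sub (.mul (.q 1 2) (.add (.v 82) (.v 83))) (.v 84))))),
  .mul (.sub (.v 45) (.v 44)) (.sub (.mul (.q 1 2) (.add (.v 44) (.v 45))) (.v 270)),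
  .sub (.sub (.sub (.q 0 1) (.mul (.q 1 6) (.add (.sub (.v 72) (.v 268)) (.add (.sub (.v 73) (.v 268)) (.sub (.v 73) (.v 268)))))) (.mul (.q 1 6) (.add (.add (.sub (.v 56) (.v 269)) (.sub (.v 56) (.v 269))) (.sub (.v 57) (.v 269))))) (.mul (.q 1 6) (.add (.add (.sub (.v 56) (.v 269)) (.sub (.v 56) (.v 269))) (.sub (.v 57) (.v 269)))),
  .sub (.q 0 1) (.mul (.sub (.v 74) (.v 73)) (.sub (.mul (.q 1 2) (.add (.v 73) (.v 74))) (.v 268))),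
  .sub (.sub (.q 0 1) (.mul (.mul (.v 24) (.v 0)) (.mul (.sub (.v 83) (.v 82)) (.sub (.mul (.q 1 2) (.add (.v 82) (.v 83))) (.sub (.add .pi .pi) (.v 269)))))) (.mul (.mul (.v 24) (.v 0)) (.mul (.sub (.v 83) (.v 82)) (.sub (.mul (.q 1 2) (.add (.v 82) (.v 83))) (.sub (.add .pi .pi) (.v 269))))),
  .sub (.sub (.q 0 1) (.mul (.mul (.v 24) (.v 0)) (.mul (.sub (.v 83) (.v 82)) (.add (.mul (.q 1 3) (.add (.add (.mul (.sub (.v 82) (.v 83)) (.sub (.v 82) (.v 83))) (.mul (.sub (.v 82) (.v 83)) (.sub (.v 83) (.v 83)))) (.mul (.sub (.v 83) (.v 83)) (.sub (.v 83) (.v 83))))) (.mul (.sub (.v 83) (.sub (.add .pi .pi) (.v 269))) (.sub (.mul (.q 1 2) (.add (.v 82) (.v 83))) (.v 83))))))) (.mul (.mul (.v 24) (.v 0)) (.mul (.sub (.v 83) (.v 82)) (.add (.mul (.q 1 3) (.add (.add (.mul (.sub (.v 82) (.v 83)) (.sub (.v 82) (.v 83))) (.mul (.sub (.v 82) (.v 83)) (.sub (.v 83) (.v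 83)))) (.mul (.sub (.v 83) (.v 83)) (.sub (.v 83) (.v 83))))) (.mul (.sub (.v 83) (.sub (.add .pi .pi) (.v 269))) (.sub (.mul (.q 1 2) (.add (.v 82) (.v 83))) (.v 83)))))),
  .sub (.sub (.sub (.add (.add (.mul (.v 23) (.add (.sub (.v 160) (.v 156)) (.sub (.mul (.sub (.v 72) (.v 268)) (.v 157)) (.mul (.sub (.v 74) (.v 268)) (.v 161))))) (.mul (.v 24) (.add (.sub (.v 126) (.v 124)) (.sub (.mul (.sub (.v 56) (.v 269)) (.v 125)) (.mul (.sub (.v 57) (.v 269)) (.v 127)))))) (.mul (.v 24) (.add (.sub (.v 126) (.v 124)) (.sub (.mul (.sub (.v 56) (.v 269)) (.v 125)) (.mul (.sub (.v 57) (.v 269)) (.v 127)))))) (.mul (.mul (.q 1 6) (.add (.add (.sub (.v 73) (.v 268)) (.sub (.v 73) (.v 268))) (.sub (.v 74) (.v 268)))) (.v 178))) (.mul (.mul (.v 24) (.v 0)) (.mul (.sub (.v 83) (.v 82)) (.mul (.v 293) (.add (.mul (.q 1 3) (.add (.add (.mul (.sub (.v 82) (.v 84)) (.sub (.v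 82) (.v 84))) (.mul (.sub (.v 82) (.v 84)) (.sub (.v 83) (.v 84)))) (.mul (.sub (.v 83) (.v 84)) (.sub (.v 83) (.v 84))))) (.mul (.sub (.v 84) (.sub (.add .pi .pi) (.v 269))) (.sub (.mul (.q 1 2) (.add (.v 82) (.v 83))) (.v 84)))))))) (.mul (.mul (.v 24) (.v 0)) (.mul (.sub (.v 83) (.v 82)) (.mul (.v 293) (.add (.mul (.q 1 3) (.add (.add (.mul (.sub (.v 82) (.v 84)) (.sub (.v 82) (.v 84))) (.mul (.sub (.v 82) (.v 84)) (.sub (.v 83) (.v 84)))) (.mul (.sub (.v 83) (.v 84)) (.sub (.v 83) (.v 84))))) (.mul (.sub (.v 84) (.sub (.add .pi .pi) (.v 269))) (.sub (.mul (.q 1 2) (.add (.v 82) (.v 83))) (.v 84))))))),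
  .sub (.q 0 1) (.sub (.v 45) (.v 44)),
  .sub (.q 0 1) (.q 1 2),
  .sub (.q 0 1) (.mul (.mul (.v 24) (.v 0)) (.sub (.v 84) (.v 83))),
  .sub (.sub (.sub (.add (.mul (.q 1 1) (.sub (.v 101) (.v 105))) (.mul (.q 1 2) (.v 178))) (.mul (.q 1 2) (.v 178))) (.mul (.v 24) (.sub (.v 123) (.v 125)))) (.mul (.mul (.v 24) (.v 0)) (.mul (.sub (.v 84) (.v 83)) (.mul (.v 293) (.sub (.mul (.q 1 2) (.add (.v 83) (.v 84))) (.v 84)))))]

def Tbd21 : List Ex := [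
  .sub (.q 0 1) (.mul (.sub (.v 45) (.v 44)) (.sub (.mul (.q 1 2) (.add (.v 44) (.v 45))) (.v 273))),
  .sub (.q 0 1) (.mul (.q 1 6) (.add (.sub (.v 44) (.v 273)) (.add (.sub (.v 45) (.v 273)) (.sub (.v 45) (.v 273))))),
  .mul (.sub (.v 74) (.v 73)) (.sub (.mul (.q 1 2) (.add (.v 73) (.v 74))) (.v 271)),
  .sub (.sub (.q 0 1) (.mul (.mul (.v 24) (.v 0)) (.mul (.sub (.v 84) (.v 83)) (.sub (.mul (.q 1 2) (.add (.v 83) (.v 84))) (.sub (.add .pi .pi) (.v 272)))))) (.mul (.mul (.v 24) (.v 0)) (.mul (.sub (.v 84) (.v 83)) (.sub (.mul (.q 1 2) (.add (.v 83) (.v 84))) (.sub (.add .pi .pi) (.v 272))))),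
  .sub (.sub (.sub (.sub (.sub (.add (.add (.mul (.q 1 1) (.add (.sub (.v 104) (.v 100)) (.sub (.mul (.sub (.v 44) (.v 273)) (.v 101)) (.mul (.sub (.v 46) (.v 273)) (.v 105))))) (.mul (.v 24) (.add (.sub (.v 124) (.v 122)) (.sub (.mul (.sub (.v 55) (.v 272)) (.v 123)) (.mul (.sub (.v 56) (.v 272)) (.v 125)))))) (.mul (.v 24) (.add (.sub (.v 124) (.v 122)) (.sub (.mul (.sub (.v 55) (.v 272)) (.v 123)) (.mul (.sub (.v 56) (.v 272)) (.v 125)))))) (.mul (.mul (.q 1 6) (.add (.add (.sub (.v 45) (.v 273)) (.sub (.v 45) (.v 273))) (.sub (.v 46) (.v 273)))) (.v 178))) (.mul (.mul (.q 1 6) (.add (.sub (.v 55) (.v 272)) (.add (.sub (.v 56) (.v 272)) (.sub (.v 56) (.v 272))))) (.v 178))) (.mul (.mul (.v 24) (.v 0)) (.mul (.sub (.v 84) (.v 83)) (.mul (.v 293) (.add (.mul (.q 1 3) (.add (.add (.mul (.sub (.v 83) (.v 84)) (.sub (.v 83) (.v 84))) (.mul (.sub (.v 83) (.v 84))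 (.sub (.v 84) (.v 84)))) (.mul (.sub (.v 84) (.v 84)) (.sub (.v 84) (.v 84))))) (.mul (.sub (.v 84) (.sub (.add .pi .pi) (.v 272))) (.sub (.mul (.q 1 2) (.add (.v 83) (.v 84))) (.v 84)))))))) (.mul (.mul (.q 1 6) (.add (.sub (.v 55) (.v 272)) (.add (.sub (.v 56) (.v 272)) (.sub (.v 56) (.v 272))))) (.v 178))) (.mul (.mul (.v 24) (.v 0)) (.mul (.sub (.v 84) (.v 83)) (.mul (.v 293) (.add (.mul (.q 1 3) (.add (.add (.mul (.sub (.v 83) (.v 84)) (.sub (.v 83) (.v 84))) (.mul (.sub (.v 83) (.v 84)) (.sub (.v 84) (.v 84)))) (.mul (.sub (.v 84) (.v 84)) (.sub (.v 84) (.v 84))))) (.mul (.sub (.v 84) (.sub (.add .pi .pi) (.v 272))) (.sub (.mul (.q 1 2) (.add (.v 83) (.v 84))) (.v 84))))))),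
  .inv (.v 340),
  .mul (.v 346) (.v 363),
  .sub (.q 0 1) (.mul (.v 364) (.v 338)),
  .sub (.v 343) (.mul (.v 364) (.v 341)),
  .sub (.v 345) (.mul (.v 364) (.v 339)),
  .sub (.v 347) (.mul (.v 364) (.v 342)),
  .mul (.v 352) (.v 363),
  .sub (.v 348) (.mul (.v 369) (.v 338)),
  .sub (.v 349) (.mul (.v 369) (.v 341)),
  .sub (.v 351) (.mul (.v 369) (.v 339)),
  .sub (.v 353) (.mul (.v 369) (.v 342))]

def Tbd22 : List Ex := [
  .inv (.sub (.q 0 1) (.v 344)),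
  .mul (.v 350) (.v 374),
  .add (.v 370) (.mul (.v 375) (.v 365)),
  .add (.v 371) (.mul (.v 375) (.v 366)),
  .add (.v 372) (.mul (.v 375) (.v 367)),
  .add (.v 373) (.mul (.v 375) (.v 368)),
  .mul (.v 360) (.v 374),
  .add (.v 358) (.mul (.v 380) (.v 365)),
  .add (.v 359) (.mul (.v 380) (.v 366)),
  .add (.v 361) (.mul (.v 380) (.v 367)),
  .add (.v 362) (.mul (.v 380) (.v 368)),
  .inv (.sub (.q 0 1) (.v 354)),
  .mul (.v 376) (.v 385),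
  .add (.v 378) (.mul (.v 386) (.v 356)),
  .add (.v 377) (.mul (.v 386) (.v 355)),
  .add (.v 379) (.mul (.v 386) (.v 357))]

def Tbd23 : List Ex := [
  .mul (.v 381) (.v 385),
  .add (.v 383) (.mul (.v 390) (.v 356)),
  .add (.v 382) (.mul (.v 390) (.v 355)),
  .add (.v 384) (.mul (.v 390) (.v 357)),
  .inv (.sub (.q 0 1) (.v 387)),
  .mul (.v 391) (.v 394),
  .add (.v 392) (.mul (.v 395) (.v 388)),
  .add (.v 393) (.mul (.v 395) (.v 389)),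
  .inv (.sub (.q 0 1) (.v 396)),
  .mul (.v 398) (.v 397),
  .mul (.v 394) (.add (.v 389) (.mul (.v 388) (.v 399))),
  .mul (.v 385) (.add (.add (.v 357) (.mul (.v 355) (.v 399))) (.mul (.v 356) (.v 400))),
  .mul (.v 374) (.add (.add (.add (.v 368) (.mul (.v 365) (.v 401))) (.mul (.v 366) (.v 399))) (.mul (.v 367) (.v 400))),
  .sub (.q 0 1) (.mul (.v 363) (.add (.add (.add (.v 342) (.mul (.v 338) (.v 401))) (.mul (.v 339) (.v 400))) (.mul (.v 341) (.v 399)))),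
  .sub (.v 43) (.v 41),
  .sub (.v 41) (.v 38)]

def Tbd24 : List Ex := [
  .add (.sub (.v 38) (.v 37)) (.sub (.v 37) (.v 36)),
  .sub (.add (.add (.add (.add (.add (.add (.add (.mul (.q 1 2) (.v 185)) (.mul (.v 24) (.add (.mul (.sub (.v 49) (.v 48)) (.mul (.sub (.v 49) (.v 48)) (.v 172))) (.mul (.mul (.sub (.v 49) (.v 48)) (.sub (.mul (.q 1 2) (.add (.v 48) (.v 49))) (.v 49))) (.v 172))))) (.mul (.v 24) (.mul (.sub (.v 49) (.v 48)) (.v 173)))) (.mul (.v 24) (.mul (.q 1 2) (.v 174)))) (.mul (.mul (.v 24) (.sub (.v 50) (.v 49))) (.v 324))) (.mul (.mul (.v 24) (.mul (.sub (.v 50) (.v 49)) (.sub (.mul (.q 1 2) (.add (.v 49) (.v 50))) (.v 50)))) (.v 323))) (.mul (.mul (.v 24) (.sub (.v 48) (.v 47))) (.v 336))) (.mul (.mul (.v 24) (.sub (.v 47) (.v 46))) (.v 337))) (.mul (.v 24) (.sub (.v 105) (.v 113))),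
  .mul (.sub (.v 43) (.v 41)) (.sub (.mul (.q 1 2) (.add (.v 41) (.v 43))) (.v 276)),
  .mul (.sub (.v 41) (.v 38)) (.sub (.mul (.q 1 2) (.add (.v 38) (.v 41))) (.v 276)),
  .add (.mul (.sub (.v 38) (.v 37)) (.sub (.mul (.q 1 2) (.add (.v 37) (.v 38))) (.v 276))) (.mul (.sub (.v 37) (.v 36)) (.sub (.mul (.q 1 2) (.add (.v 36) (.v 37))) (.v 276))),
  .sub (.sub (.sub (.sub (.sub (.sub (.sub (.sub (.sub (.sub (.sub (.sub (.sub (.sub (.sub (.sub (.add (.add (.add (.add (.mul (.mul (.sub (.v 84) (.v 83)) (.sub (.mul (.q 1 2) (.add (.v 83) (.v 84))) (.v 274))) (.v 400)) (.mul (.mul (.sub (.v 83) (.v 82)) (.sub (.mul (.q 1 2) (.add (.v 82) (.v 83))) (.v 274))) (.v 400))) (.mul (.mul (.sub (.v 83) (.v 82)) (.add (.mul (.q 1 3) (.add (.add (.mul (.sub (.v 82) (.v 83)) (.sub (.v 82) (.v 83))) (.mul (.sub (.v 82) (.v 83)) (.sub (.v 83) (.v 83)))) (.mul (.sub (.v 83) (.v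 83)) (.sub (.v 83) (.v 83))))) (.mul (.sub (.v 83) (.v 274)) (.sub (.mul (.q 1 2) (.add (.v 82) (.v 83))) (.v 83))))) (.v 403))) (.mul (.v 24) (.add (.sub (.v 112) (.v 104)) (.sub (.mul (.sub (.v 46) (.v 275)) (.v 105)) (.mul (.sub (.v 50) (.v 275)) (.v 113)))))) (.mul (.v 24) (.add (.sub (.v 112) (.v 104)) (.sub (.mul (.sub (.v 46) (.v 275)) (.v 105)) (.mul (.sub (.v 50) (.v 275)) (.v 113)))))) (.mul (.mul (.q 1 6) (.add (.add (.sub (.v 47) (.v 275)) (.sub (.v 47) (.v 275))) (.sub (.v 50) (.v 275)))) (.v 185))) (.mul (.v 24) (.add (.mul (.mul (.sub (.v 49) (.v 48)) (.sub (.mul (.q 1 2) (.add (.v 48) (.v 49))) (.v 275))) (.mul (.sub (.v 49) (.v 48)) (.v 172))) (.mul (.mul (.sub (.v 49) (.v 48)) (.add (.mul (.q 1 3) (.add (.add (.mul (.sub (.v 48) (.v 49)) (.sub (.v 48) (.v 49))) (.mul (.sub (.v 48) (.v 49)) (.sub (.v 49) (.v 49)))) (.mul (.sub (.v 49) (.v 49))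 (.sub (.v 49) (.v 49))))) (.mul (.sub (.v 49) (.v 275)) (.sub (.mul (.q 1 2) (.add (.v 48) (.v 49))) (.v 49))))) (.v 172))))) (.mul (.v 24) (.mul (.mul (.sub (.v 49) (.v 48)) (.sub (.mul (.q 1 2) (.add (.v 48) (.v 49))) (.v 275))) (.v 173)))) (.mul (.v 24) (.mul (.mul (.q 1 6) (.add (.add (.sub (.v 46) (.v 275)) (.sub (.v 46) (.v 275))) (.sub (.v 49) (.v 275)))) (.v 174)))) (.mul (.mul (.q 1 6) (.add (.add (.sub (.v 47) (.v 275)) (.sub (.v 47) (.v 275))) (.sub (.v 50) (.v 275)))) (.v 185))) (.mul (.v 24) (.add (.mul (.mul (.sub (.v 49) (.v 48)) (.sub (.mul (.q 1 2) (.add (.v 48) (.v 49))) (.v 275))) (.mul (.sub (.v 49) (.v 48)) (.v 172))) (.mul (.mul (.sub (.v 49) (.v 48)) (.add (.mul (.q 1 3) (.add (.add (.mul (.sub (.v 48) (.v 49)) (.sub (.v 48) (.v 49))) (.mul (.sub (.v 48) (.v 49)) (.sub (.v 49) (.v 49)))) (.mul (.sub (.v 49) (.v 49)) (.sub (.v 49) (.v 49)))))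 (.mul (.sub (.v 49) (.v 275)) (.sub (.mul (.q 1 2) (.add (.v 48) (.v 49))) (.v 49))))) (.v 172))))) (.mul (.v 24) (.mul (.mul (.sub (.v 49) (.v 48)) (.sub (.mul (.q 1 2) (.add (.v 48) (.v 49))) (.v 275))) (.v 173)))) (.mul (.v 24) (.mul (.mul (.q 1 6) (.add (.add (.sub (.v 46) (.v 275)) (.sub (.v 46) (.v 275))) (.sub (.v 49) (.v 275)))) (.v 174)))) (.mul (.mul (.v 24) (.mul (.sub (.v 50) (.v 49)) (.sub (.mul (.q 1 2) (.add (.v 49) (.v 50))) (.v 275)))) (.v 324))) (.mul (.mul (.v 24) (.mul (.sub (.v 50) (.v 49)) (.sub (.mul (.q 1 2) (.add (.v 49) (.v 50))) (.v 275)))) (.v 324))) (.mul (.mul (.v 24) (.mul (.sub (.v 50) (.v 49)) (.add (.mul (.q 1 3) (.add (.add (.mul (.sub (.v 49) (.v 50)) (.sub (.v 49) (.v 50))) (.mul (.sub (.v 49) (.v 50)) (.sub (.v 50) (.v 50)))) (.mul (.sub (.v 50) (.v 50)) (.sub (.v 50) (.v 50))))) (.mul (.sub (.v 50) (.v 275)) (.sub (.mul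 (.q 1 2) (.add (.v 49) (.v 50))) (.v 50)))))) (.v 323))) (.mul (.mul (.v 24) (.mul (.sub (.v 50) (.v 49)) (.add (.mul (.q 1 3) (.add (.add (.mul (.sub (.v 49) (.v 50)) (.sub (.v 49) (.v 50))) (.mul (.sub (.v 49) (.v 50)) (.sub (.v 50) (.v 50)))) (.mul (.sub (.v 50) (.v 50)) (.sub (.v 50) (.v 50))))) (.mul (.sub (.v 50) (.v 275)) (.sub (.mul (.q 1 2) (.add (.v 49) (.v 50))) (.v 50)))))) (.v 323))) (.mul (.mul (.v 24) (.mul (.sub (.v 48) (.v 47)) (.sub (.mul (.q 1 2) (.add (.v 47) (.v 48))) (.v 275)))) (.v 336))) (.mul (.mul (.v 24) (.mul (.sub (.v 48) (.v 47)) (.sub (.mul (.q 1 2) (.add (.v 47) (.v 48))) (.v 275)))) (.v 336))) (.mul (.mul (.v 24) (.mul (.sub (.v 47) (.v 46)) (.sub (.mul (.q 1 2) (.add (.v 46) (.v 47))) (.v 275)))) (.v 337))) (.mul (.mul (.v 24) (.mul (.sub (.v 47) (.v 46)) (.sub (.mul (.q 1 2) (.add (.v 46) (.v 47))) (.v 275)))) (.v 337)),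
  .sub (.q 0 1) (.sub (.v 43) (.v 41)),
  .sub (.q 0 1) (.sub (.v 41) (.v 38)),
  .sub (.sub (.sub (.sub (.sub (.sub (.sub (.sub (.sub (.sub (.sub (.sub (.sub (.sub (.sub (.sub (.sub (.sub (.sub (.sub (.sub (.sub (.sub (.sub (.sub (.sub (.add (.add (.add (.add (.add (.add (.add (.add (.add (.add (.add (.add (.add (.add (.add (.add (.add (.add (.add (.add (.add (.add (.add (.add (.mul (.q 1 1) (.sub (.v 89) (.v 101))) (.mul (.sub (.v 65) (.v 59)) (.mul (.v 303) (.sub (.mul (.q 1 2) (.add (.v 59) (.v 65))) (.v 59))))) (.mul (.sub (.v 65) (.v 61)) (.mul (.v 297) (.sub (.mul (.q 1 2) (.add (.v 61) (.v 65))) (.v 68))))) (.mul (.sub (.v 65) (.v 62)) (.mul (.v 299) (.sub (.mul (.q 1 2) (.add (.v 62) (.v 65))) (.v 68))))) (.mul (.sub (.v 65) (.v 62)) (.mul (.v 305) (.sub (.mul (.q 1 2) (.add (.v 62) (.v 65))) (.v 66))))) (.mul (.sub (.v 65) (.v 64)) (.add (.mul (.v 252)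 (.v 254)) (.mul (.v 307) (.sub (.mul (.q 1 2) (.add (.v 64) (.v 65))) (.v 64)))))) (.mul (.sub (.v 65) (.v 63)) (.mul (.v 301) (.sub (.mul (.q 1 2) (.add (.v 63) (.v 65))) (.v 67))))) (.mul (.q 1 2) (.v 236))) (.mul (.q 1 2) (.v 238))) (.mul (.q 1 2) (.add (.v 247) (.v 248)))) (.mul (.q 1 2) (.v 205))) (.mul (.q 1 2) (.v 228))) (.mul (.q 1 2) (.add (.v 231) (.v 232)))) (.mul (.q 1 2) (.v 243))) (.mul (.q 1 2) (.add (.v 202) (.v 203)))) (.mul (.q 1 2) (.v 212))) (.mul (.q 1 2) (.add (.v 215) (.v 216)))) (.mul (.q 1 2) (.v 222))) (.mul (.q 1 2) (.v 224))) (.mul (.q 1 2) (.v 226))) (.mul (.q 1 2) (.v 197))) (.mul (.q 1 2) (.v 200))) (.mul (.q 1 2) (.v 208))) (.mul (.q 1 2) (.add (.v 193) (.v 194)))) (.mul (.q 1 2) (.v 189))) (.mul (.q 1 2) (.v 189))) (.mul (.q 1 2) (.add (.v 194) (.v 193)))) (.mul (.q 1 2) (.v 197))) (.mul (.q 1 2) (.v 200))) (.mul (.q 1 2) (.add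 (.v 203) (.v 202)))) (.mul (.q 1 2) (.v 205))) (.mul (.sub (.v 43) (.v 38)) (.mul (.v 295) (.sub (.mul (.q 1 2) (.add (.v 38) (.v 43))) (.v 36))))) (.mul (.q 1 2) (.v 208))) (.mul (.q 1 2) (.v 212))) (.mul (.q 1 2) (.v 224))) (.mul (.q 1 2) (.add (.v 232) (.v 231)))) (.mul (.q 1 2) (.v 236))) (.mul (.q 1 2) (.add (.v 216) (.v 215)))) (.mul (.q 1 2) (.v 219))) (.mul (.q 1 2) (.v 222))) (.mul (.q 1 2) (.v 226))) (.mul (.q 1 2) (.v 238))) (.mul (.q 1 2) (.v 243))) (.mul (.q 1 2) (.v 228))) (.mul (.q 1 2) (.v 240))) (.mul (.q 1 2) (.add (.v 248) (.v 247)))) (.mul (.q 1 2) (.v 250))) (.mul (.q 1 2) (.v 244))) (.mul (.q 1 2) (.add (.v 253) (.v 252)))) (.mul (.q 1 2) (.v 255))) (.mul (.v 24) (.sub (.v 127) (.v 143))),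
  .inv (.v 406),
  .mul (.v 410) (.v 415),
  .sub (.v 408) (.mul (.v 416) (.v 404)),
  .sub (.v 409) (.mul (.v 416) (.v 405)),
  .sub (.v 411) (.mul (.v 416) (.v 407)),
  .inv (.sub (.q 0 1) (.v 412)),
  .mul (.v 417) (.v 420)]

def Tbd25 : List Ex := [
  .add (.v 418) (.mul (.v 421) (.v 413)),
  .add (.v 419) (.mul (.v 421) (.v 414)),
  .inv (.sub (.q 0 1) (.v 422)),
  .mul (.v 424) (.v 423),
  .mul (.v 420) (.add (.v 414) (.mul (.v 413) (.v 425))),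
  .sub (.q 0 1) (.mul (.v 415) (.add (.add (.v 407) (.mul (.v 404) (.v 426))) (.mul (.v 405) (.v 425)))),
  .add (.sub (.v 37) (.v 36)) (.sub (.v 37) (.v 36)),
  .sub (.sub (.sub (.add (.add (.add (.add (.add (.add (.add (.add (.mul (.q 1 1) (.sub (.v 87) (.v 89))) (.mul (.sub (.v 37) (.v 36)) (.mul (.v 295) (.sub (.mul (.q 1 2) (.add (.v 36) (.v 37))) (.v 36))))) (.mul (.sub (.v 68) (.v 65)) (.mul (.v 297) (.sub (.mul (.q 1 2) (.add (.v 65) (.v 68))) (.v 68))))) (.mul (.sub (.v 68) (.v 65)) (.mul (.v 299) (.sub (.mul (.q 1 2) (.add (.v 65) (.v 68))) (.v 68))))) (.mul (.sub (.v 67) (.v 65)) (.mul (.v 301) (.sub (.mul (.q 1 2) (.add (.v 65) (.v 67))) (.v 67))))) (.mul (.sub (.v 66) (.v 65)) (.mul (.v 303) (.sub (.mul (.q 1 2) (.add (.v 65) (.v 66))) (.v 59))))) (.mul (.sub (.v 66) (.v 65)) (.mul (.v 305) (.sub (.mul (.q 1 2) (.add (.v 65) (.v 66))) (.v 66)))))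 (.mul (.sub (.v 66) (.v 65)) (.add (.mul (.v 253) (.v 254)) (.mul (.v 307) (.sub (.mul (.q 1 2) (.add (.v 65) (.v 66))) (.v 66)))))) (.mul (.sub (.v 37) (.v 36)) (.v 427))) (.mul (.sub (.v 38) (.v 37)) (.mul (.v 295) (.sub (.mul (.q 1 2) (.add (.v 37) (.v 38))) (.v 36))))) (.mul (.v 24) (.sub (.v 143) (.v 149)))) (.mul (.sub (.v 38) (.v 37)) (.v 427)),
  .inv (.v 428),
  .sub (.q 0 1) (.mul (.v 430) (.v 429)),
  .sub (.v 72) (.v 71),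
  .add (.mul (.sub (.v 71) (.v 70)) (.sub (.v 71) (.v 70))) (.mul (.sub (.v 71) (.v 70)) (.sub (.mul (.q 1 2) (.add (.v 70) (.v 71))) (.v 71))),
  .sub (.add (.add (.add (.add (.add (.mul (.sub (.v 68) (.v 65)) (.mul (.v 297) (.sub (.mul (.q 1 2) (.add (.v 65) (.v 68))) (.v 68)))) (.mul (.sub (.v 68) (.v 65)) (.mul (.v 299) (.sub (.mul (.q 1 2) (.add (.v 65) (.v 68))) (.v 68))))) (.mul (.sub (.v 67) (.v 65)) (.mul (.v 301) (.sub (.mul (.q 1 2) (.add (.v 65) (.v 67))) (.v 67))))) (.mul (.sub (.v 66) (.v 65)) (.mul (.v 303) (.sub (.mul (.q 1 2) (.add (.v 65) (.v 66))) (.v 59))))) (.mul (.sub (.v 66) (.v 65)) (.mul (.v 305) (.sub (.mul (.q 1 2) (.add (.v 65) (.v 66))) (.v 66))))) (.mul (.sub (.v 66) (.v 65)) (.add (.mul (.v 253) (.v 254)) (.mul (.v 307) (.sub (.mul (.q 1 2) (.add (.v 65) (.v 66))) (.v 66)))))) (.mul (.v 24) (.sub (.v 143) (.v 149))),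
  .mul (.sub (.v 72) (.v 71)) (.sub (.mul (.q 1 2) (.add (.v 71) (.v 72))) (.v 277)),
  .add (.mul (.mul (.sub (.v 71) (.v 70)) (.sub (.mul (.q 1 2) (.add (.v 70) (.v 71))) (.v 277))) (.sub (.v 71) (.v 70))) (.mul (.sub (.v 71) (.v 70)) (.add (.mul (.q 1 3) (.add (.add (.mul (.sub (.v 70) (.v 71)) (.sub (.v 70) (.v 71))) (.mul (.sub (.v 70) (.v 71)) (.sub (.v 71) (.v 71)))) (.mul (.sub (.v 71) (.v 71)) (.sub (.v 71) (.v 71))))) (.mul (.sub (.v 71) (.v 277)) (.sub (.mul (.q 1 2) (.add (.v 70) (.v 71))) (.v 71))))),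
  .sub (.sub (.sub (.sub (.sub (.sub (.sub (.sub (.sub (.sub (.sub (.sub (.sub (.sub (.sub (.sub (.sub (.add (.add (.add (.mul (.mul (.sub (.v 37) (.v 36)) (.sub (.mul (.q 1 2) (.add (.v 36) (.v 37))) (.v 279))) (.v 431)) (.mul (.q 1 1) (.add (.sub (.v 88) (.v 86)) (.sub (.mul (.sub (.v 37) (.v 279)) (.v 87)) (.mul (.sub (.v 38) (.v 279)) (.v 89)))))) (.mul (.v 24) (.add (.sub (.v 148) (.v 142)) (.sub (.mul (.sub (.v 65) (.v 278)) (.v 143)) (.mul (.sub (.v 68) (.v 278)) (.v 149)))))) (.mul (.v 24) (.add (.sub (.v 148) (.v 142)) (.sub (.mul (.sub (.v 65) (.v 278)) (.v 143)) (.mul (.sub (.v 68) (.v 278)) (.v 149)))))) (.mul (.mul (.sub (.v 37) (.v 36)) (.sub (.mul (.q 1 2) (.add (.v 36) (.v 37))) (.sub (.q 0 1) (.v 279)))) (.v 431))) (.mul (.sub (.v 37) (.v 36)) (.mul (.v 295) (.add (.mul (.q 1 3) (.add (.add (.mul (.sub (.v 36) (.v 36)) (.sub (.v 36) (.v 36)))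 (.mul (.sub (.v 36) (.v 36)) (.sub (.v 37) (.v 36)))) (.mul (.sub (.v 37) (.v 36)) (.sub (.v 37) (.v 36))))) (.mul (.sub (.v 36) (.sub (.q 0 1) (.v 279))) (.sub (.mul (.q 1 2) (.add (.v 36) (.v 37))) (.v 36))))))) (.mul (.sub (.v 38) (.v 37)) (.mul (.v 295) (.add (.mul (.q 1 3) (.add (.add (.mul (.sub (.v 37) (.v 36)) (.sub (.v 37) (.v 36))) (.mul (.sub (.v 37) (.v 36)) (.sub (.v 38) (.v 36)))) (.mul (.sub (.v 38) (.v 36)) (.sub (.v 38) (.v 36))))) (.mul (.sub (.v 36) (.v 279)) (.sub (.mul (.q 1 2) (.add (.v 37) (.v 38))) (.v 36))))))) (.mul (.sub (.v 68) (.v 65)) (.mul (.v 297) (.add (.mul (.q 1 3) (.add (.add (.mul (.sub (.v 65) (.v 68)) (.sub (.v 65) (.v 68))) (.mul (.sub (.v 65) (.v 68)) (.sub (.v 68) (.v 68)))) (.mul (.sub (.v 68) (.v 68)) (.sub (.v 68) (.v 68))))) (.mul (.sub (.v 68) (.v 278)) (.sub (.mul (.q 1 2) (.add (.v 65) (.v 68))) (.v 68))))))) (.mul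 (.sub (.v 68) (.v 65)) (.mul (.v 299) (.add (.mul (.q 1 3) (.add (.add (.mul (.sub (.v 65) (.v 68)) (.sub (.v 65) (.v 68))) (.mul (.sub (.v 65) (.v 68)) (.sub (.v 68) (.v 68)))) (.mul (.sub (.v 68) (.v 68)) (.sub (.v 68) (.v 68))))) (.mul (.sub (.v 68) (.v 278)) (.sub (.mul (.q 1 2) (.add (.v 65) (.v 68))) (.v 68))))))) (.mul (.sub (.v 67) (.v 65)) (.mul (.v 301) (.add (.mul (.q 1 3) (.add (.add (.mul (.sub (.v 65) (.v 67)) (.sub (.v 65) (.v 67))) (.mul (.sub (.v 65) (.v 67)) (.sub (.v 67) (.v 67)))) (.mul (.sub (.v 67) (.v 67)) (.sub (.v 67) (.v 67))))) (.mul (.sub (.v 67) (.v 278)) (.sub (.mul (.q 1 2) (.add (.v 65) (.v 67))) (.v 67))))))) (.mul (.sub (.v 66) (.v 65)) (.mul (.v 303) (.add (.mul (.q 1 3) (.add (.add (.mul (.sub (.v 65) (.v 59)) (.sub (.v 65) (.v 59))) (.mul (.sub (.v 65) (.v 59)) (.sub (.v 66) (.v 59)))) (.mul (.sub (.v 66) (.v 59)) (.sub (.v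 66) (.v 59))))) (.mul (.sub (.v 59) (.v 278)) (.sub (.mul (.q 1 2) (.add (.v 65) (.v 66))) (.v 59))))))) (.mul (.sub (.v 66) (.v 65)) (.mul (.v 305) (.add (.mul (.q 1 3) (.add (.add (.mul (.sub (.v 65) (.v 66)) (.sub (.v 65) (.v 66))) (.mul (.sub (.v 65) (.v 66)) (.sub (.v 66) (.v 66)))) (.mul (.sub (.v 66) (.v 66)) (.sub (.v 66) (.v 66))))) (.mul (.sub (.v 66) (.v 278)) (.sub (.mul (.q 1 2) (.add (.v 65) (.v 66))) (.v 66))))))) (.mul (.sub (.v 66) (.v 65)) (.add (.mul (.mul (.v 253) (.v 254)) (.sub (.mul (.q 1 2) (.add (.v 65) (.v 66))) (.v 278))) (.mul (.v 307) (.add (.mul (.q 1 3) (.add (.add (.mul (.sub (.v 65) (.v 66)) (.sub (.v 65) (.v 66))) (.mul (.sub (.v 65) (.v 66)) (.sub (.v 66) (.v 66)))) (.mul (.sub (.v 66) (.v 66)) (.sub (.v 66) (.v 66))))) (.mul (.sub (.v 66) (.v 278)) (.sub (.mul (.q 1 2) (.add (.v 65) (.v 66))) (.v 66)))))))) (.mul (.sub (.v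 68) (.v 65)) (.mul (.v 297) (.add (.mul (.q 1 3) (.add (.add (.mul (.sub (.v 65) (.v 68)) (.sub (.v 65) (.v 68))) (.mul (.sub (.v 65) (.v 68)) (.sub (.v 68) (.v 68)))) (.mul (.sub (.v 68) (.v 68)) (.sub (.v 68) (.v 68))))) (.mul (.sub (.v 68) (.v 278)) (.sub (.mul (.q 1 2) (.add (.v 65) (.v 68))) (.v 68))))))) (.mul (.sub (.v 68) (.v 65)) (.mul (.v 299) (.add (.mul (.q 1 3) (.add (.add (.mul (.sub (.v 65) (.v 68)) (.sub (.v 65) (.v 68))) (.mul (.sub (.v 65) (.v 68)) (.sub (.v 68) (.v 68)))) (.mul (.sub (.v 68) (.v 68)) (.sub (.v 68) (.v 68))))) (.mul (.sub (.v 68) (.v 278)) (.sub (.mul (.q 1 2) (.add (.v 65) (.v 68))) (.v 68))))))) (.mul (.sub (.v 67) (.v 65)) (.mul (.v 301) (.add (.mul (.q 1 3) (.add (.add (.mul (.sub (.v 65) (.v 67)) (.sub (.v 65) (.v 67))) (.mul (.sub (.v 65) (.v 67)) (.sub (.v 67) (.v 67)))) (.mul (.sub (.v 67) (.v 67)) (.sub (.v 67) (.v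 67))))) (.mul (.sub (.v 67) (.v 278)) (.sub (.mul (.q 1 2) (.add (.v 65) (.v 67))) (.v 67))))))) (.mul (.sub (.v 66) (.v 65)) (.mul (.v 303) (.add (.mul (.q 1 3) (.add (.add (.mul (.sub (.v 65) (.v 59)) (.sub (.v 65) (.v 59))) (.mul (.sub (.v 65) (.v 59)) (.sub (.v 66) (.v 59)))) (.mul (.sub (.v 66) (.v 59)) (.sub (.v 66) (.v 59))))) (.mul (.sub (.v 59) (.v 278)) (.sub (.mul (.q 1 2) (.add (.v 65) (.v 66))) (.v 59))))))) (.mul (.sub (.v 66) (.v 65)) (.mul (.v 305) (.add (.mul (.q 1 3) (.add (.add (.mul (.sub (.v 65) (.v 66)) (.sub (.v 65) (.v 66))) (.mul (.sub (.v 65) (.v 66)) (.sub (.v 66) (.v 66)))) (.mul (.sub (.v 66) (.v 66)) (.sub (.v 66) (.v 66))))) (.mul (.sub (.v 66) (.v 278)) (.sub (.mul (.q 1 2) (.add (.v 65) (.v 66))) (.v 66))))))) (.mul (.sub (.v 66) (.v 65)) (.add (.mul (.mul (.v 253) (.v 254)) (.sub (.mul (.q 1 2) (.add (.v 65) (.v 66))) (.v 278)))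 (.mul (.v 307) (.add (.mul (.q 1 3) (.add (.add (.mul (.sub (.v 65) (.v 66)) (.sub (.v 65) (.v 66))) (.mul (.sub (.v 65) (.v 66)) (.sub (.v 66) (.v 66)))) (.mul (.sub (.v 66) (.v 66)) (.sub (.v 66) (.v 66))))) (.mul (.sub (.v 66) (.v 278)) (.sub (.mul (.q 1 2) (.add (.v 65) (.v 66))) (.v 66)))))))) (.mul (.mul (.sub (.v 38) (.v 37)) (.sub (.mul (.q 1 2) (.add (.v 37) (.v 38))) (.v 279))) (.v 427))) (.mul (.mul (.sub (.v 37) (.v 36)) (.sub (.mul (.q 1 2) (.add (.v 36) (.v 37))) (.sub (.q 0 1) (.v 279)))) (.v 427))]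

def Tbd26 : List Ex := [
  .inv (.v 432),
  .mul (.v 435) (.v 438),
  .sub (.v 436) (.mul (.v 439) (.v 433)),
  .sub (.v 437) (.mul (.v 439) (.v 434)),
  .inv (.sub (.q 0 1) (.v 440)),
  .mul (.v 442) (.v 441),
  .sub (.q 0 1) (.mul (.v 438) (.add (.v 434) (.mul (.v 433) (.v 443)))),
  .sub (.v 51) (.v 50),
  .q 1 2,
  .sub (.q 0 1) (.mul (.v 24) (.sub (.v 117) (.v 119))),
  .sub (.q 1 2) (.q 1 2),
  .sub (.q 0 1) (.sub (.v 78) (.v 77)),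
  .sub (.mul (.v 23) (.sub (.v 165) (.v 169))) (.mul (.v 24) (.sub (.v 117) (.v 119))),
  .mul (.sub (.v 51) (.v 50)) (.sub (.mul (.q 1 2) (.add (.v 50) (.v 51))) (.v 285)),
  .sub (.sub (.sub (.q 0 1) (.mul (.q 1 6) (.add (.add (.sub (.v 76) (.v 283)) (.sub (.v 76) (.v 283))) (.sub (.v 77) (.v 283))))) (.mul (.q 1 6) (.add (.sub (.v 52) (.v 284)) (.add (.sub (.v 53) (.v 284)) (.sub (.v 53) (.v 284)))))) (.mul (.q 1 6) (.add (.sub (.v 52) (.v 284)) (.add (.sub (.v 53) (.v 284)) (.sub (.v 53) (.v 284))))),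
  .sub (.q 0 1) (.mul (.sub (.v 78) (.v 77)) (.sub (.mul (.q 1 2) (.add (.v 77) (.v 78))) (.v 283)))]

def Tbd27 : List Ex := [
  .add (.add (.mul (.v 23) (.add (.sub (.v 168) (.v 164)) (.sub (.mul (.sub (.v 76) (.v 283)) (.v 165)) (.mul (.sub (.v 78) (.v 283)) (.v 169))))) (.mul (.v 24) (.add (.sub (.v 118) (.v 116)) (.sub (.mul (.sub (.v 52) (.v 284)) (.v 117)) (.mul (.sub (.v 53) (.v 284)) (.v 119)))))) (.mul (.v 24) (.add (.sub (.v 118) (.v 116)) (.sub (.mul (.sub (.v 52) (.v 284)) (.v 117)) (.mul (.sub (.v 53) (.v 284)) (.v 119))))),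
  .sub (.v 51) (.v 50),
  .sub (.q 0 1) (.sub (.v 52) (.v 51)),
  .q 0 1,
  .add (.sub (.v 80) (.v 79)) (.sub (.v 80) (.v 79)),
  .sub (.sub (.v 80) (.v 79)) (.sub (.v 79) (.v 78)),
  .sub (.q 0 1) (.sub (.v 52) (.v 51)),
  .mul (.v 23) (.sub (.v 169) (.v 171)),
  .mul (.sub (.v 51) (.v 50)) (.sub (.mul (.q 1 2) (.add (.v 50) (.v 51))) (.v 288)),
  .sub (.mul (.sub (.v 80) (.v 79)) (.sub (.mul (.q 1 2) (.add (.v 79) (.v 80))) (.v 286))) (.mul (.sub (.v 80) (.v 79)) (.sub (.mul (.q 1 2) (.add (.v 79) (.v 80))) (.sub (.add .pi .pi) (.v 286)))),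
  .sub (.sub (.q 0 1) (.mul (.sub (.v 80) (.v 79)) (.sub (.mul (.q 1 2) (.add (.v 79) (.v 80))) (.sub (.add .pi .pi) (.v 286))))) (.mul (.sub (.v 79) (.v 78)) (.sub (.mul (.q 1 2) (.add (.v 78) (.v 79))) (.v 286))),
  .add (.mul (.sub (.v 52) (.v 51)) (.sub (.mul (.q 1 2) (.add (.v 51) (.v 52))) (.v 287))) (.mul (.sub (.v 52) (.v 51)) (.sub (.mul (.q 1 2) (.add (.v 51) (.v 52))) (.v 287))),
  .mul (.v 23) (.add (.sub (.v 170) (.v 168)) (.sub (.mul (.sub (.v 78) (.v 286)) (.v 169)) (.mul (.sub (.v 79) (.v 286)) (.v 171)))),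
  .add (.sub (.v 80) (.v 79)) (.sub (.v 79) (.v 78)),
  .sub (.v 78) (.v 77),
  .sub (.v 52) (.v 51)]

def Tbd28 : List Ex := [
  .sub (.q 0 1) (.mul (.v 24) (.sub (.v 115) (.v 117))),
  .inv (.v 445),
  .mul (.v 451) (.v 471),
  .sub (.v 452) (.mul (.v 472) (.v 446)),
  .sub (.v 454) (.mul (.v 472) (.v 447)),
  .inv (.sub (.q 0 1) (.v 473)),
  .mul (.v 448) (.v 475),
  .add (.v 449) (.mul (.v 476) (.v 453)),
  .add (.v 450) (.mul (.v 476) (.v 474)),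
  .inv (.sub (.q 0 1) (.v 477)),
  .mul (.v 468) (.v 479),
  .add (.v 470) (.mul (.v 480) (.v 478)),
  .inv (.v 455),
  .mul (.v 462) (.v 482),
  .sub (.v 465) (.mul (.v 483) (.v 456)),
  .sub (.v 466) (.mul (.v 483) (.v 457))]

def Tbd29 : List Ex := [
  .inv (.v 458),
  .mul (.v 463) (.v 486),
  .sub (.v 484) (.mul (.v 487) (.v 460)),
  .sub (.v 464) (.mul (.v 487) (.v 459)),
  .sub (.v 485) (.mul (.v 487) (.v 461)),
  .inv (.v 467),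
  .mul (.v 489) (.v 491),
  .sub (.v 488) (.mul (.v 492) (.v 469)),
  .sub (.v 490) (.mul (.v 492) (.v 481)),
  .inv (.v 493),
  .sub (.q 0 1) (.mul (.v 495) (.v 494)),
  .sub (.q 0 1) (.mul (.v 491) (.add (.v 481) (.mul (.v 469) (.v 496)))),
  .sub (.q 0 1) (.mul (.v 486) (.add (.add (.v 461) (.mul (.v 459) (.v 497))) (.mul (.v 460) (.v 496)))),
  .sub (.q 0 1) (.mul (.v 482) (.add (.v 457) (.mul (.v 456) (.v 496)))),
  .mul (.v 479) (.v 478),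
  .mul (.v 475) (.add (.v 474) (.mul (.v 453) (.v 500)))]

def Tbd30 : List Ex := [
  .sub (.q 0 1) (.mul (.v 471) (.add (.v 447) (.mul (.v 446) (.v 501)))),
  .mul (.v 175) (.v 175),
  .sub (.q 0 1) (.mul (.v 174) (.mul (.v 175) (.v 175))),
  .mul (.v 176) (.v 176),
  .sub (.q 0 1) (.mul (.v 174) (.mul (.v 176) (.v 176))),
  .mul (.v 177) (.v 177),
  .mul (.v 174) (.mul (.v 177) (.v 177)),
  .mul (.v 179) (.v 179),
  .sub (.q 0 1) (.mul (.v 178) (.mul (.v 179) (.v 179))),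
  .mul (.v 180) (.v 180),
  .sub (.q 0 1) (.mul (.v 178) (.mul (.v 180) (.v 180))),
  .mul (.v 181) (.v 181),
  .mul (.v 178) (.mul (.v 181) (.v 181)),
  .mul (.v 182) (.v 182),
  .mul (.v 399) (.mul (.v 182) (.v 182)),
  .mul (.v 183) (.v 183)]

def Tbd31 : List Ex := [
  .mul (.v 399) (.mul (.v 183) (.v 183)),
  .mul (.v 184) (.v 184),
  .sub (.q 0 1) (.mul (.v 399) (.mul (.v 184) (.v 184))),
  .mul (.v 188) (.v 188),
  .sub (.q 0 1) (.mul (.v 185) (.mul (.v 188) (.v 188))),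
  .mul (.v 190) (.v 190),
  .sub (.q 0 1) (.mul (.v 189) (.mul (.v 190) (.v 190))),
  .mul (.v 191) (.v 191),
  .sub (.q 0 1) (.mul (.v 189) (.mul (.v 191) (.v 191))),
  .mul (.v 192) (.v 192),
  .mul (.v 189) (.mul (.v 192) (.v 192)),
  .mul (.sub (.v 193) (.v 194)) (.mul (.v 190) (.v 190)),
  .mul (.v 195) (.v 195),
  .mul (.sub (.v 193) (.v 194)) (.mul (.v 195) (.v 195)),
  .mul (.v 196) (.v 196),
  .mul (.sub (.v 194) (.v 193)) (.mul (.v 196) (.v 196))]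

def Tbd32 : List Ex := [
  .mul (.v 198) (.v 198),
  .sub (.q 0 1) (.mul (.v 197) (.mul (.v 198) (.v 198))),
  .sub (.q 0 1) (.mul (.v 197) (.mul (.v 195) (.v 195))),
  .mul (.v 199) (.v 199),
  .mul (.v 197) (.mul (.v 199) (.v 199)),
  .mul (.v 200) (.mul (.v 190) (.v 190)),
  .mul (.v 201) (.v 201),
  .mul (.v 200) (.mul (.v 201) (.v 201)),
  .sub (.q 0 1) (.mul (.v 200) (.mul (.v 199) (.v 199))),
  .mul (.sub (.v 202) (.v 203)) (.mul (.v 198) (.v 198)),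
  .mul (.sub (.v 202) (.v 203)) (.mul (.v 201) (.v 201)),
  .mul (.v 204) (.v 204),
  .mul (.sub (.v 203) (.v 202)) (.mul (.v 204) (.v 204)),
  .mul (.v 206) (.v 206),
  .sub (.q 0 1) (.mul (.v 205) (.mul (.v 206) (.v 206))),
  .sub (.q 0 1) (.mul (.v 205) (.mul (.v 201) (.v 201)))]

def Tbd33 : List Ex := [
  .mul (.v 207) (.v 207),
  .mul (.v 205) (.mul (.v 207) (.v 207)),
  .mul (.v 209) (.v 209),
  .sub (.q 0 1) (.mul (.v 208) (.mul (.v 209) (.v 209))),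
  .mul (.v 210) (.v 210),
  .sub (.q 0 1) (.mul (.v 208) (.mul (.v 210) (.v 210))),
  .mul (.v 211) (.v 211),
  .mul (.v 208) (.mul (.v 211) (.v 211)),
  .mul (.v 212) (.mul (.v 209) (.v 209)),
  .mul (.v 213) (.v 213),
  .mul (.v 212) (.mul (.v 213) (.v 213)),
  .mul (.v 214) (.v 214),
  .sub (.q 0 1) (.mul (.v 212) (.mul (.v 214) (.v 214))),
  .mul (.v 217) (.v 217),
  .mul (.sub (.v 215) (.v 216)) (.mul (.v 217) (.v 217)),
  .mul (.sub (.v 215) (.v 216)) (.mul (.v 210) (.v 210))]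

def Tbd34 : List Ex := [
  .mul (.v 218) (.v 218),
  .mul (.sub (.v 216) (.v 215)) (.mul (.v 218) (.v 218)),
  .mul (.v 220) (.v 220),
  .sub (.q 0 1) (.mul (.v 219) (.mul (.v 220) (.v 220))),
  .sub (.q 0 1) (.mul (.v 219) (.mul (.v 210) (.v 210))),
  .mul (.v 222) (.mul (.v 217) (.v 217)),
  .sub (.q 0 1) (.mul (.v 222) (.mul (.v 213) (.v 213))),
  .mul (.v 223) (.v 223),
  .mul (.v 222) (.mul (.v 223) (.v 223)),
  .mul (.v 225) (.v 225),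
  .mul (.v 224) (.mul (.v 225) (.v 225)),
  .sub (.q 0 1) (.mul (.v 224) (.mul (.v 210) (.v 210))),
  .sub (.q 0 1) (.mul (.v 224) (.mul (.v 218) (.v 218))),
  .mul (.v 227) (.v 227),
  .mul (.v 226) (.mul (.v 227) (.v 227)),
  .sub (.q 0 1) (.mul (.v 226) (.mul (.v 210) (.v 210)))]

def Tbd35 : List Ex := [
  .sub (.q 0 1) (.mul (.v 226) (.mul (.v 223) (.v 223))),
  .mul (.v 229) (.v 229),
  .mul (.v 228) (.mul (.v 229) (.v 229)),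
  .sub (.q 0 1) (.mul (.v 228) (.mul (.v 213) (.v 213))),
  .mul (.v 230) (.v 230),
  .mul (.v 228) (.mul (.v 230) (.v 230)),
  .mul (.v 233) (.v 233),
  .mul (.sub (.v 231) (.v 232)) (.mul (.v 233) (.v 233)),
  .mul (.v 234) (.v 234),
  .mul (.sub (.v 231) (.v 232)) (.mul (.v 234) (.v 234)),
  .mul (.v 235) (.v 235),
  .mul (.sub (.v 232) (.v 231)) (.mul (.v 235) (.v 235)),
  .sub (.q 0 1) (.mul (.v 236) (.mul (.v 225) (.v 225))),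
  .sub (.q 0 1) (.mul (.v 236) (.mul (.v 234) (.v 234))),
  .mul (.v 237) (.v 237),
  .mul (.v 236) (.mul (.v 237) (.v 237))]

def Tbd36 : List Ex := [
  .sub (.q 0 1) (.mul (.v 238) (.mul (.v 227) (.v 227))),
  .sub (.q 0 1) (.mul (.v 238) (.mul (.v 234) (.v 234))),
  .mul (.v 239) (.v 239),
  .mul (.v 238) (.mul (.v 239) (.v 239)),
  .mul (.v 241) (.v 241),
  .mul (.v 240) (.mul (.v 241) (.v 241)),
  .mul (.v 240) (.mul (.v 234) (.v 234)),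
  .mul (.v 243) (.mul (.v 227) (.v 227)),
  .sub (.q 0 1) (.mul (.v 243) (.mul (.v 234) (.v 234))),
  .sub (.q 0 1) (.mul (.v 243) (.mul (.v 230) (.v 230))),
  .mul (.v 245) (.v 245),
  .mul (.v 244) (.mul (.v 245) (.v 245)),
  .mul (.v 244) (.mul (.v 234) (.v 234)),
  .mul (.sub (.v 247) (.v 248)) (.mul (.v 241) (.v 241)),
  .mul (.sub (.v 248) (.v 247)) (.mul (.v 213) (.v 213)),
  .mul (.v 249) (.v 249)]

def Tbd37 : List Ex := [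
  .mul (.sub (.v 248) (.v 247)) (.mul (.v 249) (.v 249)),
  .mul (.v 250) (.mul (.v 241) (.v 241)),
  .sub (.q 0 1) (.mul (.v 250) (.mul (.v 234) (.v 234))),
  .mul (.sub (.v 252) (.v 253)) (.mul (.v 245) (.v 245)),
  .mul (.sub (.v 253) (.v 252)) (.mul (.v 234) (.v 234)),
  .mul (.v 256) (.v 256),
  .mul (.v 255) (.mul (.v 256) (.v 256)),
  .mul (.v 257) (.v 257),
  .mul (.v 255) (.mul (.v 257) (.v 257)),
  .mul (.v 259) (.v 259),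
  .sub (.q 0 1) (.mul (.v 501) (.mul (.v 259) (.v 259))),
  .mul (.v 260) (.v 260),
  .sub (.q 0 1) (.mul (.v 501) (.mul (.v 260) (.v 260))),
  .mul (.v 261) (.v 261),
  .mul (.v 501) (.mul (.v 261) (.v 261)),
  .q 0 1]

def Tbd38 : List Ex := [
  .sub (.q 0 1) (.v 506),
  .q 0 1,
  .sub (.q 0 1) (.v 508),
  .sub (.q 0 1) (.v 518),
  .sub (.q 0 1) (.v 512),
  .sub (.sub (.q 0 1) (.v 520)) (.mul (.v 24) (.add (.mul (.v 0) (.v 403)) (.mul (.v 0) (.v 293)))),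
  .sub (.q 0 1) (.v 510),
  .sub (.q 0 1) (.v 516),
  .sub (.sub (.q 0 1) (.v 514)) (.mul (.v 24) (.mul (.v 0) (.v 293))),
  .sub (.sub (.q 0 1) (.v 522)) (.mul (.v 24) (.v 323)),
  .sub (.sub (.q 0 1) (.v 522)) (.mul (.v 24) (.add (.v 172) (.v 504))),
  .sub (.sub (.q 0 1) (.v 522)) (.mul (.v 24) (.v 504)),
  .sub (.q 0 1) (.mul (.v 24) (.v 504)),
  .sub (.sub (.q 0 1) (.v 295)) (.v 295),
  .sub (.sub (.q 0 1) (.v 297)) (.v 299),
  .sub (.sub (.sub (.q 0 1) (.v 297)) (.v 299)) (.v 301)]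

def Tbd39 : List Ex := [
  .sub (.sub (.sub (.sub (.sub (.sub (.q 0 1) (.v 303)) (.v 297)) (.v 299)) (.v 305)) (.v 307)) (.v 301),
  .sub (.sub (.sub (.sub (.sub (.sub (.q 0 1) (.v 524)) (.v 529)) (.v 535)) (.v 539)) (.v 543)) (.v 548),
  .sub (.sub (.sub (.sub (.sub (.sub (.sub (.sub (.sub (.q 0 1) (.v 295)) (.v 535)) (.v 543)) (.v 548)) (.v 553)) (.v 558)) (.v 576)) (.v 589)) (.v 594),
  .sub (.sub (.sub (.sub (.sub (.sub (.sub (.sub (.sub (.sub (.sub (.q 0 1) (.v 295)) (.v 548)) (.v 564)) (.v 569)) (.v 571)) (.v 576)) (.v 580)) (.v 589)) (.v 594)) (.v 598)) (.v 605),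
  .sub (.sub (.sub (.sub (.sub (.sub (.sub (.sub (.sub (.sub (.sub (.q 0 1) (.v 295)) (.v 569)) (.v 576)) (.v 580)) (.v 584)) (.v 594)) (.v 598)) (.v 603)) (.v 605)) (.v 611)) (.v 615),
  .sub (.sub (.sub (.sub (.sub (.sub (.sub (.q 0 1) (.v 295)) (.v 569)) (.v 603)) (.v 609)) (.v 611)) (.v 615)) (.v 617),
  .sub (.sub (.q 0 1) (.v 295)) (.v 620),
  .sub (.sub (.sub (.sub (.sub (.sub (.q 0 1) (.v 526)) (.v 531)) (.v 536)) (.v 541)) (.v 544)) (.v 549),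
  .sub (.sub (.sub (.sub (.sub (.sub (.sub (.sub (.sub (.sub (.sub (.sub (.sub (.sub (.sub (.sub (.q 0 1) (.v 443)) (.v 531)) (.v 536)) (.v 541)) (.v 544)) (.v 549)) (.v 555)) (.v 560)) (.v 565)) (.v 570)) (.v 572)) (.v 577)) (.v 581)) (.v 585)) (.v 612)) (.v 622),
  .sub (.sub (.sub (.sub (.sub (.sub (.sub (.sub (.sub (.sub (.sub (.sub (.sub (.sub (.q 0 1) (.v 531)) (.v 536)) (.v 541)) (.v 544)) (.v 549)) (.v 555)) (.v 560)) (.v 565)) (.v 570)) (.v 572)) (.v 577)) (.v 581)) (.v 585)) (.v 612),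
  .sub (.sub (.sub (.sub (.sub (.sub (.sub (.sub (.sub (.sub (.sub (.sub (.sub (.sub (.sub (.q 0 1) (.v 541)) (.v 544)) (.v 549)) (.v 560)) (.v 572)) (.v 585)) (.v 591)) (.v 595)) (.v 599)) (.v 604)) (.v 606)) (.v 610)) (.v 612)) (.v 616)) (.v 618),
  .sub (.sub (.sub (.sub (.sub (.sub (.q 0 1) (.v 303)) (.v 297)) (.v 299)) (.v 305)) (.v 307)) (.v 301),
  .sub (.sub (.sub (.sub (.sub (.sub (.sub (.q 0 1) (.v 303)) (.v 597)) (.v 601)) (.v 297)) (.v 299)) (.v 305)) (.v 301),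
  .sub (.sub (.sub (.sub (.sub (.sub (.sub (.q 0 1) (.v 303)) (.v 597)) (.v 601)) (.v 297)) (.v 299)) (.v 614)) (.v 305),
  .sub (.sub (.sub (.sub (.sub (.sub (.sub (.sub (.q 0 1) (.v 551)) (.v 303)) (.v 587)) (.v 593)) (.v 597)) (.v 601)) (.v 297)) (.v 607),
  .sub (.sub (.sub (.sub (.sub (.sub (.sub (.sub (.sub (.sub (.sub (.q 0 1) (.v 546)) (.v 551)) (.v 562)) (.v 567)) (.v 303)) (.v 574)) (.v 578)) (.v 582)) (.v 593)) (.v 597)) (.v 601)]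

def Tbd40 : List Ex := [
  .sub (.sub (.sub (.sub (.sub (.sub (.sub (.sub (.sub (.sub (.sub (.q 0 1) (.v 538)) (.v 542)) (.v 546)) (.v 551)) (.v 557)) (.v 562)) (.v 567)) (.v 303)) (.v 578)) (.v 593)) (.v 597),
  .sub (.sub (.sub (.sub (.sub (.sub (.sub (.q 0 1) (.v 533)) (.v 538)) (.v 542)) (.v 546)) (.v 551)) (.v 557)) (.v 562),
  .sub (.sub (.sub (.sub (.sub (.sub (.q 0 1) (.v 528)) (.v 533)) (.v 538)) (.v 542)) (.v 546)) (.v 551),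
  .sub (.q 0 1) (.v 626),
  .q 0 1,
  .sub (.q 0 1) (.v 628),
  .q 0 1,
  .sub (.q 0 1) (.v 624),
  .q 0 1]

def Tbc0 : List Ex := [
  .v 308,
  .v 312,
  .v 320,
  .v 325,
  .v 333,
  .v 340,
  .sub (.q 0 1) (.v 344),
  .sub (.q 0 1) (.v 354),
  .sub (.q 0 1) (.v 387),
  .sub (.q 0 1) (.v 396),
  .v 406,
  .sub (.q 0 1) (.v 412),
  .sub (.q 0 1) (.v 422),
  .v 428,
  .v 432,
  .sub (.q 0 1) (.v 440)]

def Tbc1 : List Ex := [
  .v 445,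
  .sub (.q 0 1) (.v 473),
  .sub (.q 0 1) (.v 477),
  .v 455,
  .v 458,
  .v 467,
  .v 493,
  .v 323,
  .sub (.add (.v 324) (.mul (.sub (.v 49) (.v 50)) (.v 323))) (.mul (.sub (.v 49) (.v 48)) (.v 172)),
  .v 172,
  .v 311,
  .add (.mul (.v 24) (.v 121)) (.v 629),
  .add (.mul (.v 24) (.v 119)) (.v 629),
  .mul (.v 24) (.v 118),
  .sub (.v 337) (.v 336),
  .sub (.v 336) (.v 173)]

def Tbc2 : List Ex := [
  .v 173,
  .sub (.q 0 1) (.add (.mul (.v 23) (.v 161)) (.v 630)),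
  .sub (.q 0 1) (.add (.mul (.v 23) (.v 163)) (.v 630)),
  .sub (.q 0 1) (.add (.mul (.v 23) (.v 163)) (.v 631)),
  .sub (.q 0 1) (.add (.mul (.v 23) (.v 165)) (.v 631)),
  .sub (.mul (.v 23) (.v 164)) (.v 311),
  .sub (.q 0 1) (.add (.mul (.v 24) (.v 121)) (.v 632)),
  .sub (.q 0 1) (.add (.mul (.v 24) (.v 123)) (.v 632)),
  .sub (.mul (.v 24) (.v 122)) (.mul (.v 174) (.v 177)),
  .v 401,
  .sub (.q 0 1) (.add (.mul (.v 23) (.v 157)) (.v 633)),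
  .sub (.q 0 1) (.add (.mul (.v 23) (.v 159)) (.v 633)),
  .sub (.add (.v 402) (.mul (.v 178) (.v 180))) (.mul (.v 399) (.v 183)),
  .sub (.q 0 1) (.add (.mul (.v 23) (.v 159)) (.v 634)),
  .sub (.q 0 1) (.add (.mul (.v 23) (.v 161)) (.v 634)),
  .sub (.mul (.v 23) (.v 160)) (.v 402)]

def Tbc3 : List Ex := [
  .sub (.q 0 1) (.add (.mul (.v 24) (.v 125)) (.v 635)),
  .sub (.q 0 1) (.add (.mul (.v 24) (.v 127)) (.v 635)),
  .add (.add (.mul (.v 24) (.v 126)) (.mul (.mul (.v 24) (.v 0)) (.add (.v 400) (.mul (.sub (.v 82) (.v 83)) (.v 403))))) (.mul (.mul (.v 24) (.v 0)) (.mul (.v 185) (.v 187))),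
  .add (.mul (.q 1 1) (.v 105)) (.v 636),
  .add (.mul (.q 1 1) (.v 103)) (.v 636),
  .sub (.add (.v 401) (.mul (.v 399) (.v 182))) (.mul (.v 178) (.v 179)),
  .add (.mul (.q 1 1) (.v 103)) (.v 637),
  .add (.mul (.q 1 1) (.v 101)) (.v 637),
  .sub (.mul (.q 1 1) (.v 100)) (.v 401),
  .v 402,
  .add (.mul (.v 24) (.v 125)) (.v 638),
  .add (.mul (.v 24) (.v 123)) (.v 638),
  .add (.mul (.v 24) (.v 122)) (.mul (.mul (.v 24) (.v 0)) (.v 400)),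
  .sub (.v 426) (.v 425),
  .sub (.v 425) (.v 427),
  .v 427]

def Tbc4 : List Ex := [
  .v 403,
  .add (.v 400) (.mul (.sub (.v 82) (.v 83)) (.v 403)),
  .add (.mul (.v 24) (.v 113)) (.v 639),
  .add (.mul (.v 24) (.v 111)) (.v 639),
  .sub (.add (.mul (.v 24) (.mul (.sub (.v 49) (.v 48)) (.v 172))) (.mul (.v 24) (.v 173))) (.mul (.v 24) (.add (.v 324) (.mul (.sub (.v 49) (.v 50)) (.v 323)))),
  .add (.mul (.v 24) (.v 111)) (.v 640),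
  .add (.mul (.v 24) (.v 109)) (.v 640),
  .sub (.mul (.v 24) (.v 336)) (.mul (.v 24) (.v 173)),
  .add (.mul (.v 24) (.v 109)) (.v 641),
  .add (.mul (.v 24) (.v 107)) (.v 641),
  .sub (.sub (.mul (.v 24) (.v 337)) (.mul (.v 24) (.v 336))) (.mul (.v 185) (.v 188)),
  .add (.mul (.v 24) (.v 107)) (.v 642),
  .add (.mul (.v 24) (.v 105)) (.v 642),
  .sub (.sub (.mul (.v 24) (.v 104)) (.mul (.v 24) (.v 337))) (.mul (.v 24) (.mul (.v 174) (.v 175))),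
  .add (.mul (.q 1 1) (.v 89)) (.v 643),
  .add (.mul (.q 1 1) (.v 87)) (.v 643)]

def Tbc5 : List Ex := [
  .v 431,
  .sub (.v 444) (.mul (.sub (.v 71) (.v 70)) (.v 443)),
  .v 443,
  .add (.mul (.v 24) (.v 149)) (.v 644),
  .add (.mul (.v 24) (.v 147)) (.v 644),
  .add (.mul (.v 24) (.v 147)) (.v 645),
  .add (.mul (.v 24) (.v 145)) (.v 645),
  .add (.mul (.v 219) (.v 221)) (.mul (.v 253) (.v 254)),
  .add (.mul (.v 24) (.v 145)) (.v 646),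
  .add (.mul (.v 24) (.v 143)) (.v 646),
  .sub (.sub (.sub (.sub (.sub (.sub (.mul (.v 24) (.v 142)) (.mul (.v 303) (.sub (.v 65) (.v 59)))) (.mul (.v 297) (.sub (.v 65) (.v 68)))) (.mul (.v 299) (.sub (.v 65) (.v 68)))) (.mul (.v 305) (.sub (.v 65) (.v 66)))) (.add (.mul (.v 252) (.v 254)) (.mul (.v 307) (.sub (.v 65) (.v 64))))) (.mul (.v 301) (.sub (.v 65) (.v 67))),
  .add (.mul (.q 1 1) (.v 101)) (.v 647),
  .add (.mul (.q 1 1) (.v 99)) (.v 647),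
  .sub (.sub (.add (.add (.add (.add (.v 426) (.mul (.v 185) (.v 186))) (.mul (.v 212) (.v 209))) (.mul (.v 224) (.v 225))) (.mul (.v 231) (.v 233))) (.mul (.v 189) (.v 190))) (.mul (.v 194) (.v 190)),
  .add (.mul (.q 1 1) (.v 99)) (.v 648),
  .add (.mul (.q 1 1) (.v 97)) (.v 648)]

def Tbc6 : List Ex := [
  .sub (.sub (.sub (.add (.add (.add (.mul (.v 215) (.v 217)) (.mul (.v 222) (.v 217))) (.mul (.v 226) (.v 227))) (.mul (.v 243) (.v 227))) (.mul (.v 197) (.v 198))) (.mul (.v 203) (.v 198))) (.mul (.v 208) (.v 209)),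
  .add (.mul (.q 1 1) (.v 97)) (.v 649),
  .add (.mul (.q 1 1) (.v 95)) (.v 649),
  .sub (.sub (.sub (.sub (.add (.add (.add (.add (.v 425) (.mul (.v 228) (.v 229))) (.mul (.v 240) (.v 241))) (.mul (.v 247) (.v 241))) (.mul (.v 250) (.v 241))) (.v 426)) (.mul (.v 205) (.v 206))) (.mul (.v 216) (.v 217))) (.mul (.v 232) (.v 233)),
  .add (.mul (.q 1 1) (.v 95)) (.v 650),
  .add (.mul (.q 1 1) (.v 93)) (.v 650),
  .sub (.sub (.add (.mul (.v 244) (.v 245)) (.mul (.v 252) (.v 245))) (.mul (.v 236) (.v 225))) (.mul (.v 238) (.v 227)),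
  .add (.mul (.q 1 1) (.v 93)) (.v 651),
  .add (.mul (.q 1 1) (.v 91)) (.v 651),
  .sub (.sub (.sub (.mul (.v 255) (.v 256)) (.mul (.v 219) (.v 220))) (.mul (.v 248) (.v 241))) (.mul (.v 253) (.v 245)),
  .add (.mul (.q 1 1) (.v 91)) (.v 652),
  .add (.mul (.q 1 1) (.v 89)) (.v 652),
  .sub (.sub (.mul (.q 1 1) (.v 88)) (.v 425)) (.mul (.v 295) (.sub (.v 38) (.v 36))),
  .add (.mul (.v 23) (.v 157)) (.v 653),
  .add (.mul (.v 23) (.v 155)) (.v 653),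
  .sub (.sub (.add (.add (.add (.add (.mul (.sub (.v 71) (.v 70)) (.v 443)) (.mul (.v 212) (.v 213))) (.mul (.v 215) (.v 210))) (.mul (.v 248) (.v 213))) (.mul (.v 255) (.v 257))) (.v 444)) (.mul (.v 189) (.v 191))]

def Tbc7 : List Ex := [
  .add (.mul (.v 23) (.v 155)) (.v 654),
  .add (.mul (.v 23) (.v 153)) (.v 654),
  .add (.mul (.v 23) (.v 153)) (.v 655),
  .add (.mul (.v 23) (.v 151)) (.v 655),
  .sub (.sub (.sub (.sub (.sub (.sub (.sub (.add (.add (.add (.mul (.v 231) (.v 234)) (.mul (.v 240) (.v 234))) (.mul (.v 244) (.v 234))) (.mul (.v 253) (.v 234))) (.mul (.v 194) (.v 195))) (.mul (.v 197) (.v 195))) (.mul (.v 208) (.v 210))) (.mul (.v 216) (.v 210))) (.mul (.v 219) (.v 210))) (.mul (.v 224) (.v 210))) (.mul (.v 226) (.v 210)),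
  .add (.mul (.v 23) (.v 151)) (.v 656),
  .add (.mul (.v 23) (.v 149)) (.v 656),
  .sub (.sub (.sub (.sub (.sub (.sub (.sub (.sub (.sub (.sub (.sub (.mul (.v 23) (.v 148)) (.mul (.v 203) (.v 201))) (.mul (.v 205) (.v 201))) (.mul (.v 222) (.v 213))) (.mul (.v 228) (.v 213))) (.mul (.v 232) (.v 234))) (.mul (.v 236) (.v 234))) (.mul (.v 238) (.v 234))) (.mul (.v 243) (.v 234))) (.mul (.v 247) (.v 213))) (.mul (.v 250) (.v 234))) (.mul (.v 252) (.v 234)),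
  .add (.mul (.v 24) (.v 143)) (.v 657),
  .add (.mul (.v 24) (.v 141)) (.v 657),
  .sub (.add (.mul (.v 236) (.v 237)) (.mul (.v 238) (.v 239))) (.mul (.v 252) (.v 254)),
  .add (.mul (.v 24) (.v 141)) (.v 658),
  .add (.mul (.v 24) (.v 139)) (.v 658),
  .sub (.mul (.v 248) (.v 249)) (.mul (.v 255) (.v 258)),
  .add (.mul (.v 24) (.v 139)) (.v 659),
  .add (.mul (.v 24) (.v 137)) (.v 659)]

def Tbc8 : List Ex := [
  .sub (.sub (.sub (.add (.add (.mul (.v 205) (.v 207)) (.mul (.v 228) (.v 230))) (.mul (.v 232) (.v 235))) (.mul (.v 244) (.v 246))) (.mul (.v 247) (.v 249))) (.mul (.v 250) (.v 251)),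
  .add (.mul (.v 24) (.v 137)) (.v 660),
  .add (.mul (.v 24) (.v 135)) (.v 660),
  .sub (.sub (.add (.add (.mul (.v 203) (.v 204)) (.mul (.v 216) (.v 218))) (.mul (.v 222) (.v 223))) (.mul (.v 240) (.v 242))) (.mul (.v 243) (.v 230)),
  .add (.mul (.v 24) (.v 135)) (.v 661),
  .add (.mul (.v 24) (.v 133)) (.v 661),
  .sub (.add (.mul (.v 197) (.v 199)) (.mul (.v 208) (.v 211))) (.mul (.v 226) (.v 223)),
  .add (.mul (.v 24) (.v 133)) (.v 662),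
  .add (.mul (.v 24) (.v 131)) (.v 662),
  .sub (.sub (.sub (.mul (.v 194) (.v 196)) (.mul (.v 215) (.v 218))) (.mul (.v 224) (.v 218))) (.mul (.v 231) (.v 235)),
  .add (.mul (.v 24) (.v 131)) (.v 663),
  .add (.mul (.v 24) (.v 129)) (.v 663),
  .sub (.mul (.v 189) (.v 192)) (.mul (.v 212) (.v 214)),
  .add (.mul (.v 24) (.v 129)) (.v 664),
  .add (.mul (.v 24) (.v 127)) (.v 664),
  .sub (.sub (.sub (.mul (.v 24) (.v 126)) (.mul (.v 193) (.v 196))) (.mul (.v 200) (.v 199))) (.mul (.v 202) (.v 204))]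

def Tbc9 : List Ex := [
  .v 502,
  .sub (.q 0 1) (.add (.mul (.v 23) (.v 165)) (.v 665)),
  .sub (.q 0 1) (.add (.mul (.v 23) (.v 167)) (.v 665)),
  .v 500,
  .sub (.q 0 1) (.add (.mul (.v 23) (.v 167)) (.v 666)),
  .sub (.q 0 1) (.add (.mul (.v 23) (.v 169)) (.v 666)),
  .sub (.mul (.v 23) (.v 168)) (.v 500),
  .sub (.q 0 1) (.add (.mul (.v 24) (.v 117)) (.v 667)),
  .sub (.q 0 1) (.add (.mul (.v 24) (.v 119)) (.v 667)),
  .sub (.mul (.v 24) (.v 118)) (.mul (.v 501) (.v 261)),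
  .v 499,
  .sub (.q 0 1) (.add (.mul (.v 23) (.v 169)) (.v 668)),
  .sub (.q 0 1) (.add (.mul (.v 23) (.v 171)) (.v 668)),
  .v 498,
  .v 496,
  .add (.mul (.q 1 1) (.v 115)) (.v 669)]

def Tbc10 : List Ex := [
  .add (.mul (.q 1 1) (.v 113)) (.v 669),
  .sub (.sub (.sub (.mul (.q 1 1) (.v 112)) (.v 502)) (.v 499)) (.mul (.v 501) (.v 259)),
  .sub (.v 497) (.v 500),
  .add (.mul (.v 24) (.v 117)) (.v 670),
  .add (.mul (.v 24) (.v 115)) (.v 670),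
  .sub (.mul (.v 24) (.v 114)) (.v 496),
  .sub (.add (.add (.v 48) (.v 76)) (.add (.v 54) (.v 54))) (.add .pi .pi),
  .sub (.add (.add (.v 50) (.v 75)) (.add (.v 54) (.v 54))) (.add .pi .pi),
  .sub (.add (.add .pi .pi) (.add .pi .pi)) (.add (.add (.add (.v 50) (.v 76)) (.add (.v 54) (.v 54))) (.add (.add (.v 48) (.v 75)) (.add (.v 53) (.v 53)))),
  .mul (.v 24) (.sub (.v 119) (.v 121)),
  .sub (.add .pi .pi) (.add (.add (.v 49) (.v 74)) (.add (.v 54) (.v 54))),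
  .sub (.add .pi .pi) (.add (.add (.v 46) (.v 76)) (.add (.v 54) (.v 54))),
  .sub (.add (.add (.add (.v 46) (.v 74)) (.add (.v 54) (.v 54))) (.add (.add (.v 49) (.v 76)) (.add (.v 55) (.v 55)))) (.add (.add .pi .pi) (.add .pi .pi)),
  .sub (.mul (.v 24) (.sub (.v 121) (.v 123))) (.mul (.q 1 2) (.v 174)),
  .sub (.add .pi .pi) (.add (.add (.v 45) (.v 72)) (.add (.v 56) (.v 56))),
  .sub (.add (.add (.add (.v 44) (.v 72)) (.add (.v 56) (.v 56))) (.add (.add (.v 45) (.v 74)) (.add (.v 57) (.v 57)))) (.add (.add .pi .pi) (.add .pi .pi))]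

def Tbc11 : List Ex := [
  .sub (.add (.add (.add (.mul (.v 24) (.sub (.v 125) (.v 127))) (.mul (.mul (.v 24) (.v 0)) (.mul (.sub (.v 83) (.v 82)) (.mul (.v 293) (.sub (.mul (.q 1 2) (.add (.v 82) (.v 83))) (.v 84)))))) (.mul (.mul (.mul (.v 24) (.v 0)) (.sub (.v 83) (.v 82))) (.v 400))) (.mul (.mul (.mul (.v 24) (.v 0)) (.mul (.sub (.v 83) (.v 82)) (.sub (.mul (.q 1 2) (.add (.v 82) (.v 83))) (.v 83)))) (.v 403))) (.mul (.q 1 2) (.v 399)),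
  .sub (.add (.add (.v 46) (.v 73)) (.add (.v 56) (.v 56))) (.add .pi .pi),
  .sub (.add (.add .pi .pi) (.add .pi .pi)) (.add (.add (.add (.v 46) (.v 74)) (.add (.v 56) (.v 56))) (.add (.add (.v 44) (.v 73)) (.add (.v 55) (.v 55)))),
  .sub (.add (.add (.mul (.v 24) (.sub (.v 123) (.v 125))) (.mul (.mul (.v 24) (.v 0)) (.mul (.sub (.v 84) (.v 83)) (.mul (.v 293) (.sub (.mul (.q 1 2) (.add (.v 83) (.v 84))) (.v 84)))))) (.mul (.mul (.mul (.v 24) (.v 0)) (.sub (.v 84) (.v 83))) (.v 400))) (.mul (.q 1 2) (.v 178)),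
  .sub (.add (.add (.v 43) (.v 82)) (.add (.v 50) (.v 50))) (.add .pi .pi),
  .sub (.add (.add (.v 43) (.v 84)) (.add (.v 46) (.v 46))) (.add .pi .pi),
  .sub (.add (.add .pi .pi) (.add .pi .pi)) (.add (.add (.add (.v 43) (.v 84)) (.add (.v 50) (.v 50))) (.add (.add (.v 36) (.v 82)) (.add (.v 46) (.v 46)))),
  .sub (.sub (.sub (.sub (.sub (.sub (.sub (.sub (.mul (.v 24) (.sub (.v 105) (.v 113))) (.mul (.q 1 2) (.v 185))) (.mul (.v 24) (.add (.mul (.sub (.v 49) (.v 48)) (.mul (.sub (.v 49) (.v 48)) (.v 172))) (.mul (.mul (.sub (.v 49) (.v 48)) (.sub (.mul (.q 1 2) (.add (.v 48) (.v 49))) (.v 49))) (.v 172))))) (.mul (.v 24) (.mul (.sub (.v 49) (.v 48)) (.v 173)))) (.mul (.v 24) (.mul (.q 1 2) (.v 174)))) (.mul (.mul (.v 24) (.sub (.v 50) (.v 49))) (.v 324))) (.mul (.mul (.v 24) (.mul (.sub (.v 50) (.v 49)) (.sub (.mul (.q 1 2) (.add (.v 49) (.v 50))) (.v 50))))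 (.v 323))) (.mul (.mul (.v 24) (.sub (.v 48) (.v 47))) (.v 336))) (.mul (.mul (.v 24) (.sub (.v 47) (.v 46))) (.v 337)),
  .sub (.add (.add (.v 36) (.v 72)) (.add (.v 68) (.v 68))) (.add .pi .pi),
  .sub (.add (.add (.v 38) (.v 70)) (.add (.v 68) (.v 68))) (.add .pi .pi),
  .sub (.add (.add (.v 38) (.v 72)) (.add (.v 65) (.v 65))) (.add .pi .pi),
  .sub (.add (.add .pi .pi) (.add .pi .pi)) (.add (.add (.add (.v 38) (.v 72)) (.add (.v 68) (.v 68))) (.add (.add (.v 36) (.v 70)) (.add (.v 65) (.v 65)))),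
  .sub (.sub (.sub (.sub (.sub (.sub (.mul (.v 24) (.sub (.v 143) (.v 149))) (.mul (.sub (.v 68) (.v 65)) (.mul (.v 297) (.sub (.mul (.q 1 2) (.add (.v 65) (.v 68))) (.v 68))))) (.mul (.sub (.v 68) (.v 65)) (.mul (.v 299) (.sub (.mul (.q 1 2) (.add (.v 65) (.v 68))) (.v 68))))) (.mul (.sub (.v 67) (.v 65)) (.mul (.v 301) (.sub (.mul (.q 1 2) (.add (.v 65) (.v 67))) (.v 67))))) (.mul (.sub (.v 66) (.v 65)) (.mul (.v 303) (.sub (.mul (.q 1 2) (.add (.v 65) (.v 66))) (.v 59))))) (.mul (.sub (.v 66) (.v 65)) (.mul (.v 305) (.sub (.mul (.q 1 2) (.add (.v 65) (.v 66))) (.v 66))))) (.mul (.sub (.v 66) (.v 65)) (.add (.mul (.v 253) (.v 254)) (.mul (.v 307) (.sub (.mul (.q 1 2) (.add (.v 65) (.v 66))) (.v 66))))),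
  .sub (.add (.add (.v 44) (.v 68)) (.add (.v 65) (.v 65))) (.add .pi .pi),
  .sub (.add (.add .pi .pi) (.add .pi .pi)) (.add (.add (.add (.v 44) (.v 72)) (.add (.v 65) (.v 65))) (.add (.add (.v 38) (.v 68)) (.add (.v 57) (.v 57)))),
  .sub (.sub (.sub (.sub (.sub (.sub (.sub (.sub (.sub (.sub (.sub (.sub (.sub (.sub (.sub (.sub (.sub (.sub (.sub (.sub (.sub (.sub (.sub (.sub (.mul (.v 24) (.sub (.v 127) (.v 143))) (.mul (.sub (.v 65) (.v 59)) (.mul (.v 303) (.sub (.mul (.q 1 2) (.add (.v 59) (.v 65))) (.v 59))))) (.mul (.sub (.v 65) (.v 61)) (.mul (.v 297) (.sub (.mul (.q 1 2) (.add (.v 61) (.v 65))) (.v 68))))) (.mul (.sub (.v 65) (.v 62)) (.mul (.v 299) (.sub (.mul (.q 1 2) (.add (.v 62) (.v 65))) (.v 68))))) (.mul (.sub (.v 65) (.v 62)) (.mul (.v 305) (.sub (.mul (.q 1 2) (.add (.v 62) (.v 65))) (.v 66))))) (.mul (.sub (.v 65) (.v 64)) (.add (.mul (.v 252)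 (.v 254)) (.mul (.v 307) (.sub (.mul (.q 1 2) (.add (.v 64) (.v 65))) (.v 64)))))) (.mul (.sub (.v 65) (.v 63)) (.mul (.v 301) (.sub (.mul (.q 1 2) (.add (.v 63) (.v 65))) (.v 67))))) (.mul (.q 1 2) (.v 236))) (.mul (.q 1 2) (.v 238))) (.mul (.q 1 2) (.add (.v 247) (.v 248)))) (.mul (.q 1 2) (.v 205))) (.mul (.q 1 2) (.v 228))) (.mul (.q 1 2) (.add (.v 231) (.v 232)))) (.mul (.q 1 2) (.v 243))) (.mul (.q 1 2) (.add (.v 202) (.v 203)))) (.mul (.q 1 2) (.v 212))) (.mul (.q 1 2) (.add (.v 215) (.v 216)))) (.mul (.q 1 2) (.v 222))) (.mul (.q 1 2) (.v 224))) (.mul (.q 1 2) (.v 226))) (.mul (.q 1 2) (.v 197))) (.mul (.q 1 2) (.v 200))) (.mul (.q 1 2) (.v 208))) (.mul (.q 1 2) (.add (.v 193) (.v 194)))) (.mul (.q 1 2) (.v 189))]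

def Tbc12 : List Ex := [
  .sub (.add .pi .pi) (.add (.add (.v 51) (.v 76)) (.add (.v 52) (.v 52))),
  .sub (.add .pi .pi) (.add (.add (.v 50) (.v 78)) (.add (.v 52) (.v 52))),
  .sub (.add (.add (.add (.v 50) (.v 76)) (.add (.v 52) (.v 52))) (.add (.add (.v 51) (.v 78)) (.add (.v 53) (.v 53)))) (.add (.add .pi .pi) (.add .pi .pi)),
  .sub (.mul (.v 24) (.sub (.v 117) (.v 119))) (.mul (.q 1 2) (.v 501)),
  .sub (.add .pi .pi) (.add (.add (.v 51) (.v 78)) (.add (.v 51) (.v 51))),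
  .sub (.add .pi .pi) (.add (.add (.v 50) (.v 80)) (.add (.v 51) (.v 51))),
  .sub (.add (.add (.add (.v 50) (.v 78)) (.add (.v 51) (.v 51))) (.add (.add (.v 51) (.v 80)) (.add (.v 52) (.v 52)))) (.add (.add .pi .pi) (.add .pi .pi)),
  .mul (.sub (.v 52) (.v 51)) (.v 496),
  .sub (.add (.add (.v 50) (.v 80)) (.add (.v 52) (.v 52))) (.add .pi .pi),
  .sub (.add (.add (.v 51) (.v 80)) (.add (.v 51) (.v 51))) (.add .pi .pi),
  .sub (.add (.add .pi .pi) (.add .pi .pi)) (.add (.add (.add (.v 51) (.v 80)) (.add (.v 52) (.v 52))) (.add (.add (.v 50) (.v 77)) (.add (.v 51) (.v 51)))),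
  .sub (.mul (.v 24) (.sub (.v 115) (.v 117))) (.mul (.sub (.v 52) (.v 51)) (.v 496)),
  .v 174,
  .v 178,
  .v 399,
  .v 185]

def Tbc13 : List Ex := [
  .v 189,
  .v 193,
  .v 194,
  .v 197,
  .v 200,
  .v 202,
  .v 203,
  .v 205,
  .v 208,
  .v 212,
  .v 215,
  .v 216,
  .v 219,
  .v 222,
  .v 224,
  .v 226]

def Tbc14 : List Ex := [
  .v 228,
  .v 231,
  .v 232,
  .v 236,
  .v 238,
  .v 240,
  .v 243,
  .v 244,
  .v 247,
  .v 248,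
  .v 250,
  .v 252,
  .v 253,
  .v 255,
  .v 501]

def Tbch : List Ex := [
  .sub (.v 35) (.v 34),
  .sub (.v 36) (.v 35),
  .sub (.v 37) (.v 36),
  .sub (.v 38) (.v 37),
  .sub (.v 39) (.v 38),
  .sub (.v 40) (.v 39),
  .sub (.v 41) (.v 40),
  .sub (.v 42) (.v 41),
  .sub (.v 43) (.v 42),
  .sub (.v 44) (.v 43),
  .sub (.v 45) (.v 44),
  .sub (.v 46) (.v 45),
  .sub (.v 47) (.v 46),
  .sub (.v 48) (.v 47),
  .sub (.v 49) (.v 48),
  .sub (.v 50) (.v 49),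
  .sub (.v 51) (.v 50),
  .sub (.v 52) (.v 51),
  .sub (.v 53) (.v 52),
  .sub (.v 54) (.v 53),
  .sub (.v 55) (.v 54),
  .sub (.v 56) (.v 55),
  .sub (.v 57) (.v 56),
  .sub (.v 58) (.v 57),
  .sub (.v 59) (.v 58),
  .sub (.v 60) (.v 59),
  .sub (.v 61) (.v 60),
  .sub (.v 62) (.v 61),
  .sub (.v 63) (.v 62),
  .sub (.v 64) (.v 63),
  .sub (.v 65) (.v 64),
  .sub (.v 66) (.v 65),
  .sub (.v 67) (.v 66),
  .sub (.v 68) (.v 67),
  .sub (.v 69) (.v 68),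
  .sub (.v 70) (.v 69),
  .sub (.v 71) (.v 70),
  .sub (.v 72) (.v 71),
  .sub (.v 73) (.v 72),
  .sub (.v 74) (.v 73),
  .sub (.v 75) (.v 74),
  .sub (.v 76) (.v 75),
  .sub (.v 77) (.v 76),
  .sub (.v 78) (.v 77),
  .sub (.v 79) (.v 78),
  .sub (.v 80) (.v 79),
  .sub (.v 81) (.v 80),
  .sub (.v 82) (.v 81),
  .sub (.v 83) (.v 82),
  .sub (.v 84) (.v 83),
  .sub (.v 85) (.v 84)]

def Tbds : List Ex := Tbd0 ++ (Tbd1 ++ (Tbd2 ++ (Tbd3 ++ (Tbd4 ++ (Tbd5 ++ (Tbd6 ++ (Tbd7 ++ (Tbd8 ++ (Tbd9 ++ (Tbd10 ++ (Tbd11 ++ (Tbd12 ++ (Tbd13 ++ (Tbd14 ++ (Tbd15 ++ (Tbd16 ++ (Tbd17 ++ (Tbd18 ++ (Tbd19 ++ (Tbd20 ++ (Tbd21 ++ (Tbd22 ++ (Tbd23 ++ (Tbd24 ++ (Tbd25 ++ (Tbd26 ++ (Tbd27 ++ (Tbd28 ++ (Tbd29 ++ (Tbd30 ++ (Tbd31 ++ (Tbd32 ++ (Tbd33 ++ (Tbd34 ++ (Tbd35 ++ (Tbd36 ++ (Tbd37 ++ (Tbd38 ++ (Tbd39 ++ (Tbd40))))))))))))))))))))))))))))))))))))))))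

def Tbcs : List Ex := Tbch ++ (Tbc0 ++ (Tbc1 ++ (Tbc2 ++ (Tbc3 ++ (Tbc4 ++ (Tbc5 ++ (Tbc6 ++ (Tbc7 ++ (Tbc8 ++ (Tbc9 ++ (Tbc10 ++ (Tbc11 ++ (Tbc12 ++ (Tbc13 ++ (Tbc14)))))))))))))))


end Pool.Agent.MP_e5b4ec_an.Mid
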